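import Mathlib

set_option autoImplicit false

namespace Pool.Agent.P.MP_4f3dfd_co.Asy

open Finset Finset.Colex

section
variable {V : Type*} [DecidableEq V]

/-- The members of the shadow below a fixed set X are the sets X minus a point. -/
theorem card_below (A : Finset (Finset V)) (k : ℕ) (hA : ∀ X ∈ A, #X = k) (X : Finset V)
    (hX : X ∈ A) : #((shadow A).bipartiteAbove (fun X Y : Finset V => Y ⊆ X) X) = k := by
  have : (shadow A).bipartiteAbove (fun X Y : Finset V => Y ⊆ X) X = X.image (X.erase ·) := by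
    ext Y
    simp only [mem_bipartiteAbove, mem_image]
    constructor
    · rintro ⟨hY, hYX⟩
      obtain ⟨Z, hZ, -, hc⟩ := mem_shadow_iff_exists_mem_card_add_one.1 hY
      have h1 : #X = #Y + 1 := by rw [hA X hX, ← hc, hA Z hZ]
      have h2 : #(X \ Y) = 1 := by rw [card_sdiff_of_subset hYX]; omega
      obtain ⟨a, ha⟩ := card_eq_one.1 h2
      have ha' : a ∈ X \ Y := by rw [ha]; exact mem_singleton_self a
      rw [mem_sdiff] at ha'
      refine ⟨a, ha'.1, ?_⟩
      symm
      apply eq_of_subset_of_card_le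
      · intro y hy
        exact mem_erase.2 ⟨fun h => ha'.2 (h ▸ hy), hYX hy⟩
      · rw [card_erase_of_mem ha'.1]; omega
    · rintro ⟨a, ha, rfl⟩
      exact ⟨erase_mem_shadow hX ha, erase_subset _ _⟩
  rw [this, card_image_of_injOn (fun a ha b hb h => erase_injOn X ha hb h), hA X hX]

/-- If every shadow member lies in at least r members, the shadow is small. -/
theorem shadow_mul_le (A : Finset (Finset V)) (k r : ℕ) (hA : ∀ X ∈ A, #X = k)
    (h : ∀ Y ∈ shadow A, r ≤ #{X ∈ A | Y ⊆ X}) : #(shadow A) * r ≤ #A * k :=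
  card_mul_le_card_mul' (fun X Y : Finset V => Y ⊆ X) (s := A) (t := shadow A)
    (fun Y hY => h Y hY) (fun X hX => (card_below A k hA X hX).le)

/-- If every shadow member lies in at most r members, the shadow is large. -/
theorem le_shadow_mul (A : Finset (Finset V)) (k r : ℕ) (hA : ∀ X ∈ A, #X = k)
    (h : ∀ Y ∈ shadow A, #{X ∈ A | Y ⊆ X} ≤ r) : #A * k ≤ #(shadow A) * r :=
  card_mul_le_card_mul (fun X Y : Finset V => Y ⊆ X) (s := A) (t := shadow A)
    (fun X hX => (card_below A k hA X hX).ge) (fun Y hY => h Y hY)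

/-- Inside a ground set P a shadow member has at most |P| - k + 1 extensions. -/
theorem le_shadow_of_subset (A : Finset (Finset V)) (k : ℕ) (P : Finset V)
    (hA : ∀ X ∈ A, #X = k) (hP : ∀ X ∈ A, X ⊆ P) : #A * k ≤ #(shadow A) * (#P + 1 - k) := by
  apply le_shadow_mul A k _ hA
  intro Y hY
  obtain ⟨Z, hZ, hYZ, hc⟩ := mem_shadow_iff_exists_mem_card_add_one.1 hY
  have hYP : Y ⊆ P := hYZ.trans (hP Z hZ)
  have hk : k = #Y + 1 := by rw [← hc, hA Z hZ]
  have : {X ∈ A | Y ⊆ X} ⊆ (P \ Y).image (insert · Y) := by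
    intro X hX
    rw [mem_filter] at hX
    have h2 : #(X \ Y) = 1 := by rw [card_sdiff_of_subset hX.2, hA X hX.1]; omega
    obtain ⟨a, ha⟩ := card_eq_one.1 h2
    have ha' : a ∈ X \ Y := by rw [ha]; exact mem_singleton_self a
    rw [mem_sdiff] at ha'
    refine mem_image.2 ⟨a, mem_sdiff.2 ⟨hP X hX.1 ha'.1, ha'.2⟩, ?_⟩
    apply eq_of_subset_of_card_le
    · exact insert_subset ha'.1 hX.2
    · rw [card_insert_of_notMem ha'.2, hA X hX.1]; omega
  refine (card_le_card this).trans (card_image_le.trans ?_)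
  rw [card_sdiff_of_subset hYP]
  omega

end

/-- Initial segments of every admissible size exist. -/
theorem exists_initSeg (n k : ℕ) : ∀ s : ℕ, s ≤ n.choose k →
    ∃ C : Finset (Finset (Fin n)), IsInitSeg C k ∧ #C = s := by
  intro s
  induction s with
  | zero => exact fun _ => ⟨∅, isInitSeg_empty, rfl⟩
  | succ s ih =>
    intro hs
    obtain ⟨C, hC, hc⟩ := ih (by omega)
    have hne : (powersetCard k (univ : Finset (Fin n)) \ C).Nonempty := by
      rw [← card_pos]
      have := le_card_sdiff C (powersetCard k (univ : Finset (Fin n)))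
      rw [card_powersetCard, card_univ, Fintype.card_fin, hc] at this
      omega
    obtain ⟨X, hX, hmin⟩ := exists_min_image _ (fun X : Finset (Fin n) => toColex X) hne
    rw [mem_sdiff, mem_powersetCard] at hX
    refine ⟨insert X C, ⟨?_, ?_⟩, by rw [card_insert_of_notMem hX.2, hc]⟩
    · intro Y hY
      rw [mem_coe, mem_insert] at hY
      rcases hY with rfl | hY
      · exact hX.1.2
      · exact hC.1 hY
    · intro S T hS hT
      rw [mem_insert] at hS ⊢
      rcases hS with rfl | hS
      · right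
        by_contra hTC
        have := hmin T (mem_sdiff.2 ⟨mem_powersetCard.2 ⟨subset_univ _, hT.2⟩, hTC⟩)
        exact absurd hT.1 (not_lt.2 this)
      · exact Or.inr (hC.2 hS hT)

/-- Ratio form of the Kruskal-Katona theorem. -/
theorem kk_ratio {n k x : ℕ} (hxn : x ≤ n) (A : Finset (Finset (Fin n)))
    (hA : ∀ X ∈ A, #X = k) (hx : #A ≤ x.choose k) : #A * k ≤ #(shadow A) * (x + 1 - k) := by
  obtain ⟨C, hC, hc⟩ := exists_initSeg n k #A (hx.trans (Nat.choose_le_choose k hxn))
  set P : Finset (Fin n) :=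
    attachFin (range x) fun m ↦ by rw [mem_range]; apply forall_lt_iff_le.2 hxn with hPdef
  have hP : #P = x := by rw [hPdef, card_attachFin, card_range]
  have hI : IsInitSeg (powersetCard k P) k := by
    refine ⟨Set.sized_powersetCard _ _, ?_⟩
    simp_rw [mem_powersetCard]
    rintro A B hA ⟨HB₁, HB₂⟩
    refine ⟨fun t ht ↦ ?_, ‹_›⟩
    rw [mem_attachFin, mem_range]
    have : toColex (image Fin.val B) < toColex (image Fin.val A) := by
      rwa [toColex_image_lt_toColex_image Fin.val_strictMono]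
    apply Colex.forall_lt_mono this.le _ t (mem_image.2 ⟨t, ht, rfl⟩)
    simp_rw [mem_image]
    rintro _ ⟨a, ha, hab⟩
    simpa [P, hab] using hA.1 ha
  have hsub : C ⊆ powersetCard k P := by
    rcases hC.total hI with h | h
    · exact h
    · have : powersetCard k P = C := by
        apply eq_of_subset_of_card_le h
        rw [card_powersetCard, hP, hc]; exact hx
      rw [this]
  have h1 := le_shadow_of_subset C k P (fun X hX => hC.1 hX)
    (fun X hX => (mem_powersetCard.1 (hsub hX)).1)
  have h2 := kruskal_katona (𝒜 := A) (𝒞 := C) (r := k) (fun X hX => hA X hX) hc.le hC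
  rw [hP, hc] at h1
  exact h1.trans (Nat.mul_le_mul_right _ h2)

theorem sum_deg_nat {V : Type*} [Fintype V] [DecidableEq V] (J : Finset (Finset V)) (c : ℕ)
    (hJ : ∀ X ∈ J, #X = c) : ∑ v, #{X ∈ J | v ∈ X} = c * #J := by
  simp_rw [card_filter]
  rw [sum_comm]
  have : ∀ X ∈ J, (∑ v : V, if v ∈ X then 1 else 0) = c := by
    intro X hX
    rw [← card_filter]
    simp [hJ X hX]
  rw [sum_congr rfl this, sum_const, smul_eq_mul, mul_comm]

/-- Kruskal-Katona on the links of a regular family. -/
theorem lower {n k d x : ℕ} (hk : 1 ≤ k) (hxn : x ≤ n) (J : Finset (Finset (Fin n)))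
    (hJ : ∀ X ∈ J, #X = k + 1) (hd : ∀ v, #{X ∈ J | v ∈ X} = d) (hx : d ≤ x.choose k) :
    n * d ≤ #(shadow J) * (x + 1 - k) := by
  have hS : ∀ Y ∈ shadow J, #Y = k := by
    intro Y hY
    obtain ⟨Z, hZ, -, hc⟩ := mem_shadow_iff_exists_mem_card_add_one.1 hY
    have := hJ Z hZ
    omega
  have key : ∀ v, d * k ≤ #{Y ∈ shadow J | v ∈ Y} * (x + 1 - k) := by
    intro v
    set L : Finset (Finset (Fin n)) := {X ∈ J | v ∈ X}.image (·.erase v) with hL
    have hLc : #L = d := by
      rw [hL, card_image_of_injOn, hd]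
      intro X hX Y hY h
      rw [mem_coe, mem_filter] at hX hY
      rw [← insert_erase hX.2, ← insert_erase hY.2]
      exact congrArg _ h
    have hLk : ∀ X ∈ L, #X = k := by
      intro X hX
      obtain ⟨Z, hZ, rfl⟩ := mem_image.1 hX
      rw [mem_filter] at hZ
      rw [card_erase_of_mem hZ.2, hJ Z hZ.1]; rfl
    have h1 := kk_ratio hxn L hLk (hLc ▸ hx)
    rw [hLc] at h1
    refine h1.trans (Nat.mul_le_mul_right _ ?_)
    have hmem : ∀ Y ∈ shadow L, v ∉ Y ∧ insert v Y ∈ shadow J := by
      intro Y hY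
      obtain ⟨X, hX, a, ha, rfl⟩ := mem_shadow_iff.1 hY
      obtain ⟨Z, hZ, rfl⟩ := mem_image.1 hX
      rw [mem_filter] at hZ
      rw [mem_erase] at ha
      refine ⟨by simp, ?_⟩
      have : insert v ((Z.erase v).erase a) = Z.erase a := by
        rw [erase_right_comm, insert_erase (mem_erase.2 ⟨ha.1.symm, hZ.2⟩)]
      rw [this]
      exact erase_mem_shadow hZ.1 ha.2
    apply card_le_card_of_injOn (insert v)
    · intro Y hY
      rw [mem_coe, mem_filter]
      exact ⟨(hmem Y hY).2, mem_insert_self _ _⟩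
    · intro Y hY Z hZ h
      rw [← erase_insert (hmem Y hY).1, ← erase_insert (hmem Z hZ).1]
      exact congrArg (·.erase v) h
  have hsum := sum_le_sum (s := (univ : Finset (Fin n))) (fun v _ => key v)
  rw [← sum_mul, ← sum_mul, sum_deg_nat _ k hS, sum_const, card_univ, Fintype.card_fin,
    smul_eq_mul] at hsum
  have : k * (n * d) ≤ k * (#(shadow J) * (x + 1 - k)) := by
    calc k * (n * d) = n * d * k := by ring
      _ ≤ _ := hsum
      _ = _ := by ring
  exact Nat.le_of_mul_le_mul_left this hk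

end Pool.Agent.P.MP_4f3dfd_co.Asy
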