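import Mathlib
import Pool.Agent.P.MP_4f3dfd_co.ALower
import Pool.Agent.P.MP_4f3dfd_co.Round

set_option autoImplicit false

namespace Pool.Agent.P.MP_4f3dfd_co.Asy

open Finset

/-- The number of (k+1)-subsets of P through a given point. -/
theorem card_through {V : Type*} [DecidableEq V] (P : Finset V) (v : V) (hv : v ∈ P) (k : ℕ) :
    #{X ∈ powersetCard (k + 1) P | v ∈ X} = (#P - 1).choose k := by
  rw [← card_erase_of_mem hv, ← card_powersetCard]
  symm
  apply card_bij (fun Y _ => insert v Y)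
  · intro Y hY
    rw [mem_powersetCard] at hY
    have hvY : v ∉ Y := fun h => by simpa using hY.1 h
    refine mem_filter.2 ⟨mem_powersetCard.2 ⟨insert_subset hv (hY.1.trans (erase_subset _ _)), ?_⟩,
      mem_insert_self _ _⟩
    rw [card_insert_of_notMem hvY, hY.2]
  · intro Y hY Z hZ h
    rw [mem_powersetCard] at hY hZ
    have hvY : v ∉ Y := fun h => by simpa using hY.1 h
    have hvZ : v ∉ Z := fun h => by simpa using hZ.1 h
    rw [← erase_insert hvY, ← erase_insert hvZ, h]
  · intro X hX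
    rw [mem_filter, mem_powersetCard] at hX
    refine ⟨X.erase v, mem_powersetCard.2 ⟨erase_subset_erase _ hX.1.1, ?_⟩, insert_erase hX.2⟩
    rw [card_erase_of_mem hX.2, hX.1.2]; rfl

/-- Upper bound from disjoint blocks of almost equal sizes. -/
theorem upper_block {V : Type*} [Fintype V] [DecidableEq V] (g : V → ℕ) (j a b m d : ℕ)
    (hsz : ∀ v, a + 1 ≤ #{u | g u = g v} ∧ #{u | g u = g v} ≤ b + 1)
    (hja : j + 1 ≤ a) (hd : d ≤ a.choose (j + 1)) (hdm : (j + 2) * m = d * Fintype.card V) :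
    ∃ J : Finset (Finset V), (∀ X ∈ J, #X = j + 2) ∧ #J = m ∧ (∀ v, #{X ∈ J | v ∈ X} = d) ∧
      (j + 1) * #(shadow J) ≤
        Fintype.card V * b.choose j + (j + 1) * ((j + 2) * ((j + 2) * Fintype.card V)) := by
  classical
  let F : V → Finset V := fun v => {u | g u = g v}
  let T : Finset (Finset V) := univ.filter fun X => #X = j + 2 ∧ ∀ u ∈ X, ∀ v ∈ X, g u = g v
  have hT : ∀ X ∈ T, #X = j + 2 := fun X hX => (mem_filter.1 hX).2.1
  have hvF : ∀ v, v ∈ F v := fun v => by simp [F]
  have hfil : ∀ v, {X ∈ T | v ∈ X} = {X ∈ powersetCard (j + 2) (F v) | v ∈ X} := by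
    intro v
    ext X
    simp only [T, F, mem_filter, mem_univ, true_and, mem_powersetCard, subset_iff]
    constructor
    · rintro ⟨⟨h1, h2⟩, h3⟩
      exact ⟨⟨fun u hu => h2 u hu v h3, h1⟩, h3⟩
    · rintro ⟨⟨h1, h2⟩, h3⟩
      exact ⟨⟨h2, fun u hu w hw => (h1 hu).trans (h1 hw).symm⟩, h3⟩
  let r : V → ℝ := fun v => (d : ℝ) / ((#(F v) - 1).choose (j + 1) : ℕ)
  have hle : ∀ v, a.choose (j + 1) ≤ (#(F v) - 1).choose (j + 1) := fun v =>
    Nat.choose_le_choose _ (by have := (hsz v).1; simp only [F]; omega)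
  have hpos : ∀ v, (0 : ℝ) < ((#(F v) - 1).choose (j + 1) : ℕ) := fun v => by
    exact_mod_cast (Nat.choose_pos hja).trans_le (hle v)
  let w : Finset V → ℝ := fun X => (∑ u ∈ X, r u) / (j + 2)
  have hw : ∀ X ∈ T, ∀ v ∈ X, w X = r v := by
    intro X hX v hv
    have h1 : ∀ u ∈ X, r u = r v := by
      intro u hu
      have : g u = g v := (mem_filter.1 hX).2.2 u hu v hv
      simp only [r, F, this]
    simp only [w]
    rw [sum_congr rfl h1, sum_const, hT X hX, nsmul_eq_mul]
    push_cast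
    field_simp
  obtain ⟨J, g1, g2, g3, g4⟩ := exists_regular_of_fractional T (j + 2) (by omega) hT w
    (fun X hX => by
      obtain ⟨v, hv⟩ : X.Nonempty := by rw [← card_pos, hT X hX]; omega
      rw [hw X hX v hv]
      refine ⟨by positivity, ?_⟩
      simp only [r]
      rw [div_le_one (hpos v)]
      exact_mod_cast hd.trans (hle v)) d m hdm
    (fun v => by
      rw [sum_congr rfl (fun X hX => hw X (mem_filter.1 hX).1 v (mem_filter.1 hX).2), sum_const,
        hfil, card_through _ _ (hvF v), nsmul_eq_mul]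
      simp only [r]
      have := hpos v
      field_simp)
  refine ⟨J, g1, g2, g3, ?_⟩
  have hS : ∀ Y ∈ shadow T, #Y = j + 1 := by
    intro Y hY
    obtain ⟨Z, hZ, -, hc⟩ := mem_shadow_iff_exists_mem_card_add_one.1 hY
    have := hT Z hZ
    omega
  have key : ∀ v, #{Y ∈ shadow T | v ∈ Y} ≤ b.choose j := by
    intro v
    have h1 : {Y ∈ shadow T | v ∈ Y} ⊆ {X ∈ powersetCard (j + 1) (F v) | v ∈ X} := by
      intro Y hY
      rw [mem_filter] at hY ⊢
      refine ⟨mem_powersetCard.2 ⟨?_, hS Y hY.1⟩, hY.2⟩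
      obtain ⟨Z, hZ, hYZ, -⟩ := mem_shadow_iff_exists_mem_card_add_one.1 hY.1
      intro u hu
      simp only [F, mem_filter, mem_univ, true_and]
      exact (mem_filter.1 hZ).2.2 u (hYZ hu) v (hYZ hY.2)
    refine (card_le_card h1).trans ?_
    rw [card_through _ _ (hvF v)]
    exact Nat.choose_le_choose _ (by have := (hsz v).2; simp only [F]; omega)
  have hsum := sum_le_sum (s := (univ : Finset V)) (fun v _ => key v)
  rw [sum_deg_nat _ _ hS, sum_const, card_univ, smul_eq_mul] at hsum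
  calc (j + 1) * #(shadow J)
      ≤ (j + 1) * (#(shadow T) + (j + 2) * ((j + 2) * Fintype.card V)) := Nat.mul_le_mul_left _ g4
    _ ≤ _ := by rw [mul_add]; omega

/-- Residue classes modulo q have almost equal sizes. -/
theorem card_res (n q : ℕ) (hq : 0 < q) (v : Fin n) :
    n / q ≤ #{u : Fin n | u.val % q = v.val % q} ∧
      #{u : Fin n | u.val % q = v.val % q} ≤ n / q + 1 := by
  have h1 : #{u : Fin n | u.val % q = v.val % q} = n.count (· ≡ v.val [MOD q]) := by
    rw [Nat.count_eq_card_filter_range, card_filter, card_filter,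
      ← Fin.sum_univ_eq_sum_range (fun i => if i ≡ v.val [MOD q] then 1 else 0) n]
    rfl
  rw [h1, Nat.count_modEq_card _ hq]
  split_ifs <;> omega

end Pool.Agent.P.MP_4f3dfd_co.Asy
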