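import Mathlib
import Pool.Agent.P.MP_4f3dfd_co.ALower
import Pool.Agent.P.MP_4f3dfd_co.Round

set_option autoImplicit false
set_option linter.unusedSectionVars false

namespace Pool.Agent.P.MP_4f3dfd_co.Asy

open Finset
open scoped Pointwise

variable {n : ℕ} [NeZero n]

/-- All c-sets inside a cyclic translate of a member of the collection. -/
def cl (c : ℕ) (C : Finset (Finset (Fin n))) : Finset (Finset (Fin n)) :=
  univ.filter fun X => #X = c ∧ ∃ B ∈ C, ∃ s : Fin n, X ⊆ s +ᵥ B

theorem mem_cl {c : ℕ} {C : Finset (Finset (Fin n))} {X : Finset (Fin n)} :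
    X ∈ cl c C ↔ #X = c ∧ ∃ B ∈ C, ∃ s : Fin n, X ⊆ s +ᵥ B := by
  simp [cl]

theorem vadd_mem_cl {c : ℕ} {C : Finset (Finset (Fin n))} {X : Finset (Fin n)} (a : Fin n)
    (h : X ∈ cl c C) : a +ᵥ X ∈ cl c C := by
  rw [mem_cl] at h ⊢
  obtain ⟨hc, B, hB, s, hs⟩ := h
  refine ⟨by rw [card_vadd_finset, hc], B, hB, a + s, ?_⟩
  rw [add_vadd]
  exact vadd_finset_subset_vadd_finset hs

theorem deg_cl (c : ℕ) (C : Finset (Finset (Fin n))) (u v : Fin n) :
    #{X ∈ cl c C | u ∈ X} ≤ #{X ∈ cl c C | v ∈ X} := by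
  apply card_le_card_of_injOn (fun X => (v - u) +ᵥ X)
  · intro X hX
    rw [mem_coe, mem_filter] at hX ⊢
    refine ⟨vadd_mem_cl _ hX.1, mem_vadd_finset.2 ⟨u, hX.2, ?_⟩⟩
    simp
  · intro X _ Y _ h
    exact AddAction.injective _ h

theorem deg_cl_mul (c : ℕ) (C : Finset (Finset (Fin n))) (v : Fin n) :
    n * #{X ∈ cl c C | v ∈ X} = c * #(cl c C) := by
  rw [← sum_deg_nat (cl c C) c (fun X hX => (mem_cl.1 hX).1),
    sum_congr rfl (fun u _ => le_antisymm (deg_cl c C u v) (deg_cl c C v u)), sum_const,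
    card_univ, Fintype.card_fin, smul_eq_mul]

theorem shadow_cl (c y : ℕ) (C : Finset (Finset (Fin n))) (hC : ∀ B ∈ C, #B = y) :
    #(shadow (cl c C)) * (y + 1 - c) ≤ #(cl c C) * c := by
  apply shadow_mul_le _ c _ (fun X hX => (mem_cl.1 hX).1)
  intro Y hY
  obtain ⟨Z, hZ, hYZ, hc⟩ := mem_shadow_iff_exists_mem_card_add_one.1 hY
  obtain ⟨hZc, B, hB, s, hs⟩ := mem_cl.1 hZ
  have hYP : Y ⊆ s +ᵥ B := hYZ.trans hs
  have h1 : #((s +ᵥ B) \ Y) = y + 1 - c := by
    rw [card_sdiff_of_subset hYP, card_vadd_finset, hC B hB]; omega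
  rw [← h1]
  apply card_le_card_of_injOn (insert · Y)
  · intro a ha
    rw [mem_coe, mem_sdiff] at ha
    rw [mem_coe, mem_filter, mem_cl]
    refine ⟨⟨by rw [card_insert_of_notMem ha.2]; omega, B, hB, s, insert_subset ha.1 hYP⟩,
      subset_insert _ _⟩
  · intro a ha b _ h
    rw [mem_coe, mem_sdiff] at ha
    have : a ∈ insert b Y := by
      have h' : insert a Y = insert b Y := h
      rw [← h']; exact mem_insert_self _ _
    rcases mem_insert.1 this with h | h
    · exact h
    · exact absurd h ha.2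

/-- The translates of the (k+1)-subsets of B through a fixed point. -/
def star (k : ℕ) (B : Finset (Fin n)) (z : Fin n) : Finset (Finset (Fin n)) :=
  (univ ×ˢ powersetCard k (B.erase z)).image fun p : Fin n × Finset (Fin n) => p.1 +ᵥ insert z p.2

theorem card_star (k : ℕ) (B : Finset (Fin n)) (z : Fin n) (hz : z ∈ B) :
    #(star k B z) ≤ n * (#B - 1).choose k := by
  refine card_image_le.trans ?_
  rw [card_product, card_univ, Fintype.card_fin, card_powersetCard, card_erase_of_mem hz]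

theorem mem_star {k : ℕ} {B X : Finset (Fin n)} {z : Fin n} (s : Fin n) (hX : #X = k + 1)
    (hz : z ∈ X) (hB : X ⊆ B) : s +ᵥ X ∈ star k B z := by
  refine mem_image.2 ⟨(s, X.erase z), mem_product.2 ⟨mem_univ _, mem_powersetCard.2
    ⟨erase_subset_erase _ hB, by rw [card_erase_of_mem hz, hX]; rfl⟩⟩, ?_⟩
  simp [insert_erase hz]

theorem cl_insert (k : ℕ) (C : Finset (Finset (Fin n))) (B B' : Finset (Fin n)) (hB : B ∈ C)
    (z : Fin n) (h : B'.erase z ⊆ B) :
    cl (k + 1) (insert B' C) ⊆ cl (k + 1) C ∪ star k B' z := by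
  intro X hX
  obtain ⟨hc, A, hA, s, hs⟩ := mem_cl.1 hX
  rw [mem_union]
  rcases mem_insert.1 hA with rfl | hA
  · have h0 : (-s) +ᵥ X ⊆ A := by
      have := vadd_finset_subset_vadd_finset (a := -s) hs
      rwa [neg_vadd_vadd] at this
    by_cases hz : z ∈ (-s) +ᵥ X
    · right
      have := mem_star (k := k) s (by rw [card_vadd_finset, hc]) hz h0
      rwa [vadd_neg_vadd] at this
    · left
      refine mem_cl.2 ⟨hc, B, hB, s, ?_⟩
      have h1 : (-s) +ᵥ X ⊆ B := fun a ha => h (mem_erase.2 ⟨fun e => hz (e ▸ ha), h0 ha⟩)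
      have := vadd_finset_subset_vadd_finset (a := s) h1
      rwa [vadd_neg_vadd] at this
  · exact Or.inl (mem_cl.2 ⟨hc, A, hA, s, hs⟩)

theorem cl_interval (k y : ℕ) :
    cl (k + 1) {(univ.filter fun i : Fin n => i.val < y)} ⊆
      star k (univ.filter fun i : Fin n => i.val < y) 0 := by
  intro X hX
  obtain ⟨hc, A, hA, s, hs⟩ := mem_cl.1 hX
  rw [mem_singleton] at hA
  subst hA
  have h0 : (-s) +ᵥ X ⊆ univ.filter fun i : Fin n => i.val < y := by
    have := vadd_finset_subset_vadd_finset (a := -s) hs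
    rwa [neg_vadd_vadd] at this
  have hne : ((-s) +ᵥ X).Nonempty := by
    rw [← card_pos, card_vadd_finset, hc]; omega
  set a := ((-s) +ᵥ X).min' hne with ha
  have h1 : (-a) +ᵥ ((-s) +ᵥ X) ⊆ univ.filter fun i : Fin n => i.val < y := by
    intro i hi
    obtain ⟨j, hj, rfl⟩ := mem_vadd_finset.1 hi
    have hle : a ≤ j := min'_le _ _ hj
    have hjy := (mem_filter.1 (h0 hj)).2
    refine mem_filter.2 ⟨mem_univ _, ?_⟩
    have : (-a +ᵥ j : Fin n) = j - a := by simp [sub_eq_neg_add]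
    rw [this, Fin.sub_val_of_le hle]
    omega
  have h2 : (0 : Fin n) ∈ (-a) +ᵥ ((-s) +ᵥ X) :=
    mem_vadd_finset.2 ⟨a, min'_mem _ _, by simp⟩
  have := mem_star (k := k) (s + a) (by rw [card_vadd_finset, card_vadd_finset, hc]) h2 h1
  rwa [add_vadd, vadd_neg_vadd, vadd_neg_vadd] at this

/-- The Johnson graph is connected. -/
theorem exists_adj {V : Type*} [DecidableEq V] (y : ℕ) (C : Finset (Finset V))
    (hC : ∀ B ∈ C, #B = y) : ∀ (j : ℕ) (B B' : Finset V), B ∈ C → B' ∉ C → #B' = y →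
      #(B' \ B) = j → ∃ A ∈ C, ∃ A' ∉ C, #A' = y ∧ ∃ z ∈ A', A'.erase z ⊆ A := by
  intro j
  induction j with
  | zero =>
    intro B B' hB hB' hc h
    rw [card_eq_zero, sdiff_eq_empty_iff_subset] at h
    have := eq_of_subset_of_card_le h (by rw [hC B hB, hc])
    exact absurd (this ▸ hB) hB'
  | succ j ih =>
    intro B B' hB hB' hc h
    obtain ⟨z, hz⟩ : (B' \ B).Nonempty := by rw [← card_pos]; omega
    obtain ⟨w, hw⟩ : (B \ B').Nonempty := by
      rw [← card_pos, card_sdiff_comm (by rw [hC B hB, hc])]; omega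
    rw [mem_sdiff] at hz hw
    have hcard : #(insert z (B.erase w)) = y := by
      rw [card_insert_of_notMem (fun h => hz.2 (mem_of_mem_erase h)), card_erase_of_mem hw.1,
        hC B hB]
      have : 0 < #B := card_pos.2 ⟨w, hw.1⟩
      rw [hC B hB] at this
      omega
    by_cases hin : insert z (B.erase w) ∈ C
    · refine ih _ B' hin hB' hc ?_
      have : B' \ insert z (B.erase w) = (B' \ B).erase z := by
        ext a
        simp only [mem_sdiff, mem_insert, mem_erase]
        constructor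
        · rintro ⟨h1, h2⟩
          push Not at h2
          exact ⟨h2.1, h1, h2.2 (fun e => hw.2 (e ▸ h1))⟩
        · rintro ⟨h1, h2, h3⟩
          exact ⟨h2, by tauto⟩
      rw [this, card_erase_of_mem (mem_sdiff.2 hz), h]; rfl
    · refine ⟨B, hB, _, hin, hcard, z, mem_insert_self _ _, ?_⟩
      intro a ha
      rw [mem_erase, mem_insert] at ha
      rcases ha.2 with h | h
      · exact absurd h ha.1
      · exact mem_of_mem_erase h

/-- A translation invariant union of cliques of any prescribed approximate size. -/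
theorem exists_cl (k y m : ℕ) (hky : k + 1 ≤ y) (hyn : y ≤ n) (hm : m ≤ n.choose (k + 1)) :
    ∃ C : Finset (Finset (Fin n)), (∀ B ∈ C, #B = y) ∧ m ≤ #(cl (k + 1) C) ∧
      #(cl (k + 1) C) ≤ m + n * (y - 1).choose k := by
  classical
  set I : Finset (Fin n) := univ.filter fun i : Fin n => i.val < y with hI
  have hIc : #I = y := by
    rw [hI, Fin.card_filter_val_lt]; omega
  have hI0 : (0 : Fin n) ∈ I := by
    rw [hI, mem_filter]; exact ⟨mem_univ _, by simp; omega⟩
  have hIcl : #(cl (k + 1) {I}) ≤ n * (y - 1).choose k := by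
    have := (card_le_card (cl_interval (n := n) k y)).trans (card_star k I 0 hI0)
    rwa [hIc] at this
  by_cases h0 : m ≤ #(cl (k + 1) {I})
  · exact ⟨{I}, by simpa using hIc, h0, by omega⟩
  let S : Finset (Finset (Finset (Fin n))) :=
    univ.filter fun C => (∀ B ∈ C, #B = y) ∧ I ∈ C ∧ #(cl (k + 1) C) < m
  have hS : S.Nonempty := ⟨{I}, by
    refine mem_filter.2 ⟨mem_univ _, fun B hB => ?_, mem_singleton_self _, by omega⟩
    rw [mem_singleton.1 hB]; exact hIc⟩
  obtain ⟨C, hC, hmax⟩ := exists_max_image S card hS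
  simp only [S, mem_filter, mem_univ, true_and] at hC
  obtain ⟨hCy, hIC, hlt⟩ := hC
  have hex : ∃ B' ∉ C, #B' = y := by
    by_contra hcon
    push Not at hcon
    have : powersetCard (k + 1) (univ : Finset (Fin n)) ⊆ cl (k + 1) C := by
      intro X hX
      rw [mem_powersetCard] at hX
      obtain ⟨B, hXB, -, hB⟩ := exists_subsuperset_card_eq (subset_univ X) (n := y)
        (by rw [hX.2]; exact hky) (by simpa using hyn)
      refine mem_cl.2 ⟨hX.2, B, by_contra fun h => hcon B h hB, 0, by simpa using hXB⟩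
    have := card_le_card this
    rw [card_powersetCard, card_univ, Fintype.card_fin] at this
    omega
  obtain ⟨B', hB', hB'c⟩ := hex
  obtain ⟨A, hA, A', hA', hA'c, z, hz, hsub⟩ := exists_adj y C hCy _ I B' hIC hB' hB'c rfl
  have hy' : ∀ B ∈ insert A' C, #B = y := by
    intro B hB
    rcases mem_insert.1 hB with rfl | hB
    · exact hA'c
    · exact hCy B hB
  refine ⟨insert A' C, hy', ?_, ?_⟩
  · by_contra hcon
    have := hmax (insert A' C) (by
      simp only [S, mem_filter, mem_univ, true_and]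
      exact ⟨hy', mem_insert_of_mem hIC, by omega⟩)
    rw [card_insert_of_notMem hA'] at this
    omega
  · have h1 := (card_le_card (cl_insert k C A A' hA z hsub)).trans (card_union_le _ _)
    have h2 := card_star k A' z hz
    rw [hA'c] at h2
    omega

/-- Upper bound from cyclic unions of cliques on y points. -/
theorem upper_cl (k y m d : ℕ) (hky : k + 1 ≤ y) (hyn : y ≤ n) (hm : m ≤ n.choose (k + 1))
    (hm0 : 0 < m) (hd : (k + 1) * m = d * n) :
    ∃ J : Finset (Finset (Fin n)), (∀ X ∈ J, #X = k + 1) ∧ #J = m ∧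
      (∀ v, #{X ∈ J | v ∈ X} = d) ∧
      (#(shadow J) : ℝ) * (y - k) ≤
        (k + 1) * (m + n * (y - 1).choose k) + (k + 1) ^ 2 * n * (y - k) := by
  obtain ⟨C, hC, h1, h2⟩ := exists_cl (n := n) k y m hky hyn hm
  have hT : (0 : ℝ) < #(cl (k + 1) C) := by exact_mod_cast hm0.trans_le h1
  have hn : (0 : ℝ) < n := by exact_mod_cast Nat.pos_of_ne_zero (NeZero.ne n)
  obtain ⟨J, g1, g2, g3, g4⟩ := exists_regular_of_fractional (cl (k + 1) C) (k + 1) (by omega)
    (fun X hX => (mem_cl.1 hX).1) (fun _ => (m : ℝ) / #(cl (k + 1) C))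
    (fun _ _ => ⟨by positivity, by rw [div_le_one hT]; exact_mod_cast h1⟩) d m
    (by simpa using hd) (fun v => by
      rw [sum_const, nsmul_eq_mul]
      have e1 : (n : ℝ) * #{X ∈ cl (k + 1) C | v ∈ X} = (k + 1) * #(cl (k + 1) C) := by
        exact_mod_cast deg_cl_mul (k + 1) C v
      have e2 : ((k : ℝ) + 1) * m = d * n := by exact_mod_cast hd
      field_simp
      apply mul_left_cancel₀ hn.ne'
      linear_combination (m : ℝ) * e1 + (#(cl (k + 1) C) : ℝ) * e2)
  refine ⟨J, g1, g2, g3, ?_⟩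
  have h3 := shadow_cl (k + 1) y C hC
  have hyk : y + 1 - (k + 1) = y - k := by omega
  rw [hyk] at h3
  have h3' : (#(shadow (cl (k + 1) C)) : ℝ) * (y - k) ≤ #(cl (k + 1) C) * (k + 1) := by
    rw [← Nat.cast_sub (by omega)]; exact_mod_cast h3
  have h2' : (#(cl (k + 1) C) : ℝ) ≤ m + n * (y - 1).choose k := by exact_mod_cast h2
  have g4' : (#(shadow J) : ℝ) ≤ #(shadow (cl (k + 1) C)) + (k + 1) * ((k + 1) * n) := by
    rw [Fintype.card_fin] at g4; exact_mod_cast g4
  have hpos : (0 : ℝ) ≤ y - k := by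
    have : (k : ℝ) + 1 ≤ y := by exact_mod_cast hky
    linarith
  have := mul_le_mul_of_nonneg_right g4' hpos
  have h4 := mul_le_mul_of_nonneg_right h2' (by positivity : (0 : ℝ) ≤ k + 1)
  nlinarith

end Pool.Agent.P.MP_4f3dfd_co.Asy
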