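import Mathlib
import Pool.Agent.P.MP_4f3dfd_co.ALower

set_option autoImplicit false

namespace Pool.Agent.P.MP_4f3dfd_co.Asy

open Finset

variable {V : Type*} [DecidableEq V]

/-- Prescribed degrees are realised by M sets of almost equal sizes. -/
theorem exists_fill (M : ℕ) (δ : V → ℕ) (P : Finset V) : (∀ p ∈ P, δ p ≤ M) →
    ∃ Y : Fin M → Finset V, (∀ j, Y j ⊆ P) ∧ (∀ p ∈ P, #{j | p ∈ Y j} = δ p) ∧
      ∃ a, ∀ j, #(Y j) = a ∨ #(Y j) = a + 1 := by
  induction P using Finset.induction_on with
  | empty => exact fun _ => ⟨fun _ => ∅, by simp, by simp, 0, by simp⟩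
  | insert p P hp ih =>
    intro h
    obtain ⟨Y, h1, h2, a, h3⟩ := ih (fun q hq => h q (mem_insert_of_mem hq))
    have hδ := h p (mem_insert_self _ _)
    obtain ⟨I, hI, hc⟩ : ∃ I : Finset (Fin M), #I = δ p ∧
        (I ⊆ ({j | #(Y j) = a} : Finset (Fin M)) ∨ ({j | #(Y j) = a} : Finset (Fin M)) ⊆ I) := by
      by_cases hle : δ p ≤ #({j | #(Y j) = a} : Finset (Fin M))
      · obtain ⟨I, hI, hI'⟩ := exists_subset_card_eq hle
        exact ⟨I, hI', Or.inl hI⟩
      · obtain ⟨I, hI, -, hI'⟩ := exists_subsuperset_card_eq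
          (subset_univ ({j | #(Y j) = a} : Finset (Fin M))) (n := δ p) (by omega) (by simpa)
        exact ⟨I, hI', Or.inr hI⟩
    have hpY : ∀ j, p ∉ Y j := fun j hj => hp (h1 j hj)
    refine ⟨fun j => if j ∈ I then insert p (Y j) else Y j, ?_, ?_, ?_⟩
    · intro j
      dsimp only
      split_ifs
      · exact insert_subset_insert _ (h1 j)
      · exact (h1 j).trans (subset_insert _ _)
    · intro q hq
      rcases mem_insert.1 hq with rfl | hq
      · rw [← hI]
        congr 1
        ext j
        by_cases hj : j ∈ I <;> simp [hj, hpY j]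
      · rw [← h2 q hq]
        congr 1
        ext j
        have : q ≠ p := fun e => hp (e ▸ hq)
        by_cases hj : j ∈ I <;> simp [hj, this]
    · rcases hc with hc | hc
      · refine ⟨a, fun j => ?_⟩
        dsimp only
        split_ifs with hj
        · right
          rw [card_insert_of_notMem (hpY j), (mem_filter.1 (hc hj)).2]
        · exact h3 j
      · refine ⟨a + 1, fun j => ?_⟩
        dsimp only
        split_ifs with hj
        · rw [card_insert_of_notMem (hpY j)]
          rcases h3 j with h | h <;> omega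
        · left
          rcases h3 j with h | h
          · exact absurd (hc (mem_filter.2 ⟨mem_univ _, h⟩)) hj
          · exact h

theorem sum_deg_idx {M : ℕ} (R : Finset V) (S : Fin M → Finset V) (h : ∀ j, S j ⊆ R) :
    ∑ p ∈ R, #{j | p ∈ S j} = ∑ j, #(S j) := by
  simp_rw [card_filter]
  rw [sum_comm]
  refine sum_congr rfl fun j _ => ?_
  rw [← card_filter, filter_mem_eq_inter, inter_eq_right.2 (h j)]

/-- A regular family of distinct sets with prescribed sizes. -/
theorem exists_regular_idx (M d : ℕ) (R : Finset V) (σ : Fin M → ℕ)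
    (hσ : ∀ j, M ≤ (#R).choose (σ j)) (hsum : ∑ j, σ j = d * #R) :
    ∃ S : Fin M → Finset V, Function.Injective S ∧ (∀ j, S j ⊆ R ∧ #(S j) = σ j) ∧
      ∀ p ∈ R, #{j | p ∈ S j} = d := by
  classical
  have hex : ∃ N, ∃ S : Fin M → Finset V, Function.Injective S ∧ (∀ j, S j ⊆ R ∧ #(S j) = σ j) ∧
      ∑ p ∈ R, #{j | p ∈ S j} ^ 2 = N := by
    obtain ⟨S, hS, hS'⟩ := (all_card_le_biUnion_card_iff_exists_injective
      (fun j : Fin M => powersetCard (σ j) R)).1 (fun s => by
        rcases s.eq_empty_or_nonempty with rfl | ⟨j, hj⟩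
        · simp
        · refine le_trans ?_ (card_le_card (subset_biUnion_of_mem _ hj))
          rw [card_powersetCard]
          exact le_trans (by simpa using card_le_univ s) (hσ j))
    exact ⟨_, S, hS, fun j => mem_powersetCard.1 (hS' j), rfl⟩
  obtain ⟨S, hS, hS', hN⟩ := Nat.find_spec hex
  refine ⟨S, hS, hS', ?_⟩
  have htot : ∑ p ∈ R, #{j | p ∈ S j} = ∑ _p ∈ R, d := by
    rw [sum_deg_idx R S (fun j => (hS' j).1), sum_congr rfl (fun j _ => (hS' j).2), hsum,
      sum_const, smul_eq_mul, mul_comm]
  by_contra hcon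
  push Not at hcon
  obtain ⟨p, hp, hpd⟩ := hcon
  obtain ⟨u, hu, hud⟩ : ∃ u ∈ R, d < #{j | u ∈ S j} := by
    by_contra h
    push Not at h
    exact hpd ((sum_eq_sum_iff_of_le h).1 htot p hp)
  obtain ⟨v, hv, hvd⟩ : ∃ v ∈ R, #{j | v ∈ S j} < d := by
    by_contra h
    push Not at h
    exact hpd ((sum_eq_sum_iff_of_le h).1 htot.symm p hp).symm
  have hne : u ≠ v := by rintro rfl; omega
  obtain ⟨j, hj1, hj2, hj3⟩ : ∃ j, u ∈ S j ∧ v ∉ S j ∧ ∀ i, S i ≠ insert v ((S j).erase u) := by
    by_contra h
    push Not at h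
    have hch : ∀ j, ∃ i, u ∈ S j → S i = if v ∈ S j then S j else insert v ((S j).erase u) := by
      intro j
      by_cases h1 : u ∈ S j
      · by_cases h2 : v ∈ S j
        · exact ⟨j, fun _ => by simp [h2]⟩
        · obtain ⟨i, hi⟩ := h j h1 h2
          exact ⟨i, fun _ => by simp [h2, hi]⟩
      · exact ⟨j, fun h => absurd h h1⟩
    choose φ hφ using hch
    have : #{j | u ∈ S j} ≤ #{j | v ∈ S j} := by
      apply card_le_card_of_injOn φ
      · intro j hj
        rw [mem_coe, mem_filter] at hj ⊢
        refine ⟨mem_univ _, ?_⟩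
        rw [hφ j hj.2]
        split_ifs with h2
        · exact h2
        · exact mem_insert_self _ _
      · intro a ha b hb hab
        rw [mem_coe, mem_filter] at ha hb
        have e := (hφ a ha.2).symm.trans (hab ▸ hφ b hb.2)
        apply hS
        by_cases h1 : v ∈ S a <;> by_cases h2 : v ∈ S b <;> simp only [h1, h2, if_true, if_false] at e
        · exact e
        · have := e ▸ ha.2
          simp [hne] at this
        · have := e ▸ hb.2
          simp [hne] at this
        · have e2 : (S a).erase u = (S b).erase u := by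
            rw [← erase_insert (a := v) (s := (S a).erase u) (by simp [h1]), e,
              erase_insert (by simp [h2])]
          rw [← insert_erase ha.2, e2, insert_erase hb.2]
    omega
  let S' : Fin M → Finset V := Function.update S j (insert v ((S j).erase u))
  have hmem : ∀ q i, q ∈ S' i ↔ if i = j then (q = v ∨ (q ≠ u ∧ q ∈ S j)) else q ∈ S i := by
    intro q i
    by_cases hi : i = j
    · subst hi; simp [S']
    · simp [S', hi]
  have du : #{i | u ∈ S' i} + 1 = #{i | u ∈ S i} := by
    have : ({i | u ∈ S i} : Finset (Fin M)) =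
        insert j ({i | u ∈ S' i} : Finset (Fin M)) := by
      ext i
      by_cases hi : i = j <;> simp [hmem, hi, hj1]
    rw [this, card_insert_of_notMem (by simp [hmem, hne])]
  have dv : #{i | v ∈ S' i} = #{i | v ∈ S i} + 1 := by
    have : ({i | v ∈ S' i} : Finset (Fin M)) =
        insert j ({i | v ∈ S i} : Finset (Fin M)) := by
      ext i
      by_cases hi : i = j <;> simp [hmem, hi]
    rw [this, card_insert_of_notMem (by simp [hj2])]
  have dw : ∀ q, q ≠ u → q ≠ v → #{i | q ∈ S' i} = #{i | q ∈ S i} := by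
    intro q h1 h2
    congr 1
    ext i
    by_cases hi : i = j <;> simp [hmem, hi, h1, h2]
  have hlt : ∑ p ∈ R, #{i | p ∈ S' i} ^ 2 < Nat.find hex := by
    have hv' : v ∈ R.erase u := mem_erase.2 ⟨hne.symm, hv⟩
    rw [← hN, ← add_sum_erase _ _ hu, ← add_sum_erase _ _ hu, ← add_sum_erase _ _ hv',
      ← add_sum_erase _ _ hv', sum_congr rfl (fun q hq => by
        rw [dw q (mem_erase.1 (mem_erase.1 hq).2).1 (mem_erase.1 hq).1]), dv, ← du]
    nlinarith
  refine Nat.find_min hex hlt ⟨S', ?_, ?_, rfl⟩
  · intro a b hab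
    by_cases ha : a = j <;> by_cases hb : b = j
    · rw [ha, hb]
    · subst ha
      simp only [S', Function.update_self, Function.update_of_ne hb] at hab
      exact absurd hab.symm (hj3 b)
    · subst hb
      simp only [S', Function.update_self, Function.update_of_ne ha] at hab
      exact absurd hab (hj3 a)
    · simp only [S', Function.update_of_ne ha, Function.update_of_ne hb] at hab
      exact hS hab
  · intro i
    by_cases hi : i = j
    · subst hi
      simp only [S', Function.update_self]
      refine ⟨insert_subset hv ((erase_subset _ _).trans (hS' i).1), ?_⟩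
      rw [card_insert_of_notMem (by simp [hj2]), card_erase_of_mem hj1, (hS' i).2]
      have : 0 < #(S i) := card_pos.2 ⟨u, hj1⟩
      rw [(hS' i).2] at this
      omega
    · simp only [S', Function.update_of_ne hi]
      exact hS' i

/-- A family with degrees at most d that misses a large set R is completed to a regular one. -/
theorem exists_completion [Fintype V] (c d M : ℕ) (J : Finset (Finset V)) (R : Finset V)
    (hJ : ∀ X ∈ J, #X = c) (hdeg : ∀ v, #{X ∈ J | v ∈ X} ≤ d) (hR : ∀ X ∈ J, ∀ v ∈ R, v ∉ X)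
    (hM : c * (#J + M) = d * Fintype.card V) (hdM : d ≤ M) (h2 : 2 * M ≤ d * #R)
    (hch : ∀ s, d * #R ≤ M * (s + 1) → M * s ≤ d * #R + M → M ≤ (#R).choose s) :
    ∃ J' : Finset (Finset V), (∀ X ∈ J', #X = c) ∧ #J' = #J + M ∧
      (∀ v, #{X ∈ J' | v ∈ X} = d) ∧ #(shadow J') ≤ #(shadow J) + c * M := by
  obtain ⟨Y, y1, y2, a, y3⟩ := exists_fill M (fun v => d - #{X ∈ J | v ∈ X}) Rᶜ
    (fun p _ => (Nat.sub_le _ _).trans hdM)
  have hz : ∀ v ∈ R, #{X ∈ J | v ∈ X} = 0 := fun v hv => by
    rw [card_eq_zero, filter_eq_empty_iff]; exact fun X hX => hR X hX v hv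
  have hY : ∑ j, #(Y j) + d * #R = c * M := by
    rw [← sum_deg_idx Rᶜ Y y1, sum_congr rfl y2]
    have e1 := sum_deg_nat J c hJ
    rw [← sum_add_sum_compl R, sum_eq_zero hz, zero_add] at e1
    have e2 : ∑ v ∈ Rᶜ, (d - #{X ∈ J | v ∈ X}) + ∑ v ∈ Rᶜ, #{X ∈ J | v ∈ X} = d * #Rᶜ := by
      rw [← sum_add_distrib, sum_congr rfl (fun v _ => Nat.sub_add_cancel (hdeg v)), sum_const,
        smul_eq_mul, mul_comm]
    have e3 : d * #R + d * #Rᶜ = d * Fintype.card V := by rw [← mul_add, card_add_card_compl]
    rw [mul_add] at hM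
    omega
  have lo : M * a ≤ ∑ j, #(Y j) := by
    have := card_nsmul_le_sum univ (fun j => #(Y j)) a (fun j _ => by rcases y3 j with h | h <;> omega)
    simpa using this
  have hi : ∑ j, #(Y j) ≤ M * (a + 1) := by
    have := sum_le_card_nsmul univ (fun j => #(Y j)) (a + 1)
      (fun j _ => by rcases y3 j with h | h <;> omega)
    simpa using this
  have hac : ∀ _ : Fin M, a + 2 ≤ c := fun j => by
    have hM0 : 0 < M := j.pos
    apply Nat.le_of_mul_le_mul_left _ hM0
    rw [mul_add, mul_comm M c]; omega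
  obtain ⟨S, s1, s2, s3⟩ := exists_regular_idx M d R (fun j => c - #(Y j)) (fun j => by
      have := hac j
      obtain ⟨b, rfl⟩ : ∃ b, c = a + 2 + b := ⟨c - (a + 2), by omega⟩
      apply hch
      · rcases y3 j with h | h <;> rw [h]
        · rw [show a + 2 + b - a + 1 = b + 3 by omega]; nlinarith
        · rw [show a + 2 + b - (a + 1) + 1 = b + 2 by omega]; nlinarith
      · rcases y3 j with h | h <;> rw [h]
        · rw [show a + 2 + b - a = b + 2 by omega]; nlinarith
        · rw [show a + 2 + b - (a + 1) = b + 1 by omega]; nlinarith)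
    (by
      have : ∑ j, (c - #(Y j)) + ∑ j, #(Y j) = c * M := by
        rw [← sum_add_distrib, sum_congr rfl (fun j _ => Nat.sub_add_cancel (by
          have := hac j
          rcases y3 j with h | h <;> omega))]
        simp [mul_comm]
      omega)
  have hdisj : ∀ j, Disjoint (S j) (Y j) := fun j =>
    disjoint_left.2 fun p h1 h2 => mem_compl.1 (y1 j h2) ((s2 j).1 h1)
  have hint : ∀ j, (S j ∪ Y j) ∩ R = S j := fun j => by
    ext p
    simp only [mem_inter, mem_union]
    exact ⟨fun h => h.1.resolve_right fun h' => mem_compl.1 (y1 j h') h.2,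
      fun h => ⟨Or.inl h, (s2 j).1 h⟩⟩
  have hinj : Function.Injective fun j => S j ∪ Y j := fun i j h =>
    s1 (by rw [← hint i, ← hint j]; exact congrArg (· ∩ R) h)
  set E : Finset (Finset V) := univ.image fun j => S j ∪ Y j with hE
  have hEc : ∀ X ∈ E, #X = c := by
    intro X hX
    obtain ⟨j, -, rfl⟩ := mem_image.1 hX
    rw [card_union_of_disjoint (hdisj j), (s2 j).2]
    have := hac j
    rcases y3 j with h | h <;> omega
  have hEM : #E = M := by rw [hE, card_image_of_injective _ hinj]; simp
  have hJE : Disjoint J E := by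
    rw [disjoint_right]
    intro X hX hXJ
    obtain ⟨j, -, rfl⟩ := mem_image.1 hX
    obtain ⟨p, hp⟩ : (S j).Nonempty := by
      rw [← card_pos, (s2 j).2]
      have := hac j
      rcases y3 j with h | h <;> omega
    exact hR _ hXJ p ((s2 j).1 hp) (mem_union_left _ hp)
  refine ⟨J ∪ E, fun X hX => (mem_union.1 hX).elim (hJ X) (hEc X),
    by rw [card_union_of_disjoint hJE, hEM], fun v => ?_, ?_⟩
  · rw [filter_union, card_union_of_disjoint (disjoint_filter_filter hJE), hE, filter_image,
      card_image_of_injective _ hinj]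
    by_cases hv : v ∈ R
    · rw [hz v hv, zero_add, ← s3 v hv]
      congr 1
      ext j
      simp only [mem_filter, mem_univ, true_and, mem_union]
      exact ⟨fun h => h.resolve_right fun h' => mem_compl.1 (y1 j h') hv, Or.inl⟩
    · have : #{j | v ∈ S j ∪ Y j} = d - #{X ∈ J | v ∈ X} := by
        rw [← y2 v (mem_compl.2 hv)]
        congr 1
        ext j
        simp only [mem_filter, mem_univ, true_and, mem_union]
        exact ⟨fun h => h.resolve_left fun h' => hv ((s2 j).1 h'), Or.inr⟩
      rw [this]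
      have := hdeg v
      omega
  · have h1 : shadow (J ∪ E) ⊆ shadow J ∪ shadow E := by
      intro Z hZ
      obtain ⟨X, hX, a, ha, rfl⟩ := mem_shadow_iff.1 hZ
      rcases mem_union.1 hX with h | h
      · exact mem_union_left _ (erase_mem_shadow h ha)
      · exact mem_union_right _ (erase_mem_shadow h ha)
    have h3 := shadow_mul_le E c 1 hEc (fun Z hZ => by
      obtain ⟨X, hX, hZX, -⟩ := mem_shadow_iff_exists_mem_card_add_one.1 hZ
      exact card_pos.2 ⟨X, mem_filter.2 ⟨hX, hZX⟩⟩)
    have h4 := (card_le_card h1).trans (card_union_le _ _)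
    rw [hEM, mul_one, mul_comm] at h3
    omega

end Pool.Agent.P.MP_4f3dfd_co.Asy
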