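import Mathlib
import Pool.Agent.P.MP_4f3dfd_co.AFill

set_option autoImplicit false

namespace Pool.Agent.P.MP_4f3dfd_co.Asy

open Finset Finset.Colex
open scoped Pointwise

/-- An optimal family lives on the first x points. -/
theorem exists_opt {n k x : ℕ} (hxn : x ≤ n) (A : Finset (Finset (Fin n)))
    (hA : ∀ X ∈ A, #X = k) (hx : #A ≤ x.choose k) :
    ∃ C : Finset (Finset (Fin n)), (∀ X ∈ C, #X = k ∧ ∀ a ∈ X, a.val < x) ∧ #C = #A ∧
      #(shadow C) ≤ #(shadow A) := by
  obtain ⟨C, hC, hc⟩ := exists_initSeg n k #A (hx.trans (Nat.choose_le_choose k hxn))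
  set P : Finset (Fin n) :=
    attachFin (range x) fun m ↦ by rw [mem_range]; apply forall_lt_iff_le.2 hxn with hPdef
  have hP : #P = x := by rw [hPdef, card_attachFin, card_range]
  have hI : IsInitSeg (powersetCard k P) k := by
    refine ⟨Set.sized_powersetCard _ _, ?_⟩
    simp_rw [mem_powersetCard]
    rintro A B hA ⟨HB₁, HB₂⟩
    refine ⟨fun t ht ↦ ?_, ‹_›⟩
    rw [mem_attachFin, mem_range]
    have : toColex (image Fin.val B) < toColex (image Fin.val A) := by
      rwa [toColex_image_lt_toColex_image Fin.val_strictMono]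
    apply Colex.forall_lt_mono this.le _ t (mem_image.2 ⟨t, ht, rfl⟩)
    simp_rw [mem_image]
    rintro _ ⟨a, ha, hab⟩
    simpa [P, hab] using hA.1 ha
  have hsub : C ⊆ powersetCard k P := by
    rcases hC.total hI with h | h
    · exact h
    · have : powersetCard k P = C := by
        apply eq_of_subset_of_card_le h
        rw [card_powersetCard, hP, hc]; exact hx
      rw [this]
  refine ⟨C, fun X hX => ⟨hC.1 hX, fun a ha => ?_⟩, hc,
    kruskal_katona (𝒜 := A) (𝒞 := C) (r := k) (fun X hX => hA X hX) hc.le hC⟩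
  simpa [P] using (mem_powersetCard.1 (hsub hX)).1 ha

/-- The cone over a family. -/
theorem exists_cone {n k x : ℕ} (hxn : x < n) (C : Finset (Finset (Fin n)))
    (hC : ∀ X ∈ C, #X = k ∧ ∀ a ∈ X, a.val < x) :
    ∃ A : Finset (Finset (Fin n)), (∀ X ∈ A, #X = k + 1 ∧ ∀ a ∈ X, a.val < x + 1) ∧ #A = #C ∧
      #(shadow A) ≤ #(shadow C) + #C := by
  let z : Fin n := ⟨x, hxn⟩
  have hz : ∀ X ∈ C, z ∉ X := fun X hX h => by
    have := (hC X hX).2 z h
    simp [z] at this
  refine ⟨C.image (insert z), ?_, ?_, ?_⟩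
  · intro X hX
    obtain ⟨Y, hY, rfl⟩ := mem_image.1 hX
    refine ⟨by rw [card_insert_of_notMem (hz Y hY), (hC Y hY).1], fun a ha => ?_⟩
    rcases mem_insert.1 ha with rfl | ha
    · simp [z]
    · have := (hC Y hY).2 a ha
      omega
  · apply card_image_of_injOn
    intro X hX Y hY h
    rw [← erase_insert (hz X hX), ← erase_insert (hz Y hY)]
    exact congrArg (·.erase z) h
  · have : shadow (C.image (insert z)) ⊆ (shadow C).image (insert z) ∪ C := by
      intro Z hZ
      obtain ⟨X, hX, a, ha, rfl⟩ := mem_shadow_iff.1 hZ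
      obtain ⟨Y, hY, rfl⟩ := mem_image.1 hX
      rw [mem_union]
      rcases mem_insert.1 ha with rfl | ha
      · right; rwa [erase_insert (hz Y hY)]
      · left
        refine mem_image.2 ⟨Y.erase a, erase_mem_shadow hY ha, ?_⟩
        have hza : z ≠ a := fun e => hz Y hY (by rw [e]; exact ha)
        rw [erase_insert_of_ne hza]
    exact (card_le_card this).trans ((card_union_le _ _).trans
      (Nat.add_le_add_right card_image_le _))

/-- Disjoint translates of a family on the first b points. -/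
theorem exists_blocks {n c b q : ℕ} [NeZero n] (hc : 1 ≤ c) (hq : q * b ≤ n)
    (A : Finset (Finset (Fin n))) (hA : ∀ X ∈ A, #X = c ∧ ∀ a ∈ X, a.val < b) :
    ∃ J : Finset (Finset (Fin n)), (∀ X ∈ J, #X = c) ∧ #J = q * #A ∧
      (∀ v, #{X ∈ J | v ∈ X} ≤ #A) ∧ (∀ X ∈ J, ∀ v ∈ X, v.val < q * b) ∧
      #(shadow J) ≤ q * #(shadow A) := by
  rcases A.eq_empty_or_nonempty with rfl | ⟨X0, hX0⟩
  · exact ⟨∅, by simp⟩
  have hb : 0 < b := by
    obtain ⟨a, ha⟩ : X0.Nonempty := by rw [← card_pos, (hA X0 hX0).1]; omega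
    have := (hA X0 hX0).2 a ha
    omega
  have hlt : ∀ (i : Fin q) (r : ℕ), r < b → i.val * b + r < q * b := fun i r hr => by
    have : (i.val + 1) * b ≤ q * b := Nat.mul_le_mul_right _ i.2
    rw [add_mul, one_mul] at this
    omega
  let s : Fin q → Fin n := fun i => ⟨i.val * b, by have := hlt i 0 hb; omega⟩
  have hval : ∀ (i : Fin q) (a : Fin n), a.val < b → (s i +ᵥ a).val = i.val * b + a.val := by
    intro i a ha
    have := hlt i a.val ha
    rw [vadd_eq_add, Fin.val_add, Nat.mod_eq_of_lt (by simp only [s]; omega)]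
  have hidx : ∀ (i : Fin q) (X : Finset (Fin n)), X ∈ A → ∀ v ∈ s i +ᵥ X, v.val / b = i.val ∧
      v.val < q * b := by
    intro i X hX v hv
    obtain ⟨a, ha, rfl⟩ := mem_vadd_finset.1 hv
    have h1 := (hA X hX).2 a ha
    rw [hval i a h1]
    refine ⟨?_, hlt i _ h1⟩
    rw [add_comm, Nat.add_mul_div_right _ _ hb, Nat.div_eq_of_lt h1, zero_add]
  refine ⟨(univ ×ˢ A).image fun p : Fin q × Finset (Fin n) => s p.1 +ᵥ p.2, ?_, ?_, ?_, ?_, ?_⟩
  · intro X hX
    obtain ⟨p, hp, rfl⟩ := mem_image.1 hX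
    rw [card_vadd_finset, (hA _ (mem_product.1 hp).2).1]
  · rw [card_image_of_injOn, card_product, card_univ, Fintype.card_fin]
    rintro ⟨i, X⟩ hp ⟨j, Y⟩ hp' h
    have hX : X ∈ A := (mem_product.1 hp).2
    have hY : Y ∈ A := (mem_product.1 hp').2
    dsimp only at h
    obtain ⟨v, hv⟩ : (s i +ᵥ X).Nonempty := by
      rw [← card_pos, card_vadd_finset, (hA X hX).1]; omega
    have hij : i = j := Fin.ext ((hidx i X hX v hv).1.symm.trans (hidx j Y hY v (h ▸ hv)).1)
    subst hij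
    rw [AddAction.injective _ h]
  · intro v
    by_cases h : v.val / b < q
    · refine le_trans (card_le_card ?_) (card_image_le (f := fun X => s ⟨_, h⟩ +ᵥ X))
      intro X hX
      obtain ⟨hX, hv⟩ := mem_filter.1 hX
      obtain ⟨⟨i, Y⟩, hp, rfl⟩ := mem_image.1 hX
      have hY : Y ∈ A := (mem_product.1 hp).2
      have : (⟨_, h⟩ : Fin q) = i := Fin.ext (hidx i Y hY v hv).1
      exact mem_image.2 ⟨Y, hY, by rw [this]⟩
    · refine le_trans (le_of_eq ?_) (Nat.zero_le _)
      rw [card_eq_zero, filter_eq_empty_iff]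
      intro X hX hv
      obtain ⟨⟨i, Y⟩, hp, rfl⟩ := mem_image.1 hX
      exact h ((hidx i Y (mem_product.1 hp).2 v hv).1 ▸ i.2)
  · intro X hX v hv
    obtain ⟨⟨i, Y⟩, hp, rfl⟩ := mem_image.1 hX
    exact (hidx i Y (mem_product.1 hp).2 v hv).2
  · refine le_trans (card_le_card (t := (univ ×ˢ shadow A).image
      fun p : Fin q × Finset (Fin n) => s p.1 +ᵥ p.2) ?_) (card_image_le.trans ?_)
    · intro Z hZ
      obtain ⟨X, hX, v, hv, rfl⟩ := mem_shadow_iff.1 hZ
      obtain ⟨⟨i, Y⟩, hp, rfl⟩ := mem_image.1 hX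
      obtain ⟨a, ha, rfl⟩ := mem_vadd_finset.1 hv
      refine mem_image.2 ⟨(i, Y.erase a), mem_product.2 ⟨mem_univ _,
        erase_mem_shadow (mem_product.1 hp).2 ha⟩, ?_⟩
      ext w
      simp only [mem_vadd_finset, mem_erase]
      constructor
      · rintro ⟨y, ⟨h1, h2⟩, rfl⟩
        exact ⟨fun e => h1 (AddAction.injective _ e), y, h2, rfl⟩
      · rintro ⟨h1, y, h2, rfl⟩
        exact ⟨y, ⟨fun e => h1 (by rw [e]), h2⟩, rfl⟩
    · rw [card_product, card_univ, Fintype.card_fin]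

theorem two_pow_le_choose (u : ℕ) : 2 ^ u ≤ (2 * u).choose u := by
  induction u with
  | zero => simp
  | succ u ih =>
    have h1 : (2 * (u + 1)).choose (u + 1) = 2 * (2 * u + 1).choose u := by
      rw [show 2 * (u + 1) = 2 * u + 1 + 1 by ring, Nat.choose_succ_succ',
        Nat.choose_symm_half u]
      ring
    have h2 : (2 * u).choose u ≤ (2 * u + 1).choose u := Nat.choose_le_choose _ (by omega)
    rw [h1, pow_succ]
    omega

/-- Few free points, large uniformity, sparse range. -/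
theorem upperC (n k t m d q : ℕ) (hk : 12 ≤ k) (hm : (k + 1) * m = d * n)
    (hq : (q + 12) * (k + 2 * t + 3) ≤ n) (hd : d ≤ (k + 1 + t).choose k)
    (hd2 : d ≤ 2 ^ ((k + 1) / 4))
    (A : Finset (Finset (Fin n))) (hA : ∀ X ∈ A, #X = k) (hAd : #A = d) :
    ∃ J : Finset (Finset (Fin n)), (∀ X ∈ J, #X = k + 1) ∧ #J = m ∧
      (∀ v, #{X ∈ J | v ∈ X} = d) ∧
      #(shadow J) ≤ q * (#(shadow A) + d) + d * (n - (k + 1) * q) := by
  obtain ⟨w, hw⟩ : ∃ w, n = (k + 1) * q + w := ⟨n - (k + 1) * q, by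
    have : (k + 1) * q ≤ n := by nlinarith only [hk, hq]
    omega⟩
  have hw1 : 2 * (q * (t + 1)) + 12 * (k + 2 * t + 3) ≤ w := by nlinarith only [hq, hw]
  have hxn : k + 1 + t < n := by omega
  have : NeZero n := ⟨by omega⟩
  obtain ⟨C, c1, c2, c3⟩ := exists_opt hxn.le A hA (hAd ▸ hd)
  obtain ⟨B, b1, b2, b3⟩ := exists_cone hxn C c1
  have hqb : q * (k + 1 + t + 1) + w / 2 ≤ n := by
    have : q * (k + 1 + t + 1) = (k + 1) * q + q * (t + 1) := by ring
    omega
  obtain ⟨J, j1, j2, j3, j4, j5⟩ := exists_blocks (c := k + 1) (q := q) (by omega)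
    (le_trans (Nat.le_add_right _ _) hqb) B b1
  rw [b2, c2, hAd] at j2 j3
  obtain ⟨R, hR, hRc⟩ := exists_subset_card_eq
    (s := (univ.filter fun v : Fin n => v.val < q * (k + 1 + t + 1))ᶜ) (n := w / 2) (by
      rw [card_compl, Fin.card_filter_val_lt, Fintype.card_fin]; omega)
  obtain ⟨M, hM⟩ : ∃ M, m = q * d + M := ⟨m - q * d, by
    have : (k + 1) * (q * d) ≤ (k + 1) * m := by rw [hm, hw]; nlinarith only []
    have := Nat.le_of_mul_le_mul_left this (by omega)
    omega⟩
  have hMw : (k + 1) * M = d * w := by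
    rw [hM, hw] at hm
    nlinarith only [hm]
  obtain ⟨ρ, hρ⟩ : ∃ ρ, ρ = w / 2 := ⟨_, rfl⟩
  rw [← hρ] at hRc
  have hρ1 : 2 * ρ ≤ w := by omega
  have hρ2 : w ≤ 3 * ρ := by omega
  obtain ⟨J', k1, k2, k3, k4⟩ := exists_completion (k + 1) d M J R j1 j3
    (fun X hX v hv h => by
      have := hR hv
      rw [mem_compl, mem_filter] at this
      exact this ⟨mem_univ _, j4 X hX v h⟩)
    (by rw [j2, ← hM, Fintype.card_fin]; exact hm)
    (by
      apply Nat.le_of_mul_le_mul_left (c := k + 1) _ (by omega)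
      rw [hMw, mul_comm]
      exact Nat.mul_le_mul_left _ (by omega))
    (by
      rw [hRc]
      apply Nat.le_of_mul_le_mul_left (c := k + 1) _ (by omega)
      calc (k + 1) * (2 * M) = d * (2 * w) := by rw [mul_left_comm, hMw]; ring
        _ ≤ d * ((k + 1) * ρ) := Nat.mul_le_mul_left _ (by nlinarith only [hk, hρ2])
        _ = _ := by ring)
    (by
      intro s h1 h2
      rw [hRc] at h1 h2 ⊢
      rcases Nat.eq_zero_or_pos d with rfl | hd0
      · have : M = 0 := by simpa using hMw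
        omega
      have e1 : (k + 1) * ρ ≤ w * (s + 1) := by
        apply Nat.le_of_mul_le_mul_left _ hd0
        calc d * ((k + 1) * ρ) = (k + 1) * (d * ρ) := by ring
          _ ≤ (k + 1) * (M * (s + 1)) := Nat.mul_le_mul_left _ h1
          _ = _ := by rw [← mul_assoc, hMw]; ring
      have e2 : w * s ≤ (k + 1) * ρ + w := by
        apply Nat.le_of_mul_le_mul_left _ hd0
        calc d * (w * s) = (k + 1) * (M * s) := by rw [← mul_assoc, ← hMw]; ring
          _ ≤ (k + 1) * (d * ρ + M) := Nat.mul_le_mul_left _ h2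
          _ = _ := by rw [mul_add, hMw]; ring
      have hw0 : 0 < w := by omega
      have e3 : k + 1 ≤ 3 * (s + 1) := by
        apply Nat.le_of_mul_le_mul_left _ hw0
        nlinarith only [hρ2, e1]
      have e4 : 2 * s ≤ k + 3 := by
        apply Nat.le_of_mul_le_mul_left _ hw0
        nlinarith only [hρ1, e2]
      obtain ⟨u, hu⟩ : ∃ u, u = (k + 1) / 4 - 2 := ⟨_, rfl⟩
      obtain ⟨i, rfl⟩ : ∃ i, s = i + 1 := ⟨s - 1, by omega⟩
      obtain ⟨r, hr⟩ : ∃ r, ρ = 2 * i + r := ⟨ρ - 2 * i, by omega⟩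
      have e5 : (2 * i).choose i * r.choose 1 ≤ ρ.choose (i + 1) := by
        rw [hr, Nat.add_choose_eq (2 * i) r (i + 1)]
        exact single_le_sum (f := fun p : ℕ × ℕ => (2 * i).choose p.1 * r.choose p.2)
          (fun _ _ => Nat.zero_le _) (a := (i, 1)) (HasAntidiagonal.mem_antidiagonal.2 rfl)
      refine le_trans ?_ e5
      rw [Nat.choose_one_right]
      have e6 : 2 ^ ((k + 1) / 4) ≤ 2 * (2 * i).choose i := by
        calc 2 ^ ((k + 1) / 4) ≤ 2 ^ (i + 1) := Nat.pow_le_pow_right (by norm_num) (by omega)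
          _ = 2 * 2 ^ i := by ring
          _ ≤ _ := Nat.mul_le_mul_left _ (two_pow_le_choose i)
      have e7 : w ≤ 6 * r := by omega
      apply Nat.le_of_mul_le_mul_left (c := k + 1) _ (by omega)
      calc (k + 1) * M = d * w := hMw
        _ ≤ (2 * (2 * i).choose i) * (6 * r) := Nat.mul_le_mul (hd2.trans e6) e7
        _ = 12 * ((2 * i).choose i * r) := by ring
        _ ≤ _ := Nat.mul_le_mul_right _ (by omega))
  refine ⟨J', k1, by rw [k2, j2, hM], k3, k4.trans ?_⟩
  rw [hMw, show n - (k + 1) * q = w by omega]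
  have : #(shadow B) ≤ #(shadow A) + d := by rw [c2, hAd] at b3; omega
  exact Nat.add_le_add_right (j5.trans (Nat.mul_le_mul_left _ this)) _

end Pool.Agent.P.MP_4f3dfd_co.Asy
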