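import Mathlib

set_option autoImplicit false

namespace Pool.Agent.P.MP_4f3dfd_co.Asy

theorem choose_step (N k : ℕ) (h : k ≤ N) :
    ((N + 1).choose k : ℝ) * (N + 1 - k) = N.choose k * (N + 1) := by
  have := Nat.choose_mul_succ_eq N k
  have h2 : ((N + 1 - k : ℕ) : ℝ) = N + 1 - k := by
    rw [Nat.cast_sub (by omega)]; push_cast; ring
  rw [← h2]
  exact_mod_cast this.symm

theorem choose_down (M k t : ℕ) (hM : k ≤ M) (ht : 0 < t) : ∀ s : ℕ, M + s ≤ k + t →
    (1 + (k : ℝ) / t) ^ s * M.choose k ≤ (M + s).choose k := by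
  intro s
  induction s with
  | zero => intro _; simp
  | succ s ih =>
    intro h
    have h1 := ih (by omega)
    have h2 := choose_step (M + s) k (by omega)
    have ht' : (0 : ℝ) < t := by exact_mod_cast ht
    have h3 : ((M + s : ℕ) : ℝ) + 1 - k ≤ t := by
      have : ((M + s : ℕ) : ℝ) + 1 ≤ k + t := by exact_mod_cast h
      linarith
    have h4 : (0 : ℝ) < ((M + s : ℕ) : ℝ) + 1 - k := by
      have : (k : ℝ) ≤ ((M + s : ℕ) : ℝ) := by exact_mod_cast (by omega : k ≤ M + s)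
      linarith
    have h5 : (1 + (k : ℝ) / t) * (M + s).choose k ≤ (M + s + 1).choose k := by
      apply le_of_mul_le_mul_right _ h4
      rw [h2]
      have h6 : (k : ℝ) / t * (((M + s : ℕ) : ℝ) + 1 - k) ≤ k := by
        rw [div_mul_eq_mul_div, div_le_iff₀ ht']
        exact mul_le_mul_of_nonneg_left h3 (by positivity)
      have h7 : (0 : ℝ) ≤ (M + s).choose k := by positivity
      nlinarith
    calc (1 + (k : ℝ) / t) ^ (s + 1) * M.choose k
        = (1 + (k : ℝ) / t) * ((1 + (k : ℝ) / t) ^ s * M.choose k) := by ring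
      _ ≤ (1 + (k : ℝ) / t) * (M + s).choose k := by gcongr
      _ ≤ _ := h5

theorem choose_up (N j u : ℕ) (hu : 0 < u) (hN : j + u ≤ N + 1) : ∀ e : ℕ,
    ((N + e).choose j : ℝ) ≤ (1 + (j : ℝ) / u) ^ e * N.choose j := by
  intro e
  induction e with
  | zero => simp
  | succ e ih =>
    have h2 := choose_step (N + e) j (by omega)
    have hu' : (0 : ℝ) < u := by exact_mod_cast hu
    have h3 : (u : ℝ) ≤ ((N + e : ℕ) : ℝ) + 1 - j := by
      have : (j : ℝ) + u ≤ ((N + e : ℕ) : ℝ) + 1 := by exact_mod_cast (by omega : j + u ≤ N + e + 1)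
      linarith
    have h5 : ((N + e + 1).choose j : ℝ) ≤ (1 + (j : ℝ) / u) * (N + e).choose j := by
      apply le_of_mul_le_mul_right _ (hu'.trans_le h3)
      rw [h2]
      have h6 : (j : ℝ) ≤ (j : ℝ) / u * (((N + e : ℕ) : ℝ) + 1 - j) := by
        rw [div_mul_eq_mul_div, le_div_iff₀ hu']
        exact mul_le_mul_of_nonneg_left h3 (by positivity)
      have h7 : (0 : ℝ) ≤ (N + e).choose j := by positivity
      nlinarith
    calc (((N + (e + 1)).choose j : ℕ) : ℝ) ≤ (1 + (j : ℝ) / u) * (N + e).choose j := h5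
      _ ≤ (1 + (j : ℝ) / u) * ((1 + (j : ℝ) / u) ^ e * N.choose j) := by gcongr
      _ = _ := by ring

theorem pow_le_of_small (a : ℝ) (e : ℕ) (ha : 0 ≤ a) (h : a * e ≤ 1) :
    (1 + a) ^ e ≤ 1 + 2 * (a * e) := by
  have h0 : 0 ≤ a * e := by positivity
  have h1 : (1 + a) ^ e ≤ Real.exp (a * e) := by
    rw [mul_comm, Real.exp_nat_mul]
    exact pow_le_pow_left₀ (by positivity) (by linarith [Real.add_one_le_exp a]) e
  have h2 := Real.abs_exp_sub_one_le (x := a * e) (by rwa [abs_of_nonneg h0])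
  rw [abs_of_nonneg h0] at h2
  linarith [le_abs_self (Real.exp (a * e) - 1)]

/-- Dropping a small fraction of the free points loses more than a factor L (k+1). -/
theorem num_one (L k t : ℕ) (hL : 1 ≤ L) (hk : 32 * L ^ 3 ≤ k) (ht : 4 * L ≤ t) :
    (L : ℝ) * (k + 1) * (k + t - 2 * (t / (2 * L))).choose k ≤ (k + t).choose k := by
  set r := t / (2 * L) with hr
  have hr1 : 2 * L * r ≤ t := Nat.mul_div_le t (2 * L)
  have hr2 : t < 2 * L * (r + 1) := Nat.lt_mul_div_succ t (by omega)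
  have hr3 : 2 * r ≤ t := le_trans (by nlinarith) hr1
  have hr4 : 1 ≤ r := by
    by_contra h
    have : r = 0 := by omega
    rw [this] at hr2; omega
  have hr5 : t ≤ 4 * L * r := by nlinarith
  have h1 := choose_down (k + t - 2 * r) k t (by omega) (by omega) (2 * r) (by omega)
  rw [show k + t - 2 * r + 2 * r = k + t by omega] at h1
  refine le_trans (mul_le_mul_of_nonneg_right ?_ (by positivity)) h1
  have ht' : (0 : ℝ) < t := by exact_mod_cast (by omega : 0 < t)
  have hL' : (1 : ℝ) ≤ L := by exact_mod_cast hL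
  have hk' : 32 * (L : ℝ) ^ 3 ≤ k := by exact_mod_cast hk
  have h2 : 1 + (r : ℝ) * (k / t) ≤ (1 + (k : ℝ) / t) ^ r :=
    one_add_mul_le_pow (by have : (0 : ℝ) ≤ (k : ℝ) / t := by positivity
                           linarith) r
  have h3 : (k : ℝ) / (4 * L) ≤ (r : ℝ) * (k / t) := by
    have : (t : ℝ) ≤ 4 * L * r := by exact_mod_cast hr5
    rw [← mul_div_assoc, div_le_div_iff₀ (by positivity) ht']
    have hk0 : (0 : ℝ) ≤ k := by positivity
    nlinarith
  have h4 : (k : ℝ) / (4 * L) ≤ (1 + (k : ℝ) / t) ^ r := by linarith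
  have h5 : ((k : ℝ) / (4 * L)) ^ 2 ≤ (1 + (k : ℝ) / t) ^ (2 * r) := by
    rw [mul_comm 2 r, pow_mul]
    exact pow_le_pow_left₀ (by positivity) h4 2
  refine le_trans ?_ h5
  rw [div_pow, le_div_iff₀ (by positivity)]
  have h6 : (1 : ℝ) ≤ L ^ 3 := one_le_pow₀ hL'
  have h7 : (1 : ℝ) ≤ k := by linarith
  calc (L : ℝ) * (k + 1) * (4 * L) ^ 2 = 16 * (L : ℝ) ^ 3 * ((k : ℝ) + 1) := by ring
    _ ≤ 16 * (L : ℝ) ^ 3 * (2 * (k : ℝ)) := by gcongr; linarith
    _ = (32 * (L : ℝ) ^ 3) * (k : ℝ) := by ring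
    _ ≤ (k : ℝ) * k := by gcongr
    _ = _ := by ring

theorem num_two (L k t : ℕ) (hk : 12 * L ≤ k) (hk1 : 1 ≤ k) (ht : 5 ≤ t) :
    L * (k + 1) ^ 2 * (t + 1) ≤ (k + t).choose k := by
  obtain ⟨i, rfl⟩ : ∃ i, k = i + 1 := ⟨k - 1, by omega⟩
  obtain ⟨u, rfl⟩ : ∃ u, t = u + 2 := ⟨t - 2, by omega⟩
  have h1 : (i + 3).choose i * u.choose 1 ≤ (i + 1 + (u + 2)).choose (i + 1) := by
    rw [show i + 1 + (u + 2) = (i + 3) + u by ring, Nat.add_choose_eq (i + 3) u (i + 1)]
    exact Finset.single_le_sum (f := fun p : ℕ × ℕ => (i + 3).choose p.1 * u.choose p.2)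
      (fun _ _ => Nat.zero_le _) (a := (i, 1)) (Finset.HasAntidiagonal.mem_antidiagonal.2 rfl)
  refine le_trans ?_ h1
  have h2 : 6 * (i + 3).choose i = (i + 3) * (i + 2) * (i + 1) := by
    rw [Nat.choose_symm_add]
    have := Nat.descFactorial_eq_factorial_mul_choose (i + 3) 3
    simp [Nat.descFactorial, Nat.factorial] at this
    rw [← this]; ring
  rw [Nat.choose_one_right]
  have h3 : u + 2 + 1 ≤ 2 * u := by omega
  have : 12 * (L * (i + 1 + 1) ^ 2 * (u + 2 + 1)) ≤ 12 * ((i + 3).choose i * u) := by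
    calc 12 * (L * (i + 1 + 1) ^ 2 * (u + 2 + 1))
        = (12 * L) * (i + 2) * (i + 2) * (u + 2 + 1) := by ring
      _ ≤ (i + 1) * (i + 2) * (i + 3) * (2 * u) := by gcongr; omega
      _ = 2 * (6 * (i + 3).choose i) * u := by rw [h2]; ring
      _ = _ := by ring
  omega

theorem num_three (L k t : ℕ) (hk : 2 ≤ k) (ht : 2 * L * (k + 1) ^ 2 ≤ t + 2) :
    L * (k + 1) ^ 2 * (t + 1) ≤ (k + t).choose k := by
  have h1 : (t + 2).choose 2 ≤ (k + t).choose k := by
    rw [Nat.choose_symm_add (a := k), ← Nat.choose_symm_add (a := t) (b := 2)]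
    exact Nat.choose_le_choose _ (by omega)
  refine le_trans ?_ h1
  have h2 : 2 * (t + 2).choose 2 = (t + 2) * (t + 1) := by
    have := Nat.descFactorial_eq_factorial_mul_choose (t + 2) 2
    simp [Nat.descFactorial, Nat.factorial] at this
    rw [← this]; ring
  have : 2 * (L * (k + 1) ^ 2 * (t + 1)) ≤ 2 * (t + 2).choose 2 := by
    rw [h2]
    calc 2 * (L * (k + 1) ^ 2 * (t + 1)) = (2 * L * (k + 1) ^ 2) * (t + 1) := by ring
      _ ≤ _ := by gcongr
  omega

end Pool.Agent.P.MP_4f3dfd_co.Asy
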