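import Mathlib
import Pool.Agent.P.MP_4f3dfd_co.AChain
import Pool.Agent.P.MP_4f3dfd_co.ABlock
import Pool.Agent.P.MP_4f3dfd_co.ANum

set_option autoImplicit false

namespace Pool.Agent.P.MP_4f3dfd_co.Asy

open Finset

/-- Large uniformity. -/
theorem upperA (L n k t m d : ℕ) (hL : 2 ≤ L) (hk : 32 * L ^ 3 ≤ k) (ht : 4 * L ≤ t)
    (hxn : k + t + 1 ≤ n) (hm : m ≤ n.choose (k + 1)) (hm0 : 0 < m)
    (hdm : (k + 1) * m = d * n) (hd : (k + t).choose k ≤ d) :
    ∃ J : Finset (Finset (Fin n)), (∀ X ∈ J, #X = k + 1) ∧ #J = m ∧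
      (∀ v, #{X ∈ J | v ∈ X} = d) ∧ (#(shadow J) : ℝ) * (t + 1) ≤ (1 + 6 / L) * (n * d) := by
  have : NeZero n := ⟨by omega⟩
  set s := 2 * (t / (2 * L)) with hs
  have hs1 : L * s ≤ t := by
    have := Nat.mul_div_le t (2 * L)
    rw [hs]; nlinarith only [this]
  have hs2 : 2 * s ≤ t := le_trans (Nat.mul_le_mul_right s hL) hs1
  obtain ⟨J, g1, g2, g3, g4⟩ := upper_cl (n := n) k (k + t - s + 1) m d (by omega) (by omega)
    hm hm0 hdm
  refine ⟨J, g1, g2, g3, ?_⟩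
  have hL3 : L ≤ L ^ 3 := Nat.le_self_pow (by norm_num) L
  have h1 := num_one L k t (by omega) hk ht
  have h2 : (L : ℝ) * (k + 1) ^ 2 * (t + 1) ≤ (k + t).choose k := by
    exact_mod_cast num_two L k t (by omega) (by omega) (by omega)
  rw [← hs] at h1
  rw [Nat.add_sub_cancel] at g4
  have hc : ((k + t - s + 1 : ℕ) : ℝ) - k = t + 1 - s := by
    rw [Nat.cast_add, Nat.cast_sub (by omega)]; push_cast; ring
  rw [hc] at g4
  have hd' : ((k + t).choose k : ℝ) ≤ d := by exact_mod_cast hd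
  have hdm' : ((k : ℝ) + 1) * m = d * n := by exact_mod_cast hdm
  have hL' : (2 : ℝ) ≤ L := by exact_mod_cast hL
  have hs1' : (L : ℝ) * s ≤ t := by exact_mod_cast hs1
  have hs0 : (0 : ℝ) ≤ s := by positivity
  have hn0 : (0 : ℝ) ≤ n := by positivity
  have hLp : (0 : ℝ) < L := by linarith only [hL']
  set f : ℝ := ((#(shadow J) : ℕ) : ℝ) with hf
  have hf0 : 0 ≤ f := by positivity
  set C : ℝ := (((k + t - s).choose k : ℕ) : ℝ) with hC
  have e1 : ((k : ℝ) + 1) * C ≤ d / L := by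
    rw [le_div_iff₀ hLp]; nlinarith only [hd', h1]
  have e2 : ((k : ℝ) + 1) ^ 2 * (t + 1 - s) ≤ d / L := by
    rw [le_div_iff₀ hLp]
    have : ((k : ℝ) + 1) ^ 2 * (t + 1 - s) * L ≤ L * (k + 1) ^ 2 * (t + 1) := by
      have : 0 ≤ ((k : ℝ) + 1) ^ 2 * s * L := by positivity
      nlinarith only [this]
    linarith only [h2, hd', this]
  have e3 : f * (t + 1 - s) ≤ (1 + 2 / L) * (n * d) := by
    have a1 := mul_le_mul_of_nonneg_left e1 hn0
    have a2 := mul_le_mul_of_nonneg_left e2 hn0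
    calc f * (t + 1 - s) ≤ (k + 1) * (m + n * C) + (k + 1) ^ 2 * n * (t + 1 - s) := g4
      _ = (k + 1) * m + n * ((k + 1) * C) + n * ((k + 1) ^ 2 * (t + 1 - s)) := by ring
      _ ≤ d * n + n * (d / L) + n * (d / L) := by rw [hdm']; linarith only [a1, a2]
      _ = _ := by ring
  have e4 : ((t : ℝ) + 1) * (1 - 1 / L) ≤ t + 1 - s := by
    have : (s : ℝ) ≤ (t + 1) / L := by rw [le_div_iff₀ hLp]; linarith
    calc ((t : ℝ) + 1) * (1 - 1 / L) = t + 1 - (t + 1) / L := by ring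
      _ ≤ _ := by linarith only [this]
  have e5 : (0 : ℝ) < 1 - 1 / L := by
    have : 1 / (L : ℝ) ≤ 1 / 2 := one_div_le_one_div_of_le (by norm_num) hL'
    linarith only [this]
  apply le_of_mul_le_mul_right _ e5
  have e6 : (1 + 2 / (L : ℝ)) ≤ (1 + 6 / L) * (1 - 1 / L) := by
    have h3 : (1 + 6 / (L : ℝ)) * (1 - 1 / L) - (1 + 2 / L) = 3 * (L - 2) / L ^ 2 := by
      field_simp; ring
    have h4 : (0 : ℝ) ≤ 3 * (L - 2) / L ^ 2 := by
      apply div_nonneg _ (by positivity); linarith only [hL']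
    linarith only [h3, h4]
  calc f * (t + 1) * (1 - 1 / L) = f * ((t + 1) * (1 - 1 / L)) := by ring
    _ ≤ f * (t + 1 - s) := by gcongr
    _ ≤ (1 + 2 / L) * (n * d) := e3
    _ ≤ ((1 + 6 / L) * (1 - 1 / L)) * (n * d) := by gcongr
    _ = _ := by ring

/-- Bounded uniformity, sparse range. -/
theorem upperB (L Q n j t m d : ℕ) (hL : 1 ≤ L) (hQ : 4 * L * j ≤ Q) (hQ0 : 1 ≤ Q)
    (ht : Q ≤ t + 1) (hjt : j + 1 ≤ t) (ht2 : 2 * L * (j + 2) ^ 2 ≤ t + 2)
    (hn : Q * (j + t + 3) ≤ n) (hdm : (j + 2) * m = d * n) (hd : (j + 1 + t).choose (j + 1) ≤ d)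
    (hd2 : d ≤ (j + t + 2).choose (j + 1)) :
    ∃ J : Finset (Finset (Fin n)), (∀ X ∈ J, #X = j + 2) ∧ #J = m ∧
      (∀ v, #{X ∈ J | v ∈ X} = d) ∧ (#(shadow J) : ℝ) * (t + 1) ≤ (1 + 6 / L) * (n * d) := by
  set q := n / (j + t + 3) with hq
  have hQq : Q ≤ q := (Nat.le_div_iff_mul_le (by omega)).2 hn
  have hq0 : 0 < q := by omega
  have h1 : j + t + 3 ≤ n / q := by
    rw [Nat.le_div_iff_mul_le hq0, mul_comm]
    exact Nat.div_mul_le_self _ _
  have h2 : n < (j + t + 3) * (q + 1) := Nat.lt_mul_div_succ n (by omega)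
  obtain ⟨J, g1, g2, g3, g4⟩ := upper_block (V := Fin n) (fun v => v.val % q) j (j + t + 2)
    (n / q) m d (fun v => ⟨h1.trans (card_res n q hq0 v).1, (card_res n q hq0 v).2⟩) (by omega)
    hd2 (by simpa using hdm)
  refine ⟨J, g1, g2, g3, ?_⟩
  have hL' : (1 : ℝ) ≤ L := by exact_mod_cast hL
  have hLp : (0 : ℝ) < L := by linarith only [hL']
  have hn0 : (0 : ℝ) ≤ n := by positivity
  have hd' : ((j + 1 + t).choose (j + 1) : ℝ) ≤ d := by exact_mod_cast hd
  rcases Nat.eq_zero_or_pos j with rfl | hj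
  · have a1 : #(shadow J) ≤ n := by
      have : shadow J ⊆ powersetCard 1 univ := by
        intro Y hY
        obtain ⟨Z, hZ, -, hc⟩ := mem_shadow_iff_exists_mem_card_add_one.1 hY
        have := g1 Z hZ
        exact mem_powersetCard.2 ⟨subset_univ _, by omega⟩
      simpa using card_le_card this
    have a2 : (#(shadow J) : ℝ) ≤ n := by exact_mod_cast a1
    have a3 : (t : ℝ) + 1 ≤ d := by
      simp only [zero_add, Nat.choose_one_right] at hd'
      push_cast at hd'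
      linarith only [hd']
    have a4 : (0 : ℝ) ≤ 6 / L * (n * d) := by positivity
    calc (#(shadow J) : ℝ) * (t + 1) ≤ n * d := by gcongr
      _ ≤ _ := by linarith only [a4]
  obtain ⟨e, he⟩ : ∃ e, n / q = j + 1 + t + e := ⟨n / q - (j + 1 + t), by omega⟩
  have he2 : q * e ≤ 2 * q + 2 * (t + 1) := by
    have := Nat.mul_div_le n q
    rw [he] at this
    nlinarith only [hjt, h2, this]
  have hup := choose_up (j + 1 + t) j (t + 1) (by omega) (by omega) e
  have hq' : (0 : ℝ) < q := by exact_mod_cast hq0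
  have ht' : (0 : ℝ) < (t : ℝ) + 1 := by positivity
  have hsm : (j : ℝ) / ((t + 1 : ℕ) : ℝ) * e ≤ 1 / L := by
    have b1 : (q : ℝ) * e ≤ 2 * q + 2 * (t + 1) := by exact_mod_cast he2
    have b2 : 4 * (L : ℝ) * j ≤ q := by exact_mod_cast hQ.trans hQq
    have b3 : 4 * (L : ℝ) * j ≤ t + 1 := by exact_mod_cast hQ.trans ht
    push_cast
    rw [div_mul_eq_mul_div, div_le_div_iff₀ ht' hLp]
    apply le_of_mul_le_mul_right _ hq'
    have b4 : (0 : ℝ) ≤ j * L := by positivity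
    calc (j : ℝ) * e * L * q = (j * L) * (q * e) := by ring
      _ ≤ (j * L) * (2 * q + 2 * (t + 1)) := by gcongr
      _ = (4 * L * j) * q / 2 + (4 * L * j) * (t + 1) / 2 := by ring
      _ ≤ (t + 1) * q / 2 + q * (t + 1) / 2 := by gcongr
      _ = _ := by ring
  have hpw := pow_le_of_small ((j : ℝ) / ((t + 1 : ℕ) : ℝ)) e (by positivity)
    (hsm.trans (by rw [div_le_one hLp]; exact hL'))
  have c1 : ((n / q).choose j : ℝ) ≤ (1 + 2 / L) * (j + 1 + t).choose j := by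
    rw [he]
    refine hup.trans (mul_le_mul_of_nonneg_right (hpw.trans ?_) (by positivity))
    have : 2 / (L : ℝ) = 2 * (1 / L) := by ring
    rw [this]; linarith only [hsm]
  have c2 : ((j + 1 + t).choose (j + 1) : ℝ) * (j + 1) = (j + 1 + t).choose j * (t + 1) := by
    have := Nat.choose_succ_right_eq (j + 1 + t) j
    rw [show j + 1 + t - j = t + 1 by omega] at this
    exact_mod_cast this
  have c3 : (L : ℝ) * (j + 2) ^ 2 * (t + 1) ≤ (j + 1 + t).choose (j + 1) := by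
    exact_mod_cast num_three L (j + 1) t (by omega) ht2
  have c4 : ((j : ℝ) + 2) ^ 2 * (t + 1) ≤ d / L := by
    rw [le_div_iff₀ hLp]; nlinarith only [hd', c3]
  have g5 : ((j : ℝ) + 1) * #(shadow J) ≤
      n * (n / q).choose j + (j + 1) * ((j + 2) * ((j + 2) * n)) := by
    rw [Fintype.card_fin] at g4; exact_mod_cast g4
  have hj' : (0 : ℝ) < (j : ℝ) + 1 := by positivity
  apply le_of_mul_le_mul_left _ hj'
  have c5 : ((n / q).choose j : ℝ) * (t + 1) ≤ (1 + 2 / L) * (d * (j + 1)) := by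
    calc ((n / q).choose j : ℝ) * (t + 1) ≤ (1 + 2 / L) * (j + 1 + t).choose j * (t + 1) := by
          gcongr
      _ = (1 + 2 / L) * ((j + 1 + t).choose (j + 1) * (j + 1)) := by rw [c2]; ring
      _ ≤ _ := by gcongr
  have c6 : (0 : ℝ) ≤ (j + 1) * (3 / L * (n * d)) := by positivity
  calc ((j : ℝ) + 1) * (#(shadow J) * (t + 1)) = ((j + 1) * #(shadow J)) * (t + 1) := by ring
    _ ≤ (n * (n / q).choose j + (j + 1) * ((j + 2) * ((j + 2) * n))) * (t + 1) := by gcongr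
    _ = n * ((n / q).choose j * (t + 1)) + (j + 1) * n * ((j + 2) ^ 2 * (t + 1)) := by ring
    _ ≤ n * ((1 + 2 / L) * (d * (j + 1))) + (j + 1) * n * (d / L) := by gcongr
    _ = (j + 1) * ((1 + 6 / L) * (n * d)) - (j + 1) * (3 / L * (n * d)) := by ring
    _ ≤ _ := by linarith only [c6]

theorem asymptotic (ε : ℝ) (hε : 0 < ε) : ∃ K : ℕ, ∀ n c m d x : ℕ, 1 ≤ m → m ≤ n.choose c →
    c * m = d * n → (x - 1).choose (c - 1) ≤ d → d < x.choose (c - 1) → c + K ≤ x →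
    (K ≤ c ∨ K * x ≤ n) →
    ∃ f : ℕ, IsLeast {k : ℕ | ∃ J : Finset (Finset (Fin n)), (∀ X ∈ J, X.card = c) ∧
        J.card = m ∧ (∃ d : ℕ, ∀ i : Fin n, (J.filter (fun X => i ∈ X)).card = d) ∧
        (Finset.shadow J).card = k} f ∧
      |(f : ℝ) * (x - c + 1) / (c * m) - 1| ≤ ε := by
  obtain ⟨L, hL⟩ := exists_nat_ge (max 2 (6 / ε))
  have hL2 : 2 ≤ L := by exact_mod_cast (le_max_left _ _).trans hL
  have hL' : (2 : ℝ) ≤ L := by exact_mod_cast hL2
  have hLε : 6 / (L : ℝ) ≤ ε := by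
    have := (le_max_right _ _).trans hL
    rw [div_le_iff₀ hε] at this
    rw [div_le_iff₀ (by linarith)]; linarith
  set K1 := 32 * L ^ 3 + 1 with hK1
  refine ⟨8 * L * K1 + 2 * L * (K1 + 2) ^ 2 + K1 + 4 * L, ?_⟩
  intro n c m d x hm1 hm hdm hd1 hd2 hx hK
  have hc2 : 2 ≤ c := by
    by_contra h
    have : c - 1 = 0 := by omega
    rw [this, Nat.choose_zero_right] at hd1 hd2
    omega
  obtain ⟨j, rfl⟩ : ∃ j, c = j + 2 := ⟨c - 2, by omega⟩
  obtain ⟨t, rfl⟩ : ∃ t, x = j + 2 + t := ⟨x - (j + 2), by omega⟩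
  rw [show j + 2 - 1 = j + 1 by omega] at hd1 hd2
  rw [show j + 2 + t - 1 = j + 1 + t by omega] at hd1
  have hcn : j + 2 ≤ n := by
    by_contra h
    rw [Nat.choose_eq_zero_of_lt (by omega)] at hm
    omega
  have hxn : j + 2 + t ≤ n := by
    obtain ⟨N, rfl⟩ : ∃ N, n = N + 1 := ⟨n - 1, by omega⟩
    have h1 : d * (N + 1) ≤ N.choose (j + 1) * (N + 1) := by
      rw [← hdm, mul_comm (N.choose (j + 1)), Nat.add_one_mul_choose_eq, mul_comm]
      exact Nat.mul_le_mul_right _ hm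
    have h2 : d ≤ N.choose (j + 1) := Nat.le_of_mul_le_mul_right h1 (by omega)
    by_contra h
    have h3 : (N + 1).choose (j + 1) ≤ (j + 1 + t).choose (j + 1) :=
      Nat.choose_le_choose _ (by omega)
    have h4 : 0 < N.choose j := Nat.choose_pos (by omega)
    rw [Nat.choose_succ_succ'] at h3
    omega
  have hex : ∃ J : Finset (Finset (Fin n)), (∀ X ∈ J, #X = j + 2) ∧ #J = m ∧
      (∀ v, #{X ∈ J | v ∈ X} = d) ∧ (#(shadow J) : ℝ) * (t + 1) ≤ (1 + 6 / L) * (n * d) := by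
    by_cases hj : K1 ≤ j + 2
    · exact upperA L n (j + 1) t m d hL2 (by omega) (by omega) (by omega) hm hm1 hdm hd1
    · have hK' := hK.resolve_left (by omega)
      have p1 : 2 * L * (j + 2) ^ 2 ≤ 2 * L * (K1 + 2) ^ 2 := by gcongr; omega
      have p0 : 1 ≤ 4 * L * K1 := Nat.mul_pos (by omega) (by omega)
      have p2 : 8 * L * K1 = 2 * (4 * L * K1) := by ring
      refine upperB L (4 * L * K1) n j t m d (by omega) (by gcongr; omega) p0 (by omega)
        (by omega) (by omega) (le_trans ?_ hK') hdm hd1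
        (by rw [show j + t + 2 = j + 2 + t by ring]; exact hd2.le)
      calc 4 * L * K1 * (j + t + 3) ≤ 4 * L * K1 * (2 * (j + 2 + t)) := by gcongr; omega
        _ = (8 * L * K1) * (j + 2 + t) := by ring
        _ ≤ _ := by gcongr; omega
  obtain ⟨J0, g1, g2, g3, g4⟩ := hex
  set S := {k : ℕ | ∃ J : Finset (Finset (Fin n)), (∀ X ∈ J, X.card = j + 2) ∧
        J.card = m ∧ (∃ d : ℕ, ∀ i : Fin n, (J.filter (fun X => i ∈ X)).card = d) ∧
        (Finset.shadow J).card = k} with hS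
  have hJ0 : #(shadow J0) ∈ S := ⟨J0, g1, g2, ⟨d, g3⟩, rfl⟩
  refine ⟨sInf S, ⟨Nat.sInf_mem ⟨_, hJ0⟩, fun k hk => Nat.sInf_le hk⟩, ?_⟩
  obtain ⟨J, k1, k2, ⟨d', k3⟩, k4⟩ := Nat.sInf_mem ⟨_, hJ0⟩
  have hdd : d' = d := by
    have := sum_deg_nat J (j + 2) k1
    rw [sum_congr rfl (fun v _ => k3 v), sum_const, card_univ, Fintype.card_fin, smul_eq_mul, k2,
      hdm, mul_comm] at this
    exact Nat.eq_of_mul_eq_mul_right (by omega) this
  subst hdd
  have hlow := lower (k := j + 1) (by omega) hxn J k1 k3 hd2.le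
  rw [k4, show j + 2 + t + 1 - (j + 1) = t + 2 by omega] at hlow
  have hlow' : (n : ℝ) * d' ≤ (sInf S : ℕ) * (t + 2) := by exact_mod_cast hlow
  have hup : ((sInf S : ℕ) : ℝ) ≤ #(shadow J0) := by exact_mod_cast Nat.sInf_le hJ0
  have hdm' : ((j + 2 : ℕ) : ℝ) * m = n * d' := by
    rw [mul_comm (n : ℝ)]; exact_mod_cast hdm
  have hpos : (0 : ℝ) < n * d' := by
    rw [← hdm']
    have : (0 : ℝ) < m := by exact_mod_cast hm1
    positivity
  have hxc : ((j + 2 + t : ℕ) : ℝ) - (j + 2 : ℕ) + 1 = t + 1 := by push_cast; ring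
  rw [hxc, hdm', abs_le]
  have htL : (L : ℝ) ≤ t := by exact_mod_cast (by omega : L ≤ t)
  set f : ℝ := ((sInf S : ℕ) : ℝ) with hf
  have hf0 : 0 ≤ f := by positivity
  constructor
  · have h1 : 1 - ε ≤ f * (t + 1) / (n * d') := by
      rw [le_div_iff₀ hpos]
      have h2 : (1 - ε) * (t + 2) ≤ t + 1 := by
        have h3 : 6 ≤ ε * L := by rwa [div_le_iff₀ (by linarith only [hL'])] at hLε
        nlinarith only [hε, hL', htL, h3]
      have h4 : (0 : ℝ) < (t : ℝ) + 2 := by positivity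
      apply le_of_mul_le_mul_right _ h4
      calc (1 - ε) * (n * d') * (t + 2) = ((1 - ε) * (t + 2)) * (n * d') := by ring
        _ ≤ (t + 1) * (n * d') := by gcongr
        _ ≤ (t + 1) * (f * (t + 2)) := by gcongr
        _ = _ := by ring
    linarith only [h1]
  · have h1 : f * (t + 1) / (n * d') ≤ 1 + ε := by
      rw [div_le_iff₀ hpos]
      calc f * (t + 1) ≤ #(shadow J0) * (t + 1) := by gcongr
        _ ≤ (1 + 6 / L) * (n * d') := g4
        _ ≤ _ := by gcongr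
    linarith only [h1]

end Pool.Agent.P.MP_4f3dfd_co.Asy
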