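import Mathlib
import Pool.Agent.P.MP_4f3dfd_co.AMain
import Pool.Agent.P.MP_4f3dfd_co.ACone

set_option autoImplicit false

namespace Pool.Agent.P.MP_4f3dfd_co.Asy

open Finset Filter Topology

/-- The link bound. -/
theorem link_lower {n k d g : ℕ} (J : Finset (Finset (Fin n)))
    (hJ : ∀ X ∈ J, #X = k + 1) (hd : ∀ v, #{X ∈ J | v ∈ X} = d)
    (hg : ∀ L : Finset (Finset (Fin n)), (∀ X ∈ L, #X = k) → #L = d → g ≤ #(shadow L)) :
    n * g ≤ k * #(shadow J) := by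
  have hS : ∀ Y ∈ shadow J, #Y = k := by
    intro Y hY
    obtain ⟨Z, hZ, -, hc⟩ := mem_shadow_iff_exists_mem_card_add_one.1 hY
    have := hJ Z hZ
    omega
  have key : ∀ v, g ≤ #{Y ∈ shadow J | v ∈ Y} := by
    intro v
    set L : Finset (Finset (Fin n)) := {X ∈ J | v ∈ X}.image (·.erase v) with hL
    have hLc : #L = d := by
      rw [hL, card_image_of_injOn, hd]
      intro X hX Y hY h
      rw [mem_coe, mem_filter] at hX hY
      rw [← insert_erase hX.2, ← insert_erase hY.2]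
      exact congrArg _ h
    have hLk : ∀ X ∈ L, #X = k := by
      intro X hX
      obtain ⟨Z, hZ, rfl⟩ := mem_image.1 hX
      rw [mem_filter] at hZ
      rw [card_erase_of_mem hZ.2, hJ Z hZ.1]; rfl
    refine (hg L hLk hLc).trans ?_
    have hmem : ∀ Y ∈ shadow L, v ∉ Y ∧ insert v Y ∈ shadow J := by
      intro Y hY
      obtain ⟨X, hX, a, ha, rfl⟩ := mem_shadow_iff.1 hY
      obtain ⟨Z, hZ, rfl⟩ := mem_image.1 hX
      rw [mem_filter] at hZ
      rw [mem_erase] at ha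
      refine ⟨by simp, ?_⟩
      have : insert v ((Z.erase v).erase a) = Z.erase a := by
        rw [erase_right_comm, insert_erase (mem_erase.2 ⟨ha.1.symm, hZ.2⟩)]
      rw [this]
      exact erase_mem_shadow hZ.1 ha.2
    apply card_le_card_of_injOn (insert v)
    · intro Y hY
      rw [mem_coe, mem_filter]
      exact ⟨(hmem Y hY).2, mem_insert_self _ _⟩
    · intro Y hY Z hZ h
      rw [← erase_insert (hmem Y hY).1, ← erase_insert (hmem Z hZ).1]
      exact congrArg (·.erase v) h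
  have hsum := sum_le_sum (s := (univ : Finset (Fin n))) (fun v _ => key v)
  rwa [sum_deg_nat _ k hS, sum_const, card_univ, Fintype.card_fin, smul_eq_mul] at hsum

theorem x_le {n k t m d : ℕ} (hk : 1 ≤ k) (hm1 : 1 ≤ m) (hm : m ≤ n.choose (k + 1))
    (hdm : (k + 1) * m = d * n) (hd1 : (k + t).choose k ≤ d) : k + 1 + t ≤ n := by
  have hcn : k + 1 ≤ n := by
    by_contra h
    rw [Nat.choose_eq_zero_of_lt (by omega)] at hm
    omega
  obtain ⟨j, rfl⟩ : ∃ j, k = j + 1 := ⟨k - 1, by omega⟩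
  obtain ⟨N, rfl⟩ : ∃ N, n = N + 1 := ⟨n - 1, by omega⟩
  have h1 : d * (N + 1) ≤ N.choose (j + 1) * (N + 1) := by
    rw [← hdm, mul_comm (N.choose (j + 1)), Nat.add_one_mul_choose_eq, mul_comm]
    exact Nat.mul_le_mul_right _ hm
  have h2 : d ≤ N.choose (j + 1) := Nat.le_of_mul_le_mul_right h1 (by omega)
  by_contra h
  have h3 : (N + 1).choose (j + 1) ≤ (j + 1 + t).choose (j + 1) :=
    Nat.choose_le_choose _ (by omega)
  have h4 : 0 < N.choose j := Nat.choose_pos (by omega)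
  rw [Nat.choose_succ_succ'] at h3
  omega

theorem poly_le_exp (T : ℕ) : ∃ K : ℕ, ∀ k t : ℕ, K ≤ k → t ≤ T →
    (k + 1 + t).choose k ≤ 2 ^ ((k + 1) / 4) := by
  have h := tendsto_pow_const_div_const_pow_of_one_lt (T + 1) (r := (2 : ℝ)) (by norm_num)
  have h2 := h.eventually (gt_mem_nhds (show (0 : ℝ) < 1 / 8 ^ (T + 1) by positivity))
  obtain ⟨U, hU⟩ := eventually_atTop.1 h2
  refine ⟨4 * (U + T + 3), fun k t hk ht => ?_⟩
  obtain ⟨u, hu⟩ : ∃ u, u = (k + 1) / 4 := ⟨_, rfl⟩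
  rw [← hu]
  have h3 := hU u (by omega)
  rw [div_lt_div_iff₀ (by positivity) (by positivity), one_mul, ← mul_pow] at h3
  have h4 : (u * 8) ^ (T + 1) ≤ 2 ^ u := by exact_mod_cast h3.le
  calc (k + 1 + t).choose k = (k + 1 + t).choose (t + 1) :=
        Nat.choose_symm_of_eq_add (by omega)
    _ ≤ (k + 1 + t) ^ (t + 1) := Nat.choose_le_pow _ _
    _ ≤ (u * 8) ^ (t + 1) := Nat.pow_le_pow_left (by omega) _
    _ ≤ (u * 8) ^ (T + 1) := Nat.pow_le_pow_right (by omega) (by omega)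
    _ ≤ _ := h4

/-- The third range in ratio form. -/
theorem upperC' (L T : ℕ) : ∃ K : ℕ, ∀ n k t m d : ℕ, K ≤ k + 1 → t ≤ T →
    K * (k + 1 + t) ≤ n → (k + 1) * m = d * n → d ≤ (k + 1 + t).choose k →
    ∀ A : Finset (Finset (Fin n)), (∀ X ∈ A, #X = k) → #A = d →
    ∃ J : Finset (Finset (Fin n)), (∀ X ∈ J, #X = k + 1) ∧ #J = m ∧
      (∀ v, #{X ∈ J | v ∈ X} = d) ∧
      L * (k * #(shadow J)) ≤ (L + 2) * (n * #(shadow A)) := by
  obtain ⟨K1, hK1⟩ := poly_le_exp T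
  refine ⟨K1 + 40 + 39 * (L * (T + 2)) + L * (T + 2) * (2 * T + 3), ?_⟩
  intro n k t m d hk ht hn hdm hd A hA hAd
  obtain ⟨P, hP⟩ : ∃ P, P = L * (T + 2) := ⟨_, rfl⟩
  rw [← hP] at hk hn
  obtain ⟨b, hb⟩ : ∃ b, b = k + 2 * t + 3 := ⟨_, rfl⟩
  have hb3 : b ≤ 3 * (k + 1 + t) := by omega
  have h12 : 12 ≤ n / b := by
    rw [Nat.le_div_iff_mul_le (by omega)]
    calc 12 * b ≤ 40 * (k + 1 + t) := by omega
      _ ≤ _ := le_trans (Nat.mul_le_mul_right _ (by omega)) hn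
  obtain ⟨q, hq⟩ : ∃ q, n / b = q + 12 := ⟨n / b - 12, by omega⟩
  have hq1 : (q + 12) * b ≤ n := by rw [← hq]; exact Nat.div_mul_le_self _ _
  have hq2 : n < b * (q + 12 + 1) := by rw [← hq]; exact Nat.lt_mul_div_succ n (by omega)
  obtain ⟨J, g1, g2, g3, g4⟩ := upperC n k t m d q (by omega) hdm (hb ▸ hq1) hd
    (hd.trans (hK1 k t (by omega) ht)) A hA hAd
  refine ⟨J, g1, g2, g3, ?_⟩
  have hxn : k + 1 + t ≤ n := le_trans (Nat.le_mul_of_pos_left _ (by omega)) hn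
  have hr := kk_ratio hxn A hA (hAd ▸ hd)
  rw [hAd, show k + 1 + t + 1 - k = t + 2 by omega] at hr
  obtain ⟨w, hw⟩ : ∃ w, n = (k + 1) * q + w := ⟨n - (k + 1) * q, by
    have : (k + 1) * q ≤ n := by rw [hb] at hq1; nlinarith
    omega⟩
  rw [show n - (k + 1) * q = w by omega] at g4
  set g := #(shadow A)
  have e1 : q + w ≤ q * (2 * t + 3) + 13 * b := by
    have : b * (q + 12 + 1) = k * q + q * (2 * t + 3) + 13 * b := by rw [hb]; ring
    have h2 : (k + 1) * q = k * q + q := by ring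
    omega
  have e2 : P * (q * (2 * t + 3)) ≤ n := by
    calc P * (q * (2 * t + 3)) = (P * (2 * t + 3)) * q := by ring
      _ ≤ (P * (2 * T + 3)) * q := by gcongr
      _ ≤ (k + 1) * q := Nat.mul_le_mul_right _ (by omega)
      _ ≤ n := by omega
  have e3 : P * (13 * b) ≤ n := by
    calc P * (13 * b) ≤ P * (13 * (3 * (k + 1 + t))) := by gcongr
      _ = (39 * P) * (k + 1 + t) := by ring
      _ ≤ _ := le_trans (Nat.mul_le_mul_right _ (by omega)) hn
  have e4 : P * (q + w) ≤ 2 * n := by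
    have := Nat.mul_le_mul_left P e1
    rw [mul_add P (q * (2 * t + 3))] at this
    omega
  have e5 : k * q ≤ n := by
    have h2 : (k + 1) * q = k * q + q := by ring
    omega
  calc L * (k * #(shadow J)) ≤ L * (k * (q * (g + d) + d * w)) := by gcongr
    _ = L * ((k * q) * g) + L * (q + w) * (d * k) := by ring
    _ ≤ L * (n * g) + L * (q + w) * (g * (T + 2)) :=
        Nat.add_le_add (Nat.mul_le_mul_left _ (Nat.mul_le_mul_right _ e5))
          (Nat.mul_le_mul_left _ (hr.trans (Nat.mul_le_mul_left _ (by omega))))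
    _ = L * (n * g) + (P * (q + w)) * g := by rw [hP]; ring
    _ ≤ L * (n * g) + (2 * n) * g := by gcongr
    _ = _ := by ring

theorem final (ε : ℝ) (hε : 0 < ε) : ∃ K : ℕ, ∀ n c m d x : ℕ, 1 ≤ m → m ≤ n.choose c →
    c * m = d * n → (x - 1).choose (c - 1) ≤ d → d < x.choose (c - 1) →
    ((K ≤ c ∧ c + K ≤ x) ∨ (c + K ≤ x ∧ K * x ≤ n) ∨ (K ≤ c ∧ K * x ≤ n)) →
    ∃ f g : ℕ, IsLeast {k : ℕ | ∃ J : Finset (Finset (Fin n)), (∀ X ∈ J, X.card = c) ∧
        J.card = m ∧ (∃ d : ℕ, ∀ i : Fin n, (J.filter (fun X => i ∈ X)).card = d) ∧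
        (Finset.shadow J).card = k} f ∧
      IsLeast {k : ℕ | ∃ A : Finset (Finset (Fin n)), (∀ X ∈ A, X.card = c - 1) ∧
        A.card = d ∧ (Finset.shadow A).card = k} g ∧
      n * g ≤ (c - 1) * f ∧ ((c : ℝ) - 1) * f ≤ (1 + ε) * (n * g) ∧
      (c + K ≤ x → |(f : ℝ) * (x - c + 1) / (c * m) - 1| ≤ ε) := by
  obtain ⟨L, hL⟩ := exists_nat_ge (max 1 (3 / ε))
  have hL1 : (1 : ℝ) ≤ L := (le_max_left _ _).trans hL
  have hLp : (0 : ℝ) < L := by linarith
  have hLε : 3 / (L : ℝ) ≤ ε := by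
    have := (le_max_right _ _).trans hL
    rw [div_le_iff₀ hε] at this
    rw [div_le_iff₀ hLp]; linarith
  obtain ⟨K0, hK0⟩ := asymptotic (1 / L) (by positivity)
  obtain ⟨K1, hK1⟩ := upperC' L (K0 + L)
  refine ⟨K0 + L + K1, ?_⟩
  intro n c m d x hm1 hm hdm hd1 hd2 hK
  have hc2 : 2 ≤ c := by
    by_contra h
    have : c - 1 = 0 := by omega
    rw [this, Nat.choose_zero_right] at hd1 hd2
    omega
  have hn0 : 0 < n := by
    rcases Nat.eq_zero_or_pos n with rfl | h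
    · rw [Nat.choose_eq_zero_of_lt (by omega)] at hm
      omega
    · exact h
  have hd0 : 0 < d := by
    rcases Nat.eq_zero_or_pos d with rfl | h
    · have : 0 < c * m := Nat.mul_pos (by omega) hm1
      omega
    · exact h
  have hcx : c ≤ x := by
    by_contra h
    rcases (show x = c - 1 ∨ x < c - 1 by omega) with e | e
    · rw [e, Nat.choose_self] at hd2
      omega
    · rw [Nat.choose_eq_zero_of_lt e] at hd2
      omega
  obtain ⟨k, rfl⟩ : ∃ k, c = k + 1 := ⟨c - 1, by omega⟩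
  obtain ⟨t, rfl⟩ : ∃ t, x = k + 1 + t := ⟨x - (k + 1), by omega⟩
  have hxn : k + 1 + t ≤ n := x_le (by omega) hm1 hm hdm
    (by rwa [show k + 1 + t - 1 = k + t by omega, Nat.add_sub_cancel] at hd1)
  simp only [Nat.add_sub_cancel] at hd2 ⊢
  set G := {s : ℕ | ∃ A : Finset (Finset (Fin n)), (∀ X ∈ A, X.card = k) ∧
        A.card = d ∧ (Finset.shadow A).card = s} with hG
  have hGne : G.Nonempty := by
    obtain ⟨C, hC, hc⟩ := exists_initSeg n k d (hd2.le.trans (Nat.choose_le_choose k hxn))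
    exact ⟨_, C, fun X hX => hC.1 hX, hc, rfl⟩
  obtain ⟨A, a1, a2, a3⟩ := Nat.sInf_mem hGne
  have hGl : IsLeast G (sInf G) := ⟨Nat.sInf_mem hGne, fun s hs => Nat.sInf_le hs⟩
  set S := {s : ℕ | ∃ J : Finset (Finset (Fin n)), (∀ X ∈ J, X.card = k + 1) ∧
        J.card = m ∧ (∃ d : ℕ, ∀ i : Fin n, (J.filter (fun X => i ∈ X)).card = d) ∧
        (Finset.shadow J).card = s} with hS
  have hlow : ∀ f ∈ S, n * sInf G ≤ k * f := by
    rintro f ⟨J, k1, k2, ⟨d', k3⟩, rfl⟩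
    have hdd : d' = d := by
      have := sum_deg_nat J (k + 1) k1
      rw [sum_congr rfl (fun v _ => k3 v), sum_const, card_univ, Fintype.card_fin, smul_eq_mul,
        k2, hdm, mul_comm] at this
      exact Nat.eq_of_mul_eq_mul_right hn0 this
    subst hdd
    exact link_lower J k1 k3 fun B b1 b2 => Nat.sInf_le ⟨B, b1, b2, rfl⟩
  have hcast : ((k + 1 : ℕ) : ℝ) - 1 = k := by push_cast; ring
  have hng : (0 : ℝ) ≤ (n : ℝ) * (sInf G : ℕ) := by positivity
  rw [hcast]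
  by_cases ht : K0 + L ≤ t
  · obtain ⟨f, f1, f2⟩ := hK0 n (k + 1) m d (k + 1 + t) hm1 hm hdm hd1
      (by rwa [Nat.add_sub_cancel]) (by omega) (by
        rcases hK with h | h | h
        · left; omega
        · right; exact le_trans (Nat.mul_le_mul_right _ (by omega)) h.2
        · left; omega)
    have hε1 : 1 / (L : ℝ) ≤ ε := le_trans (by gcongr; norm_num) hLε
    refine ⟨f, sInf G, f1, hGl, hlow f f1.1, ?_, fun _ => f2.trans hε1⟩
    have hr := kk_ratio hxn A a1 (a2 ▸ hd2.le)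
    rw [a2, a3, show k + 1 + t + 1 - k = t + 2 by omega] at hr
    have hr' : (d : ℝ) * k ≤ (sInf G : ℕ) * (t + 2) := by exact_mod_cast hr
    have hdm' : ((k + 1 : ℕ) : ℝ) * m = n * d := by
      rw [mul_comm (n : ℝ)]; exact_mod_cast hdm
    have hxc : ((k + 1 + t : ℕ) : ℝ) - (k + 1 : ℕ) + 1 = t + 1 := by push_cast; ring
    have hpos : (0 : ℝ) < n * d := by positivity
    rw [hxc, hdm'] at f2
    have f3 : (f : ℝ) * (t + 1) ≤ (1 + 1 / L) * (n * d) := by
      have := (abs_le.1 f2).2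
      rw [← div_le_iff₀ hpos]; linarith
    have htL : (L : ℝ) ≤ t := by exact_mod_cast (by omega : L ≤ t)
    have f4 : (t : ℝ) + 2 ≤ (1 + 1 / L) * (t + 1) := by
      have : (1 : ℝ) ≤ (t + 1) / L := by rw [le_div_iff₀ hLp]; linarith
      calc (t : ℝ) + 2 = t + 1 + 1 := by ring
        _ ≤ t + 1 + (t + 1) / L := by linarith
        _ = _ := by ring
    have f5 : (1 + 1 / (L : ℝ)) * (1 + 1 / L) ≤ 1 + ε := by
      have h1 : 1 / (L : ℝ) ≤ 1 := by rw [div_le_one hLp]; exact hL1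
      have h2 : (0 : ℝ) ≤ 1 / L := by positivity
      have h3 : 3 / (L : ℝ) = 3 * (1 / L) := by ring
      nlinarith
    have ht1 : (0 : ℝ) < (t : ℝ) + 1 := by positivity
    apply le_of_mul_le_mul_right _ ht1
    calc (k : ℝ) * f * (t + 1) = k * (f * (t + 1)) := by ring
      _ ≤ k * ((1 + 1 / L) * (n * d)) := by gcongr
      _ = (1 + 1 / L) * n * (d * k) := by ring
      _ ≤ (1 + 1 / L) * n * ((sInf G : ℕ) * (t + 2)) := by gcongr
      _ ≤ (1 + 1 / L) * n * ((sInf G : ℕ) * ((1 + 1 / L) * (t + 1))) := by gcongr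
      _ = ((1 + 1 / L) * (1 + 1 / L)) * (n * (sInf G : ℕ)) * (t + 1) := by ring
      _ ≤ _ := by gcongr
  · have hK' : K0 + L + K1 ≤ k + 1 ∧ (K0 + L + K1) * (k + 1 + t) ≤ n := by
      rcases hK with h | h | h
      · omega
      · omega
      · exact h
    obtain ⟨J, g1, g2, g3, g4⟩ := hK1 n k t m d (by omega) (by omega)
      (le_trans (Nat.mul_le_mul_right _ (by omega)) hK'.2) hdm hd2.le A a1 a2
    have hJ : #(shadow J) ∈ S := ⟨J, g1, g2, ⟨d, g3⟩, rfl⟩
    have hSl : IsLeast S (sInf S) := ⟨Nat.sInf_mem ⟨_, hJ⟩, fun s hs => Nat.sInf_le hs⟩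
    refine ⟨sInf S, sInf G, hSl, hGl, hlow _ hSl.1, ?_, fun h => absurd h (by omega)⟩
    rw [a3] at g4
    have g5 : L * (k * sInf S) ≤ (L + 2) * (n * sInf G) :=
      le_trans (by gcongr; exact Nat.sInf_le hJ) g4
    have g6 : (L : ℝ) * (k * (sInf S : ℕ)) ≤ (L + 2) * (n * (sInf G : ℕ)) := by exact_mod_cast g5
    have g7 : (L : ℝ) + 2 ≤ L * (1 + ε) := by
      rw [div_le_iff₀ hLp] at hLε
      nlinarith
    apply le_of_mul_le_mul_left _ hLp
    calc (L : ℝ) * (k * (sInf S : ℕ)) ≤ (L + 2) * (n * (sInf G : ℕ)) := g6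
      _ ≤ (L * (1 + ε)) * (n * (sInf G : ℕ)) := by gcongr
      _ = _ := by ring

end Pool.Agent.P.MP_4f3dfd_co.Asy
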