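import Mathlib

set_option autoImplicit false

namespace Pool.Agent.P.MP_4f3dfd_co.Off

theorem choose_mid {x s t : ℕ} (h1 : s ≤ t) (h2 : t + s ≤ x) : x.choose s ≤ x.choose t := by
  have key : ∀ t, s ≤ t → t ≤ x / 2 → x.choose s ≤ x.choose t := by
    intro t ht
    induction t, ht using Nat.le_induction with
    | base => exact fun _ => le_rfl
    | succ t _ ih =>
      exact fun h => (ih (by omega)).trans (Nat.choose_le_succ_of_lt_half_left (by omega))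
  by_cases h : t ≤ x / 2
  · exact key t h1 h
  · rw [← Nat.choose_symm (show t ≤ x by omega)]
    exact key _ (by omega) (by omega)

theorem big_choose (p D : ℕ) : ∃ K, ∀ n x t : ℕ, K ≤ n → n ≤ D * x → p + 1 ≤ t →
    t + (p + 1) ≤ x → n ^ p ≤ x.choose t := by
  refine ⟨(2 * D) ^ (p + 1) * (p + 1).factorial + 1, fun n x t h1 h2 h3 h4 => ?_⟩
  refine le_trans ?_ (choose_mid h3 h4)
  have hD : 0 < D := Nat.pos_of_ne_zero (by rintro rfl; omega)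
  have a1 := Nat.pow_sub_le_descFactorial x (p + 1)
  rw [Nat.descFactorial_eq_factorial_mul_choose] at a1
  have a2 : n ≤ 2 * D * (x + 1 - (p + 1)) :=
    h2.trans (by rw [mul_comm 2 D, mul_assoc]; exact Nat.mul_le_mul_left _ (by omega))
  apply Nat.le_of_mul_le_mul_left (c := (2 * D) ^ (p + 1) * (p + 1).factorial) _ (by positivity)
  calc _ ≤ n * n ^ p := Nat.mul_le_mul_right _ (by omega)
    _ = n ^ (p + 1) := by ring
    _ ≤ (2 * D * (x + 1 - (p + 1))) ^ (p + 1) := Nat.pow_le_pow_left a2 _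
    _ = (2 * D) ^ (p + 1) * (x + 1 - (p + 1)) ^ (p + 1) := mul_pow _ _ _
    _ ≤ (2 * D) ^ (p + 1) * ((p + 1).factorial * x.choose (p + 1)) := by gcongr
    _ = _ := by ring

theorem choose_scale {s c : ℕ} (h : s ≤ c) (j : ℕ) :
    (c + j).choose j * s ^ j ≤ (s + j).choose j * c ^ j := by
  induction j with
  | zero => simp
  | succ j ih =>
    apply Nat.le_of_mul_le_mul_right _ (Nat.succ_pos j)
    calc (c + (j + 1)).choose (j + 1) * s ^ (j + 1) * (j + 1)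
        = ((c + j + 1).choose (j + 1) * (j + 1)) * s ^ (j + 1) := by ring_nf
      _ = ((c + j).choose j * s ^ j) * ((c + j + 1) * s) := by
          rw [← Nat.add_one_mul_choose_eq]; ring
      _ ≤ ((s + j).choose j * c ^ j) * ((s + j + 1) * c) := by gcongr ?_ * ?_; nlinarith
      _ = ((s + j + 1).choose (j + 1) * (j + 1)) * c ^ (j + 1) := by
          rw [← Nat.add_one_mul_choose_eq]; ring
      _ = _ := by rw [Nat.succ_eq_add_one]; ring_nf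

theorem ex_nat {x : ℝ} (hx : 0 ≤ x) : ∃ a : ℕ, (a : ℝ) ≤ x ∧ x < a + 1 :=
  ⟨⌊x⌋₊, Nat.floor_le hx, Nat.lt_floor_add_one x⟩

/-- Degrees on the blocks. -/
theorem num_block {γ β ε η m P t z : ℝ} (h1 : γ + β = 1) (hβ : 0 < β) (hε : 0 < ε)
    (hε' : ε ≤ 1 / 4) (hη : η ≤ ε ^ 2 * β) (hm : 0 ≤ m) (hP0 : 0 ≤ P) (hP : P ≤ (1 - 2 * ε) * m)
    (t0 : 0 ≤ t) (t1 : t ≤ γ) (t2 : γ - 2 * η ≤ t) (z1 : z ≤ 1) (z2 : 1 - z ≤ ε ^ 2 * β) :
    P * t * z ≤ γ * P ∧ P - P * t * z ≤ (1 - ε) * (β * m) := by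
  have a1 : t * z ≤ γ := by nlinarith
  have a2 : t * (1 - z) ≤ 1 * (ε ^ 2 * β) := by
    apply mul_le_mul _ z2 <;> linarith
  have a3 : 1 - t * z ≤ β * (1 + 3 * ε ^ 2) := by nlinarith
  have a4 : (1 - 2 * ε) * (1 + 3 * ε ^ 2) ≤ 1 - ε := by nlinarith [pow_pos hε 3]
  constructor
  · nlinarith
  · calc P - P * t * z = P * (1 - t * z) := by ring
      _ ≤ P * (β * (1 + 3 * ε ^ 2)) := by gcongr
      _ ≤ (1 - 2 * ε) * m * (β * (1 + 3 * ε ^ 2)) := by gcongr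
      _ = (1 - 2 * ε) * (1 + 3 * ε ^ 2) * (β * m) := by ring
      _ ≤ _ := by gcongr

/-- Degrees off the blocks. -/
theorem num_rest {γ β ε m N A t z : ℝ} (h1 : γ + β = 1) (hγ : 0 < γ) (hβ : 0 < β) (hε : 0 < ε)
    (hε' : ε ≤ 1 / 4) (hm : 0 ≤ m) (hN : 0 ≤ N) (hA : 0 ≤ A) (hP : N * A ≤ (1 - 2 * ε) * m)
    (hA1 : A ≤ ε * (γ * m)) (hA2 : A ≤ ε * (β * m))
    (t1 : t ≤ N * (γ * (1 + 4 * ε ^ 2)) + 1) (t2 : N * γ - 1 ≤ t) (z0 : 0 ≤ z) (z1 : z ≤ 1)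
    (z2 : 1 - z ≤ ε ^ 2 * β) :
    t * (A * z) ≤ γ * m ∧ N * A - t * (A * z) ≤ β * m := by
  constructor
  · have a4 : (1 - 2 * ε) * (1 + 4 * ε ^ 2) ≤ 1 - ε := by nlinarith [pow_pos hε 3]
    calc t * (A * z) ≤ (N * (γ * (1 + 4 * ε ^ 2)) + 1) * (A * 1) := by gcongr
      _ = N * A * (γ * (1 + 4 * ε ^ 2)) + A := by ring
      _ ≤ (1 - 2 * ε) * m * (γ * (1 + 4 * ε ^ 2)) + ε * (γ * m) := by gcongr
      _ = (1 - 2 * ε) * (1 + 4 * ε ^ 2) * (γ * m) + ε * (γ * m) := by ring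
      _ ≤ (1 - ε) * (γ * m) + ε * (γ * m) := by gcongr
      _ = _ := by ring
  · have a1 : (N * γ - 1) * (A * z) ≤ t * (A * z) := by gcongr
    have a2 : A * z ≤ A * 1 := by gcongr
    have a3 : γ * (1 - z) ≤ 1 * (ε ^ 2 * β) := by
      apply mul_le_mul _ z2 <;> linarith
    have a4 : N * A * (1 - γ * z) ≤ (1 - 2 * ε) * m * (β * (1 + ε ^ 2)) := by
      apply mul_le_mul hP <;> nlinarith
    have a5 : (1 - 2 * ε) * (1 + ε ^ 2) * (β * m) ≤ (1 - ε) * (β * m) := by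
      gcongr
      nlinarith [pow_pos hε 3]
    nlinarith

end Pool.Agent.P.MP_4f3dfd_co.Off
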