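import Pool.Agent.P.MP_4f3dfd_co.BFill
import Pool.Agent.P.MP_4f3dfd_co.BNum

set_option autoImplicit false

namespace Pool.Agent.P.MP_4f3dfd_co.Off

open Finset Pool.Agent.P.MP_4f3dfd_co.Asy

section
variable {V : Type*} [DecidableEq V]

/-- The preimage of a family under a permutation. -/
def mp (θ : V ≃ V) (G : Finset (Finset V)) : Finset (Finset V) :=
  G.image fun X => X.map θ.symm.toEmbedding

theorem card_mp_filter (θ : V ≃ V) (G : Finset (Finset V)) (v : V) :
    #{X ∈ mp θ G | v ∉ X} = #{X ∈ G | θ v ∉ X} := by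
  rw [mp, filter_image, card_image_of_injective _ (map_injective _)]
  simp

theorem card_mp (θ : V ≃ V) (G : Finset (Finset V)) : #(mp θ G) = #G :=
  card_image_of_injective _ (map_injective _)

theorem shadow_mp (θ : V ≃ V) (G : Finset (Finset V)) : #(shadow (mp θ G)) ≤ #(shadow G) := by
  rw [← card_mp θ (shadow G)]
  refine card_le_card fun Y hY => ?_
  obtain ⟨X', hX', a, ha, rfl⟩ := mem_shadow_iff.1 hY
  obtain ⟨X, hX, rfl⟩ := mem_image.1 hX'
  obtain ⟨b, hb, rfl⟩ := mem_map.1 ha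
  exact mem_image.2 ⟨_, erase_mem_shadow hX hb, map_erase _ _ _⟩

/-- A union of permuted copies of one family. -/
theorem exists_copies [Fintype V] {N : ℕ} (c : ℕ) (θ : Fin N → V ≃ V) (G : Finset (Finset V))
    (hG : ∀ X ∈ G, #X = c) (U : Finset V) (hU : ∀ X ∈ G, ∀ p ∈ U, p ∉ X)
    (hθ : ∀ l l' v, θ l v ∈ U → θ l' v ∈ U → l = l') (hc : Fintype.card V < c + 2 * #U) :
    ∃ J : Finset (Finset V), (∀ X ∈ J, #X = c) ∧ #J = N * #G ∧
      (∀ v, #{X ∈ J | v ∉ X} = ∑ l, #{X ∈ G | θ l v ∉ X}) ∧ #(shadow J) ≤ N * #(shadow G) := by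
  have hm : ∀ l, ∀ X ∈ mp (θ l) G, #X = c ∧ Disjoint X (U.map (θ l).symm.toEmbedding) := by
    intro l X' hX'
    obtain ⟨X, hX, rfl⟩ := mem_image.1 hX'
    exact ⟨by rw [card_map, hG X hX], (disjoint_map _).2 (disjoint_right.2 (hU X hX))⟩
  have hdis : ∀ l l', l ≠ l' → Disjoint (mp (θ l) G) (mp (θ l') G) := by
    intro l l' hl
    rw [disjoint_left]
    intro X h h'
    have a1 : Disjoint (U.map (θ l).symm.toEmbedding) (U.map (θ l').symm.toEmbedding) :=
      disjoint_left.2 fun v h1 h2 => hl (hθ l l' v (by simpa using h1) (by simpa using h2))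
    have a2 := card_le_univ (X ∪ (U.map (θ l).symm.toEmbedding ∪ U.map (θ l').symm.toEmbedding))
    rw [card_union_of_disjoint (disjoint_union_right.2 ⟨(hm l X h).2, (hm l' X h').2⟩),
      card_union_of_disjoint a1, card_map, card_map, (hm l X h).1] at a2
    omega
  refine ⟨univ.biUnion fun l => mp (θ l) G, fun X hX => ?_, ?_, fun v => ?_, ?_⟩
  · obtain ⟨l, -, hl⟩ := mem_biUnion.1 hX
    exact (hm l X hl).1
  · rw [card_biUnion fun l _ l' _ h => hdis l l' h]
    simp [card_mp]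
  · rw [filter_biUnion, card_biUnion fun l _ l' _ h => disjoint_filter_filter (hdis l l' h)]
    simp only [card_mp_filter]
  · have : shadow (univ.biUnion fun l => mp (θ l) G) ⊆
        univ.biUnion fun l => shadow (mp (θ l) G) := by
      intro Y hY
      obtain ⟨X, hX, a, ha, rfl⟩ := mem_shadow_iff.1 hY
      obtain ⟨l, -, hl⟩ := mem_biUnion.1 hX
      exact mem_biUnion.2 ⟨l, mem_univ _, erase_mem_shadow hl ha⟩
    refine (card_le_card this).trans (card_biUnion_le.trans ?_)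
    simpa using sum_le_card_nsmul univ _ _ fun l _ => shadow_mp (θ l) G

end

theorem anti_mul {g : ℕ → ℕ} (hg : Antitone g) (a b : ℕ) :
    b * g (a + b) ≤ ∑ s ∈ Ico a (a + b), g s := by
  have := card_nsmul_le_sum (Ico a (a + b)) g (g (a + b)) fun s hs => hg (mem_Ico.1 hs).2.le
  simpa using this

theorem anti_col {g : ℕ → ℕ} (hg : Antitone g) (Q b N : ℕ) :
    Q * ∑ r ∈ range (N + 1), g (b + Q * (r + 1)) ≤ Q * g Q + ∑ s ∈ Ico Q (Q * (N + 1)), g s := by
  induction N with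
  | zero => simpa using Nat.mul_le_mul_left Q (hg (Nat.le_add_left Q b))
  | succ N ih =>
    have a1 := anti_mul hg (Q * (N + 1)) Q
    have a2 := Nat.mul_le_mul_left Q (hg (show Q * (N + 1) + Q ≤ b + Q * (N + 1 + 1) by
      rw [mul_add Q (N + 1)]; omega))
    rw [sum_range_succ, mul_add, show Q * (N + 1 + 1) = Q * (N + 1) + Q by ring,
      ← sum_Ico_consecutive g (Nat.le_mul_of_pos_right Q (Nat.add_one_pos N)) (Nat.le_add_right _ _)]
    rw [show Q * (N + 1 + 1) = Q * (N + 1) + Q by ring] at a2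
    omega

/-- Rotated copies of a family of sets on few points. -/
theorem exists_rot (N q H ρ c T e₁ : ℕ) (G : Finset (Finset (Fin ((N + 2) * (q + H) + ρ))))
    (hn : (N + 2) * (q + H) + ρ = c + q) (hT : 2 * T < q)
    (hG : ∀ X ∈ G, #X = c ∧ ∀ a ∈ X, a.val < c + T)
    (he : (N + 1) * (q + H) * e₁ + ρ * (T * #G) ≤ (N + 1) * (q + H) * #G) (hG0 : 0 < #G) :
    ∃ (J : Finset (Finset (Fin ((N + 2) * (q + H) + ρ)))) (R : Finset (Fin ((N + 2) * (q + H) + ρ))),
      (∀ X ∈ J, #X = c) ∧ #J = (N + 2) * e₁ ∧ #R = ρ ∧ (∀ X ∈ J, R ⊆ X) ∧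
      (∀ v, H * #{X ∈ J | v ∉ X} ≤ H * e₁ + 2 * (T * #G)) ∧
      #(shadow J) ≤ (N + 2) * #(shadow G) := by
  obtain ⟨Q, hQ⟩ : ∃ Q, Q = q + H := ⟨_, rfl⟩
  have hqQ : q ≤ Q := by omega
  have hHQ : H ≤ Q := by omega
  have hq0 : 0 < q := by omega
  revert G
  rw [← hQ] at hn ⊢
  intro G hG he hG0
  obtain ⟨X0, hX0⟩ := card_pos.1 hG0
  let a : Fin ((N + 2) * Q + ρ) → ℕ := fun p => #{X ∈ G | p ∉ X}
  let σ := Tuple.sort fun p => OrderDual.toDual (a p)
  have hσ : ∀ s t, s ≤ t → a (σ t) ≤ a (σ s) := fun s t h =>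
    Tuple.monotone_sort (fun p => OrderDual.toDual (a p)) h
  let g : ℕ → ℕ := fun s => if h : s < (N + 2) * Q + ρ then a (σ ⟨s, h⟩) else 0
  have hg : Antitone g := by
    intro s t h
    simp only [g]
    split_ifs with h1 h2 h2
    · exact hσ _ _ h
    · omega
    · exact Nat.zero_le _
    · exact le_rfl
  have hga : ∀ s, a (σ s) = g s := fun s => by simp [g]
  let U : Finset (Fin ((N + 2) * Q + ρ)) := {p | c + T ≤ p.val}
  have hU : ∀ X ∈ G, ∀ p ∈ U, p ∉ X := fun X hX p hp h => by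
    have := (hG X hX).2 p h
    have := (mem_filter.1 hp).2
    omega
  have hUc : #Uᶜ = c + T := by
    rw [show Uᶜ = univ.filter (fun p => p.val < c + T) by ext p; simp [U], Fin.card_filter_val_lt]
    omega
  have hUq : ∀ s, σ s ∈ U → s.val < q := by
    intro s hs
    have a1 : ∀ t, t ≤ s → σ t ∉ X0 := by
      intro t ht
      have a2 : a (σ s) = #G := by
        simp only [a]
        rw [filter_true_of_mem fun X hX => hU X hX _ hs]
      have a3 : {X ∈ G | σ t ∉ X} = G :=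
        eq_of_subset_of_card_le (filter_subset _ _) (a2 ▸ hσ t s ht)
      have a5 : X0 ∈ {X ∈ G | σ t ∉ X} := a3.symm ▸ hX0
      exact (mem_filter.1 a5).2
    have a4 : #(Iic s) ≤ #X0ᶜ := card_le_card_of_injOn σ
      (fun t ht => mem_coe.2 (mem_compl.2 (a1 t (mem_Iic.1 ht)))) σ.injective.injOn
    rw [Fin.card_Iic, card_compl, Fintype.card_fin, (hG X0 hX0).1] at a4
    omega
  have hS : ∀ x y, q ≤ x → ∑ s ∈ Ico x y, g s ≤ T * #G := by
    intro x y hx
    have a1 : ∑ p ∈ Uᶜ, a p = T * #G := by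
      simp only [a, card_filter]
      rw [sum_comm, sum_congr rfl (g := fun _ => T), sum_const, smul_eq_mul, mul_comm]
      intro X hX
      rw [← card_filter, ← sdiff_eq_filter,
        card_sdiff_of_subset fun p hp => mem_compl.2 fun h => hU X hX p h hp, hUc, (hG X hX).1]
      omega
    have a2 : ∑ s ∈ Ico x y, g s ≤ ∑ s ∈ range ((N + 2) * Q + ρ), if q ≤ s then g s else 0 := by
      rw [← sum_filter]
      refine sum_le_sum_of_ne_zero fun s hs h0 => mem_filter.2 ⟨mem_range.2 ?_, ?_⟩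
      · by_contra h
        exact h0 (dif_neg h)
      · exact hx.trans (mem_Ico.1 hs).1
    rw [← Fin.sum_univ_eq_sum_range (fun s => if q ≤ s then g s else 0)] at a2
    refine a2.trans ?_
    rw [← a1, ← sum_ite_mem_eq Uᶜ a, ← Equiv.sum_comp σ fun p => if p ∈ Uᶜ then a p else 0]
    refine sum_le_sum fun s _ => ?_
    split_ifs with h1 h2
    · exact (hga s).ge
    · exact absurd (hUq s (by simpa using h2)) (by omega)
    · exact Nat.zero_le _
    · exact le_rfl
  let E : (Fin (N + 2) × Fin Q) ⊕ Fin ρ ≃ Fin ((N + 2) * Q + ρ) :=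
    (Equiv.sumCongr finProdFinEquiv (Equiv.refl _)).trans finSumFinEquiv
  have hE1 : ∀ r b, (E (Sum.inl (r, b))).val = b + Q * r := fun r b => by simp [E]
  have hE2 : ∀ z, (E (Sum.inr z)).val = (N + 2) * Q + z := fun z => by simp [E]
  have hG1 : e₁ ≤ #{X ∈ G | ∀ z, σ (E (Sum.inr z)) ∈ X} := by
    have a1 : G ⊆ {X ∈ G | ∀ z, σ (E (Sum.inr z)) ∈ X} ∪
        univ.biUnion fun z => {X ∈ G | σ (E (Sum.inr z)) ∉ X} := by
      intro X hX
      by_cases h : ∀ z, σ (E (Sum.inr z)) ∈ X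
      · exact mem_union_left _ (mem_filter.2 ⟨hX, h⟩)
      · obtain ⟨z, hz⟩ := not_forall.1 h
        exact mem_union_right _ (mem_biUnion.2 ⟨z, mem_univ _, mem_filter.2 ⟨hX, hz⟩⟩)
    have a2 := (card_le_card a1).trans ((card_union_le _ _).trans
      (Nat.add_le_add_left card_biUnion_le _))
    have a3 : (N + 1) * Q * ∑ z, a (σ (E (Sum.inr z))) ≤ ρ * (T * #G) := by
      rw [mul_sum]
      refine (sum_le_card_nsmul _ _ (T * #G) fun z _ => ?_).trans (by simp)
      rw [hga, hE2]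
      refine le_trans (Nat.mul_le_mul_left _ (hg ?_))
        ((anti_mul hg Q ((N + 1) * Q)).trans (hS _ _ hqQ))
      rw [show (N + 2) * Q = Q + (N + 1) * Q by ring]
      omega
    have a4 := Nat.mul_le_mul_left ((N + 1) * Q) a2
    rw [mul_add] at a4
    exact Nat.le_of_mul_le_mul_left (c := (N + 1) * Q) (by simp only [a] at a3; omega)
      (Nat.mul_pos (Nat.succ_pos N) (by omega))
  obtain ⟨G₁, g1, g2⟩ := exists_subset_card_eq hG1
  have g3 : G₁ ⊆ G := g1.trans (filter_subset _ _)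
  let θ : Fin (N + 2) → Fin ((N + 2) * Q + ρ) ≃ Fin ((N + 2) * Q + ρ) := fun l =>
    (E.symm.trans (Equiv.sumCongr (Equiv.prodCongr (Equiv.addRight l) (Equiv.refl _))
      (Equiv.refl _))).trans (E.trans σ)
  have hθ1 : ∀ l r b, θ l (E (Sum.inl (r, b))) = σ (E (Sum.inl (r + l, b))) := fun l r b => by
    simp [θ]
  have hθ2 : ∀ l z, θ l (E (Sum.inr z)) = σ (E (Sum.inr z)) := fun l z => by simp [θ]
  obtain ⟨J, j1, j2, j3, j4⟩ := exists_copies c θ G₁ (fun X hX => (hG X (g3 hX)).1) U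
    (fun X hX => hU X (g3 hX)) (fun l l' v h h' => by
      obtain ⟨⟨r, b⟩ | z, rfl⟩ := E.surjective v
      · rw [hθ1] at h h'
        have k : ∀ x : Fin (N + 2), b.val + Q * x.val < q → x = 0 := fun x hx => by
          by_contra h0
          have : Q * 1 ≤ Q * x.val := Nat.mul_le_mul_left _ (Fin.pos_iff_ne_zero.2 h0)
          omega
        exact add_left_cancel ((k _ (hE1 _ _ ▸ hUq _ h)).trans (k _ (hE1 _ _ ▸ hUq _ h')).symm)
      · rw [hθ2] at h
        have := hUq _ h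
        rw [hE2, show (N + 2) * Q = Q + (N + 1) * Q by ring] at this
        omega)
    (by
      have := card_add_card_compl U
      rw [Fintype.card_fin] at this ⊢
      omega)
  have j5 : ∀ z, #{X ∈ J | E (Sum.inr z) ∉ X} = 0 := fun z => by
    rw [j3]
    refine sum_eq_zero fun l _ => ?_
    rw [hθ2, card_eq_zero, filter_eq_empty_iff]
    exact fun X hX h => h ((mem_filter.1 (g1 hX)).2 z)
  refine ⟨J, univ.map ⟨fun z => E (Sum.inr z), E.injective.comp Sum.inr_injective⟩, j1,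
    g2 ▸ j2, by simp, fun X hX v hv => ?_, fun v => ?_,
    j4.trans (Nat.mul_le_mul_left _ (card_le_card (shadow_mono g3)))⟩
  · obtain ⟨z, -, rfl⟩ := mem_map.1 hv
    by_contra h
    exact absurd (j5 z) (card_pos.2 ⟨X, mem_filter.2 ⟨hX, h⟩⟩).ne'
  · obtain ⟨⟨r, b⟩ | z, rfl⟩ := E.surjective v
    · rw [j3]
      simp only [hθ1]
      rw [show ∑ l, #{X ∈ G₁ | σ (E (Sum.inl (r + l, b))) ∉ X} = _ from
        Equiv.sum_comp (Equiv.addLeft r) fun l => #{X ∈ G₁ | σ (E (Sum.inl (l, b))) ∉ X},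
        Fin.sum_univ_succ]
      have a1 : ∑ l : Fin (N + 1), #{X ∈ G₁ | σ (E (Sum.inl (l.succ, b))) ∉ X} ≤
          ∑ l ∈ range (N + 1), g (b + Q * (l + 1)) := by
        rw [← Fin.sum_univ_eq_sum_range fun l => g (b + Q * (l + 1))]
        refine sum_le_sum fun l _ => (card_le_card (filter_subset_filter _ g3)).trans ?_
        exact (hga _).trans_le (by rw [hE1]; rfl)
      have a2 := (anti_col hg Q b N).trans (Nat.add_le_add_left (hS _ _ hqQ) _)
      have a3 : H * g Q ≤ T * #G := (hQ ▸ anti_mul hg q H).trans (hS _ _ le_rfl)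
      have a4 : #{X ∈ G₁ | σ (E (Sum.inl (0, b))) ∉ X} ≤ e₁ := g2 ▸ card_filter_le _ _
      have a5 : H * ∑ l ∈ range (N + 1), g (b + Q * (l + 1)) ≤ 2 * (T * #G) := by
        apply Nat.le_of_mul_le_mul_left (c := Q) _ (by omega)
        calc Q * (H * _) = H * (Q * _) := by ring
          _ ≤ H * (Q * g Q + T * #G) := Nat.mul_le_mul_left _ a2
          _ = Q * (H * g Q) + H * (T * #G) := by ring
          _ ≤ Q * (T * #G) + Q * (T * #G) := by gcongr
          _ = _ := by ring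
      calc _ ≤ H * (e₁ + ∑ l ∈ range (N + 1), g (b + Q * (l + 1))) := by gcongr
        _ ≤ _ := by rw [mul_add]; omega
    · rw [j5]
      simp

/-- The upper bound when the complements of the members are small. -/
theorem upper_co (L T : ℕ) (hL : 6 ≤ L) : ∃ K : ℕ, ∀ n c q m d e : ℕ,
    n = c + q → K ≤ q → K * q ≤ n → c * m = d * n → d + e = m → L ≤ e → e ≤ n ^ T →
    ∀ G : Finset (Finset (Fin n)), (∀ X ∈ G, #X = c ∧ ∀ a ∈ X, a.val < c + T) → #G = e →
    ∃ J : Finset (Finset (Fin n)), (∀ X ∈ J, #X = c) ∧ #J = m ∧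
      (∀ v, #{X ∈ J | v ∈ X} = d) ∧
      (#(shadow J) : ℝ) ≤ n * #(shadow G) / q + 5 / L * (c * m) := by
  obtain ⟨K0, hK0⟩ := big_choose (T + 1) (2 * L * (T + 1))
  refine ⟨K0 + 4 * (T + 1) * L * (L + T + 3), ?_⟩
  intro n c q m d e hn hq hqn hdm hde hLe heT G hG hGe
  have hqe : q * m = e * n := by
    have : c * m + q * m = d * n + e * n := by rw [← add_mul, ← add_mul, ← hn, hde, mul_comm]
    omega
  have k1 : 4 * (T + 1) * L * (L + T + 3) ≤ q := by omega
  have k2 : 4 * (T + 1) * L * (L + T + 3) * q ≤ n :=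
    (Nat.mul_le_mul_right _ (by omega)).trans hqn
  have k3 : 2 * T < q := by
    have : 4 * (T + 1) * 1 * 1 ≤ 4 * (T + 1) * L * (L + T + 3) := by gcongr <;> omega
    omega
  have hmn : m ≤ n ^ (T + 1) := by
    rw [pow_succ]
    exact (Nat.le_mul_of_pos_left m (by omega)).trans (hqe ▸ Nat.mul_le_mul_right _ heT)
  have LR : (6 : ℝ) ≤ L := by exact_mod_cast hL
  have T0 : (0 : ℝ) ≤ T := by positivity
  have L0 : (0 : ℝ) < L := by linarith only [LR]
  have qR : 4 * ((T : ℝ) + 1) * L * (L + T + 3) ≤ q := by exact_mod_cast k1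
  have nR : 4 * ((T : ℝ) + 1) * L * (L + T + 3) * q ≤ n := by exact_mod_cast k2
  have q1 : (1 : ℝ) ≤ q := by exact_mod_cast (show 1 ≤ q by omega)
  have q0 : (0 : ℝ) < q := by linarith only [q1]
  have n0 : (0 : ℝ) < n := lt_of_lt_of_le (by positivity) nR
  have eR : (L : ℝ) ≤ e := by exact_mod_cast hLe
  have e0 : (0 : ℝ) < e := by linarith only [LR, eR]
  have qe : (q : ℝ) * m = e * n := by exact_mod_cast hqe
  have m0 : (0 : ℝ) < m := pos_of_mul_pos_right (qe ▸ mul_pos e0 n0) q0.le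
  obtain ⟨ε, hε⟩ : ∃ ε : ℝ, ε = 1 / L := ⟨_, rfl⟩
  have ε0 : 0 < ε := by rw [hε]; positivity
  have εL : ε * L = 1 := by rw [hε]; field_simp
  have ε6 : ε ≤ 1 / 6 := hε ▸ one_div_le_one_div_of_le (by norm_num) LR
  obtain ⟨x, hx⟩ : ∃ x : ℝ, n = 2 * L * (T + 1) * x := ⟨n / (2 * L * (T + 1)), by field_simp⟩
  have x1 : 2 * ((L : ℝ) + T + 3) * q ≤ x :=
    le_of_mul_le_mul_left (a := 2 * (L : ℝ) * (T + 1)) (by linarith only [nR, hx]) (by positivity)
  have x2 : 2 * (q : ℝ) ≤ x := by nlinarith only [x1, q0, LR, T0]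
  have x3 : 2 * ((T : ℝ) + 3) ≤ x := by nlinarith only [x1, q1, LR, T0]
  have x4 : 2 * (T + 1) * x = ε * n := by rw [hx]; linear_combination -2 * (T + 1) * x * εL
  have x0 : 0 < x := by linarith only [ε0, ε6, x3]
  have x5 : 2 * x ≤ ε * n := by nlinarith only [x4, x0, T0]
  have x6 : 12 * x ≤ n := by nlinarith only [x5, ε6, n0]
  obtain ⟨H, hH⟩ : ∃ H, H = 4 * (T + 1) * L := ⟨_, rfl⟩
  have HR : (H : ℝ) = 4 * (T + 1) * L := by exact_mod_cast hH
  have H0 : (0 : ℝ) < H := by rw [HR]; positivity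
  have Hq : (H : ℝ) ≤ ε * q := by
    calc (H : ℝ) = ε * (H * L) := by linear_combination -(H : ℝ) * εL
      _ ≤ ε * (H * (L + T + 3)) := by gcongr; linarith only [ε0, ε6]
      _ ≤ _ := by rw [HR]; gcongr
  have εq : ε * q ≤ q := mul_le_of_le_one_left q0.le (by linarith only [ε0, ε6])
  obtain ⟨N', N1, N2⟩ := ex_nat (x := (n - x) / (q + H)) (div_nonneg (by linarith only [ε0, ε6, x3, x6]) (by positivity))
  rw [le_div_iff₀ (by positivity)] at N1
  rw [div_lt_iff₀ (by positivity)] at N2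
  obtain ⟨N, rfl⟩ : ∃ N, N' = N + 2 := by
    have : (2 : ℝ) < N' + 1 := lt_of_mul_lt_mul_right (a := (q : ℝ) + H) (by linarith only [ε0, ε6, x2, x3, x6, Hq, εq, N2]) (by positivity)
    have : 2 < N' + 1 := by exact_mod_cast this
    exact ⟨N' - 2, by omega⟩
  push_cast at N1 N2
  obtain ⟨ρ, hρ⟩ : ∃ ρ, (N + 2) * (q + H) + ρ = n := ⟨n - (N + 2) * (q + H), by
    have : (((N + 2) * (q + H) : ℕ) : ℝ) ≤ n := by push_cast; linarith only [ε0, ε6, x3, N1]
    have : (N + 2) * (q + H) ≤ n := by exact_mod_cast this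
    omega⟩
  have ρR : ((N : ℝ) + 2) * (q + H) + ρ = n := by exact_mod_cast hρ
  have ρ1 : x ≤ ρ := by linarith only [N1, ρR]
  have ρ2 : ρ ≤ 2 * x := by linarith only [x2, Hq, εq, N2, ρR]
  obtain ⟨e₁, e1, e2⟩ := ex_nat (x := (1 - 2 * ε) * e) (mul_nonneg (by linarith only [ε0, ε6]) e0.le)
  have εe : 1 ≤ ε * e := εL ▸ mul_le_mul_of_nonneg_left eR ε0.le
  obtain ⟨J, R, j1, j2, j3, j4, j5, j6⟩ : ∃ (J : Finset (Finset (Fin n))) (R : Finset (Fin n)),
      (∀ X ∈ J, #X = c) ∧ #J = (N + 2) * e₁ ∧ #R = ρ ∧ (∀ X ∈ J, R ⊆ X) ∧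
      (∀ v, H * #{X ∈ J | v ∉ X} ≤ H * e₁ + 2 * (T * #G)) ∧
      #(shadow J) ≤ (N + 2) * #(shadow G) := by
    have he : (N + 1) * (q + H) * e₁ + ρ * (T * #G) ≤ (N + 1) * (q + H) * #G := by
      have a1 : (n : ℝ) ≤ 2 * ((N + 1) * (q + H)) := by linarith only [ε0, ε6, x2, x3, x6, Hq, εq, N2]
      have a2 : (ρ : ℝ) * T ≤ ε * n := by
        calc (ρ : ℝ) * T ≤ 2 * x * (T + 1) := by gcongr; linarith only [ε0, ε6]
          _ = _ := by linarith only [x4]
      have a3 : ε * n * e ≤ ε * (2 * ((N + 1) * (q + H))) * e := by gcongr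
      have a4 : (ρ : ℝ) * T * e ≤ ε * n * e := by gcongr
      have a5 : ((N : ℝ) + 1) * (q + H) * e₁ ≤ (N + 1) * (q + H) * ((1 - 2 * ε) * e) := by gcongr
      have : ((N : ℝ) + 1) * (q + H) * e₁ + ρ * (T * e) ≤ (N + 1) * (q + H) * e := by linarith only [a3, a4, a5]
      rw [hGe]
      exact_mod_cast this
    have hG0 : 0 < #G := by omega
    subst hρ
    exact exists_rot N q H ρ c T e₁ G hn k3 hG he hG0
  have Nq : ((N : ℝ) + 2) * q ≤ n := by nlinarith only [ρR, ρ1, x0, H0, Nat.cast_nonneg (α := ℝ) N]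
  have P1 : ((N : ℝ) + 2) * e₁ ≤ (1 - 2 * ε) * m := by
    apply le_of_mul_le_mul_left _ q0
    have : 0 ≤ 1 - 2 * ε := by linarith only [ε0, ε6]
    calc q * (((N : ℝ) + 2) * e₁) = (N + 2) * q * e₁ := by ring
      _ ≤ n * ((1 - 2 * ε) * e) := by gcongr
      _ = _ := by linear_combination -(1 - 2 * ε) * qe
  have P2 : (1 - 5 * ε) * m ≤ ((N : ℝ) + 2) * e₁ := by
    apply le_of_mul_le_mul_left (a := (1 + ε) * q) _ (by positivity)
    have a1 : (1 - ε) * n ≤ (N + 2) * ((1 + ε) * q) := by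
      have : ((N : ℝ) + 2) * (q + H) ≤ (N + 2) * ((1 + ε) * q) := by gcongr; linarith only [Hq]
      linarith only [x2, x5, Hq, εq, N2, this]
    have a2 : 0 ≤ (1 - 3 * ε) * e := mul_nonneg (by linarith only [ε0, ε6]) e0.le
    calc (1 + ε) * q * ((1 - 5 * ε) * m) = (1 + ε) * (1 - 5 * ε) * (e * n) := by
          rw [← qe]; ring
      _ ≤ (1 - ε) * (1 - 3 * ε) * (e * n) := by gcongr ?_ * _; nlinarith only [ε0]
      _ = (1 - ε) * n * ((1 - 3 * ε) * e) := by ring
      _ ≤ (N + 2) * ((1 + ε) * q) * e₁ := by gcongr; linarith only [e2, εe]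
      _ = _ := by ring
  have εm : 0 < ε * m := by positivity
  have em : e ≤ ε * m := by
    apply le_of_mul_le_mul_left _ n0
    have : (q : ℝ) ≤ ε * n := by linarith only [ε0, ε6, x2, x3, x5]
    calc (n : ℝ) * e = q * m := by linarith only [qe]
      _ ≤ ε * n * m := by gcongr
      _ = _ := by ring
  obtain ⟨M, hM⟩ : ∃ M, #J + e + M = m := ⟨m - (#J + e), by
    have : ((#J + e : ℕ) : ℝ) ≤ m := by rw [j2]; push_cast; linarith only [LR, eR, ε0, ε6, P1, em]
    have : #J + e ≤ m := by exact_mod_cast this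
    omega⟩
  have MR : ((N : ℝ) + 2) * e₁ + e + M = m := by rw [j2] at hM; exact_mod_cast hM
  have M1 : (e : ℝ) ≤ M := by linarith only [P1, em, MR]
  have M2 : (e : ℝ) + M ≤ 5 * ε * m := by linarith only [P2, MR]
  have M1' : e ≤ M := by exact_mod_cast M1
  have ρ3 : 2 * (T + 3) ≤ ρ := by exact_mod_cast x3.trans ρ1
  have hco : ∀ v, #{X ∈ J | v ∉ X} ≤ e := fun v => by
    have a1 : (H : ℝ) * #{X ∈ J | v ∉ X} ≤ H * e₁ + 2 * (T * e) := by
      rw [← hGe]; exact_mod_cast j5 v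
    have a2 : (H : ℝ) * e₁ ≤ H * ((1 - 2 * ε) * e) := by gcongr
    have a3 : (H : ℝ) * (ε * e) = 4 * (T + 1) * e := by
      rw [HR]; linear_combination 4 * (T + 1) * e * εL
    have : (#{X ∈ J | v ∉ X} : ℝ) ≤ e :=
      le_of_mul_le_mul_left (by nlinarith only [a1, a2, a3, e0, T0]) H0
    exact_mod_cast this
  have hdJ : d - #J = M := by omega
  obtain ⟨J', g1, g2, g3, g4⟩ := complete c d (e + M) #J J R j1
    (fun v => (card_filter_le _ _).trans (by omega))
    (fun v => by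
      have := card_filter_add_card_filter_not (s := J) fun X => v ∈ X
      have := hco v
      omega)
    (fun v hv => by rw [filter_true_of_mem fun X hX => j4 X hX hv]) (by omega)
    (by rw [← add_assoc, hM, hdm, Fintype.card_fin])
    (by rw [hdJ, j3]; nlinarith only [M1', ρ3])
    (fun s s1 s2 => by
      rw [hdJ, j3] at s1 s2
      have s3 : ρ ≤ 2 * (s + 1) := by
        apply Nat.le_of_mul_le_mul_left (c := M) _ (by omega)
        nlinarith only [s1, M1', Nat.mul_le_mul_right (s + 1) M1']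
      have s4 : s + (T + 1 + 1) ≤ ρ := by
        have s2' : ((e : ℝ) + M) * s ≤ M * ρ + (e + M) := by exact_mod_cast s2
        have a1 : 10 * (T + 1) * (T + 3) ≤ (q : ℝ) := by
          calc 10 * ((T : ℝ) + 1) * (T + 3) ≤ 4 * (T + 1) * 6 * (T + 3) := by
                nlinarith only [T0]
            _ ≤ 4 * (T + 1) * L * (L + T + 3) := by gcongr; linarith only [LR, ε0, ε6]
            _ ≤ _ := qR
        have a2 : (e + M) * ((T : ℝ) + 3) ≤ e * ρ := by
          apply le_of_mul_le_mul_left _ q0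
          calc q * ((e + M) * ((T : ℝ) + 3)) ≤ q * (5 * ε * m * (T + 3)) := by gcongr
            _ = 5 * (T + 3) * e * (ε * n) := by linear_combination 5 * ε * (T + 3) * qe
            _ = 10 * (T + 1) * (T + 3) * (e * x) := by rw [← x4]; ring
            _ ≤ q * (e * ρ) := by gcongr
        have : (s : ℝ) + (T + 1 + 1) ≤ ρ :=
          le_of_mul_le_mul_left (a := (e : ℝ) + M) (by linarith only [s2', a2]) (by linarith only [LR, eR, ε0, ε6])
        exact_mod_cast this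
      refine ⟨le_trans (by omega) (hmn.trans (j3 ▸ hK0 n _ _ (by omega) ?_ (by omega) s4)),
        fun X hX h => ?_⟩
      · have : (n : ℝ) ≤ 2 * L * (T + 1) * ρ := by rw [hx]; gcongr
        exact_mod_cast this
      · rw [inter_eq_right.2 (j4 X hX), j3] at h
        omega)
  refine ⟨J', g1, by rw [g2, ← add_assoc, hM], g3, ?_⟩
  have f1 : (#(shadow J') : ℝ) ≤ (N + 2) * #(shadow G) + c * (e + M) := by
    exact_mod_cast g4.trans (Nat.add_le_add_right j6 _)
  calc _ ≤ _ := f1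
    _ ≤ n / q * #(shadow G) + c * (5 * ε * m) := by gcongr; rwa [le_div_iff₀ q0]
    _ = _ := by rw [hε]; ring

end Pool.Agent.P.MP_4f3dfd_co.Off
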