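import Pool.Agent.P.MP_4f3dfd_co.BOff

set_option autoImplicit false

namespace Pool.Agent.P.MP_4f3dfd_co.Off

open Finset Pool.Agent.P.MP_4f3dfd_co.Asy

theorem small_s (L j : ℕ) (hL : 1 ≤ L) : ∃ K : ℕ, ∀ c M : ℕ, K ≤ c + 1 →
    K * M ≤ (c + j).choose j → ∃ s, M < (s + j).choose j ∧ L * s ≤ c := by
  refine ⟨(2 * L) ^ j + 2 * L + 1, fun c M h1 h2 => ⟨c / (2 * L) + 1, ?_, ?_⟩⟩
  all_goals
    have a1 : 2 * L * (c / (2 * L)) ≤ c := Nat.mul_div_le _ _
    have a2 : c < 2 * L * (c / (2 * L) + 1) := Nat.lt_mul_div_succ c (by omega)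
    have a0 : 2 * L ≤ c := by have := Nat.zero_le ((2 * L) ^ j); omega
    generalize c / (2 * L) = r at *
    have a3 : L * (r + 1) ≤ c := by nlinarith only [a0, a1]
  · have a4 := choose_scale (s := r + 1) (c := c) (le_trans (Nat.le_mul_of_pos_left _ hL) a3) j
    have a5 : (c + j).choose j ≤ (r + 1 + j).choose j * (2 * L) ^ j := by
      apply Nat.le_of_mul_le_mul_right (c := (r + 1) ^ j) _ (by positivity)
      rw [mul_assoc, ← mul_pow]
      exact a4.trans (by gcongr)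
    have a6 : 0 < (r + 1 + j).choose j := Nat.choose_pos (by omega)
    by_contra h
    have a7 : ((2 * L) ^ j + 2 * L + 1) * (r + 1 + j).choose j ≤ ((2 * L) ^ j + 2 * L + 1) * M := by
      gcongr; omega
    nlinarith only [Nat.zero_le (L * (r + 1 + j).choose j), h2, a5, a6, a7]
  · exact a3

/-- The two-sided estimate. -/
def Good (ε : ℝ) (n k q f g h : ℕ) : Prop :=
  max ((n : ℝ) * g / k) (n * h / q) ≤ (1 + ε) * f ∧
    (f : ℝ) ≤ (1 + ε) * max ((n : ℝ) * g / k) (n * h / q)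

theorem link {n k m d f g : ℕ} (hdm : (k + 1) * m = d * n) (hf : f ∈ SR n (k + 1) m)
    (hg : IsLeast (SG n k d) g) : n * g ≤ k * f := by
  obtain ⟨J, j1, -, j3, rfl⟩ := SR_deg hdm hf
  exact link_lower J j1 j3 fun B b1 b2 => hg.2 ⟨B, b1, b2, rfl⟩

theorem qm {n k q m d e : ℕ} (hn : n = k + 1 + q) (hdm : (k + 1) * m = d * n)
    (hde : d + e = m) : q * m = e * n := by
  have : (k + 1) * m + q * m = d * n + e * n := by
    rw [← add_mul, ← add_mul, ← hn, hde, mul_comm]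
  omega

theorem fixed (i : ℕ) {ε : ℝ} (hε : 0 < ε) : ∃ K : ℕ, ∀ n k q m d e f g h : ℕ,
    n = k + 1 + q → 1 ≤ k → 1 ≤ m → m ≤ n.choose (k + 1) → (k + 1) * m = d * n → d + e = m →
    i + 2 ≤ q → (i = 0 ∨ K * (k + 1 + i).choose i ≤ min d e) →
    K * min d e ≤ (k + 1 + i + 1).choose (i + 1) → IsLeast (SR n (k + 1) m) f →
    IsLeast (SG n k d) g → IsLeast (SG n (k + 1) e) h → Good ε n k q f g h := by
  obtain ⟨δ, hδ, hδ1, hδ2⟩ : ∃ δ : ℝ, 0 < δ ∧ δ < 1 ∧ 1 + δ = (1 + ε) * (1 - δ) :=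
    ⟨ε / (2 + ε), by positivity, by rw [div_lt_one (by positivity)]; linarith, by
      field_simp; ring⟩
  obtain ⟨K1, hK1⟩ := upper_off i hδ
  obtain ⟨L, hL⟩ := exists_nat_ge (2 * ((i : ℝ) + 2) ^ 2 / δ + 1)
  have i0 : (0 : ℝ) ≤ i := by positivity
  have hL0 : (0 : ℝ) ≤ 2 * ((i : ℝ) + 2) ^ 2 / δ := by positivity
  have hL1 : 1 ≤ L := by exact_mod_cast (show (1 : ℝ) ≤ L by linarith)
  have L0 : (0 : ℝ) < L := by linarith
  have hL2 : 2 * ((i : ℝ) + 2) ^ 2 ≤ δ * L := by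
    rw [mul_comm δ, ← div_le_iff₀ hδ]; linarith
  obtain ⟨K2, hK2⟩ := small_s L (i + 1) hL1
  refine ⟨K1 + K2 + L, fun n k q m d e f g h hn hk hm1 hm hdm hde hq h1 h2 hf hg hh => ?_⟩
  have hqe := qm hn hdm hde
  have hM : 1 ≤ min d e := by
    apply le_min <;> apply Nat.pos_of_ne_zero <;> rintro rfl
    · have : 0 < (k + 1) * m := by positivity
      omega
    · have : 0 < q * m := Nat.mul_pos (by omega) hm1
      omega
  have hc := large_c hM h1 h2
  obtain ⟨s, s1, s2⟩ := hK2 (k + 1) (min d e) (by omega)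
    (le_trans (Nat.mul_le_mul_right _ (by omega)) h2)
  have u1 := hK1 n k q m d e f hn hm1 hm hdm hde (by omega)
    (h1.imp id fun h => le_trans (Nat.mul_le_mul_right _ (by omega)) h) (by omega)
    (le_trans (Nat.le_mul_of_pos_left _ (by omega)) h2) hf
  have s3 : 2 * ((i : ℝ) + 2) ^ 2 * s ≤ δ * (k + 1) := by
    have : (L : ℝ) * s ≤ k + 1 := by exact_mod_cast s2
    calc _ ≤ δ * L * s := by gcongr
      _ = δ * (L * s) := by ring
      _ ≤ _ := by gcongr
  have k1 : (1 : ℝ) ≤ k := by exact_mod_cast hk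
  have q0 : (0 : ℝ) < q := by exact_mod_cast (show 0 < q by omega)
  have s0 : (0 : ℝ) ≤ s := by positivity
  have s4 : ((i : ℝ) + 2) * s ≤ δ * k := by
    have : 0 ≤ ((i : ℝ) + 2) * s * i := by positivity
    nlinarith only [hε, hδ2, s3, k1, this]
  have u2 : (1 - δ) * ((k + 1) * m) ≤ f * ((i : ℝ) + 1) := by
    obtain ⟨J, j1, j2, j3, rfl⟩ := SR_deg hdm hf.1
    have := lower_off J k s (i + 1) m d q j1 j2 j3 hk (by omega) (by simpa using hn) hq
      (by rwa [show m - d = e by omega])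
    have a : ((k : ℝ) + 1) * m ≤ (i + 1) * #(shadow J) + 2 * (i + 2) ^ 2 * s * m := by
      exact_mod_cast this
    have := mul_le_mul_of_nonneg_right s3 (Nat.cast_nonneg (α := ℝ) m)
    linarith only [a, this]
  have rdm : ((k : ℝ) + 1) * m = d * n := by exact_mod_cast hdm
  have rqe : (q : ℝ) * m = e * n := by exact_mod_cast hqe
  have n0 : (0 : ℝ) ≤ n := by positivity
  have u3 : (h : ℝ) * (i + 1) ≤ (1 + δ) * ((k + 1) * e) := by
    have e0 : (0 : ℝ) ≤ δ * ((k + 1) * e) := by positivity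
    rcases h1 with rfl | h1
    · obtain ⟨A, a1, a2, rfl⟩ := hh.1
      have : (#(shadow A) : ℝ) ≤ (k + 1) * e := by exact_mod_cast a2 ▸ shadow_le_mul A _ a1
      push_cast
      linarith only [e0, this]
    · obtain ⟨z, z1, z2⟩ := exists_chain (n := n) (k := k) (i := i) (e := e) (by omega) (by omega)
      rw [Nat.choose_symm_add] at z2
      have a1 : (h : ℝ) * (i + 1) ≤ (k + 1) * (e + (k + 1 + i).choose i * (i + 1)) := by
        exact_mod_cast (Nat.mul_le_mul_right _ (hh.2 z1)).trans z2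
      have a2 : (L : ℝ) * (k + 1 + i).choose i ≤ e := by
        exact_mod_cast le_trans (Nat.mul_le_mul_right _ (by omega)) (h1.trans (min_le_right _ _))
      have a3 : ((k + 1 + i).choose i : ℝ) * (i + 1) ≤ δ * e := by
        calc _ ≤ (k + 1 + i).choose i * (δ * L) := by gcongr; nlinarith only [hδ, hδ1, hL2]
          _ = δ * (L * (k + 1 + i).choose i) := by ring
          _ ≤ _ := by gcongr
      calc _ ≤ ((k : ℝ) + 1) * (e + δ * e) := a1.trans (by gcongr)
        _ = _ := by ring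
  have u4 : (1 - δ) * ((k + 1) * m) ≤ max ((n : ℝ) * g / k) (n * h / q) * (i + 1) := by
    rcases min_choice d e with hM | hM <;> rw [hM] at s1
    · refine le_trans ?_ (mul_le_mul_of_nonneg_right (le_max_left _ _) (by positivity))
      obtain ⟨r, rfl⟩ : ∃ r, k = r + 1 := ⟨k - 1, by omega⟩
      have a : (((r + 1 : ℕ) : ℝ)) * d ≤ (i + 1) * g + (i + 2) * s * d := by
        exact_mod_cast SG_lower hg.1 s1
      generalize r + 1 = k at *
      have a2 := mul_le_mul_of_nonneg_right s4 (Nat.cast_nonneg (α := ℝ) d)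
      rw [div_mul_eq_mul_div, le_div_iff₀ (by linarith only [hδ, hδ1, k1]), rdm]
      calc _ = n * ((1 - δ) * (k * d)) := by ring
        _ ≤ n * ((i + 1) * g) := mul_le_mul_of_nonneg_left (by linarith only [a, a2]) n0
        _ = _ := by ring
    · refine le_trans ?_ (mul_le_mul_of_nonneg_right (le_max_right _ _) (by positivity))
      have a : ((k : ℝ) + 1) * e ≤ (i + 1) * h + (i + 2) * s * e := by
        exact_mod_cast SG_lower hh.1 s1
      have a2 := mul_le_mul_of_nonneg_right s4 (Nat.cast_nonneg (α := ℝ) e)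
      have a3 : (0 : ℝ) ≤ δ * e := by positivity
      rw [div_mul_eq_mul_div, le_div_iff₀ q0]
      calc _ = (1 - δ) * (k + 1) * (q * m) := by ring
        _ = n * ((1 - δ) * ((k + 1) * e)) := by rw [rqe]; ring
        _ ≤ n * ((i + 1) * h) := mul_le_mul_of_nonneg_left (by linarith only [a, a2, a3]) n0
        _ = _ := by ring
  have i1 : (0 : ℝ) < i + 1 := by positivity
  have f0 : (0 : ℝ) ≤ f := by positivity
  refine ⟨max_le ?_ ?_, ?_⟩
  · have : (n : ℝ) * g ≤ k * f := by exact_mod_cast link hdm hf.1 hg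
    rw [div_le_iff₀ (by linarith only [hδ, hδ1, k1])]
    have : 0 ≤ ε * f * k := by positivity
    linarith
  · rw [div_le_iff₀ q0]
    apply le_of_mul_le_mul_right _ i1
    calc _ = n * (h * ((i : ℝ) + 1)) := by ring
      _ ≤ n * ((1 + δ) * ((k + 1) * e)) := by gcongr
      _ = (1 + δ) * (k + 1) * (e * n) := by ring
      _ = (1 + ε) * q * ((1 - δ) * ((k + 1) * m)) := by rw [← rqe, hδ2]; ring
      _ ≤ (1 + ε) * q * (f * (i + 1)) := by gcongr
      _ = _ := by ring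
  · apply le_of_mul_le_mul_right _ i1
    calc _ ≤ (1 + ε) * ((1 - δ) * ((k + 1) * m)) := by rw [← mul_assoc, ← hδ2]; exact u1
      _ ≤ (1 + ε) * (max ((n : ℝ) * g / k) (n * h / q) * (i + 1)) := by gcongr
      _ = _ := by ring

theorem good_left {ε : ℝ} {L n k q m d e f g h : ℕ} (hε : 0 < ε) (hL : 1 ≤ ε * L) (hq : L ≤ q)
    (hn : n = k + 1 + q) (hk : 1 ≤ k) (hdm : (k + 1) * m = d * n) (hde : d + e = m)
    (hf : f ∈ SR n (k + 1) m) (hg : IsLeast (SG n k d) g) (hh : IsLeast (SG n (k + 1) e) h) :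
    max ((n : ℝ) * g / k) (n * h / q) ≤ (1 + ε) * f := by
  have k1 : (1 : ℝ) ≤ k := by exact_mod_cast hk
  have q1 : (1 : ℝ) ≤ ε * q := hL.trans (by gcongr)
  have q0 : (0 : ℝ) < q := by
    by_contra h
    nlinarith only [hε, q1, h]
  have f0 : (0 : ℝ) ≤ f := by positivity
  refine max_le ?_ ?_
  · have : (n : ℝ) * g ≤ k * f := by exact_mod_cast link hdm hf hg
    rw [div_le_iff₀ (by linarith)]
    have : 0 ≤ ε * f * k := by positivity
    linarith
  · have : (n : ℝ) * h ≤ (q + 1) * f := by exact_mod_cast colink hn hdm hde hf hh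
    rw [div_le_iff₀ q0]
    nlinarith only [q1, this]

/-- The three ranges of the link bound. -/
theorem links {ε : ℝ} (hε : 0 < ε) : ∃ K : ℕ, ∀ n k q m d e x f g h : ℕ,
    n = k + 1 + q → 1 ≤ k → 1 ≤ m → m ≤ n.choose (k + 1) → (k + 1) * m = d * n → d + e = m →
    (k + x).choose k ≤ d → d < (k + 1 + x).choose k → IsLeast (SR n (k + 1) m) f →
    IsLeast (SG n k d) g → IsLeast (SG n (k + 1) e) h →
    ((K ≤ k + 1 ∧ K ≤ x) ∨ (K ≤ x ∧ K * (k + 1 + x) ≤ n) ∨
      (K ≤ k + 1 ∧ K * (k + 1 + x) ≤ n)) →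
    (k : ℝ) * f ≤ (1 + ε) * (n * g) ∧ Good ε n k q f g h := by
  obtain ⟨K, hK⟩ := final ε hε
  obtain ⟨L, hL⟩ := exists_nat_ge (1 / ε)
  rw [div_le_iff₀' hε] at hL
  refine ⟨K + L + 1, fun n k q m d e x f g h hn hk hm1 hm hdm hde h1 h2 hf hg hh hR => ?_⟩
  have hx := x_le hk hm1 hm hdm h1
  have a0 : (K + L + 1) * (k + 1 + x) ≤ n → K * (k + 1 + x) ≤ n ∧ L ≤ q := fun h => by
    have : L ≤ L * (k + 1 + x) := Nat.le_mul_of_pos_right _ (by omega)
    rw [add_mul, add_mul] at h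
    omega
  obtain ⟨f', g', a1, a2, -, a3, -⟩ := hK n (k + 1) m d (k + 1 + x) hm1 hm hdm
    (by rwa [show k + 1 + x - 1 = k + x by omega]) h2 (by
      rcases hR with h | h | h
      · left; omega
      · exact .inr (.inl ⟨by omega, (a0 h.2).1⟩)
      · exact .inr (.inr ⟨by omega, (a0 h.2).1⟩))
  obtain rfl := hf.unique a1
  obtain rfl := hg.unique a2
  rw [show ((k + 1 : ℕ) : ℝ) - 1 = k by push_cast; ring] at a3
  refine ⟨a3, good_left hε hL (by
    rcases hR with h | h | h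
    · omega
    · exact (a0 h.2).2
    · exact (a0 h.2).2) hn hk hdm hde hf.1 hg hh, ?_⟩
  have k1 : (0 : ℝ) < k := by exact_mod_cast hk
  refine le_trans ?_ (mul_le_mul_of_nonneg_left (le_max_left _ _) (by linarith only [hε]))
  rw [← mul_div_assoc, le_div_iff₀' k1]
  exact a3

theorem x_ge {k x d T : ℕ} (h1 : (k + 1 + T).choose (k + 1) ≤ d) (h2 : d < (k + 1 + x).choose k) :
    T ≤ x := by
  by_contra h
  have a1 : (k + 1 + x).choose k ≤ (k + T).choose k := Nat.choose_le_choose _ (by omega)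
  rw [show k + 1 + T = k + T + 1 by omega, Nat.choose_succ_succ'] at h1
  omega

/-- Between two consecutive binomials. -/
theorem offwin {ε : ℝ} (hε : 0 < ε) : ∃ K : ℕ, ∀ n k q m d e x f g h i : ℕ,
    n = k + 1 + q → 1 ≤ k → 1 ≤ m → m ≤ n.choose (k + 1) → (k + 1) * m = d * n → d + e = m →
    (k + x).choose k ≤ d → d < (k + 1 + x).choose k → IsLeast (SR n (k + 1) m) f →
    IsLeast (SG n k d) g → IsLeast (SG n (k + 1) e) h → i + 2 ≤ q →
    (i = 0 ∨ K * (k + 1 + i).choose i ≤ min d e) →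
    K * min d e ≤ (k + 1 + i + 1).choose (i + 1) → Good ε n k q f g h := by
  obtain ⟨T, hT⟩ := links hε
  choose Kf hKf using fun i => fixed i hε
  refine ⟨∑ j ∈ range (T + 1), Kf j + T + 1,
    fun n k q m d e x f g h i hn hk hm1 hm hdm hde h1 h2 hf hg hh hq h3 h4 => ?_⟩
  by_cases hi : i ≤ T
  · have : Kf i ≤ ∑ j ∈ range (T + 1), Kf j :=
      single_le_sum (fun _ _ => Nat.zero_le _) (mem_range.2 (by omega))
    exact hKf i n k q m d e f g h hn hk hm1 hm hdm hde hq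
      (h3.imp id fun h => le_trans (Nat.mul_le_mul_right _ (by omega)) h)
      (le_trans (Nat.mul_le_mul_right _ (by omega)) h4) hf hg hh
  · have a1 : (k + 1 + i).choose i ≤ min d e :=
      le_trans (Nat.le_mul_of_pos_left _ (by omega)) (h3.resolve_left (by omega))
    have := large_c (le_trans (Nat.choose_pos (by omega)) a1) h3 h4
    have := x_ge (Nat.choose_symm_add.trans_le (a1.trans (min_le_left _ _))) h2
    exact (hT n k q m d e x f g h hn hk hm1 hm hdm hde h1 h2 hf hg hh (.inl (by omega))).2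

/-- Few points outside a member. -/
theorem colinks {ε : ℝ} (hε : 0 < ε) : ∃ K : ℕ, ∀ n k q m d e x f g h : ℕ,
    n = k + 1 + q → 1 ≤ k → 1 ≤ m → m ≤ n.choose (k + 1) → (k + 1) * m = d * n → d + e = m →
    (k + x).choose k ≤ d → d < (k + 1 + x).choose k → IsLeast (SR n (k + 1) m) f →
    IsLeast (SG n k d) g → IsLeast (SG n (k + 1) e) h → K ≤ q → K * q ≤ n →
    Good ε n k q f g h := by
  obtain ⟨T, hT⟩ := links hε
  obtain ⟨K1, hK1⟩ := offwin hε
  obtain ⟨L, hL⟩ := exists_nat_ge (5 * ((T : ℝ) + 1) / ε + 6)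
  have T0 : (0 : ℝ) ≤ T := by positivity
  have hL0 : (0 : ℝ) ≤ 5 * ((T : ℝ) + 1) / ε := by positivity
  have hL1 : 6 ≤ L := by exact_mod_cast (show (6 : ℝ) ≤ L by linarith)
  have L0 : (0 : ℝ) < L := by linarith
  have hL2 : 5 * ((T : ℝ) + 1) ≤ ε * L := by
    rw [mul_comm ε, ← div_le_iff₀ hε]; linarith
  obtain ⟨K2, hK2⟩ := upper_co L T hL1
  refine ⟨T + K1 * L + K2 + L,
    fun n k q m d e x f g h hn hk hm1 hm hdm hde h1 h2 hf hg hh hq hqn => ?_⟩
  have hqe := qm hn hdm hde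
  have hcq : q ≤ k + 1 := by
    have : 2 * q ≤ n := le_trans (Nat.mul_le_mul_right _ (by omega)) hqn
    omega
  have hed : e ≤ d := Nat.le_of_mul_le_mul_right (c := n)
    (by rw [← hqe, ← hdm]; exact Nat.mul_le_mul_right _ hcq) (by omega)
  by_cases he : (k + 1 + T).choose (k + 1) ≤ e
  · have := x_ge (he.trans hed) h2
    exact (hT n k q m d e x f g h hn hk hm1 hm hdm hde h1 h2 hf hg hh (.inl (by omega))).2
  by_cases hLe : L ≤ e
  · refine ⟨good_left (L := L) hε (by linarith only [hL2]) (by omega) hn hk hdm hde hf.1 hg hh, ?_⟩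
    obtain ⟨A, a1, a2, a3⟩ := hh.1
    have hTn : k + 1 + T ≤ n := by omega
    obtain ⟨G, g1, g2, g3⟩ := exists_opt hTn A a1 (by omega)
    have hr := kk_ratio hTn A a1 (by omega)
    rw [a2, a3, show k + 1 + T + 1 - (k + 1) = T + 1 by omega] at hr
    obtain ⟨J, j1, j2, j3, j4⟩ := hK2 n (k + 1) q m d e hn (by omega)
      (le_trans (Nat.mul_le_mul_right _ (by omega)) hqn) hdm hde hLe (by
        rw [Nat.choose_symm_add] at he
        exact (not_le.1 he).le.trans ((Nat.choose_le_pow _ _).trans (Nat.pow_le_pow_left hTn _)))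
      G g1 (g2.trans a2)
    have b1 : (f : ℝ) ≤ #(shadow J) := by exact_mod_cast hf.2 ⟨J, j1, j2, ⟨d, j3⟩, rfl⟩
    have b2 : (#(shadow G) : ℝ) ≤ h := by exact_mod_cast a3 ▸ g3
    have q0 : (0 : ℝ) < q := by exact_mod_cast (show 0 < q by omega)
    have b3 : ((k + 1 : ℕ) : ℝ) * m ≤ (T + 1) * (n * h / q) := by
      rw [← mul_div_assoc, le_div_iff₀ q0]
      have : (k + 1) * m * q ≤ (T + 1) * (n * h) := by
        calc _ = n * (e * (k + 1)) := by rw [mul_assoc, mul_comm m, hqe]; ring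
          _ ≤ n * (h * (T + 1)) := Nat.mul_le_mul_left _ hr
          _ = _ := by ring
      exact_mod_cast this
    refine le_trans ?_ (mul_le_mul_of_nonneg_left (le_max_right _ _) (by linarith only [hε]))
    calc _ ≤ n * h / q + 5 / L * ((T + 1) * ((n : ℝ) * h / q)) :=
          b1.trans (j4.trans (by gcongr))
      _ = (1 + 5 * (T + 1) / L) * ((n : ℝ) * h / q) := by ring
      _ ≤ _ := by gcongr; rwa [div_le_iff₀ L0]
  · refine hK1 n k q m d e x f g h 0 hn hk hm1 hm hdm hde h1 h2 hf hg hh (by omega) (.inl rfl) ?_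
    have : K1 * min d e ≤ K1 * L := Nat.mul_le_mul_left _ ((min_le_right _ _).trans (by omega))
    rw [zero_add, Nat.choose_one_right]
    omega

/-- The link bound is always of the right order. -/
theorem uniform : ∃ C : ℝ, ∀ n k q m d e x f g h : ℕ,
    n = k + 1 + q → 1 ≤ k → 1 ≤ m → m ≤ n.choose (k + 1) → (k + 1) * m = d * n → d + e = m →
    (k + x).choose k ≤ d → d < (k + 1 + x).choose k → IsLeast (SR n (k + 1) m) f →
    IsLeast (SG n k d) g → IsLeast (SG n (k + 1) e) h → (k : ℝ) * f ≤ C * (n * g) := by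
  obtain ⟨K, hK⟩ := links one_pos
  refine ⟨(K + 2 + 2 * (K * K + 1) ^ K : ℕ),
    fun n k q m d e x f g h hn hk hm1 hm hdm hde h1 h2 hf hg hh => ?_⟩
  have hx := x_le hk hm1 hm hdm h1
  obtain ⟨A, a1, a2, a3⟩ := hg.1
  have hr := kk_ratio hx A a1 (by omega)
  rw [a2, a3, show k + 1 + x + 1 - k = x + 2 by omega] at hr
  by_cases hR : K ≤ x ∧ (K ≤ k + 1 ∨ K * (k + 1 + x) ≤ n)
  · refine (hK n k q m d e x f g h hn hk hm1 hm hdm hde h1 h2 hf hg hh (by tauto)).1.trans ?_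
    gcongr
    exact_mod_cast (show 1 + 1 ≤ K + 2 + 2 * (K * K + 1) ^ K by omega)
  obtain ⟨J, j1, j2, -, j4⟩ := hf.1
  norm_cast
  by_cases hxK : x < K
  · calc k * f ≤ k * ((k + 1) * m) := Nat.mul_le_mul_left _ (j4 ▸ j2 ▸ shadow_le_mul J _ j1)
      _ = n * (d * k) := by rw [hdm]; ring
      _ ≤ n * (g * (K + 2 + 2 * (K * K + 1) ^ K)) :=
          Nat.mul_le_mul_left _ (hr.trans (Nat.mul_le_mul_left _ (by omega)))
      _ = _ := by ring
  have b1 : f ≤ n.choose k := by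
    have := card_le_card (s := shadow J) (t := powersetCard k univ) fun Y hY =>
      mem_powersetCard.2 ⟨subset_univ _, card_shadow j1 Y hY⟩
    simpa [j4] using this
  have b2 : n ≤ (K * K + 1) * (x + 1) := by
    have : K * (k + 1 + x) ≤ K * (K * (x + 1)) := Nat.mul_le_mul_left _ (by
      have : k + 1 ≤ K := by omega
      nlinarith only [hk, hxK, this])
    have : n ≤ K * (k + 1 + x) := by omega
    nlinarith
  obtain ⟨r, rfl⟩ : ∃ r, k = r + 1 := ⟨k - 1, by omega⟩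
  have b3 : (r + 1).factorial * f ≤ n * ((K * K + 1) ^ K * (x + 1) ^ r) := by
    calc _ ≤ n.descFactorial (r + 1) := by
          rw [Nat.descFactorial_eq_factorial_mul_choose]; gcongr
      _ ≤ n * n ^ r := by rw [← pow_succ']; exact Nat.descFactorial_le_pow _ _
      _ ≤ n * ((K * K + 1) ^ r * (x + 1) ^ r) := by rw [← mul_pow]; gcongr
      _ ≤ _ := by gcongr <;> omega
  have b4 : (x + 1) ^ (r + 1) ≤ (r + 1).factorial * d := by
    have := Nat.pow_sub_le_descFactorial (r + 1 + x) (r + 1)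
    rw [show r + 1 + x + 1 - (r + 1) = x + 1 by omega,
      Nat.descFactorial_eq_factorial_mul_choose] at this
    exact this.trans (Nat.mul_le_mul_left _ h1)
  apply Nat.le_of_mul_le_mul_left (c := (r + 1).factorial * (x + 1)) _ (by positivity)
  calc _ = (r + 1) * (x + 1) * ((r + 1).factorial * f) := by ring
    _ ≤ (r + 1) * (x + 1) * (n * ((K * K + 1) ^ K * (x + 1) ^ r)) := by gcongr
    _ = (r + 1) * n * (K * K + 1) ^ K * (x + 1) ^ (r + 1) := by ring
    _ ≤ (r + 1) * n * (K * K + 1) ^ K * ((r + 1).factorial * d) := by gcongr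
    _ = n * (K * K + 1) ^ K * (r + 1).factorial * (d * (r + 1)) := by ring
    _ ≤ n * (K * K + 1) ^ K * (r + 1).factorial * (g * (2 * (x + 1))) :=
        Nat.mul_le_mul_left _ (hr.trans (Nat.mul_le_mul_left _ (by omega)))
    _ = (r + 1).factorial * (x + 1) * (2 * (K * K + 1) ^ K * (n * g)) := by ring
    _ ≤ _ := by gcongr; omega

theorem least {S : Set ℕ} (h : S.Nonempty) : ∃ f, IsLeast S f :=
  ⟨_, Nat.sInf_mem h, fun _ hs => Nat.sInf_le hs⟩

theorem SG_least {n c d : ℕ} (h : d ≤ n.choose c) : ∃ g, IsLeast (SG n c d) g := by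
  obtain ⟨C, hC, hc⟩ := exists_initSeg n c d h
  exact least ⟨_, C, fun X hX => hC.1 hX, hc, rfl⟩

theorem master : ∃ C : ℝ, ∀ ε : ℝ, 0 < ε → ∃ K : ℕ, ∀ n c m d x : ℕ, 1 ≤ m → m ≤ n.choose c →
    c < n → c * m = d * n → (x - 1).choose (c - 1) ≤ d → d < x.choose (c - 1) →
    ∃ f g h : ℕ, IsLeast (SR n c m) f ∧ IsLeast (SG n (c - 1) d) g ∧
      IsLeast (SG n c (m - d)) h ∧
      n * g ≤ (c - 1) * f ∧ n * h ≤ (n - c + 1) * f ∧ ((c : ℝ) - 1) * f ≤ C * (n * g) ∧
      (((K ≤ c ∧ c + K ≤ x) ∨ (c + K ≤ x ∧ K * x ≤ n) ∨ (K ≤ c ∧ K * x ≤ n) ∨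
        (c + K ≤ n ∧ K * (n - c) ≤ n) ∨
        ∃ i : ℕ, c + i + 2 ≤ n ∧ (i = 0 ∨ K * (c + i).choose i ≤ min d (m - d)) ∧
          K * min d (m - d) ≤ (c + i + 1).choose (i + 1)) →
        max ((n : ℝ) * g / (c - 1)) (n * h / (n - c)) ≤ (1 + ε) * f ∧
        (f : ℝ) ≤ (1 + ε) * max ((n : ℝ) * g / (c - 1)) (n * h / (n - c))) := by
  obtain ⟨C, hC⟩ := uniform
  refine ⟨C, fun ε hε => ?_⟩
  obtain ⟨K1, hK1⟩ := links hε
  obtain ⟨K2, hK2⟩ := offwin hε
  obtain ⟨K3, hK3⟩ := colinks hε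
  refine ⟨K1 + K2 + K3, fun n c m d x hm1 hm hcn hdm hd1 hd2 => ?_⟩
  have hc2 : 2 ≤ c := by
    by_contra h
    have : c - 1 = 0 := by omega
    rw [this, Nat.choose_zero_right] at hd1 hd2
    omega
  have hd0 : 0 < d := by
    rcases Nat.eq_zero_or_pos d with rfl | h
    · have : 0 < c * m := Nat.mul_pos (by omega) hm1
      omega
    · exact h
  have hcx : c ≤ x := by
    by_contra h
    rcases (show x = c - 1 ∨ x < c - 1 by omega) with e | e
    · rw [e, Nat.choose_self] at hd2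
      omega
    · rw [Nat.choose_eq_zero_of_lt e] at hd2
      omega
  obtain ⟨k, rfl⟩ : ∃ k, c = k + 1 := ⟨c - 1, by omega⟩
  obtain ⟨t, rfl⟩ : ∃ t, x = k + 1 + t := ⟨x - (k + 1), by omega⟩
  obtain ⟨q, hn⟩ : ∃ q, n = k + 1 + q := ⟨n - (k + 1), by omega⟩
  rw [show k + 1 + t - 1 = k + t by omega] at hd1
  simp only [Nat.add_sub_cancel] at hd1 hd2 ⊢
  have hk : 1 ≤ k := by omega
  have hdm' : d ≤ m := Nat.le_of_mul_le_mul_right (c := n)
    (by rw [← hdm, mul_comm]; exact Nat.mul_le_mul_left _ hcn.le) (by omega)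
  obtain ⟨e, hde⟩ : ∃ e, d + e = m := ⟨m - d, by omega⟩
  have : NeZero n := ⟨by omega⟩
  obtain ⟨J, j1, j2, j3, -⟩ := upper_cl (n := n) k (k + 1) m d le_rfl hcn.le hm hm1 hdm
  obtain ⟨f, hf⟩ := least (S := SR n (k + 1) m) ⟨_, J, j1, j2, ⟨d, j3⟩, rfl⟩
  obtain ⟨g, hg⟩ := SG_least
    (hd2.le.trans (Nat.choose_le_choose k (x_le hk hm1 hm hdm hd1)))
  obtain ⟨h, hh⟩ := SG_least (n := n) (c := k + 1) (d := e) (by omega)
  have e1 : ((k + 1 : ℕ) : ℝ) - 1 = k := by push_cast; ring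
  have e2 : (n : ℝ) - (k + 1 : ℕ) = q := by rw [hn]; push_cast; ring
  rw [show m - d = e by omega, show n - (k + 1) = q by omega, e1, e2]
  refine ⟨f, g, h, hf, hg, hh, link hdm hf.1 hg, colink hn hdm hde hf.1 hh,
    hC n k q m d e t f g h hn hk hm1 hm hdm hde hd1 hd2 hf hg hh, fun hR => ?_⟩
  have a1 := fun h => (hK1 n k q m d e t f g _ hn hk hm1 hm hdm hde hd1 hd2 hf hg hh h).2
  have a2 : ∀ {a b y z : ℕ}, a ≤ b → b * y ≤ z → a * y ≤ z := fun h1 h2 =>
    (Nat.mul_le_mul_right _ h1).trans h2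
  rcases hR with r | r | r | r | ⟨i, r1, r2, r3⟩
  · exact a1 (.inl (by omega))
  · exact a1 (.inr (.inl ⟨by omega, a2 (by omega) r.2⟩))
  · exact a1 (.inr (.inr ⟨by omega, a2 (by omega) r.2⟩))
  · exact hK3 n k q m d e t f g h hn hk hm1 hm hdm hde hd1 hd2 hf hg hh (by omega)
      (a2 (by omega) r.2)
  · exact hK2 n k q m d e t f g h i hn hk hm1 hm hdm hde hd1 hd2 hf hg hh (by omega)
      (r2.imp id (a2 (by omega))) (a2 (by omega) r3)

end Pool.Agent.P.MP_4f3dfd_co.Off
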