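import Pool.Agent.P.MP_4f3dfd_co.AFill
import Pool.Agent.P.MP_4f3dfd_co.ABlock

set_option autoImplicit false

namespace Pool.Agent.P.MP_4f3dfd_co.Off

open Finset Pool.Agent.P.MP_4f3dfd_co.Asy

variable {V : Type*} [DecidableEq V]

theorem shadow_union_le (J E : Finset (Finset V)) (c : ℕ) (hE : ∀ X ∈ E, #X = c) :
    #(shadow (J ∪ E)) ≤ #(shadow J) + c * #E := by
  have h3 := shadow_mul_le E c 1 hE (fun Z hZ => by
    obtain ⟨X, hX, hZX, -⟩ := mem_shadow_iff_exists_mem_card_add_one.1 hZ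
    exact card_pos.2 ⟨X, mem_filter.2 ⟨hX, hZX⟩⟩)
  have h1 : shadow (J ∪ E) ⊆ shadow J ∪ shadow E := by
    intro Z hZ
    obtain ⟨X, hX, a, ha, rfl⟩ := mem_shadow_iff.1 hZ
    rcases mem_union.1 hX with h | h
    · exact mem_union_left _ (erase_mem_shadow h ha)
    · exact mem_union_right _ (erase_mem_shadow h ha)
  have h4 := (card_le_card h1).trans (card_union_le _ _)
  rw [mul_one, mul_comm] at h3
  omega

/-- Completion of a family whose degrees are constant on a set R. -/
theorem complete [Fintype V] (c d M D : ℕ) (J : Finset (Finset V)) (R : Finset V)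
    (hJ : ∀ X ∈ J, #X = c) (hdeg : ∀ v, #{X ∈ J | v ∈ X} ≤ d)
    (hco : ∀ v, d ≤ #{X ∈ J | v ∈ X} + M) (hD : ∀ v ∈ R, #{X ∈ J | v ∈ X} = D) (hDd : D ≤ d)
    (hM : c * (#J + M) = d * Fintype.card V) (h2 : 2 * M ≤ (d - D) * #R)
    (hch : ∀ s, (d - D) * #R ≤ M * (s + 1) → M * s ≤ (d - D) * #R + M →
      M ≤ (#R).choose s ∧ ∀ X ∈ J, #(X ∩ R) ≠ s) :
    ∃ J' : Finset (Finset V), (∀ X ∈ J', #X = c) ∧ #J' = #J + M ∧
      (∀ v, #{X ∈ J' | v ∈ X} = d) ∧ #(shadow J') ≤ #(shadow J) + c * M := by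
  obtain ⟨Y, y1, y2, a, y3⟩ := exists_fill M (fun v => d - #{X ∈ J | v ∈ X}) Rᶜ
    (fun p _ => by have := hco p; omega)
  obtain ⟨δ, rfl⟩ : ∃ δ, d = D + δ := ⟨d - D, by omega⟩
  rw [Nat.add_sub_cancel_left] at h2 hch
  have hY : ∑ j, #(Y j) + δ * #R = c * M := by
    rw [← sum_deg_idx Rᶜ Y y1, sum_congr rfl y2]
    have e1 := sum_deg_nat J c hJ
    rw [← sum_add_sum_compl R, sum_congr rfl hD, sum_const, smul_eq_mul] at e1
    have e2 : ∑ v ∈ Rᶜ, (D + δ - #{X ∈ J | v ∈ X}) + ∑ v ∈ Rᶜ, #{X ∈ J | v ∈ X} =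
        (D + δ) * #Rᶜ := by
      rw [← sum_add_distrib, sum_congr rfl (fun v _ => Nat.sub_add_cancel (hdeg v)), sum_const,
        smul_eq_mul, mul_comm]
    have e3 : #R * D + δ * #R + (D + δ) * #Rᶜ = (D + δ) * Fintype.card V := by
      rw [← card_add_card_compl R]; ring
    rw [mul_add] at hM
    omega
  have lo : M * a ≤ ∑ j, #(Y j) := by
    have := card_nsmul_le_sum univ (fun j => #(Y j)) a
      (fun j _ => by rcases y3 j with h | h <;> omega)
    simpa using this
  have hi : ∑ j, #(Y j) ≤ M * (a + 1) := by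
    have := sum_le_card_nsmul univ (fun j => #(Y j)) (a + 1)
      (fun j _ => by rcases y3 j with h | h <;> omega)
    simpa using this
  have hac : ∀ _ : Fin M, a + 2 ≤ c := fun j => by
    have hM0 : 0 < M := j.pos
    apply Nat.le_of_mul_le_mul_left _ hM0
    rw [mul_add, mul_comm M c]; omega
  have hw : ∀ j, M ≤ (#R).choose (c - #(Y j)) ∧ ∀ X ∈ J, #(X ∩ R) ≠ c - #(Y j) := fun j => by
    have := hac j
    obtain ⟨b, rfl⟩ : ∃ b, c = a + 2 + b := ⟨c - (a + 2), by omega⟩
    apply hch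
    · rcases y3 j with h | h <;> rw [h]
      · rw [show a + 2 + b - a + 1 = b + 3 by omega]; nlinarith
      · rw [show a + 2 + b - (a + 1) + 1 = b + 2 by omega]; nlinarith
    · rcases y3 j with h | h <;> rw [h]
      · rw [show a + 2 + b - a = b + 2 by omega]; nlinarith
      · rw [show a + 2 + b - (a + 1) = b + 1 by omega]; nlinarith
  obtain ⟨S, s1, s2, s3⟩ := exists_regular_idx M δ R (fun j => c - #(Y j)) (fun j => (hw j).1)
    (by
      have : ∑ j, (c - #(Y j)) + ∑ j, #(Y j) = c * M := by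
        rw [← sum_add_distrib, sum_congr rfl (fun j _ => Nat.sub_add_cancel (by
          have := hac j
          rcases y3 j with h | h <;> omega))]
        simp [mul_comm]
      omega)
  have hdisj : ∀ j, Disjoint (S j) (Y j) := fun j =>
    disjoint_left.2 fun p h1 h2 => mem_compl.1 (y1 j h2) ((s2 j).1 h1)
  have hint : ∀ j, (S j ∪ Y j) ∩ R = S j := fun j => by
    ext p
    simp only [mem_inter, mem_union]
    exact ⟨fun h => h.1.resolve_right fun h' => mem_compl.1 (y1 j h') h.2,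
      fun h => ⟨Or.inl h, (s2 j).1 h⟩⟩
  have hinj : Function.Injective fun j => S j ∪ Y j := fun i j h =>
    s1 (by rw [← hint i, ← hint j]; exact congrArg (· ∩ R) h)
  set E : Finset (Finset V) := univ.image fun j => S j ∪ Y j with hE
  have hEc : ∀ X ∈ E, #X = c := by
    intro X hX
    obtain ⟨j, -, rfl⟩ := mem_image.1 hX
    rw [card_union_of_disjoint (hdisj j), (s2 j).2]
    have := hac j
    rcases y3 j with h | h <;> omega
  have hEM : #E = M := by rw [hE, card_image_of_injective _ hinj]; simp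
  have hJE : Disjoint J E := by
    rw [disjoint_right]
    intro X hX hXJ
    obtain ⟨j, -, rfl⟩ := mem_image.1 hX
    exact (hw j).2 _ hXJ (by rw [hint, (s2 j).2])
  refine ⟨J ∪ E, fun X hX => (mem_union.1 hX).elim (hJ X) (hEc X),
    by rw [card_union_of_disjoint hJE, hEM], fun v => ?_, hEM ▸ shadow_union_le J E c hEc⟩
  rw [filter_union, card_union_of_disjoint (disjoint_filter_filter hJE), hE, filter_image,
    card_image_of_injective _ hinj]
  by_cases hv : v ∈ R
  · rw [hD v hv, ← s3 v hv]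
    congr 2
    ext j
    simp only [mem_filter, mem_univ, true_and, mem_union]
    exact ⟨fun h => h.resolve_right fun h' => mem_compl.1 (y1 j h') hv, Or.inl⟩
  · have : #{j | v ∈ S j ∪ Y j} = D + δ - #{X ∈ J | v ∈ X} := by
      rw [← y2 v (mem_compl.2 hv)]
      congr 1
      ext j
      simp only [mem_filter, mem_univ, true_and, mem_union]
      exact ⟨fun h => h.resolve_left fun h' => hv ((s2 j).1 h'), Or.inr⟩
    rw [this]
    have := hdeg v
    omega

/-- Sets of equal size with almost equal degrees. -/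
theorem exists_balanced (N w : ℕ) (P : Finset V) (hw : w ≤ #P) :
    ∃ W : Fin N → Finset V, (∀ j, W j ⊆ P ∧ #(W j) = w) ∧
      ∀ p ∈ P, #P * #{j | p ∈ W j} ≤ N * w + #P ∧ N * w ≤ #P * (#{j | p ∈ W j} + 1) := by
  rcases P.eq_empty_or_nonempty with rfl | hP
  · exact ⟨fun _ => ∅, fun _ => ⟨subset_rfl, by simpa using hw.antisymm' (by simp)⟩, by simp⟩
  have h0 : 0 < #P := card_pos.2 hP
  have e1 := Nat.div_add_mod (N * w) #P
  have e2 := Nat.mod_lt (N * w) h0
  generalize N * w / #P = a at e1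
  generalize N * w % #P = r at e1 e2
  obtain ⟨I, hI, hI'⟩ := exists_subset_card_eq e2.le
  have e3 : N * w ≤ #P * N := by rw [mul_comm]; exact Nat.mul_le_mul_right _ hw
  obtain ⟨Y, y1, y2, b, y3⟩ := exists_fill N (fun p => a + if p ∈ I then 1 else 0) P
    (fun p _ => by
      split_ifs with h
      · have : 0 < r := hI' ▸ card_pos.2 ⟨p, h⟩
        exact Nat.lt_of_mul_lt_mul_left (a := #P) (by omega)
      · exact Nat.le_of_mul_le_mul_left (by rw [add_zero]; omega) h0)
  have e4 : ∑ j, #(Y j) = ∑ _j : Fin N, w := by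
    rw [← sum_deg_idx P Y y1, sum_congr rfl y2, sum_add_distrib, ← card_filter,
      filter_mem_eq_inter, inter_eq_right.2 hI, hI']
    simpa using e1
  refine ⟨Y, fun j => ⟨y1 j, ?_⟩, fun p hp => ?_⟩
  · by_cases h : w ≤ b
    · exact ((sum_eq_sum_iff_of_le fun j _ => by rcases y3 j with h | h <;> omega).1 e4.symm j
        (mem_univ j)).symm
    · exact (sum_eq_sum_iff_of_le fun j _ => by rcases y3 j with h | h <;> omega).1 e4 j
        (mem_univ j)
  · rw [y2 p hp]
    split_ifs <;> constructor <;> nlinarith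

/-- A union of disjoint cliques which is regular on a set of blocks. -/
theorem exists_cliques [Fintype V] (k i N n₂ τ s w q : ℕ)
    (h1 : (i + 1) * n₂ + q = Fintype.card V) (hw : w ≤ q) (hy : (i + 1) * τ + w = k + 1 + i)
    (hN : N ≤ n₂.choose τ) (hs : N * τ = s * n₂) :
    ∃ (J : Finset (Finset V)) (R : Finset V), (∀ X ∈ J, #X = k + 1) ∧
      #J = N * (k + 1 + i).choose (k + 1) ∧ #R = (i + 1) * n₂ ∧
      (∀ v ∈ R, #{X ∈ J | v ∈ X} = s * (k + i).choose k) ∧
      (∀ v ∉ R, ∃ t, q * t ≤ N * w + q ∧ N * w ≤ q * (t + 1) ∧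
        #{X ∈ J | v ∈ X} = t * (k + i).choose k) ∧
      (∀ X ∈ J, #(X ∩ R) ≤ (i + 1) * τ) ∧ #(shadow J) ≤ N * (k + 1 + i).choose k := by
  obtain ⟨ι⟩ : Nonempty (Fin n₂ × Fin (i + 1) ↪ V) :=
    Function.Embedding.nonempty_of_card_le (by simp [mul_comm n₂]; omega)
  let bl : Finset (Fin n₂) → Finset V := fun S => (S ×ˢ univ).map ι
  have hbl : ∀ S, #(bl S) = (i + 1) * #S := fun S => by simp [bl, mul_comm]
  have hmem : ∀ S p, ι p ∈ bl S ↔ p.1 ∈ S := fun S p => by simp [bl]
  have hsub : ∀ S, bl S ⊆ bl univ := fun S => map_subset_map.2 (by simp)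
  have hR : #(bl univ) = (i + 1) * n₂ := by simp [hbl]
  have hq : #(bl univ)ᶜ = q := by rw [card_compl, hR]; omega
  obtain ⟨S, s1, s2, s3⟩ := exists_regular_idx N s (univ : Finset (Fin n₂)) (fun _ => τ)
    (fun _ => by simpa using hN) (by simpa using hs)
  obtain ⟨W, w1, w2⟩ := exists_balanced N w (bl univ)ᶜ (hq ▸ hw)
  have hW : ∀ j v, v ∈ bl univ → v ∉ W j := fun j v h h' => mem_compl.1 ((w1 j).1 h') h
  let Z : Fin N → Finset V := fun j => bl (S j) ∪ W j
  have hZ : ∀ j, #(Z j) = k + 1 + i := fun j => by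
    rw [card_union_of_disjoint (disjoint_left.2 fun v h => hW j v (hsub _ h)), hbl, (s2 j).2,
      (w1 j).2, hy]
  have hdis : ∀ j l, j ≠ l → Disjoint (powersetCard (k + 1) (Z j)) (powersetCard (k + 1) (Z l)) := by
    intro j l hjl
    obtain ⟨p, hp1, hp2⟩ : ∃ p ∈ S j, p ∉ S l := by
      by_contra hh
      push Not at hh
      exact hjl (s1 (eq_of_subset_of_card_le hh (by rw [(s2 j).2, (s2 l).2])))
    rw [disjoint_left]
    intro X hj hl
    rw [mem_powersetCard] at hj hl
    have a1 : bl {p} ⊆ Z j := (map_subset_map.2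
      (product_subset_product_left (singleton_subset_iff.2 hp1))).trans subset_union_left
    have a2 : Disjoint X (bl {p}) := by
      rw [disjoint_right]
      intro v hv hX
      obtain ⟨z, hz, rfl⟩ := mem_map.1 hv
      rcases mem_union.1 (hl.1 hX) with h | h
      · rw [hmem] at h hv
        exact hp2 (mem_singleton.1 hv ▸ h)
      · exact hW l _ (hsub _ hv) h
    have a3 := card_le_card (union_subset hj.1 a1)
    rw [card_union_of_disjoint a2, hj.2, hbl, hZ, card_singleton] at a3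
    omega
  have hdeg : ∀ v, #{X ∈ univ.biUnion fun j => powersetCard (k + 1) (Z j) | v ∈ X} =
      #{j | v ∈ Z j} * (k + i).choose k := by
    intro v
    rw [filter_biUnion, card_biUnion fun j _ l _ h => disjoint_filter_filter (hdis j l h),
      ← smul_eq_mul, ← sum_const, sum_filter]
    refine sum_congr rfl fun j _ => ?_
    split_ifs with h
    · rw [card_through _ _ h, hZ, show k + 1 + i - 1 = k + i by omega]
    · rw [card_eq_zero, filter_eq_empty_iff]
      exact fun X hX hv => h ((mem_powersetCard.1 hX).1 hv)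
  refine ⟨univ.biUnion fun j => powersetCard (k + 1) (Z j), bl univ, fun X hX => ?_, ?_, hR,
    fun v hv => ?_, fun v hv => ?_, fun X hX => ?_, ?_⟩
  · obtain ⟨j, -, hj⟩ := mem_biUnion.1 hX
    exact (mem_powersetCard.1 hj).2
  · rw [card_biUnion fun j _ l _ h => hdis j l h]
    simp [hZ]
  · obtain ⟨z, -, rfl⟩ := mem_map.1 hv
    rw [hdeg, ← s3 z.1 (mem_univ _)]
    congr 2
    ext j
    simp only [mem_filter, mem_univ, true_and, Z, mem_union, hmem]
    exact ⟨fun h => h.resolve_right (hW j _ hv), Or.inl⟩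
  · have e : #{j | v ∈ Z j} = #{j | v ∈ W j} := by
      congr 1
      ext j
      simp only [mem_filter, mem_univ, true_and, Z, mem_union]
      exact ⟨fun h => h.resolve_left fun h' => hv (hsub _ h'), Or.inr⟩
    have := w2 v (mem_compl.2 hv)
    rw [hq] at this
    exact ⟨_, this.1, this.2, by rw [hdeg, e]⟩
  · obtain ⟨j, -, hj⟩ := mem_biUnion.1 hX
    rw [← (s2 j).2, ← hbl]
    refine card_le_card fun v hv => ?_
    rw [mem_inter] at hv
    exact (mem_union.1 ((mem_powersetCard.1 hj).1 hv.1)).resolve_right (hW j v hv.2)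
  · have : shadow (univ.biUnion fun j => powersetCard (k + 1) (Z j)) ⊆
        univ.biUnion fun j => powersetCard k (Z j) := by
      intro Y hY
      obtain ⟨X, hX, hYX, hc⟩ := mem_shadow_iff_exists_mem_card_add_one.1 hY
      obtain ⟨j, -, hj⟩ := mem_biUnion.1 hX
      rw [mem_powersetCard] at hj
      exact mem_biUnion.2 ⟨j, mem_univ _, mem_powersetCard.2 ⟨hYX.trans hj.1, by omega⟩⟩
    refine (card_le_card this).trans (card_biUnion_le.trans ?_)
    simp [hZ]

end Pool.Agent.P.MP_4f3dfd_co.Off
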