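import Pool.Agent.P.MP_4f3dfd_co.ALower

set_option autoImplicit false

namespace Pool.Agent.P.MP_4f3dfd_co.Off

open Finset Pool.Agent.P.MP_4f3dfd_co.Asy

variable {V : Type*} [DecidableEq V]

/-- The number of members containing a set. -/
def ex (G : Finset (Finset V)) (Y : Finset V) : ℕ := #{X ∈ G | Y ⊆ X}

/-- The number of members containing a set, counted only above a threshold. -/
def om (j : ℕ) (G : Finset (Finset V)) (Y : Finset V) : ℕ := if j + 1 ≤ ex G Y then ex G Y else 0

theorem eq_insert {X Y : Finset V} {w : V} (h : Y ⊆ X) (hc : #X = #Y + 1) (hw : w ∈ X)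
    (hY : w ∉ Y) : X = insert w Y :=
  (eq_of_subset_of_card_le (insert_subset hw h) (by rw [card_insert_of_notMem hY, hc])).symm

/-- Forbidding a point outside `Y` loses at most one extension. -/
theorem ex_avoid {G : Finset (Finset V)} {Y : Finset V} (hG : ∀ X ∈ G, #X = #Y + 1) {w : V}
    (hw : w ∉ Y) : ex G Y ≤ ex {X ∈ G | w ∉ X} Y + 1 := by
  have : {X ∈ G | Y ⊆ X} ⊆ insert (insert w Y) {X ∈ {X ∈ G | w ∉ X} | Y ⊆ X} := by
    intro X hX
    rw [mem_filter] at hX
    by_cases h : w ∈ X
    · rw [eq_insert hX.2 (hG X hX.1) h hw]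
      exact mem_insert_self _ _
    · exact mem_insert_of_mem (mem_filter.2 ⟨mem_filter.2 ⟨hX.1, h⟩, hX.2⟩)
  exact (card_le_card this).trans (card_insert_le _ _)

theorem ex_avoid' {G : Finset (Finset V)} {Y : Finset V} (hG : ∀ X ∈ G, #X = #Y + 1) {w : V}
    (hw : w ∉ Y) (h : insert w Y ∉ G) : ex {X ∈ G | w ∉ X} Y = ex G Y := by
  unfold ex
  congr 1
  ext X
  simp only [mem_filter]
  refine ⟨fun h => ⟨h.1.1, h.2⟩, fun h' => ⟨⟨h'.1, fun hw' => h ?_⟩, h'.2⟩⟩
  rw [← eq_insert h'.2 (hG X h'.1) hw' hw]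
  exact h'.1

theorem ex_contain (G : Finset (Finset V)) {Y : Finset V} {w : V} (hw : w ∈ Y) :
    ex {X ∈ G | w ∈ X} Y = ex G Y := by
  unfold ex
  congr 1
  ext X
  simp only [mem_filter]
  exact ⟨fun h => ⟨h.1.1, h.2⟩, fun h => ⟨⟨h.1, h.2 hw⟩, h.2⟩⟩

/-- A family in which every member has many rich subsets is large. -/
theorem core_size (c s : ℕ) : ∀ (j : ℕ) (H : Finset (Finset V)), (∀ X ∈ H, #X = c) →
    H.Nonempty → (∀ X ∈ H, s ≤ #{v ∈ X | j + 1 ≤ ex H (X.erase v)}) → (s + j).choose j ≤ #H := by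
  induction s with
  | zero => intro j H _ h _; simpa using h
  | succ s ihs =>
    intro j
    induction j with
    | zero => intro H _ h _; simpa using h
    | succ j ihj =>
      intro H hc ⟨X0, hX0⟩ h
      obtain ⟨v, hv⟩ : {v ∈ X0 | j + 1 + 1 ≤ ex H (X0.erase v)}.Nonempty :=
        card_pos.1 (by have := h X0 hX0; omega)
      obtain ⟨X1, h1, X2, h2, hne⟩ : ∃ a ∈ H, ∃ b ∈ H, a ≠ b := one_lt_card.1 (by
        have := (mem_filter.1 hv).2.trans (card_filter_le _ _)
        omega)
      obtain ⟨w, hw1, hw2⟩ : ∃ w ∈ X1, w ∉ X2 := by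
        by_contra hh
        push Not at hh
        exact hne (eq_of_subset_of_card_le hh (by rw [hc _ h1, hc _ h2]))
      have a1 := ihs (j + 1) {X ∈ H | w ∈ X} (fun X hX => hc X (mem_filter.1 hX).1)
        ⟨X1, mem_filter.2 ⟨h1, hw1⟩⟩ fun X hX => by
          rw [mem_filter] at hX
          have : {v ∈ X | j + 1 + 1 ≤ ex H (X.erase v)} ⊆
              insert w {v ∈ X | j + 1 + 1 ≤ ex {X ∈ H | w ∈ X} (X.erase v)} := by
            intro u hu
            rw [mem_filter] at hu
            by_cases e : u = w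
            · rw [e]; exact mem_insert_self _ _
            · refine mem_insert_of_mem (mem_filter.2 ⟨hu.1, ?_⟩)
              rw [ex_contain H (mem_erase.2 ⟨Ne.symm e, hX.2⟩)]
              exact hu.2
          have := ((h X hX.1).trans (card_le_card this)).trans (card_insert_le _ _)
          omega
      have a2 := ihj {X ∈ H | w ∉ X} (fun X hX => hc X (mem_filter.1 hX).1)
        ⟨X2, mem_filter.2 ⟨h2, hw2⟩⟩ fun X hX => by
          rw [mem_filter] at hX
          refine (h X hX.1).trans (card_le_card fun u hu => ?_)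
          rw [mem_filter] at hu ⊢
          have := ex_avoid (G := H) (Y := X.erase u) (w := w) (fun X' hX' => by
            rw [hc X' hX', card_erase_add_one hu.1, hc X hX.1])
            (fun e => hX.2 (mem_of_mem_erase e))
          exact ⟨hu.1, by omega⟩
      have a3 := card_filter_add_card_filter_not (s := H) fun X => w ∈ X
      rw [show s + 1 + (j + 1) = s + (j + 1) + 1 by omega, Nat.choose_succ_succ',
        show s + (j + 1) = s + 1 + j by omega]
      rw [show s + (j + 1) = s + 1 + j by omega] at a1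
      omega

/-- A small family has few rich pairs. -/
theorem few_rich (k s j : ℕ) (T : Finset (Finset V)) (hT : ∀ Y ∈ T, #Y = k) (N : ℕ) :
    ∀ G : Finset (Finset V), (∀ X ∈ G, #X = k + 1) → #G = N → N < (s + j).choose j →
      ∑ Y ∈ T, om j G Y ≤ (j + 1) * s * N := by
  induction N with
  | zero =>
    intro G _ h _
    rw [card_eq_zero.1 h]
    simp [om, ex]
  | succ N ih =>
    intro G hG hN hlt
    obtain ⟨X0, hX0, hs⟩ : ∃ X ∈ G, #{v ∈ X | j + 1 ≤ ex G (X.erase v)} < s := by
      by_contra hh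
      push Not at hh
      have := core_size (k + 1) s j G hG (card_pos.1 (by omega)) hh
      omega
    have a1 := ih (G.erase X0) (fun X hX => hG X (mem_of_mem_erase hX))
      (by rw [card_erase_of_mem hX0, hN]; rfl) (by omega)
    have a2 : ∀ Y ∈ T, om j G Y ≤
        om j (G.erase X0) Y + if Y ⊆ X0 ∧ j + 1 ≤ ex G Y then j + 1 else 0 := by
      intro Y _
      have e : ex (G.erase X0) Y = if Y ⊆ X0 then ex G Y - 1 else ex G Y := by
        unfold ex
        rw [filter_erase]
        split_ifs with h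
        · exact card_erase_of_mem (mem_filter.2 ⟨hX0, h⟩)
        · rw [erase_eq_of_notMem fun h' => h (mem_filter.1 h').2]
      unfold om
      rw [e]
      by_cases h : Y ⊆ X0 <;> simp only [h, true_and, false_and, if_true, if_false] <;>
        split_ifs <;> omega
    have a3 : #{Y ∈ T | Y ⊆ X0 ∧ j + 1 ≤ ex G Y} ≤ s := by
      refine le_trans ?_ hs.le
      refine le_trans (card_le_card ?_)
        (card_image_le (s := {v ∈ X0 | j + 1 ≤ ex G (X0.erase v)}) (f := X0.erase))
      intro Y hY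
      rw [mem_filter] at hY
      obtain ⟨w, hw1, hw2⟩ : ∃ w ∈ X0, w ∉ Y := by
        by_contra hh
        push Not at hh
        have := card_le_card (show X0 ⊆ Y from hh)
        rw [hG _ hX0, hT _ hY.1] at this
        omega
      have e : X0.erase w = Y := by
        rw [eq_insert hY.2.1 (by rw [hG _ hX0, hT _ hY.1]) hw1 hw2, erase_insert hw2]
      exact mem_image.2 ⟨w, mem_filter.2 ⟨hw1, e ▸ hY.2.2⟩, e⟩
    have a4 := sum_le_sum a2
    rw [sum_add_distrib, ← sum_filter, sum_const, smul_eq_mul] at a4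
    calc _ ≤ (j + 1) * s * N + s * (j + 1) := a4.trans (by gcongr)
      _ = _ := by ring

theorem card_shadow {J : Finset (Finset V)} {k : ℕ} (hJ : ∀ X ∈ J, #X = k + 1) :
    ∀ Y ∈ shadow J, #Y = k := by
  intro Y hY
  obtain ⟨Z, hZ, -, hc⟩ := mem_shadow_iff_exists_mem_card_add_one.1 hY
  have := hJ Z hZ
  omega

/-- Double counting with a threshold. -/
theorem le_shadow_add (J : Finset (Finset V)) (k j : ℕ) (hJ : ∀ X ∈ J, #X = k + 1) :
    (k + 1) * #J ≤ j * #(shadow J) + ∑ Y ∈ shadow J, om j J Y := by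
  have h1 := sum_card_bipartiteAbove_eq_sum_card_bipartiteBelow
    (r := fun X Y : Finset V => Y ⊆ X) (s := J) (t := shadow J)
  rw [sum_congr rfl (card_below J (k + 1) hJ), sum_const, smul_eq_mul, mul_comm] at h1
  rw [h1, mul_comm j, ← smul_eq_mul, ← sum_const, ← sum_add_distrib]
  refine sum_le_sum fun Y _ => ?_
  change ex J Y ≤ _
  unfold om
  split_ifs <;> omega

variable [Fintype V]

/-- Rich pairs of a family with small degrees. -/
theorem rich_deg (J : Finset (Finset V)) (k s j d : ℕ) (hJ : ∀ X ∈ J, #X = k + 1)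
    (hd : ∀ v, #{X ∈ J | v ∈ X} = d) (h : d < (s + j).choose j) :
    k * ∑ Y ∈ shadow J, om j J Y ≤ Fintype.card V * ((j + 1) * s * d) := by
  have a1 := sum_le_sum (s := (univ : Finset V)) fun v _ => few_rich k s j (shadow J)
    (card_shadow hJ) d {X ∈ J | v ∈ X} (fun X hX => hJ X (mem_filter.1 hX).1) (hd v) h
  rw [sum_const, card_univ, smul_eq_mul, sum_comm] at a1
  refine le_trans ?_ a1
  rw [mul_sum]
  refine sum_le_sum fun Y hY => ?_
  refine le_trans ?_ (sum_le_sum_of_subset (subset_univ Y))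
  rw [sum_congr rfl (g := fun _ => om j J Y) fun v hv => by simp only [om, ex_contain J hv],
    sum_const, card_shadow hJ Y hY, smul_eq_mul]

/-- Rich pairs of a family in which few members avoid any given point. -/
theorem rich_codeg (J : Finset (Finset V)) (k s j e r : ℕ) (hJ : ∀ X ∈ J, #X = k + 1)
    (hd : ∀ v, #{X ∈ J | v ∉ X} = e) (h : e < (s + j).choose j) (hj : 1 ≤ j)
    (hr : k + j + 1 + r ≤ Fintype.card V) :
    r * ∑ Y ∈ shadow J, om j J Y ≤ 2 * (Fintype.card V * ((j + 1) * s * e)) := by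
  have a1 := sum_le_sum (s := (univ : Finset V)) fun v _ => few_rich k s j (shadow J)
    (card_shadow hJ) e {X ∈ J | v ∉ X} (fun X hX => hJ X (mem_filter.1 hX).1) (hd v) h
  rw [sum_const, card_univ, smul_eq_mul, sum_comm] at a1
  refine le_trans ?_ (Nat.mul_le_mul_left 2 a1)
  rw [mul_sum, mul_sum]
  refine sum_le_sum fun Y hY => ?_
  have hk := card_shadow hJ Y hY
  have hG : ∀ X ∈ J, #X = #Y + 1 := fun X hX => by rw [hJ X hX, hk]
  obtain ⟨U, hU, hU'⟩ : ∃ U : Finset V, r ≤ #U ∧
      ∀ u ∈ U, om j J Y ≤ 2 * om j {X ∈ J | u ∉ X} Y := by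
    by_cases hm : ex J Y = j + 1
    · refine ⟨Yᶜ \ {u ∈ Yᶜ | insert u Y ∈ J}, ?_, fun u hu => ?_⟩
      · have b1 : #{u ∈ Yᶜ | insert u Y ∈ J} ≤ ex J Y := by
          apply card_le_card_of_injOn (insert · Y)
          · intro u hu
            rw [mem_coe, mem_filter] at hu ⊢
            exact ⟨hu.2, subset_insert _ _⟩
          · intro a ha b _ hab
            rw [mem_coe, mem_filter, mem_compl] at ha
            have : a ∈ insert b Y := by
              have h' : insert a Y = insert b Y := hab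
              rw [← h']; exact mem_insert_self _ _
            exact (mem_insert.1 this).resolve_right ha.1
        rw [card_sdiff_of_subset (filter_subset _ _), card_compl]
        omega
      · rw [mem_sdiff, mem_filter, mem_compl] at hu
        simp only [om, ex_avoid' hG hu.1 fun h' => hu.2 ⟨hu.1, h'⟩]
        omega
    · refine ⟨Yᶜ, by rw [card_compl]; omega, fun u hu => ?_⟩
      have := ex_avoid hG (mem_compl.1 hu)
      unfold om
      split_ifs <;> omega
  calc r * om j J Y ≤ #U * om j J Y := by gcongr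
    _ ≤ ∑ u ∈ U, 2 * om j {X ∈ J | u ∉ X} Y := by
        rw [← smul_eq_mul]; exact card_nsmul_le_sum _ _ _ hU'
    _ ≤ _ := by
        rw [← mul_sum]
        exact Nat.mul_le_mul_left 2 (sum_le_sum_of_subset (subset_univ U))

/-- The lower bound below a power. -/
theorem lower_off (J : Finset (Finset V)) (k s j m d q : ℕ) (hJ : ∀ X ∈ J, #X = k + 1)
    (hm : #J = m) (hd : ∀ v, #{X ∈ J | v ∈ X} = d) (hk : 1 ≤ k) (hj : 1 ≤ j)
    (hn : Fintype.card V = k + 1 + q) (hq : j + 1 ≤ q) (h : min d (m - d) < (s + j).choose j) :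
    (k + 1) * m ≤ j * #(shadow J) + 2 * (j + 1) ^ 2 * s * m := by
  have h0 := le_shadow_add J k j hJ
  have hdm : (k + 1) * m = Fintype.card V * d := by
    have := sum_deg_nat J (k + 1) hJ
    rwa [sum_congr rfl (fun v _ => hd v), sum_const, card_univ, smul_eq_mul, hm, eq_comm] at this
  rw [hm] at h0
  refine h0.trans (Nat.add_le_add_left ?_ _)
  generalize hP : ∑ Y ∈ shadow J, om j J Y = P
  rcases min_lt_iff.1 h with h | h
  · have a := rich_deg J k s j d hJ hd h
    rw [hP] at a
    apply Nat.le_of_mul_le_mul_left _ hk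
    calc k * P ≤ (j + 1) * s * (Fintype.card V * d) := a.trans_eq (by ring)
      _ = (j + 1) * s * m * (k + 1) := by rw [← hdm]; ring
      _ ≤ (j + 1) * s * m * (2 * (j + 1) * k) := by gcongr; nlinarith
      _ = _ := by ring
  · have he : ∀ v, #{X ∈ J | v ∉ X} = m - d := fun v => by
      have := card_filter_add_card_filter_not (s := J) fun X => v ∈ X
      rw [hd v, hm] at this
      omega
    obtain ⟨r, rfl⟩ : ∃ r, q = j + 1 + r := ⟨q - (j + 1), by omega⟩
    have a := rich_codeg J k s j (m - d) (r + 1) hJ he h hj (by omega)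
    rw [hP] at a
    have b : Fintype.card V * (m - d) = (j + 1 + r) * m := by
      rw [Nat.mul_sub, ← hdm, hn, add_mul (k + 1), Nat.add_sub_cancel_left]
    apply Nat.le_of_mul_le_mul_left _ (Nat.succ_pos r)
    calc (r + 1) * P ≤ 2 * (j + 1) * s * (Fintype.card V * (m - d)) := a.trans_eq (by ring)
      _ = 2 * (j + 1) * s * m * (j + 1 + r) := by rw [b]; ring
      _ ≤ 2 * (j + 1) * s * m * ((j + 1) * (r + 1)) := by gcongr; nlinarith
      _ = _ := by rw [Nat.succ_eq_add_one]; ring

end Pool.Agent.P.MP_4f3dfd_co.Off
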