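import Pool.Agent.P.MP_4f3dfd_co.BFill
import Pool.Agent.P.MP_4f3dfd_co.BNum

set_option autoImplicit false

namespace Pool.Agent.P.MP_4f3dfd_co.Off

open Finset Pool.Agent.P.MP_4f3dfd_co.Asy

/-- Many disjoint cliques and a regular completion. -/
theorem upper_mid (L i : ℕ) (hi : 1 ≤ i) (hL : i + 5 ≤ L) : ∃ K : ℕ, ∀ n k q m d e : ℕ,
    n = k + 1 + q → K ≤ k + 1 → K ≤ q → (k + 1) * m = d * n → d + e = m →
    K * (k + 1 + i).choose (k + 1) ≤ d → K * (k + 1 + i).choose (k + 1) ≤ e →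
    m ≤ n ^ 2 * (k + 1 + i).choose (k + 1) →
    ∃ J : Finset (Finset (Fin n)), (∀ X ∈ J, #X = k + 1) ∧ #J = m ∧
      (∀ v, #{X ∈ J | v ∈ X} = d) ∧
      (#(shadow J) : ℝ) ≤ (1 / (i + 1) + 3 / L) * ((k + 1) * m) := by
  obtain ⟨K0, hK0⟩ := big_choose (i + 2) (4 * (i + 1))
  refine ⟨K0 + 8 * L ^ 3 + 12 * L, ?_⟩
  intro n k q m d e hn hc hq hdm hde hd he hm
  have hA0 : 0 < (k + 1 + i).choose (k + 1) := Nat.choose_pos (by omega)
  have hA1 : (k + 1 + i) * (k + i).choose k = (k + 1 + i).choose (k + 1) * (k + 1) := by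
    rw [show k + 1 + i = k + i + 1 by omega, Nat.add_one_mul_choose_eq]
  have hA2 : (k + 1 + i).choose (k + 1) * (k + 1) = (k + 1 + i).choose k * (i + 1) := by
    rw [Nat.choose_succ_right_eq, show k + 1 + i - k = i + 1 by omega]
  have hL3 : L ≤ L ^ 3 := Nat.le_self_pow (by omega) _
  have hA3 : (k + 1 + i).choose (k + 1) ≤ n ^ i := by
    rw [Nat.choose_symm_add]
    exact (Nat.choose_le_pow _ _).trans (Nat.pow_le_pow_left (by omega) _)
  have hmn : m ≤ n ^ (i + 2) := hm.trans (by rw [pow_add, mul_comm]; gcongr)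
  generalize hA : (k + 1 + i).choose (k + 1) = A at *
  generalize hB : (k + i).choose k = B at *
  -- real parameters
  have iR : (1 : ℝ) ≤ i := by exact_mod_cast hi
  have LR : (i : ℝ) + 5 ≤ L := by exact_mod_cast hL
  have L0 : (0 : ℝ) < L := by linarith
  have nR : (n : ℝ) = k + 1 + q := by exact_mod_cast hn
  have k0 : (0 : ℝ) ≤ k := by positivity
  have cR : 8 * (L : ℝ) ^ 3 ≤ k + 1 := by exact_mod_cast (show 8 * L ^ 3 ≤ k + 1 by omega)
  have qR : 8 * (L : ℝ) ^ 3 ≤ q := by exact_mod_cast (show 8 * L ^ 3 ≤ q by omega)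
  have qR' : 12 * (L : ℝ) ≤ q := by exact_mod_cast (show 12 * L ≤ q by omega)
  have q0 : (0 : ℝ) < q := by linarith
  have n0 : (0 : ℝ) < n := by linarith
  have A0 : (0 : ℝ) < A := by exact_mod_cast hA0
  have dR : 2 * (L : ℝ) ^ 3 * A ≤ d := by
    exact_mod_cast (Nat.mul_le_mul_right A (show 2 * L ^ 3 ≤ _ by omega)).trans hd
  have eR : 2 * (L : ℝ) ^ 3 * A ≤ e := by
    exact_mod_cast (Nat.mul_le_mul_right A (show 2 * L ^ 3 ≤ _ by omega)).trans he
  obtain ⟨ε, hε⟩ : ∃ ε : ℝ, ε = 1 / L := ⟨_, rfl⟩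
  have ε0 : 0 < ε := by rw [hε]; positivity
  have εL : ε * L = 1 := by rw [hε]; field_simp
  have ε4 : ε ≤ 1 / 4 := hε ▸ one_div_le_one_div_of_le (by norm_num) (by linarith only [iR, LR])
  have ε16 : ε ^ 2 ≤ 1 / 16 := by nlinarith only [ε0, ε4]
  have εL3 : ε ^ 2 * L ^ 3 = L := by rw [hε]; field_simp
  obtain ⟨γ, hγ⟩ : ∃ γ : ℝ, k + 1 = γ * n := ⟨(k + 1) / n, by field_simp⟩
  obtain ⟨β, hβ⟩ : ∃ β : ℝ, q = β * n := ⟨q / n, by field_simp⟩
  have γ0 : 0 < γ := pos_of_mul_pos_left (by linarith only [ε0, ε4, hγ]) n0.le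
  have β0 : 0 < β := pos_of_mul_pos_left (by linarith) n0.le
  have γβ : γ + β = 1 := mul_right_cancel₀ n0.ne' (by linarith only [nR, hγ, hβ])
  have hdγ : (d : ℝ) = γ * m := by
    have : ((k : ℝ) + 1) * m = d * n := by exact_mod_cast hdm
    exact mul_right_cancel₀ n0.ne' (by rw [← this, hγ]; ring)
  have heβ : (e : ℝ) = β * m := by
    have : (d : ℝ) + e = m := by exact_mod_cast hde
    rw [show β = 1 - γ by linarith only [γβ]]; linarith only [hdγ, this]
  have m0 : (0 : ℝ) < m := by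
    have : (0 : ℝ) < γ * m := hdγ ▸ lt_of_lt_of_le (by positivity) dR
    exact pos_of_mul_pos_right this γ0.le
  obtain ⟨η, η0, ηγ, ηβ, ηn, ηm⟩ : ∃ η : ℝ, 0 < η ∧ η ≤ ε ^ 2 * γ ∧ η ≤ ε ^ 2 * β ∧
      8 * L ≤ η * n ∧ 2 * A ≤ η * (ε * m) := by
    have key : ∀ x : ℝ, 8 * (L : ℝ) ^ 3 ≤ x * n → 2 * (L : ℝ) ^ 3 * A ≤ x * m →
        8 * L ≤ ε ^ 2 * x * n ∧ 2 * A ≤ ε ^ 2 * x * (ε * m) := by
      intro x h1 h2
      constructor
      · calc 8 * (L : ℝ) = ε ^ 2 * (8 * L ^ 3) := by linear_combination -8 * εL3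
          _ ≤ ε ^ 2 * (x * n) := by gcongr
          _ = _ := by ring
      · calc 2 * (A : ℝ) = ε ^ 3 * (2 * L ^ 3 * A) := by
              rw [show ε ^ 3 * (2 * L ^ 3 * A) = (ε * L) ^ 3 * (2 * A) by ring, εL]; ring
          _ ≤ ε ^ 3 * (x * m) := by gcongr
          _ = _ := by ring
    rcases le_total γ β with h | h
    · exact ⟨ε ^ 2 * γ, by positivity, le_rfl, by gcongr, key γ (hγ ▸ cR) (hdγ ▸ dR)⟩
    · exact ⟨ε ^ 2 * β, by positivity, by gcongr, le_rfl, key β (hβ ▸ qR) (heβ ▸ eR)⟩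
  have η1 : η ≤ 1 := by nlinarith only [ηγ, ε16, γ0, β0, γβ]
  obtain ⟨G, G1, G2⟩ : ∃ G : ℕ, 1 ≤ η * G ∧ η * G ≤ 2 := by
    obtain ⟨a, a1, a2⟩ := ex_nat (x := 1 / η) (by positivity)
    rw [le_div_iff₀ η0] at a1
    rw [div_lt_iff₀ η0] at a2
    refine ⟨a + 1, ?_, ?_⟩ <;> push_cast <;> linarith only [a2, η1, a1]
  have G0 : (0 : ℝ) < G := pos_of_mul_pos_right (by linarith only [ε0, ε4, G1]) η0.le
  have γG : (L : ℝ) ^ 2 ≤ γ * G ∧ (L : ℝ) ^ 2 ≤ β * G := by
    have key : ∀ x : ℝ, η ≤ ε ^ 2 * x → (L : ℝ) ^ 2 ≤ x * G := fun x h => by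
      calc (L : ℝ) ^ 2 ≤ L ^ 2 * (η * G) := le_mul_of_one_le_right (by positivity) G1
        _ ≤ L ^ 2 * (ε ^ 2 * x * G) := by gcongr
        _ = (ε * L) ^ 2 * (x * G) := by ring
        _ = _ := by rw [εL]; ring
    exact ⟨key γ ηγ, key β ηβ⟩
  have L2 : (L : ℝ) ≤ L ^ 2 := by nlinarith only [LR, iR]
  obtain ⟨a, a1, a2⟩ := ex_nat (x := (1 - 2 * ε) * m / (G * A)) (by
    have : 0 ≤ 1 - 2 * ε := by linarith only [ε0, ε4]
    positivity)
  rw [le_div_iff₀ (by positivity)] at a1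
  rw [div_lt_iff₀ (by positivity)] at a2
  have GA : (G : ℝ) * A ≤ ε * m := by
    apply le_of_mul_le_mul_left _ η0
    calc η * (G * A) = η * G * A := by ring
      _ ≤ 2 * A := by gcongr
      _ ≤ _ := ηm
  obtain ⟨u, u1, u2⟩ := ex_nat (x := n / (2 * (i + 1) * G)) (by positivity)
  rw [le_div_iff₀ (by positivity)] at u1
  rw [div_lt_iff₀ (by positivity)] at u2
  have bG : 4 * ((i : ℝ) + 1) * G ≤ n := by
    apply le_of_mul_le_mul_left _ η0
    calc η * (4 * ((i : ℝ) + 1) * G) = 4 * (i + 1) * (η * G) := by ring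
      _ ≤ 4 * L * 2 := by gcongr; linarith only [LR, ε0, ε4]
      _ ≤ _ := by linarith only [ηn]
  obtain ⟨ρ, hρ⟩ : ∃ ρ : ℝ, ρ = (i + 1) * (G * u) := ⟨_, rfl⟩
  have ρ1 : 2 * ρ ≤ n := by rw [hρ]; linarith only [u1]
  have ρ2 : n ≤ 4 * ρ := by rw [hρ]; linarith only [u2, bG]
  have u0 : (1 : ℝ) ≤ u := by
    have : u ≠ 0 := by
      rintro rfl
      rw [hρ] at ρ2
      simp at ρ2
      linarith only [hi, hL, hn, hc, hq, hL3, ρ2]
    exact_mod_cast Nat.pos_of_ne_zero this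
  obtain ⟨τ, τ1, τ2⟩ := ex_nat (x := γ * G - 1) (by linarith only [γG.1, iR, LR, ε0, ε4, γG, L2])
  obtain ⟨θ, hθ⟩ : ∃ θ : ℝ, θ = γ * ρ - (i + 1) * (τ * u) := ⟨_, rfl⟩
  have θe : θ = (i + 1) * u * (γ * G - τ) := by rw [hθ, hρ]; ring
  have θ1 : 2 ≤ θ := by
    rw [θe]
    calc (2 : ℝ) = (1 + 1) * 1 * 1 := by ring
      _ ≤ _ := by gcongr; linarith only [τ1]
  have θ2 : θ ≤ η * n := by
    rw [θe]
    calc ((i : ℝ) + 1) * u * (γ * G - τ) ≤ (i + 1) * u * (2 * (η * G)) := by gcongr; linarith only [G1, τ2]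
      _ = η * (2 * ρ) := by rw [hρ]; ring
      _ ≤ _ := by gcongr
  obtain ⟨r, hr⟩ : ∃ r, (i + 1) * (G * u) + r = n := ⟨n - (i + 1) * (G * u), by
    have : (((i + 1) * (G * u) : ℕ) : ℝ) ≤ n := by push_cast; linarith only [u1]
    have : (i + 1) * (G * u) ≤ n := by exact_mod_cast this
    omega⟩
  have rR : ρ + r = n := by rw [hρ]; exact_mod_cast hr
  have γρ : γ * ρ ≤ γ * n := by gcongr; linarith only [iR, LR, nR, qR', ε0, ε4, u1, hρ]
  obtain ⟨w, hw⟩ : ∃ w, (i + 1) * (τ * u) + w = k + 1 + i := ⟨k + 1 + i - (i + 1) * (τ * u), by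
    have : (((i + 1) * (τ * u) : ℕ) : ℝ) ≤ (k + 1 + i : ℕ) := by push_cast; linarith only [iR, ε0, ε4, hγ, hθ, θ1, γρ]
    have : (i + 1) * (τ * u) ≤ k + 1 + i := by exact_mod_cast this
    omega⟩
  have wR : (w : ℝ) = γ * r + (i + θ) := by
    have : ((i : ℝ) + 1) * (τ * u) + w = k + 1 + i := by exact_mod_cast hw
    rw [hθ, show (r : ℝ) = n - ρ by linarith only [rR]]
    linarith only [hγ, this]
  have r0 : (n : ℝ) ≤ 2 * r := by linarith only [u1, hρ, rR]
  have iθ : i + θ ≤ 4 * η * r := by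
    have : η * n ≤ η * (2 * r) := by gcongr
    linarith only [iR, LR, ε0, ε4, ηn, θ2, this]
  have wr : (w : ℝ) ≤ r := by
    have : 4 * η ≤ β := by nlinarith only [ηβ, ε16, β0]
    have : 4 * η * r ≤ β * r := by gcongr
    rw [wR, show γ = 1 - β by linarith only [γβ]]
    linarith only [iθ, this]
  have τL : i + 2 + 1 ≤ τ := by
    have : (i : ℝ) + 3 < τ + 1 := by linarith only [γG.1, LR, ε0, ε4, γG, L2, τ2]
    have : i + 3 < τ + 1 := by exact_mod_cast this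
    omega
  have τG : τ + (i + 2 + 1) ≤ G := by
    have : (τ : ℝ) + (i + 2 + 1) ≤ G := by
      rw [show γ = 1 - β by linarith only [γβ]] at τ1
      linarith only [γG.2, LR, ε0, ε4, γG, L2, τ1]
    exact_mod_cast this
  have u0' : 1 ≤ u := by exact_mod_cast u0
  have ρ3 : n ≤ 4 * (i + 1) * (G * u) := by
    have : (n : ℝ) ≤ 4 * (i + 1) * (G * u) := by rw [hρ] at ρ2; linarith only [u2, bG]
    exact_mod_cast this
  obtain ⟨M, hM⟩ : ∃ M, G * a * A + M = m := ⟨m - G * a * A, by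
    have : ((G * a * A : ℕ) : ℝ) ≤ m := by push_cast; linarith only [mul_pos ε0 m0, a1, a2, GA]
    have : G * a * A ≤ m := by exact_mod_cast this
    omega⟩
  have MR : (G : ℝ) * a * A + M = m := by exact_mod_cast hM
  have M1 : 2 * ε * m ≤ M := by linarith only [a1, MR]
  have M2 : M ≤ 3 * ε * m := by linarith only [a2, GA, MR]
  have M0 : (0 : ℝ) < M := lt_of_lt_of_le (by positivity) M1
  obtain ⟨J, R, j1, j2, j3, j4, j5, j6, j7⟩ := exists_cliques (V := Fin n) k i (G * a) (G * u)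
    (τ * u) (a * τ) w r (by simpa using hr) (by exact_mod_cast wr) hw
    (le_trans ((Nat.le_mul_of_pos_right _ hA0).trans (by omega)) (hmn.trans (hK0 n _ _ (by omega) ρ3
      (τL.trans (Nat.le_mul_of_pos_right _ u0')) (by nlinarith only [τG, u0']))))
    (by ring)
  rw [hA] at j2
  rw [hB] at j4 j5
  obtain ⟨z, hz⟩ : ∃ z : ℝ, z = (k + 1) / (k + 1 + i) := ⟨_, rfl⟩
  have Bz : (B : ℝ) = A * z := by
    have : ((k : ℝ) + 1 + i) * B = A * (k + 1) := by exact_mod_cast hA1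
    rw [hz]
    field_simp
    linarith only [this]
  have z0 : 0 ≤ z := by rw [hz]; positivity
  have z1 : z ≤ 1 := by rw [hz, div_le_one (by positivity)]; linarith only [iR, ε0, ε4]
  have z2 : 1 - z ≤ ε ^ 2 * β := by
    have e1 : 1 - z = i / (k + 1 + i) := by rw [hz]; field_simp; ring
    rw [e1, div_le_iff₀ (by positivity)]
    have e2 : 4 * (L : ℝ) ^ 3 ≤ β * (k + 1) := by
      rcases le_total γ β with h | h
      · nlinarith only [h, γβ, cR, k0]
      · rw [hγ, show β * (γ * n) = γ * (β * n) by ring, ← hβ]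
        nlinarith only [h, γβ, qR, q0]
    calc (i : ℝ) ≤ ε ^ 2 * (4 * L ^ 3) := by linarith only [iR, LR, ε0, ε4, εL3]
      _ ≤ ε ^ 2 * (β * (k + 1)) := by gcongr
      _ = ε ^ 2 * β * (k + 1) := by ring
      _ ≤ _ := by gcongr; linarith only [ε0, ε4]
  have P1 : (G : ℝ) * a * A ≤ (1 - 2 * ε) * m := by linarith only [a1]
  obtain ⟨b1, b2⟩ := num_block (t := τ / G) γβ β0 ε0 ε4 ηβ m0.le (by positivity) P1
    (by positivity) (by rw [div_le_iff₀ G0]; linarith only [ε0, ε4, τ1]) (by rw [le_div_iff₀ G0]; linarith only [G1, τ2]) z1 z2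
  have De : ((a * τ * B : ℕ) : ℝ) = G * a * A * (τ / G) * z := by
    push_cast
    rw [Bz]
    field_simp
  rw [← De] at b1 b2
  generalize a * τ * B = D at j4 b1 b2
  have εm : 0 < ε * m := by positivity
  have D1 : γ * M ≤ d - D := by rw [hdγ, ← MR]; linarith only [b1]
  have D2 : (d : ℝ) - D ≤ M - ε * (β * m) := by
    rw [hdγ, show γ = 1 - β by linarith only [γβ]]; linarith only [MR, b2]
  have hDd : D ≤ d := by
    have : (D : ℝ) ≤ d := by linarith only [mul_pos γ0 M0, γ0, M0, D1]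
    exact_mod_cast this
  have hrest : ∀ v ∉ R, (#{X ∈ J | v ∈ X} : ℝ) ≤ d ∧ (d : ℝ) ≤ #{X ∈ J | v ∈ X} + M := by
    intro v hv
    obtain ⟨t, t1, t2, t3⟩ := j5 v hv
    have t1' : (r : ℝ) * t ≤ G * a * w + r := by exact_mod_cast t1
    have t2' : (G : ℝ) * a * w ≤ r * (t + 1) := by exact_mod_cast t2
    have r1 : (0 : ℝ) < r := by linarith only [iR, LR, nR, qR', ε0, ε4, u1, hρ, rR]
    have ηε : A ≤ η * m := by nlinarith only [ηm, A0, ε4, mul_pos η0 m0]
    have key : ∀ x : ℝ, 0 < x → η ≤ ε ^ 2 * x → A ≤ ε * (x * m) := fun x x0 h => by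
      calc (A : ℝ) ≤ ε ^ 2 * x * m := ηε.trans (by gcongr)
        _ = ε * (ε * (x * m)) := by ring
        _ ≤ ε * (1 * (x * m)) := by gcongr; linarith only [ε0, ε4]
        _ = _ := by ring
    have w1 : (w : ℝ) ≤ γ * (1 + 4 * ε ^ 2) * r := by
      have : 4 * η * r ≤ 4 * (ε ^ 2 * γ) * r := by gcongr
      linarith only [wR, iθ, this]
    have w2 : γ * r ≤ w := by linarith only [iR, ε0, ε4, θ1, wR]
    obtain ⟨c1, c2⟩ := num_rest (t := t) γβ γ0 β0 ε0 ε4 m0.le (N := G * a) (by positivity) A0.le P1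
      (key γ γ0 ηγ) (key β β0 ηβ)
      (le_of_mul_le_mul_left (by
        have : (G : ℝ) * a * w ≤ G * a * (γ * (1 + 4 * ε ^ 2) * r) := by gcongr
        linarith only [t1', this]) r1)
      (le_of_mul_le_mul_left (by
        have : (G : ℝ) * a * (γ * r) ≤ G * a * w := by gcongr
        linarith only [t2', this]) r1) z0 z1 z2
    rw [t3]
    push_cast
    rw [Bz, hdγ]
    exact ⟨c1, by rw [show γ = 1 - β by linarith only [γβ]]; linarith only [MR, c2]⟩
  have RR : (#R : ℝ) = ρ := by rw [j3, hρ]; push_cast; ring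
  have ρ0 : 0 < ρ := by linarith only [iR, LR, nR, qR', ε0, ε4, u2, bG, hρ]
  have τu : (0 : ℝ) ≤ (i + 1) * (τ * u) := by positivity
  obtain ⟨J', g1, g2, g3, g4⟩ := complete (k + 1) d M D J R j1
    (fun v => by
      by_cases hv : v ∈ R
      · rw [j4 v hv]; exact hDd
      · exact_mod_cast (hrest v hv).1)
    (fun v => by
      by_cases hv : v ∈ R
      · rw [j4 v hv]
        have : (d : ℝ) ≤ D + M := by linarith only [mul_pos ε0 (mul_pos β0 m0), ε0, β0, m0, D2]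
        exact_mod_cast this
      · exact_mod_cast (hrest v hv).2) j4 hDd (by rw [j2, hM, hdm, Fintype.card_fin])
    (by
      have : 2 * (M : ℝ) ≤ (d - D : ℕ) * #R := by
        rw [Nat.cast_sub hDd, RR]
        calc 2 * (M : ℝ) ≤ γ * ρ * M := by gcongr; linarith only [hθ, θ1, τu]
          _ = γ * M * ρ := by ring
          _ ≤ _ := by gcongr
      exact_mod_cast this)
    (fun s s1 s2 => by
      have s1' : ((d : ℝ) - D) * ρ ≤ M * (s + 1) := by
        rw [← Nat.cast_sub hDd, ← RR]; exact_mod_cast s1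
      have s2' : (M : ℝ) * s ≤ (d - D) * ρ + M := by
        rw [← Nat.cast_sub hDd, ← RR]; exact_mod_cast s2
      have s3 : γ * ρ ≤ s + 1 := by
        apply le_of_mul_le_mul_left _ M0
        calc M * (γ * ρ) = γ * M * ρ := by ring
          _ ≤ (d - D) * ρ := by gcongr
          _ ≤ _ := s1'
      have s4 : (i + 1) * (τ * u) + 1 ≤ s := by
        have : ((i : ℝ) + 1) * (τ * u) + 1 ≤ s := by linarith only [hθ, θ1, s3]
        exact_mod_cast this
      have s5 : s + (i + 2 + 1) ≤ #R := by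
        have e1 : 3 * (L : ℝ) ≤ β * ρ := by nlinarith only [ρ2, β0, hβ, qR']
        have e2 : M * (L : ℝ) ≤ ε * (β * m) * ρ := by
          calc M * (L : ℝ) ≤ 3 * ε * m * L := by gcongr
            _ = ε * m * (3 * L) := by ring
            _ ≤ ε * m * (β * ρ) := by gcongr
            _ = _ := by ring
        have e3 : ((d : ℝ) - D) * ρ ≤ (M - ε * (β * m)) * ρ := by gcongr
        have e4 : (s : ℝ) + L ≤ ρ + 1 := le_of_mul_le_mul_left (by linarith only [s2', e2, e3]) M0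
        have : (s : ℝ) + (i + 2 + 1) ≤ #R := by rw [RR]; linarith only [LR, ε0, ε4, e4]
        exact_mod_cast this
      refine ⟨le_trans (by omega) (hmn.trans (hK0 n _ _ (by omega) ?_
        (by nlinarith only [s4, τL, u0', Nat.mul_le_mul τL u0']) s5)),
        fun X hX h => by have := j6 X hX; omega⟩
      rw [j3]
      exact ρ3.trans (Nat.mul_le_mul_left _ (Nat.le_mul_of_pos_left _ (Nat.succ_pos i))))
  refine ⟨J', g1, by rw [g2, j2, hM], g3, ?_⟩
  have f1 : (#(shadow J') : ℝ) ≤ G * a * (k + 1 + i).choose k + (k + 1) * M := by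
    exact_mod_cast g4.trans (Nat.add_le_add_right j7 _)
  have f2 : ((k + 1 + i).choose k : ℝ) = A * (k + 1) / (i + 1) := by
    have : (A : ℝ) * (k + 1) = (k + 1 + i).choose k * (i + 1) := by exact_mod_cast hA2
    rw [this]
    field_simp
  have f3 : (G : ℝ) * a * A ≤ m := by linarith only [a1, a2, GA]
  calc _ ≤ _ := f1
    _ = 1 / (i + 1) * ((k + 1) * (G * a * A)) + (k + 1) * M := by rw [f2]; ring
    _ ≤ 1 / (i + 1) * ((k + 1) * m) + (k + 1) * (3 * ε * m) := by gcongr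
    _ = _ := by rw [hε]; ring

end Pool.Agent.P.MP_4f3dfd_co.Off
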