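import Pool.Agent.P.MP_4f3dfd_co.AFinal
import Pool.Agent.P.MP_4f3dfd_co.BLower
import Pool.Agent.P.MP_4f3dfd_co.BMid
import Pool.Agent.P.MP_4f3dfd_co.BCo

set_option autoImplicit false

namespace Pool.Agent.P.MP_4f3dfd_co.Off

open Finset Pool.Agent.P.MP_4f3dfd_co.Asy

/-- Shadow sizes of regular families. -/
def SR (n c m : ℕ) : Set ℕ := {k : ℕ | ∃ J : Finset (Finset (Fin n)), (∀ X ∈ J, X.card = c) ∧
  J.card = m ∧ (∃ e : ℕ, ∀ i : Fin n, (J.filter (fun X => i ∈ X)).card = e) ∧
  (Finset.shadow J).card = k}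

/-- Shadow sizes of arbitrary families. -/
def SG (n c d : ℕ) : Set ℕ := {k : ℕ | ∃ A : Finset (Finset (Fin n)), (∀ X ∈ A, X.card = c) ∧
  A.card = d ∧ (Finset.shadow A).card = k}

theorem shadow_le_mul {V : Type*} [DecidableEq V] (E : Finset (Finset V)) (c : ℕ)
    (hE : ∀ X ∈ E, #X = c) : #(shadow E) ≤ c * #E := by
  simpa using shadow_union_le ∅ E c hE

/-- Unions of cliques give families of every size with small shadow. -/
theorem exists_chain {n k i e : ℕ} (hn : k + 1 + i ≤ n) (he : e ≤ n.choose (k + 1)) :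
    ∃ s ∈ SG n (k + 1) e, s * (i + 1) ≤ (k + 1) * (e + (k + 1 + i).choose (k + 1) * (i + 1)) := by
  classical
  let P : Finset (Finset (Fin n)) := powersetCard (k + 1 + i) univ
  let F : Finset (Finset (Fin n)) → Finset (Finset (Fin n)) :=
    fun C => C.biUnion (powersetCard (k + 1))
  obtain ⟨C, hC, hmax⟩ := exists_max_image {C ∈ P.powerset | #(F C) ≤ e} card ⟨∅, by simp [F]⟩
  rw [mem_filter, mem_powerset] at hC
  have hF : ∀ X ∈ F C, #X = k + 1 := fun X hX => by
    obtain ⟨Z, -, h⟩ := mem_biUnion.1 hX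
    exact (mem_powersetCard.1 h).2
  have h1 : e ≤ #(F C) + (k + 1 + i).choose (k + 1) := by
    by_cases h : P ⊆ C
    · have : powersetCard (k + 1) univ ⊆ F C := fun X hX => by
        obtain ⟨Z, z1, -, z2⟩ := exists_subsuperset_card_eq (subset_univ X) (n := k + 1 + i)
          (by rw [(mem_powersetCard.1 hX).2]; omega) (by simpa using hn)
        exact mem_biUnion.2 ⟨Z, h (mem_powersetCard.2 ⟨subset_univ _, z2⟩),
          mem_powersetCard.2 ⟨z1, (mem_powersetCard.1 hX).2⟩⟩
      have := card_le_card this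
      rw [card_powersetCard, card_univ, Fintype.card_fin] at this
      omega
    · obtain ⟨Z, z1, z2⟩ := not_subset.1 h
      by_contra hh
      have a1 : #(F (insert Z C)) ≤ e := by
        simp only [F, biUnion_insert]
        refine (card_union_le _ _).trans ?_
        rw [card_powersetCard, (mem_powersetCard.1 z1).2]
        simp only [F] at hh
        omega
      have := hmax (insert Z C) (mem_filter.2 ⟨mem_powerset.2 (insert_subset z1 hC.1), a1⟩)
      rw [card_insert_of_notMem z2] at this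
      omega
  obtain ⟨A, a1, a2, a3⟩ := exists_subsuperset_card_eq (s := F C)
    (t := powersetCard (k + 1) univ) (n := e)
    (fun X hX => mem_powersetCard.2 ⟨subset_univ _, hF X hX⟩) hC.2 (by simpa using he)
  have hA : ∀ X ∈ A, #X = k + 1 := fun X hX => (mem_powersetCard.1 (a2 hX)).2
  refine ⟨_, ⟨A, hA, a3, rfl⟩, ?_⟩
  have b1 := shadow_union_le (F C) (A \ F C) (k + 1) fun X hX => hA X (mem_sdiff.1 hX).1
  rw [union_sdiff_of_subset a1, card_sdiff_of_subset a1, a3] at b1
  have b2 := shadow_mul_le (F C) (k + 1) (i + 1) hF fun Y hY => by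
    obtain ⟨X, hX, hYX, hc⟩ := mem_shadow_iff_exists_mem_card_add_one.1 hY
    obtain ⟨Z, z1, z2⟩ := mem_biUnion.1 hX
    rw [mem_powersetCard] at z2
    have hYZ := hYX.trans z2.1
    have : #(Z \ Y) = i + 1 := by
      rw [card_sdiff_of_subset hYZ, (mem_powersetCard.1 (hC.1 z1)).2]; omega
    rw [← this]
    apply card_le_card_of_injOn (insert · Y)
    · intro a ha
      rw [mem_coe, mem_sdiff] at ha
      exact mem_coe.2 (mem_filter.2 ⟨mem_biUnion.2 ⟨Z, z1, mem_powersetCard.2
        ⟨insert_subset ha.1 hYZ, by rw [card_insert_of_notMem ha.2]; omega⟩⟩, subset_insert _ _⟩)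
    · intro a ha b _ h
      have : a ∈ insert b Y := by
        have h' : insert a Y = insert b Y := h
        rw [← h']; exact mem_insert_self _ _
      exact (mem_insert.1 this).resolve_right (mem_sdiff.1 ha).2
  calc _ ≤ (#(shadow (F C)) + (k + 1) * (k + 1 + i).choose (k + 1)) * (i + 1) := by
        gcongr; exact b1.trans (by gcongr; omega)
    _ ≤ e * (k + 1) + (k + 1) * (k + 1 + i).choose (k + 1) * (i + 1) := by
        rw [add_mul]
        exact Nat.add_le_add_right (b2.trans (Nat.mul_le_mul_right _ hC.2)) _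
    _ = _ := by ring

theorem SR_deg {n c m d s : ℕ} (hdm : c * m = d * n) (h : s ∈ SR n c m) :
    ∃ J : Finset (Finset (Fin n)), (∀ X ∈ J, #X = c) ∧ #J = m ∧
      (∀ v, #{X ∈ J | v ∈ X} = d) ∧ #(shadow J) = s := by
  obtain ⟨J, k1, k2, ⟨d', k3⟩, k4⟩ := h
  refine ⟨J, k1, k2, fun v => ?_, k4⟩
  have := sum_deg_nat J c k1
  rw [sum_congr rfl (fun v _ => k3 v), sum_const, card_univ, Fintype.card_fin, smul_eq_mul,
    k2, hdm, mul_comm] at this
  rw [k3, Nat.eq_of_mul_eq_mul_right v.pos this]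

/-- The bound from the members that avoid a point. -/
theorem colink {n k q m d e f h : ℕ} (hn : n = k + 1 + q) (hdm : (k + 1) * m = d * n)
    (hde : d + e = m) (hf : f ∈ SR n (k + 1) m) (hh : IsLeast (SG n (k + 1) e) h) :
    n * h ≤ (q + 1) * f := by
  obtain ⟨J, j1, j2, j3, rfl⟩ := SR_deg hdm hf
  have key : ∀ v, h ≤ #{Y ∈ shadow J | v ∉ Y} := fun v => by
    refine (hh.2 ⟨{X ∈ J | v ∉ X}, fun X hX => j1 X (mem_filter.1 hX).1, ?_, rfl⟩).trans
      (card_le_card fun Y hY => ?_)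
    · have := card_filter_add_card_filter_not (s := J) fun X => v ∈ X
      rw [j3, j2] at this
      omega
    · obtain ⟨X, hX, a, ha, rfl⟩ := mem_shadow_iff.1 hY
      rw [mem_filter] at hX ⊢
      exact ⟨erase_mem_shadow hX.1 ha, fun h => hX.2 (mem_of_mem_erase h)⟩
  have a1 := sum_le_sum (s := univ) fun v _ => key v
  have a2 := sum_deg_nat (shadow J) k (card_shadow j1)
  have a3 : ∑ v, #{Y ∈ shadow J | v ∈ Y} + ∑ v, #{Y ∈ shadow J | v ∉ Y} = n * #(shadow J) := by
    rw [← sum_add_distrib, sum_congr rfl fun v _ => card_filter_add_card_filter_not _]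
    simp
  rw [sum_const, card_univ, Fintype.card_fin, smul_eq_mul] at a1
  have a4 : n * #(shadow J) = k * #(shadow J) + (q + 1) * #(shadow J) := by
    rw [← add_mul]; congr 1; omega
  omega

theorem SG_lower {n k s j d g : ℕ} (hg : g ∈ SG n (k + 1) d) (h : d < (s + j).choose j) :
    (k + 1) * d ≤ j * g + (j + 1) * s * d := by
  obtain ⟨A, a1, rfl, rfl⟩ := hg
  exact (le_shadow_add A k j a1).trans (Nat.add_le_add_left
    (few_rich k s j _ (card_shadow a1) _ A a1 rfl h) _)

theorem large_c {K c i M : ℕ} (hM : 1 ≤ M) (h1 : i = 0 ∨ K * (c + i).choose i ≤ M)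
    (h2 : K * M ≤ (c + i + 1).choose (i + 1)) : K ≤ c + 1 := by
  rcases h1 with rfl | h1
  · simpa using (Nat.le_mul_of_pos_right K hM).trans h2
  · have a0 : 0 < (c + i).choose i := Nat.choose_pos (by omega)
    have a1 := Nat.add_one_mul_choose_eq (c + i) i
    have a2 : K * K * (i + 1) * (c + i).choose i ≤ (c + i + 1) * (c + i).choose i := by
      calc _ = K * (K * (c + i).choose i) * (i + 1) := by ring
        _ ≤ K * M * (i + 1) := by gcongr
        _ ≤ _ := by rw [a1]; gcongr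
    have a3 := Nat.le_of_mul_le_mul_right a2 a0
    by_contra h
    have : (c + 2) * 2 * (i + 1) ≤ K * K * (i + 1) := by gcongr <;> omega
    nlinarith

/-- The upper bound between two powers. -/
theorem upper_off (i : ℕ) {δ : ℝ} (hδ : 0 < δ) : ∃ K : ℕ, ∀ n k q m d e f : ℕ,
    n = k + 1 + q → 1 ≤ m → m ≤ n.choose (k + 1) → (k + 1) * m = d * n → d + e = m → i + 1 ≤ q →
    (i = 0 ∨ K * (k + 1 + i).choose i ≤ min d e) → K ≤ k + 2 →
    min d e ≤ (k + 1 + i + 1).choose (i + 1) → IsLeast (SR n (k + 1) m) f →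
    (f : ℝ) * (i + 1) ≤ (1 + δ) * ((k + 1) * m) := by
  rcases Nat.eq_zero_or_pos i with rfl | hi
  · refine ⟨0, fun n k q m d e f _ _ _ _ _ _ _ _ _ hf => ?_⟩
    obtain ⟨J, j1, rfl, -, rfl⟩ := hf.1
    have : (#(shadow J) : ℝ) ≤ (k + 1) * #J := by exact_mod_cast shadow_le_mul J _ j1
    have : (0 : ℝ) ≤ δ * ((k + 1) * #J) := by positivity
    push_cast
    linarith
  obtain ⟨L, hL⟩ := exists_nat_ge (3 * (i + 1) / δ + (i + 5))
  have i0 : (0 : ℝ) ≤ i := by positivity
  have hL0 : (0 : ℝ) ≤ 3 * (i + 1) / δ := by positivity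
  have hL1 : i + 5 ≤ L := by exact_mod_cast (show (i : ℝ) + 5 ≤ L by linarith)
  have L0 : (0 : ℝ) < L := by linarith
  have hL2 : 3 * ((i : ℝ) + 1) ≤ δ * L := by
    rw [mul_comm δ, ← div_le_iff₀ hδ]; linarith
  obtain ⟨K1, hK1⟩ := upper_mid L i hi hL1
  refine ⟨(K1 + 1) * L, fun n k q m d e f hn hm1 hm hdm hde hq h1 hK h2 hf => ?_⟩
  have h3 := h1.resolve_left hi.ne'
  rw [← Nat.choose_symm_add] at h3
  have hqe : q * m = e * n := by
    have : (k + 1) * m + q * m = d * n + e * n := by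
      rw [← add_mul, ← add_mul, ← hn, hde, mul_comm]
    omega
  have hK' : K1 + 1 ≤ (K1 + 1) * L := Nat.le_mul_of_pos_right _ (by omega)
  have cm0 : (0 : ℝ) ≤ (k + 1) * m := by positivity
  by_cases hqK : K1 ≤ q
  · have a1 : K1 * (k + 1 + i).choose (k + 1) ≤ min d e :=
      (Nat.mul_le_mul_right _ (by omega)).trans h3
    obtain ⟨J, j1, j2, j3, j4⟩ := hK1 n k q m d e hn (by omega) hqK hdm hde
      (a1.trans (min_le_left _ _)) (a1.trans (min_le_right _ _)) (by
        have b1 : m ≤ min d e * n := by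
          rw [min_mul, ← hdm, ← hqe]
          exact le_min (Nat.le_mul_of_pos_left _ (by omega)) (Nat.le_mul_of_pos_left _ (by omega))
        have b2 := Nat.add_one_mul_choose_eq (k + 1 + i) i
        rw [← Nat.choose_symm_add] at b2
        have b3 : (k + 1 + i + 1).choose (i + 1) ≤ n * (k + 1 + i).choose (k + 1) :=
          (Nat.le_mul_of_pos_right _ i.succ_pos).trans (b2 ▸ Nat.mul_le_mul_right _ (by omega))
        calc m ≤ n * (k + 1 + i).choose (k + 1) * n := b1.trans (by gcongr; exact h2.trans b3)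
          _ = _ := by ring)
    have a2 : (f : ℝ) ≤ #(shadow J) := by exact_mod_cast hf.2 ⟨J, j1, j2, ⟨d, j3⟩, rfl⟩
    have a3 : 3 / (L : ℝ) * (i + 1) ≤ δ := by
      rw [div_mul_eq_mul_div, div_le_iff₀ L0]; exact hL2
    calc _ ≤ (1 / (i + 1) + 3 / L) * ((k + 1) * m) * ((i : ℝ) + 1) := by gcongr; exact a2.trans j4
      _ = (1 + 3 / L * (i + 1)) * ((k + 1) * m) := by field_simp
      _ ≤ _ := by gcongr
  · have : NeZero n := ⟨by omega⟩
    obtain ⟨J, j1, j2, j3, j4⟩ := upper_cl (n := n) k (k + 1 + i) m d (by omega) (by omega) hm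
      hm1 hdm
    have a2 : (f : ℝ) ≤ #(shadow J) := by exact_mod_cast hf.2 ⟨J, j1, j2, ⟨d, j3⟩, rfl⟩
    have a3 : L * (n * (k + 1 + i).choose (k + 1)) ≤ m := by
      apply Nat.le_of_mul_le_mul_left (c := K1 + 1) _ (by omega)
      calc _ = (K1 + 1) * L * (k + 1 + i).choose (k + 1) * n := by ring
        _ ≤ e * n := Nat.mul_le_mul_right _ (h3.trans (min_le_right _ _))
        _ ≤ _ := by rw [← hqe]; gcongr; omega
    have a4 : (k + 1 + i - 1).choose k ≤ (k + 1 + i).choose (k + 1) := by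
      rw [show k + 1 + i = k + i + 1 by omega, Nat.choose_succ_succ']
      exact Nat.le_add_right _ _
    have a5 : k + 1 ≤ (k + 1 + i).choose (k + 1) := by
      have := Nat.choose_le_choose (k + 1) (show k + 1 + 1 ≤ k + 1 + i by omega)
      rw [Nat.choose_succ_self_right] at this
      omega
    have a6 : (L : ℝ) * (n * (k + 1 + i - 1).choose k) ≤ m := by
      exact_mod_cast le_trans (by gcongr) a3
    have a7 : (L : ℝ) * (n * (k + 1)) ≤ m := by exact_mod_cast le_trans (by gcongr) a3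
    rw [show ((k + 1 + i : ℕ) : ℝ) - k = i + 1 by push_cast; ring] at j4
    apply le_of_mul_le_mul_left _ L0
    calc L * ((f : ℝ) * (i + 1)) ≤ L * ((k + 1) * (m + n * (k + 1 + i - 1).choose k) +
          (k + 1) ^ 2 * n * (i + 1)) := by gcongr; exact le_trans (by gcongr) j4
      _ = L * ((k + 1) * m) + (k + 1) * (L * (n * (k + 1 + i - 1).choose k)) +
          (k + 1) * (L * (n * (k + 1))) * (i + 1) := by ring
      _ ≤ L * ((k + 1) * m) + (k + 1) * m + (k + 1) * m * (i + 1) := by gcongr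
      _ = (L + (i + 2)) * ((k + 1) * m) := by ring
      _ ≤ (L + δ * L) * ((k + 1) * m) := by gcongr; linarith
      _ = _ := by ring

end Pool.Agent.P.MP_4f3dfd_co.Off
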