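import Pool.Agent.P.MP_4f3dfd_co.Lower
import Pool.Agent.P.MP_4f3dfd_co.Round

set_option autoImplicit false
set_option linter.unusedSectionVars false

namespace Pool.Agent.P.MP_4f3dfd_co

open Finset

variable {V : Type*} [Fintype V] [DecidableEq V]

theorem sum_pairs (K : Finset (Finset V)) (hK : ∀ Y ∈ K, #Y = 2) (F : Finset V → ℝ) :
    ∑ x, ∑ y, (if ({x, y} : Finset V) ∈ K then F {x, y} else 0) = 2 * ∑ Y ∈ K, F Y := by
  have e : ∀ x y : V, (if ({x, y} : Finset V) ∈ K then F {x, y} else 0) =
      ∑ Y ∈ K, if ({x, y} : Finset V) = Y then F Y else 0 := by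
    intro x y
    rw [Finset.sum_ite_eq]
  simp_rw [e]
  rw [← Fintype.sum_prod_type', Finset.sum_comm, Finset.mul_sum]
  apply Finset.sum_congr rfl
  intro Y hY
  obtain ⟨a, b, hab, rfl⟩ := Finset.card_eq_two.mp (hK Y hY)
  rw [← Finset.sum_filter]
  have : (Finset.univ.filter fun p : V × V => ({p.1, p.2} : Finset V) = {a, b}) =
      {(a, b), (b, a)} := by
    ext ⟨x, y⟩
    simp only [Finset.mem_filter, Finset.mem_univ, true_and, Finset.mem_insert,
      Finset.mem_singleton, Prod.mk.injEq]
    constructor
    · intro h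
      have hx : x ∈ ({a, b} : Finset V) := h ▸ Finset.mem_insert_self _ _
      have hy : y ∈ ({a, b} : Finset V) := h ▸ by simp
      have ha : a ∈ ({x, y} : Finset V) := h ▸ Finset.mem_insert_self _ _
      have hb : b ∈ ({x, y} : Finset V) := h ▸ by simp
      simp only [Finset.mem_insert, Finset.mem_singleton] at hx hy ha hb
      grind
    · rintro (⟨rfl, rfl⟩ | ⟨rfl, rfl⟩)
      · rfl
      · exact Finset.pair_comm _ _
  rw [this, Finset.sum_const, Finset.card_pair (by simp [hab])]
  simp

theorem sum_link (J : Finset (Finset V)) (hJ : ∀ X ∈ J, #X = 3) (F : Finset V → ℝ) (x : V) :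
    ∑ y, ∑ z, (if ({x, y, z} : Finset V) ∈ J then F {x, y, z} else 0) =
      2 * ∑ X ∈ J with x ∈ X, F X := by
  have h := sum_pairs ((J.filter (fun X => x ∈ X)).image (fun X => X.erase x))
    (by
      intro Y hY
      obtain ⟨X, hX, rfl⟩ := Finset.mem_image.mp hY
      rw [Finset.mem_filter] at hX
      rw [Finset.card_erase_of_mem hX.2, hJ X hX.1])
    (fun Y => F (insert x Y))
  rw [Finset.sum_image] at h
  · have e : ∑ X ∈ J with x ∈ X, F (insert x (X.erase x)) = ∑ X ∈ J with x ∈ X, F X := by
      apply Finset.sum_congr rfl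
      intro X hX
      rw [Finset.insert_erase (Finset.mem_filter.mp hX).2]
    rw [e] at h
    rw [← h]
    apply Finset.sum_congr rfl
    intro y _
    apply Finset.sum_congr rfl
    intro z _
    have : ({x, y, z} : Finset V) ∈ J ↔
        ({y, z} : Finset V) ∈ (J.filter (fun X => x ∈ X)).image (fun X => X.erase x) := by
      constructor
      · intro hm
        refine Finset.mem_image.mpr ⟨_, Finset.mem_filter.mpr ⟨hm, by simp⟩, ?_⟩
        apply Finset.erase_insert
        intro hx
        have h3 := hJ _ hm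
        rw [Finset.insert_eq_of_mem hx] at h3
        have := Finset.card_le_two (a := y) (b := z)
        omega
      · intro hm
        obtain ⟨X, hX, hXe⟩ := Finset.mem_image.mp hm
        rw [Finset.mem_filter] at hX
        rw [← hXe, Finset.insert_erase hX.2]
        exact hX.1
    simp only [this]
  · intro X hX Y hY hXY
    simp only [Finset.coe_filter, Set.mem_ofPred_eq] at hX hY
    rw [← Finset.insert_erase hX.2, ← Finset.insert_erase hY.2]
    simp only at hXY
    rw [hXY]

theorem shadow_card_two (J : Finset (Finset V)) (hJ : ∀ X ∈ J, #X = 3) :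
    ∀ Y ∈ shadow J, #Y = 2 := by
  intro Y hY
  obtain ⟨X, hX, a, ha, rfl⟩ := Finset.mem_shadow_iff.mp hY
  rw [Finset.card_erase_of_mem ha, hJ X hX]

theorem pair_mem_shadow (J : Finset (Finset V)) (hJ : ∀ X ∈ J, #X = 3) (x y z : V)
    (h : ({x, y, z} : Finset V) ∈ J) : ({y, z} : Finset V) ∈ shadow J := by
  have hx : x ∉ ({y, z} : Finset V) := by
    intro hx
    have h3 := hJ _ h
    rw [Finset.insert_eq_of_mem hx] at h3
    have := Finset.card_le_two (a := y) (b := z)
    omega
  exact Finset.mem_shadow_iff_insert_mem.mpr ⟨x, hx, h⟩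

theorem E2_eq [Nonempty V] (f : V → V → ℝ) :
    E2 f = (∑ x, ∑ y, f x y) / (Fintype.card V : ℝ) ^ 2 := by
  simp only [E2, E, ← Finset.sum_div]
  rw [div_div, sq]

/-- A regular triple system gives a `Setup`. -/
theorem setup_of_regular [Nonempty V] (J : Finset (Finset V)) (hJ : ∀ X ∈ J, #X = 3) (d : ℕ)
    (hd : ∀ v, #{X ∈ J | v ∈ X} = d) :
    ∃ (W : V → V → ℝ) (h : V → V → V → ℝ), Setup W h (2 * d / (Fintype.card V : ℝ) ^ 2) ∧
      E2 W = 2 * #(shadow J) / (Fintype.card V : ℝ) ^ 2 := by
  refine ⟨fun x y => if ({x, y} : Finset V) ∈ shadow J then 1 else 0,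
    fun x y z => if ({x, y, z} : Finset V) ∈ J then 1 else 0, ⟨?_, ?_, ?_, ?_, ?_, ?_, ?_, ?_⟩, ?_⟩
  · intro x y
    simp only [Finset.pair_comm x y]
  · intro x y
    split_ifs <;> norm_num
  · intro x y
    split_ifs <;> norm_num
  · intro x y z
    simp only [Finset.insert_comm x y]
  · intro x y z
    simp only [Finset.pair_comm y z]
  · intro x y z
    split_ifs <;> norm_num
  · intro x y z
    by_cases hm : ({x, y, z} : Finset V) ∈ J
    · have h1 := pair_mem_shadow J hJ x y z hm
      have h2 := pair_mem_shadow J hJ y x z (by rwa [Finset.insert_comm y x])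
      have h3 := pair_mem_shadow J hJ z x y (by
        rwa [Finset.insert_comm z x, Finset.pair_comm z y])
      simp [hm, h1, h2, h3]
    · simp only [hm, if_false]
      split_ifs <;> norm_num
  · intro x
    rw [E2_eq]
    have := sum_link J hJ (fun _ => 1) x
    simp only [Finset.sum_const, hd x, nsmul_eq_mul, mul_one] at this
    rw [this]
  · rw [E2_eq]
    have := sum_pairs (shadow J) (shadow_card_two J hJ) (fun _ => 1)
    simp only [Finset.sum_const, nsmul_eq_mul, mul_one] at this
    rw [this]

/-- A symmetric fractional regular weighting of the triangles of a graph gives a regular triple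
system with a small shadow. -/
theorem exists_regular_of_sym (G : V → V → Prop) [DecidableRel G] (hirr : ∀ x, ¬ G x x)
    (w : V → V → V → ℝ) (h12 : ∀ x y z, w x y z = w y x z) (h23 : ∀ x y z, w x y z = w x z y)
    (hw : ∀ x y z, 0 ≤ w x y z ∧ w x y z ≤ 1) (hG : ∀ x y z, w x y z ≠ 0 → G x y)
    (d m : ℕ) (hdm : 3 * m = d * Fintype.card V) (hdeg : ∀ x, ∑ y, ∑ z, w x y z = 2 * d) :
    ∃ J : Finset (Finset V), (∀ X ∈ J, #X = 3) ∧ #J = m ∧ (∀ v, #{X ∈ J | v ∈ X} = d) ∧
      2 * (#(shadow J) : ℝ) ≤ ∑ x, ∑ y, (if G x y then (1 : ℝ) else 0) + 18 * Fintype.card V := by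
  let T : Finset (Finset V) :=
    (Finset.powersetCard 3 Finset.univ).filter (fun X => ∀ x ∈ X, ∀ y ∈ X, x ≠ y → G x y)
  let w' : Finset V → ℝ := fun X => (∑ x ∈ X, ∑ y ∈ X, ∑ z ∈ X, w x y z) / 6
  have hT : ∀ X ∈ T, #X = 3 := fun X hX =>
    (Finset.mem_powersetCard.mp (Finset.mem_filter.mp hX).1).2
  have z1 : ∀ x z, w x x z = 0 := fun x z => by
    by_contra hne
    exact hirr x (hG x x z hne)
  have z2 : ∀ x z, w x z x = 0 := fun x z => by rw [h23, z1]
  have z3 : ∀ x z, w z x x = 0 := fun x z => by rw [h12, z2]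
  have hw' : ∀ a b c : V, a ≠ b → a ≠ c → b ≠ c → w' {a, b, c} = w a b c := by
    intro a b c hab hac hbc
    simp only [w']
    have s3 : ∀ f : V → ℝ, ∑ x ∈ ({a, b, c} : Finset V), f x = f a + f b + f c := by
      intro f
      rw [Finset.sum_insert (by simp [hab, hac]), Finset.sum_pair hbc]
      ring
    simp only [s3, z1, z2, z3]
    have e1 : w a c b = w a b c := (h23 a b c).symm
    have e2 : w b a c = w a b c := (h12 a b c).symm
    have e3 : w b c a = w a b c := by rw [h23 b c a, e2]
    have e4 : w c a b = w a b c := by rw [h12 c a b, e1]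
    have e5 : w c b a = w a b c := by rw [h12 c b a, e3]
    rw [e1, e2, e3, e4, e5]
    ring
  have hkey : ∀ x y z, (if ({x, y, z} : Finset V) ∈ T then w' {x, y, z} else 0) = w x y z := by
    intro x y z
    split_ifs with hm
    · have h3 := hT _ hm
      have hxy : x ≠ y := by
        rintro rfl
        rw [Finset.insert_eq_of_mem (by simp)] at h3
        have := Finset.card_le_two (a := x) (b := z)
        omega
      have hxz : x ≠ z := by
        rintro rfl
        rw [Finset.insert_eq_of_mem (by simp)] at h3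
        have := Finset.card_le_two (a := y) (b := x)
        omega
      have hyz : y ≠ z := by
        rintro rfl
        rw [Finset.pair_eq_singleton] at h3
        have := Finset.card_le_two (a := x) (b := y)
        omega
      exact hw' x y z hxy hxz hyz
    · by_contra hne
      have hne' : w x y z ≠ 0 := fun h => hne h.symm
      apply hm
      have g1 : G x y := hG x y z hne'
      have g2 : G y x := hG y x z (by rwa [← h12])
      have g3 : G x z := hG x z y (by rwa [← h23])
      have g4 : G z x := hG z x y (by rwa [h12, ← h23])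
      have g5 : G y z := hG y z x (by rwa [← h23, ← h12])
      have g6 : G z y := hG z y x (by rwa [h12, ← h23, ← h12])
      have hxy : x ≠ y := by rintro rfl; exact hirr _ g1
      have hxz : x ≠ z := by rintro rfl; exact hirr _ g3
      have hyz : y ≠ z := by rintro rfl; exact hirr _ g5
      refine Finset.mem_filter.mpr ⟨Finset.mem_powersetCard.mpr ⟨Finset.subset_univ _, ?_⟩, ?_⟩
      · exact Finset.card_eq_three.mpr ⟨x, y, z, hxy, hxz, hyz, rfl⟩
      · intro a ha b hb hab
        simp only [Finset.mem_insert, Finset.mem_singleton] at ha hb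
        rcases ha with rfl | rfl | rfl <;> rcases hb with rfl | rfl | rfl <;>
          first | assumption | exact absurd rfl hab
  obtain ⟨J, g1, g2, g3, g4⟩ := exists_regular_of_fractional T 3 (by norm_num) hT w'
    (by
      intro X hX
      obtain ⟨a, b, c, hab, hac, hbc, rfl⟩ := Finset.card_eq_three.mp (hT X hX)
      rw [hw' a b c hab hac hbc]
      exact hw a b c) d m hdm
    (by
      intro v
      have := sum_link T hT w' v
      simp only [hkey, hdeg v] at this
      linarith)
  refine ⟨J, g1, g2, g3, ?_⟩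
  have a1 := sum_pairs (shadow T) (shadow_card_two T hT) (fun _ => 1)
  simp only [Finset.sum_const, nsmul_eq_mul, mul_one] at a1
  have a2 : ∑ x, ∑ y, (if ({x, y} : Finset V) ∈ shadow T then (1 : ℝ) else 0) ≤
      ∑ x, ∑ y, (if G x y then (1 : ℝ) else 0) := by
    apply Finset.sum_le_sum; intro x _
    apply Finset.sum_le_sum; intro y _
    by_cases hm : ({x, y} : Finset V) ∈ shadow T
    · have hxy : x ≠ y := by
        rintro rfl
        have := shadow_card_two T hT _ hm
        simp at this
      obtain ⟨X, hX, hsub⟩ := Finset.exists_subset_of_mem_shadow hm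
      have : G x y := (Finset.mem_filter.mp hX).2 x (hsub (by simp)) y (hsub (by simp)) hxy
      simp [hm, this]
    · simp only [hm, if_false]
      split_ifs <;> norm_num
  have a3 : (#(shadow J) : ℝ) ≤ #(shadow T) + 3 * (3 * Fintype.card V) := by exact_mod_cast g4
  linarith

end Pool.Agent.P.MP_4f3dfd_co
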