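import Pool.Agent.P.MP_4f3dfd_co.Bridge

set_option autoImplicit false
set_option linter.unusedSectionVars false

namespace Pool.Agent.P.MP_4f3dfd_co

open Finset

/-- transport of `exists_regular_of_sym` to `Fin n` -/
theorem exists_regular_fin {V : Type*} [Fintype V] [DecidableEq V] (n : ℕ)
    (hn : Fintype.card V = n) (G : V → V → Prop) [DecidableRel G] (hirr : ∀ x, ¬ G x x)
    (w : V → V → V → ℝ) (h12 : ∀ x y z, w x y z = w y x z) (h23 : ∀ x y z, w x y z = w x z y)
    (hw : ∀ x y z, 0 ≤ w x y z ∧ w x y z ≤ 1) (hG : ∀ x y z, w x y z ≠ 0 → G x y)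
    (d m : ℕ) (hdm : 3 * m = d * n) (hdeg : ∀ x, ∑ y, ∑ z, w x y z = 2 * d) :
    ∃ J : Finset (Finset (Fin n)), (∀ X ∈ J, #X = 3) ∧ #J = m ∧ (∀ v, #{X ∈ J | v ∈ X} = d) ∧
      2 * (#(shadow J) : ℝ) ≤ ∑ x, ∑ y, (if G x y then (1 : ℝ) else 0) + 18 * n := by
  let e : Fin n ≃ V := (Fintype.equivFinOfCardEq hn).symm
  obtain ⟨J, h1, h2, h3, h4⟩ := exists_regular_of_sym (V := Fin n) (fun x y => G (e x) (e y))
    (fun x => hirr _) (fun x y z => w (e x) (e y) (e z)) (fun x y z => h12 _ _ _)
    (fun x y z => h23 _ _ _) (fun x y z => hw _ _ _) (fun x y z => hG _ _ _) d m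
    (by simpa using hdm)
    (by
      intro x
      rw [← hdeg (e x), ← Equiv.sum_comp e]
      apply Finset.sum_congr rfl
      intro y _
      rw [← Equiv.sum_comp e])
  refine ⟨J, h1, h2, h3, ?_⟩
  rw [← Equiv.sum_comp e]
  have : ∀ x, ∑ y, (if G (e x) y then (1 : ℝ) else 0) =
      ∑ y, (if G (e x) (e y) then (1 : ℝ) else 0) := fun x => by rw [← Equiv.sum_comp e]
  simp only [this]
  simpa using h4

section sums
variable {A : Type*} [Fintype A] [DecidableEq A]

/-- indicator of being different -/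
def ne1 (x y : A) : ℝ := if x = y then 0 else 1

theorem ne1_comm (x y : A) : ne1 x y = ne1 y x := by simp only [ne1, eq_comm]

theorem sum_mul_ne1 (f : A → ℝ) (x : A) : ∑ y, f y * ne1 x y = ∑ y, f y - f x := by
  have : ∀ y, f y * ne1 x y = f y - (if x = y then f y else 0) := by
    intro y
    simp only [ne1]
    split_ifs <;> simp
  simp only [this, Finset.sum_sub_distrib, Finset.sum_ite_eq, Finset.mem_univ, if_true]

theorem sum_ne1 (x : A) : ∑ y, ne1 x y = Fintype.card A - 1 := by
  have := sum_mul_ne1 (fun _ => (1 : ℝ)) x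
  simpa using this

theorem sum_sum_ne1 : ∑ x : A, ∑ y, ne1 x y = Fintype.card A * (Fintype.card A - 1) := by
  simp only [sum_ne1, Finset.sum_const, Finset.card_univ, nsmul_eq_mul]

theorem sum_pair_ne1 (f : A → ℝ) (hf : ∀ y, f y * f y = f y) :
    ∑ y, ∑ z, f y * f z * ne1 y z = (∑ y, f y) * (∑ y, f y - 1) := by
  have : ∀ y, ∑ z, f y * f z * ne1 y z = f y * (∑ y, f y - 1) := by
    intro y
    simp only [mul_assoc, ← Finset.mul_sum, sum_mul_ne1]
    rw [mul_sub, mul_sub, hf, mul_one]
  simp only [this, ← Finset.sum_mul]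

theorem ne1_mul_self (x y : A) : ne1 x y * ne1 x y = ne1 x y := by
  simp only [ne1]
  split_ifs <;> simp

theorem sum_tri_ne1 (x : A) :
    ∑ y, ∑ z, ne1 x y * ne1 x z * ne1 y z = (Fintype.card A - 1) * (Fintype.card A - 2) := by
  rw [sum_pair_ne1 (ne1 x) (ne1_mul_self x), sum_ne1]
  ring

end sums

section construct
variable {A R B : Type} [Fintype A] [DecidableEq A] [Fintype R] [DecidableEq R]
  [Fintype B] [DecidableEq B]

/-- adjacency weights of the three-part graph -/
def I1 (e : R → B → ℝ) : A ⊕ R ⊕ B → A ⊕ R ⊕ B → ℝ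
  | .inl a, .inl a' => ne1 a a'
  | .inl _, .inr (.inl _) => 1
  | .inl _, .inr (.inr _) => 0
  | .inr (.inl _), .inl _ => 1
  | .inr (.inl _), .inr (.inl _) => 0
  | .inr (.inl i), .inr (.inr j) => e i j
  | .inr (.inr _), .inl _ => 0
  | .inr (.inr j), .inr (.inl i) => e i j
  | .inr (.inr j), .inr (.inr j') => ne1 j j'

def uA : A ⊕ R ⊕ B → ℝ
  | .inl _ => 1
  | .inr (.inl _) => 1
  | .inr (.inr _) => 0

def uB : A ⊕ R ⊕ B → ℝ
  | .inl _ => 0
  | .inr (.inl _) => 1
  | .inr (.inr _) => 1

noncomputable def fA (p3 : ℝ) (p1 : R → ℝ) : A ⊕ R ⊕ B → ℝ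
  | .inl _ => p3 / 3
  | .inr (.inl i) => p1 i - 2 * (p3 / 3)
  | .inr (.inr _) => 0

noncomputable def fB (p4 : ℝ) (p2 : R → ℝ) : A ⊕ R ⊕ B → ℝ
  | .inl _ => 0
  | .inr (.inl i) => p2 i - 2 * (p4 / 3)
  | .inr (.inr _) => p4 / 3

noncomputable def w1 (e : R → B → ℝ) (p3 p4 : ℝ) (p1 p2 : R → ℝ) (x y z : A ⊕ R ⊕ B) : ℝ :=
  I1 e x y * I1 e x z * I1 e y z *
    (uA x * uA y * uA z * (fA p3 p1 x + fA p3 p1 y + fA p3 p1 z) +
     uB x * uB y * uB z * (fB p4 p2 x + fB p4 p2 y + fB p4 p2 z))

theorem I1_comm (e : R → B → ℝ) (x y : A ⊕ R ⊕ B) : I1 e x y = I1 e y x := by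
  rcases x with x | x | x <;> rcases y with y | y | y <;> simp [I1, ne1_comm]

theorem construct1 (n : ℕ) (e : R → B → ℝ) (he : ∀ i j, e i j = 0 ∨ e i j = 1)
    (hn : Fintype.card A + Fintype.card R + Fintype.card B = n)
    (p3 p4 : ℝ) (p1 p2 : R → ℝ) (h3 : 0 ≤ p3 ∧ p3 ≤ 1) (h4 : 0 ≤ p4 ∧ p4 ≤ 1)
    (h1 : ∀ i, 0 ≤ p1 i ∧ p1 i ≤ 1) (h2 : ∀ i, 0 ≤ p2 i ∧ p2 i ≤ 1)
    (d m : ℕ) (hdm : 3 * m = d * n)
    (hA : ((Fintype.card A : ℝ) - 1) * (Fintype.card A - 2) * p3 +
      2 * ((Fintype.card A - 1) * ∑ i, p1 i) = 2 * d)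
    (hR : ∀ i, (Fintype.card A : ℝ) * (Fintype.card A - 1) * p1 i +
      (∑ j, e i j) * (∑ j, e i j - 1) * p2 i = 2 * d)
    (hB : ∀ j, ((Fintype.card B : ℝ) - 1) * (Fintype.card B - 2) * p4 +
      2 * ∑ i, e i j * ((∑ j, e i j - 1) * p2 i) = 2 * d) :
    ∃ J : Finset (Finset (Fin n)), (∀ X ∈ J, #X = 3) ∧ #J = m ∧ (∀ v, #{X ∈ J | v ∈ X} = d) ∧
      2 * (#(shadow J) : ℝ) ≤ (Fintype.card A : ℝ) * (Fintype.card A - 1) +
        2 * (Fintype.card A * Fintype.card R) + 2 * ∑ i, ∑ j, e i j +
        (Fintype.card B : ℝ) * (Fintype.card B - 1) + 18 * n := by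
  classical
  have hI : ∀ x y : A ⊕ R ⊕ B, I1 e x y = 0 ∨ I1 e x y = 1 := by
    intro x y
    rcases x with x | x | x <;> rcases y with y | y | y <;> simp [I1, ne1, he]
    all_goals exact em _
  have hee : ∀ i j, e i j * e i j = e i j := fun i j => by
    rcases he i j with h | h <;> simp [h]
  obtain ⟨J, g1, g2, g3, g4⟩ := exists_regular_fin (V := A ⊕ R ⊕ B) n
    (by simp [← hn, add_assoc]) (fun x y => I1 e x y = 1)
    (by
      intro x
      rcases x with x | x | x <;> simp [I1, ne1])
    (w1 e p3 p4 p1 p2)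
    (by
      intro x y z
      simp only [w1]
      rw [I1_comm e y x]
      ring)
    (by
      intro x y z
      simp only [w1]
      rw [I1_comm e z y]
      ring)
    (by
      intro x y z
      simp only [w1]
      rcases hI x y with a | a
      · simp [a]
      rcases hI x z with b | b
      · simp [b]
      rcases hI y z with c | c
      · simp [c]
      rw [a, b, c]
      rcases x with x | x | x <;> rcases y with y | y | y <;> rcases z with z | z | z <;>
        simp only [I1, zero_ne_one] at a b c <;> simp only [uA, uB, fA, fB] <;>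
        constructor <;>
        first
          | linarith [h3.1, h3.2, h4.1, h4.2]
          | linarith [(h1 x).1, (h1 x).2, (h2 x).1, (h2 x).2]
          | linarith [(h1 y).1, (h1 y).2, (h2 y).1, (h2 y).2]
          | linarith only [(h1 z).1, (h1 z).2, (h2 z).1, (h2 z).2])
    (by
      intro x y z hne
      rcases hI x y with a | a
      · exfalso
        apply hne
        simp [w1, a]
      · exact a)
    d m hdm
    (by
      intro x
      rcases x with x | x | x
      · rw [← hA, ← sum_tri_ne1 x, ← sum_ne1 x]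
        simp only [Fintype.sum_sum_type, w1, I1, uA, uB, fA, fB, Finset.sum_add_distrib,
          mul_zero, zero_mul, Finset.sum_const_zero, add_zero, mul_one, one_mul, zero_add]
        have e1 : ∀ y z : A, ne1 x y * ne1 x z * ne1 y z * (p3 / 3 + p3 / 3 + p3 / 3) =
            ne1 x y * ne1 x z * ne1 y z * p3 := fun y z => by ring
        have e2 : ∀ (y : A) (i : R), ne1 x y * (p3 / 3 + p3 / 3 + (p1 i - 2 * (p3 / 3))) =
            ne1 x y * p1 i := fun y z => by ring
        have e3 : ∀ (y : A) (i : R), ne1 x y * (p3 / 3 + (p1 i - 2 * (p3 / 3)) + p3 / 3) =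
            ne1 x y * p1 i := fun y z => by ring
        simp only [e1, e2, e3, ← Finset.sum_mul, ← Finset.mul_sum]
        ring
      · rw [← hR x, ← sum_sum_ne1, ← sum_pair_ne1 (e x) (hee x)]
        simp only [Fintype.sum_sum_type, w1, I1, uA, uB, fA, fB, Finset.sum_add_distrib,
          mul_zero, zero_mul, Finset.sum_const_zero, add_zero, mul_one, one_mul, zero_add]
        have e1 : ∀ y z : A, ne1 y z * (p1 x - 2 * (p3 / 3) + p3 / 3 + p3 / 3) =
            ne1 y z * p1 x := fun y z => by ring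
        have e2 : ∀ y z : B, e x y * e x z * ne1 y z * (p2 x - 2 * (p4 / 3) + p4 / 3 + p4 / 3) =
            e x y * e x z * ne1 y z * p2 x := fun y z => by ring
        simp only [e1, e2, ← Finset.sum_mul]
      · rw [← hB x, ← sum_tri_ne1 x]
        simp only [Fintype.sum_sum_type, w1, I1, uA, uB, fA, fB, Finset.sum_add_distrib,
          mul_zero, zero_mul, Finset.sum_const_zero, add_zero, mul_one, one_mul, zero_add]
        have e1 : ∀ y z : B, ne1 x y * ne1 x z * ne1 y z * (p4 / 3 + p4 / 3 + p4 / 3) =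
            ne1 x y * ne1 x z * ne1 y z * p4 := fun y z => by ring
        have e2 : ∀ (i : R) (z : B), e i x * ne1 x z * e i z *
            (p4 / 3 + (p2 i - 2 * (p4 / 3)) + p4 / 3) = e i x * p2 i * (e i z * ne1 x z) :=
          fun y z => by ring
        have e3 : ∀ (z : B) (i : R), ne1 x z * e i x * e i z *
            (p4 / 3 + p4 / 3 + (p2 i - 2 * (p4 / 3))) = e i x * p2 i * (e i z * ne1 x z) :=
          fun y z => by ring
        simp only [e1, e2, e3]
        rw [Finset.sum_comm (f := fun (z : B) (i : R) => e i x * p2 i * (e i z * ne1 x z))]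
        simp only [← Finset.mul_sum, sum_mul_ne1, ← Finset.sum_mul]
        have e4 : ∀ i : R, e i x * p2 i * (∑ y, e i y - e i x) =
            e i x * ((∑ y, e i y - 1) * p2 i) := fun i => by
          have := hee i x
          linear_combination (- p2 i) * this
        simp only [e4]
        ring)
  refine ⟨J, g1, g2, g3, g4.trans (le_of_eq ?_)⟩
  have : ∀ x y : A ⊕ R ⊕ B, (if I1 e x y = 1 then (1 : ℝ) else 0) = I1 e x y := by
    intro x y
    rcases hI x y with a | a <;> simp [a]
  simp only [this]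
  simp only [Fintype.sum_sum_type, I1, Finset.sum_add_distrib, sum_ne1, Finset.sum_const,
    Finset.card_univ, nsmul_eq_mul, mul_zero, mul_one, add_zero, zero_add]
  rw [Finset.sum_comm (f := fun (z : B) (i : R) => e i z)]
  ring

end construct

/-- a bipartite graph with one side exactly regular and the other side of large minimum degree -/
theorem exists_bip (r b c : ℕ) (hr : 0 < r) (hcr : c ≤ r) :
    ∃ e : Fin r → Fin b → ℝ, (∀ i j, e i j = 0 ∨ e i j = 1) ∧ (∀ j, ∑ i, e i j = c) ∧
      ∀ i, ((b * c / r : ℕ) : ℝ) ≤ ∑ j, e i j ∧ ∑ j, e i j ≤ (b * c / r : ℕ) + 1 := by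
  classical
  let P : Fin r → Fin b → Prop := fun i j => ∃ k < c, (j * c + k) % r = i
  have inj : ∀ s k k' : ℕ, k < c → k' < c → (s + k) % r = (s + k') % r → k = k' := by
    intro s k k' hk hk' h
    have h1 : k ≡ k' [MOD r] := Nat.ModEq.add_left_cancel' s h
    exact Nat.ModEq.eq_of_lt_of_lt h1 (by omega) (by omega)
  refine ⟨fun i j => if P i j then 1 else 0, fun i j => by by_cases h : P i j <;> simp [h], ?_, ?_⟩
  · intro j
    rw [Finset.sum_boole]
    congr 1
    refine Eq.trans ?_ (Finset.card_range c)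
    symm
    apply Finset.card_bij (fun k _ => (⟨(j * c + k) % r, Nat.mod_lt _ hr⟩ : Fin r))
    · intro k hk
      simp only [Finset.mem_filter, Finset.mem_univ, true_and, P]
      exact ⟨k, Finset.mem_range.mp hk, rfl⟩
    · intro k hk k' hk' h
      exact inj _ k k' (Finset.mem_range.mp hk) (Finset.mem_range.mp hk') (by simpa using h)
    · intro i hi
      simp only [Finset.mem_filter, Finset.mem_univ, true_and, P] at hi
      obtain ⟨k, hk, h⟩ := hi
      exact ⟨k, Finset.mem_range.mpr hk, Fin.ext h⟩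
  · intro i
    rw [Finset.sum_boole]
    have key : #{j : Fin b | P i j} = (b * c).count (· ≡ (i : ℕ) [MOD r]) := by
      rw [Nat.count_eq_card_filter_range]
      symm
      have hc : ∀ x, x < b * c → 0 < c := fun x hx => by
        rcases Nat.eq_zero_or_pos c with h | h
        · simp [h] at hx
        · exact h
      apply Finset.card_bij (fun x hx => (⟨x / c, by
        have := Finset.mem_range.mp (Finset.mem_filter.mp hx).1
        exact Nat.div_lt_of_lt_mul (by rwa [mul_comm] at this)⟩ : Fin b))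
      · intro x hx
        obtain ⟨h1, h2⟩ := Finset.mem_filter.mp hx
        have h1 := Finset.mem_range.mp h1
        simp only [Finset.mem_filter, Finset.mem_univ, true_and, P]
        refine ⟨x % c, Nat.mod_lt _ (hc x h1), ?_⟩
        rw [mul_comm, Nat.div_add_mod]
        rw [Nat.ModEq, Nat.mod_eq_of_lt i.2] at h2
        exact h2
      · intro x hx y hy h
        obtain ⟨h1, h2⟩ := Finset.mem_filter.mp hx
        obtain ⟨h3, h4⟩ := Finset.mem_filter.mp hy
        have h1 := Finset.mem_range.mp h1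
        have hq : x / c = y / c := by simpa using h
        have e1 := Nat.div_add_mod x c
        have e2 := Nat.div_add_mod y c
        have := inj (c * (x / c)) (x % c) (y % c) (Nat.mod_lt _ (hc x h1)) (Nat.mod_lt _ (hc x h1))
          (by
            rw [e1]
            conv_rhs => rw [hq, e2]
            exact h2.trans h4.symm)
        rw [← e1, ← e2, hq, this]
      · intro j hj
        simp only [Finset.mem_filter, Finset.mem_univ, true_and, P] at hj
        obtain ⟨k, hk, h⟩ := hj
        have hlt : j * c + k < b * c := by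
          have : (j + 1) * c ≤ b * c := Nat.mul_le_mul_right _ j.2
          rw [add_mul, one_mul] at this
          omega
        refine ⟨j * c + k, Finset.mem_filter.mpr ⟨Finset.mem_range.mpr hlt, ?_⟩, ?_⟩
        · rw [Nat.ModEq, h, Nat.mod_eq_of_lt i.2]
        · apply Fin.ext
          simp only
          rw [mul_comm, Nat.mul_add_div (by omega), Nat.div_eq_of_lt hk, add_zero]
    rw [key, Nat.count_modEq_card _ hr]
    split_ifs <;> push_cast <;> constructor <;> linarith only []

end Pool.Agent.P.MP_4f3dfd_co
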