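import Mathlib

set_option autoImplicit false
set_option linter.unusedSectionVars false
set_option linter.unusedVariables false

namespace Pool.Agent.P.MP_4f3dfd_co.Ex

open Finset Real

variable {V : Type*} [DecidableEq V]

/-- Number of members of `E` whose trace on `S` is `x`. -/
def cnt (E : Finset (Finset V)) (S x : Finset V) : ℕ := #{X ∈ E | X ∩ S = x}

/-- The fibre of `E` over the trace `x` on `S`. -/
def fib (E : Finset (Finset V)) (S x : Finset V) : Finset (Finset V) :=
  ({X ∈ E | X ∩ S = x}).image (· \ S)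

/-- Number of all `c`-subsets of `G` with trace `x` on `S` (when `x` has at most `c` points). -/
def tot (G : Finset V) (c : ℕ) (S x : Finset V) : ℕ := (#G - #S).choose (c - #x)

/-- Average over the `r`-subsets `S` of `G` of the sum over all traces `x` on `S`. -/
noncomputable def Av (G : Finset V) (r : ℕ) (Φ : Finset V → Finset V → ℝ) : ℝ :=
  (∑ S ∈ powersetCard r G, ∑ x ∈ S.powerset, Φ S x) / ((#G).choose r : ℝ)

/-- `T * (b / T) ^ p`. -/
noncomputable def wp (T b : ℕ) (p : ℝ) : ℝ := (T : ℝ) * ((b : ℝ) / T) ^ p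

/-- The weighted `p`-th power of the conditional density. -/
noncomputable def pw (E : Finset (Finset V)) (G : Finset V) (c : ℕ) (p : ℝ) (S x : Finset V) : ℝ :=
  wp (tot G c S x) (cnt E S x) p

/-- Members of `D` avoiding `k` whose extension by `k` is not in `J`. -/
def blk (J D : Finset (Finset V)) (k : V) : Finset (Finset V) :=
  {Y ∈ D | k ∉ Y ∧ insert k Y ∉ J}

/-- The excess of a pair. -/
def exc (G : Finset V) (J D : Finset (Finset V)) : ℕ := ∑ k ∈ G, #(blk J D k)

/-- Degree of a point. -/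
def deg (A : Finset (Finset V)) (i : V) : ℕ := #{X ∈ A | i ∈ X}

/-- `J` is a family of `c`-subsets of `G`, `D` a family of `(c-1)`-subsets containing its shadow. -/
structure Pair (G : Finset V) (c : ℕ) (J D : Finset (Finset V)) : Prop where
  pos : 1 ≤ c
  hJ : J ⊆ powersetCard c G
  hD : D ⊆ powersetCard (c - 1) G
  sh : ∀ X ∈ J, ∀ i ∈ X, X.erase i ∈ D

/-- Binary relative entropy. -/
noncomputable def kl (q u : ℝ) : ℝ := q * log (q / u) + (1 - q) * log ((1 - q) / (1 - u))

/-- Mass of the atypical states. -/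
noncomputable def atyp (G : Finset V) (c : ℕ) (η : ℝ) (S x : Finset V) : ℝ :=
  if #x ≤ c ∧ η * ((#G : ℝ) - #S) < |(c : ℝ) - #x - c / #G * ((#G : ℝ) - #S)| then tot G c S x else 0

/-- Bound for the atypical mass. -/
noncomputable def zeta (n : ℕ) (η N : ℝ) : ℝ := 2 * √n * (n + 1) * exp (-(η ^ 2 * N / 2))

/-- Product measure of a set. -/
noncomputable def pm (H : Finset V) (q : V → ℝ) (X : Finset V) : ℝ :=
  (∏ i ∈ X, q i) * ∏ i ∈ H \ X, (1 - q i)

/-- Complements of non-members. -/
def co {n : ℕ} (k : ℕ) (F : Finset (Finset (Fin n))) : Finset (Finset (Fin n)) :=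
  {Z ∈ powersetCard k univ | Zᶜ ∉ F}

/-- Regular `c`-families of size `m`. -/
def Reg (n c m : ℕ) (J : Finset (Finset (Fin n))) : Prop :=
  (∀ X ∈ J, #X = c) ∧ #J = m ∧ ∃ d : ℕ, ∀ i : Fin n, #{X ∈ J | i ∈ X} = d

/-- Excess of the shadow over the local LYM bound. -/
noncomputable def ex (n c m f : ℕ) : ℝ := ((n : ℝ) - c + 1) * f - c * m

/-- Predicted excess, small families. -/
noncomputable def eLo (n c m x : ℕ) : ℝ := c * m * ((n : ℝ) - x) / ((x : ℝ) - c + 1)

/-- Predicted excess, large families. -/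
noncomputable def eHi (n c m y : ℕ) : ℝ := ((n.choose c : ℝ) - m) * ((n : ℝ) - y)

end Pool.Agent.P.MP_4f3dfd_co.Ex
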