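import Mathlib
import Pool.Agent.P.MP_4f3dfd_co.EDefs

set_option autoImplicit false
set_option linter.unusedSectionVars false
set_option linter.unusedVariables false

namespace Pool.Agent.P.MP_4f3dfd_co.Ex

open Finset Real

variable {V : Type*} [DecidableEq V]

theorem ea1_pow {z θ : ℝ} (hz : 0 ≤ z) (h0 : 0 < θ) : z ^ (1 + θ) = z * z ^ θ := by
  rw [Real.rpow_add' hz (by linarith), Real.rpow_one]

theorem ea1_tangent {x z θ : ℝ} (hx : 0 ≤ x) (hz : 0 ≤ z) (h0 : 0 < θ) :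
    z ^ (1 + θ) + (1 + θ) * z ^ θ * (x - z) ≤ x ^ (1 + θ) := by
  rcases hz.eq_or_lt with rfl | hz'
  · rw [Real.zero_rpow (by linarith), Real.zero_rpow h0.ne']
    simpa using Real.rpow_nonneg hx _
  · have hb := one_add_mul_self_le_rpow_one_add (s := x / z - 1)
      (by linarith [div_nonneg hx hz]) (p := 1 + θ) (by linarith)
    rw [add_sub_cancel, Real.div_rpow hx hz, le_div_iff₀ (Real.rpow_pos_of_pos hz' _)] at hb
    refine le_trans (le_of_eq ?_) hb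
    rw [ea1_pow hz h0]
    field_simp

theorem ea1_scale {a v h θ : ℝ} (ha : 0 < a) (h1 : a ≤ v) (h2 : v ≤ 1) (hθ0 : 0 < θ)
    (hθ1 : θ ≤ 1) : v * |h| ^ (1 + θ) ≤ 1 / a * |v * h| ^ (1 + θ) := by
  have hv : 0 < v := by linarith
  have h3 : v ≤ v ^ θ := by
    simpa using Real.rpow_le_rpow_of_exponent_ge hv h2 hθ1
  have h4 : 0 ≤ |h| ^ (1 + θ) := Real.rpow_nonneg (abs_nonneg _) _
  rw [abs_mul, abs_of_pos hv, Real.mul_rpow hv.le (abs_nonneg _), ea1_pow hv.le hθ0,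
    one_div, ← div_eq_inv_mul, le_div_iff₀ ha]
  have h5 : 0 ≤ v * |h| ^ (1 + θ) := mul_nonneg hv.le h4
  calc v * |h| ^ (1 + θ) * a ≤ v * |h| ^ (1 + θ) * v ^ θ :=
        mul_le_mul_of_nonneg_left (h1.trans h3) h5
    _ = v * v ^ θ * |h| ^ (1 + θ) := by ring

theorem vbe {x h θ : ℝ} (hx : 0 ≤ x) (hxh : 0 ≤ x + h) (h0 : 0 < θ) (h1 : θ ≤ 1) :
    (x + h) ^ (1 + θ) ≤ x ^ (1 + θ) + (1 + θ) * x ^ θ * h + 2 * |h| ^ (1 + θ) := by
  have ht := ea1_tangent hx hxh h0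
  have hp := ea1_pow (abs_nonneg h) h0
  have key : ((x + h) ^ θ - x ^ θ) * h ≤ |h| ^ (1 + θ) := by
    rw [hp]
    rcases le_total 0 h with hh | hh
    · have := Real.rpow_add_le_add_rpow hx hh h0.le h1
      rw [abs_of_nonneg hh]
      nlinarith
    · have := Real.rpow_add_le_add_rpow hxh (neg_nonneg.mpr hh) h0.le h1
      rw [add_neg_cancel_right] at this
      rw [abs_of_nonpos hh]
      nlinarith
  have h4 : 0 ≤ |h| ^ (1 + θ) := Real.rpow_nonneg (abs_nonneg _) _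
  have h5 : (1 + θ) * (((x + h) ^ θ - x ^ θ) * h) ≤ (1 + θ) * |h| ^ (1 + θ) :=
    mul_le_mul_of_nonneg_left key (by linarith)
  have h6 : (1 + θ) * |h| ^ (1 + θ) ≤ 2 * |h| ^ (1 + θ) :=
    mul_le_mul_of_nonneg_right (by linarith) h4
  nlinarith

theorem two_point {a u θ M1 M0 : ℝ} (ha : 0 < a) (h1 : a ≤ u) (h2 : u ≤ 1 - a) (hθ0 : 0 < θ)
    (hθ1 : θ ≤ 1) (hM1 : 0 ≤ M1) (hM0 : 0 ≤ M0) :
    u * M1 ^ (1 + θ) + (1 - u) * M0 ^ (1 + θ) ≤
      (u * M1 + (1 - u) * M0) ^ (1 + θ) +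
        4 / a * |u * (M1 - (u * M1 + (1 - u) * M0))| ^ (1 + θ) := by
  have hu0 : 0 ≤ u := by linarith
  have hu1 : 0 ≤ 1 - u := by linarith
  obtain ⟨M, hM⟩ : ∃ M, M = u * M1 + (1 - u) * M0 := ⟨_, rfl⟩
  rw [← hM]
  have hMn : 0 ≤ M := by rw [hM]; positivity
  have e1 := vbe (x := M) (h := M1 - M) hMn (by linarith) hθ0 hθ1
  have e0 := vbe (x := M) (h := M0 - M) hMn (by linarith) hθ0 hθ1
  rw [add_sub_cancel] at e1 e0
  have s1 := ea1_scale (h := M1 - M) ha h1 (by linarith) hθ0 hθ1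
  have s0 := ea1_scale (v := 1 - u) (h := M0 - M) ha (by linarith) (by linarith) hθ0 hθ1
  have hy : (1 - u) * (M0 - M) = -(u * (M1 - M)) := by linarith
  rw [hy, abs_neg] at s0
  have f1 := mul_le_mul_of_nonneg_left e1 hu0
  have f0 := mul_le_mul_of_nonneg_left e0 hu1
  have hz : u * ((1 + θ) * M ^ θ * (M1 - M)) + (1 - u) * ((1 + θ) * M ^ θ * (M0 - M)) = 0 := by
    have : u * ((1 + θ) * M ^ θ * (M1 - M)) + (1 - u) * ((1 + θ) * M ^ θ * (M0 - M))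
        = (1 + θ) * M ^ θ * (u * (M1 - M) + (1 - u) * (M0 - M)) := by ring
    rw [this, hy]
    ring
  have h4 : 4 / a * |u * (M1 - M)| ^ (1 + θ) = 4 * (1 / a * |u * (M1 - M)| ^ (1 + θ)) := by ring
  rw [h4]
  linarith

end Pool.Agent.P.MP_4f3dfd_co.Ex
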