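import Mathlib
import Pool.Agent.P.MP_4f3dfd_co.EDefs

set_option autoImplicit false
set_option linter.unusedSectionVars false
set_option linter.unusedVariables false

namespace Pool.Agent.P.MP_4f3dfd_co.Ex

open Finset Real

variable {V : Type*} [DecidableEq V]

theorem ea2_ent {w : ℝ} (hw : 0 ≤ w) : (w - 1) ^ 2 ≤ w ^ 2 * log (w ^ 2) - w ^ 2 + 1 := by
  rcases hw.eq_or_lt with h | h
  · subst h; norm_num
  · have h1 := Real.one_sub_inv_le_log_of_pos h
    have h2 : w * (1 - w⁻¹) ≤ w * log w := mul_le_mul_of_nonneg_left h1 hw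
    have h3 : w * (1 - w⁻¹) = w - 1 := by field_simp
    rw [h3] at h2
    have h4 : w * (w - 1) ≤ w * (w * log w) := mul_le_mul_of_nonneg_left h2 hw
    rw [Real.log_pow]
    push_cast
    nlinarith

theorem ea2_sq {w b : ℝ} (hw : 0 ≤ w) (hb1 : 1 ≤ b) (hb : w ^ 2 ≤ b) :
    (w * log w) ^ 2 ≤ b * (w - 1) ^ 2 := by
  rcases hw.eq_or_lt with h | h
  · subst h; simp; linarith
  · rcases le_total w 1 with h1 | h1
    · have h2 := Real.one_sub_inv_le_log_of_pos h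
      have h3 : w * (1 - w⁻¹) ≤ w * log w := mul_le_mul_of_nonneg_left h2 hw
      have h4 : w * (1 - w⁻¹) = w - 1 := by field_simp
      rw [h4] at h3
      have h5 : w * log w ≤ 0 := mul_nonpos_of_nonneg_of_nonpos hw (Real.log_nonpos hw h1)
      have h6 : (w * log w) ^ 2 ≤ (w - 1) ^ 2 := by nlinarith
      nlinarith [sq_nonneg (w - 1)]
    · have h2 := Real.log_le_sub_one_of_pos h
      have h3 := Real.log_nonneg h1
      have h4 : (log w) ^ 2 ≤ (w - 1) ^ 2 := pow_le_pow_left₀ h3 h2 2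
      rw [mul_pow]
      exact mul_le_mul hb h4 (sq_nonneg _) (by linarith)

theorem ea2_half {q u : ℝ} (hq0 : 0 ≤ q) (hq1 : q ≤ 1) (h0 : 0 < u) (h1 : u ≤ 1) :
    (q - u) ^ 2 / 4 ≤ q * log (q / u) - q + u := by
  have hr : 0 ≤ q / u := div_nonneg hq0 h0.le
  obtain ⟨w, hw, hw2⟩ : ∃ w : ℝ, 0 ≤ w ∧ w ^ 2 = q / u := ⟨√(q / u), sqrt_nonneg _, sq_sqrt hr⟩
  have hq : q = u * w ^ 2 := by rw [hw2]; field_simp
  have h2 := mul_le_mul_of_nonneg_left (ea2_ent hw) h0.le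
  have h3 : u * (w + 1) ^ 2 ≤ 4 := by nlinarith [mul_nonneg h0.le (sq_nonneg (w - 1))]
  have h4 : 0 ≤ u * (w - 1) ^ 2 := mul_nonneg h0.le (sq_nonneg _)
  have h5 : (q - u) ^ 2 = (u * (w - 1) ^ 2) * (u * (w + 1) ^ 2) := by rw [hq]; ring
  have h6 := mul_le_mul_of_nonneg_left h3 h4
  rw [← hw2]
  have h7 : u * (w ^ 2 * log (w ^ 2) - w ^ 2 + 1) = q * log (w ^ 2) - q + u := by rw [hq]; ring
  linarith

theorem ea2_exp {y : ℝ} (hy : y ≤ 1) : exp y ≤ 1 + y + y ^ 2 := by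
  rcases le_total (-1) y with h | h
  · have := Real.abs_exp_sub_one_sub_id_le (x := y) (abs_le.2 ⟨h, hy⟩)
    have h2 := (abs_le.1 this).2
    linarith
  · have h1 : exp y ≤ 1 := Real.exp_le_one_iff.2 (by linarith)
    nlinarith

theorem ea2_one {a r θ : ℝ} (ha : 0 < a) (ha1 : a ≤ 1) (hr0 : 0 ≤ r) (hr : r ≤ 1 / a)
    (hθ0 : 0 < θ) (hθ : θ ≤ a) :
    r ^ (1 + θ) ≤ r + θ * (r * log r) + θ ^ 2 * (4 / a) * (r * log r - r + 1) := by
  rcases hr0.eq_or_lt with h | h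
  · subst h
    rw [Real.zero_rpow (by linarith)]
    have : 0 ≤ θ ^ 2 * (4 / a) := by positivity
    simpa using this
  · have hy : θ * log r ≤ 1 := by
      have h1 := Real.log_le_sub_one_of_pos h
      have h2 : θ * log r ≤ θ * (1 / a) := mul_le_mul_of_nonneg_left (by linarith) hθ0.le
      have h3 : θ * (1 / a) ≤ 1 := by rw [mul_one_div, div_le_one ha]; exact hθ
      linarith
    have h1 : r ^ (1 + θ) = r * exp (θ * log r) := by
      rw [Real.rpow_add h, Real.rpow_one, Real.rpow_def_of_pos h, mul_comm (log r)]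
    have h2 := mul_le_mul_of_nonneg_left (ea2_exp hy) hr0
    obtain ⟨w, hw, hw2⟩ : ∃ w : ℝ, 0 ≤ w ∧ w ^ 2 = r := ⟨√r, sqrt_nonneg _, sq_sqrt hr0⟩
    have hb1 : 1 ≤ 1 / a := by rw [le_div_iff₀ ha]; linarith
    have h3 := ea2_sq hw hb1 (hw2.trans_le hr)
    have h4 := ea2_ent hw
    have h5 : r * (log r) ^ 2 = 4 * (w * log w) ^ 2 := by
      rw [← hw2, Real.log_pow]; push_cast; ring
    rw [hw2] at h4
    have h6 : 1 / a * (w - 1) ^ 2 ≤ 1 / a * (r * log r - r + 1) :=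
      mul_le_mul_of_nonneg_left h4 (by positivity)
    have h7 : r * (log r) ^ 2 ≤ 4 / a * (r * log r - r + 1) := by
      have : 4 / a * (r * log r - r + 1) = 4 * (1 / a * (r * log r - r + 1)) := by ring
      linarith
    have h8 := mul_le_mul_of_nonneg_left h7 (sq_nonneg θ)
    rw [h1]
    nlinarith

theorem kl_ge {q u : ℝ} (hq0 : 0 ≤ q) (hq1 : q ≤ 1) (h0 : 0 < u) (h1 : u < 1) :
    (q - u) ^ 2 / 2 ≤ kl q u := by
  have a1 := ea2_half hq0 hq1 h0 h1.le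
  have a2 := ea2_half (q := 1 - q) (u := 1 - u) (by linarith) (by linarith) (by linarith)
    (by linarith)
  unfold kl
  nlinarith

theorem renyi_le_kl {a u q θ : ℝ} (ha : 0 < a) (h1 : a ≤ u) (h2 : u ≤ 1 - a) (hq0 : 0 ≤ q)
    (hq1 : q ≤ 1) (hθ0 : 0 < θ) (hθ : θ ≤ a) :
    u * (q / u) ^ (1 + θ) + (1 - u) * ((1 - q) / (1 - u)) ^ (1 + θ) ≤
      1 + θ * (1 + 4 * θ / a) * kl q u := by
  have hu0 : 0 < u := by linarith
  have hu1 : 0 < 1 - u := by linarith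
  have ha1 : a ≤ 1 := by linarith
  have b1 : q / u ≤ 1 / a := div_le_div₀ zero_le_one hq1 ha h1
  have b2 : (1 - q) / (1 - u) ≤ 1 / a := div_le_div₀ zero_le_one (by linarith) ha (by linarith)
  have a1 := mul_le_mul_of_nonneg_left (ea2_one ha ha1 (div_nonneg hq0 hu0.le) b1 hθ0 hθ) hu0.le
  have a2 := mul_le_mul_of_nonneg_left
    (ea2_one ha ha1 (div_nonneg (by linarith : 0 ≤ 1 - q) hu1.le) b2 hθ0 hθ) hu1.le
  refine (add_le_add a1 a2).trans (le_of_eq ?_)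
  unfold kl
  generalize log (q / u) = L1
  generalize log ((1 - q) / (1 - u)) = L2
  field_simp
  ring

end Pool.Agent.P.MP_4f3dfd_co.Ex
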