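import Mathlib
import Pool.Agent.P.MP_4f3dfd_co.EDefs

set_option autoImplicit false
set_option linter.unusedSectionVars false
set_option linter.unusedVariables false

namespace Pool.Agent.P.MP_4f3dfd_co.Ex

open Finset Real

variable {V : Type*} [DecidableEq V]

theorem eb1_pm_nonneg (H : Finset V) (q : V → ℝ) (hq : ∀ i ∈ H, 0 ≤ q i ∧ q i ≤ 1)
    (X : Finset V) (hX : X ⊆ H) : 0 ≤ pm H q X := by
  unfold pm
  refine mul_nonneg (prod_nonneg fun i hi => (hq i (hX hi)).1) (prod_nonneg fun i hi => ?_)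
  have := (hq i (mem_sdiff.1 hi).1).2
  linarith

theorem sum_pm_le_one (H : Finset V) (q : V → ℝ) (hq : ∀ i ∈ H, 0 ≤ q i ∧ q i ≤ 1) (j : ℕ) :
    ∑ X ∈ powersetCard j H, pm H q X ≤ 1 := by
  have h1 : ∑ X ∈ H.powerset, pm H q X = 1 := by
    unfold pm
    rw [← Finset.prod_add]
    simp
  rw [← h1]
  refine sum_le_sum_of_subset_of_nonneg ?_ ?_
  · intro X hX
    exact mem_powerset.2 (mem_powersetCard.1 hX).1
  · intro X hX _
    exact eb1_pm_nonneg H q hq X (mem_powerset.1 hX)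

theorem eb1_orth (k : ℤ) :
    ∫ t in (-π)..π, Complex.exp ((k : ℂ) * Complex.I * (t : ℂ)) =
      if k = 0 then ((2 * π : ℝ) : ℂ) else 0 := by
  split_ifs with hk
  · subst hk
    simp
    ring
  · have hc : (k : ℂ) * Complex.I ≠ 0 := mul_ne_zero (by exact_mod_cast hk) Complex.I_ne_zero
    rw [integral_exp_mul_complex hc]
    have : Complex.exp ((k : ℂ) * Complex.I * ((π : ℝ) : ℂ)) =
        Complex.exp ((k : ℂ) * Complex.I * ((-π : ℝ) : ℂ)) := by
      have h2 := Complex.exp_int_mul_two_pi_mul_I k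
      have h3 : (k : ℂ) * Complex.I * ((π : ℝ) : ℂ) =
          (k : ℂ) * Complex.I * ((-π : ℝ) : ℂ) + (k : ℂ) * (2 * (π : ℂ) * Complex.I) := by
        push_cast
        ring
      rw [h3, Complex.exp_add, h2, mul_one]
    rw [this, sub_self, zero_div]

theorem eb1_factor (x t : ℝ) (h0 : 0 ≤ x) (h1 : x ≤ 1) (ht : |t| ≤ π) :
    ‖(x : ℂ) * Complex.exp (Complex.I * (t : ℂ)) + ((1 - x : ℝ) : ℂ)‖ ≤
      Real.exp (-(2 / π ^ 2 * (x * (1 - x)) * t ^ 2)) := by
  have hc : cos t ≤ 1 - 2 / π ^ 2 * t ^ 2 := Real.cos_le_one_sub_mul_cos_sq ht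
  have hsq : ‖(x : ℂ) * Complex.exp (Complex.I * (t : ℂ)) + ((1 - x : ℝ) : ℂ)‖ ^ 2 =
      1 - 2 * (x * (1 - x)) * (1 - cos t) := by
    rw [Complex.sq_norm, Complex.normSq_apply, mul_comm Complex.I]
    simp only [Complex.add_re, Complex.add_im, Complex.mul_re, Complex.mul_im,
      Complex.ofReal_re, Complex.ofReal_im, Complex.exp_ofReal_mul_I_re,
      Complex.exp_ofReal_mul_I_im]
    have := Real.sin_sq_add_cos_sq t
    linear_combination x ^ 2 * this
  have hx : 0 ≤ x * (1 - x) := mul_nonneg h0 (by linarith)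
  have h2 : 1 - 2 * (x * (1 - x)) * (1 - cos t) ≤
      Real.exp (-(2 / π ^ 2 * (x * (1 - x)) * t ^ 2)) ^ 2 := by
    rw [← Real.exp_nat_mul]
    have h3 := Real.add_one_le_exp (((2 : ℕ) : ℝ) * -(2 / π ^ 2 * (x * (1 - x)) * t ^ 2))
    have h4 : 2 * (x * (1 - x)) * (2 / π ^ 2 * t ^ 2) ≤ 2 * (x * (1 - x)) * (1 - cos t) :=
      mul_le_mul_of_nonneg_left (by linarith) (by linarith)
    push_cast at h3 ⊢
    linarith
  rw [← hsq] at h2
  exact (pow_le_pow_iff_left₀ (norm_nonneg _) (Real.exp_pos _).le two_ne_zero).1 h2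

theorem eb1_expand (H : Finset V) (q : V → ℝ) (j : ℕ) (t : ℝ) :
    Complex.exp (-(j : ℂ) * Complex.I * (t : ℂ)) *
      ∏ i ∈ H, ((q i : ℂ) * Complex.exp (Complex.I * (t : ℂ)) + ((1 - q i : ℝ) : ℂ)) =
    ∑ X ∈ H.powerset, (pm H q X : ℂ) *
      Complex.exp ((((#X : ℤ) - j : ℤ) : ℂ) * Complex.I * (t : ℂ)) := by
  rw [Finset.prod_add, mul_sum]
  refine sum_congr rfl fun X hX => ?_
  rw [prod_mul_distrib, prod_const, ← Complex.exp_nat_mul]
  have : (((#X : ℤ) - j : ℤ) : ℂ) * Complex.I * (t : ℂ) =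
      -(j : ℂ) * Complex.I * (t : ℂ) + (#X : ℕ) * (Complex.I * (t : ℂ)) := by
    push_cast
    ring
  rw [this, Complex.exp_add]
  unfold pm
  push_cast
  ring

theorem eb1_integral (H : Finset V) (q : V → ℝ) (j : ℕ) :
    ∫ t in (-π)..π, Complex.exp (-(j : ℂ) * Complex.I * (t : ℂ)) *
      ∏ i ∈ H, ((q i : ℂ) * Complex.exp (Complex.I * (t : ℂ)) + ((1 - q i : ℝ) : ℂ)) =
    ((2 * π * ∑ X ∈ powersetCard j H, pm H q X : ℝ) : ℂ) := by
  simp_rw [eb1_expand]
  rw [intervalIntegral.integral_finsetSum]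
  · simp_rw [intervalIntegral.integral_const_mul, eb1_orth]
    rw [powersetCard_eq_filter, sum_filter]
    push_cast
    rw [mul_sum]
    refine sum_congr rfl fun X hX => ?_
    by_cases h : #X = j
    · simp [h, mul_comm]
    · have : ¬ ((#X : ℤ) - j = 0) := by omega
      simp [h, this]
  · intro X _
    apply Continuous.intervalIntegrable
    fun_prop

/-- Point masses of a Poisson binomial law. -/
theorem sum_pm_le (H : Finset V) (q : V → ℝ) (hq : ∀ i ∈ H, 0 ≤ q i ∧ q i ≤ 1) (j : ℕ) {σ : ℝ}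
    (hσ : 1 ≤ σ) (h : σ ^ 2 ≤ ∑ i ∈ H, q i * (1 - q i)) :
    ∑ X ∈ powersetCard j H, pm H q X ≤ 6 / σ := by
  have hπ : 0 < π := Real.pi_pos
  have hσ0 : 0 < σ := by linarith
  set b : ℝ := 2 / π ^ 2 * σ ^ 2 with hb
  have hb0 : 0 < b := by positivity
  have hle : -π ≤ π := by linarith
  have hbound : ∀ t ∈ Set.Ioc (-π) π, ‖Complex.exp (-(j : ℂ) * Complex.I * (t : ℂ)) *
      ∏ i ∈ H, ((q i : ℂ) * Complex.exp (Complex.I * (t : ℂ)) + ((1 - q i : ℝ) : ℂ))‖ ≤
      Real.exp (-b * t ^ 2) := by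
    intro t ht
    have ht' : |t| ≤ π := abs_le.2 ⟨ht.1.le, ht.2⟩
    have e1 : ‖Complex.exp (-(j : ℂ) * Complex.I * (t : ℂ))‖ = 1 := by
      have : -(j : ℂ) * Complex.I * (t : ℂ) = ((-(j : ℝ) * t : ℝ) : ℂ) * Complex.I := by
        push_cast
        ring
      rw [this, Complex.norm_exp_ofReal_mul_I]
    rw [norm_mul, e1, one_mul, norm_prod]
    calc ∏ i ∈ H, ‖(q i : ℂ) * Complex.exp (Complex.I * (t : ℂ)) + ((1 - q i : ℝ) : ℂ)‖
        ≤ ∏ i ∈ H, Real.exp (-(2 / π ^ 2 * (q i * (1 - q i)) * t ^ 2)) :=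
          prod_le_prod (fun i _ => norm_nonneg _)
            (fun i hi => eb1_factor (q i) t (hq i hi).1 (hq i hi).2 ht')
      _ = Real.exp (-(2 / π ^ 2 * (∑ i ∈ H, q i * (1 - q i)) * t ^ 2)) := by
          rw [← Real.exp_sum, mul_sum, sum_mul, ← sum_neg_distrib]
      _ ≤ Real.exp (-b * t ^ 2) := by
          apply Real.exp_le_exp.2
          have h1 : 2 / π ^ 2 * σ ^ 2 * t ^ 2 ≤ 2 / π ^ 2 * (∑ i ∈ H, q i * (1 - q i)) * t ^ 2 :=
            mul_le_mul_of_nonneg_right (mul_le_mul_of_nonneg_left h (by positivity)) (sq_nonneg t)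
          rw [hb]
          linarith
  have hint := integrable_exp_neg_mul_sq hb0
  have h1 := intervalIntegral.norm_integral_le_of_norm_le hle
    (MeasureTheory.ae_of_all _ hbound) hint.intervalIntegrable
  rw [eb1_integral, Complex.norm_real] at h1
  have h2 : ∫ t in (-π)..π, Real.exp (-b * t ^ 2) ≤ √(π / b) := by
    rw [← integral_gaussian, intervalIntegral.integral_of_le hle]
    exact MeasureTheory.setIntegral_le_integral hint
      (MeasureTheory.ae_of_all _ fun t => (Real.exp_pos _).le)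
  have h3 : √(π / b) ≤ 2 * π * (6 / σ) := by
    apply Real.sqrt_le_iff.2
    refine ⟨by positivity, ?_⟩
    rw [div_le_iff₀ hb0, hb]
    have : (2 * π * (6 / σ)) ^ 2 * (2 / π ^ 2 * σ ^ 2) = 288 := by
      field_simp
      ring
    rw [this]
    linarith [Real.pi_le_four]
  have h4 : 2 * π * ∑ X ∈ powersetCard j H, pm H q X ≤ 2 * π * (6 / σ) :=
    (le_abs_self _).trans (h1.trans (h2.trans h3))
  exact le_of_mul_le_mul_left h4 (by positivity)

end Pool.Agent.P.MP_4f3dfd_co.Ex
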