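import Mathlib
import Pool.Agent.P.MP_4f3dfd_co.EDefs

set_option autoImplicit false
set_option linter.unusedSectionVars false
set_option linter.unusedVariables false

namespace Pool.Agent.P.MP_4f3dfd_co.Ex

open Finset Real

variable {V : Type*} [DecidableEq V]

theorem ec1_deg_le (A : Finset (Finset V)) (i : V) : deg A i ≤ #A := card_filter_le _ _

theorem ec1_deg_pos {A : Finset (Finset V)} {X : Finset V} (hX : X ∈ A) {i : V} (hi : i ∈ X) :
    0 < deg A i := card_pos.2 ⟨X, mem_filter.2 ⟨hX, hi⟩⟩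

theorem ec1_deg_lt {A : Finset (Finset V)} {X : Finset V} (hX : X ∈ A) {i : V} (hi : i ∉ X) :
    deg A i < #A := by
  refine card_lt_card ⟨filter_subset _ _, fun h => hi (mem_filter.1 (h hX)).2⟩

theorem ec1_log (H X : Finset V) (hXH : X ⊆ H) (q : V → ℝ) {u : ℝ} (h0 : 0 < u) (h1 : u < 1)
    (hq0 : ∀ i ∈ X, 0 < q i) (hq1 : ∀ i ∈ H \ X, q i < 1) :
    log (pm H q X / (u ^ #X * (1 - u) ^ (#H - #X))) =
      ∑ i ∈ H, if i ∈ X then log (q i / u) else log ((1 - q i) / (1 - u)) := by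
  have hu1 : 0 < 1 - u := by linarith
  have e1 : pm H q X / (u ^ #X * (1 - u) ^ (#H - #X)) =
      (∏ i ∈ X, q i / u) * ∏ i ∈ H \ X, (1 - q i) / (1 - u) := by
    rw [prod_div_distrib, prod_div_distrib, prod_const, prod_const, card_sdiff_of_subset hXH, pm,
      div_mul_div_comm]
  have a1 : ∀ i ∈ X, q i / u ≠ 0 := fun i hi => (div_pos (hq0 i hi) h0).ne'
  have a2 : ∀ i ∈ H \ X, (1 - q i) / (1 - u) ≠ 0 := fun i hi =>
    (div_pos (by linarith [hq1 i hi]) hu1).ne'
  rw [e1, log_mul (prod_ne_zero_iff.2 a1) (prod_ne_zero_iff.2 a2), log_prod a1, log_prod a2,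
    ← sum_sdiff hXH, add_comm]
  congr 1
  · exact sum_congr rfl fun i hi => by rw [if_neg (mem_sdiff.1 hi).2]
  · exact sum_congr rfl fun i hi => by rw [if_pos hi]

/-- Subadditivity of entropy on a slice. -/
theorem sum_kl_le_log (H : Finset V) (j : ℕ) (A : Finset (Finset V)) (hA : A ⊆ powersetCard j H)
    (hne : A.Nonempty) {u P : ℝ} (h0 : 0 < u) (h1 : u < 1)
    (hP : ∑ X ∈ powersetCard j H, pm H (fun i => (deg A i : ℝ) / #A) X ≤ P) :
    ∑ i ∈ H, kl ((deg A i : ℝ) / #A) u ≤ log (P / (#A * (u ^ j * (1 - u) ^ (#H - j)))) := by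
  have hu1 : 0 < 1 - u := by linarith
  have hm : (0 : ℝ) < #A := by exact_mod_cast card_pos.2 hne
  set q : V → ℝ := fun i => (deg A i : ℝ) / #A with hq
  set w : ℝ := u ^ j * (1 - u) ^ (#H - j) with hw
  have hw0 : 0 < w := mul_pos (pow_pos h0 _) (pow_pos hu1 _)
  have q0 : ∀ i, 0 ≤ q i := fun i => div_nonneg (Nat.cast_nonneg _) hm.le
  have q1 : ∀ i, q i ≤ 1 := fun i => (div_le_one hm).2 (by exact_mod_cast ec1_deg_le A i)
  have qp : ∀ X ∈ A, ∀ i ∈ X, 0 < q i := fun X hX i hi =>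
    div_pos (by exact_mod_cast ec1_deg_pos hX hi) hm
  have ql : ∀ X ∈ A, ∀ i ∈ H \ X, q i < 1 := fun X hX i hi =>
    (div_lt_one hm).2 (by exact_mod_cast ec1_deg_lt hX (mem_sdiff.1 hi).2)
  have pp : ∀ X ∈ A, 0 < pm H q X := fun X hX =>
    mul_pos (prod_pos (qp X hX)) (prod_pos fun i hi => by linarith [ql X hX i hi])
  have pn : ∀ X, 0 ≤ pm H q X := fun X =>
    mul_nonneg (prod_nonneg fun i _ => q0 i) (prod_nonneg fun i _ => by linarith [q1 i])
  have hsum : ∑ X ∈ A, pm H q X ≤ P :=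
    (sum_le_sum_of_subset_of_nonneg hA fun X _ _ => pn X).trans hP
  have hP0 : 0 < P := lt_of_lt_of_le (sum_pos pp hne) hsum
  set t : ℝ := P / (#A * w) with ht
  have ht0 : 0 < t := div_pos hP0 (mul_pos hm hw0)
  have key : ∑ X ∈ A, log (pm H q X / w) = #A * ∑ i ∈ H, kl (q i) u := by
    have e : ∀ X ∈ A, log (pm H q X / w) =
        ∑ i ∈ H, if i ∈ X then log (q i / u) else log ((1 - q i) / (1 - u)) := by
      intro X hX
      have h := mem_powersetCard.1 (hA hX)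
      have := ec1_log H X h.1 q h0 h1 (qp X hX) (ql X hX)
      rw [h.2] at this
      exact this
    rw [sum_congr rfl e, sum_comm, mul_sum]
    refine sum_congr rfl fun i _ => ?_
    rw [sum_ite, sum_const, sum_const, nsmul_eq_mul, nsmul_eq_mul]
    have c1 : ((#{X ∈ A | i ∈ X} : ℕ) : ℝ) = #A * q i := by
      rw [hq]; simp only [deg]; field_simp
    have c2 : ((#{X ∈ A | ¬ i ∈ X} : ℕ) : ℝ) = #A * (1 - q i) := by
      have := card_filter_add_card_filter_not (s := A) (fun X => i ∈ X)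
      have h2 : ((#{X ∈ A | i ∈ X} : ℕ) : ℝ) + ((#{X ∈ A | ¬ i ∈ X} : ℕ) : ℝ) = #A := by
        exact_mod_cast this
      linarith
    rw [c1, c2, kl]
    ring
  have ub : ∀ X ∈ A, log (pm H q X / w) ≤ log t + (pm H q X / (w * t) - 1) := by
    intro X hX
    have hz : 0 < pm H q X / (w * t) := div_pos (pp X hX) (mul_pos hw0 ht0)
    have e : pm H q X / w = t * (pm H q X / (w * t)) := by field_simp
    rw [e, log_mul ht0.ne' hz.ne']
    linarith [log_le_sub_one_of_pos hz]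
  have h3 := sum_le_sum ub
  rw [key, sum_add_distrib, sum_sub_distrib, sum_const, sum_const, nsmul_eq_mul, nsmul_eq_mul,
    ← sum_div] at h3
  have h4 : (∑ X ∈ A, pm H q X) / (w * t) ≤ #A := by
    rw [div_le_iff₀ (mul_pos hw0 ht0)]
    have : (#A : ℝ) * (w * t) = P := by rw [ht]; field_simp
    linarith
  have h5 : (#A : ℝ) * ∑ i ∈ H, kl (q i) u ≤ #A * log t := by linarith
  exact le_of_mul_le_mul_left h5 hm

end Pool.Agent.P.MP_4f3dfd_co.Ex
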