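import Mathlib
import Pool.Agent.P.MP_4f3dfd_co.EDefs
import Pool.Agent.P.MP_4f3dfd_co.EA2
import Pool.Agent.P.MP_4f3dfd_co.EB1
import Pool.Agent.P.MP_4f3dfd_co.EB2
import Pool.Agent.P.MP_4f3dfd_co.EC1

set_option autoImplicit false
set_option linter.unusedSectionVars false
set_option linter.unusedVariables false

namespace Pool.Agent.P.MP_4f3dfd_co.Ex

open Finset Real

variable {V : Type*} [DecidableEq V]

theorem ec2_var {a q u k : ℝ} (ha : 0 < a) (h1 : a ≤ u) (h2 : u ≤ 1 - a) (hq0 : 0 ≤ q)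
    (hq1 : q ≤ 1) (hk : (q - u) ^ 2 / 2 ≤ k) : 3 * a / 8 - 4 / a * k ≤ q * (1 - q) := by
  have ha2 : a ≤ 1 / 2 := by linarith
  have e1 : a / 2 ≤ u * (1 - u) := by nlinarith
  have e2 : u * (1 - u) - |q - u| ≤ q * (1 - q) := by
    rcases abs_cases (q - u) with ⟨h, h'⟩ | ⟨h, h'⟩ <;> rw [h] <;> nlinarith
  have e3 : a * |q - u| ≤ a * (a / 8) + 2 * (q - u) ^ 2 := by
    have := sq_nonneg (|q - u| - a / 4)
    have h' : |q - u| ^ 2 = (q - u) ^ 2 := sq_abs _
    nlinarith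
  have e4 : |q - u| ≤ a / 8 + 4 / a * k := by
    have : a * |q - u| ≤ a * (a / 8 + 4 / a * k) := by
      have : a * (a / 8 + 4 / a * k) = a * (a / 8) + 4 * k := by field_simp
      rw [this]; linarith
    exact le_of_mul_le_mul_left this ha
  linarith

theorem ec2_key (H : Finset V) (j : ℕ) (A : Finset (Finset V)) (hA : A ⊆ powersetCard j H)
    (hne : A.Nonempty) (hj0 : 0 < j) (hj1 : j < #H) {P : ℝ} (hP0 : 0 < P)
    (hP : ∑ X ∈ powersetCard j H, pm H (fun i => (deg A i : ℝ) / #A) X ≤ P) :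
    ∑ i ∈ H, kl ((deg A i : ℝ) / #A) ((j : ℝ) / #H) ≤
      log (((#H).choose j : ℝ) / #A) + log (2 * √(#H) * P) := by
  have hN : (0 : ℝ) < #H := by exact_mod_cast (lt_trans hj0 hj1)
  have hu0 : (0 : ℝ) < (j : ℝ) / #H := div_pos (by exact_mod_cast hj0) hN
  have hu1 : (j : ℝ) / #H < 1 := (div_lt_one hN).2 (by exact_mod_cast hj1)
  have hA0 : (0 : ℝ) < #A := by exact_mod_cast hne.card_pos
  have hC : (0 : ℝ) < ((#H).choose j : ℝ) := by exact_mod_cast Nat.choose_pos hj1.le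
  have hs : (0 : ℝ) < 2 * √(#H) := by positivity
  have hb := binom_ge hj0 hj1
  refine (sum_kl_le_log H j A hA hne hu0 hu1 hP).trans ?_
  set W : ℝ := ((j : ℝ) / #H) ^ j * (1 - (j : ℝ) / #H) ^ (#H - j) with hW
  have hW0 : 0 < W := mul_pos (pow_pos hu0 _) (pow_pos (by linarith) _)
  rw [← log_mul (by positivity) (by positivity)]
  refine log_le_log (by positivity) ?_
  rw [div_le_iff₀ hs] at hb
  rw [div_le_iff₀ (by positivity)]
  have : ((#H).choose j : ℝ) / #A * (2 * √(#H) * P) * (#A * W) =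
      P * (((#H).choose j : ℝ) * W * (2 * √(#H))) := by field_simp
  rw [this]
  nlinarith

theorem sum_kl_le (H : Finset V) (j : ℕ) (A : Finset (Finset V)) (hA : A ⊆ powersetCard j H)
    (hne : A.Nonempty) {a g : ℝ} (ha : 0 < a) (hH : 0 < #H) (h1 : a * #H ≤ j)
    (h2 : (j : ℝ) ≤ (1 - a) * #H) (hg0 : 0 < g) (hg1 : g ≤ 1)
    (hN : 64 * log (2 * √(#H)) ≤ g * a ^ 2 * #H) :
    ∑ i ∈ H, kl ((deg A i : ℝ) / #A) ((j : ℝ) / #H) ≤
      (1 + g) * log (((#H).choose j : ℝ) / #A) + log (24 / a) := by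
  have hN0 : (0 : ℝ) < #H := by exact_mod_cast hH
  have hN1 : (1 : ℝ) ≤ #H := by exact_mod_cast hH
  have ha2 : a ≤ 1 / 2 := by
    have : a * #H ≤ (1 - a) * #H := h1.trans h2
    have := le_of_mul_le_mul_right this hN0
    linarith
  have hj0 : 0 < j := by
    have : (0 : ℝ) < j := lt_of_lt_of_le (mul_pos ha hN0) h1
    exact_mod_cast this
  have hj1 : j < #H := by
    have : (j : ℝ) < #H := by nlinarith
    exact_mod_cast this
  have hu1 : a ≤ (j : ℝ) / #H := (le_div_iff₀ hN0).2 h1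
  have hu2 : (j : ℝ) / #H ≤ 1 - a := (div_le_iff₀ hN0).2 h2
  have hA0 : (0 : ℝ) < #A := by exact_mod_cast hne.card_pos
  have hq : ∀ i ∈ H, 0 ≤ (deg A i : ℝ) / #A ∧ (deg A i : ℝ) / #A ≤ 1 := by
    intro i _
    refine ⟨by positivity, (div_le_one hA0).2 ?_⟩
    exact_mod_cast card_filter_le _ _
  have hZ : 0 ≤ log (((#H).choose j : ℝ) / #A) := by
    refine log_nonneg ((one_le_div hA0).2 ?_)
    have := card_le_card hA
    rw [card_powersetCard] at this
    exact_mod_cast this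
  have hL : 0 ≤ log (24 / a) := log_nonneg ((one_le_div ha).2 (by linarith))
  have hs1 : (1 : ℝ) ≤ √(#H) := Real.one_le_sqrt.2 hN1
  have hlog : 1 / 2 ≤ log (2 * √(#H)) := by
    have e1 : log 2 ≤ log (2 * √(#H)) := log_le_log (by norm_num) (by linarith)
    have := Real.log_two_gt_d9
    linarith
  have haN : 4 ≤ a * #H := by
    have e1 : g * a ^ 2 * #H ≤ a * #H := by
      refine mul_le_mul_of_nonneg_right ?_ hN0.le
      nlinarith [mul_le_mul_of_nonneg_right hg1 (sq_nonneg a)]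
    linarith
  set K := ∑ i ∈ H, kl ((deg A i : ℝ) / #A) ((j : ℝ) / #H) with hK
  set Z := log (((#H).choose j : ℝ) / #A) with hZd
  by_cases hc : a ^ 2 * #H / 32 ≤ K
  · have e := ec2_key H j A hA hne hj0 hj1 one_pos (sum_pm_le_one H _ hq j)
    rw [mul_one, ← hK, ← hZd] at e
    have hK0 : 0 ≤ K := le_trans (by positivity) hc
    have e2 : log (2 * √(#H)) ≤ g * K / 2 := by
      have := mul_le_mul_of_nonneg_left hc hg0.le
      nlinarith
    have e3 : (1 - g / 2) * K ≤ Z := by linarith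
    have e4 : (1 + g) * ((1 - g / 2) * K) ≤ (1 + g) * Z :=
      mul_le_mul_of_nonneg_left e3 (by linarith)
    have e5 : 0 ≤ g * (1 - g) * K := mul_nonneg (mul_nonneg hg0.le (by linarith)) hK0
    nlinarith
  · rw [not_le] at hc
    have hsum : a * #H / 4 ≤ ∑ i ∈ H, (deg A i : ℝ) / #A * (1 - (deg A i : ℝ) / #A) := by
      have e1 : ∑ i ∈ H, (3 * a / 8 - 4 / a * kl ((deg A i : ℝ) / #A) ((j : ℝ) / #H)) ≤
          ∑ i ∈ H, (deg A i : ℝ) / #A * (1 - (deg A i : ℝ) / #A) :=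
        sum_le_sum fun i hi => ec2_var ha hu1 hu2 (hq i hi).1 (hq i hi).2
          (kl_ge (hq i hi).1 (hq i hi).2 (by linarith) (by linarith))
      rw [sum_sub_distrib, sum_const, ← mul_sum, ← hK, nsmul_eq_mul] at e1
      have e2 : 4 / a * K ≤ 4 / a * (a ^ 2 * #H / 32) :=
        mul_le_mul_of_nonneg_left hc.le (by positivity)
      have e3 : 4 / a * (a ^ 2 * #H / 32) = a * #H / 8 := by field_simp; ring
      linarith
    have hσ2 : (√(a * #H) / 2) ^ 2 = a * #H / 4 := by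
      rw [div_pow, sq_sqrt (by positivity)]; norm_num
    have hσ1 : 1 ≤ √(a * #H) / 2 := by
      have : (2 : ℝ) ≤ √(a * #H) := Real.le_sqrt_of_sq_le (by linarith)
      linarith
    have hP := sum_pm_le H _ hq j hσ1 (by rw [hσ2]; exact hsum)
    have e := ec2_key H j A hA hne hj0 hj1 (by positivity) hP
    rw [← hK, ← hZd] at e
    have hsa : 0 < √a := Real.sqrt_pos.2 ha
    have e2 : 2 * √(#H) * (6 / (√(a * #H) / 2)) ≤ 24 / a := by
      have e3 : 2 * √(#H) * (6 / (√(a * #H) / 2)) = 24 / √a := by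
        rw [Real.sqrt_mul ha.le]; field_simp; norm_num
      rw [e3]
      refine div_le_div_of_nonneg_left (by norm_num) ha ?_
      exact Real.le_sqrt_of_sq_le (by nlinarith)
    have e4 := log_le_log (by positivity) e2
    nlinarith [mul_nonneg hg0.le hZ]

end Pool.Agent.P.MP_4f3dfd_co.Ex
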