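import Mathlib
import Pool.Agent.P.MP_4f3dfd_co.EDefs

set_option autoImplicit false
set_option linter.unusedSectionVars false
set_option linter.unusedVariables false

namespace Pool.Agent.P.MP_4f3dfd_co.Ex

open Finset Real

variable {V : Type*} [DecidableEq V]

theorem Av_zero (G : Finset V) (Φ : Finset V → Finset V → ℝ) : Av G 0 Φ = Φ ∅ ∅ := by
  simp [Av]

theorem Av_mono (G : Finset V) (r : ℕ) {Φ Ψ : Finset V → Finset V → ℝ}
    (h : ∀ S ⊆ G, #S = r → ∀ x ⊆ S, Φ S x ≤ Ψ S x) : Av G r Φ ≤ Av G r Ψ := by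
  unfold Av
  apply div_le_div_of_nonneg_right _ (Nat.cast_nonneg _)
  refine sum_le_sum fun S hS => sum_le_sum fun x hx => ?_
  rw [mem_powersetCard] at hS
  exact h S hS.1 hS.2 x (mem_powerset.1 hx)

theorem Av_nonneg (G : Finset V) (r : ℕ) {Φ : Finset V → Finset V → ℝ}
    (h : ∀ S ⊆ G, #S = r → ∀ x ⊆ S, 0 ≤ Φ S x) : 0 ≤ Av G r Φ := by
  unfold Av
  apply div_nonneg _ (Nat.cast_nonneg _)
  refine sum_nonneg fun S hS => sum_nonneg fun x hx => ?_
  rw [mem_powersetCard] at hS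
  exact h S hS.1 hS.2 x (mem_powerset.1 hx)

theorem Av_add (G : Finset V) (r : ℕ) (Φ Ψ : Finset V → Finset V → ℝ) :
    Av G r (fun S x => Φ S x + Ψ S x) = Av G r Φ + Av G r Ψ := by
  unfold Av
  simp only [sum_add_distrib, add_div]

theorem Av_mul (G : Finset V) (r : ℕ) (t : ℝ) (Φ : Finset V → Finset V → ℝ) :
    Av G r (fun S x => t * Φ S x) = t * Av G r Φ := by
  unfold Av
  simp only [← mul_sum, mul_div_assoc]

theorem Av_cnt (G : Finset V) {r : ℕ} (hr : r ≤ #G) (E : Finset (Finset V)) :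
    Av G r (fun S x => (cnt E S x : ℝ)) = #E := by
  unfold Av
  have h1 : ∀ S ∈ powersetCard r G, ∑ x ∈ S.powerset, (cnt E S x : ℝ) = #E := by
    intro S _
    have := card_eq_sum_card_fiberwise (s := E) (t := S.powerset) (f := fun X => X ∩ S)
      (fun X _ => by simp)
    rw [this]
    push_cast
    rfl
  rw [sum_congr rfl h1, sum_const, card_powersetCard, nsmul_eq_mul]
  have : ((#G).choose r : ℝ) ≠ 0 := by exact_mod_cast (Nat.choose_pos hr).ne'
  field_simp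

theorem ed1_pairs (G : Finset V) (r : ℕ) (F : Finset V → ℝ) :
    ((r : ℝ) + 1) * ∑ S ∈ powersetCard (r + 1) G, F S =
      ∑ S ∈ powersetCard r G, ∑ i ∈ G \ S, F (insert i S) := by
  have h1 : ∀ S ∈ powersetCard (r + 1) G, ((r : ℝ) + 1) * F S = ∑ i ∈ S, F S := by
    intro S hS
    rw [sum_const, (mem_powersetCard.1 hS).2, nsmul_eq_mul]
    push_cast
    ring
  rw [mul_sum, sum_congr rfl h1, sum_sigma', sum_sigma']
  refine sum_nbij' (fun p => ⟨p.1.erase p.2, p.2⟩) (fun p => ⟨insert p.2 p.1, p.2⟩) ?_ ?_ ?_ ?_ ?_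
  · rintro ⟨S, i⟩ hp
    simp only [mem_sigma, mem_powersetCard, mem_sdiff] at hp ⊢
    refine ⟨⟨(erase_subset _ _).trans hp.1.1, ?_⟩, hp.1.1 hp.2, notMem_erase _ _⟩
    rw [card_erase_of_mem hp.2, hp.1.2]
    rfl
  · rintro ⟨S, i⟩ hp
    simp only [mem_sigma, mem_powersetCard, mem_sdiff] at hp ⊢
    refine ⟨⟨insert_subset hp.2.1 hp.1.1, ?_⟩, mem_insert_self _ _⟩
    rw [card_insert_of_notMem hp.2.2, hp.1.2]
  · rintro ⟨S, i⟩ hp
    simp only [mem_sigma] at hp
    simp only [insert_erase hp.2]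
  · rintro ⟨S, i⟩ hp
    simp only [mem_sigma, mem_sdiff] at hp
    simp only [erase_insert hp.2.2]
  · rintro ⟨S, i⟩ hp
    simp only [mem_sigma] at hp
    simp only [insert_erase hp.2]

theorem Av_step (G : Finset V) {r : ℕ} (hr : r < #G) {Φ Ψ : Finset V → Finset V → ℝ}
    (h : ∀ S ⊆ G, #S = r → ∀ x ⊆ S,
      ∑ i ∈ G \ S, (Φ (insert i S) (insert i x) + Φ (insert i S) x) ≤ ((#G : ℝ) - r) * Ψ S x) :
    Av G (r + 1) Φ ≤ Av G r Ψ := by
  unfold Av
  have hc : (0 : ℝ) < (#G).choose r := by exact_mod_cast Nat.choose_pos hr.le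
  have hc1 : (0 : ℝ) < (#G).choose (r + 1) := by exact_mod_cast Nat.choose_pos hr
  have hch : (((#G).choose (r + 1) : ℕ) : ℝ) * (r + 1) = (#G).choose r * ((#G : ℝ) - r) := by
    have := Nat.choose_succ_right_eq (#G) r
    have h2 : (((#G).choose (r + 1) * (r + 1) : ℕ) : ℝ) = (((#G).choose r * (#G - r) : ℕ) : ℝ) := by
      rw [this]
    push_cast [Nat.cast_sub hr.le] at h2
    exact h2
  have key := ed1_pairs G r (fun S => ∑ x ∈ S.powerset, Φ S x)
  have h2 : ∑ S ∈ powersetCard r G, ∑ i ∈ G \ S, ∑ x ∈ (insert i S).powerset, Φ (insert i S) x ≤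
      ((#G : ℝ) - r) * ∑ S ∈ powersetCard r G, ∑ x ∈ S.powerset, Ψ S x := by
    rw [mul_sum]
    refine sum_le_sum fun S hS => ?_
    rw [mem_powersetCard] at hS
    have h3 : ∀ i ∈ G \ S, ∑ x ∈ (insert i S).powerset, Φ (insert i S) x =
        ∑ x ∈ S.powerset, (Φ (insert i S) (insert i x) + Φ (insert i S) x) := by
      intro i hi
      rw [sum_powerset_insert (mem_sdiff.1 hi).2, sum_add_distrib, add_comm]
    rw [sum_congr rfl h3, sum_comm, mul_sum]
    exact sum_le_sum fun x hx => h S hS.1 hS.2 x (mem_powerset.1 hx)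
  rw [div_le_div_iff₀ hc1 hc]
  have hr1 : (0 : ℝ) < r + 1 := by positivity
  refine le_of_mul_le_mul_right ?_ hr1
  rw [← key] at h2
  calc (∑ S ∈ powersetCard (r + 1) G, ∑ x ∈ S.powerset, Φ S x) * (#G).choose r * (r + 1)
      = ((r + 1) * ∑ S ∈ powersetCard (r + 1) G, ∑ x ∈ S.powerset, Φ S x) * (#G).choose r := by ring
    _ ≤ (((#G : ℝ) - r) * ∑ S ∈ powersetCard r G, ∑ x ∈ S.powerset, Ψ S x) * (#G).choose r :=
        mul_le_mul_of_nonneg_right h2 hc.le
    _ = (∑ S ∈ powersetCard r G, ∑ x ∈ S.powerset, Ψ S x) * ((#G).choose r * ((#G : ℝ) - r)) := by ring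
    _ = _ := by rw [← hch]; ring

theorem Av_erase (G : Finset V) {r : ℕ} (hr : r < #G) (Ψ : V → Finset V → Finset V → ℝ) :
    Av G r (fun S x => ∑ k ∈ G \ S, Ψ k S x) =
      ((#G : ℝ) - r) / #G * ∑ k ∈ G, Av (G.erase k) r (Ψ k) := by
  unfold Av
  have hc : (0 : ℝ) < (#G).choose r := by exact_mod_cast Nat.choose_pos hr.le
  have hn : (0 : ℝ) < #G := by exact_mod_cast (Nat.zero_le r).trans_lt hr
  have hnr : (0 : ℝ) < (#G : ℝ) - r := by
    have : (r : ℝ) < #G := by exact_mod_cast hr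
    linarith
  have hch : (((#G - 1).choose r : ℕ) : ℝ) * #G = (#G).choose r * ((#G : ℝ) - r) := by
    have := Nat.choose_mul_succ_eq (#G - 1) r
    have e : #G - 1 + 1 = #G := by omega
    rw [e] at this
    have h2 : (((#G - 1).choose r * #G : ℕ) : ℝ) = (((#G).choose r * (#G - r) : ℕ) : ℝ) := by
      rw [this]
    push_cast [Nat.cast_sub hr.le] at h2
    exact h2
  have h1 : ∑ S ∈ powersetCard r G, ∑ x ∈ S.powerset, ∑ k ∈ G \ S, Ψ k S x =
      ∑ k ∈ G, ∑ S ∈ powersetCard r (G.erase k), ∑ x ∈ S.powerset, Ψ k S x := by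
    rw [sum_congr rfl fun S _ => sum_comm]
    refine sum_comm' fun S k => ?_
    simp only [mem_powersetCard, mem_sdiff, subset_erase]
    tauto
  rw [h1, mul_sum, sum_div]
  refine sum_congr rfl fun k hk => ?_
  rw [card_erase_of_mem hk]
  have hc' : (((#G - 1).choose r : ℕ) : ℝ) = (#G).choose r * ((#G : ℝ) - r) / #G := by
    rw [← hch]; field_simp
  rw [hc']
  field_simp

end Pool.Agent.P.MP_4f3dfd_co.Ex
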