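import Mathlib
import Pool.Agent.P.MP_4f3dfd_co.EDefs

set_option autoImplicit false
set_option linter.unusedSectionVars false
set_option linter.unusedVariables false

namespace Pool.Agent.P.MP_4f3dfd_co.Ex

open Finset Real

variable {V : Type*} [DecidableEq V]

theorem card_fib (E : Finset (Finset V)) (S x : Finset V) : #(fib E S x) = cnt E S x := by
  refine card_image_of_injOn fun X hX Y hY h => ?_
  have h1 : X ∩ S = x := (mem_filter.1 hX).2
  have h2 : Y ∩ S = x := (mem_filter.1 hY).2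
  have h3 : X \ S = Y \ S := h
  rw [← sdiff_union_inter X S, ← sdiff_union_inter Y S, h1, h2, h3]

theorem fib_subset {G : Finset V} {c : ℕ} {E : Finset (Finset V)} (hE : E ⊆ powersetCard c G)
    (S x : Finset V) : fib E S x ⊆ powersetCard (c - #x) (G \ S) := by
  intro Z hZ
  obtain ⟨X, hX, rfl⟩ := mem_image.1 hZ
  obtain ⟨h1, h2⟩ := mem_filter.1 hX
  obtain ⟨h3, h4⟩ := mem_powersetCard.1 (hE h1)
  refine mem_powersetCard.2 ⟨sdiff_subset_sdiff h3 Subset.rfl, ?_⟩
  have h5 := card_sdiff_add_card_inter X S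
  rw [h2, h4] at h5
  omega

theorem cnt_eq_zero {G : Finset V} {c : ℕ} {E : Finset (Finset V)} (hE : E ⊆ powersetCard c G)
    (S : Finset V) {x : Finset V} (hx : c < #x) : cnt E S x = 0 := by
  refine card_eq_zero.2 (filter_eq_empty_iff.2 fun X hX h => ?_)
  have h1 := (mem_powersetCard.1 (hE hX)).2
  have h2 : #(X ∩ S) ≤ #X := card_le_card inter_subset_left
  rw [h, h1] at h2
  omega

theorem cnt_le_tot {G : Finset V} {c : ℕ} {E : Finset (Finset V)} (hE : E ⊆ powersetCard c G)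
    {S : Finset V} (hS : S ⊆ G) (x : Finset V) : cnt E S x ≤ tot G c S x := by
  have h := card_le_card (fib_subset hE S x)
  rwa [card_fib, card_powersetCard, card_sdiff_of_subset hS] at h

theorem ed2_in {S x : Finset V} (hx : x ⊆ S) {i : V} (hi : i ∉ S) (X : Finset V) :
    X ∩ insert i S = insert i x ↔ i ∈ X ∧ X ∩ S = x := by
  constructor
  · intro h
    have h1 : i ∈ X := (mem_inter.1 (h ▸ mem_insert_self i x)).1
    refine ⟨h1, ?_⟩
    rw [inter_insert_of_mem h1] at h
    rw [← erase_insert (s := X ∩ S) (a := i) fun h => hi (mem_inter.1 h).2, h,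
      erase_insert fun h => hi (hx h)]
  · rintro ⟨h1, rfl⟩
    exact inter_insert_of_mem h1

theorem ed2_out {S x : Finset V} (hx : x ⊆ S) {i : V} (hi : i ∉ S) (X : Finset V) :
    X ∩ insert i S = x ↔ i ∉ X ∧ X ∩ S = x := by
  constructor
  · intro h
    have h1 : i ∉ X := fun h1 => hi (hx (h ▸ mem_inter.2 ⟨h1, mem_insert_self i S⟩))
    rw [inter_insert_of_notMem h1] at h
    exact ⟨h1, h⟩
  · rintro ⟨h1, rfl⟩
    exact inter_insert_of_notMem h1

theorem cnt_in (E : Finset (Finset V)) {S x : Finset V} (hx : x ⊆ S) {i : V} (hi : i ∉ S) :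
    cnt E (insert i S) (insert i x) = deg (fib E S x) i := by
  have e : ({Z ∈ fib E S x | i ∈ Z} : Finset (Finset V)) = fib ({X ∈ E | i ∈ X}) S x := by
    ext Z
    simp only [fib, mem_filter, mem_image]
    constructor
    · rintro ⟨⟨X, ⟨h1, h2⟩, rfl⟩, h3⟩
      exact ⟨X, ⟨⟨h1, (mem_sdiff.1 h3).1⟩, h2⟩, rfl⟩
    · rintro ⟨X, ⟨⟨h1, h2⟩, h3⟩, rfl⟩
      exact ⟨⟨X, ⟨h1, h3⟩, rfl⟩, mem_sdiff.2 ⟨h2, hi⟩⟩
  rw [deg, e, card_fib, cnt, cnt, filter_filter]
  exact congrArg card (filter_congr fun X _ => ed2_in hx hi X)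

theorem cnt_split (E : Finset (Finset V)) {S x : Finset V} (hx : x ⊆ S) {i : V} (hi : i ∉ S) :
    cnt E (insert i S) (insert i x) + cnt E (insert i S) x = cnt E S x := by
  have h := card_filter_add_card_filter_not (s := {X ∈ E | X ∩ S = x}) (fun X => i ∈ X)
  rw [filter_filter, filter_filter] at h
  rw [cnt, cnt, cnt, ← h, filter_congr fun X _ => ed2_in hx hi X,
    filter_congr fun X _ => ed2_out hx hi X]
  exact congrArg₂ (· + ·) (congrArg card (filter_congr fun X _ => and_comm))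
    (congrArg card (filter_congr fun X _ => and_comm))

theorem cnt_empty (E : Finset (Finset V)) : cnt E ∅ ∅ = #E := by
  simp [cnt]

theorem wp_nonneg (T b : ℕ) (p : ℝ) : 0 ≤ wp T b p := by
  unfold wp
  positivity

theorem wp_le {T b : ℕ} (h : b ≤ T) {p : ℝ} (hp : 1 ≤ p) : wp T b p ≤ b := by
  rcases Nat.eq_zero_or_pos T with rfl | hT
  · simp [wp]
  have hT' : (0 : ℝ) < T := by exact_mod_cast hT
  have h1 : (b : ℝ) / T ≤ 1 := div_le_one_of_le₀ (by exact_mod_cast h) hT'.le
  have h2 := Real.rpow_le_rpow_of_exponent_ge' (by positivity : (0 : ℝ) ≤ (b : ℝ) / T) h1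
    zero_le_one hp
  rw [Real.rpow_one] at h2
  calc wp T b p ≤ T * ((b : ℝ) / T) := mul_le_mul_of_nonneg_left h2 hT'.le
    _ = b := by field_simp

theorem wp_anti {T b : ℕ} (h : b ≤ T) {p q : ℝ} (hp : 0 < p) (hpq : p ≤ q) :
    wp T b q ≤ wp T b p := by
  have h1 : (b : ℝ) / T ≤ 1 := div_le_one_of_le₀ (by exact_mod_cast h) (Nat.cast_nonneg T)
  exact mul_le_mul_of_nonneg_left
    (Real.rpow_le_rpow_of_exponent_ge' (by positivity) h1 hp.le hpq) (Nat.cast_nonneg T)

/-- The two children of a state, in terms of the fibre. -/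
theorem pw_children (E : Finset (Finset V)) {G S x : Finset V} (hS : S ⊆ G) (hx : x ⊆ S) (c : ℕ)
    (p : ℝ) {i : V} (hi : i ∈ G \ S) :
    pw E G c p (insert i S) (insert i x) + pw E G c p (insert i S) x =
      wp ((#(G \ S) - 1).choose (c - #x - 1)) (deg (fib E S x) i) p +
        wp ((#(G \ S) - 1).choose (c - #x)) (#(fib E S x) - deg (fib E S x) i) p := by
  have hiS : i ∉ S := (mem_sdiff.1 hi).2
  have hix : i ∉ x := fun h => hiS (hx h)
  have h1 := cnt_in E hx hiS
  have h2 := cnt_split E hx hiS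
  have h3 : cnt E (insert i S) x = #(fib E S x) - deg (fib E S x) i := by
    rw [card_fib]
    omega
  simp only [pw, tot]
  rw [h1, h3, card_insert_of_notMem hiS, card_insert_of_notMem hix, card_sdiff_of_subset hS,
    Nat.sub_sub, Nat.sub_sub]

theorem pw_eq (E : Finset (Finset V)) {G S : Finset V} (hS : S ⊆ G) (x : Finset V) (c : ℕ) (p : ℝ) :
    pw E G c p S x = wp ((#(G \ S)).choose (c - #x)) (#(fib E S x)) p := by
  rw [pw, tot, card_fib, card_sdiff_of_subset hS]

/-- On any state the children are bounded by the parent count. -/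
theorem pw_children_le {G : Finset V} {c : ℕ} {E : Finset (Finset V)} (hE : E ⊆ powersetCard c G)
    {S x : Finset V} (hS : S ⊆ G) (hx : x ⊆ S) {p : ℝ} (hp : 1 ≤ p) {i : V} (hi : i ∈ G \ S) :
    pw E G c p (insert i S) (insert i x) + pw E G c p (insert i S) x ≤ cnt E S x := by
  have h1 : insert i S ⊆ G := insert_subset (mem_sdiff.1 hi).1 hS
  rw [← cnt_split E hx (mem_sdiff.1 hi).2, Nat.cast_add]
  exact add_le_add (wp_le (cnt_le_tot hE h1 _) hp) (wp_le (cnt_le_tot hE h1 _) hp)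

/-- A state is atypical (and then dominated by `atyp`) or lies in the window. -/
theorem typ_or {G : Finset V} {c : ℕ} {E : Finset (Finset V)} (hE : E ⊆ powersetCard c G)
    {S : Finset V} (hS : S ⊆ G) (x : Finset V) (η : ℝ) :
    (cnt E S x : ℝ) ≤ atyp G c η S x ∨
      (#x ≤ c ∧ |((c - #x : ℕ) : ℝ) - c / #G * #(G \ S)| ≤ η * #(G \ S)) := by
  by_cases hx : #x ≤ c
  · by_cases h : η * ((#G : ℝ) - #S) < |(c : ℝ) - #x - c / #G * ((#G : ℝ) - #S)|
    · left
      rw [atyp, if_pos ⟨hx, h⟩]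
      exact_mod_cast cnt_le_tot hE hS x
    · right
      rw [card_sdiff_of_subset hS, Nat.cast_sub hx, Nat.cast_sub (card_le_card hS)]
      exact ⟨hx, not_lt.1 h⟩
  · left
    rw [cnt_eq_zero hE S (not_le.1 hx), atyp, if_neg fun h => hx h.1, Nat.cast_zero]

theorem atyp_nonneg (G : Finset V) (c : ℕ) (η : ℝ) (S x : Finset V) : 0 ≤ atyp G c η S x := by
  unfold atyp
  split_ifs
  · exact Nat.cast_nonneg _
  · exact le_rfl

end Pool.Agent.P.MP_4f3dfd_co.Ex
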