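import Mathlib
import Pool.Agent.P.MP_4f3dfd_co.EDefs
import Pool.Agent.P.MP_4f3dfd_co.ED2

set_option autoImplicit false
set_option linter.unusedSectionVars false
set_option linter.unusedVariables false

namespace Pool.Agent.P.MP_4f3dfd_co.Ex

open Finset Real

variable {V : Type*} [DecidableEq V]

theorem blk_subset {G : Finset V} {c : ℕ} {J D : Finset (Finset V)} (h : Pair G c J D) (k : V) :
    blk J D k ⊆ powersetCard (c - 1) (G.erase k) := by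
  intro Y hY
  obtain ⟨h1, h2, -⟩ := mem_filter.1 hY
  obtain ⟨h3, h4⟩ := mem_powersetCard.1 (h.hD h1)
  exact mem_powersetCard.2 ⟨subset_erase.2 ⟨h3, h2⟩, h4⟩

theorem pair_fib {G : Finset V} {c : ℕ} {J D : Finset (Finset V)} (h : Pair G c J D)
    {S x : Finset V} (hx : x ⊆ S) (hc : #x < c) :
    Pair (G \ S) (c - #x) (fib J S x) (fib D S x) := by
  refine ⟨by omega, fib_subset h.hJ S x, ?_, fun Z hZ i hi => ?_⟩
  · rw [Nat.sub_right_comm]
    exact fib_subset h.hD S x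
  · obtain ⟨X, hX, rfl⟩ := mem_image.1 hZ
    obtain ⟨h1, h2⟩ := mem_filter.1 hX
    obtain ⟨h3, h4⟩ := mem_sdiff.1 hi
    refine mem_image.2 ⟨X.erase i, mem_filter.2 ⟨h.sh X h1 i h3, ?_⟩, ?_⟩
    · rw [erase_inter, h2, erase_eq_of_notMem fun h5 => h4 (hx h5)]
    · exact erase_sdiff_comm _ _ _

theorem card_blk_fib (J D : Finset (Finset V)) {S x : Finset V} (hx : x ⊆ S) {k : V}
    (hk : k ∉ S) : #(blk (fib J S x) (fib D S x) k) = cnt (blk J D k) S x := by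
  rw [← card_fib]
  refine congrArg card (Finset.ext fun Z => ⟨fun hZ => ?_, fun hZ => ?_⟩)
  · obtain ⟨h1, h2, h3⟩ := mem_filter.1 hZ
    obtain ⟨Y, hY, rfl⟩ := mem_image.1 h1
    obtain ⟨h4, h5⟩ := mem_filter.1 hY
    refine mem_image.2 ⟨Y, mem_filter.2 ⟨mem_filter.2 ⟨h4, fun h6 => h2 (mem_sdiff.2 ⟨h6, hk⟩),
      fun h6 => h3 (mem_image.2 ⟨insert k Y, mem_filter.2 ⟨h6, ?_⟩, ?_⟩)⟩, h5⟩, rfl⟩
    · rw [insert_inter_of_notMem hk, h5]
    · exact insert_sdiff_of_notMem _ hk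
  · obtain ⟨Y, hY, rfl⟩ := mem_image.1 hZ
    obtain ⟨h1, h5⟩ := mem_filter.1 hY
    obtain ⟨h4, h2, h3⟩ := mem_filter.1 h1
    refine mem_filter.2 ⟨mem_image.2 ⟨Y, mem_filter.2 ⟨h4, h5⟩, rfl⟩,
      fun h6 => h2 (mem_sdiff.1 h6).1, fun h6 => h3 ?_⟩
    obtain ⟨X, hX, e⟩ := mem_image.1 h6
    obtain ⟨h7, h8⟩ := mem_filter.1 hX
    have e2 : X = insert k Y := by
      rw [← sdiff_union_inter X S, e, h8, insert_union, ← h5, sdiff_union_inter]
    exact e2 ▸ h7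

end Pool.Agent.P.MP_4f3dfd_co.Ex
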