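import Mathlib
import Pool.Agent.P.MP_4f3dfd_co.EDefs

set_option autoImplicit false
set_option linter.unusedSectionVars false
set_option linter.unusedVariables false

namespace Pool.Agent.P.MP_4f3dfd_co.Ex

open Finset Real

variable {V : Type*} [DecidableEq V]

theorem ef1_sum {G : Finset V} {m : ℕ} {A : Finset (Finset V)} (h : A ⊆ powersetCard m G) :
    ∑ k ∈ G, (#{X ∈ A | k ∈ X} : ℝ) = m * #A := by
  have : ∑ k ∈ G, #{X ∈ A | k ∈ X} = m * #A := by
    simp_rw [card_filter]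
    rw [sum_comm, mul_comm, ← smul_eq_mul, ← sum_const]
    refine sum_congr rfl fun X hX => ?_
    obtain ⟨h1, h2⟩ := mem_powersetCard.1 (h hX)
    rw [← card_filter, filter_mem_eq_inter, inter_eq_right.2 h1, h2]
  exact_mod_cast this

theorem ef1_not (A : Finset (Finset V)) (k : V) :
    (#{X ∈ A | k ∉ X} : ℝ) = #A - #{X ∈ A | k ∈ X} := by
  have := card_filter_add_card_filter_not (s := A) (fun X => k ∈ X)
  rw [← this]
  push_cast
  ring

theorem ef1_one {G : Finset V} {c : ℕ} {J D : Finset (Finset V)} (h : Pair G c J D)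
    (P : Finset V → Prop) [DecidablePred P] (k : V) :
    (#{Y ∈ {Y ∈ D | P Y} | k ∉ Y} : ℝ) =
      #{X ∈ J | k ∈ X ∧ P (X.erase k)} + #{Y ∈ blk J D k | P Y} := by
  have e := card_filter_add_card_filter_not (s := {Y ∈ {Y ∈ D | P Y} | k ∉ Y})
    (fun Y => insert k Y ∈ J)
  have e1 : #{Y ∈ {Y ∈ {Y ∈ D | P Y} | k ∉ Y} | insert k Y ∈ J} =
      #{X ∈ J | k ∈ X ∧ P (X.erase k)} := by
    refine card_nbij' (insert k) (·.erase k) ?_ ?_ ?_ ?_
    · intro Y hY
      simp only [coe_filter, mem_filter, Set.mem_ofPred_eq] at hY ⊢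
      refine ⟨hY.2, mem_insert_self _ _, ?_⟩
      rw [erase_insert hY.1.2]
      exact hY.1.1.2
    · intro X hX
      simp only [coe_filter, mem_filter, Set.mem_ofPred_eq] at hX ⊢
      refine ⟨⟨⟨h.sh X hX.1 k hX.2.1, hX.2.2⟩, notMem_erase _ _⟩, ?_⟩
      rw [insert_erase hX.2.1]
      exact hX.1
    · intro Y hY
      simp only [coe_filter, mem_filter, Set.mem_ofPred_eq] at hY
      exact erase_insert hY.1.2
    · intro X hX
      simp only [coe_filter, mem_filter, Set.mem_ofPred_eq] at hX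
      exact insert_erase hX.2.1
  have e2 : {Y ∈ {Y ∈ {Y ∈ D | P Y} | k ∉ Y} | ¬ insert k Y ∈ J} = {Y ∈ blk J D k | P Y} := by
    ext Y
    simp only [blk, mem_filter]
    tauto
  rw [← e, e1, e2]
  push_cast
  ring

theorem ef1_key {G : Finset V} {c : ℕ} {J D : Finset (Finset V)} (h : Pair G c J D)
    (P : Finset V → Prop) [DecidablePred P] :
    ((#G : ℝ) - c + 1) * #{Y ∈ D | P Y} =
      ∑ k ∈ G, (#{X ∈ J | k ∈ X ∧ P (X.erase k)} : ℝ) + ∑ k ∈ G, (#{Y ∈ blk J D k | P Y} : ℝ) := by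
  rw [← sum_add_distrib, ← sum_congr rfl fun k _ => ef1_one h P k]
  simp_rw [ef1_not]
  rw [sum_sub_distrib, ef1_sum ((filter_subset _ _).trans h.hD), Nat.cast_sub h.pos, sum_const,
    nsmul_eq_mul]
  push_cast
  ring

theorem ef1_deg {G : Finset V} {c : ℕ} {J D : Finset (Finset V)} (h : Pair G c J D) (i : V) :
    (#{Y ∈ D | i ∉ Y} : ℝ) = deg J i + #(blk J D i) := by
  simpa [deg] using ef1_one h (fun _ => True) i

theorem ef1_reg {G : Finset V} {m d : ℕ} {A : Finset (Finset V)} (h : A ⊆ powersetCard m G)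
    (hd : ∀ i ∈ G, deg A i = d) : (#G : ℝ) * d = m * #A := by
  rw [← ef1_sum h, ← nsmul_eq_mul, ← sum_const]
  exact sum_congr rfl fun k hk => by rw [← hd k hk, deg]

theorem pair_card {G : Finset V} {c : ℕ} {J D : Finset (Finset V)} (h : Pair G c J D) :
    ((#G : ℝ) - c + 1) * #D = c * #J + exc G J D := by
  have := ef1_key h (fun _ => True)
  simp only [filter_true, and_true] at this
  rw [this, ef1_sum h.hJ, exc]
  push_cast
  rfl

theorem pair_deg {G : Finset V} {c : ℕ} {J D : Finset (Finset V)} (h : Pair G c J D) {i : V}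
    (hi : i ∈ G) : ∃ R : ℝ, 0 ≤ R ∧ R ≤ exc G J D ∧
      (#G : ℝ) * deg J i - c * #J = R - ((#G : ℝ) - c + 1) * #(blk J D i) := by
  refine ⟨∑ k ∈ G, (#{Y ∈ blk J D k | i ∉ Y} : ℝ), sum_nonneg fun k _ => Nat.cast_nonneg _, ?_, ?_⟩
  · rw [exc]
    push_cast
    exact sum_le_sum fun k _ => by exact_mod_cast card_filter_le _ _
  · have e := ef1_key h (fun Y => i ∉ Y)
    have e1 : ∀ k ∈ G, (#{X ∈ J | k ∈ X ∧ i ∉ X.erase k} : ℝ) =
        (if k = i then (deg J i : ℝ) else 0) + #{X ∈ {X ∈ J | i ∉ X} | k ∈ X} := by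
      intro k _
      split_ifs with hk
      · subst hk
        have : {X ∈ {X ∈ J | k ∉ X} | k ∈ X} = ∅ := by
          ext X
          simp only [mem_filter, notMem_empty]
          tauto
        simp [this, deg]
      · rw [zero_add, filter_filter]
        refine congrArg (fun s : Finset (Finset V) => (#s : ℝ)) (filter_congr fun X _ => ?_)
        simp only [mem_erase, ne_eq, Ne.symm hk, not_false_eq_true, true_and]
        tauto
    rw [sum_congr rfl e1, sum_add_distrib, sum_ite_eq' G i, if_pos hi,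
      ef1_sum ((filter_subset _ _).trans h.hJ), ef1_deg h i, ef1_not J i] at e
    simp only [deg] at e ⊢
    linarith

theorem blk_le_of_regJ {G : Finset V} {c : ℕ} {J D : Finset (Finset V)} (h : Pair G c J D) {d : ℕ}
    (hd : ∀ i ∈ G, deg J i = d) {i : V} (hi : i ∈ G) :
    ((#G : ℝ) - c + 1) * #(blk J D i) ≤ exc G J D := by
  obtain ⟨R, h0, h1, h2⟩ := pair_deg h hi
  have := ef1_reg h.hJ hd
  rw [hd i hi] at h2
  linarith

theorem blk_le_of_regD {G : Finset V} {c : ℕ} {J D : Finset (Finset V)} (h : Pair G c J D) {d : ℕ}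
    (hd : ∀ i ∈ G, deg D i = d) {i : V} (hi : i ∈ G) :
    ((c : ℝ) - 1) * #(blk J D i) ≤ exc G J D := by
  obtain ⟨R, h0, h1, h2⟩ := pair_deg h hi
  have h3 := ef1_reg h.hD hd
  have h4 := ef1_deg h i
  have h5 := pair_card h
  have h6 : (#{X ∈ D | i ∈ X} : ℝ) = d := by rw [← hd i hi, deg]
  rw [ef1_not, h6] at h4
  rw [Nat.cast_sub h.pos, Nat.cast_one] at h3
  have h7 : (#G : ℝ) * (#D - d) = #G * (deg J i + #(blk J D i)) := by rw [h4]
  linarith

theorem pair_shadow {n c : ℕ} (hc : 1 ≤ c) {J : Finset (Finset (Fin n))} (hJ : ∀ X ∈ J, #X = c) :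
    Pair univ c J (shadow J) := by
  refine ⟨hc, fun X hX => mem_powersetCard.2 ⟨subset_univ _, hJ X hX⟩, fun Y hY => ?_,
    fun X hX i hi => erase_mem_shadow hX hi⟩
  obtain ⟨X, hX, i, hi, rfl⟩ := mem_shadow_iff.1 hY
  exact mem_powersetCard.2 ⟨subset_univ _, by rw [card_erase_of_mem hi, hJ X hX]⟩

theorem shadow_subset {G : Finset V} {c : ℕ} {J D : Finset (Finset V)} (h : Pair G c J D) :
    shadow J ⊆ D := by
  intro Y hY
  obtain ⟨X, hX, i, hi, rfl⟩ := mem_shadow_iff.1 hY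
  exact h.sh X hX i hi

theorem exc_shadow {n c m : ℕ} (hc : 1 ≤ c) {J : Finset (Finset (Fin n))} (hJ : Reg n c m J) :
    (exc univ J (shadow J) : ℝ) = ex n c m #(shadow J) := by
  have := pair_card (pair_shadow hc hJ.1)
  rw [card_univ, Fintype.card_fin, hJ.2.1] at this
  rw [ex]
  linarith

end Pool.Agent.P.MP_4f3dfd_co.Ex
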