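import Mathlib
import Pool.Agent.P.MP_4f3dfd_co.EDefs

set_option autoImplicit false
set_option linter.unusedSectionVars false
set_option linter.unusedVariables false

namespace Pool.Agent.P.MP_4f3dfd_co.Ex

open Finset Real

variable {V : Type*} [DecidableEq V]

theorem enum1_step_le {n k m : ℕ} (hn : 0 < n) (hk : k ≤ n) (h : m + 1 ≤ n) :
    (m.choose k : ℝ) ≤ (m + 1).choose k * (1 - (k : ℝ) / n) := by
  have hn' : (0 : ℝ) < n := by exact_mod_cast hn
  have hkn : (k : ℝ) ≤ n := by exact_mod_cast hk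
  have h0 : (0 : ℝ) ≤ 1 - (k : ℝ) / n := by
    rw [sub_nonneg, div_le_one hn']; exact hkn
  by_cases hm : k ≤ m + 1
  · have e := Nat.choose_mul_succ_eq m k
    have e' : (m.choose k : ℝ) * ((m : ℝ) + 1) = ((m + 1).choose k : ℝ) * ((m : ℝ) + 1 - k) := by
      have := congrArg (Nat.cast : ℕ → ℝ) e
      push_cast [Nat.cast_sub hm] at this
      exact this
    have hm1 : (0 : ℝ) < (m : ℝ) + 1 := by positivity
    have hmn : (m : ℝ) + 1 ≤ n := by exact_mod_cast h
    have hc : (0 : ℝ) ≤ ((m + 1).choose k : ℝ) := by positivity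
    have hk0 : (0 : ℝ) ≤ k := by positivity
    have hd : (k : ℝ) / n ≤ k / ((m : ℝ) + 1) := div_le_div_of_nonneg_left hk0 hm1 hmn
    have e2 : (m.choose k : ℝ) = ((m + 1).choose k : ℝ) * (1 - k / ((m : ℝ) + 1)) := by
      field_simp
      linarith
    rw [e2]
    exact mul_le_mul_of_nonneg_left (by linarith) hc
  · have : m.choose k = 0 := Nat.choose_eq_zero_of_lt (by omega)
    rw [this]
    push_cast
    exact mul_nonneg (by positivity) h0

theorem choose_le_mul_pow {n k z w : ℕ} (hn : 0 < n) (hk : k ≤ n) (h : z + w ≤ n) :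
    (z.choose k : ℝ) ≤ (z + w).choose k * (1 - (k : ℝ) / n) ^ w := by
  have hn' : (0 : ℝ) < n := by exact_mod_cast hn
  have hkn : (k : ℝ) ≤ n := by exact_mod_cast hk
  have h0 : (0 : ℝ) ≤ 1 - (k : ℝ) / n := by
    rw [sub_nonneg, div_le_one hn']; exact hkn
  induction w with
  | zero => simp
  | succ w ih =>
    have h1 := ih (by omega)
    have h2 := enum1_step_le (m := z + w) hn hk (by omega)
    calc (z.choose k : ℝ) ≤ (z + w).choose k * (1 - (k : ℝ) / n) ^ w := h1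
      _ ≤ ((z + w + 1).choose k * (1 - (k : ℝ) / n)) * (1 - (k : ℝ) / n) ^ w :=
          mul_le_mul_of_nonneg_right h2 (pow_nonneg h0 w)
      _ = (z + (w + 1)).choose k * (1 - (k : ℝ) / n) ^ (w + 1) := by
          rw [← add_assoc]; ring

theorem enum1_step_ge {n k z m : ℕ} (hn : 0 < n) (hk : k ≤ z) (hz : z ≤ m) (h : m + 1 ≤ n) :
    ((m + 1).choose k : ℝ) * (((z : ℝ) + 1 - k) / n) ≤ m.choose k := by
  have hn' : (0 : ℝ) < n := by exact_mod_cast hn
  have hm : k ≤ m + 1 := by omega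
  have e := Nat.choose_mul_succ_eq m k
  have e' : (m.choose k : ℝ) * ((m : ℝ) + 1) = ((m + 1).choose k : ℝ) * ((m : ℝ) + 1 - k) := by
    have := congrArg (Nat.cast : ℕ → ℝ) e
    push_cast [Nat.cast_sub hm] at this
    exact this
  have hm1 : (0 : ℝ) < (m : ℝ) + 1 := by positivity
  have hmn : (m : ℝ) + 1 ≤ n := by exact_mod_cast h
  have hc : (0 : ℝ) ≤ ((m + 1).choose k : ℝ) := by positivity
  have hkz : (k : ℝ) ≤ z := by exact_mod_cast hk
  have hzm : (z : ℝ) ≤ m := by exact_mod_cast hz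
  have e2 : (m.choose k : ℝ) = ((m + 1).choose k : ℝ) * (((m : ℝ) + 1 - k) / ((m : ℝ) + 1)) := by
    field_simp
    linarith
  rw [e2]
  refine mul_le_mul_of_nonneg_left ?_ hc
  exact div_le_div₀ (by linarith) (by linarith) hm1 hmn

theorem mul_pow_le_choose {n k z w : ℕ} (hn : 0 < n) (hk : k ≤ z) (h : z + w ≤ n) :
    ((z + w).choose k : ℝ) * (((z : ℝ) + 1 - k) / n) ^ w ≤ z.choose k := by
  have hn' : (0 : ℝ) < n := by exact_mod_cast hn
  have hkz : (k : ℝ) ≤ z := by exact_mod_cast hk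
  have h0 : (0 : ℝ) ≤ ((z : ℝ) + 1 - k) / n := div_nonneg (by linarith) hn'.le
  induction w with
  | zero => simp
  | succ w ih =>
    have h1 := ih (by omega)
    have h2 := enum1_step_ge (m := z + w) hn hk (by omega) (by omega)
    calc ((z + (w + 1)).choose k : ℝ) * (((z : ℝ) + 1 - k) / n) ^ (w + 1)
        = (((z + w + 1).choose k : ℝ) * (((z : ℝ) + 1 - k) / n)) * (((z : ℝ) + 1 - k) / n) ^ w := by
          rw [← add_assoc]; ring
      _ ≤ ((z + w).choose k : ℝ) * (((z : ℝ) + 1 - k) / n) ^ w :=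
          mul_le_mul_of_nonneg_right h2 (pow_nonneg h0 w)
      _ ≤ z.choose k := h1

theorem enum1_two_pow {k u : ℕ} (h1 : u ≤ k) : 2 ^ u ≤ (k + u).choose k := by
  induction u with
  | zero => simp
  | succ u ih =>
    have h2 := ih (by omega)
    have e := Nat.choose_mul_succ_eq (k + u) k
    have e1 : k + u + 1 - k = u + 1 := by omega
    rw [e1] at e
    have h3 : 2 ^ (u + 1) * (u + 1) ≤ (k + u + 1).choose k * (u + 1) := by
      rw [← e]
      calc 2 ^ (u + 1) * (u + 1) = 2 ^ u * (2 * (u + 1)) := by ring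
        _ ≤ (k + u).choose k * (k + u + 1) := Nat.mul_le_mul h2 (by omega)
    exact Nat.le_of_mul_le_mul_right h3 (by omega)

theorem two_pow_le_choose {z k u : ℕ} (h1 : u ≤ k) (h2 : k + u ≤ z) : 2 ^ u ≤ z.choose k :=
  (enum1_two_pow h1).trans (Nat.choose_le_choose k h2)

theorem choose_pred {z k : ℕ} (hk : 1 ≤ k) :
    (k : ℝ) * z.choose k = ((z : ℝ) - k + 1) * z.choose (k - 1) := by
  obtain ⟨j, rfl⟩ : ∃ j, k = j + 1 := ⟨k - 1, by omega⟩
  rw [Nat.add_sub_cancel]
  by_cases hj : j ≤ z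
  · have e := Nat.choose_succ_right_eq z j
    have := congrArg (Nat.cast : ℕ → ℝ) e
    push_cast [Nat.cast_sub hj] at this
    push_cast
    linarith
  · rw [Nat.choose_eq_zero_of_lt (by omega : z < j + 1), Nat.choose_eq_zero_of_lt (by omega : z < j)]
    simp

theorem choose_pred_pred {n c : ℕ} (hn : 1 ≤ n) (hc : 1 ≤ c) :
    (n : ℝ) * (n - 1).choose (c - 1) = c * n.choose c := by
  obtain ⟨j, rfl⟩ : ∃ j, c = j + 1 := ⟨c - 1, by omega⟩
  obtain ⟨m, rfl⟩ : ∃ m, n = m + 1 := ⟨n - 1, by omega⟩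
  rw [Nat.add_sub_cancel, Nat.add_sub_cancel]
  have e := Nat.add_one_mul_choose_eq m j
  have := congrArg (Nat.cast : ℕ → ℝ) e
  push_cast at this
  push_cast
  linarith

theorem le_of_mul_choose_le {n k z M : ℕ} (hn : 1 ≤ n) (h1 : n * (z - 1).choose k ≤ M)
    (h2 : M < n.choose k) : z ≤ n := by
  by_contra hz
  have h3 : n.choose k ≤ (z - 1).choose k := Nat.choose_le_choose k (by omega)
  have h4 : (z - 1).choose k ≤ n * (z - 1).choose k := Nat.le_mul_of_pos_left _ hn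
  omega

theorem le_of_lt_mul_choose {n k z M : ℕ} (h : M < n * z.choose k) : k ≤ z := by
  by_contra hz
  rw [Nat.choose_eq_zero_of_lt (by omega : z < k)] at h
  simp at h

/-- The width is at most a logarithm of the inverse density. -/
theorem width_le {n k z M : ℕ} (hk0 : 0 < k) (hk : k < n) (hz : z ≤ n) (hM : 0 < M)
    (h : M ≤ n * z.choose k) :
    ((n : ℝ) - z) * log (n / ((n : ℝ) - k)) ≤ log (n * (n.choose k : ℝ) / M) := by
  obtain ⟨w, rfl⟩ : ∃ w, n = z + w := ⟨n - z, by omega⟩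
  set n := z + w with hn
  have hn0 : 0 < n := by omega
  have hn' : (0 : ℝ) < n := by exact_mod_cast hn0
  have hkn : (k : ℝ) < n := by exact_mod_cast hk
  have hM' : (0 : ℝ) < M := by exact_mod_cast hM
  have h1 := choose_le_mul_pow (n := n) (k := k) (z := z) (w := w) hn0 hk.le le_rfl
  rw [← hn] at h1
  have h2 : (M : ℝ) ≤ n * (z.choose k : ℝ) := by exact_mod_cast h
  have hw : (n : ℝ) - z = w := by rw [hn]; push_cast; ring
  have hd : (0 : ℝ) < (n : ℝ) - k := by linarith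
  have hq : (0 : ℝ) < n / ((n : ℝ) - k) := div_pos hn' hd
  rw [hw, ← Real.log_pow]
  refine Real.log_le_log (pow_pos hq w) ?_
  rw [le_div_iff₀ hM']
  have h3 : (n / ((n : ℝ) - k)) ^ w * (1 - (k : ℝ) / n) ^ w = 1 := by
    rw [← mul_pow]
    have : (n / ((n : ℝ) - k)) * (1 - (k : ℝ) / n) = 1 := by
      field_simp
    rw [this, one_pow]
  have h4 : (M : ℝ) ≤ n * ((n.choose k : ℝ) * (1 - (k : ℝ) / n) ^ w) :=
    h2.trans (mul_le_mul_of_nonneg_left h1 hn'.le)
  calc (n / ((n : ℝ) - k)) ^ w * M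
      ≤ (n / ((n : ℝ) - k)) ^ w * (n * ((n.choose k : ℝ) * (1 - (k : ℝ) / n) ^ w)) :=
        mul_le_mul_of_nonneg_left h4 (pow_pos hq w).le
    _ = n * (n.choose k : ℝ) * ((n / ((n : ℝ) - k)) ^ w * (1 - (k : ℝ) / n) ^ w) := by ring
    _ = n * (n.choose k : ℝ) := by rw [h3, mul_one]

end Pool.Agent.P.MP_4f3dfd_co.Ex
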