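import Mathlib
import Pool.Agent.P.MP_4f3dfd_co.EDefs
import Pool.Agent.P.MP_4f3dfd_co.ENum1

set_option autoImplicit false
set_option linter.unusedSectionVars false
set_option linter.unusedVariables false

namespace Pool.Agent.P.MP_4f3dfd_co.Ex

open Finset Real

variable {V : Type*} [DecidableEq V]

theorem enum2_log (K : ℝ) :
    ∃ N : ℕ, ∀ n : ℕ, N ≤ n → 1 ≤ log n ∧ K ≤ log n ∧ K * log n ^ 3 ≤ n := by
  have h1 := tendsto_log_atTop.comp tendsto_natCast_atTop_atTop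
  have h2 := tendsto_natCast_atTop_atTop.eventually
    (((isLittleO_pow_log_id_atTop (n := 3)).const_mul_left K).bound one_pos)
  refine Filter.eventually_atTop.1 ?_
  filter_upwards [h1.eventually_ge_atTop 1, h1.eventually_ge_atTop K, h2] with n a1 a2 a3
  refine ⟨a1, a2, (le_abs_self _).trans ?_⟩
  rw [one_mul, id, norm_eq_abs, norm_eq_abs, Nat.abs_cast] at a3
  exact a3

theorem enum2_pos {n : ℕ} (h : 1 ≤ log n) : 1 ≤ n := by
  rcases Nat.eq_zero_or_pos n with rfl | hn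
  · rw [Nat.cast_zero, log_zero] at h
    linarith
  · exact hn

/-- Small width gives polynomially large density. -/
theorem dens_ge (a K : ℝ) (ha : 0 < a) (hK : 0 < K) : ∃ P : ℝ, 0 < P ∧ ∃ N : ℕ,
    ∀ n k z M : ℕ, N ≤ n → (k : ℝ) ≤ (1 - a) * n → z ≤ n → (n : ℝ) - z ≤ K * log n →
      n * (z - 1).choose k ≤ M → (n : ℝ) ^ (-P) * n.choose k ≤ M := by
  obtain ⟨N, hN⟩ := enum2_log (2 * (K + 1) / a)
  have hl : 0 ≤ |log (a / 2)| := abs_nonneg _
  refine ⟨(K + 1) * |log (a / 2)| + 1, by positivity, N, fun n k z M hn hk hz hw hM => ?_⟩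
  obtain ⟨h1, -, h2⟩ := hN n hn
  have hn1 := enum2_pos h1
  have hn1' : (1 : ℝ) ≤ n := by exact_mod_cast hn1
  have hn0 : (0 : ℝ) < n := by linarith
  have h3 : 2 * (K + 1) * log n ≤ a * n := by
    have b1 : log n ≤ log n ^ 3 := le_self_pow₀ h1 (by norm_num)
    have b2 := (mul_le_mul_of_nonneg_left b1 (show 0 ≤ 2 * (K + 1) / a by positivity)).trans h2
    rw [div_mul_eq_mul_div, div_le_iff₀ ha] at b2
    linarith
  have h4 : a * n / 2 + 1 ≤ (z : ℝ) - k := by linarith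
  have h5 : k + 1 ≤ z := by
    have : (k : ℝ) + 1 ≤ z := by linarith [mul_pos ha hn0]
    exact_mod_cast this
  have h6 := mul_pow_le_choose (n := n) (k := k) (z := z - 1) (w := n - z + 1) hn1 (by omega)
    (by omega)
  rw [show z - 1 + (n - z + 1) = n by omega, Nat.cast_sub (by omega), Nat.cast_one,
    sub_add_cancel] at h6
  have h7 : (a / 2) ^ (n - z + 1) ≤ (((z : ℝ) - k) / n) ^ (n - z + 1) :=
    pow_le_pow_left₀ (by positivity) (by rw [le_div_iff₀ hn0]; linarith) _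
  have h8 : (n : ℝ) ^ (-((K + 1) * |log (a / 2)| + 1)) ≤ (a / 2) ^ (n - z + 1) := by
    rw [rpow_def_of_pos hn0, ← exp_log (show 0 < (a / 2) ^ (n - z + 1) by positivity), log_pow]
    refine exp_le_exp.2 ?_
    have b1 : ((n - z + 1 : ℕ) : ℝ) ≤ (K + 1) * log n := by
      rw [Nat.cast_add, Nat.cast_sub hz, Nat.cast_one]
      linarith
    have b2 := mul_le_mul_of_nonneg_right b1 hl
    have b3 := mul_le_mul_of_nonneg_left (neg_abs_le (log (a / 2)))
      (Nat.cast_nonneg (α := ℝ) (n - z + 1))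
    linarith
  have h9 : (n : ℝ) * (z - 1).choose k ≤ M := by exact_mod_cast hM
  have h10 := mul_le_mul_of_nonneg_right (h8.trans h7) (Nat.cast_nonneg (α := ℝ) (n.choose k))
  have h11 := mul_le_mul_of_nonneg_right hn1' (Nat.cast_nonneg (α := ℝ) ((z - 1).choose k))
  linarith

theorem ev_log (K : ℝ) : ∃ N : ℕ, ∀ n : ℕ, N ≤ n → 1 ≤ log n ∧ K ≤ log n ∧ K * log n ^ 3 ≤ n := by
  exact enum2_log K

theorem ev_zeta (η K P ε : ℝ) (hη : 0 < η) (hK : 0 < K) (hε : 0 < ε) : ∃ N : ℕ, ∀ n : ℕ, N ≤ n →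
    ∀ u : ℝ, (n : ℝ) ≤ K * log n * u → (n : ℝ) ^ 2 * zeta n η u ≤ ε * (n : ℝ) ^ (-P) := by
  obtain ⟨Q, hQ⟩ : ∃ Q, Q = |P| + 4 + |log (ε / 4)| := ⟨_, rfl⟩
  have hQ0 : 0 ≤ Q := by
    rw [hQ]
    positivity
  obtain ⟨N, hN⟩ := enum2_log (2 * Q * K / η ^ 2)
  refine ⟨N, fun n hn u hu => ?_⟩
  obtain ⟨h1, -, h2⟩ := hN n hn
  have hn1 : (1 : ℝ) ≤ n := by exact_mod_cast enum2_pos h1
  have hn0 : (0 : ℝ) < n := by linarith
  have h3 : Q * log n ≤ η ^ 2 * u / 2 := by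
    have b1 := h2.trans hu
    rw [div_mul_eq_mul_div, div_le_iff₀ (by positivity)] at b1
    have b2 : 2 * Q * log n ^ 2 ≤ η ^ 2 * u :=
      le_of_mul_le_mul_left (by linarith) (show 0 < K * log n by positivity)
    have b3 := mul_le_mul_of_nonneg_left (le_self_pow₀ h1 two_ne_zero) hQ0
    linarith
  have h4 : √n ≤ n := by
    rw [sqrt_le_iff]
    exact ⟨hn0.le, le_self_pow₀ hn1 two_ne_zero⟩
  have h5 : (n : ℝ) ^ 2 * (2 * √n * (n + 1)) ≤ 4 * n ^ 4 := by
    have b1 : √n * ((n : ℝ) + 1) ≤ n * (2 * n) :=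
      mul_le_mul h4 (by linarith) (by positivity) hn0.le
    have b2 := mul_le_mul_of_nonneg_left b1 (show (0 : ℝ) ≤ 2 * n ^ 2 by positivity)
    linarith
  have h6 : (n : ℝ) ^ 4 * exp (-(η ^ 2 * u / 2)) ≤ ε / 4 * (n : ℝ) ^ (-P) := by
    rw [rpow_def_of_pos hn0, ← exp_log (show (0 : ℝ) < n ^ 4 by positivity), log_pow,
      ← exp_log (show 0 < ε / 4 by positivity), ← exp_add, ← exp_add]
    refine exp_le_exp.2 ?_
    have b1 := mul_le_mul_of_nonneg_right (le_abs_self P) (zero_le_one.trans h1)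
    have b2 := mul_le_mul_of_nonneg_left h1 (abs_nonneg (log (ε / 4)))
    have b3 := neg_abs_le (log (ε / 4))
    rw [hQ] at h3
    push_cast
    linarith
  have h7 := mul_le_mul_of_nonneg_right h5 (exp_pos (-(η ^ 2 * u / 2))).le
  unfold zeta
  linarith

theorem zeta_nonneg (n : ℕ) (η N : ℝ) : 0 ≤ zeta n η N := by
  unfold zeta
  positivity

theorem zeta_mono {n n' : ℕ} (hn : n ≤ n') (η : ℝ) {N N' : ℝ} (hN : N' ≤ N) :
    zeta n η N ≤ zeta n' η N' := by
  unfold zeta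
  have h1 : (n : ℝ) ≤ n' := by exact_mod_cast hn
  have h2 := mul_le_mul_of_nonneg_left hN (sq_nonneg η)
  refine mul_le_mul (mul_le_mul (mul_le_mul_of_nonneg_left (sqrt_le_sqrt h1) zero_le_two)
    (by linarith) (by positivity) (by positivity)) (exp_le_exp.2 (by linarith)) (exp_pos _).le
    (by positivity)

end Pool.Agent.P.MP_4f3dfd_co.Ex
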