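import Mathlib
import Pool.Agent.P.MP_4f3dfd_co.EDefs
import Pool.Agent.P.MP_4f3dfd_co.AChain
import Pool.Agent.P.MP_4f3dfd_co.EF1
import Pool.Agent.P.MP_4f3dfd_co.ENum

set_option autoImplicit false
set_option linter.unusedSectionVars false
set_option linter.unusedVariables false

namespace Pool.Agent.P.MP_4f3dfd_co.Ex

open Finset Real

variable {V : Type*} [DecidableEq V]

theorem edual_mem {n k : ℕ} {F : Finset (Finset (Fin n))} {Z : Finset (Fin n)} :
    Z ∈ co k F ↔ #Z = k ∧ Zᶜ ∉ F := by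
  simp [co, mem_powersetCard]

theorem edual_filter {n k l : ℕ} (h : k + l = n) {F : Finset (Finset (Fin n))}
    (hF : F ⊆ powersetCard l univ) (p : Finset (Fin n) → Prop) [DecidablePred p] :
    #{Z ∈ co k F | p Z} + #{X ∈ F | p Xᶜ} = #{Z ∈ powersetCard k univ | p Z} := by
  rw [← card_filter_add_card_filter_not (s := {Z ∈ powersetCard k univ | p Z})
    (fun Z => Zᶜ ∉ F)]
  congr 1
  · congr 1
    ext Z
    simp only [co, mem_filter]
    tauto
  · refine card_nbij' compl compl (fun X hX => ?_) (fun Z hZ => ?_) (fun X _ => compl_compl X)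
      fun Z _ => compl_compl Z
    · simp only [coe_filter, Set.mem_ofPred_eq, mem_filter, mem_powersetCard, subset_univ, true_and,
        compl_compl, not_not] at hX ⊢
      have := (mem_powersetCard.1 (hF hX.1)).2
      refine ⟨⟨?_, hX.2⟩, hX.1⟩
      rw [card_compl, Fintype.card_fin]
      omega
    · simp only [coe_filter, Set.mem_ofPred_eq, mem_filter, mem_powersetCard, subset_univ, true_and,
        compl_compl, not_not] at hZ ⊢
      exact ⟨hZ.2, hZ.1.2⟩

theorem edual_through (n k : ℕ) :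
    ∃ e : ℕ, ∀ i : Fin n, #{Z ∈ powersetCard k (univ : Finset (Fin n)) | i ∈ Z} = e := by
  cases k with
  | zero => exact ⟨0, fun i => by simp [filter_singleton]⟩
  | succ k =>
    refine ⟨(n - 1).choose k, fun i => ?_⟩
    have e : n - 1 = #((univ : Finset (Fin n)).erase i) := by
      rw [card_erase_of_mem (mem_univ i), card_univ, Fintype.card_fin]
    rw [e, ← card_powersetCard]
    refine card_nbij' (fun Z => Z.erase i) (fun Y => insert i Y) (fun Z hZ => ?_) (fun Y hY => ?_)
      (fun Z hZ => ?_) fun Y hY => ?_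
    · simp only [coe_filter, Set.mem_ofPred_eq, mem_powersetCard, subset_univ, true_and,
        mem_coe] at hZ ⊢
      exact ⟨erase_subset_erase _ (subset_univ _), by rw [card_erase_of_mem hZ.2, hZ.1]; rfl⟩
    · simp only [coe_filter, Set.mem_ofPred_eq, mem_powersetCard, subset_univ, true_and,
        mem_coe] at hY ⊢
      have hi : i ∉ Y := fun hi => notMem_erase i univ (hY.1 hi)
      exact ⟨by rw [card_insert_of_notMem hi, hY.2], mem_insert_self _ _⟩
    · simp only [coe_filter, Set.mem_ofPred_eq] at hZ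
      exact insert_erase hZ.2
    · simp only [mem_coe, mem_powersetCard] at hY
      exact erase_insert fun hi => notMem_erase i univ (hY.1 hi)

theorem edual_ins {n : ℕ} {k : Fin n} {Y : Finset (Fin n)} (h : k ∉ Y) :
    insert k (insert k Y)ᶜ = Yᶜ := by
  ext j
  by_cases hj : j = k
  · subst hj; simpa using h
  · simp [hj]

theorem card_co {n k l : ℕ} (h : k + l = n) {F : Finset (Finset (Fin n))}
    (hF : F ⊆ powersetCard l univ) : #(co k F) + #F = n.choose k := by
  have := edual_filter h hF fun _ => True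
  simpa using this

theorem reg_co {n k l : ℕ} (h : k + l = n) {F : Finset (Finset (Fin n))}
    (hF : F ⊆ powersetCard l univ) {d : ℕ} (hd : ∀ i, deg F i = d) :
    ∃ d' : ℕ, ∀ i, deg (co k F) i = d' := by
  obtain ⟨e, he⟩ := edual_through n k
  refine ⟨e - (#F - d), fun i => ?_⟩
  have h1 := edual_filter h hF fun Z => i ∈ Z
  have h2 := card_filter_add_card_filter_not (s := F) (fun X => i ∈ X)
  have h3 := hd i
  rw [he i] at h1
  simp only [mem_compl] at h1
  unfold deg at h3 ⊢
  omega

theorem pair_co {n c : ℕ} (hc : c ≤ n) {J D : Finset (Finset (Fin n))} (h : Pair univ c J D) :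
    Pair univ (n - c + 1) (co (n - c + 1) D) (co (n - c) J) := by
  refine ⟨by omega, filter_subset _ _, ?_, fun X hX i hi => ?_⟩
  · rw [Nat.add_sub_cancel]
    exact filter_subset _ _
  · obtain ⟨h1, h2⟩ := edual_mem.1 hX
    refine edual_mem.2 ⟨by rw [card_erase_of_mem hi, h1]; rfl, fun h3 => h2 ?_⟩
    have h4 := h.sh _ h3 i (by simp)
    rwa [compl_erase, erase_insert (by simpa using hi)] at h4

theorem exc_co {n c : ℕ} (hc : c ≤ n) {J D : Finset (Finset (Fin n))} (h : Pair univ c J D) :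
    exc univ (co (n - c + 1) D) (co (n - c) J) = exc univ J D := by
  refine sum_congr rfl fun k _ => ?_
  have hp := h.pos
  refine card_nbij' (fun Y => (insert k Y)ᶜ) (fun Y => (insert k Y)ᶜ) (fun Y hY => ?_)
    (fun Y hY => ?_) (fun Y hY => ?_) fun Y hY => ?_
  · simp only [blk, coe_filter, Set.mem_ofPred_eq, edual_mem] at hY ⊢
    obtain ⟨⟨h1, h2⟩, h3, h4⟩ := hY
    refine ⟨?_, by simp, by rwa [edual_ins h3]⟩
    by_contra h5
    exact h4 ⟨by rw [card_insert_of_notMem h3, h1], h5⟩
  · simp only [blk, coe_filter, Set.mem_ofPred_eq, edual_mem] at hY ⊢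
    obtain ⟨h1, h3, h4⟩ := hY
    have h5 := (mem_powersetCard.1 (h.hD h1)).2
    refine ⟨⟨?_, by rwa [compl_compl]⟩, by simp, ?_⟩
    · rw [card_compl, Fintype.card_fin, card_insert_of_notMem h3]
      omega
    · rw [edual_ins h3, compl_compl]
      exact fun h6 => h6.2 h1
  · simp only [blk, coe_filter, Set.mem_ofPred_eq] at hY
    show (insert k (insert k Y)ᶜ)ᶜ = Y
    rw [edual_ins hY.2.1, compl_compl]
  · simp only [blk, coe_filter, Set.mem_ofPred_eq] at hY
    show (insert k (insert k Y)ᶜ)ᶜ = Y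
    rw [edual_ins hY.2.1, compl_compl]

/-- Thinning a regular family to an exact size. -/
theorem round {n c m : ℕ} {T D : Finset (Finset (Fin n))} (h : Pair univ c T D) {d : ℕ}
    (hd : ∀ i, deg T i = d) (hm0 : 1 ≤ m) (hm : m ≤ #T) (hdvd : n ∣ c * m) :
    ∃ J : Finset (Finset (Fin n)), Reg n c m J ∧ #(shadow J) ≤ #D + c * (c * n) := by
  obtain ⟨d0, hd0⟩ := hdvd
  have hTc : ∀ X ∈ T, #X = c := fun X hX => (mem_powersetCard.1 (h.hJ hX)).2
  have hp := h.pos
  have e0 : n * d = c * #T := by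
    have hd' : ∀ v, #{X ∈ T | v ∈ X} = d := hd
    rw [← Asy.sum_deg_nat T c hTc, sum_congr rfl fun v _ => hd' v, sum_const, card_univ,
      Fintype.card_fin, smul_eq_mul]
  have hn0 : 0 < n := by
    have := Nat.mul_pos hp (hm0.trans hm)
    rw [← e0] at this
    exact Nat.pos_of_mul_pos_right this
  have hT : (0 : ℝ) < #T := by exact_mod_cast hm0.trans hm
  have hn : (0 : ℝ) < n := by exact_mod_cast hn0
  obtain ⟨J, g1, g2, g3, g4⟩ := exists_regular_of_fractional T c hp hTc
    (fun _ => (m : ℝ) / #T)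
    (fun _ _ => ⟨by positivity, by rw [div_le_one hT]; exact_mod_cast hm⟩) d0 m
    (by rw [Fintype.card_fin, hd0, mul_comm]) (fun v => by
      rw [sum_const, nsmul_eq_mul]
      have e3 : #{X ∈ T | v ∈ X} = d := hd v
      rw [e3]
      have e1 : (n : ℝ) * d = c * #T := by exact_mod_cast e0
      have e2 : (c : ℝ) * m = n * d0 := by exact_mod_cast hd0
      field_simp
      apply mul_left_cancel₀ hn.ne'
      linear_combination (m : ℝ) * e1 + (#T : ℝ) * e2)
  refine ⟨J, ⟨g1, g2, d0, g3⟩, ?_⟩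
  rw [Fintype.card_fin] at g4
  have := card_le_card (shadow_subset h)
  omega

theorem exists_reg {n c m : ℕ} (hc : 1 ≤ c) (hm0 : 1 ≤ m) (hm : m ≤ n.choose c)
    (hdvd : n ∣ c * m) : ∃ J : Finset (Finset (Fin n)), Reg n c m J ∧
      #(shadow J) ≤ c * m ∧ #(shadow J) ≤ n.choose (c - 1) := by
  have hP : Pair (univ : Finset (Fin n)) c (powersetCard c univ) (powersetCard (c - 1) univ) :=
    ⟨hc, Subset.rfl, Subset.rfl, fun X hX i hi => mem_powersetCard.2 ⟨subset_univ _, by
      rw [card_erase_of_mem hi, (mem_powersetCard.1 hX).2]⟩⟩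
  obtain ⟨e, he⟩ := edual_through n c
  obtain ⟨J, hJ, -⟩ := round hP (d := e) he hm0
    (by rwa [card_powersetCard, card_univ, Fintype.card_fin]) hdvd
  refine ⟨J, hJ, ?_, ?_⟩
  · have h1 : shadow J ⊆ J.biUnion fun X => X.image X.erase := by
      intro Y hY
      obtain ⟨X, hX, i, hi, rfl⟩ := mem_shadow_iff.1 hY
      exact mem_biUnion.2 ⟨X, hX, mem_image_of_mem _ hi⟩
    refine (card_le_card h1).trans (card_biUnion_le.trans ?_)
    refine (sum_le_card_nsmul _ _ c fun X hX => card_image_le.trans (hJ.1 X hX).le).trans ?_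
    rw [hJ.2.1, smul_eq_mul, mul_comm]
  · have h1 : shadow J ⊆ powersetCard (c - 1) univ := by
      intro Y hY
      obtain ⟨X, hX, i, hi, rfl⟩ := mem_shadow_iff.1 hY
      exact mem_powersetCard.2 ⟨subset_univ _, by rw [card_erase_of_mem hi, hJ.1 X hX]⟩
    have := card_le_card h1
    rwa [card_powersetCard, card_univ, Fintype.card_fin] at this

end Pool.Agent.P.MP_4f3dfd_co.Ex
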