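import Mathlib
import Pool.Agent.P.MP_4f3dfd_co.EDefs
import Pool.Agent.P.MP_4f3dfd_co.EF1
import Pool.Agent.P.MP_4f3dfd_co.ED3

set_option autoImplicit false
set_option linter.unusedSectionVars false
set_option linter.unusedVariables false

namespace Pool.Agent.P.MP_4f3dfd_co.Ex

open Finset Real

variable {V : Type*} [DecidableEq V]

theorem ef2_alg {C0 C1 J0 J1 B0 B1 D0 : ℝ} (hC0 : 0 < C0) (hC1 : 0 < C1)
    (h0 : J0 * (C0 - J0) ≤ B0 * C0) (h1 : J1 * (C1 - J1) ≤ B1 * C1) (hD : J0 * C1 ≤ D0 * C0)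
    (hM : J1 * C0 ≤ J0 * C1) (hJ0 : J0 ≤ C0) (hJ1 : 0 ≤ J1) :
    (J0 + J1) * (C1 + C0 - (J0 + J1)) ≤ (B0 + B1 + (D0 - J1)) * (C1 + C0) := by
  obtain ⟨M0, rfl⟩ : ∃ M0, J0 = M0 * C0 := ⟨J0 / C0, by field_simp⟩
  obtain ⟨M1, rfl⟩ : ∃ M1, J1 = M1 * C1 := ⟨J1 / C1, by field_simp⟩
  have a0 : M0 * (C0 - M0 * C0) ≤ B0 := le_of_mul_le_mul_right (by linarith) hC0
  have a1 : M1 * (C1 - M1 * C1) ≤ B1 := le_of_mul_le_mul_right (by linarith) hC1
  have a2 : M0 * C1 ≤ D0 := le_of_mul_le_mul_right (by linarith) hC0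
  have a3 : M1 ≤ M0 := le_of_mul_le_mul_right (by linarith) (mul_pos hC0 hC1)
  have a4 : M0 ≤ 1 := le_of_mul_le_mul_right (by linarith) hC0
  have a5 : 0 ≤ M1 := le_of_mul_le_mul_right (by linarith) hC1
  have a6 : 0 ≤ C1 + C0 - C0 * (M0 - M1) := by
    have := mul_le_mul_of_nonneg_left (show M0 - M1 ≤ 1 by linarith) hC0.le
    linarith
  have a7 := mul_nonneg (mul_nonneg hC1.le (sub_nonneg.2 a3)) a6
  have a8 := mul_le_mul_of_nonneg_right
    (show M0 * (C0 - M0 * C0) + M1 * (C1 - M1 * C1) + (M0 * C1 - M1 * C1) ≤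
      B0 + B1 + (D0 - M1 * C1) by linarith) (add_pos hC1 hC0).le
  linarith

theorem ef2_le {G : Finset V} {c : ℕ} {J D : Finset (Finset V)} (h : Pair G c J D) :
    #J ≤ (#G).choose c := (card_le_card h.hJ).trans (card_powersetCard c G).le

theorem ef2_big {G : Finset V} {c : ℕ} {J D : Finset (Finset V)} (h : Pair G c J D)
    (hc : #G ≤ c) : (#J : ℝ) * (((#G).choose c : ℝ) - #J) ≤ exc G J D * ((#G).choose c : ℝ) := by
  have h1 := ef2_le h
  have h2 : (#G).choose c ≤ 1 := by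
    rcases hc.lt_or_eq with hc | hc
    · rw [Nat.choose_eq_zero_of_lt hc]
      exact zero_le_one
    · rw [hc, Nat.choose_self]
  have h3 : (0 : ℝ) ≤ exc G J D * ((#G).choose c : ℝ) := by positivity
  rcases (show #J = 0 ∨ #J = (#G).choose c by omega) with h4 | h4
  · rw [h4, Nat.cast_zero, zero_mul]
    exact h3
  · rw [h4, sub_self, mul_zero]
    exact h3

theorem ef2_one {G : Finset V} {J D : Finset (Finset V)} (h : Pair G 1 J D) :
    (#J : ℝ) * (((#G).choose 1 : ℝ) - #J) ≤ exc G J D * ((#G).choose 1 : ℝ) := by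
  rcases J.eq_empty_or_nonempty with rfl | ⟨X, hX⟩
  · rw [card_empty, Nat.cast_zero, zero_mul]
    positivity
  obtain ⟨i, hi⟩ : X.Nonempty := card_pos.1 (by rw [(mem_powersetCard.1 (h.hJ hX)).2]; omega)
  have h1 : (1 : ℝ) ≤ #D := by exact_mod_cast card_pos.2 ⟨_, h.sh X hX i hi⟩
  have h2 := pair_card h
  have h3 : (#J : ℝ) ≤ #G := by
    have := ef2_le h
    rw [Nat.choose_one_right] at this
    exact_mod_cast this
  have h4 : (0 : ℝ) ≤ #G := Nat.cast_nonneg _
  rw [Nat.choose_one_right]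
  push_cast at h2
  have h5 : (#G : ℝ) - #J ≤ exc G J D := by
    have := mul_le_mul_of_nonneg_left h1 h4
    linarith
  have h6 := mul_le_mul_of_nonneg_right h5 h4
  have h7 := mul_le_mul_of_nonneg_right h3 (sub_nonneg.2 h3)
  linarith

theorem ef2_sum {G : Finset V} {c : ℕ} {J : Finset (Finset V)} (hJ : J ⊆ powersetCard c G) :
    ∑ i ∈ G, deg J i = c * #J := by
  simp only [deg, card_filter]
  rw [sum_comm, mul_comm, ← smul_eq_mul, ← sum_const]
  refine sum_congr rfl fun X hX => ?_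
  obtain ⟨h1, h2⟩ := mem_powersetCard.1 (hJ hX)
  rw [← card_filter, filter_mem_eq_inter, inter_eq_right.2 h1, h2]

theorem ef2_split (E : Finset (Finset V)) (i : V) :
    #E = #(fib E {i} ∅) + #(fib E {i} {i}) := by
  have := cnt_split E (S := ∅) (x := ∅) subset_rfl (notMem_empty i)
  rw [cnt_empty, insert_empty_eq] at this
  rw [card_fib, card_fib]
  omega

theorem ef2_deg (E : Finset (Finset V)) (i : V) : #(fib E {i} {i}) = deg E i := by
  rw [card_fib, cnt, deg]
  congr 1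
  exact filter_congr fun X _ => by rw [inter_eq_right, singleton_subset_iff]

theorem ef2_ind (n : ℕ) : ∀ {G : Finset V} {c : ℕ} {J D : Finset (Finset V)}, #G = n →
    Pair G c J D → (#J : ℝ) * (((#G).choose c : ℝ) - #J) ≤ exc G J D * ((#G).choose c : ℝ) := by
  induction n with
  | zero => exact fun hn h => ef2_big h (by omega)
  | succ n ih =>
    intro G c J D hn h
    by_cases hc : #G ≤ c
    · exact ef2_big h hc
    obtain ⟨k, rfl⟩ : ∃ k, c = k + 1 := ⟨c - 1, by have := h.pos; omega⟩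
    rcases Nat.eq_zero_or_pos k with rfl | hk
    · exact ef2_one h
    obtain ⟨i, hi, hmin⟩ := exists_min_image G (deg J) (card_pos.1 (by omega))
    have hd : (n + 1) * deg J i ≤ (k + 1) * #J := by
      rw [← ef2_sum h.hJ, ← hn, ← smul_eq_mul]
      exact card_nsmul_le_sum _ _ _ hmin
    have hG : #(G \ {i}) = n := by
      rw [card_sdiff_of_subset (singleton_subset_iff.2 hi), card_singleton, hn]
      rfl
    have p0 : Pair (G \ {i}) (k + 1) (fib J {i} ∅) (fib D {i} ∅) :=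
      pair_fib h (empty_subset _) (by rw [card_empty]; omega)
    have p1 : Pair (G \ {i}) k (fib J {i} {i}) (fib D {i} {i}) :=
      pair_fib h subset_rfl (by rw [card_singleton]; omega)
    have i0 := ih hG p0
    have i1 := ih hG p1
    have l0 := ef2_le p0
    have c0 := pair_card p0
    have c1 := pair_card p1
    have c2 := pair_card h
    rw [← ef2_deg, ef2_split J i] at hd
    rw [hG] at i0 i1 l0 c0 c1
    rw [hn, ef2_split J i, ef2_split D i] at c2
    rw [hn, ef2_split J i, Nat.choose_succ_succ']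
    have hkn : k < n := by omega
    have e : (n.choose (k + 1) : ℝ) * (k + 1) = n.choose k * (n - k) := by
      have := congrArg (Nat.cast (R := ℝ)) (Nat.choose_succ_right_eq n k)
      rw [Nat.cast_mul, Nat.cast_mul, Nat.cast_sub hkn.le] at this
      exact_mod_cast this
    have hC0 : (0 : ℝ) < n.choose (k + 1) := by exact_mod_cast Nat.choose_pos hkn
    have hC1 : (0 : ℝ) < n.choose k := by exact_mod_cast Nat.choose_pos hkn.le
    have hd' : ((n : ℝ) + 1) * #(fib J {i} {i}) ≤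
        (k + 1) * (#(fib J {i} ∅) + #(fib J {i} {i})) := by exact_mod_cast hd
    have hk' : (0 : ℝ) < k + 1 := by positivity
    have hB0 : (0 : ℝ) ≤ exc (G \ {i}) (fib J {i} ∅) (fib D {i} ∅) := Nat.cast_nonneg _
    push_cast at c0 c1 c2 ⊢
    have eB : (exc G J D : ℝ) = exc (G \ {i}) (fib J {i} ∅) (fib D {i} ∅) +
        exc (G \ {i}) (fib J {i} {i}) (fib D {i} {i}) +
        ((#(fib D {i} ∅) : ℝ) - #(fib J {i} {i})) := by linarith
    rw [eB]
    refine ef2_alg hC0 hC1 i0 i1 (le_of_mul_le_mul_right ?_ hk') (le_of_mul_le_mul_right ?_ hk')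
      (by exact_mod_cast l0) (Nat.cast_nonneg _)
    · have a := mul_le_mul_of_nonneg_left (show ((k : ℝ) + 1) * #(fib J {i} ∅) ≤
        (n - k) * #(fib D {i} ∅) by linarith) hC1.le
      rw [mul_assoc (#(fib D {i} ∅) : ℝ), e]
      linarith
    · have a := mul_le_mul_of_nonneg_left (show ((n : ℝ) - k) * #(fib J {i} {i}) ≤
        (k + 1) * #(fib J {i} ∅) by linarith) hC1.le
      rw [mul_assoc (#(fib J {i} {i}) : ℝ), e]
      linarith

/-- Spectral type lower bound for the excess. -/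
theorem exc_ge_var {G : Finset V} {c : ℕ} {J D : Finset (Finset V)} (h : Pair G c J D) :
    (#J : ℝ) * (((#G).choose c : ℝ) - #J) ≤ exc G J D * ((#G).choose c : ℝ) :=
  ef2_ind _ rfl h

end Pool.Agent.P.MP_4f3dfd_co.Ex
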