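import Mathlib
import Pool.Agent.P.MP_4f3dfd_co.EDefs
import Pool.Agent.P.MP_4f3dfd_co.ALower
import Pool.Agent.P.MP_4f3dfd_co.ED2
import Pool.Agent.P.MP_4f3dfd_co.ED3
import Pool.Agent.P.MP_4f3dfd_co.EF1
import Pool.Agent.P.MP_4f3dfd_co.EF2
import Pool.Agent.P.MP_4f3dfd_co.ENum

set_option autoImplicit false
set_option linter.unusedSectionVars false
set_option linter.unusedVariables false

namespace Pool.Agent.P.MP_4f3dfd_co.Ex

open Finset Real

variable {V : Type*} [DecidableEq V]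

theorem ef3_exc {G : Finset V} (J D : Finset (Finset V)) {S x : Finset V} (hx : x ⊆ S) :
    (exc (G \ S) (fib J S x) (fib D S x) : ℝ) = ∑ k ∈ G \ S, (cnt (blk J D k) S x : ℝ) := by
  rw [exc, Nat.cast_sum]
  refine sum_congr rfl fun k hk => ?_
  rw [card_blk_fib J D hx (mem_sdiff.1 hk).2]

/-- Kruskal-Katona for a pair. -/
theorem exc_ge_kk {n0 : ℕ} {H : Finset (Fin n0)} {j w : ℕ} {A D : Finset (Finset (Fin n0))}
    (h : Pair H j A D) (hw : j + w ≤ #H) (hA : #A ≤ (#H - w).choose j) :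
    (j : ℝ) * w * #A ≤ ((#H : ℝ) - j + 1) * exc H A D := by
  have hHn : #H ≤ n0 := by simpa using card_le_univ H
  have hk := Asy.kk_ratio (n := n0) (k := j) (x := #H - w) (by omega) A
    (fun X hX => (mem_powersetCard.1 (h.hJ hX)).2) hA
  have hsh : #(shadow A) ≤ #D := card_le_card (shadow_subset h)
  have hk2 : #A * j ≤ #D * (#H - w + 1 - j) := hk.trans (Nat.mul_le_mul_right _ hsh)
  have ht : ((#H - w + 1 - j : ℕ) : ℝ) = (#H : ℝ) - w + 1 - j := by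
    have e : #H - w + 1 - j + j + w = #H + 1 := by omega
    have e2 : ((#H - w + 1 - j : ℕ) : ℝ) + j + w = (#H : ℝ) + 1 := by exact_mod_cast e
    linarith
  have hk3 : (#A : ℝ) * j ≤ #D * ((#H : ℝ) - w + 1 - j) := by
    rw [← ht]; exact_mod_cast hk2
  have hp := pair_card h
  have hB : (0 : ℝ) ≤ exc H A D := Nat.cast_nonneg _
  have hw0 : (0 : ℝ) ≤ w := Nat.cast_nonneg _
  have hw' : (j : ℝ) + w ≤ #H := by exact_mod_cast hw
  have h1 : (w : ℝ) * #D ≤ exc H A D := by nlinarith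
  have h2 : (j : ℝ) * #A ≤ ((#H : ℝ) - j + 1) * #D := by linarith
  have h3 : (0 : ℝ) ≤ (#H : ℝ) - j + 1 := by linarith
  calc (j : ℝ) * w * #A = w * (j * #A) := by ring
    _ ≤ w * (((#H : ℝ) - j + 1) * #D) := mul_le_mul_of_nonneg_left h2 hw0
    _ = ((#H : ℝ) - j + 1) * (w * #D) := by ring
    _ ≤ ((#H : ℝ) - j + 1) * exc H A D := mul_le_mul_of_nonneg_left h1 h3

/-- Fibre bound from Kruskal-Katona. -/
theorem fib_kk {n0 : ℕ} {G : Finset (Fin n0)} {c : ℕ} {J D : Finset (Finset (Fin n0))}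
    (h : Pair G c J D) {S x : Finset (Fin n0)} (hS : S ⊆ G) (hx : x ⊆ S) (hxc : #x ≤ c)
    {α η T : ℝ} {w : ℕ} (hη : 0 < η) (hα1 : η < α) (hα2 : α + 2 * η < 1)
    (ht : |((c - #x : ℕ) : ℝ) - α * #(G \ S)| ≤ η * #(G \ S)) (hN : 1 ≤ η * #(G \ S))
    (hw : (w : ℝ) ≤ η * #(G \ S)) (hT : T ≤ (1 - α - 2 * η) ^ w)
    (hM : (cnt J S x : ℝ) ≤ T * tot G c S x) :
    w * (α - η) / (1 - α + 2 * η) * cnt J S x ≤ ∑ k ∈ G \ S, (cnt (blk J D k) S x : ℝ) := by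
  have hNpos : (0 : ℝ) < #(G \ S) := by
    by_contra hc
    have : η * (#(G \ S) : ℝ) ≤ 0 := mul_nonpos_of_nonneg_of_nonpos hη.le (not_lt.1 hc)
    linarith
  have hNpos' : 0 < #(G \ S) := by exact_mod_cast hNpos
  obtain ⟨hlo, hhi⟩ := abs_le.1 ht
  have hjlo : (α - η) * #(G \ S) ≤ ((c - #x : ℕ) : ℝ) := by linarith
  have hjpos : (0 : ℝ) < ((c - #x : ℕ) : ℝ) := lt_of_lt_of_le (mul_pos (by linarith) hNpos) hjlo
  have hjpos' : 0 < c - #x := by exact_mod_cast hjpos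
  have hp := pair_fib h hx (by omega : #x < c)
  have hjw : ((c - #x : ℕ) : ℝ) + w ≤ (α + 2 * η) * #(G \ S) := by linarith
  have hjw2 : ((c - #x : ℕ) : ℝ) + w ≤ #(G \ S) := by nlinarith
  have hjw' : c - #x + w ≤ #(G \ S) := by exact_mod_cast hjw2
  have htot : tot G c S x = (#(G \ S)).choose (c - #x) := by
    rw [tot, card_sdiff_of_subset hS]
  have hmp := mul_pow_le_choose (n := #(G \ S)) (k := c - #x) (z := #(G \ S) - w) (w := w) hNpos'
    (by omega) (by omega)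
  rw [Nat.sub_add_cancel (by omega : w ≤ #(G \ S)), Nat.cast_sub (by omega : w ≤ #(G \ S))] at hmp
  have hγ : 1 - α - 2 * η ≤ ((#(G \ S) : ℝ) - w + 1 - ((c - #x : ℕ) : ℝ)) / #(G \ S) := by
    rw [le_div_iff₀ hNpos]; linarith
  have hpow : (1 - α - 2 * η) ^ w ≤
      (((#(G \ S) : ℝ) - w + 1 - ((c - #x : ℕ) : ℝ)) / #(G \ S)) ^ w :=
    pow_le_pow_left₀ (by linarith) hγ w
  have hC : (0 : ℝ) ≤ ((#(G \ S)).choose (c - #x) : ℝ) := Nat.cast_nonneg _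
  have hA : (#(fib J S x) : ℝ) ≤ ((#(G \ S) - w).choose (c - #x) : ℝ) := by
    rw [card_fib]
    rw [htot] at hM
    calc (cnt J S x : ℝ) ≤ T * ((#(G \ S)).choose (c - #x) : ℝ) := hM
      _ ≤ (((#(G \ S) : ℝ) - w + 1 - ((c - #x : ℕ) : ℝ)) / #(G \ S)) ^ w *
          ((#(G \ S)).choose (c - #x) : ℝ) := mul_le_mul_of_nonneg_right (hT.trans hpow) hC
      _ ≤ _ := by rw [mul_comm]; exact hmp
  have hk := exc_ge_kk hp hjw' (by exact_mod_cast hA)
  rw [card_fib, ef3_exc J D hx] at hk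
  set B : ℝ := ∑ k ∈ G \ S, (cnt (blk J D k) S x : ℝ) with hBdef
  have hB : 0 ≤ B := sum_nonneg fun k _ => Nat.cast_nonneg _
  have hw0 : (0 : ℝ) ≤ w := Nat.cast_nonneg _
  have hc0 : (0 : ℝ) ≤ cnt J S x := Nat.cast_nonneg _
  have hden : 0 < 1 - α + 2 * η := by linarith
  have hup : (#(G \ S) : ℝ) - ((c - #x : ℕ) : ℝ) + 1 ≤ (1 - α + 2 * η) * #(G \ S) := by linarith
  have h1 : (α - η) * #(G \ S) * (w * cnt J S x) ≤ ((c - #x : ℕ) : ℝ) * (w * cnt J S x) :=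
    mul_le_mul_of_nonneg_right hjlo (mul_nonneg hw0 hc0)
  have h2 : ((#(G \ S) : ℝ) - ((c - #x : ℕ) : ℝ) + 1) * B ≤ (1 - α + 2 * η) * #(G \ S) * B :=
    mul_le_mul_of_nonneg_right hup hB
  have h3 : (w * (α - η) * cnt J S x) * #(G \ S) ≤ (B * (1 - α + 2 * η)) * #(G \ S) := by
    linarith
  have h4 := le_of_mul_le_mul_right h3 hNpos
  rw [div_mul_eq_mul_div, div_le_iff₀ hden]
  exact h4

/-- Fibre bound from the spectral inequality. -/
theorem fib_var {G : Finset V} {c : ℕ} {J D : Finset (Finset V)} (h : Pair G c J D)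
    {S x : Finset V} (hS : S ⊆ G) (hx : x ⊆ S) (hxc : #x < c)
    (hM : (cnt J S x : ℝ) ≤ 3 / 4 * tot G c S x) :
    1 / 4 * (cnt J S x : ℝ) ≤ ∑ k ∈ G \ S, (cnt (blk J D k) S x : ℝ) := by
  have hp := pair_fib h hx hxc
  have hv := exc_ge_var hp
  have htot : tot G c S x = (#(G \ S)).choose (c - #x) := by
    rw [tot, card_sdiff_of_subset hS]
  rw [card_fib, ef3_exc J D hx, ← htot] at hv
  set B : ℝ := ∑ k ∈ G \ S, (cnt (blk J D k) S x : ℝ) with hBdef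
  have hB : 0 ≤ B := sum_nonneg fun k _ => Nat.cast_nonneg _
  have hc0 : (0 : ℝ) ≤ cnt J S x := Nat.cast_nonneg _
  have hC : (0 : ℝ) ≤ tot G c S x := Nat.cast_nonneg _
  rcases hC.eq_or_lt with h0 | h0
  · rw [← h0] at hM
    linarith
  · have h1 : (cnt J S x : ℝ) * (1 / 4 * tot G c S x) ≤ cnt J S x * (tot G c S x - cnt J S x) :=
      mul_le_mul_of_nonneg_left (by linarith) hc0
    have h2 : (1 / 4 * (cnt J S x : ℝ)) * tot G c S x ≤ B * tot G c S x := by linarith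
    exact le_of_mul_le_mul_right h2 h0

end Pool.Agent.P.MP_4f3dfd_co.Ex
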