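import Mathlib
import Pool.Agent.P.MP_4f3dfd_co.EDefs
import Pool.Agent.P.MP_4f3dfd_co.EA1
import Pool.Agent.P.MP_4f3dfd_co.EF1
import Pool.Agent.P.MP_4f3dfd_co.ENum

set_option autoImplicit false
set_option linter.unusedSectionVars false
set_option linter.unusedVariables false

namespace Pool.Agent.P.MP_4f3dfd_co.Ex

open Finset Real

variable {V : Type*} [DecidableEq V]

theorem eg1_wp_anti {T T1 b θ : ℝ} (h1 : 0 < T1) (h : T1 ≤ T) (hb : 0 ≤ b) (hθ : 0 < θ) :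
    T * (b / T) ^ (1 + θ) ≤ T1 * (b / T1) ^ (1 + θ) := by
  have hT : 0 < T := h1.trans_le h
  have e1 : ∀ S : ℝ, 0 < S → S * (b / S) ^ (1 + θ) = b * (b / S) ^ θ := by
    intro S hS
    rw [rpow_one_add' (div_nonneg hb hS.le) (by linarith), ← mul_assoc,
      mul_div_cancel₀ _ hS.ne']
  rw [e1 T hT, e1 T1 h1]
  exact mul_le_mul_of_nonneg_left
    (rpow_le_rpow (div_nonneg hb hT.le) (div_le_div_of_nonneg_left hb h1 h) hθ.le) hb

theorem eg1_jensen (H : Finset V) (hH : 0 < #H) (z : V → ℝ) (hz : ∀ i, 0 ≤ z i) {p : ℝ}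
    (hp : 1 ≤ p) : (#H : ℝ) * ((∑ i ∈ H, z i) / #H) ^ p ≤ ∑ i ∈ H, z i ^ p := by
  have hN : (0 : ℝ) < #H := by exact_mod_cast hH
  have h := Real.rpow_arith_mean_le_arith_mean_rpow H (fun _ => (1 / #H : ℝ)) z
    (fun _ _ => by positivity) (by rw [sum_const, nsmul_eq_mul]; field_simp) (fun i _ => hz i) hp
  rw [← mul_sum, ← mul_sum] at h
  have e : (∑ i ∈ H, z i) / #H = 1 / #H * ∑ i ∈ H, z i := by ring
  rw [e]
  calc (#H : ℝ) * (1 / #H * ∑ i ∈ H, z i) ^ p ≤ #H * (1 / #H * ∑ i ∈ H, z i ^ p) :=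
        mul_le_mul_of_nonneg_left h hN.le
    _ = ∑ i ∈ H, z i ^ p := by field_simp

theorem eg1_abs {y s t p : ℝ} (hs : 0 ≤ s) (ht : 0 ≤ t) (h1 : y ≤ t) (h2 : -s ≤ y) (hp : 0 ≤ p) :
    |y| ^ p ≤ s ^ p + t ^ p := by
  have hs' : 0 ≤ s ^ p := rpow_nonneg hs p
  have ht' : 0 ≤ t ^ p := rpow_nonneg ht p
  rcases le_total 0 y with h | h
  · have : |y| ^ p ≤ t ^ p := rpow_le_rpow (abs_nonneg y) (by rw [abs_of_nonneg h]; exact h1) hp
    linarith
  · have : |y| ^ p ≤ s ^ p :=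
      rpow_le_rpow (abs_nonneg y) (by rw [abs_of_nonpos h]; linarith) hp
    linarith

theorem eg1_term {a θ N j C d m R B b : ℝ} (ha : 0 < a) (hN : 0 < N) (h1 : a * N ≤ j)
    (h2 : j ≤ (1 - a) * N) (hj1 : 1 ≤ j) (hθ0 : 0 < θ) (hθ : θ ≤ 1) (hC : 0 < C) (hd : 0 ≤ d)
    (hdm : d ≤ m) (hR : 0 ≤ R) (hRB : R ≤ B) (hb : 0 ≤ b)
    (he : N * d - j * m = R - (N - j + 1) * b) :
    j / N * C * (d / (j / N * C)) ^ (1 + θ) +
        (1 - j / N) * C * ((m - d) / ((1 - j / N) * C)) ^ (1 + θ) ≤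
      C * (m / C) ^ (1 + θ) + 4 / a * (C * (b / C) ^ (1 + θ) + C * (B / C / N) ^ (1 + θ)) := by
  have hu1 : a ≤ j / N := by rw [le_div_iff₀ hN]; exact h1
  have hu2 : j / N ≤ 1 - a := by rw [div_le_iff₀ hN]; exact h2
  have hu0 : 0 < j / N := ha.trans_le hu1
  have hu3 : 0 < 1 - j / N := by linarith
  have hj0 : 0 < j := by linarith
  have hjN : j < N := by nlinarith
  have hNj : N - j ≠ 0 := by linarith
  have hM1 : 0 ≤ d / (j / N * C) := div_nonneg hd (mul_pos hu0 hC).le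
  have hM0 : 0 ≤ (m - d) / ((1 - j / N) * C) := div_nonneg (by linarith) (mul_pos hu3 hC).le
  have h := two_point ha hu1 hu2 hθ0 hθ hM1 hM0
  have e1 : j / N * (d / (j / N * C)) = d / C := by field_simp
  have e0 : (1 - j / N) * ((m - d) / ((1 - j / N) * C)) = (m - d) / C := by
    have := hu3.ne'
    field_simp
  have e2 : d / C + (m - d) / C = m / C := by ring
  rw [e1, e0, e2, mul_sub, e1] at h
  have e3 : d / C - j / N * (m / C) = (R - (N - j + 1) * b) / (N * C) := by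
    rw [← he]; field_simp
  have hNC : 0 < N * C := mul_pos hN hC
  have h3 : |d / C - j / N * (m / C)| ^ (1 + θ) ≤ (b / C) ^ (1 + θ) + (B / C / N) ^ (1 + θ) := by
    refine eg1_abs (div_nonneg hb hC.le) (div_nonneg (div_nonneg (hR.trans hRB) hC.le) hN.le)
      ?_ ?_ (by linarith)
    · rw [e3, div_div, mul_comm C N]
      refine div_le_div_of_nonneg_right ?_ hNC.le
      have : 0 ≤ (N - j + 1) * b := mul_nonneg (by linarith) hb
      linarith
    · rw [e3, le_div_iff₀ hNC]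
      have e4 : -(b / C) * (N * C) = -(N * b) := by field_simp
      rw [e4]
      have : (N - j + 1) * b ≤ N * b := mul_le_mul_of_nonneg_right (by linarith) hb
      linarith
  have h4 : 0 ≤ 4 / a := by positivity
  have h5 := mul_le_mul_of_nonneg_left h3 h4
  have h6 := mul_le_mul_of_nonneg_left (h.trans (add_le_add_right h5 _)) hC.le
  calc _ = C * (j / N * (d / (j / N * C)) ^ (1 + θ) +
        (1 - j / N) * ((m - d) / ((1 - j / N) * C)) ^ (1 + θ)) := by ring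
    _ ≤ _ := h6
    _ = _ := by ring

/-- One step of the density martingale of a pair. -/
theorem mart_step {H : Finset V} {j : ℕ} {A D : Finset (Finset V)} (h : Pair H j A D) {a θ : ℝ}
    (ha : 0 < a) (hH : 0 < #H) (h1 : a * #H ≤ j) (h2 : (j : ℝ) ≤ (1 - a) * #H) (hθ0 : 0 < θ)
    (hθ : θ ≤ 1) :
    ∑ i ∈ H, (wp ((#H - 1).choose (j - 1)) (deg A i) (1 + θ) +
        wp ((#H - 1).choose j) (#A - deg A i) (1 + θ)) ≤
      #H * wp ((#H).choose j) #A (1 + θ) +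
        8 / a * ∑ k ∈ H, wp ((#H - 1).choose (j - 1)) #(blk A D k) (1 + θ) := by
  have hN : (0 : ℝ) < #H := by exact_mod_cast hH
  have hj1 : 1 ≤ j := h.pos
  have hj1' : (1 : ℝ) ≤ j := by exact_mod_cast hj1
  have hjN' : (j : ℝ) < #H := by nlinarith
  have hjN : j < #H := by exact_mod_cast hjN'
  have hC : (0 : ℝ) < (#H).choose j := by exact_mod_cast Nat.choose_pos hjN.le
  have hC1 : (((#H - 1).choose (j - 1) : ℕ) : ℝ) = j / #H * (#H).choose j := by
    have := choose_pred_pred (n := #H) (c := j) hH hj1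
    field_simp
    linarith
  have hpas : (#H).choose j = (#H - 1).choose (j - 1) + (#H - 1).choose j := by
    obtain ⟨n, hn⟩ : ∃ n, #H = n + 1 := ⟨#H - 1, by omega⟩
    obtain ⟨k, rfl⟩ : ∃ k, j = k + 1 := ⟨j - 1, by omega⟩
    rw [hn, Nat.add_sub_cancel, Nat.add_sub_cancel, Nat.choose_succ_succ']
  have hC0 : (((#H - 1).choose j : ℕ) : ℝ) = (1 - j / #H) * (#H).choose j := by
    have : (((#H).choose j : ℕ) : ℝ) = (#H - 1).choose (j - 1) + (#H - 1).choose j := by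
      exact_mod_cast hpas
    rw [sub_mul, ← hC1]
    linarith
  have hC1pos : (0 : ℝ) < (#H - 1).choose (j - 1) := by
    rw [hC1]; positivity
  have hC1le : (((#H - 1).choose (j - 1) : ℕ) : ℝ) ≤ (#H).choose j := by
    exact_mod_cast (by omega : (#H - 1).choose (j - 1) ≤ (#H).choose j)
  set C : ℝ := (((#H).choose j : ℕ) : ℝ) with hCdef
  have hterm : ∀ i ∈ H, wp ((#H - 1).choose (j - 1)) (deg A i) (1 + θ) +
      wp ((#H - 1).choose j) (#A - deg A i) (1 + θ) ≤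
      C * (#A / C) ^ (1 + θ) + 4 / a * (C * (#(blk A D i) / C) ^ (1 + θ) +
        C * (exc H A D / C / #H) ^ (1 + θ)) := by
    intro i hi
    obtain ⟨R, hR0, hRB, he⟩ := pair_deg h hi
    have hd : deg A i ≤ #A := card_filter_le _ _
    unfold wp
    rw [hC1, hC0, Nat.cast_sub hd]
    exact eg1_term ha hN h1 h2 hj1' hθ0 hθ hC (Nat.cast_nonneg _) (by exact_mod_cast hd) hR0 hRB
      (Nat.cast_nonneg _) he
  have hJ : (#H : ℝ) * (exc H A D / C / #H) ^ (1 + θ) ≤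
      ∑ k ∈ H, (#(blk A D k) / C) ^ (1 + θ) := by
    have := eg1_jensen H hH (fun k => (#(blk A D k) : ℝ) / C)
      (fun k => div_nonneg (Nat.cast_nonneg _) hC.le) (p := 1 + θ) (by linarith)
    rw [← sum_div] at this
    unfold exc
    push_cast
    exact this
  have hW : ∑ k ∈ H, C * (#(blk A D k) / C) ^ (1 + θ) ≤
      ∑ k ∈ H, wp ((#H - 1).choose (j - 1)) #(blk A D k) (1 + θ) :=
    sum_le_sum fun k _ => eg1_wp_anti hC1pos hC1le (Nat.cast_nonneg _) hθ0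
  refine (sum_le_sum hterm).trans ?_
  rw [sum_add_distrib, sum_const, nsmul_eq_mul, ← mul_sum, sum_add_distrib, sum_const,
    nsmul_eq_mul]
  have hJ' := mul_le_mul_of_nonneg_left hJ hC.le
  rw [mul_sum] at hJ'
  have h4 : 0 ≤ 4 / a := by positivity
  have h5 : ∑ k ∈ H, C * (#(blk A D k) / C) ^ (1 + θ) +
      #H * (C * (exc H A D / C / #H) ^ (1 + θ)) ≤
      2 * ∑ k ∈ H, wp ((#H - 1).choose (j - 1)) #(blk A D k) (1 + θ) := by
    have e : (#H : ℝ) * (C * (exc H A D / C / #H) ^ (1 + θ)) =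
        C * (#H * (exc H A D / C / #H) ^ (1 + θ)) := by ring
    rw [e]
    linarith
  have h6 := mul_le_mul_of_nonneg_left h5 h4
  have e8 : 8 / a * ∑ k ∈ H, wp ((#H - 1).choose (j - 1)) #(blk A D k) (1 + θ) =
      4 / a * (2 * ∑ k ∈ H, wp ((#H - 1).choose (j - 1)) #(blk A D k) (1 + θ)) := by ring
  rw [e8]
  have e9 : wp ((#H).choose j) #A (1 + θ) = C * (#A / C) ^ (1 + θ) := rfl
  rw [e9]
  linarith

end Pool.Agent.P.MP_4f3dfd_co.Ex
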