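import Mathlib
import Pool.Agent.P.MP_4f3dfd_co.EDefs
import Pool.Agent.P.MP_4f3dfd_co.EB4
import Pool.Agent.P.MP_4f3dfd_co.ED1
import Pool.Agent.P.MP_4f3dfd_co.ED2
import Pool.Agent.P.MP_4f3dfd_co.ED3
import Pool.Agent.P.MP_4f3dfd_co.EG1

set_option autoImplicit false
set_option linter.unusedSectionVars false
set_option linter.unusedVariables false

namespace Pool.Agent.P.MP_4f3dfd_co.Ex

open Finset Real

variable {V : Type*} [DecidableEq V]

theorem mart_level {G : Finset V} {c : ℕ} {J D : Finset (Finset V)} (h : Pair G c J D) {r : ℕ}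
    {a θ : ℝ} (ha : 0 < a) (h1 : 2 * a * #G ≤ c) (h2 : (c : ℝ) ≤ (1 - 2 * a) * #G) (hr : r < #G)
    (hθ0 : 0 < θ) (hθ : θ ≤ 1) :
    Av G (r + 1) (pw J G c (1 + θ)) ≤ Av G r (pw J G c (1 + θ)) +
      8 / (a * #G) * ∑ k ∈ G, Av (G.erase k) r (pw (blk J D k) (G.erase k) (c - 1) (1 + θ)) +
        zeta #G a ((#G : ℝ) - r) * (#G).choose c := by
  have hn : (0 : ℝ) < #G := by exact_mod_cast (Nat.zero_le r).trans_lt hr
  have hN : (0 : ℝ) < (#G : ℝ) - r := sub_pos.2 (by exact_mod_cast hr)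
  have han : 0 < a * #G := mul_pos ha hn
  have hc0 : 0 < c := by
    have : (0 : ℝ) < c := by linarith
    exact_mod_cast this
  have hc1 : c < #G := by
    have : (c : ℝ) < #G := by linarith
    exact_mod_cast this
  have key := Av_step G hr (Φ := pw J G c (1 + θ)) (Ψ := fun S x => (pw J G c (1 + θ) S x +
      8 / (a * ((#G : ℝ) - r)) *
        ∑ k ∈ G \ S, pw (blk J D k) (G.erase k) (c - 1) (1 + θ) S x) + atyp G c a S x)
    fun S hS hSr x hx => by
      have hH : (#(G \ S) : ℝ) = (#G : ℝ) - r := by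
        rw [card_sdiff_of_subset hS, Nat.cast_sub (card_le_card hS), hSr]
      have p1 : 0 ≤ pw J G c (1 + θ) S x := wp_nonneg _ _ _
      have p2 : 0 ≤ 8 / (a * ((#G : ℝ) - r)) *
          ∑ k ∈ G \ S, pw (blk J D k) (G.erase k) (c - 1) (1 + θ) S x :=
        mul_nonneg (by positivity) (sum_nonneg fun k _ => wp_nonneg _ _ _)
      have p3 := atyp_nonneg G c a S x
      rcases typ_or h.hJ hS x a with ht | ⟨hxc, ht⟩
      · refine (sum_le_sum fun i hi => pw_children_le h.hJ hS hx (by linarith) hi).trans ?_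
        rw [sum_const, nsmul_eq_mul, hH]
        exact mul_le_mul_of_nonneg_left (by linarith) hN.le
      · obtain ⟨t1, t2⟩ := abs_le.1 ht
        have hH0 : (0 : ℝ) < #(G \ S) := hH ▸ hN
        have q1 : 2 * a * #(G \ S) ≤ c / #G * #(G \ S) :=
          mul_le_mul_of_nonneg_right ((le_div_iff₀ hn).2 h1) hH0.le
        have q2 : c / #G * #(G \ S) ≤ (1 - 2 * a) * #(G \ S) :=
          mul_le_mul_of_nonneg_right ((div_le_iff₀ hn).2 h2) hH0.le
        have q3 : a * #(G \ S) ≤ ((c - #x : ℕ) : ℝ) := by linarith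
        have q4 : ((c - #x : ℕ) : ℝ) ≤ (1 - a) * #(G \ S) := by linarith
        have q5 : #x < c := by
          have : (0 : ℝ) < ((c - #x : ℕ) : ℝ) := (mul_pos ha hH0).trans_le q3
          exact Nat.sub_pos_iff_lt.1 (by exact_mod_cast this)
        have hm := mart_step (pair_fib h hx q5) ha (by exact_mod_cast hH0) q3 q4 hθ0 hθ
        have e1 : ∑ k ∈ G \ S, wp ((#(G \ S) - 1).choose (c - #x - 1))
            #(blk (fib J S x) (fib D S x) k) (1 + θ) =
            ∑ k ∈ G \ S, pw (blk J D k) (G.erase k) (c - 1) (1 + θ) S x :=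
          sum_congr rfl fun k hk => by
            rw [card_blk_fib J D hx (mem_sdiff.1 hk).2, pw, tot, card_sdiff_of_subset hS,
              card_erase_of_mem (mem_sdiff.1 hk).1, Nat.sub_right_comm (#G), Nat.sub_right_comm c]
        rw [e1, ← pw_eq J hS, hH] at hm
        rw [sum_congr rfl fun i hi => pw_children J hS hx c (1 + θ) hi]
        refine hm.trans ?_
        have e2 : ((#G : ℝ) - r) * (8 / (a * ((#G : ℝ) - r))) = 8 / a := by field_simp
        have p4 := mul_nonneg hN.le p3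
        rw [mul_add, mul_add, ← mul_assoc, e2]
        linarith
  rw [Av_add, Av_add, Av_mul, Av_erase G hr, ← mul_assoc] at key
  have e3 : 8 / (a * ((#G : ℝ) - r)) * (((#G : ℝ) - r) / #G) = 8 / (a * #G) := by field_simp
  rw [e3] at key
  exact key.trans (add_le_add le_rfl (Av_atyp G hc0 hc1 hr.le ha.le))

end Pool.Agent.P.MP_4f3dfd_co.Ex
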