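import Mathlib
import Pool.Agent.P.MP_4f3dfd_co.EDefs
import Pool.Agent.P.MP_4f3dfd_co.ED1
import Pool.Agent.P.MP_4f3dfd_co.ED2
import Pool.Agent.P.MP_4f3dfd_co.EG3
import Pool.Agent.P.MP_4f3dfd_co.ENum

set_option autoImplicit false
set_option linter.unusedSectionVars false
set_option linter.unusedVariables false

namespace Pool.Agent.P.MP_4f3dfd_co.Ex

open Finset Real

variable {V : Type*} [DecidableEq V]

theorem eh1_wp {C m : ℕ} {μ θ : ℝ} (hC : 0 < C) (hμ : 0 < μ) (h : μ * C = m) :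
    wp C m (1 + θ) = m * μ ^ θ := by
  have hC' : (C : ℝ) ≠ 0 := by exact_mod_cast hC.ne'
  rw [wp, ← h, mul_div_assoc, div_self hC', mul_one, rpow_add hμ, rpow_one]
  ring

theorem eh1_blk {a s n μ Λ b B m C C1 : ℝ} (ha : 0 < a) (hs : 0 < s) (hn : 0 < n) (hμ : 0 < μ)
    (hΛ : Λ = log (n / μ)) (hΛ1 : 2 / (3 * a ^ 3 * s ^ 2) ≤ Λ) (hm : μ * C = m) (hC : 0 ≤ C)
    (hC1 : 3 * a * C ≤ C1) (h1 : a * n * b ≤ B) (h2 : a * B ≤ m * Λ) :
    b ≤ exp (-((1 - s) * Λ)) * C1 := by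
  have hΛ0 : 0 < Λ := lt_of_lt_of_le (by positivity) hΛ1
  have e1 : exp (-Λ) * n = μ := by
    rw [hΛ, exp_neg, exp_log (by positivity)]
    field_simp
  have e2 : exp (-((1 - s) * Λ)) = exp (-Λ) * exp (s * Λ) := by
    rw [← exp_add]
    congr 1
    ring
  have e3 : Λ ≤ 3 * a ^ 3 * exp (s * Λ) := by
    have q := quadratic_le_exp_of_nonneg (x := s * Λ) (by positivity)
    rw [div_le_iff₀ (by positivity)] at hΛ1
    have q2 : (s * Λ) ^ 2 / 2 ≤ exp (s * Λ) := by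
      have : 0 ≤ s * Λ := by positivity
      linarith
    calc Λ = 2 * Λ / 2 := by ring
      _ ≤ Λ * (3 * a ^ 3 * s ^ 2) * Λ / 2 := by gcongr
      _ = 3 * a ^ 3 * ((s * Λ) ^ 2 / 2) := by ring
      _ ≤ _ := by gcongr
  have e4 : a ^ 2 * n * b ≤ a ^ 2 * n * (exp (-Λ) * exp (s * Λ) * C1) := by
    calc a ^ 2 * n * b = a * (a * n * b) := by ring
      _ ≤ a * B := by gcongr
      _ ≤ μ * C * Λ := by rwa [hm]
      _ ≤ μ * C * (3 * a ^ 3 * exp (s * Λ)) := by gcongr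
      _ = a ^ 2 * (μ * exp (s * Λ)) * (3 * a * C) := by ring
      _ ≤ a ^ 2 * (μ * exp (s * Λ)) * C1 := by gcongr
      _ = _ := by rw [← e1]; ring
  rw [e2]
  exact le_of_mul_le_mul_left e4 (by positivity)

theorem eh1_main {a t s E K0 Λ B m y z : ℝ} (ha : 0 < a) (ht : 0 < t) (hs0 : 0 < s)
    (hs : s ≤ 1 / 2) (hE : 0 < E) (hK0 : log (64 * E / (a ^ 2 * t * s)) ≤ K0) (hΛ : 0 < Λ)
    (hB : 0 ≤ B) (h2 : a * B ≤ m * Λ) (hz : y + K0 ≤ z) :
    16 * E / (a * (t * ((1 - s) * Λ))) * B * exp (-z) ≤ s / 2 * (m * exp (-y)) := by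
  have h1s : 0 < 1 - s := by linarith
  have hm : 0 ≤ m := by
    by_contra hm
    have : m * Λ < 0 := mul_neg_of_neg_of_pos (not_le.1 hm) hΛ
    have : 0 ≤ a * B := by positivity
    linarith
  have e1 : exp (-K0) ≤ a ^ 2 * t * s / (64 * E) := by
    refine (exp_le_exp.2 (neg_le_neg hK0)).trans (le_of_eq ?_)
    rw [exp_neg, exp_log (by positivity), inv_div]
  have e2 : exp (-z) ≤ exp (-y) * (a ^ 2 * t * s / (64 * E)) := by
    calc exp (-z) ≤ exp (-y + -K0) := exp_le_exp.2 (by linarith)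
      _ = exp (-y) * exp (-K0) := exp_add _ _
      _ ≤ _ := by gcongr
  have e3 : B ≤ m * Λ / a := by
    rw [le_div_iff₀ ha]
    linarith
  have e4 : 1 / (1 - s) ≤ 2 := by
    rw [div_le_iff₀ h1s]
    linarith
  calc _ ≤ 16 * E / (a * (t * ((1 - s) * Λ))) * (m * Λ / a) *
        (exp (-y) * (a ^ 2 * t * s / (64 * E))) := by gcongr
    _ = s / 4 * (m * exp (-y)) * (1 / (1 - s)) := by
        field_simp
        ring
    _ ≤ s / 4 * (m * exp (-y)) * 2 := by gcongr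
    _ = _ := by ring

/-- The `(1 + θ)`-moment of the conditional density stays near its initial value. -/
theorem moment (a θ s K : ℝ) (ha : 0 < a) (hθ0 : 0 < θ) (hθ : θ ≤ a) (hs0 : 0 < s)
    (hs : s ≤ 1 / 2) (hK : 0 < K) : ∃ K0 : ℝ, 1 ≤ K0 ∧ ∃ N : ℕ,
    ∀ (n0 : ℕ) (G : Finset (Fin n0)) (c N1 : ℕ) (J D : Finset (Finset (Fin n0))) (μ : ℝ),
      N ≤ #G → 3 * a * #G ≤ c →
      (c : ℝ) ≤ (1 - 3 * a) * #G → Pair G c J D → μ * (#G).choose c = #J →
      (#G : ℝ) ^ (-K) ≤ μ → (∀ k ∈ G, a * #G * #(blk J D k) ≤ exc G J D) →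
      a * exc G J D ≤ #J * log (#G / μ) → N1 ≤ #G →
      (N1 = #G ∨ #G * (θ * log (1 / μ) + K0) ≤
        θ / (1 + 18 * θ / a) * ((1 - s) * log (#G / μ)) * N1) →
      Av G (#G - N1) (pw J G c (1 + θ)) ≤ (1 + s) * #J * μ ^ θ := by
  have ht : 0 < θ / (1 + 18 * θ / a) := by positivity
  have htθ : θ / (1 + 18 * θ / a) ≤ θ := div_le_self hθ0.le (by
    have : 0 ≤ 18 * θ / a := by positivity
    linarith)
  have hE : 0 < exp (5 * log (24 / a) * θ) := exp_pos _
  have q1 : 0 < 19 * (K + 1) := by positivity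
  have q2 : 0 < 2432 * (K + 1) / (θ * a) := by positivity
  have q3 : 0 < 1 / a := by positivity
  have q4 : 0 < 2 / (3 * a ^ 3 * s ^ 2) := by positivity
  obtain ⟨N, hN⟩ := ev_log (19 * (K + 1) + 2432 * (K + 1) / (θ * a) + 1 / a +
    2 / (3 * a ^ 3 * s ^ 2))
  have hF : 0 < 8 / a * exp (5 * log (24 / a) * θ) + 1 := by positivity
  obtain ⟨N', hN'⟩ := ev_zeta a (K + 1) (2 * K)
    (s / 2 / (8 / a * exp (5 * log (24 / a) * θ) + 1)) ha (by positivity) (by positivity)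
  refine ⟨max 1 (log (64 * exp (5 * log (24 / a) * θ) /
    (a ^ 2 * (θ / (1 + 18 * θ / a)) * s))), le_max_left _ _, N + N' + 1, ?_⟩
  intro n0 G c N1 J D μ hG h1 h2 hP hm hμ hb hB hN1 hor
  have hK1 := le_max_left 1 (log (64 * exp (5 * log (24 / a) * θ) /
    (a ^ 2 * (θ / (1 + 18 * θ / a)) * s)))
  have hK2 := le_max_right 1 (log (64 * exp (5 * log (24 / a) * θ) /
    (a ^ 2 * (θ / (1 + 18 * θ / a)) * s)))
  generalize max 1 (log (64 * exp (5 * log (24 / a) * θ) /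
    (a ^ 2 * (θ / (1 + 18 * θ / a)) * s))) = K0 at hK1 hK2 hor
  have hn1 : 1 ≤ #G := by omega
  have hn : (0 : ℝ) < #G := by exact_mod_cast hn1
  have han : 0 < a * #G := by positivity
  have hcn : c ≤ #G := by
    have : (c : ℝ) ≤ #G := by linarith
    exact_mod_cast this
  have hC : 0 < (#G).choose c := Nat.choose_pos hcn
  have hC' : (0 : ℝ) < (#G).choose c := by exact_mod_cast hC
  have hpw : 0 < (#G : ℝ) ^ (-K) := rpow_pos_of_pos hn _
  have hμ0 : 0 < μ := hpw.trans_le hμ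
  have hw := eh1_wp (θ := θ) hC hμ0 hm
  have hJ0 : 0 ≤ (#J : ℝ) * μ ^ θ := by positivity
  rcases hor with rfl | hor
  · rw [Nat.sub_self, Av_zero, pw, cnt_empty, tot, card_empty, Nat.sub_zero, Nat.sub_zero, hw]
    have := mul_nonneg hs0.le hJ0
    linarith
  have hμ1 : μ ≤ 1 := by
    have : (#J : ℝ) ≤ (#G).choose c := by
      have := card_le_card hP.hJ
      rw [card_powersetCard] at this
      exact_mod_cast this
    rw [← hm] at this
    exact (mul_le_iff_le_one_left hC').1 this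
  have ha6 : a ≤ 1 / 6 := by
    have : 6 * a * #G ≤ 1 * #G := by linarith
    have := le_of_mul_le_mul_right this hn
    linarith
  obtain ⟨l1, l2, l3⟩ := hN #G (by omega)
  have hz := hN' #G (by omega) N1
  have hL0 : log μ ≤ 0 := log_nonpos hμ0.le hμ1
  have hLK : -K * log #G ≤ log μ := by
    rw [← log_rpow hn]
    exact log_le_log hpw hμ
  have hL : log (1 / μ) = -log μ := by rw [one_div, log_inv]
  have hΛ : log (#G / μ) = log #G - log μ := log_div hn.ne' hμ0.ne'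
  have hΛ1 : log #G ≤ log (#G / μ) := by linarith
  have hΛ2 : log (#G / μ) ≤ (K + 1) * log #G := by linarith
  have hsq : log (2 * √(#G : ℝ)) ≤ 2 * log #G := by
    rw [log_mul two_ne_zero (by positivity), log_sqrt hn.le]
    have := log_two_lt_d9
    linarith
  have hblk : ∀ k ∈ G, (#(blk J D k) : ℝ) ≤
      exp (-((1 - s) * log (#G / μ))) * (#G - 1).choose (c - 1) := fun k hk => by
    refine eh1_blk ha hs0 hn hμ0 rfl (by linarith) hm hC'.le ?_ (hb k hk) hB
    have e := choose_pred_pred hn1 hP.pos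
    refine le_of_mul_le_mul_left ?_ hn
    rw [e]
    have := mul_le_mul_of_nonneg_right h1 hC'.le
    linarith
  have hmain := eh1_main (y := θ * log (1 / μ))
    (z := θ / (1 + 18 * θ / a) * ((1 - s) * log (#G / μ)) * N1 / #G) ha ht hs0 hs hE hK2
    (by linarith : 0 < log (#G / μ)) (Nat.cast_nonneg _) hB (by
      rw [le_div_iff₀ hn]
      linarith)
  have hμθ : exp (-(θ * log (1 / μ))) = μ ^ θ := by
    rw [rpow_def_of_pos hμ0, hL]
    congr 1
    ring
  rw [hμθ] at hmain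
  have hN10 : (0 : ℝ) ≤ N1 := Nat.cast_nonneg _
  have hW0 : 0 < (1 - s) * log (#G / μ) := mul_pos (by linarith) (by linarith)
  have hW1 : (1 - s) * log (#G / μ) ≤ (K + 1) * log #G := by
    have := mul_nonneg hs0.le (by linarith : 0 ≤ log (#G / μ))
    linarith
  have hlow : (#G : ℝ) ≤ (K + 1) * log #G * N1 := by
    have e1 : 0 ≤ θ * log (1 / μ) := mul_nonneg hθ0.le (by linarith)
    have e2 : θ / (1 + 18 * θ / a) * ((1 - s) * log (#G / μ)) ≤ 1 * ((K + 1) * log #G) :=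
      mul_le_mul (by linarith) hW1 hW0.le zero_le_one
    calc (#G : ℝ) = #G * 1 := (mul_one _).symm
      _ ≤ #G * (θ * log (1 / μ) + K0) := by gcongr; linarith
      _ ≤ _ := hor
      _ ≤ 1 * ((K + 1) * log #G) * N1 := by gcongr
      _ = _ := by rw [one_mul]
  generalize log (#G : ℝ) = l at l1 l2 l3 hz hsq hW1 hlow
  have hl0 : 0 < l := by linarith
  have p2 : l ≤ l ^ 2 := le_self_pow₀ l1 two_ne_zero
  have p3 : l ^ 2 ≤ l ^ 3 := pow_le_pow_right₀ l1 (by norm_num)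
  have r1 : 19 * (K + 1) * l ≤ #G :=
    le_trans (mul_le_mul (by linarith) (by linarith) hl0.le (by positivity)) l3
  have r2 : 2432 * (K + 1) / (θ * a) * l ^ 2 ≤ #G :=
    le_trans (mul_le_mul (by linarith) p3 (by positivity) (by positivity)) l3
  have r3 : 1 / a * 1 ≤ #G :=
    le_trans (mul_le_mul (by linarith) (by linarith) zero_le_one (by positivity)) l3
  have hKl : 0 < (K + 1) * l := by positivity
  have h19 : 19 ≤ N1 := by
    have : (19 : ℝ) ≤ N1 := le_of_mul_le_mul_left (by linarith) hKl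
    exact_mod_cast this
  have hNN : 1216 * log (2 * √(#G : ℝ)) ≤ θ * a * N1 := by
    rw [div_mul_eq_mul_div, div_le_iff₀ (by positivity)] at r2
    have e : (#G : ℝ) * (θ * a) ≤ (K + 1) * l * N1 * (θ * a) := by gcongr
    have : 2432 * l ≤ θ * a * N1 := le_of_mul_le_mul_left (by linarith) hKl
    linarith
  have han1 : 1 ≤ a * #G := by
    rw [mul_one, div_le_iff₀ ha] at r3
    linarith
  have hT := tele hP ha (by linarith) h2 han1 hθ0 hθ h19 hN1 hNN hW0 (by linarith) hblk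
  have hζ : (8 / a * exp (5 * log (24 / a) * θ) + 1) *
      ((#G : ℝ) ^ 2 * zeta #G a N1 * (#G).choose c) ≤ s / 2 * (#J * μ ^ θ) := by
    have e1 : (#G : ℝ) ^ (-(2 * K)) = (#G : ℝ) ^ (-K) * (#G : ℝ) ^ (-K) := by
      rw [← rpow_add hn]
      congr 1
      ring
    have e2 : μ ≤ μ ^ θ := by
      have := rpow_le_rpow_of_exponent_ge hμ0 hμ1 (by linarith : θ ≤ 1)
      rwa [rpow_one] at this
    have e3 : (#G : ℝ) ^ (-(2 * K)) ≤ μ * μ ^ θ := by
      rw [e1]
      exact mul_le_mul hμ (hμ.trans e2) hpw.le hμ0.le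
    have e4 := hz hlow
    generalize 8 / a * exp (5 * log (24 / a) * θ) + 1 = F at hF e4 ⊢
    calc _ ≤ F * (s / 2 / F * (#G : ℝ) ^ (-(2 * K)) * (#G).choose c) := by gcongr
      _ ≤ F * (s / 2 / F * (μ * μ ^ θ) * (#G).choose c) := by gcongr
      _ = _ := by
        rw [← hm]
        field_simp
  rw [hw] at hT
  linarith

end Pool.Agent.P.MP_4f3dfd_co.Ex
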