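import Mathlib
import Pool.Agent.P.MP_4f3dfd_co.EDefs

set_option autoImplicit false
set_option linter.unusedSectionVars false
set_option linter.unusedVariables false

namespace Pool.Agent.P.MP_4f3dfd_co.Ex

open Finset Real

variable {V : Type*} [DecidableEq V]

theorem kappa_cont (a ε : ℝ) (ha : 0 < a) (hε : 0 < ε) : ∃ η : ℝ, 0 < η ∧ η ≤ a ∧
    ∀ α : ℝ, 3 * a ≤ α → α ≤ 1 - 3 * a →
      (1 - ε) * (α / ((1 - α) * log (1 / (1 - α)))) ≤
        (α - η) / (1 - α + 2 * η) / log (1 / (1 - α - 2 * η)) := by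
  have he0 : 0 < min ε 1 := lt_min hε one_pos
  have he1 : min ε 1 ≤ 1 := min_le_right _ _
  have he2 : min ε 1 ≤ ε := min_le_left _ _
  set e := min ε 1 with hedef
  have hη0 : 0 < min a (e * a ^ 2 / 3) := lt_min ha (by positivity)
  have hη1 : min a (e * a ^ 2 / 3) ≤ a := min_le_left _ _
  have hη2 : min a (e * a ^ 2 / 3) ≤ e * a ^ 2 / 3 := min_le_right _ _
  set η := min a (e * a ^ 2 / 3) with hηdef
  refine ⟨η, hη0, hη1, fun α hα1 hα2 => ?_⟩
  have ha6 : a ≤ 1 / 6 := by linarith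
  have hα0 : 0 < α := by linarith
  have hβ : 0 < 1 - α := by linarith
  have hβ2 : a ≤ 1 - α - 2 * η := by linarith
  have hβ3 : 0 < 1 - α - 2 * η := lt_of_lt_of_le ha hβ2
  have hl0 : α ≤ log (1 / (1 - α)) := by
    rw [one_div, Real.log_inv]
    have := Real.log_le_sub_one_of_pos hβ
    linarith
  have hl01 : log (1 / (1 - α)) ≤ log (1 / (1 - α - 2 * η)) :=
    Real.log_le_log (by positivity) (one_div_le_one_div_of_le hβ3 (by linarith))
  have hl1 : log (1 / (1 - α - 2 * η)) ≤ log (1 / (1 - α)) + 2 * η / a := by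
    have h1 : log ((1 - α) / (1 - α - 2 * η)) ≤ (1 - α) / (1 - α - 2 * η) - 1 :=
      Real.log_le_sub_one_of_pos (by positivity)
    have h2 : (1 - α) / (1 - α - 2 * η) - 1 = 2 * η / (1 - α - 2 * η) := by
      field_simp
      ring
    have h3 : 2 * η / (1 - α - 2 * η) ≤ 2 * η / a :=
      div_le_div_of_nonneg_left (by positivity) ha hβ2
    rw [Real.log_div hβ.ne' hβ3.ne'] at h1
    rw [one_div, one_div, Real.log_inv, Real.log_inv]
    linarith
  set l0 := log (1 / (1 - α)) with hl0def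
  set l1 := log (1 / (1 - α - 2 * η)) with hl1def
  have hl0p : 0 < l0 := lt_of_lt_of_le hα0 hl0
  have hl1p : 0 < l1 := lt_of_lt_of_le hl0p hl01
  obtain ⟨y, hy⟩ : ∃ y : ℝ, η = y * a ^ 2 := ⟨η / a ^ 2, by field_simp⟩
  have ha2 : 0 < a ^ 2 := by positivity
  have hy0 : 0 < y := by
    rw [hy] at hη0
    exact (mul_pos_iff_of_pos_right ha2).1 hη0
  have hy1 : y ≤ e / 3 := by
    have : y * a ^ 2 ≤ e / 3 * a ^ 2 := by linarith
    exact le_of_mul_le_mul_right this ha2
  have hx0 : 0 < y * a := by positivity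
  have hx1 : y * a ≤ y / 6 := by nlinarith
  have hηx : η = y * a * a := by rw [hy]; ring
  have hA : α * (1 - y * a) ≤ α - η := by
    rw [hηx]
    nlinarith
  have hB : 1 - α + 2 * η ≤ (1 - α) * (1 + y * a) := by
    rw [hηx]
    nlinarith
  have hC : l1 ≤ l0 * (1 + y) := by
    have h1 : 2 * η / a = 2 * (y * a) := by
      rw [hηx]
      field_simp
    have h2 : 3 * a * y ≤ l0 * y := mul_le_mul_of_nonneg_right (by linarith) hy0.le
    nlinarith
  have hD : (1 - e) * ((1 + y * a) * (1 + y)) ≤ 1 - y * a := by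
    have h1 : y * a * y ≤ y := by nlinarith
    have h2 : 0 ≤ e * (y * a + y + y * a * y) := by positivity
    nlinarith
  have hpos : 0 < 1 - α + 2 * η := by linarith
  have hq : 0 < α / ((1 - α) * l0) := by positivity
  calc (1 - ε) * (α / ((1 - α) * l0)) ≤ (1 - e) * (α / ((1 - α) * l0)) :=
        mul_le_mul_of_nonneg_right (by linarith) hq.le
    _ = ((1 - e) * α) / ((1 - α) * l0) := by ring
    _ ≤ (α - η) / ((1 - α + 2 * η) * l1) := by
      rw [div_le_div_iff₀ (by positivity) (by positivity)]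
      have h1 : (1 - α + 2 * η) * l1 ≤ ((1 - α) * (1 + y * a)) * (l0 * (1 + y)) :=
        mul_le_mul hB hC hl1p.le (by positivity)
      have h2 : (1 - e) * α * ((1 - α + 2 * η) * l1) ≤
          (1 - e) * α * (((1 - α) * (1 + y * a)) * (l0 * (1 + y))) :=
        mul_le_mul_of_nonneg_left h1 (mul_nonneg (by linarith) hα0.le)
      have h3 : (1 - e) * ((1 + y * a) * (1 + y)) * (α * ((1 - α) * l0)) ≤
          (1 - y * a) * (α * ((1 - α) * l0)) := mul_le_mul_of_nonneg_right hD (by positivity)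
      have h4 : α * (1 - y * a) * ((1 - α) * l0) ≤ (α - η) * ((1 - α) * l0) :=
        mul_le_mul_of_nonneg_right hA (by positivity)
      calc _ ≤ _ := h2
        _ = (1 - e) * ((1 + y * a) * (1 + y)) * (α * ((1 - α) * l0)) := by ring
        _ ≤ _ := h3
        _ = α * (1 - y * a) * ((1 - α) * l0) := by ring
        _ ≤ _ := h4
    _ = _ := by rw [div_div]

end Pool.Agent.P.MP_4f3dfd_co.Ex
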