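import Mathlib
import Pool.Agent.P.MP_4f3dfd_co.EDefs
import Pool.Agent.P.MP_4f3dfd_co.ENum
import Pool.Agent.P.MP_4f3dfd_co.EF3
import Pool.Agent.P.MP_4f3dfd_co.EH1
import Pool.Agent.P.MP_4f3dfd_co.EH2
import Pool.Agent.P.MP_4f3dfd_co.EH3

set_option autoImplicit false
set_option linter.unusedSectionVars false
set_option linter.unusedVariables false

namespace Pool.Agent.P.MP_4f3dfd_co.Ex

open Finset Real

variable {V : Type*} [DecidableEq V]

theorem eh4_final {e θ θt L K0 Λ n N1 κ m B β : ℝ} (he0 : 0 < e) (he : e ≤ 1 / 8) (hθ : 0 < θ)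
    (hθt : (1 - e) * θ ≤ θt) (hL : 0 ≤ L) (hK0 : 1 ≤ K0) (hΛ : 0 < Λ) (hn : 0 < n) (hN1 : 0 < N1)
    (hv : N1 * (θt * ((1 - e) * Λ)) ≤ (1 + e) * (n * (θ * L + K0))) (hκ : 0 ≤ κ)
    (hβ : (1 - e) * (L + K0 / θ) * ((1 - e) * κ) ≤ β) (hm : 0 ≤ m) (hB : 0 ≤ B)
    (hmain : β * ((1 - e) * m) ≤ N1 / n * B) : (1 - 8 * e) * κ * (m * Λ) ≤ B := by
  have he1 : 0 < 1 - e := by linarith
  have hX : 0 < θ * L + K0 := by positivity
  set X := θ * L + K0 with hXd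
  have hD : 0 < (1 - e) ^ 2 * θ * Λ := by positivity
  have h1 : N1 / n ≤ (1 + e) * X / ((1 - e) ^ 2 * θ * Λ) := by
    rw [div_le_div_iff₀ hn hD]
    have h2 : N1 * (((1 - e) * θ) * ((1 - e) * Λ)) ≤ N1 * (θt * ((1 - e) * Λ)) := by
      gcongr
    calc N1 * ((1 - e) ^ 2 * θ * Λ) = N1 * (((1 - e) * θ) * ((1 - e) * Λ)) := by ring
      _ ≤ (1 + e) * (n * X) := h2.trans hv
      _ = (1 + e) * X * n := by ring
  have hq : L + K0 / θ = X / θ := by rw [hXd]; field_simp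
  have h2 : (1 - e) ^ 3 * (X / θ) * κ * m ≤ (1 + e) * X / ((1 - e) ^ 2 * θ * Λ) * B := by
    calc (1 - e) ^ 3 * (X / θ) * κ * m
        = ((1 - e) * (L + K0 / θ) * ((1 - e) * κ)) * ((1 - e) * m) := by rw [hq]; ring
      _ ≤ β * ((1 - e) * m) := mul_le_mul_of_nonneg_right hβ (by positivity)
      _ ≤ N1 / n * B := hmain
      _ ≤ _ := mul_le_mul_of_nonneg_right h1 hB
  have h3 : (1 - e) ^ 5 * (κ * (m * Λ)) ≤ (1 + e) * B := by
    calc (1 - e) ^ 5 * (κ * (m * Λ))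
        = ((1 - e) ^ 3 * (X / θ) * κ * m) * ((1 - e) ^ 2 * θ * Λ / X) := by field_simp
      _ ≤ ((1 + e) * X / ((1 - e) ^ 2 * θ * Λ) * B) * ((1 - e) ^ 2 * θ * Λ / X) :=
          mul_le_mul_of_nonneg_right h2 (by positivity)
      _ = (1 + e) * B := by field_simp
  have h4 : (1 + e) * (1 - 8 * e) ≤ (1 - e) ^ 5 := by
    have h5 : 1 + (5 : ℕ) * (-e) ≤ (1 + -e) ^ 5 := one_add_mul_le_pow (by linarith) 5
    have h6 : (1 + -e) = 1 - e := by ring
    rw [h6] at h5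
    push_cast at h5
    nlinarith
  have h5 : 0 ≤ κ * (m * Λ) := by positivity
  have h6 : (1 + e) * ((1 - 8 * e) * κ * (m * Λ)) ≤ (1 + e) * B := by
    calc (1 + e) * ((1 - 8 * e) * κ * (m * Λ)) = (1 + e) * (1 - 8 * e) * (κ * (m * Λ)) := by ring
      _ ≤ (1 - e) ^ 5 * (κ * (m * Λ)) := mul_le_mul_of_nonneg_right h4 h5
      _ ≤ _ := h3
  exact le_of_mul_le_mul_left h6 (by linarith)

theorem eh4_log_ge {α : ℝ} (h : α < 1) : α ≤ log (1 / (1 - α)) := by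
  have h1 : 0 < 1 - α := by linarith
  have h2 := Real.log_le_sub_one_of_pos h1
  rw [one_div, log_inv]
  linarith

theorem eh4_kappa {c n : ℝ} (hn : 0 < n) (hc : c < n) :
    c / ((n - c) * log (n / (n - c))) = c / n / ((1 - c / n) * log (1 / (1 - c / n))) := by
  have h1 : 0 < n - c := by linarith
  have h2 : 1 - c / n = (n - c) / n := by field_simp
  rw [h2, one_div_div, div_div, ← mul_assoc, mul_div_cancel₀ _ hn.ne']

theorem eh4_n1 {e L k a' b y : ℝ} (he : 0 < e) (hk : 0 < k) (h1 : a' + b + k ≤ e * L)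
    (h2 : L - a' - b ≤ y) : (1 - e) * (L + k) ≤ y := by
  nlinarith [mul_pos he hk]

theorem eh4_n2 {e : ℝ} (he : 0 < e) (h : e ≤ 1 / 8) : (1 + e) * (e / 4) ≤ e / 2 := by
  nlinarith

theorem eh4_n3 {p q x y n : ℝ} (hp : 0 ≤ p) (hq : 0 ≤ q) (hy : 0 ≤ y) (hxy : x ≤ y)
    (h : (p + q) * y ≤ n) : p * x ≤ n ∧ q * x ≤ n := by
  have h1 := mul_le_mul_of_nonneg_left hxy hp
  have h2 := mul_le_mul_of_nonneg_left hxy hq
  have h3 := mul_nonneg hp hy
  have h4 := mul_nonneg hq hy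
  constructor <;> linarith

theorem eh4_n4 {e θ : ℝ} (he : 0 < e) (hθ : 0 < θ) : (1 - e) * θ * (1 + e) ≤ θ := by
  nlinarith [mul_pos hθ (mul_pos he he)]

theorem eh4_n5 {Q a η K x : ℝ} (ha : 0 < a) (hη : 0 < η) (hQ : Q = (K + 1) * x) :
    Q * (Q / a) = η * ((K + 1) ^ 2 / (a * η) * x ^ 2) := by
  rw [hQ]; field_simp

theorem eh4_n6 {e K x : ℝ} (he : 0 < e) : (K + 1) * x * 1 = e * ((K + 1) / e * x) := by
  field_simp

theorem eh4_n7 {w l p q : ℝ} (hl : 0 < l) (hq : 0 < q) : w * l * (p / q / l) = w * p / q := by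
  field_simp

theorem eh4_n8 {μ θ e : ℝ} (hμ : 0 < μ) (hθ : 0 < θ) (he : 0 < e) :
    (μ * exp (log (4 / e) / θ)) ^ (-θ) * μ ^ θ = e / 4 := by
  have h4 : log (4 / e) / θ * -θ = -log (4 / e) := by field_simp
  rw [mul_rpow hμ.le (exp_pos _).le, ← exp_mul, h4, exp_neg,
    exp_log (by positivity), rpow_neg hμ.le]
  have h5 : 0 < μ ^ θ := rpow_pos_of_pos hμ _
  field_simp

/-- Sharp lower bound for the excess of small families with small blocks. -/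
theorem core_sharp (a ε K : ℝ) (ha : 0 < a) (hε : 0 < ε) (hK : 0 < K) : ∃ δ : ℝ, 0 < δ ∧ ∃ N : ℕ,
    ∀ (n0 : ℕ) (G : Finset (Fin n0)) (c : ℕ) (J D : Finset (Finset (Fin n0))) (μ : ℝ), N ≤ #G →
      3 * a * #G ≤ c → (c : ℝ) ≤ (1 - 3 * a) * #G → Pair G c J D → μ * (#G).choose c = #J →
      (#G : ℝ) ^ (-K) ≤ μ → μ ≤ δ → (∀ k ∈ G, a * #G * #(blk J D k) ≤ exc G J D) →
      (1 - ε) * (c / (((#G : ℝ) - c) * log (#G / ((#G : ℝ) - c)))) * (#J * log (#G / μ)) ≤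
        exc G J D := by
  obtain ⟨e, he0, he8, heε⟩ : ∃ e : ℝ, 0 < e ∧ e ≤ 1 / 8 ∧ 8 * e ≤ ε :=
    ⟨min ε 1 / 8, by positivity, by linarith [min_le_right ε 1], by linarith [min_le_left ε 1]⟩
  obtain ⟨η, hη0, hηa, hκ⟩ := kappa_cont a e ha he0
  obtain ⟨θ, hθd⟩ : ∃ θ : ℝ, θ = a * e / 18 := ⟨_, rfl⟩
  have hθ0 : 0 < θ := by rw [hθd]; positivity
  have hθa : θ ≤ a := by rw [hθd]; nlinarith
  have hθt : θ / (1 + 18 * θ / a) = θ / (1 + e) := by
    have : 18 * θ / a = e := by rw [hθd]; field_simp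
    rw [this]
  obtain ⟨K0, hK0, Nm, hmom⟩ := moment a θ e K ha hθ0 hθa he0 (by linarith) hK
  obtain ⟨a', ha'd⟩ : ∃ a' : ℝ, a' = log (4 / e) / θ := ⟨_, rfl⟩
  have ha'0 : 0 ≤ a' := by
    rw [ha'd]
    refine div_nonneg (log_nonneg ?_) hθ0.le
    rw [le_div_iff₀ he0]; linarith
  obtain ⟨L0, hL0d⟩ : ∃ L0 : ℝ, L0 = (a' + |log a| + K0 / θ) / e := ⟨_, rfl⟩
  have hK0θ : 0 < K0 / θ := by positivity
  have hL00 : 0 ≤ L0 := by rw [hL0d]; positivity
  obtain ⟨Nl, hlog⟩ := ev_log ((K + 1) ^ 2 / (a * η) + (K + 1) / e)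
  obtain ⟨Nz, hz⟩ := ev_zeta η (K + 1) K (e / 2) hη0 (by linarith) (by positivity)
  refine ⟨exp (-L0), exp_pos _, max 1 (max Nm (max Nl Nz)), ?_⟩
  intro n0 G c J D μ hN h1 h2 hP hμ hμ1 hμ2 hb
  have hn1 : 1 ≤ #G := (le_max_left _ _).trans hN
  have hNm : Nm ≤ #G := ((le_max_left _ _).trans (le_max_right _ _)).trans hN
  have hNl : Nl ≤ #G :=
    (((le_max_left _ _).trans (le_max_right _ _)).trans (le_max_right _ _)).trans hN
  have hNz : Nz ≤ #G :=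
    (((le_max_right _ _).trans (le_max_right _ _)).trans (le_max_right _ _)).trans hN
  obtain ⟨hl1, -, hl3⟩ := hlog _ hNl
  have hmom' := fun N1 => hmom n0 G c N1 J D μ hNm h1 h2 hP hμ hμ1 hb
  have hz' := hz _ hNz
  clear hmom hz hlog
  have hnR : (1 : ℝ) ≤ #G := by exact_mod_cast hn1
  have hn0 : (0 : ℝ) < #G := by linarith
  obtain ⟨α, hαd⟩ : ∃ α : ℝ, α = c / #G := ⟨_, rfl⟩
  have hα1 : 3 * a ≤ α := by rw [hαd, le_div_iff₀ hn0]; exact h1
  have hα2 : α ≤ 1 - 3 * a := by rw [hαd, div_le_iff₀ hn0]; exact h2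
  have ha6 : a ≤ 1 / 6 := by linarith
  have hcnR : (c : ℝ) < #G := by
    rw [← div_lt_one hn0, ← hαd]; linarith
  have hcn : c < #G := by exact_mod_cast hcnR
  have hμ0 : 0 < μ := (rpow_pos_of_pos hn0 _).trans_le hμ1
  have hμle : μ ≤ 1 := hμ2.trans (exp_le_one_iff.2 (by linarith))
  have hC : (0 : ℝ) < (#G).choose c := by exact_mod_cast Nat.choose_pos hcn.le
  have hm0 : (0 : ℝ) < #J := by rw [← hμ]; positivity
  have hB0 : (0 : ℝ) ≤ exc G J D := Nat.cast_nonneg _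
  obtain ⟨L, hLd⟩ : ∃ L : ℝ, L = log (1 / μ) := ⟨_, rfl⟩
  have hLμ : L = -log μ := by rw [hLd, one_div, log_inv]
  have hL0 : L0 ≤ L := by
    have := log_le_log hμ0 hμ2
    rw [log_exp] at this
    linarith
  have hLK : L ≤ K * log #G := by
    have := log_le_log (rpow_pos_of_pos hn0 _) hμ1
    rw [log_rpow hn0] at this
    linarith
  obtain ⟨Λ, hΛd⟩ : ∃ Λ : ℝ, Λ = log (#G / μ) := ⟨_, rfl⟩
  have hΛe : Λ = log #G + L := by rw [hΛd, log_div hn0.ne' hμ0.ne', hLμ]; ring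
  have hLnn : 0 ≤ L := hL00.trans hL0
  have hΛ0 : 0 < Λ := by linarith
  have hΛK : Λ ≤ (K + 1) * log #G := by linarith
  have hα0 : 0 < α := by linarith
  have hα3 : 0 < 1 - α := by linarith
  have hl0 : α ≤ log (1 / (1 - α)) := eh4_log_ge (by linarith)
  obtain ⟨κ, hκd⟩ : ∃ κ : ℝ, κ = α / ((1 - α) * log (1 / (1 - α))) := ⟨_, rfl⟩
  have hκe : c / (((#G : ℝ) - c) * log (#G / ((#G : ℝ) - c))) = κ := by
    rw [hκd, hαd]; exact eh4_kappa hn0 hcnR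
  have hκ0 : 0 ≤ κ := by
    rw [hκd]
    exact div_nonneg hα0.le (mul_nonneg hα3.le (by linarith))
  rw [hκe, ← hΛd]
  have hκmΛ : 0 ≤ κ * (#J * Λ) := by positivity
  suffices hs : (1 - 8 * e) * κ * (#J * Λ) ≤ exc G J D by
    refine le_trans ?_ hs
    rw [mul_assoc, mul_assoc]
    exact mul_le_mul_of_nonneg_right (by linarith) hκmΛ
  by_cases hcase : a * exc G J D ≤ #J * Λ
  swap
  · push Not at hcase
    have hκa : a * κ ≤ 1 := by
      rw [hκd, ← mul_div_assoc, div_le_one (mul_pos hα3 (by linarith))]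
      exact mul_le_mul (by linarith) hl0 hα0.le hα3.le
    have h3 : a * (κ * (#J * Λ)) ≤ a * exc G J D := by
      calc a * (κ * (#J * Λ)) = (a * κ) * (#J * Λ) := by ring
        _ ≤ 1 * (#J * Λ) := mul_le_mul_of_nonneg_right hκa (by positivity)
        _ ≤ _ := by linarith
    have h4 := le_of_mul_le_mul_left h3 ha
    rw [mul_assoc]
    exact (mul_le_of_le_one_left hκmΛ (by linarith)).trans h4
  have he1 : 0 < 1 - e := by linarith
  obtain ⟨θt, hθtd⟩ : ∃ θt : ℝ, θt = θ / (1 + e) := ⟨_, rfl⟩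
  have hθt0 : 0 < θt := by rw [hθtd]; positivity
  have hθt1 : (1 - e) * θ ≤ θt := by
    rw [hθtd, le_div_iff₀ (by linarith)]
    exact eh4_n4 he0 hθ0
  have hθt2 : θt ≤ 1 := by
    rw [hθtd, div_le_one (by linarith)]; linarith
  have hX : 1 ≤ θ * L + K0 := by linarith [mul_nonneg hθ0.le hLnn]
  have hY0 : 0 < θt * ((1 - e) * Λ) := by positivity
  have hY1 : θt * ((1 - e) * Λ) ≤ (K + 1) * log #G := by
    have h3 : (1 - e) * Λ ≤ Λ := mul_le_of_le_one_left hΛ0.le (by linarith)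
    have h4 : θt * ((1 - e) * Λ) ≤ 1 * ((1 - e) * Λ) :=
      mul_le_mul_of_nonneg_right hθt2 (by positivity)
    linarith
  obtain ⟨v, hvd⟩ : ∃ v : ℝ, v = #G * (θ * L + K0) / (θt * ((1 - e) * Λ)) := ⟨_, rfl⟩
  have hvY : v * (θt * ((1 - e) * Λ)) = #G * (θ * L + K0) := by
    rw [hvd]; exact div_mul_cancel₀ _ hY0.ne'
  have hv0 : 0 < v := by rw [hvd]; positivity
  have hQ0 : 0 < (K + 1) * log #G := by positivity
  have hQ1 : 1 ≤ (K + 1) * log #G := one_le_mul_of_one_le_of_one_le (by linarith) hl1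
  have hvn : (#G : ℝ) ≤ (K + 1) * log #G * v := by
    have h3 : (#G : ℝ) ≤ #G * (θ * L + K0) := le_mul_of_one_le_right hn0.le hX
    have h4 : v * (θt * ((1 - e) * Λ)) ≤ v * ((K + 1) * log #G) :=
      mul_le_mul_of_nonneg_left hY1 hv0.le
    linarith
  have hlg2 : log (#G : ℝ) ^ 2 ≤ log (#G : ℝ) ^ 3 := pow_le_pow_right₀ hl1 (by norm_num)
  have hlg1 : log (#G : ℝ) ≤ log (#G : ℝ) ^ 3 := by
    simpa using pow_le_pow_right₀ hl1 (show 1 ≤ 3 by norm_num)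
  have hp1 : 0 ≤ (K + 1) ^ 2 / (a * η) := by positivity
  have hp2 : 0 ≤ (K + 1) / e := by positivity
  have hlg3 : 0 ≤ log (#G : ℝ) ^ 3 := by positivity
  have hev : 1 ≤ e * v := by
    have h3 : (K + 1) / e * log #G ≤ #G := (eh4_n3 hp1 hp2 hlg3 hlg1 hl3).2
    have h4 : (K + 1) * log #G * 1 ≤ (K + 1) * log #G * (e * v) := by
      calc (K + 1) * log #G * 1 = e * ((K + 1) / e * log #G) := eh4_n6 he0
        _ ≤ e * ((K + 1) * log #G * v) := mul_le_mul_of_nonneg_left (h3.trans hvn) he0.le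
        _ = _ := by ring
    exact le_of_mul_le_mul_left h4 hQ0
  obtain ⟨N1, hN1d⟩ : ∃ N1 : ℕ, N1 = min #G ⌈v⌉₊ := ⟨_, rfl⟩
  have hN1n : N1 ≤ #G := by rw [hN1d]; exact min_le_left _ _
  have hN1v : (N1 : ℝ) ≤ (1 + e) * v := by
    have h3 : N1 ≤ ⌈v⌉₊ := by rw [hN1d]; exact min_le_right _ _
    have h4 : (N1 : ℝ) ≤ ⌈v⌉₊ := by exact_mod_cast h3
    have h5 := (Nat.ceil_lt_add_one hv0.le).le
    linarith
  have hN1or : N1 = #G ∨ v ≤ N1 := by
    rcases le_total #G ⌈v⌉₊ with h3 | h3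
    · left; rw [hN1d, min_eq_left h3]
    · right; rw [hN1d, min_eq_right h3]; exact Nat.le_ceil v
  have hN1l : (#G : ℝ) ≤ (K + 1) * log #G * N1 := by
    rcases hN1or with h3 | h3
    · rw [h3]; exact le_mul_of_one_le_left hn0.le hQ1
    · exact hvn.trans (mul_le_mul_of_nonneg_left h3 hQ0.le)
  have hN10 : (0 : ℝ) < N1 := by
    by_contra h3
    have h4 : (K + 1) * log #G * N1 ≤ 0 := mul_nonpos_of_nonneg_of_nonpos hQ0.le (not_lt.1 h3)
    linarith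
  have hN1p : 0 < N1 := by exact_mod_cast hN10
  have hηN : (K + 1) * log #G / a ≤ η * N1 := by
    have h3 : (K + 1) ^ 2 / (a * η) * log (#G : ℝ) ^ 2 ≤ #G := (eh4_n3 hp1 hp2 hlg3 hlg2 hl3).1
    have h4 : (K + 1) * log #G * ((K + 1) * log #G / a) ≤ (K + 1) * log #G * (η * N1) := by
      calc (K + 1) * log #G * ((K + 1) * log #G / a)
          = η * ((K + 1) ^ 2 / (a * η) * log (#G : ℝ) ^ 2) := eh4_n5 ha hη0 rfl
        _ ≤ η * ((K + 1) * log #G * N1) := mul_le_mul_of_nonneg_left (h3.trans hN1l) hη0.le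
        _ = _ := by ring
    exact le_of_mul_le_mul_left h4 hQ0
  have hAv : Av G (#G - N1) (pw J G c (1 + θ)) ≤ (1 + e) * #J * μ ^ θ := by
    refine hmom' N1 (by rw [← hΛd]; exact hcase) hN1n (hN1or.imp id fun h3 => ?_)
    rw [hθt, ← hθtd, ← hΛd, ← hLd, ← hvY, mul_comm v]
    exact mul_le_mul_of_nonneg_left h3 hY0.le
  have hγ : a ≤ 1 - α - 2 * η := by linarith
  have hγ0 : 0 < 1 - α - 2 * η := by linarith
  obtain ⟨l, hld⟩ : ∃ l : ℝ, l = log (1 / (1 - α - 2 * η)) := ⟨_, rfl⟩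
  have hla : a ≤ l := by
    have h3 : α + 2 * η ≤ log (1 / (1 - (α + 2 * η))) := eh4_log_ge (by linarith)
    have h4 : 1 - (α + 2 * η) = 1 - α - 2 * η := by ring
    rw [h4, ← hld] at h3
    linarith
  have hlpos : 0 < l := by linarith
  have hlγ : l = -log (1 - α - 2 * η) := by rw [hld, one_div, log_inv]
  have hlu : l ≤ |log a| := by
    have h3 := log_le_log ha hγ
    have h4 := neg_abs_le (log a)
    linarith
  have heL : a' + |log a| + K0 / θ ≤ e * L := by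
    have h3 : e * L0 = a' + |log a| + K0 / θ := by rw [hL0d]; exact mul_div_cancel₀ _ he0.ne'
    have h4 := mul_le_mul_of_nonneg_left hL0 he0.le
    linarith
  have heL1 : e * L ≤ L := mul_le_of_le_one_left hLnn (by linarith)
  have hLa : 0 ≤ L - a' := by linarith [abs_nonneg (log a)]
  obtain ⟨w, hwd⟩ : ∃ w : ℕ, w = ⌊(L - a') / l⌋₊ := ⟨_, rfl⟩
  have hw1 : (w : ℝ) * l ≤ L - a' := by
    rw [← le_div_iff₀ hlpos, hwd]
    exact Nat.floor_le (by positivity)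
  have hw2 : L - a' - l ≤ w * l := by
    have h3 : (L - a') / l < w + 1 := by rw [hwd]; exact Nat.lt_floor_add_one _
    rw [div_lt_iff₀ hlpos] at h3
    linarith
  have hw0 : (0 : ℝ) ≤ w := Nat.cast_nonneg _
  have hwN : (w : ℝ) ≤ η * N1 := by
    refine le_trans ?_ hηN
    rw [le_div_iff₀ ha]
    have h3 : (w : ℝ) * a ≤ w * l := mul_le_mul_of_nonneg_left hla hw0
    linarith
  have h1N : 1 ≤ η * N1 := by
    refine le_trans ?_ hηN
    rw [le_div_iff₀ ha]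
    linarith
  obtain ⟨T, hTd⟩ : ∃ T : ℝ, T = μ * exp a' := ⟨_, rfl⟩
  have hT0 : 0 < T := by rw [hTd]; positivity
  have hTw : T ≤ (1 - α - 2 * η) ^ w := by
    rw [← log_le_log_iff hT0 (pow_pos hγ0 w), log_pow, hTd, log_mul hμ0.ne' (exp_pos _).ne',
      log_exp]
    have h3 : log (1 - α - 2 * η) = -l := by linarith
    rw [h3]
    linarith
  have hρ0 : 0 < 1 - α + 2 * η := by linarith
  have hβ0 : 0 ≤ w * (α - η) / (1 - α + 2 * η) :=
    div_nonneg (mul_nonneg hw0 (by linarith)) hρ0.le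
  have hr : #G - N1 < #G := Nat.sub_lt hn1 hN1p
  have hmk := markov hP hr hcn hη0.le hβ0 hT0 hθ0 (by
    intro S hS hSr x hx hxc ht hM
    have h3 : #(G \ S) = N1 := by rw [card_sdiff_of_subset hS, hSr]; omega
    rw [← hαd] at ht
    exact fib_kk hP hS hx hxc hη0 (by linarith) (by linarith) ht (by rw [h3]; exact h1N)
      (by rw [h3]; exact hwN) hTw hM)
  have hcast : (#G : ℝ) - ((#G - N1 : ℕ) : ℝ) = N1 := by
    rw [Nat.cast_sub hN1n]; ring
  rw [hcast] at hmk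
  have hE1 : T ^ (-θ) * Av G (#G - N1) (pw J G c (1 + θ)) ≤ e / 2 * #J := by
    have h3 : T ^ (-θ) * μ ^ θ = e / 4 := by
      rw [hTd, ha'd]; exact eh4_n8 hμ0 hθ0 he0
    calc T ^ (-θ) * Av G (#G - N1) (pw J G c (1 + θ))
        ≤ T ^ (-θ) * ((1 + e) * #J * μ ^ θ) :=
          mul_le_mul_of_nonneg_left hAv (rpow_nonneg hT0.le _)
      _ = (1 + e) * (T ^ (-θ) * μ ^ θ) * #J := by ring
      _ ≤ e / 2 * #J := by
          rw [h3]
          exact mul_le_mul_of_nonneg_right (eh4_n2 he0 he8) hm0.le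
  have hE2 : zeta #G η N1 * (#G).choose c ≤ e / 2 * #J := by
    have h3 := hz' N1 hN1l
    have h4 := zeta_nonneg #G η N1
    have h5 : zeta #G η N1 ≤ (#G : ℝ) ^ 2 * zeta #G η N1 :=
      le_mul_of_one_le_left h4 (one_le_pow₀ hnR)
    have h6 : e / 2 * (#G : ℝ) ^ (-K) ≤ e / 2 * μ :=
      mul_le_mul_of_nonneg_left hμ1 (by positivity)
    rw [← hμ, ← mul_assoc]
    exact mul_le_mul_of_nonneg_right (by linarith) hC.le
  refine eh4_final (θt := θt) (L := L) (K0 := K0) (β := w * (α - η) / (1 - α + 2 * η)) he0 he8 hθ0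
    hθt1 hLnn hK0 hΛ0 hn0 hN10 ?_ hκ0 ?_ hm0.le hB0 ?_
  · rw [← hvY, ← mul_assoc (1 + e)]
    exact mul_le_mul_of_nonneg_right hN1v hY0.le
  · have h3 := hκ α hα1 hα2
    rw [← hκd, ← hld] at h3
    have h4 : (1 - e) * (L + K0 / θ) ≤ w * l := eh4_n1 (b := l) he0 hK0θ (by linarith) hw2
    calc (1 - e) * (L + K0 / θ) * ((1 - e) * κ)
        ≤ (w * l) * ((α - η) / (1 - α + 2 * η) / l) :=
          mul_le_mul h4 h3 (mul_nonneg he1.le hκ0) (mul_nonneg hw0 hlpos.le)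
      _ = w * (α - η) / (1 - α + 2 * η) := eh4_n7 hlpos hρ0
  · refine le_trans (mul_le_mul_of_nonneg_left ?_ hβ0) hmk
    linarith

end Pool.Agent.P.MP_4f3dfd_co.Ex
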