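import Mathlib
import Pool.Agent.P.MP_4f3dfd_co.EDefs
import Pool.Agent.P.MP_4f3dfd_co.ENum
import Pool.Agent.P.MP_4f3dfd_co.EF3
import Pool.Agent.P.MP_4f3dfd_co.EH1
import Pool.Agent.P.MP_4f3dfd_co.EH2

set_option autoImplicit false
set_option linter.unusedSectionVars false
set_option linter.unusedVariables false

namespace Pool.Agent.P.MP_4f3dfd_co.Ex

open Finset Real

variable {V : Type*} [DecidableEq V]

/-- Order of magnitude for families of constant density. -/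
theorem core_order (a δ : ℝ) (ha : 0 < a) (hδ : 0 < δ) : ∃ c0 : ℝ, 0 < c0 ∧ ∃ N : ℕ,
    ∀ (n0 : ℕ) (G : Finset (Fin n0)) (c : ℕ) (J D : Finset (Finset (Fin n0))) (μ : ℝ), N ≤ #G →
      3 * a * #G ≤ c → (c : ℝ) ≤ (1 - 3 * a) * #G → Pair G c J D → μ * (#G).choose c = #J →
      δ ≤ μ → μ ≤ 1 / 2 → (∀ k ∈ G, a * #G * #(blk J D k) ≤ exc G J D) →
      c0 * (#J * log (#G / μ)) ≤ exc G J D := by
  obtain ⟨ρ, hρ⟩ : ∃ ρ : ℝ, ρ = 1 - (2 / 3 : ℝ) ^ a := ⟨_, rfl⟩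
  have hρ0 : 0 < ρ := by
    have := Real.rpow_lt_one (x := (2 / 3 : ℝ)) (by norm_num) (by norm_num) ha
    linarith
  have hρ1 : ρ < 1 := by
    have : (0 : ℝ) < (2 / 3 : ℝ) ^ a := by positivity
    linarith
  obtain ⟨K0, hK0, N1, hmom⟩ := moment a a (ρ / 4) 1 ha ha le_rfl (by positivity) (by linarith)
    one_pos
  obtain ⟨N2, hN2⟩ := ev_log 2
  obtain ⟨N3, hN3⟩ := ev_zeta a 2 1 (ρ / 4) ha (by norm_num) (by positivity)
  obtain ⟨N4, hN4⟩ := exists_nat_ge (1 / δ)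
  obtain ⟨Q, hQ⟩ : ∃ Q : ℝ, Q = a * |log δ| + K0 := ⟨_, rfl⟩
  have hQ1 : 1 ≤ Q := by have := mul_nonneg ha.le (abs_nonneg (log δ)); linarith
  have htt : a / (1 + 18 * a / a) = a / 19 := by field_simp; norm_num
  refine ⟨min (1 / a) (ρ * (a / 19) / (32 * Q)), by positivity, N1 + N2 + N3 + N4 + 1, ?_⟩
  intro n0 G c J D μ hn h1 h2 hP hμ hδμ hμ2 hb
  obtain ⟨hl1, -, hl3⟩ := hN2 #G (by omega)
  have hn0 : (0 : ℝ) < #G := by exact_mod_cast (by omega : 0 < #G)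
  have hn1 : (1 : ℝ) ≤ #G := by exact_mod_cast (by omega : 1 ≤ #G)
  have hμ0 : 0 < μ := hδ.trans_le hδμ
  have ha6 : a ≤ 1 / 6 := by nlinarith
  have hcn : c < #G := by
    have : (c : ℝ) < #G := by nlinarith
    exact_mod_cast this
  have hC0 : (0 : ℝ) < (#G).choose c := by exact_mod_cast Nat.choose_pos hcn.le
  have hJ0 : (0 : ℝ) < #J := by rw [← hμ]; positivity
  have hnμ : (#G : ℝ) ^ (-(1 : ℝ)) ≤ μ := by
    rw [Real.rpow_neg_one]
    have h3 : (N4 : ℝ) ≤ #G := by exact_mod_cast (by omega : N4 ≤ #G)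
    have h4 : 1 / δ ≤ #G := hN4.trans h3
    rw [div_le_iff₀ hδ] at h4
    rw [inv_le_iff_one_le_mul₀ hn0]
    nlinarith
  obtain ⟨Λ, hΛ⟩ : ∃ Λ : ℝ, Λ = log (#G / μ) := ⟨_, rfl⟩
  rw [← hΛ]
  obtain ⟨L, hL⟩ : ∃ L : ℝ, L = log (1 / μ) := ⟨_, rfl⟩
  have hΛL : Λ = log #G + L := by
    rw [hΛ, hL, Real.log_div hn0.ne' hμ0.ne', Real.log_div one_ne_zero hμ0.ne']; simp; ring
  have hL0 : 0 ≤ L := hL ▸ Real.log_nonneg (by rw [le_div_iff₀ hμ0]; linarith)
  have hL1 : L ≤ log #G := by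
    rw [hL]
    apply Real.log_le_log (by positivity)
    rw [Real.rpow_neg_one, inv_le_iff_one_le_mul₀ hn0] at hnμ
    rw [div_le_iff₀ hμ0]; linarith
  have hL2 : L ≤ |log δ| := by
    have : L ≤ log (1 / δ) := hL ▸ Real.log_le_log (by positivity) (one_div_le_one_div_of_le hδ hδμ)
    rw [one_div, Real.log_inv] at this
    exact this.trans (neg_le_abs _)
  have hΛ0 : 0 < Λ := by linarith
  have hB0 : (0 : ℝ) ≤ exc G J D := by positivity
  by_cases hB : a * exc G J D ≤ #J * Λ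
  swap
  · push Not at hB
    calc min (1 / a) (ρ * (a / 19) / (32 * Q)) * (#J * Λ) ≤ 1 / a * (#J * Λ) :=
          mul_le_mul_of_nonneg_right (min_le_left _ _) (by positivity)
      _ ≤ exc G J D := by rw [one_div, inv_mul_le_iff₀ ha]; exact hB.le
  obtain ⟨w, hw⟩ : ∃ w : ℝ, w = a / 19 * ((1 - ρ / 4) * Λ) := ⟨_, rfl⟩
  have hw0 : 0 < w := by
    have : 0 < 1 - ρ / 4 := by linarith
    rw [hw]; positivity
  have hwΛ : w ≤ Λ := by
    have : a / 19 * (1 - ρ / 4) ≤ 1 := by nlinarith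
    rw [hw, ← mul_assoc]; nlinarith
  have hwΛ2 : a / 19 * (Λ / 2) ≤ w := by
    rw [hw]; apply mul_le_mul_of_nonneg_left _ (by positivity); nlinarith
  obtain ⟨v, hv⟩ : ∃ v : ℝ, v = #G * (a * L + K0) / w := ⟨_, rfl⟩
  have hvw : v * w = #G * (a * L + K0) := by rw [hv]; field_simp
  have haL : 0 ≤ a * L := by positivity
  have hv0 : 0 < v := by rw [hv]; positivity
  have hv2 : (#G : ℝ) ≤ 2 * log #G * v := by
    have h3 : v * w ≤ v * (2 * log #G) := mul_le_mul_of_nonneg_left (by linarith) hv0.le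
    have h4 : (#G : ℝ) * 1 ≤ #G * (a * L + K0) := mul_le_mul_of_nonneg_left (by linarith) hn0.le
    linarith
  have hlog3 : log (#G : ℝ) ≤ log (#G : ℝ) ^ 3 := le_self_pow₀ hl1 (by norm_num)
  have hv1 : 1 ≤ v := by
    by_contra h
    push Not at h
    have : 2 * log (#G : ℝ) * v < 2 * log #G * 1 := mul_lt_mul_of_pos_left h (by linarith)
    linarith
  obtain ⟨M, hM⟩ : ∃ M : ℕ, M = min #G ⌈v⌉₊ := ⟨_, rfl⟩
  have hMn : M ≤ #G := hM ▸ min_le_left _ _
  have hMv : (M : ℝ) ≤ 2 * v := by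
    have h3 : (M : ℝ) ≤ ⌈v⌉₊ := by rw [hM]; exact_mod_cast min_le_right _ _
    have := Nat.ceil_lt_add_one hv0.le
    linarith
  have hMor : M = #G ∨ v ≤ M := by
    rcases le_total #G ⌈v⌉₊ with h | h
    · exact Or.inl (hM.trans (min_eq_left h))
    · right; rw [hM, min_eq_right h]; exact Nat.le_ceil v
  have hMlow : (#G : ℝ) ≤ 2 * log #G * M := by
    rcases hMor with h | h
    · rw [h]; exact le_mul_of_one_le_left hn0.le (by linarith)
    · exact hv2.trans (mul_le_mul_of_nonneg_left h (by linarith))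
  have hM0 : 0 < M := by
    by_contra h
    have : M = 0 := by omega
    rw [this, Nat.cast_zero, mul_zero] at hMlow; linarith
  have hAv := hmom n0 G c M J D μ (by omega) h1 h2 hP hμ hnμ hb (hΛ ▸ hB) hMn (by
    rcases hMor with h | h
    · exact Or.inl h
    · right; rw [htt, ← hΛ, ← hL, ← hw, ← hvw, mul_comm w]
      exact mul_le_mul_of_nonneg_right h hw0.le)
  have hr : ((#G : ℝ) - ((#G - M : ℕ) : ℝ)) = M := by rw [Nat.cast_sub hMn]; ring
  have hmk := markov hP (r := #G - M) (by omega) hcn (η := a) (β := 1 / 4) (T := 3 / 4) (θ := a)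
    ha.le (by norm_num) (by norm_num) ha (by
      intro S hS hSc x hx hxc ht hcnt
      refine fib_var hP hS hx ?_ hcnt
      have hN : #(G \ S) = M := by rw [card_sdiff_of_subset hS, hSc]; omega
      rw [hN, abs_le] at ht
      have h3 : 3 * a ≤ (c : ℝ) / #G := by rw [le_div_iff₀ hn0]; exact h1
      have hM' : (0 : ℝ) < M := by exact_mod_cast hM0
      have h4 : (0 : ℝ) < ((c - #x : ℕ) : ℝ) := by nlinarith [ht.1]
      have : 0 < c - #x := by exact_mod_cast h4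
      omega)
  rw [hr] at hmk
  have hz := hN3 #G (by omega) M hMlow
  have hz0 := zeta_nonneg #G a M
  have hz1 : zeta #G a M * (#G).choose c ≤ ρ / 4 * #J := by
    have h3 : zeta #G a M ≤ ρ / 4 * μ := by
      have h4 : zeta #G a M ≤ (#G : ℝ) ^ 2 * zeta #G a M :=
        le_mul_of_one_le_left hz0 (one_le_pow₀ hn1)
      exact h4.trans (hz.trans (mul_le_mul_of_nonneg_left hnμ (by positivity)))
    rw [← hμ, ← mul_assoc]
    exact mul_le_mul_of_nonneg_right h3 hC0.le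
  have hT : (3 / 4 : ℝ) ^ (-a) * μ ^ a ≤ 1 - ρ := by
    have h3 : μ ^ a ≤ (1 / 2 : ℝ) ^ a := Real.rpow_le_rpow hμ0.le hμ2 ha.le
    have h4 : (3 / 4 : ℝ) ^ (-a) * (1 / 2 : ℝ) ^ a = (2 / 3 : ℝ) ^ a := by
      rw [Real.rpow_neg (by norm_num), ← Real.inv_rpow (by norm_num),
        ← Real.mul_rpow (by norm_num) (by norm_num)]
      norm_num
    have h5 : (0 : ℝ) ≤ (3 / 4 : ℝ) ^ (-a) := by positivity
    have := mul_le_mul_of_nonneg_left h3 h5
    rw [hρ]; linarith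
  have hT2 : (3 / 4 : ℝ) ^ (-a) * Av G (#G - M) (pw J G c (1 + a)) ≤ (1 - 3 * ρ / 4) * #J := by
    have h5 : (0 : ℝ) ≤ (3 / 4 : ℝ) ^ (-a) := by positivity
    calc _ ≤ (3 / 4 : ℝ) ^ (-a) * ((1 + ρ / 4) * #J * μ ^ a) := mul_le_mul_of_nonneg_left hAv h5
      _ = (1 + ρ / 4) * #J * ((3 / 4 : ℝ) ^ (-a) * μ ^ a) := by ring
      _ ≤ (1 + ρ / 4) * #J * (1 - ρ) := mul_le_mul_of_nonneg_left hT (by positivity)
      _ ≤ (1 - 3 * ρ / 4) * #J := by nlinarith [mul_pos hρ0 (mul_pos hρ0 hJ0)]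
  have h6 : ρ / 8 * #J ≤ M / #G * exc G J D := by linarith
  have h7 : (M : ℝ) / #G * (a / 19 * Λ) ≤ 4 * Q := by
    rw [div_mul_eq_mul_div, div_le_iff₀ hn0]
    have h8 : (M : ℝ) * (a / 19 * Λ) ≤ 2 * v * (2 * w) :=
      mul_le_mul hMv (by linarith) (by positivity) (by positivity)
    have h9 : a * L + K0 ≤ Q := by
      have := mul_le_mul_of_nonneg_left hL2 ha.le
      linarith
    have h10 := mul_le_mul_of_nonneg_left h9 hn0.le
    linarith
  calc min (1 / a) (ρ * (a / 19) / (32 * Q)) * (#J * Λ)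
      ≤ ρ * (a / 19) / (32 * Q) * (#J * Λ) :=
        mul_le_mul_of_nonneg_right (min_le_right _ _) (by positivity)
    _ = ρ / 8 * #J * (a / 19 * Λ) / (4 * Q) := by field_simp; ring
    _ ≤ M / #G * exc G J D * (a / 19 * Λ) / (4 * Q) := by gcongr
    _ = M / #G * (a / 19 * Λ) * exc G J D / (4 * Q) := by ring
    _ ≤ 4 * Q * exc G J D / (4 * Q) := by gcongr
    _ = exc G J D := by field_simp

end Pool.Agent.P.MP_4f3dfd_co.Ex
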