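import Mathlib
import Pool.Agent.P.MP_4f3dfd_co.EDefs
import Pool.Agent.P.MP_4f3dfd_co.ALower
import Pool.Agent.P.MP_4f3dfd_co.EF1
import Pool.Agent.P.MP_4f3dfd_co.ENum

set_option autoImplicit false
set_option linter.unusedSectionVars false
set_option linter.unusedVariables false

namespace Pool.Agent.P.MP_4f3dfd_co.Ex

open Finset Real

variable {V : Type*} [DecidableEq V]

theorem el1_deg_lt {n k y s d M : ℕ} (hk : 1 ≤ k) (hkn : k ≤ n) (hd : n * d = k * M)
    (hm : M < n * y.choose k) (hys : y + s ≤ n)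
    (hs : ((y : ℝ) - k + 1) * (1 - ((k : ℝ) - 1) / n) ^ s ≤ 1) :
    d < (y + s).choose (k - 1) := by
  have hn : 0 < n := by omega
  have hky : k ≤ y := le_of_lt_mul_choose hm
  have h1 : d < k * y.choose k := by
    have : n * d < n * (k * y.choose k) := by
      rw [hd]
      calc k * M < k * (n * y.choose k) := Nat.mul_lt_mul_of_pos_left hm hk
        _ = _ := by ring
    exact Nat.lt_of_mul_lt_mul_left this
  have h2 : (d : ℝ) < (k : ℝ) * y.choose k := by exact_mod_cast h1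
  rw [choose_pred hk] at h2
  have h3 := choose_le_mul_pow (n := n) (k := k - 1) (z := y) (w := s) hn (by omega) hys
  have hc : ((k - 1 : ℕ) : ℝ) = (k : ℝ) - 1 := by
    rw [Nat.cast_sub hk, Nat.cast_one]
  rw [hc] at h3
  have hy : (0 : ℝ) ≤ (y : ℝ) - k + 1 := by
    have : (k : ℝ) ≤ y := by exact_mod_cast hky
    linarith
  have h4 := mul_le_mul_of_nonneg_left h3 hy
  have h5 : (0 : ℝ) ≤ ((y + s).choose (k - 1) : ℝ) := Nat.cast_nonneg _
  have h6 := mul_le_mul_of_nonneg_left hs h5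
  have h7 : (d : ℝ) < ((y + s).choose (k - 1) : ℝ) := by
    calc (d : ℝ) < _ := h2
      _ ≤ _ := h4
      _ = ((y + s).choose (k - 1) : ℝ) *
            (((y : ℝ) - k + 1) * (1 - ((k : ℝ) - 1) / n) ^ s) := by ring
      _ ≤ _ := h6
      _ = _ := mul_one _
  exact_mod_cast h7

theorem el1_ratio {n k z d : ℕ} (hk : 1 ≤ k) (hkz : k ≤ z) (hzn : z ≤ n)
    (A : Finset (Finset (Fin n))) (hA : ∀ X ∈ A, #X = k) (hsh : #(shadow A) ≤ d)
    (hd : d < z.choose (k - 1)) : #A * k ≤ d * (z + 1 - k) := by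
  rcases le_or_gt #A (z.choose k) with h | h
  · exact (Asy.kk_ratio hzn A hA h).trans (Nat.mul_le_mul_right _ hsh)
  · exfalso
    obtain ⟨B, hBA, hB⟩ := exists_subset_card_eq h.le
    have h1 := Asy.kk_ratio hzn B (fun X hX => hA X (hBA hX)) hB.le
    have h2 : #(shadow B) ≤ d := (card_le_card (shadow_mono hBA)).trans hsh
    have h3 : z.choose k * k ≤ d * (z + 1 - k) := by
      rw [← hB]
      exact h1.trans (Nat.mul_le_mul_right _ h2)
    have h4 : z.choose k * k = z.choose (k - 1) * (z + 1 - k) := by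
      obtain ⟨j, rfl⟩ : ∃ j, k = j + 1 := ⟨k - 1, by omega⟩
      rw [Nat.choose_succ_right_eq, Nat.add_sub_cancel]
      congr 1
      omega
    rw [h4] at h3
    have h5 : 0 < z + 1 - k := by omega
    have := Nat.le_of_mul_le_mul_right h3 h5
    omega

/-- Kruskal-Katona on the links, small side. -/
theorem link_lo {n c m x s : ℕ} (hc : 2 ≤ c) (hcn : c ≤ n) {J : Finset (Finset (Fin n))}
    (hJ : Reg n c m J) (hm : m < n * x.choose c) (hxs : x + s ≤ n)
    (hs : ((x : ℝ) - c + 1) * (1 - ((c : ℝ) - 1) / n) ^ s ≤ 1) :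
    (c : ℝ) * m ≤ #(shadow J) * ((x : ℝ) + s - c + 2) := by
  obtain ⟨hc', hm', d, hd⟩ := hJ
  have hsum := Asy.sum_deg_nat J c hc'
  rw [sum_congr rfl (fun v _ => hd v), sum_const, card_univ, Fintype.card_fin, smul_eq_mul,
    hm'] at hsum
  have hlt := el1_deg_lt (by omega) hcn hsum hm hxs hs
  have hcx : c ≤ x := le_of_lt_mul_choose hm
  have h1 := Asy.lower (k := c - 1) (by omega) hxs J
    (fun X hX => by rw [hc' X hX]; omega) hd hlt.le
  rw [hsum] at h1
  have h2 : x + s + 1 - (c - 1) + c = x + s + 2 := by omega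
  have h3 : ((x + s + 1 - (c - 1) : ℕ) : ℝ) = (x : ℝ) + s - c + 2 := by
    have : ((x + s + 1 - (c - 1) + c : ℕ) : ℝ) = ((x + s + 2 : ℕ) : ℝ) := by rw [h2]
    push_cast at this
    linarith
  rw [← h3]
  exact_mod_cast h1

/-- Kruskal-Katona on the links, large side. -/
theorem link_hi {n k y s : ℕ} (hk : 2 ≤ k) (hkn : k ≤ n) {J D : Finset (Finset (Fin n))}
    (h : Pair univ (k + 1) J D) {d : ℕ} (hd : ∀ i, deg D i = d) (hm : #D < n * y.choose k)
    (hys : y + s ≤ n) (hs : ((y : ℝ) - k + 1) * (1 - ((k : ℝ) - 1) / n) ^ s ≤ 1) :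
    ((k : ℝ) + 1) * #J ≤ #D * ((y : ℝ) + s - k + 1) := by
  have hDk : ∀ Y ∈ D, #Y = k := fun Y hY => by
    have := (mem_powersetCard.1 (h.hD hY)).2
    omega
  have hJk : ∀ X ∈ J, #X = k + 1 := fun X hX => (mem_powersetCard.1 (h.hJ hX)).2
  have hd' : ∀ i, #{Y ∈ D | i ∈ Y} = d := hd
  have hsum := Asy.sum_deg_nat D k hDk
  rw [sum_congr rfl (fun v _ => hd' v), sum_const, card_univ, Fintype.card_fin,
    smul_eq_mul] at hsum
  have hlt := el1_deg_lt (by omega) hkn hsum hm hys hs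
  have hky : k ≤ y := le_of_lt_mul_choose hm
  have key : ∀ v, #{X ∈ J | v ∈ X} * k ≤ d * (y + s + 1 - k) := by
    intro v
    set L : Finset (Finset (Fin n)) := {X ∈ J | v ∈ X}.image (·.erase v) with hL
    have hLc : #L = #{X ∈ J | v ∈ X} := by
      rw [hL, card_image_of_injOn]
      intro X hX Y hY h
      rw [mem_coe, mem_filter] at hX hY
      rw [← insert_erase hX.2, ← insert_erase hY.2]
      exact congrArg _ h
    have hLk : ∀ X ∈ L, #X = k := by
      intro X hX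
      obtain ⟨Z, hZ, rfl⟩ := mem_image.1 hX
      rw [mem_filter] at hZ
      rw [card_erase_of_mem hZ.2, hJk Z hZ.1]; rfl
    have hmem : ∀ Y ∈ shadow L, v ∉ Y ∧ insert v Y ∈ D := by
      intro Y hY
      obtain ⟨X, hX, a, ha, rfl⟩ := mem_shadow_iff.1 hY
      obtain ⟨Z, hZ, rfl⟩ := mem_image.1 hX
      rw [mem_filter] at hZ
      rw [mem_erase] at ha
      refine ⟨by simp, ?_⟩
      have : insert v ((Z.erase v).erase a) = Z.erase a := by
        rw [erase_right_comm, insert_erase (mem_erase.2 ⟨ha.1.symm, hZ.2⟩)]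
      rw [this]
      exact h.sh Z hZ.1 a ha.2
    have hsh : #(shadow L) ≤ d := by
      rw [← hd' v]
      apply card_le_card_of_injOn (insert v)
      · intro Y hY
        rw [mem_coe, mem_filter]
        exact ⟨(hmem Y hY).2, mem_insert_self _ _⟩
      · intro Y hY Z hZ h
        rw [← erase_insert (hmem Y hY).1, ← erase_insert (hmem Z hZ).1]
        exact congrArg (·.erase v) h
    rw [← hLc]
    exact el1_ratio (by omega) (by omega) hys L hLk hsh hlt
  have hs2 := sum_le_sum (s := (univ : Finset (Fin n))) (fun v _ => key v)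
  rw [← sum_mul, Asy.sum_deg_nat _ (k + 1) hJk, sum_const, card_univ, Fintype.card_fin,
    smul_eq_mul, ← mul_assoc, hsum] at hs2
  have h1 : k * ((k + 1) * #J) ≤ k * (#D * (y + s + 1 - k)) := by
    calc k * ((k + 1) * #J) = (k + 1) * #J * k := by ring
      _ ≤ _ := hs2
      _ = _ := by ring
  have h2 := Nat.le_of_mul_le_mul_left h1 (by omega)
  have h3 : ((y + s + 1 - k : ℕ) : ℝ) = (y : ℝ) + s - k + 1 := by
    rw [Nat.cast_sub (by omega)]
    push_cast
    ring
  rw [← h3]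
  exact_mod_cast h2

theorem exists_shift {n k : ℕ} {a t : ℝ} (ha : 0 < a) (hn : 0 < n) (hkn : k ≤ n)
    (hk : a * n ≤ (k : ℝ) - 1) (ht : 1 ≤ t) :
    ∃ s : ℕ, (s : ℝ) ≤ log t / a + 1 ∧ t * (1 - ((k : ℝ) - 1) / n) ^ s ≤ 1 := by
  have hlog : 0 ≤ log t := log_nonneg ht
  have hn' : (0 : ℝ) < n := by exact_mod_cast hn
  have hq : 0 ≤ log t / a := div_nonneg hlog ha.le
  refine ⟨⌈log t / a⌉₊, (Nat.ceil_lt_add_one hq).le, ?_⟩
  set s : ℕ := ⌈log t / a⌉₊ with hs
  have h1 : log t / a ≤ s := Nat.le_ceil _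
  have h2 : log t ≤ s * a := by rwa [div_le_iff₀ ha] at h1
  have h3 : a ≤ ((k : ℝ) - 1) / n := by rwa [le_div_iff₀ hn']
  have h4 : (0 : ℝ) ≤ 1 - ((k : ℝ) - 1) / n := by
    have : (k : ℝ) ≤ n := by exact_mod_cast hkn
    have : ((k : ℝ) - 1) / n ≤ 1 := by rw [div_le_one hn']; linarith
    linarith
  have h5 : 1 - ((k : ℝ) - 1) / n ≤ exp (-a) := by
    have := add_one_le_exp (-a)
    linarith
  have h6 : (1 - ((k : ℝ) - 1) / n) ^ s ≤ exp (-a) ^ s := pow_le_pow_left₀ h4 h5 s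
  have h7 : exp (-a) ^ s ≤ exp (-log t) := by
    rw [← exp_nat_mul]
    apply exp_le_exp.2
    linarith
  have ht0 : 0 < t := by linarith
  rw [exp_neg (log t), exp_log ht0] at h7
  calc t * (1 - ((k : ℝ) - 1) / n) ^ s ≤ t * t⁻¹ :=
        mul_le_mul_of_nonneg_left (h6.trans h7) ht0.le
    _ = 1 := mul_inv_cancel₀ ht0.ne'

end Pool.Agent.P.MP_4f3dfd_co.Ex
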