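import Mathlib
import Pool.Agent.P.MP_4f3dfd_co.EDefs
import Pool.Agent.P.MP_4f3dfd_co.EF1
import Pool.Agent.P.MP_4f3dfd_co.ENum
import Pool.Agent.P.MP_4f3dfd_co.EL1

set_option autoImplicit false
set_option linter.unusedSectionVars false
set_option linter.unusedVariables false

namespace Pool.Agent.P.MP_4f3dfd_co.Ex

open Finset Real

variable {V : Type*} [DecidableEq V]

theorem el2_div {P E u t B e : ℝ} (hP : 0 ≤ P) (he : e ≤ 1) (hu : 0 < u) (ht : 0 < t)
    (hB : u ≤ B * t) (h : (1 - e) * P ≤ E * u) : (1 - e) * (P / t) ≤ B * E := by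
  have h0 : 0 ≤ E * u := (mul_nonneg (by linarith) hP).trans h
  have hE : 0 ≤ E := nonneg_of_mul_nonneg_left h0 hu
  rw [← mul_div_assoc, div_le_iff₀ ht]
  have h1 := mul_le_mul_of_nonneg_left hB hE
  calc (1 - e) * P ≤ E * (B * t) := h.trans h1
    _ = B * E * t := by ring

theorem el2_key {Q f w t s e : ℝ} (hQ : 0 ≤ Q) (hw : 0 ≤ w + t) (h : Q ≤ f * (t + s + 1))
    (hs : s + 1 ≤ e * w) : (1 - e) * (Q * w) ≤ ((w + t) * f - Q) * (t + s + 1) := by
  have h1 := mul_le_mul_of_nonneg_left h hw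
  have h2 := mul_le_mul_of_nonneg_left hs hQ
  nlinarith

/-- Lower bounds from links when the width is much larger than `log n`. -/
theorem lower_link (a ε : ℝ) (ha : 0 < a) (hε : 0 < ε) : ∃ K1 : ℝ, 0 < K1 ∧ ∃ K N : ℕ,
    ∀ n c m : ℕ, N ≤ n → a * n ≤ c → (c : ℝ) ≤ (1 - a) * n →
    ∀ J : Finset (Finset (Fin n)), Reg n c m J →
      (∀ x : ℕ, m < n * x.choose c → K1 * log n ≤ (n : ℝ) - x →
        (1 - ε) * eLo n c m x ≤ (3 + 2 / a) * ex n c m #(shadow J) ∧
        (c + K ≤ x → (1 - ε) * eLo n c m x ≤ ex n c m #(shadow J))) := by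
  obtain ⟨e, he0, he1, he2⟩ : ∃ e : ℝ, 0 < e ∧ e ≤ 1 / 2 ∧ 2 * e ≤ ε :=
    ⟨min ε 1 / 2, by have := lt_min hε one_pos; linarith, by have := min_le_right ε 1; linarith,
      by have := min_le_left ε 1; linarith⟩
  have ha2 : 0 < 2 / a := by positivity
  obtain ⟨K1, hK0, hK1⟩ : ∃ K1 : ℝ, 0 < K1 ∧ e * K1 = 2 / a + 2 :=
    ⟨(2 / a + 2) / e, by positivity, by field_simp⟩
  obtain ⟨K, hK⟩ := ev_log K1
  obtain ⟨N, hN⟩ := ev_log (2 / a)
  refine ⟨K1, hK0, K, N, fun n c m hn hc1 hc2 J hJ x hx hw => ?_⟩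
  obtain ⟨l1, -, l3⟩ := hN n hn
  have n0 : (0 : ℝ) ≤ n := Nat.cast_nonneg n
  have l4 : 2 / a ≤ n := by
    have h1 : (1 : ℝ) ≤ log n ^ 3 := one_le_pow₀ l1
    nlinarith
  have l5 : 2 ≤ a * n := by
    rw [div_le_iff₀ ha] at l4
    linarith
  have c2 : (2 : ℝ) ≤ c := l5.trans hc1
  have c2' : 2 ≤ c := by exact_mod_cast c2
  have cn : (c : ℝ) ≤ n := by nlinarith
  have cn' : c ≤ n := by exact_mod_cast cn
  have cx' : c ≤ x := le_of_lt_mul_choose hx
  have cx : (c : ℝ) ≤ x := by exact_mod_cast cx'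
  have w0 : 0 < (n : ℝ) - x := lt_of_lt_of_le (by positivity) hw
  have t1 : (1 : ℝ) ≤ (x : ℝ) - c + 1 := by linarith
  obtain ⟨s, hs1, hs2⟩ := exists_shift (n := n) (k := c) (a := a / 2) (t := (x : ℝ) - c + 1)
    (by positivity) (by omega) cn' (by linarith) t1
  have hs3 : (s : ℝ) ≤ 2 / a * log ((x : ℝ) - c + 1) + 1 := by
    have : log ((x : ℝ) - c + 1) / (a / 2) = 2 / a * log ((x : ℝ) - c + 1) := by field_simp
    linarith
  have s0 : (0 : ℝ) ≤ s := Nat.cast_nonneg s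
  have hs4 : (s : ℝ) + 1 ≤ e * ((n : ℝ) - x) := by
    have h1 : log ((x : ℝ) - c + 1) ≤ log n := log_le_log (by linarith) (by linarith)
    have h2 := mul_le_mul_of_nonneg_left h1 ha2.le
    have h3 := mul_le_mul_of_nonneg_left hw he0.le
    rw [← mul_assoc, hK1] at h3
    linarith
  have hxs : x + s ≤ n := by
    have : (x : ℝ) + s ≤ n := by nlinarith
    exact_mod_cast this
  have h1 := link_lo c2' cn' hJ hx hxs hs2
  have hQ : (0 : ℝ) ≤ (c : ℝ) * m := by positivity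
  have h2 := el2_key (Q := (c : ℝ) * m) (f := (#(shadow J) : ℝ)) (w := (n : ℝ) - x)
    (t := (x : ℝ) - c + 1) (s := s) (e := e) hQ (by linarith)
    (by rw [show (x : ℝ) - c + 1 + s + 1 = (x : ℝ) + s - c + 2 by ring]; exact h1) hs4
  have h3 : ((n : ℝ) - x + ((x : ℝ) - c + 1)) * (#(shadow J) : ℝ) - (c : ℝ) * m =
      ex n c m #(shadow J) := by
    unfold ex
    ring
  rw [h3] at h2
  have hP : (0 : ℝ) ≤ (c : ℝ) * m * ((n : ℝ) - x) := mul_nonneg hQ w0.le
  have hL : 0 ≤ eLo n c m x := div_nonneg hP (by linarith)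
  constructor
  · have h4 : log ((x : ℝ) - c + 1) ≤ (x : ℝ) - c + 1 :=
      (log_le_sub_one_of_pos (by linarith)).trans (by linarith)
    have h5 := mul_le_mul_of_nonneg_left h4 ha2.le
    have h6 := el2_div (B := 3 + 2 / a) (t := (x : ℝ) - c + 1) hP (by linarith) (by linarith)
      (by linarith) (by linarith) h2
    exact (mul_le_mul_of_nonneg_right (by linarith) hL).trans h6
  · intro hcx
    obtain ⟨k1, -, k3⟩ := hK (x - c + 1) (by omega)
    rw [Nat.cast_add, Nat.cast_sub cx', Nat.cast_one] at k1 k3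
    have h4 : log ((x : ℝ) - c + 1) ≤ log ((x : ℝ) - c + 1) ^ 3 :=
      le_self_pow₀ k1 (by norm_num)
    have h5 := mul_le_mul_of_nonneg_left ((mul_le_mul_of_nonneg_left h4 hK0.le).trans k3) he0.le
    rw [← mul_assoc, hK1] at h5
    have h6 := el2_div (B := 1 + e) (t := (x : ℝ) - c + 1) hP (by linarith) (by linarith)
      (by linarith) (by linarith) h2
    have h7 : (1 + e) * ((1 - ε) * eLo n c m x) ≤ (1 - e) * eLo n c m x := by
      rw [← mul_assoc]
      exact mul_le_mul_of_nonneg_right (by nlinarith) hL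
    exact le_of_mul_le_mul_left (h7.trans h6) (by linarith)

end Pool.Agent.P.MP_4f3dfd_co.Ex
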