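import Mathlib
import Pool.Agent.P.MP_4f3dfd_co.EDefs
import Pool.Agent.P.MP_4f3dfd_co.EF1
import Pool.Agent.P.MP_4f3dfd_co.ENum
import Pool.Agent.P.MP_4f3dfd_co.EL1
import Pool.Agent.P.MP_4f3dfd_co.EDual

set_option autoImplicit false
set_option linter.unusedSectionVars false
set_option linter.unusedVariables false

namespace Pool.Agent.P.MP_4f3dfd_co.Ex

open Finset Real

variable {V : Type*} [DecidableEq V]

theorem lower_link_hi (a ε : ℝ) (ha : 0 < a) (hε : 0 < ε) : ∃ K1 : ℝ, 0 < K1 ∧ ∃ N : ℕ,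
    ∀ n c m y : ℕ, N ≤ n → a * n ≤ c → (c : ℝ) ≤ (1 - a) * n →
    ∀ J : Finset (Finset (Fin n)), Reg n c m J → n.choose c - m < n * y.choose (n - c) →
      K1 * log n ≤ (n : ℝ) - y → (1 - ε) * eHi n c m y ≤ ex n c m #(shadow J) := by
  have he0 : 0 < min ε 1 := lt_min hε one_pos
  have he1 : min ε 1 ≤ 1 := min_le_right _ _
  have he2 : min ε 1 ≤ ε := min_le_left _ _
  generalize min ε 1 = e at he0 he1 he2
  obtain ⟨N, hN⟩ := ev_log (2 / a)
  refine ⟨(2 / a + 2) / e, by positivity, N, fun n c m y hn h1 h2 J hJ hm hy => ?_⟩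
  obtain ⟨hl1, -, hl3⟩ := hN n hn
  have ha2 : 0 < 2 / a := by positivity
  have hn2 : 2 / a ≤ n := le_trans (le_mul_of_one_le_right ha2.le (one_le_pow₀ hl1)) hl3
  have han : 2 ≤ a * n := by rwa [div_le_iff₀' ha] at hn2
  have hn0 : (0 : ℝ) < n := ha2.trans_le hn2
  have hcn : c ≤ n := by
    have : (c : ℝ) ≤ n := by linarith
    exact_mod_cast this
  have hc1 : 1 ≤ c := by
    have : (1 : ℝ) ≤ c := by linarith
    exact_mod_cast this
  have hk : ((n - c : ℕ) : ℝ) = n - c := Nat.cast_sub hcn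
  have hk2 : 2 ≤ n - c := by
    have : (2 : ℝ) ≤ ((n - c : ℕ) : ℝ) := by rw [hk]; linarith
    exact_mod_cast this
  have hP := pair_shadow hc1 hJ.1
  have hP' := pair_co hcn hP
  obtain ⟨d, hd⟩ := hJ.2.2
  obtain ⟨d', hd'⟩ := reg_co (Nat.sub_add_cancel hcn) hP.hJ (d := d) hd
  have hcard := card_co (Nat.sub_add_cancel hcn) hP.hJ
  rw [hJ.2.1, Nat.choose_symm hcn] at hcard
  have hm' : #(co (n - c) J) < n * y.choose (n - c) := by omega
  have hky : ((n - c : ℕ) : ℝ) ≤ y := by exact_mod_cast le_of_lt_mul_choose hm'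
  have hy' : (2 / a + 2) * log n ≤ e * ((n : ℝ) - y) := by
    rwa [div_mul_eq_mul_div, div_le_iff₀' he0] at hy
  have hyn : 0 ≤ (n : ℝ) - y := le_trans (by positivity) hy
  obtain ⟨s, hs1, hs2⟩ := exists_shift (n := n) (k := n - c) (a := a / 2)
    (t := (y : ℝ) - ((n - c : ℕ) : ℝ) + 1) (by positivity) (by exact_mod_cast hn0)
    (Nat.sub_le _ _) (by rw [hk]; linarith) (by linarith)
  have hlog : log ((y : ℝ) - ((n - c : ℕ) : ℝ) + 1) ≤ log n :=
    log_le_log (by linarith) (by rw [hk]; linarith)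
  have hs3 : (s : ℝ) + 1 ≤ e * ((n : ℝ) - y) := by
    have h3 : log ((y : ℝ) - ((n - c : ℕ) : ℝ) + 1) / (a / 2) ≤ 2 / a * log n := by
      rw [div_div_eq_mul_div, mul_div_assoc, mul_comm]
      exact mul_le_mul_of_nonneg_left hlog ha2.le
    linarith
  have hys : y + s ≤ n := by
    have h3 : e * ((n : ℝ) - y) ≤ (n : ℝ) - y := mul_le_of_le_one_left hyn he1
    have : (y : ℝ) + s ≤ n := by linarith
    exact_mod_cast this
  have h3 := link_hi hk2 (Nat.sub_le _ _) hP' hd' hm' hys hs2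
  have h4 := pair_card hP'
  rw [exc_co hcn hP, exc_shadow hc1 hJ, card_univ, Fintype.card_fin] at h4
  have h5 : (n.choose c : ℝ) - m = #(co (n - c) J) := by
    rw [← hcard]
    push_cast
    ring
  have h6 : (0 : ℝ) ≤ #(co (n - c) J) := Nat.cast_nonneg _
  have h7 : (1 - ε) * ((n : ℝ) - y) ≤ (n : ℝ) - y - s - 1 := by nlinarith
  have h8 := mul_le_mul_of_nonneg_left h7 h6
  rw [eHi, h5]
  rw [Nat.cast_add, Nat.cast_one] at h4
  linarith

end Pool.Agent.P.MP_4f3dfd_co.Ex
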