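import Mathlib
import Pool.Agent.P.MP_4f3dfd_co.EDefs
import Pool.Agent.P.MP_4f3dfd_co.EF1
import Pool.Agent.P.MP_4f3dfd_co.ENum
import Pool.Agent.P.MP_4f3dfd_co.EH4
import Pool.Agent.P.MP_4f3dfd_co.EH5

set_option autoImplicit false
set_option linter.unusedSectionVars false
set_option linter.unusedVariables false

namespace Pool.Agent.P.MP_4f3dfd_co.Ex

open Finset Real

variable {V : Type*} [DecidableEq V]

theorem em1_real {e ε c m D s l Λ t B : ℝ} (he : e ≤ 1 / 2) (hε : 2 * e ≤ ε) (hc : 0 ≤ c)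
    (hm : 0 ≤ m) (hD : 0 ≤ D) (hs : 0 < s) (hl : 0 < l) (h1 : D * l ≤ Λ) (h2 : (1 - e) * s ≤ t)
    (h3 : (1 - e) * (c / (s * l)) * (m * Λ) ≤ B) : (1 - ε) * (c * m * D / t) ≤ B := by
  have he' : 0 < 1 - e := by linarith
  have ht : 0 < t := lt_of_lt_of_le (mul_pos he' hs) h2
  have hX : 0 ≤ c * m * D / t := by positivity
  have h4 : (1 - e) * (c * m * D / t) ≤ c * m * D / s := by
    rw [← mul_div_assoc, div_le_div_iff₀ ht hs]
    have := mul_le_mul_of_nonneg_left h2 (show 0 ≤ c * m * D by positivity)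
    linarith
  have h5 : c * m * D / s ≤ c / (s * l) * (m * Λ) := by
    have : c * m * D / s = c / (s * l) * (m * (D * l)) := by field_simp
    rw [this]
    gcongr
  calc (1 - ε) * (c * m * D / t) ≤ (1 - e) * (1 - e) * (c * m * D / t) :=
        mul_le_mul_of_nonneg_right (by nlinarith [sq_nonneg e]) hX
    _ = (1 - e) * ((1 - e) * (c * m * D / t)) := by ring
    _ ≤ (1 - e) * (c / (s * l) * (m * Λ)) := mul_le_mul_of_nonneg_left (h4.trans h5) he'.le
    _ ≤ B := by rw [← mul_assoc]; exact h3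

theorem em1_log {K b : ℝ} (hK : 0 < K) (hb : 0 < b) {n : ℕ} (h1 : 1 ≤ log n)
    (h2 : K / b * log n ^ 3 ≤ n) : 0 < (n : ℝ) ∧ K * log n ≤ b * n := by
  have h3 : log n ≤ log n ^ 3 := le_self_pow₀ h1 (by norm_num)
  have h4 : K / b * log n ≤ n := le_trans (by gcongr) h2
  refine ⟨lt_of_lt_of_le (by positivity) h4, ?_⟩
  rw [div_mul_eq_mul_div, div_le_iff₀ hb] at h4
  linarith

theorem em1_blk {a : ℝ} (ha : 0 < a) {n c m : ℕ} (hc : 1 ≤ c) (hc2 : (c : ℝ) ≤ (1 - a) * n)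
    {J : Finset (Finset (Fin n))} (hJ : Reg n c m J) (k : Fin n) :
    a / 3 * n * #(blk J (shadow J) k) ≤ exc univ J (shadow J) := by
  obtain ⟨h1, -, d, hd⟩ := hJ
  have := blk_le_of_regJ (pair_shadow hc h1) (d := d) (fun i _ => hd i) (mem_univ k)
  rw [card_univ, Fintype.card_fin] at this
  refine le_trans (mul_le_mul_of_nonneg_right ?_ (Nat.cast_nonneg _)) this
  have : 0 ≤ a * n := by positivity
  linarith

/-- Lower bounds in the range of logarithmic width, small side. -/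
theorem lower_core (a ε K1 : ℝ) (ha : 0 < a) (hε : 0 < ε) (hK : 0 < K1) : ∃ δ : ℝ, 0 < δ ∧ ∃ N : ℕ,
    ∀ n c m x : ℕ, N ≤ n → a * n ≤ c → (c : ℝ) ≤ (1 - a) * n →
    ∀ J : Finset (Finset (Fin n)), Reg n c m J → n * (x - 1).choose c ≤ m → m < n * x.choose c →
      x ≤ n → (n : ℝ) - x ≤ K1 * log n → (m : ℝ) ≤ δ * n.choose c →
      (1 - ε) * eLo n c m x ≤ ex n c m #(shadow J) := by
  obtain ⟨e, he0, he1, he2⟩ : ∃ e : ℝ, 0 < e ∧ e ≤ 1 / 2 ∧ 2 * e ≤ ε :=
    ⟨min ε 1 / 2, by positivity, by linarith [min_le_right ε 1], by linarith [min_le_left ε 1]⟩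
  obtain ⟨P, hP, N1, h1⟩ := dens_ge a K1 ha hK
  obtain ⟨δ, hδ, N2, h2⟩ := core_sharp (a / 3) e P (by positivity) he0 hP
  obtain ⟨N3, h3⟩ := ev_log (K1 / (e * a))
  refine ⟨δ, hδ, max N1 (max N2 N3), fun n c m x hn hc1 hc2 J hJ hm1 hm2 hx hw hm => ?_⟩
  simp only [max_le_iff] at hn
  obtain ⟨l1, -, l2⟩ := h3 n hn.2.2
  obtain ⟨hn0, l3⟩ := em1_log hK (mul_pos he0 ha) l1 l2
  have han : 0 < a * n := mul_pos ha hn0
  have hc0 : (0 : ℝ) < c := by linarith
  have hcn : (c : ℝ) < n := by linarith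
  have hc0' : 0 < c := by exact_mod_cast hc0
  have hcn' : c < n := by exact_mod_cast hcn
  have hC : (0 : ℝ) < n.choose c := by exact_mod_cast Nat.choose_pos hcn'.le
  have hd := h1 n c x m hn.1 hc2 hx hw hm1
  have hm0 : (0 : ℝ) < m := lt_of_lt_of_le (mul_pos (rpow_pos_of_pos hn0 _) hC) hd
  have key := h2 n univ c J (shadow J) (m / n.choose c)
  rw [card_univ, Fintype.card_fin, hJ.2.1, exc_shadow hc0' hJ] at key
  have key2 := key hn.2.1 (by linarith) (by linarith) (pair_shadow hc0' hJ.1)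
    (div_mul_cancel₀ _ hC.ne') ((le_div_iff₀ hC).2 hd) ((div_le_iff₀ hC).2 hm) fun k _ => by
      rw [← exc_shadow hc0' hJ]
      exact em1_blk ha hc0' hc2 hJ k
  have hwd := width_le hc0' hcn' hx (by exact_mod_cast hm0) hm2.le
  rw [div_div_eq_mul_div] at key2
  have hx' : (x : ℝ) ≤ n := by exact_mod_cast hx
  refine em1_real he1 he2 hc0.le hm0.le (by linarith) (by linarith)
    (log_pos ((one_lt_div (by linarith)).2 (by linarith))) hwd ?_ key2
  have : e * (a * n) ≤ e * (n - c) := mul_le_mul_of_nonneg_left (by linarith) he0.le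
  linarith

theorem lower_mid (a δ K1 : ℝ) (ha : 0 < a) (hδ : 0 < δ) (hK : 0 < K1) : ∃ C : ℝ, 0 < C ∧ ∃ N : ℕ,
    ∀ n c m x : ℕ, N ≤ n → a * n ≤ c → (c : ℝ) ≤ (1 - a) * n →
    ∀ J : Finset (Finset (Fin n)), Reg n c m J → x ≤ n → (n : ℝ) - x ≤ K1 * log n →
      δ * n.choose c ≤ m → 2 * m ≤ n.choose c → eLo n c m x ≤ C * ex n c m #(shadow J) := by
  obtain ⟨c0, hc0, N2, h2⟩ := core_order (a / 3) δ (by positivity) hδ
  obtain ⟨N3, h3⟩ := ev_log (K1 / (a / 2))
  refine ⟨2 * K1 / a / c0, by positivity, max N2 N3,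
    fun n c m x hn hc1 hc2 J hJ hx hw hm1 hm2 => ?_⟩
  simp only [max_le_iff] at hn
  obtain ⟨l1, -, l2⟩ := h3 n hn.2
  obtain ⟨hn0, l3⟩ := em1_log hK (half_pos ha) l1 l2
  have han : 0 < a * n := mul_pos ha hn0
  have hc : (0 : ℝ) < c := by linarith
  have hcn : (c : ℝ) < n := by linarith
  have hc' : 0 < c := by exact_mod_cast hc
  have hcn' : c < n := by exact_mod_cast hcn
  have hC : (0 : ℝ) < n.choose c := by exact_mod_cast Nat.choose_pos hcn'.le
  have hm0 : (0 : ℝ) < m := lt_of_lt_of_le (mul_pos hδ hC) hm1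
  have hm2' : (2 : ℝ) * m ≤ n.choose c := by exact_mod_cast hm2
  have hμ : (m : ℝ) / n.choose c ≤ 1 / 2 := (div_le_iff₀ hC).2 (by linarith)
  have key := h2 n univ c J (shadow J) (m / n.choose c)
  rw [card_univ, Fintype.card_fin, hJ.2.1, exc_shadow hc' hJ] at key
  have key2 := key hn.1 (by linarith) (by linarith) (pair_shadow hc' hJ.1)
    (div_mul_cancel₀ _ hC.ne') ((le_div_iff₀ hC).2 hm1) hμ fun k _ => by
      rw [← exc_shadow hc' hJ]
      exact em1_blk ha hc' hc2 hJ k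
  have hl : log n ≤ log (n / ((m : ℝ) / n.choose c)) :=
    log_le_log hn0 (le_div_self hn0.le (div_pos hm0 hC) (by linarith))
  have hx' : (x : ℝ) ≤ n := by exact_mod_cast hx
  have ht : a / 2 * n ≤ (x : ℝ) - c + 1 := by linarith
  calc eLo n c m x ≤ n * m * (K1 * log n) / (a / 2 * n) := by
        unfold eLo
        have : (0 : ℝ) ≤ n - x := by linarith
        gcongr
    _ = 2 * K1 / a / c0 * (c0 * (m * log n)) := by field_simp
    _ ≤ _ := by
        refine mul_le_mul_of_nonneg_left (le_trans ?_ key2) (by positivity)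
        gcongr

end Pool.Agent.P.MP_4f3dfd_co.Ex
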