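import Mathlib
import Pool.Agent.P.MP_4f3dfd_co.EDefs
import Pool.Agent.P.MP_4f3dfd_co.EF1
import Pool.Agent.P.MP_4f3dfd_co.ENum
import Pool.Agent.P.MP_4f3dfd_co.EH4
import Pool.Agent.P.MP_4f3dfd_co.EH5
import Pool.Agent.P.MP_4f3dfd_co.EDual

set_option autoImplicit false
set_option linter.unusedSectionVars false
set_option linter.unusedVariables false

namespace Pool.Agent.P.MP_4f3dfd_co.Ex

open Finset Real

variable {V : Type*} [DecidableEq V]

/-- The dual pair of a regular family. -/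
theorem em2_dual {n c m : ℕ} (hc : 1 ≤ c) (hcn : c ≤ n) {J : Finset (Finset (Fin n))}
    (hJ : Reg n c m J) : ∃ (Js Ds : Finset (Finset (Fin n))) (μ : ℝ),
      Pair univ (n - c + 1) Js Ds ∧ (exc univ Js Ds : ℝ) = ex n c m #(shadow J) ∧
      #Ds + m = n.choose c ∧ (∀ k, ((n : ℝ) - c) * #(blk Js Ds k) ≤ exc univ Js Ds) ∧
      μ * n.choose (n - c + 1) = #Js ∧
      ((n : ℝ) - c + 1) * #Js = c * #Ds - exc univ Js Ds ∧
      μ * (c * n.choose c) = c * #Ds - exc univ Js Ds := by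
  have hp := pair_shadow hc hJ.1
  have hp' := pair_co hcn hp
  have hcast : ((n - c + 1 : ℕ) : ℝ) = (n : ℝ) - c + 1 := by
    rw [Nat.cast_add, Nat.cast_sub hcn, Nat.cast_one]
  have hk : n - c + c = n := Nat.sub_add_cancel hcn
  obtain ⟨d, hd⟩ := hJ.2.2
  obtain ⟨d', hd'⟩ := reg_co hk hp.hJ (d := d) hd
  have h1 := card_co hk hp.hJ
  rw [hJ.2.1, Nat.choose_symm hcn] at h1
  have h2 := pair_card hp'
  rw [card_fin, hcast] at h2
  have h3 := choose_pred (z := n) (k := n - c + 1) (by omega)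
  rw [hcast, Nat.add_sub_cancel, Nat.choose_symm hcn] at h3
  have hpos : (0 : ℝ) < n.choose (n - c + 1) := by
    exact_mod_cast Nat.choose_pos (by omega)
  have h4 : (#(co (n - c + 1) (shadow J)) : ℝ) / n.choose (n - c + 1) * n.choose (n - c + 1) =
      #(co (n - c + 1) (shadow J)) := div_mul_cancel₀ _ hpos.ne'
  refine ⟨_, _, _, hp', ?_, h1, fun k => ?_, h4, by linarith, ?_⟩
  · rw [exc_co hcn hp, exc_shadow hc hJ]
  · have := blk_le_of_regD hp' (fun i _ => hd' i) (mem_univ k)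
    rw [hcast] at this
    linarith
  · have h5 : (c : ℝ) * n.choose c = ((n : ℝ) - c + 1) * n.choose (n - c + 1) := by linarith
    rw [h5, mul_left_comm, h4]
    linarith

theorem em2_final {B Q e cs Js c M D l L : ℝ} (hQ : 0 < Q) (he : 0 < e) (he' : e ≤ 1 / 3)
    (hc : 0 ≤ c) (hM : 0 ≤ M) (hD : 0 ≤ D) (hl : 0 ≤ l) (h1 : (1 - e) * (c * M) ≤ cs * Js)
    (h2 : D * l ≤ L) (h3 : Q ≤ (1 + e) * (c * l)) (h4 : (1 - e) * (cs / Q) * (Js * L) ≤ B) :
    (1 - 3 * e) * (M * D) ≤ B := by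
  have e1 : 0 ≤ 1 - e := by linarith
  have e3 : 0 ≤ 1 - 3 * e := by linarith
  have h5 : (1 - e) * (cs / Q) * (Js * L) = (1 - e) * (cs * Js * L) / Q := by field_simp
  rw [h5, div_le_iff₀ hQ] at h4
  have p1 : 0 ≤ (1 - e) * (c * M) := by positivity
  have h6 : (1 - e) * (c * M) * (D * l) ≤ cs * Js * L :=
    mul_le_mul h1 h2 (by positivity) (p1.trans h1)
  have h7 : (1 - 3 * e) * (M * D) * Q ≤ (1 - 3 * e) * (M * D) * ((1 + e) * (c * l)) :=
    mul_le_mul_of_nonneg_left h3 (by positivity)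
  have h8 : (1 - 3 * e) * (1 + e) * (c * M * (D * l)) ≤ (1 - e) * (1 - e) * (c * M * (D * l)) :=
    mul_le_mul_of_nonneg_right (by nlinarith) (by positivity)
  have h9 := mul_le_mul_of_nonneg_left h6 e1
  refine le_of_mul_le_mul_right ?_ hQ
  linarith

theorem em2_log {n c a e : ℝ} (ha : 0 < a) (he : 0 < e) (hn : 0 < n) (h2 : 2 ≤ c)
    (h1 : a * n ≤ c) (h3 : c ≤ (1 - a) * n) (h4 : 1 ≤ e * a ^ 2 * n) :
    0 < (c - 1) * log (n / (c - 1)) ∧ 0 ≤ log (n / c) ∧
      (c - 1) * log (n / (c - 1)) ≤ (1 + e) * (c * log (n / c)) := by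
  have hc : 0 < c := by linarith
  have hc1 : 0 < c - 1 := by linarith
  have han : 0 < a * n := by positivity
  have l1 : a ≤ log (n / c) := by
    have := one_sub_inv_le_log_of_pos (div_pos hn hc)
    rw [inv_div] at this
    have h5 : c / n ≤ 1 - a := by rwa [div_le_iff₀ hn]
    linarith
  have l2 : log (n / (c - 1)) = log (n / c) + log (c / (c - 1)) := by
    rw [← log_mul (by positivity) (by positivity)]
    congr 1
    field_simp
  have l3 : (c - 1) * log (c / (c - 1)) ≤ 1 := by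
    have := log_le_sub_one_of_pos (div_pos hc hc1)
    have h5 : (c - 1) * (c / (c - 1) - 1) = 1 := by field_simp; ring
    exact (mul_le_mul_of_nonneg_left this hc1.le).trans h5.le
  have l4 : a * n * a ≤ c * log (n / c) := mul_le_mul h1 l1 ha.le hc.le
  refine ⟨mul_pos hc1 (log_pos ?_), by linarith, ?_⟩
  · rw [one_lt_div hc1]
    linarith
  · have l5 := mul_le_mul_of_nonneg_left l4 he.le
    rw [l2]
    nlinarith

/-- Lower bounds in the range of logarithmic width, large side. -/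
theorem lower_core_hi (a ε K1 : ℝ) (ha : 0 < a) (hε : 0 < ε) (hK : 0 < K1) :
    ∃ δ : ℝ, 0 < δ ∧ ∃ N : ℕ, ∀ n c m y : ℕ, N ≤ n → a * n ≤ c → (c : ℝ) ≤ (1 - a) * n →
    ∀ J : Finset (Finset (Fin n)), Reg n c m J → n * (y - 1).choose (n - c) ≤ n.choose c - m →
      n.choose c - m < n * y.choose (n - c) → y ≤ n → (n : ℝ) - y ≤ K1 * log n →
      (n.choose c : ℝ) - m ≤ δ * n.choose c → (1 - ε) * eHi n c m y ≤ ex n c m #(shadow J) := by
  obtain ⟨e, he, he3, heε⟩ : ∃ e : ℝ, 0 < e ∧ e ≤ 1 / 3 ∧ 3 * e ≤ ε :=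
    ⟨min ε 1 / 3, by positivity, by linarith [min_le_right ε 1], by linarith [min_le_left ε 1]⟩
  obtain ⟨P, hP, N1, hN1⟩ := dens_ge a K1 ha hK
  obtain ⟨δ, hδ, N2, hN2⟩ := core_sharp (a / 6) e (P + 1) (by positivity) he (by positivity)
  obtain ⟨N3, hN3⟩ := ev_log (K1 / (e * a))
  obtain ⟨N4, hN4⟩ := exists_nat_ge (2 + 2 / a + 1 / (e * a ^ 2))
  refine ⟨δ, hδ, max (max N1 N2) (max N3 N4), fun n c m y hn h1 h2 J hJ h3 h4 h5 h6 h7 => ?_⟩
  simp only [max_le_iff] at hn
  obtain ⟨⟨n1, n2⟩, n3, n4⟩ := hn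
  have n5 : 2 + 2 / a + 1 / (e * a ^ 2) ≤ n := hN4.trans (by exact_mod_cast n4)
  have q1 : 0 < 2 / a := by positivity
  have q2 : 0 < 1 / (e * a ^ 2) := by positivity
  have n6 : (2 : ℝ) ≤ n := by linarith
  have n0 : (0 : ℝ) < n := by linarith
  have n7 : 2 ≤ a * n := by
    have : 2 / a ≤ n := by linarith
    rw [div_le_iff₀ ha] at this
    linarith
  have n8 : 1 ≤ e * a ^ 2 * n := by
    have : 1 / (e * a ^ 2) ≤ n := by linarith
    rw [div_le_iff₀ (by positivity)] at this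
    linarith
  have c2 : (2 : ℝ) ≤ c := by linarith
  have c0 : (0 : ℝ) < c := by linarith
  have cn : c < n := by exact_mod_cast (show (c : ℝ) < n by linarith)
  have c1 : 1 ≤ c := by exact_mod_cast (show (1 : ℝ) ≤ c by linarith)
  obtain ⟨Js, Ds, μ, hp, hB, hD, hblk, hμ, hJs, hμ'⟩ := em2_dual c1 cn.le hJ
  rw [← hB]
  have hM : n.choose c - m = #Ds := by omega
  have hM' : (n.choose c : ℝ) - m = #Ds := by
    rw [← hD]
    push_cast
    ring
  rw [hM] at h3 h4
  rw [hM'] at h7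
  rw [eHi, hM']
  have hk : ((n - c : ℕ) : ℝ) = (n : ℝ) - c := Nat.cast_sub cn.le
  have hC : (0 : ℝ) < n.choose c := by exact_mod_cast Nat.choose_pos cn.le
  have hd := hN1 n (n - c) y _ n1 (by rw [hk]; linarith) h5 h6 h3
  rw [Nat.choose_symm cn.le] at hd
  have hnP : 0 < (n : ℝ) ^ (-P) := by positivity
  have M0 : (0 : ℝ) < #Ds := lt_of_lt_of_le (by positivity) hd
  have y0 : (0 : ℝ) ≤ (n : ℝ) - y := sub_nonneg.2 (by exact_mod_cast h5)
  have B0 : (0 : ℝ) ≤ exc univ Js Ds := Nat.cast_nonneg _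
  have p0 : 0 ≤ (#Ds : ℝ) * ((n : ℝ) - y) := by positivity
  rcases le_total (e * (c * #Ds)) (exc univ Js Ds : ℝ) with hb | hb
  · obtain ⟨l1, -, l2⟩ := hN3 n n3
    have l3 : log n ≤ log n ^ 3 := le_self_pow₀ l1 (by norm_num)
    have l4 : K1 / (e * a) * log n ≤ n :=
      (mul_le_mul_of_nonneg_left l3 (by positivity)).trans l2
    rw [div_mul_eq_mul_div, div_le_iff₀ (by positivity)] at l4
    have l5 : (n : ℝ) - y ≤ e * c := by
      have := mul_le_mul_of_nonneg_left h1 he.le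
      linarith only [this, l4, h6]
    have l6 := mul_le_mul_of_nonneg_left l5 M0.le
    have l7 := mul_nonneg hε.le p0
    linarith only [l6, l7, hb]
  · have cC : 0 < (c : ℝ) * n.choose c := by positivity
    have m1 : μ * n.choose c ≤ #Ds := le_of_mul_le_mul_left (by linarith only [hμ', B0]) c0
    have m2 : (1 - e) * #Ds ≤ μ * n.choose c :=
      le_of_mul_le_mul_left (by linarith only [hμ', hb]) c0
    have m3 : (n : ℝ) ^ (-(P + 1)) ≤ μ := by
      refine le_of_mul_le_mul_right ?_ hC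
      rw [neg_add, rpow_add n0, rpow_neg_one]
      have : (n : ℝ)⁻¹ ≤ 1 - e := (inv_anti₀ two_pos n6).trans (by linarith)
      calc (n : ℝ) ^ (-P) * (n : ℝ)⁻¹ * n.choose c = (n : ℝ)⁻¹ * ((n : ℝ) ^ (-P) * n.choose c) := by
            ring
        _ ≤ (1 - e) * #Ds := mul_le_mul this hd (by positivity) (by linarith)
        _ ≤ _ := m2
    have μ0 : 0 < μ := lt_of_lt_of_le (by positivity) m3
    have hcast : ((n - c + 1 : ℕ) : ℝ) = (n : ℝ) - c + 1 := by rw [Nat.cast_add, hk, Nat.cast_one]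
    have core := hN2 n univ (n - c + 1) Js Ds μ
    rw [card_fin, hcast] at core
    have core' := core n2 (by linarith) (by linarith) hp hμ m3
      (le_of_mul_le_mul_right (m1.trans h7) hC) fun k _ =>
        (mul_le_mul_of_nonneg_right (by linarith) (Nat.cast_nonneg _)).trans (hblk k)
    rw [show (n : ℝ) - ((n : ℝ) - c + 1) = c - 1 by ring] at core'
    obtain ⟨g1, g2, g3⟩ := em2_log ha he n0 c2 h1 h2 n8
    have hw := width_le (n := n) (k := n - c) (by omega) (by omega) h5 (by exact_mod_cast M0) h4.le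
    rw [hk, Nat.choose_symm cn.le, sub_sub_cancel] at hw
    have hw' : log (n * (n.choose c : ℝ) / #Ds) ≤ log (n / μ) := by
      refine log_le_log (by positivity) ?_
      rw [div_le_div_iff₀ M0 μ0]
      have := mul_le_mul_of_nonneg_left m1 n0.le
      linarith only [this]
    have fin := em2_final g1 he he3 c0.le M0.le y0 g2 (by linarith only [hJs, hb]) (hw.trans hw')
      g3 core'
    have := mul_le_mul_of_nonneg_right heε p0
    linarith only [this, fin]

theorem lower_mid_hi (a δ K1 : ℝ) (ha : 0 < a) (hδ : 0 < δ) (hK : 0 < K1) :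
    ∃ C : ℝ, 0 < C ∧ ∃ N : ℕ, ∀ n c m y : ℕ, N ≤ n → a * n ≤ c → (c : ℝ) ≤ (1 - a) * n →
    ∀ J : Finset (Finset (Fin n)), Reg n c m J → y ≤ n → (n : ℝ) - y ≤ K1 * log n →
      δ * n.choose c ≤ (n.choose c : ℝ) - m → n.choose c ≤ 2 * m →
      eHi n c m y ≤ C * ex n c m #(shadow J) := by
  obtain ⟨c0, hc0, N2, hN2⟩ := core_order (a / 6) (δ / 2) (by positivity) (by positivity)
  obtain ⟨N4, hN4⟩ := exists_nat_ge (2 + 2 / a)
  refine ⟨2 / a + 2 * K1 / (a * c0), by positivity, max N2 N4,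
    fun n c m y hn h1 h2 J hJ h5 h6 h7 h8 => ?_⟩
  obtain ⟨n2, n4⟩ := max_le_iff.1 hn
  have n5 : 2 + 2 / a ≤ n := hN4.trans (by exact_mod_cast n4)
  have q1 : 0 < 2 / a := by positivity
  have q2 : 0 < 2 * K1 / (a * c0) := by positivity
  have n6 : (2 : ℝ) ≤ n := by linarith
  have n0 : (0 : ℝ) < n := by linarith
  have n7 : 2 ≤ a * n := by
    have : 2 / a ≤ n := by linarith
    rw [div_le_iff₀ ha] at this
    linarith
  have c2 : (2 : ℝ) ≤ c := by linarith
  have c0' : (0 : ℝ) < c := by linarith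
  have cn : c < n := by exact_mod_cast (show (c : ℝ) < n by linarith)
  have c1 : 1 ≤ c := by exact_mod_cast (show (1 : ℝ) ≤ c by linarith)
  obtain ⟨Js, Ds, μ, hp, hB, hD, hblk, hμ, hJs, hμ'⟩ := em2_dual c1 cn.le hJ
  rw [← hB]
  have hD' : (#Ds : ℝ) + m = n.choose c := by exact_mod_cast hD
  have hM' : (n.choose c : ℝ) - m = #Ds := by linarith
  have h8' : (n.choose c : ℝ) ≤ 2 * m := by exact_mod_cast h8
  rw [hM'] at h7
  rw [eHi, hM', add_mul]
  have hC : (0 : ℝ) < n.choose c := by exact_mod_cast Nat.choose_pos cn.le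
  have M0 : (0 : ℝ) ≤ #Ds := Nat.cast_nonneg _
  have B0 : (0 : ℝ) ≤ exc univ Js Ds := Nat.cast_nonneg _
  have y0 : (0 : ℝ) ≤ y := Nat.cast_nonneg _
  have p1 := mul_nonneg q1.le B0
  have p2 := mul_nonneg q2.le B0
  rcases le_total ((c : ℝ) * #Ds / 2) (exc univ Js Ds : ℝ) with hb | hb
  · have : (#Ds : ℝ) * ((n : ℝ) - y) ≤ 2 / a * exc univ Js Ds := by
      rw [div_mul_eq_mul_div, le_div_iff₀ ha]
      have l1 : ((n : ℝ) - y) * a ≤ c := by linarith only [h1, mul_nonneg y0 ha.le]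
      have l2 := mul_le_mul_of_nonneg_left l1 M0
      linarith
    linarith
  · have m1 : μ * n.choose c ≤ #Ds := le_of_mul_le_mul_left (by linarith) c0'
    have m2 : #Ds / 2 ≤ μ * n.choose c := le_of_mul_le_mul_left (by linarith) c0'
    have m3 : δ / 2 ≤ μ := le_of_mul_le_mul_right (by linarith) hC
    have m4 : μ ≤ 1 / 2 := le_of_mul_le_mul_right (by linarith) hC
    have μ0 : 0 < μ := by linarith
    have hcast : ((n - c + 1 : ℕ) : ℝ) = (n : ℝ) - c + 1 := by
      rw [Nat.cast_add, Nat.cast_sub cn.le, Nat.cast_one]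
    have core := hN2 n univ (n - c + 1) Js Ds μ
    rw [card_fin, hcast] at core
    have core' := core n2 (by linarith) (by linarith) hp hμ m3 m4 fun k _ =>
      (mul_le_mul_of_nonneg_right (by linarith) (Nat.cast_nonneg _)).trans (hblk k)
    have J0 : (0 : ℝ) ≤ #Js := Nat.cast_nonneg _
    have j1 : a * #Ds ≤ 2 * #Js := by
      refine le_of_mul_le_mul_left ?_ n0
      have l1 := mul_le_mul_of_nonneg_right h1 M0
      have l2 := mul_le_mul_of_nonneg_right (show (n : ℝ) - c + 1 ≤ n by linarith) J0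
      linarith
    have g0 : 0 ≤ log n := log_nonneg (by linarith)
    have g1 : log n ≤ log (n / μ) := by
      refine log_le_log n0 ?_
      rw [le_div_iff₀ μ0]
      exact mul_le_of_le_one_right n0.le (by linarith only [m4])
    have : (#Ds : ℝ) * ((n : ℝ) - y) ≤ 2 * K1 / (a * c0) * exc univ Js Ds := by
      rw [div_mul_eq_mul_div, le_div_iff₀ (by positivity)]
      have l1 := mul_le_mul_of_nonneg_left h6 M0
      have l2 : a * #Ds * log n ≤ 2 * #Js * log (n / μ) := mul_le_mul j1 g1 g0 (by positivity)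
      have l3 := mul_le_mul_of_nonneg_right l1 (mul_pos ha hc0).le
      have l4 := mul_le_mul_of_nonneg_left l2 (mul_pos hK hc0).le
      have l5 := mul_le_mul_of_nonneg_left core' hK.le
      linarith only [l3, l4, l5]
    linarith

end Pool.Agent.P.MP_4f3dfd_co.Ex
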