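import Mathlib
import Pool.Agent.P.MP_4f3dfd_co.EDefs
import Pool.Agent.P.MP_4f3dfd_co.AMain
import Pool.Agent.P.MP_4f3dfd_co.ENum
import Pool.Agent.P.MP_4f3dfd_co.EDual

set_option autoImplicit false
set_option linter.unusedSectionVars false
set_option linter.unusedVariables false

namespace Pool.Agent.P.MP_4f3dfd_co.Ex

open Finset Real

variable {V : Type*} [DecidableEq V]

theorem upper_lo_far (a ε : ℝ) (ha : 0 < a) (hε : 0 < ε) : ∃ K N : ℕ,
    ∀ n c m x : ℕ, N ≤ n → a * n ≤ c → (c : ℝ) ≤ (1 - a) * n → n ∣ c * m → 1 ≤ m →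
      2 * m ≤ n.choose c → n * (x - 1).choose c ≤ m → m < n * x.choose c → c + K ≤ x →
      a * n / 4 ≤ (n : ℝ) - x →
      ∃ J : Finset (Finset (Fin n)), Reg n c m J ∧
        ex n c m #(shadow J) ≤ (1 + ε) * eLo n c m x := by
  obtain ⟨K0, hK0⟩ := Asy.asymptotic (ε * a / 4) (by positivity)
  obtain ⟨N, hN⟩ := exists_nat_ge (((K0 : ℝ) + 1) / a)
  refine ⟨K0 + 1, N, ?_⟩
  intro n c m x hn hc1 hc2 hdvd hm1 hm2 hx1 hx2 hxK hnx
  have hnN : (N : ℝ) ≤ n := by exact_mod_cast hn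
  have haN : (K0 : ℝ) + 1 ≤ a * n := by
    rw [div_le_iff₀ ha] at hN
    nlinarith
  have hcK : K0 + 1 ≤ c := by exact_mod_cast haN.trans hc1
  have hc0 : 1 ≤ c := by omega
  have hn0 : (0 : ℝ) ≤ n := Nat.cast_nonneg n
  have hcn : c ≤ n := by
    have : (c : ℝ) ≤ n := by nlinarith
    exact_mod_cast this
  have hnpos : 0 < n := by omega
  have hnpos' : (0 : ℝ) < n := by exact_mod_cast hnpos
  obtain ⟨d, hd⟩ := hdvd
  have hd' : (c : ℝ) * m = n * d := by exact_mod_cast hd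
  have hex : ∃ z : ℕ, d < z.choose (c - 1) := by
    refine ⟨n, ?_⟩
    have h1 := choose_pred (z := n) hc0
    have h2 : (2 : ℝ) * m ≤ n.choose c := by exact_mod_cast hm2
    have h3 : (0 : ℝ) < n.choose (c - 1) := by exact_mod_cast Nat.choose_pos (by omega)
    have h4 : (1 : ℝ) ≤ c := by exact_mod_cast hc0
    have h5 : (n : ℝ) * (2 * d) ≤ n * n.choose (c - 1) := by
      calc (n : ℝ) * (2 * d) = c * (2 * m) := by linarith
        _ ≤ c * n.choose c := mul_le_mul_of_nonneg_left h2 (by linarith)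
        _ = ((n : ℝ) - c + 1) * n.choose (c - 1) := h1
        _ ≤ n * n.choose (c - 1) := mul_le_mul_of_nonneg_right (by linarith) h3.le
    have h6 := le_of_mul_le_mul_left h5 hnpos'
    have h7 : (d : ℝ) < n.choose (c - 1) := by
      have : (0 : ℝ) ≤ d := Nat.cast_nonneg d
      linarith
    exact_mod_cast h7
  have hdx : (x - 1).choose (c - 1) ≤ d := by
    have h1 := choose_pred (z := x - 1) hc0
    have h2 : (n : ℝ) * (x - 1).choose c ≤ m := by exact_mod_cast hx1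
    have h3 : (0 : ℝ) ≤ (x - 1).choose (c - 1) := Nat.cast_nonneg _
    have h4 : (1 : ℝ) ≤ ((x - 1 : ℕ) : ℝ) - c + 1 := by
      have : c ≤ x - 1 := by omega
      have : (c : ℝ) ≤ ((x - 1 : ℕ) : ℝ) := by exact_mod_cast this
      linarith
    have h5 : (n : ℝ) * (x - 1).choose (c - 1) ≤ n * d := by
      calc (n : ℝ) * (x - 1).choose (c - 1)
          ≤ n * ((((x - 1 : ℕ) : ℝ) - c + 1) * (x - 1).choose (c - 1)) :=
            mul_le_mul_of_nonneg_left (by nlinarith) hn0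
        _ = c * (n * (x - 1).choose c) := by rw [← h1]; ring
        _ ≤ c * m := mul_le_mul_of_nonneg_left h2 (Nat.cast_nonneg c)
        _ = n * d := hd'
    exact_mod_cast le_of_mul_le_mul_left h5 hnpos'
  have hz1 : d < (Nat.find hex).choose (c - 1) := Nat.find_spec hex
  have hxz : x ≤ Nat.find hex := by
    by_contra hlt
    have : (Nat.find hex).choose (c - 1) ≤ (x - 1).choose (c - 1) :=
      Nat.choose_le_choose _ (by omega)
    omega
  have hz0 : (Nat.find hex - 1).choose (c - 1) ≤ d :=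
    not_lt.1 (Nat.find_min hex (by omega))
  obtain ⟨f, ⟨⟨J, hJ1, hJ2, hJ3, hJ4⟩, -⟩, hf⟩ := hK0 n c m d (Nat.find hex) hm1 (by omega)
    (by rw [hd, mul_comm]) hz0 hz1 (by omega) (Or.inl (by omega))
  refine ⟨J, ⟨hJ1, hJ2, hJ3⟩, ?_⟩
  rw [hJ4]
  have hcm : (0 : ℝ) < (c : ℝ) * m := by
    have h1 : (0 : ℝ) < c := by exact_mod_cast hc0
    have h2 : (0 : ℝ) < m := by exact_mod_cast hm1
    positivity
  have hf1 : (f : ℝ) * ((Nat.find hex : ℝ) - c + 1) ≤ (1 + ε * a / 4) * (c * m) := by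
    have := (abs_le.1 hf).2
    rw [sub_le_iff_le_add, div_le_iff₀ hcm] at this
    linarith
  have hxz' : (x : ℝ) ≤ Nat.find hex := by exact_mod_cast hxz
  have hf0 : (0 : ℝ) ≤ f := Nat.cast_nonneg f
  have hf2 : (f : ℝ) * ((x : ℝ) - c + 1) ≤ (1 + ε * a / 4) * (c * m) :=
    (mul_le_mul_of_nonneg_left (by linarith) hf0).trans hf1
  have hcx : (c : ℝ) ≤ x := by exact_mod_cast (by omega : c ≤ x)
  have ht : (0 : ℝ) < (x : ℝ) - c + 1 := by linarith
  have hcn' : (c : ℝ) ≤ n := by exact_mod_cast hcn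
  have hc1' : (1 : ℝ) ≤ c := by exact_mod_cast hc0
  unfold ex eLo
  rw [← mul_div_assoc, le_div_iff₀ ht]
  have h1 : ((n : ℝ) - c + 1) * (f * ((x : ℝ) - c + 1)) ≤
      ((n : ℝ) - c + 1) * ((1 + ε * a / 4) * (c * m)) :=
    mul_le_mul_of_nonneg_left hf2 (by linarith)
  have h2 : ε * a / 4 * ((n : ℝ) - c + 1) ≤ ε * ((n : ℝ) - x) := by
    calc ε * a / 4 * ((n : ℝ) - c + 1) ≤ ε * a / 4 * n :=
          mul_le_mul_of_nonneg_left (by linarith) (by positivity)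
      _ = ε * (a * n / 4) := by ring
      _ ≤ _ := mul_le_mul_of_nonneg_left hnx hε.le
  have h3 := mul_le_mul_of_nonneg_right h2 hcm.le
  nlinarith

theorem upper_lo_crude (a : ℝ) (ha : 0 < a) (K : ℕ) : ∃ C : ℝ, 0 < C ∧ ∃ N : ℕ,
    ∀ n c m x : ℕ, N ≤ n → a * n ≤ c → (c : ℝ) ≤ (1 - a) * n → n ∣ c * m → 1 ≤ m →
      m ≤ n.choose c → c ≤ x → x ≤ c + K →
      ∃ J : Finset (Finset (Fin n)), Reg n c m J ∧ ex n c m #(shadow J) ≤ C * eLo n c m x := by
  obtain ⟨N, hN⟩ := exists_nat_ge ((2 * (K : ℝ) + 1) / a)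
  refine ⟨2 * (K + 1) / a, by positivity, N, ?_⟩
  intro n c m x hn hc1 hc2 hdvd hm1 hm2 hcx hxK
  have hnN : (N : ℝ) ≤ n := by exact_mod_cast hn
  have hK : (0 : ℝ) ≤ K := Nat.cast_nonneg K
  have haN : 2 * (K : ℝ) + 1 ≤ a * n := by
    rw [div_le_iff₀ ha] at hN
    nlinarith
  have hc1' : (1 : ℝ) ≤ c := by linarith
  have hc0 : 1 ≤ c := by exact_mod_cast hc1'
  obtain ⟨J, hJ, h1, -⟩ := exists_reg hc0 hm1 hm2 hdvd
  refine ⟨J, hJ, ?_⟩
  have hn0 : (0 : ℝ) ≤ n := Nat.cast_nonneg n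
  have hcn : (c : ℝ) ≤ n := by nlinarith
  have h1' : (#(shadow J) : ℝ) ≤ c * m := by exact_mod_cast h1
  have hcm : (0 : ℝ) ≤ (c : ℝ) * m := by positivity
  have hcx' : (c : ℝ) ≤ x := by exact_mod_cast hcx
  have hxK' : (x : ℝ) ≤ c + K := by exact_mod_cast hxK
  have ht : (0 : ℝ) < (x : ℝ) - c + 1 := by linarith
  have h2 : ex n c m #(shadow J) ≤ n * (c * m) := by
    unfold ex
    have := mul_le_mul_of_nonneg_left h1' (by linarith : (0 : ℝ) ≤ (n : ℝ) - c + 1)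
    nlinarith
  refine h2.trans ?_
  unfold eLo
  rw [← mul_div_assoc, le_div_iff₀ ht, div_mul_eq_mul_div, le_div_iff₀ ha]
  have h3 : a * n ≤ 2 * ((n : ℝ) - x) := by nlinarith
  have h4 : (a * n) * ((x : ℝ) - c + 1) ≤ (2 * ((n : ℝ) - x)) * (K + 1) :=
    mul_le_mul h3 (by linarith) ht.le (by nlinarith)
  have h5 := mul_le_mul_of_nonneg_right h4 hcm
  nlinarith

end Pool.Agent.P.MP_4f3dfd_co.Ex
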