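import Mathlib
import Pool.Agent.P.MP_4f3dfd_co.EDefs
import Pool.Agent.P.MP_4f3dfd_co.AChain

set_option autoImplicit false
set_option linter.unusedSectionVars false
set_option linter.unusedVariables false

namespace Pool.Agent.P.MP_4f3dfd_co.Ex

open Finset Real

variable {V : Type*} [DecidableEq V]

open scoped Pointwise in
theorem eu1_step {n : ℕ} [NeZero n] (l : ℕ) (C1 C2 : Finset (Finset (Fin n)))
    (B : Finset (Fin n)) :
    #(Asy.cl l (C1 ∪ insert B C2)) ≤ #(Asy.cl l (C1 ∪ C2)) + n * (#B).choose l := by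
  have hsub : Asy.cl l (C1 ∪ insert B C2) ⊆ Asy.cl l (C1 ∪ C2) ∪
      (univ : Finset (Fin n)).biUnion fun s => powersetCard l (s +ᵥ B) := by
    intro X hX
    obtain ⟨hc, A, hA, s, hs⟩ := Asy.mem_cl.1 hX
    rw [mem_union]
    rcases mem_union.1 hA with hA | hA
    · exact Or.inl (Asy.mem_cl.2 ⟨hc, A, mem_union_left _ hA, s, hs⟩)
    · rcases mem_insert.1 hA with rfl | hA
      · exact Or.inr (mem_biUnion.2 ⟨s, mem_univ _, mem_powersetCard.2 ⟨hs, hc⟩⟩)
      · exact Or.inl (Asy.mem_cl.2 ⟨hc, A, mem_union_right _ hA, s, hs⟩)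
  refine (card_le_card hsub).trans ((card_union_le _ _).trans (Nat.add_le_add_left ?_ _))
  refine card_biUnion_le.trans (le_of_eq ?_)
  simp only [card_powersetCard, card_vadd_finset, sum_const, card_univ, Fintype.card_fin,
    smul_eq_mul]

open scoped Pointwise in
theorem eu1_full {n : ℕ} [NeZero n] {l y2 : ℕ} (h1 : l ≤ y2) (C1 C2 : Finset (Finset (Fin n)))
    (B0 : Finset (Fin n)) (h2 : y2 ≤ #B0) (hall : ∀ B, B ⊆ B0 → #B = y2 → B ∈ C2) :
    Asy.cl l (insert B0 C1) ⊆ Asy.cl l (C1 ∪ C2) := by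
  intro X hX
  obtain ⟨hc, A, hA, s, hs⟩ := Asy.mem_cl.1 hX
  rcases mem_insert.1 hA with rfl | hA
  · have h0 : (-s) +ᵥ X ⊆ A := by
      have := vadd_finset_subset_vadd_finset (a := -s) hs
      rwa [neg_vadd_vadd] at this
    obtain ⟨B, hXB, hBA, hB⟩ := exists_subsuperset_card_eq h0 (n := y2)
      (by rw [card_vadd_finset, hc]; exact h1) h2
    refine Asy.mem_cl.2 ⟨hc, B, mem_union_right _ (hall B hBA hB), s, ?_⟩
    have := vadd_finset_subset_vadd_finset (a := s) hXB
    rwa [vadd_neg_vadd] at this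
  · exact Asy.mem_cl.2 ⟨hc, A, mem_union_left _ hA, s, hs⟩

open scoped Pointwise in
/-- A two-scale chain of translation invariant families. -/
theorem chain2 {n : ℕ} [NeZero n] {l y1 y2 t : ℕ} (h1 : l ≤ y2) (h2 : y2 ≤ y1) (h3 : y1 ≤ n)
    (ht : t ≤ n.choose l) : ∃ (C1 C2 : Finset (Finset (Fin n))) (B0 : Finset (Fin n)),
      (∀ B ∈ C1, #B = y1) ∧ #B0 = y1 ∧ (∀ B ∈ C2, #B = y2 ∧ B ⊆ B0) ∧
      #(Asy.cl l (C1 ∪ C2)) ≤ t ∧ t ≤ #(Asy.cl l (C1 ∪ C2)) + n * y2.choose l := by
  classical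
  let S : Finset (Finset (Finset (Fin n))) :=
    univ.filter fun C => (∀ B ∈ C, #B = y1) ∧ #(Asy.cl l C) ≤ t
  have hS : S.Nonempty := ⟨∅, by
    refine mem_filter.2 ⟨mem_univ _, fun B hB => absurd hB (notMem_empty _), ?_⟩
    have : Asy.cl l (∅ : Finset (Finset (Fin n))) = ∅ := by
      ext X
      simp [Asy.mem_cl]
    rw [this, card_empty]
    exact Nat.zero_le _⟩
  obtain ⟨C1, hC1, hmax⟩ := exists_max_image S card hS
  simp only [S, mem_filter, mem_univ, true_and] at hC1
  obtain ⟨hCy, hle⟩ := hC1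
  by_cases hex : ∃ B0 ∉ C1, #B0 = y1
  · obtain ⟨B0, hB0, hB0c⟩ := hex
    have hgt : t < #(Asy.cl l (insert B0 C1)) := by
      by_contra hcon
      have := hmax (insert B0 C1) (by
        simp only [S, mem_filter, mem_univ, true_and]
        refine ⟨fun B hB => ?_, by omega⟩
        rcases mem_insert.1 hB with rfl | hB
        · exact hB0c
        · exact hCy B hB)
      rw [card_insert_of_notMem hB0] at this
      omega
    let S2 : Finset (Finset (Finset (Fin n))) :=
      univ.filter fun C => (∀ B ∈ C, #B = y2 ∧ B ⊆ B0) ∧ #(Asy.cl l (C1 ∪ C)) ≤ t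
    have hS2 : S2.Nonempty := ⟨∅, by
      refine mem_filter.2 ⟨mem_univ _, fun B hB => absurd hB (notMem_empty _), ?_⟩
      rw [union_empty]
      exact hle⟩
    obtain ⟨C2, hC2, hmax2⟩ := exists_max_image S2 card hS2
    simp only [S2, mem_filter, mem_univ, true_and] at hC2
    obtain ⟨hC2y, hle2⟩ := hC2
    refine ⟨C1, C2, B0, hCy, hB0c, hC2y, hle2, ?_⟩
    have hex2 : ∃ B, B ⊆ B0 ∧ #B = y2 ∧ B ∉ C2 := by
      by_contra hcon
      push Not at hcon
      have := card_le_card (eu1_full h1 C1 C2 B0 (by omega) hcon)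
      omega
    obtain ⟨B, hBs, hBc, hB⟩ := hex2
    have hstep := eu1_step l C1 C2 B
    rw [hBc] at hstep
    by_contra hcon
    have := hmax2 (insert B C2) (by
      simp only [S2, mem_filter, mem_univ, true_and]
      refine ⟨fun A hA => ?_, by omega⟩
      rcases mem_insert.1 hA with rfl | hA
      · exact ⟨hBc, hBs⟩
      · exact hC2y A hA)
    rw [card_insert_of_notMem hB] at this
    omega
  · push Not at hex
    obtain ⟨B0, -, hB0⟩ := exists_subset_card_eq (s := (univ : Finset (Fin n))) (n := y1)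
      (by simpa using h3)
    refine ⟨C1, ∅, B0, hCy, hB0, fun B hB => absurd hB (notMem_empty _), ?_, ?_⟩
    · rw [union_empty]
      exact hle
    · rw [union_empty]
      have : powersetCard l (univ : Finset (Fin n)) ⊆ Asy.cl l C1 := by
        intro X hX
        rw [mem_powersetCard] at hX
        obtain ⟨B, hXB, -, hB⟩ := exists_subsuperset_card_eq (subset_univ X) (n := y1)
          (by rw [hX.2]; omega) (by simpa using h3)
        refine Asy.mem_cl.2 ⟨hX.2, B, by_contra fun h => hex B h hB, 0, by simpa using hXB⟩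
      have := card_le_card this
      rw [card_powersetCard, card_univ, Fintype.card_fin] at this
      omega

end Pool.Agent.P.MP_4f3dfd_co.Ex
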