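import Mathlib
import Pool.Agent.P.MP_4f3dfd_co.EDefs
import Pool.Agent.P.MP_4f3dfd_co.AChain
import Pool.Agent.P.MP_4f3dfd_co.EF1

set_option autoImplicit false
set_option linter.unusedSectionVars false
set_option linter.unusedVariables false

namespace Pool.Agent.P.MP_4f3dfd_co.Ex

open Finset Real
open scoped Pointwise

variable {V : Type*} [DecidableEq V]

theorem pair_cl {n : ℕ} [NeZero n] {c : ℕ} (hc : 1 ≤ c) (C : Finset (Finset (Fin n))) :
    Pair univ c (Asy.cl c C) (Asy.cl (c - 1) C) := by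
  refine ⟨hc, ?_, ?_, ?_⟩
  · intro X hX
    exact mem_powersetCard.2 ⟨subset_univ _, (Asy.mem_cl.1 hX).1⟩
  · intro X hX
    exact mem_powersetCard.2 ⟨subset_univ _, (Asy.mem_cl.1 hX).1⟩
  · intro X hX i hi
    obtain ⟨h1, B, hB, s, hs⟩ := Asy.mem_cl.1 hX
    exact Asy.mem_cl.2 ⟨by rw [card_erase_of_mem hi, h1], B, hB, s, (erase_subset _ _).trans hs⟩

theorem reg_cl {n : ℕ} [NeZero n] (c : ℕ) (C : Finset (Finset (Fin n))) :
    ∃ d : ℕ, ∀ i, deg (Asy.cl c C) i = d := by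
  exact ⟨deg (Asy.cl c C) 0, fun i => le_antisymm (Asy.deg_cl c C i 0) (Asy.deg_cl c C 0 i)⟩

theorem cl_mono {n : ℕ} [NeZero n] (c : ℕ) {C C' : Finset (Finset (Fin n))} (h : C ⊆ C') :
    Asy.cl c C ⊆ Asy.cl c C' := by
  intro X hX
  obtain ⟨h1, B, hB, s, hs⟩ := Asy.mem_cl.1 hX
  exact Asy.mem_cl.2 ⟨h1, B, h hB, s, hs⟩

theorem card_cl_single {n : ℕ} [NeZero n] (c : ℕ) (B : Finset (Fin n)) :
    #(Asy.cl c {B}) ≤ n * (#B).choose c := by
  have h1 : Asy.cl c {B} ⊆ (univ : Finset (Fin n)).biUnion fun s => powersetCard c (s +ᵥ B) := by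
    intro X hX
    obtain ⟨h1, A, hA, s, hs⟩ := Asy.mem_cl.1 hX
    rw [mem_singleton] at hA
    subst hA
    exact mem_biUnion.2 ⟨s, mem_univ _, mem_powersetCard.2 ⟨hs, h1⟩⟩
  refine (card_le_card h1).trans (card_biUnion_le.trans (le_of_eq ?_))
  rw [sum_congr rfl (fun s _ => by rw [card_powersetCard, card_vadd_finset]), sum_const,
    card_univ, Fintype.card_fin, smul_eq_mul]

theorem exc_cl {n : ℕ} [NeZero n] {c y1 y2 : ℕ} (hc : 1 ≤ c) (C1 C2 : Finset (Finset (Fin n)))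
    (B0 : Finset (Fin n)) (h1 : ∀ B ∈ C1, #B = y1) (h0 : #B0 = y1)
    (h2 : ∀ B ∈ C2, #B = y2 ∧ B ⊆ B0) :
    exc univ (Asy.cl c (C1 ∪ C2)) (Asy.cl (c - 1) (C1 ∪ C2)) ≤
      (n - y1) * #(Asy.cl (c - 1) C1) + (n - y2) * (n * y1.choose (c - 1)) := by
  classical
  have key : ∀ (Y B : Finset (Fin n)) (s : Fin n), #Y = c - 1 → B ∈ C1 ∪ C2 → Y ⊆ s +ᵥ B →
      #{k ∈ (univ : Finset (Fin n)) | k ∉ Y ∧ insert k Y ∉ Asy.cl c (C1 ∪ C2)} ≤ n - #B := by
    intro Y B s hY hB hs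
    have e : #((univ : Finset (Fin n)) \ (s +ᵥ B)) = n - #B := by
      rw [card_sdiff_of_subset (subset_univ _), card_univ, Fintype.card_fin, card_vadd_finset]
    rw [← e]
    apply card_le_card
    intro k hk
    rw [mem_filter] at hk
    refine mem_sdiff.2 ⟨mem_univ _, fun hin => hk.2.2 ?_⟩
    exact Asy.mem_cl.2 ⟨by rw [card_insert_of_notMem hk.2.1]; omega, B, hB, s,
      insert_subset hin hs⟩
  have swap : exc univ (Asy.cl c (C1 ∪ C2)) (Asy.cl (c - 1) (C1 ∪ C2)) =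
      ∑ Y ∈ Asy.cl (c - 1) (C1 ∪ C2),
        #{k ∈ (univ : Finset (Fin n)) | k ∉ Y ∧ insert k Y ∉ Asy.cl c (C1 ∪ C2)} := by
    unfold exc blk
    simp only [card_filter]
    exact sum_comm
  rw [swap, ← sum_filter_add_sum_filter_not _ (fun Y => Y ∈ Asy.cl (c - 1) C1)]
  apply Nat.add_le_add
  · refine (sum_le_card_nsmul _ _ (n - y1) ?_).trans ?_
    · intro Y hY
      obtain ⟨hc1, B, hB, s, hs⟩ := Asy.mem_cl.1 (mem_filter.1 hY).2
      have := key Y B s hc1 (mem_union_left _ hB) hs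
      rwa [h1 B hB] at this
    · rw [smul_eq_mul, mul_comm]
      exact Nat.mul_le_mul_left _ (card_le_card fun Y hY => (mem_filter.1 hY).2)
  · have aux : ∀ Y ∈ {Y ∈ Asy.cl (c - 1) (C1 ∪ C2) | ¬ Y ∈ Asy.cl (c - 1) C1},
        #Y = c - 1 ∧ ∃ B ∈ C2, ∃ s : Fin n, Y ⊆ s +ᵥ B := by
      intro Y hY
      obtain ⟨hY1, hY2⟩ := mem_filter.1 hY
      obtain ⟨hc1, B, hB, s, hs⟩ := Asy.mem_cl.1 hY1
      rcases mem_union.1 hB with hB | hB
      · exact absurd (Asy.mem_cl.2 ⟨hc1, B, hB, s, hs⟩) hY2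
      · exact ⟨hc1, B, hB, s, hs⟩
    refine (sum_le_card_nsmul _ _ (n - y2) ?_).trans ?_
    · intro Y hY
      obtain ⟨hc1, B, hB, s, hs⟩ := aux Y hY
      have := key Y B s hc1 (mem_union_right _ hB) hs
      rwa [(h2 B hB).1] at this
    · rw [smul_eq_mul, mul_comm]
      apply Nat.mul_le_mul_left
      have := card_cl_single (c - 1) B0
      rw [h0] at this
      refine le_trans (card_le_card fun Y hY => ?_) this
      obtain ⟨hc1, B, hB, s, hs⟩ := aux Y hY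
      exact Asy.mem_cl.2 ⟨hc1, B0, mem_singleton_self _, s,
        hs.trans (vadd_finset_subset_vadd_finset (h2 B hB).2)⟩

theorem card_cl_pred {n : ℕ} [NeZero n] {c y : ℕ} (hc : 1 ≤ c) (C : Finset (Finset (Fin n)))
    (h : ∀ B ∈ C, #B = y) : #(Asy.cl (c - 1) C) * (y + 1 - c) ≤ c * #(Asy.cl c C) := by
  rw [mul_comm c]
  apply card_mul_le_card_mul (fun Y X => Y ⊆ X)
  · intro Y hY
    obtain ⟨hYc, B, hB, s, hYP⟩ := Asy.mem_cl.1 hY
    have h1 : #((s +ᵥ B) \ Y) = y + 1 - c := by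
      have := card_le_card hYP
      rw [card_vadd_finset, h B hB] at this
      rw [card_sdiff_of_subset hYP, card_vadd_finset, h B hB]; omega
    rw [← h1]
    apply card_le_card_of_injOn (insert · Y)
    · intro a ha
      rw [mem_coe, mem_sdiff] at ha
      rw [mem_coe, mem_bipartiteAbove, Asy.mem_cl]
      refine ⟨⟨by rw [card_insert_of_notMem ha.2]; omega, B, hB, s, insert_subset ha.1 hYP⟩,
        subset_insert _ _⟩
    · intro a ha b _ h
      rw [mem_coe, mem_sdiff] at ha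
      have : a ∈ insert b Y := by
        have h' : insert a Y = insert b Y := h
        rw [← h']; exact mem_insert_self _ _
      rcases mem_insert.1 this with h | h
      · exact h
      · exact absurd h ha.2
  · intro X hX
    have hXc := (Asy.mem_cl.1 hX).1
    have e : #(powersetCard (c - 1) X) = c := by
      rw [card_powersetCard, hXc]
      obtain ⟨d, rfl⟩ : ∃ d, c = d + 1 := ⟨c - 1, by omega⟩
      simp
    refine le_trans (card_le_card ?_) e.le
    intro Y hY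
    rw [mem_bipartiteBelow] at hY
    exact mem_powersetCard.2 ⟨hY.2, (Asy.mem_cl.1 hY.1).1⟩

end Pool.Agent.P.MP_4f3dfd_co.Ex
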