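import Mathlib
import Pool.Agent.P.MP_4f3dfd_co.EDefs
import Pool.Agent.P.MP_4f3dfd_co.EF1
import Pool.Agent.P.MP_4f3dfd_co.ENum
import Pool.Agent.P.MP_4f3dfd_co.EDual
import Pool.Agent.P.MP_4f3dfd_co.EU1
import Pool.Agent.P.MP_4f3dfd_co.EU2

set_option autoImplicit false
set_option linter.unusedSectionVars false
set_option linter.unusedVariables false

namespace Pool.Agent.P.MP_4f3dfd_co.Ex

open Finset Real

variable {V : Type*} [DecidableEq V]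

theorem eu3_core {n c m : ℕ} (hcn : c ≤ n) {T D : Finset (Finset (Fin n))} (h : Pair univ c T D)
    {d : ℕ} (hd : ∀ i, deg T i = d) (hm0 : 1 ≤ m) (hm : m ≤ #T) (hdvd : n ∣ c * m) :
    ∃ J : Finset (Finset (Fin n)), Reg n c m J ∧ ex n c m #(shadow J) ≤
      c * ((#T : ℝ) - m) + exc univ T D + (n : ℝ) ^ 4 := by
  obtain ⟨J, hJ, hs⟩ := round h hd hm0 hm hdvd
  refine ⟨J, hJ, ?_⟩
  have hp := pair_card h
  rw [card_univ, Fintype.card_fin] at hp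
  have hc1 : (1 : ℝ) ≤ c := by exact_mod_cast h.pos
  have hcn' : (c : ℝ) ≤ n := by exact_mod_cast hcn
  have hs' : ((#(shadow J) : ℕ) : ℝ) ≤ #D + c * (c * n) := by exact_mod_cast hs
  have h0 : (0 : ℝ) ≤ (n : ℝ) - c + 1 := by linarith
  have h1 := mul_le_mul_of_nonneg_left hs' h0
  have h2 : ((n : ℝ) - c + 1) * (c * (c * n)) ≤ (n : ℝ) ^ 4 := by
    have : ((n : ℝ) - c + 1) * (c * (c * n)) ≤ n * (n * (n * n)) := by
      gcongr
      linarith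
    calc _ ≤ _ := this
      _ = _ := by ring
  unfold ex
  nlinarith

theorem upper_lo_raw {n c m y1 y2 : ℕ} (hc : 1 ≤ c) (h1 : c ≤ y2) (h2 : y2 ≤ y1) (h3 : y1 ≤ n)
    (hm0 : 1 ≤ m) (hm : m + n * y2.choose c ≤ n.choose c) (hdvd : n ∣ c * m) :
    ∃ J : Finset (Finset (Fin n)), Reg n c m J ∧ ex n c m #(shadow J) ≤
      c * (n * y2.choose c) +
        ((n : ℝ) - y1) * (c * (m + n * y2.choose c) / ((y1 : ℝ) - c + 1)) +
        ((n : ℝ) - y2) * (n * y1.choose (c - 1)) + (n : ℝ) ^ 4 := by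
  have hcn : c ≤ n := by omega
  have : NeZero n := ⟨by omega⟩
  obtain ⟨C1, C2, B0, a1, a0, a2, t1, t2⟩ := chain2 (n := n) h1 h2 h3 hm
  obtain ⟨d, hd⟩ := reg_cl c (C1 ∪ C2)
  obtain ⟨J, hJ, hb⟩ := eu3_core hcn (pair_cl hc (C1 ∪ C2)) hd hm0 (by omega) hdvd
  refine ⟨J, hJ, hb.trans ?_⟩
  have e1 := exc_cl hc C1 C2 B0 a1 a0 a2
  have e2 := card_cl_pred hc C1 a1
  have e3 : #(Asy.cl c C1) ≤ #(Asy.cl c (C1 ∪ C2)) := card_le_card (cl_mono c subset_union_left)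
  have hy2 : y2 ≤ n := h2.trans h3
  have e1' : (exc univ (Asy.cl c (C1 ∪ C2)) (Asy.cl (c - 1) (C1 ∪ C2)) : ℝ) ≤
      ((n : ℝ) - y1) * #(Asy.cl (c - 1) C1) + ((n : ℝ) - y2) * (n * y1.choose (c - 1)) := by
    rw [← Nat.cast_sub h3, ← Nat.cast_sub hy2]
    exact_mod_cast e1
  have e4 : #(Asy.cl (c - 1) C1) * (y1 + 1 - c) ≤ c * (m + n * y2.choose c) :=
    e2.trans (Nat.mul_le_mul_left _ (e3.trans t1))
  have hpos : (0 : ℝ) < (y1 : ℝ) - c + 1 := by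
    have : (c : ℝ) ≤ y1 := by exact_mod_cast h1.trans h2
    linarith
  have e5 : ((#(Asy.cl (c - 1) C1) : ℕ) : ℝ) ≤
      c * (m + n * y2.choose c) / ((y1 : ℝ) - c + 1) := by
    rw [le_div_iff₀ hpos]
    have hc' : ((y1 + 1 - c : ℕ) : ℝ) = (y1 : ℝ) - c + 1 := by
      rw [Nat.cast_sub (by omega)]; push_cast; ring
    rw [← hc']
    exact_mod_cast e4
  have hn1 : (0 : ℝ) ≤ (n : ℝ) - y1 := sub_nonneg.2 (by exact_mod_cast h3)
  have e6 := mul_le_mul_of_nonneg_left e5 hn1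
  have t1' : ((#(Asy.cl c (C1 ∪ C2)) : ℕ) : ℝ) ≤ m + n * y2.choose c := by exact_mod_cast t1
  have e7 : (c : ℝ) * (((#(Asy.cl c (C1 ∪ C2)) : ℕ) : ℝ) - m) ≤ c * (n * y2.choose c) :=
    mul_le_mul_of_nonneg_left (by linarith) (Nat.cast_nonneg _)
  linarith

theorem upper_hi_raw {n c m y1 y2 : ℕ} (hc : 1 ≤ c) (hcn : c ≤ n) (h1 : n - c ≤ y2) (h2 : y2 ≤ y1)
    (h3 : y1 ≤ n) (hm0 : 1 ≤ m) (hm : m ≤ n.choose c) (hdvd : n ∣ c * m) :
    ∃ J : Finset (Finset (Fin n)), Reg n c m J ∧ ex n c m #(shadow J) ≤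
      c * (n * y2.choose (n - c)) + ((n : ℝ) - y1) * ((n.choose c : ℝ) - m) +
        ((n : ℝ) - y2) * (n * y1.choose (n - c)) + (n : ℝ) ^ 4 := by
  have : NeZero n := ⟨by omega⟩
  obtain ⟨k, hk⟩ : ∃ k, k = n - c := ⟨_, rfl⟩
  rw [← hk] at h1 ⊢
  have hsym : n.choose k = n.choose c := by rw [hk, Nat.choose_symm hcn]
  obtain ⟨C1, C2, B0, a1, a0, a2, t1, t2⟩ :=
    chain2 (n := n) (t := n.choose c - m) h1 h2 h3 (by omega)
  have hp := pair_cl (c := k + 1) (by omega) (C1 ∪ C2)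
  have hkn : k + 1 ≤ n := by omega
  have hq := pair_co hkn hp
  have hx := exc_co hkn hp
  have e1 := exc_cl (c := k + 1) (by omega) C1 C2 B0 a1 a0 a2
  have hD := hp.hD
  have r1 : n - (k + 1) + 1 = c := by omega
  simp only [Nat.add_sub_cancel] at hq hx e1 hD
  rw [r1] at hq hx
  obtain ⟨d, hd⟩ := reg_cl k (C1 ∪ C2)
  obtain ⟨d', hd'⟩ := reg_co (k := c) (l := k) (by omega) hD hd
  have hcard := card_co (k := c) (l := k) (by omega) hD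
  obtain ⟨J, hJ, hb⟩ := eu3_core hcn hq hd' hm0 (by omega) hdvd
  refine ⟨J, hJ, hb.trans ?_⟩
  rw [hx]
  have e3 : #(Asy.cl k C1) ≤ #(Asy.cl k (C1 ∪ C2)) := card_le_card (cl_mono k subset_union_left)
  have hy2 : y2 ≤ n := h2.trans h3
  have e1' : (exc univ (Asy.cl (k + 1) (C1 ∪ C2)) (Asy.cl k (C1 ∪ C2)) : ℝ) ≤
      ((n : ℝ) - y1) * #(Asy.cl k C1) + ((n : ℝ) - y2) * (n * y1.choose k) := by
    rw [← Nat.cast_sub h3, ← Nat.cast_sub hy2]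
    exact_mod_cast e1
  have e5 : ((#(Asy.cl k C1) : ℕ) : ℝ) ≤ (n.choose c : ℝ) - m := by
    rw [← Nat.cast_sub hm]
    exact_mod_cast e3.trans t1
  have hn1 : (0 : ℝ) ≤ (n : ℝ) - y1 := sub_nonneg.2 (by exact_mod_cast h3)
  have e6 := mul_le_mul_of_nonneg_left e5 hn1
  have t3 : #(co c (Asy.cl k (C1 ∪ C2))) ≤ m + n * y2.choose k := by omega
  have t3' : ((#(co c (Asy.cl k (C1 ∪ C2))) : ℕ) : ℝ) ≤ m + n * y2.choose k := by
    exact_mod_cast t3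
  have e7 : (c : ℝ) * (((#(co c (Asy.cl k (C1 ∪ C2))) : ℕ) : ℝ) - m) ≤ c * (n * y2.choose k) :=
    mul_le_mul_of_nonneg_left (by linarith) (Nat.cast_nonneg _)
  linarith

end Pool.Agent.P.MP_4f3dfd_co.Ex
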