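import Mathlib
import Pool.Agent.P.MP_4f3dfd_co.EDefs
import Pool.Agent.P.MP_4f3dfd_co.ENum

set_option autoImplicit false
set_option linter.unusedSectionVars false
set_option linter.unusedVariables false

namespace Pool.Agent.P.MP_4f3dfd_co.Ex

open Finset Real

variable {V : Type*} [DecidableEq V]

theorem eu4_ev (K : ℝ) (hK : 0 ≤ K) :
    ∀ᶠ n : ℕ in Filter.atTop, 1 ≤ log n ∧ K ≤ log n ∧ K * log n ≤ n := by
  obtain ⟨N, hN⟩ := ev_log K
  refine Filter.eventually_atTop.2 ⟨N, fun n hn => ?_⟩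
  obtain ⟨h1, h2, h3⟩ := hN n hn
  refine ⟨h1, h2, le_trans ?_ h3⟩
  apply mul_le_mul_of_nonneg_left _ hK
  have : (1 : ℝ) ≤ log n ^ 2 := one_le_pow₀ h1
  nlinarith

theorem eu4_decay {a : ℝ} {n k y w : ℕ} (hn : 0 < n) (hk : k ≤ n) (hak : a * n ≤ k)
    (h : y + w ≤ n) : (y.choose k : ℝ) ≤ (y + w).choose k * exp (-(a * w)) := by
  refine le_trans (choose_le_mul_pow hn hk h) ?_
  apply mul_le_mul_of_nonneg_left _ (Nat.cast_nonneg _)
  have hn' : (0 : ℝ) < n := by exact_mod_cast hn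
  have hk' : (k : ℝ) ≤ n := by exact_mod_cast hk
  have h0 : 0 ≤ 1 - (k : ℝ) / n := by
    rw [sub_nonneg, div_le_one hn']; exact hk'
  have h1 : 1 - (k : ℝ) / n ≤ exp (-a) := by
    have h2 : a ≤ (k : ℝ) / n := by rw [le_div_iff₀ hn']; exact hak
    have h3 := add_one_le_exp (-a)
    linarith
  calc (1 - (k : ℝ) / n) ^ w ≤ exp (-a) ^ w := pow_le_pow_left₀ h0 h1 w
    _ = exp (-(a * w)) := by rw [← exp_nat_mul]; congr 1; ring

theorem eu4_width {γ : ℝ} {n k z M : ℕ} (hγ : 0 < γ) (hn : 0 < n) (hz : γ * n + k ≤ z)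
    (hzn : z ≤ n) (hkz : k + 1 ≤ z) (h1 : n * (z - 1).choose k ≤ M) (h2 : M ≤ n.choose k) :
    log n ≤ ((n : ℝ) - z + 1) * (-log γ) := by
  have hn' : (0 : ℝ) < n := by exact_mod_cast hn
  obtain ⟨D, hD⟩ : ∃ D, n = z + D := ⟨n - z, by omega⟩
  obtain ⟨x, hx⟩ : ∃ x, z = x + 1 := ⟨z - 1, by omega⟩
  have hxz : z - 1 = x := by omega
  rw [hxz] at h1
  have e1 : x + (D + 1) = n := by omega
  have h3 := mul_pow_le_choose (n := n) (k := k) (z := x) (w := D + 1) hn (by omega) (by omega)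
  rw [e1] at h3
  have hC : (0 : ℝ) < n.choose k := by
    exact_mod_cast Nat.choose_pos (by omega)
  have hxr : (z : ℝ) = x + 1 := by exact_mod_cast hx
  have h4 : γ ≤ ((x : ℝ) + 1 - k) / n := by
    rw [le_div_iff₀ hn']; linarith
  have h5 : γ ^ (D + 1) ≤ (((x : ℝ) + 1 - k) / n) ^ (D + 1) := pow_le_pow_left₀ hγ.le h4 _
  have h6 : (n : ℝ) * x.choose k ≤ n.choose k := by exact_mod_cast h1.trans h2
  have h7 : (n.choose k : ℝ) * (n * γ ^ (D + 1)) ≤ n.choose k * 1 := by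
    have h8 : (n.choose k : ℝ) * γ ^ (D + 1) ≤ x.choose k :=
      le_trans (mul_le_mul_of_nonneg_left h5 hC.le) h3
    have h9 := mul_le_mul_of_nonneg_left h8 hn'.le
    nlinarith
  have h10 : (n : ℝ) * γ ^ (D + 1) ≤ 1 := le_of_mul_le_mul_left h7 hC
  have h11 : log ((n : ℝ) * γ ^ (D + 1)) ≤ 0 :=
    log_nonpos (by positivity) h10
  rw [log_mul hn'.ne' (by positivity), log_pow] at h11
  have hDr : (n : ℝ) = z + D := by exact_mod_cast hD
  push_cast at h11
  have e2 : (n : ℝ) - z + 1 = D + 1 := by linarith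
  rw [e2]; linarith

theorem eu4_big {b ε : ℝ} {n k x : ℕ} (hb : 0 < b) (hε : 0 < ε) (hn : 0 < n) (hk : b * n ≤ k)
    (hx : b * n + k ≤ x + 1) (hL : 1 ≤ log n) (h1 : |log ε| ≤ log n) (h2 : 20 / b * log n ≤ n) :
    (n : ℝ) ^ 4 ≤ ε * x.choose k := by
  have hn' : (0 : ℝ) < n := by exact_mod_cast hn
  have h3 : 20 * log n ≤ b * n := by
    have := mul_le_mul_of_nonneg_left h2 hb.le
    have e : b * (20 / b * log n) = 20 * log n := by field_simp
    linarith
  have hf := Nat.floor_le (a := b * n) (by positivity)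
  have hf2 := Nat.lt_floor_add_one (b * n)
  obtain ⟨u, hu⟩ : ∃ u, ⌊b * n⌋₊ = u + 1 := by
    refine ⟨⌊b * n⌋₊ - 1, ?_⟩
    have : 1 ≤ ⌊b * (n : ℝ)⌋₊ := Nat.le_floor (by push_cast; linarith)
    omega
  rw [hu] at hf hf2
  push_cast at hf hf2
  have hu1 : u ≤ k := by
    have : (u : ℝ) ≤ k := by linarith
    exact_mod_cast this
  have hu2 : k + u ≤ x := by
    have : (k : ℝ) + u ≤ x := by linarith
    exact_mod_cast this
  have h4 : (2 : ℝ) ^ u ≤ x.choose k := by exact_mod_cast two_pow_le_choose hu1 hu2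
  have h5 : exp (1 / 2) ≤ 2 := by
    have h := log_two_gt_d9
    calc exp (1 / 2) ≤ exp (log 2) := exp_le_exp.2 (by linarith)
      _ = 2 := exp_log (by norm_num)
  have h6 : exp (u * (1 / 2)) ≤ (2 : ℝ) ^ u := by
    rw [exp_nat_mul]; exact pow_le_pow_left₀ (exp_pos _).le h5 u
  have h7 : (n : ℝ) ^ 4 = exp (4 * log n) := by
    have := exp_nat_mul (log n) 4
    push_cast at this
    rw [this, exp_log hn']
  have h8 : 4 * log n ≤ log ε + u * (1 / 2) := by
    have := neg_abs_le (log ε)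
    linarith
  calc (n : ℝ) ^ 4 = exp (4 * log n) := h7
    _ ≤ exp (log ε + u * (1 / 2)) := exp_le_exp.2 h8
    _ = ε * exp (u * (1 / 2)) := by rw [exp_add, exp_log hε]
    _ ≤ ε * x.choose k := mul_le_mul_of_nonneg_left (h6.trans h4) hε.le

/-- Choice of the two scales. -/
theorem params (a γ ε : ℝ) (ha : 0 < a) (hγ : 0 < γ) (hε : 0 < ε) : ∃ N : ℕ,
    ∀ n k z M : ℕ, N ≤ n → a * n ≤ k → γ * n + k ≤ z → z ≤ n → n * (z - 1).choose k ≤ M →
      M ≤ n.choose k → ∃ y1 y2 : ℕ, k ≤ y2 ∧ y2 ≤ y1 ∧ y1 ≤ z ∧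
        (z : ℝ) - y1 ≤ ε * ((n : ℝ) - z) ∧ (z : ℝ) - y1 ≤ ε * ((z : ℝ) - k) ∧
        n * (n * y2.choose k) ≤ M ∧
        ((n : ℝ) - y2) * (n * y1.choose k) ≤ ε * M * ((n : ℝ) - z) ∧
        (n : ℝ) ^ 4 ≤ ε * M ∧ 1 ≤ ε * ((n : ℝ) - z) := by
  rcases le_or_gt 1 γ with hγ1 | hγ1
  · refine ⟨1, fun n k z M hn hk hz hzn _ _ => ?_⟩
    exfalso
    have hn' : (1 : ℝ) ≤ n := by exact_mod_cast hn
    have hzn' : (z : ℝ) ≤ n := by exact_mod_cast hzn
    nlinarith [mul_pos ha (by linarith : (0 : ℝ) < n)]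
  obtain ⟨l, hl⟩ : ∃ l, l = -log γ := ⟨_, rfl⟩
  have hl0 : 0 < l := by rw [hl]; linarith [log_neg hγ hγ1]
  obtain ⟨C3, hC3⟩ : ∃ C3, C3 = 2 + 4 * l / a := ⟨_, rfl⟩
  have hC30 : 0 < C3 := by rw [hC3]; positivity
  obtain ⟨K, hK⟩ : ∃ K : ℕ, K = ⌈log (C3 / ε) / a⌉₊ := ⟨_, rfl⟩
  have hKa : log (C3 / ε) ≤ a * K := by
    have := Nat.le_ceil (log (C3 / ε) / a)
    rw [← hK, div_le_iff₀ ha] at this
    linarith
  have hK0 : (0 : ℝ) ≤ K := Nat.cast_nonneg K
  have hb : 0 < min a γ := lt_min ha hγ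
  have key : ∀ᶠ n : ℕ in Filter.atTop, ∀ k z M : ℕ, a * n ≤ k → γ * n + k ≤ z → z ≤ n →
      n * (z - 1).choose k ≤ M → M ≤ n.choose k → ∃ y1 y2 : ℕ, k ≤ y2 ∧ y2 ≤ y1 ∧ y1 ≤ z ∧
        (z : ℝ) - y1 ≤ ε * ((n : ℝ) - z) ∧ (z : ℝ) - y1 ≤ ε * ((z : ℝ) - k) ∧
        n * (n * y2.choose k) ≤ M ∧
        ((n : ℝ) - y2) * (n * y1.choose k) ≤ ε * M * ((n : ℝ) - z) ∧
        (n : ℝ) ^ 4 ≤ ε * M ∧ 1 ≤ ε * ((n : ℝ) - z) := by
    filter_upwards [eu4_ev (2 * l) (by positivity), eu4_ev a ha.le,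
      eu4_ev (2 * l * (K + 1) / ε) (by positivity), eu4_ev (2 * l * (K + 1)) (by positivity),
      eu4_ev ((K + 1 + 2 / a) / γ) (by positivity), eu4_ev ((K + 1) / (ε * γ)) (by positivity),
      eu4_ev (20 / min a γ) (by positivity), eu4_ev |log ε| (abs_nonneg _),
      Filter.eventually_gt_atTop 0] with n e1 e2 e3 e4 e5 e6 e7 e8 hn
    intro k z M hk hz hzn h1 h2
    obtain ⟨hL, e1, -⟩ := e1
    obtain ⟨-, e2, -⟩ := e2
    obtain ⟨-, e3, -⟩ := e3
    obtain ⟨-, e4, -⟩ := e4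
    obtain ⟨-, -, e5⟩ := e5
    obtain ⟨-, -, e6⟩ := e6
    obtain ⟨-, -, e7⟩ := e7
    obtain ⟨-, e8, -⟩ := e8
    have hn' : (0 : ℝ) < n := by exact_mod_cast hn
    obtain ⟨s, hs⟩ : ∃ s : ℕ, s = ⌈log n / a⌉₊ := ⟨_, rfl⟩
    have hs1 : log n ≤ a * s := by
      have := Nat.le_ceil (log n / a)
      rw [← hs, div_le_iff₀ ha] at this
      linarith
    have hs2 : (s : ℝ) ≤ 2 / a * log n := by
      have h := Nat.ceil_lt_add_one (a := log n / a) (by positivity)
      rw [← hs] at h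
      have h' : 1 ≤ log n / a := by rw [le_div_iff₀ ha]; linarith
      have e : 2 / a * log n = log n / a + log n / a := by ring
      linarith
    have f5 : (K : ℝ) + 1 + s ≤ γ * n := by
      have h := mul_le_mul_of_nonneg_left e5 hγ.le
      have e : γ * ((K + 1 + 2 / a) / γ * log n) = (K + 1) * log n + 2 / a * log n := by
        field_simp
      have h' : (K : ℝ) + 1 ≤ (K + 1) * log n := le_mul_of_one_le_right (by positivity) hL
      linarith
    have f6 : (K : ℝ) + 1 ≤ ε * (γ * n) := by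
      have h := mul_le_mul_of_nonneg_left e6 (mul_pos hε hγ).le
      have e : ε * γ * ((K + 1) / (ε * γ) * log n) = (K + 1) * log n := by
        field_simp
      have h' : (K : ℝ) + 1 ≤ (K + 1) * log n := le_mul_of_one_le_right (by positivity) hL
      linarith
    have hsum : k + (K + 1 + s) ≤ z := by
      have : (k : ℝ) + (K + 1 + s) ≤ z := by linarith
      exact_mod_cast this
    have hw := eu4_width hγ hn hz hzn (by omega) h1 h2
    rw [← hl] at hw
    obtain ⟨D, hD⟩ : ∃ D : ℝ, D = (n : ℝ) - z := ⟨_, rfl⟩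
    rw [← hD] at hw ⊢
    have hD1 : log n ≤ 2 * l * D := by
      have e : (D + 1) * l = l * D + l := by ring
      have e' : 2 * l * D = 2 * (l * D) := by ring
      linarith
    have hD2 : (K : ℝ) + 1 ≤ D := by
      have : 2 * l * (K + 1) ≤ 2 * l * D := e4.trans hD1
      exact le_of_mul_le_mul_left this (by positivity)
    have hD3 : (K : ℝ) + 1 ≤ ε * D := by
      have h : 2 * l * (K + 1) / ε ≤ 2 * l * D := e3.trans hD1
      rw [div_le_iff₀ hε] at h
      have : 2 * l * (K + 1) ≤ 2 * l * (ε * D) := by linarith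
      exact le_of_mul_le_mul_left this (by positivity)
    obtain ⟨y2, hy2⟩ : ∃ y2, z = y2 + (K + 1 + s) := ⟨z - (K + 1 + s), by omega⟩
    have hzr : (z : ℝ) = y2 + (K + 1 + s) := by exact_mod_cast hy2
    have hkn : k ≤ n := by omega
    have h1r : (n : ℝ) * (z - 1).choose k ≤ M := by exact_mod_cast h1
    have hM0 : (0 : ℝ) ≤ M := Nat.cast_nonneg M
    refine ⟨y2 + s, y2, by omega, by omega, by omega, ?_, ?_, ?_, ?_, ?_, by linarith⟩
    · push_cast; linarith
    · push_cast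
      have : ε * (γ * n) ≤ ε * ((z : ℝ) - k) := mul_le_mul_of_nonneg_left (by linarith) hε.le
      linarith
    · have h := eu4_decay (y := y2) (w := K + s) hn hkn hk (by omega)
      have e : y2 + (K + s) = z - 1 := by omega
      rw [e] at h
      have h3 : exp (-(a * ((K + s : ℕ) : ℝ))) ≤ 1 / n := by
        have : exp (-(a * ((K + s : ℕ) : ℝ))) ≤ exp (-log n) := by
          apply exp_le_exp.2
          push_cast
          have e' : a * ((K : ℝ) + s) = a * K + a * s := by ring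
          have := mul_nonneg ha.le hK0
          linarith
        rwa [exp_neg (log n), exp_log hn', ← one_div] at this
      have h4 : (y2.choose k : ℝ) ≤ (z - 1).choose k * (1 / n) :=
        h.trans (mul_le_mul_of_nonneg_left h3 (Nat.cast_nonneg _))
      have h5 : (n : ℝ) * y2.choose k ≤ (z - 1).choose k := by
        have := mul_le_mul_of_nonneg_left h4 hn'.le
        have e' : (n : ℝ) * ((z - 1).choose k * (1 / n)) = (z - 1).choose k := by field_simp
        linarith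
      have h6 : (n : ℝ) * (n * y2.choose k) ≤ M :=
        (mul_le_mul_of_nonneg_left h5 hn'.le).trans h1r
      exact_mod_cast h6
    · have h := eu4_decay (y := y2 + s) (w := K) hn hkn hk (by omega)
      have e : y2 + s + K = z - 1 := by omega
      rw [e] at h
      have h3 : exp (-(a * (K : ℝ))) ≤ ε / C3 := by
        have : exp (-(a * (K : ℝ))) ≤ exp (-log (C3 / ε)) := exp_le_exp.2 (by linarith)
        rwa [exp_neg (log (C3 / ε)), exp_log (by positivity), inv_div] at this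
      have h4 : ((y2 + s).choose k : ℝ) ≤ (z - 1).choose k * (ε / C3) :=
        h.trans (mul_le_mul_of_nonneg_left h3 (Nat.cast_nonneg _))
      have h5 : (n : ℝ) * (y2 + s).choose k ≤ M * (ε / C3) := by
        have h6 := mul_le_mul_of_nonneg_left h4 hn'.le
        have h7 := mul_le_mul_of_nonneg_right h1r (show 0 ≤ ε / C3 by positivity)
        rw [← mul_assoc] at h6
        exact h6.trans h7
      have h8 : (n : ℝ) - y2 ≤ C3 * D := by
        have h9 : 2 / a * log n ≤ 2 / a * (2 * l * D) :=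
          mul_le_mul_of_nonneg_left hD1 (by positivity)
        have e' : C3 * D = D + D + 2 / a * (2 * l * D) := by rw [hC3]; ring
        linarith
      have hD0 : 0 ≤ D := by linarith
      calc ((n : ℝ) - y2) * (n * ((y2 + s).choose k : ℝ)) ≤ (C3 * D) * (M * (ε / C3)) :=
            mul_le_mul h8 h5 (by positivity) (by positivity)
        _ = ε * M * D := by field_simp
    · have hx : ((z - 1 : ℕ) : ℝ) + 1 = z := by
        have : z - 1 + 1 = z := by omega
        exact_mod_cast this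
      have hm1 : min a γ * n ≤ a * n := mul_le_mul_of_nonneg_right (min_le_left _ _) hn'.le
      have hm2 : min a γ * n ≤ γ * n := mul_le_mul_of_nonneg_right (min_le_right _ _) hn'.le
      have h := eu4_big (x := z - 1) (k := k) hb hε hn (by linarith) (by linarith) hL e8 e7
      refine h.trans (mul_le_mul_of_nonneg_left ?_ hε.le)
      have hn1 : (1 : ℝ) ≤ n := by exact_mod_cast hn
      exact (le_mul_of_one_le_left (Nat.cast_nonneg _) hn1).trans h1r
  obtain ⟨N, hN⟩ := Filter.eventually_atTop.1 key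
  exact ⟨N, fun n k z M hn => hN n hn k z M⟩

end Pool.Agent.P.MP_4f3dfd_co.Ex
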