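import Mathlib
import Pool.Agent.P.MP_4f3dfd_co.EDefs
import Pool.Agent.P.MP_4f3dfd_co.ENum
import Pool.Agent.P.MP_4f3dfd_co.EDual
import Pool.Agent.P.MP_4f3dfd_co.EU3
import Pool.Agent.P.MP_4f3dfd_co.EU4

set_option autoImplicit false
set_option linter.unusedSectionVars false
set_option linter.unusedVariables false

namespace Pool.Agent.P.MP_4f3dfd_co.Ex

open Finset Real

variable {V : Type*} [DecidableEq V]

theorem upper_hi (a ε : ℝ) (ha : 0 < a) (hε : 0 < ε) : ∃ N : ℕ,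
    ∀ n c m y : ℕ, N ≤ n → a * n ≤ c → (c : ℝ) ≤ (1 - a) * n → n ∣ c * m → 1 ≤ m →
      m < n.choose c → n * (y - 1).choose (n - c) ≤ n.choose c - m →
      n.choose c - m < n * y.choose (n - c) → y ≤ n →
      ∃ J : Finset (Finset (Fin n)), Reg n c m J ∧
        ex n c m #(shadow J) ≤ (1 + ε) * eHi n c m y := by
  obtain ⟨δ, hδ0, hδ1, hδε⟩ : ∃ δ : ℝ, 0 < δ ∧ δ ≤ 1 ∧ δ ≤ ε :=
    ⟨min ε 1, lt_min hε one_pos, min_le_right _ _, min_le_left _ _⟩
  obtain ⟨N, hN⟩ := params a (δ / 2 * a) (δ / 4) ha (by positivity) (by positivity)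
  refine ⟨max N 1, fun n c m y hn h1 h2 hdvd hm0 hm h3 h4 hy => ?_⟩
  have n1 : 1 ≤ n := (le_max_right _ _).trans hn
  have rn : (1 : ℝ) ≤ n := by exact_mod_cast n1
  have an : 0 < a * n := by positivity
  have hc : 1 ≤ c := by
    have : (0 : ℝ) < c := by linarith
    exact_mod_cast this
  have rcn : (c : ℝ) ≤ n := by linarith
  have hcn : c ≤ n := by exact_mod_cast rcn
  have rk : ((n - c : ℕ) : ℝ) = n - c := Nat.cast_sub hcn
  have rM : ((n.choose c - m : ℕ) : ℝ) = (n.choose c : ℝ) - m := Nat.cast_sub hm.le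
  have M0 : (0 : ℝ) ≤ (n.choose c : ℝ) - m := by rw [← rM]; positivity
  have ry : (y : ℝ) ≤ n := by exact_mod_cast hy
  have hfin : (1 + δ) * eHi n c m y ≤ (1 + ε) * eHi n c m y := by
    refine mul_le_mul_of_nonneg_right (by linarith) ?_
    unfold eHi
    exact mul_nonneg M0 (by linarith)
  by_cases hcase : δ / 2 * a * n + ((n - c : ℕ) : ℝ) ≤ y
  · obtain ⟨y1, y2, p1, p2, p3, p4, -, p6, p7, p8, p9⟩ := hN n (n - c) y (n.choose c - m)
      ((le_max_left _ _).trans hn) (by rw [rk]; linarith) hcase hy h3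
      (by rw [Nat.choose_symm hcn]; exact Nat.sub_le _ _)
    obtain ⟨J, hJ, hex⟩ := upper_hi_raw hc hcn p1 p2 (p3.trans hy) hm0 hm.le hdvd
    refine ⟨J, hJ, hex.trans (le_trans ?_ hfin)⟩
    have p6' : (n : ℝ) * (n * y2.choose (n - c)) ≤ (n.choose c : ℝ) - m := by
      rw [← rM]; exact_mod_cast p6
    rw [rM] at p7 p8
    have t1 : (c : ℝ) * (n * y2.choose (n - c)) ≤ (n.choose c : ℝ) - m :=
      (mul_le_mul_of_nonneg_right rcn (by positivity)).trans p6'
    unfold eHi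
    generalize (n.choose c : ℝ) - m = M at M0 p7 p8 t1 ⊢
    have D1 : (1 : ℝ) ≤ (n : ℝ) - y := by
      by_contra hlt
      have : δ / 4 * ((n : ℝ) - y) ≤ 1 / 4 * 1 :=
        mul_le_mul (by linarith) (not_le.1 hlt).le (by linarith) (by norm_num)
      linarith
    have t1' : M ≤ δ / 4 * ((n : ℝ) - y) * M := le_mul_of_one_le_left M0 p9
    have t2 : ((n : ℝ) - y1) * M ≤ (((n : ℝ) - y) + δ / 4 * ((n : ℝ) - y)) * M :=
      mul_le_mul_of_nonneg_right (by linarith) M0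
    have t4 : δ / 4 * M ≤ δ / 4 * M * ((n : ℝ) - y) :=
      le_mul_of_one_le_right (by positivity) D1
    nlinarith
  · obtain ⟨J, hJ, -, hs⟩ := exists_reg hc hm0 hm.le hdvd
    refine ⟨J, hJ, le_trans ?_ hfin⟩
    have hs' : (#(shadow J) : ℝ) ≤ n.choose (c - 1) := by exact_mod_cast hs
    have e1 := choose_pred (z := n) hc
    have t1 : ex n c m #(shadow J) ≤ c * ((n.choose c : ℝ) - m) := by
      unfold ex
      have := mul_le_mul_of_nonneg_left hs' (by linarith : (0 : ℝ) ≤ (n : ℝ) - c + 1)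
      linarith
    refine t1.trans ?_
    unfold eHi
    rw [rk] at hcase
    have t2 : δ / 2 * (a * n) ≤ δ / 2 * c := mul_le_mul_of_nonneg_left h1 (by positivity)
    have t3 : (1 - δ / 2) * c ≤ (n : ℝ) - y := by
      have := not_le.1 hcase
      linarith
    have c0 : (0 : ℝ) ≤ c := by positivity
    have t4 : (c : ℝ) ≤ (1 + δ) * ((n : ℝ) - y) := by
      have u1 : (1 + δ) * ((1 - δ / 2) * c) ≤ (1 + δ) * ((n : ℝ) - y) :=
        mul_le_mul_of_nonneg_left t3 (by linarith)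
      have u2 : 1 ≤ (1 + δ) * (1 - δ / 2) := by nlinarith
      have u3 := le_mul_of_one_le_left c0 u2
      linarith
    have := mul_le_mul_of_nonneg_right t4 M0
    linarith

end Pool.Agent.P.MP_4f3dfd_co.Ex
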