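import Mathlib
import Pool.Agent.P.MP_4f3dfd_co.EDefs
import Pool.Agent.P.MP_4f3dfd_co.ENum
import Pool.Agent.P.MP_4f3dfd_co.EU3
import Pool.Agent.P.MP_4f3dfd_co.EU4

set_option autoImplicit false
set_option linter.unusedSectionVars false
set_option linter.unusedVariables false

namespace Pool.Agent.P.MP_4f3dfd_co.Ex

open Finset Real

variable {V : Type*} [DecidableEq V]

theorem eu7_real {a e n c m D t t1 S u v B B1 q : ℝ} (ha : 0 < a) (he : 0 < e) (he2 : e ≤ 1 / 2)
    (hn : 0 < n) (hc : a * n ≤ c) (hcn : c ≤ n) (hm : 0 ≤ m) (hDn : D ≤ n) (hD : 1 ≤ e * D)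
    (ht : 0 < t) (htn : t ≤ n) (ht1 : (1 - e) * t ≤ t1) (hS0 : 0 ≤ S) (hS : n * S ≤ m)
    (hu0 : 0 ≤ u) (hu : u ≤ (1 + e) * D) (hv : 0 ≤ v) (hB0 : 0 ≤ B) (hB : c * B = t1 * B1)
    (hvB : v * (n * B) ≤ e * m * D) (hq : q ≤ e * m) :
    c * S + u * (c * (m + S) / t1) + v * (n * B1) + q ≤
      (1 + e * (10 + 2 / a)) * (c * m * D / t) := by
  have hc0 : 0 < c := lt_of_lt_of_le (mul_pos ha hn) hc
  have hD0 : 0 < D := by
    by_contra h
    have : e * D ≤ 0 := mul_nonpos_of_nonneg_of_nonpos he.le (not_lt.mp h)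
    linarith
  have ht10 : 0 < t1 := lt_of_lt_of_le (mul_pos (by linarith) ht) ht1
  set E := c * m * D / t with hE
  have hE0 : 0 ≤ E := by positivity
  have hEt : E * t = c * m * D := by rw [hE]; field_simp
  have hmD : 0 ≤ m * D := by positivity
  have h0 : m * D ≤ E / a := by
    rw [le_div_iff₀ ha, hE, le_div_iff₀ ht]
    have h1 : a * t ≤ c := le_trans (mul_le_mul_of_nonneg_left htn ha.le) hc
    nlinarith [mul_le_mul_of_nonneg_left h1 hmD]
  have hm1 : m ≤ e * (E / a) := by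
    have h1 : m * 1 ≤ m * (e * D) := mul_le_mul_of_nonneg_left hD hm
    have h2 : e * (m * D) ≤ e * (E / a) := mul_le_mul_of_nonneg_left h0 he.le
    nlinarith
  have hT1 : c * S ≤ e * (E / a) := by
    have : c * S ≤ n * S := mul_le_mul_of_nonneg_right hcn hS0
    linarith
  have hT4 : q ≤ e * (E / a) := by
    have : e * m ≤ 1 * m := mul_le_mul_of_nonneg_right (by linarith) hm
    linarith
  have hSe : S ≤ e * m := by
    have h1 : 1 ≤ e * n := le_trans hD (mul_le_mul_of_nonneg_left hDn he.le)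
    have h2 : S * 1 ≤ S * (e * n) := mul_le_mul_of_nonneg_left h1 hS0
    have h3 : e * (n * S) ≤ e * m := mul_le_mul_of_nonneg_left hS he.le
    nlinarith
  have hT2 : u * (c * (m + S) / t1) ≤ (1 + 8 * e) * E := by
    rw [← mul_div_assoc, div_le_iff₀ ht10]
    have h1 : u * (c * (m + S)) ≤ ((1 + e) * D) * (c * ((1 + e) * m)) := by
      apply mul_le_mul hu _ (by positivity) (by positivity)
      exact mul_le_mul_of_nonneg_left (by linarith) hc0.le
    have h2 : (1 + 8 * e) * E * ((1 - e) * t) ≤ (1 + 8 * e) * E * t1 :=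
      mul_le_mul_of_nonneg_left ht1 (by positivity)
    have h3 : (1 + e) * (1 + e) ≤ (1 + 8 * e) * (1 - e) := by nlinarith
    have h4 : (1 + e) * (1 + e) * (c * m * D) ≤ (1 + 8 * e) * (1 - e) * (c * m * D) :=
      mul_le_mul_of_nonneg_right h3 (by positivity)
    have h5 : (1 + 8 * e) * E * ((1 - e) * t) = (1 + 8 * e) * (1 - e) * (c * m * D) := by
      rw [← hEt]; ring
    nlinarith
  have hT3 : v * (n * B1) ≤ 2 * e * E := by
    have h1 : v * (n * B1) * t1 = c * (v * (n * B)) := by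
      calc v * (n * B1) * t1 = v * n * (t1 * B1) := by ring
        _ = v * n * (c * B) := by rw [hB]
        _ = c * (v * (n * B)) := by ring
    have h2 : c * (v * (n * B)) ≤ c * (e * m * D) := mul_le_mul_of_nonneg_left hvB hc0.le
    have h3 : c * (e * m * D) = e * E * t := by rw [mul_assoc e E t, hEt]; ring
    have h4 : t ≤ 2 * t1 := by nlinarith
    have h5 : e * E * t ≤ e * E * (2 * t1) := mul_le_mul_of_nonneg_left h4 (by positivity)
    have h6 : v * (n * B1) * t1 ≤ 2 * e * E * t1 := by nlinarith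
    exact le_of_mul_le_mul_right h6 ht10
  have h7 : (1 + e * (10 + 2 / a)) * E =
      e * (E / a) + (1 + 8 * e) * E + 2 * e * E + e * (E / a) := by ring
  rw [h7]
  linarith

theorem upper_lo_near (a ε : ℝ) (ha : 0 < a) (hε : 0 < ε) : ∃ N : ℕ,
    ∀ n c m x : ℕ, N ≤ n → a * n ≤ c → (c : ℝ) ≤ (1 - a) * n → n ∣ c * m → 1 ≤ m →
      2 * m ≤ n.choose c → n * (x - 1).choose c ≤ m → m < n * x.choose c → x ≤ n →
      (n : ℝ) - x ≤ a * n / 4 →
      ∃ J : Finset (Finset (Fin n)), Reg n c m J ∧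
        ex n c m #(shadow J) ≤ (1 + ε) * eLo n c m x := by
  have hK : 0 < 10 + 2 / a := by positivity
  set e : ℝ := min (1 / 2) (ε / (10 + 2 / a)) with he_def
  have he : 0 < e := lt_min (by norm_num) (by positivity)
  have he2 : e ≤ 1 / 2 := min_le_left _ _
  have he3 : e * (10 + 2 / a) ≤ ε := by
    rw [← le_div_iff₀ hK]; exact min_le_right _ _
  obtain ⟨N, hN⟩ := params a (a / 2) e ha (by positivity) he
  refine ⟨max N 1, fun n c m x hn hac hca hdvd hm h2m hxm hmx hxn hnx => ?_⟩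
  have hn1 : 1 ≤ n := le_trans (le_max_right _ _) hn
  have hn0 : (0 : ℝ) < n := by exact_mod_cast hn1
  have han : 0 < a * n := mul_pos ha hn0
  have hc0 : (0 : ℝ) < c := lt_of_lt_of_le han hac
  have hc1 : 1 ≤ c := by exact_mod_cast hc0
  have hc1' : (1 : ℝ) ≤ c := by exact_mod_cast hc1
  have hxc : a / 2 * n + c ≤ x := by nlinarith
  obtain ⟨y1, y2, h1, h2, h3, h4, h5, h6, h7, h8, h9⟩ :=
    hN n c x m (le_trans (le_max_left _ _) hn) hac hxc hxn hxm (by omega)
  have hS : n * y2.choose c ≤ m := le_trans (Nat.le_mul_of_pos_left _ hn1) h6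
  obtain ⟨J, hJ, hex⟩ := upper_lo_raw (n := n) (c := c) (m := m) (y1 := y1) (y2 := y2) hc1 h1 h2
    (le_trans h3 hxn) hm (by omega) hdvd
  refine ⟨J, hJ, le_trans hex ?_⟩
  have hxn' : (x : ℝ) ≤ n := by exact_mod_cast hxn
  have h3' : (y1 : ℝ) ≤ x := by exact_mod_cast h3
  have h2' : (y2 : ℝ) ≤ y1 := by exact_mod_cast h2
  have hx0 : (0 : ℝ) ≤ x := by positivity
  have h6' : (n : ℝ) * (n * y2.choose c) ≤ m := by exact_mod_cast h6
  have hxc' : (c : ℝ) ≤ x := by nlinarith
  have key := eu7_real (a := a) (e := e) (n := n) (c := c) (m := m) (D := (n : ℝ) - x)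
    (t := (x : ℝ) - c + 1) (t1 := (y1 : ℝ) - c + 1) (S := n * y2.choose c) (u := (n : ℝ) - y1)
    (v := (n : ℝ) - y2) (B := y1.choose c) (B1 := y1.choose (c - 1)) (q := (n : ℝ) ^ 4)
    ha he he2 hn0 hac (by linarith) (by positivity) (by linarith) h9 (by linarith) (by linarith)
    (by nlinarith) (by positivity) h6' (by linarith) (by linarith) (by linarith) (by positivity)
    (choose_pred hc1) h7 h8
  refine le_trans key ?_
  unfold eLo
  apply mul_le_mul_of_nonneg_right (by linarith)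
  apply div_nonneg _ (by linarith)
  exact mul_nonneg (by positivity) (by linarith)

end Pool.Agent.P.MP_4f3dfd_co.Ex
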