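import Mathlib
import Pool.Agent.P.MP_4f3dfd_co.EL2
import Pool.Agent.P.MP_4f3dfd_co.EL3
import Pool.Agent.P.MP_4f3dfd_co.EM1
import Pool.Agent.P.MP_4f3dfd_co.EM2
import Pool.Agent.P.MP_4f3dfd_co.EU5
import Pool.Agent.P.MP_4f3dfd_co.EU6
import Pool.Agent.P.MP_4f3dfd_co.EU7

set_option autoImplicit false
set_option linter.unusedVariables false

namespace Pool.Agent.P.MP_4f3dfd_co.Ex

open Finset Real

theorem ex_mono {n c m f g : ℕ} (hc : c ≤ n) (h : f ≤ g) : ex n c m f ≤ ex n c m g := by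
  unfold ex
  have h1 : (c : ℝ) ≤ n := by exact_mod_cast hc
  have h2 : (f : ℝ) ≤ g := by exact_mod_cast h
  nlinarith

theorem eLo_nonneg {n c m x : ℕ} (h1 : c ≤ x) (h2 : x ≤ n) : 0 ≤ eLo n c m x := by
  unfold eLo
  have h1 : (c : ℝ) ≤ x := by exact_mod_cast h1
  have h2 : (x : ℝ) ≤ n := by exact_mod_cast h2
  exact div_nonneg (mul_nonneg (by positivity) (by linarith)) (by linarith)

theorem eHi_nonneg {n c m y : ℕ} (h1 : m ≤ n.choose c) (h2 : y ≤ n) : 0 ≤ eHi n c m y := by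
  unfold eHi
  have h1 : (m : ℝ) ≤ n.choose c := by exact_mod_cast h1
  have h2 : (y : ℝ) ≤ n := by exact_mod_cast h2
  exact mul_nonneg (by linarith) (by linarith)

theorem ex_nonneg {n c m : ℕ} (hc : 1 ≤ c) {J : Finset (Finset (Fin n))} (hJ : Reg n c m J) :
    0 ≤ ex n c m #(shadow J) := by
  rw [← exc_shadow hc hJ]; positivity

theorem lo_sharp (a ε : ℝ) (ha : 0 < a) (hε : 0 < ε) : ∃ δ : ℝ, 0 < δ ∧ ∃ K N : ℕ,
    ∀ n c m x : ℕ, N ≤ n → a * n ≤ c → (c : ℝ) ≤ (1 - a) * n →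
    ∀ J : Finset (Finset (Fin n)), Reg n c m J → n * (x - 1).choose c ≤ m → m < n * x.choose c →
      x ≤ n → (m : ℝ) ≤ δ * n.choose c → c + K ≤ x →
      (1 - ε) * eLo n c m x ≤ ex n c m #(shadow J) := by
  obtain ⟨K1, hK1, K, N1, h1⟩ := lower_link a ε ha hε
  obtain ⟨δ, hδ, N2, h2⟩ := lower_core a ε K1 ha hε hK1
  refine ⟨δ, hδ, K, max N1 N2, fun n c m x hn hc1 hc2 J hJ hx1 hx2 hxn hm hK => ?_⟩
  rcases le_total (K1 * log n) ((n : ℝ) - x) with h | h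
  · exact (h1 n c m (le_of_max_le_left hn) hc1 hc2 J hJ x hx2 h).2 hK
  · exact h2 n c m x (le_of_max_le_right hn) hc1 hc2 J hJ hx1 hx2 hxn h hm

theorem hi_sharp (a ε : ℝ) (ha : 0 < a) (hε : 0 < ε) : ∃ δ : ℝ, 0 < δ ∧ ∃ N : ℕ,
    ∀ n c m y : ℕ, N ≤ n → a * n ≤ c → (c : ℝ) ≤ (1 - a) * n →
    ∀ J : Finset (Finset (Fin n)), Reg n c m J → n * (y - 1).choose (n - c) ≤ n.choose c - m →
      n.choose c - m < n * y.choose (n - c) → y ≤ n → (n.choose c : ℝ) - m ≤ δ * n.choose c →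
      (1 - ε) * eHi n c m y ≤ ex n c m #(shadow J) := by
  obtain ⟨K1, hK1, N1, h1⟩ := lower_link_hi a ε ha hε
  obtain ⟨δ, hδ, N2, h2⟩ := lower_core_hi a ε K1 ha hε hK1
  refine ⟨δ, hδ, max N1 N2, fun n c m y hn hc1 hc2 J hJ hy1 hy2 hyn hm => ?_⟩
  rcases le_total (K1 * log n) ((n : ℝ) - y) with h | h
  · exact h1 n c m y (le_of_max_le_left hn) hc1 hc2 J hJ hy2 h
  · exact h2 n c m y (le_of_max_le_right hn) hc1 hc2 J hJ hy1 hy2 hyn h hm

theorem lo_order (a : ℝ) (ha : 0 < a) : ∃ C : ℝ, 0 < C ∧ ∃ N : ℕ,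
    ∀ n c m x : ℕ, N ≤ n → 1 ≤ c → a * n ≤ c → (c : ℝ) ≤ (1 - a) * n →
    ∀ J : Finset (Finset (Fin n)), Reg n c m J → n * (x - 1).choose c ≤ m → m < n * x.choose c →
      x ≤ n → 2 * m ≤ n.choose c → eLo n c m x ≤ C * ex n c m #(shadow J) := by
  obtain ⟨K1, hK1, K, N1, h1⟩ := lower_link a (1 / 2) ha (by norm_num)
  obtain ⟨δ, hδ, N2, h2⟩ := lower_core a (1 / 2) K1 ha (by norm_num) hK1
  obtain ⟨C, hC, N3, h3⟩ := lower_mid a δ K1 ha hδ hK1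
  have ha' : 0 < 2 / a := by positivity
  refine ⟨C + 2 * (3 + 2 / a), by positivity, max N1 (max N2 N3),
    fun n c m x hn hc hc1 hc2 J hJ hx1 hx2 hxn hm => ?_⟩
  have hB := ex_nonneg hc hJ
  have hn2 := le_of_max_le_right hn
  rcases le_total (K1 * log n) ((n : ℝ) - x) with h | h
  · have := (h1 n c m (le_of_max_le_left hn) hc1 hc2 J hJ x hx2 h).1
    nlinarith
  · rcases le_total (m : ℝ) (δ * n.choose c) with h' | h'
    · have := h2 n c m x (le_of_max_le_left hn2) hc1 hc2 J hJ hx1 hx2 hxn h h'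
      nlinarith
    · have := h3 n c m x (le_of_max_le_right hn2) hc1 hc2 J hJ hxn h h' hm
      nlinarith

theorem hi_order (a : ℝ) (ha : 0 < a) : ∃ C : ℝ, 0 < C ∧ ∃ N : ℕ,
    ∀ n c m y : ℕ, N ≤ n → 1 ≤ c → a * n ≤ c → (c : ℝ) ≤ (1 - a) * n →
    ∀ J : Finset (Finset (Fin n)), Reg n c m J → n * (y - 1).choose (n - c) ≤ n.choose c - m →
      n.choose c - m < n * y.choose (n - c) → y ≤ n → n.choose c ≤ 2 * m →
      eHi n c m y ≤ C * ex n c m #(shadow J) := by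
  obtain ⟨K1, hK1, N1, h1⟩ := lower_link_hi a (1 / 2) ha (by norm_num)
  obtain ⟨δ, hδ, N2, h2⟩ := lower_core_hi a (1 / 2) K1 ha (by norm_num) hK1
  obtain ⟨C, hC, N3, h3⟩ := lower_mid_hi a δ K1 ha hδ hK1
  refine ⟨C + 2, by positivity, max N1 (max N2 N3),
    fun n c m y hn hc hc1 hc2 J hJ hy1 hy2 hyn hm => ?_⟩
  have hB := ex_nonneg hc hJ
  have hn2 := le_of_max_le_right hn
  rcases le_total (K1 * log n) ((n : ℝ) - y) with h | h
  · have := h1 n c m y (le_of_max_le_left hn) hc1 hc2 J hJ hy2 h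
    nlinarith
  · rcases le_total ((n.choose c : ℝ) - m) (δ * n.choose c) with h' | h'
    · have := h2 n c m y (le_of_max_le_left hn2) hc1 hc2 J hJ hy1 hy2 hyn h h'
      nlinarith
    · have := h3 n c m y (le_of_max_le_right hn2) hc1 hc2 J hJ hyn h h' hm
      nlinarith

theorem upper_lo (a ε : ℝ) (ha : 0 < a) (hε : 0 < ε) : ∃ K N : ℕ,
    ∀ n c m x : ℕ, N ≤ n → a * n ≤ c → (c : ℝ) ≤ (1 - a) * n → n ∣ c * m → 1 ≤ m →
      2 * m ≤ n.choose c → n * (x - 1).choose c ≤ m → m < n * x.choose c → c + K ≤ x →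
      ∃ J : Finset (Finset (Fin n)), Reg n c m J ∧
        ex n c m #(shadow J) ≤ (1 + ε) * eLo n c m x := by
  obtain ⟨K, N1, h1⟩ := upper_lo_far a ε ha hε
  obtain ⟨N2, h2⟩ := upper_lo_near a ε ha hε
  refine ⟨K, N1 + N2 + 1, fun n c m x hn hc1 hc2 hd hm0 hm hx1 hx2 hK => ?_⟩
  rcases le_total (a * n / 4) ((n : ℝ) - x) with h | h
  · exact h1 n c m x (by omega) hc1 hc2 hd hm0 hm hx1 hx2 hK h
  · exact h2 n c m x (by omega) hc1 hc2 hd hm0 hm hx1 hx2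
      (le_of_mul_choose_le (by omega) hx1 (by omega)) h

theorem up_order (a : ℝ) (ha : 0 < a) : ∃ C : ℝ, 0 < C ∧ ∃ N : ℕ,
    ∀ n c m x : ℕ, N ≤ n → a * n ≤ c → (c : ℝ) ≤ (1 - a) * n → n ∣ c * m → 1 ≤ m →
      2 * m ≤ n.choose c → n * (x - 1).choose c ≤ m → m < n * x.choose c → x ≤ n →
      ∃ J : Finset (Finset (Fin n)), Reg n c m J ∧ ex n c m #(shadow J) ≤ C * eLo n c m x := by
  obtain ⟨K, N1, h1⟩ := upper_lo a 1 ha one_pos
  obtain ⟨C, hC, N2, h2⟩ := upper_lo_crude a ha K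
  refine ⟨C + 2, by positivity, max N1 N2, fun n c m x hn hc1 hc2 hd hm0 hm hx1 hx2 hxn => ?_⟩
  have hcx := le_of_lt_mul_choose hx2
  have hE := eLo_nonneg (m := m) hcx hxn
  rcases le_total (c + K) x with h | h
  · obtain ⟨J, hJ, hb⟩ := h1 n c m x (le_of_max_le_left hn) hc1 hc2 hd hm0 hm hx1 hx2 h
    exact ⟨J, hJ, by nlinarith⟩
  · obtain ⟨J, hJ, hb⟩ := h2 n c m x (le_of_max_le_right hn) hc1 hc2 hd hm0 (by omega) hcx h
    exact ⟨J, hJ, by nlinarith⟩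

theorem master (a : ℝ) (ha : 0 < a) : ∃ C : ℝ, 0 < C ∧ ∀ ε : ℝ, 0 < ε → ∃ δ : ℝ, 0 < δ ∧ ∃ K N : ℕ,
    ∀ n c m x y : ℕ, N ≤ n → a * n ≤ c → (c : ℝ) ≤ (1 - a) * n → n ∣ c * m → 1 ≤ m →
      m < n.choose c → n * (x - 1).choose c ≤ m → m < n * x.choose c →
      n * (y - 1).choose (n - c) ≤ n.choose c - m → n.choose c - m < n * y.choose (n - c) →
      ∃ f : ℕ, IsLeast {k : ℕ | ∃ J : Finset (Finset (Fin n)), (∀ X ∈ J, X.card = c) ∧
          J.card = m ∧ (∃ d : ℕ, ∀ i : Fin n, (J.filter (fun X => i ∈ X)).card = d) ∧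
          (Finset.shadow J).card = k} f ∧
        (2 * m ≤ n.choose c → eLo n c m x ≤ C * ex n c m f ∧ ex n c m f ≤ C * eLo n c m x) ∧
        (n.choose c ≤ 2 * m → eHi n c m y ≤ C * ex n c m f ∧ ex n c m f ≤ C * eHi n c m y) ∧
        ((m : ℝ) ≤ δ * n.choose c → c + K ≤ x →
          |ex n c m f - eLo n c m x| ≤ ε * eLo n c m x) ∧
        ((n.choose c : ℝ) - m ≤ δ * n.choose c →
          |ex n c m f - eHi n c m y| ≤ ε * eHi n c m y) := by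
  classical
  obtain ⟨C1, hC1, N1, h1⟩ := lo_order a ha
  obtain ⟨C2, hC2, N2, h2⟩ := hi_order a ha
  obtain ⟨C3, hC3, N3, h3⟩ := up_order a ha
  obtain ⟨N4, h4⟩ := upper_hi a 1 ha one_pos
  refine ⟨C1 + C2 + C3 + 2, by positivity, fun ε hε => ?_⟩
  obtain ⟨δ1, hδ1, K1, N5, h5⟩ := lo_sharp a ε ha hε
  obtain ⟨δ2, hδ2, N6, h6⟩ := hi_sharp a ε ha hε
  obtain ⟨K2, N7, h7⟩ := upper_lo a ε ha hε
  obtain ⟨N8, h8⟩ := upper_hi a ε ha hε
  refine ⟨min (1 / 2) (min δ1 δ2), by positivity, K1 + K2,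
    N1 + N2 + N3 + N4 + N5 + N6 + N7 + N8 + 1, ?_⟩
  intro n c m x y hn hc1 hc2 hd hm0 hm hx1 hx2 hy1 hy2
  have hn0 : (0 : ℝ) < n := by exact_mod_cast (by omega : 0 < n)
  have hc0 : 1 ≤ c := by
    have : (0 : ℝ) < c := lt_of_lt_of_le (by positivity) hc1
    exact_mod_cast this
  have hcn : c ≤ n := by
    have : (c : ℝ) ≤ n := by nlinarith
    exact_mod_cast this
  have hxn : x ≤ n := le_of_mul_choose_le (by omega) hx1 hm
  have hyn : y ≤ n := le_of_mul_choose_le (M := n.choose c - m) (by omega) hy1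
    (by rw [Nat.choose_symm hcn]; omega)
  have hcx := le_of_lt_mul_choose hx2
  have hE := eLo_nonneg (m := m) hcx hxn
  have hE' := eHi_nonneg hm.le hyn
  have hCpos : (0 : ℝ) ≤ n.choose c := by positivity
  set S : Set ℕ := {k : ℕ | ∃ J : Finset (Finset (Fin n)), (∀ X ∈ J, X.card = c) ∧
    J.card = m ∧ (∃ d : ℕ, ∀ i : Fin n, (J.filter (fun X => i ∈ X)).card = d) ∧
    (Finset.shadow J).card = k} with hS
  have hmem : ∀ J : Finset (Finset (Fin n)), Reg n c m J → #(shadow J) ∈ S :=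
    fun J hJ => ⟨J, hJ.1, hJ.2.1, hJ.2.2, rfl⟩
  obtain ⟨J0, hJ0, -⟩ := exists_reg hc0 hm0 hm.le hd
  have hne : S.Nonempty := ⟨_, hmem J0 hJ0⟩
  have hL : IsLeast S (sInf S) := ⟨Nat.sInf_mem hne, fun k hk => Nat.sInf_le hk⟩
  obtain ⟨J, g1, g2, g3, g4⟩ := hL.1
  have hJ : Reg n c m J := ⟨g1, g2, g3⟩
  have hup : ∀ J' : Finset (Finset (Fin n)), Reg n c m J' →
      ex n c m (sInf S) ≤ ex n c m #(shadow J') := fun J' hJ' => ex_mono hcn (hL.2 (hmem J' hJ'))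
  have hB := ex_nonneg hc0 hJ
  rw [g4] at hB
  refine ⟨sInf S, hL, fun h => ⟨?_, ?_⟩, fun h => ⟨?_, ?_⟩, fun h hK => ?_, fun h => ?_⟩
  · have := h1 n c m x (by omega) hc0 hc1 hc2 J hJ hx1 hx2 hxn h
    rw [g4] at this
    nlinarith
  · obtain ⟨J', hJ', hb⟩ := h3 n c m x (by omega) hc1 hc2 hd hm0 h hx1 hx2 hxn
    have := hup J' hJ'
    nlinarith
  · have := h2 n c m y (by omega) hc0 hc1 hc2 J hJ hy1 hy2 hyn h
    rw [g4] at this
    nlinarith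
  · obtain ⟨J', hJ', hb⟩ := h4 n c m y (by omega) hc1 hc2 hd hm0 hm hy1 hy2 hyn
    have := hup J' hJ'
    nlinarith
  · have hδ : min (1 / 2) (min δ1 δ2) ≤ δ1 := (min_le_right _ _).trans (min_le_left _ _)
    have hδ' : min (1 / 2 : ℝ) (min δ1 δ2) ≤ 1 / 2 := min_le_left _ _
    have e1 := h5 n c m x (by omega) hc1 hc2 J hJ hx1 hx2 hxn
      (h.trans (mul_le_mul_of_nonneg_right hδ hCpos)) (by omega)
    rw [g4] at e1
    have h2m : 2 * m ≤ n.choose c := by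
      have := h.trans (mul_le_mul_of_nonneg_right hδ' hCpos)
      have : (2 : ℝ) * m ≤ n.choose c := by linarith
      exact_mod_cast this
    obtain ⟨J', hJ', hb⟩ := h7 n c m x (by omega) hc1 hc2 hd hm0 h2m hx1 hx2 (by omega)
    have := hup J' hJ'
    rw [abs_le]; constructor <;> linarith
  · have hδ : min (1 / 2) (min δ1 δ2) ≤ δ2 := (min_le_right _ _).trans (min_le_right _ _)
    have e1 := h6 n c m y (by omega) hc1 hc2 J hJ hy1 hy2 hyn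
      (h.trans (mul_le_mul_of_nonneg_right hδ hCpos))
    rw [g4] at e1
    obtain ⟨J', hJ', hb⟩ := h8 n c m y (by omega) hc1 hc2 hd hm0 hm hy1 hy2 hyn
    have := hup J' hJ'
    rw [abs_le]; constructor <;> linarith

end Pool.Agent.P.MP_4f3dfd_co.Ex
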