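import Mathlib
import Pool.Agent.P.MP_4f3dfd_co.EDefs

set_option autoImplicit false
set_option linter.unusedSectionVars false
set_option linter.unusedVariables false

namespace Pool.Agent.P.MP_4f3dfd_co.Ex

open Finset Real
open scoped Pointwise

variable {V : Type*} [DecidableEq V]

/-- A third of the distance of `c / n` from the ends of the unit interval. -/
noncomputable def aa (n c : ℕ) : ℝ := min (c : ℝ) ((n : ℝ) - c) / (3 * n)

/-- The logarithmic loss of hypercontractivity near the ends. -/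
noncomputable def bt (a : ℝ) : ℝ := 30 + 2 * log (1 / a)

/-- The surviving exponent. -/
noncomputable def tt (a θ : ℝ) : ℝ := θ / (1 + 6 * θ * bt a)

/-- The one-step inequality for the density martingale. -/
def Step (G : Finset V) (c : ℕ) (J D : Finset (Finset V)) (a θ θ' Γ : ℝ) : Prop :=
  ∀ r < #G, Av G (r + 1) (pw J G c (1 + θ')) ≤ Av G r (pw J G c (1 + θ')) +
    Γ / #G * ∑ k ∈ G, Av (G.erase k) r (pw (blk J D k) (G.erase k) (c - 1) (1 + θ)) +
      zeta #G 1 (a * ((#G : ℝ) - r) / 6) * (#G).choose c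

/-- Logarithm of the inverse density, from the degree. -/
noncomputable def lg (n c d : ℕ) : ℝ := log (((n - 1).choose (c - 1) : ℝ) / d)

/-- The cap on the multiplicity. -/
noncomputable def Lam (n c d : ℕ) : ℝ := exp (lg n c d * log c / log (n / c))

/-- The multiplicity at width `w`. -/
noncomputable def lam (n c d : ℕ) (w : ℝ) : ℝ := min (n / w) (Lam n c d)

/-- `log (n ^ 2 / (c (n - c)))`. -/
noncomputable def bb (n c : ℕ) : ℝ := log ((n : ℝ) ^ 2 / (c * ((n : ℝ) - c)))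

/-- `x` is the clique size that belongs to the degree `d`. -/
structure Par (n c d x : ℕ) : Prop where
  hc : 2 ≤ c
  hcn : c + 2 ≤ n
  hd : 1 ≤ d
  hdC : d < (n - 1).choose (c - 1)
  hx : x < n
  lo : lam n c d ((n : ℝ) - x + 1) * (x - 1).choose (c - 1) ≤ d
  hi : (d : ℝ) < lam n c d ((n : ℝ) - x) * x.choose (c - 1)

/-- Predicted excess, small families. -/
noncomputable def eL (n c m x : ℕ) : ℝ := c * m * ((n : ℝ) - x) / ((x : ℝ) - c + 2)

/-- The `l`-sets containing no translate of a pattern. -/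
def nc {n : ℕ} [NeZero n] (l : ℕ) (Q : Finset (Finset (Fin n))) : Finset (Finset (Fin n)) :=
  univ.filter fun X => #X = l ∧ ∀ P ∈ Q, ∀ s : Fin n, ¬ s +ᵥ P ⊆ X

/-- The `r`-sets with a translate inside `X`. -/
def hits {n : ℕ} [NeZero n] (r : ℕ) (X : Finset (Fin n)) : Finset (Finset (Fin n)) :=
  {P ∈ powersetCard r univ | ∃ s : Fin n, s +ᵥ P ⊆ X}

/-- Number of `r`-subsets of `X` with another translate inside `X`. -/
def ov {n : ℕ} [NeZero n] (r : ℕ) (X : Finset (Fin n)) : ℕ :=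
  #{P ∈ powersetCard r X | ∃ s : Fin n, s ≠ 0 ∧ s +ᵥ P ⊆ X}

/-- The overlap error. -/
noncomputable def eps (n l ρ : ℕ) : ℝ :=
  ((l : ℝ) / n) ^ (3 * ρ) + (2 * ((6 * ρ : ℕ) : ℝ) ^ 2 / n) ^ ρ

/-- A family of patterns whose avoiders have small excess. -/
def Good {n : ℕ} [NeZero n] (l r : ℕ) (Q : Finset (Finset (Fin n))) : Prop :=
  (∀ P ∈ Q, #P = r) ∧ (exc univ (nc l Q) (nc (l - 1) Q) : ℝ) ≤
    8 * r * (#(nc l Q) * (1 + log ((n.choose l : ℝ) / #(nc l Q))))

theorem bt_ge {a : ℝ} (ha : 0 < a) (h1 : a ≤ 1) : 30 ≤ bt a := by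
  have : 0 ≤ log (1 / a) := log_nonneg (by rw [le_div_iff₀ ha]; linarith)
  unfold bt; linarith

theorem log_le_bt (a : ℝ) : 2 * log (1 / a) ≤ bt a := by
  unfold bt; linarith

theorem bt_anti {a b : ℝ} (ha : 0 < a) (h : a ≤ b) : bt b ≤ bt a := by
  have : log (1 / b) ≤ log (1 / a) :=
    log_le_log (by have := ha.trans_le h; positivity) (one_div_le_one_div_of_le ha h)
  unfold bt; linarith

theorem three_aa {n : ℕ} (hn : 0 < n) (c : ℕ) :
    3 * aa n c = min ((c : ℝ) / n) (1 - (c : ℝ) / n) := by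
  have h : (0 : ℝ) < n := by exact_mod_cast hn
  have e : (1 : ℝ) - c / n = ((n : ℝ) - c) / n := by field_simp
  rw [e, min_div_div_right h.le]
  unfold aa; field_simp

theorem aa_mul {n : ℕ} (hn : 0 < n) (c : ℕ) : 3 * aa n c * n = min (c : ℝ) ((n : ℝ) - c) := by
  have h : (0 : ℝ) < n := by exact_mod_cast hn
  unfold aa; field_simp

theorem aa_lo {n : ℕ} (hn : 0 < n) (c : ℕ) : 3 * aa n c * n ≤ c := by
  rw [aa_mul hn]; exact min_le_left _ _

theorem aa_hi {n : ℕ} (hn : 0 < n) (c : ℕ) : (c : ℝ) ≤ (1 - 3 * aa n c) * n := by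
  have := aa_mul hn c
  have := min_le_right (c : ℝ) ((n : ℝ) - c)
  linarith

theorem aa_le {n : ℕ} (hn : 0 < n) (c : ℕ) : aa n c ≤ 1 / 6 := by
  have h : (0 : ℝ) < n := by exact_mod_cast hn
  have h1 := aa_lo hn c
  have h2 := aa_hi hn c
  by_contra hh
  have hh := not_le.1 hh
  nlinarith

theorem tt_bounds {a θ : ℝ} (ha : 0 < a) (h1 : a ≤ 1) (hθ0 : 0 < θ) (hθ : θ * bt a ≤ 1) :
    θ / 7 ≤ tt a θ ∧ tt a θ ≤ θ ∧ 0 < tt a θ ∧ θ ≤ 1 / 30 := by
  have hb := bt_ge ha h1
  have h2 : 0 ≤ θ * bt a := by positivity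
  unfold tt
  refine ⟨div_le_div_of_nonneg_left hθ0.le (by linarith) (by linarith),
    div_le_self hθ0.le (by linarith), div_pos hθ0 (by linarith), by nlinarith⟩

end Pool.Agent.P.MP_4f3dfd_co.Ex
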