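import Mathlib
import Pool.Agent.P.MP_4f3dfd_co.FDefs
import Pool.Agent.P.MP_4f3dfd_co.EA2

set_option autoImplicit false
set_option linter.unusedSectionVars false
set_option linter.unusedVariables false

namespace Pool.Agent.P.MP_4f3dfd_co.Ex

open Finset Real

variable {V : Type*} [DecidableEq V]

theorem fa1_half {q u : ℝ} (hq0 : 0 ≤ q) (h0 : 0 < u) :
    (√q - √u) ^ 2 ≤ q * log (q / u) - q + u := by
  have hz : 0 < √u := sqrt_pos.2 h0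
  have hw : 0 ≤ √q / √u := div_nonneg (sqrt_nonneg _) hz.le
  have hw2 : (√q / √u) ^ 2 = q / u := by rw [div_pow, sq_sqrt hq0, sq_sqrt h0.le]
  have h2 := mul_le_mul_of_nonneg_left (ea2_ent hw) h0.le
  rw [hw2] at h2
  have h3 : u * (√q / √u - 1) ^ 2 = (√q - √u) ^ 2 := by
    have e : √q - √u = √u * (√q / √u - 1) := by field_simp
    rw [e, mul_pow, sq_sqrt h0.le]
  have h4 : u * (q / u * log (q / u) - q / u + 1) = q * log (q / u) - q + u := by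
    field_simp
  linarith

theorem hell_le_kl {q u : ℝ} (hq0 : 0 ≤ q) (hq1 : q ≤ 1) (h0 : 0 < u) (h1 : u < 1) :
    (√q - √u) ^ 2 + (√(1 - q) - √(1 - u)) ^ 2 ≤ kl q u := by
  have a1 := fa1_half hq0 h0
  have a2 := fa1_half (q := 1 - q) (u := 1 - u) (by linarith) (by linarith)
  unfold kl
  linarith

theorem fa1_rel {q u η : ℝ} (hq0 : 0 ≤ q) (h0 : 0 < u) (hη0 : 0 ≤ η) (hη : η ≤ 1)
    (h : η * u ≤ |q - u|) : η ^ 2 * u / 6 ≤ (√q - √u) ^ 2 := by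
  obtain ⟨y, hy, rfl⟩ : ∃ y : ℝ, 0 ≤ y ∧ q = y ^ 2 := ⟨√q, sqrt_nonneg _, (sq_sqrt hq0).symm⟩
  obtain ⟨z, hz, rfl⟩ : ∃ z : ℝ, 0 < z ∧ u = z ^ 2 := ⟨√u, sqrt_pos.2 h0, (sq_sqrt h0.le).symm⟩
  rw [sqrt_sq hy, sqrt_sq hz.le]
  have hη2 : η ^ 2 ≤ 1 := by nlinarith
  rcases le_total y (1449 / 1000 * z) with hc | hc
  · have h1 : (η * z ^ 2) ^ 2 ≤ (y ^ 2 - z ^ 2) ^ 2 := by
      rw [← sq_abs (y ^ 2 - z ^ 2)]
      exact pow_le_pow_left₀ (by positivity) h 2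
    have h2 : (y + z) ^ 2 ≤ 6 * z ^ 2 := by nlinarith
    have h3 : (y ^ 2 - z ^ 2) ^ 2 = (y - z) ^ 2 * (y + z) ^ 2 := by ring
    have h4 := mul_le_mul_of_nonneg_left h2 (sq_nonneg (y - z))
    have h5 : (η ^ 2 * z ^ 2 / 6) * (6 * z ^ 2) ≤ (y - z) ^ 2 * (6 * z ^ 2) := by
      have e : (η ^ 2 * z ^ 2 / 6) * (6 * z ^ 2) = (η * z ^ 2) ^ 2 := by ring
      linarith
    exact le_of_mul_le_mul_right h5 (by positivity)
  · have h1 : (449 / 1000 * z) ^ 2 ≤ (y - z) ^ 2 :=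
      pow_le_pow_left₀ (by positivity) (by linarith) 2
    have h2 := mul_le_mul_of_nonneg_right hη2 (sq_nonneg z)
    nlinarith [sq_nonneg z]

theorem kl_ge_rel {q u : ℝ} (hq0 : 0 ≤ q) (hq1 : q ≤ 1) (h0 : 0 < u) (h1 : u < 1) {η : ℝ}
    (hη0 : 0 ≤ η) (hη : η ≤ 1) (h : η * min u (1 - u) ≤ |q - u|) :
    η ^ 2 * min u (1 - u) / 6 ≤ kl q u := by
  have hh := hell_le_kl hq0 hq1 h0 h1
  rcases le_total u (1 - u) with hc | hc
  · rw [min_eq_left hc] at h ⊢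
    have := fa1_rel hq0 h0 hη0 hη h
    linarith [sq_nonneg (√(1 - q) - √(1 - u))]
  · rw [min_eq_right hc] at h ⊢
    have e : |q - u| = |1 - q - (1 - u)| := by
      rw [← abs_neg]; congr 1; ring
    rw [e] at h
    have := fa1_rel (q := 1 - q) (u := 1 - u) (by linarith) (by linarith) hη0 hη h
    linarith [sq_nonneg (√q - √u)]

theorem fa1_var {a b c d : ℝ} (ha : a ^ 2 ≤ 1) (hd : d ^ 2 ≤ 1) :
    c ^ 2 * d ^ 2 ≤ 2 * (a ^ 2 * b ^ 2) + 4 * ((a - c) ^ 2 + (b - d) ^ 2) := by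
  have h1 : (c * d - a * b) ^ 2 ≤ ((a - c) ^ 2 + (b - d) ^ 2) * (d ^ 2 + a ^ 2) := by
    nlinarith [sq_nonneg ((a - c) * a - (b - d) * d)]
  have h2 : ((a - c) ^ 2 + (b - d) ^ 2) * (d ^ 2 + a ^ 2) ≤ ((a - c) ^ 2 + (b - d) ^ 2) * 2 :=
    mul_le_mul_of_nonneg_left (by linarith) (by positivity)
  nlinarith [sq_nonneg (c * d - 2 * (a * b))]

theorem var_ge {q u : ℝ} (hq0 : 0 ≤ q) (hq1 : q ≤ 1) (h0 : 0 < u) (h1 : u < 1) :
    u * (1 - u) / 2 - 3 * kl q u ≤ q * (1 - q) := by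
  have hh := hell_le_kl hq0 hq1 h0 h1
  have ea := sq_sqrt hq0
  have eb := sq_sqrt (show 0 ≤ 1 - q by linarith)
  have ec := sq_sqrt h0.le
  have ed := sq_sqrt (show 0 ≤ 1 - u by linarith)
  have hv := fa1_var (a := √q) (b := √(1 - q)) (c := √u) (d := √(1 - u)) (by linarith)
    (by linarith)
  rw [ea, eb, ec, ed] at hv
  linarith [sq_nonneg (√q - √u), sq_nonneg (√(1 - q) - √(1 - u))]

end Pool.Agent.P.MP_4f3dfd_co.Ex
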