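import Mathlib
import Pool.Agent.P.MP_4f3dfd_co.FDefs
import Pool.Agent.P.MP_4f3dfd_co.EA2

set_option autoImplicit false
set_option linter.unusedSectionVars false
set_option linter.unusedVariables false

namespace Pool.Agent.P.MP_4f3dfd_co.Ex

open Finset Real

variable {V : Type*} [DecidableEq V]

theorem fa2_sq {a r : ℝ} (ha : 0 < a) (ha1 : a ≤ 1) (h : 0 < r) (hr : r ≤ 1 / a) :
    r * log r ^ 2 ≤ bt a * (r * log r - r + 1) := by
  have hb := bt_ge ha ha1
  rcases le_total (log r) 2 with h2 | h2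
  · have h3 : r ≤ 15 / 2 := by
      have h4 : r ≤ exp (1 + 1) := by
        rw [← exp_log h]; exact exp_le_exp.2 (by linarith)
      rw [exp_add] at h4
      nlinarith [exp_one_lt_d9, exp_pos 1]
    obtain ⟨w, hw, hw2⟩ : ∃ w : ℝ, 0 ≤ w ∧ w ^ 2 = r := ⟨√r, sqrt_nonneg _, sq_sqrt h.le⟩
    have h4 := ea2_sq hw (b := 15 / 2) (by norm_num) (hw2.trans_le h3)
    have h5 := ea2_ent hw
    have h6 : r * log r ^ 2 = 4 * (w * log w) ^ 2 := by
      rw [← hw2, Real.log_pow]; push_cast; ring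
    rw [hw2] at h5
    have h7 := mul_le_mul_of_nonneg_right hb ((sq_nonneg _).trans h5)
    linarith
  · have h3 : 2 * log r ≤ bt a := by
      have := log_le_log h hr
      have := log_le_bt a
      linarith
    have h4 := mul_le_mul_of_nonneg_left h2 h.le
    have h5 : 0 ≤ r * log r := by linarith
    have h6 := mul_le_mul_of_nonneg_right h3 h5
    have h7 : bt a * (r * log r / 2) ≤ bt a * (r * log r - r + 1) :=
      mul_le_mul_of_nonneg_left (by linarith) (by linarith)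
    nlinarith

theorem fa2_one {a r θ : ℝ} (ha : 0 < a) (ha1 : a ≤ 1) (hr0 : 0 ≤ r) (hr : r ≤ 1 / a)
    (hθ0 : 0 < θ) (hθ : θ * bt a ≤ 1) :
    r ^ (1 + θ) ≤ r + θ * (r * log r) + θ ^ 2 * bt a * (r * log r - r + 1) := by
  have hb := bt_ge ha ha1
  rcases hr0.eq_or_lt with h | h
  · subst h
    rw [Real.zero_rpow (by linarith)]
    have : 0 ≤ θ ^ 2 * bt a := mul_nonneg (sq_nonneg _) (by linarith)
    simpa using this
  · have hy : θ * log r ≤ 1 := by
      have h1 := log_le_log h hr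
      have h2 := log_le_bt a
      have h3 : θ * log r ≤ θ * bt a := mul_le_mul_of_nonneg_left (by linarith) hθ0.le
      linarith
    have h1 : r ^ (1 + θ) = r * exp (θ * log r) := by
      rw [Real.rpow_add h, Real.rpow_one, Real.rpow_def_of_pos h, mul_comm (log r)]
    have h2 := mul_le_mul_of_nonneg_left (ea2_exp hy) hr0
    have h8 := mul_le_mul_of_nonneg_left (fa2_sq ha ha1 h hr) (sq_nonneg θ)
    rw [h1]
    nlinarith

theorem renyiU {a u q θ : ℝ} (ha : 0 < a) (h1 : a ≤ u) (h2 : u ≤ 1 - a) (hq0 : 0 ≤ q)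
    (hq1 : q ≤ 1) (hθ0 : 0 < θ) (hθ : θ * bt a ≤ 1) :
    u * (q / u) ^ (1 + θ) + (1 - u) * ((1 - q) / (1 - u)) ^ (1 + θ) ≤
      1 + θ * (1 + θ * bt a) * kl q u := by
  have hu0 : 0 < u := by linarith
  have hu1 : 0 < 1 - u := by linarith
  have ha1 : a ≤ 1 := by linarith
  have b1 : q / u ≤ 1 / a := div_le_div₀ zero_le_one hq1 ha h1
  have b2 : (1 - q) / (1 - u) ≤ 1 / a := div_le_div₀ zero_le_one (by linarith) ha (by linarith)
  have a1 := mul_le_mul_of_nonneg_left (fa2_one ha ha1 (div_nonneg hq0 hu0.le) b1 hθ0 hθ) hu0.le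
  have a2 := mul_le_mul_of_nonneg_left
    (fa2_one ha ha1 (div_nonneg (by linarith : 0 ≤ 1 - q) hu1.le) b2 hθ0 hθ) hu1.le
  refine (add_le_add a1 a2).trans (le_of_eq ?_)
  unfold kl
  generalize log (q / u) = L1
  generalize log ((1 - q) / (1 - u)) = L2
  field_simp
  ring

end Pool.Agent.P.MP_4f3dfd_co.Ex
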