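import Mathlib
import Pool.Agent.P.MP_4f3dfd_co.FDefs
import Pool.Agent.P.MP_4f3dfd_co.EB2
import Pool.Agent.P.MP_4f3dfd_co.FA1

set_option autoImplicit false
set_option linter.unusedSectionVars false
set_option linter.unusedVariables false

namespace Pool.Agent.P.MP_4f3dfd_co.Ex

open Finset Real

variable {V : Type*} [DecidableEq V]

theorem binom_geU {N j : ℕ} (h0 : 0 < j) (h1 : j < N) :
    1 / (3 * √(N * ((j : ℝ) / N * (1 - (j : ℝ) / N)))) ≤
      (N.choose j : ℝ) * (((j : ℝ) / N) ^ j * (1 - (j : ℝ) / N) ^ (N - j)) := by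
  obtain ⟨k, rfl⟩ := Nat.exists_eq_add_of_le h1.le
  have hk : 0 < k := by omega
  have hN : 0 < j + k := by omega
  have hj' : (0 : ℝ) < j := by exact_mod_cast h0
  have hk' : (0 : ℝ) < k := by exact_mod_cast hk
  have he : 0 < exp 1 := exp_pos 1
  have e1 : 1 - (j : ℝ) / ((j + k : ℕ) : ℝ) = k / ((j + k : ℕ) : ℝ) := by
    push_cast
    field_simp
    ring
  rw [Nat.add_sub_cancel_left, e1, Nat.cast_add_choose, eb2_fact hN, eb2_fact h0, eb2_fact hk]
  have p1 := eb2_pos h0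
  have p2 := eb2_pos hk
  have l1 := eb2_le h0
  have l2 := eb2_le hk
  have l3 := Stirling.sqrt_pi_le_stirlingSeq hN.ne'
  set N : ℝ := ((j + k : ℕ) : ℝ) with hNdef
  have hNe : N = j + k := by rw [hNdef]; push_cast; rfl
  have hN' : 0 < N := by rw [hNe]; positivity
  set sN := Stirling.stirlingSeq (j + k)
  set sj := Stirling.stirlingSeq j
  set sk := Stirling.stirlingSeq k
  have q1 : 0 < √(2 * (j : ℝ)) := by positivity
  have q2 : 0 < √(2 * (k : ℝ)) := by positivity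
  have q3 : 0 < √((j : ℝ) * k) := by positivity
  have e2 : sN * (√(2 * N) * (N / exp 1) ^ (j + k)) /
      (sj * (√(2 * j) * ((j : ℝ) / exp 1) ^ j) * (sk * (√(2 * k) * ((k : ℝ) / exp 1) ^ k))) *
      (((j : ℝ) / N) ^ j * ((k : ℝ) / N) ^ k) =
      sN * √(2 * N) / (sj * sk * (√(2 * j) * √(2 * k))) := by
    simp only [div_pow, pow_add]
    field_simp
  rw [e2, div_le_div_iff₀ (by positivity) (by positivity), one_mul]
  have s2 : √2 * √2 = (2 : ℝ) := mul_self_sqrt (by norm_num)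
  have a1 : √(2 * (j : ℝ)) * √(2 * k) = 2 * √((j : ℝ) * k) := by
    rw [sqrt_mul (by norm_num), sqrt_mul (by norm_num), sqrt_mul hj'.le]
    linear_combination (√(j : ℝ) * √(k : ℝ)) * s2
  have a2 : sj * sk ≤ 3.7 := by
    have h3 : exp 1 < 2.72 := exp_one_lt_d9.trans (by norm_num)
    calc sj * sk ≤ exp 1 / √2 * (exp 1 / √2) := mul_le_mul l1 l2 p2.le (by positivity)
      _ = exp 1 * exp 1 / 2 := by rw [div_mul_div_comm, s2]
      _ ≤ 3.7 := by nlinarith
  have a3 : (1.77 : ℝ) ≤ sN := by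
    refine le_trans ?_ l3
    exact le_sqrt_of_sq_le (by nlinarith [pi_gt_d2])
  have a4 : √(2 * N) * √(N * ((j : ℝ) / N * (k / N))) = √2 * √((j : ℝ) * k) := by
    rw [← sqrt_mul (by positivity), ← sqrt_mul (by norm_num)]
    congr 1
    field_simp
  have a5 : (1.41 : ℝ) ≤ √2 := le_sqrt_of_sq_le (by norm_num)
  calc sj * sk * (√(2 * (j : ℝ)) * √(2 * k)) ≤ 3.7 * (2 * √((j : ℝ) * k)) := by
        rw [a1]
        exact mul_le_mul_of_nonneg_right a2 (by positivity)
    _ ≤ 3 * (1.77 * (1.41 * √((j : ℝ) * k))) := by linarith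
    _ ≤ 3 * (sN * (√2 * √((j : ℝ) * k))) := by gcongr
    _ = _ := by rw [← a4]; ring

theorem binom_le_expU {N j : ℕ} {α η : ℝ} (hj : j ≤ N) (h0 : 0 < α) (h1 : α < 1) (hη0 : 0 ≤ η)
    (hη : η ≤ 1) (h : η * min α (1 - α) * N ≤ |(j : ℝ) - α * N|) :
    (N.choose j : ℝ) * (α ^ j * (1 - α) ^ (N - j)) ≤ exp (-(η ^ 2 * min α (1 - α) * N / 6)) := by
  rcases Nat.eq_zero_or_pos N with rfl | hN
  · obtain rfl : j = 0 := by omega
    simp
  have hN' : (0 : ℝ) < N := by exact_mod_cast hN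
  have hjN : (j : ℝ) ≤ N := by exact_mod_cast hj
  have u0 : 0 ≤ (j : ℝ) / N := by positivity
  have u1 : (j : ℝ) / N ≤ 1 := (div_le_one hN').2 hjN
  have e1 := eb2_pow (x := (j : ℝ) / N) (m := j) h0 u0 (fun h => by
    rw [div_eq_zero_iff] at h
    rcases h with h | h
    · exact_mod_cast h
    · exact absurd h hN'.ne')
  have e2 := eb2_pow (x := 1 - (j : ℝ) / N) (α := 1 - α) (m := N - j) (by linarith) (by linarith)
    (fun h => by
      have h2 : (j : ℝ) / N = 1 := by linarith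
      rw [div_eq_one_iff_eq hN'.ne'] at h2
      have : j = N := by exact_mod_cast h2
      omega)
  have hb := binom_le_one hj u0 u1
  have h4 : η * min α (1 - α) ≤ |(j : ℝ) / N - α| := by
    have e4 : (j : ℝ) - α * N = ((j : ℝ) / N - α) * N := by field_simp
    rw [e4, abs_mul, abs_of_pos hN'] at h
    exact le_of_mul_le_mul_right h hN'
  have hk := mul_le_mul_of_nonneg_left (kl_ge_rel u0 u1 h0 h1 hη0 hη h4) hN'.le
  have e3 : (j : ℝ) * log ((j : ℝ) / N / α) +
      ((N - j : ℕ) : ℝ) * log ((1 - (j : ℝ) / N) / (1 - α)) = N * kl ((j : ℝ) / N) α := by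
    rw [Nat.cast_sub hj, kl]
    field_simp
  have h5 : exp (-((j : ℝ) * log ((j : ℝ) / N / α))) *
      exp (-(((N - j : ℕ) : ℝ) * log ((1 - (j : ℝ) / N) / (1 - α)))) ≤
      exp (-(η ^ 2 * min α (1 - α) * N / 6)) := by
    rw [← exp_add, exp_le_exp, ← neg_add, e3]
    linarith
  rw [e1, e2]
  calc _ = (N.choose j : ℝ) * (((j : ℝ) / N) ^ j * (1 - (j : ℝ) / N) ^ (N - j)) *
        (exp (-((j : ℝ) * log ((j : ℝ) / N / α))) *
          exp (-(((N - j : ℕ) : ℝ) * log ((1 - (j : ℝ) / N) / (1 - α))))) := by ring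
    _ ≤ 1 * exp (-(η ^ 2 * min α (1 - α) * N / 6)) :=
        mul_le_mul hb h5 (by positivity) zero_le_one
    _ = _ := one_mul _

end Pool.Agent.P.MP_4f3dfd_co.Ex
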