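import Mathlib
import Pool.Agent.P.MP_4f3dfd_co.FDefs
import Pool.Agent.P.MP_4f3dfd_co.EB2
import Pool.Agent.P.MP_4f3dfd_co.FA3

set_option autoImplicit false
set_option linter.unusedSectionVars false
set_option linter.unusedVariables false

namespace Pool.Agent.P.MP_4f3dfd_co.Ex

open Finset Real

variable {V : Type*} [DecidableEq V]

theorem fa4_term {r N c t : ℕ} {η : ℝ} (h0 : 0 < c) (h1 : c < r + N) (ht : t ≤ r) (htc : t ≤ c)
    (hη : 0 ≤ η) (hη1 : η ≤ 1)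
    (h : η * (3 * aa (r + N) c) * (N : ℝ) < |(c : ℝ) - t - c / ((r + N : ℕ) : ℝ) * (N : ℝ)|) :
    (r.choose t : ℝ) * (N.choose (c - t) : ℝ) ≤
      2 * √((r + N : ℕ) : ℝ) * exp (-(η ^ 2 * aa (r + N) c * N / 2)) * ((r + N).choose c : ℝ) := by
  by_cases hj : N < c - t
  · rw [Nat.choose_eq_zero_of_lt hj]
    simp only [Nat.cast_zero, mul_zero]
    positivity
  have hj' : c - t ≤ N := not_lt.mp hj
  have hn : (0 : ℝ) < ((r + N : ℕ) : ℝ) := by
    have : 0 < r + N := by omega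
    exact_mod_cast this
  have hc : (0 : ℝ) < c := by exact_mod_cast h0
  have hcn : (c : ℝ) < ((r + N : ℕ) : ℝ) := by exact_mod_cast h1
  set α : ℝ := (c : ℝ) / ((r + N : ℕ) : ℝ) with hα
  have a0 : 0 < α := div_pos hc hn
  have a1 : α < 1 := (div_lt_one hn).mpr hcn
  have a2 : 0 < 1 - α := by linarith
  have b1 := binom_le_one (N := r) (j := t) (α := α) ht a0.le a1.le
  have hcast : ((c - t : ℕ) : ℝ) = (c : ℝ) - t := by
    rw [Nat.cast_sub htc]
  have h3 := three_aa (n := r + N) (by omega) c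
  rw [← hα] at h3
  have b2 := binom_le_expU (N := N) (j := c - t) (α := α) (η := η) hj' a0 a1 hη hη1
    (by rw [hcast, ← h3]; exact h.le)
  have h4 : η ^ 2 * min α (1 - α) * N / 6 = η ^ 2 * aa (r + N) c * N / 2 := by
    rw [← h3]; ring
  rw [h4] at b2
  have b3 := binom_ge (N := r + N) (j := c) h0 h1
  rw [← hα] at b3
  have hW : α ^ c * (1 - α) ^ (r + N - c) =
      (α ^ t * (1 - α) ^ (r - t)) * (α ^ (c - t) * (1 - α) ^ (N - (c - t))) := by
    have e1 : c = t + (c - t) := by omega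
    have e2 : r + N - c = (r - t) + (N - (c - t)) := by omega
    rw [e2, pow_add]
    nth_rewrite 1 [e1]
    rw [pow_add]
    ring
  set W : ℝ := α ^ c * (1 - α) ^ (r + N - c) with hWd
  have W0 : 0 < W := by positivity
  have s0 : 0 < √((r + N : ℕ) : ℝ) := Real.sqrt_pos.mpr hn
  set E : ℝ := exp (-(η ^ 2 * aa (r + N) c * N / 2)) with hE
  have E0 : 0 < E := exp_pos _
  have b4 : 1 ≤ 2 * √((r + N : ℕ) : ℝ) * (((r + N).choose c : ℝ) * W) := by
    have := (div_le_iff₀ (by positivity : (0 : ℝ) < 2 * √((r + N : ℕ) : ℝ))).mp b3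
    linarith
  have b5 : (r.choose t : ℝ) * (N.choose (c - t) : ℝ) * W ≤ E := by
    have p2 : 0 ≤ (N.choose (c - t) : ℝ) * (α ^ (c - t) * (1 - α) ^ (N - (c - t))) := by
      positivity
    calc (r.choose t : ℝ) * (N.choose (c - t) : ℝ) * W
        = ((r.choose t : ℝ) * (α ^ t * (1 - α) ^ (r - t))) *
          ((N.choose (c - t) : ℝ) * (α ^ (c - t) * (1 - α) ^ (N - (c - t)))) := by
          rw [hW]; ring
      _ ≤ 1 * E := mul_le_mul b1 b2 p2 zero_le_one
      _ = E := one_mul _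
  have b6 : E ≤ 2 * √((r + N : ℕ) : ℝ) * E * ((r + N).choose c : ℝ) * W := by
    have := mul_le_mul_of_nonneg_left b4 E0.le
    calc E = E * 1 := (mul_one _).symm
      _ ≤ E * (2 * √((r + N : ℕ) : ℝ) * (((r + N).choose c : ℝ) * W)) := this
      _ = _ := by ring
  exact le_of_mul_le_mul_right (b5.trans b6) W0

theorem fa4_fix (G S : Finset V) {c r : ℕ} {η : ℝ} (h0 : 0 < c) (h1 : c < #G) (hr : r ≤ #G)
    (hη : 0 ≤ η) (hη1 : η ≤ 1) (hS : #S = r) :
    ∑ x ∈ S.powerset, atyp G c (η * (3 * aa #G c)) S x ≤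
      zeta #G 1 (η ^ 2 * aa #G c * ((#G : ℝ) - r)) * (#G).choose c := by
  obtain ⟨N, hN⟩ : ∃ N, #G = r + N := ⟨#G - r, by omega⟩
  have hNr : ((#G : ℕ) : ℝ) - r = N := by
    rw [hN]; push_cast; ring
  let f : ℕ → ℝ := fun t =>
    if t ≤ c ∧ η * (3 * aa (r + N) c) * (N : ℝ) < |(c : ℝ) - t - c / ((r + N : ℕ) : ℝ) * (N : ℝ)| then
      (N.choose (c - t) : ℝ) else 0
  have e1 : ∀ x : Finset V, atyp G c (η * (3 * aa #G c)) S x = f #x := by
    intro x
    have e2 : #G - r = N := by omega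
    simp only [atyp, tot, f, hS, hNr, e2]
    rw [hN]
  simp only [e1]
  rw [Finset.sum_powerset_apply_card f, hS, hNr, hN]
  set B : ℝ := 2 * √((r + N : ℕ) : ℝ) * exp (-(η ^ 2 * aa (r + N) c * N / 2)) * ((r + N).choose c : ℝ) with hB
  have B0 : 0 ≤ B := by positivity
  have e3 : ∀ t ∈ range (r + 1), (r.choose t) • f t ≤ B := by
    intro t ht
    have ht' : t ≤ r := Nat.lt_succ_iff.mp (mem_range.mp ht)
    rw [nsmul_eq_mul]
    simp only [f]
    split_ifs with hc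
    · exact fa4_term h0 (hN ▸ h1) ht' hc.1 hη hη1 hc.2
    · simpa using B0
  have e4 := Finset.sum_le_card_nsmul _ _ _ e3
  rw [card_range, nsmul_eq_mul] at e4
  refine e4.trans ?_
  have e5 : ((r + 1 : ℕ) : ℝ) ≤ ((r + N : ℕ) : ℝ) + 1 := by
    push_cast
    have : (0 : ℝ) ≤ N := Nat.cast_nonneg _
    linarith
  calc ((r + 1 : ℕ) : ℝ) * B ≤ (((r + N : ℕ) : ℝ) + 1) * B := mul_le_mul_of_nonneg_right e5 B0
    _ = _ := by rw [hB, zeta, one_pow, one_mul]; ring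

theorem Av_atypU (G : Finset V) {c r : ℕ} {η : ℝ} (h0 : 0 < c) (h1 : c < #G) (hr : r ≤ #G)
    (hη0 : 0 ≤ η) (hη : η ≤ 1) : Av G r (atyp G c (η * (3 * aa #G c))) ≤
      zeta #G 1 (η ^ 2 * aa #G c * ((#G : ℝ) - r)) * (#G).choose c := by
  have hp : (0 : ℝ) < ((#G).choose r : ℝ) := by exact_mod_cast Nat.choose_pos hr
  rw [Av, div_le_iff₀ hp]
  have e := Finset.sum_le_card_nsmul (powersetCard r G)
    (fun S => ∑ x ∈ S.powerset, atyp G c (η * (3 * aa #G c)) S x)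
    (zeta #G 1 (η ^ 2 * aa #G c * ((#G : ℝ) - r)) * (#G).choose c)
    (fun S hS => fa4_fix G S h0 h1 hr hη0 hη (mem_powersetCard.mp hS).2)
  rw [card_powersetCard, nsmul_eq_mul] at e
  linarith

end Pool.Agent.P.MP_4f3dfd_co.Ex
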