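import Mathlib
import Pool.Agent.P.MP_4f3dfd_co.FDefs
import Pool.Agent.P.MP_4f3dfd_co.EB1
import Pool.Agent.P.MP_4f3dfd_co.EB2
import Pool.Agent.P.MP_4f3dfd_co.EC1
import Pool.Agent.P.MP_4f3dfd_co.FA1
import Pool.Agent.P.MP_4f3dfd_co.FA3

set_option autoImplicit false
set_option linter.unusedSectionVars false
set_option linter.unusedVariables false

namespace Pool.Agent.P.MP_4f3dfd_co.Ex

open Finset Real

variable {V : Type*} [DecidableEq V]

theorem fa5_key (H : Finset V) (j : ℕ) (A : Finset (Finset V)) (hA : A ⊆ powersetCard j H)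
    (hne : A.Nonempty) (hj0 : 0 < j) (hj1 : j < #H) {P s : ℝ} (hP0 : 0 < P) (hs : 0 < s)
    (hb : 1 / s ≤ ((#H).choose j : ℝ) * (((j : ℝ) / #H) ^ j * (1 - (j : ℝ) / #H) ^ (#H - j)))
    (hP : ∑ X ∈ powersetCard j H, pm H (fun i => (deg A i : ℝ) / #A) X ≤ P) :
    ∑ i ∈ H, kl ((deg A i : ℝ) / #A) ((j : ℝ) / #H) ≤
      log (((#H).choose j : ℝ) / #A) + log (s * P) := by
  have hN : (0 : ℝ) < #H := by exact_mod_cast (lt_trans hj0 hj1)
  have hu0 : (0 : ℝ) < (j : ℝ) / #H := div_pos (by exact_mod_cast hj0) hN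
  have hu1 : (j : ℝ) / #H < 1 := (div_lt_one hN).2 (by exact_mod_cast hj1)
  have hA0 : (0 : ℝ) < #A := by exact_mod_cast hne.card_pos
  have hC : (0 : ℝ) < ((#H).choose j : ℝ) := by exact_mod_cast Nat.choose_pos hj1.le
  refine (sum_kl_le_log H j A hA hne hu0 hu1 hP).trans ?_
  set W : ℝ := ((j : ℝ) / #H) ^ j * (1 - (j : ℝ) / #H) ^ (#H - j) with hW
  have hW0 : 0 < W := mul_pos (pow_pos hu0 _) (pow_pos (by linarith) _)
  rw [← log_mul (by positivity) (by positivity)]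
  refine log_le_log (by positivity) ?_
  rw [div_le_iff₀ hs] at hb
  rw [div_le_iff₀ (by positivity)]
  have : ((#H).choose j : ℝ) / #A * (s * P) * (#A * W) =
      P * (((#H).choose j : ℝ) * W * s) := by field_simp
  rw [this]
  exact le_mul_of_one_le_right hP0.le hb

theorem sum_kl_leU (H : Finset V) (j : ℕ) (A : Finset (Finset V)) (hA : A ⊆ powersetCard j H)
    (hne : A.Nonempty) {a g : ℝ} (ha : 0 < a) (hH : 0 < #H) (h1 : a * #H ≤ j)
    (h2 : (j : ℝ) ≤ (1 - a) * #H) (hg0 : 0 < g) (hg1 : g ≤ 1)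
    (hN : 48 * log (2 * √(#H)) ≤ g * a * #H) :
    ∑ i ∈ H, kl ((deg A i : ℝ) / #A) ((j : ℝ) / #H) ≤
      (1 + g) * log (((#H).choose j : ℝ) / #A) + log 36 := by
  have hN0 : (0 : ℝ) < #H := by exact_mod_cast hH
  have hN1 : (1 : ℝ) ≤ #H := by exact_mod_cast hH
  have ha2 : a ≤ 1 / 2 := by
    have : a * #H ≤ (1 - a) * #H := h1.trans h2
    have := le_of_mul_le_mul_right this hN0
    linarith
  have hj0 : 0 < j := by
    have : (0 : ℝ) < j := lt_of_lt_of_le (mul_pos ha hN0) h1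
    exact_mod_cast this
  have hj1 : j < #H := by
    have : (j : ℝ) < #H := by nlinarith
    exact_mod_cast this
  have hu1 : a ≤ (j : ℝ) / #H := (le_div_iff₀ hN0).2 h1
  have hu2 : (j : ℝ) / #H ≤ 1 - a := (div_le_iff₀ hN0).2 h2
  have hA0 : (0 : ℝ) < #A := by exact_mod_cast hne.card_pos
  have hq : ∀ i ∈ H, 0 ≤ (deg A i : ℝ) / #A ∧ (deg A i : ℝ) / #A ≤ 1 := by
    intro i _
    refine ⟨by positivity, (div_le_one hA0).2 ?_⟩
    exact_mod_cast card_filter_le _ _
  have hZ : 0 ≤ log (((#H).choose j : ℝ) / #A) := by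
    refine log_nonneg ((one_le_div hA0).2 ?_)
    have := card_le_card hA
    rw [card_powersetCard] at this
    exact_mod_cast this
  have hL : 0 ≤ log (36 : ℝ) := log_nonneg (by norm_num)
  have hs1 : (1 : ℝ) ≤ √(#H) := Real.one_le_sqrt.2 hN1
  have hlog : 1 / 2 ≤ log (2 * √(#H)) := by
    have e1 : log 2 ≤ log (2 * √(#H)) := log_le_log (by norm_num) (by linarith)
    have := Real.log_two_gt_d9
    linarith
  have haN0 : 0 < a * #H := mul_pos ha hN0
  have haN : 24 ≤ a * #H := by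
    have e1 : g * (a * #H) ≤ 1 * (a * #H) := mul_le_mul_of_nonneg_right hg1 haN0.le
    linarith
  have hb1 := binom_ge hj0 hj1
  have hb2 := binom_geU hj0 hj1
  have hvar : ∑ i ∈ H, ((j : ℝ) / #H * (1 - (j : ℝ) / #H) / 2 -
        3 * kl ((deg A i : ℝ) / #A) ((j : ℝ) / #H)) ≤
      ∑ i ∈ H, (deg A i : ℝ) / #A * (1 - (deg A i : ℝ) / #A) :=
    sum_le_sum fun i hi => var_ge (hq i hi).1 (hq i hi).2 (by linarith) (by linarith)
  rw [sum_sub_distrib, sum_const, ← mul_sum, nsmul_eq_mul] at hvar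
  have huv : a / 2 ≤ (j : ℝ) / #H * (1 - (j : ℝ) / #H) := by nlinarith
  have hv : a * #H / 2 ≤ #H * ((j : ℝ) / #H * (1 - (j : ℝ) / #H)) := by
    have := mul_le_mul_of_nonneg_left huv hN0.le
    linarith
  set v : ℝ := #H * ((j : ℝ) / #H * (1 - (j : ℝ) / #H)) with hvd
  set K := ∑ i ∈ H, kl ((deg A i : ℝ) / #A) ((j : ℝ) / #H) with hK
  set Z := log (((#H).choose j : ℝ) / #A) with hZd
  have hv0 : 0 < v := by linarith
  by_cases hc : v / 12 ≤ K
  · have e := fa5_key H j A hA hne hj0 hj1 one_pos (by positivity) hb1 (sum_pm_le_one H _ hq j)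
    rw [mul_one, ← hK, ← hZd] at e
    have hK0 : 0 ≤ K := le_trans (by positivity) hc
    have e2 : log (2 * √(#H)) ≤ g * K / 2 := by
      have : g * (a * #H / 24) ≤ g * K := mul_le_mul_of_nonneg_left (by linarith) hg0.le
      linarith
    have e3 : (1 - g / 2) * K ≤ Z := by linarith
    have e4 : (1 + g) * ((1 - g / 2) * K) ≤ (1 + g) * Z :=
      mul_le_mul_of_nonneg_left e3 (by linarith)
    have e5 : 0 ≤ g * (1 - g) * K := mul_nonneg (mul_nonneg hg0.le (by linarith)) hK0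
    linarith
  · rw [not_le] at hc
    have hsum : v / 4 ≤ ∑ i ∈ H, (deg A i : ℝ) / #A * (1 - (deg A i : ℝ) / #A) := by
      have e1 : (#H : ℝ) * ((j : ℝ) / #H * (1 - (j : ℝ) / #H) / 2) = v / 2 := by rw [hvd]; ring
      rw [e1] at hvar
      linarith
    have hσ2 : (√v / 2) ^ 2 = v / 4 := by
      rw [div_pow, sq_sqrt hv0.le]; norm_num
    have hσ1 : 1 ≤ √v / 2 := by
      have : (2 : ℝ) ≤ √v := Real.le_sqrt_of_sq_le (by linarith)
      linarith
    have hP := sum_pm_le H _ hq j hσ1 (by rw [hσ2]; exact hsum)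
    have hsv : 0 < √v := by linarith
    have e := fa5_key H j A hA hne hj0 hj1 (by positivity) (by positivity) hb2 hP
    have e3 : 3 * √v * (6 / (√v / 2)) = 36 := by field_simp; norm_num
    rw [← hK, ← hZd, e3] at e
    linarith [mul_nonneg hg0.le hZ]

end Pool.Agent.P.MP_4f3dfd_co.Ex
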