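import Mathlib
import Pool.Agent.P.MP_4f3dfd_co.FDefs
import Pool.Agent.P.MP_4f3dfd_co.FA2
import Pool.Agent.P.MP_4f3dfd_co.FA5

set_option autoImplicit false
set_option linter.unusedSectionVars false
set_option linter.unusedVariables false

namespace Pool.Agent.P.MP_4f3dfd_co.Ex

open Finset Real

variable {V : Type*} [DecidableEq V]

theorem fb1_wp {T b : ℕ} {C m u p : ℝ} (hC : 0 < C) (hm : 0 < m) (hu : 0 < u)
    (hT : (T : ℝ) = u * C) {q : ℝ} (hq : 0 ≤ q) (hb : (b : ℝ) = q * m) :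
    wp T b p = C * (m / C) ^ p * (u * (q / u) ^ p) := by
  unfold wp
  rw [hT, hb]
  have h : q * m / (u * C) = (m / C) * (q / u) := by
    field_simp
  rw [h, Real.mul_rpow (by positivity) (by positivity)]
  ring

theorem fb1_choose {N j : ℕ} (hj : 0 < j) (hjN : j < N) :
    (((N - 1).choose (j - 1) : ℕ) : ℝ) = (j : ℝ) / N * (N.choose j : ℝ) ∧
      (((N - 1).choose j : ℕ) : ℝ) = (1 - (j : ℝ) / N) * (N.choose j : ℝ) := by
  obtain ⟨n, rfl⟩ : ∃ n, N = n + 1 := ⟨N - 1, by omega⟩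
  obtain ⟨k, rfl⟩ : ∃ k, j = k + 1 := ⟨j - 1, by omega⟩
  simp only [Nat.add_sub_cancel]
  have h1 : (n + 1) * n.choose k = (n + 1).choose (k + 1) * (k + 1) :=
    Nat.add_one_mul_choose_eq n k
  have h2 : (n + 1).choose (k + 1) = n.choose k + n.choose (k + 1) := Nat.choose_succ_succ' n k
  have h1R : ((n : ℝ) + 1) * (n.choose k : ℝ) = ((n + 1).choose (k + 1) : ℝ) * ((k : ℝ) + 1) := by
    exact_mod_cast h1
  have h2R : ((n + 1).choose (k + 1) : ℝ) = (n.choose k : ℝ) + (n.choose (k + 1) : ℝ) := by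
    exact_mod_cast h2
  have hn : (0 : ℝ) < (n : ℝ) + 1 := by positivity
  have h3 : (n.choose k : ℝ) = ((k : ℝ) + 1) / ((n : ℝ) + 1) * ((n + 1).choose (k + 1) : ℝ) := by
    field_simp
    linarith only [h1R]
  push_cast
  refine ⟨h3, ?_⟩
  linarith only [h2R, h3]

theorem fb1_log : log (36 : ℝ) ≤ 4 := by
  rw [Real.log_le_iff_le_exp (by norm_num)]
  have h1 : (2.7 : ℝ) ≤ exp 1 := by
    have := Real.exp_one_gt_d9
    linarith only [this]
  have h2 : exp 4 = exp 1 ^ 4 := by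
    rw [← Real.exp_nat_mul]
    norm_num
  rw [h2]
  calc (36 : ℝ) ≤ 2.7 ^ 4 := by norm_num
    _ ≤ exp 1 ^ 4 := by gcongr

/-- One step of erasure hypercontractivity on a slice. -/
theorem hc_stepU (H : Finset V) (j : ℕ) (A : Finset (Finset V)) (hA : A ⊆ powersetCard j H)
    {a θ τ : ℝ} (ha : 0 < a) (hH : 0 < #H) (h1 : a * #H ≤ j) (h2 : (j : ℝ) ≤ (1 - a) * #H)
    (hθ0 : 0 < θ) (hθ : θ * bt a ≤ 1) (hN : 48 * log (2 * √(#H)) ≤ θ * a * #H) (hτ0 : 0 ≤ τ)
    (hτ : τ ≤ θ * (1 - (1 + 3 * θ * bt a) / #H)) :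
    ∑ i ∈ H, (wp ((#H - 1).choose (j - 1)) (deg A i) (1 + θ) +
        wp ((#H - 1).choose j) (#A - deg A i) (1 + θ)) ≤
      #H * (exp (8 * θ / #H) * wp ((#H).choose j) #A (1 + τ)) := by
  have hNpos : (0 : ℝ) < #H := by exact_mod_cast hH
  have hjpos : (0 : ℝ) < j := lt_of_lt_of_le (by positivity) h1
  have hjlt : (j : ℝ) < #H := by nlinarith only [ha, h2, hNpos]
  have hj : 0 < j := by exact_mod_cast hjpos
  have hjN : j < #H := by exact_mod_cast hjlt
  have ha2 : a ≤ 1 / 2 := by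
    have : 2 * a * #H ≤ 1 * #H := by linarith
    have := le_of_mul_le_mul_right this hNpos
    linarith
  rcases A.eq_empty_or_nonempty with rfl | hne
  · have hp : (1 + θ) ≠ 0 := by positivity
    have hp' : (1 + τ) ≠ 0 := by positivity
    simp [wp, deg, Real.zero_rpow hp, Real.zero_rpow hp']
  obtain ⟨hc1, hc0⟩ := fb1_choose hj hjN
  set N : ℝ := (#H : ℝ) with hNdef
  set C : ℝ := ((#H).choose j : ℝ) with hCdef
  set m : ℝ := (#A : ℝ) with hmdef
  set u : ℝ := (j : ℝ) / N with hudef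
  have hC : 0 < C := by
    rw [hCdef]
    exact_mod_cast Nat.choose_pos hjN.le
  have hm : 0 < m := by
    rw [hmdef]
    exact_mod_cast hne.card_pos
  have hmC : m ≤ C := by
    have := Finset.card_le_card hA
    rw [Finset.card_powersetCard] at this
    rw [hmdef, hCdef]
    exact_mod_cast this
  have hu1 : a ≤ u := by
    rw [hudef, le_div_iff₀ hNpos]
    exact h1
  have hu2 : u ≤ 1 - a := by
    rw [hudef, div_le_iff₀ hNpos]
    exact h2
  have hu0 : 0 < u := lt_of_lt_of_le ha hu1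
  have hu3 : 0 < 1 - u := by linarith only [ha, hu2]
  have hM0 : 0 < m / C := div_pos hm hC
  have hM1 : m / C ≤ 1 := (div_le_one hC).2 hmC
  have hMp : 0 < (m / C) ^ (1 + θ) := Real.rpow_pos_of_pos hM0 _
  have hterm : ∀ i ∈ H, wp ((#H - 1).choose (j - 1)) (deg A i) (1 + θ) +
      wp ((#H - 1).choose j) (#A - deg A i) (1 + θ) ≤
      C * (m / C) ^ (1 + θ) * (1 + θ * (1 + θ * bt a) * kl ((deg A i : ℝ) / m) u) := by
    intro i _
    have hd : deg A i ≤ #A := Finset.card_filter_le _ _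
    have hdR : (deg A i : ℝ) ≤ m := by
      rw [hmdef]
      exact_mod_cast hd
    have hq0 : 0 ≤ (deg A i : ℝ) / m := by positivity
    have hq1 : (deg A i : ℝ) / m ≤ 1 := (div_le_one hm).2 hdR
    have e1 := fb1_wp (b := deg A i) (p := 1 + θ) hC hm hu0 hc1 hq0 (by field_simp)
    have e2 := fb1_wp (b := #A - deg A i) (p := 1 + θ) (q := 1 - (deg A i : ℝ) / m) hC hm hu3 hc0
      (by linarith only [hq1]) (by
        rw [Nat.cast_sub hd, ← hmdef]
        field_simp)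
    rw [e1, e2, ← mul_add]
    exact mul_le_mul_of_nonneg_left (renyiU ha hu1 hu2 hq0 hq1 hθ0 hθ) (by positivity)
  have hb30 : 30 ≤ bt a := bt_ge ha (by linarith)
  have ht0 : 0 < θ * bt a := by positivity
  have hK := sum_kl_leU H j A hA hne ha hH h1 h2 ht0 hθ (by
    have g1 : θ ≤ θ * bt a := by nlinarith only [hθ0, hb30]
    have g2 : θ * (a * N) ≤ θ * bt a * (a * N) :=
      mul_le_mul_of_nonneg_right g1 (by positivity)
    calc 48 * log (2 * √N) ≤ θ * a * N := hN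
      _ = θ * (a * N) := by ring
      _ ≤ θ * bt a * (a * N) := g2
      _ = θ * bt a * a * N := by ring)
  rw [← hmdef, ← hCdef, ← hNdef, ← hudef] at hK
  have hZ : 0 ≤ log (C / m) := Real.log_nonneg ((one_le_div hm).2 hmC)
  have hL : 0 ≤ log (36 : ℝ) := Real.log_nonneg (by norm_num)
  have hL4 : log (36 : ℝ) ≤ 4 := fb1_log
  set Z := log (C / m) with hZdef
  set L := log (36 : ℝ) with hLdef
  have h9 : 3 * θ * bt a = 3 * (θ * bt a) := by ring
  rw [h9] at hτ
  set t := θ * bt a with htdef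
  have hy : θ * (1 + t) * ∑ i ∈ H, kl ((deg A i : ℝ) / m) u ≤
      8 * θ + θ * (1 + 3 * t) * Z := by
    have g1 : θ * (1 + t) * ∑ i ∈ H, kl ((deg A i : ℝ) / m) u ≤
        θ * (1 + t) * ((1 + t) * Z + L) := mul_le_mul_of_nonneg_left hK (by positivity)
    have g2 : (1 + t) * (1 + t) ≤ 1 + 3 * t := by nlinarith only [ha, ha2, hθ, ht0]
    have g3 : (1 + t) * (1 + t) * Z ≤ (1 + 3 * t) * Z := mul_le_mul_of_nonneg_right g2 hZ
    have g4 : (1 + t) * L ≤ 8 := by nlinarith only [ha, ha2, hL, hL4, hθ]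
    have g5 : θ * ((1 + t) * (1 + t) * Z + (1 + t) * L) ≤
        θ * ((1 + 3 * t) * Z + 8) := mul_le_mul_of_nonneg_left (by linarith only [g3, g4]) hθ0.le
    calc _ ≤ θ * (1 + t) * ((1 + t) * Z + L) := g1
      _ = θ * ((1 + t) * (1 + t) * Z + (1 + t) * L) := by ring
      _ ≤ θ * ((1 + 3 * t) * Z + 8) := g5
      _ = _ := by ring
  have hexp : 1 + (8 * θ / N + θ * (1 + 3 * t) / N * Z) ≤
      exp (8 * θ / N) * exp (θ * (1 + 3 * t) / N * Z) := by
    rw [← Real.exp_add, add_comm 1]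
    exact Real.add_one_le_exp _
  have hpow : (m / C) ^ (1 + θ) * exp (θ * (1 + 3 * t) / N * Z) ≤ (m / C) ^ (1 + τ) := by
    have e1 : exp (θ * (1 + 3 * t) / N * Z) = (m / C) ^ (-(θ * (1 + 3 * t) / N)) := by
      rw [Real.rpow_def_of_pos hM0]
      congr 1
      have : log (m / C) = -Z := by
        rw [hZdef, ← Real.log_inv, inv_div]
      rw [this]
      ring
    rw [e1, ← Real.rpow_add hM0]
    refine Real.rpow_le_rpow_of_exponent_ge hM0 hM1 ?_
    have : θ * (1 - (1 + 3 * t) / N) = θ + -(θ * (1 + 3 * t) / N) := by ring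
    linarith only [hτ, this]
  have hwp : wp ((#H).choose j) #A (1 + τ) = C * (m / C) ^ (1 + τ) := rfl
  calc _ ≤ ∑ i ∈ H, C * (m / C) ^ (1 + θ) *
        (1 + θ * (1 + t) * kl ((deg A i : ℝ) / m) u) := Finset.sum_le_sum hterm
    _ = C * (m / C) ^ (1 + θ) * (N + θ * (1 + t) * ∑ i ∈ H, kl ((deg A i : ℝ) / m) u) := by
      rw [← Finset.mul_sum, Finset.sum_add_distrib, ← Finset.mul_sum]
      simp [hNdef]
    _ ≤ C * (m / C) ^ (1 + θ) * (N + (8 * θ + θ * (1 + 3 * t) * Z)) :=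
      mul_le_mul_of_nonneg_left (by linarith only [hy]) (by positivity)
    _ = C * (m / C) ^ (1 + θ) * (N * (1 + (8 * θ / N + θ * (1 + 3 * t) / N * Z))) := by
      congr 1
      field_simp
    _ ≤ C * (m / C) ^ (1 + θ) * (N * (exp (8 * θ / N) * exp (θ * (1 + 3 * t) / N * Z))) :=
      mul_le_mul_of_nonneg_left (mul_le_mul_of_nonneg_left hexp hNpos.le) (by positivity)
    _ = N * (exp (8 * θ / N) * (C * ((m / C) ^ (1 + θ) * exp (θ * (1 + 3 * t) / N * Z)))) := by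
      ring
    _ ≤ N * (exp (8 * θ / N) * (C * (m / C) ^ (1 + τ))) := by
      gcongr
    _ = _ := by rw [hwp]

end Pool.Agent.P.MP_4f3dfd_co.Ex
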