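import Mathlib
import Pool.Agent.P.MP_4f3dfd_co.FDefs
import Pool.Agent.P.MP_4f3dfd_co.ED1
import Pool.Agent.P.MP_4f3dfd_co.ED2
import Pool.Agent.P.MP_4f3dfd_co.ENum
import Pool.Agent.P.MP_4f3dfd_co.FA4
import Pool.Agent.P.MP_4f3dfd_co.FB1

set_option autoImplicit false
set_option linter.unusedSectionVars false
set_option linter.unusedVariables false

namespace Pool.Agent.P.MP_4f3dfd_co.Ex

open Finset Real

variable {V : Type*} [DecidableEq V]

theorem hc_levelU (G : Finset V) (c r : ℕ) (E : Finset (Finset V)) (hE : E ⊆ powersetCard c G)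
    {a θ τ : ℝ} (ha : 0 < a) (h1 : 2 * a * #G ≤ c) (h2 : (c : ℝ) ≤ (1 - 2 * a) * #G) (hr : r < #G)
    (hθ0 : 0 < θ) (hθ : θ * bt a ≤ 1)
    (hN : 48 * log (2 * √((#G : ℝ) - r)) ≤ θ * a * ((#G : ℝ) - r))
    (hτ0 : 0 ≤ τ) (hτ : τ ≤ θ * (1 - (1 + 3 * θ * bt a) / ((#G : ℝ) - r))) :
    Av G (r + 1) (pw E G c (1 + θ)) ≤
      exp (8 * θ / ((#G : ℝ) - r)) * Av G r (pw E G c (1 + τ)) +
        zeta #G 1 (a * ((#G : ℝ) - r) / 6) * (#G).choose c := by
  have hn : (0 : ℝ) < #G := Nat.cast_pos.2 (by omega)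
  have hc0 : 0 < c := Nat.cast_pos.1 (lt_of_lt_of_le (by positivity) h1)
  have hc1 : c < #G := Nat.cast_lt.1 (h2.trans_lt (by nlinarith [mul_pos ha hn]))
  have hlo : 2 * a ≤ c / #G := (le_div_iff₀ hn).2 h1
  have hhi : (c : ℝ) / #G ≤ 1 - 2 * a := (div_le_iff₀ hn).2 h2
  have h3a := three_aa (n := #G) (by omega) c
  have m0 : 2 * a ≤ 3 * aa #G c := by rw [h3a]; exact le_min hlo (by linarith)
  have m1 : 3 * aa #G c ≤ c / #G := by rw [h3a]; exact min_le_left _ _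
  have m2 : 3 * aa #G c ≤ 1 - c / #G := by rw [h3a]; exact min_le_right _ _
  refine (Av_step G hr (Ψ := fun S x => exp (8 * θ / ((#G : ℝ) - r)) *
    pw E G c (1 + τ) S x + atyp G c (1 / 2 * (3 * aa #G c)) S x) fun S hS hSr x hx => ?_).trans ?_
  · have hcard : (#(G \ S) : ℝ) = (#G : ℝ) - r := by
      rw [card_sdiff_of_subset hS, hSr, Nat.cast_sub hr.le]
    have hpos : 0 < #(G \ S) := by
      rw [card_sdiff_of_subset hS, hSr]
      omega
    have hpos' : (0 : ℝ) < #(G \ S) := Nat.cast_pos.2 hpos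
    rw [← hcard] at hN hτ ⊢
    rcases typ_or hE hS x (1 / 2 * (3 * aa #G c)) with h | ⟨-, h⟩
    · refine (sum_le_card_nsmul _ _ _ fun i hi =>
        pw_children_le hE hS hx (by linarith) hi).trans ?_
      rw [nsmul_eq_mul]
      refine mul_le_mul_of_nonneg_left (h.trans (le_add_of_nonneg_left ?_)) hpos'.le
      exact mul_nonneg (exp_pos _).le (wp_nonneg _ _ _)
    · obtain ⟨h3, h4⟩ := abs_le.1 h
      rw [sum_congr rfl fun i hi => pw_children E hS hx c (1 + θ) hi, pw_eq E hS]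
      refine (hc_stepU (G \ S) (c - #x) (fib E S x) (fib_subset hE S x) ha hpos ?_ ?_ hθ0 hθ hN hτ0
        hτ).trans (mul_le_mul_of_nonneg_left
          (le_add_of_nonneg_right (atyp_nonneg G c _ S x)) hpos'.le)
      · nlinarith [mul_le_mul_of_nonneg_right m0 hpos'.le, mul_le_mul_of_nonneg_right m1 hpos'.le]
      · nlinarith [mul_le_mul_of_nonneg_right m0 hpos'.le, mul_le_mul_of_nonneg_right m2 hpos'.le]
  · rw [Av_add, Av_mul]
    refine add_le_add le_rfl ((Av_atypU G hc0 hc1 hr.le (by norm_num) (by norm_num)).trans ?_)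
    have hr' : (0 : ℝ) ≤ (#G : ℝ) - r := sub_nonneg.2 (by exact_mod_cast hr.le)
    refine mul_le_mul_of_nonneg_right (zeta_mono le_rfl 1 ?_) (Nat.cast_nonneg _)
    nlinarith [mul_le_mul_of_nonneg_right m0 hr']

end Pool.Agent.P.MP_4f3dfd_co.Ex
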