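import Mathlib
import Pool.Agent.P.MP_4f3dfd_co.FDefs
import Pool.Agent.P.MP_4f3dfd_co.ED1
import Pool.Agent.P.MP_4f3dfd_co.ED2
import Pool.Agent.P.MP_4f3dfd_co.ENum
import Pool.Agent.P.MP_4f3dfd_co.FB2

set_option autoImplicit false
set_option linter.unusedSectionVars false
set_option linter.unusedVariables false

namespace Pool.Agent.P.MP_4f3dfd_co.Ex

open Finset Real

variable {V : Type*} [DecidableEq V]

/-- the exponent at level `N` -/
noncomputable def fb3t (a θ N1 N : ℝ) : ℝ := 1 / ((1 / θ + 6 * a) / N1 * N - 6 * a)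

theorem fb3_self {a θ N1 : ℝ} (h : 7 ≤ N1) : fb3t a θ N1 N1 = θ := by
  have : N1 ≠ 0 := by linarith
  unfold fb3t
  rw [div_mul_cancel₀ _ this, add_sub_cancel_right, one_div_one_div]

theorem fb3_num {a θ N1 N : ℝ} (ha : 0 < a) (hθ0 : 0 < θ) (hθ : θ * a ≤ 1) (h19 : 7 ≤ N1)
    (hN : N1 ≤ N) :
    0 < fb3t a θ N1 N ∧ θ / (1 + 6 * θ * a) * (N1 / N) ≤ fb3t a θ N1 N ∧
      fb3t a θ N1 N ≤ θ * (N1 / N) ∧
      fb3t a θ N1 (N + 1) ≤ fb3t a θ N1 N * (1 - (1 + 3 * fb3t a θ N1 N * a) / (N + 1)) := by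
  have hN1 : 0 < N1 := by linarith
  have hN0 : 0 < N := by linarith
  obtain ⟨B, hB⟩ : ∃ B : ℝ, B = 6 * a := ⟨_, rfl⟩
  obtain ⟨u, hu⟩ : ∃ u : ℝ, u = 1 / θ := ⟨_, rfl⟩
  have hB0 : 0 < B := by rw [hB]; positivity
  have hu0 : 0 < u := by rw [hu]; positivity
  have hBu : B ≤ 6 * u := by
    rw [hB, hu, mul_one_div, le_div_iff₀ hθ0]
    linarith
  obtain ⟨A, hA⟩ : ∃ A : ℝ, A = (u + B) / N1 := ⟨_, rfl⟩
  have hA0 : 0 < A := by rw [hA]; positivity
  have hAN : A * N1 = u + B := by rw [hA]; field_simp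
  obtain ⟨v, hv⟩ : ∃ v : ℝ, v = A * N - B := ⟨_, rfl⟩
  have hAv : A ≤ v := by
    have h1 : A * N1 ≤ A * N := mul_le_mul_of_nonneg_left hN hA0.le
    have h2 : A * 7 ≤ A * N1 := mul_le_mul_of_nonneg_left h19 hA0.le
    linarith
  have hv0 : 0 < v := hA0.trans_le hAv
  have e1 : fb3t a θ N1 N = 1 / v := by unfold fb3t; rw [← hu, ← hB, ← hA, hv]
  have e2 : fb3t a θ N1 (N + 1) = 1 / (v + A) := by
    unfold fb3t; rw [← hu, ← hB, ← hA, hv]; congr 1; ring
  rw [e1, e2]
  refine ⟨by positivity, ?_, ?_, ?_⟩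
  · have e3 : θ / (1 + 6 * θ * a) * (N1 / N) = 1 / (A * N) := by
      rw [hA, hu, hB]; field_simp
    rw [e3]
    exact one_div_le_one_div_of_le hv0 (by linarith)
  · have e3 : θ * (N1 / N) = 1 / (u * N / N1) := by rw [hu]; field_simp
    rw [e3]
    refine one_div_le_one_div_of_le (by positivity) ?_
    rw [div_le_iff₀ hN1, hv]
    have h1 : B * N1 ≤ B * N := mul_le_mul_of_nonneg_left hN hB0.le
    have h2 : (A * N - B) * N1 = (u + B) * N - B * N1 := by rw [← hAN]; ring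
    rw [h2]
    linarith
  · have e3 : 3 * (1 / v) * a = B / (2 * v) := by rw [hB]; field_simp; norm_num
    have e4 : N + 1 = (v + B + A) / A := by rw [hv]; field_simp; ring
    rw [e3, e4]
    have key : 1 / v * (1 - (1 + B / (2 * v)) / ((v + B + A) / A)) - 1 / (v + A) =
        A * B * (v - A) / (2 * v ^ 2 * (v + A) * (v + B + A)) := by
      field_simp
      ring
    have : 0 ≤ A * B * (v - A) / (2 * v ^ 2 * (v + A) * (v + B + A)) := by
      have : 0 ≤ v - A := by linarith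
      positivity
    linarith

/-- Erasure hypercontractivity on a slice, uniformly in the level. -/
theorem hcU (G : Finset V) (c N1 : ℕ) (E : Finset (Finset V)) (hE : E ⊆ powersetCard c G)
    {a θ : ℝ} (ha : 0 < a) (h1 : 2 * a * #G ≤ c) (h2 : (c : ℝ) ≤ (1 - 2 * a) * #G)
    (hθ0 : 0 < θ) (hθ : θ * bt a ≤ 1) (h7 : 7 ≤ N1) (hN1 : N1 ≤ #G)
    (hN : 336 * log (2 * √(#G)) ≤ θ * a * N1) :
    Av G (#G - N1) (pw E G c (1 + θ)) ≤
      2 * (wp ((#G).choose c) #E (1 + tt a θ * (N1 / #G)) +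
        #G * (zeta #G 1 (a * N1 / 6) * (#G).choose c)) := by
  have r19 : (7 : ℝ) ≤ N1 := by exact_mod_cast h7
  have rN1 : (N1 : ℝ) ≤ #G := by exact_mod_cast hN1
  have ha4 : a ≤ 1 / 4 := by
    by_contra hc
    have h3 : (1 / 4 : ℝ) * #G < a * #G := mul_lt_mul_of_pos_right (not_le.1 hc) (by linarith)
    linarith
  have hb30 := bt_ge ha (by linarith)
  have hb0 : 0 < bt a := by linarith
  obtain ⟨-, -, htt, h30⟩ := tt_bounds ha (by linarith) hθ0 hθ
  obtain ⟨C2, hC2⟩ : ∃ C2 : ℝ, C2 = 8 * θ := ⟨_, rfl⟩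
  have hC0 : 0 ≤ C2 := by rw [hC2]; positivity
  obtain ⟨Z, hZ⟩ : ∃ Z : ℝ, Z = zeta #G 1 (a * N1 / 6) * (#G).choose c := ⟨_, rfl⟩
  have hZ0 : 0 ≤ Z := by rw [hZ]; unfold zeta; positivity
  rw [← hZ]
  have hpw : ∀ (r : ℕ) (p : ℝ), 0 ≤ Av G r (pw E G c p) := fun r p =>
    Av_nonneg G r fun S _ _ x _ => wp_nonneg _ _ _
  have main : ∀ N : ℕ, N1 ≤ N → N ≤ #G → Av G (#G - N1) (pw E G c (1 + θ)) ≤
      exp (C2 * (1 - N1 / N)) *
        (Av G (#G - N) (pw E G c (1 + fb3t (bt a) θ N1 N)) + ((N : ℝ) - N1) * Z) := by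
    intro N hN'
    induction N, hN' using Nat.le_induction with
    | base =>
      intro _
      rw [fb3_self r19, div_self (by linarith), sub_self, sub_self, mul_zero, exp_zero]
      linarith
    | succ N hN' ih =>
      intro hle
      have rN : (N1 : ℝ) ≤ N := by exact_mod_cast hN'
      have rle : (N : ℝ) + 1 ≤ #G := by exact_mod_cast hle
      have N0 : (0 : ℝ) < N := by linarith
      obtain ⟨t0, t1, t2, t3⟩ := fb3_num hb0 hθ0 hθ r19 rN
      have t0' := (fb3_num hb0 hθ0 hθ r19 (by linarith : (N1 : ℝ) ≤ N + 1)).1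
      have er : (#G : ℝ) - ((#G - (N + 1) : ℕ) : ℝ) = N + 1 := by
        rw [Nat.cast_sub hle]; push_cast; ring
      have q1 : (N1 : ℝ) / N ≤ 1 := by rw [div_le_one N0]; exact rN
      have t4 : fb3t (bt a) θ N1 N * bt a ≤ 1 := (mul_le_mul_of_nonneg_right
        (t2.trans (mul_le_of_le_one_right hθ0.le q1)) hb0.le).trans hθ
      have t5 : θ / 7 * (N1 / N) ≤ fb3t (bt a) θ N1 N := by
        refine le_trans (mul_le_mul_of_nonneg_right ?_ (by positivity)) t1
        refine div_le_div_of_nonneg_left hθ0.le (by positivity) ?_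
        linarith
      have t6 : 48 * log (2 * √((N : ℝ) + 1)) ≤ fb3t (bt a) θ N1 N * a * (N + 1) := by
        have l1 : log (2 * √((N : ℝ) + 1)) ≤ log (2 * √(#G)) :=
          log_le_log (by positivity)
            (mul_le_mul_of_nonneg_left (sqrt_le_sqrt rle) (by norm_num))
        have l2 : θ / 7 * (N1 / N) * a * N ≤ fb3t (bt a) θ N1 N * a * (N + 1) :=
          mul_le_mul (mul_le_mul_of_nonneg_right t5 ha.le) (by linarith) N0.le (by positivity)
        have l3 : θ / 7 * (N1 / N) * a * N = θ * a * N1 / 7 := by field_simp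
        linarith
      have hl := hc_levelU G c (#G - (N + 1)) E hE (θ := fb3t (bt a) θ N1 N)
        (τ := fb3t (bt a) θ N1 (N + 1)) ha h1 h2 (by omega) t0 t4 (by rw [er]; exact t6) t0'.le
        (by rw [er]; exact t3)
      rw [er, show #G - (N + 1) + 1 = #G - N by omega] at hl
      have hz : zeta #G 1 (a * ((N : ℝ) + 1) / 6) * (#G).choose c ≤ Z := by
        rw [hZ]
        exact mul_le_mul_of_nonneg_right (zeta_mono le_rfl 1 (by nlinarith)) (by positivity)
      have hE1 : exp (8 * fb3t (bt a) θ N1 N / (N + 1)) ≤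
          exp (C2 * (N1 / (N * (N + 1)))) := by
        refine exp_le_exp.2 ?_
        have l1 : 8 * fb3t (bt a) θ N1 N ≤ 8 * (θ * (N1 / N)) :=
          mul_le_mul_of_nonneg_left t2 (by positivity)
        have l2 : C2 * (N1 / (N * (N + 1))) = 8 * (θ * (N1 / N)) / (N + 1) := by
          rw [hC2]; field_simp
        rw [l2]
        exact div_le_div_of_nonneg_right l1 (by positivity)
      have hE2 : 1 ≤ exp (C2 * (N1 / (N * (N + 1)))) := one_le_exp (by positivity)
      have hF : exp (C2 * (1 - N1 / ((N : ℝ) + 1))) =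
          exp (C2 * (1 - N1 / N)) * exp (C2 * (N1 / (N * (N + 1)))) := by
        rw [← exp_add]; congr 1; field_simp; ring
      refine (ih (by omega)).trans ?_
      push_cast
      rw [hF, mul_assoc]
      refine mul_le_mul_of_nonneg_left ?_ (exp_pos _).le
      have hX := hpw (#G - (N + 1)) (1 + fb3t (bt a) θ N1 (N + 1))
      generalize Av G (#G - (N + 1)) (pw E G c (1 + fb3t (bt a) θ N1 (N + 1))) = X at hl hX ⊢
      generalize exp (C2 * (N1 / (N * (N + 1)))) = e at hE1 hE2 ⊢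
      have m1 := mul_le_mul_of_nonneg_right hE1 hX
      have m2 : 0 ≤ ((N : ℝ) + 1 - N1) * Z := mul_nonneg (by linarith) hZ0
      have m3 := le_mul_of_one_le_left m2 hE2
      rw [mul_add]
      linarith
  refine (main #G hN1 le_rfl).trans ?_
  obtain ⟨t0, t1, -, -⟩ := fb3_num hb0 hθ0 hθ r19 rN1
  have G0 : (0 : ℝ) < #G := by linarith
  refine mul_le_mul ?_ (add_le_add ?_ ?_)
    (add_nonneg (hpw _ _) (mul_nonneg (by linarith) hZ0)) (by norm_num)
  · have : (0 : ℝ) ≤ N1 / #G := by positivity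
    have h3 : C2 * (1 - N1 / #G) ≤ log 2 :=
      (mul_le_of_le_one_right hC0 (by linarith)).trans (by have := log_two_gt_d9; linarith)
    exact (exp_le_exp.2 h3).trans_eq (exp_log two_pos)
  · rw [Nat.sub_self, Av_zero]
    have e : pw E G c (1 + fb3t (bt a) θ N1 #G) ∅ ∅ =
        wp ((#G).choose c) #E (1 + fb3t (bt a) θ N1 #G) := by
      simp only [pw, tot, cnt_empty, card_empty, Nat.sub_zero]
    rw [e]
    refine wp_anti ?_ (by positivity) (by unfold tt; linarith)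
    rw [← card_powersetCard]
    exact card_le_card hE
  · exact mul_le_mul_of_nonneg_right (by linarith) hZ0

end Pool.Agent.P.MP_4f3dfd_co.Ex
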