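import Mathlib
import Pool.Agent.P.MP_4f3dfd_co.FDefs
import Pool.Agent.P.MP_4f3dfd_co.EF1

set_option autoImplicit false
set_option linter.unusedSectionVars false
set_option linter.unusedVariables false

namespace Pool.Agent.P.MP_4f3dfd_co.Ex

open Finset Real

variable {V : Type*} [DecidableEq V]

theorem pair_degU {G : Finset V} {c : ℕ} {J D : Finset (Finset V)} (h : Pair G c J D) :
    ∃ R : V → ℝ, (∀ i ∈ G, 0 ≤ R i ∧ R i ≤ exc G J D ∧
      (#G : ℝ) * deg J i - c * #J = R i - ((#G : ℝ) - c + 1) * #(blk J D i)) ∧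
      ∑ i ∈ G, R i = ((#G : ℝ) - c + 1) * exc G J D := by
  refine ⟨fun i => (#G : ℝ) * deg J i - c * #J + ((#G : ℝ) - c + 1) * #(blk J D i),
    fun i hi => ?_, ?_⟩
  · obtain ⟨R, h1, h2, h3⟩ := pair_deg h hi
    refine ⟨by linarith, by linarith, by ring⟩
  · have e := ef1_sum h.hJ
    rw [sum_add_distrib, sum_sub_distrib, sum_const, nsmul_eq_mul, ← mul_sum, ← mul_sum]
    unfold deg exc
    push_cast
    rw [e]
    ring

end Pool.Agent.P.MP_4f3dfd_co.Ex
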