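import Mathlib
import Pool.Agent.P.MP_4f3dfd_co.FDefs
import Pool.Agent.P.MP_4f3dfd_co.EA1
import Pool.Agent.P.MP_4f3dfd_co.ED3
import Pool.Agent.P.MP_4f3dfd_co.EG1
import Pool.Agent.P.MP_4f3dfd_co.FC0

set_option autoImplicit false
set_option linter.unusedSectionVars false
set_option linter.unusedVariables false

namespace Pool.Agent.P.MP_4f3dfd_co.Ex

open Finset Real

variable {V : Type*} [DecidableEq V]

theorem fc1_deg1 {H : Finset V} {j : ℕ} {A : Finset (Finset V)} (h : A ⊆ powersetCard j H)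
    {i : V} (hi : i ∈ H) : deg A i ≤ (#H - 1).choose (j - 1) := by
  rw [← card_erase_of_mem hi, ← card_powersetCard]
  refine card_le_card_of_injOn (fun X => X.erase i) (fun X hX => ?_) (fun X hX Y hY e => ?_)
  · obtain ⟨h1, h2⟩ := mem_filter.1 (mem_coe.1 hX)
    obtain ⟨h3, h4⟩ := mem_powersetCard.1 (h h1)
    exact mem_coe.2 (mem_powersetCard.2 ⟨erase_subset_erase _ h3, by
      rw [card_erase_of_mem h2, h4]⟩)
  · have h1 := (mem_filter.1 (mem_coe.1 hX)).2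
    have h2 := (mem_filter.1 (mem_coe.1 hY)).2
    have e' : X.erase i = Y.erase i := e
    rw [← insert_erase h1, ← insert_erase h2, e']

theorem fc1_deg0 {H : Finset V} {j : ℕ} {A : Finset (Finset V)} (h : A ⊆ powersetCard j H)
    {i : V} (hi : i ∈ H) : #A - deg A i ≤ (#H - 1).choose j := by
  have e := card_filter_add_card_filter_not (s := A) (fun X => i ∈ X)
  have h1 : #{X ∈ A | ¬ i ∈ X} ≤ (#H - 1).choose j := by
    rw [← card_erase_of_mem hi, ← card_powersetCard]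
    refine card_le_card fun X hX => ?_
    obtain ⟨h1, h2⟩ := mem_filter.1 hX
    obtain ⟨h3, h4⟩ := mem_powersetCard.1 (h h1)
    exact mem_powersetCard.2 ⟨subset_erase.2 ⟨h3, h2⟩, h4⟩
  unfold deg
  omega

theorem fc1_scale {κ v h θ θ' : ℝ} (hv : 0 < v) (hκ : 1 ≤ κ * v ^ θ) (hh : |h| ≤ 1)
    (hθ0 : 0 < θ) (hθ : θ ≤ θ') : v * |h| ^ (1 + θ') ≤ κ * |v * h| ^ (1 + θ) := by
  have h3 : |h| ^ (1 + θ') ≤ |h| ^ (1 + θ) :=
    Real.rpow_le_rpow_of_exponent_ge' (abs_nonneg _) hh (by linarith) (by linarith)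
  have h4 : 0 ≤ |h| ^ (1 + θ) := Real.rpow_nonneg (abs_nonneg _) _
  rw [abs_mul, abs_of_pos hv, Real.mul_rpow hv.le (abs_nonneg _), ea1_pow hv.le hθ0]
  have h5 : 0 ≤ v * |h| ^ (1 + θ) := mul_nonneg hv.le h4
  calc v * |h| ^ (1 + θ') ≤ 1 * (v * |h| ^ (1 + θ)) := by
        rw [one_mul]
        exact mul_le_mul_of_nonneg_left h3 hv.le
    _ ≤ κ * v ^ θ * (v * |h| ^ (1 + θ)) := mul_le_mul_of_nonneg_right hκ h5
    _ = _ := by ring

theorem fc1_three {a v θ : ℝ} (ha : 0 < a) (h1 : a ≤ v) (hθ0 : 0 < θ)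
    (hθa : θ * log (1 / a) ≤ 1) : 1 ≤ 3 * v ^ θ := by
  have h2 : a ^ θ ≤ v ^ θ := rpow_le_rpow ha.le h1 hθ0.le
  have h3 : exp (-1) ≤ a ^ θ := by
    rw [rpow_def_of_pos ha, exp_le_exp]
    rw [one_div, log_inv] at hθa
    linarith
  have h4 : 1 ≤ 3 * exp (-1) := by
    have h5 := exp_one_lt_d9
    have h6 : exp 1 * exp (-1) = 1 := by rw [← exp_add]; simp
    have h7 := exp_pos (-1)
    nlinarith
  linarith

theorem fc1_half {v θ : ℝ} (h1 : 1 / 2 ≤ v) (h2 : v ≤ 1) (hθ1 : θ ≤ 1) : 1 ≤ 2 * v ^ θ := by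
  have h3 : v ≤ v ^ θ := by
    simpa using Real.rpow_le_rpow_of_exponent_ge (by linarith : 0 < v) h2 hθ1
  linarith

theorem fc1_two {a u θ θ' M1 M0 : ℝ} (ha : 0 < a) (h1 : a ≤ u) (h2 : u ≤ 1 - a) (hθ0 : 0 < θ)
    (hθ : θ ≤ θ') (hθ' : θ' ≤ 1) (hθa : θ * log (1 / a) ≤ 1) (hM1 : 0 ≤ M1) (hM0 : 0 ≤ M0)
    (hM1' : M1 ≤ 1) (hM0' : M0 ≤ 1) :
    u * M1 ^ (1 + θ') + (1 - u) * M0 ^ (1 + θ') ≤
      (u * M1 + (1 - u) * M0) ^ (1 + θ') +
        10 * |u * (M1 - (u * M1 + (1 - u) * M0))| ^ (1 + θ) := by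
  have hu0 : 0 < u := by linarith
  have hu1 : 0 < 1 - u := by linarith
  obtain ⟨M, hM⟩ : ∃ M, M = u * M1 + (1 - u) * M0 := ⟨_, rfl⟩
  rw [← hM]
  have hMn : 0 ≤ M := by rw [hM]; positivity
  have hM' : M ≤ 1 := by
    have a1 := mul_le_mul_of_nonneg_left hM1' hu0.le
    have a0 := mul_le_mul_of_nonneg_left hM0' hu1.le
    linarith
  have e1 := vbe (x := M) (h := M1 - M) hMn (by linarith) (hθ0.trans_le hθ) hθ'
  have e0 := vbe (x := M) (h := M0 - M) hMn (by linarith) (hθ0.trans_le hθ) hθ'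
  rw [add_sub_cancel] at e1 e0
  have b1 : |M1 - M| ≤ 1 := abs_le.2 ⟨by linarith, by linarith⟩
  have b0 : |M0 - M| ≤ 1 := abs_le.2 ⟨by linarith, by linarith⟩
  have hy : (1 - u) * (M0 - M) = -(u * (M1 - M)) := by linarith
  have s : u * |M1 - M| ^ (1 + θ') + (1 - u) * |M0 - M| ^ (1 + θ') ≤
      5 * |u * (M1 - M)| ^ (1 + θ) := by
    rcases le_total (1 / 2) u with hc | hc
    · have s1 := fc1_scale hu0 (fc1_half hc (by linarith) (hθ.trans hθ')) b1 hθ0 hθ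
      have s0 := fc1_scale hu1 (fc1_three ha (by linarith) hθ0 hθa) b0 hθ0 hθ
      rw [hy, abs_neg] at s0
      linarith
    · have s1 := fc1_scale hu0 (fc1_three ha h1 hθ0 hθa) b1 hθ0 hθ
      have s0 := fc1_scale hu1 (fc1_half (by linarith) (by linarith) (hθ.trans hθ')) b0 hθ0 hθ
      rw [hy, abs_neg] at s0
      linarith
  have f1 := mul_le_mul_of_nonneg_left e1 hu0.le
  have f0 := mul_le_mul_of_nonneg_left e0 hu1.le
  have hz : u * ((1 + θ') * M ^ θ' * (M1 - M)) + (1 - u) * ((1 + θ') * M ^ θ' * (M0 - M)) = 0 := by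
    have : u * ((1 + θ') * M ^ θ' * (M1 - M)) + (1 - u) * ((1 + θ') * M ^ θ' * (M0 - M))
        = (1 + θ') * M ^ θ' * (u * (M1 - M) + (1 - u) * (M0 - M)) := by ring
    rw [this, hy]
    ring
  linarith

theorem fc1_term {a θ θ' N j C d m R B b : ℝ} (ha : 0 < a) (hN : 0 < N) (h1 : a * N ≤ j)
    (h2 : j ≤ (1 - a) * N) (hj1 : 1 ≤ j) (hθ0 : 0 < θ) (hθ : θ ≤ θ') (hθ' : θ' ≤ 1)
    (hθa : θ * log (1 / a) ≤ 1) (hC : 0 < C) (hd : 0 ≤ d) (hdm : d ≤ m)
    (hd1 : d ≤ j / N * C) (hd0 : m - d ≤ (1 - j / N) * C) (hR : 0 ≤ R) (hRB : R ≤ B)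
    (hb : 0 ≤ b) (he : N * d - j * m = R - (N - j + 1) * b) :
    j / N * C * (d / (j / N * C)) ^ (1 + θ') +
        (1 - j / N) * C * ((m - d) / ((1 - j / N) * C)) ^ (1 + θ') ≤
      C * (m / C) ^ (1 + θ') + 10 * ((N - j + 1) / N * (C * (b / C) ^ (1 + θ)) +
        R * ((B / C / N) ^ θ / N)) := by
  have hu1 : a ≤ j / N := by rw [le_div_iff₀ hN]; exact h1
  have hu2 : j / N ≤ 1 - a := by rw [div_le_iff₀ hN]; exact h2
  have hu0 : 0 < j / N := ha.trans_le hu1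
  have hu3 : 0 < 1 - j / N := by linarith
  have hj0 : 0 < j := by linarith
  have hjN : j < N := by nlinarith
  have hNj : N - j ≠ 0 := by linarith
  have hM1 : 0 ≤ d / (j / N * C) := div_nonneg hd (mul_pos hu0 hC).le
  have hM0 : 0 ≤ (m - d) / ((1 - j / N) * C) := div_nonneg (by linarith) (mul_pos hu3 hC).le
  have h := fc1_two ha hu1 hu2 hθ0 hθ hθ' hθa hM1 hM0 ((div_le_one (mul_pos hu0 hC)).2 hd1)
    ((div_le_one (mul_pos hu3 hC)).2 hd0)
  have e1 : j / N * (d / (j / N * C)) = d / C := by field_simp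
  have e0 : (1 - j / N) * ((m - d) / ((1 - j / N) * C)) = (m - d) / C := by
    have := hu3.ne'
    field_simp
  have e2 : d / C + (m - d) / C = m / C := by ring
  rw [e1, e0, e2, mul_sub, e1] at h
  have e3 : d / C - j / N * (m / C) = (R - (N - j + 1) * b) / (N * C) := by
    rw [← he]; field_simp
  have hNC : 0 < N * C := mul_pos hN hC
  have hs0 : 0 < (N - j + 1) / N := div_pos (by linarith) hN
  have hs1 : (N - j + 1) / N ≤ 1 := (div_le_one hN).2 (by linarith)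
  have hbC : 0 ≤ b / C := div_nonneg hb hC.le
  have hRC : 0 ≤ R / C / N := div_nonneg (div_nonneg hR hC.le) hN.le
  have h3 : |d / C - j / N * (m / C)| ^ (1 + θ) ≤
      ((N - j + 1) / N * (b / C)) ^ (1 + θ) + (R / C / N) ^ (1 + θ) := by
    refine eg1_abs (mul_nonneg hs0.le hbC) hRC ?_ ?_ (by linarith)
    · rw [e3, div_div, mul_comm C N]
      refine div_le_div_of_nonneg_right ?_ hNC.le
      have : 0 ≤ (N - j + 1) * b := mul_nonneg (by linarith) hb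
      linarith
    · rw [e3, le_div_iff₀ hNC]
      have e4 : -((N - j + 1) / N * (b / C)) * (N * C) = -((N - j + 1) * b) := by field_simp
      rw [e4]
      linarith
  have h4 : ((N - j + 1) / N * (b / C)) ^ (1 + θ) ≤ (N - j + 1) / N * (b / C) ^ (1 + θ) := by
    rw [mul_rpow hs0.le hbC]
    refine mul_le_mul_of_nonneg_right ?_ (rpow_nonneg hbC _)
    simpa using Real.rpow_le_rpow_of_exponent_ge hs0 hs1 (by linarith : (1 : ℝ) ≤ 1 + θ)
  have h5 : (R / C / N) ^ (1 + θ) ≤ R / C / N * (B / C / N) ^ θ := by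
    rw [ea1_pow hRC hθ0]
    refine mul_le_mul_of_nonneg_left (rpow_le_rpow hRC ?_ hθ0.le) hRC
    exact div_le_div_of_nonneg_right (div_le_div_of_nonneg_right hRB hC.le) hN.le
  have h6 : j / N * (d / (j / N * C)) ^ (1 + θ') +
      (1 - j / N) * ((m - d) / ((1 - j / N) * C)) ^ (1 + θ') ≤ (m / C) ^ (1 + θ') +
      10 * ((N - j + 1) / N * (b / C) ^ (1 + θ) + R / C / N * (B / C / N) ^ θ) := by linarith
  calc _ = C * (j / N * (d / (j / N * C)) ^ (1 + θ') +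
        (1 - j / N) * ((m - d) / ((1 - j / N) * C)) ^ (1 + θ')) := by ring
    _ ≤ _ := mul_le_mul_of_nonneg_left h6 hC.le
    _ = _ := by field_simp

/-- One step of the density martingale, gain `1 - j / N`. -/
theorem mart_stepG {H : Finset V} {j : ℕ} {A D : Finset (Finset V)} (h : Pair H j A D)
    {a θ θ' : ℝ} (ha : 0 < a) (hH : 0 < #H) (h1 : a * #H ≤ j) (h2 : (j : ℝ) ≤ (1 - a) * #H)
    (hθ0 : 0 < θ) (hθ : θ ≤ θ') (hθ' : θ' ≤ 1) (hθa : θ * log (1 / a) ≤ 1) :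
    ∑ i ∈ H, (wp ((#H - 1).choose (j - 1)) (deg A i) (1 + θ') +
        wp ((#H - 1).choose j) (#A - deg A i) (1 + θ')) ≤
      #H * wp ((#H).choose j) #A (1 + θ') +
        40 * (1 - (j : ℝ) / #H) *
          ∑ k ∈ H, wp ((#H - 1).choose (j - 1)) #(blk A D k) (1 + θ) := by
  have hN : (0 : ℝ) < #H := by exact_mod_cast hH
  have hj1 : 1 ≤ j := h.pos
  have hj1' : (1 : ℝ) ≤ j := by exact_mod_cast hj1
  have hjN' : (j : ℝ) < #H := by nlinarith
  have hjN : j < #H := by exact_mod_cast hjN'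
  have hjN1 : (j : ℝ) + 1 ≤ #H := by exact_mod_cast hjN
  have hC : (0 : ℝ) < (#H).choose j := by exact_mod_cast Nat.choose_pos hjN.le
  have hC1 : (((#H - 1).choose (j - 1) : ℕ) : ℝ) = j / #H * (#H).choose j := by
    have := choose_pred_pred (n := #H) (c := j) hH hj1
    field_simp
    linarith
  have hpas : (#H).choose j = (#H - 1).choose (j - 1) + (#H - 1).choose j := by
    obtain ⟨n, hn⟩ : ∃ n, #H = n + 1 := ⟨#H - 1, by omega⟩
    obtain ⟨k, rfl⟩ : ∃ k, j = k + 1 := ⟨j - 1, by omega⟩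
    rw [hn, Nat.add_sub_cancel, Nat.add_sub_cancel, Nat.choose_succ_succ']
  have hC0 : (((#H - 1).choose j : ℕ) : ℝ) = (1 - j / #H) * (#H).choose j := by
    have : (((#H).choose j : ℕ) : ℝ) = (#H - 1).choose (j - 1) + (#H - 1).choose j := by
      exact_mod_cast hpas
    rw [sub_mul, ← hC1]
    linarith
  have hC1pos : (0 : ℝ) < (#H - 1).choose (j - 1) := by
    rw [hC1]; positivity
  have hC1le : (((#H - 1).choose (j - 1) : ℕ) : ℝ) ≤ (#H).choose j := by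
    exact_mod_cast (by omega : (#H - 1).choose (j - 1) ≤ (#H).choose j)
  set C : ℝ := (((#H).choose j : ℕ) : ℝ) with hCdef
  obtain ⟨R, hR, hsum⟩ := pair_degU h
  have hterm : ∀ i ∈ H, wp ((#H - 1).choose (j - 1)) (deg A i) (1 + θ') +
      wp ((#H - 1).choose j) (#A - deg A i) (1 + θ') ≤
      C * (#A / C) ^ (1 + θ') + 10 * (((#H : ℝ) - j + 1) / #H * (C * (#(blk A D i) / C) ^ (1 + θ)) +
        R i * ((exc H A D / C / #H) ^ θ / #H)) := by
    intro i hi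
    obtain ⟨hR0, hRB, he⟩ := hR i hi
    have hd : deg A i ≤ #A := card_filter_le _ _
    have d1 : ((deg A i : ℕ) : ℝ) ≤ ((#H - 1).choose (j - 1) : ℕ) := by
      exact_mod_cast fc1_deg1 h.hJ hi
    have d0 : ((#A - deg A i : ℕ) : ℝ) ≤ ((#H - 1).choose j : ℕ) := by
      exact_mod_cast fc1_deg0 h.hJ hi
    unfold wp
    rw [hC1] at d1
    rw [hC0, Nat.cast_sub hd] at d0
    rw [hC1, hC0, Nat.cast_sub hd]
    exact fc1_term ha hN h1 h2 hj1' hθ0 hθ hθ' hθa hC (Nat.cast_nonneg _) (by exact_mod_cast hd)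
      d1 d0 hR0 hRB (Nat.cast_nonneg _) he
  have hJ : (#H : ℝ) * (exc H A D / C / #H) ^ (1 + θ) ≤
      ∑ k ∈ H, (#(blk A D k) / C) ^ (1 + θ) := by
    have := eg1_jensen H hH (fun k => (#(blk A D k) : ℝ) / C)
      (fun k => div_nonneg (Nat.cast_nonneg _) hC.le) (p := 1 + θ) (by linarith)
    rw [← sum_div] at this
    unfold exc
    push_cast
    exact this
  have hW : ∑ k ∈ H, C * (#(blk A D k) / C) ^ (1 + θ) ≤
      ∑ k ∈ H, wp ((#H - 1).choose (j - 1)) #(blk A D k) (1 + θ) :=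
    sum_le_sum fun k _ => eg1_wp_anti hC1pos hC1le (Nat.cast_nonneg _) hθ0
  refine (sum_le_sum hterm).trans ?_
  rw [sum_add_distrib, sum_const, nsmul_eq_mul, ← mul_sum, sum_add_distrib, ← mul_sum, ← sum_mul,
    hsum]
  have hJ' := mul_le_mul_of_nonneg_left hJ hC.le
  rw [mul_sum] at hJ'
  have hB0 : (0 : ℝ) ≤ exc H A D / C / #H :=
    div_nonneg (div_nonneg (Nat.cast_nonneg _) hC.le) hN.le
  have e1 : ((#H : ℝ) - j + 1) * exc H A D * ((exc H A D / C / #H) ^ θ / #H) =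
      ((#H : ℝ) - j + 1) / #H * (C * (#H * (exc H A D / C / #H) ^ (1 + θ))) := by
    rw [ea1_pow hB0 hθ0]
    field_simp
  have e9 : wp ((#H).choose j) #A (1 + θ') = C * (#A / C) ^ (1 + θ') := rfl
  rw [e1, e9]
  have hs0 : (0 : ℝ) ≤ ((#H : ℝ) - j + 1) / #H := div_nonneg (by linarith) hN.le
  have hs1 : ((#H : ℝ) - j + 1) / #H ≤ 2 * (1 - j / #H) := by
    rw [div_le_iff₀ hN]
    have : 2 * (1 - (j : ℝ) / #H) * #H = 2 * (#H - j) := by field_simp
    rw [this]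
    linarith
  have hW0 : 0 ≤ ∑ k ∈ H, wp ((#H - 1).choose (j - 1)) #(blk A D k) (1 + θ) :=
    sum_nonneg fun k _ => by unfold wp; positivity
  have g1 := mul_le_mul_of_nonneg_left hW hs0
  have g2 := mul_le_mul_of_nonneg_left (hJ'.trans hW) hs0
  have g3 := mul_le_mul_of_nonneg_right hs1 hW0
  linarith

end Pool.Agent.P.MP_4f3dfd_co.Ex
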