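import Mathlib
import Pool.Agent.P.MP_4f3dfd_co.FDefs
import Pool.Agent.P.MP_4f3dfd_co.EA1
import Pool.Agent.P.MP_4f3dfd_co.ED3
import Pool.Agent.P.MP_4f3dfd_co.EG1
import Pool.Agent.P.MP_4f3dfd_co.FC0

set_option autoImplicit false
set_option linter.unusedSectionVars false
set_option linter.unusedVariables false

namespace Pool.Agent.P.MP_4f3dfd_co.Ex

open Finset Real

variable {V : Type*} [DecidableEq V]

theorem fc2_pt {x h θ : ℝ} (hx : 0 < x) (hh : 0 ≤ x + h) (hθ0 : 0 < θ) (hθ : θ ≤ 1) :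
    (x + h) ^ (1 + θ) ≤ x ^ (1 + θ) + (1 + θ) * x ^ θ * h + θ * (h ^ 2 * x ^ (θ - 1)) := by
  have hz : -1 ≤ h / x := by
    rw [le_div_iff₀ hx]
    linarith
  have h1 := rpow_one_add_le_one_add_mul_self hz hθ0.le hθ
  have e1 : (x + h) ^ θ = x ^ θ * (1 + h / x) ^ θ := by
    rw [← mul_rpow hx.le (by linarith)]
    congr 1
    field_simp
  have h2 := mul_le_mul_of_nonneg_left h1 (mul_nonneg hh (rpow_nonneg hx.le θ))
  rw [rpow_one_add' hh (by linarith), rpow_one_add' hx.le (by linarith), rpow_sub_one hx.ne', e1,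
    ← mul_assoc]
  refine h2.trans (le_of_eq ?_)
  field_simp
  ring

theorem fc2_term {u C d m θ : ℝ} (hu0 : 0 < u) (hu : 4 * u ≤ 3) (hC : 0 < C) (hd : 0 ≤ d)
    (hdm : d ≤ m) (hm : 0 < m) (hθ0 : 0 < θ) (hθ : θ ≤ 1) :
    u * C * (d / (u * C)) ^ (1 + θ) + (1 - u) * C * ((m - d) / ((1 - u) * C)) ^ (1 + θ) ≤
      C * (m / C) ^ (1 + θ) +
        4 * θ * (u * C) * ((d / (u * C) - m / C) ^ 2 * (m / C) ^ (θ - 1)) := by
  have hv : 0 < 1 - u := by linarith
  have hM : 0 < m / C := div_pos hm hC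
  obtain ⟨h, hh⟩ : ∃ h, h = d / (u * C) - m / C := ⟨_, rfl⟩
  have e1 : d / (u * C) = m / C + h := by rw [hh]; ring
  have e0 : (m - d) / ((1 - u) * C) = m / C + -(u / (1 - u) * h) := by
    rw [hh]
    field_simp
    ring
  have a1 := fc2_pt hM (h := h) (by rw [← e1]; positivity) hθ0 hθ
  have a0 := fc2_pt hM (h := -(u / (1 - u) * h))
    (by rw [← e0]; exact div_nonneg (by linarith) (by positivity)) hθ0 hθ
  rw [← hh, e1, e0]
  have b1 := mul_le_mul_of_nonneg_left a1 (mul_pos hu0 hC).le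
  have b0 := mul_le_mul_of_nonneg_left a0 (mul_pos hv hC).le
  have r3 : u / (1 - u) ≤ 3 := by
    rw [div_le_iff₀ hv]
    linarith
  have b2 := mul_le_mul_of_nonneg_right r3
    (by positivity : 0 ≤ θ * (u * C) * (h ^ 2 * (m / C) ^ (θ - 1)))
  have e2 : (1 - u) * C * ((m / C) ^ (1 + θ) + (1 + θ) * (m / C) ^ θ * -(u / (1 - u) * h) +
      θ * ((-(u / (1 - u) * h)) ^ 2 * (m / C) ^ (θ - 1))) =
      (1 - u) * C * (m / C) ^ (1 + θ) - u * C * ((1 + θ) * (m / C) ^ θ * h) +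
        u / (1 - u) * (θ * (u * C) * (h ^ 2 * (m / C) ^ (θ - 1))) := by
    field_simp
    ring
  rw [e2] at b0
  linarith

theorem fc2_sum (H : Finset V) (hH : 0 < #H) (h β : V → ℝ) {M θ : ℝ} (hM : 0 < M) (hθ0 : 0 < θ)
    (hθ : θ ≤ 1) (hβ : ∀ i, 0 ≤ β i) (h0 : ∑ i ∈ H, h i = 0) (h1 : ∀ i ∈ H, -M ≤ h i)
    (h2 : ∀ i ∈ H, -β i ≤ h i) (h3 : ∀ i ∈ H, h i ≤ (∑ k ∈ H, β k) / #H) :
    ∑ i ∈ H, h i ^ 2 * M ^ (θ - 1) ≤ 2 * ∑ i ∈ H, β i ^ (1 + θ) := by
  have hN : (0 : ℝ) < #H := by exact_mod_cast hH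
  have hJ := eg1_jensen H hH β hβ (p := 1 + θ) (by linarith)
  obtain ⟨t, ht⟩ : ∃ t, t = (∑ k ∈ H, β k) / #H := ⟨_, rfl⟩
  have t0 : 0 ≤ t := by
    rw [ht]
    exact div_nonneg (sum_nonneg fun k _ => hβ k) hN.le
  rw [← ht] at hJ h3
  have hP : 0 ≤ M ^ (θ - 1) := rpow_nonneg hM.le _
  have a1 : ∀ i ∈ H, h i ^ 2 * M ^ (θ - 1) ≤
      β i ^ (1 + θ) + t * M ^ (θ - 1) * (h i + max (-h i) 0) := by
    intro i hi
    have p1 : 0 ≤ β i ^ (1 + θ) := rpow_nonneg (hβ i) _
    rcases lt_or_ge (h i) 0 with k | k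
    · rw [max_eq_left (by linarith), add_neg_cancel, mul_zero, add_zero]
      have k' : 0 < -h i := by linarith
      have c1 : M ^ (θ - 1) ≤ (-h i) ^ (θ - 1) :=
        rpow_le_rpow_of_nonpos k' (by linarith [h1 i hi]) (by linarith)
      have c2 : h i ^ 2 * (-h i) ^ (θ - 1) = (-h i) ^ (1 + θ) := by
        rw [rpow_one_add' k'.le (by linarith), rpow_sub_one k'.ne']
        field_simp
      refine (mul_le_mul_of_nonneg_left c1 (sq_nonneg _)).trans (c2.trans_le ?_)
      exact rpow_le_rpow k'.le (by linarith [h2 i hi]) (by linarith)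
    · rw [max_eq_right (by linarith), add_zero]
      have := mul_le_mul_of_nonneg_right (h3 i hi) (mul_nonneg k hP)
      nlinarith
  have a2 : ∑ i ∈ H, max (-h i) 0 ≤ #H * M := by
    rw [← nsmul_eq_mul]
    exact sum_le_card_nsmul _ _ _ fun i hi => max_le (by linarith [h1 i hi]) hM.le
  have a3 : ∑ i ∈ H, max (-h i) 0 ≤ #H * t := by
    rw [ht, mul_div_cancel₀ _ hN.ne']
    exact sum_le_sum fun i hi => max_le (by linarith [h2 i hi]) (hβ i)
  have a4 : M ^ (θ - 1) * ∑ i ∈ H, max (-h i) 0 ≤ #H * t ^ θ := by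
    rcases le_total M t with k | k
    · refine (mul_le_mul_of_nonneg_left a2 hP).trans ?_
      have c1 : M ^ (θ - 1) * (#H * M) = #H * M ^ θ := by
        rw [rpow_sub_one hM.ne']
        field_simp
      rw [c1]
      exact mul_le_mul_of_nonneg_left (rpow_le_rpow hM.le k hθ0.le) hN.le
    · refine (mul_le_mul_of_nonneg_left a3 hP).trans ?_
      rcases t0.eq_or_lt with z | z
      · rw [← z, mul_zero, mul_zero]
        positivity
      · have c1 : t ^ (θ - 1) * (#H * t) = #H * t ^ θ := by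
          rw [rpow_sub_one z.ne']
          field_simp
        rw [← c1]
        exact mul_le_mul_of_nonneg_right (rpow_le_rpow_of_nonpos z k (by linarith))
          (by positivity)
  refine (sum_le_sum a1).trans ?_
  rw [sum_add_distrib, ← mul_sum, sum_add_distrib, h0, zero_add, mul_assoc]
  rw [rpow_one_add' t0 (by linarith)] at hJ
  have a5 := mul_le_mul_of_nonneg_left a4 t0
  linarith

/-- One step of the density martingale, gain `θ'`. -/
theorem mart_stepS {H : Finset V} {j : ℕ} {A D : Finset (Finset V)} (h : Pair H j A D)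
    {θ θ' : ℝ} (hj : 4 * j ≤ 3 * #H) (hθ0 : 0 < θ) (hθ : θ ≤ θ') (hθ' : θ' ≤ 1) :
    ∑ i ∈ H, (wp ((#H - 1).choose (j - 1)) (deg A i) (1 + θ') +
        wp ((#H - 1).choose j) (#A - deg A i) (1 + θ')) ≤
      #H * wp ((#H).choose j) #A (1 + θ') +
        10 * θ' * ∑ k ∈ H, wp ((#H - 1).choose (j - 1)) #(blk A D k) (1 + θ) := by
  have hj1 : 1 ≤ j := h.pos
  have hH : 0 < #H := by omega
  have hjN : j < #H := by omega
  have t0 : 0 < θ' := hθ0.trans_le hθ
  have hN : (0 : ℝ) < #H := by exact_mod_cast hH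
  have hj1' : (1 : ℝ) ≤ j := by exact_mod_cast hj1
  have hW : 0 ≤ ∑ k ∈ H, wp ((#H - 1).choose (j - 1)) #(blk A D k) (1 + θ) :=
    sum_nonneg fun k _ => by unfold wp; positivity
  rcases Nat.eq_zero_or_pos #A with hA | hA
  · have z : ∀ T : ℕ, wp T 0 (1 + θ') = 0 := fun T => by
      unfold wp
      rw [Nat.cast_zero, zero_div, zero_rpow (by linarith), mul_zero]
    have z1 : ∀ i, deg A i = 0 := fun i => Nat.le_zero.1 ((card_filter_le _ _).trans hA.le)
    simp only [hA, z1, Nat.sub_self, z, add_zero, sum_const_zero, mul_zero, zero_add]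
    positivity
  have hm : (0 : ℝ) < #A := by exact_mod_cast hA
  have hC : (0 : ℝ) < (#H).choose j := by exact_mod_cast Nat.choose_pos hjN.le
  have hC1 : (((#H - 1).choose (j - 1) : ℕ) : ℝ) = j / #H * (#H).choose j := by
    have := choose_pred_pred (n := #H) (c := j) hH hj1
    field_simp
    linarith
  have hpas : (#H).choose j = (#H - 1).choose (j - 1) + (#H - 1).choose j := by
    obtain ⟨n, hn⟩ : ∃ n, #H = n + 1 := ⟨#H - 1, by omega⟩
    obtain ⟨k, rfl⟩ : ∃ k, j = k + 1 := ⟨j - 1, by omega⟩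
    rw [hn, Nat.add_sub_cancel, Nat.add_sub_cancel, Nat.choose_succ_succ']
  have hC0 : (((#H - 1).choose j : ℕ) : ℝ) = (1 - j / #H) * (#H).choose j := by
    have : (((#H).choose j : ℕ) : ℝ) = (#H - 1).choose (j - 1) + (#H - 1).choose j := by
      exact_mod_cast hpas
    rw [sub_mul, ← hC1]
    linarith
  have hb : ∀ k ∈ H, (#(blk A D k) : ℝ) ≤ (#H - 1).choose (j - 1) := fun k hk => by
    have := card_le_card (blk_subset h k)
    rw [card_powersetCard, card_erase_of_mem hk] at this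
    exact_mod_cast this
  obtain ⟨R, hR, hRs⟩ := pair_degU h
  have hB : (exc H A D : ℝ) = ∑ k ∈ H, (#(blk A D k) : ℝ) := by
    unfold exc
    push_cast
    rfl
  set C : ℝ := (((#H).choose j : ℕ) : ℝ) with hCdef
  set C1 : ℝ := (((#H - 1).choose (j - 1) : ℕ) : ℝ) with hC1def
  have c1 : 0 < C1 := by
    rw [hC1]
    positivity
  have hu : 4 * ((j : ℝ) / #H) ≤ 3 := by
    rw [← mul_div_assoc, div_le_iff₀ hN]
    exact_mod_cast hj
  have hterm : ∀ i ∈ H, wp ((#H - 1).choose (j - 1)) (deg A i) (1 + θ') +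
      wp ((#H - 1).choose j) (#A - deg A i) (1 + θ') ≤ C * (#A / C) ^ (1 + θ') +
        4 * θ' * C1 * ((deg A i / C1 - #A / C) ^ 2 * (#A / C) ^ (θ' - 1)) := by
    intro i hi
    have hd : deg A i ≤ #A := card_filter_le _ _
    unfold wp
    rw [← hC1def, hC1, hC0, Nat.cast_sub hd]
    exact fc2_term (by positivity) hu hC (Nat.cast_nonneg _) (by exact_mod_cast hd) hm t0 hθ'
  have he : ∀ i ∈ H, (deg A i : ℝ) / C1 - #A / C =
      (R i - ((#H : ℝ) - j + 1) * #(blk A D i)) / (#H * C1) := fun i hi => by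
    rw [← (hR i hi).2.2, hC1]
    field_simp
  have hS := fc2_sum H hH (fun i => (deg A i : ℝ) / C1 - #A / C) (fun i => #(blk A D i) / C1)
    (div_pos hm hC) t0 hθ' (fun i => by positivity)
    (by rw [sum_congr rfl he, ← sum_div, sum_sub_distrib, ← mul_sum, hRs, hB, sub_self, zero_div])
    (fun i _ => by
      have : 0 ≤ (deg A i : ℝ) / C1 := by positivity
      linarith)
    (fun i hi => by
      rw [he i hi, le_div_iff₀ (by positivity)]
      have e : -((#(blk A D i) : ℝ) / C1) * (#H * C1) = -(#H * #(blk A D i)) := by field_simp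
      have := mul_le_mul_of_nonneg_right (show (#H : ℝ) - j + 1 ≤ #H by linarith)
        (Nat.cast_nonneg (α := ℝ) #(blk A D i))
      rw [e]
      linarith [(hR i hi).1])
    (fun i hi => by
      rw [he i hi, ← sum_div, ← hB, div_div, mul_comm C1]
      refine div_le_div_of_nonneg_right ?_ (by positivity)
      have hjN' : (j : ℝ) < #H := by exact_mod_cast hjN
      have := mul_nonneg (show (0 : ℝ) ≤ #H - j + 1 by linarith)
        (Nat.cast_nonneg (α := ℝ) #(blk A D i))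
      linarith [(hR i hi).2.1])
  have hL : C1 * ∑ k ∈ H, ((#(blk A D k) : ℝ) / C1) ^ (1 + θ') ≤
      ∑ k ∈ H, wp ((#H - 1).choose (j - 1)) #(blk A D k) (1 + θ) := by
    rw [mul_sum]
    exact sum_le_sum fun k hk => mul_le_mul_of_nonneg_left
      (rpow_le_rpow_of_exponent_ge' (by positivity) ((div_le_one c1).2 (hb k hk)) (by linarith)
        (by linarith)) c1.le
  refine (sum_le_sum hterm).trans ?_
  rw [sum_add_distrib, sum_const, nsmul_eq_mul, ← mul_sum]
  have e9 : wp ((#H).choose j) #A (1 + θ') = C * (#A / C) ^ (1 + θ') := rfl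
  rw [e9]
  have k1 := mul_le_mul_of_nonneg_left hS (by positivity : 0 ≤ 4 * θ' * C1)
  have k2 := mul_le_mul_of_nonneg_left hL t0.le
  have k3 := mul_nonneg t0.le hW
  linarith

end Pool.Agent.P.MP_4f3dfd_co.Ex
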