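import Mathlib
import Pool.Agent.P.MP_4f3dfd_co.FDefs
import Pool.Agent.P.MP_4f3dfd_co.ED1
import Pool.Agent.P.MP_4f3dfd_co.ED2
import Pool.Agent.P.MP_4f3dfd_co.ED3
import Pool.Agent.P.MP_4f3dfd_co.ENum
import Pool.Agent.P.MP_4f3dfd_co.FA4
import Pool.Agent.P.MP_4f3dfd_co.FC1
import Pool.Agent.P.MP_4f3dfd_co.FC2

set_option autoImplicit false
set_option linter.unusedSectionVars false
set_option linter.unusedVariables false

namespace Pool.Agent.P.MP_4f3dfd_co.Ex

open Finset Real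

variable {V : Type*} [DecidableEq V]

theorem fc3_level {G : Finset V} {c : ℕ} {J D : Finset (Finset V)} (h : Pair G c J D)
    {a θ θ' Γ : ℝ} (hc1 : c < #G) (ha : 2 * a ≤ 3 * aa #G c) (hθ' : 0 ≤ θ') (hΓ : 0 ≤ Γ)
    (hm : ∀ (H : Finset V) (j : ℕ) (A B : Finset (Finset V)), Pair H j A B → 0 < #H →
      |(j : ℝ) - c / #G * #H| ≤ 1 / 2 * (3 * aa #G c) * #H →
      ∑ i ∈ H, (wp ((#H - 1).choose (j - 1)) (deg A i) (1 + θ') +
        wp ((#H - 1).choose j) (#A - deg A i) (1 + θ')) ≤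
      #H * wp ((#H).choose j) #A (1 + θ') +
        Γ * ∑ k ∈ H, wp ((#H - 1).choose (j - 1)) #(blk A B k) (1 + θ)) :
    Step G c J D a θ θ' Γ := by
  intro r hr
  have hG : 0 < #G := (Nat.zero_le r).trans_lt hr
  have hn : (0 : ℝ) < #G := by exact_mod_cast hG
  have hN : (0 : ℝ) < (#G : ℝ) - r := sub_pos.2 (by exact_mod_cast hr)
  have hc0 : 0 < c := h.pos
  have hα : (0 : ℝ) < c / #G := div_pos (by exact_mod_cast hc0) hn
  have hlo : 3 * aa #G c ≤ c / #G := by rw [three_aa hG]; exact min_le_left _ _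
  have key := Av_step G hr (Φ := pw J G c (1 + θ')) (Ψ := fun S x => (pw J G c (1 + θ') S x +
      Γ / ((#G : ℝ) - r) *
        ∑ k ∈ G \ S, pw (blk J D k) (G.erase k) (c - 1) (1 + θ) S x) +
          atyp G c (1 / 2 * (3 * aa #G c)) S x)
    fun S hS hSr x hx => by
      have hH : (#(G \ S) : ℝ) = (#G : ℝ) - r := by
        rw [card_sdiff_of_subset hS, Nat.cast_sub (card_le_card hS), hSr]
      have p1 : 0 ≤ pw J G c (1 + θ') S x := wp_nonneg _ _ _
      have p2 : 0 ≤ Γ / ((#G : ℝ) - r) *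
          ∑ k ∈ G \ S, pw (blk J D k) (G.erase k) (c - 1) (1 + θ) S x :=
        mul_nonneg (by positivity) (sum_nonneg fun k _ => wp_nonneg _ _ _)
      have p3 := atyp_nonneg G c (1 / 2 * (3 * aa #G c)) S x
      rcases typ_or h.hJ hS x (1 / 2 * (3 * aa #G c)) with ht | ⟨hxc, ht⟩
      · refine (sum_le_sum fun i hi => pw_children_le h.hJ hS hx (by linarith) hi).trans ?_
        rw [sum_const, nsmul_eq_mul, hH]
        exact mul_le_mul_of_nonneg_left (by linarith) hN.le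
      · have hH0 : (0 : ℝ) < #(G \ S) := hH ▸ hN
        have q5 : #x < c := by
          have t1 := (abs_le.1 ht).1
          have q1 := mul_le_mul_of_nonneg_right hlo hH0.le
          have q2 := mul_pos hα hH0
          have : (0 : ℝ) < ((c - #x : ℕ) : ℝ) := by linarith
          exact Nat.sub_pos_iff_lt.1 (by exact_mod_cast this)
        have hm' := hm _ _ _ _ (pair_fib h hx q5) (by exact_mod_cast hH0) ht
        have e1 : ∑ k ∈ G \ S, wp ((#(G \ S) - 1).choose (c - #x - 1))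
            #(blk (fib J S x) (fib D S x) k) (1 + θ) =
            ∑ k ∈ G \ S, pw (blk J D k) (G.erase k) (c - 1) (1 + θ) S x :=
          sum_congr rfl fun k hk => by
            rw [card_blk_fib J D hx (mem_sdiff.1 hk).2, pw, tot, card_sdiff_of_subset hS,
              card_erase_of_mem (mem_sdiff.1 hk).1, Nat.sub_right_comm (#G), Nat.sub_right_comm c]
        rw [e1, ← pw_eq J hS, hH] at hm'
        rw [sum_congr rfl fun i hi => pw_children J hS hx c (1 + θ') hi]
        refine hm'.trans ?_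
        have e2 : ((#G : ℝ) - r) * (Γ / ((#G : ℝ) - r)) = Γ := by field_simp
        have p4 := mul_nonneg hN.le p3
        rw [mul_add, mul_add, ← mul_assoc, e2]
        linarith
  rw [Av_add, Av_add, Av_mul, Av_erase G hr, ← mul_assoc] at key
  have e3 : Γ / ((#G : ℝ) - r) * (((#G : ℝ) - r) / #G) = Γ / #G := by field_simp
  rw [e3] at key
  refine key.trans (add_le_add le_rfl ((Av_atypU G hc0 hc1 hr.le (η := 1 / 2) (by norm_num)
    (by norm_num)).trans (mul_le_mul_of_nonneg_right (zeta_mono le_rfl 1 ?_) (Nat.cast_nonneg _))))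
  have := mul_le_mul_of_nonneg_right ha hN.le
  linarith

theorem stepG {G : Finset V} {c : ℕ} {J D : Finset (Finset V)} (h : Pair G c J D) {a θ θ' : ℝ}
    (ha : 0 < a) (hG : 0 < #G) (h1 : 2 * a * #G ≤ c) (h2 : (c : ℝ) ≤ (1 - 2 * a) * #G)
    (hθ0 : 0 < θ) (hθ : θ ≤ θ') (hθ' : θ' ≤ 1) (hθa : θ * log (1 / a) ≤ 1) :
    Step G c J D a θ θ' (60 * (1 - (c : ℝ) / #G)) := by
  have hn : (0 : ℝ) < #G := by exact_mod_cast hG
  have han : 0 < a * #G := mul_pos ha hn
  have hc1 : c < #G := by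
    have : (c : ℝ) < #G := by linarith
    exact_mod_cast this
  have b1 : 2 * a ≤ (c : ℝ) / #G := (le_div_iff₀ hn).2 h1
  have b2 : (c : ℝ) / #G ≤ 1 - 2 * a := (div_le_iff₀ hn).2 h2
  have hlo : 3 * aa #G c ≤ c / #G := by rw [three_aa hG]; exact min_le_left _ _
  have hhi : 3 * aa #G c ≤ 1 - c / #G := by rw [three_aa hG]; exact min_le_right _ _
  have ha2 : 2 * a ≤ 3 * aa #G c := by rw [three_aa hG]; exact le_min b1 (by linarith)
  refine fc3_level h hc1 ha2 (by linarith) (by linarith) fun H j A B hp hH ht => ?_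
  have hH0 : (0 : ℝ) < #H := by exact_mod_cast hH
  obtain ⟨t1, t2⟩ := abs_le.1 ht
  have q1 := mul_le_mul_of_nonneg_right hlo hH0.le
  have q2 := mul_le_mul_of_nonneg_right hhi hH0.le
  have q3 := mul_le_mul_of_nonneg_right b1 hH0.le
  have q4 := mul_le_mul_of_nonneg_right b2 hH0.le
  refine (mart_stepG hp ha hH (by linarith) (by linarith) hθ0 hθ hθ' hθa).trans
    (add_le_add le_rfl (mul_le_mul_of_nonneg_right ?_ (sum_nonneg fun k _ => wp_nonneg _ _ _)))
  have q5 : (c : ℝ) / #G - 1 / 2 * (1 - c / #G) ≤ j / #H := by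
    rw [le_div_iff₀ hH0]
    linarith
  linarith

theorem stepS {G : Finset V} {c : ℕ} {J D : Finset (Finset V)} (h : Pair G c J D) {a θ θ' : ℝ}
    (ha : 0 < a) (h1 : 2 * a * #G ≤ c) (h2 : 2 * c ≤ #G)
    (hθ0 : 0 < θ) (hθ : θ ≤ θ') (hθ' : θ' ≤ 1) : Step G c J D a θ θ' (10 * θ') := by
  have hc0 : 0 < c := h.pos
  have hG : 0 < #G := by omega
  have hn : (0 : ℝ) < #G := by exact_mod_cast hG
  have h2' : 2 * (c : ℝ) ≤ #G := by exact_mod_cast h2
  have b1 : 2 * a ≤ (c : ℝ) / #G := (le_div_iff₀ hn).2 h1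
  have b2 : (c : ℝ) / #G ≤ 1 / 2 := (div_le_iff₀ hn).2 (by linarith)
  have hlo : 3 * aa #G c ≤ c / #G := by rw [three_aa hG]; exact min_le_left _ _
  have ha2 : 2 * a ≤ 3 * aa #G c := by rw [three_aa hG]; exact le_min b1 (by linarith)
  refine fc3_level h (by omega) ha2 (by linarith) (by linarith) fun H j A B hp hH ht => ?_
  have hH0 : (0 : ℝ) < #H := by exact_mod_cast hH
  have t2 := (abs_le.1 ht).2
  have q1 := mul_le_mul_of_nonneg_right hlo hH0.le
  have q4 := mul_le_mul_of_nonneg_right b2 hH0.le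
  have q5 : 4 * (j : ℝ) ≤ 3 * #H := by linarith
  exact mart_stepS hp (by exact_mod_cast q5) hθ0 hθ hθ'

end Pool.Agent.P.MP_4f3dfd_co.Ex
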