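import Mathlib
import Pool.Agent.P.MP_4f3dfd_co.FDefs
import Pool.Agent.P.MP_4f3dfd_co.ED1
import Pool.Agent.P.MP_4f3dfd_co.ED2
import Pool.Agent.P.MP_4f3dfd_co.ED3
import Pool.Agent.P.MP_4f3dfd_co.ENum
import Pool.Agent.P.MP_4f3dfd_co.FB3

set_option autoImplicit false
set_option linter.unusedSectionVars false
set_option linter.unusedVariables false

namespace Pool.Agent.P.MP_4f3dfd_co.Ex

open Finset Real

variable {V : Type*} [DecidableEq V]

theorem fc4_wp {T b : ℕ} {W e e' : ℝ} (hW : 0 ≤ W) (he' : 0 ≤ e') (he : e' ≤ e)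
    (hb : (b : ℝ) ≤ exp (-W) * T) : wp T b (1 + e) ≤ b * exp (-(W * e')) := by
  unfold wp
  rcases Nat.eq_zero_or_pos b with rfl | hb0
  · rw [Nat.cast_zero, zero_div, zero_rpow (by linarith), mul_zero, zero_mul]
  have hb1 : (0 : ℝ) < b := by exact_mod_cast hb0
  have hT : (0 : ℝ) < T := pos_of_mul_pos_right (hb1.trans_le hb) (exp_pos _).le
  have h1 : (b : ℝ) / T ≤ exp (-W) := (div_le_iff₀ hT).2 hb
  have h2 : ((b : ℝ) / T) ^ e ≤ exp (-(W * e')) := by
    refine (rpow_le_rpow (by positivity) h1 (by linarith)).trans ?_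
    rw [← exp_mul]
    exact exp_le_exp.2 (by nlinarith only [hW, he])
  rw [rpow_add (by positivity), rpow_one, ← mul_assoc, mul_div_cancel₀ _ hT.ne']
  exact mul_le_mul_of_nonneg_left h2 hb1.le

theorem fc4_exp {l : ℝ} (h0 : 0 < l) (h1 : l ≤ 1) (x : ℝ) :
    2 / l * exp (-(l * (x + 1))) + exp (-(l * x)) ≤ 2 / l * exp (-(l * x)) := by
  have h2 : exp (-l) ≤ 1 - l / 2 := by
    rw [exp_neg, inv_le_comm₀ (exp_pos _) (by linarith)]
    refine le_trans ?_ (add_one_le_exp l)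
    rw [inv_le_iff_one_le_mul₀ (by linarith)]
    nlinarith
  have h3 : exp (-(l * (x + 1))) = exp (-l) * exp (-(l * x)) := by
    rw [← exp_add]
    exact congrArg exp (by ring)
  have h4 : 2 / l * exp (-l) + 1 ≤ 2 / l := by
    have h5 : 2 / l * exp (-l) ≤ 2 / l * (1 - l / 2) :=
      mul_le_mul_of_nonneg_left h2 (by positivity)
    have h6 : 2 / l * (1 - l / 2) = 2 / l - 1 := by field_simp
    linarith
  rw [h3]
  nlinarith [exp_pos (-(l * x))]

theorem fc4_block {G : Finset V} {c : ℕ} {J D : Finset (Finset V)} (h : Pair G c J D) {N1 : ℕ}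
    {a θ W : ℝ} (ha : 0 < a) (h1 : 3 * a * #G ≤ c) (h2 : (c : ℝ) ≤ (1 - 3 * a) * #G)
    (han : 1 ≤ a * #G) (hθ0 : 0 < θ) (hθ : θ * bt a ≤ 1) (h19 : 7 ≤ N1)
    (hN : 336 * log (2 * √(#G)) ≤ θ * a * N1) (hW0 : 0 < W)
    {r : ℕ} (hr : r + 1 + N1 ≤ #G) {k : V} (hk : k ∈ G)
    (hb : (#(blk J D k) : ℝ) ≤ exp (-W) * (#G - 1).choose (c - 1)) :
    Av (G.erase k) r (pw (blk J D k) (G.erase k) (c - 1) (1 + θ)) ≤
      2 *
        (#(blk J D k) * exp (-(tt a θ * W / #G * ((#G : ℝ) - (r + 1)))) +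
          #G * (zeta #G 1 (a * N1 / 6) * (#G).choose c)) := by
  obtain ⟨N', hN'⟩ : ∃ N', #G = r + 1 + N' := ⟨#G - (r + 1), by omega⟩
  have hc1 := h.pos
  have hcard : #(G.erase k) = #G - 1 := card_erase_of_mem hk
  have hn : (#G : ℝ) = r + 1 + N' := by exact_mod_cast hN'
  have hn1 : ((#G - 1 : ℕ) : ℝ) = #G - 1 := by
    rw [Nat.cast_sub (by omega), Nat.cast_one]
  have hc2 : ((c - 1 : ℕ) : ℝ) = c - 1 := by rw [Nat.cast_sub hc1, Nat.cast_one]
  have hNN : (N1 : ℝ) ≤ N' := by exact_mod_cast (by omega : N1 ≤ N')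
  have h19' : (7 : ℝ) ≤ N1 := by exact_mod_cast h19
  have hr0 : (0 : ℝ) ≤ r := Nat.cast_nonneg r
  have hlog : log (2 * √((#G : ℝ) - 1)) ≤ log (2 * √(#G)) :=
    log_le_log (mul_pos two_pos (sqrt_pos.2 (by linarith)))
      (mul_le_mul_of_nonneg_left (sqrt_le_sqrt (by linarith)) two_pos.le)
  have key := hcU (G.erase k) (c - 1) N' (blk J D k) (blk_subset h k) ha
    (by rw [hcard, hn1, hc2]; nlinarith only [ha, h1, han]) (by rw [hcard, hn1, hc2]; nlinarith only [ha, h2, han]) hθ0 hθ (by omega)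
    (by omega) (by
      rw [hcard, hn1]
      have : θ * a * N1 ≤ θ * a * N' := mul_le_mul_of_nonneg_left hNN (by positivity)
      linarith)
  rw [hcard, show #G - 1 - N' = r by omega] at key
  refine key.trans (mul_le_mul_of_nonneg_left (add_le_add ?_ ?_) two_pos.le)
  · have ht : 0 < tt a θ := (tt_bounds ha (by nlinarith only [h2, hn, hNN, h19']) hθ0 hθ).2.2.1
    have h3 := fc4_wp (e := tt a θ * (N' / ((#G - 1 : ℕ) : ℝ)))
      (e' := tt a θ * (N' / #G)) hW0.le (by positivity)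
      (mul_le_mul_of_nonneg_left (div_le_div_of_nonneg_left (by positivity)
        (by rw [hn1]; linarith) (by rw [hn1]; linarith)) ht.le) hb
    refine h3.trans_eq ?_
    have h4 : (#G : ℝ) - (r + 1) = N' := by linarith only [hn]
    rw [h4]
    exact congrArg (fun y => (#(blk J D k) : ℝ) * exp y) (by ring)
  · have h3 : (#G - 1).choose (c - 1) ≤ (#G).choose c := by
      obtain ⟨m, hm⟩ : ∃ m, #G = m + 1 := ⟨#G - 1, by omega⟩
      obtain ⟨d, rfl⟩ : ∃ d, c = d + 1 := ⟨c - 1, by omega⟩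
      rw [hm, Nat.choose_succ_succ]
      simp
    have h4 : (((#G - 1).choose (c - 1) : ℕ) : ℝ) ≤ (#G).choose c := by exact_mod_cast h3
    refine mul_le_mul (by rw [hn1]; linarith)
      (mul_le_mul (zeta_mono (Nat.sub_le _ _) 1 (by nlinarith only [ha, hNN])) h4 (by positivity) (zeta_nonneg _ _ _))
      (mul_nonneg (zeta_nonneg _ _ _) (by positivity)) (by positivity)

theorem teleU {G : Finset V} {c : ℕ} {J D : Finset (Finset V)} (h : Pair G c J D) {N1 : ℕ}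
    {a θ θ' Γ W : ℝ} (ha : 0 < a) (h1 : 3 * a * #G ≤ c) (h2 : (c : ℝ) ≤ (1 - 3 * a) * #G)
    (han : 1 ≤ a * #G) (hθ0 : 0 < θ) (hθ : θ * bt a ≤ 1) (hΓ : 0 ≤ Γ)
    (hs : Step G c J D a θ θ' Γ) (h7 : 7 ≤ N1) (hN1 : N1 ≤ #G)
    (hN : 336 * log (2 * √(#G)) ≤ θ * a * N1) (hW0 : 0 < W) (hW : W ≤ #G)
    (hb : ∀ k ∈ G, (#(blk J D k) : ℝ) ≤ exp (-W) * (#G - 1).choose (c - 1)) :
    Av G (#G - N1) (pw J G c (1 + θ')) ≤ wp ((#G).choose c) #J (1 + θ') +
      4 * Γ / (tt a θ * W) * exc G J D * exp (-(tt a θ * W * N1 / #G)) +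
      (2 * Γ + 1) * ((#G : ℝ) ^ 2 * zeta #G 1 (a * N1 / 6) * (#G).choose c) := by
  have hn19 : (7 : ℝ) ≤ #G := by exact_mod_cast h7.trans hN1
  have hn0 : (0 : ℝ) < #G := by linarith
  have ha6 : 6 * a ≤ 1 := by nlinarith only [ha, h1, h2, han]
  obtain ⟨-, t1, ht, t2⟩ := tt_bounds ha (by linarith) hθ0 hθ
  have ht1 : tt a θ ≤ 1 := by linarith
  have hlev := fun (r : ℕ) (hr : r + 1 + N1 ≤ #G) (k : V) (hk : k ∈ G) =>
    fc4_block h ha h1 h2 han hθ0 hθ h7 hN hW0 hr hk (hb k hk)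
  have hZm : ∀ r : ℕ, r + 1 + N1 ≤ #G →
      zeta #G 1 (a * ((#G : ℝ) - r) / 6) * (#G).choose c ≤ zeta #G 1 (a * N1 / 6) * (#G).choose c := fun r hr => by
    have h3 : (r : ℝ) + 1 + N1 ≤ #G := by exact_mod_cast hr
    exact mul_le_mul_of_nonneg_right (zeta_mono le_rfl 1 (by nlinarith only [ha, hθ0, t2, h3])) (by positivity)
  have hZ : 0 ≤ zeta #G 1 (a * N1 / 6) * (#G).choose c := mul_nonneg (zeta_nonneg _ _ _) (by positivity)
  rw [mul_assoc ((#G : ℝ) ^ 2)]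
  generalize zeta #G 1 (a * N1 / 6) * (#G).choose c = Z at *
  generalize tt a θ = t at *
  have hl0 : 0 < t * W / #G := by positivity
  have hl1 : t * W / #G ≤ 1 := by
    rw [div_le_one hn0]
    nlinarith only [hW0, hW, t2, t1]
  have hB : (0 : ℝ) ≤ exc G J D := Nat.cast_nonneg _
  have ind : ∀ r : ℕ, r + N1 ≤ #G → Av G r (pw J G c (1 + θ')) ≤ wp ((#G).choose c) #J (1 + θ') +
      Γ / #G * 2 * exc G J D * (2 / (t * W / #G) * exp (-(t * W / #G * ((#G : ℝ) - r)))) +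
        r * ((Γ * 2 * #G + 1) * Z) := by
    intro r
    induction r with
    | zero =>
      intro _
      rw [Av_zero, pw, cnt_empty, tot, card_empty, Nat.sub_zero, Nat.sub_zero, Nat.cast_zero,
        zero_mul, add_zero]
      exact le_add_of_nonneg_right (by positivity)
    | succ r ih =>
      intro hr
      have h3 := hs r (by omega)
      have h4 := sum_le_sum (hlev r hr)
      rw [← mul_sum, sum_add_distrib, ← sum_mul, sum_const, nsmul_eq_mul, ← Nat.cast_sum] at h4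
      have h5 := mul_le_mul_of_nonneg_left h4 (by positivity : 0 ≤ Γ / #G)
      have h6 := mul_le_mul_of_nonneg_left (fc4_exp hl0 hl1 ((#G : ℝ) - (r + 1)))
        (by positivity : 0 ≤ Γ / #G * 2 * exc G J D)
      have h7 := ih (by omega)
      have h8 := hZm r hr
      have h9 : Γ / #G * (2 * (#G * (#G * Z))) = Γ * 2 * #G * Z := by field_simp
      rw [show (#G : ℝ) - (r + 1) + 1 = #G - r by ring] at h6
      change Γ / #G * _ ≤ Γ / #G * (2 * ((exc G J D : ℝ) * _ + _)) at h5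
      push_cast
      nlinarith only [h3, h6, h7, h8, h9, h5]
  have h3 := ind (#G - N1) (by omega)
  rw [Nat.cast_sub hN1, sub_sub_cancel] at h3
  refine h3.trans (add_le_add (add_le_add le_rfl (le_of_eq ?_)) ?_)
  · rw [show t * W / #G * N1 = t * W * N1 / #G by ring]
    field_simp
    ring
  · have h4 : (0 : ℝ) ≤ N1 := Nat.cast_nonneg _
    have h5 : 0 ≤ Γ * 2 := by positivity
    have h6 : ((#G : ℝ) - N1) * ((Γ * 2 * #G + 1) * Z) ≤ #G * ((Γ * 2 * #G + 1) * Z) :=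
      mul_le_mul_of_nonneg_right (by linarith) (by positivity)
    have h7 : #G * Z ≤ (#G : ℝ) ^ 2 * Z := mul_le_mul_of_nonneg_right (by nlinarith only [han, hθ0, hn19, ha6, t2]) hZ
    nlinarith only [h6, h7]

end Pool.Agent.P.MP_4f3dfd_co.Ex
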