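import Mathlib
import Pool.Agent.P.MP_4f3dfd_co.FDefs
import Pool.Agent.P.MP_4f3dfd_co.ENum

set_option autoImplicit false
set_option linter.unusedSectionVars false
set_option linter.unusedVariables false

namespace Pool.Agent.P.MP_4f3dfd_co.Ex

open Finset Real

variable {V : Type*} [DecidableEq V]

theorem ev_pow (K : ℝ) : ∃ N : ℕ, ∀ n : ℕ, N ≤ n →
    1 ≤ log n ∧ K ≤ log n ∧ K * log n ^ 3 ≤ (n : ℝ) ^ (1 / 18 : ℝ) := by
  have h1 : Filter.Tendsto (fun n : ℕ => log (n : ℝ)) Filter.atTop Filter.atTop :=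
    tendsto_log_atTop.comp tendsto_natCast_atTop_atTop
  obtain ⟨N, hN⟩ := Filter.eventually_atTop.1
    (((h1.eventually_ge_atTop 1).and (h1.eventually_ge_atTop K)).and
      ((h1.eventually_ge_atTop (K * (24 * 18 ^ 4))).and (Filter.eventually_ge_atTop 1)))
  refine ⟨N, fun n hn => ?_⟩
  obtain ⟨⟨ha, hb⟩, hc, hd⟩ := hN n hn
  refine ⟨ha, hb, ?_⟩
  have hn0 : (0 : ℝ) < n := by exact_mod_cast hd
  have hy : 0 ≤ log (n : ℝ) * (1 / 18) := by positivity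
  rw [rpow_def_of_pos hn0]
  have h4 := Real.pow_div_factorial_le_exp _ hy 4
  have h5 : ((Nat.factorial 4 : ℕ) : ℝ) = 24 := by norm_num [Nat.factorial]
  rw [h5] at h4
  refine le_trans ?_ h4
  have h3 : 0 ≤ log (n : ℝ) ^ 3 := by positivity
  have h6 : (log (n : ℝ) * (1 / 18)) ^ 4 / 24 = log n / (24 * 18 ^ 4) * log (n : ℝ) ^ 3 := by
    ring
  rw [h6]
  refine mul_le_mul_of_nonneg_right ?_ h3
  rw [le_div_iff₀ (by norm_num)]
  exact hc

theorem ev_zetaU (K P ε : ℝ) (hK : 0 < K) (hε : 0 < ε) : ∃ N : ℕ, ∀ n : ℕ, N ≤ n →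
    ∀ u : ℝ, (n : ℝ) ^ (5 / 6 : ℝ) ≤ K * log n * u →
      (n : ℝ) ^ 2 * zeta n 1 u ≤ ε * (n : ℝ) ^ (-P) := by
  obtain ⟨N, hN⟩ := ev_pow (2 * K * (|P| + 4 + |log (4 / ε)|))
  refine ⟨max N 1, fun n hn u hu => ?_⟩
  obtain ⟨ha, -, hc⟩ := hN n (le_trans (le_max_left _ _) hn)
  have hn1 : (1 : ℝ) ≤ n := by exact_mod_cast le_trans (le_max_right _ _) hn
  have hn0 : (0 : ℝ) < n := by linarith
  have h1 : (n : ℝ) ^ (1 / 18 : ℝ) ≤ (n : ℝ) ^ (5 / 6 : ℝ) :=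
    rpow_le_rpow_of_exponent_le hn1 (by norm_num)
  set l := log (n : ℝ) with hl
  set M := |P| + 4 + |log (4 / ε)| with hM
  have hM0 : 0 ≤ M := by positivity
  have hl0 : 0 < l := by linarith
  have h2 : K * l * (2 * M * l ^ 2) ≤ K * l * u := by
    calc K * l * (2 * M * l ^ 2) = 2 * K * M * l ^ 3 := by ring
      _ ≤ _ := hc.trans (h1.trans hu)
  have h3 : 2 * M * l ^ 2 ≤ u := le_of_mul_le_mul_left h2 (by positivity)
  have h4 : M * l ≤ M * l ^ 2 := mul_le_mul_of_nonneg_left (by nlinarith) hM0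
  have h5 : (P + 4) * l + log (4 / ε) ≤ M * l := by
    have a1 : P * l ≤ |P| * l := mul_le_mul_of_nonneg_right (le_abs_self P) hl0.le
    have a2 : log (4 / ε) ≤ |log (4 / ε)| * l :=
      (le_abs_self _).trans (le_mul_of_one_le_right (abs_nonneg _) ha)
    rw [hM]; nlinarith
  have h6 : exp (-(1 ^ 2 * u / 2)) ≤ exp (-((P + 4) * l + log (4 / ε))) :=
    exp_le_exp.2 (by linarith)
  have h7 : exp (-((P + 4) * l + log (4 / ε))) = ε / 4 * ((n : ℝ) ^ (-P) / (n : ℝ) ^ 4) := by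
    have e1 : -((P + 4) * l + log (4 / ε)) = l * (-P) - (4 : ℕ) * l - log (4 / ε) := by
      push_cast; ring
    rw [e1, exp_sub, exp_sub, exp_log (by positivity), exp_nat_mul, hl, exp_log hn0,
      ← rpow_def_of_pos hn0]
    field_simp
  have h8 : √(n : ℝ) ≤ n := by
    rw [sqrt_le_left hn0.le]; nlinarith
  have h9 : (n : ℝ) ^ 2 * (2 * √n * (n + 1)) ≤ 4 * (n : ℝ) ^ 4 := by
    have a1 : 2 * √(n : ℝ) * (n + 1) ≤ 2 * n * (2 * n) :=
      mul_le_mul (by linarith) (by linarith) (by positivity) (by positivity)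
    calc (n : ℝ) ^ 2 * (2 * √n * (n + 1)) ≤ (n : ℝ) ^ 2 * (2 * n * (2 * n)) :=
          mul_le_mul_of_nonneg_left a1 (by positivity)
      _ = 4 * (n : ℝ) ^ 4 := by ring
  unfold zeta
  calc (n : ℝ) ^ 2 * (2 * √n * (n + 1) * exp (-(1 ^ 2 * u / 2)))
      = (n : ℝ) ^ 2 * (2 * √n * (n + 1)) * exp (-(1 ^ 2 * u / 2)) := by ring
    _ ≤ 4 * (n : ℝ) ^ 4 * (ε / 4 * ((n : ℝ) ^ (-P) / (n : ℝ) ^ 4)) :=
        mul_le_mul h9 (h6.trans h7.le) (exp_pos _).le (by positivity)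
    _ = ε * (n : ℝ) ^ (-P) := by field_simp

end Pool.Agent.P.MP_4f3dfd_co.Ex
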