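import Mathlib
import Pool.Agent.P.MP_4f3dfd_co.FDefs
import Pool.Agent.P.MP_4f3dfd_co.ED1
import Pool.Agent.P.MP_4f3dfd_co.ED2
import Pool.Agent.P.MP_4f3dfd_co.ENum
import Pool.Agent.P.MP_4f3dfd_co.FC4
import Pool.Agent.P.MP_4f3dfd_co.FC5

set_option autoImplicit false
set_option linter.unusedSectionVars false
set_option linter.unusedVariables false

namespace Pool.Agent.P.MP_4f3dfd_co.Ex

open Finset Real

variable {V : Type*} [DecidableEq V]

/-- The moment of the conditional density stays near its initial value. -/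
theorem momentU (s K : ℝ) (hs : 0 < s) (hK : 0 < K) : ∃ N : ℕ,
    ∀ (n0 : ℕ) (G : Finset (Fin n0)) (c N1 : ℕ) (J D : Finset (Finset (Fin n0)))
      (a θ θ' Γ W Z : ℝ), N ≤ #G → Pair G c J D → (#G : ℝ) ^ (-(1 / 6) : ℝ) ≤ a →
      3 * a * #G ≤ c → (c : ℝ) ≤ (1 - 3 * a) * #G → 0 < θ → θ * bt a ≤ 1 →
      1 ≤ K * θ * log #G → 0 ≤ Γ → Γ ≤ 60 → Step G c J D a θ θ' Γ → N1 ≤ #G →
      (#G : ℝ) ≤ K * log #G * N1 → 0 < W → W ≤ #G →
      (∀ k ∈ G, (#(blk J D k) : ℝ) ≤ exp (-W) * (#G - 1).choose (c - 1)) → 0 ≤ Z →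
      (N1 = #G ∨ 4 * Γ / (tt a θ * W) * exc G J D * exp (-(tt a θ * W * N1 / #G)) ≤ Z) →
      Av G (#G - N1) (pw J G c (1 + θ')) ≤
        wp ((#G).choose c) #J (1 + θ') + Z + s * (#G : ℝ) ^ (-K) * (#G).choose c := by
  obtain ⟨N1', hN1'⟩ := ev_pow (336 * K ^ 2)
  obtain ⟨N2, hN2⟩ := ev_zetaU (6 * K) K (s / 121) (by positivity) (by positivity)
  refine ⟨max 4 (max N1' N2), ?_⟩
  intro n0 G c N1 J D a θ θ' Γ W Z hN hP ha h1 h2 hθ0 hθ hKθ hΓ0 hΓ hS hN1 hn hW0 hW hb hZ hor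
  have hn4 : 4 ≤ #G := (le_max_left _ _).trans hN
  have hnA : N1' ≤ #G := ((le_max_left _ _).trans (le_max_right _ _)).trans hN
  have hnB : N2 ≤ #G := ((le_max_right _ _).trans (le_max_right _ _)).trans hN
  have hn4' : (4 : ℝ) ≤ #G := by exact_mod_cast hn4
  have hn0 : (0 : ℝ) < #G := by linarith
  have hlast : 0 ≤ s * (#G : ℝ) ^ (-K) * (#G).choose c := by positivity
  rcases hor with hE | hE
  · rw [hE, Nat.sub_self, Av_zero, pw, cnt_empty, tot, card_empty, Nat.sub_zero, Nat.sub_zero]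
    linarith
  obtain ⟨hl1, -, hR⟩ := hN1' _ hnA
  have ha0 : 0 < a := lt_of_lt_of_le (by positivity) ha
  have ha6 : 6 * a ≤ 1 := by nlinarith only [h1, h2, hW0, hW]
  have h56 : (#G : ℝ) ^ (5 / 6 : ℝ) ≤ a * #G := by
    have e : (#G : ℝ) ^ (5 / 6 : ℝ) = (#G : ℝ) ^ (-(1 / 6) : ℝ) * #G := by
      rw [← rpow_add_one hn0.ne']
      norm_num
    rw [e]
    exact mul_le_mul_of_nonneg_right ha hn0.le
  have h18 : (#G : ℝ) ^ (1 / 18 : ℝ) ≤ (#G : ℝ) ^ (5 / 6 : ℝ) :=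
    rpow_le_rpow_of_exponent_le (by linarith) (by norm_num)
  have h01 : 1 ≤ (#G : ℝ) ^ (5 / 6 : ℝ) := one_le_rpow (by linarith) (by norm_num)
  have han : 1 ≤ a * #G := h01.trans h56
  have hu : (#G : ℝ) ^ (5 / 6 : ℝ) ≤ K * log #G * (a * N1) := by
    have := mul_le_mul_of_nonneg_left hn ha0.le
    linarith
  have hN0 : (0 : ℝ) ≤ N1 := Nat.cast_nonneg _
  have hmain : 336 * log #G ≤ θ * a * N1 := by
    have h3 : 0 ≤ K * log #G * (a * N1) := by positivity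
    have h4 := mul_le_mul_of_nonneg_right hKθ h3
    have h5 : 336 * log #G * (K * log #G) ^ 2 ≤ θ * a * N1 * (K * log #G) ^ 2 := by
      nlinarith only [hR, h18, hu, h4]
    exact le_of_mul_le_mul_right h5 (by positivity)
  have hsq : 2 * √(#G : ℝ) ≤ #G := by
    have h3 := sq_sqrt hn0.le
    have h4 : 2 ≤ √(#G : ℝ) := le_sqrt_of_sq_le (by linarith)
    nlinarith only [hn4', ha0, ha6, h3, h4]
  have hlog : log (2 * √(#G : ℝ)) ≤ log #G := log_le_log (by positivity) hsq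
  obtain ⟨-, -, -, hθ30⟩ := tt_bounds ha0 (by linarith only [ha0, ha6]) hθ0 hθ
  have h7 : 7 ≤ N1 := by
    have h3 : θ * a ≤ 1 := by nlinarith only [h1, h2, hθ0, h56, h01, hθ30]
    have h4 := mul_le_mul_of_nonneg_right h3 hN0
    have h5 : (7 : ℝ) ≤ N1 := by linarith
    exact_mod_cast h5
  have hT := teleU hP ha0 h1 h2 han hθ0 hθ hΓ0 hS h7 hN1 (by linarith) hW0 hW hb
  have hz := hN2 _ hnB (a * N1 / 6) (by linarith)
  have hC : (0 : ℝ) ≤ (#G).choose c := Nat.cast_nonneg _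
  have hz1 := mul_le_mul_of_nonneg_right hz hC
  have hz0 : 0 ≤ (#G : ℝ) ^ 2 * zeta #G 1 (a * N1 / 6) * (#G).choose c :=
    mul_nonneg (mul_nonneg (by positivity) (zeta_nonneg _ _ _)) hC
  have hz2 := mul_le_mul_of_nonneg_right (show 2 * Γ + 1 ≤ 121 by linarith only [hΓ]) hz0
  linarith only [hE, hT, hz1, hz2]

end Pool.Agent.P.MP_4f3dfd_co.Ex
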