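import Mathlib
import Pool.Agent.P.MP_4f3dfd_co.FDefs
import Pool.Agent.P.MP_4f3dfd_co.ED1
import Pool.Agent.P.MP_4f3dfd_co.ED2

set_option autoImplicit false
set_option linter.unusedSectionVars false
set_option linter.unusedVariables false

namespace Pool.Agent.P.MP_4f3dfd_co.Ex

open Finset Real

variable {V : Type*} [DecidableEq V]

theorem fd1_wp {t b : ℕ} (hb : b ≤ t) {T θ : ℝ} (hT : 0 < T) (hθ : 0 < θ)
    (h : T * t < b) : (b : ℝ) ≤ T ^ (-θ) * wp t b (1 + θ) := by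
  have ht0 : (0 : ℝ) ≤ t := Nat.cast_nonneg _
  have hb0 : (0 : ℝ) < b := lt_of_le_of_lt (mul_nonneg hT.le ht0) h
  have ht : (0 : ℝ) < t := lt_of_lt_of_le hb0 (by exact_mod_cast hb)
  have hq : 0 < (b : ℝ) / t := div_pos hb0 ht
  have h1 : T ≤ (b : ℝ) / t := by rw [le_div_iff₀ ht]; exact h.le
  have h2 : T ^ θ ≤ ((b : ℝ) / t) ^ θ := Real.rpow_le_rpow hT.le h1 hθ.le
  have h3 : wp t b (1 + θ) = b * ((b : ℝ) / t) ^ θ := by
    unfold wp
    rw [Real.rpow_add hq, Real.rpow_one]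
    field_simp
  have h4 : 0 < T ^ θ := Real.rpow_pos_of_pos hT θ
  rw [h3, Real.rpow_neg hT.le, ← div_eq_inv_mul, le_div_iff₀ h4]
  exact mul_le_mul_of_nonneg_left h2 hb0.le

theorem markovU {G : Finset V} {c : ℕ} {J D : Finset (Finset V)} (h : Pair G c J D) {r : ℕ}
    (hr : r < #G) {η β T θ Z : ℝ} (hβ : 0 ≤ β) (hT : 0 < T) (hθ : 0 < θ)
    (hZ : Av G r (atyp G c η) ≤ Z)
    (hfib : ∀ S ⊆ G, #S = r → ∀ x ⊆ S, #x ≤ c →
      |((c - #x : ℕ) : ℝ) - c / #G * #(G \ S)| ≤ η * #(G \ S) →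
      (cnt J S x : ℝ) ≤ T * tot G c S x →
      β * cnt J S x ≤ ∑ k ∈ G \ S, (cnt (blk J D k) S x : ℝ)) :
    β * (#J - T ^ (-θ) * Av G r (pw J G c (1 + θ)) - Z) ≤
      ((#G : ℝ) - r) / #G * exc G J D := by
  have hTθ : 0 ≤ T ^ (-θ) := Real.rpow_nonneg hT.le _
  have key : Av G r (fun S x => β * (cnt J S x : ℝ)) ≤
      Av G r (fun S x => (∑ k ∈ G \ S, (cnt (blk J D k) S x : ℝ) +
        (β * T ^ (-θ)) * pw J G c (1 + θ) S x) + β * atyp G c η S x) := by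
    refine Av_mono G r fun S hS hSr x hx => ?_
    have e1 : 0 ≤ ∑ k ∈ G \ S, (cnt (blk J D k) S x : ℝ) :=
      sum_nonneg fun k _ => Nat.cast_nonneg _
    have e2 : 0 ≤ (β * T ^ (-θ)) * pw J G c (1 + θ) S x :=
      mul_nonneg (mul_nonneg hβ hTθ) (wp_nonneg _ _ _)
    have e3 : 0 ≤ β * atyp G c η S x := mul_nonneg hβ (atyp_nonneg _ _ _ _ _)
    rcases typ_or h.hJ hS x η with h1 | ⟨h1, h2⟩
    · have := mul_le_mul_of_nonneg_left h1 hβ
      linarith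
    · rcases le_or_gt (cnt J S x : ℝ) (T * tot G c S x) with h3 | h3
      · have := hfib S hS hSr x hx h1 h2 h3
        linarith
      · have h4 := mul_le_mul_of_nonneg_left (fd1_wp (cnt_le_tot h.hJ hS x) hT hθ h3) hβ
        have h5 : β * (T ^ (-θ) * wp (tot G c S x) (cnt J S x) (1 + θ)) =
            (β * T ^ (-θ)) * pw J G c (1 + θ) S x := by unfold pw; ring
        linarith
  have a1 : Av G r (fun S x => β * (cnt J S x : ℝ)) = β * #J := by
    rw [Av_mul G r β (fun S x => (cnt J S x : ℝ)), Av_cnt G hr.le]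
  have a2 : Av G r (fun S x => ∑ k ∈ G \ S, (cnt (blk J D k) S x : ℝ)) =
      ((#G : ℝ) - r) / #G * exc G J D := by
    rw [Av_erase G hr (fun k S x => (cnt (blk J D k) S x : ℝ))]
    congr 1
    unfold exc
    push_cast
    refine sum_congr rfl fun k hk => Av_cnt _ ?_ _
    rw [card_erase_of_mem hk]
    omega
  rw [a1, Av_add G r (fun S x => ∑ k ∈ G \ S, (cnt (blk J D k) S x : ℝ) +
      (β * T ^ (-θ)) * pw J G c (1 + θ) S x) (fun S x => β * atyp G c η S x),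
    Av_add G r (fun S x => ∑ k ∈ G \ S, (cnt (blk J D k) S x : ℝ))
      (fun S x => (β * T ^ (-θ)) * pw J G c (1 + θ) S x), a2,
    Av_mul G r (β * T ^ (-θ)) (pw J G c (1 + θ)), Av_mul G r β (atyp G c η)] at key
  have a3 := mul_le_mul_of_nonneg_left hZ hβ
  nlinarith

end Pool.Agent.P.MP_4f3dfd_co.Ex
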