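import Mathlib
import Pool.Agent.P.MP_4f3dfd_co.FDefs
import Pool.Agent.P.MP_4f3dfd_co.EF1
import Pool.Agent.P.MP_4f3dfd_co.EF2

set_option autoImplicit false
set_option linter.unusedSectionVars false
set_option linter.unusedVariables false

namespace Pool.Agent.P.MP_4f3dfd_co.Ex

open Finset Real

variable {V : Type*} [DecidableEq V]

theorem fd2_alg {n κ c C0 C1 J0 J1 B0 B1 D0 : ℝ} (hC0 : 0 < C0) (hC1 : 0 < C1) (hn : 0 < n)
    (hk : 1 ≤ κ) (hc : 0 ≤ c) (hs : c + κ = n + 1) (e : C0 * c = C1 * κ)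
    (h0 : n * (J0 * (C0 - J0)) ≤ (κ - 1) * (B0 * C0))
    (h1 : n * (J1 * (C1 - J1)) ≤ κ * (B1 * C1)) (hD : κ * D0 = c * J0 + B0)
    (hM : J1 * C0 ≤ J0 * C1) (hJ0 : J0 ≤ C0) (hJ1 : 0 ≤ J1) (hB0 : 0 ≤ B0) :
    (n + 1) * ((J0 + J1) * (C1 + C0 - (J0 + J1))) ≤
      κ * ((B0 + B1 + (D0 - J1)) * (C1 + C0)) := by
  obtain ⟨M0, rfl⟩ : ∃ M0, J0 = M0 * C0 := ⟨J0 / C0, by field_simp⟩
  obtain ⟨M1, rfl⟩ : ∃ M1, J1 = M1 * C1 := ⟨J1 / C1, by field_simp⟩
  have hκ : 0 < κ := by linarith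
  have a0 : n * (C0 * (M0 * (1 - M0))) ≤ (κ - 1) * B0 :=
    le_of_mul_le_mul_right (by linarith) hC0
  have a1 : n * (C1 * (M1 * (1 - M1))) ≤ κ * B1 := le_of_mul_le_mul_right (by linarith) hC1
  have a3 : M1 ≤ M0 := le_of_mul_le_mul_right (by linarith) (mul_pos hC0 hC1)
  have a4 : M0 ≤ 1 := le_of_mul_le_mul_right (by linarith) hC0
  have a5 : 0 ≤ M1 := le_of_mul_le_mul_right (by linarith) hC1
  have hV0 : 0 ≤ M0 * (1 - M0) := mul_nonneg (by linarith) (by linarith)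
  have b0 : C0 * (M0 * (1 - M0)) ≤ B0 := by
    refine le_of_mul_le_mul_left ?_ hn
    have := mul_le_mul_of_nonneg_right (show κ - 1 ≤ n by linarith) hB0
    linarith
  have b1 : (n + 1) * (C0 * (M0 * (1 - M0))) ≤ κ * B0 := by linarith
  have eS : (n + 1) * C0 = κ * (C1 + C0) := by
    rw [← hs]
    linarith
  have b2 : (C1 + C0) * (M0 * (1 - M0)) ≤ B0 := by
    refine le_of_mul_le_mul_left ?_ hκ
    have : κ * ((C1 + C0) * (M0 * (1 - M0))) = (n + 1) * (C0 * (M0 * (1 - M0))) := by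
      rw [← mul_assoc, ← eS]
      ring
    linarith
  have b3 : C1 * (M0 * (1 - M0)) ≤ B0 := by
    have := mul_nonneg hC0.le hV0
    linarith
  have hδ : 0 ≤ (M0 - M1) * (1 - (M0 - M1)) := mul_nonneg (by linarith) (by linarith)
  have b4 : M1 * (1 - M1) ≤ M0 * (1 - M0) + (M0 - M1) * (1 - (M0 - M1)) := by
    have := mul_nonneg (show 0 ≤ M0 - M1 by linarith) (show 0 ≤ 1 - M0 by linarith)
    linarith
  have b5 := mul_le_mul_of_nonneg_left b4 hC1.le
  have b6 : C1 * ((M0 - M1) * (1 - (M0 - M1))) ≤ κ * (C1 * ((M0 - M1) * (1 - (M0 - M1)))) :=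
    le_mul_of_one_le_left (mul_nonneg hC1.le hδ) hk
  have eD : κ * D0 = κ * (C1 * M0) + B0 := by
    have : c * (M0 * C0) = C0 * c * M0 := by ring
    rw [hD, this, e]
    ring
  have key : (n + 1) * (C0 * (M0 * (1 - M0))) + (n + 1) * (C1 * (M1 * (1 - M1))) +
      κ * (C1 * (M0 - M1) ^ 2) ≤ κ * (B0 + B1 + (D0 - M1 * C1)) := by
    linarith
  have k2 := mul_le_mul_of_nonneg_right key (add_pos hC1 hC0).le
  have k3 : (n + 1) * ((M0 * C0 + M1 * C1) * (C1 + C0 - (M0 * C0 + M1 * C1))) =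
      ((n + 1) * (C0 * (M0 * (1 - M0))) + (n + 1) * (C1 * (M1 * (1 - M1)))) * (C1 + C0) +
        (n + 1) * C0 * (C1 * (M0 - M1) ^ 2) := by ring
  rw [k3, eS]
  linarith

theorem fd2_big {G : Finset V} {c : ℕ} {J D : Finset (Finset V)} (h : Pair G c J D)
    (hc : #G ≤ c) : (#G : ℝ) * (#J * (((#G).choose c : ℝ) - #J)) ≤
      ((#G : ℝ) - c) * (exc G J D * ((#G).choose c : ℝ)) := by
  have h1 := ef2_le h
  rcases hc.lt_or_eq with hc | hc
  · rw [Nat.choose_eq_zero_of_lt hc] at h1 ⊢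
    have h4 : #J = 0 := by omega
    rw [h4]
    simp
  · rw [hc, Nat.choose_self] at h1
    rw [hc, Nat.choose_self]
    rcases (show #J = 0 ∨ #J = 1 by omega) with h4 | h4
    · rw [h4]
      simp
    · rw [h4]
      simp

theorem fd2_one {G : Finset V} {J D : Finset (Finset V)} (h : Pair G 1 J D) (hG : 1 ≤ #G) :
    (#G : ℝ) * (#J * (((#G).choose 1 : ℝ) - #J)) ≤
      ((#G : ℝ) - (1 : ℕ)) * (exc G J D * ((#G).choose 1 : ℝ)) := by
  have hG' : (1 : ℝ) ≤ #G := by exact_mod_cast hG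
  have hB : (0 : ℝ) ≤ exc G J D := Nat.cast_nonneg _
  have h4 : (0 : ℝ) ≤ #G := Nat.cast_nonneg _
  rw [Nat.choose_one_right]
  push_cast
  rcases J.eq_empty_or_nonempty with rfl | ⟨X, hX⟩
  · rw [card_empty, Nat.cast_zero, zero_mul, mul_zero]
    exact mul_nonneg (by linarith) (mul_nonneg hB h4)
  obtain ⟨i, hi⟩ : X.Nonempty := card_pos.1 (by rw [(mem_powersetCard.1 (h.hJ hX)).2]; omega)
  have h1 : (1 : ℝ) ≤ #D := by exact_mod_cast card_pos.2 ⟨_, h.sh X hX i hi⟩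
  have h2 := pair_card h
  have h3 : #J ≤ #G := by
    have := ef2_le h
    rwa [Nat.choose_one_right] at this
  push_cast at h2
  have h5 : (#G : ℝ) - #J ≤ exc G J D := by
    have := mul_le_mul_of_nonneg_left h1 h4
    linarith
  rcases h3.lt_or_eq with h3 | h3
  · have h6 : (#J : ℝ) + 1 ≤ #G := by exact_mod_cast h3
    have h7 : (#J : ℝ) * (#G - #J) ≤ (#G - 1) * exc G J D :=
      mul_le_mul (by linarith) h5 (by linarith) (by linarith)
    have h8 := mul_le_mul_of_nonneg_left h7 h4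
    linarith
  · rw [h3, sub_self, mul_zero, mul_zero]
    exact mul_nonneg (by linarith) (mul_nonneg hB h4)

theorem fd2_ind (n : ℕ) : ∀ {G : Finset V} {c : ℕ} {J D : Finset (Finset V)}, #G = n →
    Pair G c J D → (#G : ℝ) * (#J * (((#G).choose c : ℝ) - #J)) ≤
      ((#G : ℝ) - c) * (exc G J D * ((#G).choose c : ℝ)) := by
  induction n with
  | zero => exact fun hn h => fd2_big h (by omega)
  | succ n ih =>
    intro G c J D hn h
    by_cases hc : #G ≤ c
    · exact fd2_big h hc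
    obtain ⟨k, rfl⟩ : ∃ k, c = k + 1 := ⟨c - 1, by have := h.pos; omega⟩
    rcases Nat.eq_zero_or_pos k with rfl | hk
    · exact fd2_one h (by omega)
    obtain ⟨i, hi, hmin⟩ := exists_min_image G (deg J) (card_pos.1 (by omega))
    have hd : (n + 1) * deg J i ≤ (k + 1) * #J := by
      rw [← ef2_sum h.hJ, ← hn, ← smul_eq_mul]
      exact card_nsmul_le_sum _ _ _ hmin
    have hG : #(G \ {i}) = n := by
      rw [card_sdiff_of_subset (singleton_subset_iff.2 hi), card_singleton, hn]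
      rfl
    have p0 : Pair (G \ {i}) (k + 1) (fib J {i} ∅) (fib D {i} ∅) :=
      pair_fib h (empty_subset _) (by rw [card_empty]; omega)
    have p1 : Pair (G \ {i}) k (fib J {i} {i}) (fib D {i} {i}) :=
      pair_fib h subset_rfl (by rw [card_singleton]; omega)
    have i0 := ih hG p0
    have i1 := ih hG p1
    have l0 := ef2_le p0
    have c0 := pair_card p0
    have c1 := pair_card p1
    have c2 := pair_card h
    rw [← ef2_deg, ef2_split J i] at hd
    rw [hG] at i0 i1 l0 c0 c1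
    rw [hn, ef2_split J i, ef2_split D i] at c2
    rw [hn, ef2_split J i, Nat.choose_succ_succ']
    have hkn : k < n := by omega
    have hkn' : (k : ℝ) + 1 ≤ n := by exact_mod_cast hkn
    have hk0 : (0 : ℝ) ≤ k := Nat.cast_nonneg _
    have e : (n.choose (k + 1) : ℝ) * (k + 1) = n.choose k * (n - k) := by
      have := congrArg (Nat.cast (R := ℝ)) (Nat.choose_succ_right_eq n k)
      rw [Nat.cast_mul, Nat.cast_mul, Nat.cast_sub hkn.le] at this
      exact_mod_cast this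
    have hC0 : (0 : ℝ) < n.choose (k + 1) := by exact_mod_cast Nat.choose_pos hkn
    have hC1 : (0 : ℝ) < n.choose k := by exact_mod_cast Nat.choose_pos hkn.le
    have hd' : ((n : ℝ) + 1) * #(fib J {i} {i}) ≤
        (k + 1) * (#(fib J {i} ∅) + #(fib J {i} {i})) := by exact_mod_cast hd
    have hk' : (0 : ℝ) < k + 1 := by positivity
    have hB0 : (0 : ℝ) ≤ exc (G \ {i}) (fib J {i} ∅) (fib D {i} ∅) := Nat.cast_nonneg _
    push_cast at c0 c1 c2 i0 ⊢
    have eB : (exc G J D : ℝ) = exc (G \ {i}) (fib J {i} ∅) (fib D {i} ∅) +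
        exc (G \ {i}) (fib J {i} {i}) (fib D {i} {i}) +
        ((#(fib D {i} ∅) : ℝ) - #(fib J {i} {i})) := by linarith
    have e1 : (n : ℝ) + 1 - (k + 1) = n - k := by ring
    have e2 : (n : ℝ) - (k + 1) = n - k - 1 := by ring
    rw [eB, e1]
    rw [e2] at i0
    refine fd2_alg (c := (k : ℝ) + 1) hC0 hC1 (by linarith) (by linarith) hk'.le (by ring) e i0 i1
      (by linarith) (le_of_mul_le_mul_right ?_ hk') (by exact_mod_cast l0) (Nat.cast_nonneg _) hB0
    have a := mul_le_mul_of_nonneg_left (show ((n : ℝ) - k) * #(fib J {i} {i}) ≤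
      (k + 1) * #(fib J {i} ∅) by linarith) hC1.le
    rw [mul_assoc (#(fib J {i} {i}) : ℝ), e]
    linarith

/-- Spectral type lower bound for the excess, with the factor `n / (n - c)`. -/
theorem exc_ge_varU {G : Finset V} {c : ℕ} {J D : Finset (Finset V)} (h : Pair G c J D) :
    (#G : ℝ) * (#J * (((#G).choose c : ℝ) - #J)) ≤
      ((#G : ℝ) - c) * (exc G J D * ((#G).choose c : ℝ)) :=
  fd2_ind _ rfl h

end Pool.Agent.P.MP_4f3dfd_co.Ex
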