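import Mathlib
import Pool.Agent.P.MP_4f3dfd_co.FDefs
import Pool.Agent.P.MP_4f3dfd_co.ED2
import Pool.Agent.P.MP_4f3dfd_co.ED3
import Pool.Agent.P.MP_4f3dfd_co.EF3
import Pool.Agent.P.MP_4f3dfd_co.FD2

set_option autoImplicit false
set_option linter.unusedSectionVars false
set_option linter.unusedVariables false

namespace Pool.Agent.P.MP_4f3dfd_co.Ex

open Finset Real

variable {V : Type*} [DecidableEq V]

theorem fib_varU {G : Finset V} {c : ℕ} {J D : Finset (Finset V)} (h : Pair G c J D)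
    {S x : Finset V} (hS : S ⊆ G) (hx : x ⊆ S) (hxc : #x < c) {α : ℝ} (hα : α < 1)
    (hN : 0 < #(G \ S))
    (ht : (#(G \ S) : ℝ) - ((c - #x : ℕ) : ℝ) ≤ 3 / 2 * (1 - α) * #(G \ S))
    (hM : (cnt J S x : ℝ) ≤ 3 / 4 * tot G c S x) :
    1 / (6 * (1 - α)) * (cnt J S x : ℝ) ≤ ∑ k ∈ G \ S, (cnt (blk J D k) S x : ℝ) := by
  have hp := pair_fib h hx hxc
  have hv := exc_ge_varU hp
  have htot : tot G c S x = (#(G \ S)).choose (c - #x) := by
    rw [tot, card_sdiff_of_subset hS]
  rw [card_fib, ef3_exc J D hx, ← htot] at hv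
  set B : ℝ := ∑ k ∈ G \ S, (cnt (blk J D k) S x : ℝ) with hBdef
  have hB : 0 ≤ B := sum_nonneg fun k _ => Nat.cast_nonneg _
  have hc0 : (0 : ℝ) ≤ cnt J S x := Nat.cast_nonneg _
  have hC : (0 : ℝ) ≤ tot G c S x := Nat.cast_nonneg _
  have hN' : (0 : ℝ) < #(G \ S) := by exact_mod_cast hN
  have ha : 0 < 1 - α := by linarith
  rw [one_div, inv_mul_le_iff₀ (by positivity)]
  rcases hC.eq_or_lt with h0 | h0
  · rw [← h0] at hM
    have : 0 ≤ 6 * (1 - α) * B := by positivity
    linarith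
  · have h1 : (cnt J S x : ℝ) * (1 / 4 * tot G c S x) ≤ cnt J S x * (tot G c S x - cnt J S x) :=
      mul_le_mul_of_nonneg_left (by linarith) hc0
    have h2 := mul_le_mul_of_nonneg_left h1 hN'.le
    have h3 := mul_le_mul_of_nonneg_right ht (mul_nonneg hB hC)
    have h4 : (cnt J S x : ℝ) * (#(G \ S) * tot G c S x) ≤
        6 * (1 - α) * B * (#(G \ S) * tot G c S x) := by linarith
    exact le_of_mul_le_mul_right h4 (mul_pos hN' h0)

theorem choose_ge_ratio {k z w : ℕ} (hk : k ≤ z) :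
    ((z + w).choose k : ℝ) * (1 - (k : ℝ) / (z + 1)) ^ w ≤ z.choose k := by
  have hz : (0 : ℝ) < (z : ℝ) + 1 := by positivity
  have hk' : (k : ℝ) ≤ z := by exact_mod_cast hk
  have h0 : 0 ≤ 1 - (k : ℝ) / (z + 1) := by
    rw [sub_nonneg, div_le_one hz]; linarith
  induction w with
  | zero => simp
  | succ w ih =>
    have h1 : ((z + w).choose k : ℝ) * ((z + w : ℕ) + 1) =
        (z + w + 1).choose k * (((z + w : ℕ) : ℝ) + 1 - k) := by
      have e := Nat.choose_mul_succ_eq (z + w) k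
      have h2 : k ≤ z + w + 1 := by omega
      have e2 : (((z + w + 1 - k : ℕ) : ℝ)) = ((z + w : ℕ) : ℝ) + 1 - k := by
        rw [Nat.cast_sub h2, Nat.cast_succ]
      rw [← e2]
      exact_mod_cast e
    have hy : (0 : ℝ) < ((z + w : ℕ) : ℝ) + 1 := by positivity
    have h3 : (k : ℝ) / (((z + w : ℕ) : ℝ) + 1) ≤ k / (z + 1) := by
      refine div_le_div_of_nonneg_left (Nat.cast_nonneg _) hz ?_
      push_cast
      have : (0 : ℝ) ≤ w := Nat.cast_nonneg _
      linarith
    have h4 : ((z + w + 1).choose k : ℝ) * (1 - (k : ℝ) / (z + 1)) ≤ (z + w).choose k := by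
      have e : ((z + w).choose k : ℝ) =
          (z + w + 1).choose k * (1 - (k : ℝ) / (((z + w : ℕ) : ℝ) + 1)) := by
        rw [one_sub_div hy.ne', ← mul_div_assoc, eq_div_iff hy.ne', h1]
      rw [e]
      exact mul_le_mul_of_nonneg_left (by linarith) (Nat.cast_nonneg _)
    calc ((z + (w + 1)).choose k : ℝ) * (1 - (k : ℝ) / (z + 1)) ^ (w + 1)
        = (z + w + 1).choose k * (1 - (k : ℝ) / (z + 1)) * (1 - (k : ℝ) / (z + 1)) ^ w := by
          rw [pow_succ', mul_assoc, add_assoc]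
      _ ≤ (z + w).choose k * (1 - (k : ℝ) / (z + 1)) ^ w :=
          mul_le_mul_of_nonneg_right h4 (pow_nonneg h0 _)
      _ ≤ _ := ih

theorem log_ratio_le {α η N j w : ℝ} (hη0 : 0 < η) (hη : η ≤ 1 / 4) (hα0 : 0 < α) (hα1 : α < 1)
    (hN : 0 < N) (hj0 : 0 ≤ j) (hj : j ≤ α * N + η * min α (1 - α) * N) (hw0 : 0 ≤ w)
    (hw : w ≤ η * (1 - α) * N) :
    exp (-((1 + 6 * η) * log (1 / (1 - α)))) ≤ 1 - j / (N - w + 1) := by
  have ha : 0 < 1 - α := by linarith
  have e0 : exp (-log (1 / (1 - α))) = 1 - α := by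
    rw [exp_neg, exp_log (by positivity), one_div, inv_inv]
  have e1 : exp (-((1 + 6 * η) * log (1 / (1 - α)))) =
      (1 - α) * exp (-(6 * η * log (1 / (1 - α)))) := by
    conv_rhs => rw [← e0]
    rw [← exp_add, e0]
    congr 1
    ring
  rw [e1]
  set l : ℝ := log (1 / (1 - α)) with hl
  set E : ℝ := exp (-(6 * η * l)) with hE
  have hE0 : 0 < E := exp_pos _
  have hE1 : E * (1 + 6 * η * l) ≤ 1 := by
    have h1 : 6 * η * l + 1 ≤ exp (6 * η * l) := add_one_le_exp _
    have h2 : E * exp (6 * η * l) = 1 := by rw [hE, ← exp_add]; simp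
    have := mul_le_mul_of_nonneg_left h1 hE0.le
    linarith
  have hηa : η * (1 - α) ≤ 1 / 4 := by nlinarith
  have hwN : w ≤ 1 / 4 * N := hw.trans (mul_le_mul_of_nonneg_right hηa hN.le)
  have hz : 0 < N - w + 1 := by linarith
  rw [le_sub_comm, div_le_iff₀ hz]
  rcases le_total α (1 / 2) with h | h
  · rw [min_eq_left (by linarith)] at hj
    have hlα : α ≤ l := by
      have := log_le_sub_one_of_pos ha
      rw [hl, one_div, log_inv]
      linarith
    have h1 : E * (1 + 6 * η * α) ≤ 1 := by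
      have : E * (6 * η * α) ≤ E * (6 * η * l) :=
        mul_le_mul_of_nonneg_left (mul_le_mul_of_nonneg_left hlα (by positivity)) hE0.le
      linarith
    have hD : 0 < 1 - η * (1 - α) := by linarith
    have h2 : (1 - α) * (1 - η * (1 - α)) ≤ (1 - α - η) * (1 + 6 * η * α) := by
      have : η * α * (2 - α) ≤ η * α * (6 * (1 - α - η)) :=
        mul_le_mul_of_nonneg_left (by linarith) (by positivity)
      nlinarith
    have h3 : (1 - α) * E * (1 - η * (1 - α)) ≤ 1 - α - η := by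
      have a1 := mul_le_mul_of_nonneg_left h2 hE0.le
      have a2 := mul_le_mul_of_nonneg_left h1 (by linarith : 0 ≤ 1 - α - η)
      linarith
    have h4 : α * (1 + η) ≤ (1 - (1 - α) * E) * (1 - η * (1 - α)) := by linarith
    have h5 : 0 ≤ 1 - (1 - α) * E := by
      have : 0 < α * (1 + η) := by positivity
      exact nonneg_of_mul_nonneg_left (by linarith) hD
    have h6 : (1 - η * (1 - α)) * N ≤ N - w + 1 := by linarith
    have h7 := mul_le_mul_of_nonneg_left h6 h5
    have h8 := mul_le_mul_of_nonneg_right h4 hN.le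
    linarith
  · rw [min_eq_right (by linarith)] at hj
    have hl2 : 2 / 3 ≤ l := by
      have h1 : log 2 ≤ l := log_le_log (by norm_num) (by rw [le_div_iff₀ ha]; linarith)
      have := log_two_gt_d9
      linarith
    have h1 : E * (1 + 4 * η) ≤ 1 := by
      have : E * (6 * η * (2 / 3)) ≤ E * (6 * η * l) :=
        mul_le_mul_of_nonneg_left (mul_le_mul_of_nonneg_left hl2 (by positivity)) hE0.le
      linarith
    have h2 : E ≤ 1 - 2 * η := by
      have a1 : 1 ≤ (1 - 2 * η) * (1 + 4 * η) := by nlinarith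
      exact le_of_mul_le_mul_right (h1.trans a1) (by positivity)
    have h3 : (1 - α) * E ≤ (1 - α) * (1 - 2 * η) := mul_le_mul_of_nonneg_left h2 ha.le
    have h4 : (1 - α) * (1 - 2 * η) ≤ 1 := by nlinarith
    have h5 : 0 ≤ (1 - α) * (1 - 2 * η) := mul_nonneg ha.le (by linarith)
    have h6 := mul_le_mul_of_nonneg_right h3 hz.le
    have h7 : (1 - α) * (1 - 2 * η) * (N - w + 1) ≤ (1 - α) * (1 - 2 * η) * (N + 1) :=
      mul_le_mul_of_nonneg_left (by linarith) h5
    linarith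

end Pool.Agent.P.MP_4f3dfd_co.Ex
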