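import Mathlib
import Pool.Agent.P.MP_4f3dfd_co.FDefs
import Pool.Agent.P.MP_4f3dfd_co.ED2
import Pool.Agent.P.MP_4f3dfd_co.ED3
import Pool.Agent.P.MP_4f3dfd_co.EF3
import Pool.Agent.P.MP_4f3dfd_co.FD3

set_option autoImplicit false
set_option linter.unusedSectionVars false
set_option linter.unusedVariables false

namespace Pool.Agent.P.MP_4f3dfd_co.Ex

open Finset Real

variable {V : Type*} [DecidableEq V]

/-- Fibre bound from Kruskal-Katona, uniformly in the level. -/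
theorem fib_kkU {n0 : ℕ} {G : Finset (Fin n0)} {c : ℕ} {J D : Finset (Finset (Fin n0))}
    (h : Pair G c J D) {S x : Finset (Fin n0)} (hS : S ⊆ G) (hx : x ⊆ S) (hxc : #x ≤ c)
    {α η T : ℝ} {w : ℕ} (hη0 : 0 < η) (hη : η ≤ 1 / 4) (hα0 : 0 < α) (hα1 : α < 1)
    (ht : |((c - #x : ℕ) : ℝ) - α * #(G \ S)| ≤ η * min α (1 - α) * #(G \ S))
    (hN : 1 ≤ η * (1 - α) * #(G \ S)) (hw : (w : ℝ) ≤ η * (1 - α) * #(G \ S))
    (hT : T ≤ exp (-((1 + 6 * η) * w * log (1 / (1 - α)))))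
    (hM : (cnt J S x : ℝ) ≤ T * tot G c S x) :
    (1 - 3 * η) * w * (α / (1 - α)) * cnt J S x ≤ ∑ k ∈ G \ S, (cnt (blk J D k) S x : ℝ) := by
  have h1α : 0 < 1 - α := by linarith
  have hNpos : (0 : ℝ) < #(G \ S) := by
    by_contra hc
    have : η * (1 - α) * (#(G \ S) : ℝ) ≤ 0 :=
      mul_nonpos_of_nonneg_of_nonpos (mul_pos hη0 h1α).le (not_lt.1 hc)
    linarith
  obtain ⟨hlo, hhi⟩ := abs_le.1 ht
  have hm1 : η * min α (1 - α) * (#(G \ S) : ℝ) ≤ η * α * #(G \ S) :=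
    mul_le_mul_of_nonneg_right (mul_le_mul_of_nonneg_left (min_le_left _ _) hη0.le) hNpos.le
  have hm2 : η * min α (1 - α) * (#(G \ S) : ℝ) ≤ η * (1 - α) * #(G \ S) :=
    mul_le_mul_of_nonneg_right (mul_le_mul_of_nonneg_left (min_le_right _ _) hη0.le) hNpos.le
  have hjlo : α * (1 - η) * #(G \ S) ≤ ((c - #x : ℕ) : ℝ) := by linarith
  have hjpos : (0 : ℝ) < ((c - #x : ℕ) : ℝ) :=
    lt_of_lt_of_le (mul_pos (mul_pos hα0 (by linarith)) hNpos) hjlo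
  have hjpos' : 0 < c - #x := by exact_mod_cast hjpos
  have hp := pair_fib h hx (by omega : #x < c)
  have hm3 : η * ((1 - α) * (#(G \ S) : ℝ)) ≤ 1 / 4 * ((1 - α) * #(G \ S)) :=
    mul_le_mul_of_nonneg_right hη (mul_pos h1α hNpos).le
  have hm4 : 0 < (1 - α) * (#(G \ S) : ℝ) := mul_pos h1α hNpos
  have hjw2 : ((c - #x : ℕ) : ℝ) + w ≤ #(G \ S) := by linarith
  have hjw' : c - #x + w ≤ #(G \ S) := by exact_mod_cast hjw2
  have htot : tot G c S x = (#(G \ S)).choose (c - #x) := by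
    rw [tot, card_sdiff_of_subset hS]
  have hw0 : (0 : ℝ) ≤ w := Nat.cast_nonneg _
  have hmp := choose_ge_ratio (k := c - #x) (z := #(G \ S) - w) (w := w) (by omega)
  rw [Nat.sub_add_cancel (by omega : w ≤ #(G \ S)), Nat.cast_sub (by omega : w ≤ #(G \ S))] at hmp
  have hγ := log_ratio_le (N := (#(G \ S) : ℝ)) (j := ((c - #x : ℕ) : ℝ)) (w := (w : ℝ)) hη0 hη hα0
    hα1 hNpos hjpos.le (by linarith) hw0 hw
  have hpow : exp (-((1 + 6 * η) * w * log (1 / (1 - α)))) ≤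
      (1 - ((c - #x : ℕ) : ℝ) / ((#(G \ S) : ℝ) - w + 1)) ^ w := by
    have e : -((1 + 6 * η) * w * log (1 / (1 - α))) =
        (w : ℝ) * (-((1 + 6 * η) * log (1 / (1 - α)))) := by ring
    rw [e, exp_nat_mul]
    exact pow_le_pow_left₀ (exp_pos _).le hγ w
  have hC : (0 : ℝ) ≤ ((#(G \ S)).choose (c - #x) : ℝ) := Nat.cast_nonneg _
  have hA : (#(fib J S x) : ℝ) ≤ ((#(G \ S) - w).choose (c - #x) : ℝ) := by
    rw [card_fib]
    rw [htot] at hM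
    calc (cnt J S x : ℝ) ≤ T * ((#(G \ S)).choose (c - #x) : ℝ) := hM
      _ ≤ (1 - ((c - #x : ℕ) : ℝ) / ((#(G \ S) : ℝ) - w + 1)) ^ w *
          ((#(G \ S)).choose (c - #x) : ℝ) := mul_le_mul_of_nonneg_right (hT.trans hpow) hC
      _ ≤ _ := by rw [mul_comm]; exact hmp
  have hk := exc_ge_kk hp hjw' (by exact_mod_cast hA)
  rw [card_fib, ef3_exc J D hx] at hk
  set B : ℝ := ∑ k ∈ G \ S, (cnt (blk J D k) S x : ℝ) with hBdef
  have hB : 0 ≤ B := sum_nonneg fun k _ => Nat.cast_nonneg _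
  have hc0 : (0 : ℝ) ≤ cnt J S x := Nat.cast_nonneg _
  have hup : (#(G \ S) : ℝ) - ((c - #x : ℕ) : ℝ) + 1 ≤ (1 - α) * (1 + 2 * η) * #(G \ S) := by
    linarith
  have h1 : α * (1 - η) * #(G \ S) * (w * cnt J S x) ≤ ((c - #x : ℕ) : ℝ) * (w * cnt J S x) :=
    mul_le_mul_of_nonneg_right hjlo (mul_nonneg hw0 hc0)
  have h2 : ((#(G \ S) : ℝ) - ((c - #x : ℕ) : ℝ) + 1) * B ≤
      (1 - α) * (1 + 2 * η) * #(G \ S) * B :=
    mul_le_mul_of_nonneg_right hup hB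
  have h3 : (α * (1 - η) * (w * cnt J S x)) * #(G \ S) ≤
      (B * ((1 - α) * (1 + 2 * η))) * #(G \ S) := by
    linarith
  have h4 := le_of_mul_le_mul_right h3 hNpos
  have hP : 0 ≤ α * (w * (cnt J S x : ℝ)) := mul_nonneg hα0.le (mul_nonneg hw0 hc0)
  have h5 : (1 - 3 * η) * (1 + 2 * η) ≤ 1 - η := by nlinarith [sq_nonneg η]
  have h6 := mul_le_mul_of_nonneg_right h5 hP
  have h7 : ((1 - 3 * η) * w * α * cnt J S x) * (1 + 2 * η) ≤ (B * (1 - α)) * (1 + 2 * η) := by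
    linarith
  have h8 := le_of_mul_le_mul_right h7 (by linarith)
  have e : (1 - 3 * η) * w * (α / (1 - α)) * cnt J S x =
      ((1 - 3 * η) * w * α * cnt J S x) / (1 - α) := by ring
  rw [e, div_le_iff₀ h1α]
  exact h8

end Pool.Agent.P.MP_4f3dfd_co.Ex
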