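import Mathlib
import Pool.Agent.P.MP_4f3dfd_co.FDefs
import Pool.Agent.P.MP_4f3dfd_co.EF1
import Pool.Agent.P.MP_4f3dfd_co.ENum
import Pool.Agent.P.MP_4f3dfd_co.EDual

set_option autoImplicit false
set_option linter.unusedSectionVars false
set_option linter.unusedVariables false

namespace Pool.Agent.P.MP_4f3dfd_co.Ex

open Finset Real

theorem ex_nonneg' {n c m : ℕ} (hc : 1 ≤ c) {J : Finset (Finset (Fin n))} (hJ : Reg n c m J) :
    0 ≤ ex n c m #(shadow J) := by
  rw [← exc_shadow hc hJ]; positivity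

/-- The dual pair of a regular family. -/
theorem dual_pack {n c k m m' : ℕ} (hk : c + k = n) (hc : 1 ≤ c) (hm : m + m' = n.choose c)
    {J : Finset (Finset (Fin n))} (hJ : Reg n c m J) :
    ∃ (Js Ds : Finset (Finset (Fin n))) (μ : ℝ),
      Pair univ (k + 1) Js Ds ∧ (exc univ Js Ds : ℝ) = ex n c m #(shadow J) ∧
      #Ds = m' ∧ (∃ d : ℕ, ∀ i, deg Ds i = d) ∧
      (∀ i, (k : ℝ) * #(blk Js Ds i) ≤ exc univ Js Ds) ∧
      μ * n.choose (k + 1) = #Js ∧
      ((k : ℝ) + 1) * #Js = c * m' - exc univ Js Ds ∧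
      μ * (c * n.choose c) = c * m' - exc univ Js Ds := by
  have hcn : c ≤ n := by omega
  obtain rfl : k = n - c := by omega
  have hp := pair_shadow hc hJ.1
  have hp' := pair_co hcn hp
  have hcast0 : ((n - c : ℕ) : ℝ) = (n : ℝ) - c := Nat.cast_sub hcn
  have hcast : ((n - c + 1 : ℕ) : ℝ) = (n : ℝ) - c + 1 := by
    rw [Nat.cast_add, Nat.cast_sub hcn, Nat.cast_one]
  have hk : n - c + c = n := Nat.sub_add_cancel hcn
  obtain ⟨d, hd⟩ := hJ.2.2
  obtain ⟨d', hd'⟩ := reg_co hk hp.hJ (d := d) hd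
  have h1 := card_co hk hp.hJ
  rw [hJ.2.1, Nat.choose_symm hcn] at h1
  have h1' : #(co (n - c) J) = m' := by omega
  have h2 := pair_card hp'
  rw [card_fin, hcast, h1'] at h2
  have h3 := choose_pred (z := n) (k := n - c + 1) (by omega)
  rw [hcast, Nat.add_sub_cancel, Nat.choose_symm hcn] at h3
  have hpos : (0 : ℝ) < n.choose (n - c + 1) := by
    exact_mod_cast Nat.choose_pos (by omega)
  have h4 : (#(co (n - c + 1) (shadow J)) : ℝ) / n.choose (n - c + 1) * n.choose (n - c + 1) =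
      #(co (n - c + 1) (shadow J)) := div_mul_cancel₀ _ hpos.ne'
  refine ⟨_, _, _, hp', ?_, h1', ⟨d', hd'⟩, fun k => ?_, h4, by rw [hcast0]; linarith, ?_⟩
  · rw [exc_co hcn hp, exc_shadow hc hJ]
  · have := blk_le_of_regD hp' (fun i _ => hd' i) (mem_univ k)
    rw [hcast] at this
    rw [hcast0]
    linarith
  · have h5 : (c : ℝ) * n.choose c = ((n : ℝ) - c + 1) * n.choose (n - c + 1) := by linarith
    rw [h5, mul_left_comm, h4]
    linarith

end Pool.Agent.P.MP_4f3dfd_co.Ex
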