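import Mathlib
import Pool.Agent.P.MP_4f3dfd_co.FDefs
import Pool.Agent.P.MP_4f3dfd_co.ED1
import Pool.Agent.P.MP_4f3dfd_co.ED2
import Pool.Agent.P.MP_4f3dfd_co.ENum
import Pool.Agent.P.MP_4f3dfd_co.FA4
import Pool.Agent.P.MP_4f3dfd_co.FC3
import Pool.Agent.P.MP_4f3dfd_co.FC5
import Pool.Agent.P.MP_4f3dfd_co.FC6
import Pool.Agent.P.MP_4f3dfd_co.FD1
import Pool.Agent.P.MP_4f3dfd_co.FD3
import Pool.Agent.P.MP_4f3dfd_co.FD4

set_option autoImplicit false
set_option linter.unusedSectionVars false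
set_option linter.unusedVariables false

namespace Pool.Agent.P.MP_4f3dfd_co.Ex

open Finset Real

variable {V : Type*} [DecidableEq V]

theorem fe0_wp {C m : ℕ} {μ θ : ℝ} (hC : 0 < C) (hμ : 0 < μ) (h : μ * C = m) :
    wp C m (1 + θ) = m * μ ^ θ := by
  have hC' : (C : ℝ) ≠ 0 := by exact_mod_cast hC.ne'
  rw [wp, ← h, mul_div_assoc, div_self hC', mul_one, rpow_add hμ, rpow_one]
  ring

theorem fe0_blk {a e n c μ b B m C C1 l0 l L : ℝ} (ha : 0 < a) (hn : 0 < n) (hμ : 0 < μ)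
    (hl : l = log n) (hL : L = log (1 / μ)) (hm : μ * C = m) (hC1 : n * C1 = c * C)
    (hC10 : 0 ≤ C1) (hnc : 3 * a * n ≤ n - c) (hl0 : 3 * a ≤ l0) (hΛ0 : 0 ≤ l + L)
    (h1 : a * n * b ≤ B) (h2 : B ≤ c / ((n - c) * l0) * (m * (l + L)))
    (h3 : l + L ≤ exp (e * l)) (h4 : 1 ≤ a ^ 3 * exp (e * L)) :
    b ≤ exp (-((1 - e) * (l + L))) * C1 := by
  have han : 0 < 3 * a * n := by positivity
  have hd : 0 < n - c := han.trans_le hnc
  have hl1 : 0 < l0 := lt_of_lt_of_le (by positivity) hl0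
  have e1 : exp (-(l + L)) * n = μ := by
    rw [hl, hL, ← log_mul hn.ne' (by positivity), exp_neg, exp_log (by positivity)]
    field_simp
  have e2 : exp (-((1 - e) * (l + L))) = exp (-(l + L)) * (exp (e * l) * exp (e * L)) := by
    rw [← exp_add, ← exp_add]
    congr 1
    ring
  have e3 : c / ((n - c) * l0) * (m * (l + L)) = n * C1 * μ * (l + L) / ((n - c) * l0) := by
    rw [hC1, ← hm]
    field_simp
  have e4 : n * C1 * μ * (l + L) / ((n - c) * l0) ≤
      n * C1 * μ * exp (e * l) / (3 * a * n * (3 * a)) := by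
    gcongr
  have e5 : n * C1 * μ * exp (e * l) / (3 * a * n * (3 * a)) =
      C1 * μ * exp (e * l) / (9 * a ^ 2) * 1 := by
    field_simp
    ring
  have e6 : C1 * μ * exp (e * l) / (9 * a ^ 2) * 1 ≤
      C1 * μ * exp (e * l) / (1 * a ^ 2) * (a ^ 3 * exp (e * L)) := by
    gcongr
    norm_num
  have e7 : C1 * μ * exp (e * l) / (1 * a ^ 2) * (a ^ 3 * exp (e * L)) =
      a * n * (exp (-(l + L)) * (exp (e * l) * exp (e * L)) * C1) := by
    rw [← e1]
    field_simp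
  rw [e2]
  refine le_of_mul_le_mul_left (a := a * n) ?_ (by positivity)
  linarith only [h1, h2, e3, e4, e5, e6, e7]

theorem fe0_main {Γ t e K0 Λ B κ m y z : ℝ} (hΓ : 0 ≤ Γ) (ht : 0 < t) (he0 : 0 < e)
    (he : e ≤ 1 / 8) (hK0 : log (10 ^ 5 / e ^ 2) ≤ K0) (hΛ : 0 < Λ) (hB0 : 0 ≤ B) (hm : 0 ≤ m)
    (hB : B ≤ κ * (m * Λ)) (hk : Γ * κ * e ≤ 20250 * t) (hz : y + K0 ≤ z) :
    4 * Γ / (t * ((1 - e) * Λ)) * B * exp (-z) ≤ e * m * exp (-y) := by
  have h1e : 0 < 1 - e := by linarith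
  have e1 : exp (-K0) ≤ e ^ 2 / 10 ^ 5 := by
    refine (exp_le_exp.2 (neg_le_neg hK0)).trans (le_of_eq ?_)
    rw [exp_neg, exp_log (by positivity), inv_div]
  have e2 : exp (-z) ≤ exp (-y) * (e ^ 2 / 10 ^ 5) := by
    calc exp (-z) ≤ exp (-y + -K0) := exp_le_exp.2 (by linarith)
      _ = exp (-y) * exp (-K0) := exp_add _ _
      _ ≤ _ := by gcongr
  have e3 : Γ * κ * e / t ≤ 20250 := by
    rw [div_le_iff₀ ht]
    exact hk
  have e4 : 1 / (1 - e) ≤ 8 / 7 := by
    rw [div_le_iff₀ h1e]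
    linarith only [he]
  have e5 : 0 ≤ e * m * exp (-y) := by positivity
  have e6 : 0 ≤ κ * (m * Λ) := hB0.trans hB
  calc _ ≤ 4 * Γ / (t * ((1 - e) * Λ)) * (κ * (m * Λ)) * (exp (-y) * (e ^ 2 / 10 ^ 5)) := by
        gcongr
    _ = 4 / 10 ^ 5 * (e * m * exp (-y)) * (1 / (1 - e)) * (Γ * κ * e / t) := by
        field_simp
    _ ≤ 4 / 10 ^ 5 * (e * m * exp (-y)) * (1 / (1 - e)) * 20250 := by gcongr
    _ ≤ 4 / 10 ^ 5 * (e * m * exp (-y)) * (8 / 7) * 20250 := by gcongr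
    _ ≤ _ := by linarith

theorem fe0_l0 {n c : ℝ} (hn : 0 < n) (hd : 0 < n - c) : c / n ≤ log (n / (n - c)) := by
  have h := one_sub_inv_le_log_of_pos (div_pos hn hd)
  have e : 1 - (n / (n - c))⁻¹ = c / n := by
    field_simp
    ring
  rwa [e] at h

theorem fe0_small {n c e θ : ℝ} (hn : 0 < n) (hc : 0 < c) (h2 : 2 * c ≤ n) (he0 : 0 < e)
    (he : e ≤ 1 / 8) (hθ : 0 < θ) :
    10 * θ * (c / ((n - c) * log (n / (n - c)))) * e ≤ 20250 * (θ / (1 + e)) := by
  have hd : 0 < n - c := by linarith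
  have h0 := fe0_l0 hn hd
  have h1 : 0 < c / n := div_pos hc hn
  have h3 : c / ((n - c) * log (n / (n - c))) ≤ 2 := by
    calc _ ≤ c / (n / 2 * (c / n)) := by
          gcongr
          linarith
      _ = 2 := by field_simp
  have h4 : θ / 2 ≤ θ / (1 + e) := by
    gcongr
    linarith
  calc _ ≤ 10 * θ * 2 * (1 / 8) := by gcongr
    _ ≤ _ := by linarith

theorem fe0_large {n c e a θ : ℝ} (hn : 0 < n) (hc : 0 < c) (h2 : n ≤ 2 * c) (ha : 0 < a)
    (h3 : 3 * a * n = n - c) (he0 : 0 < e) (he : e ≤ 1 / 8) (hθ : θ = e / (6 * bt a)) :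
    60 * (1 - c / n) * (c / ((n - c) * log (n / (n - c)))) * e ≤ 20250 * (θ / (1 + e)) := by
  have hd : 0 < n - c := by
    rw [← h3]
    positivity
  have l2 := log_two_gt_d9
  have l2' := log_two_lt_d9
  have l3 : log 3 ≤ 2 * log 2 := by
    have : log 3 ≤ log (2 ^ 2) := log_le_log (by norm_num) (by norm_num)
    rwa [log_pow] at this
  have h0 : log 2 ≤ log (n / (n - c)) := by
    refine log_le_log two_pos ?_
    rw [le_div_iff₀ hd]
    linarith
  have h1 : log (1 / a) = log 3 + log (n / (n - c)) := by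
    rw [← log_mul (by norm_num) (div_pos hn hd).ne', ← h3]
    congr 1
    field_simp
  have h4 : bt a = 30 + 2 * (log 3 + log (n / (n - c))) := by rw [bt, h1]
  have l30 : 0 ≤ log 3 := log_nonneg (by norm_num)
  generalize log (n / (n - c)) = l0 at h0 h4
  have hl0 : 0 < l0 := by linarith
  have hb0 : 0 < bt a := by linarith
  have hb1 : bt a ≤ 50 * l0 := by linarith
  have e1 : 60 * (1 - c / n) * (c / ((n - c) * l0)) * e = 60 * e / l0 * (c / n) := by
    field_simp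
  have e2 : c / n ≤ 1 := by
    rw [div_le_one hn]
    linarith
  have e3 : e / (6 * (50 * l0)) / (9 / 8) ≤ θ / (1 + e) := by
    rw [hθ]
    gcongr
    linarith only [he]
  have e4 : 20250 * (e / (6 * (50 * l0)) / (9 / 8)) = 60 * e / l0 * 1 := by
    field_simp
    norm_num
  have e5 : 60 * e / l0 * (c / n) ≤ 60 * e / l0 * 1 := by gcongr
  linarith only [e1, e3, e4, e5]

/-- The moment bound used by the sharp core. -/
theorem sharp_moment (e K1 : ℝ) (he0 : 0 < e) (he : e ≤ 1 / 8) (hK1 : 0 < K1) :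
    ∃ K0 : ℝ, 1 ≤ K0 ∧ ∃ N : ℕ,
    ∀ (n0 : ℕ) (G : Finset (Fin n0)) (c : ℕ) (J D : Finset (Finset (Fin n0))) (μ : ℝ), N ≤ #G →
      Pair G c J D → (#G : ℝ) ^ (-(1 / 6) : ℝ) ≤ aa #G c → μ * (#G).choose c = #J →
      (∀ k ∈ G, aa #G c * #G * #(blk J D k) ≤ exc G J D) →
      (#G : ℝ) ^ (-K1) ≤ μ → 2 / e * bt (aa #G c) ≤ log (1 / μ) →
      (exc G J D : ℝ) ≤
        c / (((#G : ℝ) - c) * log (#G / ((#G : ℝ) - c))) * (#J * log (#G / μ)) →
      ∀ (θ : ℝ) (N1 : ℕ), θ = e / (6 * bt (aa #G c)) → N1 ≤ #G →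
      (N1 = #G ∨ #G * (θ * log (1 / μ) + K0) ≤ θ / (1 + e) * ((1 - e) * log (#G / μ)) * N1) →
      Av G (#G - N1) (pw J G c (1 + θ)) ≤ (1 + 2 * e) * #J * μ ^ θ := by
  have hK : 0 < 2 * K1 + 1 + 6 / e := by positivity
  have q1 : 0 < 6 / e := by positivity
  have q2 : 0 < 2 * (K1 + 1) / e ^ 2 := by positivity
  obtain ⟨N, hN⟩ := momentU e (2 * K1 + 1 + 6 / e) he0 hK
  obtain ⟨N', hN'⟩ := ev_log (45 + (K1 + 1) + 2 * (K1 + 1) / e ^ 2)
  refine ⟨max 1 (log (10 ^ 5 / e ^ 2)), le_max_left _ _, N + N' + 1, ?_⟩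
  intro n0 G c J D μ hG hP hpa hm hb hμ hLb hB θ N1 hθ hN1 hor
  have hK01 := le_max_left 1 (log (10 ^ 5 / e ^ 2))
  have hK02 := le_max_right 1 (log (10 ^ 5 / e ^ 2))
  generalize max 1 (log (10 ^ 5 / e ^ 2)) = K0 at hK01 hK02 hor
  have hn1 : 1 ≤ #G := by omega
  have hn : (0 : ℝ) < #G := by exact_mod_cast hn1
  have hn1' : (1 : ℝ) ≤ #G := by exact_mod_cast hn1
  have h1 := aa_lo hn1 c
  have h2 := aa_hi hn1 c
  have ha6 := aa_le hn1 c
  have ham := aa_mul hn1 c
  generalize aa #G c = a at hpa hb hLb hθ h1 h2 ha6 ham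
  have hp6 : 0 < (#G : ℝ) ^ (-(1 / 6) : ℝ) := rpow_pos_of_pos hn _
  have ha : 0 < a := hp6.trans_le hpa
  have han : 0 < a * #G := by positivity
  have hb30 := bt_ge ha (by linarith only [he0, he, ha6])
  have hlb := log_le_bt a
  have hc0 : (0 : ℝ) < c := by linarith only [h1, han]
  have hd : (0 : ℝ) < #G - c := by linarith
  have hcn : c ≤ #G := by
    have : (c : ℝ) ≤ #G := by linarith
    exact_mod_cast this
  have hC : 0 < (#G).choose c := Nat.choose_pos hcn
  have hC' : (0 : ℝ) < (#G).choose c := by exact_mod_cast hC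
  have hpw : 0 < (#G : ℝ) ^ (-K1) := rpow_pos_of_pos hn _
  have hμ0 : 0 < μ := hpw.trans_le hμ
  have hw := fe0_wp (θ := θ) hC hμ0 hm
  obtain ⟨l1, l2, l3⟩ := hN' #G (by omega)
  have hla : log (1 / a) ≤ log #G / 6 := by
    have := log_le_log hp6 hpa
    rw [log_rpow hn] at this
    rw [one_div, log_inv]
    linarith only [this]
  have hla0 : 0 ≤ log (1 / a) := log_nonneg (by rw [le_div_iff₀ ha]; linarith only [he0, he, ha6])
  have hbl : bt a ≤ log #G := by
    unfold bt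
    linarith only [he0, he, hK1, q2, l2, hla]
  have hθ0 : 0 < θ := by
    rw [hθ]
    positivity
  have hθb : θ * bt a = e / 6 := by
    rw [hθ]
    field_simp
  have hθ1 : θ ≤ 1 := by nlinarith only [he0, he, hb30, hθ0, hθb]
  have ht : tt a θ = θ / (1 + e) := by
    unfold tt
    rw [mul_assoc, hθb]
    congr 2
    ring
  have ht0 : 0 < θ / (1 + e) := by positivity
  have htθ : θ / (1 + e) ≤ θ := div_le_self hθ0.le (by linarith only [he0])
  have hL : log (1 / μ) = -log μ := by rw [one_div, log_inv]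
  have hLb' : 2 * bt a ≤ e * log (1 / μ) := by
    have := mul_le_mul_of_nonneg_left hLb he0.le
    have e1 : e * (2 / e * bt a) = 2 * bt a := by field_simp
    linarith only [this, e1]
  have hL0 : 0 < log (1 / μ) := lt_of_lt_of_le (by positivity) hLb
  have hμ1 : μ ≤ 1 := by
    by_contra h
    have := log_pos (not_le.1 h)
    linarith only [hL, hL0, this]
  have hLK : -K1 * log #G ≤ log μ := by
    rw [← log_rpow hn]
    exact log_le_log hpw hμ
  have hΛ : log (#G / μ) = log #G + log (1 / μ) := by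
    rw [log_div hn.ne' hμ0.ne', hL]
    ring
  have hΛ2 : log (#G / μ) ≤ (K1 + 1) * log #G := by linarith only [hL, hLK, hΛ]
  have hΛ0 : 0 < log (#G / μ) := by linarith only [he0, he, hK1, q2, l2, hL0, hΛ]
  have hW0 : 0 < (1 - e) * log (#G / μ) := mul_pos (by linarith only [he0, he]) hΛ0
  have hW1 : (1 - e) * log (#G / μ) ≤ (K1 + 1) * log #G := by
    have := mul_nonneg he0.le hΛ0.le
    linarith only [hL, hLK, hΛ, this]
  have hl0 : (0 : ℝ) < log #G := by linarith only [he0, he, hK1, q2, l2]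
  have hKn : (K1 + 1) * log #G ≤ #G := by
    have p3 : log (#G : ℝ) ≤ log (#G : ℝ) ^ 3 := le_self_pow₀ l1 three_ne_zero
    exact le_trans (mul_le_mul (by linarith only [he0, he, q2]) p3 hl0.le (by positivity)) l3
  have hKe : (K1 + 1) * log #G ≤ exp (e * log #G) := by
    have q := quadratic_le_exp_of_nonneg (x := e * log #G) (by positivity)
    have q3 : 2 * (K1 + 1) / e ^ 2 ≤ log #G := by linarith only [he0, he, hK1, l2]
    rw [div_le_iff₀ (by positivity)] at q3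
    have q4 := mul_le_mul_of_nonneg_right q3 hl0.le
    have q5 : 0 ≤ e * log #G := by positivity
    nlinarith only [he0, he, q, q4, q5]
  have ha3 : 1 ≤ a ^ 3 * exp (e * log (1 / μ)) := by
    have e1 : exp (3 * log (1 / a)) = (1 / a) ^ 3 := by
      rw [show (3 : ℝ) * log (1 / a) = (3 : ℕ) * log (1 / a) by norm_num, ← log_pow,
        exp_log (by positivity)]
    have e2 : exp (3 * log (1 / a)) ≤ exp (e * log (1 / μ)) := exp_le_exp.2 (by linarith only [he0, he, hb30, hlb, hLb'])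
    calc (1 : ℝ) = a ^ 3 * (1 / a) ^ 3 := by field_simp
      _ ≤ _ := by
        rw [← e1]
        gcongr
  have hl3 : 3 * a ≤ log (#G / ((#G : ℝ) - c)) := by
    refine le_trans ?_ (fe0_l0 hn hd)
    rw [le_div_iff₀ hn]
    exact h1
  have hblk : ∀ k ∈ G, (#(blk J D k) : ℝ) ≤
      exp (-((1 - e) * log (#G / μ))) * (#G - 1).choose (c - 1) := fun k hk => by
    rw [hΛ]
    rw [hΛ] at hB
    exact fe0_blk ha hn hμ0 rfl rfl hm (choose_pred_pred hn1 hP.pos) (Nat.cast_nonneg _)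
      (by linarith only [h2]) hl3 (by linarith only [he0, he, hK1, q2, l2, hL0]) (hb k hk) hB (by linarith only [hL, hLK, hKe]) ha3
  have hKθ : 1 ≤ (2 * K1 + 1 + 6 / e) * θ * log #G := by
    have e1 : 6 / e * θ * bt a = 1 := by
      rw [mul_assoc, hθb]
      field_simp
    calc (1 : ℝ) = 6 / e * θ * bt a := e1.symm
      _ ≤ _ := by
        gcongr
        linarith only [he0, he, hK1]
  have hN10 : (0 : ℝ) ≤ N1 := Nat.cast_nonneg _
  have hlow : (#G : ℝ) ≤ (2 * K1 + 1 + 6 / e) * log #G * N1 := by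
    have e0 : (K1 + 1) * log #G * N1 ≤ (2 * K1 + 1 + 6 / e) * log #G * N1 :=
      mul_le_mul_of_nonneg_right (mul_le_mul_of_nonneg_right (by linarith only [hK1, q1]) hl0.le) hN10
    refine le_trans ?_ e0
    rcases hor with h | h
    · rw [h]
      have : 1 * 1 * (#G : ℝ) ≤ (K1 + 1) * log #G * #G := by
        gcongr
        linarith only [hK1]
      linarith only [this]
    · have e1 : 0 ≤ θ * log (1 / μ) := mul_nonneg hθ0.le hL0.le
      have e2 : θ / (1 + e) * ((1 - e) * log (#G / μ)) ≤ 1 * ((K1 + 1) * log #G) :=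
        mul_le_mul (by linarith only [hθ1, htθ]) hW1 hW0.le zero_le_one
      calc (#G : ℝ) = #G * 1 := (mul_one _).symm
        _ ≤ #G * (θ * log (1 / μ) + K0) := by
          gcongr
          linarith only [hK01, e1]
        _ ≤ _ := h
        _ ≤ 1 * ((K1 + 1) * log #G) * N1 := by gcongr
        _ = _ := by rw [one_mul]
  have hμθ : exp (-(θ * log (1 / μ))) = μ ^ θ := by
    rw [rpow_def_of_pos hμ0, hL]
    congr 1
    ring
  have hlast : (#G : ℝ) ^ (-(2 * K1 + 1 + 6 / e)) * (#G).choose c ≤ #J * μ ^ θ := by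
    have e0 : (#G : ℝ) ^ (-(2 * K1 + 1 + 6 / e)) ≤ (#G : ℝ) ^ (-(2 * K1)) :=
      rpow_le_rpow_of_exponent_le hn1' (by linarith only [he0, he, q1])
    have e1 : (#G : ℝ) ^ (-(2 * K1)) = (#G : ℝ) ^ (-K1) * (#G : ℝ) ^ (-K1) := by
      rw [← rpow_add hn]
      congr 1
      ring
    have e2 : μ ≤ μ ^ θ := by
      have := rpow_le_rpow_of_exponent_ge hμ0 hμ1 hθ1
      rwa [rpow_one] at this
    have e3 : (#G : ℝ) ^ (-(2 * K1)) ≤ μ * μ ^ θ := by
      rw [e1]
      exact mul_le_mul hμ (hμ.trans e2) hpw.le hμ0.le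
    calc _ ≤ μ * μ ^ θ * (#G).choose c := by
          gcongr
          exact e0.trans e3
      _ = _ := by
        rw [← hm]
        ring
  have key : ∀ Γ : ℝ, 0 ≤ Γ → Γ ≤ 60 → Step G c J D a θ θ Γ →
      Γ * (c / (((#G : ℝ) - c) * log (#G / ((#G : ℝ) - c)))) * e ≤ 20250 * (θ / (1 + e)) →
      Av G (#G - N1) (pw J G c (1 + θ)) ≤ (1 + 2 * e) * #J * μ ^ θ := by
    intro Γ g0 g1 g2 g3
    have hT := hN n0 G c N1 J D a θ θ Γ ((1 - e) * log (#G / μ)) (e * #J * μ ^ θ) (by omega) hP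
      hpa h1 h2 hθ0 (by linarith only [he0, he, hθb]) hKθ g0 g1 g2 hN1 hlow hW0 (by linarith only [hW1, hKn]) hblk (by positivity)
      (hor.imp id fun h => by
        rw [ht, ← hμθ]
        refine fe0_main g0 ht0 he0 he hK02 hΛ0 (Nat.cast_nonneg _) (Nat.cast_nonneg _) hB g3 ?_
        rw [le_div_iff₀ hn]
        linarith only [h])
    rw [hw] at hT
    have := mul_le_mul_of_nonneg_left hlast he0.le
    linarith only [hT, this]
  rcases le_or_gt (2 * c) #G with h | h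
  · have h' : 2 * (c : ℝ) ≤ #G := by exact_mod_cast h
    exact key (10 * θ) (by positivity) (by linarith only [he0, he, hθ1])
      (stepS hP ha (by linarith only [h1, han]) h hθ0 le_rfl hθ1) (fe0_small hn hc0 h' he0 he hθ0)
  · have h' : (#G : ℝ) ≤ 2 * c := by exact_mod_cast h.le
    have g1 : (c : ℝ) / #G ≤ 1 := by
      rw [div_le_one hn]
      linarith only [h2, han]
    have g2 : 0 ≤ (c : ℝ) / #G := by positivity
    have g3 : θ * log (1 / a) ≤ 1 := by
      have : θ * log (1 / a) ≤ θ * bt a := by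
        gcongr
        linarith only [he0, he, hb30, hlb]
      linarith only [he0, he, hθb, this]
    rw [min_eq_right (by linarith only [h'])] at ham
    exact key (60 * (1 - (c : ℝ) / #G)) (by linarith only [g1]) (by linarith only [g2])
      (stepG hP ha hn1 (by linarith only [h1, ham]) (by linarith only [h2, han]) hθ0 le_rfl hθ1 g3)
      (fe0_large hn hc0 h' ha ham he0 he hθ)

end Pool.Agent.P.MP_4f3dfd_co.Ex
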