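import Mathlib
import Pool.Agent.P.MP_4f3dfd_co.FDefs
import Pool.Agent.P.MP_4f3dfd_co.ED1
import Pool.Agent.P.MP_4f3dfd_co.ED2
import Pool.Agent.P.MP_4f3dfd_co.ENum
import Pool.Agent.P.MP_4f3dfd_co.FA4
import Pool.Agent.P.MP_4f3dfd_co.FC3
import Pool.Agent.P.MP_4f3dfd_co.FC5
import Pool.Agent.P.MP_4f3dfd_co.FC6
import Pool.Agent.P.MP_4f3dfd_co.FD1
import Pool.Agent.P.MP_4f3dfd_co.FD3
import Pool.Agent.P.MP_4f3dfd_co.FD4
import Pool.Agent.P.MP_4f3dfd_co.FE0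

set_option autoImplicit false
set_option linter.unusedSectionVars false
set_option linter.unusedVariables false

namespace Pool.Agent.P.MP_4f3dfd_co.Ex

open Finset Real

variable {V : Type*} [DecidableEq V]

theorem fe1_final {e Y Λ n N1 κ m B β : ℝ} (he0 : 0 < e) (he : e ≤ 1 / 16) (hY : 0 < Y)
    (hΛ : 0 < Λ) (hn : 0 < n) (hv : N1 * ((1 - e) * Λ) ≤ (1 + e) ^ 2 * (n * Y)) (hκ : 0 ≤ κ)
    (hβ : (1 - 3 * e) * ((1 - e) * Y) * κ ≤ (1 + 6 * e) * β) (hm : 0 ≤ m) (hB : 0 ≤ B)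
    (hmain : β * ((1 - e) * m) ≤ N1 / n * B) : (1 - 16 * e) * κ * (m * Λ) ≤ B := by
  have he1 : 0 < 1 - e := by linarith
  have he6 : 0 < 1 + 6 * e := by linarith
  have h1 : N1 / n * ((1 - e) * Λ) ≤ (1 + e) ^ 2 * Y := by
    rw [div_mul_eq_mul_div, div_le_iff₀ hn]
    linarith
  have h2 : Y * ((1 - 3 * e) * (1 - e) ^ 3 * (κ * (m * Λ))) ≤
      Y * ((1 + 6 * e) * (1 + e) ^ 2 * B) := by
    calc Y * ((1 - 3 * e) * (1 - e) ^ 3 * (κ * (m * Λ)))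
        = ((1 - 3 * e) * ((1 - e) * Y) * κ) * (((1 - e) * m) * ((1 - e) * Λ)) := by ring
      _ ≤ ((1 + 6 * e) * β) * (((1 - e) * m) * ((1 - e) * Λ)) :=
          mul_le_mul_of_nonneg_right hβ (by positivity)
      _ = (β * ((1 - e) * m)) * ((1 + 6 * e) * ((1 - e) * Λ)) := by ring
      _ ≤ (N1 / n * B) * ((1 + 6 * e) * ((1 - e) * Λ)) :=
          mul_le_mul_of_nonneg_right hmain (by positivity)
      _ = (N1 / n * ((1 - e) * Λ)) * ((1 + 6 * e) * B) := by ring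
      _ ≤ ((1 + e) ^ 2 * Y) * ((1 + 6 * e) * B) := mul_le_mul_of_nonneg_right h1 (by positivity)
      _ = _ := by ring
  have h3 := le_of_mul_le_mul_left h2 hY
  have h4 : (1 + 6 * e) * (1 + e) ^ 2 * (1 - 16 * e) ≤ (1 - 3 * e) * (1 - e) ^ 3 := by
    have h5 : 1 + (3 : ℕ) * (-e) ≤ (1 + -e) ^ 3 := one_add_mul_le_pow (by linarith) 3
    have h6 : (1 + -e) = 1 - e := by ring
    rw [h6] at h5
    push_cast at h5
    have h7 : (1 - 3 * e) * (1 - 3 * e) ≤ (1 - 3 * e) * (1 - e) ^ 3 :=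
      mul_le_mul_of_nonneg_left (by linarith) (by linarith)
    have h8 : 0 ≤ e ^ 2 := by positivity
    have h9 : 0 ≤ e ^ 3 := by positivity
    have h10 : 0 ≤ e ^ 4 := by positivity
    have h11 : (1 + 6 * e) * (1 + e) ^ 2 * (1 - 16 * e) =
        1 - 8 * e - 115 * e ^ 2 - 202 * e ^ 3 - 96 * e ^ 4 := by ring
    have h12 : (1 - 3 * e) * (1 - 3 * e) = 1 - 6 * e + 9 * e ^ 2 := by ring
    linarith
  have h5 : 0 ≤ κ * (m * Λ) := by positivity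
  have h6 : ((1 + 6 * e) * (1 + e) ^ 2) * ((1 - 16 * e) * κ * (m * Λ)) ≤
      ((1 + 6 * e) * (1 + e) ^ 2) * B := by
    calc ((1 + 6 * e) * (1 + e) ^ 2) * ((1 - 16 * e) * κ * (m * Λ))
        = ((1 + 6 * e) * (1 + e) ^ 2 * (1 - 16 * e)) * (κ * (m * Λ)) := by ring
      _ ≤ ((1 - 3 * e) * (1 - e) ^ 3) * (κ * (m * Λ)) := mul_le_mul_of_nonneg_right h4 h5
      _ ≤ _ := h3
  exact le_of_mul_le_mul_left h6 (by positivity)

theorem fe1_log_ge {α : ℝ} (h : α < 1) : α ≤ log (1 / (1 - α)) := by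
  have h1 : 0 < 1 - α := by linarith
  have h2 := Real.log_le_sub_one_of_pos h1
  rw [one_div, log_inv]
  linarith

theorem fe1_kappa {c n : ℝ} (hn : 0 < n) (hc : c < n) :
    c / ((n - c) * log (n / (n - c))) = c / n / ((1 - c / n) * log (1 / (1 - c / n))) := by
  have h1 : 0 < n - c := by linarith
  have h2 : 1 - c / n = (n - c) / n := by field_simp
  rw [h2, one_div_div, div_div, ← mul_assoc, mul_div_cancel₀ _ hn.ne']

theorem fe1_n1 {e L k a' b y : ℝ} (he : 0 < e) (hk : 0 < k) (h1 : a' + b + k ≤ e * L)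
    (h2 : L - a' - b ≤ y) : (1 - e) * (L + k) ≤ y := by
  nlinarith [mul_pos he hk]

theorem fe1_n2 {e : ℝ} (he : 0 < e) (h : e ≤ 1 / 16) : (1 + 2 * e) * (e / 4) ≤ e / 2 := by
  nlinarith

theorem fe1_n3 {p q x y n : ℝ} (hp : 0 ≤ p) (hq : 0 ≤ q) (hy : 0 ≤ y) (hxy : x ≤ y)
    (h : (p + q) * y ≤ n) : p * x ≤ n ∧ q * x ≤ n := by
  have h1 := mul_le_mul_of_nonneg_left hxy hp
  have h2 := mul_le_mul_of_nonneg_left hxy hq
  have h3 := mul_nonneg hp hy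
  have h4 := mul_nonneg hq hy
  constructor <;> linarith

theorem fe1_n8 {μ θ e : ℝ} (hμ : 0 < μ) (hθ : 0 < θ) (he : 0 < e) :
    (μ * exp (log (4 / e) / θ)) ^ (-θ) * μ ^ θ = e / 4 := by
  have h4 : log (4 / e) / θ * -θ = -log (4 / e) := by field_simp
  rw [mul_rpow hμ.le (exp_pos _).le, ← exp_mul, h4, exp_neg,
    exp_log (by positivity), rpow_neg hμ.le]
  have h5 : 0 < μ ^ θ := rpow_pos_of_pos hμ _
  field_simp

theorem fe1_pow {n a : ℝ} (hn : 1 ≤ n) (h : n ^ (-(1 / 6) : ℝ) ≤ a) :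
    n ^ (5 / 6 : ℝ) ≤ a * n ∧ n ^ (1 / 18 : ℝ) ≤ a * a * n ∧ n ^ (1 / 18 : ℝ) ≤ n := by
  have hn0 : 0 < n := by linarith
  have h0 : 0 < n ^ (-(1 / 6) : ℝ) := rpow_pos_of_pos hn0 _
  have e1 : n ^ (5 / 6 : ℝ) = n ^ (-(1 / 6) : ℝ) * n := by
    rw [← rpow_add_one hn0.ne']; norm_num
  have e2 : n ^ (2 / 3 : ℝ) = n ^ (-(1 / 6) : ℝ) * n ^ (-(1 / 6) : ℝ) * n := by
    rw [← rpow_add hn0, ← rpow_add_one hn0.ne']; norm_num
  refine ⟨?_, ?_, ?_⟩
  · rw [e1]; exact mul_le_mul_of_nonneg_right h hn0.le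
  · refine (rpow_le_rpow_of_exponent_le hn (show (1 / 18 : ℝ) ≤ 2 / 3 by norm_num)).trans ?_
    rw [e2]
    exact mul_le_mul_of_nonneg_right (mul_le_mul h h h0.le (h0.le.trans h)) hn0.le
  · simpa using rpow_le_rpow_of_exponent_le hn (show (1 / 18 : ℝ) ≤ 1 by norm_num)

theorem fe1_win {Q a e n N : ℝ} (hQ : 0 < Q) (ha : 0 < a) (he : 0 < e)
    (h1 : Q ^ 2 / e ≤ a * a * n) (h2 : n ≤ Q * N) : Q ≤ e * a * N * a := by
  rw [div_le_iff₀ he] at h1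
  have h3 : a * a * e * n ≤ a * a * e * (Q * N) := mul_le_mul_of_nonneg_left h2 (by positivity)
  have h4 : Q * Q ≤ Q * (e * a * N * a) := by nlinarith
  exact le_of_mul_le_mul_left h4 hQ

theorem fe1_K {e β lg K0 L l : ℝ} (he : 0 < e) (he1 : e ≤ 1 / 16) (hβ : 0 < β) (hl0 : 0 ≤ l)
    (hl : 2 * l ≤ β) (h : (2 / e + (6 / e * lg + 2 + 6 * K0 / e) / e) * β ≤ L) :
    lg / (e / (6 * β)) + (1 + 6 * e) * l + K0 / (e / (6 * β)) ≤ e * L := by
  have h1 := mul_le_mul_of_nonneg_left h he.le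
  have h2 : e * ((2 / e + (6 / e * lg + 2 + 6 * K0 / e) / e) * β) =
      lg / (e / (6 * β)) + 4 * β + K0 / (e / (6 * β)) := by
    field_simp
    ring
  have h3 : (1 + 6 * e) * l ≤ 2 * l := mul_le_mul_of_nonneg_right (by linarith) hl0
  linarith only [hβ, hl, h1, h2, h3]

theorem fe1_v {e θ L K0 Λ n v N : ℝ} (he : 0 < e) (he1 : e ≤ 1 / 16) (hθ : 0 < θ) (hΛ : 0 < Λ)
    (hv : v * (θ / (1 + e) * ((1 - e) * Λ)) = n * (θ * L + K0)) (hN : N ≤ (1 + e) * v) :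
    N * ((1 - e) * Λ) ≤ (1 + e) ^ 2 * (n * (L + K0 / θ)) := by
  have h0 : 0 < 1 + e := by linarith
  have h1 : 0 < 1 - e := by linarith
  have h2 : n * (L + K0 / θ) = v * ((1 - e) * Λ) / (1 + e) := by
    have h3 : n * (L + K0 / θ) = n * (θ * L + K0) / θ := by field_simp
    rw [h3, ← hv]
    field_simp
  rw [h2]
  calc N * ((1 - e) * Λ) ≤ (1 + e) * v * ((1 - e) * Λ) :=
        mul_le_mul_of_nonneg_right hN (by positivity)
    _ = _ := by field_simp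

/-- Sharp lower bound for the excess of small families with small blocks. -/
theorem core_sharpU (ε K1 : ℝ) (hε : 0 < ε) (hK1 : 0 < K1) : ∃ K : ℝ, 0 < K ∧ ∃ N : ℕ,
    ∀ (n0 : ℕ) (G : Finset (Fin n0)) (c : ℕ) (J D : Finset (Finset (Fin n0))) (μ : ℝ), N ≤ #G →
      Pair G c J D → (#G : ℝ) ^ (-(1 / 6) : ℝ) ≤ aa #G c → μ * (#G).choose c = #J →
      (∀ k ∈ G, aa #G c * #G * #(blk J D k) ≤ exc G J D) →
      (#G : ℝ) ^ (-K1) ≤ μ → K * bt (aa #G c) ≤ log (1 / μ) →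
      (1 - ε) * (c / (((#G : ℝ) - c) * log (#G / ((#G : ℝ) - c)))) * (#J * log (#G / μ)) ≤
        exc G J D := by
  obtain ⟨e, he0, he8, heε⟩ : ∃ e : ℝ, 0 < e ∧ e ≤ 1 / 16 ∧ 16 * e ≤ ε :=
    ⟨min ε 1 / 16, by positivity, by linarith [min_le_right ε 1], by linarith [min_le_left ε 1]⟩
  obtain ⟨K0, hK0, Nm, hmom⟩ := sharp_moment e K1 he0 (by linarith) hK1
  have hlg0 : 0 ≤ log (4 / e) := log_nonneg (by rw [le_div_iff₀ he0]; linarith)
  obtain ⟨Nl, hlog⟩ := ev_pow ((K1 + 1) ^ 2 / e + (K1 + 1) / e)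
  obtain ⟨Nz, hz⟩ := ev_zetaU ((K1 + 1) / e ^ 2) K1 (e / 2) (by positivity) (by positivity)
  refine ⟨2 / e + (6 / e * log (4 / e) + 2 + 6 * K0 / e) / e, by positivity,
    max 1 (max Nm (max Nl Nz)), ?_⟩
  intro n0 G c J D μ hN hP hna hμ hb hμ1 hKL
  have hn1 : 1 ≤ #G := (le_max_left _ _).trans hN
  have hNm : Nm ≤ #G := ((le_max_left _ _).trans (le_max_right _ _)).trans hN
  have hNl : Nl ≤ #G :=
    (((le_max_left _ _).trans (le_max_right _ _)).trans (le_max_right _ _)).trans hN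
  have hNz : Nz ≤ #G :=
    (((le_max_right _ _).trans (le_max_right _ _)).trans (le_max_right _ _)).trans hN
  obtain ⟨hl1, -, hl3⟩ := hlog _ hNl
  have hmom' := hmom n0 G c J D μ hNm hP hna hμ hb hμ1
  have hz' := hz _ hNz
  clear hmom hz hlog
  have hnR : (1 : ℝ) ≤ #G := by exact_mod_cast hn1
  have hn0 : (0 : ℝ) < #G := by linarith only [he0, he8, hnR]
  obtain ⟨hp56, hp18, hp1n⟩ := fe1_pow hnR hna
  have h1 := aa_lo hn1 c
  have h2 := aa_hi hn1 c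
  have ha6 := aa_le hn1 c
  have h3a := three_aa hn1 c
  have hat := fun (r : ℕ) (h0 : 0 < c) (hc : c < #G) (hr : r ≤ #G) =>
    Av_atypU G (η := e) h0 hc hr he0.le (by linarith only [he0, he8])
  obtain ⟨a, had⟩ : ∃ a : ℝ, a = aa #G c := ⟨_, rfl⟩
  rw [← had] at hna hb hKL hmom' hp56 hp18 h1 h2 ha6 h3a hat
  have ha : 0 < a := (rpow_pos_of_pos hn0 _).trans_le hna
  have hβ30 := bt_ge ha (by linarith only [he0, he8, ha6])
  have hβl := log_le_bt a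
  obtain ⟨β, hβd⟩ : ∃ β : ℝ, β = bt a := ⟨_, rfl⟩
  rw [← hβd] at hKL hmom' hβ30 hβl
  have hβ0 : 0 < β := by linarith only [he0, he8, hβ30]
  obtain ⟨θ, hθd⟩ : ∃ θ : ℝ, θ = e / (6 * β) := ⟨_, rfl⟩
  have hθ0 : 0 < θ := by rw [hθd]; positivity
  have hθ1 : θ ≤ 1 := by rw [hθd, div_le_one (by positivity)]; linarith only [he0, he8, hβ30]
  obtain ⟨α, hαd⟩ : ∃ α : ℝ, α = c / #G := ⟨_, rfl⟩
  have hα1 : 3 * a ≤ α := by rw [hαd, le_div_iff₀ hn0]; exact h1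
  have hα2 : α ≤ 1 - 3 * a := by rw [hαd, div_le_iff₀ hn0]; exact h2
  have hcnR : (c : ℝ) < #G := by
    rw [← div_lt_one hn0, ← hαd]; linarith only [ha, hα2]
  have hcn : c < #G := by exact_mod_cast hcnR
  have hc0 : 0 < c := hP.pos
  have hμ0 : 0 < μ := (rpow_pos_of_pos hn0 _).trans_le hμ1
  have hC : (0 : ℝ) < (#G).choose c := by exact_mod_cast Nat.choose_pos hcn.le
  have hm0 : (0 : ℝ) < #J := by rw [← hμ]; positivity
  have hB0 : (0 : ℝ) ≤ exc G J D := Nat.cast_nonneg _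
  obtain ⟨L, hLd⟩ : ∃ L : ℝ, L = log (1 / μ) := ⟨_, rfl⟩
  have hLμ : L = -log μ := by rw [hLd, one_div, log_inv]
  obtain ⟨Λ, hΛd⟩ : ∃ Λ : ℝ, Λ = log (#G / μ) := ⟨_, rfl⟩
  have hΛe : Λ = log #G + L := by rw [hΛd, log_div hn0.ne' hμ0.ne', hLμ]; ring
  rw [← hLd] at hKL hmom'
  rw [← hΛd] at hmom' ⊢
  have hLK : L ≤ K1 * log #G := by
    have := log_le_log (rpow_pos_of_pos hn0 _) hμ1
    rw [log_rpow hn0] at this
    linarith only [hLμ, this]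
  have hL2 : 2 / e * β ≤ L := by
    refine le_trans (mul_le_mul_of_nonneg_right ?_ hβ0.le) hKL
    have : 0 ≤ (6 / e * log (4 / e) + 2 + 6 * K0 / e) / e := by positivity
    linarith only [this]
  have hLnn : 0 ≤ L := le_trans (by positivity) hL2
  have hΛ0 : 0 < Λ := by linarith only [he0, he8, hl1, hΛe, hLnn]
  have hΛK : Λ ≤ (K1 + 1) * log #G := by linarith only [hΛe, hLK]
  have hα0 : 0 < α := by linarith only [ha, hα1]
  have hα3 : 0 < 1 - α := by linarith only [ha, hα2]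
  obtain ⟨l, hld⟩ : ∃ l : ℝ, l = log (1 / (1 - α)) := ⟨_, rfl⟩
  have hl0 : α ≤ l := by rw [hld]; exact fe1_log_ge (by linarith only [ha, hα2])
  have hlpos : 0 < l := by linarith only [ha, hα1, hl0]
  have hlβ : 2 * l ≤ β := by
    have : l ≤ log (1 / a) := by
      rw [hld]
      exact log_le_log (by positivity) (one_div_le_one_div_of_le ha (by linarith only [ha, hα2]))
    linarith only [hβl, this]
  obtain ⟨κ, hκd⟩ : ∃ κ : ℝ, κ = α / ((1 - α) * l) := ⟨_, rfl⟩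
  have hκe : c / (((#G : ℝ) - c) * log (#G / ((#G : ℝ) - c))) = κ := by
    rw [hκd, hld, hαd]; exact fe1_kappa hn0 hcnR
  have hκ0 : 0 ≤ κ := by rw [hκd]; positivity
  rw [hκe] at hmom' ⊢
  have hκmΛ : 0 ≤ κ * (#J * Λ) := by positivity
  suffices hs : (1 - 16 * e) * κ * (#J * Λ) ≤ exc G J D by
    refine le_trans ?_ hs
    rw [mul_assoc, mul_assoc]
    exact mul_le_mul_of_nonneg_right (by linarith only [heε]) hκmΛ
  by_cases hcase : (exc G J D : ℝ) ≤ κ * (#J * Λ)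
  swap
  · push Not at hcase
    rw [mul_assoc]
    exact (mul_le_of_le_one_left hκmΛ (by linarith only [he0])).trans hcase.le
  have hmom2 := fun N1 => hmom' hL2 hcase θ N1 hθd
  clear hmom'
  have he1 : 0 < 1 - e := by linarith only [he0, he8]
  have hθt0 : 0 < θ / (1 + e) := by positivity
  have hθt2 : θ / (1 + e) ≤ 1 := by
    rw [div_le_one (by linarith only [he0, he8])]; linarith only [he0, hθ1]
  have hX : 1 ≤ θ * L + K0 := by linarith only [mul_nonneg hθ0.le hLnn, hK0, hθ0, hLnn]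
  have hY0 : 0 < θ / (1 + e) * ((1 - e) * Λ) := by positivity
  obtain ⟨Q, hQd⟩ : ∃ Q : ℝ, Q = (K1 + 1) * log #G := ⟨_, rfl⟩
  have hQ1 : 1 ≤ Q := by
    rw [hQd]; exact one_le_mul_of_one_le_of_one_le (by linarith only [hK1]) hl1
  have hQ0 : 0 < Q := by linarith only [he0, he8, hl1, hLK, hLnn, hQd]
  have hY1 : θ / (1 + e) * ((1 - e) * Λ) ≤ Q := by
    have h3 : (1 - e) * Λ ≤ Λ := mul_le_of_le_one_left hΛ0.le (by linarith only [he0])
    have h4 : θ / (1 + e) * ((1 - e) * Λ) ≤ 1 * ((1 - e) * Λ) :=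
      mul_le_mul_of_nonneg_right hθt2 (by positivity)
    linarith only [hΛe, hLK, hQd, h3, h4]
  obtain ⟨v, hvd⟩ : ∃ v : ℝ, v = #G * (θ * L + K0) / (θ / (1 + e) * ((1 - e) * Λ)) := ⟨_, rfl⟩
  have hvY : v * (θ / (1 + e) * ((1 - e) * Λ)) = #G * (θ * L + K0) := by
    rw [hvd]; exact div_mul_cancel₀ _ hY0.ne'
  have hv0 : 0 < v := by rw [hvd]; positivity
  have hvn : (#G : ℝ) ≤ Q * v := by
    have h3 : (#G : ℝ) ≤ #G * (θ * L + K0) := le_mul_of_one_le_right hn0.le hX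
    have h4 : v * (θ / (1 + e) * ((1 - e) * Λ)) ≤ v * Q := mul_le_mul_of_nonneg_left hY1 hv0.le
    linarith only [hvY, h3, h4]
  have hlg2 : log (#G : ℝ) ^ 2 ≤ log (#G : ℝ) ^ 3 := pow_le_pow_right₀ hl1 (by norm_num)
  have hlg1 : log (#G : ℝ) ≤ log (#G : ℝ) ^ 3 := by
    simpa using pow_le_pow_right₀ hl1 (show 1 ≤ 3 by norm_num)
  have hp1 : 0 ≤ (K1 + 1) ^ 2 / e := by positivity
  have hp2 : 0 ≤ (K1 + 1) / e := by positivity
  have hlg3 : 0 ≤ log (#G : ℝ) ^ 3 := by positivity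
  have hev : 1 ≤ e * v := by
    have h3 : (K1 + 1) / e * log #G ≤ #G := (fe1_n3 hp1 hp2 hlg3 hlg1 hl3).2.trans hp1n
    rw [div_mul_eq_mul_div, ← hQd, div_le_iff₀ he0] at h3
    have h4 : Q * 1 ≤ Q * (e * v) := by
      calc Q * 1 = Q := mul_one Q
        _ ≤ #G * e := h3
        _ ≤ Q * v * e := mul_le_mul_of_nonneg_right hvn he0.le
        _ = _ := by ring
    exact le_of_mul_le_mul_left h4 hQ0
  obtain ⟨N1, hN1d⟩ : ∃ N1 : ℕ, N1 = min #G ⌈v⌉₊ := ⟨_, rfl⟩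
  have hN1n : N1 ≤ #G := by rw [hN1d]; exact min_le_left _ _
  have hN1v : (N1 : ℝ) ≤ (1 + e) * v := by
    have h3 : N1 ≤ ⌈v⌉₊ := by rw [hN1d]; exact min_le_right _ _
    have h4 : (N1 : ℝ) ≤ ⌈v⌉₊ := by exact_mod_cast h3
    have h5 := (Nat.ceil_lt_add_one hv0.le).le
    linarith only [hev, h4, h5]
  have hN1or : N1 = #G ∨ v ≤ N1 := by
    rcases le_total #G ⌈v⌉₊ with h3 | h3
    · left; rw [hN1d, min_eq_left h3]
    · right; rw [hN1d, min_eq_right h3]; exact Nat.le_ceil v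
  have hN1l : (#G : ℝ) ≤ Q * N1 := by
    rcases hN1or with h3 | h3
    · rw [h3]; exact le_mul_of_one_le_left hn0.le hQ1
    · exact hvn.trans (mul_le_mul_of_nonneg_left h3 hQ0.le)
  have hN10 : (0 : ℝ) < N1 := by
    by_contra h3
    have h4 : Q * N1 ≤ 0 := mul_nonpos_of_nonneg_of_nonpos hQ0.le (not_lt.1 h3)
    linarith only [he0, he8, hnR, hN1l, h4]
  have hN1p : 0 < N1 := by exact_mod_cast hN10
  have hηN : Q ≤ e * (1 - α) * N1 * a := by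
    have h3 : (K1 + 1) ^ 2 / e * log (#G : ℝ) ^ 2 ≤ a * a * #G :=
      (fe1_n3 hp1 hp2 hlg3 hlg2 hl3).1.trans hp18
    rw [div_mul_eq_mul_div, ← mul_pow, ← hQd] at h3
    refine (fe1_win hQ0 ha he0 h3 hN1l).trans ?_
    have h4 : a ≤ 1 - α := by linarith only [ha, hα2]
    gcongr
  have hAv : Av G (#G - N1) (pw J G c (1 + θ)) ≤ (1 + 2 * e) * #J * μ ^ θ := by
    refine hmom2 N1 hN1n (hN1or.imp id fun h3 => ?_)
    rw [← hvY, mul_comm v]
    exact mul_le_mul_of_nonneg_left h3 hY0.le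
  obtain ⟨a', ha'd⟩ : ∃ a' : ℝ, a' = log (4 / e) / θ := ⟨_, rfl⟩
  have ha'0 : 0 ≤ a' := by rw [ha'd]; positivity
  have hK0θ : 0 < K0 / θ := by positivity
  have heL : a' + (1 + 6 * e) * l + K0 / θ ≤ e * L := by
    rw [ha'd, hθd]
    exact fe1_K he0 he8 hβ0 hlpos.le hlβ hKL
  have heL1 : e * L ≤ L := mul_le_of_le_one_left hLnn (by linarith only [he0, he8])
  have hl6 : 0 < (1 + 6 * e) * l := by positivity
  have hl7 : l ≤ (1 + 6 * e) * l := le_mul_of_one_le_left hlpos.le (by linarith only [he0])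
  have hLa : 0 ≤ L - a' := by linarith only [ha, hα1, hl0, hK0θ, heL, heL1, hl7]
  obtain ⟨w, hwd⟩ : ∃ w : ℕ, w = ⌊(L - a') / ((1 + 6 * e) * l)⌋₊ := ⟨_, rfl⟩
  have hw1 : (w : ℝ) * ((1 + 6 * e) * l) ≤ L - a' := by
    rw [← le_div_iff₀ hl6, hwd]
    exact Nat.floor_le (by positivity)
  have hw2 : L - a' - (1 + 6 * e) * l ≤ w * ((1 + 6 * e) * l) := by
    have h3 : (L - a') / ((1 + 6 * e) * l) < w + 1 := by rw [hwd]; exact Nat.lt_floor_add_one _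
    rw [div_lt_iff₀ hl6] at h3
    linarith only [h3]
  have hw0 : (0 : ℝ) ≤ w := Nat.cast_nonneg _
  have hwN : (w : ℝ) ≤ e * (1 - α) * N1 := by
    refine le_of_mul_le_mul_right (le_trans ?_ hηN) ha
    have h3 : (w : ℝ) * a ≤ w * ((1 + 6 * e) * l) := mul_le_mul_of_nonneg_left (by linarith only [ha, hα1, hl0, hl7]) hw0
    linarith only [he0, he8, hl1, hLK, hQd, ha'0, hw1, h3]
  have h1N : 1 ≤ e * (1 - α) * N1 := by
    refine le_of_mul_le_mul_right (le_trans ?_ hηN) ha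
    linarith only [he0, he8, hl1, ha, hα1, hLK, hl0, hQd, ha'0, hK0θ, heL, heL1, hl7]
  obtain ⟨T, hTd⟩ : ∃ T : ℝ, T = μ * exp a' := ⟨_, rfl⟩
  have hT0 : 0 < T := by rw [hTd]; positivity
  have hTw : T ≤ exp (-((1 + 6 * e) * w * log (1 / (1 - α)))) := by
    rw [← hld, ← log_le_iff_le_exp hT0, hTd, log_mul hμ0.ne' (exp_pos _).ne', log_exp]
    linarith only [hLμ, hw1]
  have hf0 : 0 ≤ (1 - 3 * e) * w * (α / (1 - α)) :=
    mul_nonneg (mul_nonneg (by linarith only [he0, he8]) hw0) (by positivity)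
  have hr : #G - N1 < #G := Nat.sub_lt hn1 hN1p
  have hcast : (#G : ℝ) - ((#G - N1 : ℕ) : ℝ) = N1 := by
    rw [Nat.cast_sub hN1n]; ring
  have hE2 : Av G (#G - N1) (atyp G c (e * (3 * a))) ≤ e / 2 * #J := by
    refine (hat _ hc0 hcn hr.le).trans ?_
    rw [hcast]
    have h3 := hz' (e ^ 2 * a * N1) (by
      have h4 : (K1 + 1) / e ^ 2 * log #G * (e ^ 2 * a * N1) = a * (Q * N1) := by
        rw [hQd]; field_simp
      rw [h4]
      exact hp56.trans (mul_le_mul_of_nonneg_left hN1l ha.le))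
    have h4 := zeta_nonneg #G 1 (e ^ 2 * a * N1)
    have h5 : zeta #G 1 (e ^ 2 * a * N1) ≤ (#G : ℝ) ^ 2 * zeta #G 1 (e ^ 2 * a * N1) :=
      le_mul_of_one_le_left h4 (one_le_pow₀ hnR)
    have h6 : e / 2 * (#G : ℝ) ^ (-K1) ≤ e / 2 * μ :=
      mul_le_mul_of_nonneg_left hμ1 (by positivity)
    rw [← hμ, ← mul_assoc]
    exact mul_le_mul_of_nonneg_right (by linarith only [h3, h5, h6]) hC.le
  have hmk := markovU hP hr hf0 hT0 hθ0 hE2 (by
    intro S hS hSr x hx hxc ht hM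
    have h3 : #(G \ S) = N1 := by rw [card_sdiff_of_subset hS, hSr]; omega
    rw [h3a, ← hαd] at ht
    exact fib_kkU hP hS hx hxc he0 (by linarith only [he0, he8]) hα0 (by linarith only [ha, hα2]) ht (by rw [h3]; exact h1N)
      (by rw [h3]; exact hwN) hTw hM)
  rw [hcast] at hmk
  have hE1 : T ^ (-θ) * Av G (#G - N1) (pw J G c (1 + θ)) ≤ e / 2 * #J := by
    have h3 : T ^ (-θ) * μ ^ θ = e / 4 := by
      rw [hTd, ha'd]; exact fe1_n8 hμ0 hθ0 he0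
    calc T ^ (-θ) * Av G (#G - N1) (pw J G c (1 + θ))
        ≤ T ^ (-θ) * ((1 + 2 * e) * #J * μ ^ θ) :=
          mul_le_mul_of_nonneg_left hAv (rpow_nonneg hT0.le _)
      _ = (1 + 2 * e) * (T ^ (-θ) * μ ^ θ) * #J := by ring
      _ ≤ e / 2 * #J := by
          rw [h3]
          exact mul_le_mul_of_nonneg_right (fe1_n2 he0 he8) hm0.le
  refine fe1_final (Y := L + K0 / θ) (β := (1 - 3 * e) * w * (α / (1 - α))) he0 he8
    (by linarith only [ha, hα1, hl0, ha'0, hK0θ, heL, heL1, hl7]) hΛ0 hn0 (fe1_v he0 he8 hθ0 hΛ0 hvY hN1v) hκ0 ?_ hm0.le hB0 ?_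
  · have h4 : (1 - e) * (L + K0 / θ) ≤ w * ((1 + 6 * e) * l) := fe1_n1 he0 hK0θ heL hw2
    calc (1 - 3 * e) * ((1 - e) * (L + K0 / θ)) * κ
        ≤ (1 - 3 * e) * (w * ((1 + 6 * e) * l)) * κ :=
          mul_le_mul_of_nonneg_right (mul_le_mul_of_nonneg_left h4 (by linarith only [he0, he8])) hκ0
      _ = _ := by rw [hκd]; field_simp
  · refine le_trans (mul_le_mul_of_nonneg_left ?_ hf0) hmk
    linarith only [hE1]

end Pool.Agent.P.MP_4f3dfd_co.Ex
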