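import Mathlib
import Pool.Agent.P.MP_4f3dfd_co.FDefs
import Pool.Agent.P.MP_4f3dfd_co.ED1
import Pool.Agent.P.MP_4f3dfd_co.ED2
import Pool.Agent.P.MP_4f3dfd_co.ENum
import Pool.Agent.P.MP_4f3dfd_co.FA4
import Pool.Agent.P.MP_4f3dfd_co.FC3
import Pool.Agent.P.MP_4f3dfd_co.FC5
import Pool.Agent.P.MP_4f3dfd_co.FC6
import Pool.Agent.P.MP_4f3dfd_co.FD1
import Pool.Agent.P.MP_4f3dfd_co.FD3
import Pool.Agent.P.MP_4f3dfd_co.FD4

set_option autoImplicit false
set_option linter.unusedSectionVars false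
set_option linter.unusedVariables false

namespace Pool.Agent.P.MP_4f3dfd_co.Ex

open Finset Real

variable {V : Type*} [DecidableEq V]

theorem fe2_wp {C m : ℕ} {μ : ℝ} (hC : 0 < C) (hμ : 0 < μ) (h : μ * C = m) :
    wp C m (1 + 1) = m * μ := by
  have hC' : (C : ℝ) ≠ 0 := by exact_mod_cast hC.ne'
  rw [wp, ← h, mul_div_assoc, div_self hC', mul_one, rpow_add hμ, rpow_one]
  ring

theorem fe2_blk {a β l E n b B m C1 : ℝ} (ha : 0 < a) (hβ : 1 ≤ β) (hE : 1 ≤ E) (hl : l ≤ E)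
    (hl0 : 0 ≤ l) (hn : n = E ^ 18) (haE : 1 ≤ a * E ^ 3) (hb : 0 ≤ b) (hm0 : 0 ≤ m)
    (hm : m ≤ C1) (h1 : a * n * b ≤ B) (h2 : 3 * a * B * β ≤ m * l) :
    b * E ^ 6 ≤ C1 := by
  have hE0 : 0 < E := by linarith
  have hn0 : 0 < n := by rw [hn]; positivity
  have hB : 0 ≤ B := le_trans (by positivity) h1
  have e1 : a * B ≤ C1 * E := by
    have q1 : a * B ≤ 3 * a * B * β := by
      have : 0 ≤ a * B := by positivity
      nlinarith only [hβ, this]
    have q2 : m * l ≤ C1 * E := mul_le_mul hm hl hl0 (hm0.trans hm)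
    linarith
  have e2 : a * (a * n * b) ≤ C1 * E := (mul_le_mul_of_nonneg_left h1 ha.le).trans e1
  have e3 : 1 ≤ (a * E ^ 3) ^ 2 := one_le_pow₀ haE
  have e4 : (1 : ℝ) ≤ E ^ 5 := one_le_pow₀ hE
  have e5 : b * E ^ 6 * E ≤ a * (a * n * b) := by
    calc b * E ^ 6 * E = b * E ^ 7 * 1 * 1 := by ring
      _ ≤ b * E ^ 7 * E ^ 5 * (a * E ^ 3) ^ 2 := by gcongr
      _ = a * (a * n * b) := by rw [hn]; ring
  exact le_of_mul_le_mul_right (e5.trans e2) hE0

theorem fe2_exp : exp (-12 : ℝ) ≤ 1 / 80640 := by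
  have h1 : (2.7 : ℝ) ≤ exp 1 := by have := exp_one_gt_d9; linarith
  have h2 : (2.7 : ℝ) ^ 12 ≤ exp 1 ^ 12 := pow_le_pow_left₀ (by norm_num) h1 12
  have h3 : exp 1 ^ 12 = exp (12 : ℝ) := by rw [← exp_nat_mul]; norm_num
  rw [exp_neg, ← one_div]
  refine one_div_le_one_div_of_le (by norm_num) ?_
  rw [← h3]
  refine le_trans ?_ h2
  norm_num

theorem fe2_main {g β l B m n M : ℝ} (hg : 0 ≤ g) (hβ : 0 < β) (hl : 0 < l) (hn : 0 < n)
    (hB : 0 ≤ B) (h2 : g * B * β ≤ m * l) (hM : 252 * β * n / l ≤ M) :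
    4 * (60 * g) / (1 / β / 7 * (l / 3)) * B * exp (-(1 / β / 7 * (l / 3) * M / n)) ≤ m / 16 := by
  have e1 : 12 ≤ 1 / β / 7 * (l / 3) * M / n := by
    rw [div_le_iff₀ hl] at hM
    rw [le_div_iff₀ hn]
    have : 1 / β / 7 * (l / 3) * M = M * l / (21 * β) := by field_simp; ring
    rw [this, le_div_iff₀ (by positivity)]
    linarith
  have e2 : exp (-(1 / β / 7 * (l / 3) * M / n)) ≤ 1 / 80640 :=
    (exp_le_exp.2 (by linarith)).trans fe2_exp
  have e3 : 4 * (60 * g) / (1 / β / 7 * (l / 3)) * B = 5040 * (g * B * β / l) := by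
    field_simp; ring
  have e4 : g * B * β / l ≤ m := by rw [div_le_iff₀ hl]; exact h2
  have e5 : 0 ≤ g * B * β / l := by positivity
  rw [e3]
  calc _ ≤ 5040 * m * (1 / 80640) :=
        mul_le_mul (by linarith) e2 (exp_pos _).le (by linarith)
    _ = m / 16 := by ring

theorem fe2_tt {a : ℝ} (h : 0 < bt a) : tt a (1 / bt a) = 1 / bt a / 7 := by
  unfold tt
  have : 6 * (1 / bt a) * bt a = 6 := by field_simp
  rw [this]; norm_num

theorem fe2_last {a β l m B : ℝ} (ha : 0 < a) (hβ : 0 < β) (hl : 0 < l)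
    (h : 1 / (6 * (3 * a)) * (m / 12) ≤ 504 * β / l * B) :
    1 / (72 * 504) * (m * l / β) ≤ 3 * a * B := by
  calc 1 / (72 * 504) * (m * l / β)
      = 3 * a * l / (504 * β) * (1 / (6 * (3 * a)) * (m / 12)) := by
        field_simp; ring
    _ ≤ 3 * a * l / (504 * β) * (504 * β / l * B) :=
        mul_le_mul_of_nonneg_left h (by positivity)
    _ = 3 * a * B := by field_simp

/-- Order of magnitude, upper half of the levels. -/
theorem core_D : ∃ c0 : ℝ, 0 < c0 ∧ ∃ N : ℕ,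
    ∀ (n0 : ℕ) (G : Finset (Fin n0)) (c : ℕ) (J D : Finset (Finset (Fin n0))) (μ : ℝ), N ≤ #G →
      Pair G c J D → (#G : ℝ) ^ (-(1 / 6) : ℝ) ≤ aa #G c → μ * (#G).choose c = #J →
      (∀ k ∈ G, aa #G c * #G * #(blk J D k) ≤ exc G J D) →
      1 / (#G : ℝ) ≤ μ → μ ≤ 1 / 2 → #G ≤ 2 * c →
      c0 * (#J * log #G / bt (aa #G c)) ≤ (1 - (c : ℝ) / #G) * exc G J D := by
  obtain ⟨N1, hmom⟩ := momentU (1 / 16) 1 (by norm_num) one_pos
  obtain ⟨N2, hN2⟩ := ev_pow 45
  obtain ⟨N3, hN3⟩ := ev_zetaU 4 1 (1 / 12) (by norm_num) (by norm_num)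
  refine ⟨1 / (72 * 504), by norm_num, N1 + N2 + N3 + 1, ?_⟩
  intro n0 G c J D μ hn hP ha6 hμ hb hnμ hμ2 hc2
  obtain ⟨hl1, hl45, hl3⟩ := hN2 #G (by omega)
  have hnN : 0 < #G := by omega
  have hn0 : (0 : ℝ) < #G := by exact_mod_cast hnN
  have hn1 : (1 : ℝ) ≤ #G := by exact_mod_cast (by omega : 1 ≤ #G)
  have hμ0 : 0 < μ := lt_of_lt_of_le (by positivity) hnμ
  have h3a := three_aa hnN c
  have h1 := aa_lo hnN c
  have h2 := aa_hi hnN c
  have hale := aa_le hnN c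
  have hatyp := fun (r : ℕ) (h0 : 0 < c) (h1 : c < #G) (hr : r ≤ #G) =>
    Av_atypU G (c := c) (r := r) (η := 1 / 2) h0 h1 hr (by norm_num) (by norm_num)
  generalize aa #G c = a at *
  have hpw : 0 < (#G : ℝ) ^ (-(1 / 6) : ℝ) := rpow_pos_of_pos hn0 _
  have ha : 0 < a := hpw.trans_le ha6
  have hc2' : (#G : ℝ) ≤ 2 * c := by exact_mod_cast hc2
  have hα : 1 / 2 ≤ (c : ℝ) / #G := by rw [le_div_iff₀ hn0]; linarith
  have hg : 1 - (c : ℝ) / #G = 3 * a := by rw [h3a, min_eq_right (by linarith only [hα])]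
  have han : 0 < a * #G := mul_pos ha hn0
  have hcn : c < #G := by
    have : (c : ℝ) < #G := by linarith
    exact_mod_cast this
  have hC : 0 < (#G).choose c := Nat.choose_pos hcn.le
  have hC0 : (0 : ℝ) < (#G).choose c := by exact_mod_cast hC
  have hJ0 : (0 : ℝ) < #J := by rw [← hμ]; positivity
  have hβ30 := bt_ge ha (by linarith only [ha6, hale, hpw])
  have hβa := log_le_bt a
  have hβl : bt a ≤ log #G := by
    have e1 : log ((#G : ℝ) ^ (-(1 / 6) : ℝ)) ≤ log a := log_le_log hpw ha6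
    rw [log_rpow hn0] at e1
    have e2 : log (1 / a) = -log a := by rw [one_div, log_inv]
    unfold bt
    linarith only [hl45, e1, e2]
  have hβ0 : 0 < bt a := by linarith only [ha6, hale, hpw, hβ30]
  have htt := fe2_tt hβ0
  have hθβ : 1 / bt a * bt a ≤ 1 := by rw [one_div_mul_cancel hβ0.ne']
  have hθ0 : 0 < 1 / bt a := by positivity
  have hB0 : (0 : ℝ) ≤ exc G J D := by positivity
  have hl0 : 0 < log (#G : ℝ) := by linarith only [hl45, ha6, hale, hpw]
  have hln : log (#G : ℝ) ≤ #G := log_le_self hn0.le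
  by_cases hB : (1 - (c : ℝ) / #G) * exc G J D * bt a ≤ #J * log #G
  swap
  · have hB := (not_le.1 hB).le
    have e1 : #J * log #G / bt a ≤ (1 - (c : ℝ) / #G) * exc G J D := by
      rw [div_le_iff₀ hβ0]; exact hB
    have e2 : 0 ≤ #J * log #G / bt a := div_nonneg (mul_nonneg hJ0.le hl0.le) hβ0.le
    linarith only [e1, e2]
  have hstep : Step G c J D a (1 / bt a) 1 (60 * (1 - (c : ℝ) / #G)) :=
    stepG hP ha hnN (by linarith) (by linarith) hθ0 (by rw [div_le_one hβ0]; linarith) le_rfl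
      (by rw [one_div_mul_eq_div, div_le_one hβ0]
          have : 0 ≤ log (1 / a) := log_nonneg (by rw [le_div_iff₀ ha]; linarith)
          linarith)
  obtain ⟨v, hv⟩ : ∃ v : ℝ, v = 252 * bt a * #G / log #G := ⟨_, rfl⟩
  have hvl : v * log #G = 252 * bt a * #G := by rw [hv, div_mul_cancel₀ _ hl0.ne']
  have hv0 : 0 < v := hv ▸ div_pos (mul_pos (by linarith) hn0) hl0
  have hβn : (#G : ℝ) ≤ 252 * bt a * #G := le_mul_of_one_le_left hn0.le (by linarith)
  have hv1 : 1 ≤ v := by rw [hv, le_div_iff₀ hl0]; linarith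
  obtain ⟨M, hM⟩ : ∃ M : ℕ, M = min #G ⌈v⌉₊ := ⟨_, rfl⟩
  have hMn : M ≤ #G := hM ▸ min_le_left _ _
  have hMv : (M : ℝ) ≤ 2 * v := by
    have h3 : (M : ℝ) ≤ ⌈v⌉₊ := by rw [hM]; exact_mod_cast min_le_right _ _
    have := Nat.ceil_lt_add_one hv0.le
    linarith only [hv1, h3, this]
  have hMor : M = #G ∨ v ≤ M := by
    rcases le_total #G ⌈v⌉₊ with h | h
    · exact Or.inl (hM.trans (min_eq_left h))
    · right; rw [hM, min_eq_right h]; exact Nat.le_ceil v
  have hMlow : (#G : ℝ) ≤ log #G * M := by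
    rcases hMor with h | h
    · rw [h]; exact le_mul_of_one_le_left hn0.le hl1
    · have := mul_le_mul_of_nonneg_left h hl0.le
      linarith only [hvl, hβn, this]
  have hM0 : 0 < M := by
    by_contra h
    have : M = 0 := by omega
    rw [this, Nat.cast_zero, mul_zero] at hMlow; linarith only [hl45, ha6, hale, hpw, hln, hMlow]
  have hM' : (0 : ℝ) < M := by exact_mod_cast hM0
  have hblk : ∀ k ∈ G, (#(blk J D k) : ℝ) ≤
      exp (-(log #G / 3)) * (#G - 1).choose (c - 1) := by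
    intro k hk
    obtain ⟨E, hE⟩ : ∃ E : ℝ, E = (#G : ℝ) ^ (1 / 18 : ℝ) := ⟨_, rfl⟩
    have hE1 : 1 ≤ E := hE ▸ one_le_rpow hn1 (by norm_num)
    have hEp : ∀ j : ℕ, E ^ j = (#G : ℝ) ^ ((j : ℝ) / 18) := fun j => by
      rw [hE, ← rpow_mul_natCast hn0.le]; congr 1; ring
    have hlE : log (#G : ℝ) ≤ E := by
      have := le_self_pow₀ hl1 (by norm_num : 3 ≠ 0)
      linarith only [hl45, hl3, ha6, hale, hpw, hE, this]
    have hE18 : (#G : ℝ) = E ^ 18 := by rw [hEp]; norm_num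
    have hE3 : 1 ≤ a * E ^ 3 := by
      have e1 : (#G : ℝ) ^ (-(1 / 6) : ℝ) * E ^ 3 = 1 := by
        rw [hEp, ← rpow_add hn0]; norm_num
      rw [← e1]
      exact mul_le_mul_of_nonneg_right ha6 (by positivity)
    have hE6 : exp (-(log #G / 3)) * E ^ 6 = 1 := by
      rw [hEp, rpow_def_of_pos hn0, ← exp_add, exp_eq_one_iff]; push_cast; ring
    have hm : (#J : ℝ) ≤ (#G - 1).choose (c - 1) := by
      have e := choose_pred_pred (by omega : 1 ≤ #G) hP.pos
      refine le_of_mul_le_mul_left ?_ hn0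
      rw [e, ← hμ]
      have q1 : μ * (#G).choose c ≤ 1 / 2 * (#G).choose c :=
        mul_le_mul_of_nonneg_right hμ2 hC0.le
      have q2 := mul_le_mul_of_nonneg_left q1 hn0.le
      have q3 := mul_le_mul_of_nonneg_right hc2' hC0.le
      linarith only [q2, q3]
    have key := fe2_blk (β := bt a) ha (by linarith only [ha6, hale, hpw, hβ30]) hE1 hlE hl0.le hE18 hE3 (Nat.cast_nonneg _)
      hJ0.le hm (hb k hk) (by rw [← hg]; exact hB)
    calc (#(blk J D k) : ℝ) = exp (-(log #G / 3)) * (#(blk J D k) * E ^ 6) := by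
          rw [mul_left_comm, hE6, mul_one]
      _ ≤ _ := mul_le_mul_of_nonneg_left key (exp_pos _).le
  have hAv := hmom n0 G c M J D a (1 / bt a) 1 (60 * (1 - (c : ℝ) / #G)) (log #G / 3) (#J / 16)
    (by omega) hP ha6 h1 h2 hθ0 hθβ
    (by rw [one_mul, one_div_mul_eq_div, one_le_div hβ0]; exact hβl)
    (by rw [hg]; positivity) (by rw [hg]; linarith only [ha6, hale, hpw]) hstep hMn (by rw [one_mul]; exact hMlow)
    (by linarith only [hl45, ha6, hale, hpw]) (by linarith only [hl45, ha6, hale, hpw, hln]) hblk (by linarith only [hJ0]) (by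
      rcases hMor with h | h
      · exact Or.inl h
      · right
        rw [htt]
        exact fe2_main (by rw [hg]; positivity) hβ0 hl0 hn0 hB0 hB (hv ▸ h))
  rw [fe2_wp hC hμ0 hμ, rpow_neg_one, ← one_div] at hAv
  have hAv2 : Av G (#G - M) (pw J G c (1 + 1)) ≤ 5 / 8 * #J := by
    have q1 : (#J : ℝ) * μ ≤ #J * (1 / 2) := mul_le_mul_of_nonneg_left hμ2 hJ0.le
    have q2 : 1 / (#G : ℝ) * (#G).choose c ≤ μ * (#G).choose c :=
      mul_le_mul_of_nonneg_right hnμ hC0.le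
    rw [mul_assoc (1 / 16)] at hAv
    linarith only [hμ, hAv, q1, q2]
  have hr : ((#G : ℝ) - ((#G - M : ℕ) : ℝ)) = M := by rw [Nat.cast_sub hMn]; ring
  have hZ : Av G (#G - M) (atyp G c (1 / 2 * (3 * a))) ≤ #J / 12 := by
    have q1 := hatyp (#G - M) hP.pos hcn (by omega)
    rw [hr] at q1
    have q2 := hN3 #G (by omega) ((1 / 2) ^ 2 * a * M) (by
      have e1 : (#G : ℝ) ^ (5 / 6 : ℝ) = (#G : ℝ) ^ (-(1 / 6) : ℝ) * #G := by
        rw [← rpow_add_one hn0.ne']; norm_num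
      rw [e1]
      calc _ ≤ a * (log #G * M) := mul_le_mul ha6 hMlow hn0.le ha.le
        _ = _ := by ring)
    rw [rpow_neg_one, ← one_div] at q2
    have q3 := zeta_nonneg #G 1 ((1 / 2) ^ 2 * a * M)
    have q4 := le_mul_of_one_le_left q3 (one_le_pow₀ (n := 2) hn1)
    have q5 : zeta #G 1 ((1 / 2) ^ 2 * a * M) ≤ 1 / 12 * μ := by linarith only [hnμ, q2, q4]
    have q6 := mul_le_mul_of_nonneg_right q5 hC0.le
    rw [mul_assoc (1 / 12) μ, hμ] at q6
    linarith only [q1, q6]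
  have hmk := markovU hP (r := #G - M) (by omega) (η := 1 / 2 * (3 * a))
    (β := 1 / (6 * (1 - (c : ℝ) / #G))) (T := 3 / 4) (θ := 1) (by rw [hg]; positivity)
    (by norm_num) one_pos hZ (by
      intro S hS hSc x hx hxc ht hcnt
      have hN : #(G \ S) = M := by rw [card_sdiff_of_subset hS, hSc]; omega
      have ht' := ht
      rw [hN, abs_le] at ht'
      have e1 : (c : ℝ) / #G = 1 - 3 * a := by linarith only [hg]
      have e2 : 0 < a * M := by positivity
      have e3 : a * M ≤ 1 / 6 * M := mul_le_mul_of_nonneg_right hale hM'.le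
      have e4 := ht'.1
      rw [e1] at e4
      refine fib_varU hP hS hx ?_ (by linarith only [ha6, hpw, hg]) (by omega) ?_ hcnt
      · have h4 : (0 : ℝ) < ((c - #x : ℕ) : ℝ) := by linarith only [e2, e3, e4]
        have : 0 < c - #x := by exact_mod_cast h4
        omega
      · rw [hN, hg]
        linarith only [e4])
  rw [hr, rpow_neg_one, hg] at hmk
  rw [hg]
  have h6 : 1 / (6 * (3 * a)) * (#J / 12) ≤ M / #G * exc G J D := by
    refine le_trans (mul_le_mul_of_nonneg_left ?_ (by positivity)) hmk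
    norm_num at hAv2 ⊢
    linarith only [hAv2]
  have h7 : (M : ℝ) / #G ≤ 504 * bt a / log #G := by
    rw [div_le_div_iff₀ hn0 hl0]
    have := mul_le_mul_of_nonneg_right hMv hl0.le
    linarith only [hvl, this]
  have h8 : 1 / (6 * (3 * a)) * (#J / 12) ≤ 504 * bt a / log #G * exc G J D :=
    h6.trans (mul_le_mul_of_nonneg_right h7 hB0)
  exact fe2_last ha hβ0 hl0 h8

end Pool.Agent.P.MP_4f3dfd_co.Ex
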