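import Mathlib
import Pool.Agent.P.MP_4f3dfd_co.FDefs
import Pool.Agent.P.MP_4f3dfd_co.ED1
import Pool.Agent.P.MP_4f3dfd_co.ED2
import Pool.Agent.P.MP_4f3dfd_co.ENum
import Pool.Agent.P.MP_4f3dfd_co.FA4
import Pool.Agent.P.MP_4f3dfd_co.FC3
import Pool.Agent.P.MP_4f3dfd_co.FC5
import Pool.Agent.P.MP_4f3dfd_co.FC6
import Pool.Agent.P.MP_4f3dfd_co.FD1
import Pool.Agent.P.MP_4f3dfd_co.FD3
import Pool.Agent.P.MP_4f3dfd_co.FD4

set_option autoImplicit false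
set_option linter.unusedSectionVars false
set_option linter.unusedVariables false

namespace Pool.Agent.P.MP_4f3dfd_co.Ex

open Finset Real

variable {V : Type*} [DecidableEq V]

theorem fe3_wp {C m : ℕ} {μ θ : ℝ} (hC : 0 < C) (hμ : 0 < μ) (h : μ * C = m) :
    wp C m (1 + θ) = m * μ ^ θ := by
  have hC' : (C : ℝ) ≠ 0 := by exact_mod_cast hC.ne'
  rw [wp, ← h, mul_div_assoc, div_self hC', mul_one, rpow_add hμ, rpow_one]
  ring

theorem fe3_pow {n : ℝ} (hn : 0 < n) (hl : 0 ≤ log n) :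
    exp (log n / 6) ^ 6 = n ∧ n ^ (-(1 / 6) : ℝ) = (exp (log n / 6))⁻¹ ∧
      n ^ (5 / 6 : ℝ) = exp (log n / 6) ^ 5 ∧ n ^ (1 / 18 : ℝ) ≤ exp (log n / 6) := by
  refine ⟨?_, ?_, ?_, ?_⟩
  · rw [← exp_nat_mul]
    have : ((6 : ℕ) : ℝ) * (log n / 6) = log n := by push_cast; ring
    rw [this, exp_log hn]
  · rw [rpow_def_of_pos hn, ← exp_neg]
    congr 1
    ring
  · rw [rpow_def_of_pos hn, ← exp_nat_mul]
    congr 1
    push_cast
    ring
  · rw [rpow_def_of_pos hn]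
    exact exp_le_exp.2 (by linarith)

theorem fe3_blk {a l b B C C1 : ℝ} (ha : 0 < a) (haE : 1 ≤ a * exp (l / 6)) (hC : 0 ≤ C)
    (hC1 : 3 * a * C ≤ C1) (h1 : a * exp (l / 6) ^ 6 * b ≤ B) (h2 : B ≤ C * l) :
    b ≤ exp (-(l / 3)) * C1 := by
  have hE := exp_pos (l / 6)
  have e1 : exp (l / 3) = exp (l / 6) ^ 2 := by
    rw [sq, ← exp_add]
    congr 1
    ring
  have e2 : l ≤ 3 * exp (l / 6) ^ 2 := by
    have := add_one_le_exp (l / 3)
    rw [e1] at this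
    linarith
  rw [exp_neg, e1]
  generalize exp (l / 6) = E at *
  have e3 : a * E ^ 6 * b ≤ a * E ^ 6 * ((E ^ 2)⁻¹ * C1) := by
    calc a * E ^ 6 * b ≤ C * (3 * E ^ 2) * 1 := by
          have := mul_le_mul_of_nonneg_left e2 hC
          linarith
      _ ≤ C * (3 * E ^ 2) * (a * E) ^ 2 :=
          mul_le_mul_of_nonneg_left (one_le_pow₀ haE) (by positivity)
      _ = a * E ^ 4 * (3 * a * C) := by ring
      _ ≤ a * E ^ 4 * C1 := mul_le_mul_of_nonneg_left hC1 (by positivity)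
      _ = _ := by field_simp
  exact le_of_mul_le_mul_left e3 (by positivity)

theorem fe3_exp11 : exp (-11) ≤ 1 / 26880 := by
  have h1 : (2.7 : ℝ) ≤ exp 1 := by linarith [exp_one_gt_d9]
  have h2 : (2.7 : ℝ) ^ 11 ≤ exp 11 := by
    have := pow_le_pow_left₀ (by norm_num) h1 11
    rwa [← exp_nat_mul, show ((11 : ℕ) : ℝ) * 1 = 11 by norm_num] at this
  rw [exp_neg, inv_le_comm₀ (exp_pos _) (by norm_num)]
  refine le_trans ?_ h2
  norm_num

theorem fe3_main {L θ t l ρ B m z : ℝ} (hL : 0 < L) (hθ : 0 < θ) (ht : θ / 7 ≤ t) (hl : 0 < l)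
    (hρ : ρ / 2 ≤ θ * L) (hm : 0 ≤ m) (hB0 : 0 ≤ B) (hB : B ≤ m * l * ρ) (hz : 11 ≤ z) :
    4 * (10 * (1 / (2 * L))) / (t * (l / 3)) * B * exp (-z) ≤ m / 32 := by
  have e1 : exp (-z) ≤ 1 / 26880 := (exp_le_exp.2 (by linarith)).trans fe3_exp11
  have e2 : B ≤ m * l * (2 * (θ * L)) :=
    hB.trans (mul_le_mul_of_nonneg_left (by linarith) (by positivity))
  have ht0 : 0 < t := lt_of_lt_of_le (by positivity) ht
  calc _ ≤ 4 * (10 * (1 / (2 * L))) / (θ / 7 * (l / 3)) * (m * l * (2 * (θ * L))) *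
        (1 / 26880) := by gcongr
    _ = m / 32 := by
        field_simp
        ring

theorem fe3_w {α L : ℝ} (hα0 : 0 < α) (hα : α ≤ 1 / 2) (hL : 20 ≤ L) : ∃ w : ℕ,
    w * α ≤ L ∧ exp (-(L / 2)) ≤ exp (-((1 + 6 * (1 / 4)) * w * log (1 / (1 - α)))) ∧
      L / 80 ≤ (1 - 3 * (1 / 4)) * w * (α / (1 - α)) := by
  have h1 : 0 < 1 - α := by linarith
  obtain ⟨l0, hl0⟩ : ∃ l0, l0 = log (1 / (1 - α)) := ⟨_, rfl⟩
  have a1 : α ≤ l0 := by
    rw [hl0, one_div, log_inv]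
    have := log_le_sub_one_of_pos h1
    linarith
  have a2 : l0 ≤ α / (1 - α) := by
    have := log_le_sub_one_of_pos (x := 1 / (1 - α)) (by positivity)
    rw [hl0]
    refine this.trans (le_of_eq ?_)
    field_simp
    ring
  have a3 : l0 ≤ 1 := a2.trans (by rw [div_le_one h1]; linarith)
  have a4 : 0 < l0 := hα0.trans_le a1
  rw [← hl0]
  have b1 : (⌊L / (5 * l0)⌋₊ : ℝ) ≤ L / (5 * l0) := Nat.floor_le (by positivity)
  have b2 : L / (5 * l0) < ⌊L / (5 * l0)⌋₊ + 1 := Nat.lt_floor_add_one _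
  refine ⟨⌊L / (5 * l0)⌋₊, ?_⟩
  have b0 : (0 : ℝ) ≤ ⌊L / (5 * l0)⌋₊ := Nat.cast_nonneg _
  generalize (⌊L / (5 * l0)⌋₊ : ℝ) = w at *
  rw [le_div_iff₀ (by positivity)] at b1
  rw [div_lt_iff₀ (by positivity)] at b2
  have c1 := mul_le_mul_of_nonneg_left a1 b0
  have c2 := mul_le_mul_of_nonneg_left a2 b0
  have c3 : 0 ≤ w * l0 := by positivity
  refine ⟨by linarith, exp_le_exp.2 (by linarith), by linarith⟩

theorem fe3_T {L : ℝ} (hL : 0 < L) :
    exp (-(L / 2)) ^ (-(1 / (2 * L))) ≤ 4 / 3 ∧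
      exp (-(L / 2)) ^ (-(1 / (2 * L))) * exp (-L) ^ (1 / (2 * L)) ≤ 4 / 5 := by
  have e1 : exp (-(L / 2)) ^ (-(1 / (2 * L))) = exp (1 / 4) := by
    rw [← exp_mul]
    congr 1
    field_simp
    ring
  have e2 : exp (-L) ^ (1 / (2 * L)) = exp (-(1 / 2)) := by
    rw [← exp_mul]
    congr 1
    field_simp
  rw [e1, e2, ← exp_add]
  have h1 := add_one_le_exp (1 / 4 : ℝ)
  have h2 := add_one_le_exp (-(1 / 4) : ℝ)
  have h3 : exp (1 / 4 : ℝ) * exp (-(1 / 4)) = 1 := by rw [← exp_add]; simp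
  rw [show (1 / 4 : ℝ) + -(1 / 2) = -(1 / 4) by norm_num]
  have h4 := exp_pos (1 / 4 : ℝ)
  have h5 := exp_pos (-(1 / 4) : ℝ)
  constructor <;> nlinarith only [h1, h2, h3]

theorem fe3_theta {L β l ρ : ℝ} (hL : 2 / 3 ≤ L) (hLl : L ≤ l) (hβ : 30 ≤ β) (hβl : β ≤ l)
    (hρ : ρ = min 1 (L / β)) : 0 < ρ ∧ ρ ≤ 1 ∧ 1 / (2 * L) ≤ 1 ∧ ∃ θ, 0 < θ ∧ θ ≤ 1 / (2 * L) ∧
      θ * β ≤ 1 ∧ ρ / 2 ≤ θ * L ∧ 1 ≤ 2 * θ * l := by
  have hL0 : 0 < L := by linarith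
  have hβ0 : 0 < β := by linarith
  have hl0 : 0 < l := by linarith
  have hρ1 : ρ ≤ 1 := hρ ▸ min_le_left _ _
  have hρ2 : ρ ≤ L / β := hρ ▸ min_le_right _ _
  refine ⟨hρ ▸ lt_min one_pos (by positivity), hρ1, by rw [div_le_one (by positivity)]; linarith,
    min (1 / β) (1 / (2 * L)), lt_min (by positivity) (by positivity), min_le_right _ _, ?_, ?_, ?_⟩
  · exact (le_div_iff₀ hβ0).1 (min_le_left _ _)
  · rcases min_cases (1 / β) (1 / (2 * L)) with ⟨e, -⟩ | ⟨e, -⟩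
    · rw [e, one_div, ← div_eq_inv_mul]
      have := div_pos hL0 hβ0
      linarith
    · rw [e]
      have : 1 / (2 * L) * L = 1 / 2 := by field_simp
      linarith
  · have : 1 / (2 * l) ≤ min (1 / β) (1 / (2 * L)) :=
      le_min (one_div_le_one_div_of_le hβ0 (by linarith))
        (one_div_le_one_div_of_le (by positivity) (by linarith))
    rw [div_le_iff₀ (by positivity)] at this
    linarith

theorem fe3_M {n : ℕ} {t θ l : ℝ} (hθ0 : 0 < θ) (ht1 : θ / 7 ≤ t) (ht2 : t ≤ 1) (hl : 45 ≤ l)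
    (hln : l ≤ n) (h18 : 45 * l ^ 3 ≤ exp (l / 6)) (hE6 : exp (l / 6) ^ 6 = n) :
    ∃ M : ℕ, M ≤ n ∧ (M = n ∨ 11 ≤ t * (l / 3) * M / n) ∧ (n : ℝ) ≤ l * M ∧
      8 * (l * exp (l / 6)) ≤ M ∧ (M : ℝ) / n * (θ * l) ≤ 462 := by
  have hl0 : 0 < l := by linarith
  have hn0 : (0 : ℝ) < n := by linarith
  have ht0 : 0 < t := lt_of_lt_of_le (by positivity) ht1
  have hE0 := exp_pos (l / 6)
  obtain ⟨v, hv⟩ : ∃ v : ℝ, v = 33 * n / (t * l) := ⟨_, rfl⟩
  have hvw : v * (t * l) = 33 * n := by rw [hv]; field_simp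
  have hv0 : 0 < v := by rw [hv]; positivity
  have hv2 : (n : ℝ) ≤ l * v := by
    have : v * (t * l) ≤ v * (1 * l) := by gcongr
    linarith
  have hEE : 45 * l ^ 3 * exp (l / 6) ≤ n := by
    have e1 : 1 ≤ exp (l / 6) := one_le_exp (by positivity)
    calc 45 * l ^ 3 * exp (l / 6) ≤ exp (l / 6) * exp (l / 6) :=
          mul_le_mul_of_nonneg_right h18 hE0.le
      _ = exp (l / 6) ^ 2 := (sq _).symm
      _ ≤ exp (l / 6) ^ 6 := pow_le_pow_right₀ e1 (by norm_num)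
      _ = _ := hE6
  have hv1 : 1 ≤ v := by
    have : v * (t * l) ≤ v * (1 * n) := by gcongr
    have : (n : ℝ) * 1 ≤ n * v := by linarith
    exact le_of_mul_le_mul_left this hn0
  obtain ⟨M, hM⟩ : ∃ M : ℕ, M = min n ⌈v⌉₊ := ⟨_, rfl⟩
  have hMv : (M : ℝ) ≤ 2 * v := by
    have h3 : (M : ℝ) ≤ ⌈v⌉₊ := by rw [hM]; exact_mod_cast min_le_right _ _
    have := Nat.ceil_lt_add_one hv0.le
    linarith
  have hMor : M = n ∨ v ≤ M := by
    rcases le_total n ⌈v⌉₊ with h | h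
    · exact Or.inl (hM.trans (min_eq_left h))
    · right; rw [hM, min_eq_right h]; exact Nat.le_ceil v
  have hMlow : (n : ℝ) ≤ l * M := by
    rcases hMor with h | h
    · rw [h]; exact le_mul_of_one_le_left hn0.le (by linarith)
    · exact hv2.trans (mul_le_mul_of_nonneg_left h hl0.le)
  refine ⟨M, hM ▸ min_le_left _ _, hMor.imp id fun h => ?_, hMlow, ?_, ?_⟩
  · rw [le_div_iff₀ hn0]
    have := mul_le_mul_of_nonneg_right h (mul_pos ht0 hl0).le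
    linarith
  · refine le_of_mul_le_mul_left ?_ hl0
    have e1 : 8 * l ^ 2 ≤ 45 * l ^ 3 := by nlinarith only [sq_nonneg l, hl]
    have e2 := mul_le_mul_of_nonneg_right e1 hE0.le
    linarith
  · rw [div_mul_eq_mul_div, div_le_iff₀ hn0]
    have h8 : (M : ℝ) * (θ * l) ≤ 2 * v * (7 * t * l) := by gcongr; linarith
    linarith

theorem fe3_u {a l M n : ℝ} (hl : 0 < l) (hM : 0 ≤ M) (haE : 1 ≤ a * exp (l / 6))
    (hE6 : exp (l / 6) ^ 6 = n) (h : n ≤ l * M) :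
    exp (l / 6) ^ 5 ≤ 32 * l * ((1 / 4) ^ 2 * a * M) := by
  have hE0 := exp_pos (l / 6)
  refine le_of_mul_le_mul_right ?_ hE0
  have e1 : exp (l / 6) ^ 5 * exp (l / 6) = n := by rw [← hE6]; ring
  have e3 := mul_nonneg hl.le hM
  have e2 := mul_le_mul_of_nonneg_left haE e3
  linarith

theorem fe3_fib {n0 : ℕ} {G : Finset (Fin n0)} {c M : ℕ} {J D : Finset (Finset (Fin n0))}
    (hP : Pair G c J D) {a L l : ℝ} (ha0 : 0 < a) (hαa : 3 * a = (c : ℝ) / #G) (ha6 : a ≤ 1 / 6)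
    (hL : exp (-L) ≤ 1 / 2) (hLl : L ≤ l) (hl : 1 ≤ l) (haE : 1 ≤ a * exp (l / 6))
    (hM : 8 * (l * exp (l / 6)) ≤ M) {S x : Finset (Fin n0)} (hS : S ⊆ G) (hN : #(G \ S) = M)
    (hx : x ⊆ S) (hxc : #x ≤ c)
    (ht : |((c - #x : ℕ) : ℝ) - c / #G * #(G \ S)| ≤ 1 / 4 * (3 * a) * #(G \ S))
    (hcnt : (cnt J S x : ℝ) ≤ exp (-(L / 2)) * tot G c S x) :
    L / 80 * cnt J S x ≤ ∑ k ∈ G \ S, (cnt (blk J D k) S x : ℝ) := by
  have hcnt0 : (0 : ℝ) ≤ cnt J S x := Nat.cast_nonneg _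
  have hE0 := exp_pos (l / 6)
  have hlE : 1 ≤ l * exp (l / 6) := one_le_mul_of_one_le_of_one_le hl (one_le_exp (by linarith))
  have hM' : (0 : ℝ) < M := by linarith
  rw [← hαa] at ht
  rcases le_total L 20 with h20 | h20
  · have hT : exp (-(L / 2)) ≤ 3 / 4 := by
      have e1 : exp (-(L / 2)) ^ 2 = exp (-L) := by
        rw [sq, ← exp_add]
        congr 1
        ring
      exact le_of_pow_le_pow_left₀ two_ne_zero (by norm_num) (by rw [e1]; linarith)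
    refine le_trans (mul_le_mul_of_nonneg_right (by linarith) hcnt0) (fib_var hP hS hx ?_
      (hcnt.trans (mul_le_mul_of_nonneg_right hT (Nat.cast_nonneg _))))
    rw [hN, abs_le] at ht
    have h4 : (0 : ℝ) < ((c - #x : ℕ) : ℝ) := by linarith only [ht.1, mul_pos ha0 hM', ha0, ht, hM']
    have : 0 < c - #x := by exact_mod_cast h4
    omega
  · obtain ⟨w, w1, w2, w3⟩ := fe3_w (α := 3 * a) (by linarith only [ha0]) (by linarith) h20
    have hw0 : (0 : ℝ) ≤ w := Nat.cast_nonneg _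
    have hM8 : (M : ℝ) / 8 ≤ 1 / 4 * (1 - 3 * a) * M := by
      have := mul_le_mul_of_nonneg_right ha6 hM'.le
      linarith
    have hwE : (w : ℝ) ≤ l * exp (l / 6) := by
      have e1 := mul_le_mul_of_nonneg_left haE hw0
      have e2 : (w : ℝ) * a ≤ l := by linarith only [mul_nonneg hw0 ha0.le, ha0, ha6, hLl, h20, w1]
      have e3 := mul_le_mul_of_nonneg_right e2 hE0.le
      linarith
    refine le_trans (mul_le_mul_of_nonneg_right w3 hcnt0)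
      (fib_kkU hP hS hx hxc (by norm_num) le_rfl (by linarith) (by linarith) ?_ ?_ ?_ w2 hcnt)
    · rw [min_eq_left (by linarith)]
      exact ht
    · rw [hN]
      linarith
    · rw [hN]
      linarith

theorem fe3_end {L l ρ θ m B A y Y q : ℝ} (hL : 0 < L) (hl : 0 < l) (hθ : 0 < θ) (hm : 0 ≤ m)
    (hB : 0 ≤ B) (hθL : ρ / 2 ≤ θ * L) (hy : y = exp (-L)) (hY : Y ≤ m)
    (hA : A ≤ m * y ^ (1 / (2 * L)) + m / 32 + 1 / 32 * Y)
    (hk : L / 80 * (m - exp (-(L / 2)) ^ (-(1 / (2 * L))) * A - m / 20) ≤ q * B)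
    (hq : q * (θ * l) ≤ 462) : 1 / 2000000 * (m * l * ρ) ≤ B := by
  obtain ⟨hT1, hT2⟩ := fe3_T hL
  rw [← hy] at hT2
  have hT0 : 0 ≤ exp (-(L / 2)) ^ (-(1 / (2 * L))) := by positivity
  generalize exp (-(L / 2)) ^ (-(1 / (2 * L))) = τ at hk hT1 hT2 hT0
  have hrest : m / 20 ≤ m - τ * A - m / 20 := by
    have e1 : A ≤ m * y ^ (1 / (2 * L)) + m / 16 := by linarith
    have e2 := mul_le_mul_of_nonneg_left e1 hT0
    have e3 := mul_le_mul_of_nonneg_left hT1 hm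
    have e4 := mul_le_mul_of_nonneg_left hT2 hm
    linarith only [hm, e2, e3, e4]
  have h6 : L / 80 * (m / 20) ≤ q * B :=
    (mul_le_mul_of_nonneg_left hrest (by positivity)).trans hk
  calc 1 / 2000000 * (m * l * ρ) ≤ 1 / 2000000 * (m * l * (2 * (θ * L))) := by gcongr; linarith
    _ = 1600 / 1000000 * (L / 80 * (m / 20) * (θ * l)) := by ring
    _ ≤ 1600 / 1000000 * (q * B * (θ * l)) := by gcongr
    _ = 1600 / 1000000 * (q * (θ * l) * B) := by ring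
    _ ≤ 1600 / 1000000 * (462 * B) := by gcongr
    _ ≤ B := by linarith

theorem fe3_L {n μ : ℝ} (hn0 : 0 < n) (hnμ : 1 / n ≤ μ) (hμ2 : μ ≤ 1 / 2) :
    0 < μ ∧ μ = exp (-log (1 / μ)) ∧ 2 / 3 ≤ log (1 / μ) ∧ log (1 / μ) ≤ log n := by
  have hμ0 : 0 < μ := lt_of_lt_of_le (by positivity) hnμ
  have hL2 : log 2 ≤ log (1 / μ) := log_le_log (by norm_num) (by rw [le_div_iff₀ hμ0]; linarith)
  refine ⟨hμ0, by rw [one_div, log_inv, neg_neg, exp_log hμ0], by linarith [log_two_gt_d9], ?_⟩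
  refine log_le_log (by positivity) ?_
  rw [div_le_iff₀ hn0] at hnμ
  rw [div_le_iff₀ hμ0]
  linarith

theorem fe3_bt {a l : ℝ} (ha0 : 0 < a) (haE : 1 ≤ a * exp (l / 6)) (hl : 45 ≤ l) : bt a ≤ l := by
  have : log (1 / a) ≤ l / 6 := by
    rw [log_le_iff_le_exp (by positivity), div_le_iff₀ ha0]
    linarith
  unfold bt
  linarith

/-- Order of magnitude, lower half of the levels. -/
theorem core_S : ∃ c0 : ℝ, 0 < c0 ∧ ∃ N : ℕ,
    ∀ (n0 : ℕ) (G : Finset (Fin n0)) (c : ℕ) (J D : Finset (Finset (Fin n0))) (μ : ℝ), N ≤ #G →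
      Pair G c J D → (#G : ℝ) ^ (-(1 / 6) : ℝ) ≤ aa #G c → μ * (#G).choose c = #J →
      (∀ k ∈ G, aa #G c * #G * #(blk J D k) ≤ exc G J D) →
      1 / (#G : ℝ) ≤ μ → μ ≤ 1 / 2 → 2 * c ≤ #G →
      c0 * (#J * log #G * min 1 (log (1 / μ) / bt (aa #G c))) ≤ exc G J D := by
  obtain ⟨N1, hmom⟩ := momentU (1 / 32) 2 (by norm_num) (by norm_num)
  obtain ⟨N2, hN2⟩ := ev_pow 45
  obtain ⟨N3, hN3⟩ := ev_zetaU 32 1 (1 / 20) (by norm_num) (by norm_num)
  refine ⟨1 / 2000000, by norm_num, N1 + N2 + N3 + 1, ?_⟩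
  intro n0 G c J D μ hn hP ha hμ hb hnμ hμ2 hc2
  obtain ⟨-, hl45, hl3⟩ := hN2 #G (by omega)
  have hnpos : 0 < #G := by omega
  have hn0 : (0 : ℝ) < #G := by exact_mod_cast hnpos
  have hn1 : (1 : ℝ) ≤ #G := by exact_mod_cast hnpos
  have hc1 := hP.pos
  have hcn : c < #G := by omega
  have hc2' : 2 * (c : ℝ) ≤ #G := by exact_mod_cast hc2
  obtain ⟨hμ0, hμL, hL23, hLl⟩ := fe3_L hn0 hnμ hμ2
  have hCpos : 0 < (#G).choose c := Nat.choose_pos hcn.le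
  have hC0 : (0 : ℝ) < (#G).choose c := by exact_mod_cast hCpos
  have hJ0 : (0 : ℝ) ≤ #J := Nat.cast_nonneg _
  have hB0 : (0 : ℝ) ≤ exc G J D := Nat.cast_nonneg _
  obtain ⟨hE6, hE1, hE5, hE18⟩ := fe3_pow hn0 (by linarith only [hμ2, hl45, hμ0])
  have hlo := aa_lo hnpos c
  have hhi := aa_hi hnpos c
  have ha6 := aa_le hnpos c
  have hα2 : (c : ℝ) / #G ≤ 1 / 2 := by rw [div_le_iff₀ hn0]; linarith only [hc2']
  have hαa : 3 * aa #G c = (c : ℝ) / #G := (three_aa hnpos c).trans (min_eq_left (by linarith only [hα2]))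
  have hat := fun r (hr : r ≤ #G) =>
    Av_atypU G (η := 1 / 4) hc1 hcn hr (by norm_num) (by norm_num)
  generalize aa #G c = a at ha hb hlo hhi ha6 hαa hat ⊢
  have ha0 : 0 < a := lt_of_lt_of_le (rpow_pos_of_pos hn0 _) ha
  have hln : log (#G : ℝ) ≤ #G := (log_le_sub_one_of_pos hn0).trans (by linarith only [ha6, ha0])
  have hmom' := fun M θ θ' Γ W Z => hmom n0 G c M J D a θ θ' Γ W Z (by omega) hP ha hlo hhi
  have hzet := hN3 #G (by omega)
  clear hmom hN2 hN3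
  generalize log (#G : ℝ) = l at *
  generalize log (1 / μ) = L at *
  have hL0 : 0 < L := by linarith
  have hl0 : 0 < l := by linarith
  have haE : 1 ≤ a * exp (l / 6) := by
    rw [hE1, inv_le_iff_one_le_mul₀ (exp_pos _)] at ha
    exact ha
  obtain ⟨hρ0, hρ1, hθ', θ, hθ0, hθ1, hθβ, hθL, hθl⟩ :=
    fe3_theta hL23 hLl (bt_ge ha0 (by linarith)) (fe3_bt ha0 haE hl45) rfl
  generalize min 1 (L / bt a) = ρ at *
  have hJl : 0 ≤ (#J : ℝ) * l := mul_nonneg hJ0 hl0.le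
  by_cases hB : (exc G J D : ℝ) ≤ #J * l * ρ
  swap
  · have := not_le.1 hB
    have := mul_nonneg hJl hρ0.le
    linarith only [hB, this]
  obtain ⟨ht1, ht2, ht0, hθ30⟩ := tt_bounds ha0 (by linarith) hθ0 hθβ
  have hstep := stepS hP (a := a) ha0 (by linarith only [mul_pos ha0 hn0, hlo]) hc2 hθ0 hθ1 hθ'
  have hblk : ∀ k ∈ G, (#(blk J D k) : ℝ) ≤ exp (-(l / 3)) * (#G - 1).choose (c - 1) := by
    intro k hk
    refine fe3_blk (B := exc G J D) ha0 haE hC0.le ?_ (by rw [hE6]; exact hb k hk) ?_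
    · have e := choose_pred_pred hnpos hP.pos
      refine le_of_mul_le_mul_left ?_ hn0
      rw [e, ← mul_assoc, mul_comm (#G : ℝ)]
      exact mul_le_mul_of_nonneg_right hlo hC0.le
    · have e1 : (#J : ℝ) ≤ (#G).choose c := by
        rw [← hμ]
        exact mul_le_of_le_one_left hC0.le (by linarith only [hμ2])
      exact hB.trans ((mul_le_of_le_one_right hJl hρ1).trans (mul_le_mul_of_nonneg_right e1 hl0.le))
  obtain ⟨M, hMn, hMor, hMlow, hMbig, hq⟩ :=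
    fe3_M hθ0 ht1 (by linarith) hl45 hln (hl3.trans hE18) hE6
  have hM00 : (0 : ℝ) ≤ M := Nat.cast_nonneg _
  have hM0 : 0 < M := by
    refine Nat.pos_of_ne_zero fun h => ?_
    rw [h, Nat.cast_zero, mul_zero] at hMlow
    linarith only [hl45, hln, hMlow]
  have hθ'0 : 0 < 1 / (2 * L) := hθ0.trans_le hθ1
  have hAv := hmom' M θ (1 / (2 * L)) (10 * (1 / (2 * L))) (l / 3) (#J / 32)
    hθ0 hθβ hθl (by linarith only [hθ0, hθ1]) (by linarith only [hθ']) hstep hMn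
    (by linarith only [mul_nonneg hl0.le hM00, hl45, hln, hMlow]) (by linarith only [hl45]) (by linarith only [hl45, hln]) hblk
    (by linarith) (hMor.imp id fun h => fe3_main hL0 hθ0 ht1 hl0 hθL hJ0 hB0 hB h)
  rw [fe3_wp hCpos hμ0 hμ, mul_assoc] at hAv
  have hn2 : (#G : ℝ) ^ (-(2 : ℝ)) * (#G).choose c ≤ #J := by
    rw [← hμ]
    refine mul_le_mul_of_nonneg_right (le_trans ?_ hnμ) hC0.le
    rw [one_div, ← rpow_neg_one]
    exact rpow_le_rpow_of_exponent_le hn1 (by norm_num)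
  have hr : ((#G : ℝ) - ((#G - M : ℕ) : ℝ)) = M := by rw [Nat.cast_sub hMn]; ring
  have hZ : Av G (#G - M) (atyp G c (1 / 4 * (3 * a))) ≤ #J / 20 := by
    refine (hat _ (Nat.sub_le _ _)).trans ?_
    rw [hr]
    have hz := hzet ((1 / 4) ^ 2 * a * M) (hE5 ▸ fe3_u hl0 hM00 haE hE6 hMlow)
    have hz0 := zeta_nonneg #G 1 ((1 / 4) ^ 2 * a * M)
    have h4 := le_mul_of_one_le_left hz0 (one_le_pow₀ hn1 (n := 2))
    rw [rpow_neg_one, ← one_div] at hz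
    have h3 : zeta #G 1 ((1 / 4) ^ 2 * a * M) ≤ 1 / 20 * μ :=
      (h4.trans hz).trans (mul_le_mul_of_nonneg_left hnμ (by norm_num))
    refine (mul_le_mul_of_nonneg_right h3 hC0.le).trans (le_of_eq ?_)
    rw [← hμ]
    ring
  have hmk := markovU hP (r := #G - M) (by omega) (η := 1 / 4 * (3 * a)) (β := L / 80)
    (T := exp (-(L / 2))) (θ := 1 / (2 * L)) (by linarith only [hL23]) (exp_pos _) hθ'0 hZ
    (fun S hS hSc x hx hxc ht hcnt => fe3_fib hP ha0 hαa ha6 (hμL ▸ hμ2) hLl (by linarith only [hl45]) haE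
      hMbig hS (by rw [card_sdiff_of_subset hS, hSc]; omega) hx hxc ht hcnt)
  rw [hr] at hmk
  exact fe3_end hL0 hl0 hθ0 hJ0 hB0 hθL hμL hn2 hAv hmk hq

end Pool.Agent.P.MP_4f3dfd_co.Ex
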