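import Mathlib
import Pool.Agent.P.MP_4f3dfd_co.FDefs
import Pool.Agent.P.MP_4f3dfd_co.ALower
import Pool.Agent.P.MP_4f3dfd_co.EF1
import Pool.Agent.P.MP_4f3dfd_co.ENum
import Pool.Agent.P.MP_4f3dfd_co.EL1
import Pool.Agent.P.MP_4f3dfd_co.EF2
import Pool.Agent.P.MP_4f3dfd_co.FD2
import Pool.Agent.P.MP_4f3dfd_co.FDual

set_option autoImplicit false
set_option linter.unusedSectionVars false
set_option linter.unusedVariables false

namespace Pool.Agent.P.MP_4f3dfd_co.Ex

open Finset Real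

variable {V : Type*} [DecidableEq V]

theorem fl1_hi {n k z : ℕ} (hk : 2 ≤ k) (hkz : k ≤ z) (hzn : z ≤ n)
    {J D : Finset (Finset (Fin n))} (h : Pair univ (k + 1) J D) {d : ℕ} (hd : ∀ i, deg D i = d)
    (hlt : d < z.choose (k - 1)) :
    ((k : ℝ) + 1) * #J ≤ #D * ((z : ℝ) - k + 1) := by
  have hDk : ∀ Y ∈ D, #Y = k := fun Y hY => by
    have := (mem_powersetCard.1 (h.hD hY)).2
    omega
  have hJk : ∀ X ∈ J, #X = k + 1 := fun X hX => (mem_powersetCard.1 (h.hJ hX)).2
  have hd' : ∀ i, #{Y ∈ D | i ∈ Y} = d := hd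
  have hsum := Asy.sum_deg_nat D k hDk
  rw [sum_congr rfl (fun v _ => hd' v), sum_const, card_univ, Fintype.card_fin,
    smul_eq_mul] at hsum
  have key : ∀ v, #{X ∈ J | v ∈ X} * k ≤ d * (z + 1 - k) := by
    intro v
    set L : Finset (Finset (Fin n)) := {X ∈ J | v ∈ X}.image (·.erase v) with hL
    have hLc : #L = #{X ∈ J | v ∈ X} := by
      rw [hL, card_image_of_injOn]
      intro X hX Y hY h
      rw [mem_coe, mem_filter] at hX hY
      rw [← insert_erase hX.2, ← insert_erase hY.2]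
      exact congrArg _ h
    have hLk : ∀ X ∈ L, #X = k := by
      intro X hX
      obtain ⟨Z, hZ, rfl⟩ := mem_image.1 hX
      rw [mem_filter] at hZ
      rw [card_erase_of_mem hZ.2, hJk Z hZ.1]; rfl
    have hmem : ∀ Y ∈ shadow L, v ∉ Y ∧ insert v Y ∈ D := by
      intro Y hY
      obtain ⟨X, hX, a, ha, rfl⟩ := mem_shadow_iff.1 hY
      obtain ⟨Z, hZ, rfl⟩ := mem_image.1 hX
      rw [mem_filter] at hZ
      rw [mem_erase] at ha
      refine ⟨by simp, ?_⟩
      have : insert v ((Z.erase v).erase a) = Z.erase a := by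
        rw [erase_right_comm, insert_erase (mem_erase.2 ⟨ha.1.symm, hZ.2⟩)]
      rw [this]
      exact h.sh Z hZ.1 a ha.2
    have hsh : #(shadow L) ≤ d := by
      rw [← hd' v]
      apply card_le_card_of_injOn (insert v)
      · intro Y hY
        rw [mem_coe, mem_filter]
        exact ⟨(hmem Y hY).2, mem_insert_self _ _⟩
      · intro Y hY Z hZ h
        rw [← erase_insert (hmem Y hY).1, ← erase_insert (hmem Z hZ).1]
        exact congrArg (·.erase v) h
    rw [← hLc]
    exact el1_ratio (by omega) hkz hzn L hLk hsh hlt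
  have hs2 := sum_le_sum (s := (univ : Finset (Fin n))) (fun v _ => key v)
  rw [← sum_mul, Asy.sum_deg_nat _ (k + 1) hJk, sum_const, card_univ, Fintype.card_fin,
    smul_eq_mul, ← mul_assoc, hsum] at hs2
  have h1 : k * ((k + 1) * #J) ≤ k * (#D * (z + 1 - k)) := by
    calc k * ((k + 1) * #J) = (k + 1) * #J * k := by ring
      _ ≤ _ := hs2
      _ = _ := by ring
  have h2 := Nat.le_of_mul_le_mul_left h1 (by omega)
  have h3 : ((z + 1 - k : ℕ) : ℝ) = (z : ℝ) - k + 1 := by
    rw [Nat.cast_sub (by omega)]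
    push_cast
    ring
  rw [← h3]
  exact_mod_cast h2

theorem link_loU {n c m d z : ℕ} (hc : 2 ≤ c) {J : Finset (Finset (Fin n))} (hJ : Reg n c m J)
    (hd : c * m = d * n) (hz : z < n) (h : d < z.choose (c - 1)) :
    c * m * ((n : ℝ) - z - 1) / ((z : ℝ) - c + 2) ≤ ex n c m #(shadow J) := by
  obtain ⟨hc', hm', e, he⟩ := hJ
  have hsum := Asy.sum_deg_nat J c hc'
  rw [sum_congr rfl (fun v _ => he v), sum_const, card_univ, Fintype.card_fin, smul_eq_mul,
    hm'] at hsum
  have hn : 0 < n := by omega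
  have hed : e = d := by
    have : n * e = n * d := by rw [hsum, hd, mul_comm]
    exact Nat.eq_of_mul_eq_mul_left hn this
  subst hed
  have hcz : c - 1 ≤ z := by
    by_contra hh
    rw [Nat.choose_eq_zero_of_lt (by omega)] at h
    omega
  have h1 := Asy.lower (k := c - 1) (by omega) hz.le J
    (fun X hX => by rw [hc' X hX]; omega) he h.le
  rw [hsum] at h1
  have h2 : z + 1 - (c - 1) + c = z + 2 := by omega
  have h3 : ((z + 1 - (c - 1) : ℕ) : ℝ) = (z : ℝ) - c + 2 := by
    have : ((z + 1 - (c - 1) + c : ℕ) : ℝ) = ((z + 2 : ℕ) : ℝ) := by rw [h2]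
    push_cast at this
    linarith
  have h4 : (c : ℝ) * m ≤ #(shadow J) * ((z : ℝ) - c + 2) := by
    rw [← h3]
    exact_mod_cast h1
  have ht : (0 : ℝ) < (z : ℝ) - c + 2 := by
    rw [← h3]
    exact_mod_cast (by omega : 0 < z + 1 - (c - 1))
  have hw : (0 : ℝ) ≤ (n : ℝ) - z - 1 := by
    have : ((z + 1 : ℕ) : ℝ) ≤ n := by exact_mod_cast hz
    push_cast at this
    linarith
  have h5 : c * m * ((n : ℝ) - z - 1) / ((z : ℝ) - c + 2) ≤ #(shadow J) * ((n : ℝ) - z - 1) := by
    rw [div_le_iff₀ ht]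
    have := mul_le_mul_of_nonneg_right h4 hw
    linarith
  rw [ex]
  linarith

theorem link_hiU {n c k m m' d z : ℕ} (hk : c + k = n) (hc : 1 ≤ c) (hk2 : 2 ≤ k)
    (hm : m + m' = n.choose c) {J : Finset (Finset (Fin n))} (hJ : Reg n c m J)
    (hd : k * m' = d * n) (hz : z < n) (h : d < z.choose (k - 1)) :
    m' * ((n : ℝ) - z - 1) ≤ ex n c m #(shadow J) := by
  obtain ⟨Js, Ds, μ, hp, hex, hD, ⟨e, he⟩, -, -, hJs, -⟩ := dual_pack hk hc hm hJ
  have hn : 0 < n := by omega
  have hB : (0 : ℝ) ≤ exc univ Js Ds := Nat.cast_nonneg _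
  rw [← hex]
  rcases le_or_gt k z with hkz | hkz
  · have hDk : ∀ Y ∈ Ds, #Y = k := fun Y hY => by
      have := (mem_powersetCard.1 (hp.hD hY)).2
      omega
    have he' : ∀ i, #{Y ∈ Ds | i ∈ Y} = e := he
    have hsum := Asy.sum_deg_nat Ds k hDk
    rw [sum_congr rfl (fun v _ => he' v), sum_const, card_univ, Fintype.card_fin,
      smul_eq_mul, hD] at hsum
    have hed : e = d := by
      have : n * e = n * d := by rw [hsum, hd, mul_comm]
      exact Nat.eq_of_mul_eq_mul_left hn this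
    subst hed
    have h1 := fl1_hi hk2 hkz hz.le hp he h
    rw [hD] at h1
    have h2 : (n : ℝ) = c + k := by exact_mod_cast hk.symm
    rw [h2]
    linarith
  · have hd0 : d = 0 := by
      rcases eq_or_lt_of_le (show z ≤ k - 1 by omega) with h1 | h1
      · rw [← h1, Nat.choose_self] at h
        omega
      · rw [Nat.choose_eq_zero_of_lt h1] at h
        omega
    have hm0 : m' = 0 := by
      rw [hd0, zero_mul] at hd
      rcases Nat.mul_eq_zero.1 hd with h1 | h1 <;> omega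
    rw [hm0]
    simp

theorem var_lo {n c m : ℕ} (hc : 1 ≤ c) (hcn : c ≤ n) {J : Finset (Finset (Fin n))}
    (hJ : Reg n c m J) (h2 : 2 * m ≤ n.choose c) :
    (n : ℝ) * m ≤ 2 * (((n : ℝ) - c) * ex n c m #(shadow J)) := by
  have h1 := exc_ge_varU (pair_shadow hc hJ.1)
  rw [card_univ, Fintype.card_fin, hJ.2.1, exc_shadow hc hJ] at h1
  have hC : (0 : ℝ) < n.choose c := by exact_mod_cast Nat.choose_pos hcn
  have h3 : 2 * (m : ℝ) ≤ n.choose c := by exact_mod_cast h2
  have h4 : (0 : ℝ) ≤ (n : ℝ) * m := by positivity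
  have h5 := mul_le_mul_of_nonneg_left h3 h4
  refine le_of_mul_le_mul_right ?_ hC
  linarith

theorem var_hi {n c m m' : ℕ} (hc : 1 ≤ c) (hcn : c ≤ n) (hm : m + m' = n.choose c)
    {J : Finset (Finset (Fin n))} (hJ : Reg n c m J) (h2 : 2 * m' ≤ n.choose c) :
    (m' : ℝ) ≤ 2 * ex n c m #(shadow J) := by
  have h1 := exc_ge_var (pair_shadow hc hJ.1)
  rw [card_univ, Fintype.card_fin, hJ.2.1, exc_shadow hc hJ] at h1
  have hC : (0 : ℝ) < n.choose c := by exact_mod_cast Nat.choose_pos hcn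
  have h3 : 2 * (m' : ℝ) ≤ n.choose c := by exact_mod_cast h2
  have h6 : (m : ℝ) = n.choose c - m' := by
    have : ((m + m' : ℕ) : ℝ) = n.choose c := by rw [hm]
    push_cast at this
    linarith
  have h4 : (0 : ℝ) ≤ m' := by positivity
  have h5 := mul_le_mul_of_nonneg_left h3 h4
  refine le_of_mul_le_mul_right ?_ hC
  set B := ex n c m #(shadow J)
  rw [h6] at h1
  linarith

end Pool.Agent.P.MP_4f3dfd_co.Ex
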