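import Mathlib
import Pool.Agent.P.MP_4f3dfd_co.FDefs
import Pool.Agent.P.MP_4f3dfd_co.ENum

set_option autoImplicit false
set_option linter.unusedSectionVars false
set_option linter.unusedVariables false

namespace Pool.Agent.P.MP_4f3dfd_co.Ex

open Finset Real

variable {V : Type*} [DecidableEq V]

theorem fn1_step {q z m : ℕ} (hq : q ≤ z) (hz : z ≤ m) :
    ((m + 1).choose q : ℝ) * (1 - (q : ℝ) / ((z : ℝ) + 1)) ≤ m.choose q := by
  have hm : q ≤ m + 1 := by omega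
  have e := Nat.choose_mul_succ_eq m q
  have e' : (m.choose q : ℝ) * ((m : ℝ) + 1) = ((m + 1).choose q : ℝ) * ((m : ℝ) + 1 - q) := by
    have := congrArg (Nat.cast : ℕ → ℝ) e
    push_cast [Nat.cast_sub hm] at this
    exact this
  have hm1 : (0 : ℝ) < (m : ℝ) + 1 := by positivity
  have hz1 : (0 : ℝ) < (z : ℝ) + 1 := by positivity
  have hzm : (z : ℝ) + 1 ≤ (m : ℝ) + 1 := by
    have : (z : ℝ) ≤ m := by exact_mod_cast hz
    linarith
  have hc : (0 : ℝ) ≤ ((m + 1).choose q : ℝ) := by positivity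
  have hq0 : (0 : ℝ) ≤ q := by positivity
  have hd : (q : ℝ) / ((m : ℝ) + 1) ≤ q / ((z : ℝ) + 1) := div_le_div_of_nonneg_left hq0 hz1 hzm
  have e2 : (m.choose q : ℝ) = ((m + 1).choose q : ℝ) * (1 - q / ((m : ℝ) + 1)) := by
    field_simp
    linarith
  rw [e2]
  exact mul_le_mul_of_nonneg_left (by linarith) hc

theorem fn1_rho_pos {q z : ℕ} (hq : q ≤ z) : (0 : ℝ) < 1 - (q : ℝ) / ((z : ℝ) + 1) := by
  have hz1 : (0 : ℝ) < (z : ℝ) + 1 := by positivity
  have : (q : ℝ) ≤ z := by exact_mod_cast hq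
  rw [sub_pos, div_lt_one hz1]; linarith

theorem fn1_ge {q z : ℕ} (hq : q ≤ z) (w : ℕ) :
    ((z + w).choose q : ℝ) * (1 - (q : ℝ) / ((z : ℝ) + 1)) ^ w ≤ z.choose q := by
  have h0 := fn1_rho_pos hq
  induction w with
  | zero => simp
  | succ w ih =>
    have h2 := fn1_step (m := z + w) hq (by omega)
    calc ((z + (w + 1)).choose q : ℝ) * (1 - (q : ℝ) / ((z : ℝ) + 1)) ^ (w + 1)
        = (((z + w + 1).choose q : ℝ) * (1 - (q : ℝ) / ((z : ℝ) + 1))) *
            (1 - (q : ℝ) / ((z : ℝ) + 1)) ^ w := by rw [← add_assoc]; ring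
      _ ≤ ((z + w).choose q : ℝ) * (1 - (q : ℝ) / ((z : ℝ) + 1)) ^ w :=
          mul_le_mul_of_nonneg_right h2 (pow_nonneg h0.le w)
      _ ≤ z.choose q := ih

theorem fn1_log {q z N : ℕ} {Y : ℝ} (hq : q ≤ z) (hz : z ≤ N)
    (h : (z.choose q : ℝ) ≤ exp (-Y) * N.choose q) :
    ((N : ℝ) - z) * log (1 - (q : ℝ) / ((z : ℝ) + 1)) ≤ -Y := by
  obtain ⟨w, rfl⟩ := Nat.exists_eq_add_of_le hz
  have h0 := fn1_rho_pos hq
  have h1 := fn1_ge hq w
  have hC : (0 : ℝ) < ((z + w).choose q : ℝ) := by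
    exact_mod_cast Nat.choose_pos (by omega)
  have h2 : (1 - (q : ℝ) / ((z : ℝ) + 1)) ^ w ≤ exp (-Y) := by
    have h3 := h1.trans h
    rw [mul_comm (exp (-Y))] at h3
    exact le_of_mul_le_mul_left h3 hC
  have h4 := log_le_log (pow_pos h0 w) h2
  rw [log_exp, log_pow] at h4
  have e : (((z + w : ℕ) : ℝ) - z) = w := by push_cast; ring
  rw [e]; exact h4

/-- Log-concavity of `z ↦ C(z, q)`. -/
theorem decay {q z N s : ℕ} {Y : ℝ} (hz : z < N) (hs : s ≤ z)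
    (h : (z.choose q : ℝ) ≤ exp (-Y) * N.choose q) :
    ((z - s).choose q : ℝ) ≤ exp (-(Y * s / ((N : ℝ) - z))) * z.choose q := by
  by_cases hq : q ≤ z
  · have h0 := fn1_rho_pos hq
    have h1 := fn1_log hq hz.le h
    have h2 := choose_le_mul_pow (n := z + 1) (k := q) (z := z - s) (w := s) (by omega) (by omega)
      (by omega)
    rw [Nat.sub_add_cancel hs] at h2
    push_cast at h2
    have hN : (0 : ℝ) < (N : ℝ) - z := by
      have : (z : ℝ) < N := by exact_mod_cast hz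
      linarith
    have hs0 : (0 : ℝ) ≤ s := by positivity
    have h3 : (1 - (q : ℝ) / ((z : ℝ) + 1)) ^ s ≤ exp (-(Y * s / ((N : ℝ) - z))) := by
      rw [← exp_log (pow_pos h0 s), log_pow]
      apply exp_le_exp.2
      have h4 : log (1 - (q : ℝ) / ((z : ℝ) + 1)) ≤ -Y / ((N : ℝ) - z) := by
        rw [le_div_iff₀ hN]; linarith
      calc (s : ℝ) * log (1 - (q : ℝ) / ((z : ℝ) + 1)) ≤ s * (-Y / ((N : ℝ) - z)) :=
            mul_le_mul_of_nonneg_left h4 hs0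
        _ = -(Y * s / ((N : ℝ) - z)) := by ring
    calc ((z - s).choose q : ℝ) ≤ z.choose q * (1 - (q : ℝ) / ((z : ℝ) + 1)) ^ s := h2
      _ ≤ z.choose q * exp (-(Y * s / ((N : ℝ) - z))) :=
          mul_le_mul_of_nonneg_left h3 (by positivity)
      _ = _ := mul_comm _ _
  · have : (z - s).choose q = 0 := Nat.choose_eq_zero_of_lt (by omega)
    rw [this]
    push_cast
    positivity

theorem width_ge {q z N : ℕ} {Y : ℝ} (hq : q ≤ z) (hz : z ≤ N)
    (h : (z.choose q : ℝ) ≤ exp (-Y) * N.choose q) :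
    Y ≤ ((N : ℝ) - z) * log (((z : ℝ) + 1) / ((z : ℝ) + 1 - q)) := by
  have h1 := fn1_log hq hz h
  have hz1 : (0 : ℝ) < (z : ℝ) + 1 := by positivity
  have e : ((z : ℝ) + 1) / ((z : ℝ) + 1 - q) = (1 - (q : ℝ) / ((z : ℝ) + 1))⁻¹ := by
    rw [← inv_div]
    congr 1
    field_simp
  rw [e, log_inv]
  linarith

theorem width_leU {q z N : ℕ} {Y : ℝ} (hq : q < N) (hz : z ≤ N)
    (h : exp (-Y) * N.choose q ≤ (z.choose q : ℝ)) :
    ((N : ℝ) - z) * log (N / ((N : ℝ) - q)) ≤ Y := by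
  obtain ⟨w, rfl⟩ := Nat.exists_eq_add_of_le hz
  have h2 := choose_le_mul_pow (n := z + w) (k := q) (z := z) (w := w) (by omega) hq.le le_rfl
  have hC : (0 : ℝ) < ((z + w).choose q : ℝ) := by
    exact_mod_cast Nat.choose_pos hq.le
  have hN : (0 : ℝ) < ((z + w : ℕ) : ℝ) := by
    have : 0 < z + w := by omega
    exact_mod_cast this
  have hqN : (q : ℝ) < ((z + w : ℕ) : ℝ) := by exact_mod_cast hq
  have h3 : exp (-Y) ≤ (1 - (q : ℝ) / ((z + w : ℕ) : ℝ)) ^ w := by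
    have h4 := h.trans h2
    rw [mul_comm (exp (-Y))] at h4
    exact le_of_mul_le_mul_left h4 hC
  have h4 := log_le_log (exp_pos _) h3
  rw [log_exp, log_pow] at h4
  have e : (((z + w : ℕ) : ℝ) - z) = w := by push_cast; ring
  have e2 : ((z + w : ℕ) : ℝ) / (((z + w : ℕ) : ℝ) - q) =
      (1 - (q : ℝ) / ((z + w : ℕ) : ℝ))⁻¹ := by
    rw [← inv_div]
    congr 1
    field_simp
  rw [e, e2, log_inv]
  linarith

end Pool.Agent.P.MP_4f3dfd_co.Ex
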