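import Mathlib
import Pool.Agent.P.MP_4f3dfd_co.FDefs
import Pool.Agent.P.MP_4f3dfd_co.ENum
import Pool.Agent.P.MP_4f3dfd_co.BNum

set_option autoImplicit false
set_option linter.unusedSectionVars false
set_option linter.unusedVariables false

namespace Pool.Agent.P.MP_4f3dfd_co.Ex

open Finset Real

variable {V : Type*} [DecidableEq V]

theorem fn2_step (q j : ℕ) :
    (q + j + 1).choose q * (j + 1) = (q + j).choose q * (q + j + 1) := by
  have h := Nat.choose_mul_succ_eq (q + j) q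
  have e : q + j + 1 - q = j + 1 := by omega
  rw [e] at h
  exact h.symm

theorem grow {q t : ℕ} (s : ℕ) (ht : 1 ≤ t) :
    (1 + (q : ℝ) * s / (t + s)) * (q + t - 1).choose q ≤ (q + t - 1 + s).choose q := by
  obtain ⟨u, rfl⟩ : ∃ u, t = u + 1 := ⟨t - 1, by omega⟩
  have e0 : q + (u + 1) - 1 = q + u := by omega
  rw [e0]
  induction s with
  | zero => simp
  | succ s ih =>
    have h := fn2_step q (u + s)
    have e1 : q + u + (s + 1) = q + (u + s) + 1 := by omega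
    have e2 : q + u + s = q + (u + s) := by omega
    rw [e1]
    rw [e2] at ih
    have h' : ((q + (u + s) + 1).choose q : ℝ) * ((u : ℝ) + s + 1) =
        ((q + (u + s)).choose q : ℝ) * ((q : ℝ) + (u + s) + 1) := by exact_mod_cast h
    have hp : (0 : ℝ) < (u : ℝ) + s + 1 := by positivity
    have hq : (0 : ℝ) ≤ q := Nat.cast_nonneg q
    have hs : (0 : ℝ) ≤ s := Nat.cast_nonneg s
    have hA : (0 : ℝ) ≤ ((q + u).choose q : ℝ) := Nat.cast_nonneg _
    have e3 : ((q + (u + s) + 1).choose q : ℝ) =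
        ((q + (u + s)).choose q : ℝ) * (1 + q / ((u : ℝ) + s + 1)) := by
      field_simp
      linarith
    have ih' : (1 + (q : ℝ) * s / ((u : ℝ) + s + 1)) * ((q + u).choose q : ℝ) ≤
        ((q + (u + s)).choose q : ℝ) := by
      have e4 : ((u + 1 : ℕ) : ℝ) + s = (u : ℝ) + s + 1 := by push_cast; ring
      rw [e4] at ih
      exact ih
    have h5 : (q : ℝ) * ((s + 1 : ℕ) : ℝ) / (((u + 1 : ℕ) : ℝ) + ((s + 1 : ℕ) : ℝ)) ≤
        (q : ℝ) * s / ((u : ℝ) + s + 1) + q / ((u : ℝ) + s + 1) := by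
      rw [← add_div]
      push_cast
      have e5 : (q : ℝ) * s + q = q * (s + 1) := by ring
      rw [e5]
      exact div_le_div_of_nonneg_left (by positivity) hp (by linarith)
    have h6 : (0 : ℝ) ≤ (q : ℝ) * s / ((u : ℝ) + s + 1) := by positivity
    have h7 : (0 : ℝ) ≤ (q : ℝ) / ((u : ℝ) + s + 1) := by positivity
    rw [e3]
    calc (1 + (q : ℝ) * ((s + 1 : ℕ) : ℝ) / (((u + 1 : ℕ) : ℝ) + ((s + 1 : ℕ) : ℝ))) *
          ((q + u).choose q : ℝ)
        ≤ ((1 + (q : ℝ) * s / ((u : ℝ) + s + 1)) * (1 + q / ((u : ℝ) + s + 1))) *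
          ((q + u).choose q : ℝ) := by
          refine mul_le_mul_of_nonneg_right ?_ hA
          nlinarith [mul_nonneg h6 h7]
      _ = ((1 + (q : ℝ) * s / ((u : ℝ) + s + 1)) * ((q + u).choose q : ℝ)) *
          (1 + q / ((u : ℝ) + s + 1)) := by ring
      _ ≤ _ := mul_le_mul_of_nonneg_right ih' (by linarith)

theorem choose_le_succ_pow (q j : ℕ) : (q + j).choose q ≤ (q + 1) ^ j := by
  induction j with
  | zero => simp
  | succ j ih =>
    have h := fn2_step q j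
    have h1 : (q + j + 1).choose q * (j + 1) ≤ (q + 1) ^ (j + 1) * (j + 1) := by
      rw [h, pow_succ, mul_assoc]
      exact Nat.mul_le_mul ih (by nlinarith [Nat.zero_le (q * j)])
    exact Nat.le_of_mul_le_mul_right h1 (Nat.succ_pos j)

theorem fn2_four (M : ℕ) : 24 * (M + 4).choose 4 = (M + 1) * (M + 2) * (M + 3) * (M + 4) := by
  have h := Nat.descFactorial_eq_factorial_mul_choose (M + 4) 4
  have e : Nat.factorial 4 = 24 := by decide
  rw [e] at h
  rw [← h]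
  simp only [Nat.descFactorial_succ, Nat.descFactorial_zero]
  have e1 : M + 4 - 3 = M + 1 := by omega
  have e2 : M + 4 - 2 = M + 2 := by omega
  have e3 : M + 4 - 1 = M + 3 := by omega
  have e4 : M + 4 - 0 = M + 4 := by omega
  rw [e1, e2, e3, e4]
  ring

theorem fn2_five (M : ℕ) :
    120 * (M + 5).choose 5 = (M + 1) * (M + 2) * (M + 3) * (M + 4) * (M + 5) := by
  have h := Nat.descFactorial_eq_factorial_mul_choose (M + 5) 5
  have e : Nat.factorial 5 = 120 := by decide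
  rw [e] at h
  rw [← h]
  simp only [Nat.descFactorial_succ, Nat.descFactorial_zero]
  have e0 : M + 5 - 4 = M + 1 := by omega
  have e1 : M + 5 - 3 = M + 2 := by omega
  have e2 : M + 5 - 2 = M + 3 := by omega
  have e3 : M + 5 - 1 = M + 4 := by omega
  have e4 : M + 5 - 0 = M + 5 := by omega
  rw [e0, e1, e2, e3, e4]
  ring

theorem err_base {q τ : ℕ} (hq : 1 ≤ q) (hτ : 4 ≤ τ) :
    (q + 1) ^ 3 * (q + τ) ≤ 64 * (q + τ).choose q := by
  rcases le_or_gt q 3 with h3 | h3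
  · have h1 : (q + τ).choose 1 ≤ (q + τ).choose q := Off.choose_mid hq (by omega)
    rw [Nat.choose_one_right] at h1
    have h2 : (q + 1) ^ 3 ≤ 4 ^ 3 := Nat.pow_le_pow_left (by omega) 3
    exact Nat.mul_le_mul (by simpa using h2) h1
  · have h1 : (q + τ).choose 4 ≤ (q + τ).choose q := Off.choose_mid h3 (by omega)
    obtain ⟨M, hM⟩ : ∃ M, q + τ = M + 4 := ⟨q + τ - 4, by omega⟩
    have h4 := fn2_four M
    rw [hM] at h1 ⊢
    have h5 : (q + 1) ^ 3 ≤ (M + 1) ^ 3 := Nat.pow_le_pow_left (by omega) 3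
    have h6 : (M + 1) ^ 3 ≤ (M + 1) * (M + 2) * (M + 3) := by
      rw [pow_succ, pow_two]
      exact Nat.mul_le_mul (Nat.mul_le_mul le_rfl (by omega)) (by omega)
    have h7 : (q + 1) ^ 3 * (M + 4) ≤ (M + 1) * (M + 2) * (M + 3) * (M + 4) :=
      Nat.mul_le_mul (h5.trans h6) le_rfl
    omega

theorem err_five {q τ : ℕ} (hq : 5 ≤ q) (hτ : 5 ≤ τ) : (q + τ) ^ 5 ≤ 1000 * (q + τ).choose q := by
  have h1 : (q + τ).choose 5 ≤ (q + τ).choose q := Off.choose_mid hq (by omega)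
  obtain ⟨M, hM⟩ : ∃ M, q + τ = M + 5 := ⟨q + τ - 5, by omega⟩
  have hM5 : 5 ≤ M := by omega
  have h4 := fn2_five M
  rw [hM] at h1 ⊢
  have a1 : 6 * (M + 5) ≤ 10 * (M + 1) := by omega
  have a2 : 7 * (M + 5) ≤ 10 * (M + 2) := by omega
  have a3 : 8 * (M + 5) ≤ 10 * (M + 3) := by omega
  have a4 : 9 * (M + 5) ≤ 10 * (M + 4) := by omega
  have a5 := Nat.mul_le_mul (Nat.mul_le_mul (Nat.mul_le_mul (Nat.mul_le_mul a1 a2) a3) a4)
    (le_refl (M + 5))
  have e1 : 6 * (M + 5) * (7 * (M + 5)) * (8 * (M + 5)) * (9 * (M + 5)) * (M + 5) =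
      3024 * (M + 5) ^ 5 := by ring
  have e2 : 10 * (M + 1) * (10 * (M + 2)) * (10 * (M + 3)) * (10 * (M + 4)) * (M + 5) =
      10000 * ((M + 1) * (M + 2) * (M + 3) * (M + 4) * (M + 5)) := by ring
  rw [e1, e2, ← h4] at a5
  omega

theorem sparse_num (K0 : ℕ) : ∃ K : ℝ, 0 < K ∧ ∀ n c d x : ℕ, 2 ≤ c → c ≤ K0 → 1 ≤ d → x < n →
    2 * c ≤ x → (x - 1).choose (c - 1) ≤ d → K ≤ lg n c d → K0 * x ≤ n := by
  have hP : (1 : ℝ) < (((2 * K0) ^ K0 + 2 : ℕ) : ℝ) := by
    exact_mod_cast (by omega : 1 < (2 * K0) ^ K0 + 2)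
  refine ⟨log (((2 * K0) ^ K0 + 2 : ℕ) : ℝ), log_pos hP, ?_⟩
  intro n c d x hc hcK hd hx h2 hlo hK
  by_contra hh
  have hh : n < K0 * x := not_le.1 hh
  obtain ⟨q, rfl⟩ : ∃ q, c = q + 1 := ⟨c - 1, by omega⟩
  unfold lg at hK
  simp only [Nat.add_sub_cancel] at hlo hK
  have hd' : (0 : ℝ) < d := by exact_mod_cast hd
  have hC : 0 < (n - 1).choose q := Nat.choose_pos (by omega)
  have hC' : (0 : ℝ) < ((n - 1).choose q : ℝ) := by exact_mod_cast hC
  have h3 := (log_le_log_iff (by linarith) (div_pos hC' hd')).1 hK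
  rw [le_div_iff₀ hd'] at h3
  have h4 : ((2 * K0) ^ K0 + 2) * d ≤ (n - 1).choose q := by exact_mod_cast h3
  have h5 : (x - 1 + 1 - q) ^ q ≤ (x - 1).descFactorial q := Nat.pow_sub_le_descFactorial _ _
  have h6 : (n - 1).descFactorial q ≤ (n - 1) ^ q := Nat.descFactorial_le_pow _ _
  rw [Nat.descFactorial_eq_factorial_mul_choose] at h5 h6
  obtain ⟨y, hy⟩ : ∃ y, x - 1 + 1 - q = y := ⟨_, rfl⟩
  rw [hy] at h5
  have hy0 : 0 < y := by omega
  have hy2 : x ≤ 2 * y := by omega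
  have h7 : n - 1 ≤ 2 * K0 * y := by
    have := Nat.mul_le_mul_left K0 hy2
    have e : K0 * (2 * y) = 2 * K0 * y := by ring
    omega
  have h8 : (n - 1) ^ q ≤ (2 * K0) ^ K0 * y ^ q := by
    refine (Nat.pow_le_pow_left h7 q).trans ?_
    rw [mul_pow]
    exact Nat.mul_le_mul_right _ (Nat.pow_le_pow_right (by omega) (by omega))
  have h9 : ((2 * K0) ^ K0 + 2) * y ^ q ≤ (2 * K0) ^ K0 * y ^ q := by
    calc ((2 * K0) ^ K0 + 2) * y ^ q ≤ ((2 * K0) ^ K0 + 2) * (q.factorial * d) :=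
          Nat.mul_le_mul_left _ (h5.trans (Nat.mul_le_mul_left _ hlo))
      _ = q.factorial * (((2 * K0) ^ K0 + 2) * d) := by ring
      _ ≤ q.factorial * (n - 1).choose q := Nat.mul_le_mul_left _ h4
      _ ≤ _ := h6.trans h8
  have h10 := Nat.le_of_mul_le_mul_right h9 (pow_pos hy0 q)
  omega

end Pool.Agent.P.MP_4f3dfd_co.Ex
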