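import Mathlib
import Pool.Agent.P.MP_4f3dfd_co.FDefs
import Pool.Agent.P.MP_4f3dfd_co.ENum
import Pool.Agent.P.MP_4f3dfd_co.FN1
import Pool.Agent.P.MP_4f3dfd_co.FN2

set_option autoImplicit false
set_option linter.unusedSectionVars false
set_option linter.unusedVariables false

namespace Pool.Agent.P.MP_4f3dfd_co.Ex

open Finset Real

variable {V : Type*} [DecidableEq V]

theorem fn3_real {n c d x : ℕ} (h : Par n c d x) :
    (2 : ℝ) ≤ c ∧ (c : ℝ) + 2 ≤ n ∧ (1 : ℝ) ≤ d ∧ (d : ℝ) < (n - 1).choose (c - 1) ∧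
      (x : ℝ) + 1 ≤ n :=
  ⟨by exact_mod_cast h.hc, by exact_mod_cast h.hcn, by exact_mod_cast h.hd,
    by exact_mod_cast h.hdC, by exact_mod_cast h.hx⟩

theorem fn3_log {n c d x : ℕ} (h : Par n c d x) : 0 < log ((n : ℝ) / c) := by
  obtain ⟨h1, h2, -⟩ := fn3_real h
  exact log_pos (by rw [one_lt_div (by linarith)]; linarith)

theorem Par.c_le {n c d x : ℕ} (h : Par n c d x) : c ≤ x + 1 := by
  by_contra hc
  have h1 := h.hi
  have h2 : (0 : ℝ) ≤ d := Nat.cast_nonneg _
  rw [Nat.choose_eq_zero_of_lt (by omega), Nat.cast_zero, mul_zero] at h1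
  linarith

theorem Par.lg_pos {n c d x : ℕ} (h : Par n c d x) : 0 < lg n c d := by
  obtain ⟨-, -, h3, h4, -⟩ := fn3_real h
  exact log_pos (by rw [one_lt_div (by linarith)]; exact h4)

theorem Par.one_le_Lam {n c d x : ℕ} (h : Par n c d x) : 1 ≤ Lam n c d := by
  obtain ⟨h1, -⟩ := fn3_real h
  exact one_le_exp (div_nonneg (mul_nonneg h.lg_pos.le (log_nonneg (by linarith))) (fn3_log h).le)

theorem Par.one_le_lam {n c d x : ℕ} (h : Par n c d x) {w : ℝ} (h0 : 0 < w) (hw : w ≤ n) :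
    1 ≤ lam n c d w := by
  exact le_min ((one_le_div h0).2 hw) h.one_le_Lam

theorem Par.lo' {n c d x : ℕ} (h : Par n c d x) : (x - 1).choose (c - 1) ≤ d := by
  obtain ⟨h1, h2, h3, h4, h5⟩ := fn3_real h
  have h6 : (c : ℝ) ≤ x + 1 := by exact_mod_cast h.c_le
  have h7 := h.one_le_lam (w := (n : ℝ) - x + 1) (by linarith) (by linarith)
  have h8 : (0 : ℝ) ≤ (x - 1).choose (c - 1) := Nat.cast_nonneg _
  have h9 := h.lo
  have h10 : ((x - 1).choose (c - 1) : ℝ) ≤ d := by nlinarith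
  exact_mod_cast h10

theorem Par.d_eq {n c d x : ℕ} (h : Par n c d x) :
    (d : ℝ) = exp (-lg n c d) * (n - 1).choose (c - 1) := by
  obtain ⟨-, -, h3, h4, -⟩ := fn3_real h
  have h5 : (0 : ℝ) < d := by linarith
  have h6 : (0 : ℝ) < (n - 1).choose (c - 1) := by linarith
  rw [exp_neg, lg, exp_log (div_pos h6 h5)]
  field_simp

theorem Par.log_two_le {n c d x : ℕ} (h : Par n c d x) (h2 : 2 * d ≤ (n - 1).choose (c - 1)) :
    log 2 ≤ lg n c d := by
  obtain ⟨-, -, h3, h4, -⟩ := fn3_real h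
  have h5 : (2 : ℝ) * d ≤ (n - 1).choose (c - 1) := by exact_mod_cast h2
  exact log_le_log two_pos (by rw [le_div_iff₀ (by linarith)]; exact h5)

theorem Par.lg_add_log_Lam {n c d x : ℕ} (h : Par n c d x) :
    lg n c d + log (Lam n c d) = lg n c d * log n / log (n / c) := by
  obtain ⟨h1, h2, -⟩ := fn3_real h
  have h3 := fn3_log h
  have h4 : log (n : ℝ) = log ((n : ℝ) / c) + log c := by
    rw [log_div (by linarith) (by linarith)]; ring
  rw [Lam, log_exp, h4]
  field_simp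

theorem Par.log_two_le_bb {n c d x : ℕ} (h : Par n c d x) : 2 * log 2 ≤ bb n c := by
  obtain ⟨h1, h2, -⟩ := fn3_real h
  have h3 : 2 * log 2 = log 4 := by
    rw [show (4 : ℝ) = 2 ^ 2 by norm_num, log_pow]; norm_num
  rw [h3]
  refine log_le_log (by norm_num) ?_
  rw [le_div_iff₀ (mul_pos (by linarith) (by linarith))]
  nlinarith [sq_nonneg ((n : ℝ) - 2 * c)]

theorem Par.link {n c d x : ℕ} (h : Par n c d x) :
    ∃ z : ℕ, x ≤ z ∧ z < n ∧ (z - 1).choose (c - 1) ≤ d ∧ d < z.choose (c - 1) := by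
  have hex : ∃ z : ℕ, d < z.choose (c - 1) := ⟨n - 1, h.hdC⟩
  have h1 := Nat.find_spec hex
  have h2 : Nat.find hex ≤ n - 1 := Nat.find_min' hex h.hdC
  have h3 := h.hc
  have h4 := h.hcn
  refine ⟨Nat.find hex, ?_, by omega, ?_, h1⟩
  · by_contra hc
    have h5 : (Nat.find hex).choose (c - 1) ≤ (x - 1).choose (c - 1) :=
      Nat.choose_le_choose _ (by omega)
    have h6 := h.lo'
    omega
  · have h5 : Nat.find hex ≠ 0 := by
      intro h0
      rw [h0, Nat.choose_eq_zero_of_lt (by omega)] at h1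
      omega
    exact not_lt.1 (Nat.find_min hex (by omega))

theorem Par.size {n c d x : ℕ} (h : Par n c d x) {m : ℕ} (hm : c * m = d * n) :
    1 ≤ m ∧ m < n.choose c ∧ d ≤ m ∧ lg n c d = log ((n.choose c : ℝ) / m) ∧
      (2 * m ≤ n.choose c ↔ 2 * d ≤ (n - 1).choose (c - 1)) := by
  obtain ⟨h1, h2, h3, h4, h5⟩ := fn3_real h
  have h6 := h.hc
  have h7 := h.hcn
  have hp := choose_pred_pred (n := n) (c := c) (by omega) (by omega)
  have hm' : (c : ℝ) * m = d * n := by exact_mod_cast hm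
  have hc0 : (0 : ℝ) < c := by linarith
  have hn0 : (0 : ℝ) < n := by linarith
  have hd0 : (0 : ℝ) < d := by linarith
  have hdm : (d : ℝ) ≤ m := le_of_mul_le_mul_left (by nlinarith) hc0
  have hmC : (m : ℝ) < n.choose c := lt_of_mul_lt_mul_left (by nlinarith) hc0.le
  have hm0 : (0 : ℝ) < m := by linarith
  refine ⟨by exact_mod_cast h3.trans hdm, by exact_mod_cast hmC, by exact_mod_cast hdm, ?_, ?_⟩
  · rw [lg]
    congr 1
    rw [div_eq_div_iff hd0.ne' hm0.ne']
    refine mul_left_cancel₀ hc0.ne' ?_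
    calc (c : ℝ) * ((n - 1).choose (c - 1) * m) = (n - 1).choose (c - 1) * (c * m) := by ring
      _ = (n * (n - 1).choose (c - 1)) * d := by rw [hm']; ring
      _ = c * (n.choose c * d) := by rw [hp]; ring
  · constructor
    · intro h8
      have h9 : (2 : ℝ) * m ≤ n.choose c := by exact_mod_cast h8
      have h10 : (2 : ℝ) * d ≤ (n - 1).choose (c - 1) :=
        le_of_mul_le_mul_left (by nlinarith) hn0
      exact_mod_cast h10
    · intro h8
      have h9 : (2 : ℝ) * d ≤ (n - 1).choose (c - 1) := by exact_mod_cast h8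
      have h10 : (2 : ℝ) * m ≤ n.choose c := le_of_mul_le_mul_left (by nlinarith) hc0
      exact_mod_cast h10

end Pool.Agent.P.MP_4f3dfd_co.Ex
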