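import Mathlib
import Pool.Agent.P.MP_4f3dfd_co.FDefs
import Pool.Agent.P.MP_4f3dfd_co.ENum
import Pool.Agent.P.MP_4f3dfd_co.FN1
import Pool.Agent.P.MP_4f3dfd_co.FN2
import Pool.Agent.P.MP_4f3dfd_co.FN3

set_option autoImplicit false
set_option linter.unusedSectionVars false
set_option linter.unusedVariables false

namespace Pool.Agent.P.MP_4f3dfd_co.Ex

open Finset Real

variable {V : Type*} [DecidableEq V]

theorem fn4_x1 {n c d x : ℕ} (h : Par n c d x) : 1 ≤ x := by
  have := h.c_le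
  have := h.hc
  omega

theorem fn4_lamp {n c d x : ℕ} (h : Par n c d x) : 1 ≤ lam n c d ((n : ℝ) - x + 1) := by
  have h1 : (1 : ℝ) ≤ x := by exact_mod_cast fn4_x1 h
  have h2 : (x : ℝ) < n := by exact_mod_cast h.hx
  exact h.one_le_lam (by linarith) (by linarith)

theorem fn4_lam {n c d x : ℕ} (h : Par n c d x) : 1 ≤ lam n c d ((n : ℝ) - x) := by
  have h1 : (1 : ℝ) ≤ x := by exact_mod_cast fn4_x1 h
  have h2 : (x : ℝ) < n := by exact_mod_cast h.hx
  exact h.one_le_lam (by linarith) (by linarith)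

theorem fn4_exp (L l : ℝ) (hl : 0 < l) : exp (-(L + log l)) = exp (-L) / l := by
  rw [neg_add, exp_add, exp_neg (log l), exp_log hl, div_eq_mul_inv]

theorem fn4_key {n c d x : ℕ} (h : Par n c d x) :
    ((x - 1).choose (c - 1) : ℝ) ≤
      exp (-(lg n c d + log (lam n c d ((n : ℝ) - x + 1)))) * (n - 1).choose (c - 1) := by
  have hl := fn4_lamp h
  have hl0 : 0 < lam n c d ((n : ℝ) - x + 1) := by linarith
  rw [fn4_exp _ _ hl0, div_mul_eq_mul_div, ← h.d_eq, le_div_iff₀ hl0, mul_comm]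
  exact h.lo

theorem Par.wlog {n c d x : ℕ} (h : Par n c d x) (hx : c ≤ x) :
    lg n c d + log (lam n c d ((n : ℝ) - x + 1)) ≤ ((n : ℝ) - x) * log (x / ((x : ℝ) - c + 1)) := by
  have h1 := fn4_x1 h
  have h2 := h.hx
  have h3 := h.hc
  have key := width_ge (q := c - 1) (z := x - 1) (N := n - 1) (by omega) (by omega) (fn4_key h)
  have e1 : ((x - 1 : ℕ) : ℝ) = x - 1 := by rw [Nat.cast_sub h1]; simp
  have e2 : ((n - 1 : ℕ) : ℝ) = n - 1 := by rw [Nat.cast_sub (by omega)]; simp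
  have e3 : ((c - 1 : ℕ) : ℝ) = c - 1 := by rw [Nat.cast_sub (by omega)]; simp
  rw [e1, e2, e3] at key
  have e4 : (n : ℝ) - 1 - (x - 1) = n - x := by ring
  have e5 : (x : ℝ) - 1 + 1 = x := by ring
  have e6 : (x : ℝ) - (c - 1) = x - c + 1 := by ring
  rw [e4, e5, e6] at key
  exact key

theorem Par.tL {n c d x : ℕ} (h : Par n c d x) :
    ((x : ℝ) - c + 1) * (lg n c d + log (lam n c d ((n : ℝ) - x + 1))) ≤
      ((n : ℝ) - x) * ((c : ℝ) - 1) := by
  have h2 : (x : ℝ) < n := by exact_mod_cast h.hx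
  have h3 : (2 : ℝ) ≤ c := by exact_mod_cast h.hc
  rcases Nat.lt_or_ge x c with hlt | hge
  · have e : c = x + 1 := by have := h.c_le; omega
    have e' : (x : ℝ) - c + 1 = 0 := by rw [e]; push_cast; ring
    rw [e', zero_mul]
    exact mul_nonneg (by linarith) (by linarith)
  · have hw := h.wlog hge
    have h4 : (c : ℝ) ≤ x := by exact_mod_cast hge
    have hu : (0 : ℝ) < (x : ℝ) - c + 1 := by linarith
    have hl : log (x / ((x : ℝ) - c + 1)) ≤ x / ((x : ℝ) - c + 1) - 1 :=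
      log_le_sub_one_of_pos (div_pos (by linarith) hu)
    have e : (x : ℝ) / ((x : ℝ) - c + 1) - 1 = ((c : ℝ) - 1) / ((x : ℝ) - c + 1) := by
      field_simp
      ring
    rw [e] at hl
    have h5 : lg n c d + log (lam n c d ((n : ℝ) - x + 1)) ≤
        ((n : ℝ) - x) * (((c : ℝ) - 1) / ((x : ℝ) - c + 1)) :=
      hw.trans (mul_le_mul_of_nonneg_left hl (by linarith))
    calc ((x : ℝ) - c + 1) * (lg n c d + log (lam n c d ((n : ℝ) - x + 1)))
        ≤ ((x : ℝ) - c + 1) * (((n : ℝ) - x) * (((c : ℝ) - 1) / ((x : ℝ) - c + 1))) :=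
          mul_le_mul_of_nonneg_left h5 hu.le
      _ = ((n : ℝ) - x) * ((c : ℝ) - 1) := by field_simp

theorem Par.wL {n c d x : ℕ} (h : Par n c d x) : lg n c d ≤ ((n : ℝ) - x) * log c := by
  have h2 : (x : ℝ) < n := by exact_mod_cast h.hx
  have h3 : (2 : ℝ) ≤ c := by exact_mod_cast h.hc
  have hlc : 0 ≤ log (c : ℝ) := log_nonneg (by linarith)
  rcases Nat.lt_or_ge x c with hlt | hge
  · have e : c = x + 1 := by have := h.c_le; omega
    have hx := h.hx
    have hd : (1 : ℝ) ≤ d := by exact_mod_cast h.hd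
    have hb := choose_le_succ_pow x (n - 1 - x)
    have e1 : x + (n - 1 - x) = n - 1 := by omega
    have e2 : c - 1 = x := by omega
    rw [e1, ← e] at hb
    have hb' : (((n - 1).choose (c - 1) : ℕ) : ℝ) ≤ (c : ℝ) ^ (n - 1 - x) := by
      rw [e2]; exact_mod_cast hb
    have hpos : (0 : ℝ) < (((n - 1).choose (c - 1) : ℕ) : ℝ) := by
      have := h.hdC
      have : 0 < (n - 1).choose (c - 1) := by omega
      exact_mod_cast this
    have h5 : lg n c d ≤ log ((c : ℝ) ^ (n - 1 - x)) := by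
      unfold lg
      refine log_le_log (div_pos hpos (by linarith)) ?_
      exact (div_le_self hpos.le hd).trans hb'
    rw [log_pow] at h5
    have h6 : ((n - 1 - x : ℕ) : ℝ) ≤ (n : ℝ) - x := by
      have : n - 1 - x + x ≤ n := by omega
      have : ((n - 1 - x : ℕ) : ℝ) + x ≤ n := by exact_mod_cast this
      linarith
    exact h5.trans (mul_le_mul_of_nonneg_right h6 hlc)
  · have hw := h.wlog hge
    have h4 : (c : ℝ) ≤ x := by exact_mod_cast hge
    have hu : (0 : ℝ) < (x : ℝ) - c + 1 := by linarith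
    have hl0 : 0 ≤ log (lam n c d ((n : ℝ) - x + 1)) := log_nonneg (fn4_lamp h)
    have hl : log (x / ((x : ℝ) - c + 1)) ≤ log c := by
      refine log_le_log (div_pos (by linarith) hu) ?_
      rw [div_le_iff₀ hu]
      nlinarith [mul_nonneg (show (0 : ℝ) ≤ (c : ℝ) - 1 by linarith)
        (show (0 : ℝ) ≤ (x : ℝ) - c by linarith)]
    have := mul_le_mul_of_nonneg_left hl (show (0 : ℝ) ≤ (n : ℝ) - x by linarith)
    linarith

theorem Par.dec {n c d x : ℕ} (h : Par n c d x) (s : ℕ) :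
    ((x - 1 - s).choose (c - 1) : ℝ) * lam n c d ((n : ℝ) - x + 1) ≤
      exp (-((lg n c d + log (lam n c d ((n : ℝ) - x + 1))) * s / ((n : ℝ) - x))) * d := by
  have h1 := fn4_x1 h
  have h2 := h.hx
  have h3 := h.hc
  have hl := fn4_lamp h
  rcases Nat.lt_or_ge (x - 1) s with hlt | hge
  · have e : x - 1 - s = 0 := by omega
    have e' : Nat.choose 0 (c - 1) = 0 := Nat.choose_eq_zero_of_lt (by omega)
    rw [e, e']
    simp only [Nat.cast_zero, zero_mul]
    positivity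
  · have key := decay (q := c - 1) (z := x - 1) (N := n - 1) (s := s) (by omega) hge (fn4_key h)
    have e1 : ((x - 1 : ℕ) : ℝ) = x - 1 := by rw [Nat.cast_sub h1]; simp
    have e2 : ((n - 1 : ℕ) : ℝ) = n - 1 := by rw [Nat.cast_sub (by omega)]; simp
    rw [e1, e2] at key
    have e4 : (n : ℝ) - 1 - (x - 1) = n - x := by ring
    rw [e4] at key
    have hlo := h.lo
    calc ((x - 1 - s).choose (c - 1) : ℝ) * lam n c d ((n : ℝ) - x + 1)
        ≤ (exp (-((lg n c d + log (lam n c d ((n : ℝ) - x + 1))) * s / ((n : ℝ) - x))) *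
            ((x - 1).choose (c - 1) : ℝ)) * lam n c d ((n : ℝ) - x + 1) :=
          mul_le_mul_of_nonneg_right key (by linarith)
      _ = exp (-((lg n c d + log (lam n c d ((n : ℝ) - x + 1))) * s / ((n : ℝ) - x))) *
            (lam n c d ((n : ℝ) - x + 1) * ((x - 1).choose (c - 1) : ℝ)) := by ring
      _ ≤ _ := mul_le_mul_of_nonneg_left hlo (exp_pos _).le

theorem Par.wid {n c d x : ℕ} (h : Par n c d x) :
    ((n : ℝ) - x - 1) * log (((n : ℝ) - 1) / ((n : ℝ) - c)) ≤
      lg n c d + log (lam n c d ((n : ℝ) - x)) := by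
  have h1 := fn4_x1 h
  have h2 := h.hx
  have h3 := h.hc
  have h4 := h.hcn
  have hl := fn4_lam h
  have hl0 : 0 < lam n c d ((n : ℝ) - x) := by linarith
  have hk : exp (-(lg n c d + log (lam n c d ((n : ℝ) - x)))) * ((n - 1).choose (c - 1) : ℕ) ≤
      (x.choose (c - 1) : ℝ) := by
    rw [fn4_exp _ _ hl0, div_mul_eq_mul_div, ← h.d_eq, div_le_iff₀ hl0, mul_comm]
    exact h.hi.le
  have key := width_leU (q := c - 1) (z := x) (N := n - 1) (by omega) (by omega) hk
  have e2 : ((n - 1 : ℕ) : ℝ) = n - 1 := by rw [Nat.cast_sub (by omega)]; simp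
  have e3 : ((c - 1 : ℕ) : ℝ) = c - 1 := by rw [Nat.cast_sub (by omega)]; simp
  rw [e2, e3] at key
  have e4 : (n : ℝ) - 1 - x = n - x - 1 := by ring
  have e5 : (n : ℝ) - 1 - (c - 1) = n - c := by ring
  rw [e4, e5] at key
  exact key

theorem Par.wid' {n c d x : ℕ} (h : Par n c d x) :
    ((n : ℝ) - x - 1) * (((c : ℝ) - 1) / n) ≤ lg n c d + log (lam n c d ((n : ℝ) - x)) := by
  have h2 : (x : ℝ) + 1 ≤ n := by exact_mod_cast h.hx
  have h3 : (2 : ℝ) ≤ c := by exact_mod_cast h.hc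
  have h4 : (c : ℝ) + 2 ≤ n := by exact_mod_cast h.hcn
  refine le_trans (mul_le_mul_of_nonneg_left ?_ (by linarith)) h.wid
  have hp : (0 : ℝ) < ((n : ℝ) - 1) / ((n : ℝ) - c) := div_pos (by linarith) (by linarith)
  have h5 := one_sub_inv_le_log_of_pos hp
  rw [inv_div] at h5
  refine le_trans ?_ h5
  have e : 1 - ((n : ℝ) - c) / ((n : ℝ) - 1) = ((c : ℝ) - 1) / ((n : ℝ) - 1) := by
    have : (n : ℝ) - 1 ≠ 0 := by linarith
    field_simp
    ring
  rw [e]
  exact div_le_div_of_nonneg_left (by linarith) (by linarith) (by linarith)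

theorem Par.cw {n c d x : ℕ} (h : Par n c d x) (h2 : log 2 ≤ lg n c d) :
    c * ((n : ℝ) - x + 1) ≤ 10 * n * (lg n c d + log (n / ((n : ℝ) - x + 1))) := by
  have h0 : (1 : ℝ) ≤ x := by exact_mod_cast fn4_x1 h
  have h1 : (x : ℝ) + 1 ≤ n := by exact_mod_cast h.hx
  have h3 : (2 : ℝ) ≤ c := by exact_mod_cast h.hc
  have h4 : (c : ℝ) + 2 ≤ n := by exact_mod_cast h.hcn
  have hn : (0 : ℝ) < n := by linarith
  have hw := h.wid'
  have hl := fn4_lam h
  have hA : 0 ≤ log (n / ((n : ℝ) - x + 1)) :=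
    log_nonneg (by rw [le_div_iff₀ (by linarith)]; linarith)
  have hB : log (lam n c d ((n : ℝ) - x)) ≤ log 2 + log (n / ((n : ℝ) - x + 1)) := by
    rw [← log_mul (by norm_num) (div_pos hn (by linarith)).ne']
    refine log_le_log (by linarith) ((min_le_left _ _).trans ?_)
    rw [← mul_div_assoc, div_le_div_iff₀ (by linarith) (by linarith)]
    nlinarith
  have hlog : (2 : ℝ) / 3 ≤ log 2 := by linarith [log_two_gt_d9]
  set L' := lg n c d + log (n / ((n : ℝ) - x + 1)) with hL'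
  have hC : ((n : ℝ) - x - 1) * (((c : ℝ) - 1) / n) ≤ 2 * L' := by linarith
  have hD : ((n : ℝ) - x - 1) * ((c : ℝ) - 1) ≤ 2 * L' * n := by
    rw [← mul_div_assoc, div_le_iff₀ hn] at hC
    exact hC
  have hE : 2 / 3 ≤ L' := by linarith
  have hF : 4 * (n : ℝ) ≤ 6 * n * L' := by nlinarith
  have hG : c * ((n : ℝ) - x + 1) ≤ 2 * ((c : ℝ) - 1) * ((n : ℝ) - x + 1) :=
    mul_le_mul_of_nonneg_right (by linarith) (by linarith)
  nlinarith

end Pool.Agent.P.MP_4f3dfd_co.Ex
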