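import Mathlib
import Pool.Agent.P.MP_4f3dfd_co.FDefs
import Pool.Agent.P.MP_4f3dfd_co.ENum
import Pool.Agent.P.MP_4f3dfd_co.FN1
import Pool.Agent.P.MP_4f3dfd_co.FN2
import Pool.Agent.P.MP_4f3dfd_co.FN3
import Pool.Agent.P.MP_4f3dfd_co.FN4

set_option autoImplicit false
set_option linter.unusedSectionVars false
set_option linter.unusedVariables false

namespace Pool.Agent.P.MP_4f3dfd_co.Ex

open Finset Real

variable {V : Type*} [DecidableEq V]

theorem fn5_le {n c d x z y : ℕ} (h : Par n c d x) (hd : (z - 1).choose (c - 1) ≤ d)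
    (hy : lam n c d ((n : ℝ) - x) * x.choose (c - 1) ≤ y.choose (c - 1)) : z ≤ y := by
  by_contra hh
  have h1 : y.choose (c - 1) ≤ d := (Nat.choose_le_choose _ (by omega)).trans hd
  have h2 : (y.choose (c - 1) : ℝ) ≤ d := by exact_mod_cast h1
  linarith [h.hi]

theorem fn5_grow (q : ℕ) {t : ℕ} (ht : 1 ≤ t) :
    (1 + (q : ℝ) / 2) * (q + t - 1).choose q ≤ (q + 2 * t - 1).choose q := by
  have h := grow (q := q) t ht
  have htR : (0 : ℝ) < t := by exact_mod_cast ht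
  have e : (q : ℝ) * t / (t + t) = q / 2 := by
    field_simp
    ring
  rwa [e, show q + t - 1 + t = q + 2 * t - 1 by omega] at h

theorem fn5_lam {n c d x : ℕ} (h : Par n c d x) : 1 ≤ lam n c d ((n : ℝ) - x) := by
  have : (x : ℝ) < n := by exact_mod_cast h.hx
  exact h.one_le_lam (by linarith) (by linarith [Nat.cast_nonneg (α := ℝ) x])

theorem link_t8 {n c d x : ℕ} (h : Par n c d x) {z : ℕ} (hxz : x ≤ z) (hz : z < n) (hd : (z - 1).choose (c - 1) ≤ d) :
    (z : ℝ) - c + 2 ≤ 8 * ((x : ℝ) - c + 2) := by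
  have hc := h.hc
  have hx := h.hx
  have hcx := h.c_le
  obtain ⟨q, rfl⟩ : ∃ q, c = q + 1 := ⟨c - 1, by omega⟩
  obtain ⟨t, ht, rfl⟩ : ∃ t, 1 ≤ t ∧ x = q + t - 1 := ⟨x + 1 - q, by omega, by omega⟩
  have hxR : ((q + t - 1 : ℕ) : ℝ) = q + t - 1 := by
    rw [Nat.cast_sub (by omega)]
    push_cast
    ring
  suffices hh : z + 1 ≤ q + 8 * t by
    have : (z : ℝ) + 1 ≤ q + 8 * t := by exact_mod_cast hh
    rw [hxR]
    push_cast
    linarith
  rcases le_or_gt n (q + 2 * t) with h1 | h1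
  · omega
  have hq : (1 : ℝ) ≤ q := by exact_mod_cast (by omega : 1 ≤ q)
  have htR : (1 : ℝ) ≤ t := by exact_mod_cast ht
  have h1R : (q : ℝ) + 2 * t < n := by exact_mod_cast h1
  have g1 := fn5_grow q ht
  have g2 := fn5_grow q (t := 2 * t) (by omega)
  have g3 := fn5_grow q (t := 2 * (2 * t)) (by omega)
  have hl : lam n (q + 1) d ((n : ℝ) - (q + t - 1 : ℕ)) ≤ (1 + (q : ℝ) / 2) ^ 3 := by
    refine (min_le_left _ _).trans ?_
    rw [hxR, div_le_iff₀ (by linarith)]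
    have a1 : 2 + (q : ℝ) ≤ (1 + (q : ℝ) / 2) ^ 3 := by nlinarith [mul_nonneg (sq_nonneg (q : ℝ)) (show (0 : ℝ) ≤ q by linarith)]
    have a2 := mul_le_mul_of_nonneg_right a1 (show (0 : ℝ) ≤ n - (q + t - 1) by linarith)
    nlinarith
  have p0 : (0 : ℝ) ≤ 1 + (q : ℝ) / 2 := by positivity
  have := fn5_le h hd (y := q + 2 * (2 * (2 * t)) - 1) (by
    rw [Nat.add_sub_cancel]
    calc _ ≤ (1 + (q : ℝ) / 2) ^ 3 * (q + t - 1).choose q :=
          mul_le_mul_of_nonneg_right hl (by positivity)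
      _ = (1 + (q : ℝ) / 2) * ((1 + (q : ℝ) / 2) * ((1 + (q : ℝ) / 2) * (q + t - 1).choose q)) := by
          ring
      _ ≤ _ := (mul_le_mul_of_nonneg_left
          ((mul_le_mul_of_nonneg_left g1 p0).trans g2) p0).trans g3)
  omega

theorem link_R1 {n c d x : ℕ} (h : Par n c d x) {z : ℕ} (hxz : x ≤ z) (hz : z < n) (hd : (z - 1).choose (c - 1) ≤ d) :
    ((z : ℝ) - x - 1) * lg n c d ≤ ((n : ℝ) - z) * log (lam n c d ((n : ℝ) - x)) := by
  have hl := fn5_lam h
  have hL := h.lg_pos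
  have hzR : (z : ℝ) < n := by exact_mod_cast hz
  rcases hxz.eq_or_lt with rfl | hlt
  · have := mul_nonneg (sub_pos.2 hzR).le (log_nonneg hl)
    linarith
  have hdR : ((z - 1).choose (c - 1) : ℝ) ≤ d := by exact_mod_cast hd
  have h1 := decay (q := c - 1) (z := z - 1) (N := n - 1) (s := z - 1 - x) (Y := lg n c d)
    (by omega) (by omega) (by rw [← h.d_eq]; exact hdR)
  have e1 : ((z - 1 - x : ℕ) : ℝ) = z - x - 1 := by
    rw [Nat.cast_sub (by omega), Nat.cast_sub (by omega)]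
    push_cast
    ring
  have e2 : ((n - 1 : ℕ) : ℝ) - (z - 1 : ℕ) = n - z := by
    rw [Nat.cast_sub (by omega), Nat.cast_sub (by omega)]
    ring
  rw [e1, e2, show z - 1 - (z - 1 - x) = x by omega] at h1
  have hd0 : (0 : ℝ) < d := by exact_mod_cast h.hd
  have h2 := h.hi.trans_le (mul_le_mul_of_nonneg_left
    (h1.trans (mul_le_mul_of_nonneg_left hdR (exp_pos _).le)) (by linarith))
  rw [← mul_assoc, lt_mul_iff_one_lt_left hd0, exp_neg, ← div_eq_mul_inv,
    one_lt_div (exp_pos _), ← lt_log_iff_exp_lt (by linarith), div_lt_iff₀ (by linarith)] at h2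
  linarith

theorem link_far {n c d x : ℕ} (h : Par n c d x) {z : ℕ} (hxz : x ≤ z) (hz : z < n) (hd : (z - 1).choose (c - 1) ≤ d)
    (hw : 100 < (n : ℝ) - x) (hf : 10 * ((n : ℝ) - z - 1) < (n : ℝ) - x) :
    8 * lg n c d ≤ log (lam n c d ((n : ℝ) - x)) := by
  have h1 := link_R1 h hxz hz hd
  have h2 := log_nonneg (fn5_lam h)
  have hL := h.lg_pos
  have h3 := mul_le_mul_of_nonneg_right
    (show (n : ℝ) - z ≤ 11 / 100 * ((n : ℝ) - x) by linarith) h2
  have h4 := mul_le_mul_of_nonneg_right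
    (show 88 / 100 * ((n : ℝ) - x) ≤ (z : ℝ) - x - 1 by linarith) hL.le
  refine le_of_mul_le_mul_left ?_ (show 0 < 11 / 100 * ((n : ℝ) - x) by linarith)
  linarith

theorem link_sharp (ε : ℝ) (hε : 0 < ε) : ∃ K1 : ℝ, 0 < K1 ∧ ∀ n c d x z : ℕ, Par n c d x →
    x ≤ z → z < n → (z - 1).choose (c - 1) ≤ d → K1 * log c ≤ lg n c d →
    (z : ℝ) - x + 1 ≤ ε * ((n : ℝ) - x) ∧
      (K1 ≤ (x : ℝ) - c + 2 → (z : ℝ) - x ≤ ε * ((x : ℝ) - c + 2)) := by
  obtain ⟨e, he0, he1, he2⟩ : ∃ e : ℝ, 0 < e ∧ e ≤ 1 / 2 ∧ 2 * e ≤ ε :=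
    ⟨min ε 1 / 2, by positivity, by linarith [min_le_right ε 1], by linarith [min_le_left ε 1]⟩
  refine ⟨6 / e, by positivity, fun n c d x z h hxz hz hd hK => ?_⟩
  have hc := h.hc
  have hx := h.hx
  have hcx := h.c_le
  have hcR : (2 : ℝ) ≤ c := by exact_mod_cast hc
  have hcxR : (c : ℝ) ≤ x + 1 := by exact_mod_cast hcx
  have hxR : (x : ℝ) < n := by exact_mod_cast hx
  have hxzR : (x : ℝ) ≤ z := by exact_mod_cast hxz
  have hL := h.lg_pos
  have hlc : 1 / 2 ≤ log (c : ℝ) := by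
    have := log_le_log two_pos hcR
    linarith [log_two_gt_d9]
  rw [div_mul_eq_mul_div, div_le_iff₀ he0] at hK
  have hw : 6 ≤ ((n : ℝ) - x) * e := by
    have h1 := mul_le_mul_of_nonneg_right h.wL he0.le
    refine le_of_mul_le_mul_right ?_ (show 0 < log (c : ℝ) by linarith)
    linarith
  have hn : (n : ℝ) ≤ (1 + ((c : ℝ) - 1) * e / 2) * ((n : ℝ) - x) := by
    have h1 := h.tL
    have h2 : 0 ≤ log (lam n c d ((n : ℝ) - x + 1)) :=
      log_nonneg (h.one_le_lam (by linarith) (by linarith))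
    have h3 : 0 ≤ (x : ℝ) - c + 1 := by linarith
    have h4 : ((x : ℝ) - c + 1) * 3 ≤ ((x : ℝ) - c + 1) * (lg n c d * e) :=
      mul_le_mul_of_nonneg_left (by linarith) h3
    have h5 : ((x : ℝ) - c + 1) * lg n c d ≤ ((n : ℝ) - x) * ((c : ℝ) - 1) := by
      have := mul_nonneg h3 h2
      linarith
    have h6 := mul_le_mul_of_nonneg_right h5 he0.le
    have h7 := mul_le_mul_of_nonneg_left hw (show (0 : ℝ) ≤ c - 1 by linarith)
    linarith
  have hl : lam n c d ((n : ℝ) - x) ≤ 1 + ((c : ℝ) - 1) * e / 2 :=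
    (min_le_left _ _).trans ((div_le_iff₀ (by linarith)).2 hn)
  have hl1 := fn5_lam h
  constructor
  · have h1 := link_R1 h hxz hz hd
    have h2 : log (lam n c d ((n : ℝ) - x)) ≤ log c :=
      log_le_log (by linarith) (hl.trans (by nlinarith))
    have h3 : ((n : ℝ) - z) * log (lam n c d ((n : ℝ) - x)) ≤ ((n : ℝ) - x) * log c :=
      mul_le_mul (by linarith) h2 (log_nonneg hl1) (by linarith)
    have h4 := mul_le_mul_of_nonneg_left hK (show (0 : ℝ) ≤ n - x by linarith)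
    have h5 : ((z : ℝ) - x - 1) * 6 ≤ ((n : ℝ) - x) * e := by
      refine le_of_mul_le_mul_right ?_ hL
      linarith
    have h6 := mul_le_mul_of_nonneg_right he2 (show (0 : ℝ) ≤ n - x by linarith)
    linarith
  · intro ht
    rw [div_le_iff₀ he0] at ht
    obtain ⟨q, rfl⟩ : ∃ q, c = q + 1 := ⟨c - 1, by omega⟩
    obtain ⟨t, ht1, rfl⟩ : ∃ t, 1 ≤ t ∧ x = q + t - 1 := ⟨x + 1 - q, by omega, by omega⟩
    have e1 : ((q + t - 1 : ℕ) : ℝ) - (q + 1 : ℕ) + 2 = t := by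
      rw [Nat.cast_sub (by omega)]
      push_cast
      ring
    have e2 : ((q + 1 : ℕ) : ℝ) - 1 = q := by
      push_cast
      ring
    rw [e1] at ht ⊢
    rw [e2] at hl
    have htR : (0 : ℝ) < t := by exact_mod_cast ht1
    have s1 : e * t ≤ ⌈e * t⌉₊ := Nat.le_ceil _
    have s2 : (⌈e * t⌉₊ : ℝ) < e * t + 1 := Nat.ceil_lt_add_one (by positivity)
    generalize ⌈e * t⌉₊ = s at s1 s2
    have s3 : e * t ≤ 1 / 2 * t := mul_le_mul_of_nonneg_right he1 htR.le
    have s4 : (q : ℝ) * e / 2 ≤ q * s / (t + s) := by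
      rw [mul_div_assoc, mul_div_assoc]
      refine mul_le_mul_of_nonneg_left ?_ (by positivity)
      rw [div_le_div_iff₀ two_pos (by positivity)]
      have := mul_le_mul_of_nonneg_left (show (s : ℝ) ≤ t by linarith) he0.le
      linarith
    have h1 := fn5_le h hd (y := q + t - 1 + s) (by
      rw [Nat.add_sub_cancel]
      exact (mul_le_mul_of_nonneg_right (by linarith) (by positivity)).trans (grow s ht1))
    have h2 : (z : ℝ) ≤ (q + t - 1 : ℕ) + s := by exact_mod_cast h1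
    have h3 := mul_le_mul_of_nonneg_right he2 htR.le
    linarith

end Pool.Agent.P.MP_4f3dfd_co.Ex
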