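import Mathlib
import Pool.Agent.P.MP_4f3dfd_co.FDefs
import Pool.Agent.P.MP_4f3dfd_co.ENum
import Pool.Agent.P.MP_4f3dfd_co.FC5
import Pool.Agent.P.MP_4f3dfd_co.FN3
import Pool.Agent.P.MP_4f3dfd_co.FN4

set_option autoImplicit false
set_option linter.unusedSectionVars false
set_option linter.unusedVariables false

namespace Pool.Agent.P.MP_4f3dfd_co.Ex

open Finset Real

variable {V : Type*} [DecidableEq V]

theorem fn6_pow {n s M : ℝ} (hn : 0 < n) (hM : 0 < M) (hs : s = n ^ (1 / 18 : ℝ))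
    (h : 8 * log n ≤ 9 * log M) : s ^ 16 ≤ M := by
  have e : s ^ 16 = exp (8 / 9 * log n) := by
    rw [hs, ← rpow_natCast, ← rpow_mul hn.le, rpow_def_of_pos hn]
    congr 1
    push_cast
    ring
  rw [e, ← exp_log hM]
  exact exp_le_exp.2 (by linarith)

theorem fn6_bt {a n M : ℝ} (hn : 0 < n) (hM : 0 < M) (h : M / (6 * n) ≤ a) :
    bt a ≤ 40 + 2 * log (n / M) := by
  have h1 : bt a ≤ bt (M / (6 * n)) := bt_anti (by positivity) h
  have e : (1 : ℝ) / (M / (6 * n)) = 6 * (n / M) := by field_simp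
  have h2 : log (6 * (n / M)) = log 6 + log (n / M) := log_mul (by norm_num) (by positivity)
  have h3 : log (6 : ℝ) ≤ 6 - 1 := log_le_sub_one_of_pos (by norm_num)
  have h4 : bt (M / (6 * n)) = 30 + 2 * log (6 * (n / M)) := by unfold bt; rw [e]
  linarith

/-- The range where links lose more than a constant factor. -/
theorem core_num : ∃ C : ℝ, 0 < C ∧ ∃ N : ℕ, ∀ n c d x : ℕ, N ≤ n → Par n c d x →
    100 < (n : ℝ) - x → 8 * lg n c d ≤ log (lam n c d ((n : ℝ) - x)) →
    ∀ a : ℝ, aa n c / 2 ≤ a → a ≤ 1 →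
      (n : ℝ) ^ (-(1 / 6) : ℝ) ≤ a ∧ 8 * lg n c d ≤ log n ∧
      4 * ((n : ℝ) - x) ≤ min (c : ℝ) ((n : ℝ) - c) ∧
      (n ≤ 2 * c + 2 → ((n : ℝ) - x) * bt a ≤ C * log n) ∧
      (2 * c ≤ n → c * ((n : ℝ) - x) ≤ C * (n * log n * min 1 (lg n c d / bt a))) := by
  obtain ⟨N, hN⟩ := ev_pow 18
  refine ⟨600, by norm_num, max N 20, ?_⟩
  intro n c d x hn h hw h8 a ha ha1
  obtain ⟨hl1, hl18, hs⟩ := hN n ((le_max_left _ _).trans hn)
  have hn20 : (20 : ℝ) ≤ n := by exact_mod_cast (le_max_right _ _).trans hn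
  have hn0 : (0 : ℝ) < n := by linarith
  have hc2 : (2 : ℝ) ≤ c := by exact_mod_cast h.hc
  have hcn : (c : ℝ) + 2 ≤ n := by exact_mod_cast h.hcn
  have hc0 : (0 : ℝ) < c := by linarith
  have hk0 : (0 : ℝ) < (n : ℝ) - c := by linarith
  have hx0 : (0 : ℝ) ≤ x := Nat.cast_nonneg x
  have hL := h.lg_pos
  have hwid := h.wid
  have hwid' := h.wid'
  have hLam := h.lg_add_log_Lam
  have hlam1 : 1 ≤ lam n c d ((n : ℝ) - x) := h.one_le_lam (by linarith) (by linarith)
  set w : ℝ := (n : ℝ) - x with hwdef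
  set L : ℝ := lg n c d with hLdef
  set s : ℝ := (n : ℝ) ^ (1 / 18 : ℝ) with hsdef
  have hw0 : 0 < w := by linarith
  have hl2 : (1 : ℝ) / 2 ≤ log 2 := by have := log_two_gt_d9; linarith
  have hl2' : log 2 ≤ 1 := by have := log_two_lt_d9; linarith
  have hA : log (lam n c d w) ≤ log n := by
    refine log_le_log (by linarith) ((min_le_left _ _).trans ?_)
    exact div_le_self hn0.le (by linarith)
  have hB : log (lam n c d w) ≤ log (Lam n c d) :=
    log_le_log (by linarith) (min_le_right _ _)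
  have hnc : 0 < log ((n : ℝ) / c) := log_pos (by rw [lt_div_iff₀ hc0]; linarith)
  have hnc' : log ((n : ℝ) / c) = log n - log c := log_div hn0.ne' hc0.ne'
  have hlc : 8 * log n ≤ 9 * log (c : ℝ) := by
    have h1 : 9 * L ≤ L * log n / log ((n : ℝ) / c) := by linarith
    rw [le_div_iff₀ hnc] at h1
    have h2 : L * (9 * log ((n : ℝ) / c)) ≤ L * log n := by linarith
    have h3 := le_of_mul_le_mul_left h2 hL
    linarith
  have hl0 : 0 ≤ log (((n : ℝ) - 1) / ((n : ℝ) - c)) :=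
    log_nonneg (by rw [le_div_iff₀ hk0]; linarith)
  have hsum : L + log (lam n c d w) ≤ 9 / 8 * log n := by linarith
  have hnk : log ((n : ℝ) / ((n : ℝ) - c)) ≤ log 2 + log (((n : ℝ) - 1) / ((n : ℝ) - c)) := by
    rw [← log_mul (by norm_num) (div_pos (by linarith) hk0).ne']
    refine log_le_log (div_pos hn0 hk0) ?_
    rw [← mul_div_assoc]
    exact div_le_div_of_nonneg_right (by linarith) hk0.le
  have hlk : 8 * log n ≤ 9 * log ((n : ℝ) - c) := by
    have h1 : 99 * log (((n : ℝ) - 1) / ((n : ℝ) - c)) ≤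
        (w - 1) * log (((n : ℝ) - 1) / ((n : ℝ) - c)) :=
      mul_le_mul_of_nonneg_right (by linarith) hl0
    have h2 : log ((n : ℝ) / ((n : ℝ) - c)) = log n - log ((n : ℝ) - c) := log_div hn0.ne' hk0.ne'
    linarith only [hl18, h8, hwid, hl2', hA, hnk, h1, h2]
  have hsc : s ^ 16 ≤ c := fn6_pow hn0 hc0 hsdef hlc
  have hsk : s ^ 16 ≤ (n : ℝ) - c := fn6_pow hn0 hk0 hsdef hlk
  have hsM : s ^ 16 ≤ min (c : ℝ) ((n : ℝ) - c) := le_min hsc hsk
  have hs18 : s ^ 18 = n := by
    rw [hsdef, ← rpow_natCast, ← rpow_mul hn0.le]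
    norm_num
  have hs3 : (n : ℝ) ^ (-(1 / 6) : ℝ) = 1 / s ^ 3 := by
    rw [hsdef, ← rpow_natCast, ← rpow_mul hn0.le, rpow_neg hn0.le, one_div]
    norm_num
  have hsl : 18 * log n ≤ s := by
    have h1 : log n ≤ log n ^ 3 := le_self_pow₀ hl1 (by norm_num)
    linarith only [hs, h1]
  have hs1 : 18 ≤ s := by linarith only [hl18, hsl]
  have hs0 : 0 < s := by linarith only [hl18, hsl]
  have hM0 : 0 < min (c : ℝ) ((n : ℝ) - c) := lt_min hc0 hk0
  have haM : min (c : ℝ) ((n : ℝ) - c) / (6 * n) ≤ a := by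
    refine le_trans (le_of_eq ?_) ha
    unfold aa
    field_simp
    norm_num
  have ha0 : 0 < a := lt_of_lt_of_le (by positivity) haM
  have hb30 := bt_ge ha0 ha1
  have hbt := fn6_bt hn0 hM0 haM
  have hcw : c * w ≤ 4 * n * (L + log (lam n c d w)) := by
    have h1 : (w - 1) * ((c : ℝ) - 1) ≤ (L + log (lam n c d w)) * n := by
      rw [← div_le_iff₀ hn0, mul_div_assoc]; exact hwid'
    have h2 : c * w ≤ (2 * ((c : ℝ) - 1)) * (2 * (w - 1)) :=
      mul_le_mul (by linarith only [hc2]) (by linarith only [hw]) hw0.le (by linarith only [hc2])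
    linarith only [h1, h2]
  have hcw1 : c * w ≤ 9 / 2 * (n * log n) := by
    have h1 : 4 * n * (L + log (lam n c d w)) ≤ 4 * n * (9 / 8 * log n) :=
      mul_le_mul_of_nonneg_left hsum (by positivity)
    linarith only [hcw, h1]
  refine ⟨?_, by linarith only [h8, hA], ?_, ?_, ?_⟩
  · rw [hs3]
    refine le_trans ?_ haM
    rw [div_le_div_iff₀ (by positivity) (by positivity), ← hs18]
    have h1 : 6 * s ^ 18 ≤ s * s ^ 18 := mul_le_mul_of_nonneg_right (by linarith only [hl18, hsl]) (by positivity)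
    have h2 : s ^ 16 * s ^ 3 ≤ min (c : ℝ) (s ^ 18 - c) * s ^ 3 :=
      mul_le_mul_of_nonneg_right (by rw [hs18]; exact hsM) (by positivity)
    have h3 : s ^ 16 * s ^ 3 = s * s ^ 18 := by ring
    linarith only [h1, h2]
  · refine le_trans ?_ hsM
    have h1 : s ^ 16 * w ≤ c * w := mul_le_mul_of_nonneg_right hsc hw0.le
    have h2 : n * (18 * log n) ≤ n * s := mul_le_mul_of_nonneg_left hsl hn0.le
    have h3 : s ^ 16 * (4 * w) ≤ s ^ 16 * s ^ 3 := by
      have h4 : s ^ 16 * s ^ 3 = n * s := by rw [← hs18]; ring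
      linarith only [hcw1, h1, h2, h4]
    have h5 : 4 * w ≤ s ^ 3 := le_of_mul_le_mul_left h3 (by positivity)
    exact h5.trans (pow_le_pow_right₀ (by linarith only [hl18, hsl]) (by norm_num))
  · intro h2c
    have h2c' : (n : ℝ) ≤ 2 * c + 2 := by exact_mod_cast h2c
    have hMk : ((n : ℝ) - c) / 2 ≤ min (c : ℝ) ((n : ℝ) - c) := le_min (by linarith) (by linarith)
    have h1 : log (n / min (c : ℝ) ((n : ℝ) - c)) ≤ log 2 + log ((n : ℝ) / ((n : ℝ) - c)) := by
      rw [← log_mul (by norm_num) (div_pos hn0 hk0).ne']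
      refine log_le_log (div_pos hn0 hM0) ?_
      have e : 2 * ((n : ℝ) / ((n : ℝ) - c)) = n / (((n : ℝ) - c) / 2) := by field_simp
      rw [e]
      exact div_le_div_of_nonneg_left hn0.le (by linarith only [hcn]) hMk
    have h2 : 1 / 3 ≤ log (((n : ℝ) - 1) / ((n : ℝ) - c)) := by
      have h3 := one_sub_inv_le_log_of_pos (div_pos (show (0 : ℝ) < (n : ℝ) - 1 by linarith) hk0)
      have h4 : (((n : ℝ) - 1) / ((n : ℝ) - c))⁻¹ ≤ 2 / 3 := by
        rw [inv_div, div_le_iff₀ (by linarith)]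
        linarith
      linarith only [h3, h4]
    have h3 : bt a ≤ 140 * log (((n : ℝ) - 1) / ((n : ℝ) - c)) := by linarith only [hl2', hnk, hbt, h1, h2]
    have h4 : w * bt a ≤ (2 * (w - 1)) * (140 * log (((n : ℝ) - 1) / ((n : ℝ) - c))) :=
      mul_le_mul (by linarith only [hw]) h3 (by linarith only [hb30]) (by linarith only [hw])
    linarith only [hl18, h8, hwid, hA, h4]
  · intro h2c
    have h2c' : 2 * (c : ℝ) ≤ n := by exact_mod_cast h2c
    have hMc : min (c : ℝ) ((n : ℝ) - c) = c := min_eq_left (by linarith only [h2c'])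
    rw [hMc] at hbt
    have h1 : log 2 ≤ log ((n : ℝ) / c) :=
      log_le_log (by norm_num) (by rw [le_div_iff₀ hc0]; linarith only [h2c'])
    have h2 : bt a ≤ 82 * log ((n : ℝ) / c) := by linarith only [hl2, hbt, h1]
    have hnl : 0 ≤ (n : ℝ) * log n := mul_nonneg hn0.le (by linarith only [hl18])
    rcases le_total 1 (L / bt a) with h3 | h3
    · rw [min_eq_left h3]
      linarith only [hcw1, hnl]
    · rw [min_eq_right h3]
      have h4 : L * log n / log ((n : ℝ) / c) ≤ 82 * (log n * (L / bt a)) := by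
        have e : 82 * (log n * (L / bt a)) = L * log n / (bt a / 82) := by field_simp
        rw [e]
        exact div_le_div_of_nonneg_left (mul_nonneg hL.le (by linarith only [hl18])) (by linarith only [hb30]) (by linarith only [hl2, hbt, h1])
      have h5 : 4 * n * (L + log (lam n c d w)) ≤ 4 * n * (82 * (log n * (L / bt a))) :=
        mul_le_mul_of_nonneg_left (by linarith only [hLam, hB, h4]) (by positivity)
      have h6 : 0 ≤ (n : ℝ) * log n * (L / bt a) := mul_nonneg hnl (div_nonneg hL.le (by linarith only [hb30]))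
      have h7 : 4 * n * (82 * (log n * (L / bt a))) = 328 * (n * log n * (L / bt a)) := by ring
      linarith only [hcw, h5, h6]

end Pool.Agent.P.MP_4f3dfd_co.Ex
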