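import Mathlib
import Pool.Agent.P.MP_4f3dfd_co.FDefs
import Pool.Agent.P.MP_4f3dfd_co.FN3
import Pool.Agent.P.MP_4f3dfd_co.FN5
import Pool.Agent.P.MP_4f3dfd_co.FN6
import Pool.Agent.P.MP_4f3dfd_co.FL1
import Pool.Agent.P.MP_4f3dfd_co.FE2
import Pool.Agent.P.MP_4f3dfd_co.FE3

set_option autoImplicit false
set_option linter.unusedSectionVars false
set_option linter.unusedVariables false

namespace Pool.Agent.P.MP_4f3dfd_co.Ex

open Finset Real

variable {V : Type*} [DecidableEq V]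

theorem fl2_small {c m w t n k B : ℝ} (hm : 0 ≤ m) (hc0 : 0 ≤ c) (hc : c ≤ n) (hw0 : 0 ≤ w)
    (hw : w ≤ 100) (ht : 1 ≤ t) (hk : w + t = k + 2) (hB : 0 ≤ B) (h : n * m ≤ 2 * (k * B)) :
    c * m * w / t ≤ 20200 * B := by
  rw [div_le_iff₀ (by linarith)]
  have h1 : c * m ≤ n * m := mul_le_mul_of_nonneg_right hc hm
  have h2 : c * m * w ≤ n * m * 100 :=
    mul_le_mul h1 hw hw0 ((mul_nonneg hc0 hm).trans h1)
  have h3 : k * B ≤ 101 * t * B := mul_le_mul_of_nonneg_right (by linarith) hB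
  nlinarith

theorem fl2_fin {c m w t n k B N : ℝ} (hm : 0 ≤ m) (hc0 : 0 ≤ c) (hc : c ≤ n) (hw0 : 0 ≤ w)
    (hw : w ≤ n) (ht : 1 ≤ t) (hk : k ≤ n) (hn0 : 0 < n) (hn : n ≤ N) (hB : 0 ≤ B)
    (h : n * m ≤ 2 * (k * B)) : c * m * w / t ≤ 2 * N ^ 2 * B := by
  have h1 : k * B ≤ n * B := mul_le_mul_of_nonneg_right hk hB
  have h2 : m ≤ 2 * B := le_of_mul_le_mul_left (a := n) (by linarith) hn0
  have h3 : c * m * w / t ≤ c * m * w := div_le_self (by positivity) ht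
  have h4 : c * m * w ≤ N * (2 * B) * N :=
    mul_le_mul (mul_le_mul (hc.trans hn) h2 hm (by linarith)) (hw.trans hn) hw0
      (mul_nonneg (by linarith) (by linarith))
  calc c * m * w / t ≤ N * (2 * B) * N := h3.trans h4
    _ = 2 * N ^ 2 * B := by ring

theorem fl2_link {P w t u s B : ℝ} (hP : 0 ≤ P) (ht : 0 < t) (hs : 0 < s) (hst : s ≤ 8 * t)
    (hw : w ≤ 10 * u) (hB : 0 ≤ B) (h : P * u / s ≤ B) : P * w / t ≤ 80 * B := by
  rw [div_le_iff₀ hs] at h
  rw [div_le_iff₀ ht]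
  have h1 : P * w ≤ P * (10 * u) := mul_le_mul_of_nonneg_left hw hP
  have h2 : B * s ≤ B * (8 * t) := mul_le_mul_of_nonneg_left hst hB
  nlinarith

theorem fl2_D {c m w t n B C c0 l β : ℝ} (hm : 0 ≤ m) (hc0 : 0 ≤ c) (hc : c < n) (hw0 : 0 ≤ w)
    (ht : 3 * (n - c) ≤ 4 * t) (hB : 0 ≤ B) (hC : 0 < C) (h0 : 0 < c0) (hβ : 0 < β)
    (h1 : w * β ≤ C * l) (h2 : c0 * (m * l / β) ≤ (1 - c / n) * B) :
    c * m * w / t ≤ 2 * C / c0 * B := by
  have hn : 0 < n := by linarith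
  have ht0 : 0 < t := by linarith
  have h3 : w ≤ C * (l / β) := by
    rw [← mul_div_assoc, le_div_iff₀ hβ]; exact h1
  have h4 : n * (m * (l / β)) ≤ (n - c) * B / c0 := by
    rw [le_div_iff₀ h0]
    have e : (1 - c / n) * B = (n - c) * B / n := by field_simp
    rw [e, le_div_iff₀ hn, mul_div_assoc] at h2
    linarith
  have h5 : c * m * w ≤ n * m * (C * (l / β)) :=
    mul_le_mul (mul_le_mul_of_nonneg_right hc.le hm) h3 hw0 (by positivity)
  have h6 : (n - c) * B / c0 ≤ 2 * t * B / c0 :=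
    div_le_div_of_nonneg_right (mul_le_mul_of_nonneg_right (by linarith) hB) h0.le
  rw [div_le_iff₀ ht0]
  calc c * m * w ≤ C * (n * (m * (l / β))) := by linarith
    _ ≤ C * (2 * t * B / c0) := mul_le_mul_of_nonneg_left (h4.trans h6) hC.le
    _ = 2 * C / c0 * B * t := by ring

theorem fl2_S {c m w t n B C c0 l ρ : ℝ} (hm : 0 ≤ m) (hn : 0 < n) (hc : 2 * c ≤ n)
    (ht : 3 * (n - c) ≤ 4 * t) (hB : 0 ≤ B) (hC : 0 < C) (h0 : 0 < c0)
    (h1 : c * w ≤ C * (n * l * ρ)) (h2 : c0 * (m * l * ρ) ≤ B) :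
    c * m * w / t ≤ 3 * C / c0 * B := by
  have ht0 : 0 < t := by linarith
  have h3 : m * l * ρ ≤ B / c0 := by
    rw [le_div_iff₀ h0]; linarith
  have h4 : m * (c * w) ≤ m * (C * (n * l * ρ)) := mul_le_mul_of_nonneg_left h1 hm
  have h5 : n * (m * l * ρ) ≤ 3 * t * (B / c0) :=
    (mul_le_mul_of_nonneg_left h3 hn.le).trans
      (mul_le_mul_of_nonneg_right (by linarith) (by positivity))
  rw [div_le_iff₀ ht0]
  calc c * m * w ≤ C * (n * (m * l * ρ)) := by linarith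
    _ ≤ C * (3 * t * (B / c0)) := mul_le_mul_of_nonneg_left h5 hC.le
    _ = 3 * C / c0 * B * t := by ring

theorem fl2_blk {n c m : ℕ} (hn : 0 < n) (hc : 1 ≤ c) (hcn : c ≤ n)
    {J : Finset (Finset (Fin n))} (hJ : Reg n c m J) (k : Fin n) :
    aa n c * n * #(blk J (shadow J) k) ≤ exc univ J (shadow J) := by
  obtain ⟨h1, -, d, hd⟩ := hJ
  have := blk_le_of_regJ (pair_shadow hc h1) (d := d) (fun i _ => hd i) (mem_univ k)
  rw [card_univ, Fintype.card_fin] at this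
  refine le_trans (mul_le_mul_of_nonneg_right ?_ (Nat.cast_nonneg _)) this
  have h2 := aa_hi hn c
  have h3 : (c : ℝ) ≤ n := by exact_mod_cast hcn
  linarith

theorem lo_orderU : ∃ C : ℝ, 0 < C ∧
    ∀ (n c m d x : ℕ) (J : Finset (Finset (Fin n))), Par n c d x → c * m = d * n →
      Reg n c m J → 2 * m ≤ n.choose c → eL n c m x ≤ C * ex n c m #(shadow J) := by
  obtain ⟨C, hC, N1, h1⟩ := core_num
  obtain ⟨c1, hc1, N2, h2⟩ := core_D
  obtain ⟨c2, hc2, N3, h3⟩ := core_S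
  obtain ⟨N, hN1, hN2, hN3⟩ : ∃ N : ℕ, N1 ≤ N ∧ N2 ≤ N ∧ N3 ≤ N :=
    ⟨N1 + N2 + N3, by omega, by omega, by omega⟩
  have p1 : (0 : ℝ) ≤ 2 * (N : ℝ) ^ 2 := by positivity
  have p2 : 0 < 2 * C / c1 := by positivity
  have p3 : 0 < 3 * C / c2 := by positivity
  refine ⟨20200 + 2 * (N : ℝ) ^ 2 + 2 * C / c1 + 3 * C / c2, by linarith,
    fun n c m d x J hP hm hJ hh => ?_⟩
  have c2' := hP.hc
  have cn' := hP.hcn
  have xn' := hP.hx
  have cx' := hP.c_le
  have n0' : 0 < n := by omega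
  have c1' : 1 ≤ c := by omega
  have cn'' : c ≤ n := by omega
  have cn : (c : ℝ) + 2 ≤ n := by exact_mod_cast cn'
  have xn : (x : ℝ) + 1 ≤ n := by exact_mod_cast xn'
  have cx : (c : ℝ) ≤ x + 1 := by exact_mod_cast cx'
  have c0 : (0 : ℝ) ≤ c := Nat.cast_nonneg c
  have x0 : (0 : ℝ) ≤ x := Nat.cast_nonneg x
  have m0 : (0 : ℝ) ≤ m := Nat.cast_nonneg m
  have n0 : (0 : ℝ) < n := by exact_mod_cast n0'
  have hB : 0 ≤ ex n c m #(shadow J) := by
    rw [← exc_shadow c1' hJ]; exact Nat.cast_nonneg _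
  have hv := var_lo c1' cn'' hJ hh
  have fin : ∀ A : ℝ, A ≤ 20200 + 2 * (N : ℝ) ^ 2 + 2 * C / c1 + 3 * C / c2 →
      eL n c m x ≤ A * ex n c m #(shadow J) →
      eL n c m x ≤ (20200 + 2 * (N : ℝ) ^ 2 + 2 * C / c1 + 3 * C / c2) * ex n c m #(shadow J) :=
    fun A hA h => h.trans (mul_le_mul_of_nonneg_right hA hB)
  by_cases hw : (n : ℝ) - x ≤ 100
  · exact fin 20200 (by linarith) (fl2_small (n := n) (k := (n : ℝ) - c) m0 c0 (by linarith)
      (by linarith) hw (by linarith) (by ring) hB hv)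
  rcases lt_or_ge n N with hn | hn
  · have hn' : (n : ℝ) ≤ N := by exact_mod_cast hn.le
    exact fin (2 * (N : ℝ) ^ 2) (by linarith) (fl2_fin (n := n) (k := (n : ℝ) - c) m0 c0
      (by linarith) (by linarith) (by linarith) (by linarith) (by linarith) n0 hn' hB hv)
  obtain ⟨z, xz', zn', hz1, hz2⟩ := hP.link
  have xz : (x : ℝ) ≤ z := by exact_mod_cast xz'
  by_cases hf : (n : ℝ) - x ≤ 10 * ((n : ℝ) - z - 1)
  · exact fin 80 (by linarith) (fl2_link (mul_nonneg c0 m0) (by linarith) (by linarith)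
      (link_t8 hP xz' zn' hz1) hf hB (link_loU c2' hJ hm zn' hz2))
  have hw' := not_le.1 hw
  have hfar := link_far hP xz' zn' hz1 hw' (not_le.1 hf)
  have ha0 : 0 < aa n c := by
    have : (2 : ℝ) ≤ c := by exact_mod_cast c2'
    unfold aa
    exact div_pos (lt_min (by linarith) (by linarith)) (by linarith)
  have ha1 := aa_le n0' c
  obtain ⟨k1, k2, k3, k4, k5⟩ := h1 n c d x (hN1.trans hn) hP hw' hfar (aa n c) (by linarith)
    (by linarith)
  obtain ⟨s1, s2, -, s4, -⟩ := hP.size hm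
  have hβ : 0 < bt (aa n c) := by
    have := bt_ge ha0 (by linarith)
    linarith
  have m1 : (0 : ℝ) < m := by exact_mod_cast s1
  have hCh : (0 : ℝ) < n.choose c := by exact_mod_cast Nat.choose_pos cn''
  have hh' : (2 : ℝ) * m ≤ n.choose c := by exact_mod_cast hh
  have hμ2 : (m : ℝ) / n.choose c ≤ 1 / 2 := (div_le_iff₀ hCh).2 (by linarith)
  have hL := hP.lg_pos
  have hμ1 : 1 / (n : ℝ) ≤ (m : ℝ) / n.choose c := by
    have h4 : log ((n.choose c : ℝ) / m) ≤ log n := by rw [← s4]; linarith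
    have h5 : (n.choose c : ℝ) / m ≤ n := (log_le_log_iff (by positivity) n0).1 h4
    rw [div_le_iff₀ m1] at h5
    rw [div_le_div_iff₀ n0 hCh]
    linarith
  have hmin := min_le_right (c : ℝ) ((n : ℝ) - c)
  have ht : 3 * ((n : ℝ) - c) ≤ 4 * ((x : ℝ) - c + 2) := by linarith
  have hblk : ∀ k ∈ (univ : Finset (Fin n)),
      aa n c * n * #(blk J (shadow J) k) ≤ exc univ J (shadow J) :=
    fun k _ => fl2_blk n0' c1' cn'' hJ k
  rcases le_total n (2 * c) with hc | hc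
  · have key := h2 n univ c J (shadow J) (m / n.choose c)
    rw [card_univ, Fintype.card_fin, hJ.2.1] at key
    have key2 := key (hN2.trans hn) (pair_shadow c1' hJ.1) k1 (div_mul_cancel₀ _ hCh.ne') hblk
      hμ1 hμ2 hc
    rw [exc_shadow c1' hJ] at key2
    exact fin (2 * C / c1) (by linarith) (fl2_D m0 c0 (by linarith) (by linarith) ht hB hC hc1 hβ
      (k4 (by omega)) key2)
  · have key := h3 n univ c J (shadow J) (m / n.choose c)
    rw [card_univ, Fintype.card_fin, hJ.2.1] at key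
    have key2 := key (hN3.trans hn) (pair_shadow c1' hJ.1) k1 (div_mul_cancel₀ _ hCh.ne') hblk
      hμ1 hμ2 hc
    rw [exc_shadow c1' hJ, one_div_div, ← s4] at key2
    have hc' : 2 * (c : ℝ) ≤ n := by exact_mod_cast hc
    exact fin (3 * C / c2) (by linarith) (fl2_S m0 n0 hc' ht hB hC hc2 (k5 hc) key2)

end Pool.Agent.P.MP_4f3dfd_co.Ex
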