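import Mathlib
import Pool.Agent.P.MP_4f3dfd_co.FDefs
import Pool.Agent.P.MP_4f3dfd_co.FN3
import Pool.Agent.P.MP_4f3dfd_co.FN5
import Pool.Agent.P.MP_4f3dfd_co.FN6
import Pool.Agent.P.MP_4f3dfd_co.FL1
import Pool.Agent.P.MP_4f3dfd_co.FE2
import Pool.Agent.P.MP_4f3dfd_co.FE3

set_option autoImplicit false
set_option linter.unusedSectionVars false
set_option linter.unusedVariables false

namespace Pool.Agent.P.MP_4f3dfd_co.Ex

open Finset Real

variable {V : Type*} [DecidableEq V]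

theorem fl3_D {m w β C l Js c0 B k c n : ℝ} (hm : 0 ≤ m) (hβ : 0 < β) (hC : 0 < C) (hl : 0 ≤ l)
    (hc0 : 0 < c0) (hB : 0 ≤ B) (hc : 0 < c) (hn : 0 < n) (hk : 0 ≤ k) (hkn : c + k = n)
    (hc1 : 1 ≤ c) (hJ : 0 ≤ Js) (h1 : w * β ≤ C * l) (h2 : c * m ≤ 2 * ((k + 1) * Js))
    (h3 : c0 * (Js * l / β) ≤ (1 - (k + 1) / n) * B) : m * w ≤ 2 * C / c0 * B := by
  have e1 : 1 - (k + 1) / n ≤ c / n := by
    rw [sub_le_iff_le_add, ← add_div, le_div_iff₀ hn]
    linarith
  have e2 : c0 * (Js * l / β) ≤ c / n * B := h3.trans (mul_le_mul_of_nonneg_right e1 hB)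
  have e3 : c * m ≤ 2 * (n * Js) := by nlinarith only [hkn, hc1, hJ, h2]
  have e4 : w ≤ C * (l / β) := by
    rw [← mul_div_assoc, le_div_iff₀ hβ]
    exact h1
  have e5 : 0 ≤ l / β := by positivity
  rw [mul_div_assoc] at e2
  generalize l / β = u at e2 e4 e5
  rw [div_mul_eq_mul_div, le_div_iff₀ hn] at e2
  rw [div_mul_eq_mul_div, le_div_iff₀ hc0]
  refine le_of_mul_le_mul_left ?_ hc
  have e6 := mul_le_mul_of_nonneg_left e4 (mul_nonneg (mul_nonneg hc.le hm) hc0.le)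
  have e7 := mul_le_mul_of_nonneg_right e3 (mul_nonneg (mul_nonneg hC.le e5) hc0.le)
  have e8 := mul_le_mul_of_nonneg_left e2 hC.le
  linarith

theorem fl3_S {m w ρ C l Js c0 B k c n : ℝ} (hm : 0 ≤ m) (hρ : 0 ≤ ρ) (hC : 0 < C) (hl : 0 ≤ l)
    (hc0 : 0 < c0) (hB : 0 ≤ B) (hn : 0 < n) (hk : 1 ≤ k) (hcn : n ≤ 2 * c)
    (hJ : 0 ≤ Js) (h1 : k * w ≤ C * (n * l * ρ)) (h2 : c * m ≤ 2 * ((k + 1) * Js))
    (h3 : c0 * (Js * l * ρ) ≤ B) : m * w ≤ 8 * C / c0 * B := by
  have hk0 : 0 < k := by linarith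
  have e3 : n * m ≤ 8 * (k * Js) := by nlinarith only [hm, hk, hcn, hJ, h2]
  have e5 : 0 ≤ l * ρ := by positivity
  rw [mul_assoc] at h1 h3
  generalize l * ρ = u at h1 h3 e5
  rw [div_mul_eq_mul_div, le_div_iff₀ hc0]
  refine le_of_mul_le_mul_left ?_ hk0
  have e6 := mul_le_mul_of_nonneg_left h1 (mul_nonneg hm hc0.le)
  have e7 := mul_le_mul_of_nonneg_right e3 (mul_nonneg (mul_nonneg hC.le e5) hc0.le)
  have e8 := mul_le_mul_of_nonneg_left h3 (mul_nonneg hC.le hk0.le)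
  linarith

theorem hi_orderU : ∃ C : ℝ, 0 < C ∧
    ∀ (n c k m m' d y : ℕ) (J : Finset (Finset (Fin n))), c + k = n → m + m' = n.choose c →
      Par n k d y → k * m' = d * n → Reg n c m J → 2 * m' ≤ n.choose c →
      m' * ((n : ℝ) - y) ≤ C * ex n c m #(shadow J) := by
  obtain ⟨C, hC, N1, hN1⟩ := core_num
  obtain ⟨c1, hc1, N2, hN2⟩ := core_D
  obtain ⟨c2, hc2, N3, hN3⟩ := core_S
  have q0 : (0 : ℝ) ≤ ((N1 + N2 + N3 : ℕ) : ℝ) := Nat.cast_nonneg _
  have q1 : 0 < 2 * C / c1 := by positivity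
  have q2 : 0 < 8 * C / c2 := by positivity
  refine ⟨200 + 2 * ((N1 + N2 + N3 : ℕ) : ℝ) + 2 * C / c1 + 8 * C / c2, by positivity,
    fun n c k m m' d y J hk hm hP hd hJ h2 => ?_⟩
  have k2 := hP.hc
  have k3 := hP.hcn
  have c2' : 2 ≤ c := by omega
  have hc : 1 ≤ c := by omega
  have hv := var_hi hc (by omega) hm hJ h2
  have B0 := ex_nonneg' hc hJ
  have M0 : (0 : ℝ) ≤ m' := Nat.cast_nonneg _
  have p0 := mul_nonneg q0 B0
  have p1 := mul_nonneg q1.le B0
  have p2 := mul_nonneg q2.le B0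
  rw [add_mul, add_mul, add_mul, mul_assoc 2]
  rcases le_or_gt ((n : ℝ) - y) 100 with hw | hw
  · have := mul_le_mul_of_nonneg_left hw M0
    linarith
  rcases lt_or_ge n (N1 + N2 + N3) with hn | hn
  · have e1 : (n : ℝ) - y ≤ ((N1 + N2 + N3 : ℕ) : ℝ) := by
      have e2 : (n : ℝ) ≤ ((N1 + N2 + N3 : ℕ) : ℝ) := by exact_mod_cast hn.le
      have e3 : (0 : ℝ) ≤ y := Nat.cast_nonneg _
      linarith
    have e4 := mul_le_mul_of_nonneg_left e1 M0
    have e5 := mul_le_mul_of_nonneg_left hv q0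
    linarith
  obtain ⟨z, z1, z2, z3, z4⟩ := hP.link
  rcases le_or_gt ((n : ℝ) - y) (10 * ((n : ℝ) - z - 1)) with hf | hf
  · have e1 := link_hiU hk hc k2 hm hJ hd z2 z4
    have e2 := mul_le_mul_of_nonneg_left hf M0
    linarith only [hv, p0, p1, p2, e1, e2]
  have hfar := link_far hP z1 z2 z3 hw hf
  have n0' : 0 < n := by omega
  have n0 : (0 : ℝ) < n := by exact_mod_cast n0'
  have n4 : (4 : ℝ) ≤ n := by exact_mod_cast (show 4 ≤ n by omega)
  have hkR : (c : ℝ) + k = n := by exact_mod_cast hk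
  have cR : (2 : ℝ) ≤ c := by exact_mod_cast c2'
  have kR : (2 : ℝ) ≤ k := by exact_mod_cast k2
  have c0' : (0 : ℝ) < c := by linarith
  have a1 : aa n k / 2 ≤ aa n (k + 1) := by
    unfold aa
    rw [div_right_comm]
    refine div_le_div_of_nonneg_right ?_ (by positivity)
    have e1 := min_le_left (k : ℝ) ((n : ℝ) - k)
    have e2 := min_le_right (k : ℝ) ((n : ℝ) - k)
    push_cast
    exact le_min (by linarith) (by linarith)
  have a2 := aa_le n0' (k + 1)
  obtain ⟨g1, g2, g3, g4, g5⟩ := hN1 n k d y (by omega) hP hw hfar _ a1 (by linarith only [a2])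
  have a0 : 0 < aa n (k + 1) := lt_of_lt_of_le (by positivity) g1
  have b0 : 0 < bt (aa n (k + 1)) := lt_of_lt_of_le (by norm_num) (bt_ge a0 (by linarith only [a2, a0]))
  obtain ⟨Js, Ds, μ, hp, hB, -, -, hblk, hμ, hJs, hμ'⟩ := dual_pack hk hc hm hJ
  rw [← hB] at B0 p0 p1 p2 hv ⊢
  have g6 := g3.trans (min_le_right _ _)
  rcases le_total ((c : ℝ) * m') (2 * exc univ Js Ds) with hb | hb
  · have e1 : (n : ℝ) - y ≤ c := by linarith only [hw, hkR, a2, a0, g6]
    have e2 := mul_le_mul_of_nonneg_left e1 M0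
    linarith only [p2, p1, p0, hb, e2]
  obtain ⟨s1, -, -, s4, -⟩ := hP.size hd
  rw [Nat.choose_symm_of_eq_add (show n = k + c by omega)] at s4
  have M1 : (0 : ℝ) < m' := by exact_mod_cast s1
  have hCh : (0 : ℝ) < n.choose c := by exact_mod_cast Nat.choose_pos (by omega)
  have h2' : 2 * (m' : ℝ) ≤ n.choose c := by exact_mod_cast h2
  have m1 : μ * n.choose c ≤ m' := le_of_mul_le_mul_left (by linarith only [hv, hμ', M1]) c0'
  have m2 : (m' : ℝ) / 2 ≤ μ * n.choose c := le_of_mul_le_mul_left (by linarith only [hμ', hb]) c0'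
  have m4 : μ ≤ 1 / 2 := le_of_mul_le_mul_right (by linarith only [h2', m1]) hCh
  have μ0 : 0 < μ := (mul_pos_iff_of_pos_right hCh).1 (by linarith)
  have l0 : 0 ≤ log (n : ℝ) := log_nonneg (by linarith only [hw, kR, a2, a0, g6])
  have m3 : 1 / (n : ℝ) ≤ μ := by
    have e1 : log 4 ≤ log (n : ℝ) := log_le_log (by norm_num) n4
    have e2 : log 4 = 2 * log 2 := by
      rw [show (4 : ℝ) = 2 ^ 2 by norm_num, log_pow]
      norm_num
    have e3 : log (2 * ((n.choose c : ℝ) / m')) ≤ log (n : ℝ) := by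
      rw [log_mul (by norm_num) (by positivity), ← s4]
      linarith only [g2, l0, e1, e2]
    have e4 := (log_le_log_iff (by positivity) n0).1 e3
    rw [← mul_div_assoc, div_le_iff₀ M1] at e4
    rw [div_le_iff₀ n0]
    refine le_of_mul_le_mul_right ?_ hCh
    have e5 := mul_le_mul_of_nonneg_left m2 n0.le
    linarith only [e4, e5]
  have hblk' : ∀ i ∈ (univ : Finset (Fin n)),
      aa n (k + 1) * n * #(blk Js Ds i) ≤ exc univ Js Ds := fun i _ => by
    refine le_trans (mul_le_mul_of_nonneg_right ?_ (Nat.cast_nonneg _)) (hblk i)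
    have e1 := aa_lo n0' (k + 1)
    push_cast at e1
    linarith only [kR, a2, a0, e1]
  have J0 : (0 : ℝ) ≤ #Js := Nat.cast_nonneg _
  have j1 : (c : ℝ) * m' ≤ 2 * (((k : ℝ) + 1) * #Js) := by linarith only [hJs, hb]
  rcases le_total n (2 * (k + 1)) with hh | hh
  · have core := hN2 n univ (k + 1) Js Ds μ
    rw [card_fin] at core
    have core' := core (by omega) hp g1 hμ hblk' m3 m4 hh
    rw [Nat.cast_add, Nat.cast_one] at core'
    have := fl3_D M0 b0 hC l0 hc1 B0 c0' n0 (by linarith only [kR, a2, a0]) hkR (by linarith only [hw, hkR, a2, a0, g6]) J0 (g4 (by omega)) j1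
      core'
    linarith only [hv, p2, p0, M1, this]
  · have core := hN3 n univ (k + 1) Js Ds μ
    rw [card_fin] at core
    have core' := core (by omega) hp g1 hμ hblk' m3 m4 hh
    have e1 : lg n k d ≤ log (1 / μ) := by
      rw [s4]
      refine log_le_log (by positivity) ?_
      rw [div_le_div_iff₀ M1 μ0]
      linarith only [m1]
    have e2 : min 1 (lg n k d / bt (aa n (k + 1))) ≤ min 1 (log (1 / μ) / bt (aa n (k + 1))) :=
      min_le_min_left _ (div_le_div_of_nonneg_right e1 b0.le)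
    have e3 := mul_le_mul_of_nonneg_left
      (mul_le_mul_of_nonneg_left e2 (mul_nonneg J0 l0)) hc2.le
    have e4 : 0 ≤ min 1 (lg n k d / bt (aa n (k + 1))) :=
      le_min zero_le_one (div_nonneg hP.lg_pos.le b0.le)
    have e5 : (n : ℝ) ≤ 2 * c := by exact_mod_cast (show n ≤ 2 * c by omega)
    have := fl3_S M0 e4 hC l0 hc2 B0 n0 (by linarith only [kR, a2, a0]) e5 J0 (g5 (by omega)) j1 (e3.trans core')
    linarith only [hv, p1, p0, M1, this]

end Pool.Agent.P.MP_4f3dfd_co.Ex
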