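import Mathlib
import Pool.Agent.P.MP_4f3dfd_co.FDefs
import Pool.Agent.P.MP_4f3dfd_co.ENum
import Pool.Agent.P.MP_4f3dfd_co.FC5
import Pool.Agent.P.MP_4f3dfd_co.FN3
import Pool.Agent.P.MP_4f3dfd_co.FN4

set_option autoImplicit false
set_option linter.unusedSectionVars false
set_option linter.unusedVariables false

namespace Pool.Agent.P.MP_4f3dfd_co.Ex

open Finset Real

variable {V : Type*} [DecidableEq V]

theorem fn7_min (c k : ℝ) (hc : 0 < c) (hk : 0 < k) :
    c * k ≤ (c + k) * min c k ∧ min c k * (c + k) ≤ 2 * (c * k) := by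
  rcases le_total c k with h | h
  · rw [min_eq_left h]; constructor <;> nlinarith
  · rw [min_eq_right h]; constructor <;> nlinarith

theorem fn7_logb (n c k : ℝ) (hc : 0 < c) (hk : 0 < k) (hn : n = c + k) :
    log n - log (min c k) ≤ log (n ^ 2 / (c * k)) := by
  have hM : 0 < min c k := lt_min hc hk
  have hn0 : 0 < n := by linarith
  rw [← log_div hn0.ne' hM.ne']
  apply log_le_log (by positivity)
  rw [div_le_div_iff₀ hM (by positivity)]
  have := (fn7_min c k hc hk).1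
  rw [← hn] at this
  nlinarith

theorem fn7_root (n : ℝ) (hn : 0 < n) :
    (n ^ (1 / 18 : ℝ)) ^ 18 = n ∧ log (n ^ (1 / 18 : ℝ)) = log n / 18 ∧
      n ^ (-(1 / 6) : ℝ) = 1 / (n ^ (1 / 18 : ℝ)) ^ 3 := by
  refine ⟨?_, ?_, ?_⟩
  · rw [← rpow_natCast, ← rpow_mul hn.le]; norm_num
  · rw [log_rpow hn]; ring
  · rw [← rpow_natCast, ← rpow_mul hn.le, rpow_neg hn.le, one_div (n ^ _)]; norm_num

theorem fn7_last (n c k : ℝ) (e : ℝ) (hc : 2 ≤ c) (hk : 2 ≤ k) (hn : n = c + k) (he : 0 < e)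
    (h : 8 * n ≤ e * (c * k)) :
    log (n / (k - 1)) ≤ (1 + e) * log ((n - 1) / k) ∧ 0 ≤ log ((n - 1) / k) := by
  have hn1 : 0 < n - 1 := by linarith
  have hk1 : 0 < k - 1 := by linarith
  have hk0 : 0 < k := by linarith
  have hn0 : 0 < n := by linarith
  have h1 : log (n / (k - 1)) = log ((n - 1) / k) + log (n / (n - 1)) + log (k / (k - 1)) := by
    rw [log_div hn0.ne' hk1.ne', log_div hn1.ne' hk0.ne', log_div hn0.ne' hn1.ne',
      log_div hk0.ne' hk1.ne']
    ring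
  have h2 : log (n / (n - 1)) ≤ 2 / k := by
    have := log_le_sub_one_of_pos (show 0 < n / (n - 1) by positivity)
    have e1 : n / (n - 1) - 1 = 1 / (n - 1) := by field_simp; ring
    have e2 : 1 / (n - 1) ≤ 2 / k := by
      rw [div_le_div_iff₀ hn1 hk0]; nlinarith only [hc, hk, hn]
    linarith
  have h3 : log (k / (k - 1)) ≤ 2 / k := by
    have := log_le_sub_one_of_pos (show 0 < k / (k - 1) by positivity)
    have e1 : k / (k - 1) - 1 = 1 / (k - 1) := by field_simp; ring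
    have e2 : 1 / (k - 1) ≤ 2 / k := by
      rw [div_le_div_iff₀ hk1 hk0]; nlinarith only [hk]
    linarith
  have h4 : c / (2 * n) ≤ log ((n - 1) / k) := by
    have := one_sub_inv_le_log_of_pos (show 0 < (n - 1) / k by positivity)
    have e1 : 1 - ((n - 1) / k)⁻¹ = (c - 1) / (n - 1) := by
      rw [inv_div]; field_simp; linarith
    have e2 : c / (2 * n) ≤ (c - 1) / (n - 1) := by
      rw [div_le_div_iff₀ (by positivity) hn1]; nlinarith only [hc, hk, hn]
    linarith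
  have h5 : 4 / k ≤ e * (c / (2 * n)) := by
    rw [← mul_div_assoc, div_le_div_iff₀ hk0 (by positivity)]; nlinarith only [h]
  have h6 : e * (c / (2 * n)) ≤ e * log ((n - 1) / k) := mul_le_mul_of_nonneg_left h4 he.le
  have h7 : 4 / k = 2 / k + 2 / k := by ring
  have h8 : 0 ≤ c / (2 * n) := by positivity
  constructor
  · linarith
  · linarith

theorem fn7_width (w c n M p l K1 e : ℝ) (hc : 2 ≤ c) (hM : M ≤ c) (hp : 1 ≤ p) (hn : n = p ^ 18)
    (hMp : p ^ 16 ≤ M) (hl : 1 ≤ l) (hK1 : 0 < K1) (he : 0 < e) (hw : 1 ≤ w)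
    (h1 : (w - 1) * ((c - 1) / n) ≤ (K1 + 1) * l) (h2 : (2 * K1 + 3) * l ≤ e * p) :
    w ≤ e * M := by
  have hp0 : 0 < p := by linarith
  have hn0 : 0 < n := by rw [hn]; positivity
  have h3 : 1 / (2 * p ^ 2) ≤ (c - 1) / n := by
    rw [div_le_div_iff₀ (by positivity) hn0, hn]
    have : p ^ 18 = p ^ 16 * p ^ 2 := by ring
    have h' : p ^ 16 ≤ 2 * (c - 1) := by linarith
    have hp2 : 0 < p ^ 2 := by positivity
    nlinarith only [hc, hM, hMp]
  have h4 : (w - 1) * (1 / (2 * p ^ 2)) ≤ (K1 + 1) * l :=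
    (mul_le_mul_of_nonneg_left h3 (by linarith)).trans h1
  have h5 : w - 1 ≤ (K1 + 1) * l * (2 * p ^ 2) := by
    rw [mul_one_div, div_le_iff₀ (by positivity)] at h4; exact h4
  have hp2 : 1 ≤ p ^ 2 := one_le_pow₀ hp
  have h6 : p ^ 3 ≤ p ^ 16 := pow_le_pow_right₀ hp (by norm_num)
  have h7 : (2 * K1 + 3) * l * p ^ 2 ≤ e * p * p ^ 2 :=
    mul_le_mul_of_nonneg_right h2 (by positivity)
  have h8 : e * p ^ 3 ≤ e * M := mul_le_mul_of_nonneg_left (h6.trans hMp) he.le
  have h9 : 1 ≤ l * p ^ 2 := by nlinarith only [hl, hp2]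
  have h10 : e * p * p ^ 2 = e * p ^ 3 := by ring
  nlinarith only [h5, h7, h8, h9]

/-- The range of polynomial density, far below the critical scale. -/
theorem sharp_num (ε K1 K2 : ℝ) (N : ℕ) (hε : 0 < ε) (hK1 : 0 < K1) : ∃ K : ℝ, 0 < K ∧
    ∀ n c d x : ℕ, Par n c d x → K * bb n c ≤ lg n c d → lg n c d ≤ K1 * log c →
    ∀ a : ℝ, aa n c / 2 ≤ a → a ≤ 1 →
      N ≤ n ∧ (n : ℝ) ^ (-(1 / 6) : ℝ) ≤ a ∧ K2 * bt a ≤ lg n c d ∧ 1 ≤ ε * ((n : ℝ) - x) ∧
      (n : ℝ) - x ≤ ε * min (c : ℝ) ((n : ℝ) - c) ∧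
      ((n : ℝ) - x) * log (n / ((n : ℝ) - c - 1)) ≤ (1 + ε) * (log n + lg n c d) := by
  obtain ⟨e, he0, heε, he1⟩ : ∃ e : ℝ, 0 < e ∧ 3 * e ≤ ε ∧ 3 * e ≤ 1 :=
    ⟨min ε 1 / 3, by have := lt_min hε one_pos; positivity,
      by have := min_le_left ε 1; linarith, by have := min_le_right ε 1; linarith⟩
  obtain ⟨N1, hN1⟩ := ev_pow (6 + (2 * K1 + 19) / e)
  obtain ⟨N0, hN0a, hN0b, hN0c⟩ : ∃ N0 : ℕ, N ≤ N0 ∧ N1 ≤ N0 ∧ 1 ≤ N0 :=
    ⟨N + N1 + 1, by omega, by omega, by omega⟩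
  have hN0r : (1 : ℝ) ≤ N0 := by exact_mod_cast hN0c
  have hlN0 : 0 ≤ log (N0 : ℝ) := log_nonneg hN0r
  have hA : 0 ≤ K1 * log (N0 : ℝ) := by positivity
  have hB : 0 ≤ |K2| := abs_nonneg _
  have hC : 0 < 2 / e := by positivity
  refine ⟨9 * K1 + K1 * log (N0 : ℝ) + 27 * |K2| + 2 + 2 / e, by positivity, ?_⟩
  generalize hK : 9 * K1 + K1 * log (N0 : ℝ) + 27 * |K2| + 2 + 2 / e = K
  have hK0 : 0 < K := by rw [← hK]; positivity
  intro n c d x h hbL hLc a ha ha1
  have hc : (2 : ℝ) ≤ c := by exact_mod_cast h.hc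
  have hcn : (c : ℝ) + 2 ≤ n := by exact_mod_cast h.hcn
  have hx : (x : ℝ) + 1 ≤ n := by exact_mod_cast h.hx
  have hx0 : (0 : ℝ) ≤ x := Nat.cast_nonneg x
  have hn0 : (0 : ℝ) < n := by linarith
  have hnN : 0 < n := by exact_mod_cast hn0
  have hb2 := h.log_two_le_bb
  have hl2 := log_two_gt_d9
  have hL0 := h.lg_pos
  have hlc : log (c : ℝ) ≤ log n := log_le_log (by linarith) (by linarith)
  have hLn : lg n c d ≤ K1 * log n := hLc.trans (mul_le_mul_of_nonneg_left hlc hK1.le)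
  have hb1 : 1 ≤ bb n c := by linarith
  have hb0 : 0 < bb n c := by linarith
  -- n is large
  have hnN0 : N0 ≤ n := by
    have h1 : K1 * log (N0 : ℝ) ≤ K := by rw [← hK]; linarith
    have h2 : K ≤ K * bb n c := by nlinarith only [hK1, he0, he1, hA, hB, hC, hK, hb2, hl2]
    have h3 : K1 * log (N0 : ℝ) ≤ K1 * log n := by linarith
    have h4 : log (N0 : ℝ) ≤ log n := le_of_mul_le_mul_left h3 hK1
    have h5 : (N0 : ℝ) ≤ n := (log_le_log_iff (by linarith) hn0).1 h4
    exact_mod_cast h5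
  obtain ⟨hl1, -, hlp⟩ := hN1 n (hN0b.trans hnN0)
  obtain ⟨hp18, hlogp, hp3⟩ := fn7_root n hn0
  have hp0 : 0 < (n : ℝ) ^ (1 / 18 : ℝ) := by positivity
  rw [hp3]
  generalize (n : ℝ) ^ (1 / 18 : ℝ) = p at hlp hp18 hlogp hp0 ⊢
  have hM0 : 0 < min (c : ℝ) ((n : ℝ) - c) := lt_min (by linarith) (by linarith)
  have hMb : log n - log (min (c : ℝ) ((n : ℝ) - c)) ≤ bb n c :=
    fn7_logb n c (n - c) (by linarith) (by linarith) (by ring)
  have hMc := min_le_left (c : ℝ) ((n : ℝ) - c)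
  have hMk := min_le_right (c : ℝ) ((n : ℝ) - c)
  have hMck := (fn7_min (c : ℝ) ((n : ℝ) - c) (by linarith) (by linarith)).2
  have haM := aa_mul hnN c
  generalize min (c : ℝ) ((n : ℝ) - c) = M at hM0 hMb hMc hMk hMck haM ⊢
  have hb9 : 9 * bb n c ≤ log n := by
    have h1 : 9 * K1 ≤ K := by rw [← hK]; linarith only [he0, he1, hA, hB, hC]
    have h2 : 9 * K1 * bb n c ≤ K * bb n c := mul_le_mul_of_nonneg_right h1 hb0.le
    have h3 : K1 * (9 * bb n c) ≤ K1 * log n := by linarith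
    exact le_of_mul_le_mul_left h3 hK1
  have hMp : p ^ 16 ≤ M := by
    rw [← log_le_log_iff (by positivity) hM0, log_pow, hlogp]
    push_cast
    linarith
  have hl3 : log (n : ℝ) ≤ log (n : ℝ) ^ 3 := le_self_pow₀ hl1 (by norm_num)
  have hD : 0 < (2 * K1 + 19) / e := by positivity
  have hlp' : (6 + (2 * K1 + 19) / e) * log n ≤ p :=
    (mul_le_mul_of_nonneg_left hl3 (by positivity)).trans hlp
  have hp6 : 6 ≤ p := by nlinarith only [hK1, he0, he1, hA, hB, hC, hK, hbL, hb2, hl2, hL0, hLn, hD, hlp']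
  have hep : (2 * K1 + 19) * log n ≤ e * p := by
    have h1 : (2 * K1 + 19) / e * log n ≤ p := by nlinarith only [he0, he1, hb2, hl2, hb9, hlp']
    have h2 : e * ((2 * K1 + 19) / e * log n) ≤ e * p := mul_le_mul_of_nonneg_left h1 he0.le
    have h3 : e * ((2 * K1 + 19) / e * log n) = (2 * K1 + 19) * log n := by field_simp
    linarith only [h2, h3]
  have hp1 : 1 ≤ p := by linarith
  -- the multiplicity at width w
  have hw0 : 0 < (n : ℝ) - x := by linarith
  have hlam1 : 1 ≤ lam n c d ((n : ℝ) - x) := h.one_le_lam hw0 (by linarith)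
  have hlam2 : log (lam n c d ((n : ℝ) - x)) ≤ log n := by
    apply log_le_log (by linarith)
    refine (min_le_left _ _).trans ?_
    exact div_le_self hn0.le (by linarith)
  have hwM : (n : ℝ) - x ≤ e * M := by
    apply fn7_width ((n : ℝ) - x) c n M p (log n) K1 e hc hMc hp1 hp18.symm hMp hl1 hK1 he0
      (by linarith)
    · have := h.wid'
      linarith only [hLn, hlam2, this]
    · linarith
  have heM : e * M ≤ ((n : ℝ) - c) / 2 := by nlinarith only [he0, he1, hcn, hMk]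
  have hcx : (c : ℝ) ≤ x := by linarith only [he0, he1, hcn, hwM, heM]
  have hcxN : c ≤ x := by exact_mod_cast hcx
  -- lower bound on the width
  have hwK : K ≤ 2 * ((n : ℝ) - x) := by
    have h1 := h.wlog hcxN
    have h2 : 0 ≤ log (lam n c d ((n : ℝ) - x + 1)) :=
      log_nonneg (h.one_le_lam (by linarith only [he0, he1, hx]) (by linarith only [he0, he1, hc, hcn, hwM, heM]))
    have h3 : log ((x : ℝ) / ((x : ℝ) - c + 1)) ≤ log 2 + (log n - log M) := by
      rw [← log_div hn0.ne' hM0.ne', ← log_mul (by norm_num) (by positivity)]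
      apply log_le_log (div_pos (by linarith only [he0, he1, hc, hcn, hwM, heM]) (by linarith only [he0, he1, hcn, hwM, heM]))
      rw [← mul_div_assoc, div_le_div_iff₀ (by linarith) hM0]
      have e1 : M ≤ 2 * ((x : ℝ) - c + 1) := by linarith only [he0, he1, hMk, hwM, heM]
      have e2 : (x : ℝ) * M ≤ n * M := mul_le_mul_of_nonneg_right (by linarith) hM0.le
      have e3 : (n : ℝ) * M ≤ n * (2 * ((x : ℝ) - c + 1)) := mul_le_mul_of_nonneg_left e1 hn0.le
      linarith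
    have h4 : log ((x : ℝ) / ((x : ℝ) - c + 1)) ≤ 2 * bb n c := by linarith
    have h5 := mul_le_mul_of_nonneg_left h4 hw0.le
    have h6 : K * bb n c ≤ 2 * ((n : ℝ) - x) * bb n c := by linarith only [hbL, h1, h2, h5]
    exact le_of_mul_le_mul_right h6 hb0
  have hew : 1 ≤ e * ((n : ℝ) - x - 1) := by
    have h1 : 2 + 2 / e ≤ K := by rw [← hK]; linarith
    have h2 : 2 / e ≤ 2 * ((n : ℝ) - x - 1) := by linarith
    rw [div_le_iff₀ he0] at h2
    linarith
  have ha0 : M / (6 * n) ≤ a := by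
    rw [div_le_iff₀ (by positivity)]
    have : aa n c / 2 * (6 * n) ≤ a * (6 * n) := mul_le_mul_of_nonneg_right ha (by positivity)
    linarith only [haM, this]
  have hapos : 0 < a := lt_of_lt_of_le (by positivity) ha0
  refine ⟨hN0a.trans hnN0, ?_, ?_, ?_, ?_, ?_⟩
  · refine le_trans ?_ ha0
    rw [div_le_div_iff₀ (by positivity) (by positivity), ← hp18]
    have h1 : p ^ 16 * p ^ 3 ≤ M * p ^ 3 := mul_le_mul_of_nonneg_right hMp (by positivity)
    have h2 : 6 * p ^ 18 ≤ p * p ^ 18 := mul_le_mul_of_nonneg_right hp6 (by positivity)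
    have h3 : p * p ^ 18 = p ^ 16 * p ^ 3 := by ring
    linarith
  · have h1 : bt a ≤ bt (M / (6 * n)) := bt_anti (by positivity) ha0
    have h2 : log (1 / (M / (6 * n))) = log 6 + (log n - log M) := by
      rw [one_div_div, log_div (by positivity) hM0.ne', log_mul (by norm_num) hn0.ne']
      ring
    have h3 : log (6 : ℝ) ≤ 3 * log 2 := by
      have : log (6 : ℝ) ≤ log (2 ^ 3) := log_le_log (by norm_num) (by norm_num)
      rw [log_pow] at this
      exact_mod_cast this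
    have h4 : bt a ≤ 27 * bb n c := by
      have h5 : bt (M / (6 * n)) = 30 + 2 * log (1 / (M / (6 * n))) := rfl
      linarith only [he0, he1, hb2, hl2, hMb, h1, h2, h3, h5]
    have h5 : 0 ≤ bt a := by have := bt_ge hapos ha1; linarith only [he0, he1, this]
    have h6 : K2 * bt a ≤ |K2| * bt a := mul_le_mul_of_nonneg_right (le_abs_self _) h5
    have h7 : |K2| * bt a ≤ |K2| * (27 * bb n c) := mul_le_mul_of_nonneg_left h4 hB
    have h8 : 27 * |K2| ≤ K := by rw [← hK]; linarith only [hK1, he0, he1, hA, hC]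
    have h9 : 27 * |K2| * bb n c ≤ K * bb n c := mul_le_mul_of_nonneg_right h8 hb0.le
    linarith only [hbL, h6, h7, h9]
  · have h1 : e * ((n : ℝ) - x) ≤ ε * ((n : ℝ) - x) :=
      mul_le_mul_of_nonneg_right (by linarith) hw0.le
    nlinarith only [he0, hew, h1]
  · have h1 : e * M ≤ ε * M := mul_le_mul_of_nonneg_right (by linarith only [he0, heε]) hM0.le
    linarith only [hwM, h1]
  · have hM16 : 16 ≤ e * M := by
      have h1 : p ≤ p ^ 16 := le_self_pow₀ hp1 (by norm_num)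
      have h2 : e * p ≤ e * M := mul_le_mul_of_nonneg_left (h1.trans hMp) he0.le
      nlinarith only [he0, he1, hb2, hl2, hL0, hLn, hb9, hep, h2]
    have h8 : 8 * (n : ℝ) ≤ e * (c * ((n : ℝ) - c)) := by
      have h1 : M * n ≤ 2 * (c * ((n : ℝ) - c)) := by
        have : (c : ℝ) + (n - c) = n := by ring
        rw [this] at hMck; exact hMck
      have h2 : e * (M * n) ≤ e * (2 * (c * ((n : ℝ) - c))) := mul_le_mul_of_nonneg_left h1 he0.le
      have h3 : 16 * (n : ℝ) ≤ e * M * n := mul_le_mul_of_nonneg_right hM16 hn0.le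
      linarith only [h2, h3]
    obtain ⟨h1, h2⟩ := fn7_last n c (n - c) e hc (by linarith only [he0, he1, heM, hM16]) (by ring) he0 h8
    have h3 := h.wid
    generalize log (((n : ℝ) - 1) / ((n : ℝ) - c)) = l at h1 h2 h3
    have h4 : ((n : ℝ) - x) * log (n / ((n : ℝ) - c - 1)) ≤ ((n : ℝ) - x) * ((1 + e) * l) :=
      mul_le_mul_of_nonneg_left h1 hw0.le
    have h5 : (n : ℝ) - x ≤ (1 + e) * ((n : ℝ) - x - 1) := by nlinarith only [hew]
    have h6 : ((n : ℝ) - x) * ((1 + e) * l) ≤ (1 + e) * ((n : ℝ) - x - 1) * ((1 + e) * l) :=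
      mul_le_mul_of_nonneg_right h5 (by positivity)
    have h7 : ((n : ℝ) - x - 1) * l ≤ log n + lg n c d := by linarith only [hlam2, h3]
    have h9 : (1 + e) ^ 2 * (((n : ℝ) - x - 1) * l) ≤ (1 + e) ^ 2 * (log n + lg n c d) :=
      mul_le_mul_of_nonneg_left h7 (by positivity)
    have h10 : (1 + e) ^ 2 ≤ 1 + ε := by nlinarith only [hε, he0, heε, he1]
    have h11 : (1 + e) ^ 2 * (log n + lg n c d) ≤ (1 + ε) * (log n + lg n c d) :=
      mul_le_mul_of_nonneg_right h10 (by linarith only [he0, he1, hb2, hl2, hL0, hb9])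
    have h12 : (1 + e) * ((n : ℝ) - x - 1) * ((1 + e) * l) =
      (1 + e) ^ 2 * (((n : ℝ) - x - 1) * l) := by ring
    linarith only [h4, h6, h9, h11]

end Pool.Agent.P.MP_4f3dfd_co.Ex
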