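import Mathlib
import Pool.Agent.P.MP_4f3dfd_co.FDefs
import Pool.Agent.P.MP_4f3dfd_co.FN3
import Pool.Agent.P.MP_4f3dfd_co.FN5
import Pool.Agent.P.MP_4f3dfd_co.FN7
import Pool.Agent.P.MP_4f3dfd_co.FL1
import Pool.Agent.P.MP_4f3dfd_co.FE1

set_option autoImplicit false
set_option linter.unusedSectionVars false
set_option linter.unusedVariables false

namespace Pool.Agent.P.MP_4f3dfd_co.Ex

open Finset Real

variable {V : Type*} [DecidableEq V]

theorem fl4_real {e ε c m D s l Λ t B : ℝ} (he0 : 0 < e) (he : e ≤ 1 / 4) (hε : 4 * e ≤ ε)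
    (hc : 0 ≤ c) (hm : 0 ≤ m) (hD : 0 ≤ D) (hs : 0 < s) (hl : 0 < l) (h1 : D * l ≤ (1 + e) * Λ)
    (h2 : (1 - e) * s ≤ t) (h3 : (1 - e) * (c / (s * l)) * (m * Λ) ≤ B) :
    (1 - ε) * (c * m * D / t) ≤ B := by
  have he' : 0 < 1 - e := by linarith
  have ht : 0 < t := lt_of_lt_of_le (mul_pos he' hs) h2
  have hX : 0 ≤ c * m * D / t := by positivity
  have h4 : (1 - e) * (c * m * D / t) ≤ c * m * D / s := by
    rw [← mul_div_assoc, div_le_div_iff₀ ht hs]
    have := mul_le_mul_of_nonneg_left h2 (show 0 ≤ c * m * D by positivity)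
    linarith
  have h5 : c * m * D / s ≤ c / (s * l) * (m * ((1 + e) * Λ)) := by
    have : c * m * D / s = c / (s * l) * (m * (D * l)) := by field_simp
    rw [this]
    gcongr
  have h6 : (1 - e) * ((1 - e) * (c * m * D / t)) ≤ (1 + e) * B := by
    calc (1 - e) * ((1 - e) * (c * m * D / t)) ≤ (1 - e) * (c / (s * l) * (m * ((1 + e) * Λ))) :=
          mul_le_mul_of_nonneg_left (h4.trans h5) he'.le
      _ = (1 + e) * ((1 - e) * (c / (s * l)) * (m * Λ)) := by ring
      _ ≤ (1 + e) * B := mul_le_mul_of_nonneg_left h3 (by linarith)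
  have h7 : (1 + e) * ((1 - ε) * (c * m * D / t)) ≤ (1 - e) * ((1 - e) * (c * m * D / t)) := by
    rw [← mul_assoc, ← mul_assoc]
    refine mul_le_mul_of_nonneg_right ?_ hX
    nlinarith [sq_nonneg e]
  exact le_of_mul_le_mul_left (h7.trans h6) (by linarith)

theorem fl4_link {e ε P w t u v : ℝ} (he0 : 0 < e) (he : e ≤ 1 / 4) (hε : 4 * e ≤ ε) (hP : 0 ≤ P)
    (hw : 0 ≤ w) (ht : 0 < t) (hv : 0 < v) (h1 : (1 - e) * w ≤ u) (h2 : v ≤ (1 + e) * t) :
    (1 - ε) * (P * w / t) ≤ P * u / v := by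
  rw [← mul_div_assoc, div_le_div_iff₀ ht hv]
  have h3 : (1 - 4 * e) * w * v ≤ u * t := by
    calc (1 - 4 * e) * w * v ≤ (1 - 4 * e) * w * ((1 + e) * t) :=
          mul_le_mul_of_nonneg_left h2 (mul_nonneg (by linarith) hw)
      _ = ((1 - 4 * e) * (1 + e)) * (w * t) := by ring
      _ ≤ (1 - e) * (w * t) := mul_le_mul_of_nonneg_right (by nlinarith [sq_nonneg e]) (by positivity)
      _ = ((1 - e) * w) * t := by ring
      _ ≤ u * t := mul_le_mul_of_nonneg_right h1 ht.le
  have h4 : (1 - ε) * (w * v) ≤ (1 - 4 * e) * (w * v) :=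
    mul_le_mul_of_nonneg_right (by linarith) (by positivity)
  calc (1 - ε) * (P * w) * v = P * ((1 - ε) * (w * v)) := by ring
    _ ≤ P * (u * t) := mul_le_mul_of_nonneg_left (by linarith) hP
    _ = P * u * t := by ring

theorem lo_sharpU (ε : ℝ) (hε : 0 < ε) : ∃ K : ℝ, 0 < K ∧
    ∀ (n c m d x : ℕ) (J : Finset (Finset (Fin n))), Par n c d x → c * m = d * n →
      Reg n c m J → K * min (bb n c) (log c) ≤ lg n c d → K ≤ (x : ℝ) - c + 2 →
      (1 - ε) * eL n c m x ≤ ex n c m #(shadow J) := by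
  obtain ⟨e, he0, he1, he2⟩ : ∃ e : ℝ, 0 < e ∧ e ≤ 1 / 4 ∧ 4 * e ≤ ε :=
    ⟨min ε 1 / 4, by positivity, by linarith [min_le_right ε 1], by linarith [min_le_left ε 1]⟩
  obtain ⟨K1, hK1, h1⟩ := link_sharp e he0
  obtain ⟨K2, hK2, N, h2⟩ := core_sharpU e K1 he0 hK1
  obtain ⟨K3, hK3, h3⟩ := sharp_num e K1 K2 N he0 hK1
  refine ⟨max K1 K3, lt_max_of_lt_left hK1, fun n c m d x J h hm hJ hL ht => ?_⟩
  have hc2 : (2 : ℝ) ≤ c := by exact_mod_cast h.hc
  have hcn : (c : ℝ) + 2 ≤ n := by exact_mod_cast h.hcn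
  have hxn : (x : ℝ) < n := by exact_mod_cast h.hx
  have hc1 : 1 ≤ c := le_trans (by norm_num) h.hc
  have hlc : 0 ≤ log c := log_nonneg (by linarith)
  have ht0 : 0 < (x : ℝ) - c + 2 := lt_of_lt_of_le (lt_max_of_lt_left hK1) ht
  unfold eL
  by_cases hA : K1 * log c ≤ lg n c d
  · obtain ⟨z, hxz, hz, hd1, hd2⟩ := h.link
    obtain ⟨a1, a2⟩ := h1 n c d x z h hxz hz hd1 hA
    have a3 := a2 (le_trans (le_max_left _ _) ht)
    have hxz' : (x : ℝ) ≤ z := by exact_mod_cast hxz
    refine le_trans ?_ (link_loU h.hc hJ hm hz hd2)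
    exact fl4_link he0 he1 he2 (by positivity) (by linarith) ht0 (by linarith) (by linarith)
      (by linarith)
  · have hA := not_le.1 hA
    have hb0 : 0 ≤ bb n c := le_trans (mul_nonneg (by norm_num) (log_nonneg (by norm_num)))
      h.log_two_le_bb
    have hB : K3 * bb n c ≤ lg n c d := by
      rcases le_total (bb n c) (log c) with hh | hh
      · rw [min_eq_left hh] at hL
        exact le_trans (mul_le_mul_of_nonneg_right (le_max_right _ _) hb0) hL
      · rw [min_eq_right hh] at hL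
        have := mul_le_mul_of_nonneg_right (le_max_left K1 K3) hlc
        linarith
    have hn0' : 0 < n := by have := h.hcn; omega
    have hn0 : (0 : ℝ) < n := by linarith
    have ha0 : 0 ≤ aa n c := by
      unfold aa
      exact div_nonneg (le_min (by linarith) (by linarith)) (by positivity)
    have ha1 := aa_le hn0' c
    obtain ⟨b1, b2, b3, b4, b5, b6⟩ := h3 n c d x h hB hA.le (aa n c) (by linarith) (by linarith)
    obtain ⟨s1, s2, s3, s4, -⟩ := h.size hm
    have hC : (0 : ℝ) < n.choose c := by exact_mod_cast lt_of_le_of_lt (Nat.zero_le _) s2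
    have hm0 : (0 : ℝ) < m := by exact_mod_cast s1
    have hμ0 : (0 : ℝ) < (m : ℝ) / n.choose c := div_pos hm0 hC
    have hlg : log (1 / ((m : ℝ) / n.choose c)) = lg n c d := by rw [one_div_div, s4]
    have hΛ : log (n / ((m : ℝ) / n.choose c)) = log n + lg n c d := by
      rw [← hlg, ← log_mul hn0.ne' (by positivity), mul_one_div]
    have key := h2 n univ c J (shadow J) (m / n.choose c)
    rw [card_univ, Fintype.card_fin, hJ.2.1, exc_shadow hc1 hJ, hlg, hΛ] at key
    have hdens : (n : ℝ) ^ (-K1) ≤ (m : ℝ) / n.choose c := by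
      rw [← log_le_log_iff (rpow_pos_of_pos hn0 _) hμ0, log_rpow hn0]
      have e1 : log ((m : ℝ) / n.choose c) = - lg n c d := by
        rw [← hlg, one_div, log_inv, neg_neg]
      have e2 : log c ≤ log n := log_le_log (by linarith) (by linarith)
      have := mul_le_mul_of_nonneg_left e2 hK1.le
      rw [e1]
      linarith
    have key2 := key b1 (pair_shadow hc1 hJ.1) b2 (div_mul_cancel₀ _ hC.ne') (fun k _ => by
      rw [← exc_shadow hc1 hJ]
      obtain ⟨d', hd'⟩ := hJ.2.2
      have := blk_le_of_regJ (pair_shadow hc1 hJ.1) (d := d') (fun i _ => hd' i) (mem_univ k)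
      rw [card_univ, Fintype.card_fin] at this
      refine le_trans (mul_le_mul_of_nonneg_right ?_ (Nat.cast_nonneg _)) this
      have a1 := aa_hi hn0' c
      have a2 : 0 ≤ aa n c * n := by positivity
      linarith) hdens b3
    have hk : (n : ℝ) - x ≤ e * ((n : ℝ) - c) :=
      le_trans b5 (mul_le_mul_of_nonneg_left (min_le_right _ _) he0.le)
    refine fl4_real he0 he1 he2 (by linarith) hm0.le (by linarith) (by linarith)
      (log_pos ((one_lt_div (by linarith)).2 (by linarith))) ?_ (by linarith) key2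
    refine le_trans (mul_le_mul_of_nonneg_left ?_ (by linarith)) b6
    exact log_le_log (div_pos hn0 (by linarith))
      (div_le_div_of_nonneg_left hn0.le (by linarith) (by linarith))

end Pool.Agent.P.MP_4f3dfd_co.Ex
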