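import Mathlib
import Pool.Agent.P.MP_4f3dfd_co.FDefs
import Pool.Agent.P.MP_4f3dfd_co.FN3
import Pool.Agent.P.MP_4f3dfd_co.FN5
import Pool.Agent.P.MP_4f3dfd_co.FN7
import Pool.Agent.P.MP_4f3dfd_co.FL1
import Pool.Agent.P.MP_4f3dfd_co.FE1

set_option autoImplicit false
set_option linter.unusedSectionVars false
set_option linter.unusedVariables false

namespace Pool.Agent.P.MP_4f3dfd_co.Ex

open Finset Real

variable {V : Type*} [DecidableEq V]

theorem fl5_final {B e cs Js c M D l W : ℝ} (hl : 0 < l) (he : 0 < e) (he' : e ≤ 1 / 4)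
    (hc : 1 < c) (hM : 0 ≤ M) (hD : 0 ≤ D) (h1 : (1 - e) * (c * M) ≤ cs * Js)
    (h2 : D * l ≤ (1 + e) * W) (h4 : (1 - e) * (cs / ((c - 1) * l)) * (Js * W) ≤ B) :
    (1 - 3 * e) * (M * D) ≤ B := by
  have e1 : 0 ≤ 1 - e := by linarith
  have e3 : 0 ≤ 1 - 3 * e := by linarith
  have c1 : 0 < c - 1 := by linarith
  have c0 : 0 ≤ c := by linarith
  have hQ : 0 < (c - 1) * l := by positivity
  have hW : 0 ≤ W := by
    have : 0 ≤ (1 + e) * W := (mul_nonneg hD hl.le).trans h2
    exact nonneg_of_mul_nonneg_right this (by linarith)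
  have h5 : (1 - e) * (cs / ((c - 1) * l)) * (Js * W) = (1 - e) * (cs * Js * W) / ((c - 1) * l) := by
    field_simp
  rw [h5, div_le_iff₀ hQ] at h4
  have h6 : (1 - e) * ((1 - e) * (c * M) * W) ≤ (1 - e) * (cs * Js * W) :=
    mul_le_mul_of_nonneg_left (mul_le_mul_of_nonneg_right h1 hW) e1
  have h7 : (c - 1) * (D * l) ≤ c * ((1 + e) * W) :=
    mul_le_mul (by linarith) h2 (mul_nonneg hD hl.le) c0
  have h8 : (1 - 3 * e) * M * ((c - 1) * (D * l)) ≤ (1 - 3 * e) * M * (c * ((1 + e) * W)) :=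
    mul_le_mul_of_nonneg_left h7 (mul_nonneg e3 hM)
  have h9 : (1 - 3 * e) * (1 + e) * (c * M * W) ≤ (1 - e) * (1 - e) * (c * M * W) :=
    mul_le_mul_of_nonneg_right (by nlinarith only [he]) (by positivity)
  refine le_of_mul_le_mul_right ?_ hQ
  linarith

theorem fl5_aa {n k : ℕ} (hk : k + 2 ≤ n) : aa n k / 2 ≤ aa n (k + 1) := by
  have n0 : (0 : ℝ) < n := by exact_mod_cast (by omega : 0 < n)
  have h2 : (k : ℝ) + 2 ≤ n := by exact_mod_cast hk
  have k0 : (0 : ℝ) ≤ k := Nat.cast_nonneg _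
  unfold aa
  rw [div_right_comm]
  refine div_le_div_of_nonneg_right ?_ (by positivity)
  push_cast
  have := min_le_left (k : ℝ) ((n : ℝ) - k)
  have := min_le_right (k : ℝ) ((n : ℝ) - k)
  exact le_min (by linarith) (by linarith)

theorem hi_sharpU (ε : ℝ) (hε : 0 < ε) : ∃ K : ℝ, 0 < K ∧
    ∀ (n c k m m' d y : ℕ) (J : Finset (Finset (Fin n))), c + k = n → m + m' = n.choose c →
      Par n k d y → k * m' = d * n → Reg n c m J → K * min (bb n k) (log k) ≤ lg n k d →
      (1 - ε) * (m' * ((n : ℝ) - y)) ≤ ex n c m #(shadow J) := by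
  obtain ⟨e, he, he4, heε⟩ : ∃ e : ℝ, 0 < e ∧ e ≤ 1 / 4 ∧ 3 * e ≤ ε :=
    ⟨min ε 1 / 4, by positivity, by linarith [min_le_right ε 1],
      by linarith [min_le_left ε 1, hε]⟩
  obtain ⟨K1, hK1, h1⟩ := link_sharp e he
  obtain ⟨K2, hK2, N, h2⟩ := core_sharpU e (K1 + 1) he (by positivity)
  obtain ⟨K3, hK3, h3⟩ := sharp_num e K1 K2 N he hK1
  refine ⟨K1 + K3, by positivity, fun n c k m m' d y J hk hm hP hd hJ hL => ?_⟩
  have k2 := hP.hc
  have kn := hP.hcn
  have c2 : 2 ≤ c := by omega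
  have y0 : (0 : ℝ) ≤ (n : ℝ) - y := sub_nonneg.2 (by exact_mod_cast hP.hx.le)
  have M0' : (0 : ℝ) ≤ m' := Nat.cast_nonneg _
  have p0 : 0 ≤ (m' : ℝ) * ((n : ℝ) - y) := by positivity
  have pe := mul_le_mul_of_nonneg_right heε p0
  have pe' := mul_nonneg he.le p0
  have k2' : (2 : ℝ) ≤ k := by exact_mod_cast k2
  have c2' : (2 : ℝ) ≤ c := by exact_mod_cast c2
  have hn : (c : ℝ) + k = n := by exact_mod_cast hk
  have n0 : (0 : ℝ) < n := by linarith
  have lk : 0 < log (k : ℝ) := log_pos (by linarith)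
  rcases le_or_gt (K1 * log k) (lg n k d) with hA | hA
  · obtain ⟨z, z1, z2, z3, z4⟩ := hP.link
    have l1 := (h1 n k d y z hP z1 z2 z3 hA).1
    have l2 := link_hiU hk (by omega) k2 hm hJ hd z2 z4
    have l3 : (1 - e) * ((n : ℝ) - y) ≤ (n : ℝ) - z - 1 := by linarith
    have l4 := mul_le_mul_of_nonneg_left l3 M0'
    linarith
  have b0 : 0 ≤ bb n k := by
    have := hP.log_two_le_bb
    have : 0 < log (2 : ℝ) := log_pos (by norm_num)
    linarith
  have hb : K3 * bb n k ≤ lg n k d := by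
    rcases min_cases (bb n k) (log k) with h | h
    · rw [h.1] at hL
      have := mul_nonneg hK1.le b0
      linarith
    · rw [h.1] at hL
      have := mul_pos hK3 lk
      linarith
  have npos : 0 < n := by omega
  obtain ⟨s1, s2, s3, s4, s5, s6⟩ := h3 n k d y hP hb hA.le (aa n (k + 1)) (fl5_aa kn)
    ((aa_le npos _).trans (by norm_num))
  obtain ⟨z1, z2, z3, z4, -⟩ := hP.size hd
  have hsym : n.choose k = n.choose c := by
    rw [← hk]; exact Nat.choose_symm_add.symm
  rw [hsym] at z4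
  obtain ⟨Js, Ds, μ, hp, hB, hD, -, hblk, hμ, hJs, hμ'⟩ := dual_pack hk (by omega) hm hJ
  rw [← hB]
  have B0 : (0 : ℝ) ≤ exc univ Js Ds := Nat.cast_nonneg _
  have M0 : (0 : ℝ) < m' := by exact_mod_cast z1
  have c0 : (0 : ℝ) < c := by linarith only [he, he4, c2']
  have hC : (0 : ℝ) < n.choose c := by exact_mod_cast Nat.choose_pos (by omega)
  rcases le_total (e * (c * m')) (exc univ Js Ds : ℝ) with hq | hq
  · have l5 : (n : ℝ) - y ≤ e * c := by
      refine s5.trans (mul_le_mul_of_nonneg_left ((min_le_right _ _).trans ?_) he.le)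
      linarith only [hn]
    have l6 := mul_le_mul_of_nonneg_left l5 M0'
    have l7 := mul_nonneg hε.le p0
    linarith only [l6, l7, hq]
  have m1 : μ * n.choose c ≤ m' := le_of_mul_le_mul_left (by linarith only [hμ', B0]) c0
  have m2 : (1 - e) * m' ≤ μ * n.choose c := le_of_mul_le_mul_left (by linarith only [hμ', hq]) c0
  have μ0 : 0 < μ := by
    have : 0 < (1 - e) * m' := mul_pos (by linarith) M0
    exact (mul_pos_iff_of_pos_right hC).1 (this.trans_le m2)
  have g1 : lg n k d ≤ log (1 / μ) := by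
    rw [z4]
    refine log_le_log (by positivity) ?_
    rw [div_le_div_iff₀ M0 μ0]
    linarith only [m1]
  have m3 : (n : ℝ) ^ (-(K1 + 1)) ≤ μ := by
    have a1 : log (k : ℝ) ≤ log n := log_le_log (by linarith) (by linarith)
    have a2 : log ((n.choose c : ℝ) / m') ≤ log n * K1 := by
      rw [← z4]
      have := mul_le_mul_of_nonneg_left a1 hK1.le
      linarith only [hA, this]
    have a3 : (n.choose c : ℝ) / m' ≤ (n : ℝ) ^ K1 := by
      rw [rpow_def_of_pos n0]
      exact (log_le_iff_le_exp (by positivity)).1 a2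
    rw [div_le_iff₀ M0] at a3
    have a4 : (0 : ℝ) < (n : ℝ) ^ K1 := by positivity
    rw [rpow_neg n0.le, rpow_add n0, rpow_one, inv_le_iff_one_le_mul₀ (by positivity)]
    refine le_of_mul_le_mul_right ?_ hC
    have a5 : (m' : ℝ) ≤ n * (μ * n.choose c) := by
      have : (1 : ℝ) ≤ n * (1 - e) := by nlinarith only [he, he4, k2', c2', hn]
      have b1 := mul_le_mul_of_nonneg_right this M0'
      have b2 := mul_le_mul_of_nonneg_left m2 n0.le
      linarith only [b1, b2]
    have a6 := mul_le_mul_of_nonneg_left a5 a4.le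
    linarith only [a3, a6]
  have core := h2 n univ (k + 1) Js Ds μ
  rw [card_fin] at core
  have core' := core s1 hp s2 hμ (fun i _ => by
    refine (mul_le_mul_of_nonneg_right ?_ (Nat.cast_nonneg _)).trans (hblk i)
    have := aa_lo npos (k + 1)
    push_cast at this
    linarith only [he, he4, k2', this]) m3 (s3.trans g1)
  push_cast at core'
  rw [show (n : ℝ) - ((k : ℝ) + 1) = c - 1 by linarith only [hn]] at core'
  rw [show (n : ℝ) - k - 1 = c - 1 by linarith only [hn]] at s6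
  have g2 : log n + lg n k d ≤ log (n / μ) := by
    rw [log_div n0.ne' μ0.ne']
    rw [one_div, log_inv] at g1
    linarith
  have g3 : 0 < log (n / ((c : ℝ) - 1)) := by
    refine log_pos ?_
    rw [one_lt_div (by linarith)]
    linarith only [he, he4, k2', hn]
  have fin := fl5_final g3 he he4 (by linarith) M0' y0 (by linarith only [hJs, hq])
    (s6.trans (mul_le_mul_of_nonneg_left g2 (by linarith))) core'
  linarith only [pe, fin]

end Pool.Agent.P.MP_4f3dfd_co.Ex
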