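import Mathlib
import Pool.Agent.P.MP_4f3dfd_co.FDefs
import Pool.Agent.P.MP_4f3dfd_co.ENum
import Pool.Agent.P.MP_4f3dfd_co.FN2
import Pool.Agent.P.MP_4f3dfd_co.FN3
import Pool.Agent.P.MP_4f3dfd_co.FN4

set_option autoImplicit false
set_option linter.unusedSectionVars false
set_option linter.unusedVariables false

namespace Pool.Agent.P.MP_4f3dfd_co.Ex

open Finset Real

variable {V : Type*} [DecidableEq V]

theorem fn8_base {n c d x : ℕ} (h : Par n c d x)
    (ht : 16 * ((n : ℝ) - x) < (x : ℝ) - c + 2) :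
    (1 : ℝ) ≤ (n : ℝ) - x ∧ c + 15 ≤ x ∧ (2 : ℝ) ≤ c ∧ (c : ℝ) + 15 ≤ x ∧
      1 ≤ lam n c d ((n : ℝ) - x + 1) := by
  have hx : (x : ℝ) + 1 ≤ n := by exact_mod_cast h.hx
  have hc : (2 : ℝ) ≤ c := by exact_mod_cast h.hc
  have h1 : (c : ℝ) + 14 < x := by linarith
  have h2 : c + 14 < x := by exact_mod_cast h1
  have h3 : c + 15 ≤ x := h2
  have h4 : (c : ℝ) + 15 ≤ x := by exact_mod_cast h3
  exact ⟨by linarith, h3, hc, h4, h.one_le_lam (by linarith) (by linarith)⟩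

theorem fn8_lognc {n c d x : ℕ} (h : Par n c d x) : 0 < log ((n : ℝ) / c) := by
  have hc : (2 : ℝ) ≤ c := by exact_mod_cast h.hc
  have hn : (c : ℝ) + 2 ≤ n := by exact_mod_cast h.hcn
  apply log_pos
  rw [lt_div_iff₀ (by linarith)]
  linarith

theorem fn8_exp {y : ℝ} (hy : log 2 ≤ y) : 20 * y * exp y * exp (-(7 * y)) ≤ 1 := by
  have h0 : 0 < log 2 := log_pos (by norm_num)
  have h1 : (32 : ℝ) ≤ exp (5 * y) := by
    have e : exp (5 * log 2) = 32 := by
      have : (5 : ℝ) * log 2 = log (2 ^ 5) := by rw [log_pow]; norm_num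
      rw [this, exp_log (by norm_num)]; norm_num
    rw [← e]; exact exp_le_exp.2 (by linarith)
  have h2 : y ≤ exp y := by have := add_one_le_exp y; linarith
  have h3 : exp (5 * y) * exp y * (exp y * exp (-(7 * y))) = 1 := by
    rw [← exp_add, ← exp_add, ← exp_add]
    have : 5 * y + y + (y + -(7 * y)) = 0 := by ring
    rw [this, exp_zero]
  have h4 : 20 * y ≤ exp (5 * y) * exp y :=
    mul_le_mul (by linarith) h2 (by linarith) (exp_pos _).le
  have h5 : 0 ≤ exp y * exp (-(7 * y)) := by positivity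
  have h6 := mul_le_mul_of_nonneg_right h4 h5
  calc 20 * y * exp y * exp (-(7 * y)) = 20 * y * (exp y * exp (-(7 * y))) := by ring
    _ ≤ 1 := by rw [← h3]; exact h6

theorem star_num {n c d x : ℕ} (h : Par n c d x) (h2 : 2 * d ≤ (n - 1).choose (c - 1))
    (ht : 16 * ((n : ℝ) - x) < (x : ℝ) - c + 2)
    (hc : n / ((n : ℝ) - x + 1) ≤ Lam n c d ∨ 2 * log (n / c) ≤ 7 * lg n c d) :
    (c : ℝ) * ((x : ℝ) - c + 2) * (x - 1 - 7 * (n - x)).choose (c - 1) ≤ d * ((n : ℝ) - x) := by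
  obtain ⟨hw, hcx, hc2, hcx', hl1⟩ := fn8_base h ht
  have hL := h.log_two_le h2
  have hlog2 : 0 < log 2 := log_pos (by norm_num)
  have hdec := h.dec (7 * (n - x))
  have hs : ((7 * (n - x) : ℕ) : ℝ) = 7 * ((n : ℝ) - x) := by
    rw [Nat.cast_mul, Nat.cast_sub h.hx.le]; norm_num
  rw [hs] at hdec
  set lp := lam n c d ((n : ℝ) - x + 1) with hlp
  set L1 := lg n c d + log lp with hL1
  have hw0 : (n : ℝ) - x ≠ 0 := by linarith
  have he : L1 * (7 * ((n : ℝ) - x)) / ((n : ℝ) - x) = 7 * L1 := by field_simp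
  rw [he] at hdec
  have hllp : 0 ≤ log lp := log_nonneg hl1
  have hL1' : log 2 ≤ L1 := by rw [hL1]; linarith
  have hd0 : (0 : ℝ) ≤ d := Nat.cast_nonneg d
  set C : ℝ := ((x - 1 - 7 * (n - x)).choose (c - 1) : ℝ) with hC
  have hC0 : 0 ≤ C := Nat.cast_nonneg _
  have hn0 : (0 : ℝ) < n := by linarith
  have ht0 : (0 : ℝ) ≤ (x : ℝ) - c + 2 := by linarith
  have htn : (x : ℝ) - c + 2 ≤ n := by linarith
  have key : (c : ℝ) * ((x : ℝ) - c + 2) * exp (-(7 * L1)) ≤ lp * ((n : ℝ) - x) := by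
    by_cases hcase : n / ((n : ℝ) - x + 1) ≤ Lam n c d
    · have e1 : lp = n / ((n : ℝ) - x + 1) := by rw [hlp]; unfold lam; exact min_eq_left hcase
      have hcw := h.cw hL
      rw [← e1, ← hL1] at hcw
      have hw1 : (0 : ℝ) < (n : ℝ) - x + 1 := by linarith
      have e2 : (n : ℝ) = lp * ((n : ℝ) - x + 1) := by rw [e1]; field_simp
      have hc10 : (c : ℝ) ≤ 10 * lp * L1 := by
        have : (c : ℝ) * ((n : ℝ) - x + 1) ≤ (10 * lp * L1) * ((n : ℝ) - x + 1) := by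
          calc (c : ℝ) * ((n : ℝ) - x + 1) ≤ 10 * n * L1 := hcw
            _ = 10 * (lp * ((n : ℝ) - x + 1)) * L1 := by rw [← e2]
            _ = _ := by ring
        exact le_of_mul_le_mul_right this hw1
      have hlpe : lp ≤ exp L1 := by
        have : exp (log lp) = lp := exp_log (by linarith)
        rw [← this]; exact exp_le_exp.2 (by rw [hL1]; linarith)
      have htw : (x : ℝ) - c + 2 ≤ exp L1 * (2 * ((n : ℝ) - x)) := by
        calc (x : ℝ) - c + 2 ≤ n := htn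
          _ = lp * ((n : ℝ) - x + 1) := e2
          _ ≤ _ := mul_le_mul hlpe (by linarith) hw1.le (exp_pos _).le
      have h3 : (c : ℝ) * ((x : ℝ) - c + 2) ≤ (10 * lp * L1) * (exp L1 * (2 * ((n : ℝ) - x))) :=
        mul_le_mul hc10 htw ht0 (by linarith)
      have h4 := fn8_exp hL1'
      have h5 : 0 ≤ lp * ((n : ℝ) - x) := mul_nonneg (by linarith) (by linarith)
      calc (c : ℝ) * ((x : ℝ) - c + 2) * exp (-(7 * L1))
          ≤ (10 * lp * L1) * (exp L1 * (2 * ((n : ℝ) - x))) * exp (-(7 * L1)) :=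
            mul_le_mul_of_nonneg_right h3 (exp_pos _).le
        _ = (20 * L1 * exp L1 * exp (-(7 * L1))) * (lp * ((n : ℝ) - x)) := by ring
        _ ≤ 1 * (lp * ((n : ℝ) - x)) := mul_le_mul_of_nonneg_right h4 h5
        _ = _ := one_mul _
    · have hc' := hc.resolve_left hcase
      have e1 : lp = Lam n c d := by
        rw [hlp]; unfold lam; exact min_eq_right (not_le.1 hcase).le
      have hp := fn8_lognc h
      have e2 : L1 = lg n c d * log n / log (n / c) := by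
        rw [hL1, e1]; exact h.lg_add_log_Lam
      have hln : 0 ≤ log (n : ℝ) := log_nonneg (by linarith)
      have h3 : 2 * log n ≤ 7 * L1 := by
        rw [e2, ← mul_div_assoc, le_div_iff₀ hp]
        have := mul_le_mul_of_nonneg_right hc' hln
        linarith
      have h4 : (n : ℝ) ^ 2 * exp (-(7 * L1)) ≤ 1 := by
        have e3 : (n : ℝ) ^ 2 = exp (2 * log n) := by
          have : (2 : ℝ) * log n = log ((n : ℝ) ^ 2) := by rw [log_pow]; norm_num
          rw [this, exp_log (by positivity)]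
        rw [e3, ← exp_add, ← exp_zero]
        exact exp_le_exp.2 (by linarith)
      have h5 : (c : ℝ) * ((x : ℝ) - c + 2) ≤ (n : ℝ) ^ 2 := by
        rw [sq]; exact mul_le_mul (by linarith) htn ht0 hn0.le
      calc (c : ℝ) * ((x : ℝ) - c + 2) * exp (-(7 * L1)) ≤ (n : ℝ) ^ 2 * exp (-(7 * L1)) :=
            mul_le_mul_of_nonneg_right h5 (exp_pos _).le
        _ ≤ 1 := h4
        _ ≤ lp * ((n : ℝ) - x) := one_le_mul_of_one_le_of_one_le hl1 hw
  have hct : (0 : ℝ) ≤ c * ((x : ℝ) - c + 2) := mul_nonneg (by linarith) ht0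
  have h7 : (c : ℝ) * ((x : ℝ) - c + 2) * C * lp ≤ d * ((n : ℝ) - x) * lp := by
    calc (c : ℝ) * ((x : ℝ) - c + 2) * C * lp = (c : ℝ) * ((x : ℝ) - c + 2) * (C * lp) := by ring
      _ ≤ (c : ℝ) * ((x : ℝ) - c + 2) * (exp (-(7 * L1)) * d) :=
          mul_le_mul_of_nonneg_left hdec hct
      _ = ((c : ℝ) * ((x : ℝ) - c + 2) * exp (-(7 * L1))) * d := by ring
      _ ≤ (lp * ((n : ℝ) - x)) * d := mul_le_mul_of_nonneg_right key hd0
      _ = _ := by ring
  exact le_of_mul_le_mul_right h7 (by linarith)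

theorem err_num {n c d x : ℕ} (h : Par n c d x) (h2 : 2 * d ≤ (n - 1).choose (c - 1))
    (ht : 16 * ((n : ℝ) - x) < (x : ℝ) - c + 2) :
    (c : ℝ) ^ 3 * ((x : ℝ) - c + 2) ≤ 128 * d ∧ (x : ℝ) - c + 2 ≤ 3 * c * ((n : ℝ) - x) := by
  obtain ⟨hw, hcx, hc2, hcx', hl1⟩ := fn8_base h ht
  have hL := h.log_two_le h2
  have hc2' := h.hc
  constructor
  · have h1 := err_base (q := c - 1) (τ := x - c) (by omega) (by omega)
    have e1 : c - 1 + (x - c) = x - 1 := by omega
    have e2 : c - 1 + 1 = c := by omega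
    rw [e1, e2] at h1
    have h3 : c ^ 3 * (x - 1) ≤ 64 * d := h1.trans (Nat.mul_le_mul_left 64 h.lo')
    have h4 : (c : ℝ) ^ 3 * ((x : ℝ) - 1) ≤ 64 * d := by
      have h5 : ((c ^ 3 * (x - 1) : ℕ) : ℝ) ≤ ((64 * d : ℕ) : ℝ) := by exact_mod_cast h3
      rw [Nat.cast_mul, Nat.cast_sub (by omega : 1 ≤ x)] at h5
      push_cast at h5
      exact h5
    have h6 : (c : ℝ) ^ 3 * ((x : ℝ) - c + 2) ≤ (c : ℝ) ^ 3 * (2 * ((x : ℝ) - 1)) :=
      mul_le_mul_of_nonneg_left (by linarith) (by positivity)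
    linarith
  · have h1 := h.tL
    have hllp := log_nonneg hl1
    have h3 : (1 : ℝ) / 2 ≤ log 2 := by have := log_two_gt_d9; linarith
    have h4 : ((x : ℝ) - c + 1) * (1 / 2) ≤
        ((x : ℝ) - c + 1) * (lg n c d + log (lam n c d ((n : ℝ) - x + 1))) :=
      mul_le_mul_of_nonneg_left (by linarith) (by linarith)
    have h5 : (1 : ℝ) ≤ c * ((n : ℝ) - x) := one_le_mul_of_one_le_of_one_le (by linarith) hw
    nlinarith

theorem t2_width {n c d x : ℕ} (h : Par n c d x) (h2 : 2 * d ≤ (n - 1).choose (c - 1))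
    (ht : 16 * ((n : ℝ) - x) < (x : ℝ) - c + 2)
    (hc : Lam n c d ≤ n / ((n : ℝ) - x + 1)) (hL : 7 * lg n c d ≤ 2 * log (n / c)) :
    n * (log n / log (n / c) * lg n c d) ≤ 2 * (c * ((n : ℝ) - x)) ∧ 8 * c ≤ n ∧
      lg n c d ≤ log n := by
  obtain ⟨hw, hcx, hc2, hcx', hl1⟩ := fn8_base h ht
  have hL2 := h.log_two_le h2
  have hlog2 : 0 < log 2 := log_pos (by norm_num)
  have hp := fn8_lognc h
  have hn0 : (0 : ℝ) < n := by linarith
  have hc0 : (0 : ℝ) < c := by linarith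
  have h8 : (8 : ℝ) * c ≤ n := by
    have e : log 8 = 3 * log 2 := by
      have : (8 : ℝ) = 2 ^ 3 := by norm_num
      rw [this, log_pow]; norm_num
    have h1 : log 8 ≤ log ((n : ℝ) / c) := by rw [e]; linarith
    have h3 := (log_le_log_iff (by norm_num) (div_pos hn0 hc0)).1 h1
    rwa [le_div_iff₀ hc0] at h3
  have e1 : lam n c d ((n : ℝ) - x + 1) = Lam n c d := by unfold lam; exact min_eq_right hc
  have h1 := h.tL
  rw [e1, h.lg_add_log_Lam] at h1
  have hln : 0 ≤ log (n : ℝ) := log_nonneg (by linarith)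
  refine ⟨?_, by exact_mod_cast h8, ?_⟩
  · have e2 : log n / log (n / c) * lg n c d = lg n c d * log n / log ((n : ℝ) / c) := by ring
    rw [e2]
    have h3 : 0 ≤ lg n c d * log n / log ((n : ℝ) / c) :=
      div_nonneg (mul_nonneg (by linarith) hln) hp.le
    have h4 : (n : ℝ) ≤ 2 * ((x : ℝ) - c + 1) := by linarith
    have h5 := mul_le_mul_of_nonneg_right h4 h3
    nlinarith
  · have h3 : log ((n : ℝ) / c) ≤ log n :=
      log_le_log (div_pos hn0 hc0) (div_le_self hn0.le (by linarith))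
    linarith

end Pool.Agent.P.MP_4f3dfd_co.Ex
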