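import Mathlib
import Pool.Agent.P.MP_4f3dfd_co.FDefs
import Pool.Agent.P.MP_4f3dfd_co.ENum

set_option autoImplicit false
set_option linter.unusedSectionVars false
set_option linter.unusedVariables false

namespace Pool.Agent.P.MP_4f3dfd_co.Ex

open Finset Real
open scoped Pointwise

variable {n : ℕ} [NeZero n]

theorem ft1_choose {N l r : ℕ} (hN : 0 < N) (hl : l ≤ N) (j : ℕ) (hj : r + j ≤ l) :
    ((N - (r + j)).choose (l - (r + j)) : ℝ) ≤ (N - r).choose (l - r) * ((l : ℝ) / N) ^ j := by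
  induction j with
  | zero => simp
  | succ j ih =>
    have ih := ih (by omega)
    obtain ⟨p, hp⟩ : ∃ p, l = r + j + 1 + p := ⟨l - (r + j + 1), by omega⟩
    obtain ⟨q, hq⟩ : ∃ q, N = r + j + 1 + q := ⟨N - (r + j + 1), by omega⟩
    have e1 : N - (r + (j + 1)) = q := by omega
    have e2 : l - (r + (j + 1)) = p := by omega
    have e3 : N - (r + j) = q + 1 := by omega
    have e4 : l - (r + j) = p + 1 := by omega
    rw [e3, e4] at ih
    rw [e1, e2]
    have key : ((q : ℝ) + 1) * q.choose p = (q + 1).choose (p + 1) * ((p : ℝ) + 1) := by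
      exact_mod_cast Nat.add_one_mul_choose_eq q p
    have hN' : (0 : ℝ) < N := by exact_mod_cast hN
    have hq1 : (0 : ℝ) < (q : ℝ) + 1 := by positivity
    have hpq : (p : ℝ) ≤ q := by exact_mod_cast (by omega : p ≤ q)
    have hlR : (l : ℝ) = (r + j : ℕ) + (p + 1) := by rw [hp]; push_cast; ring
    have hNR : (N : ℝ) = (r + j : ℕ) + (q + 1) := by rw [hq]; push_cast; ring
    have ha : (0 : ℝ) ≤ (r + j : ℕ) := Nat.cast_nonneg _
    have hfrac : ((p : ℝ) + 1) / ((q : ℝ) + 1) ≤ (l : ℝ) / N := by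
      rw [div_le_div_iff₀ hq1 hN', hlR, hNR]
      nlinarith [mul_le_mul_of_nonneg_left hpq ha]
    have e5 : (q.choose p : ℝ) = (q + 1).choose (p + 1) * (((p : ℝ) + 1) / ((q : ℝ) + 1)) := by
      rw [← mul_div_assoc, eq_div_iff hq1.ne', ← key]; ring
    rw [e5, pow_succ, ← mul_assoc]
    exact mul_le_mul ih hfrac (by positivity) (by positivity)

theorem ft1_count {l : ℕ} (U : Finset (Fin n)) :
    #{X ∈ powersetCard l (univ : Finset (Fin n)) | U ⊆ X} ≤ (n - #U).choose (l - #U) := by
  have h : #(powersetCard (l - #U) ((univ : Finset (Fin n)) \ U)) = (n - #U).choose (l - #U) := by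
    rw [card_powersetCard, card_sdiff_of_subset (subset_univ U), card_univ, Fintype.card_fin]
  rw [← h]
  refine card_le_card_of_injOn (fun X => X \ U) ?_ ?_
  · intro X hX
    rw [mem_coe, mem_filter, mem_powersetCard] at hX
    rw [mem_coe, mem_powersetCard]
    exact ⟨sdiff_subset_sdiff (subset_univ X) Subset.rfl, by
      rw [card_sdiff_of_subset hX.2, hX.1.2]⟩
  · intro X hX Y hY hXY
    rw [mem_coe, mem_filter] at hX hY
    have hXY' : X \ U = Y \ U := hXY
    rw [← sdiff_union_of_subset hX.2, ← sdiff_union_of_subset hY.2, hXY']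

theorem supersets_le {l r j : ℕ} (hr : r ≤ l) (hl : l ≤ n) (U : Finset (Fin n))
    (hU : r + j ≤ #U) : (#{X ∈ powersetCard l (univ : Finset (Fin n)) | U ⊆ X} : ℝ) ≤
      (n - r).choose (l - r) * ((l : ℝ) / n) ^ j := by
  have hn : 0 < n := Nat.pos_of_ne_zero (NeZero.ne n)
  by_cases hj : r + j ≤ l
  · obtain ⟨U', hU', hc⟩ := exists_subset_card_eq hU
    have h1 : #{X ∈ powersetCard l (univ : Finset (Fin n)) | U ⊆ X} ≤
        #{X ∈ powersetCard l (univ : Finset (Fin n)) | U' ⊆ X} := by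
      refine card_le_card ?_
      intro X hX
      rw [mem_filter] at hX ⊢
      exact ⟨hX.1, hU'.trans hX.2⟩
    have h2 := ft1_count (l := l) U'
    rw [hc] at h2
    refine le_trans ?_ (ft1_choose hn hl j hj)
    exact_mod_cast h1.trans h2
  · have h0 : {X ∈ powersetCard l (univ : Finset (Fin n)) | U ⊆ X} = ∅ := by
      refine filter_eq_empty_iff.2 ?_
      intro X hX hUX
      have := card_le_card hUX
      rw [(mem_powersetCard.1 hX).2] at this
      omega
    rw [h0, card_empty, Nat.cast_zero]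
    positivity

theorem hits_le (r : ℕ) (X : Finset (Fin n)) : #(hits r X) ≤ n * (#X).choose r := by
  have h : hits r X ⊆ ((univ : Finset (Fin n)) ×ˢ powersetCard r X).image
      fun z : Fin n × Finset (Fin n) => (-z.1) +ᵥ z.2 := by
    intro P hP
    unfold hits at hP
    rw [mem_filter, mem_powersetCard] at hP
    obtain ⟨⟨_, hc⟩, s, hs⟩ := hP
    refine mem_image.2 ⟨(s, s +ᵥ P), ?_, neg_vadd_vadd s P⟩
    rw [mem_product, mem_powersetCard]
    exact ⟨mem_univ _, hs, by rw [card_vadd_finset, hc]⟩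
  refine (card_le_card h).trans (card_image_le.trans ?_)
  rw [card_product, card_univ, Fintype.card_fin, card_powersetCard]

theorem hits_ge (r : ℕ) (X : Finset (Fin n)) :
    n * (#X).choose r ≤ #(hits r X) + n * ov r X := by
  have h1 := card_filter_add_card_filter_not (s := powersetCard r X)
    (fun P => ∃ s : Fin n, s ≠ 0 ∧ s +ᵥ P ⊆ X)
  rw [card_powersetCard] at h1
  have h2 : #((univ : Finset (Fin n)) ×ˢ
      {P ∈ powersetCard r X | ¬ ∃ s : Fin n, s ≠ 0 ∧ s +ᵥ P ⊆ X}) ≤ #(hits r X) := by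
    refine card_le_card_of_injOn (fun z : Fin n × Finset (Fin n) => z.1 +ᵥ z.2) ?_ ?_
    · rintro ⟨s, Q⟩ hz
      rw [mem_coe, mem_product, mem_filter, mem_powersetCard] at hz
      obtain ⟨_, ⟨hQ, hc⟩, _⟩ := hz
      unfold hits
      rw [mem_coe, mem_filter, mem_powersetCard]
      refine ⟨⟨subset_univ _, by rw [card_vadd_finset]; exact hc⟩, -s, ?_⟩
      rw [neg_vadd_vadd]
      exact hQ
    · rintro ⟨s, Q⟩ hz ⟨s', Q'⟩ hz' he
      rw [mem_coe, mem_product, mem_filter, mem_powersetCard] at hz hz'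
      have he' : s +ᵥ Q = s' +ᵥ Q' := he
      have hQ' : (-s' + s) +ᵥ Q = Q' := by rw [add_vadd, he', neg_vadd_vadd]
      have hs : -s' + s = 0 := by
        by_contra hne
        exact hz.2.2 ⟨-s' + s, hne, by rw [hQ']; exact hz'.2.1.1⟩
      rw [hs, zero_vadd] at hQ'
      have hss : s = s' := (neg_add_eq_zero.1 hs).symm
      exact Prod.ext hss hQ'
  rw [card_product, card_univ, Fintype.card_fin] at h2
  unfold ov
  rw [← h1, mul_add]
  omega

end Pool.Agent.P.MP_4f3dfd_co.Ex
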