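import Mathlib
import Pool.Agent.P.MP_4f3dfd_co.FDefs
import Pool.Agent.P.MP_4f3dfd_co.EF1
import Pool.Agent.P.MP_4f3dfd_co.FT1

set_option autoImplicit false
set_option linter.unusedSectionVars false
set_option linter.unusedVariables false

namespace Pool.Agent.P.MP_4f3dfd_co.Ex

open Finset Real
open scoped Pointwise

variable {n : ℕ} [NeZero n]

theorem mem_nc {l : ℕ} {Q : Finset (Finset (Fin n))} {X : Finset (Fin n)} :
    X ∈ nc l Q ↔ #X = l ∧ ∀ P ∈ Q, ∀ s : Fin n, ¬ s +ᵥ P ⊆ X := by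
  unfold nc
  rw [mem_filter]
  exact ⟨fun h => h.2, fun h => ⟨mem_univ _, h⟩⟩

theorem ft2_vadd {l : ℕ} {Q : Finset (Finset (Fin n))} {X : Finset (Fin n)} (t : Fin n)
    (hX : X ∈ nc l Q) : t +ᵥ X ∈ nc l Q := by
  obtain ⟨h1, h2⟩ := mem_nc.1 hX
  refine mem_nc.2 ⟨by rw [card_vadd_finset, h1], fun P hP s hs => h2 P hP (-t + s) ?_⟩
  have h3 : (-t) +ᵥ (s +ᵥ P) ⊆ (-t) +ᵥ (t +ᵥ X) := vadd_finset_subset_vadd_finset hs
  rwa [neg_vadd_vadd, vadd_vadd] at h3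

theorem ft2_insert (l : ℕ) (Q : Finset (Finset (Fin n))) (P : Finset (Fin n)) :
    nc l (insert P Q) = {X ∈ nc l Q | ¬ ∃ s : Fin n, s +ᵥ P ⊆ X} := by
  ext X
  rw [mem_filter, mem_nc, mem_nc]
  constructor
  · rintro ⟨h1, h2⟩
    exact ⟨⟨h1, fun R hR => h2 R (mem_insert_of_mem hR)⟩,
      fun ⟨s, hs⟩ => h2 P (mem_insert_self _ _) s hs⟩
  · rintro ⟨⟨h1, h2⟩, h3⟩
    refine ⟨h1, fun R hR s hs => ?_⟩
    rcases mem_insert.1 hR with rfl | hR
    · exact h3 ⟨s, hs⟩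
    · exact h2 R hR s hs

theorem nc_empty (l : ℕ) : nc l (∅ : Finset (Finset (Fin n))) = powersetCard l univ := by
  ext X
  rw [mem_nc, mem_powersetCard]
  exact ⟨fun h => ⟨subset_univ _, h.1⟩, fun h => ⟨h.2, fun P hP => absurd hP (notMem_empty _)⟩⟩

theorem pair_nc {l : ℕ} (hl : 1 ≤ l) (Q : Finset (Finset (Fin n))) :
    Pair univ l (nc l Q) (nc (l - 1) Q) := by
  refine ⟨hl, ?_, ?_, ?_⟩
  · intro X hX
    exact mem_powersetCard.2 ⟨subset_univ _, (mem_nc.1 hX).1⟩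
  · intro X hX
    exact mem_powersetCard.2 ⟨subset_univ _, (mem_nc.1 hX).1⟩
  · intro X hX i hi
    obtain ⟨h1, h2⟩ := mem_nc.1 hX
    refine mem_nc.2 ⟨by rw [card_erase_of_mem hi, h1], fun P hP s hs => ?_⟩
    exact h2 P hP s (hs.trans (erase_subset _ _))

theorem reg_nc (l : ℕ) (Q : Finset (Finset (Fin n))) : ∃ d : ℕ, ∀ i, deg (nc l Q) i = d := by
  have key : ∀ u v : Fin n, deg (nc l Q) u ≤ deg (nc l Q) v := by
    intro u v
    unfold deg
    apply card_le_card_of_injOn (fun X => (v - u) +ᵥ X)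
    · intro X hX
      rw [mem_coe, mem_filter] at hX ⊢
      refine ⟨ft2_vadd _ hX.1, mem_vadd_finset.2 ⟨u, hX.2, ?_⟩⟩
      simp
    · intro X _ Y _ h
      exact AddAction.injective _ h
  exact ⟨deg (nc l Q) 0, fun i => le_antisymm (key i 0) (key 0 i)⟩

theorem card_nc_insert (l : ℕ) (Q : Finset (Finset (Fin n))) (P : Finset (Fin n)) :
    #(nc l (insert P Q)) + #{X ∈ nc l Q | ∃ s : Fin n, s +ᵥ P ⊆ X} = #(nc l Q) := by
  rw [ft2_insert, add_comm]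
  exact card_filter_add_card_filter_not _

theorem nc_step {l : ℕ} (hl : l ≤ n) (Q : Finset (Finset (Fin n))) (P : Finset (Fin n)) :
    (#{X ∈ nc l Q | ∃ s : Fin n, s +ᵥ P ⊆ X} : ℝ) ≤ n * (n.choose l * ((l : ℝ) / n) ^ #P) := by
  have h1 : {X ∈ nc l Q | ∃ s : Fin n, s +ᵥ P ⊆ X} ⊆ (univ : Finset (Fin n)).biUnion
      fun s => {X ∈ powersetCard l (univ : Finset (Fin n)) | s +ᵥ P ⊆ X} := by
    intro X hX
    obtain ⟨hX1, s, hs⟩ := mem_filter.1 hX
    exact mem_biUnion.2 ⟨s, mem_univ _, mem_filter.2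
      ⟨mem_powersetCard.2 ⟨subset_univ _, (mem_nc.1 hX1).1⟩, hs⟩⟩
  have h2 := (card_le_card h1).trans card_biUnion_le
  have h3 : (#{X ∈ nc l Q | ∃ s : Fin n, s +ᵥ P ⊆ X} : ℝ) ≤
      ∑ s : Fin n, (#{X ∈ powersetCard l (univ : Finset (Fin n)) | s +ᵥ P ⊆ X} : ℝ) := by
    exact_mod_cast h2
  refine h3.trans ?_
  have h4 : ∀ s ∈ (univ : Finset (Fin n)),
      (#{X ∈ powersetCard l (univ : Finset (Fin n)) | s +ᵥ P ⊆ X} : ℝ) ≤
        n.choose l * ((l : ℝ) / n) ^ #P := by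
    intro s _
    have := supersets_le (l := l) (r := 0) (j := #P) (Nat.zero_le _) hl (s +ᵥ P)
      (by rw [card_vadd_finset, zero_add])
    simpa using this
  refine (sum_le_sum h4).trans ?_
  rw [sum_const, card_univ, Fintype.card_fin, nsmul_eq_mul]

theorem exc_insert (l : ℕ) (Q : Finset (Finset (Fin n))) (P : Finset (Fin n)) :
    exc univ (nc l (insert P Q)) (nc (l - 1) (insert P Q)) +
        ∑ k, #{Y ∈ blk (nc l Q) (nc (l - 1) Q) k | ∃ s : Fin n, s +ᵥ P ⊆ Y} ≤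
      exc univ (nc l Q) (nc (l - 1) Q) + #P * #{X ∈ nc l Q | ∃ s : Fin n, s +ᵥ P ⊆ X} := by
  have h1 : ∀ k : Fin n, #(blk (nc l (insert P Q)) (nc (l - 1) (insert P Q)) k) +
      #{Y ∈ blk (nc l Q) (nc (l - 1) Q) k | ∃ s : Fin n, s +ᵥ P ⊆ Y} ≤
      #(blk (nc l Q) (nc (l - 1) Q) k) +
      #{X ∈ ({X ∈ nc l Q | ∃ s : Fin n, s +ᵥ P ⊆ X} : Finset (Finset (Fin n))) |
        k ∈ X ∧ ¬ ∃ s : Fin n, s +ᵥ P ⊆ X.erase k} := by
    intro k
    have e1 := card_filter_add_card_filter_not (s := blk (nc l Q) (nc (l - 1) Q) k)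
      (fun Y => ∃ s : Fin n, s +ᵥ P ⊆ Y)
    have e2 := card_filter_add_card_filter_not
      (s := blk (nc l (insert P Q)) (nc (l - 1) (insert P Q)) k)
      (fun Y => insert k Y ∈ nc l Q)
    have e3 : #{Y ∈ blk (nc l (insert P Q)) (nc (l - 1) (insert P Q)) k | ¬ insert k Y ∈ nc l Q} ≤
        #{Y ∈ blk (nc l Q) (nc (l - 1) Q) k | ¬ ∃ s : Fin n, s +ᵥ P ⊆ Y} := by
      apply card_le_card
      intro Y hY
      obtain ⟨hY1, hY2⟩ := mem_filter.1 hY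
      unfold blk at hY1
      obtain ⟨hD, hk, _⟩ := mem_filter.1 hY1
      rw [ft2_insert] at hD
      obtain ⟨hD1, hD2⟩ := mem_filter.1 hD
      refine mem_filter.2 ⟨?_, hD2⟩
      unfold blk
      exact mem_filter.2 ⟨hD1, hk, hY2⟩
    have e4 : #{Y ∈ blk (nc l (insert P Q)) (nc (l - 1) (insert P Q)) k | insert k Y ∈ nc l Q} ≤
        #{X ∈ ({X ∈ nc l Q | ∃ s : Fin n, s +ᵥ P ⊆ X} : Finset (Finset (Fin n))) |
          k ∈ X ∧ ¬ ∃ s : Fin n, s +ᵥ P ⊆ X.erase k} := by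
      apply card_le_card_of_injOn (fun Y => insert k Y)
      · intro Y hY
        rw [mem_coe] at hY ⊢
        obtain ⟨hY1, hY2⟩ := mem_filter.1 hY
        unfold blk at hY1
        obtain ⟨hD, hk, hJ⟩ := mem_filter.1 hY1
        rw [ft2_insert] at hD hJ
        obtain ⟨hD1, hD2⟩ := mem_filter.1 hD
        refine mem_filter.2 ⟨mem_filter.2 ⟨hY2, ?_⟩, mem_insert_self _ _, ?_⟩
        · by_contra hh
          exact hJ (mem_filter.2 ⟨hY2, hh⟩)
        · rw [erase_insert hk]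
          exact hD2
      · intro Y hY Z hZ h
        rw [mem_coe] at hY hZ
        have hY1 := (mem_filter.1 hY).1
        have hZ1 := (mem_filter.1 hZ).1
        unfold blk at hY1 hZ1
        have hkY := (mem_filter.1 hY1).2.1
        have hkZ := (mem_filter.1 hZ1).2.1
        have h' : insert k Y = insert k Z := h
        rw [← erase_insert hkY, h', erase_insert hkZ]
    omega
  have h2 : ∑ k : Fin n,
      #{X ∈ ({X ∈ nc l Q | ∃ s : Fin n, s +ᵥ P ⊆ X} : Finset (Finset (Fin n))) |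
        k ∈ X ∧ ¬ ∃ s : Fin n, s +ᵥ P ⊆ X.erase k} ≤
      #P * #{X ∈ nc l Q | ∃ s : Fin n, s +ᵥ P ⊆ X} := by
    have e := sum_card_bipartiteAbove_eq_sum_card_bipartiteBelow
      (s := (univ : Finset (Fin n)))
      (t := ({X ∈ nc l Q | ∃ s : Fin n, s +ᵥ P ⊆ X} : Finset (Finset (Fin n))))
      (r := fun k X => k ∈ X ∧ ¬ ∃ s : Fin n, s +ᵥ P ⊆ X.erase k)
    unfold bipartiteAbove bipartiteBelow at e
    rw [e]
    rw [mul_comm, ← smul_eq_mul, ← sum_const]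
    apply sum_le_sum
    intro X hX
    obtain ⟨_, s, hs⟩ := mem_filter.1 hX
    rw [← card_vadd_finset s P]
    apply card_le_card
    intro k hk
    have hk2 := (mem_filter.1 hk).2.2
    by_contra hh
    exact hk2 ⟨s, subset_erase.2 ⟨hs, hh⟩⟩
  unfold exc
  rw [← sum_add_distrib]
  refine (sum_le_sum fun k _ => h1 k).trans ?_
  rw [sum_add_distrib]
  exact Nat.add_le_add_left h2 _

end Pool.Agent.P.MP_4f3dfd_co.Ex
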