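import Mathlib
import Pool.Agent.P.MP_4f3dfd_co.FDefs
import Pool.Agent.P.MP_4f3dfd_co.ENum

set_option autoImplicit false
set_option linter.unusedSectionVars false
set_option linter.unusedVariables false

namespace Pool.Agent.P.MP_4f3dfd_co.Ex

open Finset Real
open scoped Pointwise

variable {n : ℕ} [NeZero n]

theorem ft3_greedy {s : Fin n} (hs : s ≠ 0) (k : ℕ) : ∀ I : Finset (Fin n), 3 * k ≤ #I →
    ∃ F ⊆ I, #F = k ∧ ∀ a ∈ F, ∀ b ∈ F, a ≠ s + b := by
  induction k with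
  | zero => intro I _; exact ⟨∅, empty_subset _, rfl, by simp⟩
  | succ k ih =>
    intro I hI
    obtain ⟨f, hf⟩ : I.Nonempty := card_pos.1 (by omega)
    have h3 : #({f, s + f, f - s} : Finset (Fin n)) ≤ 3 := card_le_three
    have h4 : 3 * k ≤ #(I \ {f, s + f, f - s}) := by
      have := le_card_sdiff ({f, s + f, f - s} : Finset (Fin n)) I
      omega
    obtain ⟨F, hF, hc, hp⟩ := ih _ h4
    have hn : ∀ x ∈ F, x ≠ f ∧ x ≠ s + f ∧ x ≠ f - s := by
      intro x hx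
      have := (mem_sdiff.1 (hF hx)).2
      simpa only [mem_insert, mem_singleton, not_or] using this
    have hfF : f ∉ F := fun h => (hn f h).1 rfl
    refine ⟨insert f F, ?_, by rw [card_insert_of_notMem hfF, hc], ?_⟩
    · exact insert_subset hf (hF.trans sdiff_subset)
    · intro a ha b hb
      rcases mem_insert.1 ha with rfl | ha'
      · rcases mem_insert.1 hb with rfl | hb'
        · intro h
          exact hs (by simpa using h)
        · intro h
          exact (hn b hb').2.2 (by rw [h]; abel)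
      · rcases mem_insert.1 hb with rfl | hb'
        · exact (hn a ha').2.1
        · exact hp a ha' b hb'

theorem ft3_count {ρ : ℕ} {s : Fin n} (hs : s ≠ 0) :
    #{P ∈ powersetCard (6 * ρ) (univ : Finset (Fin n)) | 3 * ρ ≤ #(P ∩ (s +ᵥ P))} ≤
      n.choose (5 * ρ) * (5 * ρ).choose ρ := by
  have hsub : {P ∈ powersetCard (6 * ρ) (univ : Finset (Fin n)) | 3 * ρ ≤ #(P ∩ (s +ᵥ P))} ⊆
      (powersetCard (5 * ρ) (univ : Finset (Fin n))).biUnion
        fun R => (powersetCard ρ (s +ᵥ R)).image fun F => R ∪ F := by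
    intro P hP
    obtain ⟨hP1, hP2⟩ := mem_filter.1 hP
    have hPc : #P = 6 * ρ := (mem_powersetCard.1 hP1).2
    obtain ⟨F, hF, hc, hp⟩ := ft3_greedy hs ρ _ hP2
    have hFP : F ⊆ P := hF.trans inter_subset_left
    refine mem_biUnion.2 ⟨P \ F, mem_powersetCard.2 ⟨subset_univ _, ?_⟩,
      mem_image.2 ⟨F, mem_powersetCard.2 ⟨?_, hc⟩, sdiff_union_of_subset hFP⟩⟩
    · rw [card_sdiff_of_subset hFP]; omega
    · intro f hf
      obtain ⟨p, hp1, hp2⟩ := mem_vadd_finset.1 (mem_inter.1 (hF hf)).2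
      refine mem_vadd_finset.2 ⟨p, mem_sdiff.2 ⟨hp1, fun h => hp f hf p h ?_⟩, hp2⟩
      rw [← hp2, vadd_eq_add]
  refine (card_le_card hsub).trans (card_biUnion_le.trans ?_)
  refine (sum_le_card_nsmul _ _ ((5 * ρ).choose ρ) ?_).trans ?_
  · intro R hR
    refine card_image_le.trans ?_
    rw [card_powersetCard, card_vadd_finset, (mem_powersetCard.1 hR).2]
  · rw [card_powersetCard, card_univ, Fintype.card_fin, smul_eq_mul]

theorem ft3_choose {ρ : ℕ} (h : 12 * ρ ≤ n) (j : ℕ) (hj : j ≤ 6 * ρ) :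
    (n.choose (6 * ρ - j) : ℝ) ≤ n.choose (6 * ρ) * (12 * ρ / n) ^ j := by
  have hn : (0 : ℝ) < n := by exact_mod_cast Nat.pos_of_ne_zero (NeZero.ne n)
  induction j with
  | zero => simp
  | succ j ih =>
    have ih := ih (by omega)
    obtain ⟨i, hi⟩ : ∃ i, 6 * ρ - (j + 1) = i := ⟨_, rfl⟩
    have e : 6 * ρ - j = i + 1 := by omega
    rw [hi]
    rw [e] at ih
    have h1 : (n.choose (i + 1) : ℝ) * (i + 1) = n.choose i * ((n : ℝ) - i) := by
      have := Nat.choose_succ_right_eq n i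
      have h2 : i ≤ n := by omega
      exact_mod_cast (by rw [← Nat.cast_sub h2]; exact_mod_cast this :
        (n.choose (i + 1) : ℝ) * (i + 1) = n.choose i * ((n : ℝ) - i))
    have h2 : (i : ℝ) + 1 ≤ 6 * ρ := by exact_mod_cast (by omega : i + 1 ≤ 6 * ρ)
    have h3 : (12 : ℝ) * ρ ≤ n := by exact_mod_cast h
    have h4 : (n.choose i : ℝ) ≤ n.choose (i + 1) * (12 * ρ / n) := by
      rw [← mul_div_assoc, le_div_iff₀ hn]
      have a0 : (0 : ℝ) ≤ n.choose i := Nat.cast_nonneg _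
      have a1 : (0 : ℝ) ≤ n.choose (i + 1) := Nat.cast_nonneg _
      have b1 : (n.choose i : ℝ) * n ≤ n.choose i * (2 * ((n : ℝ) - i)) :=
        mul_le_mul_of_nonneg_left (by linarith) a0
      have b2 : (n.choose (i + 1) : ℝ) * (2 * ((i : ℝ) + 1)) ≤ n.choose (i + 1) * (12 * ρ) :=
        mul_le_mul_of_nonneg_left (by linarith) a1
      linarith
    calc (n.choose i : ℝ) ≤ n.choose (i + 1) * (12 * ρ / n) := h4
      _ ≤ n.choose (6 * ρ) * (12 * ρ / n) ^ j * (12 * ρ / n) :=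
        mul_le_mul_of_nonneg_right ih (by positivity)
      _ = _ := by rw [pow_succ, mul_assoc]

/-- Few sets overlap much with a fixed translate of themselves. -/
theorem few_overlap {ρ : ℕ} (h : 12 * ρ ≤ n) {s : Fin n} (hs : s ≠ 0) :
    (#{P ∈ powersetCard (6 * ρ) (univ : Finset (Fin n)) | 3 * ρ ≤ #(P ∩ (s +ᵥ P))} : ℝ) ≤
      n.choose (6 * ρ) * (2 * ((6 * ρ : ℕ) : ℝ) ^ 2 / n) ^ ρ := by
  have hn : (0 : ℝ) < n := by exact_mod_cast Nat.pos_of_ne_zero (NeZero.ne n)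
  have h1 : (#{P ∈ powersetCard (6 * ρ) (univ : Finset (Fin n)) | 3 * ρ ≤ #(P ∩ (s +ᵥ P))} : ℝ) ≤
      n.choose (5 * ρ) * (5 * ρ).choose ρ := by exact_mod_cast ft3_count (ρ := ρ) hs
  have h2 := ft3_choose h ρ (by omega)
  rw [show 6 * ρ - ρ = 5 * ρ by omega] at h2
  have h3 : ((5 * ρ).choose ρ : ℝ) ≤ (6 * ρ : ℝ) ^ ρ := by
    have : (5 * ρ).choose ρ ≤ (6 * ρ) ^ ρ :=
      (Nat.choose_le_pow _ _).trans (Nat.pow_le_pow_left (by omega) _)
    exact_mod_cast this
  refine h1.trans ((mul_le_mul h2 h3 (Nat.cast_nonneg _) (by positivity)).trans (le_of_eq ?_))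
  rw [mul_assoc, ← mul_pow]
  congr 2
  push_cast
  ring

end Pool.Agent.P.MP_4f3dfd_co.Ex
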