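import Mathlib
import Pool.Agent.P.MP_4f3dfd_co.FDefs
import Pool.Agent.P.MP_4f3dfd_co.ENum
import Pool.Agent.P.MP_4f3dfd_co.FT1
import Pool.Agent.P.MP_4f3dfd_co.FT3

set_option autoImplicit false
set_option linter.unusedSectionVars false
set_option linter.unusedVariables false

namespace Pool.Agent.P.MP_4f3dfd_co.Ex

open Finset Real
open scoped Pointwise

variable {n : ℕ} [NeZero n]

theorem ft4_ov (r : ℕ) (X : Finset (Fin n)) :
    (ov r X : ℝ) ≤ ∑ s ∈ (univ : Finset (Fin n)).erase 0,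
      ∑ P ∈ powersetCard r (univ : Finset (Fin n)), if P ∪ (s +ᵥ P) ⊆ X then (1 : ℝ) else 0 := by
  have h : {P ∈ powersetCard r X | ∃ s : Fin n, s ≠ 0 ∧ s +ᵥ P ⊆ X} ⊆
      ((univ : Finset (Fin n)).erase 0).biUnion fun s =>
        {P ∈ powersetCard r (univ : Finset (Fin n)) | P ∪ (s +ᵥ P) ⊆ X} := by
    intro P hP
    obtain ⟨h1, s, hs, h2⟩ := mem_filter.1 hP
    obtain ⟨h3, h4⟩ := mem_powersetCard.1 h1
    exact mem_biUnion.2 ⟨s, mem_erase.2 ⟨hs, mem_univ _⟩, mem_filter.2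
      ⟨mem_powersetCard.2 ⟨subset_univ _, h4⟩, union_subset h3 h2⟩⟩
  have h2 := (card_le_card h).trans card_biUnion_le
  simp only [sum_boole]
  exact_mod_cast h2

theorem ft4_shift {l ρ : ℕ} (h : 12 * ρ ≤ n) (hr : 6 * ρ ≤ l) (hl : l ≤ n) {s : Fin n}
    (hs : s ≠ 0) :
    ∑ P ∈ powersetCard (6 * ρ) (univ : Finset (Fin n)),
      (#{X ∈ powersetCard l (univ : Finset (Fin n)) | P ∪ (s +ᵥ P) ⊆ X} : ℝ) ≤
      n.choose l * l.choose (6 * ρ) * eps n l ρ := by
  have hD : (0 : ℝ) ≤ (n - 6 * ρ).choose (l - 6 * ρ) := Nat.cast_nonneg _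
  have h1 : ∀ P ∈ powersetCard (6 * ρ) (univ : Finset (Fin n)),
      (#{X ∈ powersetCard l (univ : Finset (Fin n)) | P ∪ (s +ᵥ P) ⊆ X} : ℝ) ≤
        (n - 6 * ρ).choose (l - 6 * ρ) * (((l : ℝ) / n) ^ (3 * ρ) +
          if 3 * ρ ≤ #(P ∩ (s +ᵥ P)) then (1 : ℝ) else 0) := by
    intro P hP
    have hc := (mem_powersetCard.1 hP).2
    have hu := card_union_add_card_inter P (s +ᵥ P)
    rw [card_vadd_finset, hc] at hu
    split_ifs with hb
    · have h2 := supersets_le (j := 0) hr hl (P ∪ (s +ᵥ P))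
        (hc.ge.trans (card_le_card subset_union_left))
      rw [pow_zero] at h2
      exact h2.trans (mul_le_mul_of_nonneg_left (le_add_of_nonneg_left (by positivity)) hD)
    · rw [add_zero]
      exact supersets_le hr hl _ (by omega)
  refine (sum_le_sum h1).trans ?_
  have e : (n.choose l : ℝ) * l.choose (6 * ρ) =
      n.choose (6 * ρ) * (n - 6 * ρ).choose (l - 6 * ρ) := by
    exact_mod_cast Nat.choose_mul hr
  rw [← mul_sum, sum_add_distrib, sum_const, sum_boole, card_powersetCard, card_univ,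
    Fintype.card_fin, nsmul_eq_mul, e, eps, mul_comm (n.choose (6 * ρ) : ℝ) (Nat.cast _), mul_assoc]
  refine mul_le_mul_of_nonneg_left ?_ hD
  rw [mul_add]
  exact add_le_add le_rfl (few_overlap h hs)

theorem ft4_eps (l ρ : ℕ) : 0 ≤ eps n l ρ := by
  unfold eps; positivity

theorem sum_ov {l ρ : ℕ} (h : 12 * ρ ≤ n) (hr : 6 * ρ ≤ l) (hl : l ≤ n) :
    ∑ X ∈ powersetCard l (univ : Finset (Fin n)), (ov (6 * ρ) X : ℝ) ≤
      n.choose l * l.choose (6 * ρ) * (n * eps n l ρ) := by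
  refine (sum_le_sum fun X _ => ft4_ov (6 * ρ) X).trans ?_
  rw [sum_comm]
  have h1 : ∀ s ∈ (univ : Finset (Fin n)).erase 0,
      (∑ X ∈ powersetCard l (univ : Finset (Fin n)),
        ∑ P ∈ powersetCard (6 * ρ) (univ : Finset (Fin n)),
          if P ∪ (s +ᵥ P) ⊆ X then (1 : ℝ) else 0) ≤
        n.choose l * l.choose (6 * ρ) * eps n l ρ := by
    intro s hs
    rw [sum_comm]
    simp only [sum_boole]
    exact ft4_shift h hr hl (mem_erase.1 hs).1
  refine (sum_le_card_nsmul _ _ _ h1).trans ?_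
  have h2 : (#((univ : Finset (Fin n)).erase 0) : ℝ) ≤ n := by
    exact_mod_cast card_erase_le.trans (by simp)
  have h3 := ft4_eps (n := n) l ρ
  rw [nsmul_eq_mul, mul_left_comm _ (n : ℝ)]
  exact mul_le_mul_of_nonneg_right h2 (by positivity)

theorem eps_mono {l l' : ℕ} (h : l ≤ l') (ρ : ℕ) : eps n l ρ ≤ eps n l' ρ := by
  unfold eps
  gcongr

theorem pow_le_eps {l : ℕ} (hl : l ≤ n) (ρ : ℕ) : ((l : ℝ) / n) ^ (6 * ρ) ≤ eps n l ρ := by
  have h1 : (l : ℝ) / n ≤ 1 := div_le_one_of_le₀ (by exact_mod_cast hl) (Nat.cast_nonneg _)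
  exact (pow_le_pow_of_le_one (by positivity) h1 (by omega)).trans
    (le_add_of_nonneg_right (by positivity))

theorem ent_diff {C z z' : ℝ} (hC : 0 < C) (h0 : 0 < z') (h1 : z' ≤ z) :
    z * (1 + log (C / z)) - z' * (1 + log (C / z')) ≤ (z - z') * log (C / z') := by
  have hz : 0 < z := h0.trans_le h1
  have h2 := mul_le_mul_of_nonneg_left (log_le_sub_one_of_pos (div_pos h0 hz)) hz.le
  rw [log_div h0.ne' hz.ne', mul_sub z (z' / z), mul_div_cancel₀ _ hz.ne'] at h2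
  rw [log_div hC.ne' hz.ne', log_div hC.ne' h0.ne']
  nlinarith

theorem ent_mono {C z z' : ℝ} (h0 : 0 ≤ z') (h1 : z' ≤ z) (h2 : z ≤ C) :
    z' * (1 + log (C / z')) ≤ z * (1 + log (C / z)) := by
  rcases (h0.trans h1).eq_or_lt with rfl | hz
  · rw [le_antisymm h1 h0]
  have h3 : 0 ≤ log (C / z) := log_nonneg ((one_le_div hz).2 h2)
  rcases h0.eq_or_lt with rfl | h0
  · rw [zero_mul]; positivity
  have hC : 0 < C := hz.trans_le h2
  have h4 := mul_le_mul_of_nonneg_left (log_le_sub_one_of_pos (div_pos hz h0)) h0.le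
  rw [log_div hz.ne' h0.ne', mul_sub z' (z / z'), mul_div_cancel₀ _ h0.ne'] at h4
  have h5 := mul_nonneg (sub_nonneg.2 h1) h3
  rw [log_div hC.ne' hz.ne'] at h5 ⊢
  rw [log_div hC.ne' h0.ne']
  nlinarith

end Pool.Agent.P.MP_4f3dfd_co.Ex
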