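import Mathlib
import Pool.Agent.P.MP_4f3dfd_co.FDefs
import Pool.Agent.P.MP_4f3dfd_co.EF1
import Pool.Agent.P.MP_4f3dfd_co.ENum
import Pool.Agent.P.MP_4f3dfd_co.FT1
import Pool.Agent.P.MP_4f3dfd_co.FT2
import Pool.Agent.P.MP_4f3dfd_co.FT4

set_option autoImplicit false
set_option linter.unusedSectionVars false
set_option linter.unusedVariables false

namespace Pool.Agent.P.MP_4f3dfd_co.Ex

open Finset Real
open scoped Pointwise

variable {n : ℕ} [NeZero n]

theorem ft5_filter {l r : ℕ} {Q : Finset (Finset (Fin n))} {X : Finset (Fin n)}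
    (hX : X ∈ nc l Q) :
    {P ∈ powersetCard r (univ : Finset (Fin n)) \ Q | ∃ s : Fin n, s +ᵥ P ⊆ X} = hits r X := by
  ext P
  simp only [hits, mem_filter, mem_sdiff]
  constructor
  · rintro ⟨⟨h1, _⟩, h2⟩
    exact ⟨h1, h2⟩
  · rintro ⟨h1, s, hs⟩
    exact ⟨⟨h1, fun hP => (mem_nc.1 hX).2 P hP s hs⟩, s, hs⟩

theorem ft5_swap {l r : ℕ} {Q : Finset (Finset (Fin n))} {T : Finset (Finset (Fin n))}
    (hT : T ⊆ nc l Q) :
    ∑ P ∈ powersetCard r (univ : Finset (Fin n)) \ Q, #{Y ∈ T | ∃ s : Fin n, s +ᵥ P ⊆ Y} =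
      ∑ Y ∈ T, #(hits r Y) := by
  have h : ∀ Y ∈ T, #(hits r Y) =
      ∑ P ∈ powersetCard r (univ : Finset (Fin n)) \ Q, if ∃ s : Fin n, s +ᵥ P ⊆ Y then 1 else 0 := by
    intro Y hY
    rw [← ft5_filter (hT hY), card_filter]
  rw [sum_congr rfl h, sum_comm]
  refine sum_congr rfl fun P _ => ?_
  rw [card_filter]

theorem ft5_blk_sub (J D : Finset (Finset (Fin n))) (k : Fin n) : blk J D k ⊆ D :=
  filter_subset _ _

theorem ft5_ov_blk {l r : ℕ} (hl1 : 1 ≤ l) (hl : l ≤ n) (Q : Finset (Finset (Fin n))) :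
    ∑ k, ∑ Y ∈ blk (nc l Q) (nc (l - 1) Q) k, (ov r Y : ℝ) ≤
      ((n : ℝ) - l + 1) * ∑ Y ∈ powersetCard (l - 1) (univ : Finset (Fin n)), (ov r Y : ℝ) := by
  have h1 : ∀ k : Fin n, ∑ Y ∈ blk (nc l Q) (nc (l - 1) Q) k, (ov r Y : ℝ) ≤
      ∑ Y ∈ powersetCard (l - 1) (univ : Finset (Fin n)), if k ∉ Y then (ov r Y : ℝ) else 0 := by
    intro k
    rw [← sum_filter]
    refine sum_le_sum_of_subset_of_nonneg ?_ fun _ _ _ => by positivity
    intro Y hY
    have h := mem_filter.1 hY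
    refine mem_filter.2 ⟨mem_powersetCard.2 ⟨subset_univ _, (mem_nc.1 h.1).1⟩, h.2.1⟩
  refine (sum_le_sum fun k _ => h1 k).trans ?_
  rw [sum_comm, mul_sum]
  refine sum_le_sum fun Y hY => le_of_eq ?_
  have hc := (mem_powersetCard.1 hY).2
  rw [← sum_filter, sum_const, nsmul_eq_mul]
  have e : ({k ∈ (univ : Finset (Fin n)) | k ∉ Y}) = Yᶜ := by
    ext k; simp
  rw [e, card_compl, Fintype.card_fin, hc, Nat.cast_sub (by omega), Nat.cast_sub hl1]
  push_cast; ring

theorem ft5_one {C z Δ A B kil E r : ℝ} (hC : 0 < C) (hz : 0 < z) (hΔ0 : 0 ≤ Δ)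
    (hΔ : 96 * Δ ≤ z) (hr : 0 ≤ r) (hA : A = 8 * r)
    (h1 : A * ((z - Δ) * (1 + log (C / (z - Δ)))) < E) (h2 : E + kil ≤ B + r * Δ) :
    A * (z * (1 + log (C / z))) - B ≤ A * (log (C / z) + 3 / 8) * Δ - kil := by
  have hz' : 0 < z - Δ := by linarith
  have h3 := ent_diff hC hz' (by linarith : z - Δ ≤ z)
  have h4 : log (C / (z - Δ)) ≤ log (C / z) + 1 / 4 := by
    have e : C / (z - Δ) = C / z * (z / (z - Δ)) := by field_simp
    rw [e, log_mul (by positivity) (by positivity)]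
    have h5 := log_le_sub_one_of_pos (show 0 < z / (z - Δ) by positivity)
    have h6 : z / (z - Δ) ≤ 5 / 4 := by
      rw [div_le_iff₀ hz']; linarith
    linarith
  have hA0 : 0 ≤ A := by rw [hA]; positivity
  have h7 : (z - (z - Δ)) * log (C / (z - Δ)) ≤ Δ * (log (C / z) + 1 / 4) := by
    rw [sub_sub_cancel]; exact mul_le_mul_of_nonneg_left h4 hΔ0
  have h8 := mul_le_mul_of_nonneg_left (h3.trans h7) hA0
  have e2 : A * (log (C / z) + 3 / 8) * Δ = A * (Δ * (log (C / z) + 1 / 4)) + r * Δ := by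
    rw [hA]; ring
  rw [e2]
  rw [mul_sub] at h8
  linarith

theorem ft5_fin {z h0 h1 A B L r l s SD SK : ℝ} (hz : 0 < z) (hh0 : 0 < h0) (hl : 0 < l)
    (hr : 1 ≤ r) (hA : A = 8 * r) (hL : 0 ≤ L) (hrl : 8 * r * (1 + L) ≤ l)
    (hh1 : h1 * l = h0 * (l - r)) (hs : h1 ≤ s) (hB : B ≤ A * (z * (1 + L)))
    (hsum : s * (A * (z * (1 + L)) - B) ≤ A * (L + 3 / 8) * SD - SK)
    (hSD : SD ≤ z * h0) (hSK : B * h1 - z * h0 / 2 ≤ SK) : False := by
  have hA0 : 0 ≤ A := by rw [hA]; positivity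
  have h1' : h1 * (A * (z * (1 + L)) - B) ≤ s * (A * (z * (1 + L)) - B) :=
    mul_le_mul_of_nonneg_right hs (by linarith)
  have h2 : A * (L + 3 / 8) * SD ≤ A * (L + 3 / 8) * (z * h0) :=
    mul_le_mul_of_nonneg_left hSD (by positivity)
  have h3 : h1 * (A * (z * (1 + L))) ≤ A * (L + 3 / 8) * (z * h0) + z * h0 / 2 := by
    have e : h1 * (A * (z * (1 + L)) - B) = h1 * (A * (z * (1 + L))) - B * h1 := by ring
    linarith
  have e1 : h1 = h0 * (1 - r / l) := by
    field_simp; linarith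
  have h4 : r / l * (1 + L) ≤ 1 / 8 := by
    rw [div_mul_eq_mul_div, div_le_iff₀ hl]; linarith
  have hzh : 0 < z * h0 := by positivity
  have h5 : (z * h0) * (A * ((1 + L) - r / l * (1 + L))) ≤ (z * h0) * (A * (L + 3 / 8) + 1 / 2) := by
    have e2 : (z * h0) * (A * ((1 + L) - r / l * (1 + L))) = h1 * (A * (z * (1 + L))) := by
      rw [e1]; ring
    rw [e2]; linarith
  have h6 := le_of_mul_le_mul_left h5 hzh
  have h7 : A * (r / l * (1 + L)) ≤ A * (1 / 8) := mul_le_mul_of_nonneg_left h4 hA0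
  have e3 : A * ((1 + L) - r / l * (1 + L)) = A * (L + 3 / 8) + A * (5 / 8) - A * (r / l * (1 + L)) := by
    ring
  rw [e3] at h6
  linarith

/-- A good family of patterns with many avoiders can be extended. -/
theorem t2_step {l ρ : ℕ} {μ : ℝ} (hρ : 1 ≤ ρ) (h12 : 12 * ρ ≤ n) (hl : l ≤ n) (hμ0 : 0 < μ)
    (hμ1 : μ ≤ 1) (hA : 8 * ((6 * ρ : ℕ) : ℝ) * (1 + log (1 / μ)) ≤ l)
    (hε : 2 * l * n * eps n l ρ ≤ μ)
    {Q : Finset (Finset (Fin n))} (hQ : Good l (6 * ρ) Q) (hz : μ * n.choose l ≤ #(nc l Q)) :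
    ∃ P ∉ Q, Good l (6 * ρ) (insert P Q) := by
  by_contra hno
  have hno' : ∀ P ∉ Q, ¬ Good l (6 * ρ) (insert P Q) := fun P hP hg => hno ⟨P, hP, hg⟩
  set r : ℕ := 6 * ρ with hrdef
  have hr1 : (6 : ℝ) ≤ r := by
    have : 6 ≤ r := by omega
    exact_mod_cast this
  have hlog : 0 ≤ log (1 / μ) := log_nonneg (by rw [le_div_iff₀ hμ0]; linarith)
  have h8r : 8 * (r : ℝ) ≤ l := by nlinarith only [hA, hlog]
  have hl48 : (48 : ℝ) ≤ l := by linarith
  have hl0 : (0 : ℝ) < l := by linarith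
  have hrl : 8 * r ≤ l := by exact_mod_cast h8r
  have hl1 : 1 ≤ l := by omega
  have hn0 : (0 : ℝ) < n := by exact_mod_cast Nat.pos_of_ne_zero (NeZero.ne n)
  have hC : (0 : ℝ) < n.choose l := by exact_mod_cast Nat.choose_pos hl
  set C : ℝ := (n.choose l : ℝ) with hCdef
  set z : ℝ := (#(nc l Q) : ℝ) with hzdef
  have hz0 : 0 < z := lt_of_lt_of_le (by positivity) hz
  have hsubJ : nc l Q ⊆ powersetCard l (univ : Finset (Fin n)) := (pair_nc hl1 Q).hJ
  have hzC : z ≤ C := by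
    have := card_le_card hsubJ
    rw [card_powersetCard, card_univ, Fintype.card_fin] at this
    rw [hzdef, hCdef]
    exact_mod_cast this
  have hL0 : 0 ≤ log (C / z) := log_nonneg (by rw [le_div_iff₀ hz0]; linarith)
  have hL1 : log (C / z) ≤ log (1 / μ) := by
    refine log_le_log (by positivity) ?_
    rw [div_le_div_iff₀ hz0 hμ0]; linarith
  have hne : (n : ℝ) * eps n l ρ ≤ μ / (2 * l) := by
    rw [le_div_iff₀ (by positivity)]; linarith
  have hCe : C * ((n : ℝ) * eps n l ρ) ≤ z / (2 * l) := by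
    have h1 := mul_le_mul_of_nonneg_left hne hC.le
    have h2 : C * (μ / (2 * l)) = μ * C / (2 * l) := by ring
    have h3 : μ * C / (2 * l) ≤ z / (2 * l) := div_le_div_of_nonneg_right hz (by positivity)
    linarith
  set S := powersetCard r (univ : Finset (Fin n)) \ Q with hS
  set B : ℝ := (exc univ (nc l Q) (nc (l - 1) Q) : ℝ) with hBdef
  have hone : ∀ P ∈ S, 8 * (r : ℝ) * (z * (1 + log (C / z))) - B ≤
      8 * (r : ℝ) * (log (C / z) + 3 / 8) * (#{X ∈ nc l Q | ∃ s : Fin n, s +ᵥ P ⊆ X} : ℝ) -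
        ((∑ k, #{Y ∈ blk (nc l Q) (nc (l - 1) Q) k | ∃ s : Fin n, s +ᵥ P ⊆ Y} : ℕ) : ℝ) := by
    intro P hP
    have hP' := mem_sdiff.1 hP
    have hPr : #P = r := (mem_powersetCard.1 hP'.1).2
    have hbad := hno' P hP'.2
    have hall : ∀ P' ∈ insert P Q, #P' = r := by
      intro P' h
      rcases mem_insert.1 h with h | h
      · rw [h, hPr]
      · exact hQ.1 P' h
    have hlt := not_le.1 fun h => hbad ⟨hall, h⟩
    have hcard : (#(nc l (insert P Q)) : ℝ) =
        z - (#{X ∈ nc l Q | ∃ s : Fin n, s +ᵥ P ⊆ X} : ℝ) := by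
      have := card_nc_insert l Q P
      rw [hzdef, ← this]; push_cast; ring
    rw [hcard] at hlt
    have hstep := nc_step hl Q P
    rw [hPr] at hstep
    have hpe := pow_le_eps hl ρ
    have hΔ : 96 * (#{X ∈ nc l Q | ∃ s : Fin n, s +ᵥ P ⊆ X} : ℝ) ≤ z := by
      have h1 : (n : ℝ) * (C * ((l : ℝ) / n) ^ r) ≤ C * ((n : ℝ) * eps n l ρ) := by
        have := mul_le_mul_of_nonneg_left hpe (mul_pos hC hn0).le
        calc (n : ℝ) * (C * ((l : ℝ) / n) ^ r) = C * n * ((l : ℝ) / n) ^ r := by ring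
          _ ≤ C * n * eps n l ρ := this
          _ = _ := by ring
      have h2 : z / (2 * l) ≤ z / 96 := div_le_div_of_nonneg_left hz0.le (by norm_num) (by linarith)
      linarith
    have hexc := exc_insert l Q P
    rw [hPr] at hexc
    refine ft5_one hC hz0 (by positivity) hΔ (by positivity) rfl hlt ?_
    rw [hBdef]
    exact_mod_cast hexc
  have hsum := sum_le_sum hone
  rw [sum_const, nsmul_eq_mul, sum_sub_distrib, ← mul_sum] at hsum
  have hh0 : (0 : ℝ) < n * (l.choose r : ℝ) := by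
    have : (0 : ℝ) < l.choose r := by exact_mod_cast Nat.choose_pos (by omega)
    positivity
  have hh1 : ((l - 1).choose r : ℝ) * l = (l.choose r : ℝ) * ((l : ℝ) - r) := by
    have h := Nat.choose_mul_succ_eq (l - 1) r
    rw [Nat.sub_add_cancel hl1] at h
    rw [← Nat.cast_sub (by omega)]
    exact_mod_cast h
  have hmono : ((l - 1).choose r : ℝ) ≤ l.choose r := by
    exact_mod_cast Nat.choose_le_choose r (Nat.sub_le l 1)
  refine ft5_fin (h0 := n * (l.choose r : ℝ)) (h1 := n * ((l - 1).choose r : ℝ)) hz0 hh0 hl0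
    (by linarith) rfl hL0 ?_ ?_ ?_ hQ.2 hsum ?_ ?_
  · have := mul_le_mul_of_nonneg_left hL1 (show (0 : ℝ) ≤ 8 * r by positivity)
    nlinarith only [hA, this]
  · rw [mul_assoc, hh1]; ring
  · have hJne : (nc l Q).Nonempty := by
      rw [← card_pos]
      have := hz0
      rw [hzdef] at this
      exact_mod_cast this
    have hs1 : ∑ X ∈ nc l Q, (ov r X : ℝ) ≤ ∑ X ∈ nc l Q, (l.choose r : ℝ) / (2 * l) := by
      have h1 : ∑ X ∈ nc l Q, (ov r X : ℝ) ≤
          ∑ X ∈ powersetCard l (univ : Finset (Fin n)), (ov r X : ℝ) :=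
        sum_le_sum_of_subset_of_nonneg hsubJ fun _ _ _ => by positivity
      have h2 := sum_ov (n := n) (l := l) h12 (by omega) hl
      have h3 := mul_le_mul_of_nonneg_left hCe (show (0 : ℝ) ≤ l.choose r by positivity)
      rw [sum_const, nsmul_eq_mul]
      calc _ ≤ _ := h1
        _ ≤ _ := h2
        _ = (l.choose r : ℝ) * (C * ((n : ℝ) * eps n l ρ)) := by ring
        _ ≤ _ := h3
        _ = _ := by ring
    obtain ⟨X, hX, hXo⟩ := exists_le_of_sum_le hJne hs1
    have hge := hits_ge r X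
    rw [(mem_nc.1 hX).1] at hge
    have hge' : (n : ℝ) * l.choose r ≤ #(hits r X) + n * (ov r X : ℝ) := by exact_mod_cast hge
    have hsub : (#(hits r X) : ℝ) ≤ #S := by
      have : hits r X ⊆ S := by
        rw [← ft5_filter hX]; exact filter_subset _ _
      exact_mod_cast card_le_card this
    have h4 : ((l - 1).choose r : ℝ) + (l.choose r : ℝ) / (2 * l) ≤ l.choose r := by
      have e : ((l - 1).choose r : ℝ) = l.choose r - l.choose r * (2 * r) / (2 * l) := by
        field_simp; linarith only [hh1]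
      have h5 : (l.choose r : ℝ) / (2 * l) ≤ l.choose r * (2 * r) / (2 * l) := by
        refine div_le_div_of_nonneg_right ?_ (by positivity)
        exact le_mul_of_one_le_right (by positivity) (by linarith only [hr1])
      linarith only [e, h5]
    have h6 := mul_le_mul_of_nonneg_left hXo hn0.le
    have h7 := mul_le_mul_of_nonneg_left h4 hn0.le
    rw [mul_add] at h7
    linarith only [hge', hsub, h6, h7]
  · have h1 := ft5_swap (r := r) (subset_refl (nc l Q))
    have h2 : ∑ Y ∈ nc l Q, #(hits r Y) ≤ #(nc l Q) * (n * l.choose r) := by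
      rw [← smul_eq_mul]
      refine sum_le_card_nsmul _ _ _ fun Y hY => ?_
      have := hits_le r Y
      rwa [(mem_nc.1 hY).1] at this
    rw [← h1] at h2
    rw [hzdef]
    exact_mod_cast h2
  · have h1 : ∑ P ∈ S, ∑ k, #{Y ∈ blk (nc l Q) (nc (l - 1) Q) k | ∃ s : Fin n, s +ᵥ P ⊆ Y} =
        ∑ k, ∑ Y ∈ blk (nc l Q) (nc (l - 1) Q) k, #(hits r Y) := by
      rw [sum_comm]
      exact sum_congr rfl fun k _ => ft5_swap (ft5_blk_sub _ _ k)
    rw [← Nat.cast_sum, h1]
    push_cast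
    have h2 : ∀ k : Fin n, (#(blk (nc l Q) (nc (l - 1) Q) k) : ℝ) * (n * ((l - 1).choose r : ℝ)) -
        n * ∑ Y ∈ blk (nc l Q) (nc (l - 1) Q) k, (ov r Y : ℝ) ≤
        ∑ Y ∈ blk (nc l Q) (nc (l - 1) Q) k, (#(hits r Y) : ℝ) := by
      intro k
      rw [mul_sum, ← nsmul_eq_mul, ← sum_const, ← sum_sub_distrib]
      refine sum_le_sum fun Y hY => ?_
      have hge := hits_ge r Y
      rw [(mem_nc.1 (ft5_blk_sub _ _ k hY)).1] at hge
      have hge' : (n : ℝ) * (l - 1).choose r ≤ #(hits r Y) + n * (ov r Y : ℝ) := by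
        exact_mod_cast hge
      linarith only [hge']
    have h3 := sum_le_sum fun k (_ : k ∈ (univ : Finset (Fin n))) => h2 k
    rw [sum_sub_distrib, ← sum_mul, ← mul_sum] at h3
    have hB : ∑ k, (#(blk (nc l Q) (nc (l - 1) Q) k) : ℝ) = B := by
      rw [hBdef, exc]; push_cast; rfl
    rw [hB] at h3
    have h4 := ft5_ov_blk (r := r) hl1 hl Q
    have h5 := sum_ov (n := n) (l := l - 1) h12 (by omega) (by omega)
    have h6 : eps n (l - 1) ρ ≤ eps n l ρ := eps_mono (Nat.sub_le l 1) ρ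
    have h7 : (n.choose (l - 1) : ℝ) * ((n : ℝ) - l + 1) = C * l := by
      have h := Nat.choose_succ_right_eq n (l - 1)
      rw [Nat.sub_add_cancel hl1] at h
      have e : ((n - (l - 1) : ℕ) : ℝ) = (n : ℝ) - l + 1 := by
        rw [Nat.cast_sub (by omega), Nat.cast_sub hl1]; push_cast; ring
      rw [← e, hCdef]
      exact_mod_cast h.symm
    have hnl : (0 : ℝ) ≤ (n : ℝ) - l + 1 := by
      have : (l : ℝ) ≤ n := by exact_mod_cast hl
      linarith only [this]
    have he0 : 0 ≤ eps n l ρ := by unfold eps; positivity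
    have h8 : (n.choose (l - 1) : ℝ) * (l - 1).choose r * (n * eps n (l - 1) ρ) ≤
        (n.choose (l - 1) : ℝ) * l.choose r * (n * eps n l ρ) := by
      have he1 : 0 ≤ eps n (l - 1) ρ := by unfold eps; positivity
      gcongr
    have h9 := mul_le_mul_of_nonneg_left (h5.trans h8) hnl
    have h10 : ((n : ℝ) - l + 1) * ((n.choose (l - 1) : ℝ) * l.choose r * (n * eps n l ρ)) ≤
        z * l.choose r / 2 := by
      have h11 := mul_le_mul_of_nonneg_left hCe (show (0 : ℝ) ≤ l * l.choose r by positivity)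
      calc _ = ((n.choose (l - 1) : ℝ) * ((n : ℝ) - l + 1)) * l.choose r * (n * eps n l ρ) := by ring
        _ = (l * l.choose r) * (C * (n * eps n l ρ)) := by rw [h7]; ring
        _ ≤ _ := h11
        _ = _ := by field_simp
    have h12' := mul_le_mul_of_nonneg_left (h4.trans (h9.trans h10)) hn0.le
    have e : (n : ℝ) * (z * l.choose r / 2) = z * (n * l.choose r) / 2 := by ring
    linarith only [h3, h12']

end Pool.Agent.P.MP_4f3dfd_co.Ex
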