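import Mathlib
import Pool.Agent.P.MP_4f3dfd_co.FDefs
import Pool.Agent.P.MP_4f3dfd_co.EF1
import Pool.Agent.P.MP_4f3dfd_co.ENum
import Pool.Agent.P.MP_4f3dfd_co.FT2
import Pool.Agent.P.MP_4f3dfd_co.FT4
import Pool.Agent.P.MP_4f3dfd_co.FT5

set_option autoImplicit false
set_option linter.unusedSectionVars false
set_option linter.unusedVariables false

namespace Pool.Agent.P.MP_4f3dfd_co.Ex

open Finset Real
open scoped Pointwise

variable {n : ℕ} [NeZero n]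

theorem ft6_max {l r k t : ℕ} (hl : 1 ≤ l) (ht : t ≤ n.choose k) :
    ∃ Q : Finset (Finset (Fin n)), Good l r Q ∧ t ≤ #(nc k Q) ∧
      ∀ P ∉ Q, Good l r (insert P Q) → #(nc k (insert P Q)) < t := by
  classical
  have h0 : Good l r (∅ : Finset (Finset (Fin n))) := by
    refine ⟨fun P hP => absurd hP (notMem_empty P), ?_⟩
    have e : exc univ (nc l (∅ : Finset (Finset (Fin n)))) (nc (l - 1) ∅) = 0 := by
      refine sum_eq_zero fun i _ => card_eq_zero.2 (filter_eq_empty_iff.2 fun Y hY h => h.2 ?_)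
      rw [nc_empty, mem_powersetCard] at hY ⊢
      refine ⟨subset_univ _, ?_⟩
      rw [card_insert_of_notMem h.1, hY.2]
      omega
    rw [e, nc_empty, card_powersetCard, card_univ, Fintype.card_fin, Nat.cast_zero]
    have : 0 ≤ log ((n.choose l : ℝ) / n.choose l) := by
      rcases eq_or_ne (n.choose l : ℝ) 0 with h | h
      · simp [h]
      · simp [div_self h]
    positivity
  obtain ⟨Q, hQ, hmax⟩ := exists_max_image
    (univ.filter fun Q : Finset (Finset (Fin n)) => Good l r Q ∧ t ≤ #(nc k Q)) card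
    ⟨∅, mem_filter.2 ⟨mem_univ _, h0, by
      rwa [nc_empty, card_powersetCard, card_univ, Fintype.card_fin]⟩⟩
  refine ⟨Q, (mem_filter.1 hQ).2.1, (mem_filter.1 hQ).2.2, fun P hP hg => ?_⟩
  by_contra hc
  have := hmax _ (mem_filter.2 ⟨mem_univ _, hg, not_lt.1 hc⟩)
  rw [card_insert_of_notMem hP] at this
  omega

theorem ft6_drop {l k ρ : ℕ} {μ : ℝ} (hk : k ≤ l) (hl : l ≤ n) (hε : 2 * l * n * eps n l ρ ≤ μ)
    (Q : Finset (Finset (Fin n))) {P : Finset (Fin n)} (hP : #P = 6 * ρ) :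
    (#(nc k (insert P Q)) : ℝ) ≤ #(nc k Q) ∧
      2 * (l * ((#(nc k Q) : ℝ) - #(nc k (insert P Q)))) ≤ μ * n.choose k := by
  have h1 : (#(nc k (insert P Q)) : ℝ) + #{X ∈ nc k Q | ∃ s : Fin n, s +ᵥ P ⊆ X} = #(nc k Q) := by
    exact_mod_cast card_nc_insert k Q P
  have h2 := nc_step (hk.trans hl) Q P
  rw [hP] at h2
  have h3 := (pow_le_eps (hk.trans hl) ρ).trans (eps_mono hk ρ)
  have h4 : (n : ℝ) * (n.choose k * ((k : ℝ) / n) ^ (6 * ρ)) ≤ n * (n.choose k * eps n l ρ) := by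
    gcongr
  have h5 := mul_le_mul_of_nonneg_left (h2.trans h4) (Nat.cast_nonneg (α := ℝ) l)
  have h6 := mul_le_mul_of_nonneg_right hε (Nat.cast_nonneg (α := ℝ) (n.choose k))
  have h7 : (0 : ℝ) ≤ #{X ∈ nc k Q | ∃ s : Fin n, s +ᵥ P ⊆ X} := Nat.cast_nonneg _
  refine ⟨by linarith, ?_⟩
  rw [← h1, add_sub_cancel_left]
  linarith

theorem ft6_log {C z μ : ℝ} (hC : 0 < C) (hμ : 0 < μ) (hz : μ * C ≤ z) :
    z * (1 + log (C / z)) ≤ (1 + log (1 / μ)) * z := by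
  have h0 : 0 < z := (mul_pos hμ hC).trans_le hz
  have h1 : log (C / z) ≤ log (1 / μ) :=
    log_le_log (div_pos hC h0) (by rw [div_le_div_iff₀ h0 hμ]; linarith)
  nlinarith

theorem ft6_one {l ρ : ℕ} {μ : ℝ} (hρ : 1 ≤ ρ) (hμ0 : 0 < μ) (hμ1 : μ ≤ 1)
    (hA : 8 * ((6 * ρ : ℕ) : ℝ) * (1 + log (1 / μ)) ≤ l) : 1 ≤ l ∧ 0 ≤ log (1 / μ) := by
  have h0 : 0 ≤ log (1 / μ) := log_nonneg (by rw [le_div_iff₀ hμ0]; linarith)
  have h1 : (0 : ℝ) < ((6 * ρ : ℕ) : ℝ) := by exact_mod_cast (by omega : 0 < 6 * ρ)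
  have h2 : (0 : ℝ) < l := lt_of_lt_of_le (by positivity) hA
  exact ⟨by exact_mod_cast h2, h0⟩

theorem t2_up {l ρ : ℕ} {μ : ℝ} (hρ : 1 ≤ ρ) (h12 : 12 * ρ ≤ n) (hl : l ≤ n) (hμ0 : 0 < μ)
    (hμ1 : μ ≤ 1) (hA : 8 * ((6 * ρ : ℕ) : ℝ) * (1 + log (1 / μ)) ≤ l)
    (hε : 2 * l * n * eps n l ρ ≤ μ)
    {t : ℕ} (ht : μ * n.choose l ≤ t) (ht' : t ≤ n.choose l) :
    ∃ J D : Finset (Finset (Fin n)), Pair univ l J D ∧ (∃ d : ℕ, ∀ i, deg J i = d) ∧ t ≤ #J ∧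
      l * ((#J : ℝ) - t) ≤ μ * n.choose l ∧
      (exc univ J D : ℝ) ≤ 8 * ((6 * ρ : ℕ) : ℝ) * (1 + log (1 / μ)) * #J := by
  obtain ⟨l1, L0⟩ := ft6_one hρ hμ0 hμ1 hA
  obtain ⟨Q, hQ, h1, h2⟩ := ft6_max (r := 6 * ρ) l1 ht'
  have h1' : (t : ℝ) ≤ #(nc l Q) := by exact_mod_cast h1
  have hC : (0 : ℝ) < n.choose l := by exact_mod_cast Nat.choose_pos hl
  obtain ⟨P, hP, hg⟩ := t2_step hρ h12 hl hμ0 hμ1 hA hε hQ (ht.trans h1')
  have h3 : (#(nc l (insert P Q)) : ℝ) ≤ t := by exact_mod_cast (h2 P hP hg).le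
  have h4 := (ft6_drop le_rfl hl hε Q (hg.1 P (mem_insert_self _ _))).2
  refine ⟨nc l Q, nc (l - 1) Q, pair_nc l1 Q, reg_nc l Q, h1, ?_, hQ.2.trans ?_⟩
  · have h5 := mul_le_mul_of_nonneg_left (sub_le_sub_left h3 (#(nc l Q) : ℝ))
      (Nat.cast_nonneg (α := ℝ) l)
    have h6 := mul_pos hμ0 hC
    linarith
  · rw [mul_assoc (8 * ((6 * ρ : ℕ) : ℝ))]
    exact mul_le_mul_of_nonneg_left (ft6_log hC hμ0 (ht.trans h1')) (by positivity)

theorem t2_down {l ρ : ℕ} {μ : ℝ} (hρ : 1 ≤ ρ) (h12 : 12 * ρ ≤ n) (hl : l ≤ n) (hμ0 : 0 < μ)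
    (hμ1 : μ ≤ 1) (hA : 8 * ((6 * ρ : ℕ) : ℝ) * (1 + log (1 / μ)) ≤ l)
    (hε : 2 * l * n * eps n l ρ ≤ μ)
    {t : ℕ} (ht : 2 * μ * n.choose (l - 1) ≤ t) (ht' : t ≤ n.choose (l - 1)) :
    ∃ J D : Finset (Finset (Fin n)), Pair univ l J D ∧ (∃ d : ℕ, ∀ i, deg D i = d) ∧ #D ≤ t ∧
      l * ((t : ℝ) - #D) ≤ μ * n.choose (l - 1) ∧
      (l : ℝ) * exc univ J D ≤
        16 * ((6 * ρ : ℕ) : ℝ) * (1 + log (1 / μ)) * (((n : ℝ) - l + 1) * t) := by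
  obtain ⟨l1, L0⟩ := ft6_one hρ hμ0 hμ1 hA
  obtain ⟨Q, hQ, h1, h2⟩ := ft6_max (r := 6 * ρ) l1 ht'
  have h1' : (t : ℝ) ≤ #(nc (l - 1) Q) := by exact_mod_cast h1
  have hC : (0 : ℝ) < n.choose l := by exact_mod_cast Nat.choose_pos hl
  have hC' : (0 : ℝ) < n.choose (l - 1) := by exact_mod_cast Nat.choose_pos (by omega)
  have l1' : (1 : ℝ) ≤ l := by exact_mod_cast l1
  have hw : (0 : ℝ) ≤ (n : ℝ) - l + 1 := by
    have : (l : ℝ) ≤ n := by exact_mod_cast hl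
    linarith
  have hp := pair_card (pair_nc l1 Q)
  rw [card_univ, Fintype.card_fin] at hp
  have hcp := choose_pred (z := n) l1
  have hA0 : (0 : ℝ) ≤ 8 * ((6 * ρ : ℕ) : ℝ) := by positivity
  have hz : μ * n.choose l ≤ #(nc l Q) := by
    by_contra hc
    have a0 := not_le.1 hc
    have a1 := (ent_mono (Nat.cast_nonneg _) a0.le (mul_le_of_le_one_left hC.le hμ1)).trans
      (ft6_log hC hμ0 le_rfl)
    have a2 := hQ.2.trans (mul_le_mul_of_nonneg_left a1 hA0)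
    have a3 := mul_le_mul_of_nonneg_right hA (mul_pos hμ0 hC).le
    have a4 := mul_le_mul_of_nonneg_left (ht.trans h1') hw
    have a5 := mul_lt_mul_of_pos_left a0 (lt_of_lt_of_le one_pos l1')
    have a6 : ((n : ℝ) - l + 1) * (2 * μ * n.choose (l - 1)) = 2 * (l * (μ * n.choose l)) := by
      linear_combination (-2 * μ) * hcp
    linarith
  have hzC : (#(nc l Q) : ℝ) ≤ n.choose l := by
    have := card_le_card (pair_nc l1 Q).hJ
    rw [card_powersetCard, card_univ, Fintype.card_fin] at this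
    exact_mod_cast this
  obtain ⟨P, hP, hg⟩ := t2_step hρ h12 hl hμ0 hμ1 hA hε hQ hz
  have h3 : (#(nc (l - 1) (insert P Q)) : ℝ) ≤ t := by exact_mod_cast (h2 P hP hg).le
  have hP6 := hg.1 P (mem_insert_self _ _)
  obtain ⟨h4, h5⟩ := ft6_drop (Nat.sub_le l 1) hl hε Q hP6
  have h6 := mul_pos hμ0 hC'
  refine ⟨nc l (insert P Q), nc (l - 1) (insert P Q), pair_nc l1 _, reg_nc _ _, (h2 P hP hg).le,
    ?_, ?_⟩
  · have a1 := mul_le_mul_of_nonneg_left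
      (sub_le_sub_right h1' (#(nc (l - 1) (insert P Q)) : ℝ)) (Nat.cast_nonneg (α := ℝ) l)
    linarith
  · have a1 := (ent_mono (Nat.cast_nonneg _) (ft6_drop le_rfl hl hε Q hP6).1 hzC).trans
      (ft6_log hC hμ0 hz)
    have a2 := mul_le_mul_of_nonneg_left (hg.2.trans (mul_le_mul_of_nonneg_left a1 hA0))
      (Nat.cast_nonneg (α := ℝ) l)
    have a3 := le_mul_of_one_le_left (sub_nonneg.2 h4) l1'
    have a4 : (#(nc (l - 1) Q) : ℝ) ≤ 2 * t := by linarith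
    have a5 := mul_le_mul_of_nonneg_left a4 hw
    have a6 : (0 : ℝ) ≤ exc univ (nc l Q) (nc (l - 1) Q) := Nat.cast_nonneg _
    have a7 : (l : ℝ) * #(nc l Q) ≤ ((n : ℝ) - l + 1) * (2 * t) := by linarith
    have a8 := mul_le_mul_of_nonneg_left a7
      (mul_nonneg hA0 (show 0 ≤ 1 + log (1 / μ) by linarith))
    linarith

end Pool.Agent.P.MP_4f3dfd_co.Ex
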