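import Mathlib
import Pool.Agent.P.MP_4f3dfd_co.FDefs
import Pool.Agent.P.MP_4f3dfd_co.AChain
import Pool.Agent.P.MP_4f3dfd_co.EF1
import Pool.Agent.P.MP_4f3dfd_co.ENum
import Pool.Agent.P.MP_4f3dfd_co.EDual
import Pool.Agent.P.MP_4f3dfd_co.EU2
import Pool.Agent.P.MP_4f3dfd_co.EU3

set_option autoImplicit false
set_option linter.unusedSectionVars false
set_option linter.unusedVariables false

namespace Pool.Agent.P.MP_4f3dfd_co.Ex

open Finset Real

variable {V : Type*} [DecidableEq V]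

theorem fu2_exc {n : ℕ} [NeZero n] {c y : ℕ} (hc : 1 ≤ c) (hy : y ≤ n)
    (C : Finset (Finset (Fin n))) (h : ∀ B ∈ C, #B = y) :
    (exc univ (Asy.cl c C) (Asy.cl (c - 1) C) : ℝ) ≤ ((n : ℝ) - y) * #(Asy.cl (c - 1) C) := by
  obtain ⟨B0, -, h0⟩ := exists_subset_card_eq (s := (univ : Finset (Fin n))) (n := y)
    (by rwa [card_univ, Fintype.card_fin])
  have e1 := exc_cl (y2 := n) hc C ∅ B0 h h0 (fun B hB => absurd hB (notMem_empty _))
  rw [union_empty, Nat.sub_self, zero_mul, add_zero] at e1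
  rw [← Nat.cast_sub hy]
  exact_mod_cast e1

theorem round_ex {n c m : ℕ} (hcn : c ≤ n) {T D : Finset (Finset (Fin n))}
    (h : Pair univ c T D) {d : ℕ} (hd : ∀ i, deg T i = d) (hm0 : 1 ≤ m) (hm : m ≤ #T)
    (hdvd : n ∣ c * m) : ∃ J : Finset (Finset (Fin n)), Reg n c m J ∧ ex n c m #(shadow J) ≤
      c * ((#T : ℝ) - m) + exc univ T D + ((n : ℝ) - c + 1) * (c * (c * n)) := by
  obtain ⟨J, hJ, hs⟩ := round h hd hm0 hm hdvd
  refine ⟨J, hJ, ?_⟩
  have hp := pair_card h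
  rw [card_univ, Fintype.card_fin] at hp
  have hcn' : (c : ℝ) ≤ n := by exact_mod_cast hcn
  have hs' : ((#(shadow J) : ℕ) : ℝ) ≤ #D + c * (c * n) := by exact_mod_cast hs
  have h0 : (0 : ℝ) ≤ (n : ℝ) - c + 1 := by linarith
  have h1 := mul_le_mul_of_nonneg_left hs' h0
  unfold ex
  nlinarith

theorem round_co {n c k m m' : ℕ} (hk : c + k = n) (hc : 1 ≤ c) (hm : m + m' = n.choose c)
    {T D : Finset (Finset (Fin n))} (h : Pair univ (k + 1) T D) {d : ℕ} (hd : ∀ i, deg D i = d)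
    (hm0 : 1 ≤ m) (hD : #D ≤ m') (hdvd : n ∣ c * m) :
    ∃ J : Finset (Finset (Fin n)), Reg n c m J ∧ ex n c m #(shadow J) ≤
      c * ((m' : ℝ) - #D) + exc univ T D + ((n : ℝ) - c + 1) * (c * (c * n)) := by
  have hkn : k + 1 ≤ n := by omega
  have hq := pair_co hkn h
  have hx := exc_co hkn h
  have hDs := h.hD
  have r1 : n - (k + 1) + 1 = c := by omega
  simp only [Nat.add_sub_cancel] at hDs
  rw [r1] at hq hx
  obtain ⟨d', hd'⟩ := reg_co (k := c) (l := k) hk hDs hd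
  have hcard := card_co (k := c) (l := k) hk hDs
  obtain ⟨J, hJ, hb⟩ := round_ex (by omega) hq hd' hm0 (by omega) hdvd
  refine ⟨J, hJ, hb.trans (le_of_eq ?_)⟩
  rw [hx]
  have e : #(co c D) + #D = m + m' := by omega
  have e' : ((#(co c D) : ℕ) : ℝ) + #D = m + m' := by exact_mod_cast e
  have e2 : ((#(co c D) : ℕ) : ℝ) - m = m' - #D := by linarith
  rw [e2]

theorem star_lo {n c m y : ℕ} (hc : 1 ≤ c) (h1 : c ≤ y) (h2 : y ≤ n) (hm0 : 1 ≤ m)
    (hm : m ≤ n.choose c) (hdvd : n ∣ c * m) :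
    ∃ J : Finset (Finset (Fin n)), Reg n c m J ∧ ex n c m #(shadow J) ≤
      c * (n * (y - 1).choose (c - 1)) +
        ((n : ℝ) - y) * (c * (m + n * (y - 1).choose (c - 1)) / ((y : ℝ) - c + 1)) +
        ((n : ℝ) - c + 1) * (c * (c * n)) := by
  have hcn : c ≤ n := by omega
  have : NeZero n := ⟨by omega⟩
  have r1 : c - 1 + 1 = c := by omega
  obtain ⟨C, a1, t1, t2⟩ := Asy.exists_cl (n := n) (c - 1) y m (by omega) h2 (by rwa [r1])
  rw [r1] at t1 t2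
  obtain ⟨d, hd⟩ := reg_cl c C
  obtain ⟨J, hJ, hb⟩ := round_ex hcn (pair_cl hc C) hd hm0 t1 hdvd
  refine ⟨J, hJ, hb.trans ?_⟩
  have e1 := fu2_exc hc h2 C a1
  have e2 := card_cl_pred hc C a1
  have e4 : #(Asy.cl (c - 1) C) * (y + 1 - c) ≤ c * (m + n * (y - 1).choose (c - 1)) :=
    e2.trans (Nat.mul_le_mul_left _ t2)
  have hpos : (0 : ℝ) < (y : ℝ) - c + 1 := by
    have : (c : ℝ) ≤ y := by exact_mod_cast h1
    linarith
  have e5 : ((#(Asy.cl (c - 1) C) : ℕ) : ℝ) ≤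
      c * (m + n * (y - 1).choose (c - 1)) / ((y : ℝ) - c + 1) := by
    rw [le_div_iff₀ hpos]
    have hc' : ((y + 1 - c : ℕ) : ℝ) = (y : ℝ) - c + 1 := by
      rw [Nat.cast_sub (by omega)]; push_cast; ring
    rw [← hc']
    exact_mod_cast e4
  have hn1 : (0 : ℝ) ≤ (n : ℝ) - y := sub_nonneg.2 (by exact_mod_cast h2)
  have e6 := mul_le_mul_of_nonneg_left e5 hn1
  have t2' : ((#(Asy.cl c C) : ℕ) : ℝ) ≤ m + n * (y - 1).choose (c - 1) := by exact_mod_cast t2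
  have e7 : (c : ℝ) * (((#(Asy.cl c C) : ℕ) : ℝ) - m) ≤ c * (n * (y - 1).choose (c - 1)) :=
    mul_le_mul_of_nonneg_left (by linarith) (Nat.cast_nonneg _)
  linarith

theorem star_hi {n c k m m' y : ℕ} (hk : c + k = n) (hc : 1 ≤ c) (hk1 : 1 ≤ k) (h1 : k ≤ y)
    (h2 : y ≤ n) (hm0 : 1 ≤ m) (hm : m + m' = n.choose c) (hdvd : n ∣ c * m)
    (hS : n * (y - 1).choose (k - 1) ≤ m') :
    ∃ J : Finset (Finset (Fin n)), Reg n c m J ∧ ex n c m #(shadow J) ≤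
      c * (n * (y - 1).choose (k - 1)) + ((n : ℝ) - y) * m' + ((n : ℝ) - c + 1) * (c * (c * n)) := by
  have : NeZero n := ⟨by omega⟩
  have r1 : k - 1 + 1 = k := by omega
  have hsym : n.choose k = n.choose c := by
    rw [← hk, Nat.choose_symm_add]
  obtain ⟨C, a1, t1, t2⟩ := Asy.exists_cl (n := n) (k - 1) y (m' - n * (y - 1).choose (k - 1))
    (by omega) h2 (by rw [r1]; omega)
  rw [r1] at t1 t2
  have hp := pair_cl (c := k + 1) (by omega) C
  have e1 := fu2_exc (c := k + 1) (by omega) h2 C a1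
  simp only [Nat.add_sub_cancel] at hp e1
  obtain ⟨d, hd⟩ := reg_cl k C
  have hD : #(Asy.cl k C) ≤ m' := by omega
  obtain ⟨J, hJ, hb⟩ := round_co hk hc hm hp hd hm0 hD hdvd
  refine ⟨J, hJ, hb.trans ?_⟩
  have hD' : ((#(Asy.cl k C) : ℕ) : ℝ) ≤ m' := by exact_mod_cast hD
  have hn1 : (0 : ℝ) ≤ (n : ℝ) - y := sub_nonneg.2 (by exact_mod_cast h2)
  have e6 := mul_le_mul_of_nonneg_left hD' hn1
  have t3 : m' ≤ #(Asy.cl k C) + n * (y - 1).choose (k - 1) := by omega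
  have t3' : (m' : ℝ) ≤ #(Asy.cl k C) + n * (y - 1).choose (k - 1) := by exact_mod_cast t3
  have e7 : (c : ℝ) * ((m' : ℝ) - #(Asy.cl k C)) ≤ c * (n * (y - 1).choose (k - 1)) :=
    mul_le_mul_of_nonneg_left (by linarith) (Nat.cast_nonneg _)
  linarith

theorem triv_up {n c m m' : ℕ} (hc : 1 ≤ c) (hcn : c ≤ n) (hm0 : 1 ≤ m)
    (hm : m + m' = n.choose c) (hdvd : n ∣ c * m) :
    ∃ J : Finset (Finset (Fin n)), Reg n c m J ∧ ex n c m #(shadow J) ≤ c * m' ∧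
      ex n c m #(shadow J) ≤ n * (c * m) := by
  obtain ⟨J, hJ, s1, s2⟩ := exists_reg hc hm0 (by omega : m ≤ n.choose c) hdvd
  have hc1 : (1 : ℝ) ≤ c := by exact_mod_cast hc
  have hcn' : (c : ℝ) ≤ n := by exact_mod_cast hcn
  have h0 : (0 : ℝ) ≤ (n : ℝ) - c + 1 := by linarith
  have s1' : ((#(shadow J) : ℕ) : ℝ) ≤ c * m := by exact_mod_cast s1
  have s2' : ((#(shadow J) : ℕ) : ℝ) ≤ n.choose (c - 1) := by exact_mod_cast s2
  have hm' : (m : ℝ) + m' = n.choose c := by exact_mod_cast hm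
  have hp := choose_pred (z := n) hc
  have hcm : (0 : ℝ) ≤ (c : ℝ) * m := by positivity
  refine ⟨J, hJ, ?_, ?_⟩
  · have h1 := mul_le_mul_of_nonneg_left s2' h0
    unfold ex
    rw [← hp, ← hm'] at h1
    linarith
  · have h1 := mul_le_mul_of_nonneg_left s1' h0
    have h2 : ((n : ℝ) - c + 1) * (c * m) ≤ n * (c * m) :=
      mul_le_mul_of_nonneg_right (by linarith) hcm
    unfold ex
    linarith

end Pool.Agent.P.MP_4f3dfd_co.Ex
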