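import Mathlib
import Pool.Agent.P.MP_4f3dfd_co.FDefs
import Pool.Agent.P.MP_4f3dfd_co.ENum
import Pool.Agent.P.MP_4f3dfd_co.BNum
import Pool.Agent.P.MP_4f3dfd_co.FC5
import Pool.Agent.P.MP_4f3dfd_co.FU2
import Pool.Agent.P.MP_4f3dfd_co.FT6

set_option autoImplicit false
set_option linter.unusedSectionVars false
set_option linter.unusedVariables false

namespace Pool.Agent.P.MP_4f3dfd_co.Ex

open Finset Real

variable {V : Type*} [DecidableEq V]

theorem ft7_ev : ∃ N : ℕ, ∀ n : ℕ, N ≤ n → 5184 * (14641 * log n ^ 4) ≤ (n : ℝ) := by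
  have h := (isLittleO_pow_log_id_atTop (n := 4)).bound
    (show (0 : ℝ) < 1 / (5184 * 14641) by norm_num)
  obtain ⟨N, hN⟩ := Filter.eventually_atTop.1 (tendsto_natCast_atTop_atTop.eventually h)
  refine ⟨N, fun n hn => ?_⟩
  have h1 := hN n hn
  rw [id, Real.norm_of_nonneg (by positivity), Real.norm_of_nonneg (by positivity)] at h1
  linarith

theorem ft7_lam {n l : ℕ} (hl : 1 ≤ l) (h4 : 4 * l ≤ n) :
    1 ≤ log ((n : ℝ) / l) ∧ 1 ≤ log n / log ((n : ℝ) / l) := by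
  have l1 : (1 : ℝ) ≤ l := by exact_mod_cast hl
  have l4 : 4 * (l : ℝ) ≤ n := by exact_mod_cast h4
  have h1 : log 4 ≤ log ((n : ℝ) / l) :=
    log_le_log (by norm_num) (by rw [le_div_iff₀ (by linarith)]; linarith)
  have h2 : log 4 = 2 * log 2 := by
    rw [show (4 : ℝ) = 2 ^ 2 by norm_num, log_pow]; norm_num
  have h3 := log_two_gt_d9
  have h5 : 1 ≤ log ((n : ℝ) / l) := by linarith
  refine ⟨h5, ?_⟩
  rw [le_div_iff₀ (by linarith), one_mul]
  exact log_le_log (by apply div_pos <;> linarith) (div_le_self (by linarith) l1)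

theorem t2_par : ∃ N : ℕ, ∀ n l : ℕ, N ≤ n → 1 ≤ l → 4 * l ≤ n → ∃ ρ : ℕ, 1 ≤ ρ ∧ 12 * ρ ≤ n ∧
    ((6 * ρ : ℕ) : ℝ) ≤ 66 * (log n / log (n / l)) ∧ 4 * l * (n : ℝ) ^ 2 * eps n l ρ ≤ 1 := by
  obtain ⟨N, hN⟩ := ft7_ev
  refine ⟨max N 3, fun n l hn hl h4 => ?_⟩
  have hev := hN n (le_trans (le_max_left _ _) hn)
  have n3 : (3 : ℝ) ≤ n := by exact_mod_cast le_trans (le_max_right _ _) hn
  have n0 : (0 : ℝ) < n := by linarith
  obtain ⟨a1, a2⟩ := ft7_lam hl h4
  have l1 : (1 : ℝ) ≤ l := by exact_mod_cast hl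
  have l4 : 4 * (l : ℝ) ≤ n := by exact_mod_cast h4
  set b := log ((n : ℝ) / l) with hb
  set lam0 := log n / b with hlam
  have b0 : 0 < b := by linarith
  have e1 : lam0 * b = log n := div_mul_cancel₀ _ b0.ne'
  have a3 : lam0 ≤ log n := by nlinarith only [a1, a2, e1]
  set ρ := ⌈2 * lam0⌉₊ + 8 with hρ
  have r1 : 2 * lam0 ≤ ρ := by
    have := Nat.le_ceil (2 * lam0)
    rw [hρ]; push_cast; linarith
  have r2 : (ρ : ℝ) ≤ 11 * lam0 := by
    have := Nat.ceil_lt_add_one (show 0 ≤ 2 * lam0 by linarith)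
    rw [hρ]; push_cast; linarith
  have r8 : 8 ≤ ρ := by omega
  have r8' : (8 : ℝ) ≤ ρ := by exact_mod_cast r8
  have r4 : 5184 * (ρ : ℝ) ^ 4 ≤ n := by
    have h1 : (ρ : ℝ) ^ 4 ≤ (11 * log n) ^ 4 := pow_le_pow_left₀ (by positivity) (by linarith) 4
    have h2 : (11 * log n) ^ 4 = 14641 * log n ^ 4 := by ring
    linarith
  refine ⟨ρ, by omega, ?_, by push_cast; linarith, ?_⟩
  · have h1 : (ρ : ℝ) ≤ (ρ : ℝ) ^ 4 := le_self_pow₀ (by linarith) (by norm_num)
    have h2 : 12 * (ρ : ℝ) ≤ n := by nlinarith only [r8', r4, h1]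
    exact_mod_cast h2
  · have t1 : ((l : ℝ) / n) ^ (3 * ρ) ≤ (1 / n) ^ 4 := by
      have p1 : (0 : ℝ) < l / n := by positivity
      have p2 : (0 : ℝ) < 1 / n := by positivity
      rw [← log_le_log_iff (pow_pos p1 _) (pow_pos p2 _), log_pow, log_pow, one_div, log_inv]
      have e2 : log ((l : ℝ) / n) = -b := by rw [hb, ← log_inv, inv_div]
      rw [e2]
      push_cast
      have : 0 ≤ lam0 * b := by positivity
      nlinarith only [a1, e1, r1, r8']
    have t2 : (2 * ((6 * ρ : ℕ) : ℝ) ^ 2 / n) ^ ρ ≤ (1 / n) ^ 4 := by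
      set y := 2 * ((6 * ρ : ℕ) : ℝ) ^ 2 / n with hy
      have y0 : 0 ≤ y := by positivity
      have y2 : y ^ 2 ≤ 1 / n := by
        have : y ^ 2 = 5184 * (ρ : ℝ) ^ 4 / n * (1 / n) := by rw [hy]; push_cast; field_simp; ring
        rw [this]
        exact mul_le_of_le_one_left (by positivity) ((div_le_one n0).2 r4)
      have y1 : y ≤ 1 := by
        have : 1 / (n : ℝ) ≤ 1 := by rw [div_le_one n0]; linarith
        nlinarith only [y0, y2, this]
      calc y ^ ρ ≤ y ^ 8 := pow_le_pow_of_le_one y0 y1 r8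
        _ = (y ^ 2) ^ 4 := by ring
        _ ≤ (1 / n) ^ 4 := pow_le_pow_left₀ (by positivity) y2 4
    have t3 : eps n l ρ ≤ 2 * (1 / n) ^ 4 := by unfold eps; linarith
    calc 4 * l * (n : ℝ) ^ 2 * eps n l ρ ≤ n * (n : ℝ) ^ 2 * (2 * (1 / n) ^ 4) := by
          apply mul_le_mul (mul_le_mul_of_nonneg_right l4 (by positivity)) t3
            (by unfold eps; positivity) (by positivity)
      _ = 2 / (n : ℝ) := by field_simp
      _ ≤ 1 := by rw [div_le_one n0]; linarith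

theorem t2_lo : ∃ C : ℝ, 0 < C ∧ ∃ N : ℕ, ∀ n c m : ℕ, N ≤ n → 1 ≤ c → 8 * c ≤ n →
    n ∣ c * m → 2 * m ≤ n.choose c → n.choose c ≤ n * m →
    C * (log n / log (n / c) * log ((n.choose c : ℝ) / m)) ≤ c →
    ∃ J : Finset (Finset (Fin n)), Reg n c m J ∧ ex n c m #(shadow J) ≤
      C * (m * (log n / log (n / c) * log ((n.choose c : ℝ) / m))) := by
  obtain ⟨N1, h1⟩ := t2_par
  obtain ⟨N2, h2⟩ := Off.big_choose 5 1
  refine ⟨3000, by norm_num, max (max N1 N2) 8, fun n c m hn hc h8 hdvd hm hm' hC => ?_⟩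
  have n1 : N1 ≤ n := le_trans (le_trans (le_max_left _ _) (le_max_left _ _)) hn
  have n2 : N2 ≤ n := le_trans (le_trans (le_max_right _ _) (le_max_left _ _)) hn
  have n8 : 8 ≤ n := le_trans (le_max_right _ _) hn
  have : NeZero n := ⟨by omega⟩
  obtain ⟨ρ, r1, r2, r3, r4⟩ := h1 n c n1 hc (by omega)
  obtain ⟨a1, a2⟩ := ft7_lam hc (show 4 * c ≤ n by omega)
  have hcn : c ≤ n := by omega
  have C0 : 0 < n.choose c := Nat.choose_pos hcn
  have m1 : 1 ≤ m := by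
    rcases Nat.eq_zero_or_pos m with h | h
    · rw [h] at hm'; omega
    · exact h
  have n0 : (0 : ℝ) < n := by exact_mod_cast (show 0 < n by omega)
  have C0' : (0 : ℝ) < n.choose c := by exact_mod_cast C0
  have m0 : (0 : ℝ) < m := by exact_mod_cast m1
  have hm2 : 2 * (m : ℝ) ≤ n.choose c := by exact_mod_cast hm
  have hm3 : (n.choose c : ℝ) ≤ n * m := by exact_mod_cast hm'
  have c1 : (1 : ℝ) ≤ c := by exact_mod_cast hc
  set lam0 := log n / log ((n : ℝ) / c) with hlam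
  set L := log ((n.choose c : ℝ) / m) with hL
  have L1 : 0.69 ≤ L := by
    have h3 : log 2 ≤ L := log_le_log (by norm_num) (by rw [le_div_iff₀ m0]; linarith only [hm2])
    have := log_two_gt_d9
    linarith
  have e1 : log (1 / ((m : ℝ) / n.choose c)) = L := by rw [one_div, inv_div]
  have A1 : 8 * ((6 * ρ : ℕ) : ℝ) * (1 + L) ≤ 1300 * (lam0 * L) := by
    have h3 : 1 + L ≤ 2.45 * L := by linarith
    calc 8 * ((6 * ρ : ℕ) : ℝ) * (1 + L) ≤ 8 * (66 * lam0) * (2.45 * L) :=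
          mul_le_mul (by linarith) h3 (by linarith) (by linarith)
      _ ≤ 1300 * (lam0 * L) := by nlinarith only [r3, a2, L1]
  have A0 : 0.69 ≤ lam0 * L := by nlinarith only [r3, a2, L1]
  have eps0 : 0 ≤ eps n c ρ := by unfold eps; positivity
  obtain ⟨J, D, p1, ⟨d, p2⟩, p3, p4, p5⟩ := t2_up (n := n) (l := c) (ρ := ρ)
    (μ := (m : ℝ) / n.choose c) r1 r2 hcn (by positivity) (by rw [div_le_one C0']; linarith only [m0, hm2])
    (by rw [e1]; linarith)
    (by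
      have h3 : 1 / (n : ℝ) ≤ (m : ℝ) / n.choose c := by
        rw [div_le_div_iff₀ n0 C0']; linarith only [hm3]
      refine le_trans ?_ h3
      rw [le_div_iff₀ n0]
      have : 0 ≤ c * (n : ℝ) ^ 2 * eps n c ρ := by positivity
      nlinarith only [r4])
    (t := m) (by rw [div_mul_cancel₀ _ C0'.ne']) (by omega)
  rw [div_mul_cancel₀ _ C0'.ne'] at p4
  rw [e1] at p5
  obtain ⟨J', q1, q2⟩ := round_ex hcn p1 p2 m1 p3 hdvd
  refine ⟨J', q1, q2.trans ?_⟩
  have p3' : (m : ℝ) ≤ #J := by exact_mod_cast p3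
  have j2 : (#J : ℝ) ≤ 2 * m := by nlinarith only [m0, hC, A0, p4]
  have x1 : (exc univ J D : ℝ) ≤ 1300 * (lam0 * L) * (2 * m) :=
    p5.trans (mul_le_mul A1 j2 (by positivity) (by linarith))
  have c6 : 6 ≤ c := by
    have : (6 : ℝ) ≤ c := by linarith
    exact_mod_cast this
  have b1 : n ^ 5 ≤ n.choose c := h2 n n c n2 (by omega) (by omega) (by omega)
  have b2 : (n : ℝ) ^ 5 ≤ n * m := le_trans (by exact_mod_cast b1) hm3
  have b3 : (n : ℝ) ^ 4 ≤ m := by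
    have : n * (n : ℝ) ^ 4 ≤ n * m := by calc n * (n : ℝ) ^ 4 = (n : ℝ) ^ 5 := by ring
      _ ≤ _ := b2
    exact le_of_mul_le_mul_left this n0
  have cn : (c : ℝ) ≤ n := by exact_mod_cast hcn
  have b4 : ((n : ℝ) - c + 1) * (c * (c * n)) ≤ (n : ℝ) ^ 4 := by
    calc ((n : ℝ) - c + 1) * (c * (c * n)) ≤ n * (n * (n * n)) :=
          mul_le_mul (by linarith) (mul_le_mul cn (mul_le_mul_of_nonneg_right cn n0.le)
            (by positivity) n0.le) (by positivity) n0.le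
      _ = (n : ℝ) ^ 4 := by ring
  have b5 : 0.69 * (m : ℝ) ≤ m * (lam0 * L) := by nlinarith only [A0]
  nlinarith only [m0, p4, x1, b3, b4, b5]

end Pool.Agent.P.MP_4f3dfd_co.Ex
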