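import Mathlib
import Pool.Agent.P.MP_4f3dfd_co.FDefs
import Pool.Agent.P.MP_4f3dfd_co.BEnd
import Pool.Agent.P.MP_4f3dfd_co.ENum
import Pool.Agent.P.MP_4f3dfd_co.FN2
import Pool.Agent.P.MP_4f3dfd_co.FN3

set_option autoImplicit false
set_option linter.unusedSectionVars false
set_option linter.unusedVariables false

namespace Pool.Agent.P.MP_4f3dfd_co.Ex

open Finset Real

variable {V : Type*} [DecidableEq V]

theorem fu1_sub {n q d z g : ℕ} (hq : 1 ≤ q) (hz : z ≤ n) (h2 : d ≤ z.choose q)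
    (hg : IsLeast (Off.SG n q d) g) : g ≤ z.choose (q - 1) := by
  classical
  obtain ⟨Z, -, hZ⟩ := exists_subset_card_eq (s := (univ : Finset (Fin n))) (n := z) (by simpa using hz)
  obtain ⟨A, hA, hAc⟩ := exists_subset_card_eq (s := powersetCard q Z) (n := d)
    (by rw [card_powersetCard, hZ]; exact h2)
  have hmem : #(shadow A) ∈ Off.SG n q d :=
    ⟨A, fun X hX => (mem_powersetCard.1 (hA hX)).2, hAc, rfl⟩
  refine (hg.2 hmem).trans ?_
  rw [← hZ, ← card_powersetCard]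
  refine card_le_card fun Y hY => ?_
  obtain ⟨X, hX, a, ha, rfl⟩ := mem_shadow_iff.1 hY
  have := mem_powersetCard.1 (hA hX)
  exact mem_powersetCard.2 ⟨(erase_subset _ _).trans this.1, by rw [card_erase_of_mem ha, this.2]⟩

theorem kk_upper {n q d z g : ℕ} (hq : 1 ≤ q) (hz : z ≤ n) (h1 : (z - 1).choose q ≤ d)
    (h2 : d < z.choose q) (hg : IsLeast (Off.SG n q d) g) : g * (z + 1 - q) ≤ 8 * (q * d) := by
  classical
  have hqz : q ≤ z := by
    by_contra hh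
    rw [Nat.choose_eq_zero_of_lt (not_le.1 hh)] at h2
    omega
  obtain ⟨u, rfl⟩ : ∃ u, z = q + u := ⟨z - q, by omega⟩
  have et : q + u + 1 - q = u + 1 := by omega
  rw [et]
  by_cases hA : u + 1 ≤ 8
  · obtain ⟨A, a1, a2, a3⟩ := hg.1
    have := Off.shadow_le_mul A q a1
    rw [a2, a3] at this
    calc g * (u + 1) ≤ (q * d) * 8 := Nat.mul_le_mul this hA
      _ = 8 * (q * d) := by ring
  have hA' : 8 ≤ u := by omega
  by_cases hB : q ≤ 6 * u
  · have hle := fu1_sub hq hz h2.le hg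
    obtain ⟨k, rfl⟩ : ∃ k, q = k + 1 := ⟨q - 1, by omega⟩
    have e1 : (k + 1 + u).choose (k + 1) * (k + 1) = (k + 1 + u).choose k * (u + 1) := by
      rw [Nat.choose_succ_right_eq]
      congr 1
      omega
    have e2 : (k + 1 + u - 1).choose (k + 1) * (k + 1 + u) = (k + 1 + u).choose (k + 1) * u := by
      have := Nat.choose_mul_succ_eq (k + u) (k + 1)
      have e3 : k + u + 1 - (k + 1) = u := by omega
      have e4 : k + 1 + u - 1 = k + u := by omega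
      have e5 : k + 1 + u = k + u + 1 := by omega
      rw [e4, e5, this, e3]
    have e6 : (k + 1 + u).choose (k + 1) * u ≤ (7 * d) * u := by
      rw [← e2]
      calc (k + 1 + u - 1).choose (k + 1) * (k + 1 + u) ≤ d * (7 * u) :=
            Nat.mul_le_mul h1 (by omega)
        _ = 7 * d * u := by ring
    have e7 : (k + 1 + u).choose (k + 1) ≤ 7 * d := Nat.le_of_mul_le_mul_right e6 (by omega)
    simp only [Nat.add_sub_cancel] at hle
    calc g * (u + 1) ≤ (k + 1 + u).choose k * (u + 1) := Nat.mul_le_mul_right _ hle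
      _ = (k + 1 + u).choose (k + 1) * (k + 1) := e1.symm
      _ ≤ (7 * d) * (k + 1) := Nat.mul_le_mul_right _ e7
      _ ≤ 8 * ((k + 1) * d) := by nlinarith
  · have hB' : 6 * u < q := not_le.1 hB
    obtain ⟨k, rfl⟩ : ∃ k, q = k + 1 := ⟨q - 1, by omega⟩
    obtain ⟨i, hi1, hi2⟩ : ∃ i, 2 * i ≤ u ∧ u ≤ 2 * i + 1 := ⟨u / 2, by omega, by omega⟩
    have hd : d ≤ n.choose (k + 1) := h2.le.trans (Nat.choose_le_choose _ hz)
    obtain ⟨s, hs, hs2⟩ := Off.exists_chain (n := n) (k := k) (i := i) (e := d) (by omega) hd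
    have hgs : g ≤ s := hg.2 hs
    obtain ⟨r, hr⟩ : ∃ r, u = i + 1 + r := ⟨u - (i + 1), by omega⟩
    have hgr := grow (q := k + 1) (t := i + 1) r (by omega)
    have e1 : k + 1 + (i + 1) - 1 = k + 1 + i := by omega
    have e2 : k + 1 + i + r = k + 1 + u - 1 := by omega
    rw [e1, e2] at hgr
    have hfac : ((i : ℝ) + 1) ≤ 1 + ((k + 1 : ℕ) : ℝ) * r / (((i + 1 : ℕ) : ℝ) + r) := by
      have hu : (((i + 1 : ℕ) : ℝ) + r) = u := by rw [hr]; push_cast; ring
      rw [hu]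
      have hu0 : (0 : ℝ) < u := by exact_mod_cast (by omega : 0 < u)
      have : (i : ℝ) ≤ ((k + 1 : ℕ) : ℝ) * r / u := by
        rw [le_div_iff₀ hu0]
        have : i * u ≤ (k + 1) * r := by
          calc i * u ≤ (6 * r) * u := Nat.mul_le_mul_right _ (by omega)
            _ = (6 * u) * r := by ring
            _ ≤ (k + 1) * r := Nat.mul_le_mul_right _ hB'.le
        exact_mod_cast this
      linarith
    have hch : (k + 1 + i).choose (k + 1) * (i + 1) ≤ d := by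
      have h0 : (0 : ℝ) ≤ ((k + 1 + i).choose (k + 1) : ℝ) := Nat.cast_nonneg _
      have h3 := (mul_le_mul_of_nonneg_right hfac h0).trans hgr
      have h4 : (((k + 1 + u - 1).choose (k + 1) : ℕ) : ℝ) ≤ d := by exact_mod_cast h1
      have h5 : (((k + 1 + i).choose (k + 1) * (i + 1) : ℕ) : ℝ) ≤ d := by
        push_cast; linarith
      exact_mod_cast h5
    have h6 : s * (i + 1) ≤ (k + 1) * (d + d) :=
      hs2.trans (Nat.mul_le_mul_left _ (by omega))
    calc g * (u + 1) ≤ s * (2 * (i + 1)) := Nat.mul_le_mul hgs (by omega)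
      _ = 2 * (s * (i + 1)) := by ring
      _ ≤ 2 * ((k + 1) * (d + d)) := Nat.mul_le_mul_left _ h6
      _ ≤ 8 * ((k + 1) * d) := by nlinarith

theorem upper_first : ∃ C : ℝ, 0 < C ∧ ∀ n c m d x : ℕ, Par n c d x → c * m = d * n →
    ∃ J : Finset (Finset (Fin n)), Reg n c m J ∧
      ex n c m #(shadow J) * ((x : ℝ) - c + 2) ≤ C * (((n : ℝ) - c + 1) * (c * m)) := by
  obtain ⟨C, hC⟩ := Off.master
  obtain ⟨K, hK⟩ := hC 1 one_pos
  have hC1 : (0 : ℝ) < max C 1 := lt_of_lt_of_le one_pos (le_max_right _ _)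
  refine ⟨8 * max C 1, by positivity, fun n c m d x h hm => ?_⟩
  obtain ⟨z, hxz, hzn, hz1, hz2⟩ := h.link
  obtain ⟨m1, m2, -, -, -⟩ := h.size hm
  have hc := h.hc
  have hcn := h.hcn
  have hcx := h.c_le
  obtain ⟨f, g, h', hf, hg, -, -, -, hfg, -⟩ := hK n c m d z m1 m2.le (by omega) hm hz1 hz2
  obtain ⟨J, j1, j2, j3, j4⟩ := Off.SR_deg hm hf.1
  refine ⟨J, ⟨j1, j2, d, j3⟩, ?_⟩
  rw [j4]
  have hkk := kk_upper (q := c - 1) (by omega) hzn.le hz1 hz2 hg
  have ht : ((z + 1 - (c - 1) : ℕ) : ℝ) = (z : ℝ) - c + 2 := by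
    rw [Nat.cast_sub (by omega), Nat.cast_sub (by omega)]; push_cast; ring
  have hq : ((c - 1 : ℕ) : ℝ) = (c : ℝ) - 1 := by rw [Nat.cast_sub (by omega)]; simp
  have hkk' : (g : ℝ) * ((z : ℝ) - c + 2) ≤ 8 * (((c : ℝ) - 1) * d) := by
    rw [← ht, ← hq]; exact_mod_cast hkk
  have hm' : (c : ℝ) * m = d * n := by exact_mod_cast hm
  have hc2 : (2 : ℝ) ≤ c := by exact_mod_cast hc
  have hcn2 : (c : ℝ) + 2 ≤ n := by exact_mod_cast hcn
  have hcx2 : (c : ℝ) ≤ x + 1 := by exact_mod_cast hcx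
  have hxz2 : (x : ℝ) ≤ z := by exact_mod_cast hxz
  have hng : (0 : ℝ) ≤ (n : ℝ) * g := by positivity
  have h1 : ((c : ℝ) - 1) * f ≤ max C 1 * (n * g) :=
    hfg.trans (mul_le_mul_of_nonneg_right (le_max_left _ _) hng)
  have htz : (0 : ℝ) ≤ (z : ℝ) - c + 2 := by linarith
  have hn0 : (0 : ℝ) ≤ (n : ℝ) := Nat.cast_nonneg _
  have h2 : ((c : ℝ) - 1) * (f * ((z : ℝ) - c + 2)) ≤ ((c : ℝ) - 1) * (8 * max C 1 * (c * m)) := by
    calc ((c : ℝ) - 1) * (f * ((z : ℝ) - c + 2)) = (((c : ℝ) - 1) * f) * ((z : ℝ) - c + 2) := by ring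
      _ ≤ (max C 1 * (n * g)) * ((z : ℝ) - c + 2) := mul_le_mul_of_nonneg_right h1 htz
      _ = (max C 1 * n) * (g * ((z : ℝ) - c + 2)) := by ring
      _ ≤ (max C 1 * n) * (8 * (((c : ℝ) - 1) * d)) :=
          mul_le_mul_of_nonneg_left hkk' (by positivity)
      _ = ((c : ℝ) - 1) * (8 * max C 1 * (d * n)) := by ring
      _ = ((c : ℝ) - 1) * (8 * max C 1 * (c * m)) := by rw [hm']
  have h3 : (f : ℝ) * ((z : ℝ) - c + 2) ≤ 8 * max C 1 * (c * m) :=
    le_of_mul_le_mul_left h2 (by linarith)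
  have hf0 : (0 : ℝ) ≤ f := Nat.cast_nonneg _
  have h4 : (f : ℝ) * ((x : ℝ) - c + 2) ≤ 8 * max C 1 * (c * m) :=
    (mul_le_mul_of_nonneg_left (by linarith) hf0).trans h3
  have hcm : (0 : ℝ) ≤ (c : ℝ) * m := by positivity
  have htx : (0 : ℝ) ≤ (x : ℝ) - c + 2 := by linarith
  have hk : (0 : ℝ) ≤ (n : ℝ) - c + 1 := by linarith
  unfold ex
  calc (((n : ℝ) - c + 1) * f - c * m) * ((x : ℝ) - c + 2)
      ≤ (((n : ℝ) - c + 1) * f) * ((x : ℝ) - c + 2) :=
        mul_le_mul_of_nonneg_right (by linarith) htx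
    _ = ((n : ℝ) - c + 1) * (f * ((x : ℝ) - c + 2)) := by ring
    _ ≤ ((n : ℝ) - c + 1) * (8 * max C 1 * (c * m)) := mul_le_mul_of_nonneg_left h4 hk
    _ = 8 * max C 1 * (((n : ℝ) - c + 1) * (c * m)) := by ring

end Pool.Agent.P.MP_4f3dfd_co.Ex
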