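import Mathlib
import Pool.Agent.P.MP_4f3dfd_co.FDefs
import Pool.Agent.P.MP_4f3dfd_co.FN3
import Pool.Agent.P.MP_4f3dfd_co.FN8
import Pool.Agent.P.MP_4f3dfd_co.FU1
import Pool.Agent.P.MP_4f3dfd_co.FU2
import Pool.Agent.P.MP_4f3dfd_co.FT7

set_option autoImplicit false
set_option linter.unusedSectionVars false
set_option linter.unusedVariables false

namespace Pool.Agent.P.MP_4f3dfd_co.Ex

open Finset Real

variable {V : Type*} [DecidableEq V]

theorem fu3_real {e c m S n w t u d K : ℝ} (hc : 0 < c) (hm : 0 ≤ m) (hS : 0 ≤ S) (hn : 0 ≤ n)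
    (hw : 1 ≤ w) (ht : 16 * w < t) (hu : u = t - 1 - 7 * w) (hK : K = w + t - 1)
    (hd : c * m = d * n) (h1 : c * t * S ≤ d * w) (h2 : c ^ 3 * t ≤ 128 * d) (h3 : t ≤ 3 * c * w)
    (he : e ≤ c * (n * S) + 8 * w * (c * (m + n * S) / u) + K * (c * (c * n))) :
    e * t ≤ 801 * (c * m * w) := by
  have t0 : 0 < t := by linarith
  have u0 : 0 < u := by linarith
  have a1 : c * (n * S) * t ≤ c * m * w := by
    have := mul_le_mul_of_nonneg_left h1 hn
    rw [hd]
    linarith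
  have a2 : c * (n * S) ≤ c * m := by
    refine le_of_mul_le_mul_right (a1.trans ?_) t0
    exact mul_le_mul_of_nonneg_left (by linarith) (by positivity)
  have a3 : c * (m + n * S) / u * t ≤ 4 * (c * m) := by
    rw [div_mul_eq_mul_div, div_le_iff₀ u0]
    calc c * (m + n * S) * t ≤ 2 * (c * m) * (2 * u) :=
          mul_le_mul (by linarith) (by linarith) t0.le (by positivity)
      _ = _ := by ring
  have a4 : K * (c * (c * n)) * t ≤ 768 * (c * m * w) := by
    calc K * (c * (c * n)) * t ≤ 2 * t * (c * (c * n)) * (3 * c * w) :=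
          mul_le_mul (mul_le_mul_of_nonneg_right (by linarith) (by positivity)) h3 t0.le
            (by positivity)
      _ = 6 * n * w * (c ^ 3 * t) := by ring
      _ ≤ 6 * n * w * (128 * d) := mul_le_mul_of_nonneg_left h2 (by positivity)
      _ = _ := by rw [hd]; ring
  have a5 := mul_le_mul_of_nonneg_left a3 (show 0 ≤ 8 * w by linarith)
  have a6 := mul_le_mul_of_nonneg_right he t0.le
  linarith

theorem fu3_star {n c m d x : ℕ} (h : Par n c d x) (hm : c * m = d * n) (h2m : 2 * m ≤ n.choose c)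
    (hB : 16 * ((n : ℝ) - x) < (x : ℝ) - c + 2)
    (hS : n / ((n : ℝ) - x + 1) ≤ Lam n c d ∨ 2 * log (n / c) ≤ 7 * lg n c d) :
    ∃ J : Finset (Finset (Fin n)), Reg n c m J ∧
      ex n c m #(shadow J) * ((x : ℝ) - c + 2) ≤ 801 * (c * m * ((n : ℝ) - x)) := by
  obtain ⟨hm1, hmC, -, -, hiff⟩ := h.size hm
  have h2d := hiff.1 h2m
  have hc2 := h.hc
  have hx := h.hx
  have hB' : 16 * n + c < 17 * x + 2 := by
    have : (16 : ℝ) * n + c < 17 * x + 2 := by linarith
    exact_mod_cast this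
  obtain ⟨y, hy⟩ : ∃ y, y + 7 * n = 8 * x := ⟨8 * x - 7 * n, by omega⟩
  have hyR : (y : ℝ) + 7 * n = 8 * x := by exact_mod_cast hy
  have h1 := star_num h h2d hB hS
  rw [show x - 1 - 7 * (n - x) = y - 1 by omega] at h1
  obtain ⟨h2, h3⟩ := err_num h h2d hB
  obtain ⟨J, hJ, hle⟩ := star_lo (n := n) (c := c) (m := m) (y := y) (by omega) (by omega)
    (by omega) hm1 hmC.le ⟨d, by rw [hm, mul_comm]⟩
  rw [show (n : ℝ) - y = 8 * ((n : ℝ) - x) by linarith] at hle
  refine ⟨J, hJ, fu3_real (by positivity) (by positivity) (by positivity) (by positivity) ?_ hB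
    (by linarith) (by ring) (by exact_mod_cast hm) h1 h2 h3 hle⟩
  have : (x : ℝ) + 1 ≤ n := by exact_mod_cast hx
  linarith

theorem up_lo_order : ∃ C : ℝ, 0 < C ∧
    ∀ n c m d x : ℕ, Par n c d x → c * m = d * n → 2 * m ≤ n.choose c →
      ∃ J : Finset (Finset (Fin n)), Reg n c m J ∧ ex n c m #(shadow J) ≤ C * eL n c m x := by
  obtain ⟨C1, hC1, H1⟩ := upper_first
  obtain ⟨C2, hC2, N, H2⟩ := t2_lo
  refine ⟨17 * C1 + 801 + (N : ℝ) ^ 2 + 2 * C2 + 2 * C1 * C2, by positivity,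
    fun n c m d x h hm h2m => ?_⟩
  obtain ⟨hm1, hmC, -, hlg, hiff⟩ := h.size hm
  have h2d := hiff.1 h2m
  have hc2 := h.hc
  have hcn := h.hcn
  have hx := h.hx
  have hcx := h.c_le
  have hdvd : n ∣ c * m := ⟨d, by rw [hm, mul_comm]⟩
  have hw : (1 : ℝ) ≤ (n : ℝ) - x := by
    have : (x : ℝ) + 1 ≤ n := by exact_mod_cast hx
    linarith
  have ht : (1 : ℝ) ≤ (x : ℝ) - c + 2 := by
    have : (c : ℝ) ≤ x + 1 := by exact_mod_cast hcx
    linarith
  have hcR : (2 : ℝ) ≤ c := by exact_mod_cast hc2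
  have hmR : (1 : ℝ) ≤ m := by exact_mod_cast hm1
  have hP : (0 : ℝ) ≤ c * m := by positivity
  have hQ : (0 : ℝ) ≤ c * m * ((n : ℝ) - x) := mul_nonneg hP (by linarith)
  have fin : ∀ C' : ℝ, C' ≤ 17 * C1 + 801 + (N : ℝ) ^ 2 + 2 * C2 + 2 * C1 * C2 → ∀ e : ℝ,
      e * ((x : ℝ) - c + 2) ≤ C' * (c * m * ((n : ℝ) - x)) →
      e ≤ (17 * C1 + 801 + (N : ℝ) ^ 2 + 2 * C2 + 2 * C1 * C2) * eL n c m x := fun C' h1 e h2 => by
    rw [eL, ← mul_div_assoc, le_div_iff₀ (by linarith)]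
    exact h2.trans (mul_le_mul_of_nonneg_right h1 hQ)
  have p1 : 0 ≤ (N : ℝ) ^ 2 := by positivity
  have p2 : 0 ≤ C1 * C2 := by positivity
  rcases le_or_gt ((x : ℝ) - c + 2) (16 * ((n : ℝ) - x)) with hA | hB
  · obtain ⟨J, hJ, hle⟩ := H1 n c m d x h hm
    refine ⟨J, hJ, fin (17 * C1) (by linarith) _ (hle.trans ?_)⟩
    have h3 : ((n : ℝ) - c + 1) * (c * m) ≤ 17 * ((n : ℝ) - x) * (c * m) :=
      mul_le_mul_of_nonneg_right (by linarith) hP
    have := mul_le_mul_of_nonneg_left h3 hC1.le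
    linarith
  by_cases hS : n / ((n : ℝ) - x + 1) ≤ Lam n c d ∨ 2 * log (n / c) ≤ 7 * lg n c d
  · obtain ⟨J, hJ, hle⟩ := fu3_star h hm h2m hB hS
    exact ⟨J, hJ, fin 801 (by linarith) _ hle⟩
  obtain ⟨hS1, hS2⟩ := not_or.1 hS
  obtain ⟨w1, w2, w3⟩ := t2_width h h2d hB (not_le.1 hS1).le (not_le.1 hS2).le
  have htn : (x : ℝ) - c + 2 ≤ n := by linarith
  rcases lt_or_ge n N with hN | hN
  · obtain ⟨J, hJ, -, hle⟩ := triv_up (m' := n.choose c - m) (by omega) (by omega) hm1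
      (by omega) hdvd
    refine ⟨J, hJ, fin ((N : ℝ) ^ 2) (by linarith) _ ?_⟩
    have hNR : (n : ℝ) ≤ N := by exact_mod_cast hN.le
    calc _ ≤ n * (c * m) * ((x : ℝ) - c + 2) := mul_le_mul_of_nonneg_right hle (by linarith)
      _ ≤ N * (c * m) * N :=
        mul_le_mul (mul_le_mul_of_nonneg_right hNR hP) (htn.trans hNR) (by linarith) (by positivity)
      _ = (N : ℝ) ^ 2 * (c * m * 1) := by ring
      _ ≤ _ := mul_le_mul_of_nonneg_left (mul_le_mul_of_nonneg_left hw hP) p1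
  have hA0 : 0 ≤ log n / log (n / c) * lg n c d := by
    have h8 : (8 : ℝ) * c ≤ n := by exact_mod_cast w2
    exact mul_nonneg (div_nonneg (log_nonneg (by linarith))
      (log_nonneg (by rw [le_div_iff₀ (by linarith)]; linarith))) h.lg_pos.le
  rcases le_or_gt (C2 * (log n / log (n / c) * lg n c d)) c with hc | hc
  · have hCn : n.choose c ≤ n * m := by
      have hCpos : (0 : ℝ) < n.choose c := by exact_mod_cast (by omega : 0 < n.choose c)
      rw [hlg, log_le_log_iff (by positivity) (by linarith), div_le_iff₀ (by linarith)] at w3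
      exact_mod_cast w3
    obtain ⟨J, hJ, hle⟩ := H2 n c m hN (by omega) w2 hdvd h2m hCn (by rwa [← hlg])
    rw [← hlg] at hle
    refine ⟨J, hJ, fin (2 * C2) (by linarith) _ ?_⟩
    generalize log n / log (n / c) * lg n c d = A0 at *
    calc _ ≤ C2 * (m * A0) * ((x : ℝ) - c + 2) := mul_le_mul_of_nonneg_right hle (by linarith)
      _ ≤ C2 * (m * A0) * n := mul_le_mul_of_nonneg_left htn (by positivity)
      _ = C2 * m * (n * A0) := by ring
      _ ≤ C2 * m * (2 * (c * ((n : ℝ) - x))) := mul_le_mul_of_nonneg_left w1 (by positivity)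
      _ = _ := by ring
  · obtain ⟨J, hJ, hle⟩ := H1 n c m d x h hm
    refine ⟨J, hJ, fin (2 * C1 * C2) (by linarith) _ (hle.trans ?_)⟩
    generalize log n / log (n / c) * lg n c d = A0 at *
    have h3 : ((n : ℝ) - c + 1) * c ≤ C2 * (2 * (c * ((n : ℝ) - x))) :=
      calc _ ≤ n * (C2 * A0) := mul_le_mul (by linarith) hc.le (by linarith) (by linarith)
        _ = C2 * (n * A0) := by ring
        _ ≤ _ := mul_le_mul_of_nonneg_left w1 hC2.le
    calc _ = C1 * m * (((n : ℝ) - c + 1) * c) := by ring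
      _ ≤ C1 * m * (C2 * (2 * (c * ((n : ℝ) - x)))) := mul_le_mul_of_nonneg_left h3 (by positivity)
      _ = _ := by ring

end Pool.Agent.P.MP_4f3dfd_co.Ex
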