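import Mathlib
import Pool.Agent.P.MP_4f3dfd_co.FDefs
import Pool.Agent.P.MP_4f3dfd_co.ENum
import Pool.Agent.P.MP_4f3dfd_co.BNum
import Pool.Agent.P.MP_4f3dfd_co.FC5
import Pool.Agent.P.MP_4f3dfd_co.FU2
import Pool.Agent.P.MP_4f3dfd_co.FT6
import Pool.Agent.P.MP_4f3dfd_co.FT7

set_option autoImplicit false
set_option linter.unusedSectionVars false
set_option linter.unusedVariables false

namespace Pool.Agent.P.MP_4f3dfd_co.Ex

open Finset Real

variable {V : Type*} [DecidableEq V]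

theorem ft8_log {n k : ℝ} (hk : 1 ≤ k) (h8 : 8 * k ≤ n) :
    1 ≤ log n / log (n / k) ∧ log n / log (n / (k + 1)) ≤ 3 / 2 * (log n / log (n / k)) := by
  have hk0 : 0 < k := by linarith
  have hn0 : 0 < n := by linarith
  have h2 : 0 < log 2 := log_pos (by norm_num)
  have a1 : 3 * log 2 ≤ log (n / k) := by
    have e : 3 * log 2 = log 8 := by
      rw [show (8 : ℝ) = 2 ^ 3 by norm_num, log_pow]; norm_num
    rw [e]
    exact log_le_log (by norm_num) (by rw [le_div_iff₀ hk0]; linarith)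
  have a2 : log (n / k) ≤ log n := log_le_log (by positivity) (div_le_self hn0.le hk)
  have a3 : log (n / k) - log 2 ≤ log (n / (k + 1)) := by
    rw [← log_div (by positivity) (by norm_num)]
    refine log_le_log (by positivity) ?_
    rw [div_div]
    exact div_le_div_of_nonneg_left hn0.le (by linarith) (by linarith)
  have a4 : 0 < log (n / k) := by linarith
  have a5 : 0 < log (n / (k + 1)) := by linarith
  refine ⟨by rw [le_div_iff₀ a4]; linarith, ?_⟩
  have a6 : 0 ≤ log n := by linarith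
  have a7 : log n / log (n / (k + 1)) ≤ log n / (2 / 3 * log (n / k)) :=
    div_le_div_of_nonneg_left a6 (by linarith) (by linarith)
  refine a7.trans (le_of_eq ?_)
  field_simp

theorem ft8_fin {n k c m e z x R A E : ℝ} (hk : 0 ≤ k) (hc : 0 ≤ c) (hcn : c ≤ n) (hm : 0 ≤ m)
    (hz : z ≤ m) (hx : 0 ≤ x) (hA : 2 / 3 ≤ A) (h1 : (k + 1) * (m - z) ≤ m / 2)
    (h2 : (k + 1) * x ≤ E * (c * m)) (hE : E ≤ 5544 * A) (h3 : k * R ≤ n * m)
    (he : e ≤ c * (m - z) + x + R) : k * e ≤ 6000 * (n * m * A) := by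
  have hn : 0 ≤ n := hc.trans hcn
  have b0 : c * m ≤ n * m := mul_le_mul_of_nonneg_right hcn hm
  have b00 : 0 ≤ c * m := mul_nonneg hc hm
  have b1 : k * (m - z) ≤ m / 2 := by nlinarith only [hz, h1]
  have b2 : c * (k * (m - z)) ≤ c * (m / 2) := mul_le_mul_of_nonneg_left b1 hc
  have b3 : E * (c * m) ≤ 5544 * A * (n * m) :=
    (mul_le_mul_of_nonneg_right hE b00).trans
      (mul_le_mul_of_nonneg_left b0 (by linarith))
  have b4 : k * e ≤ k * (c * (m - z) + x + R) := mul_le_mul_of_nonneg_left he hk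
  have b5 : 2 / 3 * (n * m) ≤ A * (n * m) := mul_le_mul_of_nonneg_right hA (by positivity)
  have b6 : 0 ≤ n * m := by positivity
  nlinarith only [hx, h2, h3, b0, b00, b2, b3, b4, b5]

theorem t2_hi : ∃ C : ℝ, 0 < C ∧ ∃ N : ℕ, ∀ n c k m m' : ℕ, N ≤ n → c + k = n →
    m + m' = n.choose c → 1 ≤ k → 8 * k ≤ n → n ∣ c * m → 2 * m' ≤ n.choose c →
    n.choose c ≤ n * m' → C * (log n / log (n / k) * log ((n.choose c : ℝ) / m')) ≤ k →
    ∃ J : Finset (Finset (Fin n)), Reg n c m J ∧ k * ex n c m #(shadow J) ≤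
      C * (n * m' * (log n / log (n / k) * log ((n.choose c : ℝ) / m'))) := by
  obtain ⟨N1, hpar⟩ := t2_par
  obtain ⟨N2, hbig⟩ := Off.big_choose 5 1
  refine ⟨6000, by norm_num, max N1 N2, ?_⟩
  intro n c k m m' hN hk hm hk1 h8 hdvd h2 hC hA0
  have hN1 : N1 ≤ n := (le_max_left _ _).trans hN
  have hN2 : N2 ≤ n := (le_max_right _ _).trans hN
  haveI : NeZero n := ⟨by omega⟩
  have hsym : n.choose c = n.choose k := Nat.choose_symm_of_eq_add hk.symm
  have hCpos : 0 < n.choose c := Nat.choose_pos (by omega)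
  have hm'1 : 1 ≤ m' := by
    rcases Nat.eq_zero_or_pos m' with h | h
    · rw [h, mul_zero] at hC; omega
    · exact h
  have hm1 : 1 ≤ m := by omega
  have rk : (1 : ℝ) ≤ k := by exact_mod_cast hk1
  have r8 : 8 * (k : ℝ) ≤ n := by exact_mod_cast h8
  have rn : (0 : ℝ) < n := by linarith
  have rm' : (0 : ℝ) < m' := by exact_mod_cast hm'1
  have rC : (0 : ℝ) < n.choose c := by exact_mod_cast hCpos
  have r2 : 2 * (m' : ℝ) ≤ n.choose c := by exact_mod_cast h2
  have rC' : (n.choose c : ℝ) ≤ n * m' := by exact_mod_cast hC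
  have rck : (c : ℝ) + k = n := by exact_mod_cast hk
  obtain ⟨g1, g2⟩ := ft8_log rk r8
  set Λ := log (n : ℝ) / log (n / k) with hΛ
  set L := log ((n.choose c : ℝ) / m') with hL
  have hl2 : 2 / 3 ≤ log 2 := by have := log_two_gt_d9; linarith
  have hL2 : log 2 ≤ L := log_le_log (by norm_num) (by rw [le_div_iff₀ rm']; linarith)
  have hA : 2 / 3 ≤ Λ * L := by nlinarith only [g1, hl2, hL2]
  have hk6 : 6 ≤ k := by
    have : (6 : ℝ) ≤ k := by linarith
    exact_mod_cast this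
  obtain ⟨ρ, hρ, h12, hρ66, hε⟩ := hpar n (k + 1) hN1 (by omega) (by omega)
  set μ : ℝ := m' / (2 * n.choose c) with hμ
  have hμ0 : 0 < μ := by positivity
  have hμ1 : μ ≤ 1 := by rw [hμ, div_le_one (by positivity)]; linarith only [rm', r2]
  have hlog : log (1 / μ) = log 2 + L := by
    rw [hL, ← log_mul (by norm_num) (by positivity), hμ]
    congr 1
    field_simp
  have hρ99 : ((6 * ρ : ℕ) : ℝ) ≤ 99 * Λ := by
    have e : ((k + 1 : ℕ) : ℝ) = k + 1 := by push_cast; ring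
    rw [e] at hρ66
    linarith only [g2, hρ66]
  have hprod : ((6 * ρ : ℕ) : ℝ) * (1 + log (1 / μ)) ≤ 99 * Λ * (7 / 2 * L) := by
    refine mul_le_mul hρ99 (by rw [hlog]; linarith only [hl2, hL2]) (by rw [hlog]; linarith) (by linarith)
  have hμC : μ * n.choose c = m' / 2 := by rw [hμ]; field_simp
  have hε' : 2 * ((k + 1 : ℕ) : ℝ) * n * eps n (k + 1) ρ ≤ μ := by
    have e1 : 1 / (2 * (n : ℝ)) ≤ μ := by
      rw [hμ, div_le_div_iff₀ (by positivity) (by positivity)]
      linarith only [rC']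
    refine le_trans ?_ e1
    rw [le_div_iff₀ (by positivity)]
    refine le_trans (le_of_eq ?_) hε
    ring
  have hAA : 8 * ((6 * ρ : ℕ) : ℝ) * (1 + log (1 / μ)) ≤ ((k + 1 : ℕ) : ℝ) := by
    push_cast at hprod ⊢
    nlinarith only [hA0, hA, hprod]
  obtain ⟨T, D, hP, ⟨d, hd⟩, hD, hgap, hexc⟩ := t2_down (n := n) (l := k + 1) hρ h12 (by omega)
    hμ0 hμ1 hAA hε' (t := m')
    (by rw [Nat.add_sub_cancel, ← hsym, mul_assoc, hμC]; linarith only [])
    (by rw [Nat.add_sub_cancel, ← hsym]; omega)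
  obtain ⟨J, hJ, hex⟩ := round_co hk (by omega) hm hP hd hm1 hD hdvd
  refine ⟨J, hJ, ?_⟩
  rw [Nat.add_sub_cancel, ← hsym, hμC] at hgap
  have e1 : ((k + 1 : ℕ) : ℝ) = k + 1 := by push_cast; ring
  rw [e1] at hgap hexc
  have e2 : (n : ℝ) - (k + 1) + 1 = c := by linarith only [rck]
  rw [e2] at hexc
  have h5 : n ^ 5 ≤ n.choose k := hbig n n k hN2 (by omega) (by omega) (by omega)
  have h3 : (k : ℝ) * (((n : ℝ) - c + 1) * (c * (c * n))) ≤ n * m' := by
    have e3 : (n : ℝ) - c + 1 = k + 1 := by linarith only [rck]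
    have h6 : k * ((k + 1) * (c * (c * n))) ≤ n * m' := by
      refine le_trans ?_ (h5.trans (hsym ▸ hC))
      have : n ^ 5 = n * (n * (n * (n * n))) := by ring
      rw [this]
      gcongr <;> omega
    rw [e3]
    exact_mod_cast h6
  refine ft8_fin (E := 16 * ((6 * ρ : ℕ) : ℝ) * (1 + log (1 / μ))) (by linarith only [hA0, hA])
    (Nat.cast_nonneg c) (by linarith only [rck, hA0, hA]) rm'.le (by exact_mod_cast hD) (Nat.cast_nonneg _) hA hgap
    hexc (by nlinarith only [hprod]) h3 hex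

end Pool.Agent.P.MP_4f3dfd_co.Ex
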