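import Mathlib
import Pool.Agent.P.MP_4f3dfd_co.FDefs
import Pool.Agent.P.MP_4f3dfd_co.FN3
import Pool.Agent.P.MP_4f3dfd_co.FN8
import Pool.Agent.P.MP_4f3dfd_co.FU2
import Pool.Agent.P.MP_4f3dfd_co.FT8

set_option autoImplicit false
set_option linter.unusedSectionVars false
set_option linter.unusedVariables false

namespace Pool.Agent.P.MP_4f3dfd_co.Ex

open Finset Real

variable {V : Type*} [DecidableEq V]

theorem fu4_star {k c n t w d m' S : ℝ} (hk : 1 ≤ k) (hw : 1 ≤ w) (ht : w ≤ t) (hc0 : 0 ≤ c)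
    (hc : c ≤ 2 * t) (hn : 0 ≤ n) (hm : 0 ≤ m') (hS0 : 0 ≤ S) (hd : k * m' = d * n)
    (hS : t * (n * S) ≤ m' * w) (h3 : k ^ 3 * t ≤ 128 * d) (h4 : t ≤ 3 * k * w) :
    c * (n * S) + 8 * w * m' + (k + 1) * (c * (c * n)) ≤ 3082 * (m' * w) := by
  have ht0 : 0 ≤ t := by linarith
  have hnS : 0 ≤ n * S := mul_nonneg hn hS0
  have a1 : c * (n * S) ≤ 2 * (m' * w) := by
    have := mul_le_mul_of_nonneg_right hc hnS
    linarith
  have a2 : c * c ≤ 4 * (t * t) := by nlinarith
  have a3 : t * t ≤ t * (3 * k * w) := mul_le_mul_of_nonneg_left h4 ht0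
  have a4 : c * c ≤ 12 * (t * k * w) := by linarith
  have a5 : (k + 1) * (c * (c * n)) ≤ (2 * k) * (12 * (t * k * w) * n) := by
    have e : c * (c * n) = c * c * n := by ring
    rw [e]
    exact mul_le_mul (by linarith) (mul_le_mul_of_nonneg_right a4 hn) (by positivity) (by linarith)
  have a6 : k * ((2 * k) * (12 * (t * k * w) * n)) ≤ k * (3072 * (m' * w)) := by
    have e1 : k * ((2 * k) * (12 * (t * k * w) * n)) = 24 * (k ^ 3 * t) * (w * n) := by ring
    have e2 : k * (3072 * (m' * w)) = 24 * (128 * d) * (w * n) := by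
      have : k * (3072 * (m' * w)) = 3072 * (k * m') * w := by ring
      rw [this, hd]; ring
    rw [e1, e2]
    have hwn : 0 ≤ w * n := mul_nonneg (by linarith) hn
    exact mul_le_mul_of_nonneg_right (by linarith) hwn
  have a7 := le_of_mul_le_mul_left a6 (by linarith : (0 : ℝ) < k)
  linarith

theorem up_hi_order : ∃ C : ℝ, 0 < C ∧
    ∀ n c k m m' d y : ℕ, c + k = n → m + m' = n.choose c → Par n k d y → k * m' = d * n →
      n ∣ c * m → 2 * m' ≤ n.choose c →
      ∃ J : Finset (Finset (Fin n)), Reg n c m J ∧ ex n c m #(shadow J) ≤ C * (m' * ((n : ℝ) - y)) := by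
  obtain ⟨C2, hC2, N, hT⟩ := t2_hi
  refine ⟨3082 + N + 2 * C2, by positivity, ?_⟩
  intro n c k m m' d y hck hm hP hkm hdvd h2m
  have hk2 := hP.hc
  have hkn := hP.hcn
  have hyn := hP.hx
  have hky := hP.c_le
  have hsym : n.choose c = n.choose k := by
    rw [← hck]; exact Nat.choose_symm_add
  obtain ⟨hm1, hmC, hdm, hlg, hiff⟩ := hP.size hkm
  have h2 : 2 * d ≤ (n - 1).choose (k - 1) := hiff.1 (by rw [← hsym]; exact h2m)
  have hm0 : 1 ≤ m := by omega
  have hc1 : 1 ≤ c := by omega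
  have hcn : c ≤ n := by omega
  have hcR : (c : ℝ) + k = n := by exact_mod_cast hck
  have hw : (1 : ℝ) ≤ (n : ℝ) - y := by
    have : ((y + 1 : ℕ) : ℝ) ≤ n := by exact_mod_cast hyn
    push_cast at this; linarith
  have hm'R : (1 : ℝ) ≤ m' := by exact_mod_cast hm1
  have hkR : (2 : ℝ) ≤ k := by exact_mod_cast hk2
  have hc0 : (0 : ℝ) ≤ c := by positivity
  have hn0 : (0 : ℝ) < n := by linarith
  have hN0 : (0 : ℝ) ≤ N := by positivity
  have hF : (0 : ℝ) ≤ m' * ((n : ℝ) - y) := by positivity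
  have hkmR : (k : ℝ) * m' = d * n := by exact_mod_cast hkm
  have fin : ∀ {a b : ℝ}, b ≤ 3082 + N + 2 * C2 → a ≤ b * (m' * ((n : ℝ) - y)) →
      a ≤ (3082 + N + 2 * C2) * (m' * ((n : ℝ) - y)) := fun hb ha =>
    ha.trans (mul_le_mul_of_nonneg_right hb hF)
  by_cases ht : (y : ℝ) - k + 2 ≤ 16 * ((n : ℝ) - y)
  · obtain ⟨J, hJ, hJ1, -⟩ := triv_up hc1 hcn hm0 hm hdvd
    refine ⟨J, hJ, fin (b := 17) (by linarith) (hJ1.trans ?_)⟩
    have : (c : ℝ) ≤ 17 * ((n : ℝ) - y) := by linarith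
    have := mul_le_mul_of_nonneg_right this (by linarith : (0 : ℝ) ≤ m')
    linarith
  have ht := not_le.1 ht
  by_cases hc : n / ((n : ℝ) - y + 1) ≤ Lam n k d ∨ 2 * log (n / k) ≤ 7 * lg n k d
  · have hs := star_num hP h2 ht hc
    obtain ⟨he1, he2⟩ := err_num hP h2 ht
    have htN : 16 * (n - y) + k < y + 2 := by
      have : ((16 * (n - y) + k : ℕ) : ℝ) < ((y + 2 : ℕ) : ℝ) := by
        push_cast [Nat.cast_sub hyn.le]; linarith
      exact_mod_cast this
    have e1 : y - 7 * (n - y) - 1 = y - 1 - 7 * (n - y) := by omega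
    have e2 : (n : ℝ) - ((y - 7 * (n - y) : ℕ) : ℝ) = 8 * ((n : ℝ) - y) := by
      rw [Nat.cast_sub (by omega)]
      push_cast [Nat.cast_sub hyn.le]; ring
    set S : ℕ := (y - 1 - 7 * (n - y)).choose (k - 1) with hSdef
    have hS0 : (0 : ℝ) ≤ S := by positivity
    have hS : ((y : ℝ) - k + 2) * (n * S) ≤ m' * ((n : ℝ) - y) := by
      have h1 := mul_le_mul_of_nonneg_right hs hn0.le
      have h3 : (k : ℝ) * (((y : ℝ) - k + 2) * (n * S)) ≤ k * (m' * ((n : ℝ) - y)) := by
        have e3 : (k : ℝ) * (m' * ((n : ℝ) - y)) = d * ((n : ℝ) - y) * n := by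
          have : (k : ℝ) * (m' * ((n : ℝ) - y)) = k * m' * ((n : ℝ) - y) := by ring
          rw [this, hkmR]; ring
        rw [e3]; linarith only [h1]
      exact le_of_mul_le_mul_left h3 (by linarith only [hkR])
    have hS' : n * (y - 7 * (n - y) - 1).choose (k - 1) ≤ m' := by
      rw [e1]
      have h4 : ((n : ℝ) - y) * (n * S) ≤ ((n : ℝ) - y) * m' := by
        have : ((n : ℝ) - y) * (n * S) ≤ ((y : ℝ) - k + 2) * (n * S) :=
          mul_le_mul_of_nonneg_right (by linarith) (by positivity)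
        linarith only [hS, this]
      have h5 := le_of_mul_le_mul_left h4 (by linarith only [hw])
      exact_mod_cast h5
    obtain ⟨J, hJ, hJ1⟩ := star_hi (y := y - 7 * (n - y)) hck hc1 (by omega) (by omega) (by omega)
      hm0 hm hdvd hS'
    refine ⟨J, hJ, fin (b := 3082) (by linarith only [hC2]) (hJ1.trans ?_)⟩
    rw [e1, e2]
    have e4 : (n : ℝ) - c + 1 = k + 1 := by linarith only [hcR]
    rw [e4]
    exact fu4_star (by linarith only [hkR]) hw (by linarith) hc0 (by linarith) hn0.le (by linarith only [hm'R]) hS0 hkmR hS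
      he1 he2
  · rw [not_or, not_le, not_le] at hc
    obtain ⟨hA, h8, hL⟩ := t2_width hP h2 ht hc.1.le hc.2.le
    rw [hlg, ← hsym] at hA hL
    set A0 : ℝ := log n / log (n / k) * log ((n.choose c : ℝ) / m') with hA0
    have hA' : n * m' * A0 ≤ k * (2 * (m' * ((n : ℝ) - y))) := by
      have := mul_le_mul_of_nonneg_right hA (by linarith only [hm'R] : (0 : ℝ) ≤ m')
      linarith
    have hA2 : C2 * (n * m' * A0) ≤ k * (2 * C2 * (m' * ((n : ℝ) - y))) := by
      have := mul_le_mul_of_nonneg_left hA' hC2.le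
      linarith only [this]
    by_cases hN : N ≤ n
    · by_cases hk : C2 * A0 ≤ k
      · have hCn : n.choose c ≤ n * m' := by
          have hCpos : (0 : ℝ) < n.choose c := by exact_mod_cast Nat.choose_pos hcn
          have h6 := (log_le_log_iff (by positivity) hn0).1 hL
          rw [div_le_iff₀ (by linarith only [hm'R])] at h6
          exact_mod_cast h6
        obtain ⟨J, hJ, hJ1⟩ := hT n c k m m' hN hck hm (by omega) h8 hdvd h2m hCn hk
        refine ⟨J, hJ, fin (b := 2 * C2) (by linarith only []) ?_⟩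
        exact le_of_mul_le_mul_left (hJ1.trans hA2) (by linarith only [hkR])
      · have hk := (not_le.1 hk).le
        obtain ⟨J, hJ, hJ1, -⟩ := triv_up hc1 hcn hm0 hm hdvd
        refine ⟨J, hJ, fin (b := 2 * C2) (by linarith only []) (hJ1.trans ?_)⟩
        have h7 : (k : ℝ) * (c * m') ≤ C2 * (n * m' * A0) := by
          have h8 : (c : ℝ) * m' ≤ n * m' := mul_le_mul_of_nonneg_right (by linarith) (by linarith only [hm'R])
          have h9 : (k : ℝ) * (c * m') ≤ (C2 * A0) * (n * m') :=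
            mul_le_mul hk h8 (by positivity) (by linarith)
          linarith only [h9]
        exact le_of_mul_le_mul_left (h7.trans hA2) (by linarith only [hkR])
    · obtain ⟨J, hJ, hJ1, -⟩ := triv_up hc1 hcn hm0 hm hdvd
      refine ⟨J, hJ, fin (b := N) (by linarith only [hC2]) (hJ1.trans ?_)⟩
      have h7 : (c : ℝ) ≤ N := by exact_mod_cast (by omega : c ≤ N)
      have h8 : (m' : ℝ) ≤ m' * ((n : ℝ) - y) := le_mul_of_one_le_right (by linarith only [hm'R]) hw
      exact mul_le_mul h7 h8 (by linarith only [hm'R]) hN0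

end Pool.Agent.P.MP_4f3dfd_co.Ex
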