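import Mathlib
import Pool.Agent.P.MP_4f3dfd_co.FDefs
import Pool.Agent.P.MP_4f3dfd_co.ENum
import Pool.Agent.P.MP_4f3dfd_co.FN2
import Pool.Agent.P.MP_4f3dfd_co.FN3
import Pool.Agent.P.MP_4f3dfd_co.FN4

set_option autoImplicit false
set_option linter.unusedSectionVars false
set_option linter.unusedVariables false

namespace Pool.Agent.P.MP_4f3dfd_co.Ex

open Finset Real

variable {V : Type*} [DecidableEq V]

theorem fn9_exp {c K δ u : ℝ} (hc : 2 ≤ c) (hu : 1 ≤ u) (h : 2 + 4 * u ≤ δ * K) :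
    2 * c ^ 2 * exp (-(δ * (K * log c))) * u ≤ 1 := by
  have hc0 : 0 < c := by linarith
  have hl : 1 / 2 ≤ log c := by
    have h1 := log_two_gt_d9
    have h2 : log 2 ≤ log c := log_le_log (by norm_num) hc
    linarith
  have h1 : 2 * log c + 2 * u ≤ δ * (K * log c) := by
    have : (2 + 4 * u) * log c ≤ δ * K * log c := mul_le_mul_of_nonneg_right h (by linarith)
    nlinarith
  have h2 : c ^ 2 * (2 * u) ≤ exp (δ * (K * log c)) := by
    have e1 : exp (2 * log c) = c ^ 2 := by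
      rw [show (2 : ℝ) * log c = log c + log c by ring, exp_add, exp_log hc0]; ring
    have e2 : 2 * u ≤ exp (2 * u) := by
      have := add_one_le_exp (2 * u); linarith
    calc c ^ 2 * (2 * u) ≤ c ^ 2 * exp (2 * u) := by gcongr
      _ = exp (2 * log c + 2 * u) := by rw [exp_add, e1]
      _ ≤ _ := exp_le_exp.2 h1
  have h3 : exp (-(δ * (K * log c))) * exp (δ * (K * log c)) = 1 := by
    rw [← exp_add]; simp
  have h4 := exp_pos (-(δ * (K * log c)))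
  calc 2 * c ^ 2 * exp (-(δ * (K * log c))) * u
      = exp (-(δ * (K * log c))) * (c ^ 2 * (2 * u)) := by ring
    _ ≤ exp (-(δ * (K * log c))) * exp (δ * (K * log c)) := by gcongr
    _ = 1 := h3

theorem fn9_last {c S N d η u : ℝ} (hη : 0 < η) (hu : η * u = 1) (hu1 : 1 ≤ u) (hc0 : 0 ≤ c)
    (hS0 : 0 ≤ S) (hc : c ≤ N) (hS : S ≤ 2 * u * N) (hN : 4000 * u ^ 3 ≤ N)
    (hd : N ^ 5 ≤ 1000 * d) : c ^ 2 * S ^ 2 ≤ η * d := by
  have hN0 : 0 ≤ N := hc0.trans hc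
  have h1 : c ^ 2 * S ^ 2 ≤ N ^ 2 * (2 * u * N) ^ 2 := by gcongr
  have h2 : 4000 * u ^ 3 * N ^ 4 ≤ N * N ^ 4 := by gcongr
  have h3 : η * (4000 * u ^ 3 * N ^ 4) ≤ η * (1000 * d) := by
    apply mul_le_mul_of_nonneg_left _ hη.le
    calc _ ≤ N * N ^ 4 := h2
      _ = N ^ 5 := by ring
      _ ≤ _ := hd
  have h4 : η * (4000 * u ^ 3 * N ^ 4) = 1000 * (N ^ 2 * (2 * u * N) ^ 2) := by
    have : η * (4000 * u ^ 3 * N ^ 4) = (η * u) * (4000 * u ^ 2 * N ^ 4) := by ring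
    rw [this, hu]; ring
  linarith

theorem fn9_core (η u : ℝ) (hη : 0 < η) (hu : η * u = 1) (hu1 : 1 ≤ u) (n c d x : ℕ)
    (h : Par n c d x) (hK : 4000 * u ^ 4 * log c ≤ lg n c d)
    (hT : η * ((n : ℝ) - x) ≤ (x : ℝ) - c + 2) :
    ∃ y : ℕ, c ≤ y ∧ y ≤ x ∧ (n : ℝ) - y ≤ (1 + η) * ((n : ℝ) - x) ∧
      (1 - η) * ((x : ℝ) - c + 2) ≤ (y : ℝ) - c + 1 ∧
      (c : ℝ) * ((n : ℝ) - c + 2) * (y - 1).choose (c - 1) ≤ η * (d * ((n : ℝ) - x)) ∧
      (c : ℝ) ^ 2 * ((n : ℝ) - c + 2) ^ 2 ≤ η * d := by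
  have hc2 : (2 : ℝ) ≤ c := by exact_mod_cast h.hc
  have hη1 : η ≤ 1 := by nlinarith
  have hl : 1 / 2 ≤ log (c : ℝ) := by
    have h1 := log_two_gt_d9
    have h2 : log 2 ≤ log (c : ℝ) := log_le_log (by norm_num) hc2
    linarith
  have hcx := h.c_le
  have hcN := h.hc
  have hxn := h.hx
  have hx1 : (1 : ℝ) ≤ x := by exact_mod_cast (by omega : 1 ≤ x)
  have hW1 : (1 : ℝ) ≤ (n : ℝ) - x := by
    have : (x : ℝ) + 1 ≤ n := by exact_mod_cast hxn
    linarith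
  have hlam := h.one_le_lam (w := (n : ℝ) - x + 1) (by linarith) (by linarith)
  have hll : 0 ≤ log (lam n c d ((n : ℝ) - x + 1)) := log_nonneg hlam
  have hwL := h.wL
  have htL := h.tL
  have hlo : ((x - 1).choose (c - 1) : ℝ) ≤ d := by exact_mod_cast h.lo'
  have hd0 : (0 : ℝ) ≤ d := Nat.cast_nonneg d
  have hdec := h.dec
  have hnc : (n : ℝ) - c + 2 = ((n : ℝ) - x) + ((x : ℝ) - c + 2) := by ring
  have hxc : (x : ℝ) - c + 1 = ((x : ℝ) - c + 2) - 1 := by ring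
  rw [hxc] at htL
  rw [hnc]
  generalize lam n c d ((n : ℝ) - x + 1) = lm at hlam hll htL hdec
  generalize lg n c d = L at hK hwL htL hdec
  obtain ⟨W, hW⟩ : ∃ W : ℝ, W = (n : ℝ) - x := ⟨_, rfl⟩
  obtain ⟨T, hTd⟩ : ∃ T : ℝ, T = (x : ℝ) - c + 2 := ⟨_, rfl⟩
  rw [← hW] at hT hW1 hwL htL hdec ⊢
  rw [← hTd] at hT htL ⊢
  have hu2 : u ≤ u ^ 2 := by nlinarith only [hu, hu1, hη1]
  have hu3 : u ^ 2 ≤ u ^ 3 := by nlinarith only [hu1]
  have hu4 : u ^ 3 ≤ u ^ 4 := by nlinarith only [hu2]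
  have hKW : 4000 * u ^ 4 ≤ W := le_of_mul_le_mul_right (hK.trans hwL) (by linarith)
  have hηW : 4000 * u ^ 3 ≤ η * W := by
    have h1 : η * (4000 * u ^ 4) ≤ η * W := mul_le_mul_of_nonneg_left hKW hη.le
    have h2 : η * (4000 * u ^ 4) = (η * u) * (4000 * u ^ 3) := by ring
    rw [h2, hu] at h1; linarith
  have hT3 : 4000 * u ^ 3 ≤ T := hηW.trans hT
  have hηT : 4000 * u ^ 2 ≤ η * T := by
    have h1 : η * (4000 * u ^ 3) ≤ η * T := mul_le_mul_of_nonneg_left hT3 hη.le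
    have h2 : η * (4000 * u ^ 3) = (η * u) * (4000 * u ^ 2) := by ring
    rw [h2, hu] at h1; linarith
  have hL : 2000 * u ^ 4 ≤ L := by
    have : 4000 * u ^ 4 * (1 / 2) ≤ 4000 * u ^ 4 * log (c : ℝ) := by gcongr
    linarith
  have hL1 : 1 ≤ L := by linarith
  have htL' : (T - 1) * L ≤ W * ((c : ℝ) - 1) := by
    have : (T - 1) * L ≤ (T - 1) * (L + log lm) :=
      mul_le_mul_of_nonneg_left (by linarith) (by linarith)
    linarith
  have hq : η * L ≤ 2 * ((c : ℝ) - 1) := by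
    have h1 : η * W * L ≤ 2 * (T - 1) * L :=
      mul_le_mul_of_nonneg_right (by linarith) (by linarith)
    have h2 : W * (η * L) ≤ W * (2 * ((c : ℝ) - 1)) := by linarith
    exact le_of_mul_le_mul_left h2 (by linarith)
  have hq5 : (6 : ℝ) ≤ c := by
    have h1 : η * (2000 * u ^ 4) ≤ η * L := mul_le_mul_of_nonneg_left hL hη.le
    have h2 : η * (2000 * u ^ 4) = (η * u) * (2000 * u ^ 3) := by ring
    rw [h2, hu] at h1; linarith
  have hS : W + T ≤ 2 * c * W := by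
    have h1 : (T - 1) * 1 ≤ (T - 1) * L := mul_le_mul_of_nonneg_left hL1 (by linarith)
    have h2 : 1 * 1 ≤ (c : ℝ) * W := mul_le_mul (by linarith) hW1 (by norm_num) (by linarith)
    linarith
  obtain ⟨s, hs1, hs2⟩ : ∃ s : ℕ, η ^ 2 / 4 * W ≤ s ∧ (s : ℝ) ≤ η ^ 2 / 4 * W + 1 :=
    ⟨⌈η ^ 2 / 4 * W⌉₊, Nat.le_ceil _, (Nat.ceil_lt_add_one (by positivity)).le⟩
  have hsW : (s : ℝ) ≤ η * W / 4 + 1 := by
    have : η * (η * W) ≤ 1 * (η * W) := mul_le_mul_of_nonneg_right hη1 (by linarith)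
    linarith
  have hsT : (s : ℝ) ≤ η * T / 4 + 1 := by
    have : η * (η * W) ≤ η * T := mul_le_mul_of_nonneg_left hT hη.le
    linarith
  have hηT1 : η * T ≤ T := by
    have : η * T ≤ 1 * T := mul_le_mul_of_nonneg_right hη1 (by linarith)
    linarith
  have hcs : c + s ≤ x := by
    have : (c : ℝ) + s ≤ x := by linarith
    exact_mod_cast this
  have hy : ((x - s : ℕ) : ℝ) = x - s := by rw [Nat.cast_sub (by omega)]
  refine ⟨x - s, by omega, by omega, ?_, ?_, ?_, ?_⟩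
  · rw [hy]; linarith
  · rw [hy]; linarith
  · have e1 : x - s - 1 = x - 1 - s := by omega
    rw [e1]
    have h1 := hdec s
    have hC0 : (0 : ℝ) ≤ (x - 1 - s).choose (c - 1) := Nat.cast_nonneg _
    generalize ((x - 1 - s).choose (c - 1) : ℝ) = C at h1 hC0 ⊢
    have h2 : η ^ 2 / 4 * (4000 * u ^ 4 * log (c : ℝ)) ≤ (L + log lm) * s / W := by
      rw [le_div_iff₀ (by linarith only [hu1, hu2, hu3, hu4, hKW])]
      calc η ^ 2 / 4 * (4000 * u ^ 4 * log (c : ℝ)) * W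
          = (4000 * u ^ 4 * log (c : ℝ)) * (η ^ 2 / 4 * W) := by ring
        _ ≤ (L + log lm) * s :=
          mul_le_mul (by linarith only [hll, hK]) hs1 (by positivity) (by linarith only [hu1, hll, hu2, hu3, hu4, hL])
    have h3 : C ≤ exp (-(η ^ 2 / 4 * (4000 * u ^ 4 * log (c : ℝ)))) * d := by
      calc C = C * 1 := by ring
        _ ≤ C * lm := mul_le_mul_of_nonneg_left hlam hC0
        _ ≤ _ := h1
        _ ≤ _ := mul_le_mul_of_nonneg_right (exp_le_exp.2 (by linarith only [h2])) hd0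
    have h4 : 2 + 4 * u ≤ η ^ 2 / 4 * (4000 * u ^ 4) := by
      have : η ^ 2 / 4 * (4000 * u ^ 4) = (η * u) ^ 2 * (1000 * u ^ 2) := by ring
      rw [this, hu]; linarith only [hu1, hu2]
    have h5 := fn9_exp hc2 hu1 h4
    have hE := exp_pos (-(η ^ 2 / 4 * (4000 * u ^ 4 * log (c : ℝ))))
    generalize exp (-(η ^ 2 / 4 * (4000 * u ^ 4 * log (c : ℝ)))) = E at h3 h5 hE
    have h6 : 2 * (c : ℝ) ^ 2 * E ≤ η := by
      have h7 : η * (2 * (c : ℝ) ^ 2 * E * u) ≤ η * 1 := mul_le_mul_of_nonneg_left h5 hη.le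
      have h8 : η * (2 * (c : ℝ) ^ 2 * E * u) = (η * u) * (2 * (c : ℝ) ^ 2 * E) := by ring
      rw [h8, hu] at h7; linarith only [h7]
    have hW0 : 0 ≤ W := by linarith only [hu1, hu2, hu3, hu4, hKW]
    calc (c : ℝ) * (W + T) * C ≤ c * (2 * c * W) * (E * d) := by gcongr
      _ = (2 * (c : ℝ) ^ 2 * E) * (d * W) := by ring
      _ ≤ η * (d * W) := by gcongr
  · have hc6 : 6 ≤ c := by exact_mod_cast hq5
    have hx5 : c + 5 ≤ x := by
      have : (c : ℝ) + 5 ≤ x := by linarith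
      exact_mod_cast this
    have h1 := err_five (q := c - 1) (τ := x - c) (by omega) (by omega)
    have e1 : c - 1 + (x - c) = x - 1 := by omega
    rw [e1] at h1
    have h2 : (((x - 1 : ℕ) : ℝ)) ^ 5 ≤ 1000 * ((x - 1).choose (c - 1) : ℝ) := by exact_mod_cast h1
    have e2 : ((x - 1 : ℕ) : ℝ) = x - 1 := by rw [Nat.cast_sub (by omega)]; simp
    rw [e2] at h2
    have hx5' : (c : ℝ) + 5 ≤ x := by exact_mod_cast hx5
    have hTN : T ≤ (x : ℝ) - 1 := by linarith only [hTd, hq5]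
    have hWu : W ≤ u * T := by
      have h3 : u * (η * W) ≤ u * T := mul_le_mul_of_nonneg_left hT (by linarith only [hu1])
      have h4 : u * (η * W) = (η * u) * W := by ring
      rw [h4, hu] at h3; linarith only [h3]
    have h5 : 1 * T ≤ u * T := mul_le_mul_of_nonneg_right hu1 (by linarith only [hu1, hT, hu2, hu3, hηW])
    have h6 : u * T ≤ u * ((x : ℝ) - 1) := mul_le_mul_of_nonneg_left hTN (by linarith only [hu1])
    exact fn9_last (N := (x : ℝ) - 1) hη hu hu1 (by linarith only [hq5]) (by linarith only [hu1, hT, hu2, hu3, hu4, hKW, hηW]) (by linarith only [hu1, hT, hTd, hu2, hu3, hηW]) (by linarith only [hWu, h5, h6])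
      (by linarith only [hT, hTd, hηW, hq5]) (by linarith only [hlo, h2])

/-- Choice of the clique size for the one-scale construction. -/
theorem one_scale (ε : ℝ) (hε : 0 < ε) : ∃ K1 : ℝ, 0 < K1 ∧ ∀ n c d x : ℕ, Par n c d x →
    K1 * log c ≤ lg n c d → ε * ((n : ℝ) - x) ≤ (x : ℝ) - c + 2 →
    ∃ y : ℕ, c ≤ y ∧ y ≤ x ∧ (n : ℝ) - y ≤ (1 + ε) * ((n : ℝ) - x) ∧
      (1 - ε) * ((x : ℝ) - c + 2) ≤ (y : ℝ) - c + 1 ∧
      (c : ℝ) * ((n : ℝ) - c + 2) * (y - 1).choose (c - 1) ≤ ε * (d * ((n : ℝ) - x)) ∧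
      (c : ℝ) ^ 2 * ((n : ℝ) - c + 2) ^ 2 ≤ ε * d := by
  have hη : 0 < min ε 1 := lt_min hε one_pos
  have hηε : min ε 1 ≤ ε := min_le_left _ _
  have hη1 : min ε 1 ≤ 1 := min_le_right _ _
  generalize min ε 1 = η at hη hηε hη1
  have hu1 : 1 ≤ 1 / η := by rw [le_div_iff₀ hη]; linarith
  refine ⟨4000 * (1 / η) ^ 4, by positivity, fun n c d x h hK hT => ?_⟩
  have hW : (0 : ℝ) ≤ (n : ℝ) - x := by
    have : (x : ℝ) ≤ n := by exact_mod_cast h.hx.le
    linarith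
  have hT0 : (0 : ℝ) ≤ (x : ℝ) - c + 2 := le_trans (by positivity) hT
  have hd0 : (0 : ℝ) ≤ d := Nat.cast_nonneg d
  obtain ⟨y, h1, h2, h3, h4, h5, h6⟩ := fn9_core η (1 / η) hη (by field_simp) hu1 n c d x h hK
    (le_trans (mul_le_mul_of_nonneg_right hηε hW) hT)
  refine ⟨y, h1, h2, h3.trans ?_, le_trans ?_ h4, h5.trans ?_, h6.trans ?_⟩
  · exact mul_le_mul_of_nonneg_right (by linarith) hW
  · exact mul_le_mul_of_nonneg_right (by linarith) hT0
  · exact mul_le_mul_of_nonneg_right hηε (mul_nonneg hd0 hW)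
  · exact mul_le_mul_of_nonneg_right hηε hd0

end Pool.Agent.P.MP_4f3dfd_co.Ex
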