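import Mathlib
import Pool.Agent.P.MP_4f3dfd_co.FDefs
import Pool.Agent.P.MP_4f3dfd_co.ENum
import Pool.Agent.P.MP_4f3dfd_co.BNum
import Pool.Agent.P.MP_4f3dfd_co.FC5
import Pool.Agent.P.MP_4f3dfd_co.FN3
import Pool.Agent.P.MP_4f3dfd_co.FN4
import Pool.Agent.P.MP_4f3dfd_co.FN7

set_option autoImplicit false
set_option linter.unusedSectionVars false
set_option linter.unusedVariables false

namespace Pool.Agent.P.MP_4f3dfd_co.Ex

open Finset Real

variable {V : Type*} [DecidableEq V]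

theorem fna_small {e L b u : ℝ} (he : 0 < e) (he1 : e ≤ 1 / 3) (hL : 30 / e ^ 3 ≤ L)
    (hb : 30 / e ^ 3 * b ≤ L) (hu : u ≤ 10 * exp b * L) : u ≤ 3 * e * exp (e * L) := by
  have he3 : 0 < e ^ 3 := by positivity
  have hL0 : 0 < L := lt_of_lt_of_le (by positivity) hL
  have h1 : 30 ≤ L * e ^ 3 := (div_le_iff₀ he3).1 hL
  have h2 : 30 * b ≤ L * e ^ 3 := by
    rw [div_mul_eq_mul_div] at hb
    exact (div_le_iff₀ he3).1 hb
  have h3 : e ^ 3 ≤ e := by
    have : e ^ 2 ≤ 1 := by nlinarith only [he, he1]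
    nlinarith only [he, he1, sq_nonneg (e : ℝ)]
  have h4 : L * e ^ 3 ≤ L * e := mul_le_mul_of_nonneg_left h3 hL0.le
  have h5 : 0 < e * L := by positivity
  have h6 : b ≤ e * L / 2 := by nlinarith only [he, he1, h1, h2, h4]
  have h7 : exp b ≤ exp (e * L / 2) := exp_le_exp.2 h6
  have h8 := quadratic_le_exp_of_nonneg (x := e * L / 2) (by positivity)
  have h9 : 10 * L ≤ 3 * e * exp (e * L / 2) := by
    have a : (e * L / 2) ^ 2 / 2 ≤ exp (e * L / 2) := by linarith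
    have a2 : 3 * e * ((e * L / 2) ^ 2 / 2) = 3 / 8 * (L * e ^ 3) * L := by ring
    have a3 : 3 * e * ((e * L / 2) ^ 2 / 2) ≤ 3 * e * exp (e * L / 2) :=
      mul_le_mul_of_nonneg_left a (by positivity)
    have a4 : 30 * L ≤ L * e ^ 3 * L := mul_le_mul_of_nonneg_right h1 hL0.le
    linarith
  have h10 : exp (e * L) = exp (e * L / 2) * exp (e * L / 2) := by
    rw [← exp_add]
    congr 1
    ring
  calc u ≤ exp b * (10 * L) := by linarith
    _ ≤ exp (e * L / 2) * (3 * e * exp (e * L / 2)) :=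
      mul_le_mul h7 h9 (by positivity) (exp_pos _).le
    _ = 3 * e * exp (e * L) := by rw [h10]; ring

theorem fna_lam {n c d x : ℕ} {K1 : ℝ} (h : Par n c d x) (hK1 : 0 < K1)
    (h2 : 2 * bb n c ≤ lg n c d) (h3 : K1 * bb n c ≤ lg n c d) (hL : lg n c d ≤ K1 * log c) :
    (n : ℝ) / c ≤ exp (bb n c) ∧ lam n c d ((n : ℝ) - x + 1) = n / ((n : ℝ) - x + 1) := by
  have hc : (2 : ℝ) ≤ c := by exact_mod_cast h.hc
  have hcn : (c : ℝ) + 2 ≤ n := by exact_mod_cast h.hcn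
  have hx : (x : ℝ) < n := by exact_mod_cast h.hx
  have hc0 : (0 : ℝ) < c := by linarith
  have hn0 : (0 : ℝ) < n := by linarith
  have hk0 : (0 : ℝ) < (n : ℝ) - c := by linarith
  have a1 : (n : ℝ) / c ≤ (n : ℝ) ^ 2 / (c * ((n : ℝ) - c)) := by
    rw [div_le_div_iff₀ hc0 (by positivity)]
    have : 0 ≤ (n : ℝ) * c * c := by positivity
    nlinarith only [this]
  have a2 : log ((n : ℝ) / c) ≤ bb n c := log_le_log (by positivity) a1
  have a3 : 0 < log ((n : ℝ) / c) := log_pos (by rw [lt_div_iff₀ hc0]; linarith)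
  have a4 : log ((n : ℝ) / c) = log n - log c := log_div hn0.ne' hc0.ne'
  have a5 : 0 ≤ log (c : ℝ) := log_nonneg (by linarith)
  have a6 : log ((n : ℝ) / c) ≤ log c := by
    have : K1 * log ((n : ℝ) / c) ≤ K1 * log c :=
      (mul_le_mul_of_nonneg_left a2 hK1.le).trans (h3.trans hL)
    exact le_of_mul_le_mul_left this hK1
  refine ⟨?_, ?_⟩
  · calc (n : ℝ) / c = exp (log ((n : ℝ) / c)) := (exp_log (by positivity)).symm
      _ ≤ _ := exp_le_exp.2 a2
  · unfold lam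
    refine min_eq_left ?_
    have b1 : log (n : ℝ) ≤ lg n c d * log c / log (n / c) := by
      rw [le_div_iff₀ a3]
      have b2 : 2 * log ((n : ℝ) / c) * log c ≤ lg n c d * log c :=
        mul_le_mul_of_nonneg_right (by linarith) a5
      have b3 : log (n : ℝ) * log (n / c) ≤ 2 * log c * log (n / c) :=
        mul_le_mul_of_nonneg_right (by linarith) a3.le
      linarith
    calc (n : ℝ) / ((n : ℝ) - x + 1) ≤ n := div_le_self hn0.le (by linarith)
      _ = exp (log n) := (exp_log hn0).symm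
      _ ≤ Lam n c d := exp_le_exp.2 b1

theorem fna_big {n c d x p : ℕ} {K1 ε : ℝ} (h : Par n c d x) (hK1 : 0 < K1)
    (hL : lg n c d ≤ K1 * log c) (hp : K1 + 6 ≤ p) (hb : n ^ p ≤ (n - 1).choose (c - 1))
    (hε : 0 < ε) (hn : 1 ≤ ε * n) : (n : ℝ) ^ 5 ≤ ε * d := by
  have hc : (2 : ℝ) ≤ c := by exact_mod_cast h.hc
  have hcn : (c : ℝ) + 2 ≤ n := by exact_mod_cast h.hcn
  have hn0 : (0 : ℝ) < n := by linarith
  have a1 : log (c : ℝ) ≤ log n := log_le_log (by linarith) (by linarith)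
  have a2 : 0 ≤ log (n : ℝ) := log_nonneg (by linarith)
  have a3 : (n : ℝ) ^ p ≤ (n - 1).choose (c - 1) := by exact_mod_cast hb
  have a4 : (n : ℝ) ^ p = exp (p * log n) := by rw [exp_nat_mul, exp_log hn0]
  have a5 : (n : ℝ) ^ 6 = exp ((6 : ℕ) * log n) := by rw [exp_nat_mul, exp_log hn0]
  have a6 : (n : ℝ) ^ 6 ≤ d := by
    rw [h.d_eq]
    refine le_trans ?_ (mul_le_mul_of_nonneg_left a3 (exp_pos _).le)
    rw [a4, a5, ← exp_add]
    refine exp_le_exp.2 ?_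
    have b1 : K1 * log c ≤ K1 * log n := mul_le_mul_of_nonneg_left a1 hK1.le
    have b2 : (K1 + 6) * log n ≤ p * log n := mul_le_mul_of_nonneg_right hp a2
    push_cast
    linarith
  calc (n : ℝ) ^ 5 = 1 * (n : ℝ) ^ 5 := (one_mul _).symm
    _ ≤ ε * n * (n : ℝ) ^ 5 := mul_le_mul_of_nonneg_right hn (by positivity)
    _ = ε * (n : ℝ) ^ 6 := by ring
    _ ≤ ε * d := mul_le_mul_of_nonneg_left a6 hε.le

theorem fna_dec {n c d x : ℕ} (h : Par n c d x) {L A : ℝ} (hL0 : 0 ≤ L)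
    (hL : L = lg n c d + log (lam n c d ((n : ℝ) - x + 1))) (s : ℕ)
    (hs : A * ((n : ℝ) - x) ≤ s) :
    ((x - 1 - s).choose (c - 1) : ℝ) * lam n c d ((n : ℝ) - x + 1) * exp (A * L) ≤ d := by
  have hx : (x : ℝ) < n := by exact_mod_cast h.hx
  have a := h.dec s
  rw [← hL] at a
  have b : A * L ≤ L * s / ((n : ℝ) - x) := by
    rw [le_div_iff₀ (by linarith)]
    have := mul_le_mul_of_nonneg_left hs hL0
    linarith
  have c1 : exp (-(L * s / ((n : ℝ) - x))) * exp (A * L) ≤ 1 := by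
    rw [← exp_add]
    exact exp_le_one_iff.2 (by linarith)
  have hd : (0 : ℝ) ≤ d := Nat.cast_nonneg d
  calc _ ≤ exp (-(L * s / ((n : ℝ) - x))) * d * exp (A * L) :=
        mul_le_mul_of_nonneg_right a (exp_pos _).le
    _ = exp (-(L * s / ((n : ℝ) - x))) * exp (A * L) * d := by ring
    _ ≤ 1 * d := mul_le_mul_of_nonneg_right c1 hd
    _ = d := one_mul _

/-- Choice of the two clique sizes for the two-scale construction. -/
theorem two_scale (ε K1 : ℝ) (hε : 0 < ε) (hK1 : 0 < K1) : ∃ K : ℝ, 0 < K ∧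
    ∀ n c d x : ℕ, Par n c d x → K * bb n c ≤ lg n c d → lg n c d ≤ K1 * log c →
    ∃ y1 y2 : ℕ, c ≤ y2 ∧ y2 ≤ y1 ∧ y1 ≤ x ∧ (n : ℝ) - y1 ≤ (1 + ε) * ((n : ℝ) - x) ∧
      (1 - ε) * ((x : ℝ) - c + 2) ≤ (y1 : ℝ) - c + 1 ∧ (n : ℝ) - y2 ≤ 7 * ((n : ℝ) - x) ∧
      (n : ℝ) ^ 2 * y2.choose (c - 1) ≤ ε * d ∧ (n : ℝ) - x + 1 ≤ n / 2 ∧
      ((x : ℝ) - c + 2) * y1.choose (c - 1) ≤ ε * d ∧ (n : ℝ) ^ 5 ≤ ε * d := by
  obtain ⟨e, he, he1, heε⟩ : ∃ e : ℝ, 0 < e ∧ e ≤ 1 / 3 ∧ 3 * e ≤ ε :=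
    ⟨min ε 1 / 3, by have := lt_min hε one_pos; positivity, by linarith [min_le_right ε 1],
      by linarith [min_le_left ε 1]⟩
  obtain ⟨p, hp6, hpK⟩ : ∃ p : ℕ, 6 ≤ p ∧ K1 + 6 ≤ p :=
    ⟨⌈K1⌉₊ + 6, by omega, by push_cast; linarith [Nat.le_ceil K1]⟩
  obtain ⟨K0, hK0⟩ := Off.big_choose p 2
  obtain ⟨Ks, hKs, hs⟩ := sharp_num (e / (p + 2)) K1 0 (max K0 ⌈1 / ε⌉₊) (by positivity) hK1
  have he3 : 0 < 30 / e ^ 3 := by positivity
  refine ⟨Ks + K1 + 30 / e ^ 3, by positivity, fun n c d x h hK hL => ?_⟩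
  have hc : (2 : ℝ) ≤ c := by exact_mod_cast h.hc
  have hcn : (c : ℝ) + 2 ≤ n := by exact_mod_cast h.hcn
  have hxn := h.hx
  have hc2 := h.hc
  have hx : (x : ℝ) + 1 ≤ n := by exact_mod_cast h.hx
  have hc0 : (0 : ℝ) < c := by linarith
  have hn0 : (0 : ℝ) < n := by linarith
  have hn0' : 0 < n := by omega
  have hb1 : 1 ≤ bb n c := by linarith [h.log_two_le_bb, log_two_gt_d9]
  have hb0 : 0 ≤ bb n c := by linarith
  have h230 : 2 ≤ 30 / e ^ 3 := by
    rw [le_div_iff₀ (by positivity)]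
    have : e ^ 3 ≤ 1 := pow_le_one₀ he.le (by linarith)
    linarith
  have hmono : ∀ K' : ℝ, K' ≤ Ks + K1 + 30 / e ^ 3 → K' * bb n c ≤ lg n c d := fun K' hK' =>
    (mul_le_mul_of_nonneg_right hK' hb0).trans hK
  have k2 := hmono 2 (by linarith)
  have k30 := hmono (30 / e ^ 3) (by linarith)
  obtain ⟨hN, -, -, hw1, hw2, -⟩ := hs n c d x h (hmono Ks (by linarith)) hL 1
    (by linarith [aa_le hn0' c]) le_rfl
  obtain ⟨hexp, hlam⟩ := fna_lam h hK1 k2 (hmono K1 (by linarith)) hL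
  obtain ⟨W, hW⟩ : ∃ W : ℕ, n = x + W := ⟨n - x, by omega⟩
  have hWr : (n : ℝ) - x = W := by rw [hW]; push_cast; ring
  have hW1 : (1 : ℝ) ≤ W := by linarith
  have hp2 : (8 : ℝ) ≤ p + 2 := by
    have : (6 : ℝ) ≤ p := by exact_mod_cast hp6
    linarith
  have heW : 1 ≤ e * W := by
    rw [hWr] at hw1
    exact hw1.trans (mul_le_mul_of_nonneg_right (div_le_self he.le (by linarith)) (by linarith))
  have hmin : ((p : ℝ) + 2) * W ≤ min (c : ℝ) ((n : ℝ) - c) := by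
    rw [hWr, div_mul_eq_mul_div, le_div_iff₀ (by linarith)] at hw2
    have a : 0 ≤ min (c : ℝ) ((n : ℝ) - c) := le_min (by linarith) (by linarith)
    have := mul_le_mul_of_nonneg_right (show e ≤ 1 by linarith) a
    linarith
  have hm1 : ((p : ℝ) + 2) * W ≤ c := hmin.trans (min_le_left _ _)
  have hm2 : ((p : ℝ) + 2) * W ≤ (n : ℝ) - c := hmin.trans (min_le_right _ _)
  have h8 : 8 * (W : ℝ) ≤ ((p : ℝ) + 2) * W := mul_le_mul_of_nonneg_right hp2 (by linarith)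
  have hpp : (p : ℝ) + 2 ≤ ((p : ℝ) + 2) * W := le_mul_of_one_le_right (by linarith) hW1
  have n1 : p + 2 ≤ c := by exact_mod_cast hpp.trans hm1
  have n2 : p + 2 + c ≤ n := by
    have : (p : ℝ) + 2 + c ≤ n := by linarith
    exact_mod_cast this
  have n3 : 8 * W + c ≤ n := by
    have : 8 * (W : ℝ) + c ≤ n := by linarith
    exact_mod_cast this
  have n4 : 1 ≤ W := by omega
  obtain ⟨s, hs1, hs2⟩ : ∃ s : ℕ, e * W ≤ s ∧ (s : ℝ) ≤ e * W + 1 :=
    ⟨⌈e * W⌉₊, Nat.le_ceil _, (Nat.ceil_lt_add_one (by linarith)).le⟩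
  have heW3 : e * W ≤ W / 3 := by
    have := mul_le_mul_of_nonneg_right he1 (show (0 : ℝ) ≤ W by linarith only [])
    linarith
  have n5 : s ≤ W := by
    have : (s : ℝ) ≤ W := by linarith
    exact_mod_cast this
  have y1 : ((x - 1 - s : ℕ) : ℝ) = x - 1 - s := by
    rw [Nat.cast_sub (by omega), Nat.cast_sub (by omega), Nat.cast_one]
  have y2 : ((x - 1 - (s + 4 * W) : ℕ) : ℝ) = x - 1 - (s + 4 * W) := by
    rw [Nat.cast_sub (by omega), Nat.cast_sub (by omega), Nat.cast_one]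
    push_cast
    ring
  have hWn : (W : ℝ) + 1 ≤ n / 2 := by linarith only [he, he1, heW, hm1, hm2, h8, heW3]
  obtain ⟨L, hLd⟩ : ∃ L, L = lg n c d + log (lam n c d ((n : ℝ) - x + 1)) := ⟨_, rfl⟩
  have hl1 : 1 ≤ lam n c d ((n : ℝ) - x + 1) := h.one_le_lam (by linarith only [he, he1, hx]) (by linarith only [he, he1, hWr, heW, hm1, hm2, h8, heW3])
  have hLL : lg n c d ≤ L := by linarith [log_nonneg hl1]
  have hL30 : 30 / e ^ 3 ≤ L :=
    (le_mul_of_one_le_right he3.le hb1).trans (k30.trans hLL)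
  have hL0 : 0 ≤ L := by linarith only [he, he1, hb1, k2, hLL]
  have hcw := h.cw (by linarith only [log_two_lt_d9, he, he1, hb1, k2])
  rw [← hlam, ← hLd, hWr] at hcw
  have hu : (W : ℝ) + 1 ≤ 10 * exp (bb n c) * L := by
    have a : (W : ℝ) + 1 ≤ 10 * (n / c) * L := by
      rw [show 10 * ((n : ℝ) / c) * L = 10 * n * L / c by ring, le_div_iff₀ hc0]
      linarith only [hcw]
    exact a.trans (mul_le_mul_of_nonneg_right (by linarith only [hexp]) hL0)
  have hsm := fna_small he he1 hL30 (k30.trans hLL) hu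
  have hE : 0 < exp (e * L) := exp_pos _
  have hsε : (W : ℝ) + 1 ≤ ε * exp (e * L) :=
    hsm.trans (mul_le_mul_of_nonneg_right heε hE.le)
  have hd0 : (0 : ℝ) ≤ d := Nat.cast_nonneg d
  have hεW : 3 * (e * W) ≤ ε * W := by
    have := mul_le_mul_of_nonneg_right heε (show (0 : ℝ) ≤ W by linarith only [he, he1, heW, heW3])
    linarith only [this]
  refine ⟨x - 1 - s, x - 1 - (s + 4 * W), by omega, by omega, by omega, ?_, ?_, ?_, ?_, ?_, ?_, ?_⟩
  · rw [y1, hWr]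
    linarith only [hWr, heW, hs2, hεW]
  · rw [y1]
    have a : 2 * (W : ℝ) ≤ (x : ℝ) - c + 2 := by linarith only [he, he1, hWr, heW, hm2, h8, heW3]
    have := mul_le_mul_of_nonneg_left a hε.le
    linarith only [he, he1, heW, hs2, hεW, this]
  · rw [y2, hWr]
    linarith only [he, he1, hWr, heW, hs2, heW3]
  · have a := fna_dec h hL0 hLd (A := e + 4) (s + 4 * W) (by rw [hWr]; push_cast; linarith only [hs1])
    have b1 : (W : ℝ) + 1 ≤ exp L := by
      have b2 : exp (e * L) ≤ exp L := exp_le_exp.2 (mul_le_of_le_one_left hL0 (by linarith))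
      have b3 : 3 * e * exp (e * L) ≤ 1 * exp (e * L) :=
        mul_le_mul_of_nonneg_right (by linarith) hE.le
      linarith
    have b4 : (n : ℝ) / (W + 1) ≤ exp L := by
      have b5 : log ((n : ℝ) / (W + 1)) ≤ L := by
        rw [hLd, hlam, hWr]
        linarith only [h.lg_pos, he, he1, hb1, k2]
      calc (n : ℝ) / (W + 1) = exp (log ((n : ℝ) / (W + 1))) := (exp_log (by positivity)).symm
        _ ≤ _ := exp_le_exp.2 b5
    have b6 : (n : ℝ) ≤ exp L * exp L := by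
      rw [div_le_iff₀ (by linarith only [he, he1, heW, heW3])] at b4
      exact b4.trans (mul_le_mul_of_nonneg_left b1 (exp_pos _).le)
    have b7 : (n : ℝ) ^ 2 ≤ (exp L * exp L) ^ 2 := pow_le_pow_left₀ hn0.le b6 2
    have b8 : exp ((e + 4) * L) = exp (e * L) * (exp L * exp L) ^ 2 := by
      rw [← exp_add, ← exp_nat_mul, ← exp_add]
      congr 1
      push_cast
      ring
    have b9 : (n : ℝ) ^ 2 ≤ ε * exp ((e + 4) * L) := by
      rw [b8, ← mul_assoc]
      exact b7.trans (le_mul_of_one_le_left (by positivity) (by linarith only [he, he1, heW, heW3, hsε]))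
    generalize ((x - 1 - (s + 4 * W)).choose (c - 1)) = C at a ⊢
    have hC : (0 : ℝ) ≤ C := Nat.cast_nonneg C
    have a2 : (C : ℝ) * exp ((e + 4) * L) ≤ d :=
      (mul_le_mul_of_nonneg_right (le_mul_of_one_le_right hC hl1) (exp_pos _).le).trans a
    calc (n : ℝ) ^ 2 * C ≤ ε * exp ((e + 4) * L) * C := mul_le_mul_of_nonneg_right b9 hC
      _ = ε * (C * exp ((e + 4) * L)) := by ring
      _ ≤ ε * d := mul_le_mul_of_nonneg_left a2 hε.le
  · rw [hWr]
    exact hWn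
  · have a := fna_dec h hL0 hLd (A := e) s (by rw [hWr]; exact hs1)
    rw [hlam, hWr] at a
    generalize ((x - 1 - s).choose (c - 1)) = C at a ⊢
    have hC : (0 : ℝ) ≤ C := Nat.cast_nonneg C
    have b1 : (x : ℝ) - c + 2 ≤ ε * (n / (W + 1) * exp (e * L)) := by
      have b2 : (n : ℝ) = n / (W + 1) * (W + 1) := by field_simp
      have b3 : (n : ℝ) / (W + 1) * (W + 1) ≤ n / (W + 1) * (ε * exp (e * L)) :=
        mul_le_mul_of_nonneg_left hsε (by positivity)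
      linarith only [he, he1, hWr, heW, hm1, h8, heW3, b2, b3]
    calc ((x : ℝ) - c + 2) * C ≤ ε * (n / (W + 1) * exp (e * L)) * C :=
          mul_le_mul_of_nonneg_right b1 hC
      _ = ε * (C * (n / (W + 1)) * exp (e * L)) := by ring
      _ ≤ ε * d := mul_le_mul_of_nonneg_left a hε.le
  · refine fna_big h hK1 hL hpK (hK0 n (n - 1) (c - 1) ((le_max_left _ _).trans hN) (by omega)
      (by omega) (by omega)) hε ?_
    have a : ((⌈1 / ε⌉₊ : ℕ) : ℝ) ≤ n := by exact_mod_cast (le_max_right _ _).trans hN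
    have b := (Nat.le_ceil (1 / ε)).trans a
    rw [div_le_iff₀ hε] at b
    linarith only [b]

end Pool.Agent.P.MP_4f3dfd_co.Ex
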