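import Mathlib
import Pool.Agent.P.MP_4f3dfd_co.FDefs
import Pool.Agent.P.MP_4f3dfd_co.AMain
import Pool.Agent.P.MP_4f3dfd_co.FN2
import Pool.Agent.P.MP_4f3dfd_co.FN3

set_option autoImplicit false
set_option linter.unusedSectionVars false
set_option linter.unusedVariables false

namespace Pool.Agent.P.MP_4f3dfd_co.Ex

open Finset Real

variable {V : Type*} [DecidableEq V]

theorem fu5_real {ε γ δ t w f M : ℝ} (hγ : 0 < γ) (hδ : 0 < δ) (hδ1 : δ ≤ 1)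
    (hδε : δ * (3 + 1 / γ) ≤ ε) (ht : 1 / δ + 1 ≤ t) (hw : γ * t ≤ w) (hM : 0 ≤ M) (hf0 : 0 ≤ f)
    (hf : f * (t - 1) ≤ (1 + δ) * M) :
    (w + t - 1) * f - M ≤ (1 + ε) * (M * w / t) := by
  have hd : 0 < 1 / δ := by positivity
  have ht1 : 0 < t - 1 := by linarith
  have ht0 : 0 < t := by linarith
  have hw0 : 0 < w := lt_of_lt_of_le (by positivity) hw
  have h1 : 1 ≤ δ * (t - 1) := by
    have : 1 / δ ≤ t - 1 := by linarith
    rw [div_le_iff₀ hδ] at this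
    linarith
  set u := M * w / t with hu
  have hu0 : 0 ≤ u := by positivity
  have hut : u * t = M * w := by rw [hu]; field_simp
  -- f * t ≤ (1 + δ) ^ 2 * M
  have h2 : f * t ≤ (1 + δ) ^ 2 * M := by
    have h3 : f ≤ δ * (f * (t - 1)) := by nlinarith [mul_le_mul_of_nonneg_left h1 hf0]
    have h4 : δ * (f * (t - 1)) ≤ δ * ((1 + δ) * M) := mul_le_mul_of_nonneg_left hf hδ.le
    nlinarith
  have h5 : w * f ≤ (1 + δ) ^ 2 * u := by
    have h6 : (w * f) * t ≤ ((1 + δ) ^ 2 * u) * t := by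
      have := mul_le_mul_of_nonneg_left h2 hw0.le
      calc (w * f) * t = w * (f * t) := by ring
        _ ≤ w * ((1 + δ) ^ 2 * M) := this
        _ = (1 + δ) ^ 2 * (M * w) := by ring
        _ = ((1 + δ) ^ 2 * u) * t := by rw [← hut]; ring
    exact le_of_mul_le_mul_right h6 ht0
  have h7 : M ≤ 1 / γ * u := by
    have h8 : (γ * M) * t ≤ u * t := by
      rw [hut]
      have := mul_le_mul_of_nonneg_left hw hM
      linarith
    have h9 : γ * M ≤ u := le_of_mul_le_mul_right h8 ht0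
    rw [one_div, ← div_eq_inv_mul, le_div_iff₀ hγ]
    linarith
  have h10 : δ * M ≤ δ * (1 / γ * u) := mul_le_mul_of_nonneg_left h7 hδ.le
  have h11 : (1 + δ) ^ 2 ≤ 1 + 3 * δ := by nlinarith
  have h12 : (1 + δ) ^ 2 * u ≤ (1 + 3 * δ) * u := mul_le_mul_of_nonneg_right h11 hu0
  have h13 : δ * (3 + 1 / γ) * u ≤ ε * u := mul_le_mul_of_nonneg_right hδε hu0
  nlinarith

/-- Wide cliques: the first-order asymptotics suffice. -/
theorem up_lo_wide (ε γ : ℝ) (hε : 0 < ε) (hγ : 0 < γ) : ∃ K : ℝ, 0 < K ∧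
    ∀ n c m d x : ℕ, Par n c d x → c * m = d * n → K ≤ lg n c d → K ≤ (x : ℝ) - c + 2 →
      γ * ((x : ℝ) - c + 2) ≤ (n : ℝ) - x →
      ∃ J : Finset (Finset (Fin n)), Reg n c m J ∧ ex n c m #(shadow J) ≤ (1 + ε) * eL n c m x := by
  have hg : 0 < 3 + 1 / γ := by positivity
  set δ : ℝ := min 1 (ε / (3 + 1 / γ)) with hδdef
  have hδ : 0 < δ := lt_min one_pos (div_pos hε hg)
  have hδ1 : δ ≤ 1 := min_le_left _ _
  have hδε : δ * (3 + 1 / γ) ≤ ε := by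
    have : δ ≤ ε / (3 + 1 / γ) := min_le_right _ _
    rwa [le_div_iff₀ hg] at this
  obtain ⟨K0, hK0⟩ := Asy.asymptotic δ hδ
  obtain ⟨K1, hK1, hsp⟩ := sparse_num K0
  have hd : 0 < 1 / δ := by positivity
  refine ⟨K1 + K0 + 2 + 1 / δ, by positivity, ?_⟩
  intro n c m d x h hm hL ht hw
  have hK0n : (0 : ℝ) ≤ K0 := Nat.cast_nonneg _
  obtain ⟨z, hxz, hzn, hz1, hz2⟩ := h.link
  obtain ⟨hm1, hmC, -, -, -⟩ := h.size hm
  have hcx : c + K0 ≤ x := by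
    have : (c : ℝ) + K0 ≤ x := by linarith
    exact_mod_cast this
  have hor : K0 ≤ c ∨ K0 * z ≤ n := by
    by_cases hc : K0 ≤ c
    · exact Or.inl hc
    · exact Or.inr (hsp n c d z h.hc (by omega) h.hd hzn (by omega) hz1 (by linarith))
  obtain ⟨f, ⟨⟨J, hJ1, hJ2, hJ3, hJ4⟩, -⟩, hf⟩ :=
    hK0 n c m d z hm1 hmC.le hm hz1 hz2 (by omega) hor
  refine ⟨J, ⟨hJ1, hJ2, hJ3⟩, ?_⟩
  have hc0 : (0 : ℝ) < c := by have := h.hc; exact_mod_cast (by omega : 0 < c)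
  have hm0 : (0 : ℝ) < m := by exact_mod_cast hm1
  have hM : (0 : ℝ) < c * m := mul_pos hc0 hm0
  have hf0 : (0 : ℝ) ≤ f := Nat.cast_nonneg _
  have hf1 : (f : ℝ) * (z - c + 1) ≤ (1 + δ) * (c * m) := by
    have := (abs_le.1 hf).2
    have h2 : (f : ℝ) * (z - c + 1) / (c * m) ≤ 1 + δ := by linarith
    rwa [div_le_iff₀ hM] at h2
  have hxz' : (x : ℝ) ≤ z := by exact_mod_cast hxz
  have hf2 : (f : ℝ) * (((x : ℝ) - c + 2) - 1) ≤ (1 + δ) * (c * m) := by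
    refine le_trans (mul_le_mul_of_nonneg_left ?_ hf0) hf1
    linarith
  have key := fu5_real (ε := ε) hγ hδ hδ1 hδε (t := (x : ℝ) - c + 2) (w := (n : ℝ) - x)
    (by linarith) hw hM.le hf0 hf2
  rw [hJ4]
  unfold ex eL
  have e1 : (n : ℝ) - c + 1 = (n : ℝ) - x + ((x : ℝ) - c + 2) - 1 := by ring
  rw [e1]
  exact key

end Pool.Agent.P.MP_4f3dfd_co.Ex
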