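import Mathlib
import Pool.Agent.P.MP_4f3dfd_co.FDefs
import Pool.Agent.P.MP_4f3dfd_co.EU3
import Pool.Agent.P.MP_4f3dfd_co.FN3
import Pool.Agent.P.MP_4f3dfd_co.FN9
import Pool.Agent.P.MP_4f3dfd_co.FNA
import Pool.Agent.P.MP_4f3dfd_co.FU2
import Pool.Agent.P.MP_4f3dfd_co.FU5

set_option autoImplicit false
set_option linter.unusedSectionVars false
set_option linter.unusedVariables false

namespace Pool.Agent.P.MP_4f3dfd_co.Ex

open Finset Real

variable {V : Type*} [DecidableEq V]

theorem fu6_mid {e w t A u v B : ℝ} (he : 0 < e) (he1 : e ≤ 1 / 16) (ht : 0 < t) (hw : 0 ≤ w)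
    (hA : 0 ≤ A) (hu : u ≤ (1 + e) * w) (hv : (1 - e) * t ≤ v) (hB0 : 0 ≤ B)
    (hB : B ≤ (1 + e) * A) : u * (B / v) ≤ (1 + 4 * e) * (A * w / t) := by
  have h1 : 0 < (1 - e) * t := mul_pos (by linarith) ht
  have hv0 : 0 < v := h1.trans_le hv
  have h2 : B / v ≤ (1 + e) * A / ((1 - e) * t) :=
    div_le_div₀ (by positivity) hB h1 hv
  have h3 : (1 + e) * (1 + e) / (1 - e) ≤ 1 + 4 * e := by
    rw [div_le_iff₀ (by linarith)]
    nlinarith only [he, he1]
  have h4 : 0 < 1 - e := by linarith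
  calc u * (B / v) ≤ (1 + e) * w * ((1 + e) * A / ((1 - e) * t)) :=
        mul_le_mul hu h2 (by positivity) (by positivity)
    _ = (1 + e) * (1 + e) / (1 - e) * (A * w / t) := by field_simp
    _ ≤ _ := mul_le_mul_of_nonneg_right h3 (by positivity)

theorem up_lo_sharp (ε : ℝ) (hε : 0 < ε) : ∃ K : ℝ, 0 < K ∧
    ∀ n c m d x : ℕ, Par n c d x → c * m = d * n → K * min (bb n c) (log c) ≤ lg n c d → K ≤ (x : ℝ) - c + 2 →
      ∃ J : Finset (Finset (Fin n)), Reg n c m J ∧ ex n c m #(shadow J) ≤ (1 + ε) * eL n c m x := by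
  obtain ⟨e, he, he1, he2⟩ : ∃ e : ℝ, 0 < e ∧ e ≤ 1 / 16 ∧ 16 * e ≤ ε :=
    ⟨min ε 1 / 16, by have := lt_min hε one_pos; positivity,
      by have := min_le_right ε 1; linarith, by have := min_le_left ε 1; linarith⟩
  obtain ⟨K0, hK0, H0⟩ := up_lo_wide ε e hε he
  obtain ⟨K1, hK1, H1⟩ := one_scale e he
  obtain ⟨K2, hK2, H2⟩ := two_scale e K1 he hK1
  refine ⟨2 * K0 + K1 + K2 + 1, by positivity, fun n c m d x h hm hL hK => ?_⟩
  obtain ⟨hm1, hmC, hdm, hlg, -⟩ := h.size hm
  have hc2 := h.hc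
  have hx := h.hx
  have hcx := h.c_le
  have l2 := Real.log_two_gt_d9
  have hc2' : (2 : ℝ) ≤ c := by exact_mod_cast hc2
  have hlc : log 2 ≤ log c := log_le_log (by norm_num) hc2'
  have hb := h.log_two_le_bb
  have hmin : log 2 ≤ min (bb n c) (log c) := le_min (by linarith) hlc
  have hL2 : (2 * K0 + K1 + K2 + 1) * log 2 ≤ lg n c d :=
    (mul_le_mul_of_nonneg_left hmin (by positivity)).trans hL
  have hw : (1 : ℝ) ≤ (n : ℝ) - x := by
    have : ((x + 1 : ℕ) : ℝ) ≤ n := by exact_mod_cast hx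
    push_cast at this
    linarith
  have ht : (1 : ℝ) ≤ (x : ℝ) - c + 2 := by linarith
  by_cases hwide : e * ((x : ℝ) - c + 2) ≤ (n : ℝ) - x
  · have f1 : (2 * K0 + K1 + K2 + 1) * (1 / 2) ≤ (2 * K0 + K1 + K2 + 1) * log 2 :=
      mul_le_mul_of_nonneg_left (by linarith) (by positivity)
    exact H0 n c m d x h hm (by linarith) (by linarith) hwide
  have hwide := not_le.1 hwide
  have hdvd : n ∣ c * m := ⟨d, by rw [hm, mul_comm]⟩
  have hmR : (c : ℝ) * m = d * n := by exact_mod_cast hm
  obtain ⟨w, hwd⟩ : ∃ w : ℝ, w = (n : ℝ) - x := ⟨_, rfl⟩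
  obtain ⟨t, htd⟩ : ∃ t : ℝ, t = (x : ℝ) - c + 2 := ⟨_, rfl⟩
  have hE : eL n c m x = c * m * w / t := by rw [hwd, htd]; rfl
  rw [← hwd] at hw hwide
  rw [← htd] at ht hwide
  have ht0 : 0 < t := by linarith
  have hn0 : (0 : ℝ) < n := by
    have : (0 : ℝ) ≤ x := Nat.cast_nonneg _
    linarith
  have hd0 : (0 : ℝ) ≤ d := Nat.cast_nonneg _
  have hm0 : (0 : ℝ) ≤ m := Nat.cast_nonneg _
  have hE0 : 0 ≤ (c : ℝ) * m * w / t := by positivity
  have key : ∀ z : ℝ, z * t ≤ e * (d * n * w) → z ≤ e * (c * m * w / t) := fun z hz => by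
    rw [hmR, ← mul_div_assoc, le_div_iff₀ ht0]
    exact hz
  have hεE := mul_le_mul_of_nonneg_right he2 hE0
  have heE := mul_nonneg he.le hE0
  by_cases hone : K1 * log c ≤ lg n c d
  · obtain ⟨y, a1, a2, a3, a4, a5, a6⟩ := H1 n c d x h hone (by
      rw [← hwd, ← htd]
      have f1 := mul_le_mul_of_nonneg_right he1 ht0.le
      have f2 := mul_le_mul_of_nonneg_right he1 (show 0 ≤ w by linarith)
      linarith)
    obtain ⟨J, hJ, hb⟩ := star_lo (n := n) (m := m) (by omega) a1 (by omega) hm1 hmC.le hdvd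
    refine ⟨J, hJ, hb.trans ?_⟩
    have e1 : (n : ℝ) - c + 2 = w + t := by rw [hwd, htd]; ring
    have e2 : (n : ℝ) - c + 1 = w + t - 1 := by rw [hwd, htd]; ring
    rw [e1] at a5 a6
    rw [← hwd] at a3 a5
    rw [← htd] at a4
    rw [hE, e2]
    obtain ⟨P, hP⟩ : ∃ P : ℝ, P = ((y - 1).choose (c - 1) : ℕ) := ⟨_, rfl⟩
    rw [← hP] at a5 ⊢
    have hP0 : 0 ≤ P := by rw [hP]; positivity
    have b0 : (c : ℝ) * (n * P) * (w + t) ≤ e * (d * n * w) := by
      have := mul_le_mul_of_nonneg_left a5 hn0.le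
      linarith only [this]
    have bp : 0 ≤ (c : ℝ) * (n * P) := by positivity
    have bw := mul_nonneg bp (show 0 ≤ w by linarith)
    have bt' := mul_nonneg bp ht0.le
    have b1 := key ((c : ℝ) * (n * P)) (by linarith)
    have b2 : (c : ℝ) * (n * P) ≤ e * (c * m) := by
      rw [hmR]
      refine le_of_mul_le_mul_right (a := w) ?_ (by linarith only [he, he1, hw])
      linarith
    have b3 := fu6_mid (A := c * m) (B := c * (m + n * P)) he he1 ht0 (by linarith)
      (by positivity) a3 a4 (by positivity) (by linarith)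
    have b4 := key ((w + t - 1) * (c * (c * n))) (by
      have f1 : (w + t - 1) * t ≤ (w + t) ^ 2 := by
        rw [sq]
        exact mul_le_mul (by linarith only [he, he1]) (by linarith only [he, he1, hw]) ht0.le (by linarith only [he, he1, hK0, hK1, hK2, hK, hw, htd])
      have f2 : (0 : ℝ) ≤ (c : ℝ) ^ 2 * n := by positivity
      have f3 := mul_le_mul_of_nonneg_right f1 f2
      have f4 := mul_le_mul_of_nonneg_right a6 hn0.le
      have f5 : e * d * n * 1 ≤ e * d * n * w := mul_le_mul_of_nonneg_left hw (by positivity)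
      linarith only [f3, f4, f5])
    linarith only [hεE, heE, b1, b3, b4]
  · have hone := not_le.1 hone
    have hbL : K2 * bb n c ≤ lg n c d := by
      rcases le_total (bb n c) (log c) with hh | hh
      · rw [min_eq_left hh] at hL
        exact (mul_le_mul_of_nonneg_right (by linarith) (by linarith)).trans hL
      · rw [min_eq_right hh] at hL
        have f1 : K1 * log c ≤ (2 * K0 + K1 + K2 + 1) * log c :=
          mul_le_mul_of_nonneg_right (by linarith) (by linarith)
        linarith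
    obtain ⟨y1, y2, a1, a2, a3, a4, a5, a6, a7, -, a8, a9⟩ := H2 n c d x h hbL hone.le
    have hm0' : (0 : ℝ) < m := by exact_mod_cast hm1
    have h2m : 2 * (m : ℝ) ≤ n.choose c := by
      have f1 : log 2 ≤ log ((n.choose c : ℝ) / m) := by
        rw [← hlg]
        exact (le_mul_of_one_le_left (by linarith) (by linarith)).trans hL2
      have f2 : (0 : ℝ) < n.choose c := hm0'.trans (by exact_mod_cast hmC)
      rwa [log_le_log_iff (by norm_num) (by positivity), le_div_iff₀ hm0'] at f1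
    have hdm' : (d : ℝ) ≤ m := by exact_mod_cast hdm
    have b0 : (c : ℝ) * (n * y2.choose c) ≤ e * d := by
      have f1 : y2.choose c * c = y2.choose (c - 1) * (y2 - (c - 1)) := by
        have := Nat.choose_succ_right_eq y2 (c - 1)
        rwa [Nat.sub_add_cancel (by omega)] at this
      have f2 : y2.choose c * c ≤ y2.choose (c - 1) * n := by
        rw [f1]
        exact Nat.mul_le_mul_left _ (by omega)
      have f3 : (y2.choose c : ℝ) * c ≤ y2.choose (c - 1) * n := by exact_mod_cast f2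
      have f4 := mul_le_mul_of_nonneg_left f3 hn0.le
      linarith only [a7, f4]
    have bp : (0 : ℝ) ≤ n * y2.choose c := by positivity
    have hS : m + n * y2.choose c ≤ n.choose c := by
      have f1 := mul_le_mul_of_nonneg_right hc2' bp
      have f2 := mul_le_mul_of_nonneg_right he1 hd0
      have : (m : ℝ) + n * y2.choose c ≤ n.choose c := by linarith only [hm0', h2m, hdm', b0, f1, f2]
      exact_mod_cast this
    obtain ⟨J, hJ, hb⟩ := upper_lo_raw (n := n) (m := m) (by omega) a1 a2 (by omega) hm1 hS hdvd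
    refine ⟨J, hJ, hb.trans ?_⟩
    rw [← hwd] at a4 a6
    rw [← htd] at a5 a8
    rw [hE]
    have htn : t ≤ n * w := by
      have : t ≤ n := by linarith only [he, he1, hc2', hw, hwd, htd]
      exact this.trans (le_mul_of_one_le_right hn0.le hw)
    have b1 := key (e * d) (by
      have := mul_le_mul_of_nonneg_left htn (show 0 ≤ e * d by positivity)
      linarith only [this])
    have b3 := fu6_mid (A := c * m) (B := c * (m + n * y2.choose c)) he he1 ht0 (by linarith)
      (by positivity) a4 a5 (by positivity) (by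
        have f1 : (d : ℝ) ≤ c * m := hdm'.trans (le_mul_of_one_le_left hm0 (by linarith only [he, he1, hc2']))
        have f2 := mul_le_mul_of_nonneg_left f1 he.le
        linarith only [b0, f2])
    have b4 := key (w * (n * y1.choose (c - 1))) (by
      have := mul_le_mul_of_nonneg_left a8 (show 0 ≤ n * w by positivity)
      linarith)
    have b5 : ((n : ℝ) - y2) * (n * y1.choose (c - 1)) ≤ 7 * w * (n * y1.choose (c - 1)) :=
      mul_le_mul_of_nonneg_right a6 (by positivity)
    have b6 : (n : ℝ) ^ 4 ≤ (n : ℝ) ^ 5 :=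
      pow_le_pow_right₀ (by exact_mod_cast (show 1 ≤ n by omega)) (by norm_num)
    linarith only [hεE, heE, a9, b0, b1, b3, b4, b5, b6]

end Pool.Agent.P.MP_4f3dfd_co.Ex
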