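import Mathlib
import Pool.Agent.P.MP_4f3dfd_co.FDefs
import Pool.Agent.P.MP_4f3dfd_co.EU3
import Pool.Agent.P.MP_4f3dfd_co.FN3
import Pool.Agent.P.MP_4f3dfd_co.FN9
import Pool.Agent.P.MP_4f3dfd_co.FNA
import Pool.Agent.P.MP_4f3dfd_co.FU2

set_option autoImplicit false
set_option linter.unusedSectionVars false
set_option linter.unusedVariables false

namespace Pool.Agent.P.MP_4f3dfd_co.Ex

open Finset Real

variable {V : Type*} [DecidableEq V]

theorem fu7_one {e n c k m' d w u B : ℝ} (he : 0 < e) (hn : 0 ≤ n) (hc : 0 ≤ c) (hk : 1 ≤ k)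
    (hm : 0 ≤ m') (hd : k * m' = d * n) (hw : 1 ≤ w) (hB : 0 ≤ B) (hu : u ≤ (1 + e) * w)
    (h1 : k * (c + 2) * B ≤ e * (d * w)) (h2 : k ^ 2 * (c + 2) ^ 2 ≤ e * d) :
    c * (n * B) + u * m' + (k + 1) * (c * (c * n)) ≤ (1 + 4 * e) * (m' * w) := by
  have hk0 : 0 < k := by linarith
  have t1 : c * (n * B) ≤ e * (m' * w) := by
    apply le_of_mul_le_mul_left _ hk0
    have a1 : k * c * B ≤ k * (c + 2) * B :=
      mul_le_mul_of_nonneg_right (mul_le_mul_of_nonneg_left (by linarith) hk0.le) hB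
    have a2 : n * (k * c * B) ≤ n * (e * (d * w)) := mul_le_mul_of_nonneg_left (a1.trans h1) hn
    calc k * (c * (n * B)) = n * (k * c * B) := by ring
      _ ≤ n * (e * (d * w)) := a2
      _ = e * (d * n) * w := by ring
      _ = e * (k * m') * w := by rw [hd]
      _ = k * (e * (m' * w)) := by ring
  have t2 : u * m' ≤ (1 + e) * w * m' := mul_le_mul_of_nonneg_right hu hm
  have t3 : (k + 1) * (c * (c * n)) ≤ 2 * e * m' := by
    apply le_of_mul_le_mul_left _ hk0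
    have a1 : c ^ 2 ≤ (c + 2) ^ 2 := by nlinarith
    have a2 : k * (k + 1) ≤ 2 * k ^ 2 := by nlinarith
    have a3 : k * (k + 1) * c ^ 2 ≤ 2 * k ^ 2 * (c + 2) ^ 2 :=
      mul_le_mul a2 a1 (by positivity) (by positivity)
    have a4 : k * (k + 1) * c ^ 2 ≤ 2 * (e * d) := by linarith
    calc k * ((k + 1) * (c * (c * n))) = k * (k + 1) * c ^ 2 * n := by ring
      _ ≤ 2 * (e * d) * n := mul_le_mul_of_nonneg_right a4 hn
      _ = 2 * e * (d * n) := by ring
      _ = 2 * e * (k * m') := by rw [hd]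
      _ = k * (2 * e * m') := by ring
  have t4 : 2 * e * m' * 1 ≤ 2 * e * m' * w := mul_le_mul_of_nonneg_left hw (by positivity)
  nlinarith

theorem fu7_two {e n c k m' d w t u v s1 s2 A1 A2 B1 B2 : ℝ} (he : 0 < e) (hn : 1 ≤ n)
    (hc : 0 ≤ c) (hcn : c ≤ n) (hk : 1 ≤ k) (hm : 0 ≤ m') (hd : k * m' = d * n) (hdm : d ≤ m')
    (hw : 1 ≤ w) (hu : u ≤ (1 + e) * w) (hv0 : 0 ≤ v) (hv : v ≤ 7 * w)
    (hB1 : 0 ≤ B1) (hB2 : 0 ≤ B2) (hA1 : k * A1 = s1 * B1) (hA2 : k * A2 = s2 * B2)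
    (hs10 : 0 ≤ s1) (hs1 : s1 ≤ t) (hs20 : 0 ≤ s2) (hs2 : s2 ≤ n)
    (h1 : n ^ 2 * B2 ≤ e * d) (h2 : t * B1 ≤ e * d) (h3 : n ^ 5 ≤ e * d) :
    c * (n * A2) + u * m' + v * (n * A1) + n ^ 4 ≤ (1 + 10 * e) * (m' * w) := by
  have hk0 : 0 < k := by linarith
  have hn0 : 0 ≤ n := by linarith
  have t1 : c * (n * A2) ≤ e * m' := by
    apply le_of_mul_le_mul_left _ hk0
    have a1 : c * s2 ≤ n * n := mul_le_mul hcn hs2 hs20 hn0
    have a2 : c * s2 * B2 ≤ n * n * B2 := mul_le_mul_of_nonneg_right a1 hB2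
    have a3 : c * s2 * B2 ≤ e * d := by nlinarith
    calc k * (c * (n * A2)) = n * c * (k * A2) := by ring
      _ = n * (c * s2 * B2) := by rw [hA2]; ring
      _ ≤ n * (e * d) := mul_le_mul_of_nonneg_left a3 hn0
      _ = e * (d * n) := by ring
      _ = e * (k * m') := by rw [hd]
      _ = k * (e * m') := by ring
  have t2 : u * m' ≤ (1 + e) * w * m' := mul_le_mul_of_nonneg_right hu hm
  have t3 : v * (n * A1) ≤ 7 * e * (m' * w) := by
    apply le_of_mul_le_mul_left _ hk0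
    have a1 : s1 * B1 ≤ e * d := (mul_le_mul_of_nonneg_right hs1 hB1).trans h2
    have a2 : v * (s1 * B1) ≤ 7 * w * (e * d) :=
      mul_le_mul hv a1 (by positivity) (by linarith)
    calc k * (v * (n * A1)) = n * (v * (k * A1)) := by ring
      _ = n * (v * (s1 * B1)) := by rw [hA1]
      _ ≤ n * (7 * w * (e * d)) := mul_le_mul_of_nonneg_left a2 hn0
      _ = 7 * e * w * (d * n) := by ring
      _ = 7 * e * w * (k * m') := by rw [hd]
      _ = k * (7 * e * (m' * w)) := by ring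
  have t4 : n ^ 4 ≤ e * m' := by
    have a1 : n ^ 4 ≤ n ^ 5 := pow_le_pow_right₀ hn (by norm_num)
    have a2 : e * d ≤ e * m' := mul_le_mul_of_nonneg_left hdm he.le
    linarith
  have t5 : e * m' * 1 ≤ e * m' * w := mul_le_mul_of_nonneg_left hw (by positivity)
  nlinarith

theorem up_hi_sharp (ε : ℝ) (hε : 0 < ε) : ∃ K : ℝ, 0 < K ∧
    ∀ n c k m m' d y : ℕ, c + k = n → m + m' = n.choose c → Par n k d y → k * m' = d * n →
      n ∣ c * m → K * min (bb n k) (log k) ≤ lg n k d →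
      ∃ J : Finset (Finset (Fin n)), Reg n c m J ∧ ex n c m #(shadow J) ≤ (1 + ε) * (m' * ((n : ℝ) - y)) := by
  set e : ℝ := min ε 1 / 16 with he_def
  have hmin : 0 < min ε 1 := lt_min hε one_pos
  have he : 0 < e := by positivity
  have he1 : e ≤ 1 / 16 := by
    have := min_le_right ε 1
    linarith
  have heε : 16 * e ≤ ε := by
    have := min_le_left ε 1
    linarith
  obtain ⟨K1, hK1, H1⟩ := one_scale e he
  obtain ⟨K2, hK2, H2⟩ := two_scale e K1 he hK1
  refine ⟨max K1 K2, lt_max_of_lt_left hK1, ?_⟩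
  intro n c k m m' d y hk hm hP hd hdvd hK
  have hk2 := hP.hc
  have hkn := hP.hcn
  have hyn := hP.hx
  have hky := hP.c_le
  obtain ⟨hm1, hm2, hdm, -, -⟩ := hP.size hd
  have hsym : n.choose k = n.choose c := by
    rw [← hk]; exact (Nat.choose_symm_add).symm
  have hm0 : 1 ≤ m := by omega
  have hc1 : 1 ≤ c := by omega
  have hcn : c ≤ n := by omega
  have hkR : (c : ℝ) + k = n := by exact_mod_cast hk
  have hdR : (k : ℝ) * m' = d * n := by exact_mod_cast hd
  have hdmR : (d : ℝ) ≤ m' := by exact_mod_cast hdm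
  have hw : (1 : ℝ) ≤ (n : ℝ) - y := by
    have : (y : ℝ) + 1 ≤ n := by exact_mod_cast hyn
    linarith
  have hkyR : (k : ℝ) ≤ y + 1 := by exact_mod_cast hky
  have hk1R : (1 : ℝ) ≤ k := by exact_mod_cast (by omega : 1 ≤ k)
  have hn1R : (1 : ℝ) ≤ n := by exact_mod_cast (by omega : 1 ≤ n)
  have hc0 : (0 : ℝ) ≤ c := Nat.cast_nonneg c
  have hm'0 : (0 : ℝ) ≤ m' := Nat.cast_nonneg m'
  have hd0 : (0 : ℝ) ≤ d := Nat.cast_nonneg d
  have hmw : (0 : ℝ) ≤ m' * ((n : ℝ) - y) := mul_nonneg hm'0 (by linarith)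
  by_cases ht : (y : ℝ) - k + 2 ≤ e * ((n : ℝ) - y)
  · obtain ⟨J, hJ, h1, -⟩ := triv_up hc1 hcn hm0 hm hdvd
    refine ⟨J, hJ, h1.trans ?_⟩
    have a1 : (c : ℝ) ≤ (1 + e) * ((n : ℝ) - y) := by linarith
    have a2 := mul_le_mul_of_nonneg_right a1 hm'0
    have a3 : (1 + e) * (m' * ((n : ℝ) - y)) ≤ (1 + ε) * (m' * ((n : ℝ) - y)) :=
      mul_le_mul_of_nonneg_right (by linarith) hmw
    linarith
  have ht' : e * ((n : ℝ) - y) ≤ (y : ℝ) - k + 2 := (not_le.1 ht).le
  by_cases hL : K1 * log k ≤ lg n k d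
  · obtain ⟨y', g1, g2, g3, g4, g5, g6⟩ := H1 n k d y hP hL ht'
    have ec : (n : ℝ) - k + 2 = c + 2 := by linarith
    rw [ec] at g5 g6
    have hB : (0 : ℝ) ≤ (y' - 1).choose (k - 1) := Nat.cast_nonneg _
    have hS : n * (y' - 1).choose (k - 1) ≤ m' := by
      have b1 : (n : ℝ) - y ≤ c + 2 := by linarith
      have b2 : e * (d * ((n : ℝ) - y)) ≤ 1 * (d * (c + 2)) :=
        mul_le_mul (by linarith) (mul_le_mul_of_nonneg_left b1 hd0)
          (mul_nonneg hd0 (by linarith)) (by norm_num)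
      have b3 : ((k : ℝ) * (y' - 1).choose (k - 1)) * (c + 2) ≤ d * (c + 2) := by linarith
      have b4 : (k : ℝ) * (y' - 1).choose (k - 1) ≤ d :=
        le_of_mul_le_mul_right b3 (by linarith)
      have b5 : (k : ℝ) * (n * (y' - 1).choose (k - 1)) ≤ k * m' := by
        have := mul_le_mul_of_nonneg_right b4 (by linarith : (0 : ℝ) ≤ n)
        linarith
      have b6 : (n : ℝ) * (y' - 1).choose (k - 1) ≤ m' :=
        le_of_mul_le_mul_left b5 (by linarith)
      exact_mod_cast b6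
    obtain ⟨J, hJ, h1⟩ := star_hi hk hc1 (by omega) g1 (by omega) hm0 hm hdvd hS
    refine ⟨J, hJ, h1.trans ?_⟩
    have ek : (n : ℝ) - c + 1 = k + 1 := by linarith
    rw [ek]
    have key := fu7_one (u := (n : ℝ) - y') he (by linarith : (0 : ℝ) ≤ n) hc0 hk1R hm'0 hdR hw hB
      g3 g5 g6
    have a3 : (1 + 4 * e) * (m' * ((n : ℝ) - y)) ≤ (1 + ε) * (m' * ((n : ℝ) - y)) :=
      mul_le_mul_of_nonneg_right (by linarith) hmw
    exact key.trans a3
  · have hL' : lg n k d < K1 * log k := not_le.1 hL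
    have hlk : 0 ≤ log (k : ℝ) := log_nonneg hk1R
    have hb0 : 0 ≤ bb n k := by
      have := hP.log_two_le_bb
      have h2 : 0 < log (2 : ℝ) := log_pos (by norm_num)
      linarith
    have hbb : K2 * bb n k ≤ lg n k d := by
      rcases le_total (bb n k) (log k) with h | h
      · rw [min_eq_left h] at hK
        exact (mul_le_mul_of_nonneg_right (le_max_right K1 K2) hb0).trans hK
      · rw [min_eq_right h] at hK
        have := mul_le_mul_of_nonneg_right (le_max_left K1 K2) hlk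
        linarith
    obtain ⟨y1, y2, g1, g2, g3, g4, g5, g6, g7, g8, g9, g10⟩ := H2 n k d y hP hbb hL'.le
    have hnc : n - c = k := by omega
    obtain ⟨J, hJ, h1⟩ := upper_hi_raw (n := n) (c := c) (m := m) (y1 := y1) (y2 := y2) hc1 hcn
      (by omega) g2 (by omega) hm0 (by omega) hdvd
    refine ⟨J, hJ, h1.trans ?_⟩
    have em : (n.choose c : ℝ) - m = m' := by
      rw [← hm]; push_cast; ring
    rw [hnc, em]
    have g1' : (k : ℝ) ≤ y2 := by exact_mod_cast g1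
    have g2' : (y2 : ℝ) ≤ y1 := by exact_mod_cast g2
    have g3' : (y1 : ℝ) ≤ y := by exact_mod_cast g3
    have key := fu7_two (u := (n : ℝ) - y1) (v := (n : ℝ) - y2) (t := (y : ℝ) - k + 2)
      (s1 := (y1 : ℝ) - k + 1) (s2 := (y2 : ℝ) - k + 1) (A1 := y1.choose k) (A2 := y2.choose k)
      (B1 := y1.choose (k - 1)) (B2 := y2.choose (k - 1)) he hn1R hc0 (by linarith) hk1R hm'0 hdR
      hdmR hw g4 (by linarith) g6 (Nat.cast_nonneg _) (Nat.cast_nonneg _)
      (choose_pred (by omega)) (choose_pred (by omega)) (by linarith) (by linarith) (by linarith)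
      (by linarith) g7 g9 g10
    have a3 : (1 + 10 * e) * (m' * ((n : ℝ) - y)) ≤ (1 + ε) * (m' * ((n : ℝ) - y)) :=
      mul_le_mul_of_nonneg_right (by linarith) hmw
    exact key.trans a3

end Pool.Agent.P.MP_4f3dfd_co.Ex
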