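import Mathlib
import Pool.Agent.P.MP_4f3dfd_co.FL2
import Pool.Agent.P.MP_4f3dfd_co.FL3
import Pool.Agent.P.MP_4f3dfd_co.FL4
import Pool.Agent.P.MP_4f3dfd_co.FL5
import Pool.Agent.P.MP_4f3dfd_co.FU3
import Pool.Agent.P.MP_4f3dfd_co.FU4
import Pool.Agent.P.MP_4f3dfd_co.FU6
import Pool.Agent.P.MP_4f3dfd_co.FU7

set_option autoImplicit false
set_option linter.unusedVariables false

namespace Pool.Agent.P.MP_4f3dfd_co.Ex

open Finset Real

theorem ex_mono' {n c m f g : ℕ} (hc : c ≤ n) (h : f ≤ g) : ex n c m f ≤ ex n c m g := by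
  unfold ex
  have h1 : (c : ℝ) ≤ n := by exact_mod_cast hc
  have h2 : (f : ℝ) ≤ g := by exact_mod_cast h
  nlinarith

theorem range_c {n c m : ℕ} (hm0 : 1 ≤ m) (hm : m < n.choose c) (hd : n ∣ c * m) :
    2 ≤ c ∧ c + 2 ≤ n := by
  have hcn : c ≤ n := by
    by_contra h
    rw [Nat.choose_eq_zero_of_lt (by omega)] at hm
    omega
  have h0 : c ≠ 0 := by
    rintro rfl
    rw [Nat.choose_zero_right] at hm
    omega
  have h1 : c ≠ n := by
    rintro rfl
    rw [Nat.choose_self] at hm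
    omega
  have h2 : c ≠ 1 := by
    rintro rfl
    rw [Nat.choose_one_right] at hm
    rw [one_mul] at hd
    have := Nat.le_of_dvd (by omega) hd
    omega
  have h3 : c + 1 ≠ n := by
    rintro rfl
    rw [Nat.choose_succ_self_right] at hm
    have hd' : c + 1 ∣ (c + 1) * m := Dvd.intro _ rfl
    have e : (c + 1) * m = c * m + m := by ring
    rw [e] at hd'
    have := Nat.le_of_dvd (by omega) ((Nat.dvd_add_right hd).1 hd')
    omega
  omega

/-- From the stated window to the internal one. -/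
theorem par_of {n c m d x : ℕ} (hc : 2 ≤ c) (hcn : c + 2 ≤ n) (hm0 : 1 ≤ m) (hm : m < n.choose c)
    (hd : c * m = d * n) (hx : x < n)
    (h1 : min ((n : ℝ) / (n - ((x - 1 : ℕ) : ℝ)))
      (((n.choose c : ℝ) / m) ^ (log c / log (n / c))) * (x - 1).choose (c - 1) ≤ c * m / n)
    (h2 : (c : ℝ) * m / n < min ((n : ℝ) / (n - x))
      (((n.choose c : ℝ) / m) ^ (log c / log (n / c))) * x.choose (c - 1)) : Par n c d x := by
  have hn : (0 : ℝ) < n := by exact_mod_cast (by omega : 0 < n)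
  have hc0 : (0 : ℝ) < c := by exact_mod_cast (by omega : 0 < c)
  have hm0' : (0 : ℝ) < m := by exact_mod_cast hm0
  have hdR : (c : ℝ) * m = d * n := by exact_mod_cast hd
  have hd1 : 1 ≤ d := by
    rcases Nat.eq_zero_or_pos d with rfl | h
    · have : 0 < c * m := Nat.mul_pos (by omega) hm0
      omega
    · exact h
  have hd0 : (0 : ℝ) < d := by exact_mod_cast hd1
  have hpp := choose_pred_pred (n := n) (c := c) (by omega) (by omega)
  have hmR : (m : ℝ) < n.choose c := by exact_mod_cast hm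
  have hdC : (d : ℝ) < (n - 1).choose (c - 1) := by
    have : (d : ℝ) * n < (n - 1).choose (c - 1) * n := by nlinarith
    exact lt_of_mul_lt_mul_right this hn.le
  have e1 : (c : ℝ) * m / n = d := by rw [hdR]; field_simp
  have e2 : ((n.choose c : ℝ) / m) = ((n - 1).choose (c - 1) : ℝ) / d := by
    rw [div_eq_div_iff hm0'.ne' hd0.ne']
    have : (n.choose c : ℝ) * d * n = (n - 1).choose (c - 1) * m * n := by
      rw [mul_assoc, ← hdR]; nlinarith
    exact mul_right_cancel₀ hn.ne' this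
  have e3 : ((n.choose c : ℝ) / m) ^ (log c / log (n / c)) = Lam n c d := by
    rw [e2, rpow_def_of_pos (div_pos (hd0.trans hdC) hd0)]
    unfold Lam lg
    rw [mul_div_assoc]
  rw [e1, e3] at h1 h2
  have hx1 : 1 ≤ x := by
    rcases Nat.eq_zero_or_pos x with rfl | h
    · rw [Nat.choose_eq_zero_of_lt (by omega)] at h2
      simp at h2
      linarith
    · exact h
  have e4 : (n : ℝ) - ((x - 1 : ℕ) : ℝ) = (n : ℝ) - x + 1 := by
    rw [Nat.cast_sub hx1]; push_cast; ring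
  rw [e4] at h1
  exact ⟨hc, hcn, hd1, by exact_mod_cast hdC, hx, h1, h2⟩

/-- From the stated density condition to the internal one. -/
theorem sharp_of {n c m d x K : ℕ} (h : Par n c d x) (hd : c * m = d * n) {K' : ℝ} (hK : K' ≤ K)
    (hm : (m : ℝ) ≤ max (c * ((n : ℝ) - c) / n ^ 2) (1 / c) ^ K * n.choose c) :
    K' * min (bb n c) (log c) ≤ lg n c d := by
  obtain ⟨hm0, hm1, -, hl, -⟩ := h.size hd
  have hc2 : (2 : ℝ) ≤ c := by exact_mod_cast h.hc
  have hcn : (c : ℝ) + 2 ≤ n := by exact_mod_cast h.hcn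
  have hm0' : (0 : ℝ) < m := by exact_mod_cast hm0
  have hC : (0 : ℝ) < n.choose c := by exact_mod_cast hm0.trans_lt' zero_lt_one |>.trans hm1
  have hk : (0 : ℝ) < (n : ℝ) - c := by linarith
  have hn : (0 : ℝ) < n := by linarith
  have hc0 : (0 : ℝ) < c := by linarith
  have hb := h.log_two_le_bb
  have hl2 : 0 < log 2 := log_pos (by norm_num)
  have hlc : 0 ≤ log (c : ℝ) := log_nonneg (by linarith)
  have h0 : 0 ≤ min (bb n c) (log c) := le_min (by linarith) hlc
  refine (mul_le_mul_of_nonneg_right hK h0).trans ?_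
  have hu : max (c * ((n : ℝ) - c) / n ^ 2) (1 / c) ≤ exp (-min (bb n c) (log c)) := by
    refine max_le ?_ ?_
    · refine le_trans ?_ (exp_le_exp.2 (neg_le_neg (min_le_left _ _)))
      unfold bb
      rw [exp_neg, exp_log (by positivity), inv_div]
    · refine le_trans ?_ (exp_le_exp.2 (neg_le_neg (min_le_right _ _)))
      rw [exp_neg, exp_log hc0, one_div]
  have hu0 : 0 ≤ max (c * ((n : ℝ) - c) / n ^ 2) (1 / c) := le_max_of_le_right (by positivity)
  have h2 := hm.trans (mul_le_mul_of_nonneg_right (pow_le_pow_left₀ hu0 hu K) hC.le)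
  rw [← exp_nat_mul] at h2
  rw [hl, le_log_iff_exp_le (by positivity), le_div_iff₀ hm0']
  have h3 := mul_le_mul_of_nonneg_left h2 (exp_pos (K * min (bb n c) (log c))).le
  rw [← mul_assoc, ← exp_add] at h3
  simpa using h3

theorem masterU : ∃ C : ℝ, 0 < C ∧ ∀ ε : ℝ, 0 < ε → ∃ K : ℕ,
    ∀ n c k m m' d d' x y : ℕ, c + k = n → m + m' = n.choose c → c * m = d * n →
      k * m' = d' * n → Par n c d x → Par n k d' y →
      ∃ f : ℕ, IsLeast {k : ℕ | ∃ J : Finset (Finset (Fin n)), (∀ X ∈ J, X.card = c) ∧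
          J.card = m ∧ (∃ d : ℕ, ∀ i : Fin n, (J.filter (fun X => i ∈ X)).card = d) ∧
          (Finset.shadow J).card = k} f ∧
        (2 * m ≤ n.choose c → eL n c m x ≤ C * ex n c m f ∧ ex n c m f ≤ C * eL n c m x) ∧
        (n.choose c ≤ 2 * m → m' * ((n : ℝ) - y) ≤ C * ex n c m f ∧
          ex n c m f ≤ C * (m' * ((n : ℝ) - y))) ∧
        ((m : ℝ) ≤ max (c * ((n : ℝ) - c) / n ^ 2) (1 / c) ^ K * n.choose c → c + K ≤ x →
          |ex n c m f - eL n c m x| ≤ ε * eL n c m x) ∧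
        ((m' : ℝ) ≤ max (k * ((n : ℝ) - k) / n ^ 2) (1 / k) ^ K * n.choose k →
          |ex n c m f - m' * ((n : ℝ) - y)| ≤ ε * (m' * ((n : ℝ) - y))) := by
  classical
  obtain ⟨C1, hC1, h1⟩ := lo_orderU
  obtain ⟨C2, hC2, h2⟩ := hi_orderU
  obtain ⟨C3, hC3, h3⟩ := up_lo_order
  obtain ⟨C4, hC4, h4⟩ := up_hi_order
  refine ⟨C1 + C2 + C3 + C4, by positivity, fun ε hε => ?_⟩
  obtain ⟨K1, hK1, h5⟩ := lo_sharpU ε hε
  obtain ⟨K2, hK2, h6⟩ := hi_sharpU ε hε
  obtain ⟨K3, hK3, h7⟩ := up_lo_sharp ε hε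
  obtain ⟨K4, hK4, h8⟩ := up_hi_sharp ε hε
  obtain ⟨K, hK⟩ := exists_nat_ge (K1 + K2 + K3 + K4)
  refine ⟨K, ?_⟩
  intro n c k m m' d d' x y hk hm hd hd' hx hy
  have hc0 : 1 ≤ c := by have := hx.hc; omega
  have hcn : c ≤ n := by omega
  obtain ⟨hm0, hm1, -⟩ := hx.size hd
  have hdvd : n ∣ c * m := ⟨d, by rw [hd, mul_comm]⟩
  have hE : 0 ≤ eL n c m x := by
    have a1 : (c : ℝ) ≤ x + 1 := by exact_mod_cast hx.c_le
    have a2 : (x : ℝ) ≤ n := by exact_mod_cast hx.hx.le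
    unfold eL
    exact div_nonneg (mul_nonneg (by positivity) (by linarith)) (by linarith)
  have hE' : 0 ≤ (m' : ℝ) * ((n : ℝ) - y) := by
    have a2 : (y : ℝ) ≤ n := by exact_mod_cast hy.hx.le
    exact mul_nonneg (by positivity) (by linarith)
  set S : Set ℕ := {k : ℕ | ∃ J : Finset (Finset (Fin n)), (∀ X ∈ J, X.card = c) ∧
    J.card = m ∧ (∃ d : ℕ, ∀ i : Fin n, (J.filter (fun X => i ∈ X)).card = d) ∧
    (Finset.shadow J).card = k} with hS
  have hmem : ∀ J : Finset (Finset (Fin n)), Reg n c m J → #(shadow J) ∈ S :=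
    fun J hJ => ⟨J, hJ.1, hJ.2.1, hJ.2.2, rfl⟩
  obtain ⟨J0, hJ0, -⟩ := exists_reg hc0 hm0 hm1.le hdvd
  have hne : S.Nonempty := ⟨_, hmem J0 hJ0⟩
  have hL : IsLeast S (sInf S) := ⟨Nat.sInf_mem hne, fun k hk => Nat.sInf_le hk⟩
  obtain ⟨J, g1, g2, g3, g4⟩ := hL.1
  have hJ : Reg n c m J := ⟨g1, g2, g3⟩
  have hup : ∀ J' : Finset (Finset (Fin n)), Reg n c m J' →
      ex n c m (sInf S) ≤ ex n c m #(shadow J') :=
    fun J' hJ' => ex_mono' hcn (hL.2 (hmem J' hJ'))
  have hB := ex_nonneg' hc0 hJ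
  rw [g4] at hB
  refine ⟨sInf S, hL, fun h => ⟨?_, ?_⟩, fun h => ⟨?_, ?_⟩, fun h hx' => ?_, fun h => ?_⟩
  · have := h1 n c m d x J hx hd hJ h
    rw [g4] at this
    nlinarith
  · obtain ⟨J', hJ', hb⟩ := h3 n c m d x hx hd h
    have := hup J' hJ'
    nlinarith
  · have := h2 n c k m m' d' y J hk hm hy hd' hJ (by omega)
    rw [g4] at this
    nlinarith
  · obtain ⟨J', hJ', hb⟩ := h4 n c k m m' d' y hk hm hy hd' hdvd (by omega)
    have := hup J' hJ'
    nlinarith
  · have ht : (c : ℝ) + K ≤ x := by exact_mod_cast hx'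
    have e1 := h5 n c m d x J hx hd hJ (sharp_of hx hd (by linarith) h) (by linarith)
    rw [g4] at e1
    obtain ⟨J', hJ', hb⟩ := h7 n c m d x hx hd (sharp_of hx hd (by linarith) h) (by linarith)
    have := hup J' hJ'
    rw [abs_le]; constructor <;> linarith
  · have e1 := h6 n c k m m' d' y J hk hm hy hd' hJ (sharp_of hy hd' (by linarith) h)
    rw [g4] at e1
    obtain ⟨J', hJ', hb⟩ := h8 n c k m m' d' y hk hm hy hd' hdvd (sharp_of hy hd' (by linarith) h)
    have := hup J' hJ'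
    rw [abs_le]; constructor <;> linarith

end Pool.Agent.P.MP_4f3dfd_co.Ex
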