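import Pool.Agent.P.MP_4f3dfd_co.Construct1
import Pool.Agent.P.MP_4f3dfd_co.Params1

set_option autoImplicit false
set_option maxHeartbeats 800000

namespace Pool.Agent.P.MP_4f3dfd_co

open Finset

/-- the construction from integer parameters -/
theorem upper_int (n d m a r b g c : ℕ) (hdm : 3 * m = d * n) (hn : a + r + b = n)
    (hr : 0 < r) (hcr : c ≤ r) (hg : g * r ≤ b * c) (ha2 : (2 : ℝ) < a) (hb2 : (2 : ℝ) < b)
    (hg1 : (1 : ℝ) < g)
    (c1 : 2 * (d : ℝ) - 2 * (c * (g - 1)) ≤ (b - 1) * (b - 2))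
    (c2 : 2 * ((c : ℝ) * (g - 1)) ≤ 2 * d)
    (c3 : 2 * (d : ℝ) - g * (g - 1) ≤ a * (a - 1))
    (c4 : (b : ℝ) * (g - 1) ≤ 2 * d)
    (c5 : 2 * (d : ℝ) * a - 2 * (2 * d * r) + 2 * ((g - 1) * (b * c)) ≤ a * (a - 1) * (a - 2))
    (c6 : 2 * (r : ℝ) ≤ a) :
    ∃ J : Finset (Finset (Fin n)), (∀ X ∈ J, #X = 3) ∧ #J = m ∧ (∀ v, #{X ∈ J | v ∈ X} = d) ∧
      2 * (#(shadow J) : ℝ) ≤ (a : ℝ) * (a - 1) + 2 * (a * r) + 2 * (b * c) + b * (b - 1)
        + 18 * n := by
  obtain ⟨e, he, hec, heg⟩ := exists_bip r b c hr hcr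
  have hgle : ∀ i, (g : ℝ) ≤ ∑ j, e i j := by
    intro i
    refine le_trans ?_ (heg i).1
    exact_mod_cast (Nat.le_div_iff_mul_le hr).mpr hg
  have hbge : ∀ i, ∑ j, e i j ≤ b := by
    intro i
    calc ∑ j, e i j ≤ ∑ _j : Fin b, (1 : ℝ) := Finset.sum_le_sum fun j _ => by
          rcases he i j with h | h <;> simp [h]
      _ = b := by simp
  have htot : ∑ i, ∑ j, e i j = b * c := by
    rw [Finset.sum_comm]
    simp [hec]
  have hA0 : (0 : ℝ) < a * (a - 1) := mul_pos (by linarith) (by linarith)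
  have hA1 : (0 : ℝ) < (a - 1) * (a - 2) := mul_pos (by linarith) (by linarith)
  have hB1 : (0 : ℝ) < (b - 1) * (b - 2) := mul_pos (by linarith) (by linarith)
  have ha0 : (0 : ℝ) < a := by linarith
  have hd0 : (0 : ℝ) ≤ d := by positivity
  have hbc0 : (0 : ℝ) ≤ (g - 1) * (b * c) := mul_nonneg (by linarith) (by positivity)
  have key := construct1 (A := Fin a) (R := Fin r) (B := Fin b) n e he (by simpa using hn)
    ((2 * d - 2 * (2 * d * r - (g - 1) * (b * c)) / a) / ((a - 1) * (a - 2)))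
    ((2 * d - 2 * (c * (g - 1))) / ((b - 1) * (b - 2)))
    (fun i => (2 * d - (∑ j, e i j) * (g - 1)) / (a * (a - 1)))
    (fun i => (g - 1) / (∑ j, e i j - 1))
    (by
      constructor
      · apply div_nonneg _ hA1.le
        rw [sub_nonneg, div_le_iff₀ ha0]
        have : 2 * (d : ℝ) * (2 * r) ≤ 2 * d * a := by gcongr
        linarith
      · rw [div_le_one hA1, sub_le_comm, le_div_iff₀ ha0]
        linarith)
    (by
      constructor
      · apply div_nonneg _ hB1.le
        linarith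
      · rw [div_le_one hB1]
        linarith)
    (by
      intro i
      constructor
      · apply div_nonneg _ hA0.le
        have : (∑ j, e i j) * ((g : ℝ) - 1) ≤ b * (g - 1) :=
          mul_le_mul_of_nonneg_right (hbge i) (by linarith)
        linarith
      · rw [div_le_one hA0]
        have : (g : ℝ) * (g - 1) ≤ (∑ j, e i j) * ((g : ℝ) - 1) :=
          mul_le_mul_of_nonneg_right (hgle i) (by linarith)
        linarith)
    (by
      intro i
      have := hgle i
      constructor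
      · apply div_nonneg <;> linarith
      · rw [div_le_one (by linarith)]
        linarith)
    d m hdm
    (by
      simp only [Fintype.card_fin]
      rw [← Finset.sum_div, Finset.sum_sub_distrib,
        ← Finset.sum_mul (f := fun i => ∑ j, e i j), htot]
      simp only [Finset.sum_const, Finset.card_univ, Fintype.card_fin, nsmul_eq_mul]
      have h1 : (a : ℝ) - 1 ≠ 0 := by linarith
      have h2 : (a : ℝ) - 2 ≠ 0 := by linarith
      field_simp
      ring)
    (by
      intro i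
      simp only [Fintype.card_fin]
      have := hgle i
      have h1 : (a : ℝ) - 1 ≠ 0 := by linarith
      have h2 : ∑ j, e i j - 1 ≠ 0 := by linarith
      field_simp
      ring)
    (by
      intro j
      simp only [Fintype.card_fin]
      have e1 : ∀ i, e i j * ((∑ j, e i j - 1) * (((g : ℝ) - 1) / (∑ j, e i j - 1))) =
          e i j * (g - 1) := by
        intro i
        have := hgle i
        have h2 : ∑ j, e i j - 1 ≠ 0 := by linarith
        field_simp
      simp only [e1, ← Finset.sum_mul, hec]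
      have h1 : (b : ℝ) - 1 ≠ 0 := by linarith
      have h2 : (b : ℝ) - 2 ≠ 0 := by linarith
      field_simp
      ring)
  simp only [Fintype.card_fin, htot] at key
  exact key

theorem upper_cusp (n d m : ℕ) (hdm : 3 * m = d * n) (hn0 : 0 < n) (t : ℝ) (ht : 0 < t)
    (ht' : t ≤ 1 / 10) (hν : 10 * (1 / (n : ℝ)) ≤ 3 / 2 * t ^ 4)
    (h1 : 2 * (d : ℝ) / (n : ℝ) ^ 2 ≤ 1 / 4 + 3 / 2 * t ^ 4 - 10 * (1 / n))
    (h2 : 1 / 4 - 3 * (1 / (n : ℝ)) ≤ 2 * (d : ℝ) / (n : ℝ) ^ 2) :
    ∃ J : Finset (Finset (Fin n)), (∀ X ∈ J, #X = 3) ∧ #J = m ∧ (∀ v, #{X ∈ J | v ∈ X} = d) ∧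
      2 * (#(shadow J) : ℝ) / (n : ℝ) ^ 2 ≤ 1 / 2 + 2 * t ^ 3 + 20 * t ^ 5 + 21 * (1 / n) := by
  obtain ⟨u0, u1, u2, u3⟩ := params_u t ht ht'
  obtain ⟨u, hu⟩ : ∃ u, u = t * (1 + 3 * t ^ 2) := ⟨_, rfl⟩
  rw [← hu] at u0 u1 u2 u3
  obtain ⟨ε, hε⟩ : ∃ ε, ε = 3 / 2 * t ^ 4 := ⟨_, rfl⟩
  rw [← hε] at hν h1
  have hN : (0 : ℝ) < n := by exact_mod_cast hn0
  obtain ⟨x, hx⟩ : ∃ x, x = ε + u ^ 4 + 26 * u ^ 6 := ⟨_, rfl⟩
  have hu4 : u ^ 4 ≤ (103 / 1000) ^ 4 := by gcongr
  have hu2 : u ^ 2 ≤ (103 / 1000) ^ 2 := by gcongr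
  have p4 : 0 < u ^ 4 := by positivity
  have p6 : 0 < u ^ 6 := by positivity
  have pν : 0 < 1 / (n : ℝ) := by positivity
  norm_num at hu4 hu2
  have hx1 : x ≤ 1 / 1000 := by linarith only [u2, hν, hε, hx, p6, pν, hu4]
  have hx0 : 0 ≤ x := by linarith
  have hν1 : 1 / (n : ℝ) ≤ 1 / 1000 := by linarith
  set r := ⌈u ^ 2 * n⌉₊ with hr
  set b := ⌊(1 / 2 - x) * n⌋₊ with hb
  set g := ⌈u * n⌉₊ with hg
  have r1 : u ^ 2 * n ≤ r := Nat.le_ceil _
  have r2 : (r : ℝ) ≤ u ^ 2 * n + 1 := (Nat.ceil_lt_add_one (by positivity)).le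
  have b1 : (1 / 2 - x) * n - 1 ≤ b := (Nat.sub_one_lt_floor _).le
  have b2 : (b : ℝ) ≤ (1 / 2 - x) * n := Nat.floor_le (mul_nonneg (by linarith only [u2, hν, hε, hx, p6, pν, hu4]) hN.le)
  have g1 : u * n ≤ g := Nat.le_ceil _
  have g2 : (g : ℝ) ≤ u * n + 1 := (Nat.ceil_lt_add_one (by positivity)).le
  have hn1000 : (1000 : ℝ) ≤ n := by
    rw [div_le_div_iff₀ hN (by norm_num)] at hν1
    linarith only [hν1]
  have hbpos : (0 : ℝ) < b := by nlinarith only [h2, u2, h1, hε, hx, p6, pν, hu4, hu2, b1, hn1000]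
  have hgb : (g : ℝ) ≤ b := by nlinarith only [h2, u2, u1, h1, hε, hx, p6, pν, hu4, hu2, b1, g2, hn1000]
  have hrpos : (0 : ℝ) < r := lt_of_lt_of_le (by positivity) r1
  set c := ⌈(g : ℝ) * r / b⌉₊ with hc
  have c1 : (g : ℝ) * r ≤ b * c := by
    have : (g : ℝ) * r / b ≤ c := Nat.le_ceil _
    rw [div_le_iff₀ hbpos] at this
    linarith only [this]
  have c2 : (b : ℝ) * c ≤ g * r + b := by
    have : (c : ℝ) ≤ (g : ℝ) * r / b + 1 := (Nat.ceil_lt_add_one (by positivity)).le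
    have h := mul_le_mul_of_nonneg_left this hbpos.le
    rw [mul_add, mul_div_cancel₀ _ hbpos.ne'] at h
    linarith only [h]
  have c3 : c ≤ r := by
    apply Nat.ceil_le.mpr
    rw [div_le_iff₀ hbpos]
    nlinarith only [hgb]
  have hrb : r + b ≤ n := by
    have : (r : ℝ) + b ≤ n := by nlinarith only [h2, h1, hx, p4, p6, pν, hu4, hu2, r2, b2, hn1000]
    exact_mod_cast this
  obtain ⟨a, ha⟩ : ∃ a, a + r + b = n := ⟨n - (r + b), by omega⟩
  have haR : (a : ℝ) = n - r - b := by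
    have : (a : ℝ) + r + b = n := by exact_mod_cast ha
    linarith only [this]
  have hN' : (n : ℝ) ≠ 0 := hN.ne'
  have dv : ∀ p q : ℝ, p * n ≤ q → p ≤ q / n := fun p q h => (le_div_iff₀ hN).mpr h
  have dv' : ∀ p q : ℝ, q ≤ p * n → q / n ≤ p := fun p q h => (div_le_iff₀ hN).mpr h
  have one : 1 / (n : ℝ) * n = 1 := by field_simp
  obtain ⟨k1, k2, k3, k4, k5, k6, k7, k8, k9, k10⟩ := params_norm u ε (1 / n)
    (2 * (d : ℝ) / (n : ℝ) ^ 2) (r / n) (b / n) (g / n) (c / n) u0 u1 pν hν (by linarith only [u2, hε]) h1 h2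
    (dv _ _ r1) (dv' _ _ (by rw [add_mul, one]; exact r2))
    (dv _ _ (by rw [← hx, sub_mul, one]; exact b1)) (dv' _ _ (by rw [← hx]; exact b2))
    (dv _ _ g1) (dv' _ _ (by rw [add_mul, one]; exact g2))
    (by
      rw [div_mul_div_comm, div_mul_div_comm]
      gcongr)
    (by
      rw [div_mul_div_comm, div_mul_div_comm, div_mul_div_comm, ← add_div, mul_one]
      gcongr)
    (by gcongr)
    (by positivity)
  have ea : 1 - (r : ℝ) / n - b / n = a / n := by rw [haR]; field_simp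
  rw [ea] at k3 k5 k6 k7 k8
  have sc : ∀ (k : ℕ) (p q p' q' : ℝ), p ≤ q → p' = p * (n : ℝ) ^ k → q' = q * (n : ℝ) ^ k →
      p' ≤ q' := by
    intro k p q p' q' h e1 e2
    rw [e1, e2]
    gcongr
  have sc' : ∀ (p q p' q' : ℝ), p < q → p' = p * (n : ℝ) → q' = q * (n : ℝ) →
      p' < q' := by
    intro p q p' q' h e1 e2
    rw [e1, e2]
    gcongr
  obtain ⟨J, j1, j2, j3, j4⟩ := upper_int n d m a r b g c hdm ha (by exact_mod_cast hrpos) c3
    (by exact_mod_cast c1)
    (sc' _ _ _ _ k8 (by field_simp) (by field_simp))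
    (sc' _ _ _ _ k9 (by field_simp) (by field_simp))
    (sc' _ _ _ _ k10 (by field_simp) (by field_simp))
    (sc 2 _ _ _ _ k1 (by field_simp) (by field_simp))
    (sc 2 _ _ _ _ k2 (by field_simp) (by field_simp))
    (sc 2 _ _ _ _ k3 (by field_simp) (by field_simp))
    (sc 2 _ _ _ _ k4 (by field_simp) (by field_simp))
    (sc 3 _ _ _ _ k5 (by field_simp) (by field_simp))
    (sc 1 _ _ _ _ k6 (by field_simp) (by field_simp))
  refine ⟨J, j1, j2, j3, ?_⟩
  rw [div_le_iff₀ (by positivity)]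
  refine j4.trans (sc 2 _ _ _ _ (k7.trans (by linarith only [u3] :
    1 / 2 + 2 * u ^ 3 + 21 * (1 / (n : ℝ)) ≤ 1 / 2 + 2 * t ^ 3 + 20 * t ^ 5 + 21 * (1 / n)))
    (by field_simp) rfl)

/-- regular families exist whenever the divisibility condition holds -/
theorem exists_regular (n c d m : ℕ) (hc : 0 < c) (hcn : c ≤ n) (hdm : c * m = d * n)
    (hm : m ≤ n.choose c) :
    ∃ J : Finset (Finset (Fin n)), (∀ X ∈ J, #X = c) ∧ #J = m ∧
      (∀ v, #{X ∈ J | v ∈ X} = d) := by
  have hpos : (0 : ℝ) < n.choose c := by exact_mod_cast Nat.choose_pos hcn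
  have hn : (0 : ℝ) < n := by exact_mod_cast (by omega : 0 < n)
  obtain ⟨J, h1, h2, h3, _⟩ := exists_regular_of_fractional
    (Finset.powersetCard c (Finset.univ : Finset (Fin n))) c hc
    (fun X hX => (Finset.mem_powersetCard.mp hX).2) (fun _ => (m : ℝ) / n.choose c)
    (fun _ _ => ⟨by positivity, by
      rw [div_le_one hpos]
      exact_mod_cast hm⟩) d m (by simpa using hdm)
    (by
      intro v
      obtain ⟨k, rfl⟩ : ∃ k, c = k + 1 := ⟨c - 1, by omega⟩
      obtain ⟨n', rfl⟩ : ∃ n', n = n' + 1 := ⟨n - 1, by omega⟩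
      have hcard : #{X ∈ Finset.powersetCard (k + 1) (Finset.univ : Finset (Fin (n' + 1))) |
          v ∈ X} = n'.choose k := by
        have : n'.choose k = #(Finset.powersetCard k (Finset.univ.erase v)) := by
          rw [Finset.card_powersetCard, Finset.card_erase_of_mem (Finset.mem_univ v)]
          simp
        rw [this]
        symm
        apply Finset.card_bij (fun Y _ => insert v Y)
        · intro Y hY
          obtain ⟨h1, h2⟩ := Finset.mem_powersetCard.mp hY
          have hv : v ∉ Y := fun h => by simpa using h1 h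
          simp [Finset.mem_powersetCard, Finset.card_insert_of_notMem hv, h2]
        · intro Y hY Z hZ h
          have hv : v ∉ Y := fun h => by simpa using (Finset.mem_powersetCard.mp hY).1 h
          have hv' : v ∉ Z := fun h => by simpa using (Finset.mem_powersetCard.mp hZ).1 h
          rw [← Finset.erase_insert hv, ← Finset.erase_insert hv', h]
        · intro X hX
          obtain ⟨h1, h2⟩ := Finset.mem_filter.mp hX
          refine ⟨X.erase v, ?_, Finset.insert_erase h2⟩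
          rw [Finset.mem_powersetCard, Finset.card_erase_of_mem h2,
            (Finset.mem_powersetCard.mp h1).2]
          exact ⟨Finset.erase_subset_erase _ (Finset.subset_univ _), rfl⟩
      rw [Finset.sum_const, hcard, nsmul_eq_mul, mul_div_assoc', div_eq_iff hpos.ne']
      have e1 : (((n' + 1) * n'.choose k : ℕ) : ℝ) = ((n' + 1).choose (k + 1) * (k + 1) : ℕ) := by
        rw [Nat.add_one_mul_choose_eq]
      have e2 : (((k + 1) * m : ℕ) : ℝ) = (d * (n' + 1) : ℕ) := by rw [hdm]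
      push_cast at e1 e2 hn ⊢
      apply mul_left_cancel₀ hn.ne'
      linear_combination (m : ℝ) * e1 + ((n' + 1).choose (k + 1) : ℝ) * e2)
  exact ⟨J, h1, h2, h3⟩

end Pool.Agent.P.MP_4f3dfd_co
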