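import Pool.Agent.P.MP_4f3dfd_co.WDefs

set_option autoImplicit false
set_option linter.unusedSectionVars false
set_option linter.unusedVariables false

namespace Pool.Agent.P.MP_4f3dfd_co.Win

open Finset Pool.Agent.P.MP_4f3dfd_co.Asy Pool.Agent.P.MP_4f3dfd_co.Off

variable {V : Type*} [DecidableEq V]

theorem card_atm {c j : ℕ} {B A : Finset V} (hB : #B = c + j) (hA : A ⊆ B) :
    #(atm c B A) + (c + j - #A).choose j = (c + j).choose j := by
  have h1 := card_filter_add_card_filter_not (s := powersetCard c B) (fun X => A ⊆ X)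
  rw [card_powersetCard, hB, Nat.choose_symm_add] at h1
  have h2 : #{X ∈ powersetCard c B | A ⊆ X} = (c + j - #A).choose j := by
    rcases le_or_gt #A c with k | k
    · rw [card_filter_powersetCard_subset A B c hA k, hB,
        show c + j - #A = (c - #A) + j by omega, Nat.choose_symm_add]
    · have := card_le_card hA
      rw [Nat.choose_eq_zero_of_lt (by omega), card_eq_zero, filter_eq_empty_iff]
      intro X hX h
      have := card_le_card h
      have := (mem_powersetCard.1 hX).2
      omega
  unfold atm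
  omega

theorem shadow_atm {c j : ℕ} (hc : 1 ≤ c) {B A : Finset V} (hB : #B = c + j) (hA : A ⊆ B) :
    #(shadow (atm c B A)) + (c + j - #A).choose (j + 1) ≤ (c + j).choose (j + 1) := by
  have e : c - 1 + (j + 1) = c + j := by omega
  have h1 := card_atm (c := c - 1) (j := j + 1) (hB.trans e.symm) hA
  rw [e] at h1
  have h2 : shadow (atm c B A) ⊆ atm (c - 1) B A := fun Y hY => by
    obtain ⟨X, hX, a, ha, rfl⟩ := mem_shadow_iff.1 hY
    obtain ⟨k1, k2⟩ := mem_filter.1 hX
    obtain ⟨k3, k4⟩ := mem_powersetCard.1 k1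
    exact mem_filter.2 ⟨mem_powersetCard.2 ⟨(erase_subset _ _).trans k3, by
      rw [card_erase_of_mem ha, k4]⟩, fun k => k2 (k.trans (erase_subset _ _))⟩
  have := card_le_card h2
  omega

theorem watom_low {c j y : ℕ} (hj : 1 ≤ j) (hc : 1 ≤ c) {t : ℝ} (h0 : 0 ≤ t) (h1 : t ≤ 1)
    (hy : ((c + j).choose j : ℝ) * (1 - t) ≤ y.choose j) :
    ((c + j).choose (j + 1) : ℝ) * ((1 - t) ^ (1 + 1 / (j : ℝ)) - j / c) ≤ y.choose (j + 1) := by
  have hτ : 0 ≤ 1 - t := sub_nonneg.2 h1
  have hc' : (0 : ℝ) < c := by exact_mod_cast hc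
  have hj' : (0 : ℝ) < j := by exact_mod_cast hj
  set s := (1 - t) ^ (1 / (j : ℝ)) with hs
  have hs0 : 0 ≤ s := Real.rpow_nonneg hτ _
  have hsj : s ^ j = 1 - t := by
    rw [hs, one_div, Real.rpow_inv_natCast_pow hτ (by omega)]
  have e : (1 - t) ^ (1 + 1 / (j : ℝ)) = (1 - t) * s := by
    rw [Real.rpow_add_of_nonneg hτ zero_le_one (by positivity), Real.rpow_one]
  rw [e]
  rcases le_total (c * s) j with k | k
  · refine le_trans (mul_nonpos_of_nonneg_of_nonpos (Nat.cast_nonneg _) ?_) (Nat.cast_nonneg _)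
    have : s ≤ j / c := by
      rw [le_div_iff₀ hc']
      linarith
    nlinarith
  · have a1 : ((c : ℝ)) ^ j ≤ j.factorial * (c + j).choose j := by
      have h2 := Nat.pow_sub_le_descFactorial (c + j) j
      rw [Nat.descFactorial_eq_factorial_mul_choose] at h2
      have h3 : c ^ j ≤ (c + j + 1 - j) ^ j := Nat.pow_le_pow_left (by omega) _
      exact_mod_cast h3.trans h2
    have a2 : (j.factorial : ℝ) * y.choose j ≤ (y : ℝ) ^ j := by
      have h2 := Nat.descFactorial_le_pow y j
      rw [Nat.descFactorial_eq_factorial_mul_choose] at h2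
      exact_mod_cast h2
    have a3 : c * s ≤ y := by
      refine le_of_pow_le_pow_left₀ (n := j) (by omega) (Nat.cast_nonneg _) ?_
      rw [mul_pow, hsj]
      have h2 : (0 : ℝ) ≤ j.factorial := Nat.cast_nonneg _
      calc (c : ℝ) ^ j * (1 - t) ≤ j.factorial * (c + j).choose j * (1 - t) := by gcongr
        _ = j.factorial * ((c + j).choose j * (1 - t)) := by ring
        _ ≤ j.factorial * y.choose j := by gcongr
        _ ≤ _ := a2
    have a4 : j ≤ y := by exact_mod_cast k.trans a3
    have a5 : (y.choose (j + 1) : ℝ) * (j + 1) = y.choose j * (y - j) := by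
      have := Nat.choose_succ_right_eq y j
      rw [← Nat.cast_sub a4]
      exact_mod_cast this
    have hU : (0 : ℝ) ≤ (c + j).choose j := Nat.cast_nonneg _
    refine le_of_mul_le_mul_right ?_ (by positivity : (0 : ℝ) < j + 1)
    rw [a5, mul_right_comm, W_eq]
    calc ((c + j).choose j : ℝ) * c * ((1 - t) * s - j / c)
        = (c + j).choose j * ((1 - t) * (c * s) - j) := by field_simp
      _ ≤ (c + j).choose j * ((1 - t) * (c * s - j)) := by
          gcongr
          nlinarith
      _ = (c + j).choose j * (1 - t) * (c * s - j) := by ring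
      _ ≤ y.choose j * (y - j) := by
          have := sub_nonneg.2 k
          gcongr

/-- A clique segment of prescribed relative size. -/
theorem exists_atm {c j : ℕ} (hj : 1 ≤ j) (hc : 1 ≤ c) (B : Finset V) (hB : #B = c + j) {t : ℝ}
    (h0 : 0 ≤ t) (h1 : t ≤ 1) : ∃ A ⊆ B,
      (c + j).choose j * t - (c + j - 1).choose c ≤ (#(atm c B A) : ℝ) ∧
      (#(atm c B A) : ℝ) ≤ (c + j).choose j * t ∧
      (#(shadow (atm c B A)) : ℝ) ≤ (c + j).choose (j + 1) * (ps j t + j / c) := by
  classical
  have hU : (0 : ℝ) ≤ (c + j).choose j := Nat.cast_nonneg _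
  let P : ℕ → Prop := fun s => ((c + j).choose j : ℝ) * (1 - t) ≤ (c + j - s).choose j
  have hP0 : P 0 := by
    change _ ≤ (((c + j - 0).choose j : ℕ) : ℝ)
    rw [Nat.sub_zero]
    nlinarith
  have hs : P (Nat.findGreatest P (c + j)) := Nat.findGreatest_spec (Nat.zero_le _) hP0
  have hle := Nat.findGreatest_le (P := P) (c + j)
  have hmax : ∀ k, Nat.findGreatest P (c + j) < k → k ≤ c + j → ¬P k := fun k a b =>
    Nat.findGreatest_is_greatest a b
  generalize Nat.findGreatest P (c + j) = s at hs hle hmax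
  obtain ⟨A, hA, rfl⟩ := exists_subset_card_eq (s := B) (n := s) (by omega)
  have e1 : (#(atm c B A) : ℝ) + (c + j - #A).choose j = (c + j).choose j := by
    exact_mod_cast card_atm hB hA
  have e2 : (#(shadow (atm c B A)) : ℝ) + (c + j - #A).choose (j + 1) ≤
      (c + j).choose (j + 1) := by
    exact_mod_cast shadow_atm hc hB hA
  have hs' : ((c + j).choose j : ℝ) * (1 - t) ≤ (c + j - #A).choose j := hs
  refine ⟨A, hA, ?_, by linarith, ?_⟩
  · have hu : (0 : ℝ) ≤ (c + j - 1).choose c := Nat.cast_nonneg _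
    rcases hle.eq_or_lt with k | k
    · rw [k, Nat.sub_self, Nat.choose_eq_zero_of_lt (show 0 < j from hj)] at e1
      push_cast at e1
      nlinarith
    · have h2 : (((c + j - (#A + 1)).choose j : ℕ) : ℝ) < (c + j).choose j * (1 - t) :=
        not_le.1 (hmax _ (Nat.lt_succ_self _) k)
      have h3 : (c + j - #A).choose j ≤ (c + j - (#A + 1)).choose j + (c + j - 1).choose c := by
        obtain ⟨i, rfl⟩ : ∃ i, j = i + 1 := ⟨j - 1, by omega⟩
        rw [show c + (i + 1) - #A = (c + (i + 1) - (#A + 1)) + 1 by omega, Nat.choose_succ_succ',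
          show c + (i + 1) - 1 = c + i by omega, Nat.choose_symm_add (a := c) (b := i), add_comm]
        exact Nat.add_le_add_left (Nat.choose_le_choose _ (by omega)) _
      have h4 : ((c + j - #A).choose j : ℝ) ≤
          (c + j - (#A + 1)).choose j + (c + j - 1).choose c := by exact_mod_cast h3
      linarith
  · have := watom_low hj hc h0 h1 hs'
    unfold ps
    linarith

end Pool.Agent.P.MP_4f3dfd_co.Win
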