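import Pool.Agent.P.MP_4f3dfd_co.WDefs

set_option autoImplicit false
set_option linter.unusedSectionVars false
set_option linter.unusedVariables false

namespace Pool.Agent.P.MP_4f3dfd_co.Win

open Finset Pool.Agent.P.MP_4f3dfd_co.Asy Pool.Agent.P.MP_4f3dfd_co.Off

/-- The lower bound by links and colinks. -/
theorem big_lower {n c q j m d e : ℕ} (hn : n = c + q) (hc : 2 ≤ c) {J : Finset (Finset (Fin n))}
    (hJ : Rg c m d J) (hde : d + e = m) (h : min d e ≤ (c + j).choose (j + 1)) :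
    c * m * q ≤ (j + 2) * (q + 1) * #(shadow J) := by
  have hdm : c * m = d * n := by
    have := sum_deg_nat J c hJ.sz
    rw [sum_congr rfl (fun v _ => hJ.dg v), sum_const, card_univ, Fintype.card_fin, smul_eq_mul,
      hJ.cd] at this
    rw [← this, mul_comm]
  by_cases hq : q ≤ j + 1
  · have a := le_shadow_of_subset J c univ hJ.sz fun X _ => subset_univ X
    rw [hJ.cd, card_univ, Fintype.card_fin, show n + 1 - c = q + 1 by omega] at a
    calc c * m * q = m * c * q := by ring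
      _ ≤ #(shadow J) * (q + 1) * (j + 2) := Nat.mul_le_mul a (by omega)
      _ = _ := by ring
  obtain ⟨k, rfl⟩ : ∃ k, c = k + 1 := ⟨c - 1, by omega⟩
  rcases min_le_iff.1 h with h1 | h1
  · have e1 : (k + 1 + j).choose (j + 1) = (k + 1 + j).choose k :=
      Nat.choose_symm_of_eq_add (by omega)
    have a := lower (n := n) (k := k) (d := d) (x := k + 1 + j) (by omega) (by omega) J hJ.sz hJ.dg
      (by rwa [← e1])
    rw [show k + 1 + j + 1 - k = j + 2 by omega] at a
    calc (k + 1) * m * q = n * d * q := by rw [hdm]; ring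
      _ ≤ #(shadow J) * (j + 2) * (q + 1) := Nat.mul_le_mul a (by omega)
      _ = _ := by ring
  · have e1 : (k + 1 + j + 1).choose (j + 1) = (k + 1 + j + 1).choose (k + 1) :=
      Nat.choose_symm_of_eq_add (by omega)
    have h2 : e ≤ (k + 1 + j + 1).choose (k + 1) := by
      rw [← e1]
      exact h1.trans (Nat.choose_le_choose _ (by omega))
    obtain ⟨g, hg⟩ := SG_least (n := n) (c := k + 1) (d := e)
      (h2.trans (Nat.choose_le_choose _ (by omega)))
    have a := colink hn hdm hde hJ.mem_SR hg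
    obtain ⟨A, a1, a2, a3⟩ := hg.1
    have b := kk_ratio (n := n) (k := k + 1) (x := k + 1 + j + 1) (by omega) A a1 (by rwa [a2])
    rw [a2, a3, show k + 1 + j + 1 + 1 - (k + 1) = j + 2 by omega] at b
    calc (k + 1) * m * q = (k + 1) * (q * m) := by ring
      _ = e * (k + 1) * n := by rw [qm hn hdm hde]; ring
      _ ≤ g * (j + 2) * n := Nat.mul_le_mul_right _ b
      _ = (j + 2) * (n * g) := by ring
      _ ≤ (j + 2) * ((q + 1) * #(shadow J)) := Nat.mul_le_mul_left _ a
      _ = _ := by ring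

theorem wbig_low {ε j q f M : ℝ} (hj : 5 ≤ ε * j) (hq : 5 ≤ ε * q) (hj1 : 1 ≤ j) (hq1 : 1 ≤ q)
    (hf : 0 ≤ f) (h : M * q ≤ (j + 2) * (q + 1) * f) : M / j ≤ (1 + ε) * f := by
  have a : (j + 2) * (q + 1) ≤ (1 + ε) * j * q := by
    nlinarith [mul_le_mul_of_nonneg_right hj (show 0 ≤ q by linarith),
      mul_le_mul_of_nonneg_right hq (show 0 ≤ j by linarith)]
  rw [div_le_iff₀ (by linarith)]
  refine le_of_mul_le_mul_right (h.trans ((mul_le_mul_of_nonneg_right a hf).trans
    (le_of_eq ?_))) (show 0 < q by linarith)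
  ring

theorem wbig_up {ε j f M : ℝ} (hε : 0 < ε) (hj : 5 ≤ ε * j) (hj1 : 1 ≤ j)
    (hf : 0 ≤ f) (hM : 0 ≤ M) (h : f * j ≤ (1 + ε / 2) * M) : (1 - ε) * f ≤ M / (j + 1) := by
  rcases le_total 1 ε with h1 | h1
  · exact (mul_nonpos_of_nonpos_of_nonneg (by linarith) hf).trans (by positivity)
  rw [le_div_iff₀ (by linarith)]
  have a : f * (j + 1) ≤ (1 + ε / 2) * (f * j) := by nlinarith
  have b : (1 - ε) * ((1 + ε / 2) * (1 + ε / 2)) ≤ 1 := by nlinarith [mul_pos hε hε]
  calc (1 - ε) * f * (j + 1) = (1 - ε) * (f * (j + 1)) := by ring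
    _ ≤ (1 - ε) * ((1 + ε / 2) * ((1 + ε / 2) * M)) :=
      mul_le_mul_of_nonneg_left (a.trans (mul_le_mul_of_nonneg_left h (by positivity)))
        (by linarith)
    _ = (1 - ε) * ((1 + ε / 2) * (1 + ε / 2)) * M := by ring
    _ ≤ M := mul_le_of_le_one_left hM b

/-- High levels. -/
theorem big_case {ε : ℝ} (hε : 0 < ε) : ∃ K : ℕ, ∀ n c m d e j f : ℕ, K ≤ j →
    (K ≤ c ∧ c + K ≤ n) ∨ K * (c + j) ≤ n → 1 ≤ m → m ≤ n.choose c → c * m = d * n → d + e = m →
    (c + j - 2).choose (j - 1) ≤ min d e → min d e < (c + j).choose (j + 1) →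
    IsLeast (SR n c m) f →
    (c * m : ℝ) / j ≤ (1 + ε) * f ∧ (1 - ε) * (f : ℝ) ≤ c * m / (j + 1) := by
  obtain ⟨K0, hK0⟩ := asymptotic (ε / 2) (by positivity)
  obtain ⟨L0, hL0⟩ := exists_nat_ge (12 / ε)
  obtain ⟨L, hL⟩ : ∃ L : ℕ, L = L0 + 2 := ⟨_, rfl⟩
  have hL1 : 12 ≤ ε * L := by
    rw [div_le_iff₀ hε] at hL0
    have : (L0 : ℝ) ≤ L := by exact_mod_cast (show L0 ≤ L by omega)
    nlinarith
  have hbig : ∀ x : ℕ, L ≤ x → 5 ≤ ε * x := fun x hx => by
    have : (L : ℝ) ≤ x := by exact_mod_cast hx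
    nlinarith
  refine ⟨K0 + 32 * L ^ 3 + 4 * L + 2, fun n c m d e j f hj hr hm1 hm hdm hde h1 h2 hf => ?_⟩
  generalize hK : K0 + 32 * L ^ 3 + 4 * L + 2 = K at hj hr
  have hc : 2 ≤ c := by
    by_contra hc
    have : c = 0 ∨ c = 1 := by omega
    rcases this with rfl | rfl
    · rw [zero_add, Nat.choose_succ_self] at h2
      omega
    · rw [show 1 + j - 2 = j - 1 by omega, Nat.choose_self] at h1
      rw [add_comm 1 j, Nat.choose_self] at h2
      omega
  have hq : c + K ≤ n := by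
    rcases hr with hr | hr
    · exact hr.2
    · refine le_trans ?_ hr
      rw [mul_add]
      exact add_le_add (Nat.le_mul_of_pos_left _ (by omega)) (Nat.le_mul_of_pos_right _ (by omega))
  obtain ⟨q, hn⟩ : ∃ q, n = c + q := ⟨n - c, by omega⟩
  have j1 : (1 : ℝ) ≤ j := by exact_mod_cast (show 1 ≤ j by omega)
  have hd : (c + j - 2).choose (c - 1) ≤ d := by
    rw [Nat.choose_symm_of_eq_add (show c + j - 2 = c - 1 + (j - 1) by omega)]
    exact h1.trans (min_le_left _ _)
  constructor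
  · obtain ⟨J, a1, a2, a3, a4⟩ := SR_deg hdm hf.1
    have a := big_lower hn hc ⟨a1, a2, a3⟩ hde h2.le
    rw [a4] at a
    exact wbig_low (q := q) (hbig j (by omega)) (hbig q (by omega)) j1
      (by exact_mod_cast (show 1 ≤ q by omega)) (Nat.cast_nonneg _) (by exact_mod_cast a)
  refine wbig_up hε (hbig j (by omega)) j1 (Nat.cast_nonneg _) (by positivity) ?_
  rcases hr with hr | hr
  · obtain ⟨k, rfl⟩ : ∃ k, c = k + 1 := ⟨c - 1, by omega⟩
    obtain ⟨t, rfl⟩ : ∃ t, j = t + 1 := ⟨j - 1, by omega⟩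
    rw [show k + 1 + (t + 1) - 2 = k + t by omega, Nat.add_sub_cancel] at hd
    have hx := x_le (by omega) hm1 hm hdm hd
    obtain ⟨J, a1, a2, a3, a4⟩ := upperA L n k t m d (by omega) (by omega) (by omega) (by omega)
      hm hm1 hdm hd
    have a5 : (f : ℝ) ≤ #(shadow J) := by exact_mod_cast hf.2 (Rg.mem_SR ⟨a1, a2, a3⟩)
    have a6 : (n : ℝ) * d = ((k + 1 : ℕ) : ℝ) * m := by exact_mod_cast (hdm.trans (mul_comm _ _)).symm
    have a7 : (6 : ℝ) / L ≤ ε / 2 := by
      rw [div_le_iff₀ (by exact_mod_cast (show 0 < L by omega))]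
      linarith
    rw [a6] at a4
    rw [Nat.cast_add t 1, Nat.cast_one]
    exact (mul_le_mul_of_nonneg_right a5 (by positivity)).trans
      (a4.trans (mul_le_mul_of_nonneg_right (by linarith) (by positivity)))
  · have hcn : 2 * c ≤ n := le_trans (Nat.mul_le_mul (by omega) (by omega)) hr
    have hde' : d ≤ e := by
      have a : d * n ≤ e * n := by
        obtain ⟨k, rfl⟩ : ∃ k, c = k + 1 := ⟨c - 1, by omega⟩
        rw [← hdm, ← qm hn hdm hde]
        exact Nat.mul_le_mul_right _ (by omega)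
      exact Nat.le_of_mul_le_mul_right a (by omega)
    rw [min_eq_left hde', Nat.choose_symm_of_eq_add (show c + j = j + 1 + (c - 1) by omega)] at h2
    have key : ∀ x : ℕ, c + j ≤ x + 1 → x ≤ c + j → (x - 1).choose (c - 1) ≤ d →
        d < x.choose (c - 1) → (f : ℝ) * j ≤ (1 + ε / 2) * (c * m) := fun x x1 x2 x3 x4 => by
      obtain ⟨f', b1, b2⟩ := hK0 n c m d x hm1 hm hdm x3 x4 (by omega)
        (Or.inr (le_trans (Nat.mul_le_mul (by omega) x2) hr))
      have b3 : f' = f := b1.unique hf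
      subst b3
      have b4 : (0 : ℝ) < c * m := by
        exact_mod_cast Nat.mul_pos (show 0 < c by omega) hm1
      have b5 := (abs_le.1 b2).2
      rw [sub_le_iff_le_add, div_le_iff₀ b4] at b5
      have b6 : (c : ℝ) + j ≤ x + 1 := by exact_mod_cast x1
      exact (mul_le_mul_of_nonneg_left (by linarith) (Nat.cast_nonneg _)).trans
        (b5.trans (le_of_eq (by ring)))
    by_cases hx : d < (c + j - 1).choose (c - 1)
    · exact key (c + j - 1) (by omega) (by omega) hd hx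
    · exact key (c + j) (by omega) le_rfl (not_lt.1 hx) h2

end Pool.Agent.P.MP_4f3dfd_co.Win
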