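import Pool.Agent.P.MP_4f3dfd_co.WPeel

set_option autoImplicit false
set_option linter.unusedSectionVars false
set_option linter.unusedVariables false

namespace Pool.Agent.P.MP_4f3dfd_co.Win

open Finset Pool.Agent.P.MP_4f3dfd_co.Asy Pool.Agent.P.MP_4f3dfd_co.Off

theorem wcore_kk {n j s x : ℕ} (hj : 1 ≤ j) {A G : Finset (Finset (Fin n))}
    (hA : ∀ X ∈ A, #X = j) (hG : G ⊆ A) (h2 : #A < 2 * #G) (hs : ∀ Y ∈ shadow G, s ≤ ex A Y)
    (hx : 2 * (x + 1) < s) (hxn : x + j ≤ n) : (x + j).choose j < #A := by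
  by_contra hc
  have h1 := kk_ratio hxn G (fun X hX => hA X (hG hX)) ((card_le_card hG).trans (not_lt.1 hc))
  rw [show x + j + 1 - j = x + 1 by omega] at h1
  have h3 : #(shadow G) * s ≤ #A * j :=
    card_mul_le_card_mul' (fun X Y : Finset (Fin n) => Y ⊆ X) (s := A) (t := shadow G)
      (fun Y hY => hs Y hY) (fun X hX => by
        refine le_trans (card_le_card ?_) (card_below A j hA X hX).le
        exact filter_subset_filter _ (shadow_mono hG))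
  have h4 : #G * j * s ≤ #G * j * (2 * (x + 1)) :=
    calc #G * j * s ≤ #(shadow G) * (x + 1) * s := Nat.mul_le_mul_right _ h1
      _ = #(shadow G) * s * (x + 1) := by ring
      _ ≤ #A * j * (x + 1) := Nat.mul_le_mul_right _ h3
      _ ≤ 2 * #G * j * (x + 1) := Nat.mul_le_mul_right _ (Nat.mul_le_mul_right _ h2.le)
      _ = _ := by ring
  have h5 := Nat.le_of_mul_le_mul_left h4 (Nat.mul_pos (by omega) hj)
  omega

theorem wcore_all {V : Type*} [DecidableEq V] {c j : ℕ} {H : Finset (Finset V)}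
    (hH : ∀ X ∈ H, #X = c) {X₀ X : Finset V} (hX : #X = c) (h1 : #(X \ X₀) = j)
    (h2 : #(X₀ \ X) = j) {a b : V} (ha : a ∈ X) (ha0 : a ∈ X₀)
    (hr : j + 1 ≤ ex H (X.erase a)) (hn : ¬∃ Z ∈ H, X.erase a ⊆ Z ∧ #(Z \ X₀) = j + 1)
    (hb : b ∈ X₀ \ X) : insert b (X.erase a) ∈ H := by
  have hsub : {W ∈ H | X.erase a ⊆ W} ⊆
      (insert a (X₀ \ X)).image fun w => insert w (X.erase a) := by
    intro W hW
    obtain ⟨hW1, hW2⟩ := mem_filter.1 hW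
    have hc : #W = #(X.erase a) + 1 := by
      rw [card_erase_add_one ha, hX, hH W hW1]
    obtain ⟨w, hw1, hw2⟩ := exists_mem_notMem_of_card_lt_card (s := X.erase a) (t := W) (by omega)
    have e := eq_insert hW2 hc hw1 hw2
    refine mem_image.2 ⟨w, ?_, e.symm⟩
    by_cases hwa : w = a
    · rw [hwa]
      exact mem_insert_self _ _
    have hwX : w ∉ X := fun h => hw2 (mem_erase.2 ⟨hwa, h⟩)
    refine mem_insert_of_mem (mem_sdiff.2 ⟨?_, hwX⟩)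
    by_contra hw0
    refine hn ⟨W, hW1, hW2, ?_⟩
    have e2 : W \ X₀ = insert w (X \ X₀) := by
      rw [e]
      ext y
      simp only [mem_sdiff, mem_insert, mem_erase]
      constructor
      · rintro ⟨h | h, h'⟩
        · exact Or.inl h
        · exact Or.inr ⟨h.2, h'⟩
      · rintro (h | h)
        · exact ⟨Or.inl h, h ▸ hw0⟩
        · exact ⟨Or.inr ⟨fun h' => h.2 (h' ▸ ha0), h.1⟩, h.2⟩
    rw [e2, card_insert_of_notMem fun h => hwX (mem_sdiff.1 h).1, h1]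
  have hle : #((insert a (X₀ \ X)).image fun w => insert w (X.erase a)) ≤
      #{W ∈ H | X.erase a ⊆ W} :=
    card_image_le.trans ((card_insert_le _ _).trans (h2 ▸ hr))
  have e := eq_of_subset_of_card_le hsub hle
  have : insert b (X.erase a) ∈ {W ∈ H | X.erase a ⊆ W} := by
    rw [e]
    exact mem_image_of_mem _ (mem_insert_of_mem hb)
  exact (mem_filter.1 this).1

theorem wcore_ex {V : Type*} [DecidableEq V] {c j s₁ s₂ : ℕ} {H : Finset (Finset V)}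
    (hH : ∀ X ∈ H, #X = c) {X₀ X : Finset V} (h0 : #X₀ = c) (hX : X ∈ H) (h1 : #(X \ X₀) = j)
    (hr : j + s₁ + s₂ ≤ #{v ∈ X | j + 1 ≤ ex H (X.erase v)})
    (he : ¬s₂ ≤ #{a ∈ X ∩ X₀ | ∃ Z ∈ H, X.erase a ⊆ Z ∧ #(Z \ X₀) = j + 1})
    {b : V} (hb : b ∈ X₀ \ X) :
    s₁ ≤ ex (({W ∈ {W ∈ H | #(W \ X₀) = j} | W \ X₀ = X \ X₀}).image fun W => X₀ \ W)
      ((X₀ \ X).erase b) := by
  have h2 : #(X₀ \ X) = j := by
    rw [← h1]
    exact card_sdiff_comm (h0.trans (hH X hX).symm)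
  obtain ⟨T, hT⟩ : ∃ T, T = {a ∈ X ∩ X₀ | j + 1 ≤ ex H (X.erase a) ∧
      ¬∃ Z ∈ H, X.erase a ⊆ Z ∧ #(Z \ X₀) = j + 1} := ⟨_, rfl⟩
  have hsub : {v ∈ X | j + 1 ≤ ex H (X.erase v)} ⊆ (T ∪ X \ X₀) ∪
      {a ∈ X ∩ X₀ | ∃ Z ∈ H, X.erase a ⊆ Z ∧ #(Z \ X₀) = j + 1} := by
    intro v hv
    obtain ⟨hv1, hv2⟩ := mem_filter.1 hv
    by_cases hv0 : v ∈ X₀
    · by_cases h : ∃ Z ∈ H, X.erase v ⊆ Z ∧ #(Z \ X₀) = j + 1
      · exact mem_union_right _ (mem_filter.2 ⟨mem_inter.2 ⟨hv1, hv0⟩, h⟩)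
      · refine mem_union_left _ (mem_union_left _ ?_)
        rw [hT]
        exact mem_filter.2 ⟨mem_inter.2 ⟨hv1, hv0⟩, hv2, h⟩
    · exact mem_union_left _ (mem_union_right _ (mem_sdiff.2 ⟨hv1, hv0⟩))
  have c1 := (card_le_card hsub).trans ((card_union_le _ _).trans
    (Nat.add_le_add_right (card_union_le _ _) _))
  have c2 : s₁ ≤ #T := by omega
  obtain ⟨hb0, hbX⟩ := mem_sdiff.1 hb
  refine c2.trans (card_le_card_of_injOn (fun a => insert a ((X₀ \ X).erase b))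
    (fun a ha => ?_) fun a ha a' ha' e => ?_)
  · rw [hT] at ha
    obtain ⟨ha1, ha2, ha3⟩ := mem_filter.1 (mem_coe.1 ha)
    obtain ⟨haX, ha0⟩ := mem_inter.1 ha1
    have hW := wcore_all hH (hH X hX) h1 h2 haX ha0 ha2 ha3 hb
    have e1 : insert b (X.erase a) \ X₀ = X \ X₀ := by
      ext y
      simp only [mem_sdiff, mem_insert, mem_erase]
      constructor
      · rintro ⟨h | h, h'⟩
        · exact absurd (h ▸ hb0) h'
        · exact ⟨h.2, h'⟩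
      · exact fun h => ⟨Or.inr ⟨fun h' => h.2 (h' ▸ ha0), h.1⟩, h.2⟩
    refine mem_coe.2 (mem_filter.2 ⟨mem_image.2 ⟨_, mem_filter.2
      ⟨mem_filter.2 ⟨hW, e1 ▸ h1⟩, e1⟩, ?_⟩, subset_insert _ _⟩)
    ext y
    simp only [mem_sdiff, mem_insert, mem_erase, not_or, not_and]
    constructor
    · rintro ⟨h3, h4, h5⟩
      by_cases h : y = a
      · exact Or.inl h
      · exact Or.inr ⟨h4, h3, h5 h⟩
    · rintro (h | h)
      · exact ⟨h ▸ ha0, fun h' => hbX (h' ▸ h ▸ haX), fun h' => absurd h h'⟩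
      · exact ⟨h.2.1, h.1, fun _ => h.2.2⟩
  · rw [hT] at ha
    have haX := (mem_inter.1 (mem_filter.1 (mem_coe.1 ha)).1).1
    have e' : insert a ((X₀ \ X).erase b) = insert a' ((X₀ \ X).erase b) := e
    have : a ∈ insert a' ((X₀ \ X).erase b) := e' ▸ mem_insert_self _ _
    rcases mem_insert.1 this with h | h
    · exact h
    · exact absurd haX (mem_sdiff.1 (mem_of_mem_erase h)).2

/-- A family in which every member has many rich facets has a dense set of size `c + j`. -/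
theorem core {n c j s₁ s₂ x Λ : ℕ} (hj : 1 ≤ j) (H : Finset (Finset (Fin n)))
    (hH : ∀ X ∈ H, #X = c) {X₀ : Finset (Fin n)} (h₀ : X₀ ∈ H)
    (hr : ∀ X ∈ H, j + s₁ + s₂ ≤ #{v ∈ X | j + 1 ≤ ex H (X.erase v)})
    (hΛ : #{X ∈ H | #(X \ X₀) = j + 1} ≤ Λ)
    (hnum : 2 * (j + 1) ^ 2 * Λ * j.factorial ^ 2 < s₂ * (s₁ + s₂) ^ j)
    (hx : 2 * (x + 1) < s₁) (hxn : x + j ≤ n) :
    ∃ B : Finset (Fin n), #B = c + j ∧ (x + j).choose j < #(ins H B) := by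
  have h0 := hH X₀ h₀
  have hl := layer (s := s₁ + s₂) H hH h₀ (fun X hX => by rw [← add_assoc]; exact hr X hX) j le_rfl
  have he := (esc_le (i := j) H hH h0).trans (Nat.mul_le_mul_left _ hΛ)
  obtain ⟨Z, hZ⟩ : ∃ Z, Z = {X ∈ H | #(X \ X₀) = j} := ⟨_, rfl⟩
  obtain ⟨E, hE⟩ : ∃ E : Finset (Fin n) → ℕ, E = fun X =>
      #{a ∈ X ∩ X₀ | ∃ Z ∈ H, X.erase a ⊆ Z ∧ #(Z \ X₀) = j + 1} := ⟨_, rfl⟩
  have he' : ∑ X ∈ Z, E X ≤ (j + 1) ^ 2 * Λ := by rw [hZ, hE]; exact he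
  rw [← hZ] at hl
  have hb : #{X ∈ Z | s₂ ≤ E X} * s₂ ≤ (j + 1) ^ 2 * Λ :=
    (card_nsmul_le_sum _ E s₂ fun X hX => (mem_filter.1 hX).2).trans
      ((sum_le_sum_of_subset (filter_subset _ _)).trans he')
  have hs := card_filter_add_card_filter_not (s := Z) fun X => s₂ ≤ E X
  have h1 : 2 * #{X ∈ Z | s₂ ≤ E X} * (s₂ * j.factorial ^ 2) < #Z * (s₂ * j.factorial ^ 2) :=
    calc 2 * #{X ∈ Z | s₂ ≤ E X} * (s₂ * j.factorial ^ 2)
        = 2 * (#{X ∈ Z | s₂ ≤ E X} * s₂) * j.factorial ^ 2 := by ring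
      _ ≤ 2 * ((j + 1) ^ 2 * Λ) * j.factorial ^ 2 :=
        Nat.mul_le_mul_right _ (Nat.mul_le_mul_left _ hb)
      _ = 2 * (j + 1) ^ 2 * Λ * j.factorial ^ 2 := by ring
      _ < s₂ * (s₁ + s₂) ^ j := hnum
      _ ≤ s₂ * (#Z * j.factorial ^ 2) := Nat.mul_le_mul_left _ hl
      _ = _ := by ring
  have h2 := Nat.lt_of_mul_lt_mul_right h1
  have h3 : #Z < 2 * #{X ∈ Z | ¬s₂ ≤ E X} := by omega
  rw [card_eq_sum_card_fiberwise (f := fun X => X \ X₀) (s := Z) (t := univ)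
    (fun _ _ => mem_univ _), card_eq_sum_card_fiberwise (f := fun X => X \ X₀)
    (s := {X ∈ Z | ¬s₂ ≤ E X}) (t := univ) (fun _ _ => mem_univ _), mul_sum] at h3
  obtain ⟨P, -, hP⟩ := exists_lt_of_sum_lt h3
  have hinj : Set.InjOn (fun W => X₀ \ W) ({X ∈ Z | X \ X₀ = P} : Finset (Finset (Fin n))) := by
    intro X hX Y hY e
    have e1 : X \ X₀ = Y \ X₀ :=
      (mem_filter.1 (mem_coe.1 hX)).2.trans (mem_filter.1 (mem_coe.1 hY)).2.symm
    have e2 : X₀ \ X = X₀ \ Y := e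
    ext y
    have a1 := congrArg (y ∈ ·) e1
    have a2 := congrArg (y ∈ ·) e2
    simp only [mem_sdiff, eq_iff_iff] at a1 a2
    tauto
  have hsub : {X ∈ {X ∈ Z | ¬s₂ ≤ E X} | X \ X₀ = P} ⊆ {X ∈ Z | X \ X₀ = P} :=
    filter_subset_filter _ (filter_subset _ _)
  have hk := wcore_kk (s := s₁) (A := ({X ∈ Z | X \ X₀ = P}).image fun W => X₀ \ W)
    (G := ({X ∈ {X ∈ Z | ¬s₂ ≤ E X} | X \ X₀ = P}).image fun W => X₀ \ W) hj
    (fun Y hY => by
      obtain ⟨X, hX, rfl⟩ := mem_image.1 hY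
      have h4 := (mem_filter.1 hX).1
      rw [hZ] at h4
      obtain ⟨h5, h6⟩ := mem_filter.1 h4
      rw [← h6]
      exact card_sdiff_comm (h0.trans (hH X h5).symm))
    (image_subset_image hsub)
    (by
      rw [card_image_of_injOn hinj, card_image_of_injOn (hinj.mono (coe_subset.2 hsub))]
      exact hP)
    (fun Y hY => by
      obtain ⟨W, hW, b, hb, rfl⟩ := mem_shadow_iff.1 hY
      obtain ⟨X, hX, rfl⟩ := mem_image.1 hW
      obtain ⟨h4, rfl⟩ := mem_filter.1 hX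
      obtain ⟨h5, h6⟩ := mem_filter.1 h4
      rw [hE] at h6
      rw [hZ] at h5 ⊢
      obtain ⟨h7, h8⟩ := mem_filter.1 h5
      exact wcore_ex hH h0 h7 h8 (hr X h7) h6 hb) hx hxn
  rw [card_image_of_injOn hinj] at hk
  obtain ⟨X, hX⟩ := card_pos.1 ((Nat.zero_le _).trans_lt hk)
  obtain ⟨h4, h5⟩ := mem_filter.1 hX
  refine ⟨X ∪ X₀, ?_, hk.trans_le (card_le_card fun Y hY => ?_)⟩
  · rw [hZ] at h4
    rw [← card_sdiff_add_card, (mem_filter.1 h4).2, h0, add_comm]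
  · obtain ⟨h6, h7⟩ := mem_filter.1 hY
    rw [hZ] at h6
    refine mem_filter.2 ⟨(mem_filter.1 h6).1, fun y hy => ?_⟩
    by_cases h : y ∈ X₀
    · exact mem_union_right _ h
    · have : y ∈ X \ X₀ := by
        rw [h5, ← h7]
        exact mem_sdiff.2 ⟨hy, h⟩
      exact mem_union_left _ (mem_sdiff.1 this).1

end Pool.Agent.P.MP_4f3dfd_co.Win
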