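import Pool.Agent.P.MP_4f3dfd_co.BEnd

set_option autoImplicit false
set_option linter.unusedSectionVars false
set_option linter.unusedVariables false

namespace Pool.Agent.P.MP_4f3dfd_co.Win

open Finset Pool.Agent.P.MP_4f3dfd_co.Asy Pool.Agent.P.MP_4f3dfd_co.Off

/-- The saving of a clique segment of relative size `t`. -/
noncomputable def ph (j : ℕ) (t : ℝ) : ℝ :=
  (1 - t) ^ (1 + 1 / (j : ℝ)) - 1 + (1 + 1 / (j : ℝ)) * t

/-- The cost of a clique segment of relative size `t`. -/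
noncomputable def ps (j : ℕ) (t : ℝ) : ℝ := 1 - (1 - t) ^ (1 + 1 / (j : ℝ))

/-- Packings: weights on the `(c+j)`-sets. -/
def Pk (n c j : ℕ) (d e : ℝ) (t : Finset (Fin n) → ℝ) : Prop :=
  (∀ B, 0 ≤ t B ∧ t B ≤ 1) ∧ ∀ v : Fin n,
    ((c + j).choose j : ℝ) * ∑ B ∈ powersetCard (c + j) univ with v ∈ B, t B ≤ d ∧
    ((c + j).choose j : ℝ) * ∑ B ∈ powersetCard (c + j) univ with v ∉ B, t B ≤ e

/-- The value of a packing. -/
noncomputable def val (n c j : ℕ) (t : Finset (Fin n) → ℝ) : ℝ :=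
  ∑ B ∈ powersetCard (c + j) univ, ph j (t B)

/-- The set of values. -/
def SV (n c j : ℕ) (d e : ℝ) : Set ℝ := {s | ∃ t, Pk n c j d e t ∧ s = val n c j t}

/-- The asymptotic formula. -/
noncomputable def Phi (c m j : ℕ) (S : ℝ) : ℝ := c * m / j - ((c + j).choose (j + 1) : ℝ) * S

/-- Regular families. -/
structure Rg {V : Type*} [DecidableEq V] (c m d : ℕ) (J : Finset (Finset V)) : Prop where
  sz : ∀ X ∈ J, #X = c
  cd : #J = m
  dg : ∀ v, #{X ∈ J | v ∈ X} = d

variable {V : Type*} [DecidableEq V]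

/-- The `c`-subsets of `B` that do not contain `A`. -/
def atm (c : ℕ) (B A : Finset V) : Finset (Finset V) := {X ∈ powersetCard c B | ¬A ⊆ X}

/-- The members of `J` inside `B`. -/
def ins (J : Finset (Finset V)) (B : Finset V) : Finset (Finset V) := {X ∈ J | X ⊆ B}

/-- The sets of size `c + j` with at least `b` members of `J` inside. -/
def big [Fintype V] (c j b : ℕ) (J : Finset (Finset V)) : Finset (Finset V) :=
  {B ∈ powersetCard (c + j) univ | b ≤ #(ins J B)}

/-- The members of `J` that lie in no set of `F`. -/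
def dust (J F : Finset (Finset V)) : Finset (Finset V) := {X ∈ J | ∀ B ∈ F, ¬X ⊆ B}

theorem ps_eq (j : ℕ) (t : ℝ) : ps j t = (1 + 1 / (j : ℝ)) * t - ph j t := by
  unfold ps ph; ring

/-- `C(c+j, j+1) (j+1) = C(c+j, j) c`. -/
theorem W_eq (c j : ℕ) : ((c + j).choose (j + 1) : ℝ) * (j + 1) = (c + j).choose j * c := by
  have := Nat.choose_succ_right_eq (c + j) j
  rw [Nat.add_sub_cancel] at this
  exact_mod_cast this

/-- `C(c+j-1, c) (c+j) = C(c+j, j) j`. -/
theorem u_eq (c j : ℕ) (hj : 1 ≤ j) :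
    ((c + j - 1).choose c : ℝ) * (c + j) = (c + j).choose j * j := by
  obtain ⟨i, rfl⟩ : ∃ i, j = i + 1 := ⟨j - 1, by omega⟩
  have h := Nat.add_one_mul_choose_eq (c + i) i
  have e : (c + (i + 1) - 1).choose c = (c + i).choose i := by
    rw [show c + (i + 1) - 1 = c + i by omega, Nat.choose_symm_add]
  rw [e, show c + (i + 1) = c + i + 1 by omega]
  have h' : (((c + i + 1) * (c + i).choose i : ℕ) : ℝ) =
      ((c + i + 1).choose (i + 1) * (i + 1) : ℕ) := by rw [h]
  push_cast at h' ⊢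
  linarith

theorem Rg.mem_SR {n c m d : ℕ} {J : Finset (Finset (Fin n))} (h : Rg c m d J) :
    #(shadow J) ∈ SR n c m := ⟨J, h.sz, h.cd, ⟨d, h.dg⟩, rfl⟩

end Pool.Agent.P.MP_4f3dfd_co.Win
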