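import Pool.Agent.P.MP_4f3dfd_co.WReal

set_option autoImplicit false
set_option linter.unusedSectionVars false
set_option linter.unusedVariables false

namespace Pool.Agent.P.MP_4f3dfd_co.Win

open Finset Pool.Agent.P.MP_4f3dfd_co.Asy Pool.Agent.P.MP_4f3dfd_co.Off

variable {V : Type*} [DecidableEq V] [Fintype V]

/-- New sets with approximately prescribed degrees. -/
theorem dust_sets (R N h : ℕ) {β : ℝ} (hβ : 6 ≤ β * N) : ∃ K : ℕ, ∀ n c : ℕ, K ≤ n →
    ∀ F : Finset (Finset (Fin n)), #F ≤ R → ∀ a : Fin n → ℝ, (∀ v, β ≤ a v ∧ a v ≤ 1 - β) →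
    (∀ u v, (∀ B ∈ F, (u ∈ B ↔ v ∈ B)) → a u = a v) → (c : ℝ) - h ≤ ∑ v, a v → ∑ v, a v ≤ c →
    ∃ F' : Finset (Finset (Fin n)), #F' = N ∧ Disjoint F F' ∧ (∀ B ∈ F', #B = c) ∧
      ∀ v, a v * N - 1 ≤ #{B ∈ F' | v ∈ B} ∧ (#{B ∈ F' | v ∈ B} : ℝ) ≤ a v * N + 5 := by
  refine ⟨2 ^ R * (4 * N + 2) + h * N, fun n c hn F hF a ha hsep hlo hhi => ?_⟩
  have hN0 : (0 : ℝ) ≤ N := Nat.cast_nonneg N
  have hNpos : 0 < N := by
    rcases Nat.eq_zero_or_pos N with h0 | h0
    · subst h0; norm_num at hβ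
    · exact h0
  have hβ0 : 0 < β := by
    by_contra hb
    push Not at hb
    nlinarith
  obtain ⟨Q0, hQ0, hQF⟩ := big_class F
  rw [Fintype.card_fin] at hQ0
  have hQ0c : 4 * N + 2 ≤ #Q0 := by
    have h1 : 2 ^ #F ≤ 2 ^ R := Nat.pow_le_pow_right (by norm_num) hF
    have h2 : 2 ^ R * (4 * N + 2) ≤ 2 ^ R * #Q0 :=
      calc 2 ^ R * (4 * N + 2) ≤ n := by omega
        _ ≤ 2 ^ #F * #Q0 := hQ0
        _ ≤ 2 ^ R * #Q0 := Nat.mul_le_mul_right _ h1
    exact Nat.le_of_mul_le_mul_left h2 (by positivity)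
  obtain ⟨Q, hQsub, hQc⟩ := Finset.exists_subset_card_eq (s := Q0) (n := #Q0 / 2)
    (Nat.div_le_self _ _)
  have hQ0n : #Q0 ≤ n := by simpa using Finset.card_le_univ Q0
  have hQ2 : 2 * N ≤ #Q := by omega
  have hQcc : #Qᶜ + #Q = n := by
    rw [Finset.card_compl, Fintype.card_fin]; omega
  obtain ⟨u0, hu0⟩ : Q.Nonempty := Finset.card_pos.mp (by omega)
  have hconst : ∀ v ∈ Q, a v = a u0 := by
    intro v hv
    refine hsep v u0 fun B hB => ?_
    rcases hQF B hB with h1 | h1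
    · exact iff_of_true (h1 (hQsub hv)) (h1 (hQsub hu0))
    · exact iff_of_false (Finset.disjoint_left.mp h1 (hQsub hv))
        (Finset.disjoint_left.mp h1 (hQsub hu0))
  have ha0 : ∀ v, 0 ≤ a v * N := fun v => mul_nonneg (hβ0.le.trans (ha v).1) hN0
  have ha6 : ∀ v, 6 ≤ a v * N := fun v =>
    hβ.trans (mul_le_mul_of_nonneg_right (ha v).1 hN0)
  have haN : ∀ v, a v * N + 6 ≤ N := fun v => by
    have := mul_le_mul_of_nonneg_right (ha v).2 hN0
    nlinarith only [hβ, this]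
  set r0 : Fin n → ℕ := fun v => ⌊a v * N⌋₊ with hr0
  have hr0le : ∀ v, (r0 v : ℝ) ≤ a v * N := fun v => Nat.floor_le (ha0 v)
  have hr0ge : ∀ v, a v * N - 1 ≤ (r0 v : ℝ) := fun v => by
    have := Nat.lt_floor_add_one (a v * N)
    simp only [hr0]; linarith
  have hr06 : ∀ v, 6 ≤ r0 v := fun v => Nat.le_floor (by exact_mod_cast ha6 v)
  have hr0N : ∀ v, r0 v + 6 ≤ N := fun v => by
    have h1 : ((r0 v + 6 : ℕ) : ℝ) ≤ N := by
      push_cast; linarith [hr0le v, haN v]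
    exact_mod_cast h1
  have hs1 : ∑ v, r0 v ≤ c * N := by
    have h1 : ((∑ v, r0 v : ℕ) : ℝ) ≤ ((c * N : ℕ) : ℝ) := by
      push_cast
      calc ∑ v, (r0 v : ℝ) ≤ ∑ v, a v * N := Finset.sum_le_sum fun v _ => hr0le v
        _ = (∑ v, a v) * N := by rw [Finset.sum_mul]
        _ ≤ c * N := mul_le_mul_of_nonneg_right hhi hN0
    exact_mod_cast h1
  have hs2 : c * N ≤ ∑ v, r0 v + h * N + n := by
    have h1 : ((c * N : ℕ) : ℝ) ≤ ((∑ v, r0 v + h * N + n : ℕ) : ℝ) := by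
      push_cast
      have h2 : ∑ v, (a v * N - 1) ≤ ∑ v, (r0 v : ℝ) := Finset.sum_le_sum fun v _ => hr0ge v
      rw [Finset.sum_sub_distrib, ← Finset.sum_mul] at h2
      simp only [Finset.sum_const, Finset.card_univ, Fintype.card_fin, nsmul_eq_mul,
        mul_one] at h2
      have h3 := mul_le_mul_of_nonneg_right hlo hN0
      nlinarith only [h2, h3]
    exact_mod_cast h1
  have hn2 : h * N ≤ n := le_trans (Nat.le_add_left _ _) hn
  obtain ⟨x, hx5, hxQ, hxs⟩ := spread Qᶜ 5 (c * N - ∑ v, r0 v) (by omega)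
  have hmid : ∀ s, r0 u0 * #Q ≤ N * (s + 1) → N * s ≤ r0 u0 * #Q + N →
      1 ≤ s ∧ s + 1 ≤ #Q := by
    intro s h1 h2
    have h3 := hr06 u0
    have h4 := hr0N u0
    constructor
    · by_contra h5
      have h6 : s = 0 := by omega
      subst h6
      nlinarith only [hQ2, h3, h4, h1]
    · by_contra h5
      have h6 : #Q ≤ s := by omega
      have h7 : N * #Q ≤ N * s := Nat.mul_le_mul_left _ h6
      have h8 : (r0 u0 + 6) * #Q ≤ N * #Q := Nat.mul_le_mul_right _ h4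
      nlinarith only [hQ2, h2, h3, h4, h7, h8]
  obtain ⟨E, hE, hEd, hEX⟩ := realize c N (r0 u0) (fun v => r0 v + x v) Q
    (fun v => by have := hr0N v; have := hx5 v; omega)
    (fun v hv => by
      have h1 : x v = 0 := hxQ v (by simpa using hv)
      simp only [h1, hr0, hconst v hv, add_zero])
    (by rw [Finset.sum_add_distrib, hxs]; omega)
    (by have := hr06 u0; nlinarith only [hNpos, hQ2, this])
    (fun s h1 h2 => by
      obtain ⟨h3, h4⟩ := hmid s h1 h2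
      have h5 := choose_mid (x := #Q) h3 h4
      rw [Nat.choose_one_right] at h5
      omega)
  refine ⟨E, hE, ?_, fun B hB => (hEX B hB).1, fun v => ?_⟩
  · rw [Finset.disjoint_left]
    intro X hXF hXE
    obtain ⟨-, h1, h2⟩ := hEX X hXE
    obtain ⟨h3, h4⟩ := hmid _ h1 h2
    rcases hQF X hXF with h5 | h5
    · rw [Finset.inter_eq_right.mpr (hQsub.trans h5)] at h4
      omega
    · have h6 : X ∩ Q = ∅ :=
        Finset.disjoint_iff_inter_eq_empty.mp (h5.mono_left hQsub).symm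
      rw [h6, Finset.card_empty] at h3
      omega
  · rw [hEd v]
    have h1 : (x v : ℝ) ≤ 5 := by exact_mod_cast hx5 v
    have h2 : (0 : ℝ) ≤ x v := Nat.cast_nonneg _
    push_cast
    constructor
    · linarith only [hr0ge v]
    · linarith only [hr0le v, h1]

end Pool.Agent.P.MP_4f3dfd_co.Win
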