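import Pool.Agent.P.MP_4f3dfd_co.WDefs

set_option autoImplicit false
set_option linter.unusedSectionVars false
set_option linter.unusedVariables false

namespace Pool.Agent.P.MP_4f3dfd_co.Win

open Finset Pool.Agent.P.MP_4f3dfd_co.Asy Pool.Agent.P.MP_4f3dfd_co.Off

variable {V : Type*} [DecidableEq V] [Fintype V]

/-- A large set of points that no set of `F` separates. -/
theorem big_class (F : Finset (Finset V)) : ∃ Q : Finset V,
    Fintype.card V ≤ 2 ^ #F * #Q ∧ ∀ A ∈ F, Q ⊆ A ∨ Disjoint Q A := by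
  induction F using Finset.induction_on with
  | empty => exact ⟨univ, by simp, by simp⟩
  | insert A F hA ih =>
    obtain ⟨Q, h1, h2⟩ := ih
    have e := card_inter_add_card_sdiff Q A
    rw [card_insert_of_notMem hA, pow_succ]
    by_cases h : #(Q \ A) ≤ #(Q ∩ A)
    · refine ⟨Q ∩ A, h1.trans ?_, fun B hB => ?_⟩
      · rw [mul_assoc]
        exact Nat.mul_le_mul_left _ (by omega)
      · rcases mem_insert.1 hB with rfl | hB
        · exact Or.inl inter_subset_right
        · rcases h2 B hB with h3 | h3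
          · exact Or.inl (inter_subset_left.trans h3)
          · exact Or.inr (disjoint_of_subset_left inter_subset_left h3)
    · refine ⟨Q \ A, h1.trans ?_, fun B hB => ?_⟩
      · rw [mul_assoc]
        exact Nat.mul_le_mul_left _ (by omega)
      · rcases mem_insert.1 hB with rfl | hB
        · exact Or.inr sdiff_disjoint
        · rcases h2 B hB with h3 | h3
          · exact Or.inl (sdiff_subset.trans h3)
          · exact Or.inr (disjoint_of_subset_left sdiff_subset h3)

theorem spread (P : Finset V) (h Δ : ℕ) (hΔ : Δ ≤ h * #P) :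
    ∃ x : V → ℕ, (∀ v, x v ≤ h) ∧ (∀ v ∉ P, x v = 0) ∧ ∑ v, x v = Δ := by
  induction P using Finset.induction_on generalizing Δ with
  | empty =>
    refine ⟨fun _ => 0, by simp, by simp, ?_⟩
    simp only [card_empty, mul_zero] at hΔ
    simp only [sum_const_zero]
    omega
  | insert p P hp ih =>
    rw [card_insert_of_notMem hp, mul_add, mul_one] at hΔ
    obtain ⟨x, x1, x2, x3⟩ := ih (Δ - min h Δ) (by omega)
    refine ⟨fun v => x v + if v = p then min h Δ else 0, fun v => ?_, fun v hv => ?_, ?_⟩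
    · dsimp only
      split_ifs with hv
      · rw [hv, x2 p hp]; omega
      · have := x1 v; omega
    · rw [mem_insert, not_or] at hv
      simp [hv.1, x2 v hv.2]
    · rw [sum_add_distrib, x3, sum_ite_eq' univ p, if_pos (mem_univ _)]
      omega

/-- Distinct sets with prescribed degrees. -/
theorem realize (c M ρ : ℕ) (r : V → ℕ) (Q : Finset V) (hr : ∀ v, r v ≤ M)
    (hQ : ∀ v ∈ Q, r v = ρ) (hs : ∑ v, r v = c * M) (h2 : 2 * M ≤ ρ * #Q)
    (hch : ∀ s, ρ * #Q ≤ M * (s + 1) → M * s ≤ ρ * #Q + M → M ≤ (#Q).choose s) :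
    ∃ E : Finset (Finset V), #E = M ∧ (∀ v, #{X ∈ E | v ∈ X} = r v) ∧
      ∀ X ∈ E, #X = c ∧ ρ * #Q ≤ M * (#(X ∩ Q) + 1) ∧ M * #(X ∩ Q) ≤ ρ * #Q + M := by
  obtain ⟨Y, y1, y2, a, y3⟩ := exists_fill M r Qᶜ (fun p _ => hr p)
  have hY : ∑ j, #(Y j) + ρ * #Q = c * M := by
    rw [← sum_deg_idx Qᶜ Y y1, sum_congr rfl y2, ← hs, ← sum_add_sum_compl Q, sum_congr rfl hQ,
      sum_const, smul_eq_mul, mul_comm ρ, add_comm]
  have lo : M * a ≤ ∑ j, #(Y j) := by
    have := card_nsmul_le_sum univ (fun j => #(Y j)) a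
      (fun j _ => by rcases y3 j with h | h <;> omega)
    simpa using this
  have hi : ∑ j, #(Y j) ≤ M * (a + 1) := by
    have := sum_le_card_nsmul univ (fun j => #(Y j)) (a + 1)
      (fun j _ => by rcases y3 j with h | h <;> omega)
    simpa using this
  have hac : ∀ _ : Fin M, a + 2 ≤ c := fun j => by
    have hM0 : 0 < M := j.pos
    apply Nat.le_of_mul_le_mul_left _ hM0
    rw [mul_add, mul_comm M c]; omega
  have hw : ∀ j, ρ * #Q ≤ M * (c - #(Y j) + 1) ∧ M * (c - #(Y j)) ≤ ρ * #Q + M := fun j => by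
    have := hac j
    obtain ⟨b, rfl⟩ : ∃ b, c = a + 2 + b := ⟨c - (a + 2), by omega⟩
    constructor
    · rcases y3 j with h | h <;> rw [h]
      · rw [show a + 2 + b - a + 1 = b + 3 by omega]; nlinarith
      · rw [show a + 2 + b - (a + 1) + 1 = b + 2 by omega]; nlinarith
    · rcases y3 j with h | h <;> rw [h]
      · rw [show a + 2 + b - a = b + 2 by omega]; nlinarith
      · rw [show a + 2 + b - (a + 1) = b + 1 by omega]; nlinarith
  obtain ⟨S, s1, s2, s3⟩ := exists_regular_idx M ρ Q (fun j => c - #(Y j))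
    (fun j => hch _ (hw j).1 (hw j).2)
    (by
      have : ∑ j, (c - #(Y j)) + ∑ j, #(Y j) = c * M := by
        rw [← sum_add_distrib, sum_congr rfl (fun j _ => Nat.sub_add_cancel (by
          have := hac j
          rcases y3 j with h | h <;> omega))]
        simp [mul_comm]
      omega)
  have hdisj : ∀ j, Disjoint (S j) (Y j) := fun j =>
    disjoint_left.2 fun p h1 h2 => mem_compl.1 (y1 j h2) ((s2 j).1 h1)
  have hint : ∀ j, (S j ∪ Y j) ∩ Q = S j := fun j => by
    ext p
    simp only [mem_inter, mem_union]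
    exact ⟨fun h => h.1.resolve_right fun h' => mem_compl.1 (y1 j h') h.2,
      fun h => ⟨Or.inl h, (s2 j).1 h⟩⟩
  have hinj : Function.Injective fun j => S j ∪ Y j := fun i j h =>
    s1 (by rw [← hint i, ← hint j]; exact congrArg (· ∩ Q) h)
  refine ⟨univ.image fun j => S j ∪ Y j, by rw [card_image_of_injective _ hinj]; simp,
    fun v => ?_, fun X hX => ?_⟩
  · rw [filter_image, card_image_of_injective _ hinj]
    by_cases hv : v ∈ Q
    · rw [hQ v hv, ← s3 v hv]
      congr 1
      ext j
      simp only [mem_filter, mem_univ, true_and, mem_union]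
      exact ⟨fun h => h.resolve_right fun h' => mem_compl.1 (y1 j h') hv, Or.inl⟩
    · rw [← y2 v (mem_compl.2 hv)]
      congr 1
      ext j
      simp only [mem_filter, mem_univ, true_and, mem_union]
      exact ⟨fun h => h.resolve_left fun h' => hv ((s2 j).1 h'), Or.inr⟩
  · obtain ⟨j, -, rfl⟩ := mem_image.1 hX
    refine ⟨?_, ?_⟩
    · rw [card_union_of_disjoint (hdisj j), (s2 j).2]
      have := hac j
      rcases y3 j with h | h <;> omega
    · rw [hint, (s2 j).2]
      exact hw j

end Pool.Agent.P.MP_4f3dfd_co.Win
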