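import Pool.Agent.P.MP_4f3dfd_co.WUnion
import Pool.Agent.P.MP_4f3dfd_co.WReal

set_option autoImplicit false
set_option linter.unusedSectionVars false
set_option linter.unusedVariables false

namespace Pool.Agent.P.MP_4f3dfd_co.Win

open Finset Pool.Agent.P.MP_4f3dfd_co.Asy Pool.Agent.P.MP_4f3dfd_co.Off

theorem wfin_range {β w M ρ q s L : ℝ} (hβ : 0 < β) (hw : 0 < w) (hM1 : w ≤ M) (hM2 : M ≤ 2 * w)
    (hρ1 : β * w ≤ ρ) (hρ2 : ρ ≤ M - β * w / 2) (hq : 0 ≤ q) (hs : 0 ≤ s) (hL : 4 * L ≤ β * q)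
    (h1 : ρ * q ≤ M * (s + 1)) (h2 : M * s ≤ ρ * q + M) : 2 * L ≤ s + 1 ∧ s + L ≤ q + 1 := by
  constructor
  · have a1 : β * w * q ≤ ρ * q := mul_le_mul_of_nonneg_right hρ1 hq
    have a2 : M * (s + 1) ≤ 2 * w * (s + 1) := mul_le_mul_of_nonneg_right hM2 (by linarith)
    have a3 : w * (4 * L) ≤ w * (β * q) := mul_le_mul_of_nonneg_left hL hw.le
    have a4 : w * (2 * L) ≤ w * (s + 1) := by nlinarith only [h1, a1, a2, a3]
    exact le_of_mul_le_mul_left a4 hw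
  · have hM0 : 0 < M := by linarith
    have a1 : ρ * q ≤ (M - β * M / 4) * q := by
      apply mul_le_mul_of_nonneg_right _ hq
      have : β * M ≤ β * (2 * w) := mul_le_mul_of_nonneg_left hM2 hβ.le
      linarith
    have a2 : M * (4 * L) ≤ M * (β * q) := mul_le_mul_of_nonneg_left hL hM0.le
    have a3 : M * (s + L) ≤ M * (q + 1) := by nlinarith only [h2, a1, a2]
    exact le_of_mul_le_mul_left a3 hM0

theorem wfin_err {r R j c u U w γ δ : ℝ} (hr0 : 0 ≤ r) (hr : r ≤ R) (hj : 0 ≤ j) (hc : 0 < c)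
    (hu0 : 0 ≤ u) (hu : u * (c + j) = U * j) (hU : 0 ≤ U) (hγ : 0 < γ) (hw : γ * U ≤ w)
    (hδ : 0 < δ) (hK : R * (R + 2) * j / (γ * δ) ≤ c) : r * (r + 2) * u ≤ δ * w := by
  have a1 : u * c ≤ U * j := by nlinarith only [mul_nonneg hu0 hj, hj, hu0, hu]
  have a2 : r * (r + 2) ≤ R * (R + 2) := by nlinarith
  have hR : 0 ≤ R * (R + 2) := le_trans (by positivity) a2
  have a3 : R * (R + 2) * j ≤ c * (γ * δ) := (div_le_iff₀ (by positivity)).1 hK
  have a4 : r * (r + 2) * u * c ≤ δ * w * c := by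
    calc r * (r + 2) * u * c = r * (r + 2) * (u * c) := by ring
      _ ≤ R * (R + 2) * (U * j) := mul_le_mul a2 a1 (by positivity) hR
      _ = R * (R + 2) * j * U := by ring
      _ ≤ c * (γ * δ) * U := mul_le_mul_of_nonneg_right a3 hU
      _ = δ * (γ * U) * c := by ring
      _ ≤ δ * w * c := by gcongr
  exact le_of_mul_le_mul_right a4 hc

theorem wfin_sh {r R j c W U w γ ε : ℝ} (hr0 : 0 ≤ r) (hr : r ≤ R) (hj : 0 ≤ j) (hc : 0 < c)
    (hW0 : 0 ≤ W) (hW : W * (j + 1) = U * c) (hγ : 0 < γ) (hw : γ * U ≤ w) (hw0 : 0 ≤ w)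
    (hε : 0 < ε) (hK : 2 * R / (γ * ε) ≤ c) : W * (r * (j / c)) ≤ ε / 2 * (c * w) := by
  have a1 : W * (j / c) ≤ U := by
    rw [← mul_div_assoc, div_le_iff₀ hc]; nlinarith
  have a0 : 0 ≤ W * (j / c) := by positivity
  have a2 : 2 * R ≤ c * (γ * ε) := (div_le_iff₀ (by positivity)).1 hK
  have hU : 0 ≤ U := a0.trans a1
  calc W * (r * (j / c)) = r * (W * (j / c)) := by ring
    _ ≤ R * U := mul_le_mul hr a1 a0 (hr0.trans hr)
    _ ≤ c * (γ * ε) / 2 * U := mul_le_mul_of_nonneg_right (by linarith) hU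
    _ = ε / 2 * (c * (γ * U)) := by ring
    _ ≤ ε / 2 * (c * w) := by gcongr

/-- Completing a union of boundedly many segments to a regular family. -/
theorem finish {j : ℕ} (hj : 1 ≤ j) (R P : ℕ) {β γ ε : ℝ} (hβ : 0 < β) (hγ : 0 < γ) (hε : 0 < ε) :
    ∃ K : ℕ, ∀ n c m d e : ℕ, K ≤ c → c ≤ n → m ≤ n ^ P → c * m = d * n → d + e = m →
    ∀ F : Finset (Finset (Fin n)), #F ≤ R → (∀ B ∈ F, #B = c + j) →
    ∀ t : Finset (Fin n) → ℝ, (∀ B ∈ F, 0 ≤ t B ∧ t B ≤ 1) →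
    ∀ w : ℝ, w = m - (c + j).choose j * ∑ B ∈ F, t B → γ * (c + j).choose j ≤ w →
    (∀ v, β * w ≤ d - (c + j).choose j * ∑ B ∈ F with v ∈ B, t B ∧
      β * w ≤ e - (c + j).choose j * ∑ B ∈ F with v ∉ B, t B) →
    ∃ J : Finset (Finset (Fin n)), Rg c m d J ∧
      (#(shadow J) : ℝ) ≤ (c + j).choose (j + 1) * ∑ B ∈ F, ps j (t B) + (1 + ε) * (c * w) := by
  obtain ⟨δ, hδ, hδ1, hδ2, hδ3⟩ : ∃ δ : ℝ, 0 < δ ∧ δ ≤ β / 2 ∧ δ ≤ ε / 2 ∧ δ ≤ 1 :=
    ⟨min (β / 2) (min (ε / 2) 1), by positivity, min_le_left _ _,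
      (min_le_right _ _).trans (min_le_left _ _), (min_le_right _ _).trans (min_le_right _ _)⟩
  obtain ⟨K1, hK1⟩ := big_choose P (4 ^ R)
  obtain ⟨K2, hK2⟩ := exists_nat_ge ((R : ℝ) * (R + 2) * j / (γ * δ))
  obtain ⟨K3, hK3⟩ := exists_nat_ge (2 * (R : ℝ) / (γ * ε))
  obtain ⟨K4, hK4⟩ := exists_nat_ge ((4 : ℝ) ^ R * (4 * (P + 2 + j)) / β)
  refine ⟨K1 + K2 + K3 + K4 + 1, fun n c m d e hK hcn hmP hcm hde F hFR hF t ht w hw hγw hv => ?_⟩
  have hc1 : 1 ≤ c := by omega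
  have hc0 : (0 : ℝ) < c := by exact_mod_cast hc1
  have c2 : (K2 : ℝ) ≤ c := by exact_mod_cast (by omega : K2 ≤ c)
  have c3 : (K3 : ℝ) ≤ c := by exact_mod_cast (by omega : K3 ≤ c)
  have c4 : (K4 : ℝ) ≤ n := by exact_mod_cast (by omega : K4 ≤ n)
  have hU : (0 : ℝ) < (c + j).choose j := by exact_mod_cast Nat.choose_pos (by omega)
  have hw0 : 0 < w := lt_of_lt_of_le (mul_pos hγ hU) hγw
  have hFR' : (#F : ℝ) ≤ R := by exact_mod_cast hFR
  obtain ⟨J0, A, j1, j2, j3, j4, j5, j6⟩ := exists_union hj hc1 F hF t ht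
  have hE : (#F : ℝ) * (#F + 2) * (c + j - 1).choose c ≤ δ * w :=
    wfin_err (by positivity) hFR' (by positivity) hc0 (by positivity) (u_eq c j hj) hU.le hγ hγw
      hδ (hK2.trans c2)
  have hE1 : δ * w ≤ β / 2 * w := mul_le_mul_of_nonneg_right hδ1 hw0.le
  have hE2 : δ * w ≤ ε / 2 * w := mul_le_mul_of_nonneg_right hδ2 hw0.le
  have hE3 : δ * w ≤ 1 * w := mul_le_mul_of_nonneg_right hδ3 hw0.le
  have hJm : #J0 ≤ m := by
    have : (#J0 : ℝ) ≤ m := by linarith only [hw, hw0, j3]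
    exact_mod_cast this
  obtain ⟨M, hM⟩ : ∃ M, m = #J0 + M := ⟨m - #J0, by omega⟩
  have hM' : (m : ℝ) = #J0 + M := by exact_mod_cast hM
  have hM1 : w ≤ M := by linarith
  have hM2 : (M : ℝ) ≤ w + δ * w := by linarith
  have hde' : (d : ℝ) + e = m := by exact_mod_cast hde
  have hβw : 0 < β * w := mul_pos hβ hw0
  have dlo : ∀ v, β * w ≤ (d : ℝ) - #{X ∈ J0 | v ∈ X} := fun v => by
    linarith [(hv v).1, (j4 v).2]
  have dhi : ∀ v, (d : ℝ) - #{X ∈ J0 | v ∈ X} ≤ M - β * w / 2 := fun v => by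
    have e1 := sum_filter_add_sum_filter_not F (fun B => v ∈ B) t
    have e2 : ((c + j).choose j : ℝ) * ∑ B ∈ F, t B =
        (c + j).choose j * ∑ B ∈ F with v ∈ B, t B +
          (c + j).choose j * ∑ B ∈ F with v ∉ B, t B := by rw [← e1, mul_add]
    linarith only [(hv v).2, (j4 v).1, j3, hE, hE1, hM', hde', e2]
  obtain ⟨Q, q1, q2⟩ := big_class (F ∪ F.image A)
  rw [Fintype.card_fin] at q1
  have q3 : n ≤ 4 ^ R * #Q := by
    refine q1.trans (Nat.mul_le_mul_right _ ?_)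
    rw [show (4 : ℕ) = 2 ^ 2 by norm_num, ← pow_mul]
    apply Nat.pow_le_pow_right (by norm_num)
    have h1 := card_union_le F (F.image A)
    have h2 : #(F.image A) ≤ #F := card_image_le
    omega
  have hq : 4 * ((P : ℝ) + 2 + j) ≤ β * #Q := by
    have h1 : (4 : ℝ) ^ R * (4 * (P + 2 + j)) ≤ n * β := (div_le_iff₀ hβ).1 (hK4.trans c4)
    have h2 : (n : ℝ) ≤ 4 ^ R * #Q := by exact_mod_cast q3
    have h3 : (n : ℝ) * β ≤ 4 ^ R * #Q * β := mul_le_mul_of_nonneg_right h2 hβ.le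
    have h4 : (4 : ℝ) ^ R * (4 * (P + 2 + j)) ≤ 4 ^ R * (β * #Q) := by linarith
    exact le_of_mul_le_mul_left h4 (by positivity)
  obtain ⟨v0, hv0⟩ : Q.Nonempty := by
    rw [← card_pos]
    rcases Nat.eq_zero_or_pos #Q with h | h
    · rw [h] at q3; omega
    · exact h
  have same : ∀ B ∈ F ∪ F.image A, ∀ v ∈ Q, (v ∈ B ↔ v0 ∈ B) := fun B hB v hvQ => by
    rcases q2 B hB with h | h
    · exact ⟨fun _ => h hv0, fun _ => h hvQ⟩
    · exact ⟨fun h' => absurd h' (disjoint_left.1 h hvQ), fun h' => absurd h' (disjoint_left.1 h hv0)⟩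
  have hdeg : ∀ v, #{X ∈ J0 | v ∈ X} ≤ d := fun v => by
    have : (#{X ∈ J0 | v ∈ X} : ℝ) ≤ d := by linarith only [dlo v, hβw]
    exact_mod_cast this
  have hρ : ((d - #{X ∈ J0 | v0 ∈ X} : ℕ) : ℝ) = d - #{X ∈ J0 | v0 ∈ X} := Nat.cast_sub (hdeg v0)
  obtain ⟨J, k1, k2, k3, k4⟩ := complete c d M #{X ∈ J0 | v0 ∈ X} J0 Q (fun X hX => (j1 X hX).1)
    hdeg
    (fun v => by
      have : (d : ℝ) ≤ #{X ∈ J0 | v ∈ X} + M := by linarith only [dhi v, hβw]
      exact_mod_cast this)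
    (fun v hvQ => j6 v v0 fun B hB => ⟨same B (mem_union_left _ hB) v hvQ,
      same (A B) (mem_union_right _ (mem_image_of_mem A hB)) v hvQ⟩)
    (hdeg v0) (by rw [← hM, Fintype.card_fin, hcm])
    (by
      have h1 : β * w * #Q ≤ (d - #{X ∈ J0 | v0 ∈ X}) * (#Q : ℝ) :=
        mul_le_mul_of_nonneg_right (dlo v0) (by positivity)
      have h0 : (4 : ℝ) ≤ β * #Q := by
        have : (0 : ℝ) ≤ P := by positivity
        have : (0 : ℝ) ≤ j := by positivity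
        linarith
      have h2 : w * 4 ≤ w * (β * #Q) := mul_le_mul_of_nonneg_left h0 hw0.le
      have h3 : (2 : ℝ) * M ≤ ((d - #{X ∈ J0 | v0 ∈ X} : ℕ) : ℝ) * #Q := by
        rw [hρ]; linarith only [hw, j2, hE, hE3, hM', h1, h2]
      exact_mod_cast h3)
    (fun s s1 s2 => by
      have s1' : ((d - #{X ∈ J0 | v0 ∈ X} : ℕ) : ℝ) * #Q ≤ M * (s + 1) := by exact_mod_cast s1
      have s2' : (M : ℝ) * s ≤ ((d - #{X ∈ J0 | v0 ∈ X} : ℕ) : ℝ) * #Q + M := by exact_mod_cast s2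
      rw [hρ] at s1' s2'
      obtain ⟨r1, r2⟩ := wfin_range hβ hw0 hM1 (by linarith only [hw, j2, hE, hE3, hM']) (dlo v0) (dhi v0) (by positivity)
        (by positivity) hq s1' s2'
      have r1' : 2 * (P + 2 + j) ≤ s + 1 := by exact_mod_cast r1
      have r2' : s + (P + 2 + j) ≤ #Q + 1 := by exact_mod_cast r2
      refine ⟨le_trans (by omega) (hmP.trans (hK1 n #Q s (by omega) q3 (by omega) (by omega))),
        fun X hX => ?_⟩
      obtain ⟨x1, B, hB, hXB⟩ := j1 X hX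
      rcases q2 B (mem_union_left _ hB) with h | h
      · have h1 : #(Q \ X) ≤ #(B \ X) := card_le_card (sdiff_subset_sdiff h subset_rfl)
        have h2 := card_sdiff_add_card_inter Q X
        have h3 : #(B \ X) = j := by
          rw [card_sdiff_of_subset hXB, hF B hB, x1]; omega
        rw [inter_comm] at h2
        omega
      · have h1 : X ∩ Q = ∅ :=
          disjoint_iff_inter_eq_empty.1 (Disjoint.mono_left hXB h.symm)
        rw [h1, card_empty]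
        omega)
  refine ⟨J, ⟨k1, by rw [k2, hM], k3⟩, ?_⟩
  have k4' : (#(shadow J) : ℝ) ≤ #(shadow J0) + c * M := by exact_mod_cast k4
  have h1 := wfin_sh (W := (c + j).choose (j + 1)) (by positivity) hFR' (by positivity) hc0
    (by positivity) (W_eq c j) hγ hγw hw0.le hε (hK3.trans c3)
  have h2 : (c : ℝ) * M ≤ c * (w + ε / 2 * w) := mul_le_mul_of_nonneg_left (by linarith only [hw, j2, hE, hE2, hM']) hc0.le
  rw [mul_add] at j5
  linarith only [j5, k4', h1, h2]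

end Pool.Agent.P.MP_4f3dfd_co.Win
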