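import Pool.Agent.P.MP_4f3dfd_co.WNon

set_option autoImplicit false
set_option linter.unusedSectionVars false
set_option linter.unusedVariables false

namespace Pool.Agent.P.MP_4f3dfd_co.Win

open Finset Pool.Agent.P.MP_4f3dfd_co.Asy Pool.Agent.P.MP_4f3dfd_co.Off

theorem whi_sum {n c j q : ℕ} (hn : n = c + q) (F : Finset (Finset (Fin n)))
    (hF : ∀ B ∈ F, #B = c + j) (f : Finset (Fin n) → ℝ) :
    ∑ v : Fin n, ∑ B ∈ F with v ∉ B, f B = ((q : ℝ) - j) * ∑ B ∈ F, f B := by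
  simp only [sum_filter]
  rw [sum_comm, mul_sum]
  refine sum_congr rfl fun B hB => ?_
  rw [← sum_filter, sum_const, nsmul_eq_mul]
  congr 1
  have h1 : ({v ∈ (univ : Finset (Fin n)) | v ∉ B}) = Bᶜ := by
    ext v
    simp
  have h2 := card_add_card_compl B
  rw [Fintype.card_fin, hF B hB] at h2
  have h3 : ((c + j + #Bᶜ : ℕ) : ℝ) = ((c + q : ℕ) : ℝ) := by rw [h2, hn]
  rw [h1]
  push_cast at h3
  linarith

theorem whi_point {n c j q : ℕ} (hn : n = c + q) (h0 : 1 ≤ n) (F : Finset (Finset (Fin n)))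
    (hF : ∀ B ∈ F, #B = c + j) (f : Finset (Fin n) → ℝ) :
    ∃ v : Fin n, ((q : ℝ) - j) * ∑ B ∈ F, f B ≤ n * ∑ B ∈ F with v ∉ B, f B := by
  have hne : (univ : Finset (Fin n)).Nonempty := ⟨⟨0, h0⟩, mem_univ _⟩
  have h1 : ∑ _v : Fin n, ((q : ℝ) - j) * ∑ B ∈ F, f B ≤
      ∑ v : Fin n, (n : ℝ) * ∑ B ∈ F with v ∉ B, f B := by
    rw [← mul_sum, ← mul_sum, whi_sum hn F hF f, sum_const, card_univ, Fintype.card_fin,
      nsmul_eq_mul]
    exact le_of_eq (by ring)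
  obtain ⟨v, -, hv⟩ := exists_le_of_sum_le hne h1
  exact ⟨v, hv⟩

theorem whi_U {c j : ℕ} (hj : 1 ≤ j) : c + 1 ≤ (c + j).choose j := by
  rw [← Nat.choose_symm_add]
  calc c + 1 = (c + 1).choose c := (Nat.choose_succ_self_right c).symm
    _ ≤ (c + j).choose c := Nat.choose_le_choose c (by omega)

theorem whi_alg {n q j c m e W S S' SI g ε δ : ℝ} (hq : 0 < q) (hn : 0 ≤ n) (hj : 1 ≤ j)
    (hW : 0 ≤ W) (hcm : 0 ≤ c * m) (hne : n * e = q * m)
    (hg : g ≤ c * e / j - W * SI + ε / 4 * (c * e)) (hv : (q - j) * S' ≤ n * SI)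
    (hS : j * (W * S') ≤ c * m) (htr : W * S ≤ W * S' + δ * (c * m)) (hδ : δ ≤ ε / 4)
    (hqε : 4 ≤ ε * q) :
    n * g / q ≤ c * m / j - W * S + 3 * ε / 4 * (c * m) := by
  rw [div_le_iff₀ hq]
  have a1 := mul_le_mul_of_nonneg_left hg hn
  have a2 : n * (c * e / j - W * SI + ε / 4 * (c * e)) =
      c * (n * e) / j - W * (n * SI) + ε / 4 * (c * (n * e)) := by ring
  rw [a2, hne] at a1
  have a3 := mul_le_mul_of_nonneg_left hv hW
  have a4 := mul_le_mul_of_nonneg_left htr hq.le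
  have a5 := mul_le_mul_of_nonneg_right hδ (mul_nonneg hq.le hcm)
  have a6 := mul_le_mul_of_nonneg_right hqε hcm
  have a7 : c * (q * m) / j = c * m / j * q := by ring
  rw [a7] at a1
  linarith only [hS, a1, a3, a4, a5, a6]

/-- The upper bound in a window, `c / n` close to `1`. -/
theorem up_hi {j : ℕ} (hj : 1 ≤ j) {η L ε : ℝ} (hη : 0 < η) (hε : 0 < ε) :
    ∃ K : ℕ, ∀ n c q m d e : ℕ, n = c + q → K ≤ q → K * q ≤ n → c * m = d * n →
    d + e = m → η * (c + j).choose j ≤ e → (e : ℝ) ≤ L * (c + j).choose j →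
    ∀ t, Pk n c j d e t → ∃ J : Finset (Finset (Fin n)), Rg c m d J ∧
      (#(shadow J) : ℝ) ≤ Phi c m j (val n c j t) + ε * (c * m) := by
  obtain ⟨δ, hδ0, hδ1, hδ2⟩ : ∃ δ : ℝ, 0 < δ ∧ δ ≤ 1 / 2 ∧ δ ≤ ε / 4 :=
    ⟨min (1 / 2) (ε / 4), lt_min (by norm_num) (by positivity), min_le_left _ _,
      min_le_right _ _⟩
  obtain ⟨T, K1, hK1⟩ := nonreg (L := L) hj ⌈L / δ⌉₊ hη (show 0 < ε / 4 by positivity)
  obtain ⟨L0, hL6, hL0⟩ : ∃ L0 : ℕ, 6 ≤ L0 ∧ 20 / ε ≤ L0 :=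
    ⟨⌈20 / ε⌉₊ + 6, by omega, by
      have := Nat.le_ceil (20 / ε)
      push_cast
      linarith⟩
  obtain ⟨K2, hK2⟩ := upper_co L0 (T + j + 1) hL6
  refine ⟨K1 + K2 + T + j + ⌈4 / ε⌉₊ + ⌈(L0 : ℝ) / η⌉₊ + ⌈L⌉₊ + 2, ?_⟩
  intro n c q m d e hn hq hqn hdm hde hlo hhi t ht
  obtain ⟨K, hK⟩ : ∃ K, K = K1 + K2 + T + j + ⌈4 / ε⌉₊ + ⌈(L0 : ℝ) / η⌉₊ + ⌈L⌉₊ + 2 := ⟨_, rfl⟩
  rw [← hK] at hq hqn
  have hc : K ≤ c := by
    have h1 : 2 * q ≤ K * q := Nat.mul_le_mul_right _ (by omega)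
    omega
  have hn1 : 1 ≤ n := by omega
  have hq0 : (0 : ℝ) < q := by exact_mod_cast (show 0 < q by omega)
  have hU1 : c + 1 ≤ (c + j).choose j := whi_U hj
  have hU0 : (0 : ℝ) < (c + j).choose j := by exact_mod_cast (show 0 < (c + j).choose j by omega)
  have hW0 : (0 : ℝ) ≤ (c + j).choose (j + 1) := Nat.cast_nonneg _
  have hj' : (1 : ℝ) ≤ j := by exact_mod_cast hj
  have hm : (d : ℝ) + e = m := by exact_mod_cast hde
  have hcm : (0 : ℝ) ≤ c * m := by positivity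
  have hne : (n : ℝ) * e = q * m := by
    have h1 : (c : ℝ) * m = d * n := by exact_mod_cast hdm
    have h2 : (n : ℝ) = c + q := by exact_mod_cast hn
    have h3 : (n : ℝ) * m = c * m + q * m := by rw [h2]; ring
    have h4 : (n : ℝ) * m = n * d + n * e := by rw [← hm]; ring
    linarith only [h1, h3, h4]
  obtain ⟨F, hF, hFv, -, htr⟩ := ht.trim hj hn1 hδ0 hδ1
  rw [hm] at htr
  obtain ⟨v, hv⟩ := whi_point hn hn1 F (fun B hB => (hF B hB).1) (fun B => ph j (t B))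
  have hI : #{B ∈ F | v ∉ B} ≤ ⌈L / δ⌉₊ := by
    have h1 : (#{B ∈ F | v ∉ B} : ℝ) * δ ≤ ∑ B ∈ F with v ∉ B, t B := by
      rw [← nsmul_eq_mul]
      exact card_nsmul_le_sum _ _ _ fun B hB => (hF B (mem_filter.1 hB).1).2
    have h2 : ∑ B ∈ F with v ∉ B, t B ≤ L := by
      refine le_of_mul_le_mul_left ?_ hU0
      have := (hFv v).2
      linarith
    have h3 : (#{B ∈ F | v ∉ B} : ℝ) ≤ ⌈L / δ⌉₊ :=
      ((le_div_iff₀ hδ0).2 (h1.trans h2)).trans (Nat.le_ceil _)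
    exact_mod_cast h3
  obtain ⟨G, hG, hGe, hGs⟩ := hK1 n c e (by omega) (by omega) {B ∈ F | v ∉ B} t hI
    (fun B _ => ht.1 B) (hFv v).2 hlo hhi
  have hLe : L0 ≤ e := by
    have h1 : (L0 : ℝ) / η ≤ (c + j).choose j := by
      refine (Nat.le_ceil _).trans ?_
      exact_mod_cast (show ⌈(L0 : ℝ) / η⌉₊ ≤ (c + j).choose j by omega)
    have h2 := (div_le_iff₀ hη).1 h1
    have h3 : (L0 : ℝ) ≤ e := by linarith only [hlo, h2]
    exact_mod_cast h3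
  have heT : e ≤ n ^ (T + j + 1) := by
    have h1 : (c + j).choose j ≤ n ^ j :=
      (Nat.choose_le_pow _ _).trans (Nat.pow_le_pow_left (by omega) _)
    have h2 : L ≤ n := by
      refine (Nat.le_ceil _).trans ?_
      exact_mod_cast (show ⌈L⌉₊ ≤ n by omega)
    have h3 : (e : ℝ) ≤ (n * (c + j).choose j : ℕ) := by
      push_cast
      exact hhi.trans (mul_le_mul_of_nonneg_right h2 hU0.le)
    have h4 : e ≤ n * (c + j).choose j := by exact_mod_cast h3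
    calc e ≤ n * n ^ j := h4.trans (Nat.mul_le_mul_left _ h1)
      _ = n ^ (j + 1) := by ring
      _ ≤ n ^ (T + j + 1) := Nat.pow_le_pow_right hn1 (by omega)
  obtain ⟨J, hJ1, hJ2, hJ3, hJ4⟩ := hK2 n c q m d e hn (by omega)
    ((Nat.mul_le_mul_right _ (by omega)).trans hqn) hdm hde hLe heT G
    (fun X hX => ⟨(hG X hX).1, fun a ha => by have := (hG X hX).2 a ha; omega⟩) hGe
  refine ⟨J, ⟨hJ1, hJ2, hJ3⟩, hJ4.trans ?_⟩
  have hS : (j : ℝ) * (((c + j).choose (j + 1) : ℝ) * ∑ B ∈ F, ph j (t B)) ≤ c * m := by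
    have h1 : (j : ℝ) * ∑ B ∈ F, ph j (t B) ≤ ∑ B ∈ F, t B := by
      rw [mul_sum]
      refine sum_le_sum fun B _ => ?_
      have a1 := ph_le_sq hj (ht.1 B).1 (ht.1 B).2
      rw [le_div_iff₀ (by linarith only [hδ0, hδ1, hj'])] at a1
      have a2 : t B ^ 2 ≤ t B := by nlinarith only [(ht.1 B).1, (ht.1 B).2, hδ0, hδ1]
      linarith only [a1, a2]
    have h2 : ((c + j).choose j : ℝ) * ∑ B ∈ F, t B ≤ m := by
      rw [← sum_filter_add_sum_filter_not F (fun B => v ∈ B), mul_add, ← hm]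
      exact add_le_add (hFv v).1 (hFv v).2
    have h3 : ((c + j).choose (j + 1) : ℝ) ≤ (c + j).choose j * c := by
      rw [← W_eq]
      exact le_mul_of_one_le_right hW0 (by linarith only [hδ0, hδ1, hj'])
    have h4 : 0 ≤ ∑ B ∈ F, t B := sum_nonneg fun B _ => (ht.1 B).1
    have h5 := mul_le_mul_of_nonneg_left h1 hW0
    have h6 := mul_le_mul_of_nonneg_right h3 h4
    have h7 := mul_le_mul_of_nonneg_left h2 (Nat.cast_nonneg (α := ℝ) c)
    linarith only [h5, h6, h7]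
  have hqε : 4 ≤ ε * q := by
    have h1 : 4 / ε ≤ q := by
      refine (Nat.le_ceil _).trans ?_
      exact_mod_cast (show ⌈4 / ε⌉₊ ≤ q by omega)
    have h2 := (div_le_iff₀ hε).1 h1
    linarith only [h2]
  have key := whi_alg hq0 (Nat.cast_nonneg n) hj' hW0 hcm hne hGs hv hS htr hδ2 hqε
  have hL5 : 5 / (L0 : ℝ) ≤ ε / 4 := by
    have h1 : (0 : ℝ) < L0 := by exact_mod_cast (show 0 < L0 by omega)
    have h2 := (div_le_iff₀ hε).1 hL0
    rw [div_le_iff₀ h1]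
    linarith only [h2]
  have h8 := mul_le_mul_of_nonneg_right hL5 hcm
  unfold Phi
  linarith only [key, h8]

end Pool.Agent.P.MP_4f3dfd_co.Win
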