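import Pool.Agent.P.MP_4f3dfd_co.WDefs

set_option autoImplicit false
set_option linter.unusedSectionVars false
set_option linter.unusedVariables false

namespace Pool.Agent.P.MP_4f3dfd_co.Win

open Finset Pool.Agent.P.MP_4f3dfd_co.Asy Pool.Agent.P.MP_4f3dfd_co.Off

theorem wkk_nat {n j N : ℕ} (hj : 1 ≤ j) (hN : N ≤ n) (G : Finset (Finset (Fin n)))
    (hG : ∀ X ∈ G, #X = j + 1) (hg : #G ≤ N.choose (j + 1)) :
    ∃ z : ℕ, #G * (j + 1) ≤ #(shadow G) * (z + 1) ∧ z ^ j ≤ j.factorial * #(shadow G) := by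
  classical
  rcases Nat.eq_zero_or_pos #G with h0 | h0
  · refine ⟨0, by rw [h0]; omega, ?_⟩
    rw [zero_pow (by omega)]
    exact Nat.zero_le _
  have hex : ∃ x : ℕ, #G ≤ x.choose (j + 1) := ⟨N, hg⟩
  have h1 := Nat.find_spec hex
  have h2 : Nat.find hex ≤ N := Nat.find_min' hex hg
  have h3 : j + 1 ≤ Nat.find hex := by
    by_contra hlt
    rw [Nat.choose_eq_zero_of_lt (by omega)] at h1
    omega
  obtain ⟨z, hz⟩ : ∃ z, Nat.find hex = z + j + 1 := ⟨Nat.find hex - (j + 1), by omega⟩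
  have h4 : ¬ #G ≤ (z + j).choose (j + 1) := Nat.find_min hex (by omega)
  have h5 := kk_ratio (h2.trans hN) G hG h1
  rw [hz, show z + j + 1 + 1 - (j + 1) = z + 1 by omega] at h5
  refine ⟨z, h5, ?_⟩
  have h6 := Nat.choose_succ_right_eq (z + j) j
  rw [Nat.add_sub_cancel] at h6
  have h7 := Nat.pow_sub_le_descFactorial (z + j) j
  rw [show z + j + 1 - j = z + 1 by omega, Nat.descFactorial_eq_factorial_mul_choose] at h7
  have h8 : (z + j).choose j * z ≤ #(shadow G) * (z + 1) := by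
    rw [← h6]
    exact (Nat.mul_le_mul_right _ (by omega)).trans h5
  obtain ⟨i, rfl⟩ : ∃ i, j = i + 1 := ⟨j - 1, by omega⟩
  have h9 : z ^ (i + 1) * (z + 1) ≤ (z + 1) ^ (i + 1) * z := by
    have := Nat.pow_le_pow_left (Nat.le_succ z) i
    calc z ^ (i + 1) * (z + 1) = z ^ i * (z * (z + 1)) := by ring
      _ ≤ (z + 1) ^ i * (z * (z + 1)) := Nat.mul_le_mul_right _ this
      _ = (z + 1) ^ (i + 1) * z := by ring
  refine Nat.le_of_mul_le_mul_right (c := z + 1) ?_ (by omega)
  calc z ^ (i + 1) * (z + 1) ≤ (z + 1) ^ (i + 1) * z := h9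
    _ ≤ (i + 1).factorial * (z + (i + 1)).choose (i + 1) * z := Nat.mul_le_mul_right _ h7
    _ = (i + 1).factorial * ((z + (i + 1)).choose (i + 1) * z) := by ring
    _ ≤ (i + 1).factorial * (#(shadow G) * (z + 1)) := Nat.mul_le_mul_left _ h8
    _ = (i + 1).factorial * #(shadow G) * (z + 1) := by ring

theorem wkk_fam {n c j : ℕ} (hc : 1 ≤ c) (B : Finset (Fin n)) (hB : #B = c + j)
    (A : Finset (Finset (Fin n))) (hA : ∀ X ∈ A, #X = c ∧ X ⊆ B) :
    ∃ G : Finset (Finset (Fin n)), (∀ X ∈ G, #X = j + 1) ∧ #G ≤ (c + j).choose (j + 1) ∧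
      (c + j).choose (j + 1) ≤ #G + #(shadow A) ∧ #(shadow G) + #A ≤ (c + j).choose j := by
  have hW : #(powersetCard (c - 1) B) = (c + j).choose (j + 1) := by
    rw [card_powersetCard, hB]
    exact Nat.choose_symm_of_eq_add (by omega)
  have hU : #(powersetCard c B) = (c + j).choose j := by
    rw [card_powersetCard, hB]
    exact Nat.choose_symm_add
  have hinj : Set.InjOn (fun Y => B \ Y) (powersetCard (c - 1) B \ shadow A : Finset _) := by
    intro Y hY Y' hY' h
    have a1 := (mem_powersetCard.1 (mem_sdiff.1 (mem_coe.1 hY)).1).1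
    have a2 := (mem_powersetCard.1 (mem_sdiff.1 (mem_coe.1 hY')).1).1
    have h' : B \ Y = B \ Y' := h
    rw [← Finset.sdiff_sdiff_eq_self a1, h', Finset.sdiff_sdiff_eq_self a2]
  refine ⟨image (fun Y => B \ Y) (powersetCard (c - 1) B \ shadow A), fun X hX => ?_, ?_, ?_, ?_⟩
  · obtain ⟨Y, hY, rfl⟩ := mem_image.1 hX
    have a1 := mem_powersetCard.1 (mem_sdiff.1 hY).1
    rw [card_sdiff_of_subset a1.1, hB, a1.2]
    omega
  · rw [← hW]
    exact card_image_le.trans (card_le_card sdiff_subset)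
  · rw [card_image_of_injOn hinj, ← hW]
    exact card_le_card_sdiff_add_card
  · have hAs : A ⊆ powersetCard c B := fun X hX => mem_powersetCard.2 ⟨(hA X hX).2, (hA X hX).1⟩
    have key : ∀ Z ∈ shadow (image (fun Y => B \ Y) (powersetCard (c - 1) B \ shadow A)),
        Z ⊆ B ∧ B \ Z ∈ powersetCard c B \ A := by
      intro Z hZ
      obtain ⟨X, hX, v, hv, rfl⟩ := mem_shadow_iff.1 hZ
      obtain ⟨Y, hY, rfl⟩ := mem_image.1 hX
      have a1 := mem_powersetCard.1 (mem_sdiff.1 hY).1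
      have hv' := mem_sdiff.1 hv
      have e : B \ (B \ Y).erase v = insert v Y := by
        ext u
        simp only [mem_sdiff, mem_erase, mem_insert]
        constructor
        · rintro ⟨h1, h2⟩
          by_cases h3 : u = v
          · exact Or.inl h3
          · right
            by_contra h4
            exact h2 ⟨h3, h1, h4⟩
        · rintro (h1 | h1)
          · rw [h1]
            exact ⟨hv'.1, fun h2 => h2.1 rfl⟩
          · exact ⟨a1.1 h1, fun h2 => h2.2.2 h1⟩
      refine ⟨(erase_subset _ _).trans sdiff_subset, ?_⟩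
      rw [e]
      refine mem_sdiff.2 ⟨mem_powersetCard.2 ⟨insert_subset hv'.1 a1.1, ?_⟩, fun h => ?_⟩
      · rw [card_insert_of_notMem hv'.2, a1.2]
        omega
      · refine (mem_sdiff.1 hY).2 (mem_shadow_iff.2 ⟨_, h, v, mem_insert_self _ _, ?_⟩)
        exact erase_insert hv'.2
    have h1 : #(shadow (image (fun Y => B \ Y) (powersetCard (c - 1) B \ shadow A))) ≤
        #(powersetCard c B \ A) := by
      refine card_le_card_of_injOn (fun Z => B \ Z) (fun Z hZ => (key Z hZ).2) ?_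
      intro Z hZ Z' hZ' h
      have h' : B \ Z = B \ Z' := h
      rw [← Finset.sdiff_sdiff_eq_self (key Z hZ).1, h', Finset.sdiff_sdiff_eq_self (key Z' hZ').1]
    have h2 := card_sdiff_add_card_eq_card hAs
    omega

/-- Kruskal-Katona inside one set of size `c + j`. -/
theorem kkb {n c j : ℕ} (hj : 1 ≤ j) (hc : 1 ≤ c) (B : Finset (Fin n)) (hB : #B = c + j)
    (A : Finset (Finset (Fin n))) (hA : ∀ X ∈ A, #X = c ∧ X ⊆ B) :
    ((c + j).choose (j + 1) : ℝ) * (ps j (#A / (c + j).choose j) - (j + 2) / c) ≤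
      #(shadow A) := by
  obtain ⟨G, hG, g1, g2, g3⟩ := wkk_fam hc B hB A hA
  have hn : c + j ≤ n := by
    rw [← hB]
    exact (card_le_univ B).trans (Fintype.card_fin n).le
  obtain ⟨z, z1, z2⟩ := wkk_nat hj hn G hG g1
  have hW := W_eq c j
  have hf : j.factorial * (c + j).choose j ≤ (c + j) ^ j := by
    rw [← Nat.descFactorial_eq_factorial_mul_choose]
    exact Nat.descFactorial_le_pow _ _
  have hU0 : (0 : ℝ) < (c + j).choose j := by
    exact_mod_cast Nat.choose_pos (by omega)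
  have hc0 : (0 : ℝ) < c := by exact_mod_cast hc
  have hj0 : (0 : ℝ) < j := by exact_mod_cast hj
  have z1' : (#G : ℝ) * (j + 1) ≤ #(shadow G) * (z + 1) := by exact_mod_cast z1
  have z2' : (z : ℝ) ^ j ≤ j.factorial * #(shadow G) := by exact_mod_cast z2
  have g2' : ((c + j).choose (j + 1) : ℝ) ≤ #G + #(shadow A) := by exact_mod_cast g2
  have g3' : (#(shadow G) : ℝ) + #A ≤ (c + j).choose j := by exact_mod_cast g3
  have hf' : (j.factorial : ℝ) * (c + j).choose j ≤ (c + j) ^ j := by exact_mod_cast hf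
  unfold ps
  generalize ((c + j).choose (j + 1) : ℝ) = W at *
  generalize ((c + j).choose j : ℝ) = U at *
  have hs0 : (0 : ℝ) ≤ #(shadow G) := Nat.cast_nonneg _
  have ha0 : (0 : ℝ) ≤ #A := Nat.cast_nonneg _
  obtain ⟨q, hq⟩ : ∃ q : ℝ, q = 1 - #A / U := ⟨_, rfl⟩
  rw [← hq]
  have hUq : U * q = U - #A := by rw [hq]; field_simp
  have hsq : (#(shadow G) : ℝ) ≤ U * q := by linarith
  have hq0 : 0 ≤ q := le_of_mul_le_mul_left (by linarith) hU0
  have hq1 : q ≤ 1 := le_of_mul_le_mul_left (by linarith) hU0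
  obtain ⟨s, hs⟩ : ∃ s : ℝ, s = q ^ (1 / (j : ℝ)) := ⟨_, rfl⟩
  have s0 : 0 ≤ s := hs ▸ Real.rpow_nonneg hq0 _
  have s1 : s ≤ 1 := hs ▸ Real.rpow_le_one hq0 hq1 (by positivity)
  have sj : s ^ j = q := by
    rw [hs, one_div]
    exact Real.rpow_inv_natCast_pow hq0 (by omega)
  have hpow : q ^ (1 + 1 / (j : ℝ)) = q * s := by
    rw [Real.rpow_add_of_nonneg hq0 zero_le_one (by positivity), Real.rpow_one, hs]
  rw [hpow]
  have hz : (z : ℝ) ≤ s * (c + j) := by
    refine le_of_pow_le_pow_left₀ (n := j) (by omega) (by positivity) ?_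
    rw [mul_pow, sj]
    have hf0 : (0 : ℝ) ≤ j.factorial := Nat.cast_nonneg _
    calc (z : ℝ) ^ j ≤ j.factorial * #(shadow G) := z2'
      _ ≤ j.factorial * (U * q) := mul_le_mul_of_nonneg_left hsq hf0
      _ = q * (j.factorial * U) := by ring
      _ ≤ q * (c + j) ^ j := mul_le_mul_of_nonneg_left hf' hq0
  have h1 : (#G : ℝ) * (j + 1) ≤ U * q * (s * (c + j) + 1) :=
    z1'.trans (mul_le_mul hsq (by linarith) (by positivity) (by positivity))
  have hqs : q * s ≤ 1 := mul_le_one₀ hq1 s0 s1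
  have h2 : U * q * (s * (c + j) + 1) ≤ U * c * (q * s) + U * (j + 2) := by
    have a1 : U * j * (q * s) ≤ U * j * 1 := mul_le_mul_of_nonneg_left hqs (by positivity)
    have a2 : U * q ≤ U * 1 := mul_le_mul_of_nonneg_left hq1 hU0.le
    nlinarith only [hU0, hUq, a1]
  have h3 : W * (q * s + (j + 2) / c) * (j + 1) = U * c * (q * s) + U * (j + 2) := by
    rw [mul_right_comm, hW]
    field_simp
  have h4 : (#G : ℝ) ≤ W * (q * s + (j + 2) / c) :=
    le_of_mul_le_mul_right (by linarith) (show (0 : ℝ) < j + 1 by positivity)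
  linarith

end Pool.Agent.P.MP_4f3dfd_co.Win
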