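import Pool.Agent.P.MP_4f3dfd_co.WNon

set_option autoImplicit false
set_option linter.unusedSectionVars false
set_option linter.unusedVariables false

namespace Pool.Agent.P.MP_4f3dfd_co.Win

open Finset Pool.Agent.P.MP_4f3dfd_co.Asy Pool.Agent.P.MP_4f3dfd_co.Off

theorem wlo_avg {n N : ℕ} (hn : 1 ≤ n) (F : Finset (Finset (Fin n))) (hF : ∀ B ∈ F, #B = N)
    (f : Finset (Fin n) → ℝ) :
    ∃ v : Fin n, (N : ℝ) * ∑ B ∈ F, f B ≤ n * ∑ B ∈ F with v ∈ B, f B := by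
  have : Nonempty (Fin n) := ⟨⟨0, hn⟩⟩
  have h1 : ∑ v : Fin n, ∑ B ∈ F with v ∈ B, f B = N * ∑ B ∈ F, f B := by
    simp only [sum_filter]
    rw [sum_comm, mul_sum]
    refine sum_congr rfl fun B hB => ?_
    rw [← sum_filter, sum_const, filter_mem_eq_inter, univ_inter, hF B hB, nsmul_eq_mul]
  obtain ⟨v, -, hv⟩ := exists_le_of_sum_le (s := (univ : Finset (Fin n)))
    (f := fun _ => (N : ℝ) * ∑ B ∈ F, f B) (g := fun v => n * ∑ B ∈ F with v ∈ B, f B)
    univ_nonempty (by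
      rw [sum_const, ← mul_sum univ, h1, card_univ, Fintype.card_fin, nsmul_eq_mul])
  exact ⟨v, hv⟩

theorem wlo_U (k j : ℕ) :
    ((k + j).choose j : ℝ) * (k + j + 1) = (k + 1 + j).choose j * (k + 1) := by
  have h := Nat.choose_mul_succ_eq (k + j) j
  rw [show k + j + 1 - j = k + 1 by omega] at h
  rw [show k + 1 + j = k + j + 1 by omega]
  exact_mod_cast h

theorem wlo_W (k j : ℕ) :
    ((k + j).choose (j + 1) : ℝ) * (k + j + 1) = (k + 1 + j).choose (j + 1) * k := by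
  have h := Nat.choose_mul_succ_eq (k + j) (j + 1)
  rw [show k + j + 1 - (j + 1) = k by omega] at h
  rw [show k + 1 + j = k + j + 1 by omega]
  exact_mod_cast h

/-- The upper bound in a window, `c / n` small. -/
theorem up_lo {j : ℕ} (hj : 1 ≤ j) {η L ε : ℝ} (hη : 0 < η) (hε : 0 < ε) :
    ∃ K : ℕ, ∀ n c m d e : ℕ, K ≤ c → K * c ≤ n → c * m = d * n →
    d + e = m → η * (c + j).choose j ≤ d → (d : ℝ) ≤ L * (c + j).choose j →
    ∀ t, Pk n c j d e t → ∃ J : Finset (Finset (Fin n)), Rg c m d J ∧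
      (#(shadow J) : ℝ) ≤ Phi c m j (val n c j t) + ε * (c * m) := by
  obtain ⟨δ, hδ0, hδ1, hδ2⟩ : ∃ δ : ℝ, 0 < δ ∧ δ ≤ 1 / 2 ∧ δ ≤ ε / 4 :=
    ⟨min (1 / 2) (ε / 4), by positivity, min_le_left _ _, min_le_right _ _⟩
  obtain ⟨T, K1, h1⟩ := nonreg hj ⌈L / δ⌉₊ (L := 2 * |L|) hη hδ0
  obtain ⟨K2, h2⟩ := upperC' ⌈2 / δ⌉₊ j
  refine ⟨K1 + 2 * K2 + T + j + ⌈L * (j + 1)⌉₊ + 2, ?_⟩
  intro n c m d e hc hn hcm hde hlo hhi t ht
  obtain ⟨k, rfl⟩ : ∃ k, c = k + 1 := ⟨c - 1, by omega⟩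
  have hn1 : (T + 1) * (k + 1) ≤ n := le_trans (Nat.mul_le_mul_right _ (by omega)) hn
  have hn2 : 2 * K2 * (k + 1) ≤ n := le_trans (Nat.mul_le_mul_right _ (by omega)) hn
  have hkT : k + T + 1 ≤ n := by nlinarith only [hn1]
  have hK2 : K2 * (k + 1 + j) ≤ n :=
    le_trans (Nat.mul_le_mul_left K2 (show k + 1 + j ≤ 2 * (k + 1) by omega)) (by linarith)
  obtain ⟨F, hF, hv, -, hval⟩ := ht.trim hj (by omega) hδ0 hδ1
  obtain ⟨v, hS⟩ := wlo_avg (by omega) F (fun B hB => (hF B hB).1) fun B => ph j (t B)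
  have hI := (hv v).1
  have hS0 : 0 ≤ ∑ B ∈ F, ph j (t B) := sum_nonneg fun B _ => ph_nonneg hj (ht.1 B).2
  set I := F.filter (fun B => v ∈ B) with hIdef
  have ht0 : 0 ≤ ∑ B ∈ I, t B := sum_nonneg fun B _ => (ht.1 B).1
  have eU := wlo_U k j
  have eW := wlo_W k j
  have eV := W_eq (k + 1) j
  have hU0 : (0 : ℝ) < (k + 1 + j).choose j := by
    exact_mod_cast Nat.choose_pos (by omega)
  have hUk : (0 : ℝ) ≤ (k + j).choose j := Nat.cast_nonneg _
  have hk0 : (0 : ℝ) < k := by exact_mod_cast (by omega : 0 < k)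
  have hj1 : (1 : ℝ) ≤ j := by exact_mod_cast hj
  have hjk : (j : ℝ) ≤ k + 1 := by exact_mod_cast (by omega : j ≤ k + 1)
  have hU1 : ((k + j).choose j : ℝ) ≤ (k + 1 + j).choose j := by
    exact_mod_cast Nat.choose_le_choose j (by omega)
  have hU2 : ((k + 1 + j).choose j : ℝ) ≤ 2 * (k + j).choose j := by
    refine le_of_mul_le_mul_right ?_ (show (0 : ℝ) < k + 1 by positivity)
    nlinarith only [eU, hjk]
  have hR : #I ≤ ⌈L / δ⌉₊ := by
    have a1 : δ * #I ≤ ∑ B ∈ I, t B := by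
      rw [mul_comm, ← nsmul_eq_mul]
      exact card_nsmul_le_sum _ _ _ fun B hB => (hF B (mem_filter.1 hB).1).2
    have a2 : ∑ B ∈ I, t B ≤ L := le_of_mul_le_mul_left (by linarith) hU0
    have a3 : (#I : ℝ) ≤ L / δ := by
      rw [le_div_iff₀ hδ0]
      linarith
    exact_mod_cast a3.trans (Nat.le_ceil _)
  obtain ⟨G, hG, hGd, hg⟩ := h1 n k d (by omega) (by omega) I t hR (fun B _ => ht.1 B)
    ((mul_le_mul_of_nonneg_right hU1 ht0).trans hI)
    ((mul_le_mul_of_nonneg_left hU1 hη.le).trans hlo)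
    (by
      have a1 := mul_le_mul_of_nonneg_right (le_abs_self L) hU0.le
      have a2 := mul_le_mul_of_nonneg_left hU2 (abs_nonneg L)
      linarith)
  have hdW : d ≤ (k + 1 + j).choose k := by
    have a1 : L * (j + 1) ≤ (k : ℝ) + 1 :=
      (Nat.le_ceil _).trans (by exact_mod_cast (by omega : ⌈L * (j + 1)⌉₊ ≤ k + 1))
    have a2 : (d : ℝ) ≤ (k + 1 + j).choose (j + 1) := by
      refine le_of_mul_le_mul_right ?_ (show (0 : ℝ) < j + 1 by positivity)
      have a3 := mul_le_mul_of_nonneg_left a1 hU0.le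
      have a4 := mul_le_mul_of_nonneg_right hhi (show (0 : ℝ) ≤ j + 1 by positivity)
      push_cast at eV
      linarith only [a3, a4, eV]
    rw [Nat.choose_symm_of_eq_add (show k + 1 + j = k + (j + 1) by omega)]
    exact_mod_cast a2
  obtain ⟨J, j1, j2, j3, j4⟩ := h2 n k j m d (by omega) le_rfl hK2 hcm hdW G
    (fun X hX => (hG X hX).1) hGd
  refine ⟨J, ⟨j1, j2, j3⟩, ?_⟩
  have j5 : (⌈2 / δ⌉₊ : ℝ) * (k * #(shadow J)) ≤ (⌈2 / δ⌉₊ + 2) * (n * #(shadow G)) := by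
    exact_mod_cast j4
  have hL0 : 2 ≤ δ * ⌈2 / δ⌉₊ := by
    have := Nat.le_ceil (2 / δ)
    rw [div_le_iff₀ hδ0] at this
    linarith only [this]
  have hL1 : (0 : ℝ) < ⌈2 / δ⌉₊ := by
    by_contra a
    nlinarith only [not_lt.1 a, hδ0, hδ1, hL0, a]
  have hcm' : ((k : ℝ) + 1) * m = d * n := by exact_mod_cast hcm
  have hde' : (d : ℝ) + e = m := by exact_mod_cast hde
  unfold Phi
  push_cast at hS hval ⊢
  rw [hde'] at hval
  generalize (⌈2 / δ⌉₊ : ℝ) = L0 at j5 hL0 hL1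
  generalize ((k + 1 + j).choose (j + 1) : ℝ) * val n (k + 1) j t = A at hval ⊢
  have hW0 : (0 : ℝ) ≤ (k + 1 + j).choose (j + 1) := Nat.cast_nonneg _
  have hWk : (0 : ℝ) ≤ (k + j).choose (j + 1) := Nat.cast_nonneg _
  have hM0 : (0 : ℝ) ≤ ((k : ℝ) + 1) * m := by positivity
  have hn0 : (0 : ℝ) ≤ n := Nat.cast_nonneg n
  set M : ℝ := ((k : ℝ) + 1) * m with hM
  set S := ∑ B ∈ F, ph j (t B)
  set Y : ℝ := M / j - (k + 1 + j).choose (j + 1) * S + δ * M with hY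
  have b1 : (n : ℝ) * #(shadow G) ≤ k * Y := by
    have a1 := mul_le_mul_of_nonneg_left hg hn0
    have a2 := mul_le_mul_of_nonneg_left hS hWk
    have a3 : (n : ℝ) * (k * d / j - (k + j).choose (j + 1) * ∑ i ∈ I, ph j (t i) + δ * (k * d)) =
        k * (M / j) - (k + j).choose (j + 1) * (n * ∑ i ∈ I, ph j (t i)) + k * (δ * M) := by
      rw [hcm']
      ring
    have a4 : ((k + j).choose (j + 1) : ℝ) * ((k + 1 + j) * S) =
        k * ((k + 1 + j).choose (j + 1) * S) := by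
      linear_combination S * eW
    rw [hY]
    linarith only [a1, a2, a3, a4]
  have b2 : L0 * #(shadow J) ≤ (L0 + 2) * Y := by
    refine le_of_mul_le_mul_left ?_ hk0
    have a1 := mul_le_mul_of_nonneg_left b1 (show 0 ≤ L0 + 2 by linarith only [hδ0, hδ1, hL1])
    linarith only [j5, a1]
  have b3 : Y ≤ 2 * M := by
    have a1 : M / j ≤ M := div_le_self hM0 hj1
    have a2 := mul_nonneg hW0 hS0
    have a3 := mul_le_mul_of_nonneg_right hδ1 hM0
    linarith only [hM0, a1, a2, a3]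
  have b4 : (#(shadow J) : ℝ) ≤ Y + 2 * (δ * M) := by
    refine le_of_mul_le_mul_left ?_ hL1
    have a1 := mul_le_mul_of_nonneg_right hL0 hM0
    linarith only [b2, b3, a1]
  have b5 := mul_le_mul_of_nonneg_right hδ2 hM0
  linarith only [hval, b4, b5]

end Pool.Agent.P.MP_4f3dfd_co.Win
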