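import Pool.Agent.P.MP_4f3dfd_co.WDefs

set_option autoImplicit false
set_option linter.unusedSectionVars false
set_option linter.unusedVariables false

namespace Pool.Agent.P.MP_4f3dfd_co.Win

open Finset Pool.Agent.P.MP_4f3dfd_co.Asy Pool.Agent.P.MP_4f3dfd_co.Off

variable {V : Type*} [DecidableEq V] [Fintype V]

theorem wloc_sub {c k : ℕ} {S : Finset (Finset V)} {B : Finset V}
    (h : ∀ X ∈ S, X ⊆ B ∧ #X = c) (hB : #B ≤ k) : #S ≤ k.choose c := by
  have h1 : S ⊆ powersetCard c B := fun X hX => mem_powersetCard.2 (h X hX)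
  have h2 := card_le_card h1
  rw [card_powersetCard] at h2
  exact h2.trans (Nat.choose_le_choose c hB)

theorem wloc_cover {S : Finset (Finset V)} {P : Finset V} {g : V → Finset (Finset V)} {d : ℕ}
    (h : ∀ X ∈ S, ∃ v ∈ P, X ∈ g v) (hg : ∀ v, #(g v) = d) : #S ≤ #P * d := by
  have h1 : S ⊆ P.biUnion g := fun X hX => mem_biUnion.2 (h X hX)
  refine (card_le_card h1).trans (card_biUnion_le.trans ?_)
  simp only [hg, sum_const, smul_eq_mul, le_refl]

/-- Few members are close to a given set. -/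
theorem loc {c m d e ρ : ℕ} {J : Finset (Finset V)} (hJ : Rg c m d J) (hde : d + e = m)
    (A : Finset V) (h1 : ρ + 1 ≤ #A) (h2 : #A + ρ + 1 ≤ Fintype.card V) :
    #{X ∈ J | #(A \ X) ≤ ρ ∧ #(X \ A) ≤ ρ} ≤ (ρ + 1) * min d e := by
  rw [← Nat.mul_min_mul_left]
  refine le_min ?_ ?_
  · obtain ⟨P, hP, hc⟩ := exists_subset_card_eq h1
    rw [← hc]
    refine wloc_cover (g := fun v => {X ∈ J | v ∈ X}) (fun X hX => ?_) hJ.dg
    have hX' := mem_filter.1 hX
    by_contra hno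
    have : P ⊆ A \ X := fun v hv =>
      mem_sdiff.2 ⟨hP hv, fun h => hno ⟨v, hv, mem_filter.2 ⟨hX'.1, h⟩⟩⟩
    have := card_le_card this
    omega
  · have h3 : ρ + 1 ≤ #(Aᶜ) := by rw [card_compl]; omega
    obtain ⟨P, hP, hc⟩ := exists_subset_card_eq h3
    rw [← hc]
    refine wloc_cover (g := fun v => {X ∈ J | v ∉ X}) (fun X hX => ?_) fun v => ?_
    · have hX' := mem_filter.1 hX
      by_contra hno
      have : P ⊆ X \ A := fun v hv => mem_sdiff.2 ⟨by
        by_contra h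
        exact hno ⟨v, hv, mem_filter.2 ⟨hX'.1, h⟩⟩, mem_compl.1 (hP hv)⟩
      have := card_le_card this
      omega
    · have h4 := card_filter_add_card_filter_not (s := J) (fun X => v ∈ X)
      rw [hJ.dg, hJ.cd] at h4
      omega

theorem ins_inter {c j : ℕ} {J : Finset (Finset V)} (hJ : ∀ X ∈ J, #X = c) {B B' : Finset V}
    (hB : #B = c + j) (hB' : #B' = c + j) (hne : B ≠ B') :
    #(ins J B ∩ ins J B') ≤ (c + j - 1).choose c := by
  refine wloc_sub (B := B ∩ B') (fun X hX => ?_) ?_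
  · have h := mem_inter.1 hX
    have h1 := mem_filter.1 h.1
    have h2 := mem_filter.1 h.2
    exact ⟨subset_inter h1.2 h2.2, hJ X h1.1⟩
  · have : B ∩ B' ⊂ B := by
      refine Finset.ssubset_iff_subset_ne.2 ⟨inter_subset_left, fun h => hne ?_⟩
      exact eq_of_subset_of_card_le (inter_eq_left.1 h) (by omega)
    have := card_lt_card this
    omega

theorem ins_avoid {c j : ℕ} {J : Finset (Finset V)} (hJ : ∀ X ∈ J, #X = c) {B : Finset V}
    (hB : #B = c + j) {v : V} (hv : v ∈ B) :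
    #{X ∈ ins J B | v ∉ X} ≤ (c + j - 1).choose c := by
  refine wloc_sub (B := B.erase v) (fun X hX => ?_) ?_
  · have h := mem_filter.1 hX
    have h1 := mem_filter.1 h.1
    exact ⟨subset_erase.2 ⟨h1.2, h.2⟩, hJ X h1.1⟩
  · rw [card_erase_of_mem hv, hB]

/-- Bonferroni. -/
theorem bonf_sum {α β : Type*} [DecidableEq α] [DecidableEq β] (F : Finset α) (g : α → Finset β)
    {u : ℕ} (h2 : ∀ B ∈ F, ∀ B' ∈ F, B ≠ B' → #(g B ∩ g B') ≤ u) :
    ∑ B ∈ F, #(g B) ≤ #(F.biUnion g) + #F ^ 2 * u := by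
  induction F using Finset.induction_on with
  | empty => simp
  | insert a F ha ih =>
    have h3 := ih fun B hB B' hB' => h2 B (mem_insert_of_mem hB) B' (mem_insert_of_mem hB')
    have h4 := card_union_add_card_inter (g a) (F.biUnion g)
    have h5 : #(g a ∩ F.biUnion g) ≤ #F * u := by
      have h6 : g a ∩ F.biUnion g ⊆ F.biUnion fun B => g a ∩ g B := by
        intro x hx
        obtain ⟨hx1, hx2⟩ := mem_inter.1 hx
        obtain ⟨B, hB, hx3⟩ := mem_biUnion.1 hx2
        exact mem_biUnion.2 ⟨B, hB, mem_inter.2 ⟨hx1, hx3⟩⟩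
      refine (card_le_card h6).trans (card_biUnion_le.trans ?_)
      rw [← smul_eq_mul]
      exact sum_le_card_nsmul _ _ _ fun B hB => h2 a (mem_insert_self _ _) B
        (mem_insert_of_mem hB) fun h => ha (h ▸ hB)
    rw [sum_insert ha, biUnion_insert, card_insert_of_notMem ha]
    have e : (#F + 1) ^ 2 * u = #F ^ 2 * u + #F * u + (#F + 1) * u := by ring
    omega

theorem bonf {α β : Type*} [DecidableEq α] [DecidableEq β] (F : Finset α) (g : α → Finset β)
    (T : Finset β) {b u r : ℕ} (h1 : ∀ B ∈ F, g B ⊆ T ∧ b ≤ #(g B))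
    (h2 : ∀ B ∈ F, ∀ B' ∈ F, B ≠ B' → #(g B ∩ g B') ≤ u) (hr : #T + r ^ 2 * u < r * b) :
    #F < r := by
  by_contra hno
  obtain ⟨G, hG, hc⟩ := exists_subset_card_eq (not_lt.1 hno)
  have h3 := bonf_sum G g fun B hB B' hB' => h2 B (hG hB) B' (hG hB')
  have h4 : #(G.biUnion g) ≤ #T :=
    card_le_card (biUnion_subset.2 fun B hB => (h1 B (hG hB)).1)
  have h5 : #G • b ≤ ∑ B ∈ G, #(g B) := card_nsmul_le_sum _ _ _ fun B hB => (h1 B (hG hB)).2
  rw [smul_eq_mul, hc] at h5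
  rw [hc] at h3
  omega

/-- Few big sets are close to a given set. -/
theorem near {c j m d e b r : ℕ} {J : Finset (Finset V)} (hJ : Rg c m d J) (hde : d + e = m)
    (hc : 2 * j + 2 ≤ c) (hn : c + 3 * j + 2 ≤ Fintype.card V)
    (hr : (2 * j + 2) * min d e + r ^ 2 * (c + j - 1).choose c < r * b)
    (A : Finset V) (h1 : c ≤ #A) (h2 : #A ≤ c + j) :
    #{B ∈ big c j b J | c ≤ #(A ∩ B) + 1} < r := by
  have hT := loc (ρ := 2 * j + 1) hJ hde A (by omega) (by omega)
  have hB : ∀ B ∈ {B ∈ big c j b J | c ≤ #(A ∩ B) + 1},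
      #B = c + j ∧ b ≤ #(ins J B) ∧ c ≤ #(A ∩ B) + 1 := by
    intro B h
    have h3 := mem_filter.1 h
    have h4 := mem_filter.1 h3.1
    exact ⟨(mem_powersetCard.1 h4.1).2, h4.2, h3.2⟩
  refine bonf _ (ins J) {X ∈ J | #(A \ X) ≤ 2 * j + 1 ∧ #(X \ A) ≤ 2 * j + 1}
    (u := (c + j - 1).choose c) (b := b) (fun B h => ⟨fun X hX => ?_, (hB B h).2.1⟩)
    (fun B h B' h' hne => ins_inter hJ.sz (hB B h).1 (hB B' h').1 hne) ?_
  · obtain ⟨e1, _, e2⟩ := hB B h
    have hX' := mem_filter.1 hX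
    have e3 := hJ.sz X hX'.1
    have a1 := card_sdiff_add_card_inter A B
    have a2 := card_sdiff_add_card_inter B A
    rw [inter_comm] at a2
    have a3 := card_sdiff_add_card_eq_card hX'.2
    have a4 : A \ X ⊆ A \ B ∪ B \ X := by
      intro v hv
      have hv' := mem_sdiff.1 hv
      by_cases hb : v ∈ B
      · exact mem_union_right _ (mem_sdiff.2 ⟨hb, hv'.2⟩)
      · exact mem_union_left _ (mem_sdiff.2 ⟨hv'.1, hb⟩)
    have a5 := (card_le_card a4).trans (card_union_le _ _)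
    have a6 : #(X \ A) ≤ #(B \ A) := card_le_card (sdiff_subset_sdiff hX'.2 subset_rfl)
    exact mem_filter.2 ⟨hX'.1, by omega, by omega⟩
  · exact lt_of_le_of_lt (Nat.add_le_add_right hT _) hr

end Pool.Agent.P.MP_4f3dfd_co.Win
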