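import Pool.Agent.P.MP_4f3dfd_co.WLoc

set_option autoImplicit false
set_option linter.unusedSectionVars false
set_option linter.unusedVariables false

namespace Pool.Agent.P.MP_4f3dfd_co.Win

open Finset Pool.Agent.P.MP_4f3dfd_co.Asy Pool.Agent.P.MP_4f3dfd_co.Off

variable {V : Type*} [DecidableEq V] [Fintype V]

omit [Fintype V] in
theorem wsplit_dust {J F : Finset (Finset V)} {X : Finset V} :
    X ∈ dust J F ↔ X ∈ J ∧ ∀ B ∈ F, ¬X ⊆ B := mem_filter

omit [Fintype V] in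
theorem wsplit_sub {J F : Finset (Finset V)} : dust J F ⊆ J := fun _ h => (wsplit_dust.1 h).1

theorem wsplit_gen (F F' : Finset (Finset V)) (hF' : F' ⊆ F) (g : Finset V → Finset (Finset V))
    (T E : Finset (Finset V)) (hg : ∀ B ∈ F', ∀ X ∈ g B, X ⊆ B) (k : ℕ)
    (hk : ∀ B ∈ F', #{X ∈ g B | X ∉ T ∨ ∃ B' ∈ F, B' ≠ B ∧ X ⊆ B'} ≤ k) (hE : E ⊆ T)
    (hE' : ∀ X ∈ E, ∀ B ∈ F, ¬X ⊆ B) : ∑ B ∈ F', #(g B) + #E ≤ #T + #F' * k := by
  let P : Finset V → Finset (Finset V) := fun B =>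
    {X ∈ g B | ¬(X ∉ T ∨ ∃ B' ∈ F, B' ≠ B ∧ X ⊆ B')}
  have h1 : ∑ B ∈ F', #(g B) ≤ ∑ B ∈ F', #(P B) + #F' * k := by
    rw [← smul_eq_mul, ← sum_const, ← sum_add_distrib]
    refine sum_le_sum fun B hB => ?_
    rw [← card_filter_add_card_filter_not (s := g B)
      fun X => X ∉ T ∨ ∃ B' ∈ F, B' ≠ B ∧ X ⊆ B', add_comm]
    exact Nat.add_le_add_left (hk B hB) _
  have h2 : #(F'.biUnion P) = ∑ B ∈ F', #(P B) := card_biUnion fun B hB B' hB' hne =>
    disjoint_left.2 fun X h3 h4 => (mem_filter.1 h3).2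
      (Or.inr ⟨B', hF' hB', hne.symm, hg B' hB' X (mem_filter.1 h4).1⟩)
  have h3 : #(F'.biUnion P ∪ E) = #(F'.biUnion P) + #E :=
    card_union_of_disjoint (disjoint_left.2 fun X h3 h4 => by
      obtain ⟨B, hB, h5⟩ := mem_biUnion.1 h3
      exact hE' X h4 B (hF' hB) (hg B hB X (mem_filter.1 h5).1))
  have h4 : #(F'.biUnion P ∪ E) ≤ #T := card_le_card (union_subset (fun X h3 => by
    obtain ⟨B, hB, h5⟩ := mem_biUnion.1 h3
    exact by_contra fun h => (mem_filter.1 h5).2 (Or.inl h)) hE)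
  omega

/-- Any subfamily `G` of `J` that contains almost all members inside the sets of `F'`. -/
theorem priv {c j r w : ℕ} {J F : Finset (Finset V)} (hJ : ∀ X ∈ J, #X = c)
    (hF : ∀ B ∈ F, #B = c + j)
    (hr : ∀ A : Finset V, c ≤ #A → #A ≤ c + j → #{B ∈ F | c ≤ #(A ∩ B) + 1} < r)
    (F' : Finset (Finset V)) (hF' : F' ⊆ F) (G : Finset (Finset V))
    (hG : ∀ B ∈ F', #(ins J B \ G) ≤ w) :
    ∑ B ∈ F', #(ins J B) ≤ #G + #F' * (w + r * (c + j - 1).choose c) := by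
  refine wsplit_gen F F' hF' (ins J) G ∅ (fun B _ X hX => (mem_filter.1 hX).2) _ (fun B hB => ?_)
    (empty_subset _) (by simp)
  have h1 := hF B (hF' hB)
  refine (card_le_card (t := ins J B \ G ∪ ({B' ∈ F | c ≤ #(B ∩ B') + 1}.erase B).biUnion
    fun B' => ins J B ∩ ins J B') fun X hX => ?_).trans ((card_union_le _ _).trans
      (Nat.add_le_add (hG B hB) ((card_biUnion_le_card_mul _ _ _ fun B' h => ?_).trans
        (Nat.mul_le_mul_right _ (card_erase_le.trans (hr B (by omega) h1.le).le)))))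
  · obtain ⟨h2, h3 | ⟨B', h3, h4, h5⟩⟩ := mem_filter.1 hX
    · exact mem_union_left _ (mem_sdiff.2 ⟨h2, h3⟩)
    · obtain ⟨h6, h7⟩ := mem_filter.1 h2
      exact mem_union_right _ (mem_biUnion.2 ⟨B', mem_erase.2 ⟨h4, mem_filter.2 ⟨h3,
        Nat.le_succ_of_le (hJ X h6 ▸ card_le_card (subset_inter h7 h5))⟩⟩,
        mem_inter.2 ⟨h2, mem_filter.2 ⟨h6, h5⟩⟩⟩)
  · exact ins_inter hJ h1 (hF B' (mem_filter.1 (mem_of_mem_erase h)).1) (ne_of_mem_erase h).symm

/-- The shadow splits into the parts inside the sets of `F` and the shadow of the dust. -/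
theorem split {c j r : ℕ} (hc : 1 ≤ c) {J F : Finset (Finset V)} (hJ : ∀ X ∈ J, #X = c)
    (hF : ∀ B ∈ F, #B = c + j)
    (hr : ∀ A : Finset V, c ≤ #A → #A ≤ c + j → #{B ∈ F | c ≤ #(A ∩ B) + 1} < r) :
    ∑ B ∈ F, #(shadow (ins J B)) + #(shadow (dust J F)) ≤
      #(shadow J) + #F * (r * (c + j).choose j) + r * #(dust J F) := by
  have h0 : ∀ (A : Finset (Finset V)), A ⊆ J → ∀ Y ∈ shadow A, ∃ X ∈ A, Y ⊆ X ∧ #Y + 1 = c :=
    fun A hA Y hY => by
      obtain ⟨X, h1, h2, h3⟩ := mem_shadow_iff_exists_mem_card_add_one.1 hY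
      exact ⟨X, h1, h2, h3.symm.trans (hJ X (hA h1))⟩
  have h1 := wsplit_gen F F Subset.rfl (fun B => shadow (ins J B)) (shadow J)
    {Y ∈ shadow (dust J F) | ∀ B ∈ F, ¬Y ⊆ B} (fun B _ Y hY => by
      obtain ⟨X, h1, h2, -⟩ := h0 _ (filter_subset _ _) Y hY
      exact h2.trans (mem_filter.1 h1).2) (r * (c + j).choose j) (fun B hB => ?_)
    ((filter_subset _ _).trans (shadow_mono wsplit_sub)) fun Y hY => (mem_filter.1 hY).2
  · have h2 : #{Y ∈ shadow (dust J F) | ¬∀ B ∈ F, ¬Y ⊆ B} ≤ #(dust J F) * r := by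
      refine (card_le_card (t := (dust J F).biUnion fun X =>
        {B ∈ F | c ≤ #(X ∩ B) + 1}.image fun B => X ∩ B) fun Y hY => ?_).trans
        (card_biUnion_le_card_mul _ _ _ fun X hX => card_image_le.trans (hr X ?_ ?_).le)
      · obtain ⟨h2, h3⟩ := mem_filter.1 hY
        push Not at h3
        obtain ⟨B, h3, h4⟩ := h3
        obtain ⟨X, h5, h6, h7⟩ := h0 _ wsplit_sub Y h2
        have h8 := subset_inter h6 h4
        have h9 := card_lt_card (show X ∩ B ⊂ X from ⟨inter_subset_left, fun h =>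
          (wsplit_dust.1 h5).2 B h3 (h.trans inter_subset_right)⟩)
        rw [hJ X (wsplit_sub h5)] at h9
        have h10 := card_le_card h8
        exact mem_biUnion.2 ⟨X, h5, mem_image.2 ⟨B, mem_filter.2 ⟨h3, by omega⟩,
          (eq_of_subset_of_card_le h8 (by omega)).symm⟩⟩
      · exact (hJ X (wsplit_sub hX)).ge
      · exact (hJ X (wsplit_sub hX)).trans_le (Nat.le_add_right _ _)
    have h3 := card_filter_add_card_filter_not (s := shadow (dust J F)) fun Y => ∀ B ∈ F, ¬Y ⊆ B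
    rw [mul_comm] at h2
    omega
  have h1 := hF B hB
  refine (card_le_card (t := ({B' ∈ F | c ≤ #(B ∩ B') + 1}.erase B).biUnion
    fun B' => powersetCard (c - 1) (B ∩ B')) fun Y hY => ?_).trans
      ((card_biUnion_le_card_mul _ _ _ fun B' h => ?_).trans
        (Nat.mul_le_mul_right _ (card_erase_le.trans (hr B (by omega) h1.le).le)))
  · obtain ⟨h2, h3 | ⟨B', h3, h4, h5⟩⟩ := mem_filter.1 hY
    · exact absurd (shadow_mono (filter_subset _ _) h2) h3
    · obtain ⟨X, h6, h7, h8⟩ := h0 _ (filter_subset _ _) Y h2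
      have h9 := subset_inter (h7.trans (mem_filter.1 h6).2) h5
      have h10 := card_le_card h9
      exact mem_biUnion.2 ⟨B', mem_erase.2 ⟨h4, mem_filter.2 ⟨h3, by omega⟩⟩,
        mem_powersetCard.2 ⟨h9, by omega⟩⟩
  · have h2 := hF B' (mem_filter.1 (mem_of_mem_erase h)).1
    have h3 := card_lt_card (show B ∩ B' ⊂ B from ⟨inter_subset_left, fun h' =>
      ne_of_mem_erase h (eq_of_subset_of_card_le (h'.trans inter_subset_right) (by omega)).symm⟩)
    obtain ⟨c, rfl⟩ : ∃ c', c = c' + 1 := ⟨c - 1, by omega⟩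
    rw [card_powersetCard, Nat.add_sub_cancel]
    refine (Nat.choose_le_choose c (by omega : _ ≤ c + j)).trans ?_
    rw [Nat.choose_symm_add]
    exact Nat.choose_le_choose j (by omega)

theorem card_le_dust (J F : Finset (Finset V)) :
    #J ≤ ∑ B ∈ F, #(ins J B) + #(dust J F) := by
  refine (card_le_card (t := F.biUnion (ins J) ∪ dust J F) fun X hX => ?_).trans
    ((card_union_le _ _).trans (Nat.add_le_add_right card_biUnion_le _))
  by_cases h : ∀ B ∈ F, ¬X ⊆ B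
  · exact mem_union_right _ (wsplit_dust.2 ⟨hX, h⟩)
  · push Not at h
    obtain ⟨B, h1, h2⟩ := h
    exact mem_union_left _ (mem_biUnion.2 ⟨B, h1, mem_filter.2 ⟨hX, h2⟩⟩)

end Pool.Agent.P.MP_4f3dfd_co.Win
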