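import Pool.Agent.P.MP_4f3dfd_co.WPk
import Pool.Agent.P.MP_4f3dfd_co.WKK
import Pool.Agent.P.MP_4f3dfd_co.WCore
import Pool.Agent.P.MP_4f3dfd_co.WSplit

set_option autoImplicit false
set_option linter.unusedSectionVars false
set_option linter.unusedVariables false

namespace Pool.Agent.P.MP_4f3dfd_co.Win

open Finset Pool.Agent.P.MP_4f3dfd_co.Asy Pool.Agent.P.MP_4f3dfd_co.Off

theorem wlowfin_dust {V : Type*} [DecidableEq V] {J F : Finset (Finset V)} {X : Finset V}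
    (h : X ∈ dust J F) : X ∈ J ∧ ∀ B ∈ F, ¬X ⊆ B := mem_filter.1 h

/-- The dust has almost the shadow of cliques of the previous level. -/
theorem dust_ge {n c j m d e s₁ s₂ x : ℕ} (hj : 1 ≤ j) {J : Finset (Finset (Fin n))}
    (hJ : Rg c m d J) (hde : d + e = m) (hc : 2 * j + 2 ≤ c) (hn : c + 3 * j + 2 ≤ n)
    (hnum : 2 * (j + 1) ^ 2 * ((j + 2) * min d e) * j.factorial ^ 2 < s₂ * (s₁ + s₂) ^ j)
    (hx : 2 * (x + 1) < s₁) (hxn : x + j ≤ n) :
    c * #(dust J (big c j ((x + j).choose j + 1) J)) ≤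
      j * #(shadow (dust J (big c j ((x + j).choose j + 1) J))) +
        (j + s₁ + s₂) * #(dust J (big c j ((x + j).choose j + 1) J)) := by
  refine peel _ (fun X hX => hJ.sz X (wlowfin_dust hX).1) fun H hH hne => ?_
  by_contra hcon
  push Not at hcon
  obtain ⟨X₀, h₀⟩ := hne
  have hHJ : H ⊆ J := fun X hX => (wlowfin_dust (hH hX)).1
  have hX₀ : #X₀ = c := hJ.sz _ (hHJ h₀)
  have hl := loc (ρ := j + 1) hJ hde X₀ (by omega) (by rw [Fintype.card_fin]; omega)
  obtain ⟨B, hB, hb⟩ := core (Λ := (j + 2) * min d e) hj H (fun X hX => hJ.sz X (hHJ hX)) h₀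
    (fun X hX => (hcon X hX).le) (le_trans (card_le_card fun X hX => by
      obtain ⟨h1, h2⟩ := mem_filter.1 hX
      refine mem_filter.2 ⟨hHJ h1, ?_, h2.le⟩
      rw [card_sdiff_comm (hX₀.trans (hJ.sz X (hHJ h1)).symm)]
      exact h2.le) hl) hnum hx hxn
  have hbig : B ∈ big c j ((x + j).choose j + 1) J := by
    refine mem_filter.2 ⟨mem_powersetCard.2 ⟨subset_univ _, hB⟩, ?_⟩
    exact le_trans hb (card_le_card (filter_subset_filter _ hHJ))
  obtain ⟨X, hX⟩ := card_pos.1 (lt_of_le_of_lt (Nat.zero_le _) hb)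
  obtain ⟨h1, h2⟩ := mem_filter.1 hX
  exact (wlowfin_dust (hH h1)).2 B hbig h2

theorem wlowfin_sum {α : Type*} [DecidableEq α] {P F : Finset α} (h : F ⊆ P) (p : α → Prop)
    [DecidablePred p] (f : α → ℝ) :
    ∑ B ∈ P with p B, (if B ∈ F then f B else 0) = ∑ B ∈ F with p B, f B := by
  rw [sum_ite_mem]
  congr 1
  ext B
  simp only [mem_inter, mem_filter]
  exact ⟨fun h1 => ⟨h1.2, h1.1.2⟩, fun h1 => ⟨⟨h h1.1, h1.2⟩, h1.1⟩⟩

theorem wlowfin_priv {n c j b r w : ℕ} {J : Finset (Finset (Fin n))} (hJ : ∀ X ∈ J, #X = c)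
    (hr : ∀ A : Finset (Fin n), c ≤ #A → #A ≤ c + j →
      #{B ∈ big c j b J | c ≤ #(A ∩ B) + 1} < r)
    {θ : ℝ} (h0 : 0 < θ) (hu : ((r : ℝ) + 1) * (c + j - 1).choose c ≤ θ * b)
    (hw : w ≤ (c + j - 1).choose c) (F' : Finset (Finset (Fin n))) (hF' : F' ⊆ big c j b J)
    (G : Finset (Finset (Fin n))) (hG : ∀ B ∈ F', #(ins J B \ G) ≤ w) :
    (1 - θ) * ∑ B ∈ F', (#(ins J B) : ℝ) ≤ #G := by
  have h1 := priv hJ (fun B hB => (mem_powersetCard.1 (mem_filter.1 hB).1).2) hr F' hF' G hG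
  have h2 : (∑ B ∈ F', (#(ins J B) : ℝ)) ≤
      #G + #F' * (w + r * ((c + j - 1).choose c : ℝ)) := by exact_mod_cast h1
  have h3 : (#F' : ℝ) * b ≤ ∑ B ∈ F', (#(ins J B) : ℝ) := by
    rw [← nsmul_eq_mul]
    exact card_nsmul_le_sum _ _ _ fun B hB => by exact_mod_cast (mem_filter.1 (hF' hB)).2
  have h4 : (w : ℝ) ≤ (c + j - 1).choose c := by exact_mod_cast hw
  have h5 : (#F' : ℝ) * (w + r * ((c + j - 1).choose c : ℝ)) ≤ #F' * (θ * b) :=
    mul_le_mul_of_nonneg_left (by linarith) (Nat.cast_nonneg _)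
  have h6 := mul_le_mul_of_nonneg_left h3 h0.le
  linarith

/-- The lower bound with explicit parameters. -/
theorem lower_fin {n c j m d e b r s : ℕ} (hj : 1 ≤ j) {J : Finset (Finset (Fin n))}
    (hJ : Rg c m d J) (hde : d + e = m) (hc : 2 * j + 2 ≤ c) (hn : c + 3 * j + 2 ≤ n)
    (hr : (2 * j + 2) * min d e + r ^ 2 * (c + j - 1).choose c < r * b)
    (hD : c * #(dust J (big c j b J)) ≤
      j * #(shadow (dust J (big c j b J))) + s * #(dust J (big c j b J)))
    {θ : ℝ} (h0 : 0 < θ) (h1 : θ ≤ 1 / 2) (hs : (s : ℝ) + j * r ≤ θ * c)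
    (hu : ((r : ℝ) + 1) * (c + j - 1).choose c ≤ θ * b)
    (hw : (r : ℝ) * (c + j).choose j + (c + j).choose (j + 1) * ((j + 2) / c) ≤ θ * c * b) :
    ∃ t, Pk n c j d e t ∧ Phi c m j (val n c j t) ≤ #(shadow J) + 5 * θ * (c * m) := by
  have hnear := near (b := b) (r := r) hJ hde hc (by rw [Fintype.card_fin]; exact hn) hr
  set F := big c j b J with hF
  set U : ℝ := ((c + j).choose j : ℝ) with hU
  set W : ℝ := ((c + j).choose (j + 1) : ℝ) with hW
  have hFP : F ⊆ powersetCard (c + j) univ := filter_subset _ _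
  have hFc : ∀ B ∈ F, #B = c + j := fun B hB => (mem_powersetCard.1 (hFP hB)).2
  have hU0 : 0 < U := by rw [hU]; exact_mod_cast Nat.choose_pos (by omega)
  have hW0 : 0 ≤ W := Nat.cast_nonneg _
  have hj0 : (1 : ℝ) ≤ j := by exact_mod_cast hj
  have hc0 : (0 : ℝ) < c := by exact_mod_cast (by omega : 0 < c)
  have hWU : W * (j + 1) = U * c := W_eq c j
  have hle : ∀ B ∈ F, (#(ins J B) : ℝ) ≤ U := fun B hB => by
    have : #(ins J B) ≤ (c + j).choose j := by
      rw [← Nat.choose_symm_add, ← hFc B hB, ← card_powersetCard]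
      exact card_le_card fun X hX =>
        mem_powersetCard.2 ⟨(mem_filter.1 hX).2, hJ.sz X (mem_filter.1 hX).1⟩
    rw [hU]; exact_mod_cast this
  have hfr : ∀ B ∈ F, (#(ins J B) : ℝ) / U ≤ 1 := fun B hB => (div_le_one hU0).2 (hle B hB)
  have hfr0 : ∀ B, 0 ≤ (#(ins J B) : ℝ) / U := fun B => div_nonneg (Nat.cast_nonneg _) hU0.le
  have hmul : ∀ F' : Finset (Finset (Fin n)),
      U * ∑ B ∈ F', (1 - θ) * ((#(ins J B) : ℝ) / U) = (1 - θ) * ∑ B ∈ F', (#(ins J B) : ℝ) := by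
    intro F'
    rw [mul_sum, mul_sum]
    exact sum_congr rfl fun B _ => by field_simp
  refine ⟨fun B => if B ∈ F then (1 - θ) * ((#(ins J B) : ℝ) / U) else 0,
    ⟨fun B => ?_, fun v => ⟨?_, ?_⟩⟩, ?_⟩
  · dsimp only
    split_ifs with hB
    · exact ⟨mul_nonneg (by linarith) (hfr0 B),
        mul_le_one₀ (by linarith) (hfr0 B) (hfr B hB)⟩
    · exact ⟨le_rfl, zero_le_one⟩
  · rw [wlowfin_sum hFP, hmul, ← hJ.dg v]
    refine wlowfin_priv hJ.sz hnear h0 hu le_rfl _ (filter_subset _ _) _ fun B hB => ?_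
    obtain ⟨b1, b2⟩ := mem_filter.1 hB
    refine le_trans (card_le_card fun X hX => ?_) (ins_avoid hJ.sz (hFc B b1) b2)
    obtain ⟨x1, x2⟩ := mem_sdiff.1 hX
    exact mem_filter.2 ⟨x1, fun hv => x2 (mem_filter.2 ⟨(mem_filter.1 x1).1, hv⟩)⟩
  · have he : #{X ∈ J | v ∉ X} = e := by
      have := card_filter_add_card_filter_not (s := J) (fun X => v ∈ X)
      rw [hJ.dg v, hJ.cd] at this
      omega
    rw [wlowfin_sum hFP, hmul, ← he]
    refine wlowfin_priv (w := 0) hJ.sz hnear h0 hu (Nat.zero_le _) _ (filter_subset _ _) _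
      fun B hB => ?_
    obtain ⟨b1, b2⟩ := mem_filter.1 hB
    rw [Nat.le_zero, card_eq_zero, sdiff_eq_empty_iff_subset]
    exact fun X hX => mem_filter.2 ⟨(mem_filter.1 hX).1, fun hv => b2 ((mem_filter.1 hX).2 hv)⟩
  have hval : val n c j (fun B => if B ∈ F then (1 - θ) * ((#(ins J B) : ℝ) / U) else 0) =
      ∑ B ∈ F, ph j ((1 - θ) * ((#(ins J B) : ℝ) / U)) := by
    have := wlowfin_sum hFP (fun _ => True) fun B => ph j ((1 - θ) * ((#(ins J B) : ℝ) / U))
    rw [filter_true, filter_true] at this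
    rw [← this, val]
    refine sum_congr rfl fun B _ => ?_
    split_ifs
    · rfl
    · exact ph_zero j
  rw [hval, Phi, ← hW]
  set S : ℝ := ∑ B ∈ F, (#(ins J B) : ℝ) with hS
  set T : ℝ := ∑ B ∈ F, ph j ((1 - θ) * ((#(ins J B) : ℝ) / U)) with hT
  have hS0 : 0 ≤ S := sum_nonneg fun _ _ => Nat.cast_nonneg _
  have a1 : (1 - θ) * S ≤ m := by
    rw [← hJ.cd]
    refine wlowfin_priv (w := 0) hJ.sz hnear h0 hu (Nat.zero_le _) _ subset_rfl _ fun B _ => ?_
    rw [Nat.le_zero, card_eq_zero, sdiff_eq_empty_iff_subset]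
    exact filter_subset _ _
  have a2 : S ≤ 2 * m := by
    have := mul_le_mul_of_nonneg_right h1 hS0
    linarith
  have a3 : (#F : ℝ) * b ≤ S := by
    rw [← nsmul_eq_mul]
    exact card_nsmul_le_sum _ _ _ fun B hB => by exact_mod_cast (mem_filter.1 hB).2
  have a4 : (∑ B ∈ F, (#(shadow (ins J B)) : ℝ)) + #(shadow (dust J F)) ≤
      #(shadow J) + #F * (r * U) + r * #(dust J F) := by
    rw [hU]; exact_mod_cast split (by omega) hJ.sz hFc hnear
  have a5 : (m : ℝ) ≤ S + #(dust J F) := by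
    rw [← hJ.cd, hS]; exact_mod_cast card_le_dust J F
  have a6 : (#(dust J F) : ℝ) ≤ m := by
    rw [← hJ.cd]; exact_mod_cast card_le_card fun X hX => (wlowfin_dust hX).1
  have a7 : (c : ℝ) * #(dust J F) ≤ j * #(shadow (dust J F)) + s * #(dust J F) := by
    exact_mod_cast hD
  have a8 : ∀ B ∈ F, c / j * (#(ins J B) : ℝ) - W * ph j ((1 - θ) * ((#(ins J B) : ℝ) / U)) -
      θ * c * (#(ins J B) : ℝ) - W * ((j + 2) / c) ≤ #(shadow (ins J B)) := by
    intro B hB
    have k1 := kkb hj (by omega) B (hFc B hB) (ins J B)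
      fun X hX => ⟨hJ.sz X (mem_filter.1 hX).1, (mem_filter.1 hX).2⟩
    rw [← hW, ← hU, ps_eq] at k1
    have f0 := hfr0 B
    have k2 := ph_lip hj (s := (1 - θ) * ((#(ins J B) : ℝ) / U))
      (by have := mul_nonneg h0.le f0; linarith only [this]) (hfr B hB)
    have k3 : W * ((1 + 1 / (j : ℝ)) * ((#(ins J B) : ℝ) / U)) = c / j * (#(ins J B) : ℝ) := by
      have : W = U * c / (j + 1) := by rw [← hWU]; field_simp
      rw [this]; field_simp
    have k4 : W * (2 * ((#(ins J B) : ℝ) / U)) ≤ c * (#(ins J B) : ℝ) := by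
      have e1 : c * (#(ins J B) : ℝ) = W * (j + 1) * ((#(ins J B) : ℝ) / U) := by
        rw [hWU]; field_simp
      rw [e1]
      have := mul_le_mul_of_nonneg_left hj0 (mul_nonneg hW0 f0)
      linarith only [this]
    have k5 := mul_le_mul_of_nonneg_left k2 hW0
    have k6 := mul_le_mul_of_nonneg_left k4 h0.le
    linarith only [k1, k3, k5, k6]
  have a9 := sum_le_sum a8
  simp only [sum_sub_distrib, ← mul_sum, sum_const, nsmul_eq_mul] at a9
  rw [← hS, ← hT] at a9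
  have hD0 : (0 : ℝ) ≤ #(dust J F) := Nat.cast_nonneg _
  have hj1 : (0 : ℝ) < j := by linarith only [h0, h1, hj0]
  have hθc : 0 ≤ θ * c := by positivity
  have b1 : c / j * (#(dust J F) : ℝ) - θ * c * #(dust J F) ≤
      #(shadow (dust J F)) - r * #(dust J F) := by
    refine le_of_mul_le_mul_left ?_ hj1
    have e1 : (j : ℝ) * (c / j * (#(dust J F) : ℝ)) = c * #(dust J F) := by field_simp
    have e2 := mul_le_mul_of_nonneg_right hs hD0
    have e3 : θ * c * #(dust J F) ≤ j * (θ * c * #(dust J F)) :=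
      le_mul_of_one_le_left (mul_nonneg hθc hD0) hj0
    linarith only [a7, e1, e2, e3]
  have b2 : (#F : ℝ) * (r * U + W * ((j + 2) / c)) ≤ θ * c * S := by
    have := mul_le_mul_of_nonneg_left hw (Nat.cast_nonneg (α := ℝ) #F)
    have := mul_le_mul_of_nonneg_left a3 hθc
    linarith
  have b3 : (c : ℝ) * m / j ≤ c / j * S + c / j * #(dust J F) := by
    have := mul_le_mul_of_nonneg_left a5 (div_nonneg hc0.le hj1.le)
    rw [mul_div_right_comm]
    linarith only [this]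
  have b4 := mul_le_mul_of_nonneg_left a2 hθc
  have b5 := mul_le_mul_of_nonneg_left a6 hθc
  linarith only [a4, a9, b1, b2, b3, b4, b5]

end Pool.Agent.P.MP_4f3dfd_co.Win
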