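import Pool.Agent.P.MP_4f3dfd_co.WDefs

set_option autoImplicit false
set_option linter.unusedSectionVars false
set_option linter.unusedVariables false

namespace Pool.Agent.P.MP_4f3dfd_co.Win

open Finset Pool.Agent.P.MP_4f3dfd_co.Asy Pool.Agent.P.MP_4f3dfd_co.Off

theorem wlownum_sq {L M U C : ℝ} (hL : 0 ≤ L) (hM : 0 ≤ M) (hU : 0 ≤ U) (hC : L ^ 2 ≤ C)
    (h : M ^ 2 ≤ U ^ 2 * C) : L * M ≤ U * C := by
  have hC0 : 0 ≤ C := (sq_nonneg L).trans hC
  rw [← pow_le_pow_iff_left₀ (by positivity) (by positivity) two_ne_zero]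
  calc (L * M) ^ 2 = L ^ 2 * M ^ 2 := by ring
    _ ≤ C * (U ^ 2 * C) := mul_le_mul hC h (sq_nonneg M) hC0
    _ = (U * C) ^ 2 := by ring

theorem wlownum_floor {y : ℝ} (hy : 2 ≤ y) :
    y / 2 ≤ (⌊y⌋₊ : ℝ) ∧ y - 1 < (⌊y⌋₊ : ℝ) ∧ (⌊y⌋₊ : ℝ) ≤ y := by
  have h1 := Nat.lt_floor_add_one y
  exact ⟨by linarith, by linarith, Nat.floor_le (by linarith)⟩

/-- The choice of the parameters of the lower bound. -/
theorem low_num {j : ℕ} (hj : 1 ≤ j) {θ : ℝ} (h0 : 0 < θ) (h1 : θ ≤ 1 / 2) : ∃ K : ℕ,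
    ∀ c M : ℕ, K ≤ c → M ^ 2 ≤ (c + j).choose j ^ 2 * c → ∃ s₁ s₂ x r : ℕ,
      2 * (j + 1) ^ 2 * ((j + 2) * M) * j.factorial ^ 2 < s₂ * (s₁ + s₂) ^ j ∧
      2 * (x + 1) < s₁ ∧ x ≤ c ∧
      (2 * j + 2) * M + r ^ 2 * (c + j - 1).choose c < r * ((x + j).choose j + 1) ∧
      ((j + s₁ + s₂ : ℕ) : ℝ) + j * r ≤ θ * c ∧
      ((r : ℝ) + 1) * (c + j - 1).choose c ≤ θ * ((x + j).choose j + 1 : ℕ) ∧
      (r : ℝ) * (c + j).choose j + (c + j).choose (j + 1) * ((j + 2) / c) ≤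
        θ * c * ((x + j).choose j + 1 : ℕ) := by
  have hj1 : (1 : ℝ) ≤ j := by exact_mod_cast hj
  obtain ⟨η, hη⟩ : ∃ η : ℝ, η = (θ / 32) ^ j := ⟨_, rfl⟩
  have hη0 : 0 < η := by rw [hη]; positivity
  have hη1 : η ≤ 1 := by rw [hη]; exact pow_le_one₀ (by positivity) (by linarith)
  obtain ⟨κ, hκ⟩ : ∃ κ : ℝ, κ = θ * η / (8 * j) := ⟨_, rfl⟩
  have hκ0 : 0 < κ := by rw [hκ]; positivity
  have hκj : κ * j = θ * η / 8 := by rw [hκ]; field_simp
  obtain ⟨τ, hτ⟩ : ∃ τ : ℝ, τ = (θ / 8) ^ (j + 1) := ⟨_, rfl⟩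
  have hτ0 : 0 < τ := by rw [hτ]; positivity
  obtain ⟨A, hA⟩ : ∃ A : ℝ, A = 2 * (j + 1) ^ 2 * (j + 2) * (j.factorial : ℝ) ^ 2 := ⟨_, rfl⟩
  have hA0 : 0 ≤ A := by rw [hA]; positivity
  obtain ⟨L1, hL1⟩ : ∃ L : ℝ, L = 2 * A * 2 ^ j / τ := ⟨_, rfl⟩
  have hL10 : 0 ≤ L1 := by rw [hL1]; positivity
  obtain ⟨L2, hL2⟩ : ∃ L : ℝ, L = 8 * (2 * j + 2) / (κ * η) := ⟨_, rfl⟩
  have hL20 : 0 ≤ L2 := by rw [hL2]; positivity
  refine ⟨⌈32 * j / θ + 2 / κ + L1 ^ 2 + L2 ^ 2⌉₊, ?_⟩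
  intro c M hK hM
  have hK' : 32 * j / θ + 2 / κ + L1 ^ 2 + L2 ^ 2 ≤ (c : ℝ) := Nat.ceil_le.1 hK
  have p1 : 0 < 32 * j / θ := by positivity
  have p2 : 0 < 2 / κ := by positivity
  have p3 := sq_nonneg L1
  have p4 := sq_nonneg L2
  have hC0 : (0 : ℝ) < c := by linarith only [hK', p1, p2, p3, p4]
  have hθC : 32 * j ≤ θ * c := by
    have : 32 * j / θ ≤ (c : ℝ) := by linarith only [hK', p2, p3, p4]
    rw [div_le_iff₀ h0] at this
    linarith only [this]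
  have hκC : 2 ≤ κ * c := by
    have : 2 / κ ≤ (c : ℝ) := by linarith
    rw [div_le_iff₀ hκ0] at this
    linarith only [this]
  have hθc : θ * c ≤ c / 2 := by
    have := mul_le_mul_of_nonneg_right h1 hC0.le
    linarith only [this]
  obtain ⟨s1, s2, s3⟩ := wlownum_floor (y := θ * c / 4) (by linarith only [h0, h1, hj1, hθC])
  obtain ⟨x1, x2, x3⟩ := wlownum_floor (y := θ * c / 16) (by linarith only [hj1, hθC])
  obtain ⟨r1, r2, r3⟩ := wlownum_floor hκC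
  generalize ⌊θ * c / 4⌋₊ = s at s1 s2 s3
  generalize ⌊θ * c / 16⌋₊ = x at x1 x2 x3
  generalize ⌊κ * c⌋₊ = r at r1 r2 r3
  have hxc : x ≤ c := by
    have : (x : ℝ) ≤ c := by linarith only [h0, h1, hj1, hθC, hθc, x3]
    exact_mod_cast this
  have hM' : (M : ℝ) ^ 2 ≤ ((c + j).choose j : ℝ) ^ 2 * c := by exact_mod_cast hM
  have hsc : (((c + j).choose j : ℝ)) * (x : ℝ) ^ j ≤ ((x + j).choose j : ℝ) * (c : ℝ) ^ j := by
    exact_mod_cast choose_scale hxc j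
  have hUp : (((c + j).choose j : ℝ)) ≤ 2 ^ j * (c : ℝ) ^ j := by
    have h2 : (((c + j).choose j : ℝ)) ≤ ((c : ℝ) + j) ^ j := by
      exact_mod_cast Nat.choose_le_pow (c + j) j
    rw [← mul_pow]
    exact h2.trans (pow_le_pow_left₀ (by positivity) (by linarith only [h0, h1, hj1, hθC, hθc]) j)
  have hU0 : (0 : ℝ) < (c + j).choose j := by
    exact_mod_cast Nat.choose_pos (Nat.le_add_left j c)
  have hW := W_eq c j
  have hu := u_eq c j hj
  have hu0 : (0 : ℝ) ≤ (c + j - 1).choose c := Nat.cast_nonneg _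
  have hW0 : (0 : ℝ) ≤ (c + j).choose (j + 1) := Nat.cast_nonneg _
  have hM0 : (0 : ℝ) ≤ M := Nat.cast_nonneg _
  have hr0 : (0 : ℝ) ≤ r := Nat.cast_nonneg _
  have m1 := wlownum_sq hL10 hM0 hU0.le (by linarith only [hK', p1, p2, p4]) hM'
  have m2 := wlownum_sq hL20 hM0 hU0.le (by linarith only [hK', p1, p2, p3]) hM'
  have hb : η * ((c + j).choose j : ℝ) ≤ (x + j).choose j := by
    have h2 : η * (c : ℝ) ^ j ≤ (x : ℝ) ^ j := by
      rw [hη, ← mul_pow]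
      exact pow_le_pow_left₀ (by positivity) (by linarith only [hj1, hθC, x2]) j
    have h3 := mul_le_mul_of_nonneg_left h2 hU0.le
    have h4 : η * ((c + j).choose j : ℝ) * (c : ℝ) ^ j ≤ (x + j).choose j * (c : ℝ) ^ j := by
      linarith only [hsc, h3]
    exact le_of_mul_le_mul_right h4 (by positivity)
  have g1 : 2 * (j + 1) ^ 2 * ((j + 2) * M) * j.factorial ^ 2 < s * (s + s) ^ j := by
    have h2 : τ * (c : ℝ) ^ (j + 1) ≤ (s : ℝ) * ((s : ℝ) + s) ^ j := by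
      rw [hτ, ← mul_pow, pow_succ']
      exact mul_le_mul (by linarith only [h0, h1, hj1, hθC, s2]) (pow_le_pow_left₀ (by positivity) (by linarith only [h0, h1, hj1, hθC, s2]) j)
        (by positivity) (Nat.cast_nonneg _)
    have h3 : L1 * M ≤ 2 ^ j * (c : ℝ) ^ (j + 1) := by
      have := mul_le_mul_of_nonneg_right hUp hC0.le
      rw [pow_succ]
      linarith only [m1, this]
    have h4 : 2 * A * M * 2 ^ j ≤ τ * (c : ℝ) ^ (j + 1) * 2 ^ j := by
      have h5 := mul_le_mul_of_nonneg_left h3 hτ0.le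
      have h6 : τ * L1 = 2 * A * 2 ^ j := by rw [hL1]; field_simp
      calc 2 * A * M * 2 ^ j = τ * L1 * M := by rw [h6]; ring
        _ ≤ _ := by linarith only [h5]
    have h5 := le_of_mul_le_mul_right h4 (by positivity)
    have h6 : 0 < τ * (c : ℝ) ^ (j + 1) := by positivity
    have h7 : (2 * ((j : ℝ) + 1) ^ 2 * ((j + 2) * M) * (j.factorial : ℝ) ^ 2) <
        (s : ℝ) * ((s : ℝ) + s) ^ j := by
      have : 2 * ((j : ℝ) + 1) ^ 2 * ((j + 2) * M) * (j.factorial : ℝ) ^ 2 = A * M := by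
        rw [hA]; ring
      linarith only [h2, h5, h6, this]
    exact_mod_cast h7
  generalize hUe : (((c + j).choose j : ℕ) : ℝ) = U at *
  generalize hWe : (((c + j).choose (j + 1) : ℕ) : ℝ) = W at *
  have huC : ((c + j - 1).choose c : ℝ) * c ≤ U * j := by
    have := mul_nonneg hu0 (by linarith only [h0, h1, hj1] : (0 : ℝ) ≤ j)
    linarith only [hu, this]
  have hκu : κ * c * ((c + j - 1).choose c : ℝ) ≤ θ * (η * U) / 8 := by
    have h2 := mul_le_mul_of_nonneg_left huC hκ0.le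
    have h3 : κ * (U * j) = θ * (η * U) / 8 := by
      calc κ * (U * j) = κ * j * U := by ring
        _ = _ := by rw [hκj]; ring
    linarith only [h2, h3]
  have hru : (r : ℝ) * ((c + j - 1).choose c : ℝ) ≤ θ * (η * U) / 8 :=
    (mul_le_mul_of_nonneg_right r3 hu0).trans hκu
  have h2u : 2 * ((c + j - 1).choose c : ℝ) ≤ θ * (η * U) / 8 :=
    (mul_le_mul_of_nonneg_right hκC hu0).trans hκu
  have hηU : 0 < η * U := by positivity
  have hθb : θ * (η * U) ≤ θ * ((x + j).choose j : ℝ) := mul_le_mul_of_nonneg_left hb h0.le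
  refine ⟨s, s, x, r, g1, ?_, hxc, ?_, ?_, ?_, ?_⟩
  · have : 2 * ((x : ℝ) + 1) < s := by linarith only [h0, h1, hj1, hθC, s2, x3]
    exact_mod_cast this
  · have h2 : θ * (η * U) ≤ 1 / 2 * (η * U) := mul_le_mul_of_nonneg_right h1 hηU.le
    have h3 : (r : ℝ) * ((c + j - 1).choose c : ℝ) ≤ ((x + j).choose j : ℝ) / 2 := by linarith only [hb, hru, hηU, h2]
    have h4 := mul_le_mul_of_nonneg_left h3 hr0
    have h5 : κ * η * L2 = 8 * (2 * j + 2) := by rw [hL2]; field_simp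
    have h6 := mul_le_mul_of_nonneg_left m2 (mul_pos hκ0 hη0).le
    have h7 : 8 * ((2 * (j : ℝ) + 2) * M) ≤ κ * c * (η * U) := by
      calc 8 * ((2 * (j : ℝ) + 2) * M) = κ * η * L2 * M := by rw [h5]; ring
        _ ≤ _ := by linarith only [h6]
    have h8 : κ * c / 2 * (η * U) ≤ r * ((x + j).choose j : ℝ) :=
      mul_le_mul r1 hb hηU.le hr0
    have h9 : 0 < κ * c * (η * U) := by positivity
    have h10 : (2 * (j : ℝ) + 2) * M + (r : ℝ) ^ 2 * ((c + j - 1).choose c : ℝ) <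
        r * (((x + j).choose j : ℝ) + 1) := by
      have e1 : (r : ℝ) ^ 2 * ((c + j - 1).choose c : ℝ) =
          r * (r * ((c + j - 1).choose c : ℝ)) := by ring
      rw [e1]
      linarith only [h0, h1, hκC, r2, h4, h7, h8, h9]
    exact_mod_cast h10
  · have h2 := mul_le_mul_of_nonneg_left r3 (by linarith only [h0, h1, hj1] : (0 : ℝ) ≤ j)
    have h3 : (j : ℝ) * (κ * c) = η * (θ * c) / 8 := by
      calc (j : ℝ) * (κ * c) = κ * j * c := by ring
        _ = _ := by rw [hκj]; ring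
    have h4 : η * (θ * c) ≤ 1 * (θ * c) := mul_le_mul_of_nonneg_right hη1 (by positivity)
    push_cast
    linarith only [h0, h1, hj1, hθC, s3, h2, h3, h4]
  · have h2 : 0 < θ * (η * U) := by positivity
    push_cast
    linarith only [h0, hru, h2u, hθb, h2]
  · have h2 : W * ((j + 2) / c) ≤ 2 * U := by
      rw [← mul_div_assoc, div_le_iff₀ hC0]
      have := mul_nonneg hW0 (by linarith only [h0, h1, hj1] : (0 : ℝ) ≤ j)
      linarith only [hW, this]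
    have h3 : κ ≤ θ * η / 8 := by
      have := mul_le_mul_of_nonneg_left hj1 hκ0.le
      linarith only [hκj, this]
    have h4 := mul_le_mul_of_nonneg_right h3 (mul_pos hC0 hU0).le
    have h5 := mul_le_mul_of_nonneg_right r3 hU0.le
    have h6 := mul_le_mul_of_nonneg_right hκC hU0.le
    have h7 := mul_le_mul_of_nonneg_left hθb hC0.le
    have h8 : 0 < θ * c := by positivity
    have h9 := mul_pos hκ0 (mul_pos hC0 hU0)
    push_cast
    linarith only [h0, h1, hj1, hθC, hU0, h2, h4, h5, h6, h7]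

end Pool.Agent.P.MP_4f3dfd_co.Win
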