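import Pool.Agent.P.MP_4f3dfd_co.WPk
import Pool.Agent.P.MP_4f3dfd_co.WFin
import Pool.Agent.P.MP_4f3dfd_co.WDust

set_option autoImplicit false
set_option linter.unusedSectionVars false
set_option linter.unusedVariables false

namespace Pool.Agent.P.MP_4f3dfd_co.Win

open Finset Pool.Agent.P.MP_4f3dfd_co.Asy Pool.Agent.P.MP_4f3dfd_co.Off

theorem wmid_sum {n k : ℕ} (F : Finset (Finset (Fin n))) (hF : ∀ B ∈ F, #B = k)
    (f : Finset (Fin n) → ℝ) :
    ∑ v : Fin n, ∑ B ∈ F with v ∈ B, f B = k * ∑ B ∈ F, f B := by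
  simp_rw [sum_filter]
  rw [sum_comm, mul_sum]
  refine sum_congr rfl fun B hB => ?_
  rw [sum_ite_mem, univ_inter, sum_const, hF B hB, nsmul_eq_mul]

theorem wmid_union {n : ℕ} {F F' G G' : Finset (Finset (Fin n))} (h : Disjoint F F')
    (hG : G ⊆ F) (hG' : G' ⊆ F') (f : Finset (Fin n) → ℝ) (τ : ℝ) (g : ℝ → ℝ) :
    ∑ B ∈ G ∪ G', g (if B ∈ F then f B else τ) = ∑ B ∈ G, g (f B) + #G' * g τ := by
  rw [sum_union (h.mono hG hG')]
  congr 1
  · exact sum_congr rfl fun B hB => by rw [if_pos (hG hB)]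
  · rw [← nsmul_eq_mul, ← sum_const]
    exact sum_congr rfl fun B hB => by rw [if_neg (disjoint_right.1 h (hG' hB))]

theorem wmid_pow {n c j m : ℕ} {a L : ℝ} (ha : 0 < a) (h1 : c + j ≤ n) (h2 : L ≤ a * c)
    (h3 : a * m ≤ L * (c + j).choose j) : m ≤ n ^ (j + 1) := by
  have hU : (c + j).choose j ≤ n ^ j :=
    (Nat.choose_le_pow _ _).trans (Nat.pow_le_pow_left h1 j)
  have hU0 : (0 : ℝ) ≤ (c + j).choose j := Nat.cast_nonneg _
  have h4 : a * m ≤ a * (c * (c + j).choose j) := by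
    have := mul_le_mul_of_nonneg_right h2 hU0
    linarith
  have h5 : (m : ℝ) ≤ c * (c + j).choose j := le_of_mul_le_mul_left h4 ha
  have h6 : m ≤ c * (c + j).choose j := by exact_mod_cast h5
  calc m ≤ c * (c + j).choose j := h6
    _ ≤ n * n ^ j := Nat.mul_le_mul (by omega) hU
    _ = n ^ (j + 1) := by ring

theorem wmid_margin {δ b N x y w : ℝ} (hδ : 0 < δ) (hδ1 : δ ≤ 1) (hw : 0 ≤ w) (hN0 : 0 < N)
    (hN : 10 ≤ δ * b * N) (hx : b ≤ x) (hy : y ≤ x * N + 5) (hy0 : 0 ≤ y) :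
    b / 2 * (δ * w) ≤ x * w - (1 - δ) * w / N * y := by
  have h0 : 0 ≤ (1 - δ) * w / N := div_nonneg (mul_nonneg (by linarith) hw) hN0.le
  have h1 : (1 - δ) * w / N * y ≤ (1 - δ) * w / N * (x * N + 5) :=
    mul_le_mul_of_nonneg_left hy h0
  have h2 : (1 - δ) * w / N * (x * N + 5) = (1 - δ) * w * x + 5 * ((1 - δ) * w / N) := by
    field_simp
  have h3 : (1 - δ) * w / N ≤ δ * b * w / 10 := by
    rw [div_le_iff₀ hN0]
    have := mul_le_mul_of_nonneg_right hN hw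
    have h4 : 0 ≤ δ * w := mul_nonneg hδ.le hw
    nlinarith only [this, h4]
  have h5 : b * (δ * w) ≤ x * (δ * w) := mul_le_mul_of_nonneg_right hx (mul_nonneg hδ.le hw)
  nlinarith only [h1, h2, h3, h5]

/-- The upper bound in a window, `c / n` bounded away from `0` and `1`. -/
theorem up_mid {j : ℕ} (hj : 1 ≤ j) {a η L ε : ℝ} (ha : 0 < a) (hη : 0 < η) (hε : 0 < ε) :
    ∃ K : ℕ, ∀ n c m d e : ℕ, K ≤ c → a * n ≤ c → (c : ℝ) ≤ (1 - a) * n → c * m = d * n →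
    d + e = m → η * (c + j).choose j ≤ min (d : ℝ) e → min (d : ℝ) e ≤ L * (c + j).choose j →
    ∀ t, Pk n c j d e t → ∃ J : Finset (Finset (Fin n)), Rg c m d J ∧
      (#(shadow J) : ℝ) ≤ Phi c m j (val n c j t) + ε * (c * m) := by
  obtain ⟨δ, hδ0, hδ1, hδ2⟩ : ∃ δ : ℝ, 0 < δ ∧ δ ≤ 1 / 2 ∧ δ ≤ ε / 4 :=
    ⟨min (1 / 2) (ε / 4), lt_min (by norm_num) (by linarith), min_le_left _ _, min_le_right _ _⟩
  have hb0 : 0 < δ * a := mul_pos hδ0 ha
  obtain ⟨R, hR⟩ : ∃ R : ℕ, L ≤ a * δ * R := by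
    obtain ⟨R, hR⟩ := exists_nat_ge (L / (a * δ))
    exact ⟨R, by rw [div_le_iff₀ (mul_pos ha hδ0)] at hR; linarith⟩
  obtain ⟨N, hN1, hN2⟩ : ∃ N : ℕ, L ≤ a * N ∧ 10 ≤ δ * (δ * a) * N := by
    obtain ⟨N1, h1⟩ := exists_nat_ge (L / a)
    obtain ⟨N2, h2⟩ := exists_nat_ge (10 / (δ * (δ * a)))
    rw [div_le_iff₀ ha] at h1
    rw [div_le_iff₀ (mul_pos hδ0 hb0)] at h2
    refine ⟨N1 + N2, ?_, ?_⟩
    · have : 0 ≤ a * (N2 : ℝ) := mul_nonneg ha.le (Nat.cast_nonneg _)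
      push_cast; linarith
    · have : 0 ≤ δ * (δ * a) * (N1 : ℝ) := mul_nonneg (mul_pos hδ0 hb0).le (Nat.cast_nonneg _)
      push_cast; linarith
  obtain ⟨h, hh⟩ : ∃ h : ℕ, (j : ℝ) ≤ δ * h := by
    obtain ⟨h, hh⟩ := exists_nat_ge ((j : ℝ) / δ)
    exact ⟨h, by rw [div_le_iff₀ hδ0] at hh; linarith⟩
  have hN0 : (0 : ℝ) < N := by
    by_contra hc
    have : δ * (δ * a) * (N : ℝ) ≤ 0 :=
      mul_nonpos_of_nonneg_of_nonpos (mul_pos hδ0 hb0).le (not_lt.1 hc)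
    linarith
  have hN6 : 6 ≤ δ * a * N := by
    have : δ * (δ * a * N) ≤ 1 / 2 * (δ * a * N) :=
      mul_le_mul_of_nonneg_right hδ1 (mul_pos hb0 hN0).le
    linarith
  obtain ⟨K1, hK1⟩ := dust_sets R N (j + h) hN6
  obtain ⟨K2, hK2⟩ := finish hj (R + N) (j + 1) (β := δ * a / 2) (γ := δ * δ * η) (ε := 1)
    (by linarith) (mul_pos (mul_pos hδ0 hδ0) hη) one_pos
  obtain ⟨K3, hK3⟩ : ∃ K3 : ℕ, (j : ℝ) ≤ a * K3 := by
    obtain ⟨h, hh⟩ := exists_nat_ge ((j : ℝ) / a)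
    exact ⟨h, by rw [div_le_iff₀ ha] at hh; linarith⟩
  refine ⟨K1 + K2 + K3 + N + 1, fun n c m d e hK hc1 hc2 hcm hde hlo hhi t ht => ?_⟩
  have hc0 : (1 : ℝ) ≤ c := by exact_mod_cast (by omega : 1 ≤ c)
  have hn0' : (0 : ℝ) ≤ n := Nat.cast_nonneg _
  have han : 0 ≤ a * n := mul_nonneg ha.le hn0'
  have hcn : (c : ℝ) ≤ n := by linarith
  have hcn' : c ≤ n := by exact_mod_cast hcn
  have hn0 : (0 : ℝ) < n := by linarith
  have hn1 : 1 ≤ n := by omega
  have hcj : c + j ≤ n := by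
    have h1 : (K3 : ℝ) ≤ n := by exact_mod_cast (by omega : K3 ≤ n)
    have h2 : a * K3 ≤ a * n := mul_le_mul_of_nonneg_left h1 ha.le
    have h3 : (c : ℝ) + j ≤ n := by linarith
    exact_mod_cast h3
  have hLc : L ≤ a * c := by
    have h1 : (N : ℝ) ≤ c := by exact_mod_cast (by omega : N ≤ c)
    exact hN1.trans (mul_le_mul_of_nonneg_left h1 ha.le)
  have hcm' : (c : ℝ) * m = d * n := by exact_mod_cast hcm
  have hde' : (d : ℝ) + e = m := by exact_mod_cast hde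
  have hm0 : (0 : ℝ) ≤ m := Nat.cast_nonneg _
  have hd0 : (0 : ℝ) ≤ d := Nat.cast_nonneg _
  have he0 : (0 : ℝ) ≤ e := Nat.cast_nonneg _
  have hda : a * m ≤ d := by
    have h1 : a * n * m ≤ c * m := mul_le_mul_of_nonneg_right hc1 hm0
    have h2 : a * m * n ≤ d * n := by linarith
    exact le_of_mul_le_mul_right h2 hn0
  have hea : a * m ≤ e := by
    have h1 : (c : ℝ) * m ≤ (1 - a) * n * m := mul_le_mul_of_nonneg_right hc2 hm0
    have h3 : (e : ℝ) * n = m * n - d * n := by rw [← hde']; ring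
    have h2 : a * m * n ≤ e * n := by linarith
    exact le_of_mul_le_mul_right h2 hn0
  have hmL : a * m ≤ L * (c + j).choose j := (le_min hda hea).trans hhi
  have hmη : η * (c + j).choose j ≤ m := hlo.trans ((min_le_left _ _).trans (by linarith))
  have hmP := wmid_pow ha hcj hLc hmL
  have hW := W_eq c j
  have hU0 : (0 : ℝ) < (c + j).choose j := by
    exact_mod_cast Nat.choose_pos (by omega : j ≤ c + j)
  have hW0 : (0 : ℝ) ≤ (c + j).choose (j + 1) := Nat.cast_nonneg _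
  obtain ⟨F, hF1, hF2, hF3, -⟩ := ht.trim hj hn1 hδ0 hδ1
  set U : ℝ := ((c + j).choose j : ℝ) with hUdef
  set W : ℝ := ((c + j).choose (j + 1) : ℝ) with hWdef
  have hm1 : 0 < (m : ℝ) := lt_of_lt_of_le (mul_pos hη hU0) hmη
  have hsplit : ∀ v : Fin n, ∑ B ∈ F with v ∈ B, t B + ∑ B ∈ F with v ∉ B, t B = ∑ B ∈ F, t B :=
    fun v => sum_filter_add_sum_filter_not F (fun B => v ∈ B) t
  set T : ℝ := ∑ B ∈ F, t B with hTdef
  have hT0 : 0 ≤ T := sum_nonneg fun B _ => (ht.1 B).1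
  have hUT : U * T ≤ m := by
    have h1 := hF2 ⟨0, by omega⟩
    rw [← hsplit ⟨0, by omega⟩]
    linarith [h1.1, h1.2]
  have hUT0 : 0 ≤ U * T := mul_nonneg hU0.le hT0
  have hFR : #F ≤ R := by
    have h1 : (#F : ℝ) * δ ≤ T := by
      have := card_nsmul_le_sum F t δ fun B hB => (hF1 B hB).2
      rwa [nsmul_eq_mul] at this
    have h2 : a * (U * (#F * δ)) ≤ a * (U * T) :=
      mul_le_mul_of_nonneg_left (mul_le_mul_of_nonneg_left h1 hU0.le) ha.le
    have h3 : a * (U * T) ≤ a * m := mul_le_mul_of_nonneg_left hUT ha.le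
    have h4 : L * U ≤ a * δ * R * U := mul_le_mul_of_nonneg_right hR hU0.le
    have h5 : (#F : ℝ) * (a * δ * U) ≤ R * (a * δ * U) := by linarith
    have h6 := le_of_mul_le_mul_right h5 (mul_pos (mul_pos ha hδ0) hU0)
    exact_mod_cast h6
  obtain ⟨w, hw⟩ : ∃ w : ℝ, w = m - (1 - δ) * (U * T) := ⟨_, rfl⟩
  have hδT : (1 - δ) * (U * T) ≤ (1 - δ) * m := mul_le_mul_of_nonneg_left hUT (by linarith)
  have hδT0 : 0 ≤ (1 - δ) * (U * T) := mul_nonneg (by linarith) hUT0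
  have hw1 : δ * m ≤ w := by linarith
  have hw2 : w ≤ m := by linarith
  have hw0 : 0 < w := lt_of_lt_of_le (mul_pos hδ0 hm1) hw1
  obtain ⟨A, hA⟩ : ∃ A : Fin n → ℝ, ∀ v, A v = (d - (1 - δ) * (U * ∑ B ∈ F with v ∈ B, t B)) / w :=
    ⟨_, fun v => rfl⟩
  have hA1 : ∀ v, A v * w = d - (1 - δ) * (U * ∑ B ∈ F with v ∈ B, t B) := fun v => by
    rw [hA v, div_mul_cancel₀ _ hw0.ne']
  have hA2 : ∀ v, (1 - A v) * w = e - (1 - δ) * (U * ∑ B ∈ F with v ∉ B, t B) := fun v => by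
    have h1 := hA1 v
    have h2 : (1 - δ) * (U * T) = (1 - δ) * (U * ∑ B ∈ F with v ∈ B, t B) +
        (1 - δ) * (U * ∑ B ∈ F with v ∉ B, t B) := by rw [← hsplit v]; ring
    linarith only [hde', hw, h1, h2]
  have hbw : δ * a * w ≤ δ * (a * m) := by
    have := mul_le_mul_of_nonneg_left hw2 hb0.le
    linarith
  have hA3 : ∀ v, δ * a ≤ A v ∧ A v ≤ 1 - δ * a := fun v => by
    constructor
    · have h1 := mul_le_mul_of_nonneg_left (hF2 v).1 (by linarith : 0 ≤ 1 - δ)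
      have h2 := mul_le_mul_of_nonneg_left hda hδ0.le
      have h3 : δ * a * w ≤ A v * w := by rw [hA1 v]; linarith
      exact le_of_mul_le_mul_right h3 hw0
    · have h1 := mul_le_mul_of_nonneg_left (hF2 v).2 (by linarith : 0 ≤ 1 - δ)
      have h2 := mul_le_mul_of_nonneg_left hea hδ0.le
      have h3 : δ * a * w ≤ (1 - A v) * w := by rw [hA2 v]; linarith
      have := le_of_mul_le_mul_right h3 hw0
      linarith
  have hA4 : ∀ u v, (∀ B ∈ F, (u ∈ B ↔ v ∈ B)) → A u = A v := fun u v huv => by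
    rw [hA u, hA v, filter_congr huv]
  have hA5 : (∑ v, A v) * w = c * w - j * ((1 - δ) * (U * T)) := by
    rw [sum_mul, sum_congr rfl fun v _ => hA1 v, sum_sub_distrib, ← mul_sum, ← mul_sum,
      wmid_sum F (fun B hB => (hF1 B hB).1), sum_const, card_univ, Fintype.card_fin,
      nsmul_eq_mul, hw]
    push_cast
    linarith only [hcm']
  have hj0 : (0 : ℝ) ≤ j := Nat.cast_nonneg _
  have hA6 : ((c + j : ℕ) : ℝ) - ((j + h : ℕ) : ℝ) ≤ ∑ v, A v := by
    have h1 : (j : ℝ) * ((1 - δ) * (U * T)) ≤ j * m :=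
      mul_le_mul_of_nonneg_left (by linarith) hj0
    have h2 : (j : ℝ) * m ≤ δ * h * m := mul_le_mul_of_nonneg_right hh hm0
    have h3 : (h : ℝ) * (δ * m) ≤ h * w := mul_le_mul_of_nonneg_left hw1 (Nat.cast_nonneg _)
    have h4 : ((c : ℝ) - h) * w ≤ (∑ v, A v) * w := by linarith
    have := le_of_mul_le_mul_right h4 hw0
    push_cast
    linarith
  have hA7 : ∑ v, A v ≤ ((c + j : ℕ) : ℝ) := by
    have h1 : 0 ≤ (j : ℝ) * ((1 - δ) * (U * T)) := mul_nonneg hj0 hδT0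
    have h4 : (∑ v, A v) * w ≤ c * w := by linarith
    have := le_of_mul_le_mul_right h4 hw0
    push_cast
    linarith
  obtain ⟨F', hF'1, hF'2, hF'3, hF'4⟩ := hK1 n (c + j) (by omega) F hFR A hA3 hA4 hA6 hA7
  obtain ⟨τ, hτ⟩ : ∃ τ : ℝ, τ = (1 - δ) * w / N / U := ⟨_, rfl⟩
  have hτ1 : U * τ = (1 - δ) * w / N := by rw [hτ, mul_div_cancel₀ _ hU0.ne']
  have hτ2 : U * (N * τ) = (1 - δ) * w := by
    rw [mul_left_comm, hτ1, mul_div_cancel₀ _ hN0.ne']
  have hτ0 : 0 ≤ τ := by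
    rw [hτ]
    exact div_nonneg (div_nonneg (mul_nonneg (by linarith) hw0.le) hN0.le) hU0.le
  have hτ3 : τ ≤ 1 := by
    rw [hτ, div_le_one hU0, div_le_iff₀ hN0]
    have h1 : L * U ≤ a * N * U := mul_le_mul_of_nonneg_right hN1 hU0.le
    have h2 : a * m ≤ a * (U * N) := by linarith
    have h3 := le_of_mul_le_mul_left h2 ha
    have h4 : 0 ≤ δ * w := mul_nonneg hδ0.le hw0.le
    linarith only [hw, hδT0, h3, h4]
  have hsum : ∀ G G' : Finset (Finset (Fin n)), G ⊆ F → G' ⊆ F' →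
      U * ∑ B ∈ G ∪ G', (if B ∈ F then (1 - δ) * t B else τ) =
        (1 - δ) * (U * ∑ B ∈ G, t B) + (1 - δ) * w / N * #G' := fun G G' hG hG' => by
    have h1 := wmid_union hF'2 hG hG' (fun B => (1 - δ) * t B) τ id
    simp only [id] at h1
    rw [h1, ← mul_sum, ← hτ1]
    ring
  have hNw : (1 - δ) * w / N * N = (1 - δ) * w := div_mul_cancel₀ _ hN0.ne'
  obtain ⟨J, hJ1, hJ2⟩ := hK2 n c m d e (by omega) hcn' hmP hcm hde (F ∪ F')
    ((card_union_le _ _).trans (by omega))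
    (fun B hB => (mem_union.1 hB).elim (fun h => (hF1 B h).1) (hF'3 B))
    (fun B => if B ∈ F then (1 - δ) * t B else τ)
    (fun B _ => by
      by_cases hB : B ∈ F
      · rw [if_pos hB]
        have h1 := ht.1 B
        have h2 : 0 ≤ δ * t B := mul_nonneg hδ0.le h1.1
        exact ⟨mul_nonneg (by linarith) h1.1, by linarith [h1.2]⟩
      · rw [if_neg hB]
        exact ⟨hτ0, hτ3⟩)
    (δ * w)
    (by
      rw [hsum F F' Subset.rfl Subset.rfl, hF'1, hNw]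
      linarith only [hw])
    (by
      have h1 : δ * (δ * m) ≤ δ * w := mul_le_mul_of_nonneg_left hw1 hδ0.le
      have h2 : δ * δ * (η * U) ≤ δ * δ * m :=
        mul_le_mul_of_nonneg_left hmη (mul_pos hδ0 hδ0).le
      linarith)
    (fun v => by
      constructor
      · rw [filter_union, hsum _ _ (filter_subset _ _) (filter_subset _ _)]
        have h1 := wmid_margin hδ0 (by linarith) hw0.le hN0 hN2 (hA3 v).1 (hF'4 v).2
          (Nat.cast_nonneg _)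
        have h2 := hA1 v
        linarith only [h1, h2]
      · rw [filter_union, hsum _ _ (filter_subset _ _) (filter_subset _ _)]
        have h0 : (#{B ∈ F' | v ∈ B} : ℝ) + #{B ∈ F' | v ∉ B} = N := by
          rw [← hF'1]
          exact_mod_cast card_filter_add_card_filter_not (s := F') (fun B => v ∈ B)
        have h1 := wmid_margin (x := 1 - A v) (y := (#{B ∈ F' | v ∉ B} : ℝ)) hδ0 (by linarith)
          hw0.le hN0 hN2 (by linarith [(hA3 v).2]) (by linarith [(hF'4 v).1]) (Nat.cast_nonneg _)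
        have h2 := hA2 v
        linarith only [h1, h2])
  refine ⟨J, hJ1, hJ2.trans ?_⟩
  have h1 := wmid_union hF'2 Subset.rfl Subset.rfl (fun B => (1 - δ) * t B) τ (ps j)
  rw [h1, hF'1]
  simp_rw [ps_eq]
  rw [sum_sub_distrib, ← mul_sum, ← mul_sum, Phi]
  have hj1 : (0 : ℝ) < j := by exact_mod_cast hj
  have hp : W * (1 + 1 / (j : ℝ)) = U * (c / j) := by
    field_simp
    linarith only [hW]
  have hph : 0 ≤ W * (N * ph j τ) := mul_nonneg hW0 (mul_nonneg hN0.le (ph_nonneg hj hτ3))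
  have hcj0 : (0 : ℝ) ≤ c / j := div_nonneg (by linarith) hj0
  have h2 : W * ((1 + 1 / (j : ℝ)) * ((1 - δ) * T)) + W * (N * ((1 + 1 / (j : ℝ)) * τ)) =
      c / j * ((1 - δ) * (U * T) + U * (N * τ)) := by
    calc _ = W * (1 + 1 / (j : ℝ)) * ((1 - δ) * T + N * τ) := by ring
      _ = _ := by rw [hp]; ring
  have hδw : 0 ≤ δ * w := mul_nonneg hδ0.le hw0.le
  have h3 : (c : ℝ) / j * ((1 - δ) * (U * T) + U * (N * τ)) ≤ c / j * m :=
    mul_le_mul_of_nonneg_left (by rw [hτ2]; linarith only [hw, hδw]) hcj0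
  have h4 : (c : ℝ) * (δ * w) ≤ c * (δ * m) :=
    mul_le_mul_of_nonneg_left (mul_le_mul_of_nonneg_left hw2 hδ0.le) (by linarith only [hδ0, hδ1, hc0])
  have h5 : δ * ((c : ℝ) * m) ≤ ε / 4 * (c * m) :=
    mul_le_mul_of_nonneg_right hδ2 (mul_nonneg (by linarith only [hδ0, hδ1, hc0]) hm0)
  have h6 : (c : ℝ) * m / j = c / j * m := by ring
  rw [hde'] at hF3
  rw [h6]
  linarith only [hF3, hph, h2, h3, h4, h5]

end Pool.Agent.P.MP_4f3dfd_co.Win
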