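import Pool.Agent.P.MP_4f3dfd_co.WLowFin
import Pool.Agent.P.MP_4f3dfd_co.WLowNum
import Pool.Agent.P.MP_4f3dfd_co.WMid
import Pool.Agent.P.MP_4f3dfd_co.WLo
import Pool.Agent.P.MP_4f3dfd_co.WHi
import Pool.Agent.P.MP_4f3dfd_co.WBig

set_option autoImplicit false
set_option linter.unusedSectionVars false
set_option linter.unusedVariables false

namespace Pool.Agent.P.MP_4f3dfd_co.Win

open Finset Pool.Agent.P.MP_4f3dfd_co.Asy Pool.Agent.P.MP_4f3dfd_co.Off

/-- The lower bound at a fixed level. -/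
theorem fixed_low {j : ℕ} (hj : 1 ≤ j) {θ : ℝ} (h0 : 0 < θ) : ∃ K : ℕ, ∀ n c m d e : ℕ,
    K ≤ c → c + K ≤ n → d + e = m → min d e ^ 2 ≤ (c + j).choose j ^ 2 * c →
    ∀ J : Finset (Finset (Fin n)), Rg c m d J →
    ∃ t, Pk n c j d e t ∧ Phi c m j (val n c j t) ≤ #(shadow J) + θ * (c * m) := by
  obtain ⟨K, hK⟩ := low_num hj (θ := min (θ / 5) (1 / 2)) (by positivity) (min_le_right _ _)
  refine ⟨K + 4 * j + 4, fun n c m d e h1 h2 hde hM J hJ => ?_⟩
  obtain ⟨s₁, s₂, x, r, a1, a2, a3, a4, a5, a6, a7⟩ := hK c (min d e) (by omega) hM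
  by_cases hxn : x + j ≤ n
  · have b1 := dust_ge hj hJ hde (by omega) (by omega) a1 a2 hxn
    obtain ⟨t, t1, t2⟩ := lower_fin hj hJ hde (by omega) (by omega) a4 b1
      (θ := min (θ / 5) (1 / 2)) (by positivity) (min_le_right _ _) a5 a6 a7
    refine ⟨t, t1, t2.trans ?_⟩
    have : 5 * min (θ / 5) (1 / 2) ≤ θ := by linarith only [min_le_left (θ / 5) (1 / 2)]
    gcongr
  · omega

theorem prev_le {c j M K : ℕ} (hj : 1 ≤ j) (hc : 2 * j * K ^ 2 + j ≤ c)
    (h : (c + j - 2).choose (j - 1) * (c + j - 1).choose j ≤ M ^ 2) :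
    K * (c + (j - 1)).choose (j - 1) ≤ M := by
  obtain ⟨i, rfl⟩ : ∃ i, j = i + 1 := ⟨j - 1, by omega⟩
  obtain ⟨k, rfl⟩ : ∃ k, c = k + 1 := ⟨c - 1, by omega⟩
  simp only [Nat.add_sub_cancel] at h ⊢
  rw [show k + 1 + (i + 1) - 2 = k + i by omega, show k + 1 + (i + 1) - 1 = k + 1 + i by omega] at h
  have a1 := Nat.choose_succ_right_eq (k + 1 + i) i
  rw [Nat.add_sub_cancel] at a1
  have a2 := Nat.choose_mul_succ_eq (k + i) i
  rw [show k + i + 1 - i = k + 1 by omega, show k + i + 1 = k + 1 + i by omega] at a2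
  generalize (k + 1 + i).choose i = U at *
  generalize (k + 1 + i).choose (i + 1) = W at *
  generalize (k + i).choose i = u at *
  have a3 : U ≤ 2 * u := by
    apply Nat.le_of_mul_le_mul_right (c := k + 1) _ (by omega)
    rw [← a2, mul_comm 2 u, mul_assoc]
    exact Nat.mul_le_mul_left _ (by omega)
  have a4 : 2 * K ^ 2 * U ≤ W := by
    apply Nat.le_of_mul_le_mul_right (c := i + 1) _ (by omega)
    rw [a1]
    calc _ = U * (2 * (i + 1) * K ^ 2) := by ring
      _ ≤ _ := Nat.mul_le_mul_left _ (by omega)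
  refine Nat.le_of_not_lt fun hlt => ?_
  have a5 : M ^ 2 < (K * U) ^ 2 := Nat.pow_lt_pow_left hlt (by norm_num)
  have a6 : (K * U) ^ 2 ≤ u * W := by
    calc (K * U) ^ 2 = K ^ 2 * U * U := by ring
      _ ≤ K ^ 2 * U * (2 * u) := Nat.mul_le_mul_left _ a3
      _ = u * (2 * K ^ 2 * U) := by ring
      _ ≤ _ := Nat.mul_le_mul_left _ a4
  omega

theorem step_le (c : ℕ) {j : ℕ} (hj : 1 ≤ j) :
    (c + j - 1).choose j ≤ (c + j).choose (j + 1) ∧ (c + j - 1).choose j ≤ (c + j).choose j ∧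
      (c + j).choose (j + 1) ≤ (c + j).choose j * c := by
  refine ⟨?_, Nat.choose_le_choose _ (by omega), ?_⟩
  · obtain ⟨N, hN⟩ : ∃ N, c + j = N + 1 := ⟨c + j - 1, by omega⟩
    rw [hN, Nat.add_sub_cancel, Nat.choose_succ_succ']
    omega
  · have a1 := Nat.choose_succ_right_eq (c + j) j
    rw [Nat.add_sub_cancel] at a1
    rw [← a1]
    exact Nat.le_mul_of_pos_right _ (by omega)

theorem lt_next {c j M : ℕ} (hj : 1 ≤ j)
    (h : M ^ 2 < (c + j - 1).choose j * (c + j).choose (j + 1)) : M < (c + j).choose (j + 1) := by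
  have a1 := (step_le c hj).1
  refine lt_of_not_ge fun hle => ?_
  have : (c + j - 1).choose j * (c + j).choose (j + 1) ≤ M * M := Nat.mul_le_mul (by omega) hle
  rw [sq] at h
  omega

/-- The upper bound at a fixed level. -/
theorem fixed_up {j : ℕ} (hj : 1 ≤ j) {ε : ℝ} (hε : 0 < ε) : ∃ K : ℕ, ∀ n c m d e f : ℕ,
    K ≤ c → c + K ≤ n → 1 ≤ m → m ≤ n.choose c → c * m = d * n → d + e = m →
    (j = 1 ∨ (c + j - 2).choose (j - 1) * (c + j - 1).choose j ≤ min d e ^ 2) →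
    min d e ^ 2 < (c + j - 1).choose j * (c + j).choose (j + 1) → IsLeast (SR n c m) f →
    ∀ t, Pk n c j d e t → (f : ℝ) ≤ Phi c m j (val n c j t) + ε * (c * m) := by
  have hε2 : 0 < ε / 2 := by positivity
  obtain ⟨K1, hK1⟩ := upper_off (j - 1) hε2
  obtain ⟨K2, hK2⟩ := upper_off j hε
  have hη : 0 < min (ε / 2) 1 := by positivity
  obtain ⟨K3, hK3⟩ := up_lo hj (L := K2) hη hε
  obtain ⟨K4, hK4⟩ := up_hi hj (L := K2) hη hε
  obtain ⟨A, hA⟩ : ∃ A, A = K3 + K4 + 2 := ⟨_, rfl⟩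
  have A0 : (0 : ℝ) < A := by exact_mod_cast (show 0 < A by omega)
  obtain ⟨K5, hK5⟩ := up_mid hj (a := 1 / A) (L := K2) (by positivity) hη hε
  refine ⟨2 * j * K1 ^ 2 + j + K1 + K2 + A + K5 + 2,
    fun n c m d e f h1 h2 hm1 hm hdm hde h3 h4 hf t ht => ?_⟩
  obtain ⟨k, hk⟩ : ∃ k, c = k + 1 := ⟨c - 1, by omega⟩
  obtain ⟨q, hq⟩ : ∃ q, n = c + q := ⟨n - c, by omega⟩
  have hqe : q * m = e * n := qm (hk ▸ hq) (hk ▸ hdm) hde
  have j1 : (1 : ℝ) ≤ j := by exact_mod_cast hj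
  have cm0 : (0 : ℝ) ≤ c * m := by positivity
  have rde : (d : ℝ) + e = m := by exact_mod_cast hde
  have U0 : (0 : ℝ) < (c + j).choose j := by
    exact_mod_cast Nat.choose_pos (show j ≤ c + j by omega)
  have fin : ∀ J : Finset (Finset (Fin n)), Rg c m d J ∧
      (#(shadow J) : ℝ) ≤ Phi c m j (val n c j t) + ε * (c * m) →
      (f : ℝ) ≤ Phi c m j (val n c j t) + ε * (c * m) := fun J hJ =>
    le_trans (by exact_mod_cast hf.2 hJ.1.mem_SR) hJ.2
  have hlt := lt_next hj h4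
  by_cases hbig : K2 * (c + j).choose j ≤ min d e
  · have a1 := hK2 n k q m d e f (hk ▸ hq) hm1 (hk ▸ hm) (hk ▸ hdm) hde (by omega)
      (.inr (hk ▸ hbig)) (by omega)
      (hlt.le.trans (hk ▸ Nat.choose_le_choose _ (by omega))) (hk ▸ hf)
    have a2 := Phi_ge (m := m) hj ht (by omega) rde
    rw [show (k : ℝ) + 1 = c by rw [hk]; push_cast; ring] at a1
    rw [div_le_iff₀ (by linarith only [j1])] at a2
    apply le_of_mul_le_mul_right _ (show (0 : ℝ) < j + 1 by linarith only [j1])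
    have : ε * (c * m) ≤ ε * (c * m) * (j + 1) := le_mul_of_one_le_right (by positivity) (by linarith only [j1])
    linarith only [a1, a2, this]
  have rbig : min (d : ℝ) e ≤ K2 * (c + j).choose j := by
    exact_mod_cast (not_le.1 hbig).le
  by_cases hsm : min (d : ℝ) e ≤ min (ε / 2) 1 * (c + j).choose j
  · have b0 : min d e ≤ (c + j).choose j := by
      have : min (d : ℝ) e ≤ (c + j).choose j :=
        hsm.trans (mul_le_of_le_one_left U0.le (min_le_right _ _))
      exact_mod_cast this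
    have a1 := hK1 n k q m d e f (hk ▸ hq) hm1 (hk ▸ hm) (hk ▸ hdm) hde (by omega)
      (h3.imp (by omega) fun h => hk ▸ prev_le hj (by omega) h) (by omega)
      (by rwa [show k + 1 + (j - 1) + 1 = c + j by omega, show j - 1 + 1 = j by omega]) (hk ▸ hf)
    rw [show (k : ℝ) + 1 = c by rw [hk]; push_cast; ring,
      show ((j - 1 : ℕ) : ℝ) + 1 = j by rw [Nat.cast_sub hj]; simp] at a1
    have a2 := val_le hj ht (by omega) hε2.le fun B hB => by
      have := (ht.le_min hj (by omega) hB).trans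
        (hsm.trans (mul_le_mul_of_nonneg_right (min_le_left _ _) U0.le))
      rw [mul_comm] at this
      exact le_of_mul_le_mul_right this U0
    rw [rde] at a2
    have a3 : ε / 2 * (c * m) / (j * (j + 1)) ≤ ε / 2 * (c * m) :=
      div_le_self (by positivity) (by nlinarith only [j1])
    have a4 : (f : ℝ) ≤ c * m / j + ε / 2 * (c * m) := by
      apply le_of_mul_le_mul_right _ (show (0 : ℝ) < j by linarith only [j1])
      rw [add_mul, div_mul_cancel₀ _ (by linarith only [j1])]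
      have : ε / 2 * (c * m) ≤ ε / 2 * (c * m) * j := le_mul_of_one_le_right (by positivity) j1
      linarith only [a1, this]
    unfold Phi
    linarith only [a2, a3, a4]
  replace hsm := (not_le.1 hsm).le
  by_cases hlo : A * c ≤ n
  · have b1 : 2 * c ≤ n := le_trans (Nat.mul_le_mul_right _ (by omega)) hlo
    have b2 : d ≤ e := Nat.le_of_mul_le_mul_right (c := n)
      (by rw [← hqe, ← hdm]; exact Nat.mul_le_mul_right _ (by omega)) (by omega)
    rw [min_eq_left (a := (d : ℝ)) (b := e) (by exact_mod_cast b2)] at hsm rbig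
    obtain ⟨J, hJ⟩ := hK3 n c m d e (by omega)
      (le_trans (Nat.mul_le_mul_right _ (by omega)) hlo) hdm hde hsm rbig t ht
    exact fin J hJ
  by_cases hhi : A * q ≤ n
  · have b1 : 2 * q ≤ n := le_trans (Nat.mul_le_mul_right _ (by omega)) hhi
    have b2 : e ≤ d := Nat.le_of_mul_le_mul_right (c := n)
      (by rw [← hqe, ← hdm]; exact Nat.mul_le_mul_right _ (by omega)) (by omega)
    rw [min_eq_right (a := (d : ℝ)) (b := e) (by exact_mod_cast b2)] at hsm rbig
    obtain ⟨J, hJ⟩ := hK4 n c q m d e hq (by omega)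
      (le_trans (Nat.mul_le_mul_right _ (by omega)) hhi) hdm hde hsm rbig t ht
    exact fin J hJ
  have b1 : (n : ℝ) ≤ A * c := by exact_mod_cast (not_le.1 hlo).le
  have b2 : (n : ℝ) ≤ A * q := by exact_mod_cast (not_le.1 hhi).le
  have b3 : (n : ℝ) = c + q := by exact_mod_cast hq
  have b4 : 1 / (A : ℝ) * n ≤ q := by rwa [one_div, inv_mul_le_iff₀ A0]
  obtain ⟨J, hJ⟩ := hK5 n c m d e (by omega) (by rwa [one_div, inv_mul_le_iff₀ A0])
    (by linarith only [b3, b4]) hdm hde hsm rbig t ht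
  exact fin J hJ

theorem master {ε : ℝ} (hε : 0 < ε) : ∃ K : ℕ, ∀ n c m d j : ℕ,
    (K ≤ c ∧ c + K ≤ n) ∨ (K ≤ j ∧ K * (c + j) ≤ n) → 1 ≤ m → m ≤ n.choose c →
    c * m = d * n → 1 ≤ j →
    (j = 1 ∨ (c + j - 2).choose (j - 1) * (c + j - 1).choose j ≤ min d (m - d) ^ 2) →
    min d (m - d) ^ 2 < (c + j - 1).choose j * (c + j).choose (j + 1) →
    ∃ f : ℕ, IsLeast (SR n c m) f ∧ ∃ S : ℝ, IsGreatest (SV n c j d (m - d)) S ∧
      |(f : ℝ) - Phi c m j S| ≤ ε * f := by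
  obtain ⟨T, hT⟩ := big_case hε
  have hθ : ∀ i : ℕ, 0 < min ε 1 / (2 * ((i + 1 : ℕ) + 1 : ℝ)) := fun i => by positivity
  choose K1 hK1 using fun i => fixed_low (j := i + 1) (by omega) (hθ i)
  choose K2 hK2 using fun i => fixed_up (j := i + 1) (by omega) (hθ i)
  refine ⟨∑ i ∈ range (T + 1), (K1 i + K2 i) + T + 2, fun n c m d j hR hm1 hm hdm hj h3 h4 => ?_⟩
  generalize hK : ∑ i ∈ range (T + 1), (K1 i + K2 i) = K at hR
  have hcn : c ≤ n := by
    by_contra h
    rw [Nat.choose_eq_zero_of_lt (by omega)] at hm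
    omega
  have hc : 1 ≤ c := by
    by_contra h
    rw [Nat.choose_eq_zero_of_lt (show c + j < j + 1 by omega)] at h4
    omega
  have hdm' : d ≤ m := Nat.le_of_mul_le_mul_right (c := n)
    (by rw [← hdm, mul_comm]; exact Nat.mul_le_mul_left _ hcn) (by omega)
  obtain ⟨e, hde⟩ : ∃ e, d + e = m := ⟨m - d, by omega⟩
  have rde : (d : ℝ) + e = m := by exact_mod_cast hde
  rw [show m - d = e by omega] at h3 h4
  rw [show (m : ℝ) - d = e by linarith only [rde]]
  obtain ⟨k, hk⟩ : ∃ k, c = k + 1 := ⟨c - 1, by omega⟩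
  have : NeZero n := ⟨by omega⟩
  obtain ⟨J0, j1, j2, j3, -⟩ := upper_cl (n := n) k (k + 1) m d le_rfl (hk ▸ hcn) (hk ▸ hm) hm1
    (hk ▸ hdm)
  obtain ⟨f, hf⟩ := least (S := SR n c m) ⟨_, J0, hk ▸ j1, j2, ⟨d, j3⟩, rfl⟩
  obtain ⟨S, hS⟩ := exists_max n c j (d := d) (e := e) (by positivity) (by positivity)
  refine ⟨f, hf, S, hS, ?_⟩
  obtain ⟨t, ht, rfl⟩ := hS.1
  have a1 := Phi_ge (m := m) hj ht (by omega) rde
  have a2 := Phi_le (m := m) hj ht
  by_cases hjT : T + 1 < j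
  · obtain ⟨b1, b2⟩ := hT n c m d e j f (by omega)
      (hR.imp (by omega) fun h => le_trans (Nat.mul_le_mul_right _ (by omega)) h.2) hm1 hm hdm hde
      (by
        replace h3 := h3.resolve_left (by omega)
        refine Nat.le_of_not_lt fun hlt => ?_
        have b1 : (c + j - 2).choose (j - 1) ≤ (c + j - 1).choose j := by
          obtain ⟨i, rfl⟩ : ∃ i, j = i + 1 := ⟨j - 1, by omega⟩
          rw [show c + (i + 1) - 1 = c + (i + 1) - 2 + 1 by omega, Nat.choose_succ_succ']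
          exact Nat.le_add_right _ _
        have b2 : min d e ^ 2 < (c + j - 2).choose (j - 1) * (c + j - 2).choose (j - 1) := by
          rw [← sq]; exact Nat.pow_lt_pow_left hlt (by norm_num)
        have b3 := Nat.mul_le_mul_left ((c + j - 2).choose (j - 1)) b1
        omega) (lt_next hj h4) hf
    rw [abs_le]
    constructor <;> linarith only [a2, b1, a1, b2]
  obtain ⟨i, rfl⟩ : ∃ i, j = i + 1 := ⟨j - 1, by omega⟩
  have b0 : K1 i + K2 i ≤ K := hK ▸
    single_le_sum (f := fun i => K1 i + K2 i) (fun _ _ => Nat.zero_le _) (mem_range.2 (by omega))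
  obtain ⟨b1, b2⟩ := hR.resolve_right (by omega)
  obtain ⟨J, k1, k2, k3, k4⟩ := SR_deg hdm hf.1
  obtain ⟨t', c1, c2⟩ := hK1 i n c m d e (by omega) (by omega) hde (h4.le.trans (by
    rw [sq, mul_assoc]
    exact Nat.mul_le_mul (step_le c hj).2.1 (step_le c hj).2.2)) J ⟨k1, k2, k3⟩
  have c3 := hK2 i n c m d e f (by omega) (by omega) hm1 hm hdm hde h3 h4 hf t ht
  have c4 := Phi_ge (m := m) hj c1 (by omega) rde
  have c5 : Phi c m (i + 1) (val n c (i + 1) t) ≤ Phi c m (i + 1) (val n c (i + 1) t') := by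
    have := hS.2 ⟨t', c1, rfl⟩
    unfold Phi
    gcongr
  rw [k4] at c2
  have y0 : (0 : ℝ) < (i + 1 : ℕ) + 1 := by positivity
  generalize ((i + 1 : ℕ) + 1 : ℝ) = y at *
  have cm0 : (0 : ℝ) ≤ c * m := by positivity
  generalize (c * m : ℝ) = z at *
  have d1 : min ε 1 / (2 * y) * z = min ε 1 * (z / y) / 2 := by field_simp
  have d0 : 0 ≤ z / y := by positivity
  rw [d1] at c2 c3
  generalize z / y = w at *
  have d2 : min ε 1 * w ≤ 1 * w := by gcongr; exact min_le_right _ _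
  have d3 : min ε 1 * w ≤ ε * w := by gcongr; exact min_le_left _ _
  have d4 : ε * w ≤ ε * (2 * f) := by gcongr; linarith only [c5, a1, c2, d2]
  rw [abs_le]
  constructor <;> linarith only [c5, c2, d3, d4, c3]

end Pool.Agent.P.MP_4f3dfd_co.Win
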