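import Pool.Agent.P.MP_4f3dfd_co.WAtom
import Pool.Agent.P.MP_4f3dfd_co.WLoc

set_option autoImplicit false
set_option linter.unusedSectionVars false
set_option linter.unusedVariables false

namespace Pool.Agent.P.MP_4f3dfd_co.Win

open Finset Pool.Agent.P.MP_4f3dfd_co.Asy Pool.Agent.P.MP_4f3dfd_co.Off

variable {V : Type*} [DecidableEq V] [Fintype V]

theorem wunion_pc {c : ℕ} {B : Finset V} {g : Finset (Finset V)} (hg : g ⊆ powersetCard c B) :
    g ⊆ ins (powersetCard c (univ : Finset V)) B := fun X hX => by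
  have h := mem_powersetCard.1 (hg hX)
  exact mem_filter.2 ⟨mem_powersetCard.2 ⟨subset_univ _, h.2⟩, h.1⟩

theorem wunion_bonf {c j : ℕ} (G : Finset (Finset V)) (hG : ∀ B ∈ G, #B = c + j)
    (g : Finset V → Finset (Finset V)) (hg : ∀ B ∈ G, g B ⊆ powersetCard c B) :
    ∑ B ∈ G, (#(g B) : ℝ) ≤ #(G.biUnion g) + (#G : ℝ) ^ 2 * (c + j - 1).choose c := by
  have h := bonf_sum G g (u := (c + j - 1).choose c) fun B hB B' hB' hne =>
    (card_le_card (inter_subset_inter (wunion_pc (hg B hB)) (wunion_pc (hg B' hB')))).trans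
      (ins_inter (fun X hX => (mem_powersetCard.1 hX).2) (hG B hB) (hG B' hB') hne)
  exact_mod_cast h

theorem wunion_avoid {c j : ℕ} {B : Finset V} (hB : #B = c + j) {g : Finset (Finset V)}
    (hg : g ⊆ powersetCard c B) {v : V} (hv : v ∈ B) :
    (#g : ℝ) ≤ #{X ∈ g | v ∈ X} + (c + j - 1).choose c := by
  have h1 := card_filter_add_card_filter_not (s := g) (fun X => v ∈ X)
  have h2 : #{X ∈ g | v ∉ X} ≤ (c + j - 1).choose c :=
    (card_le_card (filter_subset_filter _ (wunion_pc hg))).trans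
      (ins_avoid (fun X hX => (mem_powersetCard.1 hX).2) hB hv)
  have h3 : #g ≤ #{X ∈ g | v ∈ X} + (c + j - 1).choose c := by omega
  exact_mod_cast h3

theorem wunion_up (G : Finset (Finset V)) (g : Finset V → Finset (Finset V)) (f : Finset V → ℝ)
    (hf : ∀ B ∈ G, (#(g B) : ℝ) ≤ f B) : (#(G.biUnion g) : ℝ) ≤ ∑ B ∈ G, f B := by
  have h : (#(G.biUnion g) : ℝ) ≤ ∑ B ∈ G, (#(g B) : ℝ) := by
    exact_mod_cast card_biUnion_le (s := G) (t := g)
  exact h.trans (sum_le_sum hf)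

theorem wunion_swap_mem {S : Finset V} {u v : V} (h : u ∈ S ↔ v ∈ S) (x : V) :
    Equiv.swap u v x ∈ S ↔ x ∈ S := by
  by_cases h1 : x = u
  · subst h1
    rw [Equiv.swap_apply_left]
    exact h.symm
  by_cases h2 : x = v
  · subst h2
    rw [Equiv.swap_apply_right]
    exact h
  rw [Equiv.swap_apply_of_ne_of_ne h1 h2]

theorem wunion_swap_atm {c : ℕ} {B A X : Finset V} {u v : V} (h1 : u ∈ B ↔ v ∈ B)
    (h2 : u ∈ A ↔ v ∈ A) (hX : X ∈ atm c B A) :
    X.map (Equiv.swap u v).toEmbedding ∈ atm c B A := by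
  obtain ⟨ha, hb⟩ := mem_filter.1 hX
  obtain ⟨hc, hd⟩ := mem_powersetCard.1 ha
  refine mem_filter.2 ⟨mem_powersetCard.2 ⟨fun x hx => ?_, by rw [card_map, hd]⟩, fun hs => hb ?_⟩
  · rw [mem_map_equiv, Equiv.symm_swap] at hx
    exact (wunion_swap_mem h1 x).1 (hc hx)
  · intro x hx
    have := hs ((wunion_swap_mem h2 x).2 hx)
    rwa [mem_map_equiv, Equiv.symm_swap, Equiv.swap_apply_self] at this

theorem wunion_swap_le (J : Finset (Finset V)) (u v : V)
    (h : ∀ X ∈ J, X.map (Equiv.swap u v).toEmbedding ∈ J) :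
    #{X ∈ J | u ∈ X} ≤ #{X ∈ J | v ∈ X} := by
  refine card_le_card_of_injOn (fun X => X.map (Equiv.swap u v).toEmbedding) (fun X hX => ?_)
    (fun X _ Y _ hXY => map_injective _ hXY)
  obtain ⟨h1, h2⟩ := mem_filter.1 (mem_coe.1 hX)
  refine mem_coe.2 (mem_filter.2 ⟨h X h1, ?_⟩)
  rw [mem_map_equiv, Equiv.symm_swap, Equiv.swap_apply_right]
  exact h2

/-- A union of clique segments. -/
theorem exists_union {c j : ℕ} (hj : 1 ≤ j) (hc : 1 ≤ c) (F : Finset (Finset V))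
    (hF : ∀ B ∈ F, #B = c + j) (t : Finset V → ℝ) (ht : ∀ B ∈ F, 0 ≤ t B ∧ t B ≤ 1) :
    ∃ (J : Finset (Finset V)) (A : Finset V → Finset V), (∀ X ∈ J, #X = c ∧ ∃ B ∈ F, X ⊆ B) ∧
      (c + j).choose j * ∑ B ∈ F, t B - #F * (#F + 2) * (c + j - 1).choose c ≤ (#J : ℝ) ∧
      (#J : ℝ) ≤ (c + j).choose j * ∑ B ∈ F, t B ∧
      (∀ v, (c + j).choose j * ∑ B ∈ F with v ∈ B, t B - #F * (#F + 2) * (c + j - 1).choose c ≤
          (#{X ∈ J | v ∈ X} : ℝ) ∧
        (#{X ∈ J | v ∈ X} : ℝ) ≤ (c + j).choose j * ∑ B ∈ F with v ∈ B, t B) ∧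
      (#(shadow J) : ℝ) ≤ (c + j).choose (j + 1) * (∑ B ∈ F, ps j (t B) + #F * (j / c)) ∧
      ∀ u v, (∀ B ∈ F, (u ∈ B ↔ v ∈ B) ∧ (u ∈ A B ↔ v ∈ A B)) →
        #{X ∈ J | u ∈ X} = #{X ∈ J | v ∈ X} := by
  choose! A hA using fun B (hB : B ∈ F) =>
    exists_atm hj hc B (hF B hB) (ht B hB).1 (ht B hB).2
  have hsub : ∀ B, atm c B (A B) ⊆ powersetCard c B := fun B => filter_subset _ _
  have hu : (0 : ℝ) ≤ (c + j - 1).choose c := Nat.cast_nonneg _
  have hR : (0 : ℝ) ≤ #F := Nat.cast_nonneg _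
  refine ⟨F.biUnion fun B => atm c B (A B), A, fun X hX => ?_, ?_, ?_, fun v => ?_, ?_,
    fun u v h => ?_⟩
  · obtain ⟨B, hB, hX⟩ := mem_biUnion.1 hX
    have := mem_powersetCard.1 (hsub B hX)
    exact ⟨this.2, B, hB, this.1⟩
  · have h1 := wunion_bonf F hF (fun B => atm c B (A B)) fun B _ => hsub B
    have h2 := sum_le_sum fun B (hB : B ∈ F) => (hA B hB).2.1
    rw [sum_sub_distrib, ← mul_sum, sum_const, nsmul_eq_mul] at h2
    have h3 := mul_nonneg hR hu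
    linarith
  · rw [mul_sum]
    exact wunion_up F _ _ fun B hB => (hA B hB).2.2.1
  · have e : {X ∈ F.biUnion fun B => atm c B (A B) | v ∈ X} =
        ({B ∈ F | v ∈ B}).biUnion fun B => {X ∈ atm c B (A B) | v ∈ X} := by
      ext X
      simp only [mem_filter, mem_biUnion]
      constructor
      · rintro ⟨⟨B, hB, hX⟩, hv⟩
        exact ⟨B, ⟨hB, (mem_powersetCard.1 (hsub B hX)).1 hv⟩, hX, hv⟩
      · rintro ⟨B, ⟨hB, _⟩, hX, hv⟩
        exact ⟨⟨B, hB, hX⟩, hv⟩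
    rw [e]
    constructor
    · have h1 := wunion_bonf ({B ∈ F | v ∈ B}) (fun B hB => hF B (mem_filter.1 hB).1)
        (fun B => {X ∈ atm c B (A B) | v ∈ X}) fun B _ => (filter_subset _ _).trans (hsub B)
      have h2 : ∑ B ∈ F with v ∈ B, (((c + j).choose j : ℝ) * t B - 2 * (c + j - 1).choose c) ≤
          ∑ B ∈ F with v ∈ B, (#{X ∈ atm c B (A B) | v ∈ X} : ℝ) := by
        refine sum_le_sum fun B hB => ?_
        obtain ⟨hB, hv⟩ := mem_filter.1 hB
        have h3 := wunion_avoid (hF B hB) (hsub B) hv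
        have h4 := (hA B hB).2.1
        linarith
      rw [sum_sub_distrib, ← mul_sum, sum_const, nsmul_eq_mul] at h2
      have h3 : (#{B ∈ F | v ∈ B} : ℝ) ≤ #F := by exact_mod_cast card_filter_le _ _
      have h4 : (0 : ℝ) ≤ #{B ∈ F | v ∈ B} := Nat.cast_nonneg _
      have h5 := mul_le_mul_of_nonneg_right h3 hu
      have h6 := mul_le_mul_of_nonneg_right (pow_le_pow_left₀ h4 h3 2) hu
      linarith
    · rw [mul_sum]
      refine wunion_up _ _ _ fun B hB => le_trans ?_ (hA B (mem_filter.1 hB).1).2.2.1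
      exact_mod_cast card_filter_le _ _
  · have e : shadow (F.biUnion fun B => atm c B (A B)) ⊆
        F.biUnion fun B => shadow (atm c B (A B)) := fun Y hY => by
      obtain ⟨X, hX, a, ha, rfl⟩ := mem_shadow_iff.1 hY
      obtain ⟨B, hB, hX⟩ := mem_biUnion.1 hX
      exact mem_biUnion.2 ⟨B, hB, mem_shadow_iff.2 ⟨X, hX, a, ha, rfl⟩⟩
    have h1 := wunion_up F (fun B => shadow (atm c B (A B))) _ fun B hB => (hA B hB).2.2.2
    rw [← mul_sum, sum_add_distrib, sum_const, nsmul_eq_mul] at h1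
    exact le_trans (by exact_mod_cast card_le_card e) h1
  · refine le_antisymm (wunion_swap_le _ u v fun X hX => ?_) (wunion_swap_le _ v u fun X hX => ?_)
    · obtain ⟨B, hB, hX⟩ := mem_biUnion.1 hX
      exact mem_biUnion.2 ⟨B, hB, wunion_swap_atm (h B hB).1 (h B hB).2 hX⟩
    · obtain ⟨B, hB, hX⟩ := mem_biUnion.1 hX
      exact mem_biUnion.2 ⟨B, hB, wunion_swap_atm (h B hB).1.symm (h B hB).2.symm hX⟩

end Pool.Agent.P.MP_4f3dfd_co.Win
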