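import Pool.Agent.P.MP_4f3dfd_co.WPk
import Pool.Agent.P.MP_4f3dfd_co.WUnion

set_option autoImplicit false
set_option linter.unusedSectionVars false
set_option linter.unusedVariables false

namespace Pool.Agent.P.MP_4f3dfd_co.Win

open Finset Pool.Agent.P.MP_4f3dfd_co.Asy Pool.Agent.P.MP_4f3dfd_co.Off

theorem wnon_core {j n k N T r : ℕ} (hj : 1 ≤ j) (hk : 1 ≤ k) (hn : k + T ≤ n) (hT : j + 1 ≤ T)
    (hrT : r ≤ T) {ι : Type} [Fintype ι] (hr : Fintype.card ι ≤ r) (s : ι → ℝ)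
    (hs : ∀ i, 0 ≤ s i ∧ s i ≤ 1) (hN : (k + j).choose j * ∑ i, s i = N)
    (hW : N ≤ (k + j).choose (j + 1)) :
    ∃ G : Finset (Finset (Fin n)), (∀ X ∈ G, #X = k ∧ ∀ a ∈ X, a.val < k + T) ∧ #G = N ∧
      (#(shadow G) : ℝ) ≤ k * N / j - (k + j).choose (j + 1) * ∑ i, ph j (s i) +
        (r + r * (r + 2) * j) * (k + j).choose j := by
  classical
  let P : Finset (Fin n) := univ.filter fun a => a.val < k + T
  have hP : #P = k + T := by
    simp only [P]
    rw [Fin.card_filter_val_lt, min_eq_right hn]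
  obtain ⟨β⟩ : Nonempty (ι ↪ powersetCard (k + j) P) := by
    refine Function.Embedding.nonempty_of_card_le ?_
    have := choose_mid (x := k + T) (s := 1) (t := k + j) (by omega) (by omega)
    rw [Nat.choose_one_right] at this
    rw [Fintype.card_coe, card_powersetCard, hP]
    omega
  let B : ι → Finset (Fin n) := fun i => (β i).1
  have hB : Function.Injective B := Subtype.val_injective.comp β.injective
  have hBP : ∀ i, B i ⊆ P ∧ #(B i) = k + j := fun i => mem_powersetCard.1 (β i).2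
  have hsum : ∀ f : ℝ → ℝ, ∑ X ∈ univ.image B, f (Function.extend B s 0 X) = ∑ i, f (s i) :=
    fun f => by
      rw [sum_image fun _ _ _ _ h => hB h]
      exact sum_congr rfl fun i _ => by rw [hB.extend_apply]
  obtain ⟨J, A, j1, j2, j3, -, j5, -⟩ := exists_union hj hk (univ.image B)
    (fun X hX => by
      obtain ⟨i, -, rfl⟩ := mem_image.1 hX
      exact (hBP i).2) (Function.extend B s 0) (fun X hX => by
      obtain ⟨i, -, rfl⟩ := mem_image.1 hX
      rw [hB.extend_apply]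
      exact hs i)
  have h1 := hsum id
  simp only [id] at h1
  rw [h1, hN] at j2 j3
  rw [hsum (ps j)] at j5
  have hc : (#(univ.image B) : ℝ) ≤ r := by
    exact_mod_cast card_image_le.trans (card_univ.trans_le hr)
  have hJ : J ⊆ powersetCard k P := fun X hX => by
    obtain ⟨a1, Y, hY, a2⟩ := j1 X hX
    obtain ⟨i, -, rfl⟩ := mem_image.1 hY
    exact mem_powersetCard.2 ⟨a2.trans (hBP i).1, a1⟩
  have hNP : N ≤ #(powersetCard k P) := by
    rw [card_powersetCard, hP]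
    calc N ≤ (k + (j + 1)).choose (j + 1) := hW.trans (Nat.choose_le_choose _ (by omega))
      _ = (k + (j + 1)).choose k := Nat.choose_symm_add.symm
      _ ≤ _ := Nat.choose_le_choose _ (by omega)
  obtain ⟨G, g1, g2, g3⟩ := exists_subsuperset_card_eq hJ (by exact_mod_cast j3) hNP
  have hG : ∀ X ∈ G, #X = k ∧ ∀ a ∈ X, a.val < k + T := fun X hX =>
    ⟨(mem_powersetCard.1 (g2 hX)).2, fun a ha =>
      (mem_filter.1 ((mem_powersetCard.1 (g2 hX)).1 ha)).2⟩
  refine ⟨G, hG, g3, ?_⟩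
  have b1 := shadow_union_le J (G \ J) k fun X hX => (hG X (mem_sdiff.1 hX).1).1
  rw [union_sdiff_of_subset g1] at b1
  have b2 := card_sdiff_add_card_eq_card g1
  rw [g3] at b2
  have b1' : (#(shadow G) : ℝ) ≤ #(shadow J) + k * #(G \ J) := by exact_mod_cast b1
  have b2' : (#(G \ J) : ℝ) + #J = N := by exact_mod_cast b2
  have eW := W_eq k j
  have eu := u_eq k j hj
  have j0 : (0 : ℝ) < j := by exact_mod_cast hj
  have k0 : (0 : ℝ) < k := by exact_mod_cast hk
  have r0 : (0 : ℝ) ≤ r := Nat.cast_nonneg r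
  have f0 : (0 : ℝ) ≤ #(univ.image B) := Nat.cast_nonneg _
  have U0 : (0 : ℝ) ≤ (k + j).choose j := Nat.cast_nonneg _
  have W0 : (0 : ℝ) ≤ (k + j).choose (j + 1) := Nat.cast_nonneg _
  have u0 : (0 : ℝ) ≤ (k + j - 1).choose k := Nat.cast_nonneg _
  simp only [ps_eq] at j5
  rw [sum_sub_distrib, ← mul_sum] at j5
  generalize ((k + j).choose j : ℝ) = U at *
  generalize ((k + j).choose (j + 1) : ℝ) = W at *
  generalize ((k + j - 1).choose k : ℝ) = u at *
  generalize (#(univ.image B) : ℝ) = f at *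
  have c1 : W * ((1 + 1 / (j : ℝ)) * ∑ i, s i) = k * N / j := by
    rw [← hN, eq_div_iff j0.ne']
    have : W * ((1 + 1 / (j : ℝ)) * ∑ i, s i) * j = W * (j + 1) * ∑ i, s i := by field_simp
    rw [this, eW]
    ring
  have c2 : W * (f * ((j : ℝ) / k)) ≤ r * U := by
    have : W * (j / k) ≤ U := by
      rw [← mul_div_assoc, div_le_iff₀ k0]
      linarith
    calc W * (f * ((j : ℝ) / k)) = f * (W * (j / k)) := by ring
      _ ≤ r * U := mul_le_mul hc this (by positivity) r0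
  have c3 : k * (f * (f + 2) * u) ≤ r * (r + 2) * j * U := by
    have a1 : k * u ≤ j * U := by nlinarith only [mul_nonneg u0 j0.le, j0, u0, eu]
    have a2 : f * (f + 2) ≤ r * (r + 2) := mul_le_mul hc (by linarith) (by linarith) r0
    calc k * (f * (f + 2) * u) = f * (f + 2) * (k * u) := by ring
      _ ≤ r * (r + 2) * (j * U) := mul_le_mul a2 a1 (by positivity) (by positivity)
      _ = _ := by ring
  have c4 := mul_le_mul_of_nonneg_left (show (#(G \ J) : ℝ) ≤ f * (f + 2) * u by linarith only [b2', j2]) k0.le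
  linarith only [b1', j5, c1, c2, c3, c4]

/-- Families without regularity. -/
theorem nonreg {j : ℕ} (hj : 1 ≤ j) (R : ℕ) {η L ε : ℝ} (hη : 0 < η) (hε : 0 < ε) :
    ∃ T K : ℕ, ∀ n k N : ℕ, K ≤ k → k + T ≤ n → ∀ (I : Finset (Finset (Fin n)))
    (t : Finset (Fin n) → ℝ), #I ≤ R → (∀ i ∈ I, 0 ≤ t i ∧ t i ≤ 1) →
    (k + j).choose j * ∑ i ∈ I, t i ≤ N → η * (k + j).choose j ≤ N →
    N ≤ L * (k + j).choose j →
    ∃ G : Finset (Finset (Fin n)), (∀ X ∈ G, #X = k ∧ ∀ a ∈ X, a.val < k + T) ∧ #G = N ∧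
      (#(shadow G) : ℝ) ≤ k * N / j - (k + j).choose (j + 1) * ∑ i ∈ I, ph j (t i) +
        ε * (k * N) := by
  obtain ⟨R', hR'⟩ : ∃ R' : ℕ, R' = ⌈L⌉₊ + 1 := ⟨_, rfl⟩
  have hL : L ≤ R' := by
    rw [hR']
    push_cast
    linarith [Nat.le_ceil L]
  have R0 : (0 : ℝ) < R' := by exact_mod_cast (by omega : 0 < R')
  obtain ⟨r, hr⟩ : ∃ r : ℕ, r = R + R' := ⟨_, rfl⟩
  obtain ⟨K, hK⟩ := exists_nat_ge (((r : ℝ) + r * (r + 2) * j) / (η * ε))
  refine ⟨j + 1 + r, K + R' * (j + 1) + 1, fun n k N hk hn I t hI ht h1 h2 h3 => ?_⟩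
  have U0 : (0 : ℝ) < (k + j).choose j := by exact_mod_cast Nat.choose_pos (Nat.le_add_left j k)
  have s0 : 0 ≤ ∑ i ∈ I, t i := sum_nonneg fun i hi => (ht i hi).1
  obtain ⟨τ, hτ⟩ : ∃ τ : ℝ, τ = (N / (k + j).choose j - ∑ i ∈ I, t i) / R' := ⟨_, rfl⟩
  have τ0 : 0 ≤ τ := by
    rw [hτ]
    refine div_nonneg (sub_nonneg.2 ?_) R0.le
    rw [le_div_iff₀ U0]
    linarith
  have τ1 : τ ≤ 1 := by
    rw [hτ, div_le_one R0]
    have := (div_le_iff₀ U0).2 h3
    linarith
  have hW : N ≤ (k + j).choose (j + 1) := by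
    have a1 : (R' : ℝ) * (j + 1) ≤ k := by exact_mod_cast (by omega : R' * (j + 1) ≤ k)
    have a2 := mul_le_mul_of_nonneg_left a1 U0.le
    have a3 := mul_le_mul_of_nonneg_right hL U0.le
    rw [← W_eq, ← mul_assoc] at a2
    have a4 := le_of_mul_le_mul_right a2 (by positivity)
    have : (N : ℝ) ≤ (k + j).choose (j + 1) := by linarith
    exact_mod_cast this
  obtain ⟨G, g1, g2, g3⟩ := wnon_core (n := n) (N := N) (r := r) hj (by omega) hn (by omega)
    (by omega) (ι := I ⊕ Fin R')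
    (by rw [Fintype.card_sum, Fintype.card_coe, Fintype.card_fin]; omega)
    (Sum.elim (fun i => t i) fun _ => τ) (by
      rintro (i | i)
      · exact ht i i.2
      · exact ⟨τ0, τ1⟩) (by
      rw [Fintype.sum_sum_type]
      simp only [Sum.elim_inl, Sum.elim_inr]
      rw [sum_coe_sort I t, sum_const, card_univ, Fintype.card_fin, nsmul_eq_mul, hτ]
      field_simp
      ring) hW
  refine ⟨G, g1, g2, g3.trans ?_⟩
  rw [Fintype.sum_sum_type]
  simp only [Sum.elim_inl, Sum.elim_inr]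
  rw [sum_coe_sort I fun i => ph j (t i)]
  have c1 : 0 ≤ ((k + j).choose (j + 1) : ℝ) * ∑ _i : Fin R', ph j τ :=
    mul_nonneg (Nat.cast_nonneg _) (sum_nonneg fun _ _ => ph_nonneg hj τ1)
  have c2 : (K : ℝ) ≤ k := by exact_mod_cast (by omega : K ≤ k)
  have c3 := mul_le_mul_of_nonneg_right ((div_le_iff₀ (mul_pos hη hε)).1 (hK.trans c2)) U0.le
  have c4 := mul_le_mul_of_nonneg_left h2 (by positivity : 0 ≤ ε * k)
  linarith

end Pool.Agent.P.MP_4f3dfd_co.Win
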