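import Pool.Agent.P.MP_4f3dfd_co.WDefs

set_option autoImplicit false
set_option linter.unusedSectionVars false
set_option linter.unusedVariables false

namespace Pool.Agent.P.MP_4f3dfd_co.Win

open Finset Pool.Agent.P.MP_4f3dfd_co.Asy Pool.Agent.P.MP_4f3dfd_co.Off

variable {V : Type*} [DecidableEq V]

theorem wpeel_ext {X Z : Finset V} {a : V} (ha : a ∈ X) (hc : #Z = #X) (h : X.erase a ⊆ Z) :
    ∃ b, b ∉ X.erase a ∧ Z = insert b (X.erase a) := by
  have h1 := card_erase_add_one ha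
  obtain ⟨b, hb1, hb2⟩ : ∃ b ∈ Z, b ∉ X.erase a := by
    by_contra hh
    push Not at hh
    have := card_le_card (show Z ⊆ X.erase a from hh)
    omega
  exact ⟨b, hb2, eq_insert h (by omega) hb1 hb2⟩

theorem wpeel_sdiff {X X₀ : Finset V} (h : #X = #X₀) : #(X₀ \ X) = #(X \ X₀) := by
  have h1 := card_sdiff_add_card_inter X X₀
  have h2 := card_sdiff_add_card_inter X₀ X
  rw [inter_comm] at h2
  omega

theorem wpeel_erase_sdiff {X X₀ : Finset V} {a : V} (ha : a ∈ X₀) :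
    X.erase a \ X₀ = X \ X₀ := by
  ext x
  simp only [mem_sdiff, mem_erase]
  exact ⟨fun h => ⟨h.1.2, h.2⟩, fun h => ⟨⟨fun e => h.2 (e ▸ ha), h.1⟩, h.2⟩⟩

/-- Counting escaping pairs. -/
theorem esc_le {c i : ℕ} (H : Finset (Finset V)) (hH : ∀ X ∈ H, #X = c) {X₀ : Finset V}
    (h₀ : #X₀ = c) :
    ∑ X ∈ H with #(X \ X₀) = i, #{a ∈ X ∩ X₀ | ∃ Z ∈ H, X.erase a ⊆ Z ∧ #(Z \ X₀) = i + 1} ≤
      (i + 1) ^ 2 * #{Z ∈ H | #(Z \ X₀) = i + 1} := by
  rw [← card_sigma]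
  have h2 : #(({Z ∈ H | #(Z \ X₀) = i + 1} : Finset (Finset V)).sigma
      fun Z => (Z \ X₀) ×ˢ (X₀ \ Z)) = (i + 1) ^ 2 * #{Z ∈ H | #(Z \ X₀) = i + 1} := by
    rw [card_sigma, sum_congr rfl (g := fun _ => (i + 1) ^ 2), sum_const, smul_eq_mul, mul_comm]
    intro Z hZ
    rw [mem_filter] at hZ
    rw [card_product, wpeel_sdiff (X := Z) (X₀ := X₀) (by rw [hH Z hZ.1, h₀]), hZ.2, sq]
  rw [← h2]
  refine card_le_card_of_surjOn
    (fun p : (Σ _ : Finset V, V × V) =>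
      (⟨insert p.2.2 (p.1.erase p.2.1), p.2.2⟩ : Σ _ : Finset V, V)) ?_
  rintro ⟨X, a⟩ hp
  rw [mem_coe, mem_sigma, mem_filter, mem_filter, mem_inter] at hp
  obtain ⟨⟨hX, hi⟩, ⟨haX, ha0⟩, Z, hZ, hs, hZi⟩ := hp
  dsimp only at hX hi haX ha0 hs
  obtain ⟨b, hb, e⟩ := wpeel_ext haX (by rw [hH Z hZ, hH X hX]) hs
  have hb0 : b ∉ X₀ := by
    intro hb0
    rw [e, insert_sdiff_of_mem _ hb0, wpeel_erase_sdiff ha0] at hZi
    omega
  have hab : a ≠ b := fun h => hb0 (h ▸ ha0)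
  refine ⟨⟨Z, b, a⟩, ?_, ?_⟩
  · rw [mem_coe, mem_sigma, mem_filter, mem_product, mem_sdiff, mem_sdiff]
    refine ⟨⟨hZ, hZi⟩, ⟨?_, hb0⟩, ha0, ?_⟩
    · dsimp only
      rw [e]; exact mem_insert_self _ _
    · dsimp only
      rw [e, mem_insert, mem_erase]
      rintro (h | h)
      · exact hab h
      · exact h.1 rfl
  · dsimp only
    rw [e, erase_insert hb, insert_erase haX]

theorem wpeel_escape {c j i : ℕ} (H : Finset (Finset V)) (hH : ∀ X ∈ H, #X = c)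
    {X₀ X : Finset V} (h₀ : #X₀ = c) (hX : #X = c) (hi : #(X \ X₀) = i) (hij : i + 1 ≤ j) {a : V}
    (haX : a ∈ X) (ha0 : a ∈ X₀) (hr : j + 1 ≤ ex H (X.erase a)) :
    ∃ Z ∈ H, X.erase a ⊆ Z ∧ #(Z \ X₀) = i + 1 := by
  by_contra hh
  push Not at hh
  have h1 : {Z ∈ H | X.erase a ⊆ Z} ⊆
      (insert a (X₀ \ X)).image fun b => insert b (X.erase a) := by
    intro Z hZ
    rw [mem_filter] at hZ
    obtain ⟨b, hb, e⟩ := wpeel_ext haX (by rw [hH Z hZ.1, hX]) hZ.2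
    refine mem_image.2 ⟨b, ?_, e.symm⟩
    have hb0 : b ∈ X₀ := by
      by_contra hb0
      apply hh Z hZ.1 hZ.2
      rw [e, insert_sdiff_of_notMem _ hb0, wpeel_erase_sdiff ha0,
        card_insert_of_notMem, hi]
      intro h
      rw [mem_sdiff] at h
      exact hb (mem_erase.2 ⟨fun e' => hb0 (e' ▸ ha0), h.1⟩)
    by_cases hba : b = a
    · rw [hba]; exact mem_insert_self _ _
    · exact mem_insert_of_mem (mem_sdiff.2 ⟨hb0, fun h => hb (mem_erase.2 ⟨hba, h⟩)⟩)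
  have h2 := ((card_le_card h1).trans card_image_le).trans (card_insert_le _ _)
  rw [wpeel_sdiff (by rw [hX, h₀]), hi] at h2
  unfold ex at hr
  omega

/-- The layers around a member grow. -/
theorem layer {c j s : ℕ} (H : Finset (Finset V)) (hH : ∀ X ∈ H, #X = c) {X₀ : Finset V}
    (h₀ : X₀ ∈ H) (hr : ∀ X ∈ H, j + s ≤ #{v ∈ X | j + 1 ≤ ex H (X.erase v)}) :
    ∀ i ≤ j, s ^ i ≤ #{X ∈ H | #(X \ X₀) = i} * i.factorial ^ 2 := by
  intro i
  induction i with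
  | zero =>
    intro _
    have : 0 < #{X ∈ H | #(X \ X₀) = 0} :=
      card_pos.2 ⟨X₀, mem_filter.2 ⟨h₀, by rw [sdiff_self, bot_eq_empty, card_empty]⟩⟩
    simp only [pow_zero, Nat.factorial_zero, one_pow, mul_one]
    omega
  | succ i ih =>
    intro hij
    have h1 := ih (by omega)
    have h2 := esc_le (i := i) H hH (hH X₀ h₀)
    have h3 : #{X ∈ H | #(X \ X₀) = i} * s ≤ ∑ X ∈ H with #(X \ X₀) = i,
        #{a ∈ X ∩ X₀ | ∃ Z ∈ H, X.erase a ⊆ Z ∧ #(Z \ X₀) = i + 1} := by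
      rw [← smul_eq_mul]
      refine card_nsmul_le_sum _ _ _ fun X hX => ?_
      rw [mem_filter] at hX
      have a1 : {v ∈ X | j + 1 ≤ ex H (X.erase v)} ⊆ (X \ X₀) ∪
          {a ∈ X ∩ X₀ | ∃ Z ∈ H, X.erase a ⊆ Z ∧ #(Z \ X₀) = i + 1} := by
        intro v hv
        rw [mem_filter] at hv
        by_cases h : v ∈ X₀
        · exact mem_union_right _ (mem_filter.2 ⟨mem_inter.2 ⟨hv.1, h⟩,
            wpeel_escape H hH (hH X₀ h₀) (hH X hX.1) hX.2 hij hv.1 h hv.2⟩)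
        · exact mem_union_left _ (mem_sdiff.2 ⟨hv.1, h⟩)
      have a2 := ((hr X hX.1).trans (card_le_card a1)).trans (card_union_le _ _)
      rw [hX.2] at a2
      omega
    calc s ^ (i + 1) = s ^ i * s := pow_succ _ _
      _ ≤ #{X ∈ H | #(X \ X₀) = i} * i.factorial ^ 2 * s := by gcongr
      _ = #{X ∈ H | #(X \ X₀) = i} * s * i.factorial ^ 2 := by ring
      _ ≤ (i + 1) ^ 2 * #{Z ∈ H | #(Z \ X₀) = i + 1} * i.factorial ^ 2 :=
          Nat.mul_le_mul_right _ (h3.trans h2)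
      _ = _ := by rw [Nat.factorial_succ]; ring

theorem wpeel_step {j : ℕ} (T H : Finset (Finset V)) {X : Finset V} (hX : X ∈ H)
    (hT : ∀ v ∈ X, X.erase v ∈ T) :
    ∑ Y ∈ T, min (ex (H.erase X) Y) j + #{v ∈ X | ¬ j + 1 ≤ ex H (X.erase v)} ≤
      ∑ Y ∈ T, min (ex H Y) j := by
  have a1 : #{v ∈ X | ¬ j + 1 ≤ ex H (X.erase v)} ≤ #{Y ∈ T | Y ⊆ X ∧ ex H Y ≤ j} := by
    apply card_le_card_of_injOn X.erase
    · intro v hv
      rw [mem_coe, mem_filter] at hv ⊢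
      exact ⟨hT v hv.1, erase_subset _ _, by omega⟩
    · intro a ha b hb hab
      rw [mem_coe, mem_filter] at ha hb
      exact erase_injOn X ha.1 hb.1 hab
  refine (Nat.add_le_add_left a1 _).trans ?_
  rw [card_filter, ← sum_add_distrib]
  refine sum_le_sum fun Y _ => ?_
  have e : ex H Y = ex (H.erase X) Y + if Y ⊆ X then 1 else 0 := by
    unfold ex
    rw [filter_erase]
    split_ifs with h
    · exact (card_erase_add_one (mem_filter.2 ⟨hX, h⟩)).symm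
    · rw [erase_eq_of_notMem fun h' => h (mem_filter.1 h').2, add_zero]
  rw [e]
  by_cases h : Y ⊆ X <;> simp only [h, true_and, false_and, if_true, if_false]
  · split_ifs <;> omega
  · omega

/-- Peeling. -/
theorem peel {c j s : ℕ} (D : Finset (Finset V)) (hD : ∀ X ∈ D, #X = c)
    (h : ∀ H ⊆ D, H.Nonempty → ∃ X ∈ H, #{v ∈ X | j + 1 ≤ ex H (X.erase v)} ≤ s) :
    c * #D ≤ j * #(shadow D) + s * #D := by
  have key : ∀ N : ℕ, ∀ H ⊆ D, #H = N →
      c * N ≤ ∑ Y ∈ shadow D, min (ex H Y) j + s * N := by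
    intro N
    induction N with
    | zero => intro H _ _; simp
    | succ N ih =>
      intro H hHD hN
      obtain ⟨X, hX, hs⟩ := h H hHD (card_pos.1 (by omega))
      have a1 := ih (H.erase X) ((erase_subset _ _).trans hHD)
        (by rw [card_erase_of_mem hX, hN]; rfl)
      have a2 := wpeel_step (j := j) (shadow D) H hX fun v hv => erase_mem_shadow (hHD hX) hv
      have a3 := card_filter_add_card_filter_not (s := X) fun v => j + 1 ≤ ex H (X.erase v)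
      rw [hD X (hHD hX)] at a3
      rw [mul_add, mul_add, mul_one, mul_one]
      omega
  refine (key _ D Subset.rfl rfl).trans (Nat.add_le_add_right ?_ _)
  rw [mul_comm, ← smul_eq_mul]
  exact sum_le_card_nsmul _ _ _ fun Y _ => min_le_right _ _

end Pool.Agent.P.MP_4f3dfd_co.Win
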