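import Pool.Agent.P.MP_4f3dfd_co.WDefs

set_option autoImplicit false
set_option linter.unusedSectionVars false
set_option linter.unusedVariables false

namespace Pool.Agent.P.MP_4f3dfd_co.Win

open Finset Pool.Agent.P.MP_4f3dfd_co.Asy Pool.Agent.P.MP_4f3dfd_co.Off

variable {n c j : ℕ} {d e : ℝ} {t : Finset (Fin n) → ℝ}

theorem ph_nonneg (hj : 1 ≤ j) {t : ℝ} (h1 : t ≤ 1) : 0 ≤ ph j t := by
  have h0 : (0 : ℝ) ≤ 1 / (j : ℝ) := by positivity
  have h := one_add_mul_self_le_rpow_one_add (s := -t) (by linarith) (p := 1 + 1 / (j : ℝ))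
    (by linarith)
  rw [← sub_eq_add_neg] at h
  unfold ph
  linarith

theorem ph_le_sq (hj : 1 ≤ j) {t : ℝ} (h0 : 0 ≤ t) (h1 : t ≤ 1) : ph j t ≤ t ^ 2 / j := by
  have hj' : (1 : ℝ) ≤ j := by exact_mod_cast hj
  have p0 : (0 : ℝ) ≤ 1 / (j : ℝ) := by positivity
  have p1 : 1 / (j : ℝ) ≤ 1 := by
    rw [div_le_one (by linarith)]
    exact hj'
  have ht : 0 ≤ 1 - t := by linarith
  have h := rpow_one_add_le_one_add_mul_self (s := -t) (by linarith) p0 p1
  rw [← sub_eq_add_neg] at h
  have e : (1 - t) ^ (1 + 1 / (j : ℝ)) = (1 - t) * (1 - t) ^ (1 / (j : ℝ)) := by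
    rw [Real.rpow_add_of_nonneg ht zero_le_one p0, Real.rpow_one]
  have h2 := mul_le_mul_of_nonneg_left h ht
  have e2 : t ^ 2 / j = t ^ 2 * (1 / (j : ℝ)) := by ring
  unfold ph
  rw [e, e2]
  generalize 1 / (j : ℝ) = p at h2 ⊢
  nlinarith

theorem ph_zero (j : ℕ) : ph j 0 = 0 := by
  unfold ph
  rw [sub_zero, Real.one_rpow]
  ring

theorem ph_lip (hj : 1 ≤ j) {s t : ℝ} (hs : s ≤ t) (h1 : t ≤ 1) :
    ph j t ≤ ph j s + 2 * (t - s) := by
  have hj' : (1 : ℝ) ≤ j := by exact_mod_cast hj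
  have p0 : (0 : ℝ) ≤ 1 / (j : ℝ) := by positivity
  have p1 : 1 / (j : ℝ) ≤ 1 := by
    rw [div_le_one (by linarith)]
    exact hj'
  have h : (1 - t) ^ (1 + 1 / (j : ℝ)) ≤ (1 - s) ^ (1 + 1 / (j : ℝ)) :=
    Real.rpow_le_rpow (by linarith) (by linarith) (by linarith)
  have h2 := mul_le_mul_of_nonneg_right p1 (sub_nonneg.2 hs)
  unfold ph
  linarith

theorem exists_max (n c j : ℕ) {d e : ℝ} (hd : 0 ≤ d) (he : 0 ≤ e) :
    ∃ S, IsGreatest (SV n c j d e) S := by
  have hcl : IsClosed {t : Finset (Fin n) → ℝ | Pk n c j d e t} := by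
    unfold Pk
    simp only [Set.ofPred_and, Set.ofPred_forall]
    refine IsClosed.inter (isClosed_iInter fun B => IsClosed.inter ?_ ?_)
      (isClosed_iInter fun v => IsClosed.inter ?_ ?_)
    · exact isClosed_le continuous_const (continuous_apply B)
    · exact isClosed_le (continuous_apply B) continuous_const
    · exact isClosed_le (continuous_const.mul
        (continuous_finsetSum _ fun B _ => continuous_apply B)) continuous_const
    · exact isClosed_le (continuous_const.mul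
        (continuous_finsetSum _ fun B _ => continuous_apply B)) continuous_const
  have hcp : IsCompact {t : Finset (Fin n) → ℝ | Pk n c j d e t} :=
    (isCompact_univ_pi fun _ : Finset (Fin n) => isCompact_Icc (a := (0 : ℝ)) (b := 1)).of_isClosed_subset
      hcl fun t ht B _ => ht.1 B
  have hne : {t : Finset (Fin n) → ℝ | Pk n c j d e t}.Nonempty := by
    refine ⟨fun _ => 0, fun B => ⟨le_rfl, zero_le_one⟩, fun v => ⟨?_, ?_⟩⟩
    · rw [sum_const_zero, mul_zero]
      exact hd
    · rw [sum_const_zero, mul_zero]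
      exact he
  have p0 : (0 : ℝ) ≤ 1 + 1 / (j : ℝ) := by positivity
  have hph : Continuous (ph j) := by
    unfold ph
    exact (((continuous_const.sub continuous_id).rpow_const fun _ => Or.inr p0).sub
      continuous_const).add (continuous_const.mul continuous_id)
  have hco : Continuous (val n c j) := by
    unfold val
    exact continuous_finsetSum _ fun B _ => hph.comp (continuous_apply B)
  obtain ⟨t, ht, hm⟩ := hcp.exists_isMaxOn hne hco.continuousOn
  refine ⟨val n c j t, ⟨t, ht, rfl⟩, ?_⟩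
  rintro s ⟨u, hu, rfl⟩
  exact hm hu

end Pool.Agent.P.MP_4f3dfd_co.Win
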