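import Pool.Agent.P.MP_4f3dfd_co.WPhi

set_option autoImplicit false
set_option linter.unusedSectionVars false
set_option linter.unusedVariables false

namespace Pool.Agent.P.MP_4f3dfd_co.Win

open Finset Pool.Agent.P.MP_4f3dfd_co.Asy Pool.Agent.P.MP_4f3dfd_co.Off

variable {n c j : ℕ} {d e : ℝ} {t : Finset (Fin n) → ℝ}

theorem Pk.sum_le (h : Pk n c j d e t) (hn : 1 ≤ n) :
    ((c + j).choose j : ℝ) * ∑ B ∈ powersetCard (c + j) univ, t B ≤ d + e := by
  obtain ⟨h1, h2⟩ := h.2 ⟨0, hn⟩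
  rw [← sum_filter_add_sum_filter_not _ fun B => (⟨0, hn⟩ : Fin n) ∈ B, mul_add]
  exact add_le_add h1 h2

theorem val_nonneg (hj : 1 ≤ j) (h : Pk n c j d e t) : 0 ≤ val n c j t := by
  exact sum_nonneg fun B _ => ph_nonneg hj (h.1 B).2

theorem wpk_W (h : Pk n c j d e t) (hn : 1 ≤ n) {G : Finset (Finset (Fin n))}
    (hG : G ⊆ powersetCard (c + j) univ) :
    ((c + j).choose (j + 1) : ℝ) * (∑ B ∈ G, t B) * (j + 1) ≤ c * (d + e) := by
  have h1 : ∑ B ∈ G, t B ≤ ∑ B ∈ powersetCard (c + j) univ, t B :=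
    sum_le_sum_of_subset_of_nonneg hG fun B _ _ => (h.1 B).1
  have h2 := (mul_le_mul_of_nonneg_left h1 (Nat.cast_nonneg _)).trans (h.sum_le hn)
  rw [mul_right_comm, W_eq, mul_right_comm, mul_comm]
  exact mul_le_mul_of_nonneg_left h2 (Nat.cast_nonneg _)

theorem wpk_small (hj : 1 ≤ j) (h : Pk n c j d e t) (hn : 1 ≤ n) {η : ℝ} (hη : 0 ≤ η)
    {G : Finset (Finset (Fin n))} (hG : G ⊆ powersetCard (c + j) univ) (ht : ∀ B ∈ G, t B ≤ η) :
    ((c + j).choose (j + 1) : ℝ) * ∑ B ∈ G, ph j (t B) ≤ η * (c * (d + e)) / (j * (j + 1)) := by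
  have hjR : (0 : ℝ) < j := by exact_mod_cast hj
  have h1 : ∑ B ∈ G, ph j (t B) ≤ η * (∑ B ∈ G, t B) / j := by
    rw [mul_sum, sum_div]
    refine sum_le_sum fun B hB => (ph_le_sq hj (h.1 B).1 (h.1 B).2).trans
      (div_le_div_of_nonneg_right ?_ hjR.le)
    rw [sq]
    exact mul_le_mul_of_nonneg_right (ht B hB) (h.1 B).1
  refine (mul_le_mul_of_nonneg_left h1 (Nat.cast_nonneg _)).trans ?_
  rw [← mul_div_assoc, ← div_div_eq_mul_div, div_div_eq_mul_div, mul_comm (j : ℝ), ← div_div]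
  refine div_le_div_of_nonneg_right ?_ hjR.le
  rw [le_div_iff₀ (by positivity)]
  have := mul_le_mul_of_nonneg_left (wpk_W h hn hG) hη
  linarith

/-- If all weights are at most `η`, the saving is at most `η c m / (j (j+1))`. -/
theorem val_le (hj : 1 ≤ j) (h : Pk n c j d e t) (hn : 1 ≤ n) {η : ℝ} (hη : 0 ≤ η)
    (ht : ∀ B ∈ powersetCard (c + j) (univ : Finset (Fin n)), t B ≤ η) :
    ((c + j).choose (j + 1) : ℝ) * val n c j t ≤ η * (c * (d + e)) / (j * (j + 1)) := by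
  exact wpk_small hj h hn hη subset_rfl ht

theorem Pk.le_min (h : Pk n c j d e t) (hj : 1 ≤ j) (hn : c + j < n)
    {B : Finset (Fin n)} (hB : B ∈ powersetCard (c + j) (univ : Finset (Fin n))) :
    ((c + j).choose j : ℝ) * t B ≤ min d e := by
  have hc := (mem_powersetCard.1 hB).2
  obtain ⟨v, hv⟩ : B.Nonempty := card_pos.1 (by omega)
  obtain ⟨u, -, hu⟩ := exists_mem_notMem_of_card_lt_card (s := B) (t := univ)
    (by rw [card_univ, Fintype.card_fin]; omega)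
  refine _root_.le_min (le_trans (mul_le_mul_of_nonneg_left ?_ (Nat.cast_nonneg _)) (h.2 v).1)
    (le_trans (mul_le_mul_of_nonneg_left ?_ (Nat.cast_nonneg _)) (h.2 u).2)
  · exact single_le_sum (fun B _ => (h.1 B).1) (mem_filter.2 ⟨hB, hv⟩)
  · exact single_le_sum (fun B _ => (h.1 B).1) (mem_filter.2 ⟨hB, hu⟩)

theorem Phi_ge {m : ℕ} (hj : 1 ≤ j) (h : Pk n c j d e t) (hn : 1 ≤ n) (hm : d + e = m) :
    (c * m : ℝ) / (j + 1) ≤ Phi c m j (val n c j t) := by
  have h1 := val_le hj h hn zero_le_one fun B _ => (h.1 B).2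
  have hjR : (0 : ℝ) < j := by exact_mod_cast hj
  have e1 : (c * m : ℝ) / (j + 1) = c * m / j - 1 * (c * m) / (j * (j + 1)) := by
    field_simp
    ring
  rw [hm] at h1
  rw [Phi, e1]
  linarith

theorem Phi_le {m : ℕ} (hj : 1 ≤ j) (h : Pk n c j d e t) :
    Phi c m j (val n c j t) ≤ (c * m : ℝ) / j := by
  exact sub_le_self _ (mul_nonneg (Nat.cast_nonneg _) (val_nonneg hj h))

/-- Dropping the small weights and shrinking the others. -/
theorem Pk.trim (hj : 1 ≤ j) (h : Pk n c j d e t) (hn : 1 ≤ n) {η : ℝ} (h0 : 0 < η)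
    (h1 : η ≤ 1 / 2) : ∃ F : Finset (Finset (Fin n)), (∀ B ∈ F, #B = c + j ∧ η ≤ t B) ∧
      (∀ v, ((c + j).choose j : ℝ) * ∑ B ∈ F with v ∈ B, t B ≤ d ∧
        ((c + j).choose j : ℝ) * ∑ B ∈ F with v ∉ B, t B ≤ e) ∧
      ((c + j).choose (j + 1) : ℝ) * val n c j t ≤
        ((c + j).choose (j + 1) : ℝ) * ∑ B ∈ F, ph j ((1 - η) * t B) + 2 * η * (c * (d + e)) ∧
      ((c + j).choose (j + 1) : ℝ) * val n c j t ≤
        ((c + j).choose (j + 1) : ℝ) * ∑ B ∈ F, ph j (t B) + η * (c * (d + e)) := by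
  have hjR : (1 : ℝ) ≤ j := by exact_mod_cast hj
  have hP : 0 ≤ (c : ℝ) * (d + e) := mul_nonneg (Nat.cast_nonneg _) (le_trans
    (mul_nonneg (Nat.cast_nonneg _) (sum_nonneg fun B _ => (h.1 B).1)) (h.sum_le hn))
  have hQ := mul_nonneg h0.le hP
  have a1 := wpk_small hj h hn h0.le (G := (powersetCard (c + j) univ).filter fun B => ¬η ≤ t B)
    (filter_subset _ _) fun B hB => (not_le.1 (mem_filter.1 hB).2).le
  have a2 : η * (c * (d + e)) / (j * (j + 1)) ≤ η * (c * (d + e)) / 2 :=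
    div_le_div_of_nonneg_left hQ two_pos (by nlinarith)
  have a3 : val n c j t = ∑ B ∈ powersetCard (c + j) univ with η ≤ t B, ph j (t B) +
      ∑ B ∈ powersetCard (c + j) univ with ¬η ≤ t B, ph j (t B) :=
    (sum_filter_add_sum_filter_not _ _ _).symm
  have a4 := wpk_W h hn (filter_subset (fun B => η ≤ t B) _)
  have a5 : ∑ B ∈ powersetCard (c + j) univ with η ≤ t B, ph j (t B) ≤
      ∑ B ∈ powersetCard (c + j) univ with η ≤ t B, ph j ((1 - η) * t B) +
        2 * η * ∑ B ∈ powersetCard (c + j) univ with η ≤ t B, t B := by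
    rw [mul_sum, ← sum_add_distrib]
    refine sum_le_sum fun B _ => ?_
    have b1 := mul_nonneg h0.le (h.1 B).1
    have := ph_lip hj (s := (1 - η) * t B) (by linarith) (h.1 B).2
    linarith
  have a6 := mul_le_mul_of_nonneg_left a5 (Nat.cast_nonneg ((c + j).choose (j + 1)))
  have a7 : 0 ≤ ((c + j).choose (j + 1) : ℝ) *
      ∑ B ∈ powersetCard (c + j) univ with η ≤ t B, t B :=
    mul_nonneg (Nat.cast_nonneg _) (sum_nonneg fun B _ => (h.1 B).1)
  have a8 := mul_le_mul_of_nonneg_left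
    ((mul_le_mul_of_nonneg_left (show (2 : ℝ) ≤ j + 1 by linarith) a7).trans a4) h0.le
  refine ⟨(powersetCard (c + j) univ).filter fun B => η ≤ t B, fun B hB =>
    ⟨(mem_powersetCard.1 (mem_filter.1 hB).1).2, (mem_filter.1 hB).2⟩, fun v => ⟨?_, ?_⟩, ?_, ?_⟩
  · exact le_trans (mul_le_mul_of_nonneg_left (sum_le_sum_of_subset_of_nonneg
      (filter_subset_filter _ (filter_subset _ _)) fun B _ _ => (h.1 B).1) (Nat.cast_nonneg _))
      (h.2 v).1
  · exact le_trans (mul_le_mul_of_nonneg_left (sum_le_sum_of_subset_of_nonneg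
      (filter_subset_filter _ (filter_subset _ _)) fun B _ _ => (h.1 B).1) (Nat.cast_nonneg _))
      (h.2 v).2
  · rw [a3, mul_add]
    linarith
  · rw [a3, mul_add]
    linarith

end Pool.Agent.P.MP_4f3dfd_co.Win
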